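import Pool.Agent.H58.FqA

set_option autoImplicit false

namespace Pool.Agent.H58.Asg

open MeasureTheory Filter Topology Complex Set
open Pool.Agent.H58.Fq

noncomputable section

/-- bounded measurable functions. -/
def Bm (w : ℝ → ℂ) : Prop := Measurable w ∧ ∃ B, ∀ t, ‖w t‖ ≤ B

/-- functions whose modulus has mean value zero. -/
def Null (w : ℝ → ℂ) : Prop :=
  Tendsto (fun T : ℝ => T⁻¹ * ∫ t in (-T)..T, ‖w t‖) atTop (𝓝 0)

lemma Bm.ii' {w : ℝ → ℂ} (h : Bm w) (a b : ℝ) : IntervalIntegrable w volume a b := by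
  obtain ⟨hm, B, hB⟩ := h
  rw [intervalIntegrable_iff]
  exact Measure.integrableOn_of_bounded (M := B) (by simp [uIoc]) hm.aestronglyMeasurable
    (ae_of_all _ hB)

lemma Bm.ii {w : ℝ → ℂ} (h : Bm w) (a b : ℝ) :
    IntervalIntegrable (fun t => ‖w t‖) volume a b := (h.ii' a b).norm

lemma Bm.sub {u v : ℝ → ℂ} (hu : Bm u) (hv : Bm v) : Bm fun t => u t - v t := by
  obtain ⟨hm, B, hB⟩ := hu
  obtain ⟨hm', B', hB'⟩ := hv
  exact ⟨hm.sub hm', B + B', fun t => (norm_sub_le _ _).trans (add_le_add (hB t) (hB' t))⟩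

lemma Bm.add {u v : ℝ → ℂ} (hu : Bm u) (hv : Bm v) : Bm fun t => u t + v t := by
  obtain ⟨hm, B, hB⟩ := hu
  obtain ⟨hm', B', hB'⟩ := hv
  exact ⟨hm.add hm', B + B', fun t => (norm_add_le _ _).trans (add_le_add (hB t) (hB' t))⟩

lemma Bm.mul {u v : ℝ → ℂ} (hu : Bm u) (hv : Bm v) : Bm fun t => u t * v t := by
  obtain ⟨hm, B, hB⟩ := hu
  obtain ⟨hm', B', hB'⟩ := hv
  exact ⟨hm.mul hm', B * B', fun t => by
    rw [norm_mul]
    exact mul_le_mul (hB t) (hB' t) (norm_nonneg _) ((norm_nonneg _).trans (hB t))⟩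

lemma Bm.const (c : ℂ) : Bm fun _ => c := ⟨measurable_const, ‖c‖, fun _ => le_rfl⟩

lemma Bm.conj {u : ℝ → ℂ} (hu : Bm u) : Bm fun t => (starRingEnd ℂ) (u t) := by
  obtain ⟨hm, B, hB⟩ := hu
  exact ⟨continuous_conj.measurable.comp hm, B, fun t => by simpa using hB t⟩

lemma Bm.comp {u : ℝ → ℂ} (hu : Bm u) {p : ℝ → ℝ} (hp : Measurable p) : Bm fun t => u (p t) := by
  obtain ⟨hm, B, hB⟩ := hu
  exact ⟨hm.comp hp, B, fun t => hB _⟩

lemma avg_nonneg (w : ℝ → ℂ) {T : ℝ} (hT : 0 < T) : 0 ≤ T⁻¹ * ∫ t in (-T)..T, ‖w t‖ :=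
  mul_nonneg (inv_nonneg.mpr hT.le)
    (intervalIntegral.integral_nonneg (by linarith) fun _ _ => norm_nonneg _)

lemma Null.of_le {w u v : ℝ → ℂ} (hw : Bm w) (hu : Bm u) (hv : Bm v) (nu : Null u) (nv : Null v)
    {C C' : ℝ} (h : ∀ᵐ t, ‖w t‖ ≤ C * ‖u t‖ + C' * ‖v t‖) : Null w := by
  have hl := (nu.const_mul C).add (nv.const_mul C')
  simp only [mul_zero, add_zero] at hl
  refine squeeze_zero' ?_ ?_ hl
  · filter_upwards [eventually_gt_atTop 0] with T hT using avg_nonneg w hT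
  · filter_upwards [eventually_gt_atTop 0] with T hT
    have h1 : ∫ t in (-T)..T, ‖w t‖ ≤ ∫ t in (-T)..T, (C * ‖u t‖ + C' * ‖v t‖) :=
      intervalIntegral.integral_mono_ae (by linarith) (hw.ii _ _)
        (((hu.ii _ _).const_mul C).add ((hv.ii _ _).const_mul C')) h
    rw [intervalIntegral.integral_add ((hu.ii _ _).const_mul C) ((hv.ii _ _).const_mul C'),
      intervalIntegral.integral_const_mul, intervalIntegral.integral_const_mul] at h1
    have := mul_le_mul_of_nonneg_left h1 (inv_nonneg.mpr hT.le)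
    linarith

lemma Null.of_tendsto {w : ℝ → ℂ} (hw : Bm w) (h : Tendsto w (cocompact ℝ) (𝓝 0)) : Null w := by
  obtain ⟨hm, B, hB⟩ := hw
  have h1 : Tendsto (fun T : ℝ => ∫ x in (-1 : ℝ)..1, ‖w (T * x)‖) atTop
      (𝓝 (∫ _ in (-1 : ℝ)..1, (0 : ℝ))) := by
    refine intervalIntegral.tendsto_integral_filter_of_dominated_convergence (fun _ => B)
      (Eventually.of_forall fun T => ?_) (Eventually.of_forall fun T => ae_of_all _ fun x _ => ?_)
      intervalIntegrable_const ?_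
    · exact ((hm.comp (measurable_const_mul T)).norm).aestronglyMeasurable
    · simpa using hB _
    · have : ∀ᵐ x : ℝ, x ≠ 0 := by simp [ae_iff]
      filter_upwards [this] with x hx _
      have h2 : Tendsto (fun T : ℝ => T * x) atTop (cocompact ℝ) := by
        rw [cocompact_eq_atBot_atTop]
        rcases lt_or_gt_of_ne hx with hx | hx
        · exact (tendsto_id.atTop_mul_const_of_neg hx).mono_right le_sup_left
        · exact (tendsto_id.atTop_mul_const hx).mono_right le_sup_right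
      simpa using (h.comp h2).norm
  simp only [intervalIntegral.integral_zero] at h1
  refine h1.congr' ?_
  filter_upwards [eventually_gt_atTop 0] with T hT
  rw [intervalIntegral.integral_comp_mul_left (fun t => ‖w t‖) hT.ne']
  simp

lemma Null.zero : Null fun _ => 0 := by simp [Null]

lemma Null.shift {w : ℝ → ℂ} (hw : Bm w) (h : Null w) (c : ℝ) : Null fun t => w (t + c) := by
  have hl := (h.comp (tendsto_atTop_add_const_right atTop |c| tendsto_id)).const_mul 2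
  simp only [mul_zero] at hl
  refine squeeze_zero' ?_ ?_ hl
  · filter_upwards [eventually_gt_atTop 0] with T hT using avg_nonneg _ hT
  · filter_upwards [eventually_gt_atTop 0, eventually_ge_atTop |c|] with T hT hc
    simp only [Function.comp, id]
    rw [intervalIntegral.integral_comp_add_right (fun t => ‖w t‖)]
    have h1 : ∫ t in (-T + c)..(T + c), ‖w t‖ ≤ ∫ t in (-(T + |c|))..(T + |c|), ‖w t‖ :=
      intervalIntegral.integral_mono_interval (by linarith [neg_abs_le c]) (by linarith)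
        (by linarith [le_abs_self c]) (ae_of_all _ fun _ => norm_nonneg _) (hw.ii _ _)
    have h0 : 0 ≤ ∫ t in (-(T + |c|))..(T + |c|), ‖w t‖ :=
      intervalIntegral.integral_nonneg (by linarith [abs_nonneg c]) fun _ _ => norm_nonneg _
    have h2 : T⁻¹ ≤ 2 * (T + |c|)⁻¹ := by
      have : 0 < T + |c| := by linarith [abs_nonneg c]
      rw [← div_eq_mul_inv, inv_eq_one_div, div_le_div_iff₀ hT this]; linarith
    calc T⁻¹ * ∫ t in (-T + c)..(T + c), ‖w t‖
        ≤ T⁻¹ * ∫ t in (-(T + |c|))..(T + |c|), ‖w t‖ :=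
          mul_le_mul_of_nonneg_left h1 (inv_nonneg.mpr hT.le)
      _ ≤ (2 * (T + |c|)⁻¹) * ∫ t in (-(T + |c|))..(T + |c|), ‖w t‖ :=
          mul_le_mul_of_nonneg_right h2 h0
      _ = _ := by ring

lemma Null.refl {w : ℝ → ℂ} (h : Null w) : Null fun t => w (-t) := by
  unfold Null at *
  refine h.congr fun T => ?_
  rw [intervalIntegral.integral_comp_neg (fun t => ‖w t‖)]; simp

/-- the line inside its Bohr compactification. -/
def io (t : ℝ) : K ℝ := ex (AddMonoidHom.mulLeft t)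

lemma ev_io (t x : ℝ) : ev (io t) x = cexp ((t * x : ℝ) * I) := by
  unfold io; rw [ev_ex]; rfl

lemma io_add (s t : ℝ) : io (s + t) = io s * io t := by
  apply K_ext; intro x
  rw [ev_mul, ev_io, ev_io, ev_io, ← Complex.exp_add]; congr 1; push_cast; ring

lemma io_zero : io 0 = 1 := by
  have := io_add 0 0
  rw [add_zero] at this
  exact (mul_eq_left.mp this.symm)

lemma io_neg (t : ℝ) : io (-t) = (io t)⁻¹ := by
  rw [eq_inv_iff_mul_eq_one, ← io_add, neg_add_cancel, io_zero]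

lemma cont_io : Continuous io := cont_K fun x => by simp only [ev_io]; fun_prop

/-- almost periodic functions. -/
def AP (f : ℝ → ℂ) : Prop := ∃ g : K ℝ → ℂ, Continuous g ∧ ∀ t, f t = g (io t)

lemma AP.cont {f : ℝ → ℂ} (h : AP f) : Continuous f := by
  obtain ⟨g, hg, hf⟩ := h
  rw [show f = g ∘ io from funext hf]; exact hg.comp cont_io

lemma AP.bm {f : ℝ → ℂ} (h : AP f) : Bm f := by
  refine ⟨h.cont.measurable, ?_⟩
  obtain ⟨g, hg, hf⟩ := h
  obtain ⟨B, hB⟩ := isCompact_univ.exists_bound_of_continuousOn hg.continuousOn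
  exact ⟨B, fun t => by rw [hf]; exact hB _ trivial⟩

lemma AP.periods {f : ℝ → ℂ} (h : AP f) {ε : ℝ} (hε : 0 < ε) :
    ∃ S : Finset ℝ, ∀ t, ∃ s ∈ S, ∀ u, ‖f (u + (t - s)) - f u‖ ≤ ε := by
  obtain ⟨g, hg, hf⟩ := h
  have hV : ∀ᶠ v in 𝓝 (1 : K ℝ), ∀ χ ∈ (univ : Set (K ℝ)), ‖g (χ * v) - g χ‖ < ε := by
    refine isCompact_univ.eventually_forall_of_forall_eventually fun χ _ => ?_
    have hc : Continuous fun z : K ℝ × K ℝ => ‖g (z.2 * z.1) - g z.2‖ := by fun_prop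
    exact hc.continuousAt.eventually_lt continuousAt_const (by simpa using hε)
  obtain ⟨V, hVs, hVo, hV1⟩ := mem_nhds_iff.mp hV
  have hcomp : IsCompact (closure (range io)) := isClosed_closure.isCompact
  obtain ⟨S, hS⟩ := hcomp.elim_finite_subcover (fun s : ℝ => {χ : K ℝ | (io s)⁻¹ * χ ∈ V})
    (fun s => hVo.preimage (by fun_prop)) (by
      intro χ hχ
      have ho : IsOpen {ψ : K ℝ | ψ⁻¹ * χ ∈ V} := hVo.preimage (by fun_prop)
      obtain ⟨ψ, hψ, s, rfl⟩ := mem_closure_iff.mp hχ _ ho (by simpa using hV1)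
      exact mem_iUnion.mpr ⟨s, hψ⟩)
  refine ⟨S, fun t => ?_⟩
  have := hS (subset_closure (mem_range_self t))
  simp only [mem_iUnion, mem_ofPred_eq] at this
  obtain ⟨s, hs, hv⟩ := this
  refine ⟨s, hs, fun u => ?_⟩
  have h2 := hVs hv (io u) trivial
  rw [hf, hf, io_add, sub_eq_neg_add t s, io_add, io_neg]
  exact h2.le

lemma AP.eq_zero {f : ℝ → ℂ} (h : AP f) (hn : Null f) (t₀ : ℝ) : f t₀ = 0 := by
  by_contra h0
  have hε : 0 < ‖f t₀‖ / 2 := by have := norm_pos_iff.mpr h0; positivity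
  obtain ⟨S, hS⟩ := h.periods hε
  have hl := tendsto_finsetSum S fun s _ => hn.shift h.bm (t₀ - s)
  simp only [Finset.sum_const_zero] at hl
  have hb : ∀ s, Bm fun t => f (t + (t₀ - s)) := fun s => h.bm.comp (by fun_prop)
  have : ∀ᶠ T : ℝ in atTop, ‖f t₀‖ ≤
      ∑ s ∈ S, T⁻¹ * ∫ t in (-T)..T, ‖f (t + (t₀ - s))‖ := by
    filter_upwards [eventually_gt_atTop 0] with T hT
    rw [← Finset.mul_sum, ← intervalIntegral.integral_finsetSum fun s _ => (hb s).ii _ _]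
    have h1 : ∫ _ in (-T)..T, ‖f t₀‖ / 2 ≤ ∫ t in (-T)..T, ∑ s ∈ S, ‖f (t + (t₀ - s))‖ := by
      refine intervalIntegral.integral_mono_on (by linarith) intervalIntegrable_const ?_
        fun t _ => ?_
      · have := IntervalIntegrable.sum S fun s _ => (hb s).ii (-T) T
        refine this.congr fun t _ => ?_
        simp
      · obtain ⟨s, hs, hu⟩ := hS t
        have h3 := hu t₀
        have h4 : ‖f t₀‖ / 2 ≤ ‖f (t + (t₀ - s))‖ := by
          rw [show t + (t₀ - s) = t₀ + (t - s) by ring]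
          have := norm_sub_norm_le (f t₀) (f (t₀ + (t - s)))
          rw [norm_sub_rev] at this
          linarith
        exact h4.trans (Finset.single_le_sum (f := fun s => ‖f (t + (t₀ - s))‖)
          (fun _ _ => norm_nonneg _) hs)
    rw [intervalIntegral.integral_const, smul_eq_mul] at h1
    have := mul_le_mul_of_nonneg_left h1 (inv_nonneg.mpr hT.le)
    refine le_trans (le_of_eq ?_) this
    field_simp; ring
  have := ge_of_tendsto hl this
  linarith

lemma AP.op {f₁ f₂ : ℝ → ℂ} (h₁ : AP f₁) (h₂ : AP f₂) (Φ : ℂ → ℂ → ℂ)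
    (hΦ : Continuous fun z : ℂ × ℂ => Φ z.1 z.2) : AP fun t => Φ (f₁ t) (f₂ t) := by
  obtain ⟨g, hg, hf⟩ := h₁
  obtain ⟨g', hg', hf'⟩ := h₂
  exact ⟨fun χ => Φ (g χ) (g' χ), hΦ.comp (hg.prodMk hg'), fun t => by simp only [hf, hf']⟩

lemma AP.const (c : ℂ) : AP fun _ => c := ⟨fun _ => c, continuous_const, fun _ => rfl⟩

lemma AP.refl {f : ℝ → ℂ} (h : AP f) : AP fun t => f (-t) := by
  obtain ⟨g, hg, hf⟩ := h
  exact ⟨fun χ => g χ⁻¹, by fun_prop, fun t => by simp only [hf, io_neg]⟩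

/-- `f` is the almost periodic component of `G`. -/
def Rl (G f : ℝ → ℂ) : Prop := Bm G ∧ AP f ∧ Null fun t => G t - f t

lemma Rl.mul {G₁ G₂ f₁ f₂ : ℝ → ℂ} (h₁ : Rl G₁ f₁) (h₂ : Rl G₂ f₂) :
    Rl (fun t => G₁ t * G₂ t) fun t => f₁ t * f₂ t := by
  obtain ⟨b1, a1, n1⟩ := h₁
  obtain ⟨b2, a2, n2⟩ := h₂
  refine ⟨b1.mul b2, a1.op a2 (· * ·) (by fun_prop), ?_⟩
  obtain ⟨B, hB⟩ := b1.2
  obtain ⟨B', hB'⟩ := a2.bm.2
  refine Null.of_le ((b1.mul b2).sub (a1.bm.mul a2.bm)) (b1.sub a1.bm) (b2.sub a2.bm) n1 n2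
    (C := B') (C' := B) (ae_of_all _ fun t => ?_)
  rw [show G₁ t * G₂ t - f₁ t * f₂ t = f₂ t * (G₁ t - f₁ t) + G₁ t * (G₂ t - f₂ t) by ring]
  refine (norm_add_le _ _).trans (add_le_add ?_ ?_) <;> rw [norm_mul]
  · exact mul_le_mul_of_nonneg_right (hB' t) (norm_nonneg _)
  · exact mul_le_mul_of_nonneg_right (hB t) (norm_nonneg _)

lemma Rl.add {G₁ G₂ f₁ f₂ : ℝ → ℂ} (h₁ : Rl G₁ f₁) (h₂ : Rl G₂ f₂) :
    Rl (fun t => G₁ t + G₂ t) fun t => f₁ t + f₂ t := by
  obtain ⟨b1, a1, n1⟩ := h₁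
  obtain ⟨b2, a2, n2⟩ := h₂
  refine ⟨b1.add b2, a1.op a2 (· + ·) (by fun_prop), ?_⟩
  refine Null.of_le ((b1.add b2).sub (a1.bm.add a2.bm)) (b1.sub a1.bm) (b2.sub a2.bm) n1 n2
    (C := 1) (C' := 1) (ae_of_all _ fun t => ?_)
  rw [show G₁ t + G₂ t - (f₁ t + f₂ t) = (G₁ t - f₁ t) + (G₂ t - f₂ t) by ring, one_mul, one_mul]
  exact norm_add_le _ _

lemma Rl.self {f : ℝ → ℂ} (h : AP f) : Rl f f := ⟨h.bm, h, by simpa using Null.zero⟩

lemma Rl.conj {G f : ℝ → ℂ} (h : Rl G f) :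
    Rl (fun t => (starRingEnd ℂ) (G t)) fun t => (starRingEnd ℂ) (f t) := by
  obtain ⟨b1, a1, n1⟩ := h
  refine ⟨b1.conj, a1.op a1 (fun z _ => (starRingEnd ℂ) z) (by fun_prop), ?_⟩
  unfold Null at *
  simpa only [← map_sub, Complex.norm_conj] using n1

lemma Rl.refl {G f : ℝ → ℂ} (h : Rl G f) : Rl (fun t => G (-t)) fun t => f (-t) :=
  ⟨h.1.comp measurable_neg, h.2.1.refl, h.2.2.refl⟩

lemma Rl.congr {G G' f : ℝ → ℂ} (h : Rl G f) (hG : Bm G') (he : ∀ᵐ t, G' t = G t) : Rl G' f := by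
  obtain ⟨b1, a1, n1⟩ := h
  refine ⟨hG, a1, Null.of_le (hG.sub a1.bm) (b1.sub a1.bm) (b1.sub a1.bm) n1 n1
    (C := 1) (C' := 0) ?_⟩
  filter_upwards [he] with t ht
  simp [ht]

lemma Rl.uniq {G f f' : ℝ → ℂ} (h : Rl G f) (h' : Rl G f') (t : ℝ) : f t = f' t := by
  obtain ⟨b1, a1, n1⟩ := h
  obtain ⟨-, a2, n2⟩ := h'
  have := (a1.op a2 (· - ·) (by fun_prop)).eq_zero (Null.of_le (a1.bm.sub a2.bm) (b1.sub a1.bm)
    (b1.sub a2.bm) n1 n2 (C := 1) (C' := 1) (ae_of_all _ fun t => by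
      rw [show f t - f' t = -(G t - f t) + (G t - f' t) by ring, one_mul, one_mul]
      exact (norm_add_le _ _).trans (by rw [norm_neg]))) t
  exact sub_eq_zero.mp this

lemma Rl.pow {G f : ℝ → ℂ} (h : Rl G f) (n : ℕ) : Rl (fun t => G t ^ n) fun t => f t ^ n := by
  induction n with
  | zero => simpa using Rl.self (AP.const 1)
  | succ n ih => simpa only [pow_succ] using ih.mul h

end

end Pool.Agent.H58.Asg
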