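import Pool.Agent.H58.AsgA

set_option autoImplicit false

namespace Pool.Agent.H58.Asg

open MeasureTheory Filter Topology Complex Set

noncomputable section

lemma const_of_exp {h : ℝ → ℂ} (hc : Continuous h) (he : ∀ t, cexp (h t) = 1) (s t : ℝ) :
    h s = h t :=
  Complex.isCoveringMap_exp.const_of_comp hc (fun a a' => Subtype.ext (by simp [he])) s t

lemma exists_log {f : ℝ → ℂ} (hf : Continuous f) (h0 : ∀ t, f t ≠ 0) :
    ∃ β : ℝ → ℂ, Continuous β ∧ ∀ t, cexp (β t) = f t := by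
  rcases Complex.isCoveringMapOn_exp.existsUnique_continuousMap_lifts
    (⟨f, hf⟩ : C(ℝ, ℂ)) (a₀ := 0) (Complex.exp_log (h0 0)) (fun x => h0 x) with ⟨β, ⟨-, hβ⟩, -⟩
  exact ⟨β, β.continuous, fun t => congrFun hβ t⟩

lemma log_bdd {f β : ℝ → ℂ} (hf : AP f) (h1 : ∀ t, ‖f t‖ = 1) (he : ∀ t, f (-t) = f t)
    (hβ : Continuous β) (hl : ∀ t, cexp (β t) = f t) : ∃ B, ∀ t, ‖β t - β 0‖ ≤ B := by
  have h0 : ∀ t, f t ≠ 0 := fun t h => by simpa [h] using h1 t
  have hev : ∀ t, β (-t) = β t := fun t => by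
    have := const_of_exp (h := fun t => β (-t) - β t) (by fun_prop)
      (fun t => by rw [Complex.exp_sub, hl, hl, he, div_self (h0 t)]) t 0
    simpa [sub_eq_zero] using this
  obtain ⟨S, hS⟩ := hf.periods (ε := 1 / 2) (by norm_num)
  refine ⟨3 / 2 + ∑ s ∈ S, ‖β s - β 0‖, fun t => ?_⟩
  obtain ⟨s, hs, hu⟩ := hS t
  set τ := t - s with hτ
  let z : ℝ → ℂ := fun u => f (u + τ) / f u - 1
  have hz : ∀ u, ‖z u‖ ≤ 1 / 2 := fun u => by
    have : z u = (f (u + τ) - f u) / f u := by simp only [z]; field_simp [h0 u]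
    rw [this, norm_div, h1, div_one]; exact hu u
  have hzc : Continuous z := ((hf.cont.comp (by fun_prop)).div hf.cont h0).sub continuous_const
  have hθc : Continuous fun u => Complex.log (1 + z u) :=
    (continuous_const.add hzc).clog fun u =>
      Complex.mem_slitPlane_of_norm_lt_one ((hz u).trans_lt (by norm_num))
  have hθ : ∀ u, ‖Complex.log (1 + z u)‖ ≤ 3 / 4 := fun u =>
    (Complex.norm_log_one_add_half_le_self (hz u)).trans (by linarith [hz u])
  have hc := const_of_exp (h := fun u => β (u + τ) - β u - Complex.log (1 + z u)) (by fun_prop)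
    (fun u => by
      have h2 : 1 + z u = f (u + τ) / f u := by simp [z]
      have h3 : f (u + τ) / f u ≠ 0 := div_ne_zero (h0 _) (h0 _)
      rw [Complex.exp_sub, Complex.exp_sub, hl, hl, h2, Complex.exp_log h3, div_self h3])
    s (-(τ / 2))
  have h4 : -(τ / 2) + τ = τ / 2 := by ring
  have h5 : s + τ = t := by rw [hτ]; ring
  simp only [h4, h5, hev, sub_self, zero_sub] at hc
  have h6 : ‖β t - β s‖ ≤ 3 / 2 := by
    rw [show β t - β s = Complex.log (1 + z s) - Complex.log (1 + z (-(τ / 2))) by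
      linear_combination hc]
    exact (norm_sub_le _ _).trans (by linarith [hθ s, hθ (-(τ / 2))])
  have h7 := Finset.single_le_sum (f := fun s => ‖β s - β 0‖) (fun _ _ => norm_nonneg _) hs
  calc ‖β t - β 0‖ = ‖(β t - β s) + (β s - β 0)‖ := by ring_nf
    _ ≤ _ := (norm_add_le _ _).trans (add_le_add h6 h7)

/-- the phase function. -/
def ph (L : ℝ → ℝ) (y t : ℝ) : ℂ := cexp ((y * L t : ℝ) * I)

lemma norm_ph (L : ℝ → ℝ) (y t : ℝ) : ‖ph L y t‖ = 1 := Complex.norm_exp_ofReal_mul_I _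

lemma bm_ph {L : ℝ → ℝ} (hL : Measurable L) (y : ℝ) : Bm (ph L y) :=
  ⟨by unfold ph; fun_prop, 1, fun t => (norm_ph L y t).le⟩

lemma near_const {L : ℝ → ℝ} (hev : ∀ t, L (-t) = L t)
    (h : ∀ y : ℝ, |y| ≤ 1 / 2 → ∃ f, Rl (ph L y) f) (y : ℝ) :
    ∃ n : ℕ, ∃ q : ℂ, ‖q‖ = 1 ∧ ∀ᶠ T : ℝ in atTop,
      ‖(∫ t in (-T)..T, ph L (y / (n + 1)) t) - 2 * T * q‖ ≤ T / 2 := by
  have hn : ∀ y f, Rl (ph L y) f → ∀ t, ‖f t‖ = 1 := fun y f hf t => by
    have h1 := hf.mul hf.conj
    have h2 : (fun t => ph L y t * (starRingEnd ℂ) (ph L y t)) = fun _ => 1 := by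
      funext t; rw [Complex.mul_conj, Complex.normSq_eq_norm_sq, norm_ph]; simp
    rw [h2] at h1
    have h3 := h1.uniq (Rl.self (AP.const 1)) t
    simp only [Complex.mul_conj, Complex.normSq_eq_norm_sq] at h3
    have h4 : ‖f t‖ ^ 2 = 1 := by exact_mod_cast h3
    nlinarith [norm_nonneg (f t)]
  have he : ∀ y f, Rl (ph L y) f → ∀ t, f (-t) = f t := fun y f hf t => by
    have h1 := hf.refl
    have h2 : (fun t => ph L y (-t)) = ph L y := by funext t; simp [ph, hev]
    rw [h2] at h1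
    exact h1.uniq hf t
  obtain ⟨m, hm⟩ := exists_nat_ge (2 * |y|)
  have hm0 : (0 : ℝ) < m + 1 := by positivity
  have hy : |y / (m + 1)| ≤ 1 / 2 := by
    rw [abs_div, abs_of_pos hm0, div_le_iff₀ hm0]; linarith
  obtain ⟨f, hf⟩ := h _ hy
  have hf0 : ∀ t, f t ≠ 0 := fun t h => by simpa [h] using hn _ f hf t
  obtain ⟨β, hβ, hl⟩ := exists_log hf.2.1.cont hf0
  obtain ⟨B, hB⟩ := log_bdd hf.2.1 (hn _ f hf) (he _ f hf) hβ hl
  obtain ⟨k, hk⟩ := exists_nat_ge (16 * B)
  have hk0 : (0 : ℝ) < k + 1 := by positivity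
  have hy2 : |y / (m + 1) / (k + 1)| ≤ 1 / 2 := by
    rw [abs_div, abs_of_pos hk0, div_le_iff₀ hk0]
    have : (0 : ℝ) ≤ k := by positivity
    linarith
  obtain ⟨g, hg⟩ := h _ hy2
  have hg0 : ∀ t, g t ≠ 0 := fun t h => by simpa [h] using hn _ g hg t
  obtain ⟨γ, hγ, hl'⟩ := exists_log hg.2.1.cont hg0
  have hp : ∀ t, g t ^ (k + 1) = f t := fun t => by
    have h1 := hg.pow (k + 1)
    have h2 : (fun t => ph L (y / (m + 1) / (k + 1)) t ^ (k + 1)) = ph L (y / (m + 1)) := by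
      funext t
      have : ((k : ℂ) + 1) ≠ 0 := by exact_mod_cast hk0.ne'
      simp only [ph]
      rw [← Complex.exp_nat_mul]; congr 1; push_cast; field_simp
    rw [h2] at h1
    exact h1.uniq hf t
  have hγb : ∀ t, ‖γ t - γ 0‖ ≤ 1 / 16 := fun t => by
    have hc := const_of_exp (h := fun t => ((k + 1 : ℕ) : ℂ) * γ t - β t) (by fun_prop)
      (fun t => by rw [Complex.exp_sub, Complex.exp_nat_mul, hl', hl, hp, div_self (hf0 t)]) t 0
    have h1 : ((k + 1 : ℕ) : ℂ) * (γ t - γ 0) = β t - β 0 := by linear_combination hc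
    have h2 := congrArg norm h1
    rw [norm_mul, Complex.norm_natCast] at h2
    have h3 := hB t
    push_cast at h2
    have h4 : (k + 1 : ℝ) * ‖γ t - γ 0‖ ≤ (k + 1) * (1 / 16) := by linarith
    exact le_of_mul_le_mul_left h4 hk0
  have hgb : ∀ t, ‖g t - g 0‖ ≤ 1 / 8 := fun t => by
    have h1 : g t - g 0 = g 0 * (cexp (γ t - γ 0) - 1) := by
      rw [Complex.exp_sub, hl', hl']; field_simp [hg0 0]
    rw [h1, norm_mul, hn _ g hg, one_mul]
    exact (Complex.norm_exp_sub_one_le ((hγb t).trans (by norm_num))).trans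
      (by linarith [hγb t])
  refine ⟨m * k + m + k, g 0, hn _ g hg 0, ?_⟩
  have hyy : y / ((m * k + m + k : ℕ) + 1) = y / (m + 1) / (k + 1) := by
    rw [div_div]; congr 1; push_cast; ring
  rw [hyy]
  have hN := hg.2.2.eventually (gt_mem_nhds (show (0 : ℝ) < 1 / 4 by norm_num))
  filter_upwards [hN, eventually_gt_atTop 0] with T hT hT0
  set e := ph L (y / (m + 1) / (k + 1))
  have hbm : Bm fun t => e t - g t := hg.1.sub hg.2.1.bm
  have h1 : (∫ t in (-T)..T, e t) - 2 * T * g 0 = ∫ t in (-T)..T, (e t - g 0) := by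
    rw [intervalIntegral.integral_sub (hg.1.ii' _ _) intervalIntegrable_const,
      intervalIntegral.integral_const]
    simp; left; ring
  have h2 : ‖∫ t in (-T)..T, (e t - g 0)‖ ≤ ∫ t in (-T)..T, (‖e t - g t‖ + 1 / 8) := by
    refine intervalIntegral.norm_integral_le_of_norm_le (by linarith)
      (ae_of_all _ fun t _ => ?_) ((hbm.ii _ _).add intervalIntegrable_const)
    calc ‖e t - g 0‖ = ‖(e t - g t) + (g t - g 0)‖ := by ring_nf
      _ ≤ _ := (norm_add_le _ _).trans (add_le_add le_rfl (hgb t))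
  rw [intervalIntegral.integral_add (hbm.ii _ _) intervalIntegrable_const,
    intervalIntegral.integral_const, smul_eq_mul] at h2
  rw [inv_mul_lt_iff₀ hT0] at hT
  rw [h1]; linarith

/-- integral of an exponential over an interval. -/
def Wk (a b l : ℝ) : ℂ := ∫ y in a..b, cexp ((y * l : ℝ) * I)

lemma cont_Wk (a b : ℝ) : Continuous (Wk a b) :=
  intervalIntegral.continuous_of_dominated_interval (bound := fun _ => 1)
    (fun l => (by fun_prop : Continuous fun y : ℝ => cexp ((y * l : ℝ) * I)).aestronglyMeasurable)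
    (fun l => ae_of_all _ fun y _ => (Complex.norm_exp_ofReal_mul_I _).le)
    intervalIntegrable_const (ae_of_all _ fun y _ => by fun_prop)

lemma norm_Wk (a b l : ℝ) : ‖Wk a b l‖ ≤ |b - a| := by
  have := intervalIntegral.norm_integral_le_of_norm_le_const (a := a) (b := b) (C := 1)
    (f := fun y : ℝ => cexp ((y * l : ℝ) * I)) fun y _ => (Complex.norm_exp_ofReal_mul_I _).le
  rw [one_mul] at this
  exact this

lemma norm_Wk' (a b : ℝ) {l : ℝ} (hl : l ≠ 0) : ‖Wk a b l‖ ≤ 2 / |l| := by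
  have h1 : Wk a b l = ∫ y in a..b, cexp ((l * I) * y) := by
    unfold Wk; congr 1; funext y; congr 1; push_cast; ring
  have h2 : (l : ℂ) * I ≠ 0 := mul_ne_zero (by exact_mod_cast hl) I_ne_zero
  rw [h1, integral_exp_mul_complex h2, norm_div]
  have h3 : ∀ x : ℝ, ‖cexp (l * I * x)‖ = 1 := fun x => by
    rw [show (l : ℂ) * I * x = (l * x : ℝ) * I by push_cast; ring]
    exact Complex.norm_exp_ofReal_mul_I _
  have h4 : ‖(l : ℂ) * I‖ = |l| := by simp
  rw [h4]
  refine div_le_div_of_nonneg_right ((norm_sub_le _ _).trans ?_) (abs_nonneg l)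
  rw [h3, h3]; norm_num

theorem core {L : ℝ → ℝ} (hL : Measurable L) (hev : ∀ t, L (-t) = L t)
    (hlim : Tendsto L (cocompact ℝ) atBot)
    (h : ∀ y : ℝ, |y| ≤ 1 / 2 → ∃ f, Rl (ph L y) f) : False := by
  let q : ℕ → ℂ := TopologicalSpace.denseSeq ℂ
  let F : ℕ → ℝ → ℝ → ℂ := fun n T y => ∫ t in (-T)..T, ph L (y / (n + 1)) t
  have hF : ∀ n T, Continuous (F n T) := fun n T =>
    intervalIntegral.continuous_of_dominated_interval (bound := fun _ => 1)
      (fun y => (bm_ph hL _).1.aestronglyMeasurable)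
      (fun y => ae_of_all _ fun t _ => (norm_ph _ _ _).le)
      intervalIntegrable_const (ae_of_all _ fun t _ => by unfold ph; fun_prop)
  let S : ℕ × ℕ × ℕ → Set ℝ := fun p =>
    {y | 3 / 4 ≤ ‖q p.2.2‖ ∧ ∀ T : ℝ, (p.2.1 : ℝ) ≤ T → ‖F p.1 T y - 2 * T * q p.2.2‖ ≤ T}
  have hS : ∀ p, IsClosed (S p) := fun p => by
    refine IsClosed.inter (isClosed_const) ?_
    change IsClosed {y | ∀ T : ℝ, (p.2.1 : ℝ) ≤ T → ‖F p.1 T y - 2 * T * q p.2.2‖ ≤ T}
    simp only [ofPred_forall]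
    exact isClosed_iInter fun T => isClosed_iInter fun _ =>
      isClosed_le (((hF _ T).sub continuous_const).norm) continuous_const
  have hU : ⋃ p, S p = univ := by
    refine eq_univ_of_forall fun y => ?_
    obtain ⟨n, q₀, hq, hT⟩ := near_const hev h y
    obtain ⟨T₀, hT₀⟩ := eventually_atTop.mp hT
    obtain ⟨N, hN⟩ := exists_nat_ge T₀
    obtain ⟨j, hj⟩ := (TopologicalSpace.denseRange_denseSeq ℂ).exists_dist_lt q₀
      (show (0 : ℝ) < 1 / 4 by norm_num)
    rw [dist_eq_norm] at hj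
    refine mem_iUnion.mpr ⟨(n, N, j), ?_, fun T hT => ?_⟩
    · have := norm_sub_norm_le q₀ (q j)
      simp only; linarith
    · have hT0 : 0 ≤ T := le_trans (Nat.cast_nonneg N) hT
      have h1 := hT₀ T (hN.trans hT)
      calc ‖F n T y - 2 * T * q j‖ = ‖(F n T y - 2 * T * q₀) + 2 * T * (q₀ - q j)‖ := by ring_nf
        _ ≤ T / 2 + ‖2 * (T : ℂ) * (q₀ - q j)‖ := (norm_add_le _ _).trans (add_le_add h1 le_rfl)
        _ ≤ T := by
          rw [norm_mul, norm_mul, Complex.norm_real, Real.norm_of_nonneg hT0]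
          simp only [Complex.norm_ofNat]
          nlinarith
  obtain ⟨⟨n, N, j⟩, y₀, hy₀⟩ := nonempty_interior_of_iUnion_of_closed hS hU
  obtain ⟨δ, hδ, hball⟩ := Metric.mem_nhds_iff.mp (mem_interior_iff_mem_nhds.mp hy₀)
  set a := y₀ - δ / 2
  set b := y₀ + δ / 2
  have hab : b - a = δ := by simp only [a, b]; ring
  have hmem : ∀ y ∈ uIoc a b, y ∈ S (n, N, j) := fun y hy => by
    rw [uIoc_of_le (by linarith)] at hy
    refine hball ?_
    rw [Metric.mem_ball, Real.dist_eq, abs_lt]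
    constructor <;> [linarith [hy.1]; linarith [hy.2]]
  have hq : 3 / 4 ≤ ‖q j‖ := (hball (Metric.mem_ball_self hδ)).1
  let w : ℝ → ℂ := fun t => Wk a b (L t / (n + 1))
  have hn0 : (0 : ℝ) < n + 1 := by positivity
  have hwb : Bm w := ⟨(cont_Wk a b).measurable.comp (by fun_prop), _, fun t => norm_Wk _ _ _⟩
  have hw0 : Tendsto w (cocompact ℝ) (𝓝 0) := by
    have h1 : Tendsto (fun t => L t / (n + 1)) (cocompact ℝ) atBot := hlim.atBot_div_const hn0
    have h2 : Tendsto (fun t => 2 / |L t / (n + 1)|) (cocompact ℝ) (𝓝 0) :=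
      (tendsto_abs_atBot_atTop.comp h1).const_div_atTop 2
    refine squeeze_zero_norm' ?_ h2
    filter_upwards [h1.eventually (eventually_lt_atBot 0)] with t ht using norm_Wk' _ _ ht.ne
  have hN := (Null.of_tendsto hwb hw0).eventually (gt_mem_nhds (show (0 : ℝ) < δ / 2 by positivity))
  obtain ⟨T, hT, hT0, hTN⟩ := (hN.and ((eventually_gt_atTop 0).and
    (eventually_ge_atTop (N : ℝ)))).exists
  have h1 : ∫ y in a..b, F n T y = ∫ t in (-T)..T, w t := by
    simp only [F]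
    rw [intervalIntegral_intervalIntegral_swap]
    · congr 1; funext t
      simp only [w, Wk, ph]
      congr 1; funext y; congr 3; ring
    · refine Measure.integrableOn_of_bounded (M := 1) ?_ ?_ (ae_of_all _ fun p => (norm_ph _ _ _).le)
      · rw [Measure.volume_eq_prod, Measure.prod_prod]
        exact ENNReal.mul_ne_top (by simp [uIoc]) (by simp [uIoc])
      · refine Measurable.aestronglyMeasurable ?_
        change Measurable fun p : ℝ × ℝ => cexp ((p.1 / (n + 1) * L p.2 : ℝ) * I)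
        fun_prop
  have h2 : ‖∫ y in a..b, (F n T y - 2 * T * q j)‖ ≤ T * |b - a| :=
    intervalIntegral.norm_integral_le_of_norm_le_const fun y hy => (hmem y hy).2 T hTN
  rw [intervalIntegral.integral_sub ((hF n T).intervalIntegrable _ _) intervalIntegrable_const,
    intervalIntegral.integral_const, h1, hab, abs_of_pos hδ] at h2
  have h3 : ‖∫ t in (-T)..T, w t‖ ≤ ∫ t in (-T)..T, ‖w t‖ :=
    intervalIntegral.norm_integral_le_integral_norm (by linarith)
  rw [inv_mul_lt_iff₀ hT0] at hT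
  have h4 : ‖δ • (2 * (T : ℂ) * q j)‖ = δ * (2 * T * ‖q j‖) := by
    rw [norm_smul, norm_mul, norm_mul, Complex.norm_real, Real.norm_of_nonneg hT0.le,
      Real.norm_of_nonneg hδ.le]
    simp
  have h5 := norm_sub_norm_le (δ • (2 * (T : ℂ) * q j)) (∫ t in (-T)..T, w t)
  rw [norm_sub_rev, h4] at h5
  have h6 : δ * T * (3 / 4) ≤ δ * T * ‖q j‖ := mul_le_mul_of_nonneg_left hq (by positivity)
  nlinarith

end

end Pool.Agent.H58.Asg
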