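import Pool.Agent.H58.AsgB

set_option autoImplicit false

namespace Pool.Agent.H58.Asg

open MeasureTheory Filter Topology Complex Set
open Pool.Agent.H58.Fq
open scoped Real FourierTransform

noncomputable section

/-- the Fourier kernel. -/
def ek (ξ x : ℝ) : ℂ := cexp ((-2 * π * x * ξ : ℝ) * I)

lemma norm_ek (ξ x : ℝ) : ‖ek ξ x‖ = 1 := Complex.norm_exp_ofReal_mul_I _

lemma ek_comm (ξ x : ℝ) : ek ξ x = ek x ξ := by unfold ek; congr 3; ring

@[fun_prop] lemma cont_ek : Continuous fun p : ℝ × ℝ => ek p.1 p.2 := by unfold ek; fun_prop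

lemma cont_ek1 (ξ : ℝ) : Continuous (ek ξ) := by unfold ek; fun_prop

lemma cont_ek2 (x : ℝ) : Continuous fun ξ => ek ξ x := by unfold ek; fun_prop

lemma ft_eq (f : ℝ → ℂ) (ξ : ℝ) : 𝓕 f ξ = ∫ x, ek ξ x * f x := by
  rw [Real.fourier_real_eq_integral_exp_smul]; rfl

/-- Fourier transform of a finite measure. -/
def hatM (μ : Measure ℝ) (ξ : ℝ) : ℂ := ∫ x, ek ξ x ∂μ

lemma int_ek (μ : Measure ℝ) [IsFiniteMeasure μ] (ξ : ℝ) : Integrable (ek ξ) μ :=
  Integrable.of_bound (cont_ek1 ξ).aestronglyMeasurable 1 (ae_of_all _ fun x => (norm_ek _ _).le)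

lemma cont_ft {μ : Measure ℝ} {f : ℝ → ℂ} (hf : Integrable f μ) :
    Continuous fun ξ => ∫ x, ek ξ x * f x ∂μ :=
  continuous_of_dominated (bound := fun x => ‖f x‖)
    (fun ξ => (cont_ek1 ξ).aestronglyMeasurable.mul hf.1)
    (fun ξ => ae_of_all _ fun x => by rw [norm_mul, norm_ek, one_mul]) hf.norm
    (ae_of_all _ fun x => (cont_ek2 x).mul continuous_const)

lemma norm_ft {μ : Measure ℝ} (f : ℝ → ℂ) (ξ : ℝ) :
    ‖∫ x, ek ξ x * f x ∂μ‖ ≤ ∫ x, ‖f x‖ ∂μ := by
  refine (norm_integral_le_integral_norm _).trans (le_of_eq ?_)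
  simp only [norm_mul, norm_ek, one_mul]

lemma cont_hatM (μ : Measure ℝ) [IsFiniteMeasure μ] : Continuous (hatM μ) := by
  have := cont_ft (μ := μ) (f := fun _ => 1) (integrable_const _)
  simpa using! this

lemma bm_hatM (μ : Measure ℝ) [IsFiniteMeasure μ] : Bm (hatM μ) :=
  ⟨(cont_hatM μ).measurable, μ.real univ, fun ξ => by
    have := norm_ft (μ := μ) (fun _ => 1) ξ
    simpa using! this⟩

lemma Null.of_sq {w : ℝ → ℂ} (hw : Bm w) (h : Null fun t => w t * (starRingEnd ℂ) (w t)) :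
    Null w := by
  have hb := hw.mul hw.conj
  rw [Null, Metric.tendsto_nhds]
  intro ε hε
  have hε' : 0 < ε / 4 := by positivity
  filter_upwards [h.eventually (gt_mem_nhds (show (0 : ℝ) < ε / 4 * (ε / 4) by positivity)),
    eventually_gt_atTop 0] with T hT hT0
  rw [dist_zero_right, Real.norm_of_nonneg (avg_nonneg w hT0)]
  have h1 : ∫ t in (-T)..T, ‖w t‖ ≤
      ∫ t in (-T)..T, (ε / 4 + (ε / 4)⁻¹ * ‖w t * (starRingEnd ℂ) (w t)‖) := by
    refine intervalIntegral.integral_mono_on (by linarith) (hw.ii _ _)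
      (intervalIntegrable_const.add ((hb.ii _ _).const_mul _)) fun t _ => ?_
    rw [norm_mul, Complex.norm_conj]
    rcases le_total ‖w t‖ (ε / 4) with h2 | h2
    · have : 0 ≤ (ε / 4)⁻¹ * (‖w t‖ * ‖w t‖) := by positivity
      linarith
    · have : ‖w t‖ ≤ (ε / 4)⁻¹ * (‖w t‖ * ‖w t‖) := by
        rw [le_inv_mul_iff₀ hε']; nlinarith
      linarith
  rw [intervalIntegral.integral_add intervalIntegrable_const ((hb.ii _ _).const_mul _),
    intervalIntegral.integral_const, intervalIntegral.integral_const_mul, smul_eq_mul] at h1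
  rw [inv_mul_lt_iff₀ hT0] at hT ⊢
  have h3 : (ε / 4)⁻¹ * ∫ t in (-T)..T, ‖w t * (starRingEnd ℂ) (w t)‖ ≤ T * (ε / 4) := by
    rw [inv_mul_le_iff₀ hε']; nlinarith
  nlinarith

lemma wiener_cont (μ : Measure ℝ) [IsFiniteMeasure μ] (h0 : ∀ x, μ {x} = 0) : Null (hatM μ) := by
  refine Null.of_sq (bm_hatM μ) ?_
  have h1 : ∀ ξ, hatM μ ξ * (starRingEnd ℂ) (hatM μ ξ) =
      ∫ z : ℝ × ℝ, cexp ((ξ * (-2 * π * (z.1 - z.2)) : ℝ) * I) ∂(μ.prod μ) := fun ξ => by
    unfold hatM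
    rw [← integral_conj, ← integral_prod_mul]
    congr 1; funext z
    simp only [ek]
    rw [← Complex.exp_conj, ← Complex.exp_add]
    congr 1
    simp only [map_mul, Complex.conj_ofReal, Complex.conj_I]
    push_cast; ring
  have h2 : Tendsto (fun T : ℝ => ∫ z : ℝ × ℝ, (T⁻¹ : ℝ) • Wk (-T) T (-2 * π * (z.1 - z.2))
      ∂(μ.prod μ)) atTop (𝓝 (∫ _ : ℝ × ℝ, (0 : ℂ) ∂(μ.prod μ))) := by
    refine tendsto_integral_filter_of_dominated_convergence (fun _ => 2)
      (Eventually.of_forall fun T => ?_) ?_ (integrable_const _) ?_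
    · have hc : Continuous fun z : ℝ × ℝ => Wk (-T) T (-2 * π * (z.1 - z.2)) :=
        (cont_Wk _ _).comp (by fun_prop)
      exact (hc.const_smul (T⁻¹ : ℝ)).aestronglyMeasurable
    · filter_upwards [eventually_gt_atTop 0] with T hT
      refine ae_of_all _ fun z => ?_
      rw [norm_smul, Real.norm_of_nonneg (inv_nonneg.mpr hT.le), inv_mul_le_iff₀ hT]
      refine (norm_Wk _ _ _).trans (le_of_eq ?_)
      rw [abs_of_pos (by linarith)]; ring
    · have : ∀ᵐ z : ℝ × ℝ ∂(μ.prod μ), z.1 ≠ z.2 := by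
        refine (Measure.ae_prod_iff_ae_ae (p := fun z : ℝ × ℝ => z.1 ≠ z.2)
          (measurableSet_eq_fun measurable_fst measurable_snd).compl).mpr ?_
        refine ae_of_all _ fun x => ?_
        rw [ae_iff]
        simpa [eq_comm] using h0 x
      filter_upwards [this] with z hz
      have hl : -2 * π * (z.1 - z.2) ≠ 0 :=
        mul_ne_zero (mul_ne_zero (by norm_num) Real.pi_ne_zero) (sub_ne_zero.mpr hz)
      have h3 := tendsto_inv_atTop_zero.mul_const (2 / |(-2 * π * (z.1 - z.2))|)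
      rw [zero_mul] at h3
      refine squeeze_zero_norm' ?_ h3
      filter_upwards [eventually_gt_atTop 0] with T hT
      rw [norm_smul, Real.norm_of_nonneg (inv_nonneg.mpr hT.le)]
      exact mul_le_mul_of_nonneg_left (norm_Wk' _ _ hl) (inv_nonneg.mpr hT.le)
  rw [integral_zero] at h2
  have h3 := h2.norm
  rw [norm_zero] at h3
  refine h3.congr' ?_
  filter_upwards [eventually_gt_atTop 0] with T hT
  rw [integral_smul]
  have h4 : ∫ z : ℝ × ℝ, Wk (-T) T (-2 * π * (z.1 - z.2)) ∂(μ.prod μ) =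
      ∫ ξ in (-T)..T, hatM μ ξ * (starRingEnd ℂ) (hatM μ ξ) := by
    simp only [h1, Wk]
    rw [intervalIntegral_integral_swap]
    have : IsFiniteMeasure (volume.restrict (uIoc (-T) T)) := ⟨by simp [uIoc]⟩
    refine Integrable.of_bound (Continuous.aestronglyMeasurable ?_) 1
      (ae_of_all _ fun p => (Complex.norm_exp_ofReal_mul_I _).le)
    change Continuous fun p : ℝ × ℝ × ℝ => cexp ((p.1 * (-2 * π * (p.2.1 - p.2.2)) : ℝ) * I)
    fun_prop
  have h5 : ∀ ξ, hatM μ ξ * (starRingEnd ℂ) (hatM μ ξ) =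
      ((‖hatM μ ξ * (starRingEnd ℂ) (hatM μ ξ)‖ : ℝ) : ℂ) := fun ξ => by
    rw [Complex.mul_conj, Complex.norm_real, Real.norm_of_nonneg (Complex.normSq_nonneg _)]
  rw [h4, intervalIntegral.integral_congr fun ξ _ => h5 ξ, intervalIntegral.integral_ofReal,
    norm_smul, Complex.norm_real, Real.norm_of_nonneg (inv_nonneg.mpr hT.le),
    Real.norm_of_nonneg (intervalIntegral.integral_nonneg (by linarith) fun _ _ => norm_nonneg _)]

lemma wiener (μ : Measure ℝ) [IsFiniteMeasure μ] : ∃ f, Rl (hatM μ) f := by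
  let D : Set ℝ := {t | 0 < μ {a | id a = t}}
  have hD : D.Countable := Measure.countable_meas_level_set_pos measurable_id
  have hs : Summable fun x : ℝ => μ.real {x} :=
    summable_of_sum_le (c := μ.real univ) (fun _ => measureReal_nonneg) fun s => by
      rw [sum_measureReal_singleton]; exact measureReal_mono (subset_univ _)
  refine ⟨hatM (μ.restrict D), bm_hatM μ,
    ⟨fun χ => ∑' x : D, μ.real {(x : ℝ)} • ev χ (-2 * π * x), ?_, fun ξ => ?_⟩, ?_⟩
  · refine continuous_tsum (fun x => by fun_prop) (hs.subtype D) fun x χ => ?_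
    rw [norm_smul, norm_ev, mul_one, Real.norm_of_nonneg measureReal_nonneg]; rfl
  · unfold hatM
    rw [setIntegral_countable _ hD (int_ek μ ξ).integrableOn]
    congr 1; funext x
    rw [ev_io, ek]; congr 4; ring
  · have h1 : (fun ξ => hatM μ ξ - hatM (μ.restrict D) ξ) = hatM (μ.restrict Dᶜ) := by
      funext ξ
      unfold hatM
      rw [← integral_add_compl hD.measurableSet (int_ek μ ξ)]; ring
    rw [h1]
    refine wiener_cont _ fun x => ?_
    rw [Measure.restrict_apply (measurableSet_singleton x)]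
    by_cases hx : x ∈ D
    · rw [show {x} ∩ Dᶜ = ∅ by ext y; simp; rintro rfl; exact hx]; simp
    · refine measure_mono_null inter_subset_left ?_
      simpa [D] using hx

lemma wlim (p : ℕ → ℝ → ℝ) (hp : ∀ k, Integrable (p k)) (h0 : ∀ k x, 0 ≤ p k x) {C : ℝ}
    (hC : ∀ k, ∫ x, p k x ≤ C) : ∃ μ : Measure ℝ, IsFiniteMeasure μ ∧ ∀ φ : ℝ → ℂ, Continuous φ →
      Tendsto φ (cocompact ℝ) (𝓝 0) →
      Tendsto (fun k => ∫ x, (p k x : ℂ) * φ x) (hyperfilter ℕ) (𝓝 (∫ x, φ x ∂μ)) := by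
  let _ : MeasurableSpace (OnePoint ℝ) := borel _
  have : BorelSpace (OnePoint ℝ) := ⟨rfl⟩
  have hemb : MeasurableEmbedding ((↑) : ℝ → OnePoint ℝ) :=
    OnePoint.isOpenEmbedding_coe.measurableEmbedding
  have hfin : ∀ k, IsFiniteMeasure (volume.withDensity fun x => ENNReal.ofReal (p k x)) :=
    fun k => isFiniteMeasure_withDensity_ofReal (hp k).2
  let ν : ℕ → FiniteMeasure (OnePoint ℝ) := fun k =>
    ⟨(volume.withDensity fun x => ENNReal.ofReal (p k x)).map (↑), inferInstance⟩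
  have hν : ∀ k, ν k ∈ {μ : FiniteMeasure (OnePoint ℝ) | μ.mass ≤ C.toNNReal} := fun k => by
    change (ν k).mass ≤ C.toNNReal
    rw [← ENNReal.coe_le_coe, FiniteMeasure.ennreal_mass]
    change ((volume.withDensity fun x => ENNReal.ofReal (p k x)).map
      ((↑) : ℝ → OnePoint ℝ)) univ ≤ ENNReal.ofReal C
    rw [hemb.map_apply, preimage_univ, withDensity_apply _ MeasurableSet.univ, Measure.restrict_univ,
      ← ofReal_integral_eq_lintegral_ofReal (hp k) (ae_of_all _ (h0 k))]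
    exact ENNReal.ofReal_le_ofReal (hC k)
  obtain ⟨m, -, hm⟩ := (isCompact_setOfPred_finiteMeasure_le_of_compactSpace (OnePoint ℝ)
    C.toNNReal).ultrafilter_le_nhds ((hyperfilter ℕ).map ν)
    (by rw [Ultrafilter.coe_map, le_principal_iff, mem_map]; exact univ_mem' hν)
  refine ⟨(m : Measure (OnePoint ℝ)).comap (↑), inferInstance, fun φ hφ hφ0 => ?_⟩
  have hm' : Tendsto ν (hyperfilter ℕ) (𝓝 m) := hm
  let Φ : C(OnePoint ℝ, ℂ) := OnePoint.continuousMapMk ⟨φ, hφ⟩ 0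
    (by rw [coclosedCompact_eq_cocompact]; exact hφ0)
  have h1 := (FiniteMeasure.tendsto_iff_forall_integral_rclike_tendsto ℂ).mp hm'
    (BoundedContinuousFunction.mkOfCompact Φ)
  have h2 : ∀ k, ∫ ω, BoundedContinuousFunction.mkOfCompact Φ ω ∂(ν k : Measure (OnePoint ℝ)) =
      ∫ x, (p k x : ℂ) * φ x := fun k => by
    change ∫ ω, Φ ω ∂((volume.withDensity fun x => ENNReal.ofReal (p k x)).map (↑)) = _
    rw [hemb.integral_map, integral_withDensity_eq_integral_toReal_smul₀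
      (hp k).1.aemeasurable.ennreal_ofReal (ae_of_all _ fun _ => ENNReal.ofReal_lt_top)]
    congr 1; funext x
    rw [ENNReal.toReal_ofReal (h0 k x), Complex.real_smul]; rfl
  have h3 : ∫ ω, BoundedContinuousFunction.mkOfCompact Φ ω ∂(m : Measure (OnePoint ℝ)) =
      ∫ x, φ x ∂((m : Measure (OnePoint ℝ)).comap (↑)) := by
    change ∫ ω, Φ ω ∂(m : Measure (OnePoint ℝ)) = ∫ x : ℝ, Φ x ∂_
    rw [← hemb.integral_map, hemb.map_comap,
      setIntegral_eq_integral_of_forall_compl_eq_zero]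
    intro ω hω
    induction ω using OnePoint.rec with
    | infty => rfl
    | coe x => exact absurd (mem_range_self x) hω
  simp only [h2, h3] at h1
  exact h1

lemma flip {μ ν : Measure ℝ} [SFinite μ] [IsFiniteMeasure ν] {f : ℝ → ℂ} (hf : Integrable f μ) :
    ∫ ξ, (∫ x, ek ξ x * f x ∂μ) ∂ν = ∫ x, f x * hatM ν x ∂μ := by
  rw [integral_integral_swap]
  · congr 1; funext x
    rw [integral_mul_const, mul_comm]; simp only [hatM, ek_comm x]
  · have h1 : Integrable (fun z : ℝ × ℝ => (1 : ℂ) * f z.2) (ν.prod μ) :=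
      (integrable_const (1 : ℂ)).mul_prod hf
    simp only [one_mul] at h1
    exact h1.bdd_mul (c := 1) cont_ek.aestronglyMeasurable (ae_of_all _ fun p => (norm_ek _ _).le)

lemma int4 {μ : Measure ℝ} {f₁ f₂ f₃ f₄ : ℝ → ℂ} (h₁ : Integrable f₁ μ) (h₂ : Integrable f₂ μ)
    (h₃ : Integrable f₃ μ) (h₄ : Integrable f₄ μ) :
    ∫ x, (f₁ x + -1 * f₂ x + I * f₃ x + -I * f₄ x) ∂μ =
      ∫ x, f₁ x ∂μ + -1 * ∫ x, f₂ x ∂μ + I * ∫ x, f₃ x ∂μ + -I * ∫ x, f₄ x ∂μ := by
  have j₂ : Integrable (fun x => f₁ x + -1 * f₂ x) μ := h₁.add (h₂.const_mul _)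
  have j₃ : Integrable (fun x => f₁ x + -1 * f₂ x + I * f₃ x) μ := j₂.add (h₃.const_mul _)
  rw [integral_add j₃ (h₄.const_mul _), integral_add j₂ (h₃.const_mul _),
    integral_add h₁ (h₂.const_mul _), integral_const_mul, integral_const_mul, integral_const_mul]

theorem rep (a : ℕ → ℝ → ℂ) (hi : ∀ k, Integrable (a k)) {C : ℝ} (hC : ∀ k, ∫ x, ‖a k x‖ ≤ C)
    {E : ℝ → ℂ} (hE : ∀ ξ, Tendsto (fun k => 𝓕 (a k) ξ) atTop (𝓝 (E ξ))) :
    Bm E ∧ ∃ G f, Continuous G ∧ Rl G f ∧ ∀ᵐ ξ, E ξ = G ξ := by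
  simp only [ft_eq] at hE
  have hb : ∀ k ξ, ‖∫ x, ek ξ x * a k x‖ ≤ C := fun k ξ => (norm_ft _ _).trans (hC k)
  have hEb : Bm E := ⟨measurable_of_tendsto_metrizable (fun k => (cont_ft (hi k)).measurable)
    (tendsto_pi_nhds.mpr hE), C, fun ξ => le_of_tendsto (hE ξ).norm
      (Eventually.of_forall fun k => hb k ξ)⟩
  refine ⟨hEb, ?_⟩
  let p : ℂ → ℕ → ℝ → ℝ := fun c k x => max (c * a k x).re 0
  have hpi : ∀ c k, Integrable (p c k) := fun c k => ((hi k).const_mul c).re.pos_part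
  have key : ∀ c : ℂ, ‖c‖ = 1 → ∃ μ : Measure ℝ, IsFiniteMeasure μ ∧ ∀ φ : ℝ → ℂ, Continuous φ →
      Tendsto φ (cocompact ℝ) (𝓝 0) →
      Tendsto (fun k => ∫ x, (p c k x : ℂ) * φ x) (hyperfilter ℕ) (𝓝 (∫ x, φ x ∂μ)) :=
    fun c hc => wlim (p c) (hpi c) (fun k x => le_max_right _ _) fun k =>
      (integral_mono (hpi c k) (hi k).norm fun x => max_le
        ((Complex.re_le_norm _).trans (by rw [norm_mul, hc, one_mul])) (norm_nonneg _)).trans (hC k)
  obtain ⟨μ₁, i₁, h₁⟩ := key 1 (by simp)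
  obtain ⟨μ₂, i₂, h₂⟩ := key (-1) (by simp)
  obtain ⟨μ₃, i₃, h₃⟩ := key (-I) (by simp)
  obtain ⟨μ₄, i₄, h₄⟩ := key I (by simp)
  obtain ⟨f₁, r₁⟩ := wiener μ₁
  obtain ⟨f₂, r₂⟩ := wiener μ₂
  obtain ⟨f₃, r₃⟩ := wiener μ₃
  obtain ⟨f₄, r₄⟩ := wiener μ₄
  have hr := ((r₁.add ((Rl.self (AP.const (-1))).mul r₂)).add
    ((Rl.self (AP.const I)).mul r₃)).add ((Rl.self (AP.const (-I))).mul r₄)
  have c₁ := cont_hatM μ₁
  have c₂ := cont_hatM μ₂
  have c₃ := cont_hatM μ₃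
  have c₄ := cont_hatM μ₄
  refine ⟨_, _, by fun_prop, hr, ?_⟩
  have hint : ∀ {w : ℝ → ℂ}, Bm w → ∀ s, volume s < ⊤ → IntegrableOn w s := fun hw s hs => by
    obtain ⟨hm, B, hB⟩ := hw
    exact Measure.integrableOn_of_bounded (M := B) hs.ne hm.aestronglyMeasurable (ae_of_all _ hB)
  refine ae_eq_of_forall_setIntegral_eq_of_sigmaFinite (fun s _ hs => hint hEb s hs)
    (fun s _ hs => hint hr.1 s hs) fun s hm hs => ?_
  have : IsFiniteMeasure (volume.restrict s) := ⟨by simpa using hs⟩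
  set φ := hatM (volume.restrict s) with hφ
  have hφc : Continuous φ := cont_hatM _
  obtain ⟨B, hB⟩ := (bm_hatM (volume.restrict s)).2
  have hφ0 : Tendsto φ (cocompact ℝ) (𝓝 0) := by
    refine (Real.zero_at_infty_fourier (s.indicator fun _ => (1 : ℂ))).congr fun ξ => ?_
    rw [ft_eq, hφ, hatM, ← integral_indicator hm]
    congr 1; funext x
    by_cases hx : x ∈ s <;> simp [hx]
  have l1 : Tendsto (fun k => ∫ ξ in s, ∫ x, ek ξ x * a k x) atTop (𝓝 (∫ ξ in s, E ξ)) :=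
    tendsto_integral_of_dominated_convergence (fun _ => C)
      (fun k => (cont_ft (hi k)).aestronglyMeasurable) (integrable_const _)
      (fun k => ae_of_all _ (hb k)) (ae_of_all _ hE)
  have l2 := (((h₁ φ hφc hφ0).add ((h₂ φ hφc hφ0).const_mul (-1))).add
    ((h₃ φ hφc hφ0).const_mul I)).add ((h₄ φ hφc hφ0).const_mul (-I))
  have hq : ∀ c k, Integrable fun x => (p c k x : ℂ) * φ x := fun c k =>
    (hpi c k).ofReal.mul_bdd (c := B) hφc.aestronglyMeasurable (ae_of_all _ hB)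
  have e1 : ∀ k, (∫ x, (p 1 k x : ℂ) * φ x) + -1 * (∫ x, (p (-1) k x : ℂ) * φ x) +
      I * (∫ x, (p (-I) k x : ℂ) * φ x) + -I * (∫ x, (p I k x : ℂ) * φ x) =
      ∫ ξ in s, ∫ x, ek ξ x * a k x := fun k => by
    rw [flip (hi k), ← int4 (hq _ _) (hq _ _) (hq _ _) (hq _ _)]
    congr 1; funext x
    have e2 : p 1 k x - p (-1) k x = (a k x).re := by
      simpa [p] using max_zero_sub_max_neg_zero_eq_self (a k x).re
    have e3 : p (-I) k x - p I k x = (a k x).im := by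
      simpa [p] using max_zero_sub_max_neg_zero_eq_self (a k x).im
    rw [← Complex.re_add_im (a k x), ← e2, ← e3]
    push_cast; ring
  have e4 : ∀ (μ : Measure ℝ) [IsFiniteMeasure μ], ∫ x, φ x ∂μ = ∫ ξ in s, hatM μ ξ := fun μ _ => by
    have := flip (μ := μ) (ν := volume.restrict s) (integrable_const (1 : ℂ))
    simp only [mul_one, one_mul] at this
    exact this.symm
  simp only [e1, e4] at l2
  rw [tendsto_nhds_unique (l1.mono_left Nat.hyperfilter_le_atTop) l2]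
  exact (int4 (hint (bm_hatM μ₁) s hs) (hint (bm_hatM μ₂) s hs) (hint (bm_hatM μ₃) s hs)
    (hint (bm_hatM μ₄) s hs)).symm

end

end Pool.Agent.H58.Asg
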