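import Pool.Agent.H58.AsgC

set_option autoImplicit false

namespace Pool.Agent.H58.Asg

open MeasureTheory Filter Topology Complex Set
open scoped Real FourierTransform SchwartzMap

noncomputable section

lemma ft_inj {f : ℝ → ℂ} (hf : Integrable f) (h : ∀ᵐ ξ : ℝ, 𝓕 f ξ = 0) : ∀ᵐ x, f x = 0 := by
  refine ae_eq_zero_of_integral_contDiff_smul_eq_zero hf.locallyIntegrable fun g hg hc => ?_
  have hc' : HasCompactSupport fun x => (g x : ℂ) := hc.comp_left (g := fun r : ℝ => (r : ℂ)) (by simp)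
  let G : 𝓢(ℝ, ℂ) := hc'.toSchwartzMap (Complex.ofRealCLM.contDiff.comp hg)
  let ψ : 𝓢(ℝ, ℂ) := 𝓕⁻ G
  have h1 : ∀ x, 𝓕 (ψ : ℝ → ℂ) x = g x := fun x => by
    rw [← SchwartzMap.fourier_coe]
    simp only [ψ, FourierTransform.fourier_fourierInv_eq]
    rfl
  have hψ : Integrable (ψ : ℝ → ℂ) := ψ.integrable
  have h2 : ∫ ξ, (∫ x, ek ξ x * (ψ ξ * f x)) = ∫ x, ∫ ξ, ek ξ x * (ψ ξ * f x) :=
    integral_integral_swap ((hψ.mul_prod hf).bdd_mul (c := 1) cont_ek.aestronglyMeasurable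
      (ae_of_all _ fun p => (norm_ek _ _).le))
  have h3 : ∀ x, ∫ ξ, ek ξ x * (ψ ξ * f x) = g x • f x := fun x => by
    rw [Complex.real_smul, ← h1, ft_eq, ← integral_mul_const]
    congr 1; funext ξ; rw [ek_comm]; ring
  have h4 : ∀ ξ, ∫ x, ek ξ x * (ψ ξ * f x) = ψ ξ * 𝓕 f ξ := fun ξ => by
    rw [ft_eq, ← integral_const_mul]
    congr 1; funext x; ring
  simp only [h3, h4] at h2
  rw [← h2]
  refine integral_eq_zero_of_ae ?_
  filter_upwards [h] with ξ hξ
  simp [hξ]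

/-- evaluation of the Fourier transform as a functional on `L¹`. -/
def FL (ξ : ℝ) : Lp ℂ 1 (volume : Measure ℝ) →L[ℂ] ℂ :=
  LinearMap.mkContinuous
    { toFun := fun f => ∫ x, ek ξ x * f x
      map_add' := fun f g => by
        rw [← integral_add
          ((L1.integrable_coeFn f).bdd_mul (c := 1) (cont_ek1 ξ).aestronglyMeasurable
            (ae_of_all _ fun p => (norm_ek _ _).le))
          ((L1.integrable_coeFn g).bdd_mul (c := 1) (cont_ek1 ξ).aestronglyMeasurable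
            (ae_of_all _ fun p => (norm_ek _ _).le))]
        refine integral_congr_ae ?_
        filter_upwards [Lp.coeFn_add f g] with x hx
        rw [hx, Pi.add_apply, mul_add]
      map_smul' := fun c f => by
        rw [RingHom.id_apply, smul_eq_mul, ← integral_const_mul]
        refine integral_congr_ae ?_
        filter_upwards [Lp.coeFn_smul c f] with x hx
        rw [hx, Pi.smul_apply, smul_eq_mul]; ring } 1
    fun f => by
      rw [one_mul, L1.norm_eq_integral_norm]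
      exact norm_ft _ _

lemma FL_eq (ξ : ℝ) (f : Lp ℂ 1 (volume : Measure ℝ)) : FL ξ f = 𝓕 (f : ℝ → ℂ) ξ :=
  (ft_eq _ _).symm

lemma dichot {φ : ℂ → ℂ} (hd : DifferentiableOn ℂ φ {t : ℂ | 0 < t.re})
    (hm : ∀ s t : ℂ, 0 < s.re → 0 < t.re → φ (s + t) = φ s * φ t) {t₀ : ℂ} (h₀ : 0 < t₀.re)
    (hne : φ t₀ ≠ 0) : ∃ κ : ℂ, ∀ z : ℂ, 0 < z.re → φ z = cexp (κ * z) := by
  have ho : IsOpen {t : ℂ | 0 < t.re} := isOpen_lt continuous_const continuous_re
  have hD : ∀ z : ℂ, 0 < z.re → HasDerivAt φ (deriv φ z) z := fun z hz =>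
    (hd.differentiableAt (ho.mem_nhds hz)).hasDerivAt
  have key : ∀ s t : ℂ, 0 < s.re → 0 < t.re → deriv φ (s + t) = φ s * deriv φ t := by
    intro s t hs ht
    have h1 : HasDerivAt (fun u => φ (s + u)) (deriv φ (s + t)) t :=
      (hD (s + t) (by simp only [add_re]; linarith)).comp_const_add s t
    have h2 : HasDerivAt (fun u => φ s * φ u) (φ s * deriv φ t) t := (hD t ht).const_mul _
    refine h1.unique (h2.congr_of_eventuallyEq ?_)
    filter_upwards [ho.mem_nhds ht] with u hu using hm s u hs hu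
  set κ := deriv φ t₀ / φ t₀
  have hk : ∀ s : ℂ, 0 < s.re → deriv φ s = κ * φ s := fun s hs => by
    have h1 := key s t₀ hs h₀
    have h2 := key t₀ s h₀ hs
    rw [add_comm, h1] at h2
    simp only [κ]
    field_simp
    linear_combination -h2
  have hψ : ∀ z : ℂ, 0 < z.re → HasDerivAt (fun u => φ u * cexp (-κ * u)) 0 z := fun z hz => by
    have h1 : HasDerivAt (fun u : ℂ => cexp (-κ * u)) (cexp (-κ * z) * (-κ * 1)) z :=
      ((hasDerivAt_id z).const_mul (-κ)).cexp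
    refine ((hD z hz).mul h1).congr_deriv ?_
    rw [hk z hz]; ring
  have hc : ∀ z w : ℂ, 0 < z.re → 0 < w.re → φ z * cexp (-κ * z) = φ w * cexp (-κ * w) :=
    fun z w hz hw => ho.is_const_of_deriv_eq_zero (𝕜 := ℂ)
      (f := fun u => φ u * cexp (-κ * u)) (convex_halfSpace_re_gt 0).isPreconnected
      (fun u hu => (hψ u hu).differentiableAt.differentiableWithinAt)
      (fun u hu => (hψ u hu).deriv) hz hw
  refine ⟨κ, fun z hz => ?_⟩
  have h1 := hc (z + t₀) t₀ (by simp only [add_re]; linarith) h₀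
  rw [hm z t₀ hz h₀, mul_add, Complex.exp_add] at h1
  have h2 : φ z * cexp (-κ * z) = 1 := by
    have h3 : φ t₀ * cexp (-κ * t₀) ≠ 0 := mul_ne_zero hne (Complex.exp_ne_zero _)
    apply mul_right_cancel₀ h3
    linear_combination h1
  rw [neg_mul, Complex.exp_neg] at h2
  exact (mul_inv_eq_one₀ (Complex.exp_ne_zero _)).mp h2

theorem main (a : ℂ → Lp ℂ 1 (volume : Measure ℝ)) (hd : DifferentiableOn ℂ a {t : ℂ | 0 < t.re})
    (hs : ∀ s t : ℂ, 0 < s.re → 0 < t.re → (a (s + t) : ℝ → ℂ) =ᵐ[volume]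
      convolution (a s : ℝ → ℂ) (a t : ℝ → ℂ) (ContinuousLinearMap.mul ℂ ℂ) volume)
    {C : ℝ} (hC : ∀ t : ℂ, 0 < t.re → ‖t‖ ≤ 1 → ‖a t‖ ≤ C) (t : ℂ) (ht : 0 < t.re) :
    a t = 0 := by
  classical
  let φ : ℝ → ℂ → ℂ := fun ξ z => 𝓕 (a z : ℝ → ℂ) ξ
  have hφd : ∀ ξ, DifferentiableOn ℂ (φ ξ) {t : ℂ | 0 < t.re} := fun ξ => by
    have := (FL ξ).differentiable.comp_differentiableOn hd
    simpa only [Function.comp_def, FL_eq] using this
  have hφm : ∀ ξ (s t : ℂ), 0 < s.re → 0 < t.re → φ ξ (s + t) = φ ξ s * φ ξ t := by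
    intro ξ s t h1 h2
    simp only [φ]
    rw [← Real.fourier_mul_convolution_eq (L1.integrable_coeFn _) (L1.integrable_coeFn _),
      ft_eq, ft_eq]
    refine integral_congr_ae ?_
    filter_upwards [hs s t h1 h2] with x hx
    rw [hx]
  have hκ : ∀ ξ, ∃ κ : ℂ, ∀ z : ℂ, 0 < z.re →
      φ ξ z = if φ ξ 1 = 0 then 0 else cexp (κ * z) := fun ξ => by
    by_cases h : φ ξ 1 = 0
    · refine ⟨0, fun z hz => ?_⟩
      rw [if_pos h]
      by_contra hne
      obtain ⟨κ, hκ⟩ := dichot (hφd ξ) (hφm ξ) hz hne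
      exact Complex.exp_ne_zero _ ((hκ 1 (by simp)).symm.trans h)
    · obtain ⟨κ, hκ⟩ := dichot (hφd ξ) (hφm ξ) (t₀ := 1) (by simp) h
      exact ⟨κ, fun z hz => by rw [if_neg h, hκ z hz]⟩
  choose κ hκ using hκ
  let E : ℝ → ℝ → ℂ := fun y ξ => if φ ξ 1 = 0 then 0 else cexp (κ ξ * (y * I))
  have hE : ∀ y : ℝ, |y| ≤ 1 / 2 →
      Bm (E y) ∧ ∃ G f, Continuous G ∧ Rl G f ∧ ∀ᵐ ξ, E y ξ = G ξ := fun y hy => by
    let z : ℕ → ℂ := fun k => ((1 / ((k : ℝ) + 1) / 2 : ℝ) : ℂ) + y * I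
    have hz : ∀ k, 0 < (z k).re := fun k => by
      simp only [z, add_re, ofReal_re, mul_re, I_re, ofReal_im, I_im]
      have : (0 : ℝ) < 1 / ((k : ℝ) + 1) / 2 := by positivity
      linarith
    have hz1 : ∀ k, ‖z k‖ ≤ 1 := fun k => by
      refine (norm_add_le _ _).trans ?_
      rw [norm_mul, Complex.norm_I, mul_one, Complex.norm_real, Complex.norm_real,
        Real.norm_of_nonneg (by positivity), Real.norm_eq_abs]
      have : 1 / ((k : ℝ) + 1) ≤ 1 := by
        rw [div_le_one (by positivity)]; linarith [Nat.cast_nonneg (α := ℝ) k]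
      linarith
    refine rep (fun k => a (z k)) (fun k => L1.integrable_coeFn _) (C := C) (fun k => ?_) fun ξ => ?_
    · rw [← L1.norm_eq_integral_norm]; exact hC _ (hz k) (hz1 k)
    · have h1 : Tendsto z atTop (𝓝 (((0 / 2 : ℝ) : ℂ) + y * I)) :=
        ((continuous_ofReal.tendsto _).comp
          (tendsto_one_div_add_atTop_nhds_zero_nat.div_const 2)).add_const _
      simp only [zero_div, ofReal_zero, zero_add] at h1
      change Tendsto (fun k => φ ξ (z k)) atTop (𝓝 (E y ξ))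
      simp only [fun k => hκ ξ (z k) (hz k), E]
      split_ifs
      · exact tendsto_const_nhds
      · exact (h1.const_mul _).cexp
  obtain ⟨-, G, -, hG, -, hG0⟩ := hE 0 (by simp)
  have hG1 : ∀ ξ, cexp (2 * π * I * G ξ) = 1 := by
    have : (fun ξ => cexp (2 * π * I * G ξ)) = fun _ => 1 := by
      refine (Continuous.ae_eq_iff_eq volume (by fun_prop) continuous_const).mp ?_
      filter_upwards [hG0] with ξ hξ
      rw [← hξ]
      simp only [E]
      split_ifs <;> simp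
    exact congrFun this
  have hG2 : ∀ ξ, G ξ = G 0 := fun ξ =>
    mul_left_cancel₀ Complex.two_pi_I_ne_zero
      (const_of_exp (h := fun ξ => 2 * π * I * G ξ) (by fun_prop) hG1 ξ 0)
  by_cases hz : G 0 = 0
  · have h1 : ∀ᵐ x, (a t : ℝ → ℂ) x = 0 := by
      refine ft_inj (L1.integrable_coeFn _) ?_
      filter_upwards [hG0] with ξ hξ
      rw [hG2, hz] at hξ
      have h2 : φ ξ 1 = 0 := by
        by_contra h
        simp only [E, if_neg h] at hξ
        exact Complex.exp_ne_zero _ hξ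
      exact (hκ ξ t ht).trans (if_pos h2)
    exact Lp.eq_zero_iff_ae_eq_zero.mpr h1
  exfalso
  have hU : ∀ᵐ ξ, φ ξ 1 ≠ 0 := by
    filter_upwards [hG0] with ξ hξ h
    rw [hG2] at hξ
    simp only [E, if_pos h] at hξ
    exact hz hξ.symm
  have hU' : ∀ᵐ ξ, φ (-ξ) 1 ≠ 0 :=
    (Measure.measurePreserving_neg volume).quasiMeasurePreserving.ae hU
  have hc1 : Continuous fun ξ => φ ξ 1 := by
    simp only [φ, ft_eq]; exact cont_ft (L1.integrable_coeFn _)
  let L : ℝ → ℝ := fun ξ => if φ ξ 1 ≠ 0 ∧ φ (-ξ) 1 ≠ 0 then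
    2 * (Real.log ‖φ ξ 1‖ + Real.log ‖φ (-ξ) 1‖) else -|ξ|
  have hc2 : Continuous fun ξ => φ (-ξ) 1 := hc1.comp continuous_neg
  have hL : Measurable L := by
    refine Measurable.ite ((isOpen_ne_fun hc1 continuous_const).inter
      (isOpen_ne_fun hc2 continuous_const)).measurableSet ?_ (by fun_prop)
    exact ((hc1.norm.measurable.log).add (hc2.norm.measurable.log)).const_mul 2
  refine core hL (fun ξ => ?_) ?_ fun y hy => ?_
  · simp only [L, neg_neg, abs_neg, and_comm, add_comm]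
  · have l1 : Tendsto (fun ξ => φ ξ 1) (cocompact ℝ) (𝓝 0) := Real.zero_at_infty_fourier _
    have l2 : Tendsto (fun ξ => φ (-ξ) 1) (cocompact ℝ) (𝓝 0) :=
      l1.comp (Homeomorph.neg ℝ).toCocompactMap.cocompact_tendsto'
    have l3 : Tendsto (fun ξ : ℝ => ‖ξ‖) (cocompact ℝ) atTop := tendsto_norm_cocompact_atTop
    refine tendsto_atBot.mpr fun b => ?_
    have hb : (‖(0 : ℂ)‖) < Real.exp (-|b|) := by simpa using Real.exp_pos _
    filter_upwards [l1.norm.eventually (gt_mem_nhds hb), l2.norm.eventually (gt_mem_nhds hb),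
      l3.eventually (eventually_ge_atTop |b|)] with ξ h1 h2 h3
    simp only [L]
    split_ifs with h
    · have h4 := (Real.log_lt_iff_lt_exp (norm_pos_iff.mpr h.1)).mpr h1
      have h5 := (Real.log_lt_iff_lt_exp (norm_pos_iff.mpr h.2)).mpr h2
      linarith [neg_abs_le b, abs_nonneg b]
    · rw [Real.norm_eq_abs] at h3
      linarith [neg_abs_le b]
  · obtain ⟨b1, G₁, f₁, -, r₁, e₁⟩ := hE y hy
    obtain ⟨b2, G₂, f₂, -, r₂, e₂⟩ := hE (-y) (by rwa [abs_neg])
    have s₁ := (r₁.congr b1 e₁).mul (r₂.congr b2 e₂).conj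
    refine ⟨_, (s₁.mul s₁.refl).congr (bm_ph hL y) ?_⟩
    have hp : ∀ ξ, φ ξ 1 ≠ 0 → E y ξ * (starRingEnd ℂ) (E (-y) ξ) =
        cexp ((y * (2 * Real.log ‖φ ξ 1‖) : ℝ) * I) := fun ξ h => by
      have h1 : Real.log ‖φ ξ 1‖ = (κ ξ).re := by
        rw [hκ ξ 1 (by simp), if_neg h, Complex.norm_exp, Real.log_exp, mul_one]
      simp only [E, if_neg h]
      rw [h1, ← Complex.exp_conj, ← Complex.exp_add]
      congr 1
      simp only [map_mul, Complex.conj_ofReal, Complex.conj_I]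
      push_cast
      rw [Complex.re_eq_add_conj]; ring
    filter_upwards [hU, hU'] with ξ h1 h2
    rw [hp ξ h1, hp (-ξ) h2, ← Complex.exp_add]
    simp only [ph, L, if_pos (And.intro h1 h2)]
    congr 1; push_cast; ring

end

end Pool.Agent.H58.Asg
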