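import Mathlib

/-! Arithmetic of one block of the construction of a vector with a line of targets. -/

set_option autoImplicit false

namespace H58Bad

lemma exists_lim {x r : ℕ → ℝ} (h0 : ∀ k, x k ≤ x (k + 1)) (h1 : ∀ k, x (k + 1) - x k ≤ r k)
    (h2 : ∀ k, r (k + 1) ≤ r k / 2) : ∃ L, ∀ k, x (k + 1) ≤ L ∧ L ≤ x k + 2 * r k := by
  have m : Monotone x := monotone_nat_of_le_succ h0
  have a : Antitone fun k => x k + 2 * r k := antitone_nat_of_succ_le fun k => by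
    linarith [h1 k, h2 k]
  have b : ∀ k l, x l ≤ x k + 2 * r k := by
    intro k l
    have r0 : ∀ n, 0 ≤ r n := fun n => by linarith [h0 n, h1 n]
    rcases le_total k l with h | h
    · have := a h; simp only at this; linarith [r0 l]
    · linarith [m h, r0 k]
  exact ⟨⨆ l, x l, fun k => ⟨le_ciSup ⟨_, by rintro _ ⟨l, rfl⟩; exact b 0 l⟩ _, ciSup_le (b k)⟩⟩

lemma exists_res {B P : ℤ} (hP : 0 < P) (h : IsCoprime B P) (s : ℤ) :
    ∃ t, 0 ≤ t ∧ t < P ∧ P ∣ t * B - s := by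
  obtain ⟨u, v, huv⟩ := h
  refine ⟨(s * u) % P, Int.emod_nonneg _ hP.ne', Int.emod_lt_of_pos _ hP, ?_⟩
  rw [Int.emod_def]
  exact ⟨-(s * u / P) * B - s * v, by linear_combination s * huv⟩

structure Bk (α β x : ℝ) (P H : ℕ) (a B m t : ℤ) : Prop where
  hP : 100 ≤ P
  H1 : 1 ≤ H
  HP : H ≤ P
  ha : |α - a / (P : ℝ) ^ 8| ≤ 2 / ((P : ℝ) ^ 16 * H ^ 2) ^ 8
  aP : (P : ℤ) ∣ a - 1
  hB1 : 1 / ((P : ℝ) ^ 16 * H ^ 2) ≤ β - B / P
  hB2 : β - B / P ≤ 2 / ((P : ℝ) ^ 16 * H ^ 2)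
  hm : |x - (m + 1 / (2 * H)) / (P : ℝ) ^ 8| ≤ 4 / ((P : ℝ) ^ 16 * H ^ 2) ^ 7
  mt : (P : ℤ) ∣ m - t

variable {α β x : ℝ} {P H : ℕ} {a B m t : ℤ}

lemma abs_lt_of {T u ε c : ℝ} (hε : 0 < ε) (hc : 0 < c) (hT : c ^ 2 ≤ T) (h : T * u ^ 2 < ε ^ 2) :
    |u| < ε / c := by
  rw [lt_div_iff₀ hc]
  refine lt_of_pow_lt_pow_left₀ 2 hε.le ?_
  rw [mul_pow, sq_abs]
  nlinarith [sq_nonneg u]

lemma eta_le (j : ℤ) {η : ℝ} (h0 : 0 < η) (h1 : η ≤ 1 / 2) : η ≤ |j - η| := by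
  rcases le_or_gt j 0 with h | h
  · have : (j : ℝ) ≤ 0 := by exact_mod_cast h
    rw [abs_of_nonpos (by linarith)]; linarith
  · have : (1 : ℝ) ≤ j := by exact_mod_cast h
    rw [abs_of_nonneg (by linarith)]; linarith

lemma Bk.drift (K : Bk α β x P H a B m t) {q : ℤ} (hq : |(q : ℝ)| ≤ ((P : ℝ) ^ 16 * H ^ 2) ^ 4) :
    |(q : ℝ) * (α - a / (P : ℝ) ^ 8)| + |x - (m + 1 / (2 * H)) / (P : ℝ) ^ 8| ≤
      1 / (2 * H) / (2 * (P : ℝ) ^ 8) := by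
  have p : (100 : ℝ) ≤ P := by exact_mod_cast K.hP
  have h1 : (1 : ℝ) ≤ H := by exact_mod_cast K.H1
  set D := (P : ℝ) ^ 16 * H ^ 2 with hD
  have p8 : (100 : ℝ) ≤ (P : ℝ) ^ 8 := p.trans (le_self_pow₀ (by linarith) (by norm_num))
  have D1 : 24 * H * (P : ℝ) ^ 8 ≤ D := by
    have : D = (P : ℝ) ^ 8 * H * (H * (P : ℝ) ^ 8) := by rw [hD]; ring
    rw [this, mul_assoc]
    exact mul_le_mul_of_nonneg_right (by nlinarith) (by positivity)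
  have D2 : 1 ≤ D := by nlinarith
  have a1 : |(q : ℝ) * (α - a / (P : ℝ) ^ 8)| ≤ 2 / D := by
    rw [abs_mul]
    calc _ ≤ D ^ 4 * (2 / D ^ 8) := mul_le_mul hq K.ha (abs_nonneg _) (by positivity)
      _ = 2 / D ^ 4 := by field_simp
      _ ≤ 2 / D := div_le_div_of_nonneg_left (by norm_num) (by positivity)
          (le_self_pow₀ D2 (by norm_num))
  have a2 : 4 / D ^ 7 ≤ 4 / D := div_le_div_of_nonneg_left (by norm_num) (by positivity)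
    (le_self_pow₀ D2 (by norm_num))
  have a3 : 6 / D ≤ 1 / (2 * H) / (2 * (P : ℝ) ^ 8) := by
    rw [div_div, div_le_div_iff₀ (by positivity) (by positivity)]; linarith
  have := K.hm
  have e : 6 / D = 2 / D + 4 / D := by ring
  linarith

lemma Bk.R1 (K : Bk α β x P H a B m t) {q p' : ℤ} {y ε : ℝ} (hε : 0 < ε) (hε1 : ε ≤ 1 / 100)
    (h1 : (P : ℝ) ^ 4 ≤ |(q : ℝ)|) (h2 : |(q : ℝ)| ≤ (P : ℝ) ^ 12)
    (hw : |(q : ℝ)| * (q * β - y - p') ^ 2 < ε ^ 2) :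
    ∃ i : ℤ, |y - i / P| ≤ 1 / (P : ℝ) ^ 2 := by
  have p : (100 : ℝ) ≤ P := by exact_mod_cast K.hP
  have hH : (1 : ℝ) ≤ H := by exact_mod_cast K.H1
  have w := abs_lt_of hε (c := (P : ℝ) ^ 2) (by positivity) (by rwa [← pow_mul]) hw
  refine ⟨q * B - p' * P, ?_⟩
  have e : y - ((q * B - p' * P : ℤ) : ℝ) / P = q * (β - B / P) - (q * β - y - p') := by
    push_cast; field_simp; ring
  rw [e]
  have g0 : 0 ≤ β - B / P := le_trans (by positivity) K.hB1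
  have a1 : |(q : ℝ) * (β - B / P)| ≤ 1 / 2 / (P : ℝ) ^ 2 := by
    rw [abs_mul, abs_of_nonneg g0]
    calc _ ≤ (P : ℝ) ^ 12 * (2 / ((P : ℝ) ^ 16 * H ^ 2)) := mul_le_mul h2 K.hB2 g0 (by positivity)
      _ = 2 / ((P : ℝ) ^ 2 * H ^ 2) / (P : ℝ) ^ 2 := by field_simp
      _ ≤ _ := by
        refine div_le_div_of_nonneg_right ?_ (by positivity)
        rw [div_le_div_iff₀ (by positivity) (by norm_num)]
        have : (100 : ℝ) ≤ (P : ℝ) ^ 2 := by nlinarith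
        have : (1 : ℝ) ≤ (H : ℝ) ^ 2 := by nlinarith
        nlinarith
  have a2 : ε / (P : ℝ) ^ 2 ≤ 1 / 2 / (P : ℝ) ^ 2 :=
    div_le_div_of_nonneg_right (by linarith) (by positivity)
  have := abs_sub ((q : ℝ) * (β - B / P)) (q * β - y - p')
  have e2 : 1 / (P : ℝ) ^ 2 = 1 / 2 / (P : ℝ) ^ 2 + 1 / 2 / (P : ℝ) ^ 2 := by ring
  linarith

lemma Bk.R2 (K : Bk α β x P H a B m t) {q p p' : ℤ} {y ε : ℝ} (hε : 0 < ε)
    (h1 : (P : ℝ) ^ 12 ≤ |(q : ℝ)|) (h2 : |(q : ℝ)| ≤ ((P : ℝ) ^ 16 * H ^ 2) ^ 4)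
    (hu : |(q : ℝ)| * (q * α - x - p) ^ 2 < ε ^ 2)
    (hw : |(q : ℝ)| * (q * β - y - p') ^ 2 < ε ^ 2) :
    ∃ j c : ℤ, |j - 1 / (2 * (H : ℝ))| ≤ 2 * ε * (P : ℝ) ^ 2 ∧
      |y - (t + j) * B / P - c| ≤ ε / (P : ℝ) ^ 6 + 8 * ε ^ 2 / (H ^ 2 * (j - 1 / (2 * (H : ℝ))) ^ 2) := by
  have p0 : (100 : ℝ) ≤ P := by exact_mod_cast K.hP
  have hH : (1 : ℝ) ≤ H := by exact_mod_cast K.H1
  have u := abs_lt_of hε (c := (P : ℝ) ^ 6) (by positivity) (by rwa [← pow_mul]) hu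
  have w := abs_lt_of hε (c := (P : ℝ) ^ 6) (by positivity) (by rwa [← pow_mul]) hw
  set η : ℝ := 1 / (2 * H) with hη
  have η0 : 0 < η := by positivity
  have η1 : η ≤ 1 / 2 := by rw [hη]; exact one_div_le_one_div_of_le (by norm_num) (by linarith)
  obtain ⟨c1, hc1⟩ := K.aP
  obtain ⟨c2, hc2⟩ := K.mt
  set j : ℤ := q * a - p * P ^ 8 - m with hj
  have jη := eta_le j η0 η1
  have dr := K.drift h2
  have e1 : (j - η) / (P : ℝ) ^ 8 = (q * α - x - p) - q * (α - a / (P : ℝ) ^ 8) +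
      (x - (m + η) / (P : ℝ) ^ 8) := by
    rw [hj]; push_cast; field_simp; ring
  have b1 : |j - η| / (2 * (P : ℝ) ^ 8) ≤ |q * α - x - p| := by
    have a1 := abs_add_le ((q * α - x - p) - q * (α - a / (P : ℝ) ^ 8)) (x - (m + η) / (P : ℝ) ^ 8)
    have a2 := abs_sub (q * α - x - p) (q * (α - a / (P : ℝ) ^ 8))
    rw [← e1, abs_div, abs_of_pos (by positivity : (0 : ℝ) < (P : ℝ) ^ 8)] at a1
    have a3 : η / (2 * (P : ℝ) ^ 8) ≤ |j - η| / (2 * (P : ℝ) ^ 8) :=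
      div_le_div_of_nonneg_right jη (by positivity)
    have e : |j - η| / (P : ℝ) ^ 8 = 2 * (|j - η| / (2 * (P : ℝ) ^ 8)) := by field_simp
    linarith
  have j0 : 0 < (j - η) ^ 2 := by rw [← sq_abs]; exact pow_pos (η0.trans_le jη) 2
  have b2 : |(q : ℝ)| * (j - η) ^ 2 ≤ 4 * ε ^ 2 * (P : ℝ) ^ 16 := by
    have := pow_le_pow_left₀ (by positivity) b1 2
    rw [div_pow, sq_abs, sq_abs, div_le_iff₀ (by positivity)] at this
    have h3 := mul_le_mul_of_nonneg_left this (abs_nonneg (q : ℝ))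
    have h4 := mul_le_mul_of_nonneg_right hu.le (by positivity : (0 : ℝ) ≤ (2 * (P : ℝ) ^ 8) ^ 2)
    nlinarith
  refine ⟨j, (-q * c1 + p * P ^ 7 + c2) * B - p', ?_, ?_⟩
  · have := b1.trans u.le
    rw [div_le_div_iff₀ (by positivity) (by positivity)] at this
    refine le_of_mul_le_mul_right (a := (P : ℝ) ^ 6) ?_ (by positivity)
    linarith
  · have eq : q = t + j + P * (-q * c1 + p * P ^ 7 + c2) := by
      rw [hj]; linear_combination (-q) * hc1 + hc2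
    have eq' : (q : ℝ) = t + j + P * ((-q * c1 + p * P ^ 7 + c2 : ℤ) : ℝ) := by exact_mod_cast eq
    have e : y - (t + j) * B / P - (((-q * c1 + p * P ^ 7 + c2) * B - p' : ℤ) : ℝ) =
        q * (β - B / P) - (q * β - y - p') := by
      clear_value j
      rw [Int.cast_sub, Int.cast_mul]
      generalize ((-q * c1 + p * P ^ 7 + c2 : ℤ) : ℝ) = c at eq' ⊢
      rw [eq']; field_simp; ring
    rw [e]
    have g0 : 0 ≤ β - B / P := le_trans (by positivity) K.hB1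
    have a1 : |(q : ℝ) * (β - B / P)| ≤ 8 * ε ^ 2 / (H ^ 2 * (j - η) ^ 2) := by
      rw [abs_mul, abs_of_nonneg g0]
      refine (mul_le_mul_of_nonneg_left K.hB2 (abs_nonneg _)).trans ?_
      rw [← mul_div_assoc, div_le_div_iff₀ (by positivity) (by positivity)]
      have := mul_le_mul_of_nonneg_right b2 (by positivity : (0 : ℝ) ≤ 2 * H ^ 2)
      nlinarith
    have := abs_sub ((q : ℝ) * (β - B / P)) (q * β - y - p')
    linarith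

lemma Bk.even (K : Bk α β x P 1 a B m 0) {q p p' : ℤ} {y ε : ℝ} (hε : 0 < ε) (hε1 : ε ≤ 1 / 100)
    (h1 : (P : ℝ) ^ 12 ≤ |(q : ℝ)|) (h2 : |(q : ℝ)| ≤ ((P : ℝ) ^ 16 * (1 : ℕ) ^ 2) ^ 4)
    (hu : |(q : ℝ)| * (q * α - x - p) ^ 2 < ε ^ 2)
    (hw : |(q : ℝ)| * (q * β - y - p') ^ 2 < ε ^ 2) :
    ∃ j c : ℤ, |y - j * β - c| ≤ 9 * ε ^ 2 / (j - 1 / 2) ^ 2 := by
  obtain ⟨j, c, a1, a2⟩ := K.R2 hε h1 h2 hu hw
  refine ⟨j, c, ?_⟩
  have p0 : (100 : ℝ) ≤ P := by exact_mod_cast K.hP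
  have g1 := K.hB1
  have g2 := K.hB2
  simp only [Nat.cast_one, mul_one, one_pow, one_mul, Int.cast_zero, zero_add] at a1 a2 g1 g2
  have g0 : 0 ≤ β - B / P := le_trans (by positivity) g1
  have jη := eta_le j (η := 1 / 2) (by norm_num) le_rfl
  have j0 : 0 < ((j : ℝ) - 1 / 2) ^ 2 := by rw [← sq_abs]; positivity
  have p2 : (100 : ℝ) ≤ (P : ℝ) ^ 2 := by nlinarith
  have j1 : |(j : ℝ)| ≤ (P : ℝ) ^ 2 := by
    have := abs_add_le ((j : ℝ) - 1 / 2) (1 / 2)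
    rw [sub_add_cancel, abs_of_pos (by norm_num : (0 : ℝ) < 1 / 2)] at this
    nlinarith
  have b1 : |(j : ℝ) * (β - B / P)| ≤ 1 / 8 / (P : ℝ) ^ 4 := by
    rw [abs_mul, abs_of_nonneg g0]
    calc _ ≤ (P : ℝ) ^ 2 * (2 / (P : ℝ) ^ 16) := mul_le_mul j1 g2 g0 (by positivity)
      _ = 2 / (P : ℝ) ^ 10 / (P : ℝ) ^ 4 := by field_simp
      _ ≤ _ := by
        refine div_le_div_of_nonneg_right ?_ (by positivity)
        have : (P : ℝ) ≤ (P : ℝ) ^ 10 := le_self_pow₀ (by linarith) (by norm_num)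
        rw [div_le_div_iff₀ (by positivity) (by norm_num)]; linarith
  have b2 : ε / (P : ℝ) ^ 6 ≤ 1 / 8 / (P : ℝ) ^ 4 := by
    rw [show ε / (P : ℝ) ^ 6 = ε / (P : ℝ) ^ 2 / (P : ℝ) ^ 4 by field_simp]
    refine div_le_div_of_nonneg_right ?_ (by positivity)
    rw [div_le_iff₀ (by positivity)]; nlinarith
  have b3 : 1 / 4 / (P : ℝ) ^ 4 ≤ ε ^ 2 / (j - 1 / 2) ^ 2 := by
    rw [div_le_div_iff₀ (by positivity) j0]
    have := pow_le_pow_left₀ (abs_nonneg _) a1 2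
    rw [sq_abs] at this
    nlinarith
  have e : y - j * β - c = (y - j * B / P - c) - j * (β - B / P) := by ring
  rw [e]
  have := abs_sub (y - j * B / P - c) (j * (β - B / P))
  have e2 : 9 * ε ^ 2 / ((j : ℝ) - 1 / 2) ^ 2 =
    8 * ε ^ 2 / (j - 1 / 2) ^ 2 + ε ^ 2 / (j - 1 / 2) ^ 2 := by ring
  have e3 : 1 / 4 / (P : ℝ) ^ 4 = 1 / 8 / (P : ℝ) ^ 4 + 1 / 8 / (P : ℝ) ^ 4 := by ring
  linarith

lemma Bk.odd (K : Bk α β x P P a B m t) {s : ℤ} (hs : (P : ℤ) ∣ t * B - s) (s0 : 0 ≤ (s : ℝ) / P)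
    (s1 : (s : ℝ) / P ≤ 1 / 4) {q p p' : ℤ} {y ε : ℝ} (hε : 0 < ε) (hε1 : ε ≤ 1 / 100)
    (h1 : (P : ℝ) ^ 12 ≤ |(q : ℝ)|) (h2 : |(q : ℝ)| ≤ ((P : ℝ) ^ 16 * P ^ 2) ^ 4)
    (hu : |(q : ℝ)| * (q * α - x - p) ^ 2 < ε ^ 2)
    (hw : |(q : ℝ)| * (q * β - y - p') ^ 2 < ε ^ 2) :
    (∃ i : ℤ, |y - i / P| ≤ 1 / (P : ℝ) ^ 2) ∨ ∃ c : ℤ, |y - 1 / 8 - c| ≤ 1 / 4 := by
  obtain ⟨j, c, -, a2⟩ := K.R2 hε h1 h2 hu hw
  have p0 : (100 : ℝ) ≤ P := by exact_mod_cast K.hP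
  have b2 : ε / (P : ℝ) ^ 6 ≤ 1 / 100 / (P : ℝ) ^ 2 :=
    div_le_div₀ (by norm_num) hε1 (by positivity) (pow_le_pow_right₀ (by linarith) (by norm_num))
  by_cases hj : j = 0
  · right
    obtain ⟨d, hd⟩ := hs
    refine ⟨c + d, ?_⟩
    have hd' : (t : ℝ) * B - s = P * d := by exact_mod_cast hd
    subst hj
    have e1 : 8 * ε ^ 2 / ((P : ℝ) ^ 2 * (((0 : ℤ) : ℝ) - 1 / (2 * (P : ℝ))) ^ 2) = 32 * ε ^ 2 := by
      push_cast; field_simp; ring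
    rw [e1] at a2
    have e2 : y - 1 / 8 - ((c + d : ℤ) : ℝ) = (y - (t + ((0 : ℤ) : ℝ)) * B / P - c) + (s / P - 1 / 8) := by
      push_cast
      have : (t : ℝ) * B = s + P * d := by linarith
      rw [add_zero, this]; field_simp; ring
    rw [e2]
    have a3 : |(s : ℝ) / P - 1 / 8| ≤ 1 / 8 := abs_le.2 ⟨by linarith, by linarith⟩
    have a4 : 1 / 100 / (P : ℝ) ^ 2 ≤ 1 / 100 := div_le_self (by norm_num) (by nlinarith)
    have := abs_add_le (y - (t + ((0 : ℤ) : ℝ)) * B / P - c) (s / P - 1 / 8)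
    nlinarith
  · left
    refine ⟨(t + j) * B + c * P, ?_⟩
    have e : y - (((t + j) * B + c * P : ℤ) : ℝ) / P = y - (t + j) * B / P - c := by
      push_cast; field_simp; ring
    rw [e]
    have η1 : 1 / (2 * (P : ℝ)) ≤ 1 / 2 := one_div_le_one_div_of_le (by norm_num) (by linarith)
    have η0 : 0 < 1 / (2 * (P : ℝ)) := by positivity
    have j1 : 1 / 4 ≤ ((j : ℝ) - 1 / (2 * P)) ^ 2 := by
      rcases lt_or_gt_of_ne hj with h | h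
      · have : (j : ℝ) ≤ -1 := by exact_mod_cast (by omega : j ≤ -1)
        nlinarith
      · have : (1 : ℝ) ≤ j := by exact_mod_cast h
        nlinarith
    have b3 : 8 * ε ^ 2 / ((P : ℝ) ^ 2 * ((j : ℝ) - 1 / (2 * P)) ^ 2) ≤ 1 / 2 / (P : ℝ) ^ 2 := by
      rw [mul_comm ((P : ℝ) ^ 2), ← div_div]
      refine div_le_div_of_nonneg_right ?_ (by positivity)
      rw [div_le_iff₀ (by linarith)]; nlinarith
    have e2 : 1 / (P : ℝ) ^ 2 = 1 / 2 / (P : ℝ) ^ 2 + 1 / 2 / (P : ℝ) ^ 2 := by ring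
    have : 1 / 100 / (P : ℝ) ^ 2 ≤ 1 / 2 / (P : ℝ) ^ 2 :=
      div_le_div_of_nonneg_right (by norm_num) (by positivity)
    linarith

lemma Bk.cop (K : Bk α β x P H a B m t) : IsCoprime a ((P : ℤ) ^ 8) := by
  obtain ⟨c, hc⟩ := K.aP
  exact IsCoprime.pow_right ⟨1, -c, by linear_combination hc⟩

lemma Bk.hit (K : Bk α β x P P a B m t) {s : ℤ} (hs : (P : ℤ) ∣ t * B - s) {y ρ : ℝ}
    (z0 : 0 ≤ y - s / P) (z1 : y - s / P ≤ ρ) (ρ1 : ρ ≤ 1) :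
    ∃ q p p' : ℤ, (P : ℝ) ≤ |(q : ℝ)| ∧ |(q : ℝ)| * (q * α - x - p) ^ 2 ≤ ρ + 1 / P ∧
      |(q : ℝ)| * (q * β - y - p') ^ 2 ≤ ρ + 1 / P := by
  have p0 : (100 : ℝ) ≤ P := by exact_mod_cast K.hP
  have pp : (0 : ℤ) < P := by have := K.hP; omega
  obtain ⟨q0, q1, q2, c0, hc0⟩ := exists_res (pow_pos pp 8) K.cop m
  set γ := β - B / P with hγ
  have g1 : 1 / (P : ℝ) ^ 18 ≤ γ := by have := K.hB1; rwa [← pow_add] at this
  have g2 : γ ≤ 2 / (P : ℝ) ^ 18 := by have := K.hB2; rwa [← pow_add] at this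
  have g0 : 0 < γ := lt_of_lt_of_le (by positivity) g1
  set z := y - s / P with hz
  set j : ℤ := ⌊z / (γ * (P : ℝ) ^ 8)⌋ + 1 with hj
  have j1 : z / (γ * (P : ℝ) ^ 8) < j := by rw [hj]; push_cast; exact Int.lt_floor_add_one _
  have j2 : (j : ℝ) ≤ z / (γ * (P : ℝ) ^ 8) + 1 := by
    rw [hj]; push_cast; linarith [Int.floor_le (z / (γ * (P : ℝ) ^ 8))]
  have j3 : (1 : ℝ) ≤ j := by
    have : 0 ≤ ⌊z / (γ * (P : ℝ) ^ 8)⌋ := Int.floor_nonneg.2 (by positivity)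
    exact_mod_cast (by omega : 1 ≤ j)
  rw [div_lt_iff₀ (by positivity)] at j1
  rw [← sub_le_iff_le_add, le_div_iff₀ (by positivity)] at j2
  have q1' : (0 : ℝ) ≤ q0 := by exact_mod_cast q1
  have q2' : (q0 : ℝ) ≤ (P : ℝ) ^ 8 := by exact_mod_cast q2.le
  set q : ℤ := q0 + P ^ 8 * j with hq
  have hq' : (q : ℝ) = q0 + (P : ℝ) ^ 8 * j := by rw [hq]; push_cast; ring
  have p8 : (P : ℝ) ≤ (P : ℝ) ^ 8 := le_self_pow₀ (by linarith) (by norm_num)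
  have qa : (P : ℝ) ≤ q := by rw [hq']; nlinarith
  have w0 : 0 ≤ q * γ - z := by rw [hq']; nlinarith
  have w1 : q * γ - z ≤ 2 * (γ * (P : ℝ) ^ 8) := by rw [hq']; nlinarith
  have w2 : γ * (P : ℝ) ^ 8 ≤ 2 / (P : ℝ) ^ 10 := by
    calc _ ≤ 2 / (P : ℝ) ^ 18 * (P : ℝ) ^ 8 := mul_le_mul_of_nonneg_right g2 (by positivity)
      _ = _ := by field_simp
  have w3 : 4 / (P : ℝ) ^ 10 ≤ 1 / (P : ℝ) ^ 9 := by
    rw [div_le_div_iff₀ (by positivity) (by positivity), pow_succ _ 9]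
    nlinarith [pow_pos (by linarith : (0 : ℝ) < P) 9]
  have w4 : 1 / (P : ℝ) ^ 9 ≤ 1 / P :=
    one_div_le_one_div_of_le (by linarith) (le_self_pow₀ (by linarith) (by norm_num))
  have w5 : q * γ - z ≤ 1 / (P : ℝ) ^ 9 := by
    have : 4 / (P : ℝ) ^ 10 = 2 * (2 / (P : ℝ) ^ 10) := by ring
    linarith
  have qb : (q : ℝ) ≤ (ρ + 1 / P) * (P : ℝ) ^ 18 := by
    rw [← div_le_iff₀ (by positivity), div_eq_mul_one_div]
    have := mul_le_mul_of_nonneg_left g1 (by linarith : (0 : ℝ) ≤ q)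
    linarith
  have fin : ∀ u : ℝ, |u| ≤ 1 / (P : ℝ) ^ 9 → |(q : ℝ)| * u ^ 2 ≤ ρ + 1 / P := by
    intro u hu
    rw [abs_of_nonneg (by linarith), ← sq_abs]
    have := pow_le_pow_left₀ (abs_nonneg _) hu 2
    calc _ ≤ (ρ + 1 / P) * (P : ℝ) ^ 18 * (1 / (P : ℝ) ^ 9) ^ 2 :=
          mul_le_mul qb this (by positivity) (by linarith)
      _ = _ := by field_simp
  obtain ⟨c1, hc1⟩ := K.aP
  obtain ⟨c2, hc2⟩ := K.mt
  obtain ⟨c3, hc3⟩ := hs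
  refine ⟨q, c0 + j * a, c3 + (-q0 * c1 + P ^ 7 * c0 + c2 + P ^ 7 * j) * B,
    by rwa [abs_of_nonneg (by linarith)], fin _ ?_, fin _ ?_⟩
  · have dr := K.drift (q := q) (by
      rw [abs_of_nonneg (by linarith), ← pow_add, ← pow_mul]
      refine qb.trans ?_
      have : 1 / (P : ℝ) ≤ 1 := by rw [div_le_one (by linarith)]; linarith
      have h2 : (P : ℝ) ^ 19 ≤ (P : ℝ) ^ ((16 + 2) * 4) :=
        pow_le_pow_right₀ (by linarith) (by norm_num)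
      rw [pow_succ, mul_comm] at h2
      exact (mul_le_mul_of_nonneg_right (by linarith) (by positivity)).trans h2)
    have hc0' : (q0 : ℝ) * a - m = (P : ℝ) ^ 8 * c0 := by exact_mod_cast hc0
    have e : q * α - x - ((c0 + j * a : ℤ) : ℝ) = q * (α - a / (P : ℝ) ^ 8) -
        (x - (m + 1 / (2 * P)) / (P : ℝ) ^ 8) - 1 / (2 * P) / (P : ℝ) ^ 8 := by
      push_cast
      rw [hq', show (m : ℝ) = q0 * a - (P : ℝ) ^ 8 * c0 by linarith]; field_simp; ring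
    rw [e]
    have a1 := abs_sub (q * (α - a / (P : ℝ) ^ 8) - (x - (m + 1 / (2 * P)) / (P : ℝ) ^ 8))
      (1 / (2 * P) / (P : ℝ) ^ 8)
    have a2 := abs_sub (q * (α - a / (P : ℝ) ^ 8)) (x - (m + 1 / (2 * P)) / (P : ℝ) ^ 8)
    rw [abs_of_pos (by positivity : (0 : ℝ) < 1 / (2 * P) / (P : ℝ) ^ 8)] at a1
    have e1 : 1 / (2 * (P : ℝ)) / (P : ℝ) ^ 8 = 1 / 2 * (1 / (P : ℝ) ^ 9) := by field_simp
    have e2 : 1 / (2 * (P : ℝ)) / (2 * (P : ℝ) ^ 8) = 1 / 4 * (1 / (P : ℝ) ^ 9) := by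
      field_simp; ring
    have : 0 < 1 / (P : ℝ) ^ 9 := by positivity
    linarith
  · have eq : q * B = s + P * (c3 + (-q0 * c1 + P ^ 7 * c0 + c2 + P ^ 7 * j) * B) := by
      rw [hq]; linear_combination B * hc0 - q0 * B * hc1 + B * hc2 + hc3
    have eq' : (q : ℝ) * B = s + P * ((c3 + (-q0 * c1 + P ^ 7 * c0 + c2 + P ^ 7 * j) * B : ℤ) : ℝ) := by
      exact_mod_cast eq
    generalize ((c3 + (-q0 * c1 + P ^ 7 * c0 + c2 + P ^ 7 * j) * B : ℤ) : ℝ) = c at eq' ⊢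
    have e : q * β - y - c = q * γ - z := by
      rw [hγ, hz, mul_sub, ← mul_div_assoc, eq']; field_simp; ring
    rw [e, abs_of_nonneg w0]; exact w5

lemma Bk.nonsing (K : Bk α β x P 1 a B m t) {q p p' : ℤ} (q0 : q ≠ 0)
    (hq : |(q : ℝ)| ≤ (P : ℝ) ^ 16 / 4) :
    1 / (2 * (P : ℝ) ^ 8) ≤ |q * α - p| ∨ 1 / (2 * (P : ℝ) ^ 8) ≤ |q * β - p'| := by
  have p0 : (100 : ℝ) ≤ P := by exact_mod_cast K.hP
  have dr := K.drift (q := q) (by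
    simp only [Nat.cast_one, one_pow, mul_one]
    have : (P : ℝ) ^ 16 ≤ ((P : ℝ) ^ 16) ^ 4 :=
      le_self_pow₀ (one_le_pow₀ (by linarith)) (by norm_num)
    have : (0 : ℝ) < (P : ℝ) ^ 16 := by positivity
    linarith)
  have g1 := K.hB1
  have g2 := K.hB2
  simp only [Nat.cast_one, mul_one, one_pow] at dr g1 g2
  have g0 : 0 < β - B / P := lt_of_lt_of_le (by positivity) g1
  by_cases h : q * a - p * P ^ 8 = 0
  · right
    have hd : ((P : ℤ) ^ 8) ∣ q := K.cop.symm.dvd_of_dvd_mul_right ⟨p, by linarith⟩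
    obtain ⟨j, rfl⟩ := hd
    have j1 : (1 : ℝ) ≤ |(j : ℝ)| := by
      have : j ≠ 0 := by rintro rfl; simp at q0
      exact_mod_cast Int.one_le_abs this
    push_cast at hq ⊢
    set v := (P : ℝ) ^ 8 * j * (β - B / P) with hv
    have v1 : |v| ≤ 1 / 2 := by
      rw [hv, abs_mul, abs_of_pos g0]
      calc _ ≤ (P : ℝ) ^ 16 / 4 * (2 / (P : ℝ) ^ 16) := mul_le_mul hq g2 g0.le (by positivity)
        _ = _ := by field_simp; ring
    have v2 : 1 / (P : ℝ) ^ 8 ≤ |v| := by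
      rw [hv, abs_mul, abs_of_pos g0, abs_mul, abs_of_pos (by positivity : (0 : ℝ) < (P : ℝ) ^ 8)]
      calc _ = (P : ℝ) ^ 8 * 1 * (1 / (P : ℝ) ^ 16) := by field_simp
        _ ≤ _ := by gcongr
    have e : (P : ℝ) ^ 8 * j * β - p' = v - ((p' - P ^ 7 * j * B : ℤ) : ℝ) := by
      rw [hv]; push_cast; field_simp; ring
    rw [e]
    have v3 : 1 / (2 * (P : ℝ) ^ 8) ≤ 1 / (P : ℝ) ^ 8 :=
      one_div_le_one_div_of_le (by positivity) (by nlinarith [pow_pos (by linarith : (0:ℝ) < P) 8])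
    by_cases h0 : p' - P ^ 7 * j * B = 0
    · rw [h0]; simpa using v3.trans v2
    · have : (1 : ℝ) ≤ |((p' - P ^ 7 * j * B : ℤ) : ℝ)| := by exact_mod_cast Int.one_le_abs h0
      have := abs_sub_abs_le_abs_sub ((p' - P ^ 7 * j * B : ℤ) : ℝ) v
      rw [abs_sub_comm] at this
      linarith
  · left
    have a1 : (1 : ℝ) ≤ |((q * a - p * P ^ 8 : ℤ) : ℝ)| := by exact_mod_cast Int.one_le_abs h
    have e : q * α - p = ((q * a - p * P ^ 8 : ℤ) : ℝ) / (P : ℝ) ^ 8 + q * (α - a / (P : ℝ) ^ 8) := by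
      push_cast; field_simp; ring
    have a2 := abs_sub (q * α - p) (q * (α - a / (P : ℝ) ^ 8))
    rw [show q * α - p - q * (α - a / (P : ℝ) ^ 8) = ((q * a - p * P ^ 8 : ℤ) : ℝ) / (P : ℝ) ^ 8 by
      rw [e]; ring, abs_div, abs_of_pos (by positivity : (0 : ℝ) < (P : ℝ) ^ 8)] at a2
    have a3 : 1 / (P : ℝ) ^ 8 ≤ |((q * a - p * P ^ 8 : ℤ) : ℝ)| / (P : ℝ) ^ 8 :=
      div_le_div_of_nonneg_right a1 (by positivity)
    have e1 : 1 / (P : ℝ) ^ 8 = 2 * (1 / (2 * (P : ℝ) ^ 8)) := by field_simp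
    have e2 : 1 / 2 / (2 * (P : ℝ) ^ 8) = 1 / 2 * (1 / (2 * (P : ℝ) ^ 8)) := by field_simp
    have := abs_nonneg (x - (m + 1 / 2) / (P : ℝ) ^ 8)
    have : 0 < 1 / (2 * (P : ℝ) ^ 8) := by positivity
    linarith

end H58Bad
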