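import Mathlib

/-! Badly approximable targets, singular matrices, algebraic measures on tori. -/

namespace Pool.Agent.H58.Bad

open MeasureTheory

/-- the torus -/
abbrev Tor (m : ℕ) := Fin m → UnitAddCircle

/-- the class of `A q` in the torus -/
noncomputable def act {m n : ℕ} (A : Matrix (Fin m) (Fin n) ℝ) (q : Fin n → ℤ) : Tor m :=
  fun i => ((∑ j, A i j * (q j : ℝ) : ℝ) : UnitAddCircle)

/-- badly approximable targets (sup norms): the liminf is positive -/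
def Bad {m n : ℕ} (A : Matrix (Fin m) (Fin n) ℝ) : Set (Tor m) :=
  {η | ∃ c : ℝ, 0 < c ∧ ∃ R : ℝ, ∀ q : Fin n → ℤ, R ≤ ‖q‖ →
    c ≤ ‖q‖ ^ ((n : ℝ) / m) * ‖act A q - η‖}

/-- singular matrices -/
def Singular {m n : ℕ} (A : Matrix (Fin m) (Fin n) ℝ) : Prop :=
  ∀ ε : ℝ, 0 < ε → ∃ T₀ : ℝ, ∀ T : ℝ, T₀ ≤ T → ∃ q : Fin n → ℤ, q ≠ 0 ∧ ‖q‖ ≤ T ∧
    ‖act A q‖ ≤ ε * T ^ (-((n : ℝ) / m))

/-- Haar probability measure of the coset `x + φ(T^d)` -/
noncomputable def cosetMeasure {m d : ℕ} (x : Tor m) (φ : Tor d →+ Tor m) : Measure (Tor m) :=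
  Measure.map (fun h => x + φ h) volume

end Pool.Agent.H58.Bad
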