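import Pool.Agent.H58.BadA1
import Pool.Agent.H58.BadDefs

/-! The construction and the measure estimates. -/

set_option autoImplicit false

open MeasureTheory Metric

namespace H58Bad

def PP : ℕ → ℕ
  | 0 => 100
  | k + 1 => PP k ^ 16 * (if k % 2 = 0 then 1 else PP k) ^ 2

def HH (k : ℕ) : ℕ := if k % 2 = 0 then 1 else PP k

lemma PP_succ (k : ℕ) : PP (k + 1) = PP k ^ 16 * HH k ^ 2 := rfl

lemma PP_ge (k : ℕ) : 100 ≤ PP k := by
  induction k with
  | zero => exact le_rfl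
  | succ k ih =>
    rw [PP_succ]
    have h1 : 1 ≤ HH k := by unfold HH; split_ifs <;> omega
    have : PP k ≤ PP k ^ 16 := Nat.le_self_pow (by norm_num) _
    nlinarith [Nat.one_le_pow 2 _ h1]

lemma HH_ge (k : ℕ) : 1 ≤ HH k := by have := PP_ge k; unfold HH; split_ifs <;> omega
lemma HH_le (k : ℕ) : HH k ≤ PP k := by have := PP_ge k; unfold HH; split_ifs <;> omega

lemma PP_two (k : ℕ) : 2 * PP k ≤ PP (k + 1) := by
  rw [PP_succ]
  have := PP_ge k
  have h : PP k ^ 2 ≤ PP k ^ 16 := Nat.pow_le_pow_right (by omega) (by norm_num)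
  nlinarith [Nat.one_le_pow 2 _ (HH_ge k)]

lemma PP_pow (k : ℕ) : 100 * 2 ^ k ≤ PP k := by
  induction k with
  | zero => exact le_rfl
  | succ k ih => have := PP_two k; rw [pow_succ]; omega

lemma PP_gt (k : ℕ) : k < PP k := by have := PP_pow k; have := Nat.lt_two_pow_self (n := k); omega

lemma PP_even (k : ℕ) : 2 ∣ PP k := by
  induction k with
  | zero => decide
  | succ k ih => rw [PP_succ]; exact (ih.pow (by norm_num)).mul_right _

def aa : ℕ → ℤ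
  | 0 => 1
  | k + 1 => aa k * ((PP k : ℤ) ^ 15 * HH k ^ 2) ^ 8 + 1

def BB : ℕ → ℤ
  | 0 => 1
  | k + 1 => BB k * ((PP k : ℤ) ^ 15 * HH k ^ 2) + 1

lemma BB_cop (k : ℕ) : IsCoprime (BB k) (PP k) := by
  cases k with
  | zero => exact isCoprime_one_left
  | succ k =>
    rw [PP_succ]; push_cast
    refine IsCoprime.mul_right (IsCoprime.pow_right ⟨1, -(BB k * (PP k : ℤ) ^ 14 * HH k ^ 2), ?_⟩)
      (IsCoprime.pow_right ⟨1, -(BB k * (PP k : ℤ) ^ 15 * HH k), ?_⟩) <;> simp only [BB] <;> ring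

noncomputable def tau (k : ℕ) : ℝ :=
  min (((k / 2).unpair.1 : ℝ) / (4 * ((k / 2).unpair.2 + 1))) (1 / 4)

noncomputable def ss (k : ℕ) : ℤ := ⌊tau k * PP k⌋

lemma PPz (k : ℕ) : (0 : ℤ) < PP k := by have := PP_ge k; omega

noncomputable def tt (k : ℕ) : ℤ :=
  if k % 2 = 0 then 0 else (exists_res (PPz k) (BB_cop k) (ss k)).choose

lemma tt_bd (k : ℕ) : 0 ≤ tt k ∧ tt k < PP k := by
  unfold tt
  split_ifs
  · exact ⟨le_rfl, PPz k⟩
  · have := (exists_res (PPz k) (BB_cop k) (ss k)).choose_spec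
    exact ⟨this.1, this.2.1⟩

lemma tt_odd {k : ℕ} (h : k % 2 ≠ 0) : (PP k : ℤ) ∣ tt k * BB k - ss k := by
  unfold tt
  rw [if_neg h]
  exact (exists_res (PPz k) (BB_cop k) (ss k)).choose_spec.2.2

noncomputable def mm : ℕ → ℤ
  | 0 => tt 0
  | k + 1 => (2 * HH k * mm k + 1) * ((PP k : ℤ) ^ 103 * (PP k / 2 : ℕ) * HH k ^ 13) *
      PP (k + 1) + tt (k + 1)

theorem exists_bk : ∃ α β x : ℝ, ∀ k, Bk α β x (PP k) (HH k) (aa k) (BB k) (mm k) (tt k) := by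
  have p0 : ∀ k, (100 : ℝ) ≤ PP k := fun k => by exact_mod_cast PP_ge k
  have h0 : ∀ k, (1 : ℝ) ≤ HH k := fun k => by exact_mod_cast HH_ge k
  have ps : ∀ k, (PP (k + 1) : ℝ) = (PP k : ℝ) ^ 16 * HH k ^ 2 := fun k => by
    rw [PP_succ]; push_cast; ring
  have half : ∀ (c : ℝ) (n k : ℕ), 0 ≤ c → n ≠ 0 →
      c / (PP (k + 1) : ℝ) ^ n ≤ c / (PP k : ℝ) ^ n / 2 := by
    intro c n k hc hn
    have a : (2 : ℝ) * PP k ≤ PP (k + 1) := by exact_mod_cast PP_two k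
    have := p0 k
    rw [div_div]
    refine div_le_div_of_nonneg_left hc (by positivity) ?_
    calc (PP k : ℝ) ^ n * 2 ≤ (PP k : ℝ) ^ n * 2 ^ n :=
          mul_le_mul_of_nonneg_left (le_self_pow₀ (by norm_num) hn) (by positivity)
      _ = (2 * PP k) ^ n := by rw [mul_pow]; ring
      _ ≤ _ := pow_le_pow_left₀ (by positivity) a n
  have ea : ∀ k, (aa (k + 1) : ℝ) / (PP (k + 1) : ℝ) ^ 8 - aa k / (PP k : ℝ) ^ 8 =
      1 / (PP (k + 1) : ℝ) ^ 8 := by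
    intro k
    have := p0 k; have := h0 k
    rw [ps]; simp only [aa]; push_cast; field_simp; ring
  have eb : ∀ k, (BB (k + 1) : ℝ) / (PP (k + 1) : ℝ) - BB k / (PP k : ℝ) =
      1 / (PP (k + 1) : ℝ) ^ 1 := by
    intro k
    have := p0 k; have := h0 k
    rw [ps]; simp only [BB]; push_cast; field_simp; ring
  have em : ∀ k, ((mm (k + 1) : ℝ) + 1 / (2 * HH (k + 1))) / (PP (k + 1) : ℝ) ^ 8 -
      (mm k + 1 / (2 * HH k)) / (PP k : ℝ) ^ 8 =
      (tt (k + 1) + 1 / (2 * HH (k + 1))) / (PP (k + 1) : ℝ) ^ 8 := by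
    intro k
    have := p0 k; have := h0 k; have := h0 (k + 1)
    obtain ⟨c, hc⟩ := PP_even k
    have e : ((PP k / 2 : ℕ) : ℝ) = PP k / 2 := by rw [hc]; simp
    simp only [mm, Int.cast_add, Int.cast_mul, Int.cast_pow, Int.cast_natCast, e, ps]
    push_cast; field_simp; ring
  obtain ⟨α, hα⟩ := exists_lim (x := fun k => (aa k : ℝ) / (PP k : ℝ) ^ 8)
    (r := fun k => 1 / (PP (k + 1) : ℝ) ^ 8)
    (fun k => by
      have := ea k
      have : (0 : ℝ) ≤ 1 / (PP (k + 1) : ℝ) ^ 8 := by positivity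
      linarith)
    (fun k => (ea k).le) (fun k => half 1 8 _ (by norm_num) (by norm_num))
  obtain ⟨β, hβ⟩ := exists_lim (x := fun k => (BB k : ℝ) / (PP k : ℝ))
    (r := fun k => 1 / (PP (k + 1) : ℝ) ^ 1)
    (fun k => by
      have := eb k
      have : (0 : ℝ) ≤ 1 / (PP (k + 1) : ℝ) ^ 1 := by positivity
      linarith)
    (fun k => (eb k).le) (fun k => half 1 1 _ (by norm_num) (by norm_num))
  have t0 : ∀ k, (0 : ℝ) ≤ (tt k + 1 / (2 * HH k)) / (PP k : ℝ) ^ 8 := fun k => by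
    have : (0 : ℝ) ≤ tt k := by exact_mod_cast (tt_bd k).1
    positivity
  obtain ⟨x, hx⟩ := exists_lim (x := fun k => ((mm k : ℝ) + 1 / (2 * HH k)) / (PP k : ℝ) ^ 8)
    (r := fun k => 2 / (PP (k + 1) : ℝ) ^ 7)
    (fun k => by linarith [em k, t0 (k + 1)])
    (fun k => by
      rw [em]
      have a : (tt (k + 1) : ℝ) ≤ PP (k + 1) := by exact_mod_cast (tt_bd _).2.le
      have b : 1 / (2 * (HH (k + 1) : ℝ)) ≤ 1 := by
        rw [div_le_one (by linarith [h0 (k + 1)])]; linarith [h0 (k + 1)]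
      have c := p0 (k + 1)
      rw [div_le_div_iff₀ (by positivity) (by positivity), pow_succ _ 7, mul_comm _ (PP (k + 1) : ℝ),
        ← mul_assoc]
      exact mul_le_mul_of_nonneg_right (by linarith) (by positivity))
    (fun k => half 2 7 _ (by norm_num) (by norm_num))
  refine ⟨α, β, x, fun k => ⟨PP_ge k, HH_ge k, HH_le k, ?_, ?_, ?_, ?_, ?_, ?_⟩⟩
  · rw [← ps, abs_le]
    have := hα k; have := ea k
    have : (0 : ℝ) ≤ 1 / (PP (k + 1) : ℝ) ^ 8 := by positivity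
    have : 2 / (PP (k + 1) : ℝ) ^ 8 = 2 * (1 / (PP (k + 1) : ℝ) ^ 8) := by ring
    constructor <;> linarith [(hα k).1, (hα k).2]
  · cases k with
    | zero => simp [aa]
    | succ k =>
      simp only [aa, add_sub_cancel_right, PP_succ]; push_cast
      exact ⟨aa k * (PP k : ℤ) ^ 104 * HH k ^ 14, by ring⟩
  · rw [← ps]; have := eb k; rw [pow_one] at this; linarith [(hβ k).1]
  · rw [← ps]
    have := (hβ k).2
    rw [pow_one] at this
    have : 2 / (PP (k + 1) : ℝ) = 2 * (1 / (PP (k + 1) : ℝ)) := by ring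
    linarith
  · rw [← ps, abs_le]
    have : 4 / (PP (k + 1) : ℝ) ^ 7 = 2 * (2 / (PP (k + 1) : ℝ) ^ 7) := by ring
    have : (0 : ℝ) ≤ 2 / (PP (k + 1) : ℝ) ^ 7 := by positivity
    constructor <;> linarith [(hx k).1, (hx k).2, em k, t0 (k + 1)]
  · cases k with
    | zero => simp [mm]
    | succ k => simp only [mm, add_sub_cancel_right]; exact Dvd.intro_left _ rfl

lemma tau_bd (k : ℕ) : 0 ≤ (ss k : ℝ) / PP k ∧ (ss k : ℝ) / PP k ≤ tau k ∧
    tau k - 1 / PP k ≤ (ss k : ℝ) / PP k ∧ tau k ≤ 1 / 4 := by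
  have p : (0 : ℝ) < PP k := by exact_mod_cast PPz k
  have t0 : 0 ≤ tau k := le_min (by positivity) (by norm_num)
  refine ⟨div_nonneg (by exact_mod_cast Int.floor_nonneg.2 (by positivity)) p.le, ?_, ?_,
    min_le_right _ _⟩
  · rw [div_le_iff₀ p]; exact Int.floor_le _
  · rw [le_div_iff₀ p, sub_mul, one_div_mul_cancel p.ne']
    exact (Int.sub_one_lt_floor _).le

lemma block {T : ℝ} (h : (PP 0 : ℝ) ^ 4 ≤ T) : ∃ k, (PP k : ℝ) ^ 4 ≤ T ∧ T ≤ (PP (k + 1) : ℝ) ^ 4 := by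
  classical
  have ex : ∃ k, T ≤ (PP (k + 1) : ℝ) ^ 4 := by
    obtain ⟨n, hn⟩ := exists_nat_ge T
    refine ⟨n, hn.trans ?_⟩
    have : n ≤ PP (n + 1) ^ 4 := by
      have := PP_gt (n + 1)
      have := Nat.le_self_pow (n := 4) (by norm_num) (PP (n + 1))
      omega
    exact_mod_cast this
  refine ⟨Nat.find ex, ?_, Nat.find_spec ex⟩
  rcases h0 : Nat.find ex with _ | k
  · exact h
  · exact (not_le.1 (Nat.find_min ex (by omega : k < Nat.find ex))).le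

variable {α β x : ℝ}

theorem cover (K : ∀ k, Bk α β x (PP k) (HH k) (aa k) (BB k) (mm k) (tt k)) {q p p' : ℤ} {y ε : ℝ}
    (hε : 0 < ε) (hε1 : ε ≤ 1 / 100) (h : (PP 0 : ℝ) ^ 4 ≤ |(q : ℝ)|)
    (hu : |(q : ℝ)| * (q * α - x - p) ^ 2 < ε ^ 2) (hw : |(q : ℝ)| * (q * β - y - p') ^ 2 < ε ^ 2) :
    (∃ k, ∃ i : ℤ, |y - i / PP k| ≤ 1 / (PP k : ℝ) ^ 2) ∨
    (∃ j c : ℤ, |y - j * β - c| ≤ 9 * ε ^ 2 / (j - 1 / 2) ^ 2) ∨ ∃ c : ℤ, |y - 1 / 8 - c| ≤ 1 / 4 := by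
  obtain ⟨k, h1, h2⟩ := block h
  rcases le_total |(q : ℝ)| ((PP k : ℝ) ^ 12) with h3 | h3
  · exact Or.inl ⟨k, (K k).R1 hε hε1 h1 h3 hw⟩
  rw [PP_succ] at h2
  push_cast at h2
  have Kk := K k
  by_cases hk : k % 2 = 0
  · have e1 : HH k = 1 := if_pos hk
    have e2 : tt k = 0 := if_pos hk
    rw [e1, e2] at Kk
    rw [e1] at h2
    exact Or.inr (Or.inl (Kk.even hε hε1 h3 h2 hu hw))
  · have e1 : HH k = PP k := if_neg hk
    rw [e1] at Kk h2
    have := tau_bd k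
    rcases Kk.odd (tt_odd hk) this.1 (by linarith [this.2.1, this.2.2.2]) hε hε1 h3 h2 hu hw with a | a
    · exact Or.inl ⟨k, a⟩
    · exact Or.inr (Or.inr a)

theorem hits (K : ∀ k, Bk α β x (PP k) (HH k) (aa k) (BB k) (mm k) (tt k)) {y : ℝ}
    (y0 : 0 ≤ y) (y1 : y ≤ 1 / 4) {δ : ℝ} (hδ : 0 < δ) (R : ℝ) :
    ∃ q p p' : ℤ, R ≤ |(q : ℝ)| ∧ |(q : ℝ)| * (q * α - x - p) ^ 2 < δ ∧
      |(q : ℝ)| * (q * β - y - p') ^ 2 < δ := by
  obtain ⟨b, hb⟩ := exists_nat_gt (max R (max 3 (3 / δ)))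
  have b1 : R < b := lt_of_le_of_lt (le_max_left _ _) hb
  have b2 : (3 : ℝ) < b := lt_of_le_of_lt ((le_max_left _ _).trans (le_max_right _ _)) hb
  have b3 : 3 / δ < b := lt_of_le_of_lt ((le_max_right _ _).trans (le_max_right _ _)) hb
  set a := ⌊y * (4 * (b + 1))⌋₊ with ha
  set k := 2 * Nat.pair a b + 1 with hk
  have k1 : k % 2 ≠ 0 := by omega
  have k2 : k / 2 = Nat.pair a b := by omega
  have k3 : (b : ℝ) ≤ PP k := by
    have := Nat.right_le_pair a b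
    have := PP_gt k
    exact_mod_cast (by omega : b ≤ PP k)
  have a1 : (a : ℝ) / (4 * (b + 1)) ≤ y := by
    rw [div_le_iff₀ (by positivity)]; exact Nat.floor_le (by positivity)
  have a2 : y - 1 / b ≤ (a : ℝ) / (4 * (b + 1)) := by
    have := Nat.lt_floor_add_one (y * (4 * (b + 1)))
    rw [le_div_iff₀ (by positivity), sub_mul]
    have : 1 ≤ 1 / (b : ℝ) * (4 * (b + 1)) := by
      rw [one_div_mul_eq_div, le_div_iff₀ (by linarith)]; linarith
    linarith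
  have e : tau k = (a : ℝ) / (4 * (b + 1)) := by
    simp only [tau, k2, Nat.unpair_pair]; exact min_eq_left (by linarith)
  have tb := tau_bd k
  have Kk := K k
  have e1 : HH k = PP k := if_neg k1
  rw [e1] at Kk
  have c1 : 1 / (PP k : ℝ) ≤ 1 / b := one_div_le_one_div_of_le (by linarith) k3
  have c2 : 1 / (b : ℝ) < 1 / 3 := one_div_lt_one_div_of_lt (by norm_num) b2
  have c3 : 3 * (1 / (b : ℝ)) < δ := by
    rw [div_lt_iff₀ hδ] at b3
    rw [mul_one_div, div_lt_iff₀ (by linarith)]; linarith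
  obtain ⟨q, p, p', q1, q2, q3⟩ := Kk.hit (tt_odd k1) (y := y) (ρ := 2 * (1 / b))
    (by linarith [tb.2.1]) (by linarith [tb.2.2.1]) (by linarith)
  exact ⟨q, p, p', by linarith, by linarith, by linarith⟩

end H58Bad
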