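import Pool.Agent.H58.BadA2

/-! The example on the two-dimensional torus. -/

set_option autoImplicit false

open MeasureTheory Metric Pool.Agent.H58.Bad

namespace H58Bad

lemma nrm_le (r : ℝ) (p : ℤ) : ‖(r : UnitAddCircle)‖ ≤ |r - p| := by
  rw [UnitAddCircle.norm_eq]; exact round_le r p

lemma mem_ball {y c r : ℝ} (n : ℤ) (h : |y - c - n| ≤ r) :
    (y : UnitAddCircle) ∈ closedBall (c : UnitAddCircle) r := by
  rw [mem_closedBall, dist_eq_norm, ← AddCircle.coe_sub]
  exact (nrm_le _ n).trans h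

lemma vol_ball (c : UnitAddCircle) (r : ℝ) : volume (closedBall c r) ≤ ENNReal.ofReal (2 * r) := by
  rw [AddCircle.volume_closedBall]; exact ENNReal.ofReal_le_ofReal (min_le_right _ _)

def AA (α β : ℝ) : Matrix (Fin 2) (Fin 1) ℝ := !![α; β]

def phi : Tor 1 →+ Tor 2 where
  toFun h := ![0, h 0]
  map_zero' := by ext i; fin_cases i <;> simp
  map_add' a b := by ext i; fin_cases i <;> simp

lemma phi_cont : Continuous phi := by
  refine continuous_pi fun i => ?_
  fin_cases i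
  · exact continuous_const
  · exact continuous_apply 0

lemma phi_inj : Function.Injective phi := by
  intro a b h
  ext i
  fin_cases i
  exact congrFun h 1

lemma norm_q (q : Fin 1 → ℤ) : ‖q‖ = |(q 0 : ℝ)| := by
  have : q = fun _ => q 0 := by ext i; fin_cases i; rfl
  rw [this, pi_norm_const, Int.norm_eq_abs]

lemma comp0 (α β x : ℝ) (w : UnitAddCircle) (q : Fin 1 → ℤ) :
    (act (AA α β) q - ![(x : UnitAddCircle), w]) 0 = ((q 0 * α - x : ℝ) : UnitAddCircle) := by
  simp [act, AA, mul_comm]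

lemma comp1 (α β y : ℝ) (w : UnitAddCircle) (q : Fin 1 → ℤ) :
    (act (AA α β) q - ![w, (y : UnitAddCircle)]) 1 = ((q 0 * β - y : ℝ) : UnitAddCircle) := by
  simp [act, AA, mul_comm]

lemma measurable_bad {m n : ℕ} (A : Matrix (Fin m) (Fin n) ℝ) : MeasurableSet (Bad A) := by
  have : Bad A = ⋃ c : ℕ, ⋃ R : ℕ, ⋂ q : Fin n → ℤ, {η | (R : ℝ) ≤ ‖q‖ →
      1 / ((c : ℝ) + 1) ≤ ‖q‖ ^ ((n : ℝ) / m) * ‖act A q - η‖} := by
    ext η
    simp only [Bad, Set.mem_ofPred_eq, Set.mem_iUnion, Set.mem_iInter]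
    constructor
    · rintro ⟨c, hc, R, h⟩
      obtain ⟨c', hc'⟩ := exists_nat_one_div_lt hc
      obtain ⟨R', hR'⟩ := exists_nat_ge R
      exact ⟨c', R', fun q hq => hc'.le.trans (h q (hR'.trans hq))⟩
    · rintro ⟨c, R, h⟩
      exact ⟨_, by positivity, R, h⟩
  rw [this]
  refine MeasurableSet.iUnion fun c => MeasurableSet.iUnion fun R => MeasurableSet.iInter fun q => ?_
  by_cases h : (R : ℝ) ≤ ‖q‖
  · simp only [h, forall_true_left]
    exact (isClosed_le continuous_const (by fun_prop)).measurableSet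
  · simp [h]

lemma sq_mul {T u : ℝ} (hT : 0 ≤ T) : (T ^ (((1 : ℕ) : ℝ) / (2 : ℕ)) * u) ^ 2 = T * u ^ 2 := by
  rw [mul_pow, ← Real.rpow_natCast, ← Real.rpow_mul hT]; norm_num

variable {α β x : ℝ}

lemma not_bad (K : ∀ k, Bk α β x (PP k) (HH k) (aa k) (BB k) (mm k) (tt k)) {y : ℝ}
    (y0 : 0 ≤ y) (y1 : y ≤ 1 / 4) : ![(x : UnitAddCircle), (y : UnitAddCircle)] ∉ Bad (AA α β) := by
  rintro ⟨c, hc, R, h⟩
  obtain ⟨q, p, p', h1, h2, h3⟩ := hits K y0 y1 (δ := c ^ 2) (by positivity) R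
  have := h (fun _ => q) (by rwa [norm_q])
  rw [norm_q] at this
  have h4 := pow_le_pow_left₀ hc.le this 2
  rw [sq_mul (abs_nonneg _)] at h4
  have h5 : ‖act (AA α β) (fun _ => q) - ![(x : UnitAddCircle), (y : UnitAddCircle)]‖ ≤
      max |q * α - x - p| |q * β - y - p'| := by
    rw [pi_norm_le_iff_of_nonneg (le_max_of_le_left (abs_nonneg _))]
    intro i
    fin_cases i
    · exact le_max_of_le_left (by simpa only [Fin.zero_eta, comp0] using nrm_le _ p)
    · exact le_max_of_le_right (by simpa only [Fin.mk_one, comp1] using nrm_le _ p')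
  have h6 := mul_le_mul_of_nonneg_left (pow_le_pow_left₀ (norm_nonneg _) h5 2) (abs_nonneg (q : ℝ))
  rcases max_cases |q * α - x - p| |q * β - y - p'| with e | e <;> rw [e.1, sq_abs] at h6 <;>
    linarith

lemma bad_of (K : ∀ k, Bk α β x (PP k) (HH k) (aa k) (BB k) (mm k) (tt k)) {ε : ℝ}
    (hε : 0 < ε) (hε1 : ε ≤ 1 / 100) (w : UnitAddCircle)
    (hw : ![(x : UnitAddCircle), w] ∉ Bad (AA α β)) :
    w ∈ (⋃ k, ⋃ i ∈ Finset.range (PP k), closedBall (((i : ℝ) / PP k : ℝ) : UnitAddCircle)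
        (1 / (PP k : ℝ) ^ 2)) ∪
      ((⋃ j : ℤ, closedBall ((j * β : ℝ) : UnitAddCircle) (9 * ε ^ 2 / (j - 1 / 2) ^ 2)) ∪
        closedBall ((1 / 8 : ℝ) : UnitAddCircle) (1 / 4)) := by
  obtain ⟨y, rfl⟩ := QuotientAddGroup.mk_surjective w
  simp only [Bad, Set.mem_ofPred_eq, not_exists, not_and, not_forall, not_le] at hw
  obtain ⟨q, hq, h⟩ := hw ε hε ((PP 0 : ℝ) ^ 4)
  rw [norm_q] at hq h
  have key : ∀ i, |(q 0 : ℝ)| * ‖(act (AA α β) q - ![(x : UnitAddCircle), (y : UnitAddCircle)]) i‖ ^ 2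
      < ε ^ 2 := by
    intro i
    rw [← sq_mul (abs_nonneg _)]
    refine pow_lt_pow_left₀ (lt_of_le_of_lt ?_ h) (by positivity) (by norm_num)
    exact mul_le_mul_of_nonneg_left (norm_le_pi_norm _ i) (by positivity)
  have k0 := key 0
  have k1 := key 1
  rw [comp0, UnitAddCircle.norm_eq, sq_abs] at k0
  rw [comp1, UnitAddCircle.norm_eq, sq_abs] at k1
  rcases cover K hε hε1 hq k0 k1 with ⟨k, i, h⟩ | ⟨j, c, h⟩ | ⟨c, h⟩
  · left
    simp only [Set.mem_iUnion]
    have p := PPz k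
    have p' : (0 : ℝ) < PP k := by exact_mod_cast p
    have r0 := Int.emod_nonneg i p.ne'
    have r1 := Int.emod_lt_of_pos i p
    refine ⟨k, (i % PP k).toNat, Finset.mem_range.2 (by omega), mem_ball (i / PP k) ?_⟩
    have e : (((i % PP k).toNat : ℕ) : ℝ) = i - PP k * (i / PP k : ℤ) := by
      have : (((i % PP k).toNat : ℕ) : ℤ) = i - PP k * (i / PP k : ℤ) := by
        rw [Int.toNat_of_nonneg r0, Int.emod_def]
      exact_mod_cast this
    rw [e]
    convert h using 2
    field_simp; ring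
  · exact Or.inr (Or.inl (Set.mem_iUnion.2 ⟨j, mem_ball c h⟩))
  · exact Or.inr (Or.inr (mem_ball c h))

lemma vol1 : volume (⋃ k, ⋃ i ∈ Finset.range (PP k),
    closedBall (((i : ℝ) / PP k : ℝ) : UnitAddCircle) (1 / (PP k : ℝ) ^ 2)) ≤
    ENNReal.ofReal (1 / 25) := by
  refine (measure_iUnion_le _).trans ?_
  have h : ∀ k, volume (⋃ i ∈ Finset.range (PP k),
      closedBall (((i : ℝ) / PP k : ℝ) : UnitAddCircle) (1 / (PP k : ℝ) ^ 2)) ≤
      ENNReal.ofReal (1 / 25 / 2 / 2 ^ k) := by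
    intro k
    refine (measure_biUnion_finset_le _ _).trans ((Finset.sum_le_sum fun i _ => vol_ball _ _).trans ?_)
    rw [Finset.sum_const, Finset.card_range, nsmul_eq_mul, ← ENNReal.ofReal_natCast,
      ← ENNReal.ofReal_mul (by positivity)]
    refine ENNReal.ofReal_le_ofReal ?_
    have p : (100 : ℝ) * 2 ^ k ≤ PP k := by exact_mod_cast PP_pow k
    have p' : (0 : ℝ) < PP k := by exact_mod_cast PPz k
    rw [show (PP k : ℝ) * (2 * (1 / (PP k : ℝ) ^ 2)) = 2 / PP k by field_simp,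
      div_le_div_iff₀ p' (by positivity)]
    linarith
  refine (ENNReal.tsum_le_tsum h).trans ?_
  rw [← ENNReal.ofReal_tsum_of_nonneg (fun k => by positivity) (summable_geometric_two' _),
    tsum_geometric_two']

lemma vol2 (β : ℝ) : ∃ ε : ℝ, 0 < ε ∧ ε ≤ 1 / 100 ∧
    volume (⋃ j : ℤ, closedBall ((j * β : ℝ) : UnitAddCircle) (9 * ε ^ 2 / (j - 1 / 2) ^ 2)) ≤
    ENNReal.ofReal (1 / 5) := by
  have hs : Summable fun j : ℤ => 1 / ((j : ℝ) - 1 / 2) ^ 2 := by
    have := (Real.summable_one_div_int_add_rpow (-(1 / 2)) 2).2 (by norm_num)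
    refine this.congr fun j => ?_
    rw [Real.rpow_two, sq_abs, ← sub_eq_add_neg]
  set C := ∑' j : ℤ, 1 / ((j : ℝ) - 1 / 2) ^ 2
  have C0 : 0 ≤ C := tsum_nonneg fun j => by positivity
  refine ⟨1 / (100 * (C + 1)), by positivity,
    one_div_le_one_div_of_le (by norm_num) (by linarith), (measure_iUnion_le _).trans ?_⟩
  refine (ENNReal.tsum_le_tsum fun j => vol_ball _ _).trans ?_
  have e : ∀ j : ℤ, 2 * (9 * (1 / (100 * (C + 1))) ^ 2 / ((j : ℝ) - 1 / 2) ^ 2) =
      18 * (1 / (100 * (C + 1))) ^ 2 * (1 / ((j : ℝ) - 1 / 2) ^ 2) := fun j => by ring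
  simp only [e]
  rw [← ENNReal.ofReal_tsum_of_nonneg (fun k => by positivity) (hs.mul_left _), tsum_mul_left]
  refine ENNReal.ofReal_le_ofReal ?_
  change 18 * (1 / (100 * (C + 1))) ^ 2 * C ≤ 1 / 5
  rw [div_pow, one_pow, mul_one_div, div_mul_eq_mul_div, div_le_div_iff₀ (by positivity) (by norm_num)]
  nlinarith

theorem main : ∃ (A : Matrix (Fin 2) (Fin 1) ℝ) (x : Tor 2) (φ : Tor 1 →+ Tor 2),
    Continuous φ ∧ Function.Injective φ ∧ ¬ Singular A ∧ MeasurableSet (Bad A) ∧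
    0 < cosetMeasure x φ (Bad A) ∧ cosetMeasure x φ (Bad A) < 1 ∧
    ¬ (Set.range (fun h => x + φ h) ⊆ Bad A) := by
  obtain ⟨α, β, x, K⟩ := exists_bk
  have ex : ∀ h : Tor 1, ![(x : UnitAddCircle), 0] + phi h = ![(x : UnitAddCircle), h 0] := by
    intro h; ext i; fin_cases i <;> simp [phi]
  have mb := measurable_bad (AA α β)
  set S : Set UnitAddCircle := {w | ![(x : UnitAddCircle), w] ∈ Bad (AA α β)} with hS
  have mS : MeasurableSet S := by
    refine (Continuous.measurable ?_) mb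
    refine continuous_pi fun i => ?_
    fin_cases i
    · exact continuous_const
    · exact continuous_id
  have e : cosetMeasure ![(x : UnitAddCircle), 0] phi (Bad (AA α β)) = volume S := by
    rw [cosetMeasure, Measure.map_apply (f := fun h => ![(x : UnitAddCircle), 0] + phi h)
      (continuous_const.add phi_cont).measurable mb,
      ← (volume_preserving_funUnique (Fin 1) UnitAddCircle).measure_preimage mS.nullMeasurableSet]
    congr 1
    ext h
    simp only [Set.mem_preimage, ex, hS]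
    rfl
  have sum : volume S + volume Sᶜ = 1 := by
    rw [measure_add_measure_compl mS, UnitAddCircle.measure_univ]
  refine ⟨AA α β, ![x, 0], phi, phi_cont, phi_inj, ?_, mb, ?_, ?_, ?_⟩
  · intro hs
    obtain ⟨T0, h⟩ := hs (1 / 5) (by norm_num)
    obtain ⟨n, hn⟩ := exists_nat_ge (4 * T0)
    have Kk := K (2 * n)
    have e1 : HH (2 * n) = 1 := if_pos (by omega)
    rw [e1] at Kk
    set P := PP (2 * n)
    have p0 : (100 : ℝ) ≤ P := by exact_mod_cast PP_ge _
    have p1 : (n : ℝ) ≤ P := by have := PP_gt (2 * n); exact_mod_cast (by omega : n ≤ P)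
    have p2 : (P : ℝ) ≤ (P : ℝ) ^ 16 := le_self_pow₀ (by linarith) (by norm_num)
    obtain ⟨q, q0, q1, q2⟩ := h ((P : ℝ) ^ 16 / 4) (by linarith)
    rw [norm_q] at q1
    have q0' : q 0 ≠ 0 := by intro e; apply q0; ext i; fin_cases i; exact e
    have e2 : ((P : ℝ) ^ 16 / 4) ^ (-(((1 : ℕ) : ℝ) / (2 : ℕ))) = 2 / (P : ℝ) ^ 8 := by
      rw [show (P : ℝ) ^ 16 / 4 = ((P : ℝ) ^ 8 / 2) ^ (2 : ℝ) by rw [Real.rpow_two]; ring,
        ← Real.rpow_mul (by positivity)]
      norm_num [Real.rpow_neg_one]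
    rw [e2] at q2
    have a0 := (norm_le_pi_norm _ 0).trans q2
    have a1 := (norm_le_pi_norm _ 1).trans q2
    have b0 : act (AA α β) q 0 = ((q 0 * α : ℝ) : UnitAddCircle) := by simp [act, AA, mul_comm]
    have b1 : act (AA α β) q 1 = ((q 0 * β : ℝ) : UnitAddCircle) := by simp [act, AA, mul_comm]
    rw [b0, UnitAddCircle.norm_eq] at a0
    rw [b1, UnitAddCircle.norm_eq] at a1
    have c : 1 / 5 * (2 / (P : ℝ) ^ 8) < 1 / (2 * (P : ℝ) ^ 8) := by
      rw [mul_div_assoc', div_lt_div_iff₀ (by positivity) (by positivity)]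
      nlinarith [pow_pos (by linarith : (0 : ℝ) < P) 8]
    rcases Kk.nonsing (p := round (q 0 * α)) (p' := round (q 0 * β)) q0' q1 with d | d <;> linarith
  · rw [e, pos_iff_ne_zero]
    intro h0
    rw [h0, zero_add] at sum
    obtain ⟨ε, e0, e1, v2⟩ := vol2 β
    have := (measure_mono (μ := volume) (show Sᶜ ⊆ _ from fun w hw => bad_of K e0 e1 w hw)).trans
      ((measure_union_le _ _).trans (add_le_add vol1 ((measure_union_le _ _).trans
        (add_le_add v2 (vol_ball _ _)))))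
    rw [sum, ← ENNReal.ofReal_add (by norm_num) (by norm_num),
      ← ENNReal.ofReal_add (by norm_num) (by norm_num), ENNReal.one_le_ofReal] at this
    norm_num at this
  · rw [e]
    have h1 : closedBall ((1 / 8 : ℝ) : UnitAddCircle) (1 / 8) ⊆ Sᶜ := by
      intro w hw
      obtain ⟨y, rfl⟩ := QuotientAddGroup.mk_surjective w
      rw [mem_closedBall, dist_eq_norm, ← AddCircle.coe_sub, UnitAddCircle.norm_eq, abs_le] at hw
      have : (y : UnitAddCircle) = ((y - round (y - 1 / 8) : ℝ) : UnitAddCircle) := by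
        rw [AddCircle.coe_sub, eq_comm, sub_eq_self, AddCircle.coe_eq_zero_iff]
        exact ⟨round (y - 1 / 8), by simp⟩
      change ![(x : UnitAddCircle), (y : UnitAddCircle)] ∉ Bad (AA α β)
      rw [this]
      exact not_bad K (by linarith [hw.1]) (by linarith [hw.2])
    have h2 := measure_mono (μ := volume) h1
    rw [AddCircle.volume_closedBall] at h2
    have h3 : volume Sᶜ ≠ 0 := by
      intro h; rw [h] at h2; norm_num at h2
    rw [← sum]
    exact ENNReal.lt_add_right (measure_ne_top _ _) h3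
  · intro h
    have := h ⟨fun _ => ((0 : ℝ) : UnitAddCircle), rfl⟩
    simp only [ex] at this
    exact not_bad K le_rfl (by norm_num) this

end H58Bad
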