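import Pool.Agent.H58.BarnesRat

set_option autoImplicit false

namespace Pool.Agent.H58.Barnes
open Complex Finset

lemma denom_ne {t : ℝ} (ht : 0 < t) : ((1 + t * I - 1) * (1 + t * I - 2) : ℂ) ≠ 0 :=
  mul_ne_zero (by simpa using ne_of_Q (s := 1 + t * I) (by simpa using ht) 1)
    (by simpa using ne_of_Q (s := 1 + t * I) (by simpa using ht) 2)

lemma continuousOn_line {G : ℂ → ℂ} (hG : Differentiable ℂ G) :
    ContinuousOn (fun t : ℝ => G (1 + t * I) / ((1 + t * I - 1) * (1 + t * I - 2))) {t | 0 < t} := by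
  apply ContinuousOn.div
  · exact (hG.continuous.comp (by fun_prop)).continuousOn
  · fun_prop
  · intro t ht; exact denom_ne ht

lemma rat_integral {p q : ℕ} (hp : 0 < p) (hq : 0 < q) (h : Nat.Coprime p q) {G : ℂ → ℂ}
    (hG : Differentiable ℂ G)
    (hGZ : ∀ s : ℂ, 2 < s.re → G s = (s - 1) * (s - 2) * Z ((p : ℝ) / q) s) (j : ℕ) :
    ∃ n : ℕ, j ≤ n ∧ 4 ≤ n ∧ (j : ℝ) * n ^ 11 <
      ∫ t in ((n : ℝ) ^ 8)..(2 * (n : ℝ) ^ 8), ‖G (1 + t * I) / ((1 + t * I - 1) * (1 + t * I - 2))‖ := by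
  obtain ⟨C, hC0, hC⟩ := rat_lower hp hq h hG hGZ
  have hp' : (1 : ℝ) ≤ p := by exact_mod_cast hp
  obtain ⟨n, hn⟩ := exists_nat_gt (8 * p * (j + 2 * C) + j + 4)
  have hj0 : (0 : ℝ) ≤ j := Nat.cast_nonneg j
  have hA : 0 ≤ 8 * p * (j + 2 * C) := by positivity
  have hn4 : (4 : ℝ) ≤ n := by linarith
  refine ⟨n, by exact_mod_cast (show (j : ℝ) ≤ n by linarith), by exact_mod_cast hn4, ?_⟩
  have hn4' : 4 ≤ n := by exact_mod_cast hn4
  have hM : 20000 ≤ n ^ 8 := le_trans (by norm_num) (Nat.pow_le_pow_left hn4' 8)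
  have hz := zeta_mean (n ^ 8) hM
  push_cast at hz
  have hM1 : (1 : ℝ) ≤ (n : ℝ) ^ 8 := one_le_pow₀ (by linarith)
  have hle : (n : ℝ) ^ 8 ≤ 2 * (n : ℝ) ^ 8 := by linarith
  have hsub : Set.uIcc ((n : ℝ) ^ 8) (2 * (n : ℝ) ^ 8) ⊆ {t | 0 < t} := by
    intro t ht
    rw [Set.uIcc_of_le hle] at ht
    have := ht.1
    show 0 < t
    linarith
  have hzi := (continuousOn_zeta_line.mono hsub).norm.intervalIntegrable (μ := MeasureTheory.volume)
  have h1 : ∫ t in ((n : ℝ) ^ 8)..(2 * (n : ℝ) ^ 8),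
      ((n : ℝ) ^ 4 / (4 * p) * ‖riemannZeta (1 + t * I)‖ - C * (2 * n ^ 2)) ≤
      ∫ t in ((n : ℝ) ^ 8)..(2 * (n : ℝ) ^ 8), ‖G (1 + t * I) / ((1 + t * I - 1) * (1 + t * I - 2))‖ := by
    apply intervalIntegral.integral_mono_on hle
      ((hzi.const_mul _).sub (by simp)) ((continuousOn_line hG).mono hsub).norm.intervalIntegrable
    intro t ht
    have a1 := hC t (by linarith [ht.1])
    have a2 : (n : ℝ) ^ 4 ≤ Real.sqrt t := by
      apply Real.le_sqrt_of_sq_le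
      calc ((n : ℝ) ^ 4) ^ 2 = (n : ℝ) ^ 8 := by ring
        _ ≤ t := ht.1
    have a3 : t ^ (1 / 4 : ℝ) ≤ 2 * (n : ℝ) ^ 2 := by
      have b1 : t ≤ (2 * (n : ℝ) ^ 2) ^ 4 := by
        calc t ≤ 2 * (n : ℝ) ^ 8 := ht.2
          _ ≤ 16 * (n : ℝ) ^ 8 := by linarith
          _ = _ := by ring
      calc t ^ (1 / 4 : ℝ) ≤ ((2 * (n : ℝ) ^ 2) ^ 4) ^ (1 / 4 : ℝ) :=
            Real.rpow_le_rpow (by linarith [ht.1]) b1 (by norm_num)
        _ = 2 * (n : ℝ) ^ 2 := by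
            rw [← Real.rpow_natCast, ← Real.rpow_mul (by positivity)]; norm_num
    have a4 : (n : ℝ) ^ 4 / (4 * p) * ‖riemannZeta (1 + t * I)‖ ≤
        Real.sqrt t / (4 * p) * ‖riemannZeta (1 + t * I)‖ := by gcongr
    have a5 : C * t ^ (1 / 4 : ℝ) ≤ C * (2 * n ^ 2) := by gcongr
    show (n : ℝ) ^ 4 / (4 * p) * ‖riemannZeta (1 + t * I)‖ - C * (2 * n ^ 2) ≤ _
    linarith
  rw [intervalIntegral.integral_sub (hzi.const_mul _) (by simp), intervalIntegral.integral_const_mul] at h1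
  simp only [intervalIntegral.integral_const, smul_eq_mul] at h1
  refine lt_of_lt_of_le ?_ h1
  have h2 : (n : ℝ) ^ 4 / (4 * p) * ((n : ℝ) ^ 8 / 2) ≤ (n : ℝ) ^ 4 / (4 * p) *
      ∫ t in ((n : ℝ) ^ 8)..(2 * (n : ℝ) ^ 8), ‖riemannZeta (1 + t * I)‖ := by gcongr
  have h3 : (j : ℝ) * n ^ 11 + (2 * (n : ℝ) ^ 8 - n ^ 8) * (C * (2 * n ^ 2)) <
      (n : ℝ) ^ 4 / (4 * p) * ((n : ℝ) ^ 8 / 2) := by
    have e1 : (n : ℝ) ^ 4 / (4 * p) * ((n : ℝ) ^ 8 / 2) = n ^ 10 * (n * n / (8 * p)) := by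
      field_simp; ring
    have e2 : (j : ℝ) * n ^ 11 + (2 * (n : ℝ) ^ 8 - n ^ 8) * (C * (2 * n ^ 2)) = n ^ 10 * (j * n + 2 * C) := by
      ring
    rw [e1, e2]
    apply mul_lt_mul_of_pos_left _ (by positivity)
    rw [lt_div_iff₀ (by positivity)]
    have b1 : (j * n + 2 * C) ≤ (j + 2 * C) * n := by nlinarith
    have b2 : 8 * p * (j + 2 * C) * n < n * n := by
      apply mul_lt_mul_of_pos_right _ (by linarith); linarith
    nlinarith
  linarith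

theorem exists_bad : ∃ w : ℝ, 0 < w ∧ Irrational w ∧ ∃ G : ℂ → ℂ, Differentiable ℂ G ∧
    (∀ s : ℂ, 2 < s.re → G s = (s - 1) * (s - 2) * Z w s) ∧
    ∀ j : ℕ, ∃ n : ℕ, j ≤ n ∧ 4 ≤ n ∧ (j : ℝ) * n ^ 11 <
      ∫ t in ((n : ℝ) ^ 8)..(2 * (n : ℝ) ^ 8), ‖G (1 + t * I) / ((1 + t * I - 1) * (1 + t * I - 2))‖ := by
  obtain ⟨H, hc, hd, hZ⟩ := exists_entire
  set J : ℕ → ℝ → ℝ := fun n w => ∫ t in ((n : ℝ) ^ 8)..(2 * (n : ℝ) ^ 8),
    ‖H w (1 + t * I) / ((1 + t * I - 1) * (1 + t * I - 2))‖ with hJ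
  have hJc : ∀ n : ℕ, 4 ≤ n → ContinuousOn (J n) (Set.Ioi 0) := by
    intro n hn
    have hn4 : (4 : ℝ) ≤ n := by exact_mod_cast hn
    have hM1 : (1 : ℝ) ≤ (n : ℝ) ^ 8 := one_le_pow₀ (by linarith)
    rw [continuousOn_iff_continuous_domRestrict]
    have h1 : Continuous (Function.uncurry (fun (w : Set.Ioi (0 : ℝ)) (t : ℝ) =>
        ‖H w (1 + (max t 1 : ℝ) * I) / ((1 + (max t 1 : ℝ) * I - 1) * (1 + (max t 1 : ℝ) * I - 2))‖)) := by
      apply Continuous.norm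
      apply Continuous.div
      · refine hc.comp_continuous (f := fun x : Set.Ioi (0 : ℝ) × ℝ =>
          ((x.1 : ℝ), (1 + (max x.2 1 : ℝ) * I : ℂ))) (by fun_prop) ?_
        intro x
        exact ⟨x.1.2, by simp⟩
      · fun_prop
      · intro x
        exact denom_ne (lt_of_lt_of_le one_pos (le_max_right _ _))
    have h2 := intervalIntegral.continuous_parametric_intervalIntegral_of_continuous'
      (μ := MeasureTheory.volume) h1 ((n : ℝ) ^ 8) (2 * (n : ℝ) ^ 8)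
    refine h2.congr (fun w => ?_)
    apply intervalIntegral.integral_congr
    intro t ht
    rw [Set.uIcc_of_le (by linarith)] at ht
    have : max t 1 = t := max_eq_left (by linarith [ht.1])
    simp only [this]
  set U : ℕ → Set ℝ := fun j => {w | 0 < w ∧ ∃ n : ℕ, j ≤ n ∧ 4 ≤ n ∧ (j : ℝ) * n ^ 11 < J n w} with hU
  have hUo : ∀ j, IsOpen (U j) := by
    intro j
    have : U j = ⋃ n : ℕ, ⋃ (_ : j ≤ n ∧ 4 ≤ n), Set.Ioi 0 ∩ J n ⁻¹' Set.Ioi ((j : ℝ) * n ^ 11) := by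
      ext w
      simp only [hU, Set.mem_ofPred_eq, Set.mem_iUnion, Set.mem_inter_iff, Set.mem_Ioi, Set.mem_preimage]
      constructor
      · rintro ⟨h1, n, h2, h3, h4⟩; exact ⟨n, ⟨h2, h3⟩, h1, h4⟩
      · rintro ⟨n, ⟨h2, h3⟩, h1, h4⟩; exact ⟨h1, n, h2, h3, h4⟩
    rw [this]
    refine isOpen_iUnion (fun n => isOpen_iUnion (fun hn => ?_))
    exact (hJc n hn.2).isOpen_inter_preimage isOpen_Ioi isOpen_Ioi
  have hUq : ∀ j, ∀ r : ℚ, 0 < r → (r : ℝ) ∈ U j := by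
    intro j r hr
    have hp : 0 < r.num.natAbs := Int.natAbs_pos.mpr (Rat.num_pos.mpr hr).ne'
    have e : (r : ℝ) = (r.num.natAbs : ℝ) / r.den := by
      rw [Rat.cast_def, Nat.cast_natAbs, abs_of_pos (Rat.num_pos.mpr hr)]
    have hr' : (0 : ℝ) < r := by exact_mod_cast hr
    refine ⟨hr', ?_⟩
    exact rat_integral hp r.den_pos r.reduced (hd r hr') (by rw [← e]; exact hZ r hr') j
  have hdense : ∀ j, Dense (U j ∪ Set.Iio 0) := by
    intro j
    apply dense_of_exists_between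
    intro a b hab
    rcases lt_or_ge a 0 with ha | ha
    · obtain ⟨c, h1, h2⟩ := exists_between (lt_min hab ha)
      exact ⟨c, Or.inr (lt_min_iff.mp h2).2, h1, (lt_min_iff.mp h2).1⟩
    · obtain ⟨r, h1, h2⟩ := exists_rat_btwn hab
      have : (0 : ℝ) < r := lt_of_le_of_lt ha h1
      exact ⟨r, Or.inl (hUq j r (by exact_mod_cast this)), h1, h2⟩
  have hB := dense_iInter_of_isOpen (f := fun x : ℕ × ℚ => (U x.1 ∪ Set.Iio 0) ∩ {(x.2 : ℝ)}ᶜ)
    (fun x => ((hUo x.1).union isOpen_Iio).inter isOpen_compl_singleton)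
    (fun x => (hdense x.1).inter_of_isOpen_right (dense_compl_singleton _) isOpen_compl_singleton)
  obtain ⟨w, hw, hw0⟩ := hB.exists_mem_open isOpen_Ioi (Set.nonempty_Ioi (a := (0 : ℝ)))
  rw [Set.mem_iInter] at hw
  have hw0' : 0 < w := hw0
  refine ⟨w, hw0', ?_, H w, hd w hw0', hZ w hw0', fun j => ?_⟩
  · rintro ⟨r, hr⟩
    exact (hw (0, r)).2 hr.symm
  · rcases (hw (j, 0)).1 with h | h
    · exact h.2
    · exact absurd h (not_lt.mpr hw0'.le)

/-- Packaging for weights indexed by `Fin 2`. -/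
theorem exists_bad' : ∃ w : Fin 2 → ℝ, (∀ j, 0 < w j) ∧
    Module.finrank ℚ (Submodule.span ℚ (Set.range w)) = 2 ∧ ∃ F : ℂ → ℂ,
    DifferentiableOn ℂ F {s : ℂ | ∀ k : ℕ, 1 ≤ k → k ≤ 2 → s ≠ (k : ℂ)} ∧
    (∀ s : ℂ, ((2 : ℕ) : ℝ) < s.re →
      F s = ∑' m : Fin 2 → ℕ, (((1 + ∑ j, (m j : ℝ) * w j : ℝ) : ℂ) ^ (-s))) ∧
    ContinuousOn (fun t : ℝ => F (((1 : ℝ) : ℂ) + t * I)) {t | 0 < t} ∧
    ∀ j : ℕ, ∃ n : ℕ, j ≤ n ∧ 4 ≤ n ∧ (j : ℝ) * n ^ 11 <
      ∫ t in ((n : ℝ) ^ 8)..(2 * (n : ℝ) ^ 8), ‖F (((1 : ℝ) : ℂ) + t * I)‖ := by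
  obtain ⟨w, hw, hirr, G, hG, hGZ, hbad⟩ := exists_bad
  refine ⟨![1, w], ?_, ?_, fun s => G s / ((s - 1) * (s - 2)), ?_, ?_, ?_, ?_⟩
  · intro j; fin_cases j <;> simp [hw]
  · have : LinearIndependent ℚ ![(1 : ℝ), w] := by
      rw [LinearIndependent.pair_iff]
      intro a b hab
      by_cases hb : b = 0
      · subst hb; simpa using hab
      · exfalso
        apply hirr
        refine ⟨-a / b, ?_⟩
        have hb' : (b : ℝ) ≠ 0 := by exact_mod_cast hb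
        simp only [Rat.smul_def, mul_one] at hab
        push_cast
        field_simp
        linarith
    rw [finrank_span_eq_card this]; simp
  · apply hG.differentiableOn.div (by fun_prop)
    intro s hs
    apply mul_ne_zero
    · have := hs 1 le_rfl (by norm_num)
      exact sub_ne_zero.mpr (by simpa using this)
    · have := hs 2 (by norm_num) le_rfl
      exact sub_ne_zero.mpr (by simpa using this)
  · intro s hs
    have hs' : 2 < s.re := by simpa using hs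
    have hne : (s - 1) * (s - 2) ≠ 0 := by
      apply mul_ne_zero
      · intro h; have := congrArg Complex.re h; simp at this; linarith
      · intro h; have := congrArg Complex.re h; simp at this; linarith
    simp only
    rw [hGZ s hs', mul_div_cancel_left₀ _ hne]
    unfold Z
    rw [← (finTwoArrowEquiv ℕ).tsum_eq]
    congr 1
    ext m
    simp [X, Fin.sum_univ_two, add_assoc]
  · simpa using continuousOn_line hG
  · simpa using hbad

end Pool.Agent.H58.Barnes
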