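import Pool.Agent.H58.BarnesTaylor

set_option autoImplicit false

namespace Pool.Agent.H58.Barnes
open Complex Finset

/-- the lattice point `1 + m + n w`. -/
def X (w : ℝ) (i : ℕ × ℕ) : ℝ := 1 + i.1 + i.2 * w

/-- the Barnes double series with `a = 1` and weights `(1, w)`. -/
noncomputable def Z (w : ℝ) (s : ℂ) : ℂ := ∑' i : ℕ × ℕ, ((X w i : ℝ) : ℂ) ^ (-s)

lemma one_le_X {w : ℝ} (hw : 0 < w) (i : ℕ × ℕ) : 1 ≤ X w i := by
  unfold X
  have h1 : (0 : ℝ) ≤ i.1 := Nat.cast_nonneg _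
  have h2 : (0 : ℝ) ≤ i.2 * w := by positivity
  linarith

lemma X_pos {w : ℝ} (hw : 0 < w) (i : ℕ × ℕ) : 0 < X w i := lt_of_lt_of_le one_pos (one_le_X hw i)

lemma X_mono {w w' : ℝ} (h : w ≤ w') (i : ℕ × ℕ) : X w i ≤ X w' i := by
  unfold X
  have h1 : (0 : ℝ) ≤ i.2 := Nat.cast_nonneg _
  nlinarith

lemma summable_X {w τ : ℝ} (hw : 0 < w) (hτ : 2 < τ) : Summable (fun i : ℕ × ℕ => X w i ^ (-τ)) := by
  have h1 : Summable (fun n : ℕ => ((n : ℝ) + 1) ^ (-(τ / 2))) := by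
    have := (Real.summable_nat_rpow (p := -(τ / 2))).mpr (by linarith)
    have h2 := (summable_nat_add_iff 1).mpr this
    simpa using h2
  have h2 := summable_mul_of_summable_norm (f := fun n : ℕ => ((n : ℝ) + 1) ^ (-(τ / 2)))
    (g := fun n : ℕ => ((n : ℝ) + 1) ^ (-(τ / 2))) (by simpa using h1.norm) (by simpa using h1.norm)
  set c : ℝ := min 1 w with hc
  have hc0 : 0 < c := lt_min one_pos hw
  have hc1 : c ≤ 1 := min_le_left _ _
  have hcw : c ≤ w := min_le_right _ _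
  refine Summable.of_nonneg_of_le (fun i => Real.rpow_nonneg (X_pos hw i).le _) (fun i => ?_)
    (h2.mul_left ((c ^ 2) ^ (-(τ / 2))))
  have hm : (0 : ℝ) ≤ i.1 := Nat.cast_nonneg _
  have hn : (0 : ℝ) ≤ i.2 := Nat.cast_nonneg _
  rw [← Real.mul_rpow (by positivity) (by positivity), ← Real.mul_rpow (by positivity) (by positivity)]
  have h3 : X w i ^ (-τ) = (X w i ^ 2) ^ (-(τ / 2)) := by
    rw [← Real.rpow_natCast, ← Real.rpow_mul (X_pos hw i).le]
    congr 1; push_cast; ring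
  rw [h3]
  apply Real.rpow_le_rpow_of_nonpos (by positivity) _ (by linarith)
  have h4 : c * (1 + i.1 + i.2) ≤ X w i := by
    unfold X; nlinarith
  have h5 : (c * (1 + i.1 + i.2)) ^ 2 ≤ X w i ^ 2 := pow_le_pow_left₀ (by positivity) h4 2
  have h6 : ((i.1 : ℝ) + 1) * (i.2 + 1) ≤ (1 + i.1 + i.2) ^ 2 := by nlinarith
  calc c ^ 2 * (((i.1 : ℝ) + 1) * (i.2 + 1)) ≤ c ^ 2 * (1 + i.1 + i.2) ^ 2 := by gcongr
    _ = (c * (1 + i.1 + i.2)) ^ 2 := by ring
    _ ≤ _ := h5

/-- parameter domain -/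
def W (σ₀ : ℝ) : Set (ℝ × ℂ) := {p | 0 < p.1 ∧ σ₀ < p.2.re}

lemma isOpen_W (σ₀ : ℝ) : IsOpen (W σ₀) :=
  (isOpen_lt continuous_const continuous_fst).inter
    (isOpen_lt continuous_const (Complex.continuous_re.comp continuous_snd))

/-- jointly continuous and holomorphic in `s` on a half plane. -/
def Good (σ₀ : ℝ) (H : ℝ → ℂ → ℂ) : Prop :=
  ContinuousOn (fun p : ℝ × ℂ => H p.1 p.2) (W σ₀) ∧
    ∀ w, 0 < w → DifferentiableOn ℂ (H w) {s | σ₀ < s.re}

lemma good_tsum (σ₀ : ℝ) (f : ℕ × ℕ → ℝ → ℂ → ℂ) (B : ℝ × ℂ → ℝ) (hB : Continuous B)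
    (hc : ∀ i, ContinuousOn (fun p : ℝ × ℂ => f i p.1 p.2) (W σ₀))
    (hd : ∀ i w, 0 < w → Differentiable ℂ (f i w))
    (hb : ∀ i w s, 0 < w → σ₀ < s.re → ‖f i w s‖ ≤ B (w, s) * X w i ^ (-(s.re - σ₀ + 2))) :
    Good σ₀ (fun w s => ∑' i, f i w s) := by
  have key : ∀ p₁ ∈ W σ₀, ∃ V : Set (ℝ × ℂ), IsOpen V ∧ p₁ ∈ V ∧ V ⊆ W σ₀ ∧
      ∃ u : ℕ × ℕ → ℝ, Summable u ∧ ∀ i, ∀ p ∈ V, ‖f i p.1 p.2‖ ≤ u i := by
    rintro ⟨w₁, s₁⟩ ⟨hw₁, hs₁⟩
    simp only at hw₁ hs₁
    refine ⟨{p | p.1 > w₁ / 2 ∧ p.2.re > (σ₀ + s₁.re) / 2 ∧ |B p| < |B (w₁, s₁)| + 1}, ?_, ?_, ?_,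
      fun i => (|B (w₁, s₁)| + 1) * X (w₁ / 2) i ^ (-((s₁.re - σ₀) / 2 + 2)), ?_, ?_⟩
    · refine (isOpen_lt continuous_const continuous_fst).inter (IsOpen.inter
        (isOpen_lt continuous_const (Complex.continuous_re.comp continuous_snd))
        (isOpen_lt hB.abs continuous_const))
    · refine ⟨by simp; linarith, by simp; linarith, by simp⟩
    · rintro ⟨w, s⟩ ⟨h1, h2, _⟩
      simp only at h1 h2
      exact ⟨by simp only; linarith, by simp only; linarith⟩
    · exact (summable_X (by linarith) (by linarith)).mul_left _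
    · rintro i ⟨w, s⟩ ⟨h1, h2, h3⟩
      simp only at h1 h2 h3 ⊢
      have hw : 0 < w := by linarith
      have h4 := hb i w s hw (by linarith)
      have h5 : X w i ^ (-(s.re - σ₀ + 2)) ≤ X (w₁ / 2) i ^ (-((s₁.re - σ₀) / 2 + 2)) := by
        calc X w i ^ (-(s.re - σ₀ + 2)) ≤ X w i ^ (-((s₁.re - σ₀) / 2 + 2)) :=
              Real.rpow_le_rpow_of_exponent_le (one_le_X hw i) (by linarith)
          _ ≤ _ := Real.rpow_le_rpow_of_nonpos (X_pos (by linarith) i) (X_mono h1.le i) (by linarith)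
      have h6 : 0 ≤ X w i ^ (-(s.re - σ₀ + 2)) := Real.rpow_nonneg (X_pos hw i).le _
      calc _ ≤ _ := h4
        _ ≤ |B (w, s)| * X w i ^ (-(s.re - σ₀ + 2)) := by gcongr; exact le_abs_self _
        _ ≤ _ := by gcongr
  constructor
  · intro p hp
    obtain ⟨V, hV, hpV, hVW, u, hu, hfu⟩ := key p hp
    have := continuousOn_tsum (f := fun i (p : ℝ × ℂ) => f i p.1 p.2) (s := V)
      (fun i => (hc i).mono hVW) hu (fun i p hp => hfu i p hp)
    exact (this.continuousAt (hV.mem_nhds hpV)).continuousWithinAt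
  · intro w hw s hs
    obtain ⟨V, hV, hpV, hVW, u, hu, hfu⟩ := key (w, s) ⟨hw, hs⟩
    have hV' : IsOpen {z : ℂ | (w, z) ∈ V} := hV.preimage (Continuous.prodMk_right w)
    have := Complex.differentiableOn_tsum_of_summable_norm (F := fun i z => f i w z) hu
      (fun i => (hd i w hw).differentiableOn) hV' (fun i z hz => hfu i (w, z) hz)
    exact (this.differentiableAt (hV'.mem_nhds hpV)).differentiableWithinAt

lemma continuousOn_cpow_aux (σ₀ : ℝ) (y : ℝ → ℝ) (hy : Continuous y) (hpos : ∀ w, 0 < w → 0 < y w)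
    (u : ℂ → ℂ) (hu : Continuous u) :
    ContinuousOn (fun p : ℝ × ℂ => ((y p.1 : ℝ) : ℂ) ^ (u p.2)) (W σ₀) := by
  apply ContinuousOn.cpow
  · exact (Complex.continuous_ofReal.comp (hy.comp continuous_fst)).continuousOn
  · exact (hu.comp continuous_snd).continuousOn
  · intro p hp
    left
    simpa using hpos p.1 hp.1

lemma differentiable_cpow_aux {y : ℝ} (hy : 0 < y) (u : ℂ → ℂ) (hu : Differentiable ℂ u) :
    Differentiable ℂ (fun s => (y : ℂ) ^ (u s)) :=
  hu.const_cpow (Or.inl (by exact_mod_cast hy.ne'))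

lemma continuous_X (i : ℕ × ℕ) : Continuous (fun w => X w i) := by
  unfold X; fun_prop

lemma good_Z : Good 2 Z := by
  refine good_tsum 2 (fun i w s => ((X w i : ℝ) : ℂ) ^ (-s)) (fun _ => 1) continuous_const ?_ ?_ ?_
  · intro i
    exact continuousOn_cpow_aux 2 _ (continuous_X i) (fun w hw => X_pos hw i) _ continuous_neg
  · intro i w hw
    exact differentiable_cpow_aux (X_pos hw i) _ differentiable_neg
  · intro i w s hw _
    rw [Complex.norm_cpow_eq_rpow_re_of_pos (X_pos hw i)]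
    simp

lemma summable_cpow_X {w : ℝ} (hw : 0 < w) {u : ℂ} (hu : u.re < -2) :
    Summable (fun i : ℕ × ℕ => ((X w i : ℝ) : ℂ) ^ u) := by
  apply Summable.of_norm
  have := summable_X hw (τ := -u.re) (by linarith)
  refine this.congr (fun i => ?_)
  rw [Complex.norm_cpow_eq_rpow_re_of_pos (X_pos hw i)]
  simp

lemma tsum_tele (a : ℕ → ℂ) (ha : Summable a) : ∑' n, (a n - a (n + 1)) = a 0 := by
  rw [ha.tsum_sub ((summable_nat_add_iff 1).mpr ha), ha.tsum_eq_zero_add]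
  ring

lemma tsum_tele2 (g : ℕ × ℕ → ℂ) (hg : Summable g) :
    ∑' i : ℕ × ℕ, (g (i.1 + 1, i.2 + 1) - g (i.1 + 1, i.2) - g (i.1, i.2 + 1) + g i) = g (0, 0) := by
  have i1 : Function.Injective (fun i : ℕ × ℕ => (i.1 + 1, i.2)) := by
    rintro ⟨a, b⟩ ⟨c, d⟩ h; simp at h; simp [h]
  have i2 : Function.Injective (fun i : ℕ × ℕ => (i.1, i.2 + 1)) := by
    rintro ⟨a, b⟩ ⟨c, d⟩ h; simp at h; simp [h]
  have i3 : Function.Injective (fun m : ℕ => ((m, 0) : ℕ × ℕ)) := by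
    intro a b h; simpa using h
  set k : ℕ × ℕ → ℂ := fun i => g i - g (i.1 + 1, i.2) with hk
  have hks : Summable k := hg.sub (hg.comp_injective i1)
  have h1 : ∀ i : ℕ × ℕ, (g (i.1 + 1, i.2 + 1) - g (i.1 + 1, i.2) - g (i.1, i.2 + 1) + g i)
      = k i - k (i.1, i.2 + 1) := by
    intro i; simp only [hk]; ring
  simp_rw [h1]
  have h2 : Summable (fun i : ℕ × ℕ => k i - k (i.1, i.2 + 1)) := hks.sub (hks.comp_injective i2)
  rw [h2.tsum_prod]
  have h3 : ∀ m : ℕ, ∑' n : ℕ, (k (m, n) - k (m, n + 1)) = k (m, 0) := fun m =>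
    tsum_tele (fun n => k (m, n)) (hks.prod_factor m)
  simp only [h3]
  exact tsum_tele (fun m => g (m, 0)) (hg.comp_injective i3)

/-- Taylor remainder -/
noncomputable def rem (M : ℕ) (u : ℂ) (x h : ℝ) : ℂ := ((x + h : ℝ) : ℂ) ^ u - TT M u x h

/-- second difference of the Taylor remainder -/
noncomputable def Rm (M : ℕ) (i : ℕ × ℕ) (w : ℝ) (s : ℂ) : ℂ :=
  rem M (2 - s) (X w i) (1 + w) - rem M (2 - s) (X w i) 1 - rem M (2 - s) (X w i) w
    + rem M (2 - s) (X w i) 0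

/-- second difference of monomials -/
noncomputable def ee (j : ℕ) (w : ℝ) : ℂ := ((1 + w : ℝ) : ℂ) ^ j - 1 - (w : ℂ) ^ j + 0 ^ j

lemma continuous_ee (j : ℕ) : Continuous (ee j) := by
  unfold ee; fun_prop

lemma continuousOn_rem (σ₀ : ℝ) (M : ℕ) (i : ℕ × ℕ) (h : ℝ → ℝ) (hh : Continuous h)
    (hpos : ∀ w, 0 < w → 0 ≤ h w) :
    ContinuousOn (fun p : ℝ × ℂ => rem M (2 - p.2) (X p.1 i) (h p.1)) (W σ₀) := by
  unfold rem TT
  apply ContinuousOn.sub
  · exact continuousOn_cpow_aux σ₀ (fun w => X w i + h w) ((continuous_X i).add hh)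
      (fun w hw => by linarith [X_pos hw i, hpos w hw]) (fun s => 2 - s) (by fun_prop)
  · apply continuousOn_finsetSum
    intro j _
    apply ContinuousOn.mul
    · apply ContinuousOn.mul
      · exact (((continuous_ff j).comp (by fun_prop)).div_const _).continuousOn
      · exact continuousOn_cpow_aux σ₀ _ (continuous_X i) (fun w hw => X_pos hw i)
          (fun s => 2 - s - j) (by fun_prop)
    · exact ((Complex.continuous_ofReal.comp (hh.comp continuous_fst)).pow j).continuousOn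

lemma differentiable_rem (M : ℕ) {x h : ℝ} (hx : 0 < x) (hh : 0 ≤ h) :
    Differentiable ℂ (fun s => rem M (2 - s) x h) := by
  unfold rem TT
  apply Differentiable.sub
  · exact differentiable_cpow_aux (by linarith) _ (by fun_prop)
  · apply Differentiable.fun_sum
    intro j _
    apply Differentiable.mul_const
    apply Differentiable.mul
    · exact ((differentiable_ff j).comp (by fun_prop)).div_const _
    · exact differentiable_cpow_aux hx (fun s => 2 - s - j) (by fun_prop)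

lemma norm_Rm_le (N : ℕ) (i : ℕ × ℕ) {w : ℝ} (hw : 0 < w) {s : ℂ} (hs : 1 - (N : ℝ) < s.re) :
    ‖Rm (N + 3) i w s‖ ≤ (4 * ‖ff (2 - s) (N + 3)‖ * (1 + w) ^ (N + 3)) *
      X w i ^ (-(s.re - (1 - (N : ℝ)) + 2)) := by
  have hx := X_pos hw i
  have hu : (2 - s).re ≤ ((N + 3 : ℕ) : ℝ) := by simp; linarith
  have he : (2 - s).re - ((N + 3 : ℕ) : ℝ) = -(s.re - (1 - (N : ℝ)) + 2) := by simp; ring
  have key : ∀ h : ℝ, 0 ≤ h → h ≤ 1 + w → ‖rem (N + 3) (2 - s) (X w i) h‖ ≤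
      ‖ff (2 - s) (N + 3)‖ * (1 + w) ^ (N + 3) * X w i ^ (-(s.re - (1 - (N : ℝ)) + 2)) := by
    intro h h0 h1
    have := taylor_bound (N + 3) (2 - s) (X w i) h hx h0 hu
    rw [he] at this
    refine this.trans ?_
    have h4 : 0 ≤ X w i ^ (-(s.re - (1 - (N : ℝ)) + 2)) := Real.rpow_nonneg hx.le _
    gcongr
  have a1 := key (1 + w) (by linarith) le_rfl
  have a2 := key 1 (by linarith) (by linarith)
  have a3 := key w (by linarith) (by linarith)
  have a4 := key 0 le_rfl (by linarith)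
  unfold Rm
  refine (norm_add_le _ _).trans ?_
  have b1 := norm_sub_le (rem (N + 3) (2 - s) (X w i) (1 + w) - rem (N + 3) (2 - s) (X w i) 1)
    (rem (N + 3) (2 - s) (X w i) w)
  have b2 := norm_sub_le (rem (N + 3) (2 - s) (X w i) (1 + w)) (rem (N + 3) (2 - s) (X w i) 1)
  linarith

lemma good_Rm (N : ℕ) : Good (1 - (N : ℝ)) (fun w s => ∑' i, Rm (N + 3) i w s) := by
  refine good_tsum _ (Rm (N + 3)) (fun p => 4 * ‖ff (2 - p.2) (N + 3)‖ * (1 + p.1) ^ (N + 3)) ?_ ?_ ?_ ?_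
  · have := (continuous_ff (N + 3)).comp (show Continuous (fun p : ℝ × ℂ => 2 - p.2) by fun_prop)
    exact (continuous_const.mul this.norm).mul (by fun_prop)
  · intro i
    unfold Rm
    refine (((continuousOn_rem _ _ i (fun w => 1 + w) (by fun_prop) (fun w hw => by linarith)).sub
      (continuousOn_rem _ _ i (fun _ => 1) (by fun_prop) (fun w hw => by linarith))).sub
      (continuousOn_rem _ _ i (fun w => w) (by fun_prop) (fun w hw => by linarith))).add
      (continuousOn_rem _ _ i (fun _ => 0) (by fun_prop) (fun w hw => by linarith))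
  · intro i w hw
    have hx := X_pos hw i
    exact (((differentiable_rem _ hx (by linarith)).sub (differentiable_rem _ hx (by linarith))).sub
      (differentiable_rem _ hx (by linarith))).add (differentiable_rem _ hx le_rfl)
  · intro i w s hw hs
    exact norm_Rm_le N i hw hs

lemma main_identity (M : ℕ) {w : ℝ} (hw : 0 < w) {s : ℂ} (hs : 4 < s.re) :
    ∑' i, Rm M i w s = 1 - ∑ j ∈ range M, ff (2 - s) j / (j.factorial : ℂ) * ee j w * Z w (s + j - 2) := by
  have hg : Summable (fun i : ℕ × ℕ => ((X w i : ℝ) : ℂ) ^ (2 - s)) :=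
    summable_cpow_X hw (by simp; linarith)
  have h1 := tsum_tele2 _ hg
  have h0 : ((X w (0, 0) : ℝ) : ℂ) ^ (2 - s) = 1 := by simp [X]
  rw [h0] at h1
  have hj : ∀ j ∈ range M, Summable (fun i : ℕ × ℕ =>
      ff (2 - s) j / (j.factorial : ℂ) * ee j w * ((X w i : ℝ) : ℂ) ^ (-(s + j - 2))) := by
    intro j _
    apply Summable.mul_left
    apply summable_cpow_X hw
    simp
    have : (0 : ℝ) ≤ j := Nat.cast_nonneg j
    linarith
  have h2 : ∑ j ∈ range M, ff (2 - s) j / (j.factorial : ℂ) * ee j w * Z w (s + j - 2)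
      = ∑' i : ℕ × ℕ, ∑ j ∈ range M,
        ff (2 - s) j / (j.factorial : ℂ) * ee j w * ((X w i : ℝ) : ℂ) ^ (-(s + j - 2)) := by
    rw [Summable.tsum_finsetSum hj]
    apply sum_congr rfl
    intro j _
    rw [tsum_mul_left]; rfl
  have i1 : Function.Injective (fun i : ℕ × ℕ => (i.1 + 1, i.2)) := by
    rintro ⟨a, b⟩ ⟨c, d⟩ h; simp at h; simp [h]
  have i2 : Function.Injective (fun i : ℕ × ℕ => (i.1, i.2 + 1)) := by
    rintro ⟨a, b⟩ ⟨c, d⟩ h; simp at h; simp [h]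
  have i3 : Function.Injective (fun i : ℕ × ℕ => (i.1 + 1, i.2 + 1)) := by
    rintro ⟨a, b⟩ ⟨c, d⟩ h; simp at h; simp [h]
  have hD := (((hg.comp_injective i3).sub (hg.comp_injective i1)).sub (hg.comp_injective i2)).add hg
  rw [h2, ← h1]
  refine Eq.trans ?_ (Summable.tsum_sub hD (summable_sum hj))
  congr 1
  ext i
  have x1 : X w (i.1 + 1, i.2 + 1) = X w i + (1 + w) := by simp [X]; ring
  have x2 : X w (i.1 + 1, i.2) = X w i + 1 := by simp [X]; ring
  have x3 : X w (i.1, i.2 + 1) = X w i + w := by simp [X]; ring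
  simp only [x1, x2, x3, Rm, rem, TT, add_zero]
  have h3 : ∀ j ∈ range M, ff (2 - s) j / (j.factorial : ℂ) * ee j w * ((X w i : ℝ) : ℂ) ^ (-(s + j - 2))
      = ff (2 - s) j / (j.factorial : ℂ) * ((X w i : ℝ) : ℂ) ^ (2 - s - j) * ((1 + w : ℝ) : ℂ) ^ j
      - ff (2 - s) j / (j.factorial : ℂ) * ((X w i : ℝ) : ℂ) ^ (2 - s - j) * ((1 : ℝ) : ℂ) ^ j
      - ff (2 - s) j / (j.factorial : ℂ) * ((X w i : ℝ) : ℂ) ^ (2 - s - j) * ((w : ℝ) : ℂ) ^ j
      + ff (2 - s) j / (j.factorial : ℂ) * ((X w i : ℝ) : ℂ) ^ (2 - s - j) * ((0 : ℝ) : ℂ) ^ j := by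
    intro j _
    have : -(s + j - 2) = 2 - s - j := by ring
    rw [this]
    simp only [ee, ofReal_one, ofReal_zero, one_pow]
    ring
  rw [sum_congr rfl h3, sum_add_distrib, sum_sub_distrib, sum_sub_distrib]
  ring

lemma exists_good (N : ℕ) : ∃ H : ℝ → ℂ → ℂ, Good (2 - (N : ℝ)) H ∧
    ∀ w, 0 < w → ∀ s : ℂ, 4 < s.re → H w s = (s - 1) * (s - 2) * Z w s := by
  induction N with
  | zero =>
    refine ⟨fun w s => (s - 1) * (s - 2) * Z w s, ?_, fun _ _ _ _ => rfl⟩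
    simp only [Nat.cast_zero, sub_zero]
    exact ⟨ContinuousOn.mul (by fun_prop) good_Z.1,
      fun w hw => DifferentiableOn.mul (by fun_prop) (good_Z.2 w hw)⟩
  | succ N ih =>
    obtain ⟨H, ⟨hHc, hHd⟩, hHZ⟩ := ih
    have e1 : (2 : ℝ) - ((N + 1 : ℕ) : ℝ) = 1 - (N : ℝ) := by push_cast; ring
    rw [e1]
    refine ⟨fun w s => (w : ℂ)⁻¹ * (1 - (∑ i ∈ range N, ff (2 - s) (i + 1) / ((i + 3).factorial : ℂ) *
      ee (i + 3) w * H w (s + (i + 1))) - ∑' i, Rm (N + 3) i w s), ⟨?_, ?_⟩, ?_⟩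
    · apply ContinuousOn.mul
      · apply ContinuousOn.inv₀ (by fun_prop)
        intro p hp
        exact_mod_cast hp.1.ne'
      · refine ContinuousOn.sub (ContinuousOn.sub continuousOn_const ?_) (good_Rm N).1
        apply continuousOn_finsetSum
        intro i _
        apply ContinuousOn.mul
        · exact ((((continuous_ff (i + 1)).comp (by fun_prop)).div_const _).mul
            ((continuous_ee (i + 3)).comp continuous_fst)).continuousOn
        · refine hHc.comp (f := fun p : ℝ × ℂ => (p.1, p.2 + (i + 1))) (by fun_prop) ?_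
          intro p hp
          refine ⟨hp.1, ?_⟩
          have h1 := hp.2
          have : (0 : ℝ) ≤ i := Nat.cast_nonneg i
          simp
          linarith
    · intro w hw
      apply DifferentiableOn.const_mul
      refine DifferentiableOn.sub (DifferentiableOn.sub (differentiableOn_const _) ?_) ((good_Rm N).2 w hw)
      apply DifferentiableOn.fun_sum
      intro i _
      apply DifferentiableOn.mul
      · exact ((((differentiable_ff (i + 1)).comp (by fun_prop)).div_const _).mul_const _).differentiableOn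
      · refine (hHd w hw).comp (f := fun s : ℂ => s + (i + 1)) (by fun_prop) ?_
        intro s hs
        have : (0 : ℝ) ≤ i := Nat.cast_nonneg i
        simp at hs ⊢
        linarith
    · intro w hw s hs
      have hw' : (w : ℂ) ≠ 0 := by exact_mod_cast hw.ne'
      simp only
      rw [main_identity (N + 3) hw hs, sum_range_succ', sum_range_succ', sum_range_succ']
      have h1 : ∀ i ∈ range N, ff (2 - s) (i + 1) / ((i + 3).factorial : ℂ) * ee (i + 3) w * H w (s + (i + 1))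
          = ff (2 - s) (i + 1 + 1 + 1) / ((i + 1 + 1 + 1).factorial : ℂ) * ee (i + 1 + 1 + 1) w *
            Z w (s + ((i + 1 + 1 + 1 : ℕ) : ℂ) - 2) := by
        intro i _
        have : (0 : ℝ) ≤ i := Nat.cast_nonneg i
        rw [hHZ w hw _ (by simp; linarith), ff_succ (2 - s) (i + 1 + 1), ff_succ (2 - s) (i + 1)]
        have : s + ((i + 1 + 1 + 1 : ℕ) : ℂ) - 2 = s + (i + 1) := by push_cast; ring
        rw [this]
        push_cast
        ring
      rw [sum_congr rfl h1]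
      have e0 : ee 0 w = 0 := by simp [ee]
      have e1 : ee (0 + 1) w = 0 := by simp [ee]
      have e2 : ee (0 + 1 + 1) w = 2 * w := by simp [ee]; ring
      have e3 : s + ((0 + 1 + 1 : ℕ) : ℂ) - 2 = s := by push_cast; ring
      rw [e0, e1, e2, e3, ff_succ, ff_succ, ff_zero]
      simp only [Nat.factorial]
      push_cast
      field_simp
      ring

lemma good_eq_Z {σ₀ : ℝ} (hσ : σ₀ ≤ 2) {G : ℂ → ℂ} {w : ℝ} (hw : 0 < w)
    (hG : DifferentiableOn ℂ G {s | σ₀ < s.re})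
    (h : ∀ s : ℂ, 4 < s.re → G s = (s - 1) * (s - 2) * Z w s) :
    ∀ s : ℂ, 2 < s.re → G s = (s - 1) * (s - 2) * Z w s := by
  have ho : IsOpen {s : ℂ | 2 < s.re} := isOpen_lt continuous_const Complex.continuous_re
  have h1 : AnalyticOnNhd ℂ G {s : ℂ | 2 < s.re} :=
    (hG.mono (fun s hs => lt_of_le_of_lt hσ hs)).analyticOnNhd ho
  have h2 : AnalyticOnNhd ℂ (fun s => (s - 1) * (s - 2) * Z w s) {s : ℂ | 2 < s.re} :=
    (DifferentiableOn.mul (by fun_prop) (good_Z.2 w hw)).analyticOnNhd ho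
  have h3 : G =ᶠ[nhds (5 : ℂ)] (fun s => (s - 1) * (s - 2) * Z w s) := by
    have : {s : ℂ | 4 < s.re} ∈ nhds (5 : ℂ) :=
      (isOpen_lt continuous_const Complex.continuous_re).mem_nhds (by simp; norm_num)
    filter_upwards [this] with s hs using h s hs
  intro s hs
  exact h1.eqOn_of_preconnected_of_eventuallyEq h2 (convex_halfSpace_re_gt 2).isPreconnected
    (z₀ := 5) (by simp; norm_num) h3 hs

lemma eqOn_halfplane {σ₀ : ℝ} (hσ : σ₀ ≤ 2) {G G' : ℂ → ℂ}
    (hG : DifferentiableOn ℂ G {s | σ₀ < s.re}) (hG' : DifferentiableOn ℂ G' {s | σ₀ < s.re})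
    (h : ∀ s : ℂ, 4 < s.re → G s = G' s) : ∀ s : ℂ, σ₀ < s.re → G s = G' s := by
  have ho : IsOpen {s : ℂ | σ₀ < s.re} := isOpen_lt continuous_const Complex.continuous_re
  have h3 : G =ᶠ[nhds (5 : ℂ)] G' := by
    have : {s : ℂ | 4 < s.re} ∈ nhds (5 : ℂ) :=
      (isOpen_lt continuous_const Complex.continuous_re).mem_nhds (by simp; norm_num)
    filter_upwards [this] with s hs using h s hs
  intro s hs
  exact (hG.analyticOnNhd ho).eqOn_of_preconnected_of_eventuallyEq (hG'.analyticOnNhd ho)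
    (convex_halfSpace_re_gt σ₀).isPreconnected (z₀ := 5) (by simp; linarith) h3 hs

/-- The entire function `(s-1)(s-2) ζ₂(s; 1, (1,w))`, jointly continuous on `Re s > 0`. -/
theorem exists_entire : ∃ H : ℝ → ℂ → ℂ, ContinuousOn (fun p : ℝ × ℂ => H p.1 p.2) (W 0) ∧
    (∀ w, 0 < w → Differentiable ℂ (H w)) ∧
    ∀ w, 0 < w → ∀ s : ℂ, 2 < s.re → H w s = (s - 1) * (s - 2) * Z w s := by
  choose G hG hGZ using exists_good
  have compat : ∀ w, 0 < w → ∀ N N' : ℕ, ∀ s : ℂ, 2 - (N : ℝ) < s.re → 2 - (N' : ℝ) < s.re →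
      G N w s = G N' w s := by
    intro w hw N N' s h1 h2
    have hN : (0 : ℝ) ≤ N := Nat.cast_nonneg N
    have hN' : (0 : ℝ) ≤ N' := Nat.cast_nonneg N'
    refine eqOn_halfplane (σ₀ := max (2 - (N : ℝ)) (2 - (N' : ℝ))) (max_le (by linarith) (by linarith))
      (((hG N).2 w hw).mono ?_) (((hG N').2 w hw).mono ?_) ?_ s (max_lt h1 h2)
    · intro z hz; simp only [Set.mem_ofPred_eq, max_lt_iff] at hz ⊢; exact hz.1
    · intro z hz; simp only [Set.mem_ofPred_eq, max_lt_iff] at hz ⊢; exact hz.2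
    · intro z hz; rw [hGZ N w hw z hz, hGZ N' w hw z hz]
  have hn : ∀ s : ℂ, 2 - ((⌈3 - s.re⌉₊ : ℕ) : ℝ) < s.re := by
    intro s
    have := Nat.le_ceil (3 - s.re)
    linarith
  refine ⟨fun w s => G ⌈3 - s.re⌉₊ w s, ?_, ?_, ?_⟩
  · have h2 := (hG 2).1
    have e : (2 : ℝ) - ((2 : ℕ) : ℝ) = 0 := by norm_num
    rw [e] at h2
    refine h2.congr ?_
    intro p hp
    exact compat p.1 hp.1 _ _ p.2 (hn _) (by rw [e]; exact hp.2)
  · intro w hw s
    have ho : IsOpen {z : ℂ | 2 - ((⌈3 - s.re⌉₊ : ℕ) : ℝ) < z.re} :=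
      isOpen_lt continuous_const Complex.continuous_re
    have h1 := ((hG ⌈3 - s.re⌉₊).2 w hw).differentiableAt (ho.mem_nhds (hn s))
    refine h1.congr_of_eventuallyEq ?_
    filter_upwards [ho.mem_nhds (hn s)] with z hz
    exact compat w hw _ _ z (hn z) hz
  · intro w hw s hs
    have h0 : 2 - ((0 : ℕ) : ℝ) < s.re := by simpa using hs
    refine (compat w hw _ 0 s (hn s) h0).trans ?_
    exact good_eq_Z (by simp) hw ((hG 0).2 w hw) (hGZ 0 w hw) s hs

end Pool.Agent.H58.Barnes
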