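import Pool.Agent.H58.BarnesCont

set_option autoImplicit false

namespace Pool.Agent.H58.Barnes
open Complex Finset

/-- upper right quadrant -/
def Q : Set ℂ := {s | 0 < s.re ∧ 0 < s.im}

lemma isOpen_Q : IsOpen Q :=
  (isOpen_lt continuous_const Complex.continuous_re).inter
    (isOpen_lt continuous_const Complex.continuous_im)

lemma eqOn_Q {G G' : ℂ → ℂ} (hG : DifferentiableOn ℂ G Q) (hG' : DifferentiableOn ℂ G' Q)
    (h : ∀ s : ℂ, 4 < s.re → 0 < s.im → G s = G' s) : ∀ s ∈ Q, G s = G' s := by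
  have hconv : Convex ℝ Q := (convex_halfSpace_re_gt 0).inter (convex_halfSpace_im_gt 0)
  have h3 : G =ᶠ[nhds (5 + I : ℂ)] G' := by
    have : {s : ℂ | 4 < s.re ∧ 0 < s.im} ∈ nhds (5 + I : ℂ) :=
      ((isOpen_lt continuous_const Complex.continuous_re).inter
        (isOpen_lt continuous_const Complex.continuous_im)).mem_nhds (by simp; norm_num)
    filter_upwards [this] with s hs using h s hs.1 hs.2
  intro s hs
  exact (hG.analyticOnNhd isOpen_Q).eqOn_of_preconnected_of_eventuallyEq (hG'.analyticOnNhd isOpen_Q)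
    hconv.isPreconnected (z₀ := 5 + I) (by simp [Q]) h3 hs

lemma summable_AP {c p τ : ℝ} (hc : 0 < c) (hp : 0 < p) (hτ : 1 < τ) :
    Summable (fun k : ℕ => (c + p * k) ^ (-τ)) := by
  have h1 : Summable (fun n : ℕ => ((n : ℝ) + 1) ^ (-τ)) := by
    have := (Real.summable_nat_rpow (p := -τ)).mpr (by linarith)
    have h2 := (summable_nat_add_iff 1).mpr this
    simpa using h2
  set m : ℝ := min c p with hm
  have hm0 : 0 < m := lt_min hc hp
  have hmc : m ≤ c := min_le_left _ _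
  have hmp : m ≤ p := min_le_right _ _
  refine Summable.of_nonneg_of_le (fun k => Real.rpow_nonneg (by positivity) _) (fun k => ?_)
    (h1.mul_left (m ^ (-τ)))
  have hk : (0 : ℝ) ≤ k := Nat.cast_nonneg _
  rw [← Real.mul_rpow (by positivity) (by positivity)]
  apply Real.rpow_le_rpow_of_nonpos (by positivity) _ (by linarith)
  nlinarith

lemma summable_cpow_AP {c p : ℝ} (hc : 0 < c) (hp : 0 < p) {u : ℂ} (hu : u.re < -1) :
    Summable (fun k : ℕ => ((c + p * k : ℝ) : ℂ) ^ u) := by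
  apply Summable.of_norm
  have := summable_AP hc hp (τ := -u.re) (by linarith)
  refine this.congr (fun k => ?_)
  rw [Complex.norm_cpow_eq_rpow_re_of_pos (by positivity)]
  simp

lemma rem_two (s : ℂ) (x p : ℝ) :
    rem 2 (1 - s) x p = ((x + p : ℝ) : ℂ) ^ (1 - s) - (x : ℂ) ^ (1 - s) - (1 - s) * (x : ℂ) ^ (-s) * p := by
  simp only [rem, TT, sum_range_succ, range_zero, sum_empty, ff_succ, ff_zero]
  have : 1 - s - ((1 : ℕ) : ℂ) = -s := by push_cast; ring
  rw [this]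
  simp
  ring

lemma norm_rem_two_le {s : ℂ} {x p : ℝ} (hx : 0 < x) (hp : 0 < p) (hs : 0 < s.re) :
    ‖rem 2 (1 - s) x p‖ ≤ ‖1 - s‖ * ‖s‖ * p ^ 2 * x ^ (-(s.re + 1)) := by
  have := taylor_bound 2 (1 - s) x p hx hp.le (by simp; linarith)
  have e1 : ff (1 - s) 2 = (1 - s) * (-s) := by simp [ff_succ, ff_zero]
  have e2 : (1 - s).re - ((2 : ℕ) : ℝ) = -(s.re + 1) := by simp; ring
  rw [e1, e2, norm_mul, norm_neg] at this
  exact this

lemma norm_rem_two_le' {s : ℂ} {x p : ℝ} (hx : 0 < x) (hp : 0 < p) (hs : 0 < s.re) :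
    ‖rem 2 (1 - s) x p‖ ≤ ‖1 - s‖ * p * (2 * x ^ (-s.re)) := by
  have := taylor_bound 1 (1 - s) x p hx hp.le (by simp; linarith)
  have e1 : ff (1 - s) 1 = (1 - s) := by simp [ff_succ, ff_zero]
  have e2 : (1 - s).re - ((1 : ℕ) : ℝ) = -s.re := by simp
  have e3 : TT 1 (1 - s) x p = (x : ℂ) ^ (1 - s) := by simp [TT, ff_zero]
  rw [e1, e2, e3, pow_one] at this
  rw [rem_two]
  refine (norm_sub_le _ _).trans ?_
  rw [norm_mul, norm_mul, Complex.norm_cpow_eq_rpow_re_of_pos hx, Complex.norm_real,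
    Real.norm_of_nonneg hp.le, neg_re]
  linarith

/-- sum of remainders along an arithmetic progression -/
noncomputable def KK (c p : ℝ) (s : ℂ) : ℂ := ∑' k : ℕ, rem 2 (1 - s) (c + p * k) p

/-- continuation of `∑ (c + p k)^(-s)` to `Re s > 0`. -/
noncomputable def EE (c p : ℝ) (s : ℂ) : ℂ := (KK c p s + (c : ℂ) ^ (1 - s)) / (p * (s - 1))

lemma summable_rem {c p : ℝ} (hc : 0 < c) (hp : 0 < p) {s : ℂ} (hs : 0 < s.re) :
    Summable (fun k : ℕ => rem 2 (1 - s) (c + p * k) p) := by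
  refine Summable.of_norm_bounded ((summable_AP hc hp (τ := s.re + 1) (by linarith)).mul_left
    (‖1 - s‖ * ‖s‖ * p ^ 2)) (fun k => norm_rem_two_le (by positivity) hp hs)

lemma differentiable_rem' {x h : ℝ} (hx : 0 < x) (hh : 0 ≤ h) :
    Differentiable ℂ (fun s => rem 2 (1 - s) x h) := by
  have h1 := (differentiable_rem 2 hx hh).comp (show Differentiable ℂ (fun s : ℂ => s + 1) by fun_prop)
  have e : (fun s => rem 2 (1 - s) x h) = (fun s => rem 2 (2 - s) x h) ∘ (fun s : ℂ => s + 1) := by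
    ext s
    simp only [Function.comp]
    congr 1; ring
  rw [e]; exact h1

lemma differentiableOn_KK {c p : ℝ} (hc : 0 < c) (hp : 0 < p) :
    DifferentiableOn ℂ (KK c p) {s | 0 < s.re} := by
  intro s₁ hs₁
  have hs₁' : 0 < s₁.re := hs₁
  set V : Set ℂ := {s | s₁.re / 2 < s.re ∧ s.re < s₁.re + 1 ∧ ‖s‖ < ‖s₁‖ + 1} with hV
  have hVo : IsOpen V := (isOpen_lt continuous_const Complex.continuous_re).inter
    ((isOpen_lt Complex.continuous_re continuous_const).inter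
      (isOpen_lt continuous_norm continuous_const))
  have hmem : s₁ ∈ V := ⟨by linarith, by linarith, by linarith⟩
  have hu := ((summable_AP hc hp (τ := s₁.re / 2 + 1) (by linarith)).add
    (summable_AP hc hp (τ := s₁.re + 1 + 1) (by linarith))).mul_left ((‖s₁‖ + 2) * (‖s₁‖ + 1) * p ^ 2)
  have := Complex.differentiableOn_tsum_of_summable_norm
    (F := fun (k : ℕ) s => rem 2 (1 - s) (c + p * k) p) hu
    (fun k => (differentiable_rem' (by positivity) hp.le).differentiableOn) hVo ?_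
  · exact (this.differentiableAt (hVo.mem_nhds hmem)).differentiableWithinAt
  · rintro k s ⟨h1, h2, h3⟩
    have hx : 0 < c + p * k := by positivity
    refine (norm_rem_two_le hx hp (by linarith)).trans ?_
    have h4 : ‖1 - s‖ ≤ ‖s₁‖ + 2 := by
      have := norm_sub_le (1 : ℂ) s
      rw [norm_one] at this; linarith
    have h5 : (c + p * k) ^ (-(s.re + 1)) ≤ (c + p * k) ^ (-(s₁.re / 2 + 1)) + (c + p * k) ^ (-(s₁.re + 1 + 1)) := by
      have a1 : 0 ≤ (c + p * k) ^ (-(s₁.re / 2 + 1)) := Real.rpow_nonneg hx.le _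
      have a2 : 0 ≤ (c + p * k) ^ (-(s₁.re + 1 + 1)) := Real.rpow_nonneg hx.le _
      rcases le_total 1 (c + p * k) with h | h
      · have := Real.rpow_le_rpow_of_exponent_le h (show -(s.re + 1) ≤ -(s₁.re / 2 + 1) by linarith)
        linarith
      · have := Real.rpow_le_rpow_of_exponent_ge hx h (show -(s₁.re + 1 + 1) ≤ -(s.re + 1) by linarith)
        linarith
    have h6 : 0 ≤ (c + p * k) ^ (-(s.re + 1)) := Real.rpow_nonneg hx.le _
    gcongr

lemma differentiableOn_EE {c p : ℝ} (hc : 0 < c) (hp : 0 < p) : DifferentiableOn ℂ (EE c p) Q := by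
  unfold EE
  apply DifferentiableOn.div
  · exact ((differentiableOn_KK hc hp).mono (fun s hs => hs.1)).add
      (differentiable_cpow_aux hc (fun s => 1 - s) (by fun_prop)).differentiableOn
  · fun_prop
  · intro s hs
    apply mul_ne_zero (by exact_mod_cast hp.ne')
    intro h
    have := congrArg Complex.im h
    have h2 := hs.2
    simp at this
    linarith

lemma EE_eq {c p : ℝ} (hc : 0 < c) (hp : 0 < p) {s : ℂ} (hs : 2 < s.re) :
    EE c p s = ∑' k : ℕ, ((c + p * k : ℝ) : ℂ) ^ (-s) := by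
  have h1 := summable_cpow_AP hc hp (u := 1 - s) (by simp; linarith)
  have h2 := summable_cpow_AP hc hp (u := -s) (by simp; linarith)
  have h3 := tsum_tele _ h1
  have hs1 : s - 1 ≠ 0 := by
    intro h
    have := congrArg Complex.re h
    simp at this; linarith
  have hp' : (p : ℂ) ≠ 0 := by exact_mod_cast hp.ne'
  have h4 : ∀ k : ℕ, rem 2 (1 - s) (c + p * k) p = (p * (s - 1)) * ((c + p * k : ℝ) : ℂ) ^ (-s)
      - (((c + p * k : ℝ) : ℂ) ^ (1 - s) - ((c + p * ((k + 1 : ℕ) : ℝ) : ℝ) : ℂ) ^ (1 - s)) := by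
    intro k
    rw [rem_two]
    have : c + p * ((k + 1 : ℕ) : ℝ) = c + p * k + p := by push_cast; ring
    rw [this]; ring
  unfold EE KK
  simp_rw [h4]
  rw [Summable.tsum_sub (h2.mul_left _) (h1.sub ((summable_nat_add_iff 1).mpr h1)), h3, tsum_mul_left]
  simp only [Nat.cast_zero, mul_zero, add_zero]
  field_simp
  ring

lemma EE_bound {c p : ℝ} (hc : 0 < c) (hp : 0 < p) :
    ∃ C : ℝ, 0 ≤ C ∧ ∀ t : ℝ, 1 ≤ t → ‖EE c p (1 + t * I)‖ ≤ C * t ^ (1 / 4 : ℝ) := by
  have hsum := summable_AP hc hp (τ := 5 / 4) (by norm_num)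
  set S := ∑' k : ℕ, (c + p * k) ^ (-(5 / 4 : ℝ)) with hS
  have hS0 : 0 ≤ S := tsum_nonneg (fun k => Real.rpow_nonneg (by positivity) _)
  refine ⟨2 ^ (3 / 4 : ℝ) * (2 * p) ^ (1 / 4 : ℝ) * S + 1 / p, by positivity, fun t ht => ?_⟩
  set s : ℂ := 1 + t * I with hs
  have hre : s.re = 1 := by simp [hs]
  have hn1 : ‖1 - s‖ = t := by
    have : 1 - s = -(t * I) := by rw [hs]; ring
    rw [this, norm_neg, norm_mul, Complex.norm_I, Complex.norm_real, Real.norm_of_nonneg (by linarith), mul_one]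
  have hn2 : ‖s‖ ≤ 2 * t := by
    have := norm_add_le (1 : ℂ) (t * I)
    rw [norm_mul, Complex.norm_I, Complex.norm_real, Real.norm_of_nonneg (by linarith), norm_one] at this
    linarith
  have ht4 : 1 ≤ t ^ (1 / 4 : ℝ) := Real.one_le_rpow ht (by norm_num)
  have hk : ∀ k : ℕ, ‖rem 2 (1 - s) (c + p * k) p‖ ≤
      (t * p * (2 ^ (3 / 4 : ℝ) * (2 * p) ^ (1 / 4 : ℝ) * t ^ (1 / 4 : ℝ))) * (c + p * k) ^ (-(5 / 4 : ℝ)) := by
    intro k
    set x := c + p * k with hxdef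
    have hx : 0 < x := by positivity
    have a1 := norm_rem_two_le (s := s) hx hp (by rw [hre]; norm_num)
    have a2 := norm_rem_two_le' (s := s) hx hp (by rw [hre]; norm_num)
    rw [hn1, hre] at a1 a2
    set y := ‖rem 2 (1 - s) x p‖ / (t * p) with hy
    have htp : 0 < t * p := by positivity
    have hy0 : 0 ≤ y := by positivity
    have b1 : y ≤ 2 * x ^ (-1 : ℝ) := by
      rw [hy, div_le_iff₀ htp]; linarith
    have b2 : y ≤ 2 * p * t * x ^ (-(1 + 1) : ℝ) := by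
      rw [hy, div_le_iff₀ htp]
      refine a1.trans ?_
      have : 0 ≤ x ^ (-(1 + 1) : ℝ) := Real.rpow_nonneg hx.le _
      calc t * ‖s‖ * p ^ 2 * x ^ (-(1 + 1) : ℝ) ≤ t * (2 * t) * p ^ 2 * x ^ (-(1 + 1) : ℝ) := by gcongr
        _ = _ := by ring
    have b3 : y = y ^ (3 / 4 : ℝ) * y ^ (1 / 4 : ℝ) := by
      rw [← Real.rpow_add' hy0 (by norm_num)]; norm_num
    have b4 : y ≤ (2 * x ^ (-1 : ℝ)) ^ (3 / 4 : ℝ) * (2 * p * t * x ^ (-(1 + 1) : ℝ)) ^ (1 / 4 : ℝ) := by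
      rw [b3]
      gcongr
    have b5 : (2 * x ^ (-1 : ℝ)) ^ (3 / 4 : ℝ) * (2 * p * t * x ^ (-(1 + 1) : ℝ)) ^ (1 / 4 : ℝ)
        = (2 ^ (3 / 4 : ℝ) * (2 * p) ^ (1 / 4 : ℝ) * t ^ (1 / 4 : ℝ)) * x ^ (-(5 / 4 : ℝ)) := by
      rw [Real.mul_rpow (by norm_num) (Real.rpow_nonneg hx.le _),
        Real.mul_rpow (by positivity) (Real.rpow_nonneg hx.le _),
        Real.mul_rpow (by positivity) (by positivity), ← Real.rpow_mul hx.le, ← Real.rpow_mul hx.le]
      have : x ^ (-(5 / 4 : ℝ)) = x ^ ((-1 : ℝ) * (3 / 4)) * x ^ ((-(1 + 1) : ℝ) * (1 / 4)) := by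
        rw [← Real.rpow_add hx]; norm_num
      rw [this]; ring
    rw [b5, hy, div_le_iff₀ htp] at b4
    linarith
  have hK : ‖KK c p s‖ ≤ (t * p * (2 ^ (3 / 4 : ℝ) * (2 * p) ^ (1 / 4 : ℝ) * t ^ (1 / 4 : ℝ))) * S :=
    tsum_of_norm_bounded (hsum.hasSum.mul_left _) hk
  have hc1 : ‖(c : ℂ) ^ (1 - s)‖ = 1 := by
    rw [Complex.norm_cpow_eq_rpow_re_of_pos hc]; simp [hre]
  unfold EE
  rw [norm_div, norm_mul, ← norm_neg (s - 1), neg_sub, hn1, Complex.norm_real, Real.norm_of_nonneg hp.le,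
    div_le_iff₀ (by positivity)]
  refine (norm_add_le _ _).trans ?_
  rw [hc1]
  have : (2 ^ (3 / 4 : ℝ) * (2 * p) ^ (1 / 4 : ℝ) * S + 1 / p) * t ^ (1 / 4 : ℝ) * (p * t)
      = (t * p * (2 ^ (3 / 4 : ℝ) * (2 * p) ^ (1 / 4 : ℝ) * t ^ (1 / 4 : ℝ))) * S + t ^ (1 / 4 : ℝ) * t := by
    field_simp
  rw [this]
  have : 1 ≤ t ^ (1 / 4 : ℝ) * t := by nlinarith
  linarith

lemma zeta_eq_EE {s : ℂ} (hs : s ∈ Q) : riemannZeta s = EE 1 1 s := by
  refine eqOn_Q ?_ (differentiableOn_EE one_pos one_pos) ?_ s hs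
  · intro z hz
    refine (differentiableAt_riemannZeta ?_).differentiableWithinAt
    rintro rfl
    have := hz.2
    simp at this
  · intro z hz _
    rw [EE_eq one_pos one_pos (by linarith), zeta_eq_tsum_one_div_nat_add_one_cpow (by linarith)]
    congr 1
    ext k
    rw [Complex.cpow_neg, one_div]
    congr 2
    push_cast; ring

lemma sum_rem_range (s : ℂ) (N : ℕ) : ∑ k ∈ range N, rem 2 (1 - s) (1 + 1 * k) 1 =
    ((1 + N : ℝ) : ℂ) ^ (1 - s) - 1 + (s - 1) * ∑ k ∈ range N, ((1 + k : ℝ) : ℂ) ^ (-s) := by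
  induction N with
  | zero => simp
  | succ N ih =>
    rw [sum_range_succ, sum_range_succ, ih, rem_two]
    have e1 : (1 : ℝ) + 1 * N + 1 = 1 + ((N + 1 : ℕ) : ℝ) := by push_cast; ring
    have e2 : (1 : ℝ) + 1 * N = 1 + N := by ring
    rw [e1, e2]
    simp only [ofReal_one]
    ring

lemma tail_inv_sq (N : ℕ) (hN : 0 < N) :
    ∑' k : ℕ, ((1 : ℝ) + 1 * ((k + N : ℕ) : ℝ)) ^ (-(1 + 1) : ℝ) ≤ 1 / N := by
  have hN' : (0 : ℝ) < N := by exact_mod_cast hN
  apply Real.tsum_le_of_sum_range_le (fun k => Real.rpow_nonneg (by positivity) _)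
  intro n
  have : ∑ k ∈ range n, ((1 : ℝ) + 1 * ((k + N : ℕ) : ℝ)) ^ (-(1 + 1) : ℝ) ≤ 1 / N - 1 / (N + n) := by
    induction n with
    | zero => simp
    | succ n ih =>
      rw [sum_range_succ]
      have hn : (0 : ℝ) ≤ n := Nat.cast_nonneg n
      have e : ((1 : ℝ) + 1 * ((n + N : ℕ) : ℝ)) ^ (-(1 + 1) : ℝ) = 1 / ((N + n + 1) * (N + n + 1)) := by
        rw [Real.rpow_neg (by positivity), Real.rpow_add (by positivity), Real.rpow_one]
        push_cast
        field_simp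
        ring
      rw [e]
      have : 1 / (((N : ℝ) + n + 1) * (N + n + 1)) ≤ 1 / (N + n) - 1 / (N + ((n + 1 : ℕ) : ℝ)) := by
        push_cast
        rw [div_sub_div _ _ (by positivity) (by positivity), div_le_div_iff₀ (by positivity) (by positivity)]
        nlinarith
      linarith
  have h2 : 0 ≤ 1 / ((N : ℝ) + n) := by positivity
  linarith

lemma zeta_approx (t : ℝ) (ht : 1 ≤ t) (N : ℕ) (hN : 0 < N) :
    ‖riemannZeta (1 + t * I) - ∑ k ∈ range N, ((1 + k : ℝ) : ℂ) ^ (-(1 + t * I))‖ ≤ 1 / t + 2 * t / N := by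
  set s : ℂ := 1 + t * I with hs
  have hre : s.re = 1 := by simp [hs]
  have hQ : s ∈ Q := ⟨by rw [hre]; norm_num, by simp [hs]; linarith⟩
  have hn1 : ‖1 - s‖ = t := by
    have : 1 - s = -(t * I) := by rw [hs]; ring
    rw [this, norm_neg, norm_mul, Complex.norm_I, Complex.norm_real, Real.norm_of_nonneg (by linarith), mul_one]
  have hn1' : ‖s - 1‖ = t := by rw [← norm_neg, neg_sub, hn1]
  have hs1 : s - 1 ≠ 0 := by
    intro h; rw [h, norm_zero] at hn1'; linarith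
  have hn2 : ‖s‖ ≤ 2 * t := by
    have := norm_add_le (1 : ℂ) (t * I)
    rw [norm_mul, Complex.norm_I, Complex.norm_real, Real.norm_of_nonneg (by linarith), norm_one] at this
    linarith
  have hsum := summable_rem one_pos one_pos hQ.1
  have h1 := hsum.sum_add_tsum_nat_add N
  rw [zeta_eq_EE hQ]
  unfold EE KK
  rw [← h1, sum_rem_range]
  set T := ∑' k : ℕ, rem 2 (1 - s) (1 + 1 * ((k + N : ℕ) : ℝ)) 1 with hT
  have hTb : ‖T‖ ≤ t * (2 * t) * (1 / N) := by
    have hs2 := (summable_nat_add_iff N).mpr (summable_AP one_pos one_pos (τ := 1 + 1) (by norm_num))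
    have := tsum_of_norm_bounded (f := fun k : ℕ => rem 2 (1 - s) (1 + 1 * ((k + N : ℕ) : ℝ)) 1)
      (hs2.hasSum.mul_left (t * (2 * t))) (fun k => by
        have a1 := norm_rem_two_le (s := s) (x := 1 + 1 * ((k + N : ℕ) : ℝ)) (by positivity) one_pos hQ.1
        rw [hn1, hre] at a1
        refine a1.trans ?_
        have : 0 ≤ ((1 : ℝ) + 1 * ((k + N : ℕ) : ℝ)) ^ (-(1 + 1) : ℝ) := Real.rpow_nonneg (by positivity) _
        rw [one_pow, mul_one]
        gcongr)
    refine this.trans ?_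
    have := tail_inv_sq N hN
    gcongr
  have e : (((1 + N : ℝ) : ℂ) ^ (1 - s) - 1 + (s - 1) * ∑ k ∈ range N, ((1 + k : ℝ) : ℂ) ^ (-s) + T
      + ((1 : ℝ) : ℂ) ^ (1 - s)) / (((1 : ℝ) : ℂ) * (s - 1)) - ∑ k ∈ range N, ((1 + k : ℝ) : ℂ) ^ (-s)
      = (((1 + N : ℝ) : ℂ) ^ (1 - s) + T) / (s - 1) := by
    simp only [ofReal_one, one_cpow, one_mul]
    field_simp
    ring
  rw [e, norm_div, hn1', div_le_iff₀ (by linarith)]
  refine (norm_add_le _ _).trans ?_
  rw [Complex.norm_cpow_eq_rpow_re_of_pos (by positivity)]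
  have : (1 - s).re = 0 := by simp [hre]
  rw [this, Real.rpow_zero]
  have : (1 / t + 2 * t / N) * t = 1 + t * (2 * t) * (1 / N) := by
    field_simp
  rw [this]; linarith

end Pool.Agent.H58.Barnes
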