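import Pool.Agent.H58.BarnesZeta

set_option autoImplicit false

namespace Pool.Agent.H58.Barnes
open Complex Finset

lemma tsum_antidiag (g : ℕ → ℂ) (hg : Summable (fun i : ℕ × ℕ => g (i.1 + i.2))) :
    ∑' i : ℕ × ℕ, g (i.1 + i.2) = ∑' k : ℕ, ((k : ℂ) + 1) * g k := by
  rw [← Finset.HasAntidiagonal.sigmaAntidiagonalEquivProd.tsum_eq]
  have h1 := Finset.HasAntidiagonal.sigmaAntidiagonalEquivProd.summable_iff.mpr hg
  refine (Summable.tsum_sigma h1).trans ?_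
  congr 1
  ext k
  rw [tsum_fintype]
  have : ∀ x : antidiagonal k, ((fun i : ℕ × ℕ => g (i.1 + i.2)) ∘
      Finset.HasAntidiagonal.sigmaAntidiagonalEquivProd) ⟨k, x⟩ = g k := by
    intro x
    have := mem_antidiagonal.mp x.2
    simp only [Function.comp, Finset.HasAntidiagonal.sigmaAntidiagonalEquivProd, Equiv.coe_fn_mk, this]
  simp only [this]
  simp

/-- residue decomposition of the quadrant lattice -/
def resEquiv (p q : ℕ) (hp : 0 < p) (hq : 0 < q) : (Fin p × Fin q) × (ℕ × ℕ) ≃ ℕ × ℕ where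
  toFun x := (p * x.2.1 + x.1.1, q * x.2.2 + x.1.2)
  invFun i := ((⟨i.1 % p, Nat.mod_lt _ hp⟩, ⟨i.2 % q, Nat.mod_lt _ hq⟩), (i.1 / p, i.2 / q))
  left_inv := by
    rintro ⟨⟨⟨a, ha⟩, ⟨b, hb⟩⟩, ⟨m, n⟩⟩
    simp only [Prod.mk.injEq, Fin.mk.injEq]
    refine ⟨⟨?_, ?_⟩, ?_, ?_⟩
    · rw [Nat.mul_add_mod, Nat.mod_eq_of_lt ha]
    · rw [Nat.mul_add_mod, Nat.mod_eq_of_lt hb]
    · rw [Nat.mul_add_div hp, Nat.div_eq_of_lt ha, add_zero]
    · rw [Nat.mul_add_div hq, Nat.div_eq_of_lt hb, add_zero]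
  right_inv := by
    rintro ⟨m, n⟩
    simp only [Nat.div_add_mod]

/-- numerator map -/
def phi (p q : ℕ) (x : (Fin p × Fin q) × ℕ) : ℕ := (q - 1) + (q * x.1.1 + p * x.1.2 + p * q * x.2)

lemma phi_injective {p q : ℕ} (hp : 0 < p) (hq : 0 < q) (h : Nat.Coprime p q) :
    Function.Injective (phi p q) := by
  rintro ⟨⟨⟨a, ha⟩, ⟨b, hb⟩⟩, k⟩ ⟨⟨⟨a', ha'⟩, ⟨b', hb'⟩⟩, k'⟩ he
  simp only [phi, add_right_inj] at he
  have h1 : a = a' := by
    have e : q * a ≡ q * a' [MOD p] := by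
      have e1 : q * a + p * (b + q * k) = q * a' + p * (b' + q * k') := by linarith
      have e2 : (q * a + p * (b + q * k)) % p = (q * a' + p * (b' + q * k')) % p := by rw [e1]
      rwa [Nat.add_mul_mod_self_left, Nat.add_mul_mod_self_left] at e2
    have e' := Nat.ModEq.cancel_left_of_coprime h e
    exact Nat.ModEq.eq_of_lt_of_lt e' ha ha'
  have h2 : b = b' := by
    have e : p * b ≡ p * b' [MOD q] := by
      have e1 : p * b + q * (a + p * k) = p * b' + q * (a' + p * k') := by linarith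
      have e2 : (p * b + q * (a + p * k)) % q = (p * b' + q * (a' + p * k')) % q := by rw [e1]
      rwa [Nat.add_mul_mod_self_left, Nat.add_mul_mod_self_left] at e2
    have e' := Nat.ModEq.cancel_left_of_coprime h.symm e
    exact Nat.ModEq.eq_of_lt_of_lt e' hb hb'
  subst h1 h2
  have h3 : k = k' := by
    have : p * q * k = p * q * k' := by omega
    exact Nat.eq_of_mul_eq_mul_left (Nat.mul_pos hp hq) this
  subst h3
  rfl

lemma phi_cofinite {p q : ℕ} (hp : 0 < p) (hq : 0 < q) (h : Nat.Coprime p q) :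
    (Set.range (phi p q))ᶜ.Finite := by
  refine (Set.finite_lt_nat (q - 1 + q.pred * p.pred)).subset ?_
  intro n hn
  by_contra hlt
  simp only [Set.mem_ofPred_eq, not_lt] at hlt
  apply hn
  obtain ⟨A, B, hAB⟩ := Nat.exists_add_mul_eq_of_gcd_dvd_of_mul_pred_le q p (n - (q - 1))
    (by rw [h.symm.gcd_eq_one]; exact one_dvd _) (by omega)
  refine ⟨((⟨A % p, Nat.mod_lt _ hp⟩, ⟨B % q, Nat.mod_lt _ hq⟩), A / p + B / q), ?_⟩
  simp only [phi]
  have h1 := Nat.div_add_mod A p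
  have h2 := Nat.div_add_mod B q
  have : q * (A % p) + p * (B % q) + p * q * (A / p + B / q) = A * q + B * p := by
    nth_rewrite 3 [← h1]
    nth_rewrite 3 [← h2]
    ring
  omega

lemma tsum_phi {p q : ℕ} (hp : 0 < p) (hq : 0 < q) (h : Nat.Coprime p q) :
    ∃ E : Finset ℕ, ∀ f : ℕ → ℂ, Summable f →
      ∑ ab : Fin p × Fin q, ∑' k : ℕ, f (phi p q (ab, k)) = ∑' n, f n - ∑ n ∈ E, f n := by
  refine ⟨(phi_cofinite hp hq h).toFinset, fun f hf => ?_⟩
  have h1 := hf.sum_add_tsum_compl (s := (phi_cofinite hp hq h).toFinset)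
  have h2 : ((phi_cofinite hp hq h).toFinset : Set ℕ)ᶜ = Set.range (phi p q) := by simp
  rw [tsum_congr_set_coe f h2, tsum_range f (phi_injective hp hq h)] at h1
  have h3 : Summable (fun x => f (phi p q x)) := hf.comp_injective (phi_injective hp hq h)
  rw [h3.tsum_prod, tsum_fintype] at h1
  rw [← h1]; ring

/-- starting point of a progression -/
noncomputable def cc (p q : ℕ) (ab : Fin p × Fin q) : ℝ := 1 + ab.1 + ab.2 * ((p : ℝ) / q)

lemma cc_pos (p q : ℕ) (ab : Fin p × Fin q) : 0 < cc p q ab := by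
  unfold cc; positivity

lemma Z_rat {p q : ℕ} (hp : 0 < p) (hq : 0 < q) (h : Nat.Coprime p q) :
    ∃ E : Finset ℕ, ∀ s : ℂ, 4 < s.re → Z ((p : ℝ) / q) s =
      ((q : ℝ) : ℂ) ^ (s - 1) / p * (riemannZeta (s - 1) - ∑ n ∈ E, ((n + 1 : ℝ) : ℂ) ^ (1 - s))
        + ∑ ab : Fin p × Fin q, (1 - (cc p q ab : ℂ) / p) * EE (cc p q ab) p s := by
  obtain ⟨E, hE⟩ := tsum_phi hp hq h
  refine ⟨E, fun s hs => ?_⟩
  have hp' : (0 : ℝ) < p := by exact_mod_cast hp
  have hq' : (0 : ℝ) < q := by exact_mod_cast hq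
  have hw : (0 : ℝ) < p / q := by positivity
  have hpc : (p : ℂ) ≠ 0 := by exact_mod_cast hp.ne'
  have h1 := summable_cpow_X hw (u := -s) (by simp; linarith)
  have h2 := (resEquiv p q hp hq).summable_iff.mpr h1
  have hX : ∀ (ab : Fin p × Fin q) (i : ℕ × ℕ),
      X ((p : ℝ) / q) (resEquiv p q hp hq (ab, i)) = cc p q ab + p * ((i.1 + i.2 : ℕ) : ℝ) := by
    intro ab i
    simp only [X, resEquiv, cc, Equiv.coe_fn_mk]
    push_cast
    field_simp
    ring
  have hf : Summable (fun n : ℕ => ((n + 1 : ℝ) : ℂ) ^ (1 - s)) := by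
    have := summable_cpow_AP one_pos one_pos (u := 1 - s) (by simp; linarith)
    refine this.congr (fun n => ?_)
    congr 2; ring
  have hz : ∑' n : ℕ, ((n + 1 : ℝ) : ℂ) ^ (1 - s) = riemannZeta (s - 1) := by
    rw [zeta_eq_tsum_one_div_nat_add_one_cpow (by simp; linarith)]
    congr 1
    ext k
    rw [one_div, ← Complex.cpow_neg, neg_sub]
    push_cast; rfl
  rw [← hz, ← hE _ hf, mul_sum, ← sum_add_distrib]
  unfold Z
  rw [← (resEquiv p q hp hq).tsum_eq]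
  refine (Summable.tsum_prod h2).trans ?_
  rw [tsum_fintype]
  apply sum_congr rfl
  intro ab _
  have h3 := h2.prod_factor ab
  simp only [Function.comp, hX] at h3 ⊢
  rw [tsum_antidiag (fun k : ℕ => ((cc p q ab + p * (k : ℝ) : ℝ) : ℂ) ^ (-s)) h3,
    EE_eq (cc_pos p q ab) hp' (by linarith), ← tsum_mul_left, ← tsum_mul_left]
  have s1 := summable_cpow_AP (cc_pos p q ab) hp' (u := -s) (by simp; linarith)
  have s2 : Summable (fun k : ℕ => ((phi p q (ab, k) + 1 : ℝ) : ℂ) ^ (1 - s)) :=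
    (hf.comp_injective (phi_injective hp hq h)).prod_factor ab
  rw [← Summable.tsum_add (s2.mul_left _) (s1.mul_left _)]
  congr 1
  ext k
  have hx : 0 < cc p q ab + p * k := by have := cc_pos p q ab; positivity
  have e1 : (phi p q (ab, k) + 1 : ℝ) = q * (cc p q ab + p * k) := by
    simp only [phi, cc]
    push_cast [Nat.cast_sub (show 1 ≤ q from hq)]
    field_simp
    ring
  have hqc : ((q : ℝ) : ℂ) ≠ 0 := by exact_mod_cast hq.ne'
  have hxc : ((cc p q ab + p * k : ℝ) : ℂ) ≠ 0 := by exact_mod_cast hx.ne'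
  rw [e1, Complex.ofReal_mul, Complex.mul_cpow_ofReal_nonneg hq'.le hx.le]
  have e2 : ((q : ℝ) : ℂ) ^ (s - 1) * ((q : ℝ) : ℂ) ^ (1 - s) = 1 := by
    rw [← Complex.cpow_add _ _ hqc]; simp
  have e3 : ((cc p q ab + p * k : ℝ) : ℂ) ^ (1 - s) =
      ((cc p q ab + p * k : ℝ) : ℂ) * ((cc p q ab + p * k : ℝ) : ℂ) ^ (-s) := by
    rw [sub_eq_add_neg, Complex.cpow_add _ _ hxc, Complex.cpow_one]
  rw [e3]
  generalize ((cc p q ab + p * k : ℝ) : ℂ) ^ (-s) = Y
  have : ((q : ℝ) : ℂ) ^ (s - 1) / p * (((q : ℝ) : ℂ) ^ (1 - s) * (((cc p q ab + p * k : ℝ) : ℂ) * Y))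
     = (((q : ℝ) : ℂ) ^ (s - 1) * ((q : ℝ) : ℂ) ^ (1 - s)) / p * (((cc p q ab + p * k : ℝ) : ℂ) * Y) := by ring
  rw [this, e2]
  push_cast
  field_simp
  ring

lemma ne_of_Q {s : ℂ} (hs : 0 < s.im) (c : ℝ) : s - c ≠ 0 := by
  intro h
  have := congrArg Complex.im h
  simp at this
  linarith

lemma rat_lower {p q : ℕ} (hp : 0 < p) (hq : 0 < q) (h : Nat.Coprime p q) {G : ℂ → ℂ}
    (hG : Differentiable ℂ G)
    (hGZ : ∀ s : ℂ, 2 < s.re → G s = (s - 1) * (s - 2) * Z ((p : ℝ) / q) s) :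
    ∃ C : ℝ, 0 ≤ C ∧ ∀ t : ℝ, 1 ≤ t →
      Real.sqrt t / (4 * p) * ‖riemannZeta (1 + t * I)‖ - C * t ^ (1 / 4 : ℝ) ≤
        ‖G (1 + t * I) / ((1 + t * I - 1) * (1 + t * I - 2))‖ := by
  obtain ⟨E, hE⟩ := Z_rat hp hq h
  have hp' : (0 : ℝ) < p := by exact_mod_cast hp
  have hq' : (0 : ℝ) < q := by exact_mod_cast hq
  have hne : ∀ s ∈ Q, (s - 1) * (s - 2) ≠ 0 := fun s hs =>
    mul_ne_zero (by simpa using ne_of_Q hs.2 1) (by simpa using ne_of_Q hs.2 2)
  have key := eqOn_Q (G := fun s => G s / ((s - 1) * (s - 2)))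
    (G' := fun s => ((q : ℝ) : ℂ) ^ (s - 1) / p * (riemannZeta (s - 1) - ∑ n ∈ E, ((n + 1 : ℝ) : ℂ) ^ (1 - s))
        + ∑ ab : Fin p × Fin q, (1 - (cc p q ab : ℂ) / p) * EE (cc p q ab) p s) ?_ ?_ ?_
  rotate_left
  · exact hG.differentiableOn.div (by fun_prop) hne
  · apply DifferentiableOn.add
    · apply DifferentiableOn.mul
      · exact ((differentiable_cpow_aux hq' (fun s => s - 1) (by fun_prop)).div_const _).differentiableOn
      · apply DifferentiableOn.sub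
        · intro s hs
          have : s - 1 ≠ 1 := by
            intro h
            have := congrArg Complex.im h
            have h2 := hs.2
            simp at this
            linarith
          exact ((differentiableAt_riemannZeta this).comp s (by fun_prop)).differentiableWithinAt
        · apply DifferentiableOn.fun_sum
          intro n _
          exact (differentiable_cpow_aux (by positivity) (fun s => 1 - s) (by fun_prop)).differentiableOn
    · apply DifferentiableOn.fun_sum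
      intro ab _
      exact (differentiableOn_EE (cc_pos p q ab) hp').const_mul _
  · intro s hs hs'
    rw [hGZ s (by linarith), ← hE s hs]
    exact mul_div_cancel_left₀ _ (hne s ⟨by linarith, hs'⟩)
  choose C hC0 hC using fun ab : Fin p × Fin q => EE_bound (cc_pos p q ab) hp'
  refine ⟨E.card / p + ∑ ab : Fin p × Fin q, ‖1 - (cc p q ab : ℂ) / p‖ * C ab, ?_, fun t ht => ?_⟩
  · have : 0 ≤ ∑ ab : Fin p × Fin q, ‖1 - (cc p q ab : ℂ) / p‖ * C ab :=
      sum_nonneg (fun ab _ => mul_nonneg (norm_nonneg _) (hC0 ab))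
    positivity
  have hQ : (1 + t * I : ℂ) ∈ Q := ⟨by simp, by simp; linarith⟩
  have k1 := key _ hQ
  rw [k1]
  have e1 : (1 + t * I - 1 : ℂ) = t * I := by ring
  rw [e1]
  have ht4 : 1 ≤ t ^ (1 / 4 : ℝ) := Real.one_le_rpow ht (by norm_num)
  have a1 : ‖∑ ab : Fin p × Fin q, (1 - (cc p q ab : ℂ) / p) * EE (cc p q ab) p (1 + t * I)‖ ≤
      (∑ ab : Fin p × Fin q, ‖1 - (cc p q ab : ℂ) / p‖ * C ab) * t ^ (1 / 4 : ℝ) := by
    rw [sum_mul]
    refine (norm_sum_le _ _).trans (sum_le_sum (fun ab _ => ?_))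
    rw [norm_mul, mul_assoc]
    exact mul_le_mul_of_nonneg_left (hC ab t ht) (norm_nonneg _)
  have a2 : ‖∑ n ∈ E, ((n + 1 : ℝ) : ℂ) ^ (1 - (1 + t * I))‖ ≤ E.card * t ^ (1 / 4 : ℝ) := by
    refine (norm_sum_le _ _).trans ?_
    have : ∀ n ∈ E, ‖((n + 1 : ℝ) : ℂ) ^ (1 - (1 + t * I))‖ = 1 := by
      intro n _
      rw [Complex.norm_cpow_eq_rpow_re_of_pos (by positivity)]
      simp
    rw [sum_congr rfl this]
    simp only [sum_const, nsmul_eq_mul, mul_one]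
    exact le_mul_of_one_le_right (Nat.cast_nonneg _) ht4
  have a3 : ‖((q : ℝ) : ℂ) ^ (t * I : ℂ) / p‖ = 1 / p := by
    rw [norm_div, Complex.norm_cpow_eq_rpow_re_of_pos hq']
    simp
  have a4 := zeta_fe t ht
  have a5 := norm_sub_norm_le (riemannZeta (t * I)) (∑ n ∈ E, ((n + 1 : ℝ) : ℂ) ^ (1 - (1 + t * I)))
  set U := riemannZeta (t * I) - ∑ n ∈ E, ((n + 1 : ℝ) : ℂ) ^ (1 - (1 + t * I))
  set V := ∑ ab : Fin p × Fin q, (1 - (cc p q ab : ℂ) / p) * EE (cc p q ab) p (1 + t * I)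
  have a6 := norm_sub_norm_le (((q : ℝ) : ℂ) ^ (t * I : ℂ) / p * U) (-V)
  rw [sub_neg_eq_add, norm_neg, norm_mul, a3] at a6
  have a7 : Real.sqrt t / 4 * ‖riemannZeta (1 + t * I)‖ - E.card * t ^ (1 / 4 : ℝ) ≤ ‖U‖ := by linarith
  have a8 := mul_le_mul_of_nonneg_left a7 (show 0 ≤ 1 / (p : ℝ) by positivity)
  have a9 : Real.sqrt t / (4 * p) * ‖riemannZeta (1 + t * I)‖ - (E.card / p +
      ∑ ab : Fin p × Fin q, ‖1 - (cc p q ab : ℂ) / p‖ * C ab) * t ^ (1 / 4 : ℝ)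
      = 1 / (p : ℝ) * (Real.sqrt t / 4 * ‖riemannZeta (1 + t * I)‖ - E.card * t ^ (1 / 4 : ℝ))
        - (∑ ab : Fin p × Fin q, ‖1 - (cc p q ab : ℂ) / p‖ * C ab) * t ^ (1 / 4 : ℝ) := by
    field_simp
    ring
  rw [a9]
  linarith

end Pool.Agent.H58.Barnes
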