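import Mathlib

set_option autoImplicit false

namespace Pool.Agent.H58.Barnes
open Complex Finset

/-- falling factorial -/
noncomputable def ff (u : ℂ) (j : ℕ) : ℂ := ∏ i ∈ range j, (u - i)

/-- Taylor polynomial of `(x+h)^u` in `h`. -/
noncomputable def TT (N : ℕ) (u : ℂ) (x h : ℝ) : ℂ :=
  ∑ j ∈ range N, ff u j / (j.factorial : ℂ) * (x : ℂ) ^ (u - j) * (h : ℂ) ^ j

lemma ff_zero (u : ℂ) : ff u 0 = 1 := by simp [ff]

lemma ff_succ (u : ℂ) (j : ℕ) : ff u (j + 1) = ff u j * (u - j) := by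
  simp [ff, prod_range_succ]

lemma ff_succ' (u : ℂ) (j : ℕ) : ff u (j + 1) = u * ff (u - 1) j := by
  unfold ff
  rw [prod_range_succ']
  simp only [Nat.cast_zero, sub_zero, Nat.cast_add, Nat.cast_one]
  rw [mul_comm]
  congr 1
  apply prod_congr rfl
  intro i _
  ring

lemma differentiable_ff (j : ℕ) : Differentiable ℂ (fun u => ff u j) := by
  unfold ff
  fun_prop

lemma continuous_ff (j : ℕ) : Continuous (fun u => ff u j) := (differentiable_ff j).continuous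

lemma norm_ff_le (u : ℂ) (j : ℕ) (R : ℝ) (hR : ‖u‖ ≤ R) : ‖ff u j‖ ≤ (R + j) ^ j := by
  unfold ff
  rw [norm_prod]
  calc ∏ i ∈ range j, ‖u - i‖ ≤ ∏ _i ∈ range j, (R + j) := by
        apply prod_le_prod (fun _ _ => norm_nonneg _)
        intro i hi
        have h1 : (i : ℝ) ≤ j := by exact_mod_cast (mem_range.mp hi).le
        calc ‖u - i‖ ≤ ‖u‖ + ‖(i : ℂ)‖ := norm_sub_le _ _
          _ ≤ R + j := by rw [Complex.norm_natCast]; linarith
    _ = (R + j) ^ j := by simp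

lemma hasDerivAt_cpow_add (u : ℂ) (x h : ℝ) (hx : 0 < x + h) :
    HasDerivAt (fun y : ℝ => ((x + y : ℝ) : ℂ) ^ u) (u * ((x + h : ℝ) : ℂ) ^ (u - 1)) h := by
  have h1 : HasDerivAt (fun z : ℂ => ((x : ℂ) + z) ^ u) (u * ((x : ℂ) + h) ^ (u - 1) * 1) (h : ℂ) := by
    apply HasDerivAt.cpow_const
    · simpa using (hasDerivAt_id (h : ℂ)).const_add (x : ℂ)
    · left; simpa using hx
  have h2 := h1.comp_ofReal
  simpa using h2

lemma hasDerivAt_TT (N : ℕ) (u : ℂ) (x h : ℝ) :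
    HasDerivAt (fun y : ℝ => TT (N + 1) u x y) (u * TT N (u - 1) x h) h := by
  have key : ∀ y : ℝ, TT (N + 1) u x y = (∑ j ∈ range N,
      ff u (j + 1) / ((j + 1).factorial : ℂ) * (x : ℂ) ^ (u - ((j + 1 : ℕ) : ℂ)) * (y : ℂ) ^ (j + 1))
        + (x : ℂ) ^ u := by
    intro y
    unfold TT
    rw [sum_range_succ']
    simp [ff_zero]
  simp_rw [key]
  apply HasDerivAt.add_const
  unfold TT
  rw [mul_sum]
  apply HasDerivAt.fun_sum
  intro j _
  have h1 : HasDerivAt (fun z : ℂ => z ^ (j + 1)) (((j + 1 : ℕ) : ℂ) * (h : ℂ) ^ j) (h : ℂ) := by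
    simpa using hasDerivAt_pow (j + 1) (h : ℂ)
  have h2 := (h1.comp_ofReal).const_mul
    (ff u (j + 1) / ((j + 1).factorial : ℂ) * (x : ℂ) ^ (u - ((j + 1 : ℕ) : ℂ)))
  refine h2.congr_deriv ?_
  rw [ff_succ', Nat.factorial_succ]
  have h3 : ((j + 1 : ℕ) : ℂ) ≠ 0 := by exact_mod_cast Nat.succ_ne_zero j
  have h4 : ((j.factorial : ℕ) : ℂ) ≠ 0 := by exact_mod_cast Nat.factorial_ne_zero j
  have h5 : u - 1 - (j : ℂ) = u - ((j + 1 : ℕ) : ℂ) := by push_cast; ring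
  rw [h5]
  push_cast at h3 ⊢
  field_simp

lemma TT_succ_zero (N : ℕ) (u : ℂ) (x : ℝ) : TT (N + 1) u x 0 = (x : ℂ) ^ u := by
  unfold TT
  rw [sum_range_succ']
  simp [ff_zero]

lemma taylor_bound (N : ℕ) : ∀ (u : ℂ) (x h : ℝ), 0 < x → 0 ≤ h → u.re ≤ N →
    ‖((x + h : ℝ) : ℂ) ^ u - TT N u x h‖ ≤ ‖ff u N‖ * h ^ N * x ^ (u.re - N) := by
  induction N with
  | zero =>
    intro u x h hx hh hu
    simp only [TT, range_zero, sum_empty, sub_zero, ff_zero, norm_one, pow_zero, mul_one,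
      CharP.cast_eq_zero, one_mul]
    rw [Complex.norm_cpow_eq_rpow_re_of_pos (by linarith)]
    exact Real.rpow_le_rpow_of_nonpos hx (by linarith) (by simpa using hu)
  | succ N ih =>
    intro u x h hx hh hu
    set g : ℝ → ℂ := fun y => ((x + y : ℝ) : ℂ) ^ u - TT (N + 1) u x y with hg
    set g' : ℝ → ℂ := fun y => u * (((x + y : ℝ) : ℂ) ^ (u - 1) - TT N (u - 1) x y) with hg'
    have hd : ∀ y ∈ Set.Icc (0 : ℝ) h, HasDerivWithinAt g (g' y) (Set.Icc 0 h) y := by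
      intro y hy
      have h1 := (hasDerivAt_cpow_add u x y (by linarith [hy.1])).sub (hasDerivAt_TT N u x y)
      have h2 : g' y = u * ((x + y : ℝ) : ℂ) ^ (u - 1) - u * TT N (u - 1) x y := by
        simp only [hg']; ring
      rw [h2]
      exact h1.hasDerivWithinAt
    have hb : ∀ y ∈ Set.Ico (0 : ℝ) h, ‖g' y‖ ≤ ‖ff u (N + 1)‖ * h ^ N * x ^ (u.re - (N + 1 : ℕ)) := by
      intro y hy
      have h1 := ih (u - 1) x y hx hy.1 (by simp at hu ⊢; linarith)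
      have h2 : (u - 1).re - N = u.re - (N + 1 : ℕ) := by simp; ring
      rw [h2] at h1
      simp only [hg', norm_mul, ff_succ']
      have h3 : y ^ N ≤ h ^ N := pow_le_pow_left₀ hy.1 hy.2.le N
      have h4 : 0 ≤ x ^ (u.re - (N + 1 : ℕ)) := Real.rpow_nonneg hx.le _
      calc _ ≤ ‖u‖ * (‖ff (u - 1) N‖ * y ^ N * x ^ (u.re - (N + 1 : ℕ))) := by gcongr
        _ ≤ ‖u‖ * (‖ff (u - 1) N‖ * h ^ N * x ^ (u.re - (N + 1 : ℕ))) := by gcongr
        _ = _ := by ring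
    have h5 := norm_image_sub_le_of_norm_deriv_le_segment' hd hb h ⟨hh, le_rfl⟩
    have h6 : g 0 = 0 := by simp [hg, TT_succ_zero]
    rw [h6, sub_zero, sub_zero] at h5
    calc _ = ‖g h‖ := rfl
      _ ≤ _ := h5
      _ = _ := by ring

end Pool.Agent.H58.Barnes
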