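import Pool.Agent.H58.BarnesHurwitz

set_option autoImplicit false

namespace Pool.Agent.H58.Barnes
open Complex Finset

lemma continuous_line_cpow {y : ℝ} (hy : 0 < y) :
    Continuous (fun t : ℝ => (y : ℂ) ^ (-(1 + t * I))) :=
  Continuous.const_cpow (by fun_prop) (Or.inl (by exact_mod_cast hy.ne'))

lemma integral_cpow_line {y : ℝ} (hy : 2 ≤ y) (A B : ℝ) :
    ‖∫ t in A..B, (y : ℂ) ^ (-(1 + t * I))‖ ≤ 3 / y := by
  have hy0 : 0 < y := by linarith
  have hl : 2 / 3 ≤ Real.log y := by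
    have := Real.log_two_gt_d9
    have h2 := Real.log_le_log (by norm_num) hy
    linarith
  have hl0 : (Real.log y : ℂ) ≠ 0 := by
    have : Real.log y ≠ 0 := by linarith
    exact_mod_cast this
  have hd : ∀ t : ℝ, HasDerivAt (fun t : ℝ => (y : ℂ) ^ (-(1 + t * I)) * (I / Real.log y))
      ((y : ℂ) ^ (-(1 + t * I))) t := by
    intro t
    have h1 : HasDerivAt (fun z : ℂ => -(1 + z * I)) (-I) (t : ℂ) := by
      have := (((hasDerivAt_id (t : ℂ)).mul_const I).const_add 1).fun_neg
      rw [one_mul] at this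
      exact this
    have h2 := (h1.const_cpow (c := (y : ℂ)) (Or.inl (by exact_mod_cast hy0.ne'))).comp_ofReal
    refine (h2.mul_const (I / Real.log y)).congr_deriv ?_
    rw [← Complex.ofReal_log hy0.le]
    field_simp
    simp
  rw [intervalIntegral.integral_eq_sub_of_hasDerivAt (fun t _ => hd t)
    ((continuous_line_cpow hy0).intervalIntegrable _ _)]
  have hb : ∀ t : ℝ, ‖(y : ℂ) ^ (-(1 + t * I)) * (I / Real.log y)‖ ≤ 3 / 2 / y := by
    intro t
    rw [norm_mul, Complex.norm_cpow_eq_rpow_re_of_pos hy0, norm_div, Complex.norm_I, Complex.norm_real,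
      Real.norm_of_nonneg (by linarith)]
    have : (-(1 + t * I) : ℂ).re = -1 := by simp
    rw [this, Real.rpow_neg_one]
    have h3 : 1 / Real.log y ≤ 3 / 2 := by
      rw [div_le_iff₀ (by linarith)]; linarith
    calc y⁻¹ * (1 / Real.log y) ≤ y⁻¹ * (3 / 2) := by gcongr
      _ = _ := by field_simp
  refine (norm_sub_le _ _).trans ?_
  have := hb A
  have := hb B
  have : 3 / y = 3 / 2 / y + 3 / 2 / y := by ring
  linarith

lemma continuousOn_zeta_line :
    ContinuousOn (fun t : ℝ => riemannZeta (1 + t * I)) {t | 0 < t} := by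
  intro t ht
  have ht' : 0 < t := ht
  have h1 : ContinuousAt riemannZeta (1 + t * I) := by
    refine (differentiableAt_riemannZeta ?_).continuousAt
    intro h
    have := congrArg Complex.im h
    simp at this; linarith
  exact (ContinuousAt.comp (f := fun t : ℝ => (1 + t * I : ℂ)) h1 (by fun_prop)).continuousWithinAt

lemma harm_bound (M : ℕ) (hM : 1 ≤ M) : ∑ k ∈ range (12 * M), 3 / ((1 : ℝ) + (k + 1 : ℕ)) ≤ 1077 + M / 10 := by
  have h1 := harmonic_le_one_add_log (12 * M)
  have hM' : (1 : ℝ) ≤ M := by exact_mod_cast hM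
  have h2 : Real.log ((12 * M : ℕ) : ℝ) ≤ M / 30 - 1 + 359 := by
    have e : ((12 * M : ℕ) : ℝ) = (M / 30) * 360 := by push_cast; ring
    rw [e, Real.log_mul (by positivity) (by norm_num)]
    have a1 := Real.log_le_sub_one_of_pos (show (0 : ℝ) < M / 30 by positivity)
    have a2 := Real.log_le_sub_one_of_pos (show (0 : ℝ) < 360 by positivity)
    linarith
  have h3 : ∑ k ∈ range (12 * M), 3 / ((1 : ℝ) + (k + 1 : ℕ)) ≤ 3 * (harmonic (12 * M) : ℝ) := by
    unfold harmonic
    push_cast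
    rw [mul_sum]
    apply sum_le_sum
    intro k _
    have hk : (0 : ℝ) ≤ k := Nat.cast_nonneg k
    rw [← div_eq_mul_inv]
    apply div_le_div_of_nonneg_left (by norm_num) (by positivity) (by linarith)
  linarith

lemma zeta_mean (M : ℕ) (hM : 20000 ≤ M) :
    (M : ℝ) / 2 ≤ ∫ t in (M : ℝ)..(2 * M), ‖riemannZeta (1 + t * I)‖ := by
  have hM' : (20000 : ℝ) ≤ M := by exact_mod_cast hM
  set N := 12 * M + 1 with hN
  set D : ℝ → ℂ := fun t => ∑ k ∈ range N, ((1 + k : ℝ) : ℂ) ^ (-(1 + t * I)) with hD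
  have hDc : Continuous D := continuous_finsetSum _ (fun k _ => continuous_line_cpow (by positivity))
  have hle : (M : ℝ) ≤ 2 * M := by linarith
  have hzc : ContinuousOn (fun t : ℝ => riemannZeta (1 + t * I)) (Set.uIcc (M : ℝ) (2 * M)) := by
    apply continuousOn_zeta_line.mono
    intro t ht
    rw [Set.uIcc_of_le hle] at ht
    have := ht.1
    show 0 < t
    linarith
  have h1 : ∫ t in (M : ℝ)..(2 * M), (‖D t‖ - (1 / M + 1 / 3)) ≤
      ∫ t in (M : ℝ)..(2 * M), ‖riemannZeta (1 + t * I)‖ := by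
    apply intervalIntegral.integral_mono_on hle
      ((hDc.norm.sub continuous_const).intervalIntegrable _ _) hzc.norm.intervalIntegrable
    intro t ht
    have a1 := zeta_approx t (by linarith [ht.1]) N (by omega)
    have a2 : 1 / t ≤ 1 / M := one_div_le_one_div_of_le (by linarith) ht.1
    have a3 : 2 * t / N ≤ 1 / 3 := by
      rw [div_le_div_iff₀ (by positivity) (by norm_num), hN]
      push_cast
      linarith [ht.2]
    have a4 := norm_sub_norm_le (D t) (riemannZeta (1 + t * I))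
    rw [← norm_neg (D t - _), neg_sub] at a4
    show ‖D t‖ - (1 / M + 1 / 3) ≤ _
    simp only [hD] at a4 ⊢
    linarith
  rw [intervalIntegral.integral_sub (hDc.norm.intervalIntegrable _ _) (by simp)] at h1
  simp only [intervalIntegral.integral_const, smul_eq_mul] at h1
  have h2 := intervalIntegral.norm_integral_le_integral_norm (f := D) (μ := MeasureTheory.volume) hle
  have h3 : ∫ t in (M : ℝ)..(2 * M), D t =
      ∑ k ∈ range N, ∫ t in (M : ℝ)..(2 * M), ((1 + k : ℝ) : ℂ) ^ (-(1 + t * I)) := by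
    simp only [hD]
    rw [intervalIntegral.integral_finsetSum]
    intro k _
    exact (continuous_line_cpow (by positivity)).intervalIntegrable _ _
  rw [hN, sum_range_succ'] at h3
  have h4 : ∫ t in (M : ℝ)..(2 * M), ((1 + ((0 : ℕ) : ℝ) : ℝ) : ℂ) ^ (-(1 + t * I)) = M := by
    simp; ring
  rw [h4] at h3
  have h5 : ‖∑ k ∈ range (12 * M), ∫ t in (M : ℝ)..(2 * M), ((1 + ((k + 1 : ℕ) : ℝ) : ℝ) : ℂ) ^ (-(1 + t * I))‖
      ≤ 1077 + M / 10 := by
    refine (norm_sum_le _ _).trans (le_trans (sum_le_sum (fun k _ => ?_)) (harm_bound M (by omega)))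
    apply integral_cpow_line
    have hk : (0 : ℝ) ≤ k := Nat.cast_nonneg k
    push_cast; linarith
  have h6 : (M : ℝ) - (1077 + M / 10) ≤ ‖∫ t in (M : ℝ)..(2 * M), D t‖ := by
    rw [h3]
    have := norm_sub_norm_le (M : ℂ) (-∑ k ∈ range (12 * M), ∫ t in (M : ℝ)..(2 * M),
      ((1 + ((k + 1 : ℕ) : ℝ) : ℝ) : ℂ) ^ (-(1 + t * I)))
    rw [norm_neg, sub_neg_eq_add, add_comm (M : ℂ), Complex.norm_natCast] at this
    linarith
  have h7 : (2 * (M : ℝ) - M) * (1 / M + 1 / 3) = 1 + M / 3 := by field_simp; ring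
  rw [h7] at h1
  linarith

lemma norm_Gamma_sq (t : ℝ) (ht : 0 < t) :
    ‖Gamma (1 - t * I)‖ ^ 2 = Real.pi * t / Real.sinh (Real.pi * t) := by
  have h1 := Complex.Gamma_mul_Gamma_one_sub (t * I)
  have ht' : (t * I : ℂ) ≠ 0 := mul_ne_zero (by exact_mod_cast ht.ne') I_ne_zero
  have h2 := Complex.Gamma_add_one (t * I) ht'
  have h3 : Gamma (t * I + 1) = (starRingEnd ℂ) (Gamma (1 - t * I)) := by
    rw [← Complex.Gamma_conj]; congr 1; simp; ring
  have h4 : ‖Gamma (1 - t * I)‖ = t * ‖Gamma (t * I)‖ := by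
    rw [← Complex.norm_conj, ← h3, h2, norm_mul, norm_mul, Complex.norm_I, Complex.norm_real,
      Real.norm_of_nonneg ht.le, mul_one]
  have h5 : ‖Gamma (t * I)‖ * ‖Gamma (1 - t * I)‖ = Real.pi / Real.sinh (Real.pi * t) := by
    rw [← norm_mul, h1, norm_div, ← mul_assoc, Complex.sin_mul_I, norm_mul, Complex.norm_I, mul_one,
      Complex.norm_real, Real.norm_of_nonneg Real.pi_pos.le, ← Complex.ofReal_mul, ← Complex.ofReal_sinh,
      Complex.norm_real, Real.norm_of_nonneg (Real.sinh_nonneg_iff.mpr (by positivity))]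
  rw [pow_two]
  nth_rewrite 1 [h4]
  rw [mul_assoc, h5]; ring

lemma zeta_fe (t : ℝ) (ht : 1 ≤ t) :
    Real.sqrt t / 4 * ‖riemannZeta (1 + t * I)‖ ≤ ‖riemannZeta (t * I)‖ := by
  have ht0 : 0 < t := by linarith
  have h1 := riemannZeta_one_sub (s := 1 - t * I) (by
    intro n h
    have := congrArg Complex.im h
    simp at this; linarith) (by
    intro h
    have := congrArg Complex.im h
    simp at this; linarith)
  have e1 : 1 - (1 - t * I) = (t * I : ℂ) := by ring
  have e2 : riemannZeta (1 - t * I) = (starRingEnd ℂ) (riemannZeta (1 + t * I)) := by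
    rw [← riemannZeta_conj]; congr 1; simp; ring
  have e3 : cos (Real.pi * (1 - t * I) / 2) = (Real.sinh (Real.pi * t / 2) : ℂ) * I := by
    have : (Real.pi * (1 - t * I) / 2 : ℂ) = Real.pi / 2 - ((Real.pi * t / 2 : ℝ) : ℂ) * I := by
      push_cast; ring
    rw [this, Complex.cos_pi_div_two_sub, Complex.sin_mul_I, Complex.ofReal_sinh]
  have e4 : ‖(2 * Real.pi : ℂ) ^ (-(1 - t * I))‖ = (2 * Real.pi)⁻¹ := by
    have : (2 * Real.pi : ℂ) = ((2 * Real.pi : ℝ) : ℂ) := by push_cast; ring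
    rw [this, Complex.norm_cpow_eq_rpow_re_of_pos (by positivity)]
    simp [Real.rpow_neg_one]
  rw [e1, e2, e3] at h1
  have hsh : 0 < Real.sinh (Real.pi * t / 2) := Real.sinh_pos_iff.mpr (by positivity)
  rw [h1, norm_mul, norm_mul, norm_mul, norm_mul, norm_mul, Complex.norm_conj, e4, Complex.norm_I,
    Complex.norm_real, Real.norm_of_nonneg hsh.le]
  apply mul_le_mul_of_nonneg_right _ (norm_nonneg _)
  have hg := norm_Gamma_sq t ht0
  have hpi := Real.pi_pos
  have hpi4 := Real.pi_lt_four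
  have hpi3 := Real.pi_gt_three
  have h2 : Real.sinh (Real.pi * t) = 2 * Real.sinh (Real.pi * t / 2) * Real.cosh (Real.pi * t / 2) := by
    rw [← Real.sinh_two_mul]; congr 1; ring
  have hch : 0 < Real.cosh (Real.pi * t / 2) := Real.cosh_pos _
  have h3 : Real.cosh (Real.pi * t / 2) ≤ 2 * Real.sinh (Real.pi * t / 2) := by
    have a1 : 1 ≤ Real.sinh (Real.pi * t / 2) := by
      have := Real.self_le_sinh_iff.mpr (show 0 ≤ Real.pi * t / 2 by positivity)
      nlinarith
    have a2 := Real.cosh_sq (Real.pi * t / 2)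
    nlinarith
  apply le_of_sq_le_sq _ (by positivity) |>.trans le_rfl
  · simp only [norm_ofNat, mul_one, mul_pow, div_pow]
    rw [Real.sq_sqrt ht0.le, hg, h2]
    set A := Real.sinh (Real.pi * t / 2)
    set B := Real.cosh (Real.pi * t / 2)
    field_simp
    nlinarith [mul_le_mul_of_nonneg_left h3 hpi.le]

end Pool.Agent.H58.Barnes
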