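import Mathlib

set_option autoImplicit false

namespace Pool.Agent.H58.Spi

open MeasureTheory Set Filter Topology

/-- The Euclidean unit ball of `ℂ²`. -/
def ball2 : Set (ℂ × ℂ) := {z | ‖z.1‖ ^ 2 + ‖z.2‖ ^ 2 < 1}

/-- The Hermitian inner product `z₁ conj w₁ + z₂ conj w₂`. -/
def inn (z w : ℂ × ℂ) : ℂ := z.1 * (starRingEnd ℂ) w.1 + z.2 * (starRingEnd ℂ) w.2

/-- The matrix `A = diag (lam, 1)` as a linear map. -/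
noncomputable def Amap (lam : ℝ) : ℂ × ℂ →L[ℂ] ℂ × ℂ :=
  ((lam : ℂ) • ContinuousLinearMap.fst ℂ ℂ ℂ).prod (ContinuousLinearMap.snd ℂ ℂ ℂ)

/-- `e^{tA} w` for `A = diag (lam, 1)`. -/
noncomputable def expA (lam t : ℝ) (w : ℂ × ℂ) : ℂ × ℂ :=
  ((Real.exp (t * lam) : ℂ) * w.1, (Real.exp t : ℂ) * w.2)

/-- The class `N_A`. -/
def NA (lam : ℝ) : Set (ℂ × ℂ → ℂ × ℂ) :=
  {h | DifferentiableOn ℂ h ball2 ∧ h 0 = 0 ∧ HasFDerivAt h (Amap lam) 0 ∧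
    ∀ z ∈ ball2, z ≠ 0 → 0 < (inn (h z) z).re}

/-- Herglotz vector fields `h (z, t) = A z + …`. -/
def Herglotz (lam : ℝ) (h : ℂ × ℂ → ℝ → ℂ × ℂ) : Prop :=
  (∀ᵐ t ∂(volume.restrict (Ici (0 : ℝ))), (fun z => h z t) ∈ NA lam) ∧
    ∀ z ∈ ball2, Measurable (fun t : Ici (0 : ℝ) => h z t)

/-- `v (z, ·)` is a locally absolutely continuous ball-valued solution of
`∂ₜ v = - h (v, t)` a.e. on `[0, ∞)`, `v (z, 0) = z`. -/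
def IsFlow (h v : ℂ × ℂ → ℝ → ℂ × ℂ) : Prop :=
  ∀ z ∈ ball2, v z 0 = z ∧ (∀ t, 0 ≤ t → v z t ∈ ball2) ∧
    (∀ T, 0 ≤ T → AbsolutelyContinuousOnInterval (v z) 0 T) ∧
    ∀ᵐ t ∂(volume.restrict (Ici (0 : ℝ))), HasDerivAt (v z) (-h (v z t) t) t

/-- The class `S_A^0 (𝔹²)` of normalized holomorphic maps with `A`-parametric representation. -/
def S0 (lam : ℝ) : Set (ℂ × ℂ → ℂ × ℂ) :=
  {f | DifferentiableOn ℂ f ball2 ∧ f 0 = 0 ∧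
    HasFDerivAt f (ContinuousLinearMap.id ℂ (ℂ × ℂ)) 0 ∧
    ∃ h v : ℂ × ℂ → ℝ → ℂ × ℂ, Herglotz lam h ∧ IsFlow h v ∧
      TendstoLocallyUniformlyOn (fun t z => expA lam t (v z t)) f atTop ball2}

/-- The set whose maximum is `a₀`. -/
def aSet (lam : ℝ) : Set ℝ :=
  {a | 0 < a ∧ ∀ x y : ℝ, 0 ≤ x → 0 ≤ y → x ^ 2 + y ^ 2 ≤ 1 →
    0 ≤ lam * x ^ 2 + y ^ 2 - a * x * y ^ 2}

/-- The constant `a₀`. -/
noncomputable def a0 (lam : ℝ) : ℝ := sSup (aSet lam)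

/-- The support point `F`. -/
noncomputable def Fmap (lam : ℝ) (z : ℂ × ℂ) : ℂ × ℂ :=
  (z.1 + ((a0 lam / (2 - lam) : ℝ) : ℂ) * z.2 ^ 2, z.2)

end Pool.Agent.H58.Spi
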