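import Mathlib
import Pool.Agent.H58.SpiDefs

set_option autoImplicit false

namespace Pool.Agent.H58.Spi

open Set

lemma exists_touch (lam : ℝ) (h1 : 1 ≤ lam) : ∃ a x0 : ℝ, 0 < a ∧ 0 < x0 ∧ x0 < 1 ∧
    (lam - 1) * x0 ^ 2 + 1 = a * (x0 * (1 - x0 ^ 2)) ∧
    ∀ x ∈ Icc (0 : ℝ) 1, a * (x * (1 - x ^ 2)) ≤ (lam - 1) * x ^ 2 + 1 := by
  have hpos : ∀ x : ℝ, 0 < (lam - 1) * x ^ 2 + 1 := fun x => by
    have := mul_nonneg (sub_nonneg.2 h1) (sq_nonneg x); linarith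
  have hc : Continuous fun x : ℝ => x * (1 - x ^ 2) / ((lam - 1) * x ^ 2 + 1) :=
    Continuous.div (by fun_prop) (by fun_prop) fun x => (hpos x).ne'
  obtain ⟨x0, hx0, hmax⟩ := (isCompact_Icc (a := (0 : ℝ)) (b := 1)).exists_isMaxOn
    ⟨0, by simp⟩ hc.continuousOn
  set m := x0 * (1 - x0 ^ 2) / ((lam - 1) * x0 ^ 2 + 1) with hm
  have hm0 : 0 < m := by
    have := hmax (show (1 / 2 : ℝ) ∈ Icc (0 : ℝ) 1 by norm_num)
    refine lt_of_lt_of_le (div_pos (by norm_num) (hpos (1 / 2))) this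
  have hn : 0 < x0 * (1 - x0 ^ 2) := by
    have := (div_pos_iff_of_pos_right (hpos x0)).1 hm0
    exact this
  have h0 : 0 < x0 := by
    rcases hx0.1.eq_or_lt with h | h
    · rw [← h] at hn; simp at hn
    · exact h
  have h1' : x0 < 1 := by
    rcases hx0.2.eq_or_lt with h | h
    · rw [h] at hn; simp at hn
    · exact h
  refine ⟨1 / m, x0, by positivity, h0, h1', ?_, fun x hx => ?_⟩
  · rw [hm, one_div_div, div_mul_cancel₀ _ hn.ne']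
  · have := hmax hx
    simp only [mem_ofPred_eq] at this
    rw [div_le_iff₀ (hpos x)] at this
    rw [one_div, inv_mul_le_iff₀ hm0]
    exact this

lemma lin_s {lam a x s : ℝ} (hx : x ^ 2 < 1) :
    lam * x ^ 2 + s - a * x * s = (1 - s / (1 - x ^ 2)) * (lam * x ^ 2) +
      s / (1 - x ^ 2) * ((lam - 1) * x ^ 2 + 1 - a * (x * (1 - x ^ 2))) := by
  have : 1 - x ^ 2 ≠ 0 := by linarith
  field_simp
  ring

lemma isGreatest_of {lam a x0 : ℝ} (h1 : 1 ≤ lam) (ha : 0 < a) (h0 : 0 < x0) (h1' : x0 < 1)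
    (he : (lam - 1) * x0 ^ 2 + 1 = a * (x0 * (1 - x0 ^ 2)))
    (hle : ∀ x ∈ Icc (0 : ℝ) 1, a * (x * (1 - x ^ 2)) ≤ (lam - 1) * x ^ 2 + 1) :
    IsGreatest (aSet lam) a := by
  refine ⟨⟨ha, fun x y hx hy hxy => ?_⟩, fun b hb => ?_⟩
  · have hx1 : x ≤ 1 := by nlinarith [sq_nonneg y]
    rcases (show x ^ 2 ≤ 1 by nlinarith [sq_nonneg y]).eq_or_lt with h | h
    · have : y ^ 2 = 0 := by nlinarith [sq_nonneg y]
      rw [this, h]; linarith
    · rw [lin_s h]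
      have h2 : 0 < 1 - x ^ 2 := by linarith
      have h3 : y ^ 2 / (1 - x ^ 2) ≤ 1 := by rw [div_le_one h2]; linarith
      have h4 := hle x ⟨hx, hx1⟩
      have h5 : 0 ≤ lam * x ^ 2 := by positivity
      exact add_nonneg (mul_nonneg (by linarith) h5)
        (mul_nonneg (by positivity) (by linarith))
  · have h2 : 0 < 1 - x0 ^ 2 := by nlinarith
    have := hb.2 x0 (Real.sqrt (1 - x0 ^ 2)) h0.le (Real.sqrt_nonneg _)
      (by rw [Real.sq_sqrt h2.le]; linarith)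
    rw [Real.sq_sqrt h2.le] at this
    have h3 : 0 < x0 * (1 - x0 ^ 2) := by positivity
    have : b * (x0 * (1 - x0 ^ 2)) ≤ a * (x0 * (1 - x0 ^ 2)) := by linarith
    exact le_of_mul_le_mul_right this h3

lemma factor {lam a x0 : ℝ} (h0 : 0 < x0) (h1' : x0 < 1)
    (he : (lam - 1) * x0 ^ 2 + 1 = a * (x0 * (1 - x0 ^ 2)))
    (hle : ∀ x ∈ Icc (0 : ℝ) 1, a * (x * (1 - x ^ 2)) ≤ (lam - 1) * x ^ 2 + 1) (x : ℝ) :
    (lam - 1) * x ^ 2 + 1 - a * (x * (1 - x ^ 2)) = (x - x0) ^ 2 * (a * x + 1 / x0 ^ 2) := by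
  have hmin : IsLocalMin (fun x : ℝ => (lam - 1) * x ^ 2 + 1 - a * (x - x ^ 3)) x0 := by
    filter_upwards [Icc_mem_nhds h0 h1'] with y hy
    have := hle y hy
    nlinarith
  have hd : HasDerivAt (fun x : ℝ => (lam - 1) * x ^ 2 + 1 - a * (x - x ^ 3))
      ((lam - 1) * (2 * x0) - a * (1 - 3 * x0 ^ 2)) x0 := by
    have h2 := (((hasDerivAt_pow 2 x0).const_mul (lam - 1)).add_const 1).fun_sub
      (((hasDerivAt_id' x0).fun_sub (hasDerivAt_pow 3 x0)).const_mul a)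
    refine h2.congr_deriv ?_
    norm_num
  have hz := hmin.hasDerivAt_eq_zero hd
  field_simp
  linear_combination (2 * x * x0 - x ^ 2) * he + (x ^ 2 * x0 - x * x0 ^ 2) * hz

lemma real_key {lam a x0 : ℝ} (h1 : 1 ≤ lam) (ha : 0 < a) (h0 : 0 < x0) (h1' : x0 < 1)
    (he : (lam - 1) * x0 ^ 2 + 1 = a * (x0 * (1 - x0 ^ 2)))
    (hle : ∀ x ∈ Icc (0 : ℝ) 1, a * (x * (1 - x ^ 2)) ≤ (lam - 1) * x ^ 2 + 1) :
    ∃ κ δ : ℝ, 0 < κ ∧ 0 < δ ∧ 2 * κ * δ ≤ a ∧ ∀ x s : ℝ, 0 ≤ x → 0 ≤ s → x ^ 2 + s < 1 →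
      δ * x * (x - κ * s) ^ 2 ≤ lam * x ^ 2 + s - a * x * s ∧
      (0 < x ^ 2 + s → 0 < lam * x ^ 2 + s - a * x * s) := by
  have h2 : 0 < 1 - x0 ^ 2 := by nlinarith
  set κ := x0 / (1 - x0 ^ 2) with hκ
  have hκ0 : 0 < κ := by positivity
  have hκe : κ * (1 - x0 ^ 2) = x0 := by rw [hκ]; field_simp
  set δ := min 1 (a / (2 * κ + 1) ^ 2) with hδ
  have hδ1 : δ ≤ 1 := min_le_left _ _
  have hδ0 : 0 < δ := by positivity
  have hδ2 : δ * (2 * κ + 1) ^ 2 ≤ a := by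
    have : δ ≤ a / (2 * κ + 1) ^ 2 := min_le_right _ _
    rwa [le_div_iff₀ (by positivity)] at this
  refine ⟨κ, δ, hκ0, hδ0, by nlinarith [sq_nonneg κ, mul_pos hδ0 hκ0, mul_nonneg hδ0.le (sq_nonneg κ)],
    fun x s hx hs hxs => ?_⟩
  have hx2 : x ^ 2 < 1 := by linarith
  have hx1 : x ≤ 1 := by nlinarith
  have h3 : 0 < 1 - x ^ 2 := by linarith
  rw [lin_s hx2, factor h0 h1' he hle x]
  set τ := s / (1 - x ^ 2) with hτ
  have hτ0 : 0 ≤ τ := by positivity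
  have hτ1 : τ < 1 := by rw [hτ, div_lt_one h3]; linarith
  have hsτ : s = τ * (1 - x ^ 2) := by rw [hτ]; field_simp
  have hq : 0 ≤ (x - x0) ^ 2 * (a * x + 1 / x0 ^ 2) := by positivity
  refine ⟨?_, fun hp => ?_⟩
  · have e1 : x - κ * (1 - x ^ 2) = (x - x0) * (κ * x + κ * x0 + 1) := by
      linear_combination (-1 : ℝ) * hκe
    have c1 : (x - κ * s) ^ 2 ≤ (1 - τ) * x ^ 2 + τ * (x - κ * (1 - x ^ 2)) ^ 2 := by
      rw [hsτ]
      have : (1 - τ) * x ^ 2 + τ * (x - κ * (1 - x ^ 2)) ^ 2 - (x - κ * (τ * (1 - x ^ 2))) ^ 2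
        = τ * (1 - τ) * (κ * (1 - x ^ 2)) ^ 2 := by ring
      have h4 : 0 ≤ τ * (1 - τ) * (κ * (1 - x ^ 2)) ^ 2 :=
        mul_nonneg (mul_nonneg hτ0 (by linarith)) (sq_nonneg _)
      linarith
    have c2 : δ * x * x ^ 2 ≤ lam * x ^ 2 :=
      mul_le_mul_of_nonneg_right (by nlinarith) (sq_nonneg x)
    have c3 : δ * x * (x - κ * (1 - x ^ 2)) ^ 2 ≤ (x - x0) ^ 2 * (a * x + 1 / x0 ^ 2) := by
      rw [e1, mul_pow]
      have b1 : (κ * x + κ * x0 + 1) ^ 2 ≤ (2 * κ + 1) ^ 2 := by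
        apply pow_le_pow_left₀ (by positivity)
        nlinarith [mul_le_mul_of_nonneg_left hx1 hκ0.le, mul_le_mul_of_nonneg_left h1'.le hκ0.le]
      have b2 : δ * (κ * x + κ * x0 + 1) ^ 2 ≤ a :=
        (mul_le_mul_of_nonneg_left b1 hδ0.le).trans hδ2
      have b3 : δ * x * (κ * x + κ * x0 + 1) ^ 2 ≤ a * x + 1 / x0 ^ 2 := by
        have := mul_le_mul_of_nonneg_right b2 hx
        have h5 : 0 < 1 / x0 ^ 2 := by positivity
        linarith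
      have := mul_le_mul_of_nonneg_left b3 (sq_nonneg (x - x0))
      linarith
    have c4 := mul_le_mul_of_nonneg_left c1 (mul_nonneg hδ0.le hx)
    have c5 := mul_le_mul_of_nonneg_left c2 (show 0 ≤ 1 - τ by linarith)
    have c6 := mul_le_mul_of_nonneg_left c3 hτ0
    linarith
  · rcases hx.eq_or_lt with h | h
    · subst h
      have hs0 : 0 < s := by simpa using hp
      have : 0 < τ := by positivity
      have h5 : 0 < (0 - x0) ^ 2 * (a * 0 + 1 / x0 ^ 2) := by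
        have : (0 - x0) ^ 2 = x0 ^ 2 := by ring
        rw [this]; positivity
      have := mul_pos this h5
      simpa using this
    · have h5 : 0 < (1 - τ) * (lam * x ^ 2) := mul_pos (by linarith) (by positivity)
      have := mul_nonneg hτ0 hq
      linarith

/-- The complex form of the key inequality. -/
lemma cx_key (lam : ℝ) (h1 : 1 ≤ lam) : IsGreatest (aSet lam) (a0 lam) ∧
    ∃ κ δ : ℝ, 0 < κ ∧ 0 < δ ∧ ∀ z ∈ ball2,
      δ * ‖z.1‖ * ‖z.1 - κ * z.2 ^ 2‖ ^ 2 ≤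
        (inn ((lam : ℂ) * z.1 - (a0 lam : ℂ) * z.2 ^ 2, z.2) z).re ∧
      (z ≠ 0 → 0 < (inn ((lam : ℂ) * z.1 - (a0 lam : ℂ) * z.2 ^ 2, z.2) z).re) := by
  obtain ⟨a, x0, ha, h0, h1', he, hle⟩ := exists_touch lam h1
  have hg := isGreatest_of h1 ha h0 h1' he hle
  have ea : a0 lam = a := hg.csSup_eq
  rw [ea]
  obtain ⟨κ, δ, hκ, hδ, hκδ, hk⟩ := real_key h1 ha h0 h1' he hle
  refine ⟨hg, κ, δ, hκ, hδ, fun z hz => ?_⟩
  have hz' : ‖z.1‖ ^ 2 + ‖z.2‖ ^ 2 < 1 := hz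
  obtain ⟨k1, k2⟩ := hk ‖z.1‖ (‖z.2‖ ^ 2) (norm_nonneg _) (sq_nonneg _) hz'
  set r := (z.2 ^ 2 * (starRingEnd ℂ) z.1).re with hr
  have hr1 : r ≤ ‖z.1‖ * ‖z.2‖ ^ 2 := by
    have := Complex.re_le_norm (z.2 ^ 2 * (starRingEnd ℂ) z.1)
    rw [norm_mul, norm_pow, Complex.norm_conj] at this
    linarith
  have e1 : (inn ((lam : ℂ) * z.1 - (a : ℂ) * z.2 ^ 2, z.2) z).re =
      lam * ‖z.1‖ ^ 2 + ‖z.2‖ ^ 2 - a * r := by
    rw [hr, Complex.sq_norm, Complex.sq_norm]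
    simp [inn, Complex.normSq_apply, pow_two]
    ring
  have e2 : ‖z.1 - κ * z.2 ^ 2‖ ^ 2 = ‖z.1‖ ^ 2 + κ ^ 2 * (‖z.2‖ ^ 2) ^ 2 - 2 * κ * r := by
    rw [hr, Complex.sq_norm, Complex.sq_norm, Complex.sq_norm]
    simp [Complex.normSq_apply, pow_two]
    ring
  have hx1 : ‖z.1‖ ≤ 1 := by nlinarith [sq_nonneg ‖z.2‖, norm_nonneg z.1]
  rw [e1, e2]
  set x := ‖z.1‖
  set s := ‖z.2‖ ^ 2
  have hx0 : 0 ≤ x := norm_nonneg _
  have hd : 0 ≤ x * s - r := by linarith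
  have c1 : 2 * κ * δ * x ≤ a := by
    have := mul_le_mul_of_nonneg_left hx1 (show 0 ≤ 2 * κ * δ by positivity)
    linarith
  have c2 := mul_le_mul_of_nonneg_right c1 hd
  refine ⟨by linarith, fun hne => ?_⟩
  have : 0 < x ^ 2 + s := by
    by_contra hc
    have h5 : x ^ 2 + s = 0 := le_antisymm (not_lt.1 hc) (by positivity)
    have h6 : x ^ 2 = 0 := by nlinarith [sq_nonneg x, sq_nonneg ‖z.2‖]
    have h7 : ‖z.2‖ ^ 2 = 0 := by linarith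
    exact hne (Prod.ext (by simpa [x] using h6) (by simpa using h7))
  have := k2 this
  have := mul_nonneg ha.le hd
  linarith

end Pool.Agent.H58.Spi
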