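import Mathlib
import Pool.Agent.H58.SpiDefs

set_option autoImplicit false

namespace Pool.Agent.H58.Spi

open Set Metric Filter Topology

lemma cubic_inv {R : ℝ} (hR : 0 < R) (e : ℂ) (he : ‖e‖ * (3 * R ^ 2) ≤ 1 / 2) :
    ∃ G : ℂ → ℂ, (∀ w, ‖w‖ < R → G (w + e * w ^ 3) = w) ∧ ∀ u, ‖u‖ ≤ R / 4 →
      ‖G u‖ < R ∧ G u + e * G u ^ 3 = u ∧ HasDerivAt G (1 + 3 * e * G u ^ 2)⁻¹ u := by
  have ap : ApproximatesLinearOn (fun w : ℂ => w + e * w ^ 3)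
      (ContinuousLinearEquiv.refl ℂ ℂ : ℂ →L[ℂ] ℂ) (ball 0 R) (1 / 2) := fun x hx y hy => by
    have hx' : ‖x‖ < R := by simpa using hx
    have hy' : ‖y‖ < R := by simpa using hy
    have e1 : x + e * x ^ 3 - (y + e * y ^ 3) - (x - y) = e * (x ^ 2 + x * y + y ^ 2) * (x - y) := by
      ring
    have e2 : ‖x ^ 2 + x * y + y ^ 2‖ ≤ 3 * R ^ 2 := by
      refine (norm_add₃_le).trans ?_
      rw [norm_pow, norm_pow, norm_mul]
      nlinarith [norm_nonneg x, norm_nonneg y, mul_le_mul hx'.le hy'.le (norm_nonneg y) hR.le]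
    simp only [ContinuousLinearEquiv.coe_refl, ContinuousLinearMap.id_apply]
    rw [e1, norm_mul, norm_mul]
    refine mul_le_mul_of_nonneg_right ?_ (norm_nonneg _)
    have := mul_le_mul_of_nonneg_left e2 (norm_nonneg e)
    push_cast
    linarith
  have hN : ‖((ContinuousLinearEquiv.refl ℂ ℂ).symm : ℂ →L[ℂ] ℂ)‖₊ = 1 := by
    simp [ContinuousLinearMap.nnnorm_id]
  have hc : Subsingleton ℂ ∨ (1 / 2 : NNReal) <
      ‖((ContinuousLinearEquiv.refl ℂ ℂ).symm : ℂ →L[ℂ] ℂ)‖₊⁻¹ := Or.inr (by rw [hN]; norm_num)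
  set E := ap.toOpenPartialHomeomorph _ _ hc isOpen_ball
  have ht : ∀ u : ℂ, ‖u‖ ≤ R / 4 → u ∈ E.target := fun u hu => by
    refine ap.closedBall_subset_target hc isOpen_ball (b := 0) (ε := R / 2) (by positivity)
      (closedBall_subset_ball (by linarith)) ?_
    rw [hN, mem_closedBall_iff_norm]
    push_cast
    simp only [ne_eq, OfNat.ofNat_ne_zero, not_false_eq_true, zero_pow, mul_zero, add_zero,
      sub_zero]
    linarith
  refine ⟨E.symm, fun w hw => E.left_inv (show w ∈ ball (0 : ℂ) R by simpa using hw),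
    fun u hu => ?_⟩
  have h2 : E.symm u ∈ ball (0 : ℂ) R := E.map_target (ht u hu)
  have h3 : ‖E.symm u‖ < R := by simpa using h2
  refine ⟨h3, E.right_inv (ht u hu), E.hasDerivAt_symm (ht u hu) ?_ ?_⟩
  · intro h0
    have h4 : 3 * e * E.symm u ^ 2 = -1 := by linear_combination h0
    have h5 := congrArg norm h4
    rw [norm_mul, norm_mul, norm_pow, norm_neg, norm_one] at h5
    have h6 : ‖(3 : ℂ)‖ = 3 := by simp
    rw [h6] at h5
    have h7 : ‖E.symm u‖ ^ 2 ≤ R ^ 2 := pow_le_pow_left₀ (norm_nonneg _) h3.le 2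
    nlinarith [norm_nonneg e]
  · have := (hasDerivAt_id' (E.symm u)).fun_add ((hasDerivAt_pow 3 (E.symm u)).const_mul e)
    refine this.congr_deriv ?_
    norm_num
    ring

lemma den_lb {R : ℝ} {e w : ℂ} (he : ‖e‖ * (3 * R ^ 2) ≤ 1 / 2) (hw : ‖w‖ ≤ R) :
    1 / 2 ≤ ‖1 + 3 * e * w ^ 2‖ := by
  have h1 : ‖3 * e * w ^ 2‖ ≤ 1 / 2 := by
    rw [norm_mul, norm_mul, norm_pow]
    have h6 : ‖(3 : ℂ)‖ = 3 := by simp
    have h7 : ‖w‖ ^ 2 ≤ R ^ 2 := pow_le_pow_left₀ (norm_nonneg _) hw 2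
    rw [h6]
    nlinarith [norm_nonneg e]
  have := norm_sub_norm_le (1 : ℂ) (-(3 * e * w ^ 2))
  rw [norm_neg, sub_neg_eq_add, norm_one] at this
  linarith

lemma norms_lt {z : ℂ × ℂ} (hz : z ∈ ball2) : ‖z.1‖ ≤ 1 ∧ ‖z.2‖ ≤ 1 := by
  have hz' : ‖z.1‖ ^ 2 + ‖z.2‖ ^ 2 < 1 := hz
  constructor <;> nlinarith [sq_nonneg ‖z.1‖, sq_nonneg ‖z.2‖, norm_nonneg z.1, norm_nonneg z.2]

lemma phi_le {κ : ℝ} (hκ : 0 ≤ κ) {z : ℂ × ℂ} (hz : z ∈ ball2) :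
    ‖z.1 - κ * z.2 ^ 2‖ ≤ 1 + κ := by
  obtain ⟨h1, h2⟩ := norms_lt hz
  refine (norm_sub_le _ _).trans ?_
  rw [norm_mul, norm_pow, Complex.norm_real, Real.norm_of_nonneg hκ]
  have : ‖z.2‖ ^ 2 ≤ 1 := pow_le_one₀ (norm_nonneg _) h2
  nlinarith

/-- The vector field. -/
noncomputable def hf (lam a κ : ℝ) (e : ℂ) (z : ℂ × ℂ) : ℂ × ℂ :=
  (((lam : ℂ) * z.1 - a * z.2 ^ 2 + e * (z.1 - κ * z.2 ^ 2) ^ 2 *
    (lam * (z.1 - κ * z.2 ^ 2) + 6 * κ * z.2 ^ 2)) / (1 + 3 * e * (z.1 - κ * z.2 ^ 2) ^ 2), z.2)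

lemma hf_NA {lam a κ δ R : ℝ} {e : ℂ} (hl0 : 0 ≤ lam) (hl : lam ≤ 2) (ha : 0 ≤ a) (hκ : 0 ≤ κ)
    (hR : 1 + κ ≤ R) (he : ‖e‖ * (3 * R ^ 2) ≤ 1 / 2)
    (he2 : ‖e‖ * (4 * (8 + 8 * κ + 3 * a)) ≤ δ)
    (hk : ∀ z ∈ ball2, δ * ‖z.1‖ * ‖z.1 - κ * z.2 ^ 2‖ ^ 2 ≤
        (inn ((lam : ℂ) * z.1 - (a : ℂ) * z.2 ^ 2, z.2) z).re ∧
      (z ≠ 0 → 0 < (inn ((lam : ℂ) * z.1 - (a : ℂ) * z.2 ^ 2, z.2) z).re)) :
    hf lam a κ e ∈ NA lam := by
  have hden : ∀ z ∈ ball2, 1 / 2 ≤ ‖1 + 3 * e * (z.1 - κ * z.2 ^ 2) ^ 2‖ := fun z hz =>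
    den_lb he ((phi_le hκ hz).trans hR)
  have hne : ∀ z ∈ ball2, 1 + 3 * e * (z.1 - κ * z.2 ^ 2) ^ 2 ≠ 0 := fun z hz h => by
    have := hden z hz
    rw [h, norm_zero] at this
    linarith
  refine ⟨fun z hz => ?_, by simp [hf], ?_, fun z hz hz0 => ?_⟩
  · have := hne z hz
    apply DifferentiableAt.differentiableWithinAt
    unfold hf
    fun_prop (disch := assumption)
  · have f1 : HasFDerivAt (fun z : ℂ × ℂ => z.1) (ContinuousLinearMap.fst ℂ ℂ ℂ) 0 := hasFDerivAt_fst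
    have f2 : HasFDerivAt (fun z : ℂ × ℂ => z.2) (ContinuousLinearMap.snd ℂ ℂ ℂ) 0 := hasFDerivAt_snd
    have f3 := f2.pow 2
    have f4 := f1.fun_sub (f3.const_mul (κ : ℂ))
    have f5 := f4.pow 2
    have n1 := ((f1.const_mul (lam : ℂ)).fun_sub (f3.const_mul (a : ℂ))).fun_add
      ((f5.const_mul e).fun_mul ((f4.const_mul (lam : ℂ)).fun_add (f3.const_mul (6 * κ : ℂ))))
    have d1 := (f5.const_mul (3 * e)).const_add 1
    have d2 := (hasDerivAt_inv (x := (1 : ℂ) + 3 * e * ((0 : ℂ × ℂ).1 - κ * (0 : ℂ × ℂ).2 ^ 2) ^ 2)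
      (by simp)).comp_hasFDerivAt (0 : ℂ × ℂ) d1
    have := (n1.fun_mul d2).prodMk f2
    refine (this.congr_fderiv ?_).congr_of_eventuallyEq (Eventually.of_forall fun z => ?_)
    · ext <;> simp [Amap]
    · simp [hf, div_eq_mul_inv]
  · obtain ⟨k1, k2⟩ := hk z hz
    have k3 := k2 hz0
    obtain ⟨n1, n2⟩ := norms_lt hz
    have hp := phi_le hκ hz
    set φ := z.1 - κ * z.2 ^ 2 with hφ
    set q := e * φ ^ 2 * (lam * φ + 6 * κ * z.2 ^ 2 - 3 * (lam * z.1 - a * z.2 ^ 2)) /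
      (1 + 3 * e * φ ^ 2) with hq
    have e1 : inn (hf lam a κ e z) z = inn ((lam : ℂ) * z.1 - (a : ℂ) * z.2 ^ 2, z.2) z +
        q * (starRingEnd ℂ) z.1 := by
      have := hne z hz
      simp only [inn, hf, hq, ← hφ, div_eq_mul_inv] at this ⊢
      have i1 := mul_inv_cancel₀ this
      linear_combination ((lam * z.1 - a * z.2 ^ 2) * (starRingEnd ℂ) z.1) * i1
    have s2 : ‖z.2 ^ 2‖ ≤ 1 := by rw [norm_pow]; exact pow_le_one₀ (norm_nonneg _) n2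
    have b1 : ‖lam * φ + 6 * κ * z.2 ^ 2 - 3 * (lam * z.1 - a * z.2 ^ 2)‖ ≤ 8 + 8 * κ + 3 * a := by
      have t1 : ‖(lam : ℂ) * φ‖ ≤ 2 * (1 + κ) := by
        rw [norm_mul, Complex.norm_real, Real.norm_of_nonneg hl0]
        exact mul_le_mul hl hp (norm_nonneg _) (by norm_num)
      have t2 : ‖(6 * κ : ℂ) * z.2 ^ 2‖ ≤ 6 * κ := by
        rw [norm_mul, norm_mul, Complex.norm_real, Real.norm_of_nonneg hκ]
        have : ‖(6 : ℂ)‖ = 6 := by simp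
        rw [this]
        exact mul_le_of_le_one_right (by positivity) s2
      have t3 : ‖(lam : ℂ) * z.1‖ ≤ 2 := by
        rw [norm_mul, Complex.norm_real, Real.norm_of_nonneg hl0]
        nlinarith [norm_nonneg z.1]
      have t4 : ‖(a : ℂ) * z.2 ^ 2‖ ≤ a := by
        rw [norm_mul, Complex.norm_real, Real.norm_of_nonneg ha]
        exact mul_le_of_le_one_right ha s2
      have t5 : ‖(3 : ℂ) * (lam * z.1 - a * z.2 ^ 2)‖ ≤ 3 * (2 + a) := by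
        rw [norm_mul]
        have : ‖(3 : ℂ)‖ = 3 := by simp
        rw [this]
        have := norm_sub_le ((lam : ℂ) * z.1) ((a : ℂ) * z.2 ^ 2)
        linarith
      have := norm_sub_le ((lam : ℂ) * φ + 6 * κ * z.2 ^ 2) (3 * (lam * z.1 - a * z.2 ^ 2))
      have := norm_add_le ((lam : ℂ) * φ) (6 * κ * z.2 ^ 2)
      linarith
    have b2 : ‖q‖ ≤ δ / 2 * ‖φ‖ ^ 2 := by
      rw [hq, norm_div, div_le_iff₀ (lt_of_lt_of_le (by norm_num) (hden z hz)), norm_mul,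
        norm_mul, norm_pow]
      have c1 := mul_le_mul_of_nonneg_left b1 (show 0 ≤ ‖e‖ * ‖φ‖ ^ 2 by positivity)
      have c2 := mul_le_mul_of_nonneg_right he2 (sq_nonneg ‖φ‖)
      have hδ : 0 ≤ δ := le_trans (by positivity) he2
      have c3 := mul_le_mul_of_nonneg_left (hden z hz) (show 0 ≤ δ / 2 * ‖φ‖ ^ 2 by positivity)
      linarith
    have b3 : -(q * (starRingEnd ℂ) z.1).re ≤ δ / 2 * ‖φ‖ ^ 2 * ‖z.1‖ := by
      have := (neg_le_abs _).trans (Complex.abs_re_le_norm (q * (starRingEnd ℂ) z.1))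
      rw [norm_mul, Complex.norm_conj] at this
      exact this.trans (mul_le_mul_of_nonneg_right b2 (norm_nonneg _))
    rw [e1, Complex.add_re]
    linarith

end Pool.Agent.H58.Spi
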