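import Mathlib
import Pool.Agent.H58.Spi1
import Pool.Agent.H58.Spi2

set_option autoImplicit false

namespace Pool.Agent.H58.Spi

open Set Metric Filter Topology Complex

lemma isOpen_ball2 : IsOpen ball2 := isOpen_lt (by fun_prop) continuous_const

lemma Amap_one (z : ℂ × ℂ) : Amap 1 z = z := by simp [Amap]

lemma dAt {h : ℂ × ℂ → ℂ × ℂ} (hh : h ∈ NA 1) {z : ℂ × ℂ} (hz : z ∈ ball2) :
    DifferentiableAt ℂ h z := hh.1.differentiableAt (isOpen_ball2.mem_nhds hz)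

lemma inn_bound {h : ℂ × ℂ → ℂ × ℂ} (hh : h ∈ NA 1) {z : ℂ × ℂ}
    (hz : ‖z.1‖ ^ 2 + ‖z.2‖ ^ 2 ≤ 1 / 2) : ‖inn (h z) z‖ ≤ 9 := by
  set N := ‖z.1‖ ^ 2 + ‖z.2‖ ^ 2 with hN
  have hN0 : 0 ≤ N := by positivity
  have hmem : ∀ ζ : ℂ, ζ ∈ ball (0 : ℂ) (4 / 3) → ζ • z ∈ ball2 := fun ζ hζ => by
    have h1 : ‖ζ‖ < 4 / 3 := by simpa using hζ
    show ‖(ζ • z).1‖ ^ 2 + ‖(ζ • z).2‖ ^ 2 < 1
    simp only [Prod.smul_fst, Prod.smul_snd, norm_smul, mul_pow]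
    have h2 : ‖ζ‖ ^ 2 ≤ (4 / 3) ^ 2 := pow_le_pow_left₀ (norm_nonneg _) h1.le 2
    have := mul_le_mul h2 hz hN0 (by norm_num)
    nlinarith
  set g : ℂ → ℂ := fun ζ => inn (h (ζ • z)) z with hg
  have gd : DifferentiableOn ℂ g (ball 0 (4 / 3)) := fun ζ hζ => by
    have h1 : DifferentiableAt ℂ (fun ζ : ℂ => h (ζ • z)) ζ :=
      (dAt hh (hmem ζ hζ)).comp ζ (by fun_prop)
    exact ((h1.fst.mul_const _).add (h1.snd.mul_const _)).differentiableWithinAt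
  have g0 : g 0 = 0 := by simp [hg, hh.2.1, inn]
  have g1 : HasDerivAt g N 0 := by
    have h1 : HasDerivAt (fun ζ : ℂ => h (ζ • z)) z 0 := by
      have h2 : HasFDerivAt h (Amap 1) ((0 : ℂ) • z) := by simpa using hh.2.2.1
      have := h2.comp_hasDerivAt (0 : ℂ) ((hasDerivAt_id' (0 : ℂ)).smul_const z)
      exact this.congr_deriv (by simp [Amap_one])
    have h3 := (hasFDerivAt_fst (𝕜 := ℂ) (p := h ((0 : ℂ) • z))).comp_hasDerivAt (0 : ℂ) h1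
    have h4 := (hasFDerivAt_snd (𝕜 := ℂ) (p := h ((0 : ℂ) • z))).comp_hasDerivAt (0 : ℂ) h1
    refine ((h3.mul_const ((starRingEnd ℂ) z.1)).add
      (h4.mul_const ((starRingEnd ℂ) z.2))).congr_deriv ?_
    simp [hN, mul_conj, normSq_eq_norm_sq]
  have pd : DifferentiableOn ℂ (fun ζ => -dslope g 0 ζ) (ball 0 (4 / 3)) :=
    ((differentiableOn_dslope (ball_mem_nhds _ (by norm_num))).2 gd).neg
  have p0 : dslope g 0 0 = N := by rw [dslope_same, g1.deriv]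
  have pm : MapsTo (fun ζ => -dslope g 0 ζ) (ball 0 (4 / 3)) {w | w.re ≤ 1 / 2} := fun ζ hζ => by
    show (-dslope g 0 ζ).re ≤ 1 / 2
    rcases eq_or_ne ζ 0 with rfl | h0
    · rw [p0]; simp; linarith
    · have h1 : 0 ≤ (inn (h (ζ • z)) (ζ • z)).re := by
        rcases eq_or_ne (ζ • z) 0 with h2 | h2
        · simp [h2, inn]
        · exact (hh.2.2.2 _ (hmem ζ hζ) h2).le
      have h2 : inn (h (ζ • z)) (ζ • z) = ((‖ζ‖ ^ 2 : ℝ) : ℂ) * dslope g 0 ζ := by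
        rw [dslope_of_ne _ h0, slope_def_field, g0, ← normSq_eq_norm_sq, ← mul_conj]
        simp only [hg, inn, Prod.smul_fst, Prod.smul_snd, smul_eq_mul, map_mul, sub_zero]
        field_simp
      rw [h2, re_ofReal_mul] at h1
      have h3 : 0 < ‖ζ‖ ^ 2 := by positivity
      have := nonneg_of_mul_nonneg_right h1 h3
      have h4 := (mul_nonneg_iff_of_pos_left h3).1 h1
      simp only [neg_re]; linarith
  have := borelCaratheodory (by norm_num) pd pm (by norm_num)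
    (show (1 : ℂ) ∈ ball (0 : ℂ) (4 / 3) by simp; norm_num)
  rw [p0, dslope_of_ne _ one_ne_zero, slope_def_field, g0] at this
  simp only [hg, one_smul, sub_zero, div_one, norm_neg, norm_one, norm_real,
    Real.norm_of_nonneg hN0] at this
  have e : 2 * (1 / 2) * 1 / (4 / 3 - 1) + N * (4 / 3 + 1) / (4 / 3 - 1) = 3 + 7 * N := by ring
  linarith

lemma sep_bound {P Q : ℂ × ℂ → ℂ} (hP : ∀ z ∈ ball2, DifferentiableAt ℂ P z)
    (hQ : ∀ z ∈ ball2, DifferentiableAt ℂ Q z)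
    (hb : ∀ z : ℂ × ℂ, ‖z.1‖ ^ 2 + ‖z.2‖ ^ 2 ≤ 1 / 2 →
      ‖P z * (starRingEnd ℂ) z.1 + Q z * (starRingEnd ℂ) z.2‖ ≤ 9)
    (z : ℂ × ℂ) (h1 : ‖z.1‖ ≤ 1 / 4) (h2 : ‖z.2‖ ≤ 1 / 4) : ‖P z‖ ≤ 36 := by
  have s2 : ‖z.2‖ ^ 2 ≤ (1 / 4) ^ 2 := pow_le_pow_left₀ (norm_nonneg _) h2 2
  have key : ∀ x : ℝ, 1 / 4 ≤ x → x ≤ 1 / 2 →
      ‖P z * (x : ℂ) ^ 2 + z.1 * (starRingEnd ℂ) z.2 * Q z‖ ≤ 9 * x := fun x hx1 hx2 => by
    have hx0 : 0 < x := by linarith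
    have hm : ∀ ζ : ℂ, ‖ζ‖ ≤ x → ‖ζ‖ ^ 2 + ‖z.2‖ ^ 2 ≤ 1 / 2 := fun ζ hζ => by
      have : ‖ζ‖ ^ 2 ≤ (1 / 2) ^ 2 := pow_le_pow_left₀ (norm_nonneg _) (hζ.trans hx2) 2
      linarith
    have hd : DifferentiableOn ℂ (fun ζ : ℂ => P (ζ, z.2) * (x : ℂ) ^ 2 +
        ζ * (starRingEnd ℂ) z.2 * Q (ζ, z.2)) (closure (ball 0 x)) := fun ζ hζ => by
      rw [closure_ball _ hx0.ne'] at hζ
      have hz : (ζ, z.2) ∈ ball2 := lt_of_le_of_lt (hm ζ (by simpa using hζ)) (by norm_num)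
      have a1 : DifferentiableAt ℂ (fun ζ : ℂ => P (ζ, z.2)) ζ := (hP _ hz).comp ζ (by fun_prop)
      have a2 : DifferentiableAt ℂ (fun ζ : ℂ => Q (ζ, z.2)) ζ := (hQ _ hz).comp ζ (by fun_prop)
      apply DifferentiableAt.differentiableWithinAt
      fun_prop
    refine norm_le_of_forall_mem_frontier_norm_le (f := fun ζ : ℂ => P (ζ, z.2) * (x : ℂ) ^ 2 +
        ζ * (starRingEnd ℂ) z.2 * Q (ζ, z.2)) isBounded_ball hd.diffContOnCl (fun ζ hζ => ?_)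
      (z := z.1) (by rw [closure_ball _ hx0.ne']; simpa using h1.trans hx1)
    rw [frontier_ball _ hx0.ne'] at hζ
    have hζ' : ‖ζ‖ = x := by simpa using hζ
    have e1 : P (ζ, z.2) * (x : ℂ) ^ 2 + ζ * (starRingEnd ℂ) z.2 * Q (ζ, z.2) =
        ζ * (P (ζ, z.2) * (starRingEnd ℂ) ζ + Q (ζ, z.2) * (starRingEnd ℂ) z.2) := by
      have : (x : ℂ) ^ 2 = ζ * (starRingEnd ℂ) ζ := by
        rw [mul_conj, normSq_eq_norm_sq, hζ']; push_cast; ring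
      rw [this]; ring
    rw [e1, norm_mul, hζ', mul_comm]
    exact mul_le_mul_of_nonneg_right (hb (ζ, z.2) (hm ζ hζ'.le)) hx0.le
  have k1 := key (1 / 2) (by norm_num) le_rfl
  have k2 := key (1 / 4) le_rfl (by norm_num)
  have k3 := norm_sub_le (P z * ((1 / 2 : ℝ) : ℂ) ^ 2 + z.1 * (starRingEnd ℂ) z.2 * Q z)
    (P z * ((1 / 4 : ℝ) : ℂ) ^ 2 + z.1 * (starRingEnd ℂ) z.2 * Q z)
  have e : P z * ((1 / 2 : ℝ) : ℂ) ^ 2 + z.1 * (starRingEnd ℂ) z.2 * Q z -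
      (P z * ((1 / 4 : ℝ) : ℂ) ^ 2 + z.1 * (starRingEnd ℂ) z.2 * Q z) =
      P z * ((3 / 16 : ℝ) : ℂ) := by push_cast; ring
  rw [e, norm_mul, norm_real, Real.norm_of_nonneg (by norm_num)] at k3
  linarith

lemma mem_of_small {z : ℂ × ℂ} (hz : ‖z‖ ≤ 1 / 4) : z ∈ ball2 := by
  have h1 : ‖z.1‖ ^ 2 ≤ (1 / 4) ^ 2 := pow_le_pow_left₀ (norm_nonneg _) ((norm_fst_le z).trans hz) 2
  have h2 : ‖z.2‖ ^ 2 ≤ (1 / 4) ^ 2 := pow_le_pow_left₀ (norm_nonneg _) ((norm_snd_le z).trans hz) 2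
  show ‖z.1‖ ^ 2 + ‖z.2‖ ^ 2 < 1
  linarith

lemma h_bound {h : ℂ × ℂ → ℂ × ℂ} (hh : h ∈ NA 1) {z : ℂ × ℂ} (hz : ‖z‖ ≤ 1 / 4) :
    ‖h z‖ ≤ 36 := by
  have h1 := (norm_fst_le z).trans hz
  have h2 := (norm_snd_le z).trans hz
  have sw : ∀ w : ℂ × ℂ, w ∈ ball2 → w.swap ∈ ball2 := fun w hw => by
    have : ‖w.1‖ ^ 2 + ‖w.2‖ ^ 2 < 1 := hw
    show ‖w.2‖ ^ 2 + ‖w.1‖ ^ 2 < 1
    linarith
  have sd : ∀ w : ℂ × ℂ, w ∈ ball2 → DifferentiableAt ℂ (fun w : ℂ × ℂ => h w.swap) w :=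
    fun w hw => (dAt hh (sw w hw)).comp w (differentiableAt_snd.prodMk differentiableAt_fst)
  rw [Prod.norm_def, max_le_iff]
  refine ⟨sep_bound (P := fun z => (h z).1) (Q := fun z => (h z).2)
    (fun w hw => (dAt hh hw).fst) (fun w hw => (dAt hh hw).snd) (fun w hw => inn_bound hh hw)
    z h1 h2, ?_⟩
  refine sep_bound (P := fun z => (h z.swap).2) (Q := fun z => (h z.swap).1)
    (fun w hw => (sd w hw).snd) (fun w hw => (sd w hw).fst) (fun w hw => ?_) z.swap h2 h1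
  have := inn_bound hh (z := w.swap) (by simpa [add_comm] using hw)
  simpa [inn, add_comm] using this

lemma h_sq {h : ℂ × ℂ → ℂ × ℂ} (hh : h ∈ NA 1) {z : ℂ × ℂ} (hz : ‖z‖ < 1 / 4) :
    ‖h z - z‖ ≤ 600 * ‖z‖ ^ 2 := by
  have := dist_le_mul_div_pow_of_mapsTo_ball_of_isLittleO (f := fun z => h z - z) (c := 0)
    (z := z) (R₁ := 1 / 4) (R₂ := 37) (n := 1)
    (fun w hw => ((dAt hh (mem_of_small (le_of_lt (by simpa using hw)))).sub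
      differentiableAt_id).differentiableWithinAt)
    (fun w hw => by
      have h1 : ‖w‖ < 1 / 4 := by simpa using hw
      have := h_bound hh h1.le
      have := norm_sub_le (h w) w
      simp only [hh.2.1, sub_zero, mem_closedBall, dist_zero_right]
      linarith)
    (by
      have := hh.2.2.1.isLittleO.norm_right
      simpa only [Amap_one, hh.2.1, sub_zero, pow_one] using this) (by simpa using hz)
  simp only [hh.2.1, sub_zero, dist_zero_right] at this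
  refine this.trans ?_
  nlinarith [sq_nonneg ‖z‖]

lemma h_mixed {h : ℂ × ℂ → ℂ × ℂ} (hh : h ∈ NA 1) {z : ℂ × ℂ} (hz : ‖z‖ < 1 / 8) :
    ‖(h z).1 - z.1 - (h (0, z.2)).1‖ ≤ 2400 * ‖z‖ * ‖z.1‖ := by
  rcases eq_or_ne z 0 with rfl | h0
  · have : ((0, 0) : ℂ × ℂ) = 0 := rfl
    simp [this, hh.2.1]
  have hp : 0 < ‖z‖ := norm_pos_iff.2 h0
  have hb : ∀ ζ : ℂ, ‖ζ‖ < 2 * ‖z‖ → ‖((ζ, z.2) : ℂ × ℂ)‖ < 2 * ‖z‖ := fun ζ hζ => by
    rw [Prod.norm_mk, max_lt_iff]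
    exact ⟨hζ, by linarith [norm_snd_le z]⟩
  have hb2 : ∀ ζ : ℂ, ‖ζ‖ < 2 * ‖z‖ → ‖(h (ζ, z.2)).1 - ζ‖ ≤ 2400 * ‖z‖ ^ 2 := fun ζ hζ => by
    have a1 := h_sq hh (z := (ζ, z.2)) (by linarith [hb ζ hζ])
    have a2 := norm_fst_le (h (ζ, z.2) - (ζ, z.2))
    have a3 := pow_le_pow_left₀ (norm_nonneg _) (hb ζ hζ).le 2
    simp only [Prod.fst_sub] at a2
    linarith
  have := dist_le_div_mul_dist_of_mapsTo_ball (f := fun ζ : ℂ => (h (ζ, z.2)).1 - ζ) (c := 0)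
    (z := z.1) (R₁ := 2 * ‖z‖) (R₂ := 4800 * ‖z‖ ^ 2)
    (fun ζ hζ => by
      have a1 : DifferentiableAt ℂ (fun ζ : ℂ => h (ζ, z.2)) ζ :=
        (dAt hh (mem_of_small (by linarith [hb ζ (by simpa using hζ)]))).comp ζ (by fun_prop)
      exact (a1.fst.sub differentiableAt_id).differentiableWithinAt)
    (fun ζ hζ => by
      rw [mem_closedBall, dist_eq_norm]
      have a1 := hb2 ζ (by simpa using hζ)
      have a2 := hb2 0 (by simpa using hp)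
      exact (norm_sub_le _ _).trans (by linarith))
    (by simpa using (by linarith [norm_fst_le z] : ‖z.1‖ < 2 * ‖z‖))
  rw [dist_eq_norm, dist_zero_right, sub_zero] at this
  refine this.trans (le_of_eq ?_)
  field_simp
  ring

lemma h_axis {h : ℂ × ℂ → ℂ × ℂ} (hh : h ∈ NA 1) : ∃ q : ℂ, ∀ ζ : ℂ, ‖ζ‖ < 1 / 4 →
    ‖(h (0, ζ)).1 - q * ζ ^ 2‖ ≤ 4608 * ‖ζ‖ ^ 3 := by
  set H : ℂ → ℂ := fun ζ => (h (0, ζ)).1 with hH
  have hs : ∀ ζ : ℂ, ζ ∈ ball (0 : ℂ) (1 / 4) → ‖((0, ζ) : ℂ × ℂ)‖ ≤ 1 / 4 := fun ζ hζ => by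
    have : ‖ζ‖ < 1 / 4 := by simpa using hζ
    rw [Prod.norm_mk, max_le_iff]; exact ⟨by simp, this.le⟩
  have d0 : DifferentiableOn ℂ H (ball 0 (1 / 4)) := fun ζ hζ => by
    have a1 : DifferentiableAt ℂ (fun ζ : ℂ => h (0, ζ)) ζ :=
      (dAt hh (mem_of_small (hs ζ hζ))).comp ζ (by fun_prop)
    exact a1.fst.differentiableWithinAt
  have H0 : H 0 = 0 := by
    have : ((0, 0) : ℂ × ℂ) = 0 := rfl
    simp [hH, this, hh.2.1]
  have H1 : deriv H 0 = 0 := by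
    have h2 : HasFDerivAt h (Amap 1) ((0 : ℂ), (0 : ℂ)) := hh.2.2.1
    have h3 := h2.comp_hasDerivAt (0 : ℂ)
      ((hasDerivAt_const (0 : ℂ) (0 : ℂ)).prodMk (hasDerivAt_id' (0 : ℂ)))
    have h4 := (hasFDerivAt_fst (𝕜 := ℂ) (p := h (0, 0))).comp_hasDerivAt (0 : ℂ) h3
    have h5 : HasDerivAt H 0 0 := h4.congr_deriv (by simp [Amap_one])
    exact h5.deriv
  have hn : ball (0 : ℂ) (1 / 4) ∈ 𝓝 (0 : ℂ) := ball_mem_nhds _ (by norm_num)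
  have d1 := (differentiableOn_dslope hn).2 d0
  have d2 := (differentiableOn_dslope hn).2 d1
  have b1 : ∀ ζ ∈ ball (0 : ℂ) (1 / 4), ‖dslope H 0 ζ‖ ≤ 36 / (1 / 4) := fun ζ hζ =>
    norm_dslope_le_div_of_mapsTo_ball d0 (fun w hw => by
      rw [H0, mem_closedBall, dist_zero_right]
      exact (norm_fst_le _).trans (h_bound hh (hs w hw))) hζ
  have b2 : ∀ ζ ∈ ball (0 : ℂ) (1 / 4), ‖dslope (dslope H 0) 0 ζ‖ ≤ 36 / (1 / 4) / (1 / 4) :=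
    fun ζ hζ => norm_dslope_le_div_of_mapsTo_ball d1 (fun w hw => by
      rw [dslope_same, H1, mem_closedBall, dist_zero_right]
      exact b1 w hw) hζ
  refine ⟨dslope (dslope H 0) 0 0, fun ζ hζ => ?_⟩
  have hζ' : ζ ∈ ball (0 : ℂ) (1 / 4) := by simpa using hζ
  have b3 := dist_le_div_mul_dist_of_mapsTo_ball (R₂ := 1152) d2 (fun w hw => by
      rw [mem_closedBall, dist_eq_norm]
      have a1 := b2 w hw
      have a2 := b2 0 (mem_of_mem_nhds hn)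
      exact (norm_sub_le _ _).trans (by linarith)) hζ'
  have e1 := sub_smul_dslope H 0 ζ
  have e2 := sub_smul_dslope (dslope H 0) 0 ζ
  rw [dslope_same, H1] at e2
  rw [H0] at e1
  simp only [sub_zero, smul_eq_mul] at e1 e2
  have e3 : H ζ - dslope (dslope H 0) 0 0 * ζ ^ 2 =
      ζ ^ 2 * (dslope (dslope H 0) 0 ζ - dslope (dslope H 0) 0 0) := by
    rw [← e1, ← e2]; ring
  rw [dist_eq_norm, dist_zero_right] at b3
  show ‖H ζ - _‖ ≤ _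
  rw [e3, norm_mul, norm_pow]
  have := mul_le_mul_of_nonneg_left b3 (sq_nonneg ‖ζ‖)
  linarith

end Pool.Agent.H58.Spi
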