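import Mathlib
import Pool.Agent.H58.Spi4

set_option autoImplicit false

namespace Pool.Agent.H58.Spi

open Set Metric Filter Topology Complex MeasureTheory

lemma re_nonneg_circle {ψ : ℂ → ℂ} {c : ℂ} {s : Set ℂ} (hs : IsOpen s) (h1 : closedBall 0 1 ⊆ s)
    (hd : DifferentiableOn ℂ ψ (s \ {0})) (hc : Tendsto ψ (𝓝[≠] 0) (𝓝 c))
    (hp : ∀ ζ, ‖ζ‖ = 1 → 0 ≤ (ψ ζ).re) : 0 ≤ c.re := by
  have h2 : DifferentiableOn ℂ (Function.update ψ 0 c) s := by
    refine (differentiableOn_compl_singleton_and_continuousAt_iff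
      (hs.mem_nhds (h1 (by simp)))).1 ⟨hd.congr fun x hx => ?_, continuousAt_update_same.2 hc⟩
    exact Function.update_of_ne hx.2 _ _
  have h3 : DifferentiableOn ℂ (fun ζ => cexp (-Function.update ψ 0 c ζ)) (closure (ball 0 1)) := by
    rw [closure_ball _ one_ne_zero]
    exact (h2.mono h1).neg.cexp
  have := norm_le_of_forall_mem_frontier_norm_le isBounded_ball h3.diffContOnCl (C := 1)
    (fun ζ hζ => by
      rw [frontier_ball _ one_ne_zero] at hζ
      have h4 : ‖ζ‖ = 1 := by simpa using hζ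
      have h5 : ζ ≠ 0 := by rintro rfl; simp at h4
      rw [Function.update_of_ne h5, norm_exp, Real.exp_le_one_iff, neg_re]
      linarith [hp ζ h4]) (z := 0) (subset_closure (by simp))
  rw [Function.update_self, norm_exp, Real.exp_le_one_iff, neg_re] at this
  linarith

lemma shear {h : ℂ × ℂ → ℂ × ℂ} (hh : h ∈ NA 1) {q : ℂ} (hq : ∀ ζ : ℂ, ‖ζ‖ < 1 / 4 →
    ‖(h (0, ζ)).1 - q * ζ ^ 2‖ ≤ 4608 * ‖ζ‖ ^ 3) {x y : ℝ} (hx : 0 ≤ x) (hy : 0 ≤ y)
    (hxy : x ^ 2 + y ^ 2 < 1) : 0 ≤ x ^ 2 + y ^ 2 - ‖q‖ * x * y ^ 2 := by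
  obtain ⟨u, hu1, hu2⟩ : ∃ u : ℂ, ‖u‖ = 1 ∧ q * (starRingEnd ℂ) u = -‖q‖ := by
    rcases eq_or_ne q 0 with rfl | h0
    · exact ⟨1, by simp, by simp⟩
    · have h1 : (‖q‖ : ℂ) ≠ 0 := by simpa using h0
      refine ⟨-q / ‖q‖, by simp [h0], ?_⟩
      rw [map_div₀, map_neg, conj_ofReal, mul_div_assoc', mul_neg, mul_conj, normSq_eq_norm_sq]
      push_cast
      field_simp
  have hu3 : u * (starRingEnd ℂ) u = 1 := by rw [mul_conj, normSq_eq_norm_sq, hu1]; simp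
  have hx1 : x ≤ 1 := by nlinarith [sq_nonneg y]
  have hy1 : y ≤ 1 := by nlinarith [sq_nonneg x]
  set Z : ℂ → ℂ × ℂ := fun ζ => (x * u * ζ ^ 2, y * ζ) with hZ
  have Z1 : ∀ ζ, ‖(Z ζ).1‖ = x * ‖ζ‖ ^ 2 := fun ζ => by
    simp [hZ, hu1, abs_of_nonneg hx]
  have Z2 : ∀ ζ, ‖(Z ζ).2‖ = y * ‖ζ‖ := fun ζ => by simp [hZ, abs_of_nonneg hy]
  have Zd : Differentiable ℂ Z := by simp only [hZ]; fun_prop
  have := re_nonneg_circle (ψ := fun ζ => ((h (Z ζ)).1 * (x * (starRingEnd ℂ) u) +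
    ζ * y * (h (Z ζ)).2) / ζ ^ 2) (c := ((x ^ 2 + y ^ 2 - ‖q‖ * x * y ^ 2 : ℝ) : ℂ))
    (s := Z ⁻¹' ball2) (isOpen_ball2.preimage Zd.continuous) (fun ζ hζ => ?_) (fun ζ hζ => ?_) ?_
    (fun ζ hζ => ?_)
  · rwa [ofReal_re] at this
  · have h1 : ‖ζ‖ ≤ 1 := by simpa using hζ
    show ‖(Z ζ).1‖ ^ 2 + ‖(Z ζ).2‖ ^ 2 < 1
    rw [Z1, Z2]
    have a1 : x * ‖ζ‖ ^ 2 ≤ x := mul_le_of_le_one_right hx (pow_le_one₀ (norm_nonneg _) h1)
    have a2 : y * ‖ζ‖ ≤ y := mul_le_of_le_one_right hy h1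
    have a3 := pow_le_pow_left₀ (by positivity) a1 2
    have a4 := pow_le_pow_left₀ (by positivity) a2 2
    linarith
  · have a1 : DifferentiableAt ℂ (fun ζ => h (Z ζ)) ζ := (dAt hh hζ.1).comp ζ (Zd ζ)
    exact (((a1.fst.mul_const _).add ((differentiableAt_id.mul_const _).mul a1.snd)).div
      (differentiableAt_id.pow 2) (pow_ne_zero 2 (show ζ ≠ 0 from hζ.2))).differentiableWithinAt
  · rw [tendsto_iff_norm_sub_tendsto_zero]
    have t1 : Tendsto (fun ζ : ℂ => 7608 * ‖ζ‖) (𝓝[≠] 0) (𝓝 0) := by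
      have : Continuous fun ζ : ℂ => 7608 * ‖ζ‖ := by fun_prop
      simpa using (this.tendsto 0).mono_left nhdsWithin_le_nhds
    refine squeeze_zero' (Eventually.of_forall fun _ => norm_nonneg _) ?_ t1
    filter_upwards [self_mem_nhdsWithin, mem_nhdsWithin_of_mem_nhds
      (ball_mem_nhds (0 : ℂ) (by norm_num : (0 : ℝ) < 1 / 8))] with ζ h0 h8
    have h0' : ζ ≠ 0 := h0
    have h8' : ‖ζ‖ < 1 / 8 := by simpa using h8
    have hn := norm_nonneg ζ
    have b1 : ‖(Z ζ).1‖ ≤ ‖ζ‖ ^ 2 := by rw [Z1]; exact mul_le_of_le_one_left (sq_nonneg _) hx1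
    have b2 : ‖(Z ζ).2‖ ≤ ‖ζ‖ := by rw [Z2]; exact mul_le_of_le_one_left hn hy1
    have b3 : ‖Z ζ‖ ≤ ‖ζ‖ := by
      rw [Prod.norm_def, max_le_iff]
      exact ⟨by nlinarith, b2⟩
    have c1 := h_mixed hh (z := Z ζ) (by linarith)
    have c2 := hq (Z ζ).2 (by linarith)
    have c3 := (norm_snd_le _).trans (h_sq hh (z := Z ζ) (by linarith))
    set e1 := (h (Z ζ)).1 - (Z ζ).1 - (h (0, (Z ζ).2)).1 with he1
    set e2 := (h (0, (Z ζ).2)).1 - q * (Z ζ).2 ^ 2 with he2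
    set e3 := (h (Z ζ) - Z ζ).2 with he3
    have d1 : ‖e1‖ ≤ 2400 * ‖ζ‖ ^ 3 := by
      have := mul_le_mul b3 b1 (norm_nonneg _) hn
      linarith
    have d2 : ‖e2‖ ≤ 4608 * ‖ζ‖ ^ 3 := by
      have := pow_le_pow_left₀ (norm_nonneg _) b2 3
      linarith
    have d3 : ‖e3‖ ≤ 600 * ‖ζ‖ ^ 2 := by
      have := pow_le_pow_left₀ (norm_nonneg _) b3 2
      linarith
    have e : ((h (Z ζ)).1 * (x * (starRingEnd ℂ) u) + ζ * y * (h (Z ζ)).2) / ζ ^ 2 -
        ((x ^ 2 + y ^ 2 - ‖q‖ * x * y ^ 2 : ℝ) : ℂ) =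
        ((e1 + e2) * (x * (starRingEnd ℂ) u) + ζ * y * e3) / ζ ^ 2 := by
      simp only [he1, he2, he3, Prod.snd_sub, hZ]
      push_cast
      field_simp
      linear_combination (x ^ 2 * ζ ^ 2) * hu3 + (x * y ^ 2 * ζ ^ 2) * hu2
    rw [e, norm_div, norm_pow, div_le_iff₀ (by positivity)]
    have f1 : ‖(e1 + e2) * (x * (starRingEnd ℂ) u)‖ ≤ 7008 * ‖ζ‖ ^ 3 := by
      rw [norm_mul, norm_mul, norm_conj, hu1, norm_real, Real.norm_of_nonneg hx, mul_one]
      have := norm_add_le e1 e2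
      have := mul_le_of_le_one_right (norm_nonneg (e1 + e2)) hx1
      linarith
    have f2 : ‖ζ * y * e3‖ ≤ 600 * ‖ζ‖ ^ 3 := by
      rw [norm_mul, norm_mul, norm_real, Real.norm_of_nonneg hy]
      have := mul_le_mul (mul_le_of_le_one_right hn hy1) d3 (norm_nonneg _) hn
      linarith
    have := norm_add_le ((e1 + e2) * (x * (starRingEnd ℂ) u)) (ζ * y * e3)
    linarith
  · have h0 : ζ ≠ 0 := by rintro rfl; simp at hζ
    have h1 : (starRingEnd ℂ) ζ = ζ⁻¹ := by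
      have : ζ * (starRingEnd ℂ) ζ = 1 := by rw [mul_conj, normSq_eq_norm_sq, hζ]; simp
      exact eq_inv_of_mul_eq_one_right this
    have e : ((h (Z ζ)).1 * (x * (starRingEnd ℂ) u) + ζ * y * (h (Z ζ)).2) / ζ ^ 2 =
        inn (h (Z ζ)) (Z ζ) := by
      simp only [inn, hZ, map_mul, map_pow, conj_ofReal, h1]
      field_simp
    rw [e]
    rcases eq_or_ne (Z ζ) 0 with h2 | h2
    · simp [h2, inn]
    · refine (hh.2.2.2 _ ?_ h2).le
      show ‖(Z ζ).1‖ ^ 2 + ‖(Z ζ).2‖ ^ 2 < 1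
      rw [Z1, Z2, hζ]; simpa using hxy

lemma h_first {h : ℂ × ℂ → ℂ × ℂ} (hh : h ∈ NA 1) {z : ℂ × ℂ} (hz : ‖z‖ < 1 / 8) :
    ‖(h z).1 - z.1‖ ≤ a0 1 * ‖z.2‖ ^ 2 + 4608 * ‖z.2‖ ^ 3 + 2400 * ‖z‖ * ‖z.1‖ := by
  obtain ⟨q, hq⟩ := h_axis hh
  have hg := (cx_key 1 le_rfl).1
  have hqa : ‖q‖ ≤ a0 1 := by
    rcases (norm_nonneg q).eq_or_lt with h0 | h0
    · rw [← h0]; exact hg.1.1.le
    refine hg.2 ⟨h0, fun x y hx hy hxy => ?_⟩
    have t1 : Tendsto (fun r : ℝ => (r * x) ^ 2 + (r * y) ^ 2 - ‖q‖ * (r * x) * (r * y) ^ 2)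
        (𝓝[<] 1) (𝓝 ((1 * x) ^ 2 + (1 * y) ^ 2 - ‖q‖ * (1 * x) * (1 * y) ^ 2)) :=
      (Continuous.tendsto (by fun_prop) 1).mono_left nhdsWithin_le_nhds
    have := ge_of_tendsto t1 (by
      filter_upwards [Ioo_mem_nhdsLT (zero_lt_one' ℝ)] with r hr
      refine shear hh hq (mul_nonneg hr.1.le hx) (mul_nonneg hr.1.le hy) ?_
      have h2 : r ^ 2 < 1 := by nlinarith [hr.1, hr.2]
      have h3 := mul_le_of_le_one_right (sq_nonneg r) hxy
      nlinarith)
    simpa using this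
  have c1 := h_mixed hh hz
  have c2 := hq z.2 (by linarith [norm_snd_le z])
  have e : (h z).1 - z.1 = ((h z).1 - z.1 - (h (0, z.2)).1) + ((h (0, z.2)).1 - q * z.2 ^ 2) +
    q * z.2 ^ 2 := by ring
  have c3 : ‖q * z.2 ^ 2‖ ≤ a0 1 * ‖z.2‖ ^ 2 := by
    rw [norm_mul, norm_pow]; exact mul_le_mul_of_nonneg_right hqa (sq_nonneg _)
  rw [e]
  exact norm_add₃_le.trans (by linarith)

lemma ibp_real {k : ℝ → ℝ} {t : ℝ} (hk : IntervalIntegrable k volume 0 t) :
    ∫ s in (0 : ℝ)..t, Real.exp s * k s = Real.exp t * (∫ s in (0 : ℝ)..t, k s) -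
      ∫ s in (0 : ℝ)..t, Real.exp s * ∫ u in (0 : ℝ)..s, k u := by
  have := AbsolutelyContinuousOnInterval.integral_mul_deriv_eq_deriv_mul (f := Real.exp)
    (a := 0) (b := t) (Real.contDiff_exp.contDiffOn.absolutelyContinuousOnInterval)
    (hk.absolutelyContinuousOnInterval_intervalIntegral (c := 0) left_mem_uIcc)
  simp only [intervalIntegral.integral_same, mul_zero, sub_zero, Real.deriv_exp] at this
  rw [← this]
  apply intervalIntegral.integral_congr_ae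
  filter_upwards [hk.ae_hasDerivAt_integral] with s hs hs'
  rw [(hs (uIoc_subset_uIcc hs') 0 left_mem_uIcc).deriv]

lemma ibp {E : Type} [NormedAddCommGroup E] [NormedSpace ℝ E] [CompleteSpace E] {k v : ℝ → E}
    {z : E} {t : ℝ} (ht : 0 ≤ t) (hk : IntervalIntegrable k volume 0 t)
    (hv : ∀ s ∈ Icc 0 t, v s = z - ∫ u in (0 : ℝ)..s, k u) :
    Real.exp t • v t = z - ∫ s in (0 : ℝ)..t, Real.exp s • (k s - v s) := by
  have vc : ContinuousOn v (uIcc 0 t) := by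
    refine ((continuousOn_const (c := z)).sub (intervalIntegral.continuousOn_primitive_interval' hk
      left_mem_uIcc)).congr fun s hs => ?_
    rw [uIcc_of_le ht] at hs
    exact hv s hs
  have i1 : IntervalIntegrable (fun s => Real.exp s • (k s - v s)) volume 0 t :=
    (hk.sub vc.intervalIntegrable).continuousOn_smul Real.continuous_exp.continuousOn
  rw [SeparatingDual.eq_iff_forall_dual_eq (R := ℝ)]
  intro g
  have gk : IntervalIntegrable (fun s => g (k s)) volume 0 t :=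
    ⟨g.integrable_comp hk.1, g.integrable_comp hk.2⟩
  have gv : ∀ s ∈ Icc 0 t, g (v s) = g z - ∫ u in (0 : ℝ)..s, g (k u) := fun s hs => by
    rw [hv s hs, map_sub, g.intervalIntegral_comp_comm]
    refine hk.mono_set ?_
    rw [uIcc_of_le ht, uIcc_of_le hs.1]
    exact Icc_subset_Icc_right hs.2
  have pc : ContinuousOn (fun s => ∫ u in (0 : ℝ)..s, g (k u)) (uIcc 0 t) :=
    intervalIntegral.continuousOn_primitive_interval' gk left_mem_uIcc
  have j1 : IntervalIntegrable (fun s => Real.exp s * g (k s)) volume 0 t :=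
    gk.continuousOn_mul Real.continuous_exp.continuousOn
  have j2 : IntervalIntegrable (fun s => Real.exp s * ∫ u in (0 : ℝ)..s, g (k u)) volume 0 t :=
    (Real.continuous_exp.continuousOn.mul pc).intervalIntegrable
  have j3 : IntervalIntegrable (fun s => Real.exp s * g z) volume 0 t :=
    (Real.continuous_exp.mul continuous_const).intervalIntegrable _ _
  have e : ∫ s in (0 : ℝ)..t, g (Real.exp s • (k s - v s)) = ∫ s in (0 : ℝ)..t,
      (Real.exp s * g (k s) - Real.exp s * g z + Real.exp s * ∫ u in (0 : ℝ)..s, g (k u)) := by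
    refine intervalIntegral.integral_congr fun s hs => ?_
    rw [uIcc_of_le ht] at hs
    simp only [map_smul, map_sub, gv s hs, smul_eq_mul]
    ring
  rw [map_sub, ← g.intervalIntegral_comp_comm i1, e, intervalIntegral.integral_add (j1.sub j3) j2,
    intervalIntegral.integral_sub j1 j3, ibp_real gk, intervalIntegral.integral_mul_const,
    integral_exp, map_smul, gv t ⟨ht, le_rfl⟩]
  simp only [smul_eq_mul, Real.exp_zero]
  ring

lemma int_bound {E : Type} [NormedAddCommGroup E] [NormedSpace ℝ E] {R : ℝ → E} {C t : ℝ}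
    (ht : 0 ≤ t) (hC : 0 ≤ C) (hb : ∀ s ∈ Icc 0 t, ‖R s‖ ≤ C * Real.exp (-s)) :
    ‖∫ s in (0 : ℝ)..t, R s‖ ≤ C := by
  have := intervalIntegral.norm_integral_le_of_norm_le (μ := volume) (f := R)
    (g := fun s => C * Real.exp (-s)) ht
    (Eventually.of_forall fun s hs => hb s (Ioc_subset_Icc_self hs))
    ((by fun_prop : Continuous fun s : ℝ => C * Real.exp (-s)).intervalIntegrable _ _)
  rw [intervalIntegral.integral_const_mul, intervalIntegral.integral_comp_neg (f := Real.exp),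
    integral_exp] at this
  have h1 := Real.exp_pos (-t)
  simp only [neg_zero, Real.exp_zero] at this
  nlinarith

lemma coef_bound {h : ℝ → ℂ × ℂ → ℂ × ℂ} (hh : ∀ t, h t ∈ NA 1) {v : ℝ → ℂ × ℂ} {ζ : ℂ}
    (h0 : ζ ≠ 0) (hζ : ‖ζ‖ ≤ 1 / 10000)
    (hv : ∀ t, 0 ≤ t → IntervalIntegrable (fun s => h s (v s)) volume 0 t ∧
      v t = (0, ζ) - ∫ s in (0 : ℝ)..t, h s (v s)) (t : ℝ) (ht : 0 ≤ t) :
    ‖Real.exp t • (v t).1‖ ≤ a0 1 * ‖ζ‖ ^ 2 + (7200 * a0 1 + 12000000) * ‖ζ‖ ^ 3 := by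
  set r := ‖ζ‖ with hr
  have hr0 : 0 < r := norm_pos_iff.2 h0
  have ha : 0 < a0 1 := (cx_key 1 le_rfl).1.1.1
  have hz : ‖((0, ζ) : ℂ × ℂ)‖ = r := by simp [Prod.norm_mk, hr]
  set w : ℝ → ℂ × ℂ := fun s => Real.exp s • v s with hw
  have vw : ∀ s, v s = Real.exp (-s) • w s := fun s => by
    simp only [hw, smul_smul, ← Real.exp_add]; simp
  have vc : ∀ T, 0 ≤ T → ContinuousOn w (Icc 0 T) := fun T hT => by
    refine Real.continuous_exp.continuousOn.smul ?_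
    rw [← uIcc_of_le hT]
    refine ((continuousOn_const (c := ((0, ζ) : ℂ × ℂ))).sub
      (intervalIntegral.continuousOn_primitive_interval' (hv T hT).1
      left_mem_uIcc)).congr fun s hs => ?_
    rw [uIcc_of_le hT] at hs
    exact (hv s hs.1).2
  have small : ∀ s, 0 ≤ s → ‖w s‖ ≤ 2 * r → ‖v s‖ ≤ Real.exp (-s) * (2 * r) ∧ ‖v s‖ < 1 / 8 :=
    fun s hs h1 => by
      have e1 : Real.exp (-s) ≤ 1 := Real.exp_le_one_iff.2 (by linarith)
      have a1 : ‖v s‖ ≤ Real.exp (-s) * (2 * r) := by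
        rw [vw s, norm_smul, Real.norm_of_nonneg (Real.exp_pos _).le]
        exact mul_le_mul_of_nonneg_left h1 (Real.exp_pos _).le
      refine ⟨a1, ?_⟩
      have := mul_le_of_le_one_left (show 0 ≤ 2 * r by positivity) e1
      linarith
  have ee : ∀ s : ℝ, Real.exp s * Real.exp (-s) = 1 := fun s => by
    rw [← Real.exp_add]; simp
  have step : ∀ T, 0 ≤ T → (∀ s ∈ Icc 0 T, ‖w s‖ ≤ 2 * r) → ‖w T - (0, ζ)‖ ≤ 2400 * r ^ 2 :=
    fun T hT hb => by
      have := ibp hT (hv T hT).1 (fun s hs => (hv s hs.1).2)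
      simp only [hw]
      rw [this, sub_sub_cancel_left, norm_neg]
      refine int_bound hT (by positivity) fun s hs => ?_
      obtain ⟨a1, a2⟩ := small s hs.1 (hb s hs)
      have a3 := h_sq (hh s) (z := v s) (by linarith)
      have a4 := pow_le_pow_left₀ (norm_nonneg _) a1 2
      rw [norm_smul, Real.norm_of_nonneg (Real.exp_pos _).le]
      refine (mul_le_mul_of_nonneg_left (a3.trans (mul_le_mul_of_nonneg_left a4 (by norm_num)))
        (Real.exp_pos s).le).trans (le_of_eq ?_)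
      linear_combination (2400 * r ^ 2 * Real.exp (-s)) * ee s
  have all : ∀ T, 0 ≤ T → ∀ s ∈ Icc 0 T, ‖w s‖ ≤ 2 * r := fun T hT => by
    have := IsClosed.Icc_subset_of_forall_mem_nhdsGT_of_Icc_subset (a := 0) (b := T)
      (s := {s | ‖w s‖ ≤ 2 * r}) ?_ ?_ ?_
    · exact fun s hs => this hs
    · rw [inter_comm]
      exact (vc T hT).norm.preimage_isClosed_of_isClosed isClosed_Icc isClosed_Iic
    · show ‖w 0‖ ≤ 2 * r
      have := (hv 0 le_rfl).2
      simp only [intervalIntegral.integral_same, sub_zero] at this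
      simp only [hw, this, Real.exp_zero, one_smul, hz]
      linarith
    · intro s hs hsub
      have a1 := step s hs.1 fun u hu => hsub hu
      have a2 : ‖w s‖ < 2 * r := by
        have := norm_sub_norm_le (w s) (0, ζ)
        nlinarith
      have a3 : ContinuousWithinAt (fun u => ‖w u‖) (Ioi s) s :=
        ((vc T hT).norm s (Ico_subset_Icc_self hs)).mono_of_mem_nhdsWithin
          (Icc_mem_nhdsGT_of_mem hs)
      filter_upwards [a3.eventually (gt_mem_nhds a2)] with u hu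
      exact hu.le
  have hk : IntervalIntegrable (fun s => (h s (v s)).1) volume 0 t :=
    ⟨(hv t ht).1.1.fst, (hv t ht).1.2.fst⟩
  have := ibp (v := fun s => (v s).1) (z := 0) ht hk (fun s hs => by
    have a1 := (ContinuousLinearMap.fst ℝ ℂ ℂ).intervalIntegral_comp_comm (hv s hs.1).1
    simp only [ContinuousLinearMap.coe_fst'] at a1
    rw [a1]
    conv_lhs => rw [(hv s hs.1).2]
    simp)
  rw [this, zero_sub, norm_neg]
  refine int_bound ht (by positivity) fun s hs => ?_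
  obtain ⟨a1, a2⟩ := small s hs.1 (all t ht s hs)
  have a3 := h_first (hh s) a2
  have a4 := step s hs.1 (all s hs.1)
  have hE := Real.exp_pos (-s)
  have e1 : Real.exp (-s) ≤ 1 := Real.exp_le_one_iff.2 (by linarith [hs.1])
  have b1 : ‖(v s).1‖ ≤ Real.exp (-s) * (2400 * r ^ 2) := by
    have := (norm_fst_le _).trans a4
    simp only [Prod.fst_sub, sub_zero] at this
    rw [vw s, Prod.smul_fst, norm_smul, Real.norm_of_nonneg hE.le]
    exact mul_le_mul_of_nonneg_left this hE.le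
  have b2 : ‖(v s).2‖ ≤ Real.exp (-s) * (r + 2400 * r ^ 2) := by
    have := (norm_snd_le _).trans a4
    simp only [Prod.snd_sub] at this
    have a5 := norm_sub_norm_le (w s).2 ζ
    rw [vw s, Prod.smul_snd, norm_smul, Real.norm_of_nonneg hE.le]
    exact mul_le_mul_of_nonneg_left (by linarith) hE.le
  have b3 : ‖(v s).2‖ ^ 3 ≤ Real.exp (-s) ^ 2 * (8 * r ^ 3) := by
    have a5 := pow_le_pow_left₀ (norm_nonneg _) ((norm_snd_le _).trans a1) 3
    have a6 := mul_le_of_le_one_left (show 0 ≤ Real.exp (-s) ^ 2 * (8 * r ^ 3) by positivity) e1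
    linarith
  have b4 : ‖(v s).2‖ ^ 2 ≤ Real.exp (-s) ^ 2 * (r ^ 2 + 7200 * r ^ 3) := by
    refine (pow_le_pow_left₀ (norm_nonneg _) b2 2).trans ?_
    rw [mul_pow]
    refine mul_le_mul_of_nonneg_left ?_ (sq_nonneg _)
    have : 2400 * r * (2400 * r ^ 3) ≤ 2400 * r ^ 3 :=
      mul_le_of_le_one_left (by positivity) (by linarith)
    linarith
  have b5 := mul_le_mul a1 b1 (norm_nonneg _) (by positivity)
  have b6 := mul_le_mul_of_nonneg_left b4 ha.le
  have b7 : ‖(h s (v s)).1 - (v s).1‖ ≤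
      Real.exp (-s) ^ 2 * (a0 1 * r ^ 2 + (7200 * a0 1 + 12000000) * r ^ 3) := by
    have : 0 ≤ Real.exp (-s) ^ 2 * r ^ 3 := by positivity
    linarith
  rw [norm_smul, Real.norm_of_nonneg (Real.exp_pos _).le]
  refine (mul_le_mul_of_nonneg_left b7 (Real.exp_pos s).le).trans (le_of_eq ?_)
  linear_combination ((a0 1 * r ^ 2 + (7200 * a0 1 + 12000000) * r ^ 3) * Real.exp (-s)) * ee s

end Pool.Agent.H58.Spi
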