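import Mathlib
import Pool.Agent.H58.Spi1
import Pool.Agent.H58.Spi2

set_option autoImplicit false

namespace Pool.Agent.H58.Spi

open Set Metric Filter Topology MeasureTheory

/-- The perturbed map. -/
noncomputable def fe (c κ : ℝ) (e : ℂ) (z : ℂ × ℂ) : ℂ × ℂ :=
  (z.1 + c * z.2 ^ 2 + e * (z.1 - κ * z.2 ^ 2) ^ 3, z.2)

/-- The auxiliary curve. -/
noncomputable def uu (lam c κ : ℝ) (e : ℂ) (z : ℂ × ℂ) (t : ℝ) : ℂ :=
  (Real.exp (-(t * lam)) : ℂ) * (fe c κ e z).1 - (c + κ) * ((Real.exp (-t) : ℂ) * z.2) ^ 2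

/-- The flow. -/
noncomputable def vv (G : ℂ → ℂ) (lam c κ : ℝ) (e : ℂ) (z : ℂ × ℂ) (t : ℝ) : ℂ × ℂ :=
  (G (uu lam c κ e z t) + κ * ((Real.exp (-t) : ℂ) * z.2) ^ 2, (Real.exp (-t) : ℂ) * z.2)

lemma uu_le {lam c κ : ℝ} {e : ℂ} (hl : lam ≤ 2) (hc : 0 ≤ c) (hκ : 0 ≤ κ)
    (he : ‖e‖ * (1 + κ) ^ 3 ≤ 1) {z : ℂ × ℂ} (hz : z ∈ ball2) {t : ℝ} (ht : 0 ≤ t) :
    ‖uu lam c κ e z t‖ ≤ (2 + 2 * c + κ) * Real.exp (-(t * lam)) := by
  obtain ⟨n1, n2⟩ := norms_lt hz
  have s2 : ‖z.2‖ ^ 2 ≤ 1 := pow_le_one₀ (norm_nonneg _) n2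
  have hp := phi_le hκ hz
  have b1 : ‖(fe c κ e z).1‖ ≤ 2 + c := by
    refine norm_add₃_le.trans ?_
    rw [norm_mul, norm_mul, norm_pow, norm_pow, Complex.norm_real, Real.norm_of_nonneg hc]
    have := mul_le_mul_of_nonneg_left (pow_le_pow_left₀ (norm_nonneg _) hp 3) (norm_nonneg e)
    have := mul_le_mul_of_nonneg_left s2 hc
    linarith
  have b2 : Real.exp (-t) ^ 2 ≤ Real.exp (-(t * lam)) := by
    rw [← Real.exp_nat_mul]
    apply Real.exp_le_exp.2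
    push_cast
    nlinarith
  refine (norm_sub_le _ _).trans ?_
  have e1 : ((c : ℂ) + κ) = ((c + κ : ℝ) : ℂ) := by push_cast; ring
  rw [norm_mul, norm_mul, norm_pow, norm_mul, e1, Complex.norm_real, Complex.norm_real,
    Complex.norm_real, Real.norm_of_nonneg (Real.exp_pos _).le,
    Real.norm_of_nonneg (Real.exp_pos _).le, Real.norm_of_nonneg (add_nonneg hc hκ), mul_pow]
  have c1 := mul_le_mul_of_nonneg_left b1 (Real.exp_pos (-(t * lam))).le
  have c2 : Real.exp (-t) ^ 2 * ‖z.2‖ ^ 2 ≤ Real.exp (-(t * lam)) :=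
    (mul_le_of_le_one_right (sq_nonneg _) s2).trans b2
  have c3 := mul_le_mul_of_nonneg_left c2 (add_nonneg hc hκ)
  linarith

lemma vv_deriv {G : ℂ → ℂ} {lam a c κ : ℝ} {e : ℂ} (hca : a = (2 - lam) * c) (z : ℂ × ℂ) (t : ℝ)
    (h1 : G (uu lam c κ e z t) + e * G (uu lam c κ e z t) ^ 3 = uu lam c κ e z t)
    (h2 : HasDerivAt G (1 + 3 * e * G (uu lam c κ e z t) ^ 2)⁻¹ (uu lam c κ e z t))
    (h3 : 1 + 3 * e * G (uu lam c κ e z t) ^ 2 ≠ 0) :
    HasDerivAt (vv G lam c κ e z) (-hf lam a κ e (vv G lam c κ e z t)) t := by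
  have d1 : HasDerivAt (fun t : ℝ => (Real.exp (-t) : ℂ)) (-(Real.exp (-t) : ℂ)) t := by
    have := (hasDerivAt_neg' t).exp.ofReal_comp
    refine this.congr_deriv ?_
    push_cast; ring
  have d2 : HasDerivAt (fun t : ℝ => (Real.exp (-(t * lam)) : ℂ))
      (-lam * (Real.exp (-(t * lam)) : ℂ)) t := by
    have := ((hasDerivAt_id' t).mul_const lam).fun_neg.exp.ofReal_comp
    refine this.congr_deriv ?_
    push_cast; ring
  have d3 := d1.mul_const z.2
  have d4 := d3.fun_pow 2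
  have d5 : HasDerivAt (uu lam c κ e z) _ t :=
    (d2.mul_const (fe c κ e z).1).fun_sub (d4.const_mul ((c : ℂ) + κ))
  have d6 := h2.comp_of_eq t d5 rfl
  have d7 := (d6.add (d4.const_mul (κ : ℂ))).prodMk d3
  refine d7.congr_deriv ?_
  have e0 : (Real.exp (-(t * lam)) : ℂ) * (fe c κ e z).1 =
      uu lam c κ e z t + (c + κ) * ((Real.exp (-t) : ℂ) * z.2) ^ 2 := by simp only [uu]; ring
  have e1 : -lam * (Real.exp (-(t * lam)) : ℂ) * (fe c κ e z).1 = -lam *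
      (G (uu lam c κ e z t) + e * G (uu lam c κ e z t) ^ 3 +
        (c + κ) * ((Real.exp (-t) : ℂ) * z.2) ^ 2) := by rw [mul_assoc, e0, h1]
  rw [e1]
  simp only [hf, vv, Prod.neg_mk, add_sub_cancel_right, hca]
  generalize G (uu lam c κ e z t) = w at *
  generalize (Real.exp (-t) : ℂ) = E at *
  refine Prod.ext ?_ (by simp)
  have i1 := mul_inv_cancel₀ h3
  simp only [div_eq_mul_inv]
  push_cast
  linear_combination (2 * κ * (E * z.2) ^ 2) * i1

lemma stay {v : ℝ → ℂ × ℂ} {h : ℂ × ℂ → ℂ × ℂ} (h0 : v 0 ∈ ball2)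
    (hd : ∀ t, 0 ≤ t → HasDerivAt v (-h (v t)) t)
    (hp : ∀ z ∈ ball2, z ≠ 0 → 0 < (inn (h z) z).re) (T : ℝ) (hT : 0 ≤ T) : v T ∈ ball2 := by
  set N : ℝ → ℝ := fun t => ‖(v t).1‖ ^ 2 + ‖(v t).2‖ ^ 2 with hN
  have dN : ∀ t, 0 ≤ t → HasDerivAt N (-2 * (inn (h (v t)) (v t)).re) t := fun t ht => by
    have a1 := ((hasFDerivAt_fst (𝕜 := ℝ) (p := v t)).comp_hasDerivAt t (hd t ht)).norm_sq
    have a2 := ((hasFDerivAt_snd (𝕜 := ℝ) (p := v t)).comp_hasDerivAt t (hd t ht)).norm_sq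
    refine (a1.add a2).congr_deriv ?_
    simp [inn, Complex.inner]
    ring
  have h0' : N 0 < 1 := h0
  have hN0 : 0 ≤ N 0 := by positivity
  have := image_le_of_deriv_right_lt_deriv_boundary (f := N) (a := 0) (b := T)
    (f' := fun t => -2 * (inn (h (v t)) (v t)).re)
    (fun t ht => (dN t ht.1).continuousAt.continuousWithinAt)
    (fun t ht => (dN t ht.1).hasDerivWithinAt) (B := fun _ => (N 0 + 1) / 2) (B' := fun _ => 0)
    (by linarith) (fun t => hasDerivAt_const t _) (fun t _ he => by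
      have h1 : v t ∈ ball2 := by
        show N t < 1
        rw [he]; linarith
      have h2 : v t ≠ 0 := fun h3 => by
        have : N t = 0 := by simp [hN, h3]
        rw [he] at this; linarith
      have := hp _ h1 h2
      linarith) (show T ∈ Icc 0 T from ⟨hT, le_rfl⟩)
  show N T < 1
  linarith

lemma absc {v : ℝ → ℂ × ℂ} {h : ℂ × ℂ → ℂ × ℂ} (hb : ∀ t, 0 ≤ t → v t ∈ ball2)
    (hd : ∀ t, 0 ≤ t → HasDerivAt v (-h (v t)) t) (hc : ContinuousOn h ball2) (T : ℝ)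
    (hT : 0 ≤ T) : AbsolutelyContinuousOnInterval v 0 T := by
  have c1 : ContinuousOn v (Icc 0 T) := fun t ht => (hd t ht.1).continuousAt.continuousWithinAt
  have c2 : ContinuousOn (fun t => -h (v t)) (Icc 0 T) :=
    (hc.comp c1 fun t ht => hb t ht.1).neg
  obtain ⟨C, hC⟩ := isCompact_Icc.exists_bound_of_continuousOn c2
  have : LipschitzOnWith C.toNNReal v (Icc 0 T) :=
    (convex_Icc 0 T).lipschitzOnWith_of_nnnorm_hasDerivWithin_le
      (fun t ht => (hd t ht.1).hasDerivWithinAt) fun t ht => by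
        rw [← NNReal.coe_le_coe, coe_nnnorm]
        exact (hC t ht).trans (Real.le_coe_toNNReal C)
  rw [← uIcc_of_le hT] at this
  exact this.absolutelyContinuousOnInterval

lemma conv_bound {G : ℂ → ℂ} {lam c κ M R : ℝ} {e : ℂ} (hc : 0 ≤ c) (z : ℂ × ℂ) (hz : z ∈ ball2)
    (t : ℝ) (he : ‖e‖ * (3 * R ^ 2) ≤ 1 / 2)
    (hu : ‖uu lam c κ e z t‖ ≤ M * Real.exp (-(t * lam)))
    (h0 : ‖G (uu lam c κ e z t)‖ < R)
    (h1 : G (uu lam c κ e z t) + e * G (uu lam c κ e z t) ^ 3 = uu lam c κ e z t) :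
    dist (fe c κ e z) (expA lam t (vv G lam c κ e z t)) ≤
      c * Real.exp (-(t * (2 - lam))) + ‖e‖ * (8 * M ^ 3) * Real.exp (-(t * (2 * lam))) := by
  obtain ⟨n1, n2⟩ := norms_lt hz
  have s2 : ‖z.2‖ ^ 2 ≤ 1 := pow_le_one₀ (norm_nonneg _) n2
  set w := G (uu lam c κ e z t) with hw
  have w1 : ‖w‖ ≤ 2 * (M * Real.exp (-(t * lam))) := by
    have a1 : w = uu lam c κ e z t - e * w ^ 2 * w := by rw [← h1]; ring
    have a2 : ‖e * w ^ 2 * w‖ ≤ 1 / 2 * ‖w‖ := by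
      rw [norm_mul, norm_mul, norm_pow]
      refine mul_le_mul_of_nonneg_right ?_ (norm_nonneg _)
      have h7 : ‖w‖ ^ 2 ≤ R ^ 2 := pow_le_pow_left₀ (norm_nonneg _) h0.le 2
      nlinarith [norm_nonneg e, sq_nonneg R]
    have a3 := norm_sub_le (uu lam c κ e z t) (e * w ^ 2 * w)
    rw [← a1] at a3
    linarith
  have x1 : (Real.exp (t * lam) : ℂ) * Real.exp (-(t * lam)) = 1 := by
    rw [← Complex.ofReal_mul, ← Real.exp_add]; simp
  have x2 : (Real.exp t : ℂ) * Real.exp (-t) = 1 := by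
    rw [← Complex.ofReal_mul, ← Real.exp_add]; simp
  have x3 : (Real.exp (t * lam) : ℂ) * (Real.exp (-t) : ℂ) ^ 2 = Real.exp (-(t * (2 - lam))) := by
    rw [← Complex.ofReal_pow, ← Complex.ofReal_mul, ← Real.exp_nat_mul, ← Real.exp_add]
    congr 2
    push_cast; ring
  have x4 : Real.exp (t * lam) * Real.exp (-(t * lam)) ^ 3 = Real.exp (-(t * (2 * lam))) := by
    rw [← Real.exp_nat_mul, ← Real.exp_add]
    congr 1
    push_cast; ring
  have e1 : fe c κ e z - expA lam t (vv G lam c κ e z t) =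
      ((c : ℂ) * Real.exp (-(t * (2 - lam))) * z.2 ^ 2 + e * (Real.exp (t * lam) : ℂ) * w ^ 3, 0) := by
    have a1 : w = uu lam c κ e z t - e * w ^ 3 := by rw [← h1]; ring
    refine Prod.ext ?_ ?_
    · simp only [expA, vv, Prod.fst_sub, ← hw]
      rw [← x3]
      simp only [uu] at a1
      linear_combination (-(fe c κ e z).1) * x1 - (Real.exp (t * lam) : ℂ) * a1
    · simp only [expA, vv, Prod.snd_sub, fe]
      linear_combination (-z.2) * x2
  rw [dist_eq_norm, e1, Prod.norm_mk, norm_zero, max_eq_left (norm_nonneg _)]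
  refine (norm_add_le _ _).trans (add_le_add ?_ ?_)
  · rw [norm_mul, norm_mul, norm_pow, Complex.norm_real, Complex.norm_real,
      Real.norm_of_nonneg hc, Real.norm_of_nonneg (Real.exp_pos _).le]
    exact mul_le_of_le_one_right (by positivity) s2
  · rw [norm_mul, norm_mul, norm_pow, Complex.norm_real, Real.norm_of_nonneg (Real.exp_pos _).le,
      ← x4]
    have := mul_le_mul_of_nonneg_left (pow_le_pow_left₀ (norm_nonneg _) w1 3)
      (show 0 ≤ ‖e‖ * Real.exp (t * lam) by positivity)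
    refine this.trans (le_of_eq ?_)
    ring

theorem fe_mem (lam : ℝ) (h1 : 1 ≤ lam) (h2 : lam < 2) : ∃ κ η : ℝ, 0 < η ∧ ∀ e : ℂ, ‖e‖ ≤ η →
    fe (a0 lam / (2 - lam)) κ e ∈ S0 lam := by
  obtain ⟨hg, κ, δ, hκ, hδ, hk⟩ := cx_key lam h1
  have ha : 0 < a0 lam := hg.1.1
  set a := a0 lam
  set c := a / (2 - lam) with hc
  have hc0 : 0 < c := div_pos ha (by linarith)
  have hca : a = (2 - lam) * c := by
    have : 2 - lam ≠ 0 := by linarith
    rw [hc]; field_simp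
  set M := 2 + 2 * c + κ with hM
  set R := 4 * M with hR
  have hM0 : 0 < M := by positivity
  have hR0 : 0 < R := by positivity
  refine ⟨κ, min (min (1 / 2 / (3 * R ^ 2)) (δ / (4 * (8 + 8 * κ + 3 * a)))) (1 / (1 + κ) ^ 3),
    by positivity, fun e he => ?_⟩
  have he1 : ‖e‖ * (3 * R ^ 2) ≤ 1 / 2 :=
    (le_div_iff₀ (by positivity)).1 (he.trans ((min_le_left _ _).trans (min_le_left _ _)))
  have he2 : ‖e‖ * (4 * (8 + 8 * κ + 3 * a)) ≤ δ :=
    (le_div_iff₀ (by positivity)).1 (he.trans ((min_le_left _ _).trans (min_le_right _ _)))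
  have he3 : ‖e‖ * (1 + κ) ^ 3 ≤ 1 :=
    (le_div_iff₀ (by positivity)).1 (he.trans (min_le_right _ _))
  have hκR : 1 + κ < R := by linarith
  have hNA := hf_NA (by linarith) h2.le ha.le hκ.le hκR.le he1 he2 hk
  obtain ⟨G, hG1, hG2⟩ := cubic_inv hR0 e he1
  have hu : ∀ z ∈ ball2, ∀ t, 0 ≤ t → ‖uu lam c κ e z t‖ ≤ R / 4 := fun z hz t ht => by
    have := uu_le h2.le hc0.le hκ.le he3 hz ht
    have h3 : Real.exp (-(t * lam)) ≤ 1 := Real.exp_le_one_iff.2 (by nlinarith)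
    have := mul_le_of_le_one_right hM0.le h3
    linarith
  have hd : ∀ z ∈ ball2, ∀ t, 0 ≤ t →
      HasDerivAt (vv G lam c κ e z) (-hf lam a κ e (vv G lam c κ e z t)) t := fun z hz t ht => by
    obtain ⟨g1, g2, g3⟩ := hG2 _ (hu z hz t ht)
    refine vv_deriv hca z t g2 g3 fun h => ?_
    have := den_lb he1 g1.le
    rw [h, norm_zero] at this
    linarith
  have hv0 : ∀ z ∈ ball2, vv G lam c κ e z 0 = z := fun z hz => by
    have e1 : uu lam c κ e z 0 = (z.1 - κ * z.2 ^ 2) + e * (z.1 - κ * z.2 ^ 2) ^ 3 := by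
      simp [uu, fe]; ring
    have := hG1 _ ((phi_le hκ.le hz).trans_lt hκR)
    simp [vv, e1, this]
  have hst : ∀ z ∈ ball2, ∀ t, 0 ≤ t → vv G lam c κ e z t ∈ ball2 := fun z hz =>
    stay (by rw [hv0 z hz]; exact hz) (hd z hz) hNA.2.2.2
  refine ⟨?_, by simp [fe], ?_, fun z _ => hf lam a κ e z, vv G lam c κ e,
    ⟨Eventually.of_forall fun _ => hNA, fun _ _ => measurable_const⟩, fun z hz =>
    ⟨hv0 z hz, hst z hz, absc (hst z hz) (hd z hz) hNA.1.continuousOn,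
      (ae_restrict_iff' measurableSet_Ici).2 (Eventually.of_forall (hd z hz))⟩, ?_⟩
  · apply Differentiable.differentiableOn
    unfold fe
    fun_prop
  · have f1 : HasFDerivAt (fun z : ℂ × ℂ => z.1) (ContinuousLinearMap.fst ℂ ℂ ℂ) 0 := hasFDerivAt_fst
    have f2 : HasFDerivAt (fun z : ℂ × ℂ => z.2) (ContinuousLinearMap.snd ℂ ℂ ℂ) 0 := hasFDerivAt_snd
    have f3 := f2.pow 2
    have f4 := f1.fun_sub (f3.const_mul (κ : ℂ))
    have := ((f1.fun_add (f3.const_mul (c : ℂ))).fun_add ((f4.pow 3).const_mul e)).prodMk f2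
    refine (this.congr_fderiv ?_).congr_of_eventuallyEq (Eventually.of_forall fun z => ?_)
    · ext <;> simp
    · simp [fe]
  · apply TendstoUniformlyOn.tendstoLocallyUniformlyOn
    rw [Metric.tendstoUniformlyOn_iff]
    intro ε hε
    have t1 : ∀ b : ℝ, 0 < b → Tendsto (fun t : ℝ => Real.exp (-(t * b))) atTop (𝓝 0) :=
      fun b hb => Real.tendsto_exp_neg_atTop_nhds_zero.comp (tendsto_id.atTop_mul_const hb)
    have t2 := ((t1 (2 - lam) (by linarith)).const_mul c).add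
      ((t1 (2 * lam) (by linarith)).const_mul (‖e‖ * (8 * M ^ 3)))
    simp only [mul_zero, add_zero] at t2
    filter_upwards [t2.eventually (gt_mem_nhds hε), eventually_ge_atTop 0] with t ht ht0 z hz
    obtain ⟨g1, g2, g3⟩ := hG2 _ (hu z hz t ht0)
    exact (conv_bound hc0.le z hz t he1 (uu_le h2.le hc0.le hκ.le he3 hz ht0) g1 g2).trans_lt ht

end Pool.Agent.H58.Spi
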