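import Mathlib
import Pool.Agent.H58.Spi3

set_option autoImplicit false

namespace Pool.Agent.H58.Spi

open Set Metric Filter Topology MeasureTheory

/-- The time-dependent vector field. -/
noncomputable def hm (a κ m : ℝ) (e : ℂ) (z : ℂ × ℂ) : ℂ × ℂ :=
  ((((1 : ℝ) : ℂ) * z.1 - a * z.2 ^ 2 + e * (z.1 - κ * z.2 ^ 2) ^ 2 *
    (m * (z.1 - κ * z.2 ^ 2) + 6 * κ * z.2 ^ 2)) / (1 + 3 * e * (z.1 - κ * z.2 ^ 2) ^ 2), z.2)

lemma hm_pos {m a κ δ R : ℝ} {e : ℂ} (hl : |m| ≤ 2) (ha : 0 ≤ a) (hκ : 0 ≤ κ)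
    (hR : 1 + κ ≤ R) (he : ‖e‖ * (3 * R ^ 2) ≤ 1 / 2)
    (he2 : ‖e‖ * (4 * (8 + 8 * κ + 3 * a)) ≤ δ)
    (hk : ∀ z ∈ ball2, δ * ‖z.1‖ * ‖z.1 - κ * z.2 ^ 2‖ ^ 2 ≤
        (inn (((1 : ℝ) : ℂ) * z.1 - (a : ℂ) * z.2 ^ 2, z.2) z).re ∧
      (z ≠ 0 → 0 < (inn (((1 : ℝ) : ℂ) * z.1 - (a : ℂ) * z.2 ^ 2, z.2) z).re))
    (z : ℂ × ℂ) (hz : z ∈ ball2) (hz0 : z ≠ 0) : 0 < (inn (hm a κ m e z) z).re := by
  have hden : 1 / 2 ≤ ‖1 + 3 * e * (z.1 - κ * z.2 ^ 2) ^ 2‖ :=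
    den_lb he ((phi_le hκ hz).trans hR)
  have hne : 1 + 3 * e * (z.1 - κ * z.2 ^ 2) ^ 2 ≠ 0 := fun h => by
    rw [h, norm_zero] at hden
    linarith
  obtain ⟨k1, k2⟩ := hk z hz
  have k3 := k2 hz0
  obtain ⟨n1, n2⟩ := norms_lt hz
  have hp := phi_le hκ hz
  set φ := z.1 - κ * z.2 ^ 2 with hφ
  set q := e * φ ^ 2 * (m * φ + 6 * κ * z.2 ^ 2 - 3 * (z.1 - a * z.2 ^ 2)) /
    (1 + 3 * e * φ ^ 2) with hq
  have e1 : inn (hm a κ m e z) z = inn (((1 : ℝ) : ℂ) * z.1 - (a : ℂ) * z.2 ^ 2, z.2) z +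
      q * (starRingEnd ℂ) z.1 := by
    simp only [inn, hm, hq, ← hφ, div_eq_mul_inv, Complex.ofReal_one]
    have i1 := mul_inv_cancel₀ hne
    linear_combination ((z.1 - a * z.2 ^ 2) * (starRingEnd ℂ) z.1) * i1
  have s2 : ‖z.2 ^ 2‖ ≤ 1 := by rw [norm_pow]; exact pow_le_one₀ (norm_nonneg _) n2
  have b1 : ‖m * φ + 6 * κ * z.2 ^ 2 - 3 * (z.1 - a * z.2 ^ 2)‖ ≤ 8 + 8 * κ + 3 * a := by
    have t1 : ‖(m : ℂ) * φ‖ ≤ 2 * (1 + κ) := by
      rw [norm_mul, Complex.norm_real, Real.norm_eq_abs]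
      exact mul_le_mul hl hp (norm_nonneg _) (by norm_num)
    have t2 : ‖(6 * κ : ℂ) * z.2 ^ 2‖ ≤ 6 * κ := by
      rw [norm_mul, norm_mul, Complex.norm_real, Real.norm_of_nonneg hκ]
      have : ‖(6 : ℂ)‖ = 6 := by simp
      rw [this]
      exact mul_le_of_le_one_right (by positivity) s2
    have t4 : ‖(a : ℂ) * z.2 ^ 2‖ ≤ a := by
      rw [norm_mul, Complex.norm_real, Real.norm_of_nonneg ha]
      exact mul_le_of_le_one_right ha s2
    have t5 : ‖(3 : ℂ) * (z.1 - a * z.2 ^ 2)‖ ≤ 3 * (2 + a) := by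
      rw [norm_mul]
      have : ‖(3 : ℂ)‖ = 3 := by simp
      rw [this]
      have := norm_sub_le z.1 ((a : ℂ) * z.2 ^ 2)
      linarith
    have := norm_sub_le ((m : ℂ) * φ + 6 * κ * z.2 ^ 2) (3 * (z.1 - a * z.2 ^ 2))
    have := norm_add_le ((m : ℂ) * φ) (6 * κ * z.2 ^ 2)
    linarith
  have b2 : ‖q‖ ≤ δ / 2 * ‖φ‖ ^ 2 := by
    rw [hq, norm_div, div_le_iff₀ (lt_of_lt_of_le (by norm_num) hden), norm_mul,
      norm_mul, norm_pow]
    have c1 := mul_le_mul_of_nonneg_left b1 (show 0 ≤ ‖e‖ * ‖φ‖ ^ 2 by positivity)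
    have c2 := mul_le_mul_of_nonneg_right he2 (sq_nonneg ‖φ‖)
    have hδ : 0 ≤ δ := le_trans (by positivity) he2
    have c3 := mul_le_mul_of_nonneg_left hden (show 0 ≤ δ / 2 * ‖φ‖ ^ 2 by positivity)
    linarith
  have b3 : -(q * (starRingEnd ℂ) z.1).re ≤ δ / 2 * ‖φ‖ ^ 2 * ‖z.1‖ := by
    have := (neg_le_abs _).trans (Complex.abs_re_le_norm (q * (starRingEnd ℂ) z.1))
    rw [norm_mul, Complex.norm_conj] at this
    exact this.trans (mul_le_mul_of_nonneg_right b2 (norm_nonneg _))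
  rw [e1, Complex.add_re]
  linarith

lemma stay2 {v : ℝ → ℂ × ℂ} {h : ℝ → ℂ × ℂ → ℂ × ℂ} {s : ℝ} (h0 : v s ∈ ball2)
    (hd : ∀ t, s ≤ t → HasDerivAt v (-h t (v t)) t)
    (hp : ∀ t, s ≤ t → ∀ z ∈ ball2, z ≠ 0 → 0 < (inn (h t z) z).re) (T : ℝ) (hT : s ≤ T) :
    v T ∈ ball2 := by
  set N : ℝ → ℝ := fun t => ‖(v t).1‖ ^ 2 + ‖(v t).2‖ ^ 2 with hN
  have dN : ∀ t, s ≤ t → HasDerivAt N (-2 * (inn (h t (v t)) (v t)).re) t := fun t ht => by
    have a1 := ((hasFDerivAt_fst (𝕜 := ℝ) (p := v t)).comp_hasDerivAt t (hd t ht)).norm_sq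
    have a2 := ((hasFDerivAt_snd (𝕜 := ℝ) (p := v t)).comp_hasDerivAt t (hd t ht)).norm_sq
    refine (a1.add a2).congr_deriv ?_
    simp [inn, Complex.inner]
    ring
  have h0' : N s < 1 := h0
  have hN0 : 0 ≤ N s := by positivity
  have := image_le_of_deriv_right_lt_deriv_boundary (f := N) (a := s) (b := T)
    (f' := fun t => -2 * (inn (h t (v t)) (v t)).re)
    (fun t ht => (dN t ht.1).continuousAt.continuousWithinAt)
    (fun t ht => (dN t ht.1).hasDerivWithinAt) (B := fun _ => (N s + 1) / 2) (B' := fun _ => 0)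
    (by linarith) (fun t => hasDerivAt_const t _) (fun t ht he => by
      have h1 : v t ∈ ball2 := by
        show N t < 1
        rw [he]; linarith
      have h2 : v t ≠ 0 := fun h3 => by
        have : N t = 0 := by simp [hN, h3]
        rw [he] at this; linarith
      have := hp t ht.1 _ h1 h2
      linarith) (show T ∈ Icc s T from ⟨hT, le_rfl⟩)
  show N T < 1
  linarith

/-- `e^{-β t}` as a complex number. -/
noncomputable def mu (β t : ℝ) : ℂ := (Real.exp (-(β * t)) : ℂ)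

lemma mu_ne (β t : ℝ) : mu β t ≠ 0 := by simp [mu]

lemma mu_le {β t : ℝ} (h : 0 ≤ β * t) : ‖mu β t‖ ≤ 1 := by
  rw [mu, Complex.norm_real, Real.norm_of_nonneg (Real.exp_pos _).le, Real.exp_le_one_iff]
  linarith

lemma mu_deriv (β t : ℝ) : HasDerivAt (mu β) (-β * mu β t) t := by
  have := ((hasDerivAt_id' t).const_mul β).fun_neg.exp.ofReal_comp
  refine this.congr_deriv ?_
  simp only [mu]
  push_cast; ring

/-- The Loewner chains. -/
noncomputable def ch (a κ β : ℝ) (η : ℂ) (z : ℂ × ℂ) (t : ℝ) : ℂ × ℂ :=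
  (Real.exp t : ℂ) • fe a κ (η * mu β t ^ 2) z

/-- Auxiliary curve for the transition maps. -/
noncomputable def cu (a κ β : ℝ) (U : ℂ × ℂ) (t : ℝ) : ℂ :=
  mu β t * (mu 1 t * U.1 - (a + κ) * (mu 1 t * U.2) ^ 2)

/-- Transition curve. -/
noncomputable def cv (G : ℂ → ℂ) (a κ β : ℝ) (U : ℂ × ℂ) (t : ℝ) : ℂ × ℂ :=
  (G (cu a κ β U t) * (mu β t)⁻¹ + κ * (mu 1 t * U.2) ^ 2, mu 1 t * U.2)

lemma cv_deriv {G : ℂ → ℂ} {a κ β : ℝ} {η : ℂ} (U : ℂ × ℂ) (t : ℝ)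
    (h1 : G (cu a κ β U t) + η * G (cu a κ β U t) ^ 3 = cu a κ β U t)
    (h2 : HasDerivAt G (1 + 3 * η * G (cu a κ β U t) ^ 2)⁻¹ (cu a κ β U t))
    (h3 : 1 + 3 * η * G (cu a κ β U t) ^ 2 ≠ 0) :
    HasDerivAt (cv G a κ β U) (-hm a κ (1 - 2 * β) (η * mu β t ^ 2) (cv G a κ β U t)) t := by
  have d1 := mu_deriv 1 t
  have d2 := mu_deriv β t
  have d3 := d1.mul_const U.2
  have d4 := d3.fun_pow 2
  have d5 : HasDerivAt (cu a κ β U) _ t :=
    d2.fun_mul ((d1.mul_const U.1).fun_sub (d4.const_mul ((a : ℂ) + κ)))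
  have d6 := h2.comp_of_eq t d5 rfl
  have d7 := ((d6.fun_mul (d2.fun_inv (mu_ne β t))).add (d4.const_mul (κ : ℂ))).prodMk d3
  refine d7.congr_deriv ?_
  have hμ := mu_ne β t
  have e0 : mu 1 t * U.1 = (G (cu a κ β U t) + η * G (cu a κ β U t) ^ 3) * (mu β t)⁻¹ +
      (a + κ) * (mu 1 t * U.2) ^ 2 := by
    rw [h1, cu]; field_simp; ring
  have e1 : -((1 : ℝ) : ℂ) * mu 1 t * U.1 = -(mu 1 t * U.1) := by push_cast; ring
  rw [e1, e0]
  simp only [hm, cv, Prod.neg_mk, add_sub_cancel_right, Function.comp_apply]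
  generalize G (cu a κ β U t) = w at *
  generalize mu 1 t = E at *
  generalize mu β t = μ at *
  refine Prod.ext ?_ (by simp)
  have e2 : 1 + 3 * (η * μ ^ 2) * (w * μ⁻¹) ^ 2 = 1 + 3 * η * w ^ 2 := by field_simp
  simp only [e2]
  generalize 1 + 3 * η * w ^ 2 = D at h3 e2
  have e3 : D = 1 + 3 * η * w ^ 2 := by rw [← e2]; field_simp
  push_cast
  field_simp
  rw [e3]
  ring

lemma fe1_le {c κ : ℝ} {e : ℂ} (hc : 0 ≤ c) (hκ : 0 ≤ κ) (he : ‖e‖ * (1 + κ) ^ 3 ≤ 1)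
    {z : ℂ × ℂ} (hz : z ∈ ball2) : ‖(fe c κ e z).1‖ ≤ 2 + c := by
  obtain ⟨n1, n2⟩ := norms_lt hz
  have s2 : ‖z.2‖ ^ 2 ≤ 1 := pow_le_one₀ (norm_nonneg _) n2
  have hp := phi_le hκ hz
  refine norm_add₃_le.trans ?_
  rw [norm_mul, norm_mul, norm_pow, norm_pow, Complex.norm_real, Real.norm_of_nonneg hc]
  have := mul_le_mul_of_nonneg_left (pow_le_pow_left₀ (norm_nonneg _) hp 3) (norm_nonneg e)
  have := mul_le_mul_of_nonneg_left s2 hc
  linarith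

theorem pack : ∃ (κ : ℝ) (η : ℂ), η ≠ 0 ∧
    (∃ h ∈ NA 1, ∃ v : ℂ × ℂ → ℝ → ℂ × ℂ, ∀ z ∈ ball2, v z 0 = z ∧
      (∀ t, 0 ≤ t → v z t ∈ ball2 ∧ HasDerivAt (v z) (-h (v z t)) t) ∧
      Tendsto (fun t => expA 1 t (v z t)) atTop (𝓝 (fe (a0 1) κ η z))) ∧
    ∀ β : ℝ, 0 ≤ β → β ≤ 1 → ∀ t, 0 ≤ t → InjOn (fun z => ch (a0 1) κ β η z t) ball2 ∧
      (∀ z ∈ ball2, ‖fe (a0 1) κ (η * mu β t ^ 2) z‖ ≤ 2 + a0 1) ∧
      ∀ s, 0 ≤ s → s ≤ t → ∀ z ∈ ball2, ∃ z' ∈ ball2,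
        ch (a0 1) κ β η z' t = ch (a0 1) κ β η z s := by
  obtain ⟨hg, κ, δ, hκ, hδ, hk⟩ := cx_key 1 le_rfl
  have ha : 0 < a0 1 := hg.1.1
  set a := a0 1
  set M := 2 + 2 * a + κ with hM
  set R := 4 * M with hR
  have hM0 : 0 < M := by positivity
  have hR0 : 0 < R := by positivity
  set η := min (min (1 / 2 / (3 * R ^ 2)) (δ / (4 * (8 + 8 * κ + 3 * a)))) (1 / (1 + κ) ^ 3)
  have hη : 0 < η := by positivity
  have small : ∀ e : ℂ, ‖e‖ ≤ η → ‖e‖ * (3 * R ^ 2) ≤ 1 / 2 ∧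
      ‖e‖ * (4 * (8 + 8 * κ + 3 * a)) ≤ δ ∧ ‖e‖ * (1 + κ) ^ 3 ≤ 1 := fun e he =>
    ⟨(le_div_iff₀ (by positivity)).1 (he.trans ((min_le_left _ _).trans (min_le_left _ _))),
      (le_div_iff₀ (by positivity)).1 (he.trans ((min_le_left _ _).trans (min_le_right _ _))),
      (le_div_iff₀ (by positivity)).1 (he.trans (min_le_right _ _))⟩
  have hηn : ‖(η : ℂ)‖ = η := by rw [Complex.norm_real, Real.norm_of_nonneg hη.le]
  obtain ⟨he1, he2, he3⟩ := small η hηn.le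
  have hκR : 1 + κ < R := by linarith
  obtain ⟨G, hG1, hG2⟩ := cubic_inv hR0 η he1
  have hne : ∀ u, ‖u‖ ≤ R / 4 → 1 + 3 * η * G u ^ 2 ≠ 0 := fun u hu h => by
    have := den_lb he1 (hG2 u hu).1.le
    rw [h, norm_zero] at this
    linarith
  refine ⟨κ, η, by exact_mod_cast hη.ne', ?_, fun β hβ0 hβ1 t ht => ?_⟩
  · have hNA := hf_NA zero_le_one one_le_two ha.le hκ.le hκR.le he1 he2 hk
    have hu : ∀ z ∈ ball2, ∀ t, 0 ≤ t → ‖uu 1 a κ η z t‖ ≤ R / 4 := fun z hz t ht => by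
      have := uu_le one_le_two ha.le hκ.le he3 hz ht
      have h3 : Real.exp (-(t * 1)) ≤ 1 := Real.exp_le_one_iff.2 (by linarith)
      have := mul_le_of_le_one_right hM0.le h3
      linarith
    have hd : ∀ z ∈ ball2, ∀ t, 0 ≤ t →
        HasDerivAt (vv G 1 a κ η z) (-hf 1 a κ η (vv G 1 a κ η z t)) t := fun z hz t ht => by
      obtain ⟨g1, g2, g3⟩ := hG2 _ (hu z hz t ht)
      exact vv_deriv (by ring) z t g2 g3 (hne _ (hu z hz t ht))
    have hv0 : ∀ z ∈ ball2, vv G 1 a κ η z 0 = z := fun z hz => by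
      have e1 : uu 1 a κ η z 0 = (z.1 - κ * z.2 ^ 2) + η * (z.1 - κ * z.2 ^ 2) ^ 3 := by
        simp [uu, fe]; ring
      have := hG1 _ ((phi_le hκ.le hz).trans_lt hκR)
      simp [vv, e1, this]
    refine ⟨_, hNA, vv G 1 a κ η, fun z hz => ⟨hv0 z hz, fun t ht =>
      ⟨stay (by rw [hv0 z hz]; exact hz) (hd z hz) hNA.2.2.2 t ht, hd z hz t ht⟩, ?_⟩⟩
    rw [tendsto_iff_dist_tendsto_zero]
    have t1 : ∀ b : ℝ, 0 < b → Tendsto (fun t : ℝ => Real.exp (-(t * b))) atTop (𝓝 0) :=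
      fun b hb => Real.tendsto_exp_neg_atTop_nhds_zero.comp (tendsto_id.atTop_mul_const hb)
    have t2 := ((t1 (2 - 1) (by linarith)).const_mul a).add
      ((t1 (2 * 1) (by linarith)).const_mul (‖(η : ℂ)‖ * (8 * M ^ 3)))
    simp only [mul_zero, add_zero] at t2
    refine squeeze_zero' (Eventually.of_forall fun _ => dist_nonneg) ?_ t2
    filter_upwards [eventually_ge_atTop 0] with t ht0
    obtain ⟨g1, g2, g3⟩ := hG2 _ (hu z hz t ht0)
    rw [dist_comm]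
    exact conv_bound ha.le z hz t he1 (uu_le one_le_two ha.le hκ.le he3 hz ht0) g1 g2
  have sm : ∀ t, 0 ≤ t → ‖η * mu β t ^ 2‖ ≤ η := fun t ht => by
    rw [norm_mul, norm_pow, hηn]
    exact mul_le_of_le_one_right hη.le (pow_le_one₀ (norm_nonneg _) (mu_le (mul_nonneg hβ0 ht)))
  have Gφ : ∀ t, 0 ≤ t → ∀ z ∈ ball2, G (mu β t * ((fe a κ (η * mu β t ^ 2) z).1 -
      (a + κ) * z.2 ^ 2)) = mu β t * (z.1 - κ * z.2 ^ 2) := fun t ht z hz => by
    rw [← hG1 (mu β t * (z.1 - κ * z.2 ^ 2))]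
    · congr 1
      simp only [fe]; ring
    · rw [norm_mul]
      exact (mul_le_of_le_one_left (norm_nonneg _) (mu_le (mul_nonneg hβ0 ht))).trans_lt
        ((phi_le hκ.le hz).trans_lt hκR)
  have ex : ∀ t : ℝ, mu 1 t * (Real.exp t : ℂ) = 1 := fun t => by
    rw [mu, ← Complex.ofReal_mul, ← Real.exp_add]; simp
  refine ⟨fun z hz z' hz' he => ?_, fun z hz => ?_, fun s hs hst z hz => ?_⟩
  · have h1 : fe a κ (η * mu β t ^ 2) z = fe a κ (η * mu β t ^ 2) z' :=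
      smul_right_injective _ (by simp) he
    have h2 : z.2 = z'.2 := by simpa [fe] using congrArg Prod.snd h1
    have h3 := Gφ t ht z hz
    rw [h1, h2, Gφ t ht z' hz'] at h3
    have h4 := mul_left_cancel₀ (mu_ne β t) h3
    exact Prod.ext (by linear_combination -h4) h2
  · rw [Prod.norm_def, max_le_iff]
    exact ⟨fe1_le ha.le hκ.le (small _ (sm t ht)).2.2 hz, (norms_lt hz).2.trans (by linarith)⟩
  · set U := ch a κ β η z s with hU
    have hu : ∀ τ, s ≤ τ → ‖cu a κ β U τ‖ ≤ R / 4 := fun τ hτ => by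
      have x1 : ‖mu 1 τ * (Real.exp s : ℂ)‖ ≤ 1 := by
        rw [mu, ← Complex.ofReal_mul, ← Real.exp_add, Complex.norm_real,
          Real.norm_of_nonneg (Real.exp_pos _).le, Real.exp_le_one_iff]
        linarith
      have x2 : ‖mu 1 τ * U.1‖ ≤ 2 + a := by
        simp only [hU, ch, Prod.smul_fst, smul_eq_mul]
        rw [← mul_assoc, norm_mul]
        exact (mul_le_of_le_one_left (norm_nonneg _) x1).trans
          (fe1_le ha.le hκ.le (small _ (sm s hs)).2.2 hz)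
      have x3 : ‖mu 1 τ * U.2‖ ≤ 1 := by
        simp only [hU, ch, Prod.smul_snd, smul_eq_mul, fe]
        rw [← mul_assoc, norm_mul]
        exact (mul_le_of_le_one_left (norm_nonneg _) x1).trans (norms_lt hz).2
      have x4 : ‖((a : ℂ) + κ) * (mu 1 τ * U.2) ^ 2‖ ≤ a + κ := by
        have e1 : ((a : ℂ) + κ) = ((a + κ : ℝ) : ℂ) := by push_cast; ring
        rw [norm_mul, norm_pow, e1, Complex.norm_real, Real.norm_of_nonneg (by positivity)]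
        exact mul_le_of_le_one_right (by positivity) (pow_le_one₀ (norm_nonneg _) x3)
      rw [cu, norm_mul]
      refine (mul_le_of_le_one_left (norm_nonneg _)
        (mu_le (mul_nonneg hβ0 (hs.trans hτ)))).trans ((norm_sub_le _ _).trans ?_)
      linarith
    have v0 : cv G a κ β U s = z := by
      have e1 : mu 1 s * U.2 = z.2 := by
        simp only [hU, ch, Prod.smul_snd, smul_eq_mul, fe]
        rw [← mul_assoc, ex, one_mul]
      have e2 : mu 1 s * U.1 = (fe a κ (η * mu β s ^ 2) z).1 := by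
        simp only [hU, ch, Prod.smul_fst, smul_eq_mul]
        rw [← mul_assoc, ex, one_mul]
      have := mu_ne β s
      simp only [cv, cu, e1, e2, Gφ s hs z hz]
      refine Prod.ext ?_ rfl
      simp only
      field_simp
      ring
    refine ⟨cv G a κ β U t, stay2 (h := fun τ => hm a κ (1 - 2 * β) (η * mu β τ ^ 2))
      (by rw [v0]; exact hz) (fun τ hτ => ?_) (fun τ hτ => ?_) t hst, ?_⟩
    · obtain ⟨g1, g2, g3⟩ := hG2 _ (hu τ hτ)
      exact cv_deriv U τ g2 g3 (hne _ (hu τ hτ))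
    · obtain ⟨b1, b2, b3⟩ := small _ (sm τ (hs.trans hτ))
      exact hm_pos (abs_le.2 ⟨by linarith, by linarith⟩) ha.le hκ.le hκR.le b1 b2 hk
    · obtain ⟨g1, g2, g3⟩ := hG2 _ (hu t hst)
      have hμ := mu_ne β t
      have x := ex t
      have e0 : (G (cu a κ β U t) + η * G (cu a κ β U t) ^ 3) * (mu β t)⁻¹ +
          (a + κ) * (mu 1 t * U.2) ^ 2 = mu 1 t * U.1 := by
        rw [g2, cu]; field_simp; ring
      have e1 : η * mu β t ^ 2 * (G (cu a κ β U t) * (mu β t)⁻¹) ^ 3 =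
          η * G (cu a κ β U t) ^ 3 * (mu β t)⁻¹ := by field_simp
      refine Prod.ext ?_ ?_
      · simp only [ch, cv, fe, Prod.smul_fst, smul_eq_mul, add_sub_cancel_right, e1]
        linear_combination (Real.exp t : ℂ) * e0 + U.1 * x
      · simp only [ch, cv, fe, Prod.smul_snd, smul_eq_mul]
        linear_combination U.2 * x

end Pool.Agent.H58.Spi
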