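import Mathlib
import Pool.Agent.H58.Spi5
import Pool.Agent.H58.Spi6

set_option autoImplicit false

namespace Pool.Agent.H58.Spi

open Set Metric Filter Topology MeasureTheory

abbrev E2 := EuclideanSpace ℂ (Fin 2)

/-- Coordinates. -/
noncomputable def TT : E2 ≃L[ℂ] ℂ × ℂ :=
  (EuclideanSpace.equiv (Fin 2) ℂ).trans (ContinuousLinearEquiv.finTwoArrow ℂ ℂ)

lemma TT_apply (z : E2) : TT z = (z 0, z 1) := rfl

lemma mem_TT {z : E2} : z ∈ ball (0 : E2) 1 ↔ TT z ∈ ball2 := by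
  rw [mem_ball_zero_iff, ← sq_lt_one_iff₀ (norm_nonneg z), EuclideanSpace.norm_sq_eq,
    Fin.sum_univ_two]
  rfl

lemma mem_TT' {p : ℂ × ℂ} : TT.symm p ∈ ball (0 : E2) 1 ↔ p ∈ ball2 := by
  rw [mem_TT, ContinuousLinearEquiv.apply_symm_apply]

lemma inner_TT (z w : E2) : inner ℂ z w = inn (TT w) (TT z) := by
  simp [inn, TT_apply, PiLp.inner_apply, Fin.sum_univ_two]

lemma toNA {h : E2 → E2} (h1 : DifferentiableOn ℂ h (ball 0 1)) (h2 : h 0 = 0)
    (h3 : fderiv ℂ h 0 = ContinuousLinearMap.id ℂ E2)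
    (h4 : ∀ z ∈ ball (0 : E2) 1, z ≠ 0 → 0 < (inner ℂ z (h z)).re) :
    (fun p => TT (h (TT.symm p))) ∈ NA 1 := by
  refine ⟨TT.differentiable.comp_differentiableOn (h1.comp TT.symm.differentiableOn
    fun p hp => mem_TT'.2 hp), by simp [h2], ?_, fun p hp h0 => ?_⟩
  · have a1 : HasFDerivAt h (ContinuousLinearMap.id ℂ E2) (TT.symm 0) := by
      rw [map_zero, ← h3]
      exact (h1.differentiableAt (ball_mem_nhds _ one_pos)).hasFDerivAt
    have := TT.hasFDerivAt.comp (0 : ℂ × ℂ) (a1.comp (0 : ℂ × ℂ) TT.symm.hasFDerivAt)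
    refine this.congr_fderiv (ContinuousLinearMap.ext fun p => ?_)
    simp [Amap_one]
  · have := h4 _ (mem_TT'.2 hp) (by simpa using h0)
    rwa [inner_TT, ContinuousLinearEquiv.apply_symm_apply] at this

lemma conj_diff {f : ℂ × ℂ → ℂ × ℂ} (h1 : DifferentiableOn ℂ f ball2) :
    DifferentiableOn ℂ (fun z => TT.symm (f (TT z))) (ball 0 1) :=
  TT.symm.differentiable.comp_differentiableOn (h1.comp TT.differentiableOn
    fun _ hp => mem_TT.1 hp)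

lemma conj_fderiv {f : ℂ × ℂ → ℂ × ℂ} {A : ℂ × ℂ →L[ℂ] ℂ × ℂ} {c : ℂ} (h1 : HasFDerivAt f A 0)
    (hA : ∀ p, A p = c • p) :
    fderiv ℂ (fun z => TT.symm (f (TT z))) 0 = c • ContinuousLinearMap.id ℂ E2 := by
  have a1 : HasFDerivAt f A (TT 0) := by rwa [map_zero]
  have := TT.symm.hasFDerivAt.comp (0 : E2) (a1.comp (0 : E2) TT.hasFDerivAt)
  refine this.fderiv.trans (ContinuousLinearMap.ext fun p => ?_)
  simp [hA]

lemma mem_S0 {h f : ℂ × ℂ → ℂ × ℂ} (hh : h ∈ NA 1) {v : ℂ × ℂ → ℝ → ℂ × ℂ}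
    (hv : ∀ z ∈ ball2, v z 0 = z ∧
      (∀ t, 0 ≤ t → v z t ∈ ball2 ∧ HasDerivAt (v z) (-h (v z t)) t) ∧
      Tendsto (fun t => expA 1 t (v z t)) atTop (𝓝 (f z))) :
    ∃ (h : E2 → ℝ → E2) (v : E2 → ℝ → E2),
      (∀ t : ℝ, DifferentiableOn ℂ (fun z => h z t) (ball (0 : E2) 1) ∧ h 0 t = 0 ∧
        fderiv ℂ (fun z => h z t) 0 = ContinuousLinearMap.id ℂ E2 ∧
        ∀ z ∈ ball (0 : E2) 1, z ≠ 0 → 0 < (inner ℂ z (h z t)).re) ∧
      (∀ z ∈ ball (0 : E2) 1, StronglyMeasurable (fun t : ℝ => h z t)) ∧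
      (∀ z ∈ ball (0 : E2) 1, (∀ t : ℝ, 0 ≤ t → v z t ∈ ball (0 : E2) 1 ∧
          IntervalIntegrable (fun s => h (v z s) s) volume 0 t ∧
          v z t = z - ∫ s in (0:ℝ)..t, h (v z s) s) ∧
        Tendsto (fun t : ℝ => ((Real.exp t : ℝ) : ℂ) • v z t) atTop
          (𝓝 (TT.symm (f (TT z))))) := by
  refine ⟨fun z _ => TT.symm (h (TT z)), fun z t => TT.symm (v (TT z) t), fun _ =>
    ⟨conj_diff hh.1, by simp [hh.2.1], ?_, fun z hz h0 => ?_⟩,
    fun _ _ => stronglyMeasurable_const, fun z hz => ?_⟩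
  · rw [conj_fderiv (c := 1) hh.2.2.1 (fun p => by simp [Amap_one]), one_smul]
  · rw [inner_TT, ContinuousLinearEquiv.apply_symm_apply]
    exact hh.2.2.2 _ (mem_TT.1 hz) (by simpa using h0)
  · obtain ⟨a1, a2, a3⟩ := hv _ (mem_TT.1 hz)
    refine ⟨fun t ht => ?_, ?_⟩
    · simp only [ContinuousLinearEquiv.apply_symm_apply]
      have c1 : ContinuousOn (v (TT z)) (uIcc 0 t) := fun s hs => by
        rw [uIcc_of_le ht] at hs ⊢
        exact (a2 s hs.1).2.continuousAt.continuousWithinAt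
      have c2 : ContinuousOn (fun s => TT.symm (h (v (TT z) s))) (uIcc 0 t) :=
        TT.symm.continuous.comp_continuousOn (hh.1.continuousOn.comp c1 fun s hs => by
          rw [uIcc_of_le ht] at hs
          exact (a2 s hs.1).1)
      refine ⟨mem_TT'.2 (a2 t ht).1, c2.intervalIntegrable, ?_⟩
      have := intervalIntegral.integral_eq_sub_of_hasDerivAt (f := fun s => -TT.symm (v (TT z) s))
        (a := 0) (b := t) (f' := fun s => TT.symm (h (v (TT z) s))) (fun s hs => by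
          rw [uIcc_of_le ht] at hs
          have b1 := (((TT.symm : ℂ × ℂ →L[ℂ] E2).restrictScalars ℝ).hasFDerivAt.comp_hasDerivAt s
            (a2 s hs.1).2).neg
          exact b1.congr_deriv (by simp)) c2.intervalIntegrable
      rw [this, a1]
      simp
    · have := (TT.symm.continuous.tendsto _).comp a3
      refine this.congr fun t => ?_
      simp only [Function.comp_apply, ← map_smul]
      congr 1
      simp [expA, Prod.smul_def]

/-- The slice whose second derivative is the functional. -/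
noncomputable def sl (g : E2 → E2) (ζ : ℂ) : ℂ := (TT (g (TT.symm (0, ζ)))).1

lemma ax_mem {ζ : ℂ} (h : ‖ζ‖ < 1) : TT.symm (0, ζ) ∈ ball (0 : E2) 1 := by
  rw [mem_TT']
  show ‖(0 : ℂ)‖ ^ 2 + ‖ζ‖ ^ 2 < 1
  simp only [norm_zero]
  nlinarith [norm_nonneg ζ]

lemma sl_diff {g : E2 → E2} (hg : DifferentiableOn ℂ g (ball 0 1)) :
    DifferentiableOn ℂ (sl g) (ball 0 1) :=
  (TT.differentiable.comp_differentiableOn (hg.comp (TT.symm.differentiable.comp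
    (by fun_prop : Differentiable ℂ fun ζ : ℂ => ((0 : ℂ), ζ))).differentiableOn
    fun _ hζ => ax_mem (by simpa using hζ))).fst

lemma sl_cauchy {g : E2 → E2} (hg : DifferentiableOn ℂ g (ball 0 1)) {r C : ℝ} (h0 : 0 < r)
    (h1 : r < 1) (hC : ∀ ζ : ℂ, ‖ζ‖ = r → ‖sl g ζ‖ ≤ C) :
    ‖iteratedDeriv 2 (sl g) 0‖ ≤ 2 * C / r ^ 2 := by
  have := Complex.norm_iteratedDeriv_le_of_forall_mem_sphere_norm_le (f := sl g) (c := 0) 2 h0
    (DifferentiableOn.diffContOnCl (by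
      rw [closure_ball _ h0.ne']
      exact (sl_diff hg).mono (closedBall_subset_ball h1))) (C := C)
    (fun ζ hζ => hC ζ (by simpa using hζ))
  simpa using this

lemma sl_bound {g : E2 → E2} (hg : DifferentiableOn ℂ g (ball 0 1)) {h v : E2 → ℝ → E2}
    (h1 : ∀ t : ℝ, DifferentiableOn ℂ (fun z => h z t) (ball (0 : E2) 1) ∧ h 0 t = 0 ∧
        fderiv ℂ (fun z => h z t) 0 = ContinuousLinearMap.id ℂ E2 ∧
        ∀ z ∈ ball (0 : E2) 1, z ≠ 0 → 0 < (inner ℂ z (h z t)).re)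
    (h2 : ∀ z ∈ ball (0 : E2) 1, (∀ t : ℝ, 0 ≤ t → v z t ∈ ball (0 : E2) 1 ∧
          IntervalIntegrable (fun s => h (v z s) s) volume 0 t ∧
          v z t = z - ∫ s in (0:ℝ)..t, h (v z s) s) ∧
        Tendsto (fun t : ℝ => ((Real.exp t : ℝ) : ℂ) • v z t) atTop (𝓝 (g z))) :
    ‖iteratedDeriv 2 (sl g) 0‖ ≤ 2 * a0 1 := by
  have key : ∀ ζ : ℂ, ζ ≠ 0 → ‖ζ‖ ≤ 1 / 10000 →
      ‖sl g ζ‖ ≤ a0 1 * ‖ζ‖ ^ 2 + (7200 * a0 1 + 12000000) * ‖ζ‖ ^ 3 := fun ζ h0 hζ => by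
    obtain ⟨a1, a2⟩ := h2 _ (ax_mem (ζ := ζ) (by linarith))
    have b1 := coef_bound (h := fun t p => TT (h (TT.symm p) t))
      (fun t => toNA (h1 t).1 (h1 t).2.1 (h1 t).2.2.1 (h1 t).2.2.2)
      (v := fun t => TT (v (TT.symm (0, ζ)) t)) h0 hζ (fun t ht => by
        obtain ⟨-, c2, c3⟩ := a1 t ht
        simp only [ContinuousLinearEquiv.symm_apply_apply]
        refine ⟨⟨(TT : E2 →L[ℂ] ℂ × ℂ).integrable_comp c2.1,
          (TT : E2 →L[ℂ] ℂ × ℂ).integrable_comp c2.2⟩, ?_⟩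
        have := (TT : E2 →L[ℂ] ℂ × ℂ).intervalIntegral_comp_comm c2
        simp only [ContinuousLinearEquiv.coe_coe] at this
        rw [this]
        conv_lhs => rw [c3]
        simp)
    have b2 := (((continuous_fst.comp TT.continuous).tendsto _).comp a2).norm
    refine le_of_tendsto b2 ?_
    filter_upwards [eventually_ge_atTop 0] with t ht
    have := b1 t ht
    simpa using this
  have t1 : Tendsto (fun r : ℝ => 2 * (a0 1 + (7200 * a0 1 + 12000000) * r)) (𝓝[>] 0)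
      (𝓝 (2 * (a0 1 + (7200 * a0 1 + 12000000) * 0))) :=
    (Continuous.tendsto (by fun_prop) 0).mono_left nhdsWithin_le_nhds
  have := ge_of_tendsto t1 (by
    filter_upwards [Ioo_mem_nhdsGT (show (0 : ℝ) < 1 / 10000 by norm_num)] with r hr
    have h0 := hr.1
    refine (sl_cauchy hg hr.1 (by linarith [hr.2])
      (C := a0 1 * r ^ 2 + (7200 * a0 1 + 12000000) * r ^ 3) fun ζ hζ => ?_).trans (le_of_eq ?_)
    · rw [← hζ]
      exact key ζ (by rintro rfl; simp at hζ; linarith) (by linarith [hr.2])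
    · field_simp)
  simpa using this

lemma fe_fderiv (c κ : ℝ) (e : ℂ) :
    HasFDerivAt (fe c κ e) (ContinuousLinearMap.id ℂ (ℂ × ℂ)) 0 := by
  have f1 : HasFDerivAt (fun z : ℂ × ℂ => z.1) (ContinuousLinearMap.fst ℂ ℂ ℂ) 0 := hasFDerivAt_fst
  have f2 : HasFDerivAt (fun z : ℂ × ℂ => z.2) (ContinuousLinearMap.snd ℂ ℂ ℂ) 0 := hasFDerivAt_snd
  have f3 := f2.pow 2
  have f4 := f1.fun_sub (f3.const_mul (κ : ℂ))
  have := ((f1.fun_add (f3.const_mul (c : ℂ))).fun_add ((f4.pow 3).const_mul e)).prodMk f2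
  refine (this.congr_fderiv ?_).congr_of_eventuallyEq (Eventually.of_forall fun z => ?_)
  · ext <;> simp
  · simp [fe]

lemma fe_diff (c κ : ℝ) (e : ℂ) : Differentiable ℂ (fe c κ e) := by
  unfold fe
  fun_prop

lemma sl_fe (c κ : ℝ) (e : ℂ) :
    iteratedDeriv 2 (sl fun z => TT.symm (fe c κ e (TT z))) 0 = 2 * c := by
  have e1 : (sl fun z => TT.symm (fe c κ e (TT z))) = fun ζ : ℂ => c * ζ ^ 2 - e * κ ^ 3 * ζ ^ 6 := by
    ext ζ
    simp [sl, fe]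
    ring
  have e2 : deriv (fun ζ : ℂ => c * ζ ^ 2 - e * κ ^ 3 * ζ ^ 6) =
      fun ζ : ℂ => 2 * c * ζ - 6 * e * κ ^ 3 * ζ ^ 5 := by
    ext ζ
    have := ((hasDerivAt_pow 2 ζ).const_mul (c : ℂ)).fun_sub
      ((hasDerivAt_pow 6 ζ).const_mul (e * κ ^ 3))
    rw [this.deriv]
    norm_num
    ring
  rw [e1, iteratedDeriv_succ, iteratedDeriv_one, e2]
  have := ((hasDerivAt_id' (0 : ℂ)).const_mul (2 * c : ℂ)).fun_sub
    ((hasDerivAt_pow 5 (0 : ℂ)).const_mul (6 * e * κ ^ 3))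
  rw [this.deriv]
  simp

lemma id_NA : (fun z : ℂ × ℂ => z) ∈ NA 1 := by
  refine ⟨differentiableOn_id, rfl, (hasFDerivAt_id _).congr_fderiv
    (ContinuousLinearMap.ext fun p => by simp [Amap_one]), fun z _ h0 => ?_⟩
  have e : (inn z z).re = ‖z.1‖ ^ 2 + ‖z.2‖ ^ 2 := by
    simp [inn, Complex.mul_conj, Complex.normSq_eq_norm_sq, ← Complex.ofReal_pow]
  rw [e]
  by_contra hc
  have h6 : ‖z.1‖ ^ 2 = 0 := by nlinarith [sq_nonneg ‖z.1‖, sq_nonneg ‖z.2‖]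
  have h7 : ‖z.2‖ ^ 2 = 0 := by nlinarith [sq_nonneg ‖z.1‖, sq_nonneg ‖z.2‖]
  exact h0 (Prod.ext (by simpa using h6) (by simpa using h7))

lemma id_flow (z : ℂ × ℂ) (hz : z ∈ ball2) : mu 1 0 • z = z ∧
    (∀ t, 0 ≤ t → mu 1 t • z ∈ ball2 ∧ HasDerivAt (fun t => mu 1 t • z) (-(mu 1 t • z)) t) ∧
    Tendsto (fun t => expA 1 t (mu 1 t • z)) atTop (𝓝 z) := by
  refine ⟨by simp [mu], fun t ht => ⟨?_, ?_⟩, ?_⟩
  · have h1 : ‖mu 1 t‖ ^ 2 ≤ 1 := pow_le_one₀ (norm_nonneg _) (mu_le (by linarith))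
    have h2 : ‖z.1‖ ^ 2 + ‖z.2‖ ^ 2 < 1 := hz
    show ‖(mu 1 t • z).1‖ ^ 2 + ‖(mu 1 t • z).2‖ ^ 2 < 1
    simp only [Prod.smul_fst, Prod.smul_snd, norm_smul, mul_pow]
    nlinarith [sq_nonneg ‖z.1‖, sq_nonneg ‖z.2‖]
  · exact ((mu_deriv 1 t).smul_const z).congr_deriv (by simp)
  · refine tendsto_const_nhds.congr fun t => ?_
    have ex : (Real.exp t : ℂ) * mu 1 t = 1 := by
      rw [mu, ← Complex.ofReal_mul, ← Real.exp_add]; simp
    simp only [expA, mul_one, Prod.smul_fst, Prod.smul_snd, smul_eq_mul, ← mul_assoc, ex, one_mul]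

end Pool.Agent.H58.Spi
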