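import Mathlib
import Pool.Agent.H58.Spi7

set_option autoImplicit false

namespace Pool.Agent.H58.Spi

open Set Metric Filter Topology Function

/-- Injective, locally invertible maps with a starlikeness field. -/
structure Good (F : ℂ × ℂ → ℂ × ℂ) : Prop where
  cd : ∀ z ∈ ball2, ContDiffAt ℂ 3 F z
  inj : InjOn F ball2
  zero : F 0 = 0
  d0 : HasFDerivAt F (ContinuousLinearMap.id ℂ (ℂ × ℂ)) 0
  fld : ∀ z ∈ ball2, ∃ D : (ℂ × ℂ) ≃L[ℂ] (ℂ × ℂ), HasFDerivAt F (D : ℂ × ℂ →L[ℂ] ℂ × ℂ) z ∧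
    (z ≠ 0 → 0 < (inn (D.symm (F z)) z).re)
  bd : ∃ M, ∀ z ∈ ball2, ‖F z‖ ≤ M

lemma zero_mem2 : (0 : ℂ × ℂ) ∈ ball2 := by simp [ball2]

namespace Good

variable {F : ℂ × ℂ → ℂ × ℂ}

lemma linv (hF : Good F) {z : ℂ × ℂ} (hz : z ∈ ball2) : invFunOn F ball2 (F z) = z :=
  hF.inj.leftInvOn_invFunOn hz

lemma inv (hF : Good F) {z : ℂ × ℂ} (hz : z ∈ ball2) {D : (ℂ × ℂ) ≃L[ℂ] (ℂ × ℂ)}
    (hD : HasFDerivAt F (D : ℂ × ℂ →L[ℂ] ℂ × ℂ) z) :
    F '' ball2 ∈ 𝓝 (F z) ∧ ContDiffAt ℂ 3 (invFunOn F ball2) (F z) ∧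
      HasFDerivAt (invFunOn F ball2) (D.symm : ℂ × ℂ →L[ℂ] ℂ × ℂ) (F z) := by
  have h3 : (3 : WithTop ℕ∞) ≠ 0 := by norm_num
  have hs := (hF.cd z hz).hasStrictFDerivAt' hD h3
  have hl : ∀ᶠ x in 𝓝 z, invFunOn F ball2 (F x) = x := by
    filter_upwards [isOpen_ball2.mem_nhds hz] with x hx using hF.linv hx
  refine ⟨?_, ((hF.cd z hz).to_localInverse hD h3).congr_of_eventuallyEq
    (hs.localInverse_unique hl), (hs.to_local_left_inverse hl).hasFDerivAt⟩
  rw [← hs.map_nhds_eq_of_equiv]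
  exact image_mem_map (isOpen_ball2.mem_nhds hz)

lemma star (hF : Good F) {z : ℂ × ℂ} (hz : z ∈ ball2) (T : ℝ) (hT : 0 ≤ T) :
    mu 1 T • F z ∈ F '' ball2 := by
  set N : ℂ × ℂ → ℝ := fun w => ‖w.1‖ ^ 2 + ‖w.2‖ ^ 2 with hN
  have Nc : Continuous N := by fun_prop
  set K := {w | N w ≤ N z} with hK
  have Kb : K ⊆ ball2 := fun w hw => lt_of_le_of_lt (show N w ≤ N z from hw) hz
  have Kc : IsCompact K := by
    refine isCompact_of_isClosed_isBounded (isClosed_le Nc continuous_const)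
      ((isBounded_closedBall (x := (0 : ℂ × ℂ)) (r := 1)).subset fun w hw => ?_)
    rw [mem_closedBall_zero_iff, Prod.norm_def, max_le_iff]
    exact norms_lt (Kb hw)
  have Fc : IsClosed (F '' K) := (Kc.image_of_continuousOn fun w hw =>
    (hF.cd w (Kb hw)).continuousAt.continuousWithinAt).isClosed
  have mc : Continuous fun t => mu 1 t • F z :=
    (continuous_iff_continuousAt.2 fun t => (mu_deriv 1 t).continuousAt).smul continuous_const
  have := IsClosed.Icc_subset_of_forall_mem_nhdsWithin (a := 0) (b := T)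
    (s := (fun t => mu 1 t • F z) ⁻¹' (F '' K)) ((Fc.preimage mc).inter isClosed_Icc)
    ⟨z, le_refl (N z), by simp [mu]⟩ ?_
  · exact image_mono Kb (this ⟨hT, le_rfl⟩)
  rintro t ⟨⟨w, hw, he⟩, -⟩
  rcases eq_or_ne w 0 with rfl | h0
  · have h1 : F z = 0 := by
      rw [hF.zero] at he
      exact (smul_eq_zero.1 he.symm).resolve_left (mu_ne 1 t)
    exact Eventually.of_forall fun u => ⟨0, hw, by simp [h1, hF.zero]⟩
  obtain ⟨D, hD, hp⟩ := hF.fld w (Kb hw)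
  obtain ⟨i1, -, i3⟩ := hF.inv (Kb hw) hD
  have he' : F w = mu 1 t • F z := he
  rw [he'] at i1 i3
  have d1 : HasDerivAt (fun u => invFunOn F ball2 (mu 1 u • F z)) (-D.symm (F w)) t := by
    have := (i3.restrictScalars ℝ).comp_hasDerivAt t ((mu_deriv 1 t).smul_const (F z))
    refine this.congr_deriv ?_
    simp [he']
  have v0 : invFunOn F ball2 (mu 1 t • F z) = w := by rw [← he', hF.linv (Kb hw)]
  have dN : HasDerivAt (fun u => N (invFunOn F ball2 (mu 1 u • F z)))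
      (-2 * (inn (D.symm (F w)) w).re) t := by
    have a1 := ((hasFDerivAt_fst (𝕜 := ℝ) (p := invFunOn F ball2 (mu 1 t • F z))).comp_hasDerivAt
      t d1).norm_sq
    have a2 := ((hasFDerivAt_snd (𝕜 := ℝ) (p := invFunOn F ball2 (mu 1 t • F z))).comp_hasDerivAt
      t d1).norm_sq
    refine (a1.add a2).congr_deriv ?_
    simp [inn, Complex.inner, v0]
    ring
  have e1 := (hasDerivAt_iff_tendsto_slope.1 dN).eventually
    (gt_mem_nhds (show -2 * (inn (D.symm (F w)) w).re < 0 by linarith [hp h0]))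
  filter_upwards [nhdsGT_le_nhdsNE t e1, self_mem_nhdsWithin,
    mem_nhdsWithin_of_mem_nhds (mc.continuousAt.preimage_mem_nhds i1)] with u hu hu' hu2
  refine ⟨_, ?_, invFunOn_eq hu2⟩
  rw [slope_def_field, v0, div_neg_iff] at hu
  have h2 : 0 < u - t := sub_pos.2 hu'
  show N _ ≤ N z
  have h3 : N w ≤ N z := hw
  rcases hu with h | h <;> linarith [h.1, h.2]

lemma star' (hF : Good F) {z : ℂ × ℂ} (hz : z ∈ ball2) {a : ℝ} (ha : a ≤ 0) :
    ∃ w ∈ ball2, F w = (Real.exp a : ℂ) • F z := by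
  have := hF.star hz (-a) (by linarith)
  simpa [mu] using this

lemma conj (hF : Good F) (V : (ℂ × ℂ) ≃L[ℂ] (ℂ × ℂ)) (hV : ∀ x y, inn (V x) (V y) = inn x y) :
    Good fun z => V.symm (F (V z)) := by
  have e : ∀ z : ℂ × ℂ, (inn z z).re = ‖z.1‖ ^ 2 + ‖z.2‖ ^ 2 := fun z => by
    simp [inn, Complex.mul_conj, Complex.normSq_eq_norm_sq, -Complex.ofReal_pow]
  have hm : ∀ z ∈ ball2, V z ∈ ball2 := fun z hz => by
    show ‖(V z).1‖ ^ 2 + ‖(V z).2‖ ^ 2 < 1
    rw [← e, hV, e]; exact hz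
  refine ⟨fun z hz => V.symm.contDiff.contDiffAt.comp z ((hF.cd _ (hm z hz)).comp z
    V.contDiff.contDiffAt), fun z hz w hw he => V.injective (hF.inj (hm z hz) (hm w hw)
    (V.symm.injective he)), by simp [hF.zero], ?_, fun z hz => ?_, ?_⟩
  · have a1 : HasFDerivAt F (ContinuousLinearMap.id ℂ (ℂ × ℂ)) (V 0) := by
      rw [map_zero]; exact hF.d0
    exact (V.symm.hasFDerivAt.comp 0 (a1.comp 0 V.hasFDerivAt)).congr_fderiv
      (ContinuousLinearMap.ext fun p => by simp)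
  · obtain ⟨D, hD, hp⟩ := hF.fld _ (hm z hz)
    refine ⟨(V.trans D).trans V.symm, V.symm.hasFDerivAt.comp z (hD.comp z V.hasFDerivAt),
      fun h0 => ?_⟩
    rw [← hV]
    simpa using hp (by simpa using h0)
  · obtain ⟨M, hM⟩ := hF.bd
    exact ⟨‖(V.symm : ℂ × ℂ →L[ℂ] ℂ × ℂ)‖ * M, fun z hz =>
      ((V.symm : ℂ × ℂ →L[ℂ] ℂ × ℂ).le_opNorm _).trans
        (mul_le_mul_of_nonneg_left (hM _ (hm z hz)) (norm_nonneg _))⟩

end Good

/-- The two-stage chain. -/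
noncomputable def two (F1 F2 : ℂ × ℂ → ℂ × ℂ) (T t : ℝ) (z : ℂ × ℂ) : ℂ × ℂ :=
  (Real.exp (max t T) : ℂ) • F2 (invFunOn F1 ball2 ((Real.exp (min t T - T) : ℂ) • F1 z))

section
variable {F1 F2 : ℂ × ℂ → ℂ × ℂ} (h1 : Good F1) (h2 : Good F2)
include h1

lemma mid {a : ℝ} (ha : a ≤ 0) {z : ℂ × ℂ} (hz : z ∈ ball2) :
    invFunOn F1 ball2 ((Real.exp a : ℂ) • F1 z) ∈ ball2 ∧
    F1 (invFunOn F1 ball2 ((Real.exp a : ℂ) • F1 z)) = (Real.exp a : ℂ) • F1 z ∧
    ContDiffAt ℂ 3 (fun z => invFunOn F1 ball2 ((Real.exp a : ℂ) • F1 z)) z := by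
  obtain ⟨w, hw, he⟩ := h1.star' hz ha
  obtain ⟨D, hD, -⟩ := h1.fld w hw
  have := (h1.inv hw hD).2.1
  rw [he] at this
  refine ⟨?_, ?_, ContDiffAt.comp (g := invFunOn F1 ball2)
    (f := fun z => (Real.exp a : ℂ) • F1 z) z this ((h1.cd z hz).const_smul _)⟩ <;>
    rw [← he, h1.linv hw]
  exact hw

include h2

lemma two_cd (T t : ℝ) {z : ℂ × ℂ} (hz : z ∈ ball2) : ContDiffAt ℂ 3 (two F1 F2 T t) z := by
  obtain ⟨a1, -, a3⟩ := mid h1 (a := min t T - T) (by linarith [min_le_right t T]) hz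
  exact ((h2.cd _ a1).comp z a3).const_smul _

lemma two_inj (T t : ℝ) : InjOn (two F1 F2 T t) ball2 := fun z hz w hw he => by
  obtain ⟨a1, a2, -⟩ := mid h1 (a := min t T - T) (by linarith [min_le_right t T]) hz
  obtain ⟨b1, b2, -⟩ := mid h1 (a := min t T - T) (by linarith [min_le_right t T]) hw
  have := h2.inj a1 b1 (smul_right_injective _ (by simp) he)
  rw [this, b2] at a2
  exact h1.inj hz hw (smul_right_injective _ (by simp) a2.symm)

lemma two_zero (T t : ℝ) : two F1 F2 T t 0 = 0 := by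
  have := h1.linv zero_mem2
  rw [h1.zero] at this
  simp [two, h1.zero, this, h2.zero]

lemma two_d0 (T t : ℝ) : ∃ A : ℂ × ℂ →L[ℂ] ℂ × ℂ, HasFDerivAt (two F1 F2 T t) A 0 ∧
    ∀ p, A p = (Real.exp t : ℂ) • p := by
  have l0 := h1.linv zero_mem2
  have a1 := (h1.inv zero_mem2 (D := ContinuousLinearEquiv.refl ℂ _) h1.d0).2.2
  rw [h1.zero] at l0 a1
  have a2 : HasFDerivAt (invFunOn F1 ball2)
      ((ContinuousLinearEquiv.refl ℂ (ℂ × ℂ)).symm : ℂ × ℂ →L[ℂ] ℂ × ℂ)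
      ((Real.exp (min t T - T) : ℂ) • F1 0) := by
    rw [h1.zero, smul_zero]; exact a1
  have a3 : HasFDerivAt F2 (ContinuousLinearMap.id ℂ (ℂ × ℂ)) (invFunOn F1 ball2 ((Real.exp (min t T - T) : ℂ) • F1 0)) := by
    rw [h1.zero, smul_zero, l0]; exact h2.d0
  refine ⟨_, (a3.comp 0 (a2.comp 0 (h1.d0.const_smul (Real.exp (min t T - T) : ℂ)))).const_smul
    (Real.exp (max t T) : ℂ), fun p => ?_⟩
  have : (Real.exp (max t T) : ℂ) * (Real.exp (min t T - T) : ℂ) = Real.exp t := by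
    rw [← Complex.ofReal_mul, ← Real.exp_add]
    congr 2
    linarith [min_add_max t T]
  simp only [ContinuousLinearMap.smul_apply, ContinuousLinearMap.comp_apply,
    ContinuousLinearMap.id_apply, ContinuousLinearEquiv.coe_coe, ContinuousLinearEquiv.refl_symm,
    ContinuousLinearEquiv.refl_apply, smul_smul, this]

lemma two_mono (T : ℝ) {s t : ℝ} (hst : s ≤ t) {z : ℂ × ℂ} (hz : z ∈ ball2) :
    ∃ w ∈ ball2, two F1 F2 T t w = two F1 F2 T s z := by
  rcases le_total t T with h | h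
  · obtain ⟨w, hw, he⟩ := h1.star' hz (a := s - t) (by linarith)
    refine ⟨w, hw, ?_⟩
    simp only [two, max_eq_right h, max_eq_right (hst.trans h), min_eq_left h,
      min_eq_left (hst.trans h), he, smul_smul, ← Complex.ofReal_mul, ← Real.exp_add]
    congr 5
    ring
  · obtain ⟨a1, -, -⟩ := mid h1 (a := min s T - T) (by linarith [min_le_right s T]) hz
    obtain ⟨w, hw, he⟩ := h2.star' a1 (a := max s T - t) (by linarith [max_le hst h])
    refine ⟨w, hw, ?_⟩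
    simp only [two, max_eq_left h, min_eq_right h, sub_self, Real.exp_zero, Complex.ofReal_one,
      one_smul, h1.linv hw, he, smul_smul, ← Complex.ofReal_mul, ← Real.exp_add]
    congr 3
    ring

lemma two_bd (T : ℝ) (hT : 0 ≤ T) : ∃ M, ∀ t, 0 ≤ t → ∀ z ∈ ball2,
    ‖two F1 F2 T t z‖ ≤ M * Real.exp t := by
  obtain ⟨M, hM⟩ := h2.bd
  refine ⟨M * Real.exp T, fun t ht z hz => ?_⟩
  obtain ⟨a1, -, -⟩ := mid h1 (a := min t T - T) (by linarith [min_le_right t T]) hz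
  have hM0 : 0 ≤ M := (norm_nonneg _).trans (hM 0 zero_mem2)
  rw [two, norm_smul, Complex.norm_real, Real.norm_of_nonneg (Real.exp_pos _).le, mul_comm,
    mul_assoc, ← Real.exp_add]
  exact mul_le_mul (hM _ a1) (Real.exp_le_exp.2 (max_le (by linarith) (by linarith)))
    (Real.exp_pos _).le hM0

end

end Pool.Agent.H58.Spi
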