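import Mathlib

set_option autoImplicit false

namespace Pool.Agent.H58.Spi

open Set Metric Filter Topology Asymptotics Complex

/-- Third-order jet at the origin. -/
def J (f : ℂ → ℂ) (a0 a1 a2 a3 : ℂ) : Prop :=
  (fun ζ => f ζ - (a0 + a1 * ζ + a2 * ζ ^ 2 + a3 * ζ ^ 3)) =O[𝓝 0] fun ζ : ℂ => ζ ^ 4

namespace J

variable {f g : ℂ → ℂ} {a0 a1 a2 a3 b0 b1 b2 b3 : ℂ}

lemma of_cont {q : ℂ → ℂ} (hq : ContinuousAt q 0)
    (h : ∀ᶠ ζ in 𝓝 (0 : ℂ), f ζ - (a0 + a1 * ζ + a2 * ζ ^ 2 + a3 * ζ ^ 3) = q ζ * ζ ^ 4) :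
    J f a0 a1 a2 a3 := by
  have := (hq.isBigO_one ℂ).mul (isBigO_refl (fun ζ : ℂ => ζ ^ 4) (𝓝 0))
  simp only [one_mul] at this
  exact this.congr' (h.mono fun _ h => h.symm) EventuallyEq.rfl

lemma congr (h : J f a0 a1 a2 a3) (e : f =ᶠ[𝓝 0] g) : J g a0 a1 a2 a3 :=
  IsBigO.congr' h (e.mono fun _ h => by simp only [h]) EventuallyEq.rfl

lemma coef (h : J f a0 a1 a2 a3) (e0 : a0 = b0) (e1 : a1 = b1) (e2 : a2 = b2) (e3 : a3 = b3) :
    J f b0 b1 b2 b3 := by subst e0 e1 e2 e3; exact h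

lemma add (h : J f a0 a1 a2 a3) (k : J g b0 b1 b2 b3) :
    J (fun ζ => f ζ + g ζ) (a0 + b0) (a1 + b1) (a2 + b2) (a3 + b3) :=
  (IsBigO.add h k).congr_left fun _ => by ring

lemma cmul (c : ℂ) (h : J f a0 a1 a2 a3) :
    J (fun ζ => c * f ζ) (c * a0) (c * a1) (c * a2) (c * a3) :=
  (IsBigO.const_mul_left h c).congr_left fun _ => by ring

lemma const (c : ℂ) : J (fun _ => c) c 0 0 0 := of_cont (q := fun _ => 0) continuousAt_const
  (Eventually.of_forall fun _ => by ring)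

lemma id : J (fun ζ => ζ) 0 1 0 0 := of_cont (q := fun _ => 0) continuousAt_const
  (Eventually.of_forall fun _ => by ring)

lemma tendsto (h : J f a0 a1 a2 a3) : Tendsto f (𝓝 0) (𝓝 a0) := by
  have h1 : Tendsto (fun ζ : ℂ => ζ ^ 4) (𝓝 0) (𝓝 0) := by
    simpa using (continuous_pow 4).tendsto (0 : ℂ)
  have h2 : Tendsto (fun ζ : ℂ => a0 + a1 * ζ + a2 * ζ ^ 2 + a3 * ζ ^ 3) (𝓝 0) (𝓝 a0) := by
    have : Continuous fun ζ : ℂ => a0 + a1 * ζ + a2 * ζ ^ 2 + a3 * ζ ^ 3 := by fun_prop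
    simpa using this.tendsto 0
  simpa using (IsBigO.trans_tendsto h h1).add h2

lemma mul (h : J f a0 a1 a2 a3) (k : J g b0 b1 b2 b3) :
    J (fun ζ => f ζ * g ζ) (a0 * b0) (a0 * b1 + a1 * b0) (a0 * b2 + a1 * b1 + a2 * b0)
      (a0 * b3 + a1 * b2 + a2 * b1 + a3 * b0) := by
  have c1 : Continuous fun ζ : ℂ => a0 + a1 * ζ + a2 * ζ ^ 2 + a3 * ζ ^ 3 := by fun_prop
  have c2 : Continuous fun ζ : ℂ => (a1 * b3 + a2 * b2 + a3 * b1) + (a2 * b3 + a3 * b2) * ζ +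
    a3 * b3 * ζ ^ 2 := by fun_prop
  have h1 := IsBigO.mul h (k.tendsto.isBigO_one ℂ)
  have h2 := ((c1.tendsto 0).isBigO_one ℂ).mul k
  have h3 := ((c2.tendsto 0).isBigO_one ℂ).mul (isBigO_refl (fun ζ : ℂ => ζ ^ 4) (𝓝 0))
  simp only [one_mul, mul_one] at h1 h2 h3
  exact ((h1.add h2).add h3).congr_left fun _ => by ring

lemma comp (h : J f a0 a1 a2 a3) (k : J g 0 b1 b2 b3) :
    J (fun ζ => f (g ζ)) a0 (a1 * b1) (a1 * b2 + a2 * b1 ^ 2)
      (a1 * b3 + 2 * a2 * b1 * b2 + a3 * b1 ^ 3) := by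
  have h1 := IsBigO.comp_tendsto h k.tendsto
  have h2 : g =O[𝓝 0] fun ζ : ℂ => ζ := by
    have c1 : Continuous fun ζ : ℂ => b1 + b2 * ζ + b3 * ζ ^ 2 := by fun_prop
    have c2 : Continuous fun ζ : ℂ => ζ ^ 3 := by fun_prop
    have a1 := ((c1.tendsto 0).isBigO_one ℂ).mul (isBigO_refl (fun ζ : ℂ => ζ) (𝓝 0))
    have a2 := ((c2.tendsto 0).isBigO_one ℂ).mul (isBigO_refl (fun ζ : ℂ => ζ) (𝓝 0))
    simp only [one_mul] at a1 a2
    exact ((IsBigO.trans k (a2.congr_left fun _ => by ring)).add a1).congr_left fun _ => by ring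
  have h3 := (((const a0).add (k.cmul a1)).add ((k.mul k).cmul a2)).add (((k.mul k).mul k).cmul a3)
  exact ((h1.trans (h2.pow 4)).add h3).congr_left fun _ => by
    simp only [Function.comp_apply]; ring

lemma third (h : J f a0 a1 a2 a3) {R : ℝ} (hR : 0 < R) (hd : DifferentiableOn ℂ f (ball 0 R)) :
    iteratedDeriv 3 f 0 = 6 * a3 := by
  set p : ℂ → ℂ := fun ζ => a0 + a1 * ζ + a2 * ζ ^ 2 + a3 * ζ ^ 3 with hp
  have pd : ContDiff ℂ 3 p := by simp only [hp]; fun_prop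
  have e1 : deriv p = fun ζ => a1 + 2 * a2 * ζ + 3 * a3 * ζ ^ 2 := by
    ext ζ
    have := ((((hasDerivAt_id' ζ).const_mul a1).const_add a0).fun_add
      ((hasDerivAt_pow 2 ζ).const_mul a2)).fun_add ((hasDerivAt_pow 3 ζ).const_mul a3)
    rw [this.deriv]; norm_num; ring
  have e2 : deriv (deriv p) = fun ζ => 2 * a2 + 6 * a3 * ζ := by
    ext ζ
    have := (((hasDerivAt_id' ζ).const_mul (2 * a2)).const_add a1).fun_add
      ((hasDerivAt_pow 2 ζ).const_mul (3 * a3))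
    rw [e1, this.deriv]; norm_num; ring
  have e3 : iteratedDeriv 3 p 0 = 6 * a3 := by
    rw [iteratedDeriv_succ, iteratedDeriv_succ, iteratedDeriv_one, e2,
      (((hasDerivAt_id' (0 : ℂ)).const_mul (6 * a3)).const_add (2 * a2)).deriv, mul_one]
  have fd : ContDiffAt ℂ 3 f 0 := (hd.contDiffOn isOpen_ball).contDiffAt (ball_mem_nhds _ hR)
  have e4 := iteratedDeriv_sub fd pd.contDiffAt
  obtain ⟨C, hC⟩ := isBigO_iff.1 h
  obtain ⟨ε, hε, hb⟩ := Metric.eventually_nhds_iff.1 hC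
  have t1 : Tendsto (fun r : ℝ => 6 * (C * r)) (𝓝[>] 0) (𝓝 (6 * (C * 0))) :=
    (Continuous.tendsto (by fun_prop) 0).mono_left nhdsWithin_le_nhds
  have : ‖iteratedDeriv 3 (f - p) 0‖ ≤ 6 * (C * 0) := ge_of_tendsto t1 (by
    filter_upwards [Ioo_mem_nhdsGT (lt_min hε hR)] with r hr
    have h0 := hr.1
    have := norm_iteratedDeriv_le_of_forall_mem_sphere_norm_le (f := f - p) (c := 0) 3 h0
      (DifferentiableOn.diffContOnCl (by
        rw [closure_ball _ h0.ne']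
        exact (hd.mono (closedBall_subset_ball (hr.2.trans_le (min_le_right _ _)))).sub
          (pd.differentiable (by norm_num)).differentiableOn)) (C := C * r ^ 4) (fun ζ hζ => by
        have h1 : ‖ζ‖ = r := by simpa using hζ
        have := hb (y := ζ) (by simpa [h1] using hr.2.trans_le (min_le_left _ _))
        rwa [norm_pow, h1] at this)
    refine this.trans (le_of_eq ?_)
    norm_num [Nat.factorial]
    field_simp)
  rw [e4, e3, mul_zero, mul_zero, norm_le_zero_iff, sub_eq_zero] at this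
  exact this

lemma exist {R : ℝ} (hR : 0 < R) (hd : DifferentiableOn ℂ f (ball 0 R)) :
    ∃ a1 a2 a3, J f (f 0) a1 a2 a3 := by
  have hn : ball (0 : ℂ) R ∈ 𝓝 (0 : ℂ) := ball_mem_nhds _ hR
  have d1 := (differentiableOn_dslope hn).2 hd
  have d2 := (differentiableOn_dslope hn).2 d1
  have d3 := (differentiableOn_dslope hn).2 d2
  have d4 := (differentiableOn_dslope hn).2 d3
  refine ⟨dslope f 0 0, dslope (dslope f 0) 0 0, dslope (dslope (dslope f 0) 0) 0 0,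
    of_cont (d4.differentiableAt hn).continuousAt (Eventually.of_forall fun ζ => ?_)⟩
  have e1 := sub_smul_dslope f 0 ζ
  have e2 := sub_smul_dslope (dslope f 0) 0 ζ
  have e3 := sub_smul_dslope (dslope (dslope f 0) 0) 0 ζ
  have e4 := sub_smul_dslope (dslope (dslope (dslope f 0) 0) 0) 0 ζ
  simp only [sub_zero, smul_eq_mul] at e1 e2 e3 e4
  linear_combination -e1 - ζ * e2 - ζ ^ 2 * e3 - ζ ^ 3 * e4

lemma step {a : ℂ} {q : ℂ → ℂ} {n : ℕ} (hq : Continuous q)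
    (h : (fun ζ => a + ζ * q ζ) =O[𝓝[≠] 0] fun ζ : ℂ => ζ ^ (n + 1)) :
    a = 0 ∧ q =O[𝓝[≠] 0] fun ζ : ℂ => ζ ^ n := by
  have h1 : Tendsto (fun ζ : ℂ => ζ ^ (n + 1)) (𝓝[≠] 0) (𝓝 0) := by
    simpa using ((continuous_pow (n + 1)).tendsto (0 : ℂ)).mono_left nhdsWithin_le_nhds
  have h2 : Tendsto (fun ζ => a + ζ * q ζ) (𝓝[≠] 0) (𝓝 a) := by
    have : Continuous fun ζ => a + ζ * q ζ := by fun_prop
    simpa using (this.tendsto 0).mono_left nhdsWithin_le_nhds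
  have h3 : a = 0 := tendsto_nhds_unique h2 (h.trans_tendsto h1)
  refine ⟨h3, ?_⟩
  have := h.mul (isBigO_refl (fun ζ : ℂ => ζ⁻¹) (𝓝[≠] 0))
  refine this.congr' ?_ ?_ <;> filter_upwards [self_mem_nhdsWithin] with ζ hζ <;>
    have h0 : ζ ≠ 0 := hζ
  · rw [h3]; field_simp; ring
  · rw [pow_succ, mul_inv_cancel_right₀ h0]

lemma unique (h : J f a0 a1 a2 a3) (k : J f b0 b1 b2 b3) :
    a0 = b0 ∧ a1 = b1 ∧ a2 = b2 ∧ a3 = b3 := by
  have h0 : (fun ζ : ℂ => (a0 - b0) + ζ * ((a1 - b1) + ζ * ((a2 - b2) + ζ * ((a3 - b3) + ζ * 0))))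
      =O[𝓝[≠] 0] fun ζ : ℂ => ζ ^ (3 + 1) :=
    ((IsBigO.sub k h).congr_left fun _ => by ring).mono nhdsWithin_le_nhds
  obtain ⟨e0, h1⟩ := step (by fun_prop) h0
  obtain ⟨e1, h2⟩ := step (n := 2) (by fun_prop) h1
  obtain ⟨e2, h3⟩ := step (n := 1) (by fun_prop) h2
  obtain ⟨e3, -⟩ := step (n := 0) (q := fun _ => 0) (by fun_prop) h3
  exact ⟨sub_eq_zero.1 e0, sub_eq_zero.1 e1, sub_eq_zero.1 e2, sub_eq_zero.1 e3⟩

lemma geo : J (fun ζ => (1 - ζ)⁻¹) 1 1 1 1 := by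
  have h0 : ∀ᶠ ζ in 𝓝 (0 : ℂ), 1 - ζ ≠ 0 :=
    (by fun_prop : ContinuousAt (fun ζ : ℂ => 1 - ζ) 0).eventually_ne (by simp)
  refine of_cont (q := fun ζ => (1 - ζ)⁻¹) (by fun_prop (disch := simp)) (h0.mono fun ζ h => ?_)
  field_simp
  ring

lemma log1 : J (fun ζ => log (1 + ζ)) 0 1 (-1 / 2) (1 / 3) :=
  (log_sub_logTaylor_isBigO 3).congr_left fun ζ => by
    simp [logTaylor, Finset.sum_range_succ]
    ring

end J

end Pool.Agent.H58.Spi
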