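import Mathlib
import Pool.Agent.H58.Bb1
import Pool.Agent.H58.Bb2

set_option autoImplicit false

namespace Pool.Agent.H58.Spi

open Set Metric Filter Topology Complex

lemma P_pos {r : ℝ} (h0 : 0 ≤ r) (h1 : r ≤ 1) : 0 < 27 / 25 - 7857 / 2500 * r + 10827 / 62500 * r ^ 2 + 31331 / 5000 * r ^ 3 - 7145201 / 2000000 * r ^ 4 - 15617 / 5000 * r ^ 5 + 4639689 / 2000000 * r ^ 6 := by
  rcases le_total r (1 / 2) with k0 | k0
  · have u : 0 ≤ r - 0 := by linarith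
    have v : 0 ≤ 1 / 2 - r := by linarith
    have e : 27 / 25 - 7857 / 2500 * r + 10827 / 62500 * r ^ 2 + 31331 / 5000 * r ^ 3 - 7145201 / 2000000 * r ^ 4 - 15617 / 5000 * r ^ 5 + 4639689 / 2000000 * r ^ 6 =
        5053 / 100000 + 205894 / 3125 * (r - 0) ^ 0 * (1 / 2 - r) ^ 6 +
        921084 / 3125 * (r - 0) ^ 1 * (1 / 2 - r) ^ 5 +
        7628358 / 15625 * (r - 0) ^ 2 * (1 / 2 - r) ^ 4 +
        5831907 / 15625 * (r - 0) ^ 3 * (1 / 2 - r) ^ 3 +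
        13532387 / 100000 * (r - 0) ^ 4 * (1 / 2 - r) ^ 2 +
        4779131 / 250000 * (r - 0) ^ 5 * (1 / 2 - r) ^ 1 +
        869 / 2000000 * (r - 0) ^ 6 * (1 / 2 - r) ^ 0 := by ring
    rw [e]
    positivity
  rcases le_total r (3 / 4) with k1 | k1
  · have u : 0 ≤ r - 1 / 2 := by linarith
    have v : 0 ≤ 3 / 4 - r := by linarith
    have e : 27 / 25 - 7857 / 2500 * r + 10827 / 62500 * r ^ 2 + 31331 / 5000 * r ^ 3 - 7145201 / 2000000 * r ^ 4 - 15617 / 5000 * r ^ 5 + 4639689 / 2000000 * r ^ 6 =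
        21 / 6250 + 6038629 / 31250 * (r - 1 / 2) ^ 0 * (3 / 4 - r) ^ 6 +
        17117857 / 31250 * (r - 1 / 2) ^ 1 * (3 / 4 - r) ^ 5 +
        11906987 / 25000 * (r - 1 / 2) ^ 2 * (3 / 4 - r) ^ 4 +
        6706331 / 62500 * (r - 1 / 2) ^ 3 * (3 / 4 - r) ^ 3 +
        49239 / 100000 * (r - 1 / 2) ^ 4 * (3 / 4 - r) ^ 2 +
        10051497 / 500000 * (r - 1 / 2) ^ 5 * (3 / 4 - r) ^ 1 +
        14975121 / 2000000 * (r - 1 / 2) ^ 6 * (3 / 4 - r) ^ 0 := by ring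
    rw [e]
    positivity
  rcases le_total r (7 / 8) with k2 | k2
  · have u : 0 ≤ r - 3 / 4 := by linarith
    have v : 0 ≤ 7 / 8 - r := by linarith
    have e : 27 / 25 - 7857 / 2500 * r + 10827 / 62500 * r ^ 2 + 31331 / 5000 * r ^ 3 - 7145201 / 2000000 * r ^ 4 - 15617 / 5000 * r ^ 5 + 4639689 / 2000000 * r ^ 6 =
        259 / 50000 + 65681 / 31250 * (r - 3 / 4) ^ 0 * (7 / 8 - r) ^ 6 +
        5043291 / 6250 * (r - 3 / 4) ^ 1 * (7 / 8 - r) ^ 5 +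
        104993979 / 25000 * (r - 3 / 4) ^ 2 * (7 / 8 - r) ^ 4 +
        469932697 / 62500 * (r - 3 / 4) ^ 3 * (7 / 8 - r) ^ 3 +
        2835203407 / 500000 * (r - 3 / 4) ^ 4 * (7 / 8 - r) ^ 2 +
        809792983 / 500000 * (r - 3 / 4) ^ 5 * (7 / 8 - r) ^ 1 +
        150975513 / 2000000 * (r - 3 / 4) ^ 6 * (7 / 8 - r) ^ 0 := by ring
    rw [e]
    positivity
  have u : 0 ≤ r - 7 / 8 := by linarith
  have v : 0 ≤ 1 - r := by linarith
  have e : 27 / 25 - 7857 / 2500 * r + 10827 / 62500 * r ^ 2 + 31331 / 5000 * r ^ 3 - 7145201 / 2000000 * r ^ 4 - 15617 / 5000 * r ^ 5 + 4639689 / 2000000 * r ^ 6 =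
        9 / 50000 + 2772415513 / 2000000 * (r - 7 / 8) ^ 0 * (1 - r) ^ 6 +
        893823389 / 125000 * (r - 7 / 8) ^ 1 * (1 - r) ^ 5 +
        213509571 / 15625 * (r - 7 / 8) ^ 2 * (1 - r) ^ 4 +
        35479168 / 3125 * (r - 7 / 8) ^ 3 * (1 - r) ^ 3 +
        52921376 / 15625 * (r - 7 / 8) ^ 4 * (1 - r) ^ 2 +
        142848 / 15625 * (r - 7 / 8) ^ 5 * (1 - r) ^ 1 +
        1212416 / 15625 * (r - 7 / 8) ^ 6 * (1 - r) ^ 0 := by ring
  rw [e]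
  positivity

lemma real_ineq {X r t ν : ℝ} (hr : 0 ≤ r) (hX : -r ≤ X)
    (hν : ν ^ 2 = 1 + 97 / 100 * X + (97 / 100) ^ 2 * r ^ 2 / 4) (h : r ^ 2 + t ^ 2 < 1)
    (h0 : 0 < r ^ 2 + t ^ 2) : 41 / 50 * r ^ 2 * ν * t < r ^ 2 * (1 - (97 / 100) ^ 2 * r ^ 2) +
      t ^ 2 * (1 + 3 * (97 / 100) * X + 2 * (97 / 100) ^ 2 * r ^ 2) := by
  have ht := sq_nonneg t
  have hρ := sq_nonneg r
  have hr1 : r ≤ 1 := by nlinarith
  have hP := P_pos hr hr1
  set μ := 7 / 50 + 2 / 5 * (1 - r ^ 2) with hμ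
  have hμ0 : 0 < μ := by linarith
  set A := r ^ 2 * μ * (2 * (1 - (97 / 100) ^ 2 * r ^ 2) - 41 / 50 * μ) with hA
  set C := 2 * μ * (1 - 3 * (97 / 100) * r + 2 * (97 / 100) ^ 2 * r ^ 2) -
    41 / 50 * r ^ 2 * (1 - 97 / 100 * r / 2) ^ 2 with hC
  have a1 : 0 < 2 * (1 - (97 / 100) ^ 2 * r ^ 2) - 41 / 50 * μ := by linarith
  have hA0 : 0 ≤ A := by positivity
  have eP : 27 / 25 - 7857 / 2500 * r + 10827 / 62500 * r ^ 2 + 31331 / 5000 * r ^ 3 -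
      7145201 / 2000000 * r ^ 4 - 15617 / 5000 * r ^ 5 + 4639689 / 2000000 * r ^ 6 =
      A + (1 - r ^ 2) * C := by simp only [hA, hC, hμ]; ring
  rw [eP] at hP
  have a2 : 0 < A + t ^ 2 * C := by
    have b1 : 0 < (1 - r ^ 2 - t ^ 2) * A + t ^ 2 * (A + (1 - r ^ 2) * C) := by
      rcases hr.eq_or_lt with h1 | h1
      · have : 0 < t ^ 2 := by rw [← h1] at h0; simpa using h0
        have := mul_pos this hP
        have := mul_nonneg (show 0 ≤ 1 - r ^ 2 - t ^ 2 by linarith) hA0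
        linarith
      · have : 0 < A := by positivity
        have := mul_pos (show 0 < 1 - r ^ 2 - t ^ 2 by linarith) this
        have := mul_nonneg ht hP.le
        linarith
    have b2 : (1 - r ^ 2 - t ^ 2) * A + t ^ 2 * (A + (1 - r ^ 2) * C) =
      (1 - r ^ 2) * (A + t ^ 2 * C) := by ring
    rw [b2] at b1
    exact (mul_pos_iff_of_pos_left (by linarith)).1 b1
  have a3 : 0 ≤ t ^ 2 * (6 * μ - 41 / 50 * r ^ 2) * (X + r) :=
    mul_nonneg (mul_nonneg ht (by linarith)) (by linarith)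
  have a4 : 0 ≤ r ^ 2 * (t * ν - μ) ^ 2 := by positivity
  refine lt_of_mul_lt_mul_left ?_ (show 0 ≤ 2 * μ by linarith)
  have e : 2 * μ * (r ^ 2 * (1 - (97 / 100) ^ 2 * r ^ 2) +
      t ^ 2 * (1 + 3 * (97 / 100) * X + 2 * (97 / 100) ^ 2 * r ^ 2)) -
      2 * μ * (41 / 50 * r ^ 2 * ν * t) = (A + t ^ 2 * C) +
      97 / 100 * (t ^ 2 * (6 * μ - 41 / 50 * r ^ 2) * (X + r)) +
      41 / 50 * (r ^ 2 * (t * ν - μ) ^ 2) := by
    simp only [hA, hC]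
    linear_combination (-(41 / 50) * r ^ 2 * t ^ 2) * hν
  linarith

/-- Dilated Koebe function. -/
noncomputable def gk (ζ : ℂ) : ℂ := ζ * ((1 - 97 / 100 * ζ)⁻¹ * (1 - 97 / 100 * ζ)⁻¹)

/-- The logarithmic factor. -/
noncomputable def Lk (ζ : ℂ) : ℂ := -(82 / 97) * (1 / 6 * ((97 / 100 * ζ) * (97 / 100 * ζ) *
  (97 / 100 * ζ)) + -1 / 4 * ((97 / 100 * ζ) * (97 / 100 * ζ)) + -1 * (97 / 100 * ζ) +
  2 * log (1 + 97 / 100 * ζ))

/-- The base map. -/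
noncomputable def F0 (w : ℂ × ℂ) : ℂ × ℂ :=
  (gk w.1, w.2 * (1 - 97 / 100 * w.1) + gk w.1 * Lk w.1)

lemma xi_le {ζ : ℂ} (h : ‖ζ‖ ≤ 1) : ‖97 / 100 * ζ‖ ≤ 97 / 100 := by
  rw [norm_mul]
  have : ‖(97 / 100 : ℂ)‖ = 97 / 100 := by simp
  rw [this]; linarith

lemma m_lb {ζ : ℂ} (h : ‖ζ‖ ≤ 1) : 3 / 100 ≤ ‖1 - 97 / 100 * ζ‖ := by
  have := norm_sub_norm_le 1 (97 / 100 * ζ)
  rw [norm_one] at this
  linarith [xi_le h]

lemma m_ne {ζ : ℂ} (h : ‖ζ‖ ≤ 1) : 1 - 97 / 100 * ζ ≠ 0 :=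
  norm_pos_iff.1 (lt_of_lt_of_le (by norm_num) (m_lb h))

lemma p_slit {ζ : ℂ} (h : ‖ζ‖ ≤ 1) : 1 + 97 / 100 * ζ ∈ slitPlane :=
  mem_slitPlane_of_norm_lt_one ((xi_le h).trans_lt (by norm_num))

lemma gk_d {ζ : ℂ} (h : ‖ζ‖ ≤ 1) :
    HasDerivAt gk ((1 + 97 / 100 * ζ) / (1 - 97 / 100 * ζ) ^ 3) ζ := by
  have h1 := (((hasDerivAt_id' ζ).const_mul (97 / 100 : ℂ)).const_sub 1).fun_inv (m_ne h)
  refine ((hasDerivAt_id' ζ).fun_mul (h1.fun_mul h1)).congr_deriv ?_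
  have := m_ne h
  generalize hm : 1 - 97 / 100 * ζ = m at *
  field_simp
  linear_combination (-100) * hm

lemma Lk_d {ζ : ℂ} (h : ‖ζ‖ ≤ 1) : HasDerivAt Lk (-(41 / 50) * (1 + 97 / 100 * ζ / 2) *
    (1 - 97 / 100 * ζ) ^ 2 / (1 + 97 / 100 * ζ)) ζ := by
  have h1 := (hasDerivAt_id' ζ).const_mul (97 / 100 : ℂ)
  have h2 := (h1.const_add 1).clog (p_slit h)
  refine (((((((h1.fun_mul h1).fun_mul h1).const_mul (1 / 6)).fun_add
    ((h1.fun_mul h1).const_mul (-1 / 4))).fun_add (h1.const_mul (-1))).fun_add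
    (h2.const_mul 2)).const_mul (-(82 / 97))).congr_deriv ?_
  have h3 := slitPlane_ne_zero (p_slit h)
  rw [eq_div_iff h3]
  have i1 := div_mul_cancel₀ (97 / 100 * 1 : ℂ) h3
  linear_combination (-(82 / 97) * 2) * i1

/-- Triangular linear automorphisms. -/
noncomputable def tri (a b c : ℂ) (ha : a ≠ 0) (hc : c ≠ 0) : (ℂ × ℂ) ≃L[ℂ] (ℂ × ℂ) :=
  ContinuousLinearEquiv.equivOfInverse
    ((a • ContinuousLinearMap.fst ℂ ℂ ℂ).prod
      (b • ContinuousLinearMap.fst ℂ ℂ ℂ + c • ContinuousLinearMap.snd ℂ ℂ ℂ))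
    ((a⁻¹ • ContinuousLinearMap.fst ℂ ℂ ℂ).prod
      ((-b * a⁻¹ * c⁻¹) • ContinuousLinearMap.fst ℂ ℂ ℂ + c⁻¹ • ContinuousLinearMap.snd ℂ ℂ ℂ))
    (fun p => by ext <;> simp <;> field_simp <;> ring)
    (fun p => by ext <;> simp <;> field_simp <;> ring)

lemma tri_apply (a b c : ℂ) (ha : a ≠ 0) (hc : c ≠ 0) (p : ℂ × ℂ) :
    tri a b c ha hc p = (a * p.1, b * p.1 + c * p.2) := rfl

lemma F0_d {w : ℂ × ℂ} {a l : ℂ} (h1 : HasDerivAt gk a w.1) (h2 : HasDerivAt Lk l w.1)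
    (ha : a ≠ 0) (hc : 1 - 97 / 100 * w.1 ≠ 0) : HasFDerivAt F0
    (tri a (-(97 / 100) * w.2 + a * Lk w.1 + gk w.1 * l) _ ha hc : ℂ × ℂ →L[ℂ] ℂ × ℂ) w := by
  have f1 : HasFDerivAt (fun z : ℂ × ℂ => z.1) (ContinuousLinearMap.fst ℂ ℂ ℂ) w := hasFDerivAt_fst
  have f2 : HasFDerivAt (fun z : ℂ × ℂ => z.2) (ContinuousLinearMap.snd ℂ ℂ ℂ) w := hasFDerivAt_snd
  have g1 := h1.comp_hasFDerivAt w f1
  have g2 := h2.comp_hasFDerivAt w f1
  refine (g1.prodMk ((f2.fun_mul ((f1.const_mul (97 / 100 : ℂ)).const_sub 1)).fun_add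
    (g1.fun_mul g2))).congr_fderiv (ContinuousLinearMap.ext fun p => ?_)
  simp only [ContinuousLinearEquiv.coe_coe, tri_apply]
  ext <;> simp
  ring

lemma fld_pos {w : ℂ × ℂ} (hw : w ∈ ball2) (h0 : w ≠ 0) :
    0 < (inn (w.1 * (1 - 97 / 100 * w.1) / (1 + 97 / 100 * w.1),
      w.2 * (1 + 2 * (97 / 100 * w.1)) / (1 + 97 / 100 * w.1) +
      41 / 50 * w.1 ^ 2 * (1 + 97 / 100 * w.1 / 2) / (1 + 97 / 100 * w.1) ^ 2) w).re := by
  have h3 := slitPlane_ne_zero (p_slit (norms_lt hw).1)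
  set p := 1 + 97 / 100 * w.1 with hp
  have hp' : (starRingEnd ℂ) p ≠ 0 := by simpa using h3
  have hn : 0 < normSq p := normSq_pos.2 h3
  set q := 41 / 50 * w.1 ^ 2 * (1 + 97 / 100 * w.1 / 2) * (starRingEnd ℂ) w.2 *
    ((starRingEnd ℂ) p / p) with hq
  have e1 : (normSq p : ℂ) * inn (w.1 * (1 - 97 / 100 * w.1) / p,
      w.2 * (1 + 2 * (97 / 100 * w.1)) / p + 41 / 50 * w.1 ^ 2 * (1 + 97 / 100 * w.1 / 2) / p ^ 2) w
      = w.1 * (starRingEnd ℂ) w.1 * ((1 - 97 / 100 * w.1) * (starRingEnd ℂ) p) +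
        w.2 * (starRingEnd ℂ) w.2 * ((1 + 2 * (97 / 100 * w.1)) * (starRingEnd ℂ) p) + q := by
    rw [← mul_conj, hq, inn]
    field_simp
    ring
  have e2 := congrArg re e1
  rw [re_ofReal_mul, add_re, add_re, mul_conj, mul_conj, re_ofReal_mul, re_ofReal_mul,
    normSq_eq_norm_sq w.1, normSq_eq_norm_sq w.2] at e2
  have s1 : ‖w.1‖ ^ 2 = w.1.re ^ 2 + w.1.im ^ 2 := by
    rw [Complex.sq_norm, normSq_apply]; ring
  have e3 : ((1 - 97 / 100 * w.1) * (starRingEnd ℂ) p).re = 1 - (97 / 100) ^ 2 * ‖w.1‖ ^ 2 := by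
    rw [s1, mul_re, conj_re, conj_im]; simp [hp]; ring
  have e4 : ((1 + 2 * (97 / 100 * w.1)) * (starRingEnd ℂ) p).re =
      1 + 3 * (97 / 100) * w.1.re + 2 * (97 / 100) ^ 2 * ‖w.1‖ ^ 2 := by
    rw [s1, mul_re, conj_re, conj_im]; simp [hp]; ring
  have e5 : ‖q‖ = 41 / 50 * ‖w.1‖ ^ 2 * ‖1 + 97 / 100 * w.1 / 2‖ * ‖w.2‖ := by
    have : ‖p‖ ≠ 0 := norm_ne_zero_iff.2 h3
    simp [hq, this]
  have e6 : ‖1 + 97 / 100 * w.1 / 2‖ ^ 2 =
      1 + 97 / 100 * w.1.re + (97 / 100) ^ 2 * ‖w.1‖ ^ 2 / 4 := by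
    rw [s1, Complex.sq_norm, normSq_apply]; simp; ring
  have h4 : 0 < ‖w.1‖ ^ 2 + ‖w.2‖ ^ 2 := by
    have := id_NA.2.2.2 w hw h0
    simpa [inn, mul_conj, normSq_eq_norm_sq, -ofReal_pow] using this
  have k := real_ineq (norm_nonneg w.1) (neg_le_of_abs_le (abs_re_le_norm w.1)) e6 hw h4
  have k2 := neg_le_of_abs_le (abs_re_le_norm q)
  rw [e3, e4] at e2
  exact (mul_pos_iff_of_pos_left hn).1 (by linarith)

lemma good_F0 : Good F0 := by
  refine ⟨fun z hz => ?_, fun z hz w hw he => ?_, by simp [F0, gk], ?_, fun z hz => ?_, ?_⟩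
  · have h1 := m_ne (norms_lt hz).1
    have h2 := p_slit (norms_lt hz).1
    have h3 : ContDiffAt ℂ 3 (fun w : ℂ × ℂ => log (1 + 97 / 100 * w.1)) z :=
      ContDiffAt.comp (g := log) (f := fun w : ℂ × ℂ => 1 + 97 / 100 * w.1) z (contDiffAt_log h2)
        (by fun_prop)
    unfold F0 gk Lk
    fun_prop (disch := assumption)
  · have a1 := m_ne (norms_lt hz).1
    have a2 := m_ne (norms_lt hw).1
    have e1 : gk z.1 = gk w.1 := congrArg Prod.fst he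
    have e2 := congrArg Prod.snd he
    have a3 : 1 - (97 / 100 * z.1) * (97 / 100 * w.1) ≠ 0 := fun h => by
      have b1 := congrArg norm (sub_eq_zero.1 h)
      rw [norm_mul, norm_one] at b1
      have := mul_le_mul (xi_le (norms_lt hz).1) (xi_le (norms_lt hw).1) (norm_nonneg _)
        (by norm_num)
      linarith
    have e3 : z.1 = w.1 := by
      have i1 := mul_inv_cancel₀ a1
      have i2 := mul_inv_cancel₀ a2
      have b : z.1 * (1 - 97 / 100 * w.1) ^ 2 = w.1 * (1 - 97 / 100 * z.1) ^ 2 := by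
        simp only [gk] at e1
        generalize (1 - 97 / 100 * z.1) = m at *
        generalize (1 - 97 / 100 * w.1) = n at *
        field_simp at e1
        linear_combination e1
      have : (z.1 - w.1) * (1 - (97 / 100 * z.1) * (97 / 100 * w.1)) = 0 := by
        linear_combination b
      exact sub_eq_zero.1 ((mul_eq_zero.1 this).resolve_right a3)
    simp only [F0, e3, add_left_inj] at e2
    exact Prod.ext e3 (mul_right_cancel₀ a2 e2)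
  · have := F0_d (w := 0) (gk_d (by simp)) (Lk_d (by simp)) (by simp) (by simp)
    refine this.congr_fderiv (ContinuousLinearMap.ext fun p => ?_)
    simp [tri_apply, gk, Lk]
  · have n1 := (norms_lt hz).1
    have a1 := m_ne n1
    have a2 := slitPlane_ne_zero (p_slit n1)
    refine ⟨_, F0_d (gk_d n1) (Lk_d n1) (div_ne_zero a2 (pow_ne_zero 3 a1)) a1, fun h0 => ?_⟩
    convert fld_pos hz h0 using 3
    rw [ContinuousLinearEquiv.symm_apply_eq, tri_apply]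
    simp only [F0, gk]
    generalize Lk z.1 = l
    have hz1 : z.1 = 100 / 97 * (97 / 100 * z.1) := by ring
    generalize 97 / 100 * z.1 = x at *
    rw [hz1]
    refine Prod.ext ?_ ?_ <;> simp only <;> field_simp <;> ring
  · have hc : ContinuousOn F0 (closedBall 0 1) := fun z hz => by
      have n1 : ‖z.1‖ ≤ 1 := (norm_fst_le z).trans (by simpa using hz)
      have a1 := m_ne n1
      have a2 := slitPlane_ne_zero (p_slit n1)
      exact (F0_d (gk_d n1) (Lk_d n1) (div_ne_zero a2 (pow_ne_zero 3 a1))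
        a1).continuousAt.continuousWithinAt
    obtain ⟨M, hM⟩ := (isCompact_closedBall _ _).exists_bound_of_continuousOn hc
    refine ⟨M, fun z hz => hM z ?_⟩
    rw [mem_closedBall_zero_iff, Prod.norm_def, max_le_iff]
    exact norms_lt hz

end Pool.Agent.H58.Spi
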