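import Mathlib
import Pool.Agent.H58.Bb3

set_option autoImplicit false

namespace Pool.Agent.H58.Spi

open Set Metric Filter Topology Complex Function

/-- An orthogonal reflection. -/
noncomputable def VV : (ℂ × ℂ) ≃L[ℂ] (ℂ × ℂ) :=
  ContinuousLinearEquiv.equivOfInverse
    (((60 / 61 : ℂ) • ContinuousLinearMap.fst ℂ ℂ ℂ + (-11 / 61 : ℂ) •
      ContinuousLinearMap.snd ℂ ℂ ℂ).prod ((-11 / 61 : ℂ) • ContinuousLinearMap.fst ℂ ℂ ℂ +
      (-60 / 61 : ℂ) • ContinuousLinearMap.snd ℂ ℂ ℂ))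
    (((60 / 61 : ℂ) • ContinuousLinearMap.fst ℂ ℂ ℂ + (-11 / 61 : ℂ) •
      ContinuousLinearMap.snd ℂ ℂ ℂ).prod ((-11 / 61 : ℂ) • ContinuousLinearMap.fst ℂ ℂ ℂ +
      (-60 / 61 : ℂ) • ContinuousLinearMap.snd ℂ ℂ ℂ))
    (fun p => by ext <;> simp <;> ring) (fun p => by ext <;> simp <;> ring)

lemma VV_apply (p : ℂ × ℂ) :
    VV p = (60 / 61 * p.1 + -11 / 61 * p.2, -11 / 61 * p.1 + -60 / 61 * p.2) := rfl

lemma VV_symm (p : ℂ × ℂ) :
    VV.symm p = (60 / 61 * p.1 + -11 / 61 * p.2, -11 / 61 * p.1 + -60 / 61 * p.2) := rfl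

lemma VV_inn (x y : ℂ × ℂ) : inn (VV x) (VV y) = inn x y := by
  simp only [inn, VV_apply, map_add, map_mul, map_div₀, map_neg, map_ofNat]
  ring

/-- The second stage. -/
noncomputable def F2 (z : ℂ × ℂ) : ℂ × ℂ := VV.symm (F0 (VV z))

lemma good_F2 : Good F2 := good_F0.conj VV VV_inn

lemma J_geo : J (fun ζ => (1 - 97 / 100 * ζ)⁻¹) 1 (97 / 100) ((97 / 100) ^ 2) ((97 / 100) ^ 3) :=
  (J.geo.comp ((J.id.cmul (97 / 100)).coef (by ring) rfl rfl rfl)).coef rfl (by ring) (by ring)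
    (by ring)

lemma J_gk : J gk 0 1 (97 / 50) (28227 / 10000) :=
  (J.id.mul (J_geo.mul J_geo)).coef (by ring) (by ring) (by ring) (by ring)

lemma J_Lk : J Lk 0 (-41 / 50) (3977 / 4000) (-385769 / 600000) := by
  have x : J (fun ζ => 97 / 100 * ζ) 0 (97 / 100) 0 0 :=
    (J.id.cmul (97 / 100)).coef (by ring) (by ring) (by ring) (by ring)
  exact (((((((x.mul x).mul x).cmul (1 / 6)).add ((x.mul x).cmul (-1 / 4))).add (x.cmul (-1))).add
    ((J.log1.comp x).cmul 2)).cmul (-(82 / 97))).coef (by ring) (by ring) (by ring) (by ring)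

lemma ax2 {ζ : ℂ} (h : ζ ∈ ball (0 : ℂ) 1) : ((ζ, 0) : ℂ × ℂ) ∈ ball2 := by
  have : ‖ζ‖ < 1 := by simpa using h
  show ‖ζ‖ ^ 2 + ‖(0 : ℂ)‖ ^ 2 < 1
  simp only [norm_zero]
  nlinarith [norm_nonneg ζ]

lemma J_final : ∃ a2 : ℂ, ∃ a3 : ℝ, 3 < a3 ∧
    J (fun ζ => (two F0 F2 (Real.log (20 / 9)) 0 (ζ, 0)).1) 0 1 a2 a3 := by
  have hT : 0 ≤ Real.log (20 / 9) := Real.log_nonneg (by norm_num)
  have x1 : (Real.exp (max 0 (Real.log (20 / 9))) : ℂ) = 20 / 9 := by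
    rw [max_eq_right hT, Real.exp_log (by norm_num)]; norm_num
  have x2 : (Real.exp (min 0 (Real.log (20 / 9)) - Real.log (20 / 9)) : ℂ) = 9 / 20 := by
    rw [min_eq_left hT, zero_sub, Real.exp_neg, Real.exp_log (by norm_num)]; norm_num
  set w : ℂ → ℂ × ℂ := fun ζ => invFunOn F0 ball2 ((9 / 20 : ℂ) • F0 (ζ, 0)) with hw
  have hm : ∀ ζ ∈ ball (0 : ℂ) 1, w ζ ∈ ball2 ∧ F0 (w ζ) = (9 / 20 : ℂ) • F0 (ζ, 0) ∧
      DifferentiableAt ℂ w ζ := fun ζ hζ => by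
    have := mid good_F0 (a := min 0 (Real.log (20 / 9)) - Real.log (20 / 9))
      (by linarith [min_le_right 0 (Real.log (20 / 9))]) (ax2 hζ)
    rw [x2] at this
    exact ⟨this.1, this.2.1, DifferentiableAt.comp (f := fun ζ : ℂ => ((ζ, 0) : ℂ × ℂ)) ζ
      (this.2.2.differentiableAt (by norm_num)) (by fun_prop)⟩
  have w0 : w 0 = 0 := by
    have := good_F0.linv zero_mem2
    rw [good_F0.zero] at this
    have e : ((0, 0) : ℂ × ℂ) = 0 := rfl
    simp only [hw, e, good_F0.zero, smul_zero, this]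
  have hn : ball (0 : ℂ) 1 ∈ 𝓝 (0 : ℂ) := ball_mem_nhds _ one_pos
  obtain ⟨a1, a2, a3, j1⟩ := J.exist (f := fun ζ => (w ζ).1) one_pos
    fun ζ hζ => (hm ζ hζ).2.2.fst.differentiableWithinAt
  simp only [w0, Prod.fst_zero] at j1
  have q1 : ∀ ζ ∈ ball (0 : ℂ) 1, gk (w ζ).1 = 9 / 20 * gk ζ := fun ζ hζ =>
    congrArg Prod.fst (hm ζ hζ).2.1
  have m1 := (J.const 1).add (j1.cmul (-(97 / 100)))
  have j2 : J (fun ζ => (w ζ).1) _ _ _ _ := ((J_gk.cmul (9 / 20)).mul (m1.mul m1)).congr (by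
    filter_upwards [hn] with ζ hζ
    have a := m_ne (norms_lt (hm ζ hζ).1).1
    have i := mul_inv_cancel₀ a
    rw [← q1 ζ hζ, gk]
    linear_combination ((w ζ).1 * ((1 - 97 / 100 * (w ζ).1) * (1 - 97 / 100 * (w ζ).1)⁻¹ + 1)) * i)
  obtain ⟨-, e1, e2, e3⟩ := j1.unique j2
  have e1' : a1 = 9 / 20 := by linear_combination e1
  subst e1'
  have e2' : a2 = 9603 / 20000 := by linear_combination e2
  subst e2'
  have e3' : a3 = 2794473 / 16000000 := by linear_combination e3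
  subst e3'
  have j3 : J (fun ζ => (w ζ).2) _ _ _ _ := (((J_gk.cmul (9 / 20)).mul
    (J_Lk.add ((J_Lk.comp j1).cmul (-1)))).mul (J_geo.comp j1)).congr (by
    filter_upwards [hn] with ζ hζ
    have a := m_ne (norms_lt (hm ζ hζ).1).1
    have i := mul_inv_cancel₀ a
    have b := congrArg Prod.snd (hm ζ hζ).2.1
    simp only [F0, Prod.smul_snd, smul_eq_mul, q1 ζ hζ] at b
    linear_combination (w ζ).2 * i - (1 - 97 / 100 * (w ζ).1)⁻¹ * b)
  have u1 := ((j1.cmul (60 / 61)).add (j3.cmul (-11 / 61))).coef (b0 := 0) (by ring) rfl rfl rfl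
  have u2 := (j1.cmul (-11 / 61)).add (j3.cmul (-60 / 61))
  have f1 := J_gk.comp u1
  have f2 := (u2.mul ((J.const 1).add (u1.cmul (-(97 / 100))))).add (f1.mul (J_Lk.comp u1))
  have f3 := ((f1.cmul (60 / 61)).add (f2.cmul (-11 / 61))).cmul (20 / 9)
  refine ⟨_, 166456715200779 / 55383364000000, by norm_num, (f3.congr (Eventually.of_forall fun ζ => ?_)).coef (by ring)
    (by ring) rfl (by push_cast; ring)⟩
  simp only [two, x1, x2, F2, VV_symm, VV_apply, F0, Prod.smul_fst, smul_eq_mul, hw]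
  ring

end Pool.Agent.H58.Spi
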