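import Pool.Agent.H58.Riem3

namespace Pool.Agent.H58.Riem
open Matrix Filter Topology Set
open scoped ContDiff

lemma sq_le_of {v c D q : ℝ} (h : 1 ≤ D * c) (hq : c ^ 2 * v ^ 2 ≤ q) : v ^ 2 ≤ D ^ 2 * q := by
  have h1 : 1 ≤ (D * c) ^ 2 := one_le_pow₀ h
  have h2 := mul_le_mul_of_nonneg_left hq (sq_nonneg D)
  nlinarith [sq_nonneg v]

namespace Warp
variable (w : Warp)

lemma isMetric (ha : ContDiff ℝ ∞ fun y : Fin 3 → ℝ => w.a (y 0) (y 1))
    (hb : ContDiff ℝ ∞ fun y : Fin 3 → ℝ => w.b (y 0) (y 1)) : IsMetric w.G := by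
  refine ⟨fun i j => ?_, fun y => ?_⟩
  · induction i using forall3 <;> induction j using forall3 <;>
      simp only [G, Gf, Matrix.of_apply, v30, v31, v32] <;>
      first | exact contDiff_const | exact ha.pow 2 | exact hb.pow 2
  · have : w.G y = diagonal ![w.a (y 0) (y 1) ^ 2, 1, w.b (y 0) (y 1) ^ 2] := by
      ext i j
      fin_cases i <;> fin_cases j <;> simp [G, Gf]
    rw [this]
    refine Matrix.PosDef.diagonal fun i => ?_
    induction i using forall3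
    · exact pow_pos (w.apos _ _) 2
    · exact one_pos
    · exact pow_pos (w.bpos _ _) 2

lemma isMetric2 (hb : ContDiff ℝ ∞ fun y : Fin 2 → ℝ => w.b (y 0) 0) :
    IsMetric fun y : Fin 2 → ℝ => !![1, 0; 0, w.b (y 0) 0 ^ 2] := by
  refine ⟨fun i j => ?_, fun y => ?_⟩
  · induction i using forall2 <;> induction j using forall2 <;>
      simp only [Matrix.of_apply, v20, v21] <;>
      first | exact contDiff_const | exact hb.pow 2
  · have : (!![1, 0; 0, w.b (y 0) 0 ^ 2] : Matrix (Fin 2) (Fin 2) ℝ) =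
        diagonal ![1, w.b (y 0) 0 ^ 2] := by
      ext i j
      fin_cases i <;> fin_cases j <;> simp
    beta_reduce
    rw [this]
    refine Matrix.PosDef.diagonal fun i => ?_
    induction i using forall2
    · exact one_pos
    · exact pow_pos (w.bpos _ _) 2

lemma complete (hG : IsMetric w.G) (ha : ∀ r t, 1 / 2 ≤ w.a r t)
    (hb : ∀ R : ℝ, ∃ D, 2 ≤ D ∧ ∀ r t, |r| ≤ R → 1 ≤ D * w.b r t) : IsCompleteMetric w.G := by
  have e : ∀ y v : Fin 3 → ℝ, v ⬝ᵥ w.G y *ᵥ v = w.a (y 0) (y 1) ^ 2 * v 0 ^ 2 + 1 ^ 2 * v 1 ^ 2 +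
      w.b (y 0) (y 1) ^ 2 * v 2 ^ 2 := by
    intro y v
    simp [G, Gf, dotProduct, mulVec, Fin.sum_univ_three]
    ring
  refine complete_of (fun i j => (hG.1 i j).continuous) 0 (C := 2) two_pos.le (fun y v => ?_)
    fun R => ?_
  · rw [e]
    refine sq_le_of (c := w.a (y 0) (y 1)) (by linarith [ha (y 0) (y 1)]) ?_
    nlinarith [sq_nonneg (v 1), sq_nonneg (w.b (y 0) (y 1) * v 2)]
  · obtain ⟨D, hD, h⟩ := hb R
    refine ⟨D, by linarith, fun y hy i v => ?_⟩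
    rw [e]
    induction i using forall3
    · refine sq_le_of (c := w.a (y 0) (y 1)) (by nlinarith [ha (y 0) (y 1)]) ?_
      nlinarith [sq_nonneg (v 1), sq_nonneg (w.b (y 0) (y 1) * v 2)]
    · refine sq_le_of (c := 1) (by linarith) ?_
      nlinarith [sq_nonneg (w.a (y 0) (y 1) * v 0), sq_nonneg (w.b (y 0) (y 1) * v 2)]
    · refine sq_le_of (c := w.b (y 0) (y 1)) (h _ _ hy) ?_
      nlinarith [sq_nonneg (w.a (y 0) (y 1) * v 0), sq_nonneg (v 1)]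

lemma complete2 (hG : IsMetric fun y : Fin 2 → ℝ => !![1, 0; 0, w.b (y 0) 0 ^ 2])
    (hb : ∀ R : ℝ, ∃ D, 2 ≤ D ∧ ∀ r t, |r| ≤ R → 1 ≤ D * w.b r t) :
    IsCompleteMetric fun y : Fin 2 → ℝ => !![1, 0; 0, w.b (y 0) 0 ^ 2] := by
  have e : ∀ y v : Fin 2 → ℝ, v ⬝ᵥ !![1, 0; 0, w.b (y 0) 0 ^ 2] *ᵥ v = 1 ^ 2 * v 0 ^ 2 +
      w.b (y 0) 0 ^ 2 * v 1 ^ 2 := by
    intro y v
    simp [dotProduct, mulVec, Fin.sum_univ_two]
    ring
  refine complete_of (fun i j => (hG.1 i j).continuous) 0 (C := 1) one_pos.le (fun y v => ?_)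
    fun R => ?_
  · rw [e]
    nlinarith [sq_nonneg (w.b (y 0) 0 * v 1)]
  · obtain ⟨D, hD, h⟩ := hb R
    refine ⟨D, by linarith, fun y hy i v => ?_⟩
    rw [e]
    induction i using forall2
    · refine sq_le_of (c := 1) (by linarith) ?_
      nlinarith [sq_nonneg (w.b (y 0) 0 * v 1)]
    · refine sq_le_of (c := w.b (y 0) 0) (h _ _ hy) ?_
      nlinarith [sq_nonneg (v 0)]

end Warp

/-- the convexity inequality. -/
lemma convex_ineq {l l1 m m1 m2 ρ ρ1 P P1 t : ℝ} (hl : |l| ≤ 1 / 10) (hl1 : |l1| ≤ 1 / 10)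
    (hm : |m| ≤ 1 / 10) (hm1 : |m1| ≤ 1 / 10) (hm2 : |m2| ≤ 1 / 10) (hρ0 : 0 ≤ ρ)
    (hρ : ρ ≤ 1 / 100) (hρ1 : |ρ1| ≤ 1 / 50) (hP : 1 ≤ P) (hP1 : 0 ≤ P1) :
    (P * (2 * t - m) - m1 - (-l + 2 * (1 - ρ) * t) / (1 - l * t + (1 - ρ) * t ^ 2) *
      (P * (1 - m * t + t ^ 2) - m1 * t)) ^ 2 ≤
    ((P1 + P ^ 2) * (1 - m * t + t ^ 2) - 2 * P * m1 * t - m2 * t -
      (-l1 * t - ρ1 * t ^ 2) / (1 - l * t + (1 - ρ) * t ^ 2) * (P * (1 - m * t + t ^ 2) - m1 * t) +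
      (1 - l * t + (1 - ρ) * t ^ 2) * (-l + 2 * (1 - ρ) * t) * (2 * t - m)) * 2 := by
  set W := 1 + t ^ 2 with hW
  have hW1 : 1 ≤ W := by nlinarith [sq_nonneg t]
  have ht : |t| ≤ W / 2 := by
    rw [abs_le]; constructor <;> nlinarith [sq_nonneg (t - 1), sq_nonneg (t + 1)]
  have ht2 : t ^ 2 ≤ W := by linarith
  have mt : ∀ x : ℝ, |x| ≤ 1 / 10 → |x * t| ≤ W / 20 := fun x hx => by
    rw [abs_mul]; nlinarith [abs_nonneg x, abs_nonneg t]
  have hlt := abs_le.1 (mt l hl)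
  have hmt := abs_le.1 (mt m hm)
  have hl1t := abs_le.1 (mt l1 hl1)
  have hm1t := abs_le.1 (mt m1 hm1)
  have hm2t := abs_le.1 (mt m2 hm2)
  have hρt : ρ * t ^ 2 ≤ W / 100 := by nlinarith [sq_nonneg t]
  have hρt0 : 0 ≤ ρ * t ^ 2 := by positivity
  set a := 1 - l * t + (1 - ρ) * t ^ 2 with ha
  set β := 1 - m * t + t ^ 2 with hβ
  have a1 : 9 / 10 * W ≤ a := by nlinarith
  have a2 : a ≤ 21 / 20 * W := by nlinarith
  have b1 : 19 / 20 * W ≤ β := by nlinarith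
  have b2 : β ≤ 21 / 20 * W := by nlinarith
  have a0 : 0 < a := by linarith
  have h1 := abs_le.1 hl
  have h2 := abs_le.1 hm
  have h3 := abs_le.1 hm1
  have h4 := abs_le.1 hρ1
  -- the mixed term
  have x1 : |a * (2 * t - m) - (-l + 2 * (1 - ρ) * t) * β| ≤ 1 / 4 * a := by
    have e : a * (2 * t - m) - (-l + 2 * (1 - ρ) * t) * β =
        2 * ρ * t + (l - m) + t ^ 2 * (-l + (1 - ρ) * m) := by rw [ha, hβ]; ring
    have q1 : |2 * ρ * t| ≤ W / 100 := by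
      rw [abs_mul, abs_of_nonneg (by positivity : 0 ≤ 2 * ρ)]; nlinarith [abs_nonneg t]
    have q2 : |-l + (1 - ρ) * m| ≤ 1 / 5 := by rw [abs_le]; constructor <;> nlinarith
    have q3 := abs_le.1 q1
    have q4 := abs_le.1 q2
    rw [e, abs_le]; constructor <;> nlinarith [sq_nonneg t]
  have x2 : |(-l + 2 * (1 - ρ) * t) * (m1 * t)| ≤ 1 / 4 * a := by
    have e : (-l + 2 * (1 - ρ) * t) * (m1 * t) = m1 * (-(l * t) + 2 * (t ^ 2 - ρ * t ^ 2)) := by ring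
    have q1 : |-(l * t) + 2 * (t ^ 2 - ρ * t ^ 2)| ≤ 41 / 20 * W := by
      rw [abs_le]; constructor <;> nlinarith [sq_nonneg t]
    rw [e, abs_mul]
    nlinarith [abs_nonneg m1, abs_nonneg (-(l * t) + 2 * (t ^ 2 - ρ * t ^ 2))]
  have x3 : |P * (2 * t - m) - m1 - (-l + 2 * (1 - ρ) * t) / a * (P * β - m1 * t)| ≤ 3 / 5 * P := by
    have e : P * (2 * t - m) - m1 - (-l + 2 * (1 - ρ) * t) / a * (P * β - m1 * t) =
        P * ((a * (2 * t - m) - (-l + 2 * (1 - ρ) * t) * β) / a) - m1 +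
          (-l + 2 * (1 - ρ) * t) * (m1 * t) / a := by field_simp; ring
    have q1 : |(a * (2 * t - m) - (-l + 2 * (1 - ρ) * t) * β) / a| ≤ 1 / 4 := by
      rw [abs_div, abs_of_pos a0, div_le_iff₀ a0]; exact x1
    have q2 : |(-l + 2 * (1 - ρ) * t) * (m1 * t) / a| ≤ 1 / 4 := by
      rw [abs_div, abs_of_pos a0, div_le_iff₀ a0]; exact x2
    have q3 := abs_le.1 q1
    have q4 := abs_le.1 q2
    rw [e, abs_le]; constructor <;> nlinarith
  have y1 : |(-l1 * t - ρ1 * t ^ 2) / a| ≤ 1 / 10 := by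
    rw [abs_div, abs_of_pos a0, div_le_iff₀ a0, abs_le]
    constructor <;> nlinarith [sq_nonneg t]
  have y2 : |P * β - m1 * t| ≤ 11 / 10 * (P * W) := by
    rw [abs_le]; constructor <;> nlinarith
  have y3 : (-l1 * t - ρ1 * t ^ 2) / a * (P * β - m1 * t) ≤ 11 / 100 * (P * W) := by
    refine (le_abs_self _).trans ?_
    rw [abs_mul]
    nlinarith [abs_nonneg ((-l1 * t - ρ1 * t ^ 2) / a), abs_nonneg (P * β - m1 * t)]
  have y4 : -(1 / 20) ≤ (-l + 2 * (1 - ρ) * t) * (2 * t - m) := by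
    have q1 : |2 * l + 2 * (1 - ρ) * m| ≤ 2 / 5 := by rw [abs_le]; constructor <;> nlinarith
    have q2 : |(2 * l + 2 * (1 - ρ) * m) * t| ≤ 2 / 5 * |t| := by
      rw [abs_mul]; exact mul_le_mul_of_nonneg_right q1 (abs_nonneg t)
    have q3 := (abs_le.1 q2).2
    have q4 : -(1 / 100) ≤ l * m := by nlinarith
    have q5 : ρ * t ^ 2 ≤ t ^ 2 / 100 := by nlinarith [sq_nonneg t]
    nlinarith [sq_nonneg (|t| - 1 / 10), sq_abs t]
  have y5 : -(21 / 400 * W) ≤ a * (-l + 2 * (1 - ρ) * t) * (2 * t - m) := by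
    rw [mul_assoc]; nlinarith
  have z1 : P * W ≤ P ^ 2 * W := by nlinarith [mul_nonneg (by linarith : 0 ≤ P) (by linarith : 0 ≤ W)]
  have z2 : W ≤ P * W := by nlinarith
  have z3 : 19 / 20 * (P ^ 2 * W) ≤ (P1 + P ^ 2) * β := by
    nlinarith [mul_nonneg hP1 (by linarith : 0 ≤ β), sq_nonneg P]
  have z4 : 2 * P * m1 * t ≤ 1 / 10 * (P * W) := by nlinarith
  have z5 : P ^ 2 ≤ P ^ 2 * W := by nlinarith [sq_nonneg P]
  have z6 := sq_le_sq' (abs_le.1 x3).1 (abs_le.1 x3).2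
  nlinarith

end Pool.Agent.H58.Riem
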