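import Pool.Agent.H58.Bih

namespace Pool.Agent.H58.Riem.Ex
open Matrix Filter Topology Set
open scoped ContDiff

noncomputable def s (r : ℝ) : ℝ := (1 + Real.exp r)⁻¹

lemma one_add_pos (r : ℝ) : 0 < 1 + Real.exp r := by positivity
lemma s_pos (r : ℝ) : 0 < s r := inv_pos.2 (one_add_pos r)
lemma s_lt (r : ℝ) : s r < 1 := inv_lt_one_of_one_lt₀ (by linarith [Real.exp_pos r])
lemma exp_eq (r : ℝ) : Real.exp r = 1 / s r - 1 := by simp [s]

lemma s_has (r : ℝ) : HasDerivAt s (s r ^ 2 - s r) r := by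
  have h := ((Real.hasDerivAt_exp r).const_add 1).inv (one_add_pos r).ne'
  refine h.congr_deriv ?_
  have := (one_add_pos r).ne'
  simp only [s]
  field_simp
  ring

lemma s_cd : ContDiff ℝ ∞ s :=
  (contDiff_const.add Real.contDiff_exp).inv fun r => (one_add_pos r).ne'

noncomputable def q (a b c d e f : ℝ) (r : ℝ) : ℝ :=
  (a + b * s r + c * s r ^ 2 + d * s r ^ 3 + e * s r ^ 4 + f * s r ^ 5) / 1600

lemma q_has (a b c d e : ℝ) (r : ℝ) : HasDerivAt (q a b c d e 0)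
    (q 0 (-b) (b - 2 * c) (2 * c - 3 * d) (3 * d - 4 * e) (4 * e) r) r := by
  have h := s_has r
  have := ((((((h.const_mul b).const_add a).fun_add ((h.fun_pow 2).const_mul c)).fun_add
    ((h.fun_pow 3).const_mul d)).fun_add ((h.fun_pow 4).const_mul e)).fun_add
    ((h.fun_pow 5).const_mul 0)).div_const 1600
  refine this.congr_deriv ?_
  simp only [q]
  push_cast
  ring

lemma q_cd (a b c d e f : ℝ) : ContDiff ℝ ∞ (q a b c d e f) := by
  have := s_cd
  unfold q
  fun_prop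

lemma q_le {a b c d e f : ℝ} (h : |a| + |b| + |c| + |d| + |e| + |f| ≤ 160) (r : ℝ) :
    |q a b c d e f r| ≤ 1 / 10 := by
  have hp : ∀ (x : ℝ) (k : ℕ), |x * s r ^ k| ≤ |x| := fun x k => by
    rw [abs_mul, abs_of_pos (pow_pos (s_pos r) k)]
    exact mul_le_of_le_one_right (abs_nonneg x) (pow_le_one₀ (s_pos r).le (s_lt r).le)
  have h1 := abs_le.1 (hp b 1)
  have h2 := abs_le.1 (hp c 2)
  have h3 := abs_le.1 (hp d 3)
  have h4 := abs_le.1 (hp e 4)
  have h5 := abs_le.1 (hp f 5)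
  have h0 := abs_le.1 (le_refl |a|)
  rw [pow_one] at h1
  rw [q, abs_le]
  constructor <;> linarith [h0.1, h0.2, h1.1, h1.2, h2.1, h2.2, h3.1, h3.2, h4.1, h4.2, h5.1, h5.2]

noncomputable def l := q 8 (-8) (-1) 1 0 0
noncomputable def l1 := q 0 8 (-6) (-5) 3 0
noncomputable def l2 := q 0 (-8) 20 3 (-27) 12
noncomputable def m := q 8 (-8) 1 (-1) 0 0
noncomputable def m1 := q 0 8 (-10) 5 (-3) 0
noncomputable def m2 := q 0 (-8) 28 (-35) 27 (-12)

lemma l_has (r : ℝ) : HasDerivAt l (l1 r) r := (q_has _ _ _ _ _ r).congr_deriv (by norm_num [l1])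
lemma l1_has (r : ℝ) : HasDerivAt l1 (l2 r) r := (q_has _ _ _ _ _ r).congr_deriv (by norm_num [l2])
lemma m_has (r : ℝ) : HasDerivAt m (m1 r) r := (q_has _ _ _ _ _ r).congr_deriv (by norm_num [m1])
lemma m1_has (r : ℝ) : HasDerivAt m1 (m2 r) r := (q_has _ _ _ _ _ r).congr_deriv (by norm_num [m2])
lemma l_le (r : ℝ) : |l r| ≤ 1 / 10 := q_le (by norm_num) r
lemma l1_le (r : ℝ) : |l1 r| ≤ 1 / 10 := q_le (by norm_num) r
lemma m_le (r : ℝ) : |m r| ≤ 1 / 10 := q_le (by norm_num) r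
lemma m1_le (r : ℝ) : |m1 r| ≤ 1 / 10 := q_le (by norm_num) r
lemma m2_le (r : ℝ) : |m2 r| ≤ 1 / 10 := q_le (by norm_num) r

noncomputable def ρ (r : ℝ) : ℝ := (l r ^ 2 + m r ^ 2) / 2
noncomputable def ρ1 (r : ℝ) : ℝ := l r * l1 r + m r * m1 r
noncomputable def ρ2 (r : ℝ) : ℝ := l1 r * l1 r + l r * l2 r + (m1 r * m1 r + m r * m2 r)
noncomputable def P (r : ℝ) : ℝ := 5 + 4 * Real.exp r - 2 * s r
noncomputable def P1 (r : ℝ) : ℝ := 4 * Real.exp r - 2 * (s r ^ 2 - s r)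
noncomputable def E (r : ℝ) : ℝ := Real.exp (3 * r + 4 * Real.exp r) * (1 + Real.exp r) ^ 2

lemma ρ_has (r : ℝ) : HasDerivAt ρ (ρ1 r) r :=
  ((((l_has r).fun_pow 2).fun_add ((m_has r).fun_pow 2)).div_const 2).congr_deriv
    (by simp only [ρ1]; push_cast; ring)
lemma ρ1_has (r : ℝ) : HasDerivAt ρ1 (ρ2 r) r :=
  ((l_has r).fun_mul (l1_has r)).fun_add ((m_has r).fun_mul (m1_has r))
lemma P_has (r : ℝ) : HasDerivAt P (P1 r) r :=
  (((Real.hasDerivAt_exp r).const_mul 4).const_add 5).fun_sub ((s_has r).const_mul 2)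
lemma E_has (r : ℝ) : HasDerivAt E (E r * P r) r := by
  have h := ((((hasDerivAt_id' r).const_mul 3).fun_add
    ((Real.hasDerivAt_exp r).const_mul 4)).exp).fun_mul
    (((Real.hasDerivAt_exp r).const_add 1).fun_pow 2)
  refine h.congr_deriv ?_
  have := (one_add_pos r).ne'
  simp only [E, P, s]
  push_cast
  field_simp
  ring
lemma E_pos (r : ℝ) : 0 < E r := by unfold E; positivity
lemma ρ_nonneg (r : ℝ) : 0 ≤ ρ r := by unfold ρ; positivity
lemma ρ_le (r : ℝ) : ρ r ≤ 1 / 100 := by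
  have h1 := abs_le.1 (l_le r)
  have h2 := abs_le.1 (m_le r)
  unfold ρ
  nlinarith
lemma ρ1_le (r : ℝ) : |ρ1 r| ≤ 1 / 50 := by
  have h1 := l_le r
  have h2 := m_le r
  have h3 := l1_le r
  have h4 := m1_le r
  refine (abs_add_le _ _).trans ?_
  rw [abs_mul, abs_mul]
  nlinarith [abs_nonneg (l r), abs_nonneg (m r), abs_nonneg (l1 r), abs_nonneg (m1 r)]

lemma quad_ge {x c : ℝ} (hx : |x| ≤ 1 / 10) (hc : c ≤ 1 / 100) (t : ℝ) :
    1 / 2 ≤ 1 - x * t + (1 - c) * t ^ 2 := by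
  have h := abs_le.1 hx
  nlinarith [sq_nonneg (t - x), sq_nonneg t, mul_nonneg (sub_nonneg.2 hc) (sq_nonneg t)]

noncomputable def w : Warp where
  a r t := 1 - l r * t + (1 - ρ r) * t ^ 2
  ar r t := -l1 r * t - ρ1 r * t ^ 2
  at' r t := -l r + 2 * (1 - ρ r) * t
  arr r t := -l2 r * t - ρ2 r * t ^ 2
  art r t := -l1 r - 2 * ρ1 r * t
  att r _ := 2 * (1 - ρ r)
  b r t := E r * (1 - m r * t + t ^ 2)
  br r t := E r * (P r * (1 - m r * t + t ^ 2) - m1 r * t)
  bt r t := E r * (2 * t - m r)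
  brr r t := E r * ((P1 r + P r ^ 2) * (1 - m r * t + t ^ 2) - 2 * P r * m1 r * t - m2 r * t)
  brt r t := E r * (P r * (2 * t - m r) - m1 r)
  btt r _ := E r * 2
  a_r r t := ((((l_has r).mul_const t).const_sub 1).fun_add
    (((ρ_has r).const_sub 1).mul_const (t ^ 2))).congr_deriv (by ring)
  a_t r t := (((((hasDerivAt_id' t).const_mul (l r)).const_sub 1)).fun_add
    ((hasDerivAt_pow 2 t).const_mul (1 - ρ r))).congr_deriv (by push_cast; ring)
  ar_r r t := (((l1_has r).fun_neg.mul_const t).fun_sub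
    ((ρ1_has r).mul_const (t ^ 2))).congr_deriv (by ring)
  ar_t r t := (((hasDerivAt_id' t).const_mul (-l1 r)).fun_sub
    ((hasDerivAt_pow 2 t).const_mul (ρ1 r))).congr_deriv (by push_cast; ring)
  at_r r t := ((l_has r).fun_neg.fun_add
    ((((ρ_has r).const_sub 1).const_mul 2).mul_const t)).congr_deriv (by ring)
  at_t r t := (((hasDerivAt_id' t).const_mul (2 * (1 - ρ r))).const_add (-l r)).congr_deriv
    (by ring)
  b_r r t := ((E_has r).fun_mul ((((m_has r).mul_const t).const_sub 1).add_const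
    (t ^ 2))).congr_deriv (by ring)
  b_t r t := ((((((hasDerivAt_id' t).const_mul (m r)).const_sub 1)).fun_add
    (hasDerivAt_pow 2 t)).const_mul (E r)).congr_deriv (by push_cast; ring)
  br_r r t := ((E_has r).fun_mul (((P_has r).fun_mul
    ((((m_has r).mul_const t).const_sub 1).add_const (t ^ 2))).fun_sub
      ((m1_has r).mul_const t))).congr_deriv (by ring)
  br_t r t := ((((((((hasDerivAt_id' t).const_mul (m r)).const_sub 1)).fun_add
    (hasDerivAt_pow 2 t)).const_mul (P r)).fun_sub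
      ((hasDerivAt_id' t).const_mul (m1 r))).const_mul (E r)).congr_deriv (by push_cast; ring)
  bt_r r t := ((E_has r).fun_mul ((m_has r).const_sub (2 * t))).congr_deriv (by ring)
  bt_t r t := ((((hasDerivAt_id' t).const_mul 2).sub_const (m r)).const_mul (E r)).congr_deriv
    (by ring)
  apos r t := lt_of_lt_of_le (by norm_num) (quad_ge (l_le r) (ρ_le r) t)
  bpos r t := mul_pos (E_pos r) (by
    have := quad_ge (c := 0) (m_le r) (by norm_num) t
    linarith)

lemma sec (y X Y : Fin 3 → ℝ) : secNum w.G y X Y ≤ 0 := by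
  refine w.secNum_nonpos (fun r t => ?_) (fun r t => mul_pos (E_pos r) two_pos) (fun r t => ?_) y X Y
  · have := ρ_le r
    show 0 ≤ 2 * (1 - ρ r)
    linarith
  · have hP : 1 ≤ P r := by
      unfold P
      linarith [Real.exp_pos r, s_lt r]
    have hP1 : 0 ≤ P1 r := by
      unfold P1
      nlinarith [Real.exp_pos r, s_lt r, s_pos r]
    have h := convex_ineq (t := t) (l_le r) (l1_le r) (m_le r) (m1_le r) (m2_le r) (ρ_nonneg r)
      (ρ_le r) (ρ1_le r) hP hP1
    have h2 := mul_le_mul_of_nonneg_left h (sq_nonneg (E r))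
    simp only [Warp.Hrt, Warp.Hrr, w]
    refine le_of_eq_of_le ?_ (le_of_le_of_eq h2 ?_) <;> ring

lemma l_cd : ContDiff ℝ ∞ l := q_cd _ _ _ _ _ _
lemma m_cd : ContDiff ℝ ∞ m := q_cd _ _ _ _ _ _
lemma ρ_cd : ContDiff ℝ ∞ ρ := by
  have := l_cd
  have := m_cd
  unfold ρ
  fun_prop
lemma E_cd : ContDiff ℝ ∞ E := by
  unfold E
  fun_prop

lemma met : IsMetric w.G := by
  have := l_cd
  have := m_cd
  have := ρ_cd
  have := E_cd
  refine w.isMetric ?_ ?_ <;> simp only [w] <;> fun_prop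

lemma met2 : IsMetric fun y : Fin 2 → ℝ => !![1, 0; 0, w.b (y 0) 0 ^ 2] := by
  have := m_cd
  have := E_cd
  refine w.isMetric2 ?_
  simp only [w]
  fun_prop

lemma b_ge (R : ℝ) : ∃ D, 2 ≤ D ∧ ∀ r t, |r| ≤ R → 1 ≤ D * w.b r t := by
  have h0 : 1 ≤ Real.exp (3 * |R|) := Real.one_le_exp (by positivity)
  refine ⟨2 * Real.exp (3 * |R|), by linarith, fun r t hr => ?_⟩
  have h1 := quad_ge (c := 0) (m_le r) (by norm_num) t
  have h2 : 1 ≤ Real.exp (3 * |R|) * E r := by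
    rw [E, ← mul_assoc, ← Real.exp_add]
    have e1 := Real.exp_pos r
    have e2 := (abs_le.1 hr).1
    have e3 := le_abs_self R
    exact one_le_mul_of_one_le_of_one_le (Real.one_le_exp (by linarith))
      (one_le_pow₀ (by linarith))
  show 1 ≤ 2 * Real.exp (3 * |R|) * (E r * (1 - m r * t + t ^ 2))
  nlinarith

lemma a0 (r : ℝ) : w.a r 0 = 1 := by simp [w]
lemma ar0 (r : ℝ) : w.ar r 0 = 0 := by simp [w]

lemma T_eq : w.T = fun r => l r + m r := by
  funext r
  have := (E_pos r).ne'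
  simp only [Warp.T, w]
  field_simp
  ring

lemma bih (y : Fin 2 → ℝ) : bitension (pull w.G emb) w.G emb y = 0 := by
  rw [w.bitension_eq a0 ar0 (T1 := fun r => l1 r + m1 r) (T2 := fun r => l2 r + m2 r)
    (fun r => by rw [T_eq]; exact (l_has r).fun_add (m_has r))
    (fun r => (l1_has r).fun_add (m1_has r)), T_eq]
  have h1 := (E_pos (y 0)).ne'
  have h2 := (s_pos (y 0)).ne'
  funext k
  induction k using Warp.forall3 <;> simp only [v30, v31, v32, Pi.zero_apply]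
  all_goals
    simp only [Warp.Hrt, w, ρ, P, exp_eq, l, l1, l2, m, m1, m2, q]
    field_simp
    ring

lemma T_pos (r : ℝ) : 0 < w.T r := by
  rw [T_eq]
  simp only [l, m, q]
  linarith [s_lt r]

end Pool.Agent.H58.Riem.Ex
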