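import Mathlib

set_option autoImplicit false

namespace Pool.Agent.H58.FreqSeq
open MeasureTheory ProbabilityTheory Filter Topology

/-- For every probability vector on `ℕ` there is a sequence with these letter frequencies,
using only letters of positive weight. -/
theorem exists_freq (π : ℕ → ℝ) (h0 : ∀ k, 0 ≤ π k) (h1 : HasSum π 1) :
    ∃ f : ℕ → ℕ, (∀ n, π (f n) ≠ 0) ∧ ∀ k, Tendsto
      (fun n : ℕ => (∑ i ∈ Finset.range n, if f i = k then (1 : ℝ) else 0) / n) atTop (𝓝 (π k)) := by
  have hs : HasSum (fun k => ENNReal.ofReal (π k)) 1 := by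
    have := ENNReal.ofReal_tsum_of_nonneg h0 h1.summable
    rw [h1.tsum_eq, ENNReal.ofReal_one] at this
    rw [this]
    exact ENNReal.summable.hasSum
  let p : PMF ℕ := ⟨fun k => ENNReal.ofReal (π k), hs⟩
  obtain ⟨Ω, mΩ, P, X, hm, hl, hi, hP⟩ := exists_iid ℕ p.toMeasure
  have hsing : ∀ k, p.toMeasure {k} = ENNReal.ofReal (π k) := fun k =>
    PMF.toMeasure_apply_singleton p k (measurableSet_singleton k)
  have a1 : ∀ᵐ ω ∂P, ∀ n, π (X n ω) ≠ 0 := by
    rw [ae_all_iff]
    intro n
    have : ∀ᵐ k ∂p.toMeasure, π k ≠ 0 := by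
      rw [ae_iff_of_countable]
      intro k hk h
      apply hk
      rw [hsing, h, ENNReal.ofReal_zero]
    exact (hl n).ae_iff (by fun_prop) |>.mpr this
  have a2 : ∀ᵐ ω ∂P, ∀ k, Tendsto
      (fun n : ℕ => (∑ i ∈ Finset.range n, if X i ω = k then (1 : ℝ) else 0) / n) atTop (𝓝 (π k)) := by
    rw [ae_all_iff]
    intro k
    set φ : ℕ → ℝ := fun j => if j = k then 1 else 0 with hφ
    have hφm : Measurable φ := measurable_from_top
    have hid : ∀ i, IdentDistrib (φ ∘ X i) (φ ∘ X 0) P P := fun i =>
      ((hl i).identDistrib (hl 0)).comp hφm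
    have hint : Integrable (φ ∘ X 0) P := by
      refine Integrable.of_bound (hφm.comp (hm 0)).aestronglyMeasurable 1 (ae_of_all _ fun ω => ?_)
      simp only [Function.comp, hφ]
      split_ifs <;> simp
    have := strong_law_ae_real (fun i => φ ∘ X i) hint
      (fun i j hij => (hi.indepFun hij).comp hφm hφm) hid
    have e : P[φ ∘ X 0] = π k := by
      rw [(hl 0).integral_comp hφm.aestronglyMeasurable]
      have : φ = Set.indicator {k} (fun _ => (1 : ℝ)) := by
        ext j; simp [hφ, Set.indicator_apply]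
      rw [this, integral_indicator (measurableSet_singleton k)]
      simp [Measure.real, hsing, h0 k]
    rw [e] at this
    exact this
  obtain ⟨ω, hω1, hω2⟩ := (a1.and a2).exists
  exact ⟨fun n => X n ω, hω1, hω2⟩

lemma tendsto_block (B : ℕ) (hB : 0 < B) (F G : ℕ → ℝ) (C L : ℝ) (hG0 : G 0 = 0)
    (h : ∀ n, |F n - G (n / B)| ≤ C) (hG : Tendsto (fun m : ℕ => G m / m) atTop (𝓝 L)) :
    Tendsto (fun n : ℕ => F n / n) atTop (𝓝 (L / B)) := by
  have hB' : (0 : ℝ) < B := by exact_mod_cast hB
  have h1 : Tendsto (fun n : ℕ => n / B) atTop atTop := Nat.tendsto_div_const_atTop hB.ne'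
  have h2 : Tendsto (fun n : ℕ => ((n / B : ℕ) : ℝ) / n) atTop (𝓝 (1 / B)) := by
    have a1 : Tendsto (fun n : ℕ => 1 / (B : ℝ) - 1 / (n : ℝ)) atTop (𝓝 (1 / B)) := by
      simpa using (tendsto_const_nhds (x := 1 / (B : ℝ))).sub tendsto_one_div_atTop_nhds_zero_nat
    refine tendsto_of_tendsto_of_tendsto_of_le_of_le' a1 tendsto_const_nhds ?_ ?_
    · filter_upwards [eventually_gt_atTop 0] with n hn
      have hn' : (0 : ℝ) < n := by exact_mod_cast hn
      have : n < B * (n / B + 1) := Nat.lt_mul_div_succ n hB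
      have h3 : (n : ℝ) < B * ((n / B : ℕ) + 1) := by exact_mod_cast this
      rw [le_div_iff₀ hn', sub_mul, one_div_mul_cancel hn'.ne', one_div_mul_eq_div, sub_le_iff_le_add,
        div_le_iff₀ hB']
      linarith
    · filter_upwards [eventually_gt_atTop 0] with n hn
      have hn' : (0 : ℝ) < n := by exact_mod_cast hn
      have h3 : ((n / B : ℕ) : ℝ) ≤ n / B := Nat.cast_div_le
      rw [div_le_iff₀ hn', one_div_mul_eq_div]
      exact h3
  have h3 := (hG.comp h1).mul h2
  have h4 : Tendsto (fun n : ℕ => (F n - G (n / B)) / n) atTop (𝓝 0) := by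
    apply squeeze_zero_norm' _ (tendsto_const_div_atTop_nhds_zero_nat C)
    filter_upwards [eventually_gt_atTop 0] with n hn
    have hn' : (0 : ℝ) < n := by exact_mod_cast hn
    rw [norm_div, Real.norm_natCast, Real.norm_eq_abs]
    gcongr
    exact h n
  have h5 := h3.add h4
  rw [add_zero, mul_one_div] at h5
  refine h5.congr (fun n => ?_)
  simp only [Function.comp]
  rcases Nat.eq_zero_or_pos (n / B) with h0 | h0
  · rw [h0, hG0]; simp
  · have : ((n / B : ℕ) : ℝ) ≠ 0 := by exact_mod_cast h0.ne'
    rw [div_mul_div_comm, mul_comm (G _), mul_div_mul_left _ _ this]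
    ring

/-- existence of the tails of a continued fraction with prescribed digits -/
lemma exists_tails (d : ℕ → ℕ) (hd : ∀ n, 1 ≤ d n) :
    ∃ t : ℕ → ℝ, ∀ n, 1 ≤ t n ∧ t n = d n + 1 / t (n + 1) := by
  have hd' : ∀ n, (1 : ℝ) ≤ d n := fun n => by exact_mod_cast hd n
  set K : Set (ℕ → ℝ) := Set.pi Set.univ (fun n => Set.Icc (d n : ℝ) (d n + 1)) with hK
  have hKc : IsCompact K := isCompact_univ_pi (fun n => isCompact_Icc)
  set S : ℕ → Set (ℕ → ℝ) := fun N => K ∩ {t | ∀ n < N, (t n - d n) * t (n + 1) = 1} with hS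
  have hcl : ∀ N, IsClosed (S N) := by
    intro N
    apply hKc.isClosed.inter
    simp only [Set.setOf_forall]
    exact isClosed_iInter fun n => isClosed_iInter fun _ => isClosed_eq (by fun_prop) continuous_const
  have hne : ∀ N, (S N).Nonempty := by
    intro N
    have : ∀ N j, ∃ t : ℕ → ℝ, (∀ n, (d (j + n) : ℝ) ≤ t n ∧ t n ≤ d (j + n) + 1) ∧
        ∀ n < N, (t n - d (j + n)) * t (n + 1) = 1 := by
      intro N
      induction N with
      | zero => exact fun j => ⟨fun n => d (j + n), fun n => ⟨le_rfl, by linarith⟩, by simp⟩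
      | succ N ih =>
        intro j
        obtain ⟨t, ht, ht'⟩ := ih (j + 1)
        have h0 : 1 ≤ t 0 := (hd' _).trans (ht 0).1
        refine ⟨fun n => Nat.casesOn n (d j + 1 / t 0) t, ?_, ?_⟩
        · intro n
          cases n with
          | zero =>
            have a1 : 0 < 1 / t 0 := by positivity
            have a2 : 1 / t 0 ≤ 1 := by rw [div_le_one (by linarith)]; exact h0
            simp only [Nat.rec_zero, add_zero]
            constructor <;> linarith
          | succ n =>
            have e : j + (n + 1) = j + 1 + n := by ring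
            rw [e]; exact ht n
        · intro n hn
          cases n with
          | zero =>
            have : t 0 ≠ 0 := by linarith
            simp only [Nat.rec_zero, add_zero, zero_add]
            field_simp
            ring
          | succ n =>
            have e : j + (n + 1) = j + 1 + n := by ring
            rw [e]; exact ht' n (by omega)
    obtain ⟨t, ht, ht'⟩ := this N 0
    simp only [zero_add] at ht ht'
    exact ⟨t, fun n _ => ht n, ht'⟩
  obtain ⟨t, ht⟩ := IsCompact.nonempty_iInter_of_sequence_nonempty_isCompact_isClosed S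
    (fun N t ht => ⟨ht.1, fun n hn => ht.2 n (by omega)⟩) hne
    (hKc.of_isClosed_subset (hcl 0) Set.inter_subset_left) hcl
  rw [Set.mem_iInter] at ht
  have h1 : ∀ n, 1 ≤ t n := fun n => (hd' n).trans ((ht 0).1 n trivial).1
  refine ⟨t, fun n => ⟨h1 n, ?_⟩⟩
  have := (ht (n + 1)).2 n (by omega)
  have h2 : t (n + 1) ≠ 0 := by linarith [h1 (n + 1)]
  field_simp
  linarith

lemma partDens_of_tails (d : ℕ → ℕ) (hd : ∀ n, 1 ≤ d n) (t : ℕ → ℝ)
    (ht : ∀ n, 0 < t n ∧ t n = d n + 1 / t (n + 1)) (i : ℕ) :
    (GenContFract.of (t 0)).partDens.get? i = some (d (i + 1) : ℝ) := by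
  have h1 : ∀ n, 1 < t n := by
    intro n
    have a1 : (1 : ℝ) ≤ d n := by exact_mod_cast hd n
    have a2 : 0 < 1 / t (n + 1) := by have := (ht (n + 1)).1; positivity
    linarith [(ht n).2]
  have hlt : ∀ n, 1 / t (n + 1) < 1 := fun n => by
    rw [div_lt_one (ht (n + 1)).1]; exact h1 _
  have hpos : ∀ n, 0 < 1 / t (n + 1) := fun n => by have := (ht (n + 1)).1; positivity
  have hfl : ∀ n, ⌊t n⌋ = d n := by
    intro n
    rw [Int.floor_eq_iff]
    push_cast
    constructor <;> linarith [(ht n).2, hlt n, hpos n]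
  have hfr : ∀ n, (Int.fract (t n))⁻¹ = t (n + 1) := by
    intro n
    have : Int.fract (t n) = 1 / t (n + 1) := by
      rw [Int.fract, hfl]; push_cast; linarith [(ht n).2]
    rw [this, one_div, inv_inv]
  have key : ∀ i j, (GenContFract.of (t j)).s.get? i = some ⟨1, (d (j + i + 1) : ℝ)⟩ := by
    intro i
    induction i with
    | zero =>
      intro j
      have hne : Int.fract (t j) ≠ 0 := by
        intro h
        have := hfr j
        rw [h, inv_zero] at this
        linarith [(ht (j + 1)).1]
      have := GenContFract.of_s_head hne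
      rw [hfr, hfl] at this
      simpa [Stream'.Seq.head] using this
    | succ i ih =>
      intro j
      rw [GenContFract.of_s_succ, hfr, ih]
      have : j + 1 + i + 1 = j + (i + 1) + 1 := by ring
      rw [this]
  have := GenContFract.partDen_eq_s_b (key i 0)
  simpa using this

end Pool.Agent.H58.FreqSeq
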