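import Mathlib
import Pool.Agent.H58.FreqSeq

set_option autoImplicit false

namespace Pool.Agent.H58.CFDouble
open Filter Topology Pool.Agent.H58.FreqSeq

noncomputable def p (k : ℕ) : ℝ := Real.logb 2 (1 + 1 / ((k : ℝ) * ((k : ℝ) + 2)))

lemma p_nonneg (k : ℕ) : 0 ≤ p k := by
  apply Real.logb_nonneg one_lt_two
  have : (0 : ℝ) ≤ 1 / ((k : ℝ) * ((k : ℝ) + 2)) := by positivity
  linarith

lemma p_zero : p 0 = 0 := by simp [p]

lemma p_sum (n : ℕ) : ∑ k ∈ Finset.range (n + 1), p k = Real.logb 2 (2 * (((n : ℝ) + 1) / (n + 2))) := by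
  induction n with
  | zero => simp [p]
  | succ n ih =>
    rw [Finset.sum_range_succ, ih, p, ← Real.logb_mul (by positivity) (by positivity)]
    congr 1
    push_cast
    field_simp
    ring

lemma p_hasSum : HasSum p 1 := by
  rw [hasSum_iff_tendsto_nat_of_nonneg p_nonneg, ← tendsto_add_atTop_iff_nat 1]
  simp only [p_sum]
  have h1 : Tendsto (fun n : ℕ => 2 * (((n : ℝ) + 1) / (n + 2))) atTop (𝓝 (2 * 1)) := by
    apply Tendsto.const_mul
    have h2 : Tendsto (fun n : ℕ => 1 - 1 / ((n : ℝ) + 2)) atTop (𝓝 (1 - 0)) := by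
      apply Tendsto.const_sub
      apply Tendsto.div_atTop tendsto_const_nhds
      exact tendsto_atTop_add_const_right _ _ tendsto_natCast_atTop_atTop
    rw [sub_zero] at h2
    refine h2.congr (fun n => ?_)
    field_simp
    ring
  have h3 : ContinuousAt (Real.logb 2) (2 * 1) := Real.continuousAt_logb (by norm_num)
  have := h3.tendsto.comp h1
  simpa [Function.comp_def] using this

lemma le_logb (a b : ℕ) (hb : 0 < b) (y : ℝ) (hy : 0 < y) (h : 2 ^ a ≤ y ^ b) :
    (a : ℝ) / b ≤ Real.logb 2 y := by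
  have hb' : (0 : ℝ) < b := by exact_mod_cast hb
  have := Real.logb_le_logb_of_le one_lt_two (by positivity) h
  rw [Real.logb_pow, Real.logb_pow, Real.logb_self_eq_one one_lt_two] at this
  rw [div_le_iff₀ hb']
  linarith

lemma sum_p (A : Finset ℕ) :
    ∑ k ∈ A, p k = Real.logb 2 (∏ k ∈ A, (1 + 1 / ((k : ℝ) * ((k : ℝ) + 2)))) := by
  rw [Real.logb_prod]
  · rfl
  · intro k _
    positivity

noncomputable def w (A : Finset ℕ) (k : ℕ) : ℝ := if k ∈ A then p k / ∑ j ∈ A, p j else 0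

lemma w_nonneg (A : Finset ℕ) (k : ℕ) : 0 ≤ w A k := by
  unfold w
  split_ifs
  · exact div_nonneg (p_nonneg k) (Finset.sum_nonneg fun j _ => p_nonneg j)
  · exact le_rfl

lemma w_hasSum (A : Finset ℕ) (h : 1 / 5 ≤ ∑ j ∈ A, p j) : HasSum (w A) 1 := by
  have h1 : HasSum (w A) (∑ k ∈ A, w A k) :=
    hasSum_sum_of_ne_finset_zero (fun k hk => by simp [w, hk])
  have h2 : ∑ k ∈ A, w A k = 1 := by
    rw [Finset.sum_congr rfl (fun k hk => by rw [w, if_pos hk]), ← Finset.sum_div, div_self]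
    linarith
  rwa [h2] at h1

lemma w_le (A : Finset ℕ) (h : 1 / 5 ≤ ∑ j ∈ A, p j) (k : ℕ) : w A k ≤ 5 * p k := by
  have := p_nonneg k
  unfold w
  split_ifs
  · rw [div_le_iff₀ (by linarith)]
    nlinarith
  · linarith

lemma mem_of_w (A : Finset ℕ) (k : ℕ) (h : w A k ≠ 0) : k ∈ A := by
  by_contra hk
  exact h (by simp [w, hk])

def AO : Finset ℕ := {3, 5, 7, 9, 11, 13, 15, 17, 19}
def AE : Finset ℕ := {2, 4}

lemma hAO : 1 / 5 ≤ ∑ j ∈ AO, p j := by
  rw [sum_p]
  have := le_logb 1 5 (by norm_num) (∏ k ∈ AO, (1 + 1 / ((k : ℝ) * ((k : ℝ) + 2))))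
    (Finset.prod_pos fun k _ => by positivity) (by simp [AO]; norm_num)
  simpa using this

lemma hAE : 1 / 5 ≤ ∑ j ∈ AE, p j := by
  rw [sum_p]
  have := le_logb 1 5 (by norm_num) (∏ k ∈ AE, (1 + 1 / ((k : ℝ) * ((k : ℝ) + 2))))
    (Finset.prod_pos fun k _ => by positivity) (by simp [AE]; norm_num)
  simpa using this

lemma p_one : 2 / 5 ≤ p 1 := by
  have := le_logb 2 5 (by norm_num) (1 + 1 / (((1 : ℕ) : ℝ) * (((1 : ℕ) : ℝ) + 2))) (by positivity)
    (by norm_num)
  simpa [p] using this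

lemma p_three : p 3 < 1 / 5 := by
  have h : (1 + 1 / (((3 : ℕ) : ℝ) * (((3 : ℕ) : ℝ) + 2))) ^ 5 < 2 ^ 1 := by norm_num
  have := Real.logb_lt_logb one_lt_two (by positivity) h
  rw [Real.logb_pow, Real.logb_pow, Real.logb_self_eq_one one_lt_two] at this
  unfold p
  push_cast at this ⊢
  linarith

noncomputable def al (k : ℕ) : ℝ := 5 * p k - (if k = 1 then 2 else 0) - w AO k - w AE k

lemma al_nonneg (k : ℕ) : 0 ≤ al k := by
  have h0 := p_nonneg k
  have h1 := w_le AO hAO k
  have h2 := w_le AE hAE k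
  unfold al
  by_cases hk : k = 1
  · subst hk
    have a1 : w AO 1 = 0 := by simp [w, AO]
    have a2 : w AE 1 = 0 := by simp [w, AE]
    rw [a1, a2, if_pos rfl]
    linarith [p_one]
  · rw [if_neg hk]
    by_cases hO : k ∈ AO
    · have : w AE k = 0 := by
        have : k ∉ AE := by
          simp only [AO, AE, Finset.mem_insert, Finset.mem_singleton] at hO ⊢
          omega
        simp [w, this]
      linarith
    · have : w AO k = 0 := by simp [w, hO]
      linarith

lemma al_zero : al 0 = 0 := by simp [al, p_zero, w, AO, AE]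

lemma al_hasSum : HasSum al 1 := by
  have h := (((p_hasSum.mul_left 5).sub (hasSum_ite_eq 1 (2 : ℝ))).sub (w_hasSum AO hAO)).sub
    (w_hasSum AE hAE)
  have e : (5 : ℝ) * 1 - 2 - 1 - 1 = 1 := by norm_num
  rw [e] at h
  exact h

/-- digits in blocks of five -/
def blk (u0 u1 u2 u3 u4 : ℕ → ℕ) (n : ℕ) : ℕ :=
  if n % 5 = 0 then u0 (n / 5) else if n % 5 = 1 then u1 (n / 5) else if n % 5 = 2 then u2 (n / 5)
  else if n % 5 = 3 then u3 (n / 5) else u4 (n / 5)

lemma count_blk (d : ℕ → ℕ) (k : ℕ) (G : ℕ → ℝ) (hG0 : G 0 = 0)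
    (hG : ∀ m, G (m + 1) = G m + ∑ r ∈ Finset.range 5, if d (5 * m + r) = k then (1 : ℝ) else 0)
    (n : ℕ) : |(∑ i ∈ Finset.range n, if d (i + 1) = k then (1 : ℝ) else 0) - G (n / 5)| ≤ 6 := by
  set φ : ℕ → ℝ := fun i => if d i = k then (1 : ℝ) else 0 with hφ
  have h0 : ∀ i, 0 ≤ φ i := fun i => by simp only [hφ]; split_ifs <;> norm_num
  have h1 : ∀ i, φ i ≤ 1 := fun i => by simp only [hφ]; split_ifs <;> norm_num
  have h2 : ∀ m, G m = ∑ i ∈ Finset.range (5 * m), φ i := by
    intro m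
    induction m with
    | zero => simpa using hG0
    | succ m ih => rw [hG, ih, mul_add, mul_one, Finset.sum_range_add]
  have h3 : ∑ i ∈ Finset.range n, φ (i + 1) = ∑ i ∈ Finset.range (n + 1), φ i - φ 0 := by
    rw [Finset.sum_range_succ']; ring
  have h4 : n + 1 = 5 * (n / 5) + (n % 5 + 1) := by omega
  change |(∑ i ∈ Finset.range n, φ (i + 1)) - G (n / 5)| ≤ 6
  rw [h3, h2, h4, Finset.sum_range_add]
  have h5 : 0 ≤ ∑ i ∈ Finset.range (n % 5 + 1), φ (5 * (n / 5) + i) :=
    Finset.sum_nonneg fun i _ => h0 _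
  have h6 : ∑ i ∈ Finset.range (n % 5 + 1), φ (5 * (n / 5) + i) ≤ 5 := by
    calc _ ≤ ∑ i ∈ Finset.range (n % 5 + 1), (1 : ℝ) := Finset.sum_le_sum fun i _ => h1 _
      _ = ((n % 5 + 1 : ℕ) : ℝ) := by simp
      _ ≤ ((5 : ℕ) : ℝ) := by exact_mod_cast (by omega : n % 5 + 1 ≤ 5)
      _ = 5 := by norm_num
  rw [abs_le]
  constructor <;> linarith [h0 0, h1 0]

theorem main : ∃ (x : ℝ) (d d' : ℕ → ℕ),
    (∀ i, (GenContFract.of x).partDens.get? i = some (d (i + 1) : ℝ)) ∧
    (∀ i, (GenContFract.of (2 * x)).partDens.get? i = some (d' (i + 1) : ℝ)) ∧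
    (∀ k, Tendsto (fun n : ℕ => (∑ i ∈ Finset.range n, if d (i + 1) = k then (1 : ℝ) else 0) / n)
      atTop (𝓝 (p k))) ∧
    ¬ Tendsto (fun n : ℕ => (∑ i ∈ Finset.range n, if d' (i + 1) = 3 then (1 : ℝ) else 0) / n)
      atTop (𝓝 (p 3)) := by
  obtain ⟨c, hc, hc'⟩ := exists_freq (w AO) (w_nonneg AO) (w_hasSum AO hAO)
  obtain ⟨e, he, he'⟩ := exists_freq (w AE) (w_nonneg AE) (w_hasSum AE hAE)
  obtain ⟨a, ha, ha'⟩ := exists_freq al al_nonneg al_hasSum
  have hc1 : ∀ j, c j = 2 * (c j / 2) + 1 ∧ 1 ≤ c j / 2 := by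
    intro j
    have := mem_of_w _ _ (hc j)
    simp only [AO, Finset.mem_insert, Finset.mem_singleton] at this
    omega
  have he1 : ∀ j, e j = 2 * (e j / 2) ∧ 1 ≤ e j / 2 := by
    intro j
    have := mem_of_w _ _ (he j)
    simp only [AE, Finset.mem_insert, Finset.mem_singleton] at this
    omega
  have ha1 : ∀ j, 1 ≤ a j := by
    intro j
    by_contra h
    have : a j = 0 := by omega
    exact ha j (by rw [this, al_zero])
  set d : ℕ → ℕ := blk (fun _ => 1) (fun _ => 1) c a e with hd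
  set d' : ℕ → ℕ := blk (fun _ => 3) (fun _ => 1) (fun j => c j / 2) (fun j => 2 * a j)
    (fun j => e j / 2) with hd'
  have hd1 : ∀ n, 1 ≤ d n := by
    intro n
    have := hc1 (n / 5); have := he1 (n / 5); have := ha1 (n / 5)
    simp only [hd, blk]
    split_ifs <;> omega
  have hd1' : ∀ n, 1 ≤ d' n := by
    intro n
    have := hc1 (n / 5); have := he1 (n / 5); have := ha1 (n / 5)
    simp only [hd', blk]
    split_ifs <;> omega
  obtain ⟨t, ht⟩ := exists_tails d hd1
  have htp : ∀ n, 0 < t n := fun n => by linarith [(ht n).1]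
  have ev : ∀ (u0 u1 u2 u3 u4 : ℕ → ℕ) (m : ℕ), blk u0 u1 u2 u3 u4 (5 * m) = u0 m ∧
      blk u0 u1 u2 u3 u4 (5 * m + 1) = u1 m ∧ blk u0 u1 u2 u3 u4 (5 * m + 2) = u2 m ∧
      blk u0 u1 u2 u3 u4 (5 * m + 3) = u3 m ∧ blk u0 u1 u2 u3 u4 (5 * m + 4) = u4 m := by
    intro u0 u1 u2 u3 u4 m
    have a0 : 5 * m % 5 = 0 := by omega
    have a1 : (5 * m + 1) % 5 = 1 := by omega
    have a2 : (5 * m + 2) % 5 = 2 := by omega
    have a3 : (5 * m + 3) % 5 = 3 := by omega
    have a4 : (5 * m + 4) % 5 = 4 := by omega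
    have b0 : 5 * m / 5 = m := by omega
    have b1 : (5 * m + 1) / 5 = m := by omega
    have b2 : (5 * m + 2) / 5 = m := by omega
    have b3 : (5 * m + 3) / 5 = m := by omega
    have b4 : (5 * m + 4) / 5 = m := by omega
    simp [blk, a0, a1, a2, a3, a4, b0, b1, b2, b3, b4]
  set t' : ℕ → ℝ := fun n => if n % 5 = 0 then 2 * t n else if n % 5 = 1 then 1 + 2 / (t (n + 1) - 1)
    else if n % 5 = 2 then (t n - 1) / 2 else if n % 5 = 3 then 2 * t n else t n / 2 with ht'
  have ht'' : ∀ n, 0 < t' n ∧ t' n = d' n + 1 / t' (n + 1) := by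
    intro n
    obtain ⟨m, r, hr, rfl⟩ : ∃ m r, r < 5 ∧ n = 5 * m + r := ⟨n / 5, n % 5, by omega, by omega⟩
    obtain ⟨e0, e1, e2, e3, e4⟩ := ev (fun _ => 1) (fun _ => 1) c a e m
    obtain ⟨f0, f1, f2, f3, f4⟩ := ev (fun _ => 3) (fun _ => 1) (fun j => c j / 2) (fun j => 2 * a j)
      (fun j => e j / 2) m
    rw [← hd] at e0 e1 e2 e3 e4
    rw [← hd'] at f0 f1 f2 f3 f4
    have g0 := (ht (5 * m)).2
    have g1 := (ht (5 * m + 1)).2
    have g2 := (ht (5 * m + 2)).2
    have g3 := (ht (5 * m + 3)).2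
    have g4 := (ht (5 * m + 4)).2
    rw [e0] at g0; rw [e1] at g1; rw [e2] at g2; rw [e3] at g3; rw [e4] at g4
    have s0 : t' (5 * m) = 2 * t (5 * m) := by
      have : 5 * m % 5 = 0 := by omega
      simp [ht', this]
    have s1 : t' (5 * m + 1) = 1 + 2 / (t (5 * m + 2) - 1) := by
      have : (5 * m + 1) % 5 = 1 := by omega
      simp [ht', this]
    have s2 : t' (5 * m + 2) = (t (5 * m + 2) - 1) / 2 := by
      have : (5 * m + 2) % 5 = 2 := by omega
      simp [ht', this]
    have s3 : t' (5 * m + 3) = 2 * t (5 * m + 3) := by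
      have : (5 * m + 3) % 5 = 3 := by omega
      simp [ht', this]
    have s4 : t' (5 * m + 4) = t (5 * m + 4) / 2 := by
      have : (5 * m + 4) % 5 = 4 := by omega
      simp [ht', this]
    have s5 : t' (5 * m + 4 + 1) = 2 * t (5 * m + 4 + 1) := by
      have : (5 * m + 4 + 1) % 5 = 0 := by omega
      simp [ht', this]
    have k2 : (c m : ℝ) = 2 * ((c m / 2 : ℕ) : ℝ) + 1 := by exact_mod_cast (hc1 m).1
    have k2' : (1 : ℝ) ≤ ((c m / 2 : ℕ) : ℝ) := by exact_mod_cast (hc1 m).2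
    have k4 : (e m : ℝ) = 2 * ((e m / 2 : ℕ) : ℝ) := by exact_mod_cast (he1 m).1
    have p0 := htp (5 * m); have p1 := htp (5 * m + 1); have p2 := htp (5 * m + 2)
    have p3 := htp (5 * m + 3); have p4 := htp (5 * m + 4); have p5 := htp (5 * m + 4 + 1)
    have q3 : 0 < 1 / t (5 * m + 3) := by positivity
    have q2 : 0 < t (5 * m + 2) - 1 := by
      have : t (5 * m + 2 + 1) = t (5 * m + 3) := rfl
      rw [this] at g2
      linarith
    interval_cases r
    · simp only [add_zero]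
      rw [s0, s1, f0]
      refine ⟨by positivity, ?_⟩
      rw [g0, g1]
      have : t (5 * m + 1 + 1) = t (5 * m + 2) := rfl
      rw [this]
      push_cast
      field_simp
      ring
    · have : 5 * m + 1 + 1 = 5 * m + 2 := rfl
      rw [this, s1, s2, f1]
      refine ⟨by positivity, ?_⟩
      push_cast
      field_simp
    · have : 5 * m + 2 + 1 = 5 * m + 3 := rfl
      rw [this] at g2
      rw [this, s2, s3, f2]
      refine ⟨by positivity, ?_⟩
      rw [g2, k2]
      field_simp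
      ring
    · have : 5 * m + 3 + 1 = 5 * m + 4 := rfl
      rw [this] at g3
      rw [this, s3, s4, f3]
      refine ⟨by positivity, ?_⟩
      rw [g3]
      push_cast
      field_simp
    · rw [s4, s5, f4]
      refine ⟨by positivity, ?_⟩
      rw [g4, k4]
      field_simp
  refine ⟨t 0, d, d', partDens_of_tails d hd1 t (fun n => ⟨htp n, (ht n).2⟩), ?_, ?_, ?_⟩
  · have : 2 * t 0 = t' 0 := by simp [ht']
    rw [this]
    exact partDens_of_tails d' hd1' t' ht''
  · intro k
    set G : ℕ → ℝ := fun m => m * (if k = 1 then 2 else 0) +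
      (∑ i ∈ Finset.range m, if c i = k then (1 : ℝ) else 0) +
      (∑ i ∈ Finset.range m, if a i = k then (1 : ℝ) else 0) +
      (∑ i ∈ Finset.range m, if e i = k then (1 : ℝ) else 0) with hG
    have hG0 : G 0 = 0 := by simp [hG]
    have hcount := count_blk d k G hG0 (by
      intro m
      obtain ⟨e0, e1, e2, e3, e4⟩ := ev (fun _ => 1) (fun _ => 1) c a e m
      rw [← hd] at e0 e1 e2 e3 e4
      simp only [hG, Finset.sum_range_succ, Finset.sum_range_zero, add_zero, e0, e1, e2, e3, e4]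
      by_cases hk : k = 1
      · rw [if_pos hk, if_pos hk.symm]; push_cast; ring
      · rw [if_neg hk, if_neg (Ne.symm hk)]; push_cast; ring)
    have hlim : Tendsto (fun m : ℕ => G m / m) atTop
        (𝓝 ((if k = 1 then 2 else 0) + w AO k + al k + w AE k)) := by
      have h1 := (((tendsto_const_nhds (x := (if k = 1 then (2 : ℝ) else 0))).add (hc' k)).add
        (ha' k)).add (he' k)
      refine h1.congr' ?_
      filter_upwards [eventually_gt_atTop 0] with m hm
      have : (m : ℝ) ≠ 0 := by exact_mod_cast hm.ne'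
      simp only [hG]
      field_simp
    have := tendsto_block 5 (by norm_num) _ G 6 _ hG0 hcount hlim
    convert this using 2
    simp only [al]
    push_cast
    ring
  · intro hcon
    have h1 := tendsto_block 5 (by norm_num) (fun n => ((n / 5 : ℕ) : ℝ)) (fun m => (m : ℝ)) 0 1
      (by simp) (by simp) (by
        refine tendsto_const_nhds.congr' ?_
        filter_upwards [eventually_gt_atTop 0] with m hm
        have : (m : ℝ) ≠ 0 := by exact_mod_cast hm.ne'
        field_simp)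
    have h2 : ∀ n : ℕ, ((n / 5 : ℕ) : ℝ) ≤ ∑ i ∈ Finset.range n, if d' (i + 1) = 3 then (1 : ℝ) else 0 := by
      intro n
      induction n with
      | zero => simp
      | succ n ih =>
        rw [Finset.sum_range_succ]
        by_cases h : (n + 1) % 5 = 0
        · have a1 : d' (n + 1) = 3 := by simp [hd', blk, h]
          have a2 : (n + 1) / 5 = n / 5 + 1 := by omega
          rw [if_pos a1, a2]; push_cast; linarith
        · have a2 : (n + 1) / 5 = n / 5 := by omega
          rw [a2]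
          split_ifs <;> linarith
    have := le_of_tendsto_of_tendsto' h1 hcon (fun n => by
      apply div_le_div_of_nonneg_right (h2 n) (Nat.cast_nonneg n))
    have h3 := p_three
    push_cast at this
    linarith

end Pool.Agent.H58.CFDouble
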