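import Pool.Agent.H58.CarnotDefs

namespace Pool.Agent.H58.Carnot
open MeasureTheory Set Filter
open scoped commutatorElement

def cen (s t : ℝ) : N := ⟨![0, 0, 0, 0, s, t]⟩

lemma comm (a b : N) : ⁅a, b⁆ = cen (a.c 0 * b.c 1 - b.c 0 * a.c 1)
    (a.c 2 * b.c 0 + a.c 3 * b.c 1 - b.c 2 * a.c 0 - b.c 3 * a.c 1) := by
  ext i; fin_cases i <;> simp [commutatorElement_def, mul_c, inv_c, cen] <;> ring

lemma hcomm {n : ℕ} (a b : Heis n) : ⁅a, b⁆ = ⟨0, 0, a.x ⬝ᵥ b.y - a.y ⬝ᵥ b.x⟩ := by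
  simp [commutatorElement_def, hmul, hinv, dotProduct_comm]; ring

lemma ad {a : N} (h : a.c 0 ≠ 0 ∨ a.c 1 ≠ 0) (s t : ℝ) : ∃ g, ⁅a, g⁆ = cen s t := by
  have D : a.c 0 ^ 2 + a.c 1 ^ 2 ≠ 0 := by rcases h with h | h <;> positivity
  obtain ⟨r, hr⟩ : ∃ r, r * (a.c 0 ^ 2 + a.c 1 ^ 2) = 1 := ⟨_, inv_mul_cancel₀ D⟩
  obtain ⟨m, hm⟩ : ∃ m, m = a.c 2 * (-s * a.c 1 * r) + a.c 3 * (s * a.c 0 * r) - t := ⟨_, rfl⟩
  refine ⟨⟨![-s * a.c 1 * r, s * a.c 0 * r, m * a.c 0 * r, m * a.c 1 * r, 0, 0]⟩, ?_⟩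
  rw [comm]
  congr 1 <;> simp only [Matrix.cons_val]
  · linear_combination s * hr
  · linear_combination -m * hr - hm

lemma had {n : ℕ} {a : Heis n} (h : a.x ≠ 0 ∨ a.y ≠ 0) (s : ℝ) :
    ∃ g : Heis n, ⁅a, g⁆ = (⟨0, 0, s⟩ : Heis n) := by
  have p : ∀ v : Fin n → ℝ, 0 ≤ v ⬝ᵥ v := fun v => Finset.sum_nonneg fun i _ => mul_self_nonneg _
  have D : a.x ⬝ᵥ a.x + a.y ⬝ᵥ a.y ≠ 0 := fun e => by
    have := (add_eq_zero_iff_of_nonneg (p _) (p _)).1 e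
    simp only [dotProduct_self_eq_zero] at this
    tauto
  obtain ⟨r, hr⟩ : ∃ r, r * (a.x ⬝ᵥ a.x + a.y ⬝ᵥ a.y) = 1 := ⟨_, inv_mul_cancel₀ D⟩
  refine ⟨⟨(-s * r) • a.y, (s * r) • a.x, 0⟩, ?_⟩
  rw [hcomm]
  simp
  linear_combination s * hr

lemma cen_inj {s t s' t' : ℝ} (h : cen s t = cen s' t') : s = s' ∧ t = t' :=
  ⟨congrFun (congrArg N.c h) 4, congrFun (congrArg N.c h) 5⟩

lemma cen0 : cen 0 0 = 1 := by ext i; fin_cases i <;> simp [cen, one_c]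

lemma pc {A B : Type} [Group A] [Group B] (a b : A × B) : ⁅a, b⁆ = (⁅a.1, b.1⁆, ⁅a.2, b.2⁆) := rfl

theorem nofactor (n : ℕ) (B : Type) [Group B] : IsEmpty (N ≃* Heis n × B) := by
  refine ⟨fun φ => ?_⟩
  have X0 : (⟨![1, 0, 0, 0, 0, 0]⟩ : N).c 0 ≠ 0 ∨ (⟨![1, 0, 0, 0, 0, 0]⟩ : N).c 1 ≠ 0 := by simp
  obtain ⟨e, he⟩ := φ.surjective (⟨0, 0, 1⟩, 1)
  have ec : ∀ g, ⁅e, g⁆ = cen 0 0 := fun g => φ.injective (by
    rw [map_commutatorElement, he, cen0, map_one, pc, hcomm]; simp [hone])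
  have e1 := cen_inj ((comm _ _).symm.trans (ec ⟨![1, 0, 0, 0, 0, 0]⟩))
  have e2 := cen_inj ((comm _ _).symm.trans (ec ⟨![0, 1, 0, 0, 0, 0]⟩))
  simp at e1 e2
  have e3 : e = cen (e.c 4) (e.c 5) := by ext i; fin_cases i <;> simp [cen, e1, e2]
  obtain ⟨g, hg⟩ := ad X0 (e.c 4) (e.c 5)
  have h1 := congrArg (fun v => (φ v).1) hg
  simp only [← e3, he, map_commutatorElement, pc] at h1
  obtain ⟨a, h, ha, hx⟩ : ∃ a h, φ a = (h, 1) ∧ (a.c 0 ≠ 0 ∨ a.c 1 ≠ 0) := by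
    by_contra hc
    push Not at hc
    obtain ⟨a, ha⟩ := φ.surjective ((φ ⟨![1, 0, 0, 0, 0, 0]⟩).1, 1)
    obtain ⟨b, hb⟩ := φ.surjective ((φ g).1, 1)
    have := congrArg (fun v => (φ v).1.z) (comm a b)
    simp [hc a _ ha, hc b _ hb, cen0, map_commutatorElement, pc, ha, hb, h1, hone] at this
  have key : ∀ s t, ∃ w, φ (cen s t) = (⟨0, 0, w⟩, 1) := fun s t => by
    obtain ⟨g, hg⟩ := ad hx s t
    exact ⟨_, by rw [← hg, map_commutatorElement, ha, pc, hcomm, commutatorElement_one_left]⟩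
  by_cases hp : (φ ⟨![0, 0, 1, 0, 0, 0]⟩).1.x ≠ 0 ∨ (φ ⟨![0, 0, 1, 0, 0, 0]⟩).1.y ≠ 0
  · obtain ⟨w, hw⟩ := key 1 0
    obtain ⟨k, hk⟩ := had hp w
    obtain ⟨b, hb⟩ := φ.surjective (k, 1)
    have : ⁅(⟨![0, 0, 1, 0, 0, 0]⟩ : N), b⁆ = cen 1 0 := φ.injective (by
      rw [map_commutatorElement, hb, pc, hk, hw, commutatorElement_one_right])
    simpa using (cen_inj ((comm _ _).symm.trans this)).1
  · push Not at hp
    obtain ⟨w, hw⟩ := key 0 1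
    have c : ⁅(⟨![0, 0, 1, 0, 0, 0]⟩ : N), (⟨![1, 0, 0, 0, 0, 0]⟩ : N)⁆ = cen 0 1 := by simp [comm]
    have := congrArg (fun v => (φ v).1.z) c
    simp only [map_commutatorElement, pc, hcomm, hp.1, hp.2, hw] at this
    have : cen 0 1 = cen 0 0 := φ.injective (by
      rw [hw, cen0, map_one, ← this]; simp [hone])
    simpa using (cen_inj this).2

lemma mem_comm {a : N} : a ∈ commutator N ↔ ∃ s t, a = cen s t := by
  constructor
  · intro h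
    rw [commutator_eq_closure] at h
    induction h using Subgroup.closure_induction with
    | mem x hx => obtain ⟨a, b, rfl⟩ := hx; exact ⟨_, _, comm a b⟩
    | one => exact ⟨0, 0, cen0.symm⟩
    | mul x y _ _ hx hy =>
      obtain ⟨s, t, rfl⟩ := hx
      obtain ⟨s', t', rfl⟩ := hy
      exact ⟨s + s', t + t', by ext i; fin_cases i <;> simp [cen, mul_c]⟩
    | inv x _ hx =>
      obtain ⟨s, t, rfl⟩ := hx
      exact ⟨-s, -t, by ext i; fin_cases i <;> simp [cen, inv_c]⟩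
  · rintro ⟨s, t, rfl⟩
    obtain ⟨g, hg⟩ := ad (a := ⟨![1, 0, 0, 0, 0, 0]⟩) (by simp) s t
    exact hg ▸ Subgroup.commutator_mem_commutator (Subgroup.mem_top _) (Subgroup.mem_top _)

noncomputable def r (x : ℝ) : ℝ := (1 + x ^ 2)⁻¹

lemma r_eq (x : ℝ) : r x * (1 + x ^ 2) = 1 := inv_mul_cancel₀ (by positivity)

lemma r_der (x : ℝ) : HasDerivAt r (-2 * x * r x ^ 2) x :=
  (((hasDerivAt_pow 2 x).const_add 1).inv (by positivity)).congr_deriv (by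
    simp [r]; field_simp)

lemma r_cd : ContDiff ℝ 1 r := ContDiff.inv (by fun_prop) fun x => by positivity

noncomputable def f (σ : ℝ) (c : Fin 6 → ℝ) : Fin 6 → ℝ :=
  ![c 0, c 1, c 2 + σ * (-2 * c 0 * r (c 0) ^ 2 * Real.sin (c 4)),
    c 3 + σ * (c 0 * r (c 0) * Real.cos (c 4)), c 4, c 5 + σ * (r (c 0) * Real.sin (c 4))]

noncomputable def F (σ : ℝ) (g : N) : N := ⟨f σ g.c⟩

lemma F_inv (σ : ℝ) (g : N) : F (-σ) (F σ g) = g := by
  ext i; fin_cases i <;> simp [F, f]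

lemma f_cd (σ : ℝ) : ContDiff ℝ 1 (f σ) := by
  have := r_cd
  refine contDiff_pi.2 fun i => ?_
  fin_cases i <;> simp [f] <;> fun_prop

lemma ac {E : Type} [NormedAddCommGroup E] [NormedSpace ℝ E] [ProperSpace E] {φ : E → E}
    (hφ : ContDiff ℝ 1 φ) {γ : ℝ → E} (h : AbsolutelyContinuousOnInterval γ 0 1) :
    AbsolutelyContinuousOnInterval (fun s => φ (γ s)) 0 1 := by
  obtain ⟨C, hC⟩ := h.exists_bound
  obtain ⟨K, hK⟩ := hφ.contDiffOn.exists_lipschitzOnWith (by decide) (convex_closedBall 0 C)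
    (isCompact_closedBall 0 C)
  refine squeeze_zero' (Eventually.of_forall fun t => by positivity) ?_
    (by simpa using Tendsto.const_mul (K : ℝ) h)
  refine eventually_inf_principal.2 (Eventually.of_forall fun t ht => ?_)
  rw [Finset.mul_sum]
  exact Finset.sum_le_sum fun i hi => hK.dist_le_mul _ (mem_closedBall_zero_iff.2
    (hC _ (ht.1 i hi).1)) _ (mem_closedBall_zero_iff.2 (hC _ (ht.1 i hi).2))

noncomputable def ctl (σ : ℝ) (c : Fin 6 → ℝ) (u : Fin 4 → ℝ) : Fin 4 → ℝ :=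
  ![u 0, u 1, u 2 + σ * ((6 * c 0 ^ 2 - 2) * r (c 0) ^ 3 * Real.sin (c 4) * u 0 -
      2 * c 0 ^ 2 * r (c 0) ^ 2 * Real.cos (c 4) * u 1),
    u 3 + σ * ((1 - c 0 ^ 2) * r (c 0) ^ 2 * Real.cos (c 4) * u 0 -
      c 0 ^ 2 * r (c 0) * Real.sin (c 4) * u 1)]

lemma der (σ : ℝ) {γ : ℝ → N} {u : Fin 4 → ℝ} {s : ℝ}
    (h : HasDerivAt (fun s => (γ s).c) (frame (γ s) u) s) :
    HasDerivAt (fun s => (F σ (γ s)).c) (frame (F σ (γ s)) (ctl σ (γ s).c u)) s := by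
  rw [hasDerivAt_pi] at h ⊢
  have h0 := h 0
  have h4 := h 4
  have hr := (r_der _).comp s h0
  have e := r_eq ((γ s).c 0)
  intro i
  fin_cases i
  · exact h0
  · exact h 1
  · refine ((h 2).add ((((h0.const_mul (-2)).mul (hr.pow 2)).mul h4.sin).const_mul σ)).congr_deriv ?_
    simp [frame, ctl]
    left
    linear_combination 2 * r ((γ s).c 0) ^ 2 * Real.sin ((γ s).c 4) * u 0 * e
  · refine ((h 3).add (((h0.mul hr).mul h4.cos).const_mul σ)).congr_deriv ?_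
    simp [frame, ctl]
    left
    linear_combination -r ((γ s).c 0) * Real.cos ((γ s).c 4) * u 0 * e
  · exact h4
  · refine ((h 5).add ((hr.mul h4.sin).const_mul σ)).congr_deriv ?_
    simp [frame, ctl, F, f]
    ring

lemma tri {a b c x y z M : ℝ} (ha : |a| ≤ 2) (hb : |b| ≤ 2) (hc : |c| ≤ 1) (hx : |x| ≤ M)
    (hy : |y| ≤ M) (hz : |z| ≤ M) : |z + c * (a * x - b * y)| ≤ 5 * M := by
  have M0 := (abs_nonneg _).trans hx
  have h1 : |a * x| ≤ 2 * M := by rw [abs_mul]; gcongr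
  have h2 : |b * y| ≤ 2 * M := by rw [abs_mul]; gcongr
  have h3 : |c * (a * x - b * y)| ≤ 1 * (2 * M + 2 * M) := by
    rw [abs_mul]; gcongr; exact (abs_sub _ _).trans (add_le_add h1 h2)
  linarith [abs_add_le z (c * (a * x - b * y))]

lemma ctl_le {σ : ℝ} (hσ : |σ| ≤ 1) (c : Fin 6 → ℝ) (u : Fin 4 → ℝ) : ‖ctl σ c u‖ ≤ 5 * ‖u‖ := by
  have b := fun i => norm_le_pi_norm u i
  have e := r_eq (c 0)
  have r0 : 0 < r (c 0) := by unfold r; positivity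
  obtain ⟨w, hw⟩ : ∃ w, w = c 0 ^ 2 := ⟨_, rfl⟩
  have w0 : 0 ≤ w := by rw [hw]; positivity
  rw [← hw] at e
  have m : ∀ {a t : ℝ}, |a| ≤ 2 → |t| ≤ 1 → |a * t| ≤ 2 := fun ha ht => by
    rw [abs_mul]; nlinarith [abs_nonneg ‹ℝ›]
  have s1 := Real.abs_sin_le_one (c 4)
  have c1 := Real.abs_cos_le_one (c 4)
  have n0 := norm_nonneg u
  refine (pi_norm_le_iff_of_nonneg (by positivity)).2 fun i => ?_
  unfold ctl
  rw [← hw]
  generalize r (c 0) = ρ at e r0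
  have v : ρ * w = 1 - ρ := by linarith
  have ρ1 : ρ ≤ 1 := by nlinarith
  fin_cases i
  · exact (b 0).trans (by linarith)
  · exact (b 1).trans (by linarith)
  · refine tri (m ?_ s1) (m ?_ c1) hσ (b 0) (b 1) (b 2)
    · rw [show (6 * w - 2) * ρ ^ 3 = (6 - 8 * ρ) * ρ ^ 2 by linear_combination 6 * ρ ^ 2 * v, abs_le]
      constructor <;> nlinarith [sq_nonneg (ρ - 1 / 2), mul_nonneg r0.le (sq_nonneg (ρ - 1 / 2))]
    · rw [show 2 * w * ρ ^ 2 = 2 * (1 - ρ) * ρ by linear_combination 2 * ρ * v, abs_le]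
      constructor <;> nlinarith
  · refine tri (m ?_ c1) (m ?_ s1) hσ (b 0) (b 1) (b 3)
    · rw [show (1 - w) * ρ ^ 2 = (2 * ρ - 1) * ρ by linear_combination -ρ * v, abs_le]
      constructor <;> nlinarith
    · rw [show w * ρ = 1 - ρ by linarith, abs_le]
      constructor <;> nlinarith

lemma cc_le {σ : ℝ} (hσ : |σ| ≤ 1) (a b : N) : cc (F σ a) (F σ b) ≤ 5 * cc a b := by
  unfold cc
  simp only [ENNReal.mul_iInf_of_ne (by simp : (5 : ENNReal) ≠ 0) (by simp)]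
  refine le_iInf fun γ => le_iInf fun u => le_iInf fun h => ?_
  refine iInf_le_of_le (fun s => F σ (γ s)) (iInf_le_of_le (fun s => ctl σ (γ s).c (u s))
    (iInf_le_of_le ⟨⟨ac (f_cd σ) h.1.1, h.1.2.mono fun s hs h1 => der σ (hs h1)⟩,
      congrArg (F σ) h.2.1, congrArg (F σ) h.2.2⟩ ?_))
  rw [← lintegral_const_mul' _ _ (by simp)]
  refine lintegral_mono fun s => ?_
  rw [← ofReal_norm, ← ofReal_norm, ← ENNReal.ofReal_ofNat,
    ← ENNReal.ofReal_mul (by norm_num)]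
  exact ENNReal.ofReal_le_ofReal (ctl_le hσ _ _)

end Pool.Agent.H58.Carnot
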