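import Mathlib

namespace Pool.Agent.H58.Carnot
open MeasureTheory

/-- The group `N`: real 6-space with coordinates `(x, y, p, q, t, z)`. -/
@[ext] structure N where
  c : Fin 6 → ℝ

instance : Mul N := ⟨fun a b => ⟨![a.c 0 + b.c 0, a.c 1 + b.c 1, a.c 2 + b.c 2, a.c 3 + b.c 3,
  a.c 4 + b.c 4 + a.c 0 * b.c 1, a.c 5 + b.c 5 + a.c 2 * b.c 0 + a.c 3 * b.c 1]⟩⟩

instance : One N := ⟨⟨0⟩⟩

instance : Inv N := ⟨fun a => ⟨![-a.c 0, -a.c 1, -a.c 2, -a.c 3,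
  -a.c 4 + a.c 0 * a.c 1, -a.c 5 + a.c 2 * a.c 0 + a.c 3 * a.c 1]⟩⟩

lemma mul_c (a b : N) : (a * b).c = ![a.c 0 + b.c 0, a.c 1 + b.c 1, a.c 2 + b.c 2, a.c 3 + b.c 3,
  a.c 4 + b.c 4 + a.c 0 * b.c 1, a.c 5 + b.c 5 + a.c 2 * b.c 0 + a.c 3 * b.c 1] := rfl

lemma one_c : (1 : N).c = 0 := rfl

lemma inv_c (a : N) : a⁻¹.c = ![-a.c 0, -a.c 1, -a.c 2, -a.c 3,
  -a.c 4 + a.c 0 * a.c 1, -a.c 5 + a.c 2 * a.c 0 + a.c 3 * a.c 1] := rfl

instance : Group N := Group.ofLeftAxioms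
  (fun a b c => by ext i; fin_cases i <;> simp [mul_c] <;> ring)
  (fun a => by ext i; fin_cases i <;> simp [mul_c, one_c])
  (fun a => by ext i; fin_cases i <;> simp [mul_c, one_c, inv_c] <;> ring)

/-- The left translate to the point `g` of the vector `u` of the first layer
`V₁ = {t = z = 0}` of the Lie algebra. -/
def frame (g : N) (u : Fin 4 → ℝ) : Fin 6 → ℝ :=
  ![u 0, u 1, u 2, u 3, g.c 0 * u 1, g.c 2 * u 0 + g.c 3 * u 1]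

/-- `γ` is an absolutely continuous curve on `[0, 1]`, horizontal with control `u`. -/
def Horiz (γ : ℝ → N) (u : ℝ → Fin 4 → ℝ) : Prop :=
  AbsolutelyContinuousOnInterval (fun s => (γ s).c) 0 1 ∧
    ∀ᵐ s, s ∈ Set.Icc (0 : ℝ) 1 → HasDerivAt (fun s => (γ s).c) (frame (γ s) (u s)) s

/-- The Carnot metric for the sup norm on `V₁`. -/
noncomputable def cc (a b : N) : ENNReal :=
  ⨅ (γ : ℝ → N) (u : ℝ → Fin 4 → ℝ) (_ : Horiz γ u ∧ γ 0 = a ∧ γ 1 = b),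
    ∫⁻ s in Set.Icc (0 : ℝ) 1, ‖u s‖ₑ

/-- The Heisenberg group of dimension `2n+1` in exponential coordinates. -/
@[ext] structure Heis (n : ℕ) where
  x : Fin n → ℝ
  y : Fin n → ℝ
  z : ℝ

variable {n : ℕ}

noncomputable instance : Mul (Heis n) :=
  ⟨fun a b => ⟨a.x + b.x, a.y + b.y, a.z + b.z + (a.x ⬝ᵥ b.y - a.y ⬝ᵥ b.x) / 2⟩⟩

instance : One (Heis n) := ⟨⟨0, 0, 0⟩⟩

instance : Inv (Heis n) := ⟨fun a => ⟨-a.x, -a.y, -a.z⟩⟩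

lemma hmul (a b : Heis n) :
    a * b = ⟨a.x + b.x, a.y + b.y, a.z + b.z + (a.x ⬝ᵥ b.y - a.y ⬝ᵥ b.x) / 2⟩ := rfl

lemma hone : (1 : Heis n) = ⟨0, 0, 0⟩ := rfl

lemma hinv (a : Heis n) : a⁻¹ = ⟨-a.x, -a.y, -a.z⟩ := rfl

noncomputable instance : Group (Heis n) := Group.ofLeftAxioms
  (fun a b c => by simp [hmul, add_assoc]; ring)
  (fun a => by simp [hmul, hone])
  (fun a => by simp [hmul, hone, hinv, dotProduct_comm])

end Pool.Agent.H58.Carnot
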