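import Pool.Agent.H58.CarnotDefs

namespace Pool.Agent.H58.Carnot
open MeasureTheory

/-- The Carnot-Caratheodory distance for the standard inner product on `V₁`. -/
noncomputable def ccE (a b : N) : ENNReal :=
  ⨅ (γ : ℝ → N) (u : ℝ → Fin 4 → ℝ) (_ : Horiz γ u ∧ γ 0 = a ∧ γ 1 = b),
    ∫⁻ s in Set.Icc (0 : ℝ) 1, ENNReal.ofReal √(∑ i, u s i ^ 2)

/-- The Hausdorff distance of two subsets for `ccE`. -/
noncomputable def dH (A B : Set N) : ENNReal :=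
  max (⨆ a ∈ A, ⨅ b ∈ B, ccE a b) (⨆ b ∈ B, ⨅ a ∈ A, ccE a b)

end Pool.Agent.H58.Carnot
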