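import Pool.Agent.H58.Carnot
import Pool.Agent.H58.CarnotQDefs

namespace Pool.Agent.H58.Carnot
open MeasureTheory Set Filter

noncomputable def D (c : Fin 6 → ℝ) : ℝ := 1 + c 0 ^ 4 + c 4 ^ 2

lemma D_pos (c : Fin 6 → ℝ) : 0 < D c := by unfold D; positivity

noncomputable def g (σ : ℝ) (c : Fin 6 → ℝ) : Fin 6 → ℝ :=
  ![c 0, c 1, c 2 + σ * (Real.log (D c) + 4 * c 0 ^ 4 * (D c)⁻¹),
    c 3 + σ * (2 * c 0 ^ 2 * c 4 * (D c)⁻¹), c 4, c 5 + σ * (c 0 * Real.log (D c))]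

noncomputable def G (σ : ℝ) (a : N) : N := ⟨g σ a.c⟩

lemma G_inv (σ : ℝ) (a : N) : G (-σ) (G σ a) = a := by
  ext i; fin_cases i <;> simp [G, g, D]

lemma g_cd (σ : ℝ) : ContDiff ℝ 1 (g σ) := by
  have h : ContDiff ℝ 1 D := by unfold D; fun_prop
  have h1 := h.log fun c => (D_pos c).ne'
  have h2 : ContDiff ℝ 1 fun c => (D c)⁻¹ := h.inv fun c => (D_pos c).ne'
  refine contDiff_pi.2 fun i => ?_
  fin_cases i <;> simp [g] <;> fun_prop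

noncomputable def ctq (σ : ℝ) (c : Fin 6 → ℝ) (u : Fin 4 → ℝ) : Fin 4 → ℝ :=
  ![u 0, u 1, u 2 + σ * ((20 - 16 * (c 0 ^ 4 * (D c)⁻¹)) * (c 0 ^ 3 * (D c)⁻¹) * u 0 +
      (2 - 8 * (c 0 ^ 4 * (D c)⁻¹)) * (c 0 * c 4 * (D c)⁻¹) * u 1),
    u 3 + σ * ((4 - 8 * (c 0 ^ 4 * (D c)⁻¹)) * (c 0 * c 4 * (D c)⁻¹) * u 0 +
      (2 - 4 * (c 4 ^ 2 * (D c)⁻¹)) * (c 0 ^ 3 * (D c)⁻¹) * u 1)]

lemma derq (σ : ℝ) {γ : ℝ → N} {u : Fin 4 → ℝ} {s : ℝ}
    (h : HasDerivAt (fun s => (γ s).c) (frame (γ s) u) s) :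
    HasDerivAt (fun s => (G σ (γ s)).c) (frame (G σ (γ s)) (ctq σ (γ s).c u)) s := by
  rw [hasDerivAt_pi] at h ⊢
  have h0 := h 0
  have h4 := h 4
  have p := (D_pos (γ s).c).ne'
  have hD : HasDerivAt (fun s => D (γ s).c) _ s := ((h0.pow 4).const_add 1).add (h4.pow 2)
  have hl := hD.log p
  have hi := hD.inv p
  intro i
  fin_cases i
  · exact h0
  · exact h 1
  · refine ((h 2).add ((hl.add (((h0.pow 4).const_mul 4).mul hi)).const_mul σ)).congr_deriv ?_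
    simp [frame, ctq]
    left; field_simp; ring
  · refine ((h 3).add (((((h0.pow 2).const_mul 2).mul h4).mul hi).const_mul σ)).congr_deriv ?_
    simp [frame, ctq]
    left; field_simp; ring
  · exact h4
  · refine ((h 5).add ((h0.mul hl).const_mul σ)).congr_deriv ?_
    simp [frame, ctq, G, g]
    field_simp; ring

lemma bd {c z a b x y M : ℝ} (ha : |a| ≤ 36) (hb : |b| ≤ 36) (hc : |c| ≤ 1) (hx : |x| ≤ M)
    (hy : |y| ≤ M) (hz : |z| ≤ M) : |z + c * (a * x + b * y)| ≤ 73 * M := by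
  have M0 := (abs_nonneg _).trans hx
  have h1 : |a * x| ≤ 36 * M := by rw [abs_mul]; gcongr
  have h2 : |b * y| ≤ 36 * M := by rw [abs_mul]; gcongr
  have h3 : |c * (a * x + b * y)| ≤ 1 * (36 * M + 36 * M) := by
    rw [abs_mul]; gcongr; exact (abs_add_le _ _).trans (add_le_add h1 h2)
  linarith [abs_add_le z (c * (a * x + b * y))]

lemma ctq_le {σ : ℝ} (hσ : |σ| ≤ 1) (c : Fin 6 → ℝ) (u : Fin 4 → ℝ) :
    √(∑ i, ctq σ c u i ^ 2) ≤ 146 * √(∑ i, u i ^ 2) := by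
  set M := √(∑ i, u i ^ 2)
  have M0 : 0 ≤ M := Real.sqrt_nonneg _
  have b : ∀ i, |u i| ≤ M := fun i => Real.abs_le_sqrt
    (Finset.single_le_sum (f := fun i => u i ^ 2) (fun _ _ => sq_nonneg _) (Finset.mem_univ i))
  have q : ∀ x : ℝ, |x| ≤ D c → |x * (D c)⁻¹| ≤ 1 := fun x hx => by
    rwa [abs_mul, abs_inv, abs_of_pos (D_pos c), mul_inv_le_iff₀ (D_pos c), one_mul]
  have q1 := q (c 0 ^ 4) (by rw [abs_of_nonneg (by positivity), D]; nlinarith [sq_nonneg (c 4)])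
  have q2 := q (c 4 ^ 2) (by
    rw [abs_of_nonneg (by positivity), D]; nlinarith [show 0 ≤ c 0 ^ 4 by positivity])
  have q3 := q (c 0 ^ 3) (by
    rw [abs_le, D]
    constructor <;> nlinarith [sq_nonneg (c 4), sq_nonneg (c 0 ^ 2 - 1), sq_nonneg (c 0 ^ 2 + c 0),
      sq_nonneg (c 0 ^ 2 - c 0)])
  have q4 := q (c 0 * c 4) (by
    rw [abs_le, D]
    constructor <;> nlinarith [sq_nonneg (c 4), sq_nonneg (c 0 ^ 2 - 1), sq_nonneg (c 0 + c 4),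
      sq_nonneg (c 0 - c 4)])
  have m : ∀ {a b x y : ℝ}, 0 ≤ a → a ≤ 20 → 0 ≤ b → b ≤ 16 → |x| ≤ 1 → |y| ≤ 1 →
      |(a - b * x) * y| ≤ 36 := fun {a b x y} h1 h2 h3 h4 hx hy => by
    have : |a - b * x| ≤ 36 := by
      rw [abs_le] at *; constructor <;> nlinarith
    rw [abs_mul]; nlinarith [abs_nonneg (a - b * x), abs_nonneg y]
  have k : ∀ i, |ctq σ c u i| ≤ 73 * M := fun i => by
    fin_cases i
    · exact (b 0).trans (by linarith)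
    · exact (b 1).trans (by linarith)
    · refine bd (m ?_ ?_ ?_ ?_ q1 q3) (m ?_ ?_ ?_ ?_ q1 q4) hσ (b 0) (b 1) (b 2) <;> norm_num
    · refine bd (m ?_ ?_ ?_ ?_ q1 q4) (m ?_ ?_ ?_ ?_ q2 q3) hσ (b 0) (b 1) (b 3) <;> norm_num
  refine Real.sqrt_le_iff.2 ⟨by positivity, ?_⟩
  have k2 := fun i => sq_le_sq' (abs_le.1 (k i)).1 (abs_le.1 (k i)).2
  rw [Fin.sum_univ_four]
  linarith [k2 0, k2 1, k2 2, k2 3]

lemma ccE_le {σ : ℝ} (hσ : |σ| ≤ 1) (a b : N) : ccE (G σ a) (G σ b) ≤ 146 * ccE a b := by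
  unfold ccE
  simp only [ENNReal.mul_iInf_of_ne (by simp : (146 : ENNReal) ≠ 0) (by simp)]
  refine le_iInf fun γ => le_iInf fun u => le_iInf fun h => ?_
  refine iInf_le_of_le (fun s => G σ (γ s)) (iInf_le_of_le (fun s => ctq σ (γ s).c (u s))
    (iInf_le_of_le ⟨⟨ac (g_cd σ) h.1.1, h.1.2.mono fun s hs h1 => derq σ (hs h1)⟩,
      congrArg (G σ) h.2.1, congrArg (G σ) h.2.2⟩ ?_))
  rw [← lintegral_const_mul' _ _ (by simp)]
  refine lintegral_mono fun s => ?_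
  rw [← ENNReal.ofReal_ofNat, ← ENNReal.ofReal_mul (by norm_num)]
  exact ENNReal.ofReal_le_ofReal (ctq_le hσ _ _)

lemma le_ccE (a b : N) : ENNReal.ofReal |b.c 2 - a.c 2| ≤ ccE a b := by
  refine le_iInf fun γ => le_iInf fun u => le_iInf ?_
  rintro ⟨⟨h1, h2⟩, rfl, rfl⟩
  have h3 : AbsolutelyContinuousOnInterval (fun s => (γ s).c 2) 0 1 :=
    squeeze_zero' (Eventually.of_forall fun t => by positivity) (Eventually.of_forall fun t =>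
      Finset.sum_le_sum fun i _ => dist_le_pi_dist _ _ 2) h1
  rw [← h3.integral_deriv_eq_sub, ← Real.norm_eq_abs, ofReal_norm,
    intervalIntegral.integral_of_le zero_le_one, ← integral_Icc_eq_integral_Ioc]
  refine (enorm_integral_le_lintegral_enorm _).trans (lintegral_mono_ae ?_)
  filter_upwards [ae_restrict_of_ae h2, ae_restrict_mem measurableSet_Icc] with s hs hm
  rw [(hasDerivAt_pi.1 (hs hm) 2).deriv, ← ofReal_norm]
  exact ENNReal.ofReal_le_ofReal (Real.abs_le_sqrt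
    (Finset.single_le_sum (f := fun i => u s i ^ 2) (fun _ _ => sq_nonneg _) (Finset.mem_univ 2)))

noncomputable def W (a d e s : ℝ) : ℝ := a + d * s + e * (s - 3 * s ^ 2 + 2 * s ^ 3)

noncomputable def I (a d e y s : ℝ) : ℝ := a * (y * s - s ^ 2) + d * (y * s ^ 2 / 2 - 2 * s ^ 3 / 3) +
  e * (y * (s ^ 2 / 2 - s ^ 3 + s ^ 4 / 2) - 2 * (s ^ 3 / 3 - 3 * s ^ 4 / 4 + 2 * s ^ 5 / 5))

lemma ccE_fin (a b : N) : ccE a b ≠ ⊤ := by
  obtain ⟨d, hd⟩ : ∃ d : Fin 6 → ℝ, d = b.c - a.c := ⟨_, rfl⟩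
  obtain ⟨α, hα⟩ : ∃ α, α = 30 * (d 4 - I (a.c 0) (d 0) 0 (d 1 + 1) 1) := ⟨_, rfl⟩
  let J : ℝ → ℝ := fun s => a.c 2 * (W 0 (d 0) α s) +
    d 2 * (d 0 * s ^ 2 / 2 + α * (s ^ 2 / 2 - 2 * s ^ 3 + 3 * s ^ 4 / 2))
  obtain ⟨β, hβ⟩ : ∃ β, β = 30 * (d 5 - J 1 - I (a.c 3) (d 3) 0 (d 1 + 1) 1) := ⟨_, rfl⟩
  let γ : ℝ → N := fun s => ⟨![W (a.c 0) (d 0) α s, a.c 1 + (d 1 + 1) * s - s ^ 2, a.c 2 + d 2 * s,
    W (a.c 3) (d 3) β s, a.c 4 + I (a.c 0) (d 0) α (d 1 + 1) s,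
    a.c 5 + J s + I (a.c 3) (d 3) β (d 1 + 1) s]⟩
  let u : ℝ → Fin 4 → ℝ := fun s => ![d 0 + α * (1 - 6 * s + 6 * s ^ 2), d 1 + 1 - 2 * s, d 2,
    d 3 + β * (1 - 6 * s + 6 * s ^ 2)]
  have cd : ContDiff ℝ 1 fun s => (γ s).c := contDiff_pi.2 fun i => by
    fin_cases i <;> simp [γ, J, W, I] <;> fun_prop
  have cu : Continuous fun s => √(∑ i, u s i ^ 2) := by
    simp only [u, Fin.sum_univ_four, Matrix.cons_val]; fun_prop
  refine ne_top_of_le_ne_top ?_ (iInf_le_of_le γ (iInf_le_of_le u (iInf_le _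
    ⟨⟨cd.contDiffOn.absolutelyContinuousOnInterval, .of_forall fun s _ => ?_⟩, ?_, ?_⟩)))
  · exact (cu.integrableOn_Icc.lintegral_lt_top).ne
  · refine hasDerivAt_pi.2 fun i => ?_
    have dv : ∀ {f : ℝ → ℝ} {v : ℝ}, Differentiable ℝ f → deriv f s = v → HasDerivAt f v s :=
      fun hf e => e ▸ (hf s).hasDerivAt
    fin_cases i <;> refine dv (by simp [γ, J, W, I]; try fun_prop) ?_ <;>
      simp (disch := fun_prop) [γ, J, W, I, u, frame, -mul_eq_mul_left_iff, -add_right_inj] <;>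
      ring
  · ext i; fin_cases i <;> simp [γ, J, W, I]
  · ext i; fin_cases i <;> simp [γ, J, W, I, hα, hβ, hd, -mul_eq_zero, -add_eq_left] <;> ring

end Pool.Agent.H58.Carnot
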