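import Mathlib

set_option autoImplicit false

namespace Pool.Agent.H58.Jacobi
open Filter Topology Finset ComplexConjugate

noncomputable def cop (a b : ℕ → ℝ) (x : ℕ → ℂ) (k : ℕ) : ℂ :=
  (if k = 0 then (0 : ℂ) else (a (k - 1) : ℂ) * x (k - 1)) + (b k : ℂ) * x k + (a k : ℂ) * x (k + 1)

variable (a b : ℕ → ℝ)

lemma green (x y : ℕ → ℂ) (M : ℕ) :
    ∑ n ∈ range (M + 1), cop a b y n * conj (x n) - ∑ n ∈ range (M + 1), y n * conj (cop a b x n) =
      a M * (y (M + 1) * conj (x M) - y M * conj (x (M + 1))) := by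
  induction M with
  | zero => simp [cop]; ring
  | succ M ih =>
    rw [sum_range_succ _ (M + 1), sum_range_succ _ (M + 1)]
    simp only [cop, Nat.add_eq_zero_iff, one_ne_zero, and_false, if_false, Nat.add_sub_cancel,
      map_add, map_mul, Complex.conj_ofReal] at ih ⊢
    linear_combination ih

lemma quad (u v c s t : ℝ) (hu : 0 < u) (h : c ^ 2 ≤ u * v) : 0 ≤ u * s ^ 2 + 2 * c * s * t + v * t ^ 2 := by
  have : 0 ≤ u * (u * s ^ 2 + 2 * c * s * t + v * t ^ 2) := by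
    nlinarith [sq_nonneg (u * s + c * t), mul_nonneg (sub_nonneg.2 h) (sq_nonneg t)]
  exact (mul_nonneg_iff_of_pos_left hu).1 this

lemma lower (x : ℕ → ℂ) (u v : ℕ → ℝ) (W : ℝ) (hu : ∀ n, 0 < u n)
    (huv : ∀ n, a n ^ 2 ≤ u n * v n) (h0 : x 0 ≠ 0 → W + u 0 ≤ b 0)
    (h1 : ∀ n, x (n + 1) ≠ 0 → W + u (n + 1) + v n ≤ b (n + 1)) (M : ℕ) :
    W * ∑ n ∈ range (M + 1), ‖x n‖ ^ 2 + u M * ‖x M‖ ^ 2 + a M * (x (M + 1) * conj (x M)).re ≤
      (∑ n ∈ range (M + 1), cop a b x n * conj (x n)).re := by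
  have nsq : ∀ z : ℂ, ‖z‖ ^ 2 = z.re ^ 2 + z.im ^ 2 := fun z => by
    rw [Complex.sq_norm, Complex.normSq_apply]; ring
  induction M with
  | zero =>
    by_cases hx : x 0 = 0
    · simp [hx]
    · have := mul_le_mul_of_nonneg_right (h0 hx) (sq_nonneg ‖x 0‖)
      simp only [zero_add, range_one, sum_singleton, cop, if_true, nsq] at this ⊢
      simp only [Complex.add_re, Complex.mul_re, Complex.mul_im, Complex.add_im, Complex.ofReal_re,
        Complex.ofReal_im, Complex.conj_re, Complex.conj_im]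
      nlinarith
  | succ M ih =>
    rw [sum_range_succ _ (M + 1), sum_range_succ _ (M + 1), Complex.add_re]
    have k1 := quad (u M) (v M) (a M) (x M).re (x (M + 1)).re (hu M) (huv M)
    have k2 := quad (u M) (v M) (a M) (x M).im (x (M + 1)).im (hu M) (huv M)
    have k3 : (W + u (M + 1) + v M) * ‖x (M + 1)‖ ^ 2 ≤ b (M + 1) * ‖x (M + 1)‖ ^ 2 := by
      by_cases hx : x (M + 1) = 0
      · simp [hx]
      · exact mul_le_mul_of_nonneg_right (h1 M hx) (sq_nonneg _)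
    have e : (cop a b x (M + 1) * conj (x (M + 1))).re = a M * (x (M + 1) * conj (x M)).re +
        b (M + 1) * ‖x (M + 1)‖ ^ 2 + a (M + 1) * (x (M + 1 + 1) * conj (x (M + 1))).re := by
      simp only [cop, Nat.add_eq_zero_iff, one_ne_zero, and_false, if_false, Nat.add_sub_cancel, nsq,
        Complex.add_re, Complex.mul_re, Complex.mul_im, Complex.add_im, Complex.ofReal_re,
        Complex.ofReal_im, Complex.conj_re, Complex.conj_im]
      ring
    rw [e]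
    have e2 : (x (M + 1) * conj (x M)).re =
        (x M).re * (x (M + 1)).re + (x M).im * (x (M + 1)).im := by
      simp only [Complex.mul_re, Complex.conj_re, Complex.conj_im]; ring
    rw [e2] at ih ⊢
    rw [nsq (x M)] at ih
    rw [nsq (x (M + 1))] at k3 ⊢
    nlinarith

lemma deficiency (ha : ∀ n, 0 < a n) (hc : ¬ Summable (fun n => 1 / a n)) (u : ℕ → ℂ)
    (hu : Summable (fun k => ‖u k‖ ^ 2)) (h : ∀ k, cop a b u k = Complex.I * u k) : u = 0 := by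
  by_contra hne
  obtain ⟨n0, hn0⟩ := Function.ne_iff.1 hne
  have hc0 : 0 < ‖u n0‖ ^ 2 := by have : u n0 ≠ 0 := hn0; positivity
  have key : ∀ M, n0 ≤ M → ‖u n0‖ ^ 2 ≤ a M * (‖u M‖ ^ 2 + ‖u (M + 1)‖ ^ 2) := by
    intro M hM
    have g := green a b u u M
    simp only [h, map_mul, Complex.conj_I] at g
    have e : ∑ n ∈ range (M + 1), Complex.I * u n * conj (u n) -
        ∑ n ∈ range (M + 1), u n * (-Complex.I * conj (u n)) =
        2 * Complex.I * ((∑ n ∈ range (M + 1), ‖u n‖ ^ 2 : ℝ) : ℂ) := by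
      rw [← sum_sub_distrib]
      push_cast
      rw [mul_sum]
      refine sum_congr rfl fun n _ => ?_
      rw [← Complex.mul_conj']
      ring
    rw [e] at g
    have g2 := congrArg norm g
    have s0 : 0 ≤ ∑ n ∈ range (M + 1), ‖u n‖ ^ 2 := sum_nonneg fun n _ => sq_nonneg _
    rw [norm_mul, norm_mul, norm_mul, Complex.norm_I, Complex.norm_real, Complex.norm_real,
      Real.norm_of_nonneg s0, Real.norm_of_nonneg (ha M).le, Complex.norm_ofNat] at g2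
    have s1 : ‖u n0‖ ^ 2 ≤ ∑ n ∈ range (M + 1), ‖u n‖ ^ 2 :=
      single_le_sum (f := fun n => ‖u n‖ ^ 2) (fun n _ => sq_nonneg _) (mem_range.2 (by omega))
    have s2 := norm_sub_le (u (M + 1) * conj (u M)) (u M * conj (u (M + 1)))
    rw [norm_mul, norm_mul, Complex.norm_conj, Complex.norm_conj] at s2
    have s3 : ‖u (M + 1) * conj (u M) - u M * conj (u (M + 1))‖ ≤ ‖u M‖ ^ 2 + ‖u (M + 1)‖ ^ 2 := by
      nlinarith [sq_nonneg (‖u M‖ - ‖u (M + 1)‖)]
    have s4 := mul_le_mul_of_nonneg_left s3 (ha M).le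
    nlinarith
  apply hc
  rw [← summable_nat_add_iff n0]
  have hs := ((summable_nat_add_iff n0).2 (hu.add ((summable_nat_add_iff 1).2 hu))).div_const
    (‖u n0‖ ^ 2)
  refine Summable.of_nonneg_of_le (fun n => (one_div_pos.2 (ha _)).le) (fun n => ?_) hs
  rw [div_le_div_iff₀ (ha _) hc0]
  have := key (n + n0) (by omega)
  linarith

abbrev HH : Type := lp (fun _ : ℕ => ℂ) 2

lemma mem_of_ev (x : ℕ → ℂ) (M : ℕ) (h : ∀ n, M ≤ n → x n = 0) : Memℓp x 2 :=
  memℓp_gen (summable_of_ne_finset_zero (s := range M) fun n hn => by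
    rw [h n (by simpa using hn)]; simp)

lemma ev (x : ℕ →₀ ℂ) : ∃ M, ∀ n, M ≤ n → x n = 0 := by
  obtain ⟨M, hM⟩ := x.support.exists_nat_subset_range
  exact ⟨M, fun n hn => by
    by_contra h
    have := mem_range.1 (hM (Finsupp.mem_support_iff.2 h))
    omega⟩

lemma ev_cop (x : ℕ → ℂ) (M : ℕ) (h : ∀ n, M ≤ n → x n = 0) (n : ℕ) (hn : M + 1 ≤ n) :
    cop a b x n = 0 := by
  simp [cop, h n (by omega), h (n + 1) (by omega), h (n - 1) (by omega)]

noncomputable def J : (ℕ →₀ ℂ) →ₗ[ℂ] HH where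
  toFun x := ⟨fun n => x n, (ev x).elim fun M h => mem_of_ev x M h⟩
  map_add' _ _ := rfl
  map_smul' _ _ := rfl

noncomputable def CJ : (ℕ →₀ ℂ) →ₗ[ℂ] HH where
  toFun x := ⟨cop a b x, (ev x).elim fun M h => mem_of_ev _ (M + 1) (ev_cop a b x M h)⟩
  map_add' x y := by
    ext n
    change cop a b (x + y) n = cop a b x n + cop a b y n
    simp only [cop, Finsupp.coe_add, Pi.add_apply]
    split_ifs <;> ring
  map_smul' c x := by
    ext n
    change cop a b (c • x) n = c * cop a b x n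
    simp only [cop, Finsupp.coe_smul, Pi.smul_apply, smul_eq_mul]
    split_ifs <;> ring

lemma norm_sq (f : HH) : ‖f‖ ^ 2 = ∑' k, ‖f k‖ ^ 2 := by
  have := lp.norm_rpow_eq_tsum (p := 2) (by simp) f
  have e2 : (2 : ENNReal).toReal = ((2 : ℕ) : ℝ) := by simp
  simpa only [e2, Real.rpow_natCast] using this

lemma inner_fin (f g : HH) (M : ℕ) (h : ∀ n, M ≤ n → f n = 0 ∨ g n = 0) :
    inner ℂ f g = ∑ n ∈ range M, g n * conj (f n) := by
  rw [lp.inner_eq_tsum, tsum_eq_sum (s := range M)]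
  · rfl
  · intro n hn
    rcases h n (by simpa using hn) with h | h <;> simp [h]

lemma symm (x y : ℕ →₀ ℂ) : inner ℂ (J x) (CJ a b y) = inner ℂ (CJ a b x) (J y) := by
  obtain ⟨M, hM⟩ := ev x
  obtain ⟨M', hM'⟩ := ev y
  rw [inner_fin _ _ (M + M' + 1) (fun n hn => Or.inl (hM n (by omega))),
    inner_fin _ _ (M + M' + 1) (fun n hn => Or.inr (hM' n (by omega))), ← sub_eq_zero]
  have := green a b x y (M + M')
  rw [hM' _ (by omega), hM' _ (by omega)] at this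
  simp only [zero_mul, sub_self, mul_zero] at this
  exact this

lemma form_lower (x : ℕ →₀ ℂ) (u v : ℕ → ℝ) (W : ℝ) (hu : ∀ n, 0 < u n)
    (huv : ∀ n, a n ^ 2 ≤ u n * v n) (h0 : x 0 ≠ 0 → W + u 0 ≤ b 0)
    (h1 : ∀ n, x (n + 1) ≠ 0 → W + u (n + 1) + v n ≤ b (n + 1)) :
    W * ‖J x‖ ^ 2 ≤ (inner ℂ (J x) (CJ a b x)).re := by
  obtain ⟨M, hM⟩ := ev x
  have := lower a b x u v W hu huv h0 h1 M
  rw [hM M le_rfl] at this
  simp only [norm_zero, ne_eq, OfNat.ofNat_ne_zero, not_false_eq_true, zero_pow, mul_zero, add_zero,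
    map_zero, Complex.zero_re] at this
  rw [inner_fin _ _ (M + 1) (fun n hn => Or.inl (hM n (by omega))), norm_sq,
    tsum_eq_sum (s := range (M + 1)) (fun n hn => by
      have : J x n = 0 := hM n (by simp at hn; omega)
      simp [this])]
  exact this

lemma J_ne (x : ℕ →₀ ℂ) (hx : x ≠ 0) : 0 < ‖J x‖ := by
  rw [norm_pos_iff]
  intro h
  apply hx
  ext n
  exact congrArg (fun f : HH => f n) h

/-- the set in the statement -/
def SS : Set ℝ := {t : ℝ | ∀ ε : ℝ, 0 < ε → ∀ n : ℕ, ∃ V : Submodule ℂ (ℕ →₀ ℂ),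
  Module.finrank ℂ V = n ∧ ∀ x ∈ V, ‖CJ a b x - (t : ℂ) • J x‖ ^ 2 ≤ ε ^ 2 * ‖J x‖ ^ 2}

lemma SS_eq : SS a b = {t : ℝ | ∀ ε : ℝ, 0 < ε → ∀ n : ℕ, ∃ V : Submodule ℂ (ℕ →₀ ℂ),
    Module.finrank ℂ V = n ∧ ∀ x ∈ V,
      ∑' k : ℕ, ‖(if k = 0 then (0 : ℂ) else (a (k - 1) : ℂ) * x (k - 1))
          + (b k : ℂ) * x k + (a k : ℂ) * x (k + 1) - (t : ℂ) * x k‖ ^ 2
        ≤ ε ^ 2 * ∑' k : ℕ, ‖x k‖ ^ 2} := by
  simp only [SS, norm_sq]
  rfl

lemma not_mem_of_lower (t ε : ℝ) (hε : 0 < ε) (M : ℕ)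
    (h : ∀ x : ℕ →₀ ℂ, x ≠ 0 → (∀ n < M, x n = 0) → ε * ‖J x‖ < ‖CJ a b x - (t : ℂ) • J x‖) :
    t ∉ SS a b := by
  intro ht
  obtain ⟨V, hV, hV'⟩ := ht ε hε (M + 1)
  have : FiniteDimensional ℂ V := FiniteDimensional.of_finrank_pos (by omega)
  let f : V →ₗ[ℂ] (Fin M → ℂ) := LinearMap.pi fun i => (Finsupp.lapply (i : ℕ)).comp V.subtype
  have hk : LinearMap.ker f ≠ ⊥ :=
    LinearMap.ker_ne_bot_of_finrank_lt (K := ℂ) (V := V) (V₂ := Fin M → ℂ) (by rw [hV]; simp)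
  obtain ⟨x, hx1, hx2⟩ := (Submodule.ne_bot_iff _).1 hk
  have h1 := h x.1 (fun h0 => hx2 (Subtype.ext h0)) (fun n hn => congrFun hx1 ⟨n, hn⟩)
  have h2 := hV' x.1 x.2
  have h3 : 0 ≤ ε * ‖J x.1‖ := by positivity
  nlinarith

end Pool.Agent.H58.Jacobi
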