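import Mathlib
import Pool.Agent.H58.Jacobi

set_option autoImplicit false

namespace Pool.Agent.H58.Chihara
open Filter Topology Finset ComplexConjugate Pool.Agent.H58.Jacobi

noncomputable def AA (k : ℕ) : ℝ := ((k : ℝ) + 1) ^ 4
noncomputable def rho (k : ℕ) : ℝ := 1 + 1 / ((k : ℝ) + 1)
def LL (k : ℕ) : ℕ := 12 * (k + 1) ^ 5 * 2 ^ k + 2
def NN : ℕ → ℕ
  | 0 => 0
  | k + 1 => NN k + 2 * LL k
def pk (k : ℕ) : ℕ := NN k + LL k
def blk (n : ℕ) : ℕ := Nat.findGreatest (fun k => NN k ≤ n) n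
noncomputable def aa (n : ℕ) : ℝ := AA (blk n)
noncomputable def rr (n : ℕ) : ℝ := if n < pk (blk n) then rho (blk n) else (rho (blk n))⁻¹
noncomputable def bb (n : ℕ) : ℝ := (if n = 0 then 0 else aa (n - 1) / rr (n - 1)) + aa n * rr n

lemma LL_ge (k : ℕ) : 3 ≤ LL k := by
  have : 0 < 12 * (k + 1) ^ 5 * 2 ^ k := by positivity
  unfold LL; omega

lemma NN_succ (k : ℕ) : NN (k + 1) = NN k + 2 * LL k := rfl

lemma NN_mono : StrictMono NN := strictMono_nat_of_lt_succ fun k => by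
  have := LL_ge k; rw [NN_succ]; omega

lemma blk_ge {k n : ℕ} (h : NN k ≤ n) : k ≤ blk n := Nat.le_findGreatest (NN_mono.le_apply.trans h) h

lemma blk_le (n : ℕ) : NN (blk n) ≤ n :=
  Nat.findGreatest_spec (P := fun k => NN k ≤ n) (Nat.zero_le n) (Nat.zero_le n)

lemma blk_lt (n : ℕ) : n < NN (blk n + 1) := by
  by_contra h
  have := blk_ge (not_lt.1 h)
  omega

lemma blk_eq {k n : ℕ} (h1 : NN k ≤ n) (h2 : n < NN (k + 1)) : blk n = k := by
  refine le_antisymm ?_ (blk_ge h1)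
  by_contra h
  have := NN_mono.monotone (show k + 1 ≤ blk n by omega)
  have := blk_le n
  omega

lemma blk_tendsto : Tendsto blk atTop atTop := tendsto_atTop.2 fun k => by
  filter_upwards [eventually_ge_atTop (NN k)] with n hn using blk_ge hn

lemma AA_pos (k : ℕ) : 0 < AA k := by unfold AA; positivity
lemma aa_pos (n : ℕ) : 0 < aa n := AA_pos _
lemma rho_gt (k : ℕ) : 1 < rho k := by
  have : (0 : ℝ) < 1 / ((k : ℝ) + 1) := by positivity
  unfold rho; linarith
lemma rho_le (k : ℕ) : rho k ≤ 2 := by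
  have : 1 / ((k : ℝ) + 1) ≤ 1 := by
    rw [div_le_one (by positivity)]; linarith [Nat.cast_nonneg (α := ℝ) k]
  unfold rho; linarith

lemma rr_bd (n : ℕ) : (rho (blk n))⁻¹ ≤ rr n ∧ rr n ≤ rho (blk n) := by
  have h1 := rho_gt (blk n)
  have h2 : (rho (blk n))⁻¹ ≤ 1 := inv_le_one_of_one_le₀ h1.le
  unfold rr
  split_ifs <;> constructor <;> linarith

lemma rr_half (n : ℕ) : 1 / 2 ≤ rr n := by
  refine le_trans ?_ (rr_bd n).1
  rw [one_div]
  exact inv_anti₀ (by linarith [rho_gt (blk n)]) (rho_le _)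

lemma rr_pos (n : ℕ) : 0 < rr n := by linarith [rr_half n]

lemma bb_succ (n : ℕ) : bb (n + 1) = aa n / rr n + aa (n + 1) * rr (n + 1) := by simp [bb]

lemma bb_tendsto : Tendsto bb atTop atTop := by
  have h1 : Tendsto (fun n => (blk n : ℝ) / 2) atTop atTop :=
    (tendsto_natCast_atTop_atTop.comp blk_tendsto).atTop_div_const two_pos
  refine tendsto_atTop_mono (fun n => ?_) h1
  have a1 : 0 ≤ (if n = 0 then 0 else aa (n - 1) / rr (n - 1)) := by
    split_ifs
    · exact le_rfl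
    · exact (div_pos (aa_pos _) (rr_pos _)).le
  have a2 : (blk n : ℝ) ≤ aa n := by
    have : (blk n : ℝ) + 1 ≤ ((blk n : ℝ) + 1) ^ 4 :=
      le_self_pow₀ (by linarith [Nat.cast_nonneg (α := ℝ) (blk n)]) (by norm_num)
    unfold aa AA; linarith
  have a3 := mul_le_mul_of_nonneg_left (rr_half n) (aa_pos n).le
  unfold bb
  linarith

lemma rho_tendsto : Tendsto (fun n => rho (blk n)) atTop (𝓝 1) := by
  have := (tendsto_one_div_add_atTop_nhds_zero_nat (𝕜 := ℝ)).const_add 1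
  rw [add_zero] at this
  exact this.comp blk_tendsto

lemma rr_tendsto : Tendsto rr atTop (𝓝 1) := by
  have h1 := rho_tendsto.inv₀ one_ne_zero
  rw [inv_one] at h1
  exact tendsto_of_tendsto_of_tendsto_of_le_of_le h1 rho_tendsto (fun n => (rr_bd n).1)
    (fun n => (rr_bd n).2)

lemma ratio_tendsto : Tendsto (fun n => aa (n + 1) / aa n) atTop (𝓝 1) := by
  have h1 := rho_tendsto.pow 4
  rw [one_pow] at h1
  refine tendsto_of_tendsto_of_tendsto_of_le_of_le tendsto_const_nhds h1 (fun n => ?_) (fun n => ?_)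
  · have : blk n ≤ blk (n + 1) := blk_ge ((blk_le n).trans (Nat.le_succ n))
    have h2 : (blk n : ℝ) ≤ blk (n + 1) := by exact_mod_cast this
    simp only
    rw [le_div_iff₀ (aa_pos n), one_mul]
    unfold aa AA
    gcongr
  · have : blk (n + 1) ≤ blk n + 1 := by
      by_contra h
      have a1 := NN_mono.monotone (show blk n + 1 + 1 ≤ blk (n + 1) by omega)
      have a2 := NN_mono (Nat.lt_succ_self (blk n + 1))
      have a3 := blk_le (n + 1)
      have a4 := blk_lt n
      simp only [Nat.succ_eq_add_one] at a2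
      omega
    have h2 : (blk (n + 1) : ℝ) ≤ blk n + 1 := by exact_mod_cast this
    simp only
    rw [div_le_iff₀ (aa_pos n)]
    unfold aa AA rho
    rw [← mul_pow]
    gcongr
    rw [add_mul, one_div_mul_cancel (by positivity)]
    linarith

lemma quot_tendsto : Tendsto (fun n => aa n ^ 2 / (bb n * bb (n + 1))) atTop (𝓝 (1 / 4)) := by
  have h1 : Tendsto (fun n => bb (n + 1) / aa (n + 1)) atTop (𝓝 2) := by
    have a1 := ((ratio_tendsto.mul rr_tendsto).inv₀ (by norm_num)).add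
      (rr_tendsto.comp (tendsto_add_atTop_nat 1))
    have e : ((1 : ℝ) * 1)⁻¹ + 1 = 2 := by norm_num
    rw [e] at a1
    refine a1.congr fun n => ?_
    have := aa_pos n; have := aa_pos (n + 1); have := rr_pos n
    simp only [bb_succ, Function.comp]
    field_simp
  have h2 : Tendsto (fun n => bb n / aa n) atTop (𝓝 2) := (tendsto_add_atTop_iff_nat 1).1 h1
  have h3 := ((h2.mul h1).mul ratio_tendsto).inv₀ (by norm_num)
  have e : ((2 : ℝ) * 2 * 1)⁻¹ = 1 / 4 := by norm_num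
  rw [e] at h3
  refine h3.congr fun n => ?_
  have := aa_pos n; have := aa_pos (n + 1)
  field_simp

lemma carleman : ¬ Summable (fun n => 1 / aa n) := by
  intro h
  have h1 := h.hasSum.tendsto_sum_nat.comp NN_mono.tendsto_atTop
  have h2 := (h1.comp (tendsto_add_atTop_nat 1)).sub h1
  rw [sub_self] at h2
  obtain ⟨k, hk⟩ := (h2.eventually (gt_mem_nhds one_pos)).exists
  simp only [Function.comp] at hk
  rw [← sum_Ico_eq_sub _ (NN_mono.monotone (Nat.le_succ k)),
    sum_congr rfl (g := fun _ => 1 / AA k) (fun n hn => by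
      rw [aa, blk_eq (mem_Ico.1 hn).1 (mem_Ico.1 hn).2]), sum_const, Nat.card_Ico, nsmul_eq_mul,
    mul_one_div, div_lt_one (AA_pos k)] at hk
  have e : NN k.succ - NN k = 2 * LL k := by simp [NN_succ]
  rw [e] at hk
  have a1 : (k + 1) ^ 4 ≤ 2 * LL k := by
    have b1 : (k + 1) ^ 4 ≤ (k + 1) ^ 5 := Nat.pow_le_pow_right (by omega) (by omega)
    have b2 : 12 * (k + 1) ^ 5 ≤ 12 * (k + 1) ^ 5 * 2 ^ k := Nat.le_mul_of_pos_right _ (by positivity)
    unfold LL; omega
  have a2 : AA k ≤ ((2 * LL k : ℕ) : ℝ) := by unfold AA; exact_mod_cast a1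
  linarith

noncomputable def gg (k n : ℕ) : ℝ := (-(rho k)⁻¹) ^ Nat.dist n (pk k)

lemma gg_succ {k n : ℕ} (h1 : NN k ≤ n) (h2 : n < NN (k + 1)) : gg k (n + 1) = -rr n * gg k n := by
  have := rho_gt k
  unfold gg rr
  rw [blk_eq h1 h2]
  split_ifs with h
  · have e : Nat.dist n (pk k) = Nat.dist (n + 1) (pk k) + 1 := by unfold Nat.dist; omega
    rw [e, pow_succ]
    field_simp
  · have e : Nat.dist (n + 1) (pk k) = Nat.dist n (pk k) + 1 := by unfold Nat.dist; omega
    rw [e, pow_succ]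
    ring

noncomputable def Ph (k : ℕ) : ℕ →₀ ℂ :=
  Finsupp.onFinset (Ioo (NN k) (NN (k + 1)))
    (fun n => if n ∈ Ioo (NN k) (NN (k + 1)) then (gg k n : ℂ) else 0)
    (fun n h => by by_contra h'; exact h (if_neg h'))

lemma Ph_in {k n : ℕ} (h1 : NN k < n) (h2 : n < NN (k + 1)) : Ph k n = gg k n := by
  simp [Ph, h1, h2]

lemma Ph_out {k n : ℕ} (h : n ≤ NN k ∨ NN (k + 1) ≤ n) : Ph k n = 0 := by
  simp only [Ph, Finsupp.onFinset_apply, mem_Ioo]
  rw [if_neg (by omega)]

lemma Ph_pk (j k : ℕ) : Ph j (pk k) = if j = k then 1 else 0 := by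
  have := LL_ge k
  have e := NN_succ k
  split_ifs with h
  · subst h
    rw [Ph_in (by unfold pk; omega) (by unfold pk; omega)]
    simp [gg]
  · apply Ph_out
    rcases lt_or_gt_of_ne h with h | h
    · have := NN_mono.monotone (show j + 1 ≤ k from h)
      unfold pk; omega
    · have := NN_mono.monotone (show k + 1 ≤ j from h)
      unfold pk; omega

noncomputable def tau (k : ℕ) : ℝ := (rho k)⁻¹ ^ (LL k - 2)

lemma tau_le (k : ℕ) : 12 * (AA k * tau k) ≤ (1 / 2) ^ k := by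
  have h1 := one_add_mul_le_pow (show (-2 : ℝ) ≤ 1 / ((k : ℝ) + 1) by
    have : (0 : ℝ) ≤ 1 / ((k : ℝ) + 1) := by positivity
    linarith) (LL k - 2)
  have e : LL k - 2 = 12 * (k + 1) ^ 5 * 2 ^ k := by simp [LL]
  have h2 : 12 * AA k * 2 ^ k ≤ rho k ^ (LL k - 2) := by
    refine le_trans ?_ h1
    rw [e]
    push_cast
    have : 12 * ((k : ℝ) + 1) ^ 5 * 2 ^ k * (1 / ((k : ℝ) + 1)) = 12 * AA k * 2 ^ k := by
      unfold AA; field_simp
    linarith
  have h3 : 0 < rho k ^ (LL k - 2) := pow_pos (by linarith [rho_gt k]) _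
  rw [tau, inv_pow, one_div, inv_pow, ← mul_assoc, ← div_eq_mul_inv, div_le_iff₀ h3,
    inv_mul_eq_div, le_div_iff₀ (by positivity)]
  exact h2

lemma term_le (k m : ℕ) (c C : ℝ) (hC : 0 ≤ C) (hd : LL k - 2 ≤ Nat.dist m (pk k))
    (hc : NN k < m → m < NN (k + 1) → |c| ≤ C) : ‖(c : ℂ) * Ph k m‖ ≤ C * tau k := by
  have h0 : 0 < (rho k)⁻¹ := inv_pos.2 (by linarith [rho_gt k])
  by_cases h : NN k < m ∧ m < NN (k + 1)
  · rw [Ph_in h.1 h.2, norm_mul, Complex.norm_real, Complex.norm_real, Real.norm_eq_abs,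
      Real.norm_eq_abs, gg, abs_pow, abs_neg, abs_of_pos h0]
    exact mul_le_mul (hc h.1 h.2) (pow_le_pow_of_le_one h0.le
      (inv_le_one_of_one_le₀ (rho_gt k).le) hd) (by positivity) hC
  · rw [Ph_out (by omega)]
    simp only [mul_zero, norm_zero, tau]
    positivity

lemma CPh_le (k : ℕ) : ‖CJ aa bb (Ph k)‖ ≤ (1 / 2) ^ k := by
  have hL := LL_ge k
  have hN := NN_succ k
  have hA := AA_pos k
  have ht : 0 ≤ tau k := by
    have h0 : 0 < (rho k)⁻¹ := inv_pos.2 (by linarith [rho_gt k])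
    unfold tau; positivity
  set T : Finset ℕ := {NN k, NN k + 1, NN (k + 1) - 1, NN (k + 1)} with hT
  have h1 : ∀ n ∉ T, cop aa bb (Ph k) n = 0 := by
    intro n hn
    simp only [hT, mem_insert, mem_singleton, not_or] at hn
    by_cases h : NN k < n ∧ n < NN (k + 1)
    · obtain ⟨m, rfl⟩ : ∃ m, n = m + 1 := ⟨n - 1, by omega⟩
      simp only [cop, Nat.add_eq_zero_iff, one_ne_zero, and_false, if_false, Nat.add_sub_cancel]
      rw [Ph_in (by omega) (by omega), Ph_in (by omega) (by omega), Ph_in (by omega) (by omega),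
        gg_succ (n := m + 1) (by omega) (by omega), gg_succ (n := m) (by omega) (by omega), bb_succ]
      have := (rr_pos m).ne'
      norm_cast
      field_simp
      ring
    · unfold cop
      rw [Ph_out (n := n) (by omega), Ph_out (n := n + 1) (by omega)]
      split_ifs
      · simp
      · rw [Ph_out (n := n - 1) (by omega)]; simp
  have h2 : ∀ n ∈ T, ‖cop aa bb (Ph k) n‖ ≤ 6 * (AA k * tau k) := by
    intro n hn
    simp only [hT, mem_insert, mem_singleton] at hn
    have a1 : ‖(if n = 0 then (0 : ℂ) else (aa (n - 1) : ℂ) * Ph k (n - 1))‖ ≤ AA k * tau k := by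
      split_ifs
      · simp only [norm_zero]; positivity
      · refine term_le k _ _ _ hA.le (by unfold Nat.dist pk; omega) fun c1 c2 => ?_
        rw [abs_of_pos (aa_pos _), aa, blk_eq c1.le c2]
    have a2 : ‖(bb n : ℂ) * Ph k n‖ ≤ 4 * AA k * tau k := by
      refine term_le k _ _ _ (by positivity) (by unfold Nat.dist pk; omega) fun c1 c2 => ?_
      obtain ⟨m, rfl⟩ : ∃ m, n = m + 1 := ⟨n - 1, by omega⟩
      have d1 := rr_half m
      have d2 := (rr_bd (m + 1)).2.trans (rho_le _)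
      have d3 := rr_pos (m + 1)
      rw [bb_succ, aa, aa, blk_eq (n := m) (k := k) (by omega) (by omega), blk_eq c1.le c2,
        abs_of_nonneg (by positivity)]
      have d4 : AA k / rr m ≤ 2 * AA k := by
        rw [div_le_iff₀ (by linarith)]; nlinarith
      nlinarith
    have a3 : ‖(aa n : ℂ) * Ph k (n + 1)‖ ≤ AA k * tau k := by
      refine term_le k _ _ _ hA.le (by unfold Nat.dist pk; omega) fun c1 c2 => ?_
      rw [abs_of_pos (aa_pos _), aa, blk_eq (k := k) (by omega) (by omega)]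
    unfold cop
    linarith [norm_add₃_le (a := (if n = 0 then (0 : ℂ) else (aa (n - 1) : ℂ) * Ph k (n - 1)))
      (b := (bb n : ℂ) * Ph k n) (c := (aa n : ℂ) * Ph k (n + 1))]
  refine le_trans ?_ (tau_le k)
  refine le_of_sq_le_sq ?_ (by positivity) |>.trans le_rfl
  rw [norm_sq, tsum_eq_sum (s := T) (fun n hn => by
    have : CJ aa bb (Ph k) n = 0 := h1 n hn
    simp [this])]
  have h3 : ∑ n ∈ T, ‖CJ aa bb (Ph k) n‖ ^ 2 ≤ T.card • (6 * (AA k * tau k)) ^ 2 :=
    sum_le_card_nsmul _ _ _ fun n hn => pow_le_pow_left₀ (norm_nonneg _) (h2 n hn) 2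
  have h4 : (T.card : ℝ) ≤ 4 := by exact_mod_cast card_le_four
  rw [nsmul_eq_mul] at h3
  nlinarith [sq_nonneg (AA k * tau k)]

lemma eval_pk {ι : Type} (s : Finset ι) (κ : ι → ℕ) (hκ : Function.Injective κ) (c : ι → ℂ) (i : ι)
    (hi : i ∈ s) : (∑ j ∈ s, c j • Ph (κ j)) (pk (κ i)) = c i := by
  rw [Finsupp.finsetSum_apply, sum_eq_single_of_mem i hi]
  · simp [Ph_pk]
  · intro j _ hj
    simp [Ph_pk, hκ.ne hj]

lemma small {ι : Type} (s : Finset ι) (κ : ι → ℕ) (hκ : Function.Injective κ) (c : ι → ℂ) :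
    ‖CJ aa bb (∑ j ∈ s, c j • Ph (κ j))‖ ≤
      (∑ j ∈ s, (1 / 2 : ℝ) ^ κ j) * ‖J (∑ j ∈ s, c j • Ph (κ j))‖ := by
  conv_lhs => rw [map_sum]
  refine (norm_sum_le _ _).trans ?_
  rw [sum_mul]
  refine sum_le_sum fun i hi => ?_
  rw [map_smul, norm_smul, mul_comm]
  have h1 := lp.norm_apply_le_norm (p := 2) (by norm_num) (J (∑ j ∈ s, c j • Ph (κ j))) (pk (κ i))
  have h2 : J (∑ j ∈ s, c j • Ph (κ j)) (pk (κ i)) = c i := eval_pk s κ hκ c i hi
  rw [h2] at h1
  exact mul_le_mul (CPh_le _) h1 (norm_nonneg _) (by positivity)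

lemma zero_mem : (0 : ℝ) ∈ SS aa bb := by
  intro ε hε n
  obtain ⟨K, hK⟩ := exists_pow_lt_of_lt_one (half_pos hε) (show (1 / 2 : ℝ) < 1 by norm_num)
  have hκ : Function.Injective (fun i : Fin n => K + i) := fun i j h => Fin.ext (by simpa using h)
  refine ⟨LinearMap.range (Fintype.linearCombination ℂ (fun i : Fin n => Ph (K + i))), ?_, ?_⟩
  · rw [LinearMap.finrank_range_of_inj]
    · simp
    · intro c d h
      ext i
      rw [← eval_pk univ _ hκ c i (mem_univ i), ← eval_pk univ _ hκ d i (mem_univ i)]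
      rw [Fintype.linearCombination_apply, Fintype.linearCombination_apply] at h
      rw [h]
  · rintro x ⟨c, rfl⟩
    rw [Fintype.linearCombination_apply, Complex.ofReal_zero, zero_smul, sub_zero, ← mul_pow]
    refine pow_le_pow_left₀ (norm_nonneg _) ((small univ _ hκ c).trans ?_) 2
    refine mul_le_mul_of_nonneg_right ?_ (norm_nonneg _)
    simp only [pow_add]
    rw [← mul_sum, Fin.sum_univ_eq_sum_range (fun i => (1 / 2 : ℝ) ^ i) n]
    have := sum_geometric_two_le n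
    have h0 : (0 : ℝ) < (1 / 2) ^ K := by positivity
    nlinarith

lemma neg_not_mem (t : ℝ) (ht : t < 0) : t ∉ SS aa bb := by
  refine not_mem_of_lower aa bb t (-t / 2) (by linarith) 0 fun x hx _ => ?_
  have h1 := form_lower aa bb x (fun n => aa n * rr n) (fun n => aa n / rr n) 0
    (fun n => mul_pos (aa_pos n) (rr_pos n)) (fun n => le_of_eq (by
      have := (rr_pos n).ne'
      field_simp)) (fun _ => by simp [bb]) (fun n _ => by rw [bb_succ]; linarith)
  have h2 := J_ne x hx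
  have h3 : (inner ℂ (J x) (CJ aa bb x - (t : ℂ) • J x)).re =
      (inner ℂ (J x) (CJ aa bb x)).re - t * ‖J x‖ ^ 2 := by
    have c4 : ∀ U : HH, (inner ℂ U U).re = ‖U‖ ^ 2 := fun U => by
      rw [inner_self_eq_norm_sq_to_K]; norm_cast
    rw [inner_sub_right, inner_smul_right, Complex.sub_re, Complex.re_ofReal_mul, c4]
  have h4 := (Complex.re_le_norm _).trans
    (norm_inner_le_norm (𝕜 := ℂ) (J x) (CJ aa bb x - (t : ℂ) • J x))
  rw [h3] at h4
  by_contra hc
  have h5 := mul_le_mul_of_nonneg_left (not_lt.1 hc) h2.le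
  nlinarith [mul_pos (neg_pos.2 ht) (pow_pos h2 2)]

lemma cube_aux (k : ℝ) (hk : 2 ≤ k) : 2 ≤ (k + 1) ^ 3 / (k + 2) := by
  have k0 : (0 : ℝ) ≤ k ^ 3 := by positivity
  rw [le_div_iff₀ (by positivity)]
  nlinarith

lemma pot (n : ℕ) (h1 : NN 2 ≤ n + 1) (h2 : n + 1 ≠ pk (blk (n + 1))) :
    2 + aa (n + 1) + aa n ≤ bb (n + 1) := by
  have hk := blk_ge h1
  have a1 := blk_le (n + 1)
  have a2 := blk_lt (n + 1)
  rw [bb_succ]
  obtain ⟨k, hkdef⟩ : ∃ k, k = blk (n + 1) := ⟨_, rfl⟩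
  rw [← hkdef] at hk a1 a2 h2
  have hk' : (2 : ℝ) ≤ k := by exact_mod_cast hk
  have hL := LL_ge k
  by_cases h : NN k ≤ n
  · have e : blk n = k := blk_eq h (by omega)
    have key : 2 + AA k + AA k ≤ AA k * rho k + AA k * (rho k)⁻¹ := by
      have e2 : AA k * rho k + AA k * (rho k)⁻¹ = AA k + AA k + ((k : ℝ) + 1) ^ 3 / (k + 2) := by
        unfold AA rho; field_simp; ring
      have := cube_aux k hk'
      linarith
    unfold aa rr
    rw [e, ← hkdef]
    by_cases h3 : n + 1 < pk k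
    · rw [if_pos h3, if_pos (by omega), div_eq_mul_inv]; linarith
    · rw [if_neg h3, if_neg (by omega), div_inv_eq_mul]; linarith
  · obtain ⟨j, hj⟩ : ∃ j, k = j + 1 := ⟨k - 1, by omega⟩
    have hLj := LL_ge j
    have e0 := NN_succ j
    rw [← hj] at e0
    have e : blk n = j := blk_eq (by omega) (by rw [← hj]; omega)
    unfold aa rr
    rw [e, ← hkdef, if_neg (by unfold pk; omega), if_pos (by unfold pk; omega), div_inv_eq_mul]
    have b1 := mul_le_mul_of_nonneg_left (rho_gt j).le (AA_pos j).le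
    have b2 : AA k * rho k = AA k + ((k : ℝ) + 1) ^ 3 := by unfold AA rho; field_simp
    have b3 : (k : ℝ) + 1 ≤ ((k : ℝ) + 1) ^ 3 := le_self_pow₀ (by linarith) (by norm_num)
    linarith

lemma one_not_mem : (1 : ℝ) ∉ SS aa bb := by
  refine not_mem_of_lower aa bb 1 (1 / 5) (by norm_num) (NN 2) fun x hx hx0 => ?_
  obtain ⟨M, hM⟩ := ev x
  set y := ∑ j ∈ Ico 2 M, x (pk j) • Ph j with hy
  set z := x - y with hz
  have hy1 : ‖CJ aa bb y‖ ≤ 1 / 2 * ‖J y‖ := by
    refine (small (Ico 2 M) id Function.injective_id fun j => x (pk j)).trans ?_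
    refine mul_le_mul_of_nonneg_right ?_ (norm_nonneg _)
    exact (geom_sum_Ico_le_of_lt_one (by norm_num) (by norm_num)).trans (by norm_num)
  have hz1 : ∀ n < NN 2, z n = 0 := by
    intro n hn
    rw [hz, Finsupp.sub_apply, hx0 n hn, hy, Finsupp.finsetSum_apply, sum_eq_zero, sub_zero]
    intro j hj
    have := NN_mono.monotone (mem_Ico.1 hj).1
    simp [Ph_out (k := j) (n := n) (by omega)]
  have hz2 : ∀ k, 2 ≤ k → z (pk k) = 0 := by
    intro k hk
    rw [hz, Finsupp.sub_apply, sub_eq_zero]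
    by_cases h : k < M
    · exact (eval_pk (Ico 2 M) id Function.injective_id (fun j => x (pk j)) k
        (mem_Ico.2 ⟨hk, h⟩)).symm
    · have : k ≤ NN k := NN_mono.le_apply
      rw [hM _ (by unfold pk; omega), hy, Finsupp.finsetSum_apply, sum_eq_zero]
      intro j hj
      have : j ≠ k := by have := (mem_Ico.1 hj).2; omega
      simp [Ph_pk, this]
  have hz3 := form_lower aa bb z aa aa 2 aa_pos (fun n => le_of_eq (sq _))
    (fun h => absurd (hz1 0 (NN_mono two_pos)) h) (fun n hn => by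
      have a1 : NN 2 ≤ n + 1 := by
        by_contra hc
        exact hn (hz1 _ (by omega))
      exact pot n a1 fun he => hn (by rw [he]; exact hz2 _ (blk_ge a1)))
  have hxe : x = z + y := by rw [hz]; abel
  have h2 := J_ne x hx
  have hs := symm aa bb z y
  rw [hxe, map_add] at h2 ⊢
  rw [map_add]
  generalize J z = Z at *
  generalize J y = Y at *
  generalize CJ aa bb z = CZ at *
  generalize CJ aa bb y = CY at *
  have c1 : (inner ℂ Z CY).re = (inner ℂ Y CZ).re := by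
    rw [hs, ← inner_conj_symm, Complex.conj_re]
  have c2 : (inner ℂ Z Y).re = (inner ℂ Y Z).re := by rw [← inner_conj_symm, Complex.conj_re]
  have c3 : (inner ℂ Y CY).re ≤ ‖Y‖ * (1 / 2 * ‖Y‖) :=
    (Complex.re_le_norm _).trans ((norm_inner_le_norm _ _).trans (by gcongr))
  have c4 : ∀ U : HH, (inner ℂ U U).re = ‖U‖ ^ 2 := fun U => by
    rw [inner_self_eq_norm_sq_to_K]; norm_cast
  have h3 : (inner ℂ (Z - Y) (CZ + CY - ((1 : ℝ) : ℂ) • (Z + Y))).re =
      (inner ℂ Z CZ).re - (inner ℂ Y CY).re - ‖Z‖ ^ 2 + ‖Y‖ ^ 2 := by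
    simp only [Complex.ofReal_one, one_smul, inner_sub_left, inner_sub_right, inner_add_right,
      Complex.sub_re, Complex.add_re, c4, c1, c2]
    ring
  have h4 := (Complex.re_le_norm _).trans
    (norm_inner_le_norm (𝕜 := ℂ) (Z - Y) (CZ + CY - ((1 : ℝ) : ℂ) • (Z + Y)))
  rw [h3] at h4
  have h5 := norm_sub_le Z Y
  have h6 := norm_add_le Z Y
  by_contra hc
  have h7 : ‖Z - Y‖ * ‖CZ + CY - ((1 : ℝ) : ℂ) • (Z + Y)‖ ≤ (‖Z‖ + ‖Y‖) * (1 / 5 * (‖Z‖ + ‖Y‖)) :=
    mul_le_mul h5 ((not_lt.1 hc).trans (by linarith)) (norm_nonneg _) (by positivity)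
  nlinarith [sq_nonneg (‖Z‖ - ‖Y‖), mul_pos (h2.trans_le h6) (h2.trans_le h6)]

end Pool.Agent.H58.Chihara
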