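import Mathlib

set_option autoImplicit false

namespace Pool.Agent.H58.Cy

open MeasureTheory

noncomputable section

/-- Dirichlet energy `∫_Ω |∇u|²` in three dimensions. -/
def energy (Ω : Set (ℝ × ℝ × ℝ)) (u : ℝ × ℝ × ℝ → ℝ) : ℝ :=
  ∫ q in Ω, ((fderiv ℝ u q (1, 0, 0)) ^ 2 + (fderiv ℝ u q (0, 1, 0)) ^ 2 +
    (fderiv ℝ u q (0, 0, 1)) ^ 2)

/-- Squared `L²(Ω)` norm. -/
def mass (Ω : Set (ℝ × ℝ × ℝ)) (u : ℝ × ℝ × ℝ → ℝ) : ℝ := ∫ q in Ω, (u q) ^ 2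

/-- The Courant-Fischer min-max value `μ_k(Ω)`: the infimum, over all `(k+1)`-dimensional spaces
of restrictions to `Ω` of `C¹` functions on space, of the maximal Rayleigh quotient. -/
def mu (Ω : Set (ℝ × ℝ × ℝ)) (k : ℕ) : ℝ :=
  sInf {l : ℝ | ∃ u : Fin (k + 1) → ℝ × ℝ × ℝ → ℝ, (∀ i, ContDiff ℝ 1 (u i)) ∧
    ∀ c : Fin (k + 1) → ℝ, c ≠ 0 → 0 < mass Ω (fun p => ∑ i, c i * u i p) ∧
      energy Ω (fun p => ∑ i, c i * u i p) ≤ l * mass Ω (fun p => ∑ i, c i * u i p)}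

/-- Bounded convex domain. -/
def IsCvx (Ω : Set (ℝ × ℝ × ℝ)) : Prop :=
  Ω.Nonempty ∧ IsOpen Ω ∧ Convex ℝ Ω ∧ Bornology.IsBounded Ω

/-- The constant `α_{k,3}`. -/
def alpha (k : ℕ) : ℝ :=
  sInf {r : ℝ | ∃ Ω₁ Ω₂, IsCvx Ω₁ ∧ IsCvx Ω₂ ∧ Ω₁ ⊆ Ω₂ ∧ r = mu Ω₁ k / mu Ω₂ k}

end

end Pool.Agent.H58.Cy
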