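import Pool.Agent.H58.Pd3
import Pool.Agent.H58.CyDefs

set_option autoImplicit false

namespace Pool.Agent.H58.Cy

open MeasureTheory Set intervalIntegral
open Pool.Agent.H58.Nm (WP swap2 cpar rectP ip)
open scoped Real

noncomputable section

/-- integral over the cross-section. -/
def J (G : ℝ × ℝ × ℝ → ℝ) (z : ℝ) : ℝ := ∫ y in (-1 : ℝ)..1, ∫ x in (-1 : ℝ)..1, G (z, x, y)

lemma cin {G : ℝ × ℝ × ℝ → ℝ} (hG : Continuous G) :
    Continuous fun q : ℝ × ℝ => ∫ x in (-1 : ℝ)..1, G (q.1, x, q.2) :=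
  continuous_parametric_intervalIntegral_of_continuous' (f := fun (q : ℝ × ℝ) x => G (q.1, x, q.2))
    (show Continuous fun r : (ℝ × ℝ) × ℝ => G (r.1.1, r.2, r.1.2) by fun_prop) _ _

lemma cz {G : ℝ × ℝ × ℝ → ℝ} (hG : Continuous G) (c d : ℝ) :
    Continuous fun q : ℝ × ℝ => ∫ z in c..d, G (z, q.1, q.2) :=
  continuous_parametric_intervalIntegral_of_continuous' (f := fun (q : ℝ × ℝ) z => G (z, q.1, q.2))
    (show Continuous fun r : (ℝ × ℝ) × ℝ => G (r.2, r.1.1, r.1.2) by fun_prop) _ _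

lemma J_cont {G : ℝ × ℝ × ℝ → ℝ} (hG : Continuous G) : Continuous (J G) :=
  continuous_parametric_intervalIntegral_of_continuous'
    (f := fun z y => ∫ x in (-1 : ℝ)..1, G (z, x, y)) (cin hG) _ _

lemma swap3 {G : ℝ × ℝ × ℝ → ℝ} (hG : Continuous G) (c d : ℝ) :
    ∫ z in c..d, J G z = ∫ y in (-1 : ℝ)..1, ∫ x in (-1 : ℝ)..1, ∫ z in c..d, G (z, x, y) := by
  refine (swap2 (cin hG) c d (-1) 1).trans (integral_congr fun y _ => ?_)
  exact swap2 (G := fun q => G (q.1, q.2, y)) (by fun_prop) c d (-1) 1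

lemma lin {F G : ℝ × ℝ → ℝ} (hF : Continuous F) (hG : Continuous G) (a b c : ℝ) :
    ∫ y in (-1 : ℝ)..1, ∫ x in (-1 : ℝ)..1, (a * F (x, y) + b * G (x, y) + c) =
      a * (∫ y in (-1 : ℝ)..1, ∫ x in (-1 : ℝ)..1, F (x, y)) +
      b * (∫ y in (-1 : ℝ)..1, ∫ x in (-1 : ℝ)..1, G (x, y)) + 4 * c := by
  have h1 := cpar hF (-1) 1
  have h2 := cpar hG (-1) 1
  simp (disch := exact Continuous.intervalIntegrable (by fun_prop) _ _) only
    [intervalIntegral.integral_add, intervalIntegral.integral_const_mul,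
      intervalIntegral.integral_const, smul_eq_mul]
  ring

lemma cubeP {v vz vx vy : ℝ × ℝ × ℝ → ℝ} (hv : Continuous v) (hvz : Continuous vz)
    (hvx : Continuous vx) (hvy : Continuous vy)
    (hz : ∀ x y z, HasDerivAt (fun z => v (z, x, y)) (vz (z, x, y)) z)
    (hx : ∀ z y x, HasDerivAt (fun x => v (z, x, y)) (vx (z, x, y)) x)
    (hy : ∀ z x y, HasDerivAt (fun y => v (z, x, y)) (vy (z, x, y)) y) {c d ω : ℝ} (hcd : c ≤ d)
    (hω : 0 < ω) (h1 : ω * (1 - -1) < π) (h2 : ω * (d - c) < π) (h0 : ∫ z in c..d, J v z = 0) :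
    ω ^ 2 * ∫ z in c..d, J (fun q => v q ^ 2) z ≤
      ∫ z in c..d, J (fun q => vz q ^ 2 + vx q ^ 2 + vy q ^ 2) z := by
  let m : ℝ → ℝ := fun z => J v z / 4
  have hm : Continuous m := (J_cont hv).div_const 4
  have hmv : ∀ z, J v z = 4 * m z := fun z => by simp only [m]; ring
  have hA : ∀ z, ω ^ 2 * J (fun q => v q ^ 2) z ≤ 4 * ω ^ 2 * m z ^ 2 +
      J (fun q => vx q ^ 2 + vy q ^ 2) z := fun z => by
    have e0 := lin (F := fun p => v (z, p.1, p.2)) (G := fun p => v (z, p.1, p.2))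
      (by fun_prop) (by fun_prop) 1 0 (-m z)
    have e1 := lin (F := fun p => v (z, p.1, p.2) ^ 2) (G := fun p => v (z, p.1, p.2))
      (by fun_prop) (by fun_prop) 1 (-2 * m z) (m z ^ 2)
    have e2 := rectP (v := fun p => v (z, p.1, p.2) - m z) (vx := fun p => vx (z, p.1, p.2))
      (vy := fun p => vy (z, p.1, p.2)) (by fun_prop) (by fun_prop) (by fun_prop)
      (fun y x => (hx z y x).sub_const _) (fun x y => (hy z x y).sub_const _)
      (c := -1) (d := 1) (by norm_num) hω h1 h1 (by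
        have e3 := hmv z
        simp only [J] at e3
        simp only [one_mul, zero_mul, add_zero, ← sub_eq_add_neg] at e0
        rw [e0, e3]; ring)
    have e4 : ∀ x y, (v (z, x, y) - m z) ^ 2 =
        1 * v (z, x, y) ^ 2 + -2 * m z * v (z, x, y) + m z ^ 2 := fun x y => by ring
    have e3 := hmv z
    simp only [e4, e1] at e2
    simp only [J] at e3 ⊢
    rw [e3] at e2
    nlinarith
  have e0 : ∫ z in c..d, m z = 0 := by
    simp only [m]; rw [intervalIntegral.integral_div, h0, zero_div]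
  have c1 := cz (G := fun q => v q * m q.1) (by fun_prop) c d
  have c2 := cz (G := fun q => vz q ^ 2) (by fun_prop) c d
  have hB : ∫ y in (-1 : ℝ)..1, ∫ x in (-1 : ℝ)..1, ∫ z in c..d, v (z, x, y) * m z ≤
      ∫ y in (-1 : ℝ)..1, ∫ x in (-1 : ℝ)..1, (1 / (2 * ω ^ 2) * (∫ z in c..d, vz (z, x, y) ^ 2) +
        0 * (∫ z in c..d, vz (z, x, y) ^ 2) + 1 / 2 * ∫ z in c..d, m z ^ 2) :=
    integral_mono_on (by norm_num) ((cpar c1 _ _).intervalIntegrable _ _)
      ((cpar (G := fun p => 1 / (2 * ω ^ 2) * (∫ z in c..d, vz (z, p.1, p.2) ^ 2) +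
        0 * (∫ z in c..d, vz (z, p.1, p.2) ^ 2) + 1 / 2 * ∫ z in c..d, m z ^ 2)
        (((c2.const_mul _).add (c2.const_mul _)).add continuous_const) _ _).intervalIntegrable _ _)
      fun y _ => integral_mono_on (by norm_num)
        ((c1.comp (Continuous.prodMk_left y)).intervalIntegrable _ _)
        (((((c2.const_mul _).add (c2.const_mul _)).add continuous_const).comp
          (Continuous.prodMk_left y)).intervalIntegrable _ _) fun x _ => by
        have := WP hm (hz x y) (by fun_prop) hcd hω h2 e0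
        linarith
  rw [lin c2 c2, ← swap3 (G := fun q => v q * m q.1) (by fun_prop),
    ← swap3 (G := fun q => vz q ^ 2) (by fun_prop)] at hB
  have e4 : ∫ z in c..d, J (fun q => v q * m q.1) z = 4 * ∫ z in c..d, m z ^ 2 := by
    rw [← intervalIntegral.integral_const_mul]
    refine integral_congr fun z _ => ?_
    have e3 := hmv z
    simp only [J, intervalIntegral.integral_mul_const] at e3 ⊢
    rw [e3]; ring
  have d1 := J_cont (G := fun q => v q ^ 2) (by fun_prop)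
  have d2 := J_cont (G := fun q => vx q ^ 2 + vy q ^ 2) (by fun_prop)
  have d3 := J_cont (G := fun q => vz q ^ 2) (by fun_prop)
  have hC := integral_mono_on (μ := volume) hcd
    (Continuous.intervalIntegrable (by fun_prop) _ _)
    (Continuous.intervalIntegrable (by fun_prop) _ _) fun z _ => hA z
  rw [intervalIntegral.integral_add (Continuous.intervalIntegrable (by fun_prop) _ _)
    (d2.intervalIntegrable _ _), intervalIntegral.integral_const_mul,
    intervalIntegral.integral_const_mul] at hC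
  have e5 : ∫ z in c..d, J (fun q => vz q ^ 2 + vx q ^ 2 + vy q ^ 2) z =
      (∫ z in c..d, J (fun q => vz q ^ 2) z) + ∫ z in c..d, J (fun q => vx q ^ 2 + vy q ^ 2) z := by
    rw [← intervalIntegral.integral_add (d3.intervalIntegrable _ _) (d2.intervalIntegrable _ _)]
    refine integral_congr fun z _ => ?_
    have := lin (F := fun p => vz (z, p.1, p.2) ^ 2)
      (G := fun p => vx (z, p.1, p.2) ^ 2 + vy (z, p.1, p.2) ^ 2) (by fun_prop) (by fun_prop) 1 1 0
    simpa only [J, one_mul, add_zero, mul_zero, add_assoc] using this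
  rw [e5]
  rw [e4] at hB
  have e7 : ω ^ 2 * (1 / (2 * ω ^ 2)) = 1 / 2 := by field_simp
  have hE := mul_le_mul_of_nonneg_left hB (sq_nonneg ω)
  set k := 1 / (2 * ω ^ 2)
  set Z := ∫ z in c..d, J (fun q => vz q ^ 2) z
  set M := ∫ z in c..d, m z ^ 2
  have e9 : ω ^ 2 * (k * Z + 0 * Z + 4 * (1 / 2 * M)) = Z / 2 + 2 * (ω ^ 2 * M) := by
    linear_combination Z * e7
  rw [e9] at hE
  linarith

/-- the square cross-section. -/
def Sq : Set (ℝ × ℝ) := Ioo (-1) 1 ×ˢ Ioo (-1) 1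

lemma int_Sq {G : ℝ × ℝ → ℝ} (hG : Continuous G) :
    ∫ p in Sq, G p = ∫ y in (-1 : ℝ)..1, ∫ x in (-1 : ℝ)..1, G (x, y) := by
  rw [← swap2 hG, Sq, Measure.volume_eq_prod, setIntegral_prod _ (by
    rw [← Measure.volume_eq_prod]
    exact (hG.continuousOn.integrableOn_compact (isCompact_Icc.prod isCompact_Icc)).mono_set
      (prod_mono Ioo_subset_Icc_self Ioo_subset_Icc_self)),
    integral_of_le (by norm_num), integral_Ioc_eq_integral_Ioo]
  congr 1; funext x
  rw [integral_of_le (by norm_num), integral_Ioc_eq_integral_Ioo]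

lemma intOn {G : ℝ × ℝ × ℝ → ℝ} (hG : Continuous G) (L : ℝ) {w : Set (ℝ × ℝ)} (hw : w ⊆ Sq) :
    IntegrableOn G (Ioo 0 L ×ˢ w) :=
  (hG.continuousOn.integrableOn_compact
    (isCompact_Icc.prod (isCompact_Icc.prod isCompact_Icc))).mono_set
    (prod_mono Ioo_subset_Icc_self (hw.trans (prod_mono Ioo_subset_Icc_self Ioo_subset_Icc_self)))

lemma int_box {G : ℝ × ℝ × ℝ → ℝ} (hG : Continuous G) {L : ℝ} (hL : 0 ≤ L) :
    ∫ q in Ioo 0 L ×ˢ Sq, G q = ∫ z in (0 : ℝ)..L, J G z := by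
  rw [Measure.volume_eq_prod, setIntegral_prod _ (by
    rw [← Measure.volume_eq_prod]; exact intOn hG L Subset.rfl),
    integral_of_le hL, integral_Ioc_eq_integral_Ioo]
  congr 1; funext z
  exact int_Sq (G := fun p => G (z, p)) (by fun_prop)

lemma pd3 {v : ℝ × ℝ × ℝ → ℝ} (hv : ContDiff ℝ 1 v) :
    (∀ x y z, HasDerivAt (fun z => v (z, x, y)) (fderiv ℝ v (z, x, y) (1, 0, 0)) z) ∧
    (∀ z y x, HasDerivAt (fun x => v (z, x, y)) (fderiv ℝ v (z, x, y) (0, 1, 0)) x) ∧
    (∀ z x y, HasDerivAt (fun y => v (z, x, y)) (fderiv ℝ v (z, x, y) (0, 0, 1)) y) :=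
  ⟨fun x y z => (hv.differentiable one_ne_zero (z, x, y)).hasFDerivAt.comp_hasDerivAt z
      ((hasDerivAt_id z).prodMk ((hasDerivAt_const z x).prodMk (hasDerivAt_const z y))),
    fun z y x => (hv.differentiable one_ne_zero (z, x, y)).hasFDerivAt.comp_hasDerivAt x
      ((hasDerivAt_const x z).prodMk ((hasDerivAt_id x).prodMk (hasDerivAt_const x y))),
    fun z x y => (hv.differentiable one_ne_zero (z, x, y)).hasFDerivAt.comp_hasDerivAt y
      ((hasDerivAt_const y z).prodMk ((hasDerivAt_const y x).prodMk (hasDerivAt_id y)))⟩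

lemma lower {k : ℕ} {l : ℝ} {u : Fin (k + 1) → ℝ × ℝ × ℝ → ℝ} (hu : ∀ i, ContDiff ℝ 1 (u i))
    (hl : ∀ c : Fin (k + 1) → ℝ, c ≠ 0 →
      0 < mass (Ioo 0 (2 * (k : ℝ)) ×ˢ Sq) (fun p => ∑ i, c i * u i p) ∧
      energy (Ioo 0 (2 * (k : ℝ)) ×ˢ Sq) (fun p => ∑ i, c i * u i p) ≤
        l * mass (Ioo 0 (2 * (k : ℝ)) ×ˢ Sq) (fun p => ∑ i, c i * u i p)) :
    (3.14 / 2) ^ 2 ≤ l := by
  obtain ⟨c, hc0, hc⟩ : ∃ c : Fin (k + 1) → ℝ, c ≠ 0 ∧ ∀ j : Fin k,
      ∑ i, c i * ∫ z in (2 * ((j : ℕ) : ℝ))..(2 * (((j : ℕ) + 1 : ℕ) : ℝ)), J (u i) z = 0 := by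
    let L : (Fin (k + 1) → ℝ) →ₗ[ℝ] (Fin k → ℝ) := LinearMap.pi fun j : Fin k =>
      ∑ i, (∫ z in (2 * ((j : ℕ) : ℝ))..(2 * (((j : ℕ) + 1 : ℕ) : ℝ)), J (u i) z) •
        LinearMap.proj i
    obtain ⟨c, hc, hc0⟩ := Submodule.exists_mem_ne_zero_of_ne_bot
      (LinearMap.ker_ne_bot_of_finrank_lt (f := L) (by simp))
    refine ⟨c, hc0, fun j => ?_⟩
    have := congrFun (LinearMap.mem_ker.mp hc) j
    simpa [L, mul_comm] using this
  obtain ⟨h3, h4⟩ := hl c hc0
  have hJ : ∀ z, J (fun p => ∑ i, c i * u i p) z = ∑ i, c i * J (u i) z := fun z =>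
    Pool.Agent.H58.Nm.lin2 (u := fun i p => u i (z, p.1, p.2))
      (fun i => by have := (hu i).continuous; fun_prop) c (-1) 1
  set v : ℝ × ℝ × ℝ → ℝ := fun p => ∑ i, c i * u i p
  have hd : ContDiff ℝ 1 v := by fun_prop
  have hf := hd.continuous_fderiv one_ne_zero
  have hc0 := hd.continuous
  have h5 : ∀ j ∈ Finset.range k, _ := fun j hj =>
    cubeP (vz := fun p => fderiv ℝ v p (1, 0, 0)) (vx := fun p => fderiv ℝ v p (0, 1, 0))
      (vy := fun p => fderiv ℝ v p (0, 0, 1)) hc0 (by fun_prop) (by fun_prop) (by fun_prop)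
      (pd3 hd).1 (pd3 hd).2.1 (pd3 hd).2.2 (c := 2 * (j : ℝ)) (d := 2 * ((j + 1 : ℕ) : ℝ))
      (ω := 3.14 / 2) (by push_cast; linarith) (by norm_num) (by linarith [Real.pi_gt_d2])
      (by push_cast; linarith [Real.pi_gt_d2]) (by
        simp only [hJ]
        rw [intervalIntegral.integral_finsetSum fun i _ =>
          ((J_cont (hu i).continuous).const_mul _).intervalIntegrable _ _]
        simp only [intervalIntegral.integral_const_mul]
        exact hc ⟨j, Finset.mem_range.mp hj⟩)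
  have h6 := Finset.sum_le_sum h5
  have d1 := J_cont (G := fun q => v q ^ 2) (by fun_prop)
  have d2 := J_cont (G := fun q => fderiv ℝ v q (1, 0, 0) ^ 2 + fderiv ℝ v q (0, 1, 0) ^ 2 +
    fderiv ℝ v q (0, 0, 1) ^ 2) (by fun_prop)
  rw [← Finset.mul_sum, sum_integral_adjacent_intervals (a := fun j : ℕ => 2 * (j : ℝ))
    fun _ _ => d1.intervalIntegrable _ _,
    sum_integral_adjacent_intervals (a := fun j : ℕ => 2 * (j : ℝ))
    fun _ _ => d2.intervalIntegrable _ _] at h6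
  simp only [Nat.cast_zero, mul_zero] at h6
  rw [mass, int_box (G := fun p => v p ^ 2) (by fun_prop) (by positivity)] at h3 h4
  rw [energy, int_box (by fun_prop) (by positivity)] at h4
  exact le_of_mul_le_mul_right (h6.trans h4) h3

end

end Pool.Agent.H58.Cy
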