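import Pool.Agent.H58.Cy1

set_option autoImplicit false

namespace Pool.Agent.H58.Cy

open MeasureTheory Set intervalIntegral
open Pool.Agent.H58.Nm (swap2 cpar ip)
open scoped Real

noncomputable section

lemma intSq {G : ℝ × ℝ → ℝ} (hG : Continuous G) {w : Set (ℝ × ℝ)} (hw : w ⊆ Sq) :
    IntegrableOn G w :=
  (hG.continuousOn.integrableOn_compact (isCompact_Icc.prod isCompact_Icc)).mono_set
    (hw.trans (prod_mono Ioo_subset_Icc_self Ioo_subset_Icc_self))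

lemma quad {n : ℕ} {L : ℝ} (hL : 0 ≤ L) {w : Set (ℝ × ℝ)} (hw : w ⊆ Sq) (f : Fin n → ℝ → ℝ)
    (g : Fin n → ℝ × ℝ → ℝ) (hf : ∀ i, Continuous (f i)) (hg : ∀ i, Continuous (g i))
    (ho : ∀ i j, i ≠ j → (∫ z in (0 : ℝ)..L, f i z * f j z) * ∫ p in w, g i p * g j p = 0)
    (c : Fin n → ℝ) :
    ∫ q in Ioo 0 L ×ˢ w, (∑ i, c i * (f i q.1 * g i q.2)) ^ 2 =
      ∑ i, c i ^ 2 * ((∫ z in (0 : ℝ)..L, f i z * f i z) * ∫ p in w, g i p * g i p) := by
  have e : ∀ q : ℝ × ℝ × ℝ, (∑ i, c i * (f i q.1 * g i q.2)) ^ 2 =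
      ∑ i, ∑ j, c i * c j * ((f i q.1 * f j q.1) * (g i q.2 * g j q.2)) := fun q => by
    rw [sq, Finset.sum_mul_sum]
    exact Finset.sum_congr rfl fun i _ => Finset.sum_congr rfl fun j _ => by ring
  have e2 : ∀ i j, ∫ q in Ioo 0 L ×ˢ w, (f i q.1 * f j q.1) * (g i q.2 * g j q.2) =
      (∫ z in (0 : ℝ)..L, f i z * f j z) * ∫ p in w, g i p * g j p := fun i j => by
    rw [Measure.volume_eq_prod, setIntegral_prod_mul (fun z => f i z * f j z)
      (fun p => g i p * g j p), integral_of_le hL, integral_Ioc_eq_integral_Ioo]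
  simp only [e]
  rw [MeasureTheory.integral_finsetSum _ fun i _ => intOn (by fun_prop) L hw]
  refine Finset.sum_congr rfl fun i _ => ?_
  rw [MeasureTheory.integral_finsetSum _ fun j _ => intOn (by fun_prop) L hw]
  simp only [MeasureTheory.integral_const_mul, e2]
  rw [Finset.sum_eq_single i (fun j _ hj => by rw [ho i j hj.symm, mul_zero]) (by simp), sq]

lemma icos {L : ℝ} (hL : 0 < L) {n : ℤ} (hn : n ≠ 0) :
    ∫ z in (0 : ℝ)..L, Real.cos (n * (π / L) * z) = 0 := by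
  have h : (n : ℝ) * (π / L) ≠ 0 :=
    mul_ne_zero (Int.cast_ne_zero.mpr hn) (div_pos Real.pi_pos hL).ne'
  rw [intervalIntegral.integral_comp_mul_left Real.cos h, integral_cos, mul_zero,
    show (n : ℝ) * (π / L) * L = n * π by field_simp, Real.sin_int_mul_pi]
  simp

lemma ccss {L : ℝ} (a b : ℕ) :
    (∫ z in (0 : ℝ)..L, Real.cos (a * (π / L) * z) * Real.cos (b * (π / L) * z)) =
      ((∫ z in (0 : ℝ)..L, Real.cos (((a : ℤ) - b : ℤ) * (π / L) * z)) +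
        ∫ z in (0 : ℝ)..L, Real.cos (((a : ℤ) + b : ℤ) * (π / L) * z)) / 2 ∧
    (∫ z in (0 : ℝ)..L, Real.sin (a * (π / L) * z) * Real.sin (b * (π / L) * z)) =
      ((∫ z in (0 : ℝ)..L, Real.cos (((a : ℤ) - b : ℤ) * (π / L) * z)) -
        ∫ z in (0 : ℝ)..L, Real.cos (((a : ℤ) + b : ℤ) * (π / L) * z)) / 2 := by
  rw [← intervalIntegral.integral_add (Continuous.intervalIntegrable (by fun_prop) _ _)
      (Continuous.intervalIntegrable (by fun_prop) _ _),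
    ← intervalIntegral.integral_sub (Continuous.intervalIntegrable (by fun_prop) _ _)
      (Continuous.intervalIntegrable (by fun_prop) _ _), ← intervalIntegral.integral_div,
    ← intervalIntegral.integral_div]
  constructor <;> refine integral_congr fun z _ => ?_ <;> push_cast <;>
    simp only [sub_mul, add_mul, Real.cos_sub, Real.cos_add] <;> ring

lemma orth {L : ℝ} (hL : 0 < L) {a b : ℕ} (h : a ≠ b) :
    (∫ z in (0 : ℝ)..L, Real.cos (a * (π / L) * z) * Real.cos (b * (π / L) * z)) = 0 ∧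
    (∫ z in (0 : ℝ)..L, Real.sin (a * (π / L) * z) * Real.sin (b * (π / L) * z)) = 0 := by
  rw [(ccss a b).1, (ccss a b).2, icos hL (by omega), icos hL (by omega)]
  simp

lemma diag {L : ℝ} (hL : 0 < L) (a : ℕ) :
    0 < (∫ z in (0 : ℝ)..L, Real.cos (a * (π / L) * z) * Real.cos (a * (π / L) * z)) ∧
    (∫ z in (0 : ℝ)..L, Real.sin (a * (π / L) * z) * Real.sin (a * (π / L) * z)) ≤
      ∫ z in (0 : ℝ)..L, Real.cos (a * (π / L) * z) * Real.cos (a * (π / L) * z) := by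
  rw [(ccss a a).1, (ccss a a).2]
  rcases Nat.eq_zero_or_pos a with rfl | h
  · simp [hL, hL.le]
  · rw [icos hL (n := (a : ℤ) + a) (by omega)]
    simp [hL]

lemma trial {k : ℕ} (hk : 1 ≤ k) {w : Set (ℝ × ℝ)} (hw : w ⊆ Sq) {A B β : ℝ} (hA : 0 < A)
    (hB : 0 < B) (hβ : 0 ≤ β) (h1 : ∫ _ in w, (1 : ℝ) = A) (h2 : ∫ p in w, (p.1 + p.2) = 0)
    (h3 : ∫ p in w, (p.1 + p.2) * (p.1 + p.2) = B) (h4 : 2 * A ≤ β * B) :
    ∃ u : Fin (k + 1) → ℝ × ℝ × ℝ → ℝ, (∀ i, ContDiff ℝ 1 (u i)) ∧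
      ∀ c : Fin (k + 1) → ℝ, c ≠ 0 →
        0 < mass (Ioo 0 (2 * (k : ℝ)) ×ˢ w) (fun p => ∑ i, c i * u i p) ∧
        energy (Ioo 0 (2 * (k : ℝ)) ×ˢ w) (fun p => ∑ i, c i * u i p) ≤
          (π ^ 2 / 16 + β) * mass (Ioo 0 (2 * (k : ℝ)) ×ˢ w) (fun p => ∑ i, c i * u i p) := by
  have hk' : (1 : ℝ) ≤ k := by exact_mod_cast hk
  obtain ⟨L, hL⟩ : ∃ L : ℝ, L = 2 * (k : ℝ) := ⟨_, rfl⟩
  have hL0 : 0 < L := by linarith
  rw [← hL]
  let n : Fin (k + 1) → ℕ := fun i => (i : ℕ) / 2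
  let b : Fin (k + 1) → ℝ := fun i => if (i : ℕ) % 2 = 0 then 0 else 1
  let f : Fin (k + 1) → ℝ → ℝ := fun i z => Real.cos (n i * (π / L) * z)
  let s : Fin (k + 1) → ℝ → ℝ := fun i z => Real.sin (n i * (π / L) * z)
  let g : Fin (k + 1) → ℝ × ℝ → ℝ := fun i p => (1 - b i) + b i * (p.1 + p.2)
  have hpar : ∀ i j, i ≠ j → n i ≠ n j ∨ (b i = 0 ∧ b j = 1) ∨ (b i = 1 ∧ b j = 0) :=
    fun i j hij => by
      have : (i : ℕ) ≠ j := fun h => hij (Fin.ext h)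
      simp only [n, b]
      split_ifs <;> simp <;> omega
  have hb : ∀ i, b i = 0 ∨ b i = 1 := fun i => by simp only [b]; split_ifs <;> simp
  refine ⟨fun i q => f i q.1 * g i q.2, fun i => by simp only [f, g]; fun_prop, fun c hc => ?_⟩
  set v : ℝ × ℝ × ℝ → ℝ := fun q => ∑ i, c i * (f i q.1 * g i q.2) with hv
  have hd : ContDiff ℝ 1 v := by simp only [hv, f, g]; fun_prop
  have hz : ∀ q : ℝ × ℝ × ℝ, fderiv ℝ v q (1, 0, 0) =
      ∑ i, (-(n i * (π / L)) * c i) * (s i q.1 * g i q.2) := fun ⟨z, x, y⟩ =>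
    ((pd3 hd).1 x y z).unique (HasDerivAt.fun_sum fun i _ =>
      (((((hasDerivAt_id' z).const_mul (n i * (π / L))).cos).mul_const
        (g i (x, y))).const_mul (c i)).congr_deriv (by simp only [s]; ring))
  have hx : ∀ q : ℝ × ℝ × ℝ, fderiv ℝ v q (0, 1, 0) = ∑ i, c i * (f i q.1 * b i) :=
    fun ⟨z, x, y⟩ => ((pd3 hd).2.1 z y x).unique (HasDerivAt.fun_sum fun i _ =>
      ((((((hasDerivAt_id' x).add_const y).const_mul (b i)).const_add (1 - b i)).const_mul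
        (f i z)).const_mul (c i)).congr_deriv (by ring))
  have hy : ∀ q : ℝ × ℝ × ℝ, fderiv ℝ v q (0, 0, 1) = ∑ i, c i * (f i q.1 * b i) :=
    fun ⟨z, x, y⟩ => ((pd3 hd).2.2 z x y).unique (HasDerivAt.fun_sum fun i _ =>
      ((((((hasDerivAt_id' y).const_add x).const_mul (b i)).const_add (1 - b i)).const_mul
        (f i z)).const_mul (c i)).congr_deriv (by ring))
  have hgo : ∀ i j, (b i = 0 ∧ b j = 1) ∨ (b i = 1 ∧ b j = 0) →
      ∫ p in w, g i p * g j p = 0 := fun i j h => by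
    rcases h with ⟨e1, e2⟩ | ⟨e1, e2⟩ <;> simpa [g, e1, e2] using h2
  have cf : ∀ i, Continuous (f i) := fun i => by simp only [f]; fun_prop
  have cs : ∀ i, Continuous (s i) := fun i => by simp only [s]; fun_prop
  have cg : ∀ i, Continuous (g i) := fun i => by simp only [g]; fun_prop
  have q1 := quad hL0.le hw f g cf cg (fun i j hij => by
    rcases hpar i j hij with h | h
    · rw [(orth hL0 h).1, zero_mul]
    · rw [hgo i j h, mul_zero]) c
  have q2 := quad hL0.le hw s g cs cg (fun i j hij => by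
    rcases hpar i j hij with h | h
    · rw [(orth hL0 h).2, zero_mul]
    · rw [hgo i j h, mul_zero]) fun i => -(n i * (π / L)) * c i
  have q3 := quad hL0.le hw f (fun i _ => b i) cf (fun i => continuous_const) (fun i j hij => by
    rcases hpar i j hij with h | ⟨h, -⟩ | ⟨-, h⟩
    · rw [(orth hL0 h).1, zero_mul]
    · simp [h]
    · simp [h]) c
  have hG : ∀ i, 0 < ∫ p in w, g i p * g i p ∧
      2 * ∫ _ in w, b i * b i ≤ β * ∫ p in w, g i p * g i p := fun i => by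
    rcases hb i with e | e
    · simp only [g, e, sub_zero, zero_mul, add_zero, mul_one, h1, MeasureTheory.integral_zero]
      exact ⟨hA, by nlinarith [mul_nonneg hβ hA.le]⟩
    · simp only [g, e, sub_self, one_mul, zero_add, h1, h3]
      exact ⟨hB, h4⟩
  have hn : ∀ i, (n i * (π / L)) ^ 2 ≤ π ^ 2 / 16 := fun i => by
    have e1 : 2 * n i ≤ k := by have := i.2; simp only [n]; omega
    have e2 : 2 * (n i : ℝ) ≤ k := by exact_mod_cast e1
    have e3 : n i * (π / L) ≤ π / 4 := by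
      rw [mul_div_assoc', div_le_div_iff₀ hL0 (by norm_num), hL]
      nlinarith [Real.pi_pos]
    have e4 : 0 ≤ n i * (π / L) := by have := Real.pi_pos; positivity
    nlinarith
  have hm : mass (Ioo 0 L ×ˢ w) v = _ := q1
  have he : energy (Ioo 0 L ×ˢ w) v = (∑ i, (-(n i * (π / L)) * c i) ^ 2 *
      ((∫ z in (0 : ℝ)..L, s i z * s i z) * ∫ p in w, g i p * g i p)) +
      (∑ i, c i ^ 2 * ((∫ z in (0 : ℝ)..L, f i z * f i z) * ∫ _ in w, b i * b i)) +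
      ∑ i, c i ^ 2 * ((∫ z in (0 : ℝ)..L, f i z * f i z) * ∫ _ in w, b i * b i) := by
    simp only [energy, hz, hx, hy]
    rw [MeasureTheory.integral_add (intOn (by fun_prop) L hw) (intOn (by fun_prop) L hw),
      MeasureTheory.integral_add (intOn (by fun_prop) L hw) (intOn (by fun_prop) L hw), q2, q3]
  rw [hm, he]
  constructor
  · obtain ⟨i, hi⟩ := Function.ne_iff.mp hc
    exact Finset.sum_pos' (fun j _ => mul_nonneg (sq_nonneg _)
      (mul_pos (diag hL0 (n j)).1 (hG j).1).le)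
      ⟨i, Finset.mem_univ _, mul_pos (sq_pos_of_ne_zero hi) (mul_pos (diag hL0 (n i)).1 (hG i).1)⟩
  · rw [← Finset.sum_add_distrib, ← Finset.sum_add_distrib, Finset.mul_sum]
    refine Finset.sum_le_sum fun i _ => ?_
    obtain ⟨d1, d2⟩ := diag hL0 (n i)
    obtain ⟨g1, g2⟩ := hG i
    have d3 := hn i
    change 0 < ∫ z in (0 : ℝ)..L, f i z * f i z at d1
    change ∫ z in (0 : ℝ)..L, s i z * s i z ≤ ∫ z in (0 : ℝ)..L, f i z * f i z at d2
    set F := ∫ z in (0 : ℝ)..L, f i z * f i z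
    set S := ∫ z in (0 : ℝ)..L, s i z * s i z
    set G := ∫ p in w, g i p * g i p
    set H := ∫ _ in w, b i * b i
    set N := n i * (π / L)
    have t1 : N ^ 2 * S ≤ π ^ 2 / 16 * F :=
      (mul_le_mul_of_nonneg_left d2 (sq_nonneg _)).trans (mul_le_mul_of_nonneg_right d3 d1.le)
    have t2 := mul_le_mul_of_nonneg_right t1 (mul_nonneg (sq_nonneg (c i)) g1.le)
    have t3 := mul_le_mul_of_nonneg_right g2 (mul_nonneg (sq_nonneg (c i)) d1.le)
    nlinarith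

/-- thin parallelogram along the diagonal. -/
def Pg : Set (ℝ × ℝ) :=
  {p | p.1 ∈ Ioo (-49 / 50 : ℝ) (49 / 50) ∧ p.2 ∈ Ioo (p.1 - 1 / 50) (p.1 + 1 / 50)}

lemma Pg_sub : Pg ⊆ Sq := fun p ⟨⟨h1, h2⟩, h3, h4⟩ =>
  ⟨⟨by linarith, by linarith⟩, by linarith, by linarith⟩

lemma Pg_open : IsOpen Pg := by
  refine IsOpen.and (IsOpen.and ?_ ?_) (IsOpen.and ?_ ?_) <;>
    exact isOpen_lt (by fun_prop) (by fun_prop)

lemma Pg_conv : Convex ℝ Pg := by
  rintro p ⟨⟨h1, h2⟩, h3, h4⟩ q ⟨⟨h5, h6⟩, h7, h8⟩ a b ha hb hab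
  obtain rfl : b = 1 - a := by linarith
  simp only [Pg, mem_ofPred_eq, mem_Ioo, Prod.fst_add, Prod.snd_add, Prod.smul_fst, Prod.smul_snd,
    smul_eq_mul]
  rcases ha.eq_or_lt with rfl | ha'
  · exact ⟨⟨by linarith, by linarith⟩, by linarith, by linarith⟩
  · exact ⟨⟨by nlinarith, by nlinarith⟩, by nlinarith, by nlinarith⟩

lemma int_Pg {F : ℝ × ℝ → ℝ} (hF : Continuous F) :
    ∫ p in Pg, F p =
      ∫ x in (-49 / 50 : ℝ)..(49 / 50), ∫ y in (x - 1 / 50)..(x + 1 / 50), F (x, y) := by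
  have hm := Pg_open.measurableSet
  rw [← MeasureTheory.integral_indicator hm, Measure.volume_eq_prod, integral_prod _ (by
    rw [← Measure.volume_eq_prod]; exact (integrable_indicator_iff hm).mpr (intSq hF Pg_sub)),
    intervalIntegral.integral_of_le (by norm_num), integral_Ioc_eq_integral_Ioo,
    ← MeasureTheory.integral_indicator measurableSet_Ioo]
  congr 1; funext x
  by_cases hx : x ∈ Ioo (-49 / 50 : ℝ) (49 / 50)
  · rw [indicator_of_mem hx, intervalIntegral.integral_of_le (by linarith),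
      integral_Ioc_eq_integral_Ioo, ← MeasureTheory.integral_indicator measurableSet_Ioo]
    congr 1; funext y
    by_cases hy : y ∈ Ioo (x - 1 / 50) (x + 1 / 50)
    · rw [indicator_of_mem hy, indicator_of_mem (by exact ⟨hx, hy⟩)]
    · rw [indicator_of_notMem hy, indicator_of_notMem (by exact fun h => hy h.2)]
  · rw [indicator_of_notMem hx]
    refine (MeasureTheory.integral_congr_ae (Filter.Eventually.of_forall fun y => ?_)).trans
      (MeasureTheory.integral_zero _ _)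
    exact indicator_of_notMem (by exact fun h => hx h.1) _

lemma bdd (Ω : Set (ℝ × ℝ × ℝ)) (k : ℕ) : BddBelow {l : ℝ | ∃ u : Fin (k + 1) → ℝ × ℝ × ℝ → ℝ,
    (∀ i, ContDiff ℝ 1 (u i)) ∧
    ∀ c : Fin (k + 1) → ℝ, c ≠ 0 → 0 < mass Ω (fun p => ∑ i, c i * u i p) ∧
      energy Ω (fun p => ∑ i, c i * u i p) ≤ l * mass Ω (fun p => ∑ i, c i * u i p)} := by
  refine ⟨0, ?_⟩
  rintro l ⟨u, -, hu⟩
  obtain ⟨h2, h3⟩ := hu 1 one_ne_zero
  have h4 : 0 ≤ energy Ω fun p => ∑ i, (1 : Fin (k + 1) → ℝ) i * u i p :=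
    MeasureTheory.integral_nonneg fun p => by positivity
  exact nonneg_of_mul_nonneg_left (h4.trans h3) h2

lemma mu_nonneg (Ω : Set (ℝ × ℝ × ℝ)) (k : ℕ) : 0 ≤ mu Ω k := by
  refine Real.sInf_nonneg ?_
  rintro l ⟨u, -, hu⟩
  obtain ⟨h2, h3⟩ := hu 1 one_ne_zero
  have h4 : 0 ≤ energy Ω fun p => ∑ i, (1 : Fin (k + 1) → ℝ) i * u i p :=
    MeasureTheory.integral_nonneg fun p => by positivity
  exact nonneg_of_mul_nonneg_left (h4.trans h3) h2

theorem main {k : ℕ} (hk : 1 ≤ k) : ∃ Ω₁ Ω₂, IsCvx Ω₁ ∧ IsCvx Ω₂ ∧ Ω₁ ⊆ Ω₂ ∧ 0 < mu Ω₂ k ∧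
    mu Ω₁ k / mu Ω₂ k ≤ 9 / 10 := by
  have hk' : (1 : ℝ) ≤ k := by exact_mod_cast hk
  have hb : Bornology.IsBounded (Ioo 0 (2 * (k : ℝ)) ×ˢ Sq) :=
    (Metric.isBounded_Ioo _ _).prod ((Metric.isBounded_Ioo _ _).prod (Metric.isBounded_Ioo _ _))
  have h0 : ((1 : ℝ), (0 : ℝ), (0 : ℝ)) ∈ Ioo 0 (2 * (k : ℝ)) ×ˢ Pg :=
    ⟨⟨by norm_num, by simp only; linarith⟩, by norm_num, by norm_num⟩
  have h1 : mu (Ioo 0 (2 * (k : ℝ)) ×ˢ Pg) k ≤ π ^ 2 / 16 + 1.57 :=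
    csInf_le (bdd _ _) (trial hk Pg_sub (A := 49 / 625) (B := 94129 / 937500) (by norm_num)
      (by norm_num) (by norm_num)
      (by rw [int_Pg continuous_const,
        ip (1 / 25) 0 0 0 0 0 0 0 _ _ fun x => by
          rw [ip 1 0 0 0 0 0 0 0 _ _ fun y => by ring]; ring]; norm_num)
      (by rw [int_Pg (by fun_prop),
        ip 0 (2 / 25) 0 0 0 0 0 0 _ _ fun x => by
          rw [ip x 1 0 0 0 0 0 0 _ _ fun y => by ring]; ring]; norm_num)
      (by rw [int_Pg (F := fun p => (p.1 + p.2) * (p.1 + p.2)) (by fun_prop),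
        ip (1 / 187500) 0 (4 / 25) 0 0 0 0 0 _ _ fun x => by
          rw [ip (x ^ 2) (2 * x) 1 0 0 0 0 0 _ _ fun y => by ring]; ring]; norm_num)
      (by norm_num))
  have h2 : (3.14 / 2) ^ 2 ≤ mu (Ioo 0 (2 * (k : ℝ)) ×ˢ Sq) k := by
    refine le_csInf ⟨_, trial hk Subset.rfl (A := 4) (B := 8 / 3) (β := 3) (by norm_num)
      (by norm_num) (by norm_num) ?_ ?_ ?_ (by norm_num)⟩ ?_
    · rw [int_Sq continuous_const]; norm_num
    · rw [int_Sq (by fun_prop), ip 0 2 0 0 0 0 0 0 _ _ fun y => by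
        rw [ip y 1 0 0 0 0 0 0 _ _ fun x => by ring]; ring]; norm_num
    · rw [int_Sq (G := fun p => (p.1 + p.2) * (p.1 + p.2)) (by fun_prop),
        ip (2 / 3) 0 2 0 0 0 0 0 _ _ fun y => by
        rw [ip (y ^ 2) (2 * y) 1 0 0 0 0 0 _ _ fun x => by ring]; ring]; norm_num
    · rintro l ⟨u, hu, hl⟩
      exact lower hu hl
  have h3 : 0 < mu (Ioo 0 (2 * (k : ℝ)) ×ˢ Sq) k := lt_of_lt_of_le (by norm_num) h2
  have hs : Ioo 0 (2 * (k : ℝ)) ×ˢ Pg ⊆ Ioo 0 (2 * (k : ℝ)) ×ˢ Sq := prod_mono Subset.rfl Pg_sub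
  refine ⟨_, _, ⟨⟨_, h0⟩, isOpen_Ioo.prod Pg_open, (convex_Ioo _ _).prod Pg_conv, hb.subset hs⟩,
    ⟨⟨_, hs h0⟩, isOpen_Ioo.prod (isOpen_Ioo.prod isOpen_Ioo),
      (convex_Ioo _ _).prod ((convex_Ioo _ _).prod (convex_Ioo _ _)), hb⟩, hs, h3, ?_⟩
  rw [div_le_iff₀ h3]
  nlinarith [Real.pi_lt_d2, Real.pi_pos]

end

end Pool.Agent.H58.Cy
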