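import Mathlib

set_option autoImplicit false

namespace Pool.Agent.H58.Dc

open scoped ENNReal

open Classical in
/-- `|A ∩ [1, n^q]|`. -/
noncomputable def cnt (q : ℝ) (A : Set ℕ) (n : ℕ) : ℕ :=
  ((Finset.Icc 1 ⌊(n : ℝ) ^ q⌋₊).filter (· ∈ A)).card

/-- The lower `q`-density `liminf |A ∩ [1, n^q]| / n`, in `[0, ∞]`. -/
noncomputable def ld (q : ℝ) (A : Set ℕ) : ℝ≥0∞ :=
  Filter.liminf (fun n : ℕ => (cnt q A n : ℝ≥0∞) / n) Filter.atTop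

variable {𝕜 X : Type} [RCLike 𝕜] [NormedAddCommGroup X] [NormedSpace 𝕜 X]

/-- `S` is an uncountable `λ`-distributionally scrambled set for `T`. -/
def Scr (l : ℝ) (T : X →L[𝕜] X) (S : Set X) : Prop :=
  ¬ S.Countable ∧ ∃ σ : ℝ, 0 < σ ∧ ∀ x ∈ S, ∀ y ∈ S, x ≠ y →
    ld (1 / l) {j | ‖(T ^ j) x - (T ^ j) y‖ < σ} = 0 ∧
    ∀ ε : ℝ, 0 < ε → ld (1 / l) {j | ε < ‖(T ^ j) x - (T ^ j) y‖} = 0

/-- There are bounded positive weights `w` and a bounded operator `T` with `T (e 0) = 0`,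
`T (e (n+1)) = w (n+1) e n`, densely `l`-distributionally chaotic and not `l'`-distributionally
chaotic for any `l' ∈ (0, l)`. -/
def Exact (𝕜 : Type) {X : Type} [RCLike 𝕜] [NormedAddCommGroup X] [NormedSpace 𝕜 X] (e : ℕ → X) (l : ℝ) : Prop :=
  ∃ w : ℕ → ℝ, (∀ n, 0 < w n) ∧ BddAbove (Set.range w) ∧ ∃ T : X →L[𝕜] X,
    T (e 0) = 0 ∧ (∀ n, T (e (n + 1)) = (w (n + 1) : 𝕜) • e n) ∧
    (∃ S, Dense S ∧ Scr l T S) ∧ ∀ l' : ℝ, 0 < l' → l' < l → ¬ ∃ S, Scr l' T S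

/-- The canonical basis vector of `c₀(ℕ)`. -/
noncomputable def e0 (𝕜 : Type) [RCLike 𝕜] (n : ℕ) : ZeroAtInftyContinuousMap ℕ 𝕜 where
  toFun m := if m = n then 1 else 0
  continuous_toFun := continuous_of_discreteTopology
  zero_at_infty' := by
    rw [Filter.cocompact_eq_cofinite, Nat.cofinite_eq_atTop]
    exact tendsto_const_nhds.congr' ((Filter.eventually_gt_atTop n).mono fun m hm => (if_neg hm.ne').symm)

end Pool.Agent.H58.Dc
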