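import Mathlib
import Pool.Agent.H58.DcDefs

set_option autoImplicit false

namespace Pool.Agent.H58.Dc

open Finset

theorem cnt_le {q : ℝ} {A : Set ℕ} {n : ℕ} (t : Finset ℕ)
    (h : ∀ j, 1 ≤ j → j ≤ ⌊(n : ℝ) ^ q⌋₊ → j ∈ A → j ∈ t) : cnt q A n ≤ t.card := by
  refine card_le_card fun j hj => ?_
  simp only [mem_filter, mem_Icc] at hj
  exact h j hj.1.1 hj.1.2 hj.2

theorem cnt_mono {q : ℝ} {A B : Set ℕ} (j0 n : ℕ) (h : ∀ j, j0 ≤ j → j ∈ A → j ∈ B) :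
    cnt q A n ≤ j0 + cnt q B n := by
  classical
  refine (cnt_le (range j0 ∪ (Icc 1 ⌊(n : ℝ) ^ q⌋₊).filter (· ∈ B)) fun j h1 h2 h3 => ?_).trans
    ((card_union_le _ _).trans (by rw [card_range]; unfold cnt; convert le_rfl))
  simp only [mem_union, mem_range, mem_filter, mem_Icc]
  rcases lt_or_ge j j0 with h4 | h4
  · exact Or.inl h4
  · exact Or.inr ⟨⟨h1, h2⟩, h j h4 h3⟩

noncomputable def Dl (l : ℝ) (m : ℕ) : ℕ := ⌊l * m ^ 3 - 2 * m ^ 2⌋₊

theorem Dl_step {l : ℝ} (h0 : 0 < l) (h1 : l ≤ 1) (m : ℕ) :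
    Dl l m ≤ Dl l (m + 1) ∧ Dl l (m + 1) + m ^ 3 ≤ Dl l m + (m + 1) ^ 3 := by
  have hm : (0 : ℝ) ≤ m := Nat.cast_nonneg m
  constructor
  · rcases le_or_gt (l * m) 2 with h | h
    · rw [Dl, Nat.floor_of_nonpos (by nlinarith [sq_nonneg (m : ℝ)])]; exact Nat.zero_le _
    · refine Nat.floor_mono ?_
      push_cast
      nlinarith [mul_nonneg hm hm, mul_nonneg h0.le hm]
  · rw [show Dl l m + (m + 1) ^ 3 = (Dl l m + (3 * m ^ 2 + 3 * m + 1)) + m ^ 3 by ring, add_le_add_iff_right]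
    refine Nat.floor_le_of_le ?_
    have := Nat.lt_floor_add_one (l * m ^ 3 - 2 * m ^ 2)
    push_cast [Dl]
    nlinarith [mul_nonneg hm hm]

noncomputable def F (l : ℝ) (k : ℕ) : ℕ → Finset ℕ
  | 0 => range (k + 1)
  | m + 1 => (F l k m ×ˢ range (k * (2 ^ (Dl l (m + 1) - Dl l m) - 1) + 1)).image
      fun x => x.1 + x.2 * 2 ^ (m ^ 3 + 1)

theorem mem_F {l : ℝ} {k m n : ℕ} : n ∈ F l k (m + 1) ↔
    ∃ x ∈ F l k m, ∃ a ≤ k * (2 ^ (Dl l (m + 1) - Dl l m) - 1), x + a * 2 ^ (m ^ 3 + 1) = n := by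
  simp [F, and_assoc]

theorem F_mono (l : ℝ) (k : ℕ) : Monotone (F l k) :=
  monotone_nat_of_le_succ fun m n hn => mem_F.2 ⟨n, hn, 0, Nat.zero_le _, by simp⟩

theorem F_add (l : ℝ) (k k' m : ℕ) : ∀ x ∈ F l k m, ∀ y ∈ F l k' m, x + y ∈ F l (k + k') m := by
  induction m with
  | zero => simp only [F, mem_range]; omega
  | succ m ih =>
    intro x hx y hy
    obtain ⟨x, hx', a, ha, rfl⟩ := mem_F.1 hx
    obtain ⟨y, hy', b, hb, rfl⟩ := mem_F.1 hy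
    exact mem_F.2 ⟨_, ih x hx' y hy', a + b, by rw [add_mul]; omega, by ring⟩

theorem F_zero (l : ℝ) (k m : ℕ) : 0 ∈ F l k m := F_mono l k (Nat.zero_le m) (by simp [F])

theorem F_down (l : ℝ) (k m : ℕ) {n : ℕ} (hn : n < 2 ^ (m ^ 3 + 1)) (m' : ℕ) (h : n ∈ F l k m') : n ∈ F l k m := by
  rcases le_total m' m with h' | h'
  · exact F_mono l k h' h
  induction m', h' using Nat.le_induction with
  | base => exact h
  | succ m' hm ih =>
    obtain ⟨x, hx, a, -, rfl⟩ := mem_F.1 h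
    have : 2 ^ (m ^ 3 + 1) ≤ 2 ^ (m' ^ 3 + 1) := by gcongr; norm_num
    rcases Nat.eq_zero_or_pos a with rfl | ha
    · exact ih (by simpa using hx) |> fun h => by simpa using h
    · have := Nat.le_mul_of_pos_left (2 ^ (m' ^ 3 + 1)) ha
      omega

theorem F_card {l : ℝ} (h0 : 0 < l) (h1 : l ≤ 1) (k m : ℕ) : (F l k m).card ≤ (k + 1) ^ (m + 1) * 2 ^ Dl l m := by
  induction m with
  | zero => simp [F, Dl]
  | succ m ih =>
    refine card_image_le.trans ?_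
    rw [card_product, card_range]
    obtain ⟨d, hd⟩ := Nat.exists_eq_add_of_le (Dl_step h0 h1 m).1
    rw [hd, Nat.add_sub_cancel_left, pow_add 2, pow_succ _ (m + 1), mul_mul_mul_comm]
    refine Nat.mul_le_mul ih ?_
    have := Nat.one_le_two_pow (n := d)
    have := Nat.mul_le_mul_left k (Nat.sub_le (2 ^ d) 1)
    nlinarith

theorem F_one {l : ℝ} (h0 : 0 < l) (h1 : l ≤ 1) (m : ℕ) :
    (∀ n ∈ F l 1 m, n < 2 ^ (m ^ 3 + 1)) ∧ (F l 1 m).card = 2 ^ (Dl l m + 1) := by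
  induction m with
  | zero => simp [F, Dl]
  | succ m ih =>
    obtain ⟨d, hd⟩ := Nat.exists_eq_add_of_le (Dl_step h0 h1 m).1
    have h2 := (Dl_step h0 h1 m).2
    have h3 := Nat.one_le_two_pow (n := d)
    constructor
    · intro n hn
      obtain ⟨x, hx, a, ha, rfl⟩ := mem_F.1 hn
      rw [hd, Nat.add_sub_cancel_left, one_mul] at ha
      have h4 : 2 ^ d * 2 ^ (m ^ 3 + 1) ≤ 2 ^ ((m + 1) ^ 3 + 1) := by
        rw [← pow_add]; exact Nat.pow_le_pow_right (by norm_num) (by omega)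
      have := Nat.mul_le_mul_right (2 ^ (m ^ 3 + 1)) (show a + 1 ≤ 2 ^ d by omega)
      have := ih.1 x hx
      nlinarith
    · rw [F, card_image_of_injOn, card_product, card_range, ih.2, hd, Nat.add_sub_cancel_left, one_mul,
        Nat.sub_add_cancel h3]
      · ring
      · rintro ⟨x, a⟩ hx ⟨y, b⟩ hy e
        have hx := ih.1 x (mem_product.1 hx).1
        have hy := ih.1 y (mem_product.1 hy).1
        have e1 := congrArg (· % 2 ^ (m ^ 3 + 1)) e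
        simp only [Nat.add_mul_mod_self_right, Nat.mod_eq_of_lt hx, Nat.mod_eq_of_lt hy] at e1
        subst e1
        simpa using e

open Classical in
theorem core {l : ℝ} (h0 : 0 < l) (h1 : l ≤ 1) : ∃ (L : ℕ → ℕ) (J : Set ℕ), L 0 = 0 ∧ 1 ∈ J ∧
    (∀ j ∈ J, ∀ n, L (n + j) ≤ L n + 1) ∧
    (∀ l', 0 < l' → l' < l → ∀ᶠ n : ℕ in Filter.atTop, n ≤ cnt (1 / l') J n + 1) ∧
    ∀ k : ℕ, ∃ n ≥ k, k * cnt (1 / l) {j | 2 ^ L j < (j + 1) ^ 3} n ≤ n := by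
  have hex : ∀ n, ∃ k m, n ∈ F l k m := fun n => ⟨n, 0, by simp [F]⟩
  refine ⟨fun n => Nat.find (hex n), {j | ∃ m, j ∈ F l 1 m}, (Nat.find_eq_zero _).2 ⟨0, F_zero _ _ _⟩,
    ⟨0, by simp [F]⟩, ?_, ?_, ?_⟩
  · rintro j ⟨m, hm⟩ n
    obtain ⟨m', hm'⟩ := Nat.find_spec (hex n)
    exact Nat.find_min' _ ⟨max m m', F_add _ _ _ _ _ (F_mono _ _ (le_max_right _ _) hm') _
      (F_mono _ _ (le_max_left _ _) hm)⟩
  · intro l' h2 h3
    obtain ⟨m0, hm0⟩ := exists_nat_ge (10 / (l - l'))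
    rw [div_le_iff₀ (by linarith)] at hm0
    filter_upwards [Filter.eventually_ge_atTop (2 ^ ((m0 + 1) ^ 3 + 1))] with n hn
    have hn1 : (1 : ℝ) ≤ n := by exact_mod_cast Nat.one_le_two_pow.trans hn
    have hN : n ≤ ⌊(n : ℝ) ^ (1 / l')⌋₊ := Nat.le_floor (by
      simpa using Real.rpow_le_rpow_of_exponent_le hn1 (show 1 ≤ 1 / l' by rw [le_div_iff₀ h2]; linarith))
    have hb : ∃ m, ⌊(n : ℝ) ^ (1 / l')⌋₊ < 2 ^ (m ^ 3 + 1) := ⟨⌊(n : ℝ) ^ (1 / l')⌋₊, by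
      refine Nat.lt_two_pow_self.trans_le (Nat.pow_le_pow_right (by norm_num) ?_)
      exact (Nat.le_self_pow (by norm_num) _).trans (Nat.le_succ _)⟩
    have hm1 : m0 + 1 < Nat.find hb := (Nat.lt_find_iff _ _).2 fun m hm h => by
      have : 2 ^ (m ^ 3 + 1) ≤ 2 ^ ((m0 + 1) ^ 3 + 1) := by gcongr; norm_num
      omega
    obtain ⟨m, hm⟩ : ∃ m, Nat.find hb = m + 1 := ⟨Nat.find hb - 1, by omega⟩
    have h4 := Nat.find_spec hb
    have h5 := not_lt.1 (Nat.find_min hb (show m < Nat.find hb by omega))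
    rw [hm] at h4 hm1
    have h6 : (F l 1 m).erase 0 ⊆ (Icc 1 ⌊(n : ℝ) ^ (1 / l')⌋₊).filter (· ∈ {j | ∃ m, j ∈ F l 1 m}) := fun j hj => by
      obtain ⟨a, b⟩ := mem_erase.1 hj
      have := (F_one h0 h1 m).1 j b
      exact mem_filter.2 ⟨mem_Icc.2 ⟨by omega, by omega⟩, m, b⟩
    have h7 := card_le_card h6
    rw [card_erase_of_mem (F_zero _ _ _), (F_one h0 h1 m).2] at h7
    have h8 : (n : ℝ) ≤ 2 ^ (Dl l m + 1) := by
      have a1 : (n : ℝ) ^ (1 / l') ≤ 2 ^ (((m + 1) ^ 3 + 1 : ℕ) : ℝ) := by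
        rw [Real.rpow_natCast]
        exact (Nat.lt_floor_add_one _).le.trans (by exact_mod_cast h4)
      have a2 := Real.rpow_le_rpow (by positivity) a1 h2.le
      rw [← Real.rpow_mul (by positivity), one_div_mul_cancel h2.ne', Real.rpow_one,
        ← Real.rpow_mul (by positivity)] at a2
      refine a2.trans ?_
      rw [← Real.rpow_natCast]
      refine Real.rpow_le_rpow_of_exponent_le (by norm_num) ?_
      have a3 := Nat.lt_floor_add_one (l * m ^ 3 - 2 * m ^ 2)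
      have a4 : (m0 : ℝ) + 1 ≤ m := by exact_mod_cast (show m0 + 1 ≤ m by omega)
      have a5 : (0 : ℝ) ≤ m0 := Nat.cast_nonneg _
      have a6 : 10 * (m : ℝ) ^ 2 ≤ m * (l - l') * m ^ 2 := by gcongr; nlinarith
      have a7 : (3 * (m : ℝ) ^ 2 + 3 * m + 2) * l' ≤ (3 * m ^ 2 + 3 * m + 2) * 1 := by gcongr; linarith
      push_cast [Dl]
      nlinarith
    have h9 : n ≤ 2 ^ (Dl l m + 1) := by exact_mod_cast h8
    unfold cnt
    omega
  · intro k
    obtain ⟨m0, hm0⟩ := exists_nat_ge (3 / l)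
    rw [div_le_iff₀ h0] at hm0
    obtain ⟨m, hm1, hm2, hm3⟩ : ∃ m, m0 ≤ m ∧ k ≤ m ∧ 16 ≤ m := ⟨m0 + k + 16, by omega, by omega, by omega⟩
    have hp : 3 * m ^ 3 + 4 ≤ 2 ^ m := by
      clear * - hm3
      induction m, hm3 using Nat.le_induction with
      | base => norm_num
      | succ m hm ih => rw [pow_succ 2]; nlinarith [Nat.mul_le_mul hm (le_refl (m ^ 2))]
    have hm : (16 : ℝ) ≤ m := by exact_mod_cast hm3
    have hlm : 3 ≤ l * m := by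
      have : (m0 : ℝ) ≤ m := by exact_mod_cast hm1
      nlinarith
    have hD : (Dl l m : ℝ) ≤ l * m ^ 3 - 2 * m ^ 2 := Nat.floor_le (by nlinarith [sq_nonneg (m : ℝ)])
    have hn : 2 ^ (Dl l m + 2 * m ^ 2) ≤ ⌊(2 : ℝ) ^ (((m ^ 3 + 1 : ℕ) : ℝ) * l)⌋₊ := Nat.le_floor (by
      rw [Nat.cast_pow, Nat.cast_ofNat, ← Real.rpow_natCast]
      refine Real.rpow_le_rpow_of_exponent_le (by norm_num) ?_
      push_cast; nlinarith)
    have hN : ⌊((⌊(2 : ℝ) ^ (((m ^ 3 + 1 : ℕ) : ℝ) * l)⌋₊ : ℕ) : ℝ) ^ (1 / l)⌋₊ ≤ 2 ^ (m ^ 3 + 1) := by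
      refine Nat.floor_le_of_le ((Real.rpow_le_rpow (by positivity) (Nat.floor_le (by positivity))
        (by positivity)).trans ?_)
      rw [← Real.rpow_mul (by norm_num), mul_assoc, mul_one_div_cancel h0.ne', mul_one, Real.rpow_natCast]
      norm_num
    generalize ⌊(2 : ℝ) ^ (((m ^ 3 + 1 : ℕ) : ℝ) * l)⌋₊ = n at hn hN
    have hc : cnt (1 / l) {j | 2 ^ Nat.find (hex j) < (j + 1) ^ 3} n ≤ 2 ^ (m ^ 2 + m) * 2 ^ Dl l m + 1 := by
      refine (cnt_le (insert (2 ^ (m ^ 3 + 1)) (F l (3 * m ^ 3 + 3) m)) fun j _ a b => ?_).trans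
        ((card_insert_le _ _).trans ?_)
      · rcases (a.trans hN).eq_or_lt with h | h
        · exact mem_insert.2 (Or.inl h)
        have hm'' : ∃ m', j ∈ F l (Nat.find (hex j)) m' := Nat.find_spec (hex j)
        obtain ⟨m', hm'⟩ := hm''
        have c : Nat.find (hex j) < (m ^ 3 + 1) * 3 := (Nat.pow_lt_pow_iff_right (show 1 < 2 by norm_num)).1
          (lt_of_lt_of_le (show 2 ^ Nat.find (hex j) < (j + 1) ^ 3 from b)
            (by rw [pow_mul]; exact Nat.pow_le_pow_left h 3))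
        have := F_add l _ (3 * m ^ 3 + 3 - Nat.find (hex j)) m j (F_down _ _ _ h _ hm') 0 (F_zero _ _ _)
        rw [Nat.add_sub_cancel' (by omega)] at this
        exact mem_insert_of_mem this
      · refine Nat.succ_le_succ ((F_card h0 h1 _ _).trans (Nat.mul_le_mul_right _ ?_))
        rw [show m ^ 2 + m = m * (m + 1) by ring, pow_mul]
        exact Nat.pow_le_pow_left hp _
    have h2 : m ≤ 2 ^ m := Nat.lt_two_pow_self.le
    have h3 : 2 ^ m * (2 ^ (m ^ 2 + m) * 2 ^ Dl l m * 2) ≤ 2 ^ (Dl l m + 2 * m ^ 2) := by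
      rw [← pow_add, ← pow_succ, ← pow_add]
      exact Nat.pow_le_pow_right (by norm_num) (by nlinarith)
    have h4 : 1 ≤ 2 ^ (m ^ 2 + m) * 2 ^ Dl l m := Nat.pos_of_ne_zero (by positivity)
    have h5 : k * (2 ^ (m ^ 2 + m) * 2 ^ Dl l m + 1) ≤ n :=
      (Nat.mul_le_mul (hm2.trans h2) (by omega)).trans (h3.trans hn)
    exact ⟨n, le_trans (Nat.le_mul_of_pos_right _ (by omega)) h5, (Nat.mul_le_mul_left _ hc).trans h5⟩

end Pool.Agent.H58.Dc
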