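import Mathlib
import Pool.Agent.H58.Dc1

set_option autoImplicit false

namespace Pool.Agent.H58.Dc

open Finset Filter Topology
open scoped ENNReal

theorem ld_zero {q : ℝ} {A : Set ℕ} (j0 k0 : ℕ) (h : ∀ k ≥ k0, ∃ n ≥ k, k * cnt q A n ≤ k * j0 + n) : ld q A = 0 := by
  refine le_antisymm (ENNReal.le_of_forall_pos_le_add fun ε hε _ => ?_) zero_le
  rw [zero_add]
  refine liminf_le_of_frequently_le' (frequently_atTop.2 fun M => ?_)
  obtain ⟨k, hk⟩ := exists_nat_ge ((j0 + 1 : ℝ) / ε)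
  obtain ⟨n, hn, h1⟩ := h (k + k0 + M + 1) (by omega)
  refine ⟨n, by omega, ?_⟩
  have hε' : (0 : ℝ) < ε := hε
  rw [div_le_iff₀ hε'] at hk
  have h2 : ((k + k0 + M + 1 : ℕ) : ℝ) * cnt q A n ≤ (k + k0 + M + 1 : ℕ) * j0 + n := by exact_mod_cast h1
  have h3 : ((k + k0 + M + 1 : ℕ) : ℝ) ≤ n := by exact_mod_cast hn
  have h4 : (k : ℝ) ≤ (k + k0 + M + 1 : ℕ) := by exact_mod_cast (by omega)
  have h5 : (0 : ℝ) < (k + k0 + M + 1 : ℕ) := by positivity
  generalize ((k + k0 + M + 1 : ℕ) : ℝ) = K at *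
  have h6 : (cnt q A n : ℝ) ≤ ε * n := by
    refine le_of_mul_le_mul_left (h2.trans ?_) h5
    have : K * j0 ≤ n * j0 := by gcongr
    have : n * (j0 + 1 : ℝ) ≤ n * (K * ε) := by gcongr; nlinarith
    nlinarith
  refine ENNReal.div_le_of_le_mul ?_
  exact_mod_cast h6

theorem ld_ne {q : ℝ} {A : Set ℕ} (c : ℕ) (h : ∀ᶠ n : ℕ in atTop, n ≤ cnt q A n + c) : ld q A ≠ 0 := by
  refine ne_of_gt (lt_of_lt_of_le (show (0 : ℝ≥0∞) < 1 / 2 by simp) (le_liminf_of_le (by isBoundedDefault) ?_))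
  filter_upwards [h, eventually_ge_atTop (2 * c + 1)] with n h1 h2
  rw [ENNReal.le_div_iff_mul_le (Or.inl (by simp; omega)) (Or.inl (by simp)), one_div, mul_comm,
    ← div_eq_mul_inv]
  refine ENNReal.div_le_of_le_mul ?_
  exact_mod_cast (show n ≤ cnt q A n * 2 by omega)

variable {𝕜 X : Type} [RCLike 𝕜] [NormedAddCommGroup X] [NormedSpace 𝕜 X]

theorem isOpen_cnt (q : ℝ) (P : ℕ → Set X) (hP : ∀ j, IsClosed (P j)) (k : ℕ) :
    IsOpen {x | ∃ n ≥ k, k * cnt q {j | x ∈ P j} n ≤ n} := by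
  classical
  refine isOpen_iff_mem_nhds.2 fun x ⟨n, hn, h⟩ => ?_
  have : ∀ᶠ y in 𝓝 x, ∀ j ∈ Icc 1 ⌊(n : ℝ) ^ q⌋₊, y ∈ P j → x ∈ P j := by
    rw [eventually_all_finset]
    intro j _
    by_cases hx : x ∈ P j
    · exact Eventually.of_forall fun _ _ => hx
    · exact (show ∀ᶠ y in 𝓝 x, y ∈ (P j)ᶜ from (hP j).isOpen_compl.mem_nhds hx).mono fun y hy h => absurd h hy
  refine this.mono fun y hy => ⟨n, hn, (Nat.mul_le_mul_left _ (cnt_le _ fun j h1 h2 h3 => ?_)).trans h⟩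
  simp only [mem_filter, mem_Icc]
  exact ⟨⟨h1, h2⟩, hy j (mem_Icc.2 ⟨h1, h2⟩) h3⟩

theorem abst [CompleteSpace X] (e : ℕ → X) (c : ℕ → X →L[𝕜] 𝕜) (hc : ∀ n x, ‖c n x‖ ≤ ‖x‖) (he : ∀ n, ‖e n‖ ≤ 1)
    (hce : ∀ m n, c m (e n) = if m = n then 1 else 0) (hd : Dense (Submodule.span 𝕜 (Set.range e) : Set X))
    (hi : ∀ x y, (∀ n, c n x = c n y) → x = y)
    (hs : ∀ x (y : ℕ → 𝕜) (C : ℝ) j, 0 ≤ C → (∀ n, ‖y n‖ ≤ C * ‖c (n + j) x‖) → ∃ z, (∀ n, c n z = y n) ∧ ‖z‖ ≤ C * ‖x‖)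
    {l : ℝ} (h0 : 0 < l) (h1 : l ≤ 1) : Exact 𝕜 e l := by
  obtain ⟨L, J, L0, J1, hL, hJ, hS⟩ := core h0 h1
  let r : ℕ → ℕ → ℝ := fun n j => 2 ^ L (n + j) / 2 ^ L n
  have r0 : ∀ n j, 0 < r n j := fun n j => by positivity
  have r2 : ∀ j ∈ J, ∀ n, r n j ≤ 2 := fun j hj n => by
    rw [div_le_iff₀ (by positivity), ← pow_succ']; exact pow_le_pow_right₀ (by norm_num) (hL j hj n)
  have key : ∀ j ∈ J, ∀ x, ∃ z, (∀ n, c n z = (r n j : 𝕜) * c (n + j) x) ∧ ‖z‖ ≤ 2 * ‖x‖ := fun j hj x =>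
    hs x _ 2 j (by norm_num) fun n => by
      rw [norm_mul, RCLike.norm_ofReal, abs_of_pos (r0 n j)]; gcongr; exact r2 j hj n
  choose T0 hT0 hT0' using key 1 J1
  let T : X →L[𝕜] X := LinearMap.mkContinuous
    { toFun := T0
      map_add' := fun x y => hi _ _ fun n => by simp [hT0, mul_add]
      map_smul' := fun a x => hi _ _ fun n => by simp [hT0]; ring } 2 hT0'
  have hT : ∀ j x n, c n ((T ^ j) x) = (r n j : 𝕜) * c (n + j) x := by
    intro j
    induction j with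
    | zero => simp [r]
    | succ j ih =>
      intro x n
      rw [pow_succ, mul_apply_eq_comp, ih, show T x = T0 x from rfl, hT0, ← mul_assoc, ← RCLike.ofReal_mul]
      simp only [r, add_assoc]
      congr 2; field_simp
  have hTJ : ∀ j ∈ J, ∀ x, ‖(T ^ j) x‖ ≤ 2 * ‖x‖ := fun j hj x => by
    obtain ⟨z, h2, h3⟩ := key j hj x
    rwa [hi ((T ^ j) x) z fun n => by rw [hT, h2]]
  have hW : ∀ y ∈ Submodule.span 𝕜 (Set.range e), ∃ N, ∀ j ≥ N, (T ^ j) y = 0 := by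
    intro y hy
    induction hy using Submodule.span_induction with
    | mem x hx =>
      obtain ⟨n, rfl⟩ := hx
      exact ⟨n + 1, fun j hj => hi _ _ fun m => by rw [hT, hce, if_neg (by omega)]; simp⟩
    | zero => exact ⟨0, by simp⟩
    | add x y _ _ hx hy =>
      obtain ⟨N, hN⟩ := hx; obtain ⟨M, hM⟩ := hy
      exact ⟨N + M, fun j hj => by rw [map_add, hN j (by omega), hM j (by omega), add_zero]⟩
    | smul a x _ hx => obtain ⟨N, hN⟩ := hx; exact ⟨N, fun j hj => by rw [map_smul, hN j hj, smul_zero]⟩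
  refine ⟨fun n => r (n - 1) 1, fun n => r0 _ _, ⟨2, by rintro _ ⟨n, rfl⟩; exact r2 1 J1 _⟩, T,
    hi _ _ fun n => ?_, fun m => hi _ _ fun n => ?_, ?_, ?_⟩
  · simpa [hce] using hT 1 (e 0) n
  · have := hT 1 (e (m + 1)) n
    rw [pow_one] at this
    rw [this, map_smul, hce, hce]
    by_cases h : n = m <;> simp [h]
  swap
  · rintro l' h2 h3 ⟨S, hS1, σ, hσ, hS2⟩
    obtain ⟨x, hx, y, hy, hxy⟩ : S.Nontrivial := Set.not_subsingleton_iff.1 fun h => hS1 h.countable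
    obtain ⟨z, hz, hz'⟩ := Metric.dense_iff.1 hd (x - y) (σ / 2) (by positivity)
    obtain ⟨N, hN⟩ := hW z hz'
    refine ld_ne (N + 1) ((hJ l' h2 h3).mono fun n hn => ?_) (hS2 x hx y hy hxy).1
    have := cnt_mono (q := 1 / l') (B := {j | ‖(T ^ j) x - (T ^ j) y‖ < σ}) N n fun j hj (hj' : j ∈ J) => by
      have h4 := hTJ j hj' (z - (x - y))
      rw [map_sub, hN j hj, zero_sub, norm_neg, map_sub] at h4
      rw [mem_ball_iff_norm] at hz
      exact h4.trans_lt (by linarith)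
    omega
  let a : ℕ → ℝ := fun j => if 2 ^ L j < (j + 1) ^ 3 then 0 else (j + 1) / 2 ^ L j
  have ha : ∀ j, 0 ≤ a j ∧ a j ≤ 1 / ((j + 1 : ℕ) : ℝ) ^ 2 := fun j => by
    simp only [a]
    split_ifs with h
    · exact ⟨le_rfl, by positivity⟩
    · have : ((j : ℝ) + 1) ^ 3 ≤ 2 ^ L j := by exact_mod_cast not_lt.1 h
      refine ⟨by positivity, ?_⟩
      rw [div_le_div_iff₀ (by positivity) (by positivity)]; push_cast; nlinarith
  have hsum : Summable fun j => (a j : 𝕜) • e j :=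
    .of_norm_bounded ((summable_nat_add_iff 1).2 (Real.summable_one_div_nat_pow.2 one_lt_two)) fun j => by
      rw [norm_smul, RCLike.norm_ofReal, abs_of_nonneg (ha j).1]
      exact (mul_le_of_le_one_right (ha j).1 (he j)).trans (ha j).2
  obtain ⟨u, hu⟩ : ∃ u : X, ∀ j, c j u = a j := ⟨_, fun j => by
    rw [(c j).map_tsum hsum, tsum_eq_single j fun i hi => by simp [hce, hi.symm]]; simp [hce]⟩
  have hR1 : ∀ k : ℕ, Dense {x | ∃ n ≥ k, k * cnt (1 / l) {j | x ∈ {x | ‖(T ^ j) x‖ ≤ k}} n ≤ n} := fun k => by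
    refine Metric.dense_iff.2 fun x ε hε => ?_
    obtain ⟨z, hz, hz'⟩ := Metric.dense_iff.1 hd (x - u) ε hε
    obtain ⟨N, hN⟩ := hW z hz'
    obtain ⟨n, hn, h2⟩ := hS (2 * k * (N + k + 1))
    refine ⟨z + u, by rw [mem_ball_iff_norm, ← sub_add, sub_add_eq_add_sub] at hz; exact mem_ball_iff_norm.2 hz, n, by nlinarith, ?_⟩
    have := cnt_mono (q := 1 / l) (A := {j | z + u ∈ {x | ‖(T ^ j) x‖ ≤ k}}) (B := {j | 2 ^ L j < (j + 1) ^ 3})
      (N + k) n fun j hj hj' => by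
        by_contra h3
        have h4 := (hc 0 _).trans (show ‖(T ^ j) (z + u)‖ ≤ k from hj')
        rw [map_add, hN j (by omega), zero_add, hT, zero_add, hu, ← RCLike.ofReal_mul, RCLike.norm_ofReal] at h4
        simp only [r, a, if_neg (show ¬ 2 ^ L j < (j + 1) ^ 3 from h3), L0, zero_add, pow_zero, div_one] at h4
        rw [mul_div_cancel₀ _ (by positivity), abs_of_pos (by positivity)] at h4
        have : j + 1 ≤ k := by exact_mod_cast h4
        omega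
    nlinarith [Nat.mul_le_mul_left k this, Nat.zero_le (k * (N + k) * cnt (1 / l) {j | 2 ^ L j < (j + 1) ^ 3} n)]
  have hR2 : ∀ k : ℕ, Dense {x | ∃ n ≥ k, k * cnt (1 / l) {j | x ∈ {x | 1 / ((k : ℝ) + 1) ≤ ‖(T ^ j) x‖}} n ≤ n} :=
    fun k => hd.mono fun z hz => by
      obtain ⟨N, hN⟩ := hW z hz
      refine ⟨k * N + k, by omega, (Nat.mul_le_mul_left k (cnt_le (range N) fun j _ _ hj => ?_)).trans (by simp)⟩
      by_contra h
      have h4 : 1 / ((k : ℝ) + 1) ≤ ‖(T ^ j) z‖ := hj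
      rw [hN j (by simpa using h), norm_zero] at h4
      exact absurd h4 (not_le.2 (by positivity))
  obtain ⟨x, hx⟩ := (dense_iInter_of_isOpen (fun k => (isOpen_cnt (1 / l) _ (fun j =>
      isClosed_le (by fun_prop) continuous_const) k).inter (isOpen_cnt (1 / l) _ (fun j =>
      isClosed_le continuous_const (by fun_prop)) k)) fun k => (hR1 k).inter_of_isOpen_right (hR2 k)
        (isOpen_cnt (1 / l) _ (fun j => isClosed_le continuous_const (by fun_prop)) k)).nonempty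
  rw [Set.mem_iInter] at hx
  have good : ∀ y ∈ Submodule.span 𝕜 (Set.range e), ∀ s : ℝ, s ≠ 0 →
      ld (1 / l) {j | ‖(T ^ j) (y + (s : 𝕜) • x)‖ < 1} = 0 ∧
      ∀ ε : ℝ, 0 < ε → ld (1 / l) {j | ε < ‖(T ^ j) (y + (s : 𝕜) • x)‖} = 0 := by
    intro y hy s hs0
    obtain ⟨N, hN⟩ := hW y hy
    have hs' := abs_pos.2 hs0
    have e1 : ∀ j ≥ N, ‖(T ^ j) (y + (s : 𝕜) • x)‖ = |s| * ‖(T ^ j) x‖ := fun j hj => by
      rw [map_add, hN j hj, zero_add, map_smul, norm_smul, RCLike.norm_ofReal]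
    refine ⟨ld_zero N ⌈1 / |s|⌉₊ fun k hk => ?_, fun ε hε => ld_zero N ⌈|s| / ε⌉₊ fun k hk => ?_⟩
    · obtain ⟨n, hn, h2⟩ := (hx k).1
      refine ⟨n, hn, (Nat.mul_le_mul_left k (cnt_mono N n fun j hj hj' => ?_)).trans
        (by rw [mul_add]; exact Nat.add_le_add_left h2 _)⟩
      have h3 : ‖(T ^ j) (y + (s : 𝕜) • x)‖ < 1 := hj'
      have h4 := (div_le_iff₀ hs').1 (Nat.ceil_le.1 hk)
      rw [e1 j hj] at h3
      exact le_of_mul_le_mul_left (show |s| * ‖(T ^ j) x‖ ≤ |s| * k by linarith) hs'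
    · obtain ⟨n, hn, h2⟩ := (hx k).2
      refine ⟨n, hn, (Nat.mul_le_mul_left k (cnt_mono N n fun j hj hj' => ?_)).trans
        (by rw [mul_add]; exact Nat.add_le_add_left h2 _)⟩
      have h3 : ε < ‖(T ^ j) (y + (s : 𝕜) • x)‖ := hj'
      have h4 := (div_le_iff₀ hε).1 (Nat.ceil_le.1 hk)
      rw [e1 j hj] at h3
      show 1 / ((k : ℝ) + 1) ≤ ‖(T ^ j) x‖
      rw [div_le_iff₀ (by positivity)]
      refine le_of_mul_le_mul_left ?_ hε
      nlinarith [norm_nonneg ((T ^ j) x), mul_le_mul_of_nonneg_right h4 (norm_nonneg ((T ^ j) x))]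
  obtain ⟨D, hD1, hD2, hD3⟩ := (Set.countable_range e).isSeparable.span (R := 𝕜) |>.exists_countable_dense_subset
  obtain ⟨y, rfl⟩ := hD2.exists_eq_range (closure_nonempty_iff.1 ⟨0, hD3 (Submodule.zero_mem _)⟩)
  let g : ℝ → X := fun t => y (Nat.unpair ⌊1 / t⌋₊).1 + (t : 𝕜) • x
  have hg : ∀ t t', g t - g t' = (y (Nat.unpair ⌊1 / t⌋₊).1 - y (Nat.unpair ⌊1 / t'⌋₊).1) + ((t - t' : ℝ) : 𝕜) • x :=
    fun t t' => by simp only [g]; push_cast; module
  have hg' := fun t t' (h : t ≠ t') => good _ (Submodule.sub_mem _ (hD1 ⟨(Nat.unpair ⌊1 / t⌋₊).1, rfl⟩)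
    (hD1 ⟨(Nat.unpair ⌊1 / t'⌋₊).1, rfl⟩)) _ (sub_ne_zero.2 h)
  refine ⟨Set.range g, Metric.dense_iff.2 fun z ε hε => ?_, fun h => ?_, 1, one_pos, ?_⟩
  · obtain ⟨_, hz, m, rfl⟩ := Metric.dense_iff.1 (dense_closure.1 (hd.mono hD3)) z (ε / 2) (by positivity)
    obtain ⟨k, hk⟩ := exists_nat_gt (‖x‖ / (ε / 2))
    have h2 : (k : ℝ) + 1 ≤ Nat.pair m (k + 1) := by exact_mod_cast Nat.right_le_pair m (k + 1)
    have h3 : (0 : ℝ) < Nat.pair m (k + 1) := lt_of_lt_of_le (by positivity) h2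
    refine ⟨g (1 / Nat.pair m (k + 1)), ?_, _, rfl⟩
    simp only [g, one_div_one_div, Nat.floor_natCast, Nat.unpair_pair]
    rw [mem_ball_iff_norm] at hz ⊢
    rw [add_sub_right_comm]
    refine (norm_add_le _ _).trans_lt ?_
    rw [norm_smul, RCLike.norm_ofReal, abs_of_pos (by positivity), one_div, inv_mul_eq_div]
    have : ‖x‖ / Nat.pair m (k + 1) < ε / 2 := by
      rw [div_lt_iff₀ (by positivity)] at hk
      rw [div_lt_iff₀ h3]; nlinarith
    linarith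
  · refine Cardinal.not_countable_real ((Set.countable_of_injective_of_countable_image (f := g)
      (fun t _ t' _ e => ?_) (by simpa using h)))
    by_contra hne
    have := (hg' t t' hne).1
    rw [← hg, e, sub_self] at this
    refine ld_ne 0 (Eventually.of_forall fun n => ?_) this
    have h2 : n ≤ ⌊(n : ℝ) ^ (1 / l)⌋₊ := by
      rcases Nat.eq_zero_or_pos n with rfl | hn
      · exact Nat.zero_le _
      exact Nat.le_floor (by
        simpa using Real.rpow_le_rpow_of_exponent_le (show (1 : ℝ) ≤ n by exact_mod_cast hn)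
          (show 1 ≤ 1 / l by rw [le_div_iff₀ h0]; linarith))
    simpa [cnt] using h2
  · rintro _ ⟨t, rfl⟩ _ ⟨t', rfl⟩ hne
    simp only [← map_sub, hg]
    exact hg' t t' fun e => hne (by rw [e])

end Pool.Agent.H58.Dc
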