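import Mathlib
import Pool.Agent.H58.Dc2

set_option autoImplicit false

namespace Pool.Agent.H58.Dc

open Finset Filter Topology
open scoped ENNReal

theorem lp_case (𝕜 : Type) [RCLike 𝕜] (p : ℝ≥0∞) [Fact (1 ≤ p)] (hp : p ≠ ∞) {l : ℝ} (h0 : 0 < l) (h1 : l ≤ 1) :
    Exact 𝕜 (fun n => (lp.single p n (1 : 𝕜) : lp (fun _ : ℕ => 𝕜) p)) l := by
  have hp0 : p ≠ 0 := (zero_lt_one.trans_le Fact.out).ne'
  have hp' : 0 < p.toReal := ENNReal.toReal_pos hp0 hp
  refine abst _ (fun n => LinearMap.mkContinuous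
      { toFun := fun f => f n, map_add' := fun _ _ => rfl, map_smul' := fun _ _ => rfl } 1
      fun f => by simpa using lp.norm_apply_le_norm hp0 f n) (fun n f => lp.norm_apply_le_norm hp0 f n)
    (fun n => by simp [lp.norm_single (pos_iff_ne_zero.2 hp0)]) (fun m n => by simp [lp.single_apply, Pi.single_apply])
    (fun f => mem_closure_of_tendsto (lp.hasSum_single hp f) (Eventually.of_forall fun s =>
      Submodule.sum_mem _ fun i _ => ?_)) (fun x y h => lp.ext (funext h)) (fun x y C j hC h => ?_) h0 h1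
  · have := lp.single_smul (E := fun _ : ℕ => 𝕜) p i (f i) (1 : 𝕜)
    rw [smul_eq_mul, mul_one] at this
    exact this ▸ Submodule.smul_mem _ _ (Submodule.subset_span ⟨i, rfl⟩)
  · have key : ∀ s : Finset ℕ, ∑ i ∈ s, ‖y i‖ ^ p.toReal ≤ (C * ‖x‖) ^ p.toReal := fun s => by
      have h2 := lp.sum_rpow_le_norm_rpow hp' x (s.map (addRightEmbedding j))
      rw [sum_map] at h2
      rw [Real.mul_rpow hC (norm_nonneg _)]
      refine le_trans ?_ (mul_le_mul_of_nonneg_left h2 (by positivity))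
      rw [mul_sum]
      refine sum_le_sum fun i _ => ?_
      rw [← Real.mul_rpow hC (norm_nonneg _)]
      exact Real.rpow_le_rpow (norm_nonneg _) (h i) hp'.le
    exact ⟨⟨y, memℓp_gen' key⟩, fun n => rfl, lp.norm_le_of_forall_sum_le hp' (by positivity) key⟩

theorem c0_le {𝕜 : Type} [RCLike 𝕜] (f : ZeroAtInftyContinuousMap ℕ 𝕜) {C : ℝ} (hC : 0 ≤ C) :
    ‖f‖ ≤ C ↔ ∀ n, ‖f n‖ ≤ C := by
  rw [← ZeroAtInftyContinuousMap.norm_toBCF_eq_norm]; exact BoundedContinuousFunction.norm_le hC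

theorem c0_case (𝕜 : Type) [RCLike 𝕜] {l : ℝ} (h0 : 0 < l) (h1 : l ≤ 1) : Exact 𝕜 (e0 𝕜) l := by
  have hn : ∀ n (f : ZeroAtInftyContinuousMap ℕ 𝕜), ‖f n‖ ≤ ‖f‖ := fun n f => (c0_le f (norm_nonneg _)).1 le_rfl n
  have hz : ∀ f : ZeroAtInftyContinuousMap ℕ 𝕜, Tendsto f atTop (𝓝 0) := fun f => by
    simpa [Nat.cofinite_eq_atTop] using f.zero_at_infty'
  have he : ∀ m n, e0 𝕜 n m = if m = n then 1 else 0 := fun _ _ => rfl
  refine abst _ (fun n => LinearMap.mkContinuous
      { toFun := fun f => f n, map_add' := fun _ _ => rfl, map_smul' := fun _ _ => rfl } 1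
      fun f => by simpa using hn n f) hn
    (fun n => (c0_le _ zero_le_one).2 fun m => by rw [he]; split_ifs <;> simp) he
    (Metric.dense_iff.2 fun f ε hε => ?_) (fun x y h => DFunLike.ext _ _ h) (fun x y C j hC h => ?_) h0 h1
  · obtain ⟨N, hN⟩ := Metric.tendsto_atTop.1 (hz f) (ε / 2) (by positivity)
    refine ⟨∑ i ∈ range N, f i • e0 𝕜 i, mem_ball_iff_norm.2 (lt_of_le_of_lt
      ((c0_le _ (by positivity)).2 fun m => ?_) (half_lt_self hε)),
      Submodule.sum_mem _ fun i _ => Submodule.smul_mem _ _ (Submodule.subset_span ⟨i, rfl⟩)⟩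
    have : ∀ s : Finset ℕ, (∑ i ∈ s, f i • e0 𝕜 i) m = ∑ i ∈ s, f i * e0 𝕜 i m := fun s => by
      induction s using Finset.induction_on with
      | empty => rfl
      | insert a s ha ih => rw [sum_insert ha, sum_insert ha, ← ih]; rfl
    rw [ZeroAtInftyContinuousMap.sub_apply, this]
    simp only [he, mul_ite, mul_one, mul_zero, sum_ite_eq, mem_range]
    split_ifs with h
    · simp; positivity
    · simpa using (hN m (not_lt.1 h)).le
  · refine ⟨⟨⟨y, continuous_of_discreteTopology⟩, ?_⟩, fun n => rfl, (c0_le _ (by positivity)).2 fun n =>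
      (h n).trans (mul_le_mul_of_nonneg_left (hn _ x) hC)⟩
    rw [cocompact_eq_cofinite, Nat.cofinite_eq_atTop]
    refine squeeze_zero_norm h ?_
    simpa using (((hz x).comp (tendsto_add_atTop_nat j)).norm.const_mul C)

end Pool.Agent.H58.Dc
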