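import Mathlib

set_option autoImplicit false

namespace Pool.Agent.H58.Dk

open Polynomial

variable {F : Type} [Field F] [Fintype F]

/-- `F((t⁻¹))` is `LaurentSeries F` with variable `t⁻¹`: `x.coeff i` is the coefficient of `t^(-i)`.
`emb f` is the polynomial `f(t)` as such a series. -/
noncomputable def emb (f : F[X]) : LaurentSeries F :=
  f.eval₂ HahnSeries.C (HahnSeries.single (-1 : ℤ) (1 : F))

/-- The fractional part `⟨x⟩ = ∑_{i ≥ 1} a_i t^(-i)`. -/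
noncomputable def frac (x : LaurentSeries F) : LaurentSeries F where
  coeff i := if 1 ≤ i then x.coeff i else 0
  isPWO_support' := x.isPWO_support.mono fun i hi h => hi (by simp [h])

open Classical in
/-- `|x| = q^h` if the top term of `x` is `t^h`, and `|0| = 0`. -/
noncomputable def labs (x : LaurentSeries F) : ℝ :=
  if x = 0 then 0 else (Fintype.card F : ℝ) ^ (-x.order)

/-- The set `Bad(P, q)`; `|N| = q ^ deg N`. -/
def BadPq (P : F[X]) (Θ : LaurentSeries F) : Prop :=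
  ∃ c : ℝ, 0 < c ∧ ∀ N : F[X], N ≠ 0 → ∀ k : ℕ,
    c ≤ (Fintype.card F : ℝ) ^ N.natDegree * labs (frac (emb (N * P ^ k) * Θ))

variable (E : F ≃ Fin (Fintype.card F))

/-- `ev_q ⟨x⟩ = ∑_{i ≥ 1} E(a_i) q^(-i)`. -/
noncomputable def evL (x : LaurentSeries F) : ℝ :=
  ∑' i : ℕ, ((E ((frac x).coeff ((i : ℤ) + 1)) : ℕ) : ℝ) / (Fintype.card F : ℝ) ^ (i + 1)

/-- `ev_q(b) = ∑_j E(c_j) q^j`. -/
noncomputable def evP (b : F[X]) : ℕ :=
  ∑ j ∈ Finset.range (b.natDegree + 1), (E (b.coeff j) : ℕ) * Fintype.card F ^ j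

/-- `n(t) = ∑_i E⁻¹(d_i) t^i`, with `d_i = n / q^i % q` (zero for `i ≥ n`). -/
noncomputable def npoly (n : ℕ) : F[X] :=
  ∑ i ∈ Finset.range n, monomial i
    (E.symm ⟨n / Fintype.card F ^ i % Fintype.card F, Nat.mod_lt _ Fintype.card_pos⟩)

/-- The `i`-th digit `b_i` of `f` in base `B`: divide `i` times by `B`, then reduce mod `B`. -/
noncomputable def dig (B f : F[X]) (i : ℕ) : F[X] := (fun g => g / B)^[i] f % B

/-- `∑_i ev_q(b_i) / |B|^(i+1)`. -/
noncomputable def vdc (B f : F[X]) : ℝ :=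
  ∑' i : ℕ, (evP E (dig B f i) : ℝ) / ((Fintype.card F : ℝ) ^ B.natDegree) ^ (i + 1)

open Classical in
/-- The number of `n < N` with `(K_n(Θ), V_n(P)) ∈ [0,a) × [0,b)`. -/
noncomputable def cnt (P : F[X]) (Θ : LaurentSeries F) (N : ℕ) (a b : ℝ) : ℕ :=
  ((Finset.range N).filter fun n : ℕ =>
    (evL E (emb (npoly E n) * Θ), vdc E P (npoly E n)) ∈ Set.Ico (0 : ℝ) a ×ˢ Set.Ico (0 : ℝ) b).card

/-- The star discrepancy `D_N`. -/
noncomputable def disc (P : F[X]) (Θ : LaurentSeries F) (N : ℕ) : ℝ :=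
  sSup {x | ∃ a ∈ Set.Icc (0 : ℝ) 1, ∃ b ∈ Set.Icc (0 : ℝ) 1, x = |(cnt E P Θ N a b : ℝ) / N - a * b|}

end Pool.Agent.H58.Dk
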