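import Pool.Agent.H58.PD1

set_option autoImplicit false

namespace Pool.Agent.H58.PD

open Finset

def Per (m : ℕ) (f : ℕ → ℝ) : Prop := ∀ a b, a ≡ b [MOD m] → f a = f b

theorem sum_shift {m : ℕ} {f : ℕ → ℝ} (hf : Per m f) (a : ℕ) :
    ∑ n ∈ range m, f (n + a) = ∑ n ∈ range m, f n := by
  induction a with
  | zero => simp
  | succ a ih =>
    have h1 := Finset.sum_range_succ (fun n => f (n + a)) m
    have h2 := Finset.sum_range_succ' (fun n => f (n + a)) m
    have h3 : f (m + a) = f (0 + a) := hf _ _ (by simp [Nat.ModEq])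
    simp only [show ∀ n, n + 1 + a = n + (a + 1) by omega] at h2
    linarith

theorem eqd {m : ℕ} (hm : 0 < m) {f : ℕ → ℝ} (hf : Per m f) (h0 : ∑ n ∈ range m, f n = 0) (T : ℕ) :
    |∑ n ∈ range T, f n| ≤ ∑ n ∈ range m, |f n| := by
  induction T using Nat.strong_induction_on with
  | _ T ih =>
    by_cases h : T < m
    · exact (Finset.abs_sum_le_sum_abs _ _).trans (Finset.sum_le_sum_of_subset_of_nonneg
        (Finset.range_mono h.le) fun _ _ _ => abs_nonneg _)
    · obtain ⟨t, rfl⟩ := Nat.exists_eq_add_of_le (not_lt.1 h)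
      rw [Finset.sum_range_add, h0, zero_add]
      have : ∀ x, f (m + x) = f x := fun x => hf _ _ (by simp [Nat.ModEq])
      simp only [this]
      exact ih t (by omega)

theorem sum_zmod (m : ℕ) [NeZero m] (f : ℕ → ℝ) : ∑ n ∈ range m, f n = ∑ x : ZMod m, f x.val := by
  symm
  refine Finset.sum_nbij' ZMod.val (fun n => (n : ZMod m)) (fun x _ => by simpa using x.val_lt)
    (by simp) (by simp) (fun n hn => ZMod.val_cast_of_lt (by simpa using hn)) (by simp)

theorem crt {ι : Type*} [Fintype ι] [DecidableEq ι] (m : ι → ℕ) (hm : ∀ j, 0 < m j)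
    (hc : Pairwise (Function.onFun Nat.Coprime m)) (f : ι → ℕ → ℝ) (hf : ∀ j, Per (m j) (f j)) :
    ∑ n ∈ range (∏ j, m j), ∏ j, f j n = ∏ j, ∑ n ∈ range (m j), f j n := by
  have : ∀ j, NeZero (m j) := fun j => ⟨(hm j).ne'⟩
  have : NeZero (∏ j, m j) := ⟨(Finset.prod_pos fun j _ => hm j).ne'⟩
  simp only [sum_zmod]
  rw [Fintype.prod_sum, ← Equiv.sum_comp (ZMod.prodEquivPi m hc).toEquiv]
  refine Finset.sum_congr rfl fun x _ => Finset.prod_congr rfl fun j _ => hf j _ _ ?_
  simp only [RingEquiv.toEquiv_eq_coe, EquivLike.coe_coe, ZMod.prodEquivPi_apply, ZMod.castHom_apply]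
  rw [ZMod.cast_eq_val, ZMod.val_natCast]
  exact (Nat.mod_modEq _ _).symm

def rev (b : ℕ) : ℕ → ℕ → ℕ
  | 0, _ => 0
  | l + 1, x => b * rev b l x + x / b ^ l % b

theorem rev_lt {b : ℕ} (hb : 0 < b) (l x : ℕ) : rev b l x < b ^ l := by
  induction l with
  | zero => simp [rev]
  | succ l ih =>
    have := Nat.mod_lt (x / b ^ l) hb
    rw [rev, pow_succ]
    nlinarith

theorem rev_mod (b l : ℕ) {x y : ℕ} (h : x ≡ y [MOD b ^ l]) : rev b l x = rev b l y := by
  induction l with
  | zero => rfl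
  | succ l ih =>
    rw [rev, rev, ih (h.of_dvd (pow_dvd_pow b (by omega))), ← Nat.mod_mul_right_div_self,
      ← Nat.mod_mul_right_div_self y, ← pow_succ, h]

theorem rev_inj {b : ℕ} (hb : 0 < b) (l : ℕ) {x y : ℕ} (h : rev b l x = rev b l y) :
    x ≡ y [MOD b ^ l] := by
  induction l with
  | zero => simp [Nat.modEq_one]
  | succ l ih =>
    rw [rev, rev] at h
    have h1 := congrArg (· / b) h
    have h2 := congrArg (· % b) h
    simp only [Nat.mul_add_div hb, Nat.mod_div_self, add_zero, Nat.mul_add_mod, Nat.mod_mod] at h1 h2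
    unfold Nat.ModEq
    rw [Nat.mod_pow_succ, Nat.mod_pow_succ, h2, ih h1]

noncomputable def cl (u : ℝ) : ℝ := max 0 (min 1 u)

theorem cl_mem (u : ℝ) : 0 ≤ cl u ∧ cl u ≤ 1 :=
  ⟨le_max_left _ _, max_le zero_le_one (min_le_left _ _)⟩

theorem cl_nonpos {u : ℝ} (h : u ≤ 0) : cl u = 0 := max_eq_left ((min_le_right _ _).trans h)

theorem cl_one {u : ℝ} (h : 1 ≤ u) : cl u = 1 := by
  unfold cl; rw [min_eq_left h]; simp

theorem sum_cl (n : ℕ) (u : ℝ) : ∑ c ∈ range n, cl (u - c) = max 0 (min (n : ℝ) u) := by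
  induction n with
  | zero => simp
  | succ n ih =>
    rw [Finset.sum_range_succ, ih]
    have : (0 : ℝ) ≤ n := by positivity
    unfold cl
    push_cast
    simp only [max_def, min_def]
    split_ifs <;> linarith

theorem sum_cl' {b : ℕ} (hb : 0 < b) (v : ℝ) : ∑ c ∈ range b, cl (b * v - c) = b * cl v := by
  have : (0 : ℝ) ≤ b := by positivity
  rw [sum_cl, cl, mul_max_of_nonneg _ _ this, mul_min_of_nonneg _ _ this]; simp

noncomputable def E (b : ℕ) (y : ℝ) (l x : ℕ) : ℝ := cl (b ^ l * y - rev b l x)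

noncomputable def W (b : ℕ) (y : ℝ) : ℕ → ℕ → ℝ
  | 0, x => E b y 0 x
  | l + 1, x => E b y (l + 1) x - E b y l x

theorem sum_W (b : ℕ) (y : ℝ) (s x : ℕ) : ∑ l ∈ range (s + 1), W b y l x = E b y s x := by
  induction s with
  | zero => simp [W]
  | succ s ih => rw [Finset.sum_range_succ, ih, W]; ring

theorem W_per (b : ℕ) (y : ℝ) (l : ℕ) : Per (b ^ l) (W b y l) := by
  intro x x' h
  cases l with
  | zero => simp [W, E, rev]
  | succ l => simp only [W, E, rev_mod b _ h, rev_mod b l (h.of_dvd (pow_dvd_pow b (by omega)))]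

theorem W_zero {b : ℕ} (hb : 0 < b) (y : ℝ) (l x : ℕ) :
    ∑ c ∈ range b, W b y (l + 1) (x + c * b ^ l) = 0 := by
  have h1 : ∀ c, rev b l (x + c * b ^ l) = rev b l x := fun c => rev_mod b l (by simp [Nat.ModEq])
  have h2 : ∀ c, (x + c * b ^ l) / b ^ l = c + x / b ^ l := fun c => by
    rw [Nat.add_mul_div_right _ _ (by positivity), add_comm]
  simp only [W, E, rev, h1, h2, Finset.sum_sub_distrib]
  have h3 := sum_shift (m := b) (f := fun n => cl (b * (b ^ l * y - rev b l x) - ((n % b : ℕ) : ℝ)))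
    (fun a a' h => by simp only [show a % b = a' % b from h]) (x / b ^ l)
  have h4 : ∑ n ∈ range b, cl (b * (b ^ l * y - rev b l x) - ((n % b : ℕ) : ℝ)) =
      b * cl (b ^ l * y - rev b l x) := by
    rw [← sum_cl' hb]
    exact Finset.sum_congr rfl fun n hn => by rw [Nat.mod_eq_of_lt (by simpa using hn)]
  rw [h4] at h3
  rw [Finset.sum_const, card_range, nsmul_eq_mul, ← h3, sub_eq_zero]
  refine Finset.sum_congr rfl fun c _ => ?_
  congr 1
  push_cast
  ring

theorem W_l1 {b : ℕ} (hb : 0 < b) (y : ℝ) (l : ℕ) : ∑ x ∈ range (b ^ l), |W b y l x| ≤ b := by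
  cases l with
  | zero =>
    have := cl_mem ((b : ℝ) ^ 0 * y - rev b 0 0)
    have h1 : (1 : ℝ) ≤ b := by exact_mod_cast hb
    simp only [pow_zero, range_one, sum_singleton, W, E] at this ⊢
    rw [abs_of_nonneg this.1]; linarith
  | succ l =>
    have h1 : ∀ x, |W b y (l + 1) x| ≤ if (rev b l x : ℤ) = ⌊(b : ℝ) ^ l * y⌋ then 1 else 0 := by
      intro x
      split_ifs with h
      · have a1 := cl_mem ((b : ℝ) ^ (l + 1) * y - rev b (l + 1) x)
        have a2 := cl_mem ((b : ℝ) ^ l * y - rev b l x)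
        simp only [W, E]
        rw [abs_le]; constructor <;> linarith [a1.1, a1.2, a2.1, a2.2]
      · have hd : ((x / b ^ l % b : ℕ) : ℝ) + 1 ≤ b := by exact_mod_cast Nat.mod_lt _ hb
        have hd0 : (0 : ℝ) ≤ ((x / b ^ l % b : ℕ) : ℝ) := by positivity
        have hb' : (0 : ℝ) < b := by positivity
        have e : (b : ℝ) ^ (l + 1) * y - rev b (l + 1) x =
            b * (b ^ l * y - rev b l x) - ((x / b ^ l % b : ℕ) : ℝ) := by
          rw [rev, Nat.cast_add, Nat.cast_mul]; ring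
        simp only [W, E]
        rw [e]
        rcases lt_or_gt_of_ne h with h | h
        · have : (rev b l x : ℝ) + 1 ≤ b ^ l * y := by
            have := Int.le_floor.1 (Int.add_one_le_of_lt h)
            exact_mod_cast this
          rw [cl_one (by nlinarith), cl_one (by linarith)]; simp
        · have : (b : ℝ) ^ l * y < rev b l x := by
            have := Int.floor_lt.1 h
            exact_mod_cast this
          rw [cl_nonpos (by nlinarith), cl_nonpos (by linarith)]; simp
    refine (Finset.sum_le_sum fun x _ => h1 x).trans ?_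
    rw [Finset.sum_boole]
    have : ((range (b ^ (l + 1))).filter fun x => (rev b l x : ℤ) = ⌊(b : ℝ) ^ l * y⌋).card ≤
        (range b).card := by
      refine Finset.card_le_card_of_injOn (fun x => x / b ^ l) (fun x hx => ?_) (fun x hx x' hx' h => ?_)
      · have := (Finset.mem_filter.1 hx).1
        simp only [coe_range, Set.mem_Iio, mem_range] at this ⊢
        exact Nat.div_lt_of_lt_mul (by rwa [← pow_succ])
      · have h2 : rev b l x = rev b l x' := by
          have := (Finset.mem_filter.1 hx).2.trans (Finset.mem_filter.1 hx').2.symm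
          exact_mod_cast this
        have h3 : x % b ^ l = x' % b ^ l := rev_inj hb l h2
        rw [← Nat.div_add_mod x (b ^ l), ← Nat.div_add_mod x' (b ^ l), h3]
        simp only at h
        rw [h]
    simpa using this

theorem full_zero {b l : ℕ} {f : ℕ → ℝ} (h : ∀ x, ∑ c ∈ range b, f (x + c * b ^ l) = 0) :
    ∑ x ∈ range (b ^ (l + 1)), f x = 0 := by
  have : ∀ k, ∑ x ∈ range (k * b ^ l), f x = ∑ c ∈ range k, ∑ x ∈ range (b ^ l), f (x + c * b ^ l) := by
    intro k
    induction k with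
    | zero => simp
    | succ k ih =>
      rw [Nat.succ_mul, Finset.sum_range_add, ih, Finset.sum_range_succ]
      simp only [add_comm]
  rw [pow_succ', this, Finset.sum_comm]
  exact Finset.sum_eq_zero fun x _ => h x

structure Sys (b : ℕ) (w : ℕ → ℕ → ℝ) : Prop where
  per : ∀ l, Per (b ^ l) (w l)
  zero : ∀ l x, ∑ c ∈ range b, w (l + 1) (x + c * b ^ l) = 0
  l1 : ∀ l, ∑ x ∈ range (b ^ l), |w l x| ≤ 3 * b

noncomputable def WI (b : ℕ) (x y e : ℝ) (l n : ℕ) : ℝ :=
  W b y l n - W b x l n + if l = 0 then e else 0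

theorem sys_WI {b : ℕ} (hb : 0 < b) (x y : ℝ) {e : ℝ} (he : |e| ≤ 1) : Sys b (WI b x y e) := by
  refine ⟨fun l a a' h => ?_, fun l n => ?_, fun l => ?_⟩
  · simp only [WI, W_per b _ l a a' h]
  · simp [WI, Finset.sum_sub_distrib, W_zero hb]
  · have h1 := W_l1 hb x l
    have h2 := W_l1 hb y l
    have h3 : ∑ _n ∈ range (b ^ l), |if l = 0 then e else 0| ≤ b := by
      have h1 : (1 : ℝ) ≤ b := by exact_mod_cast hb
      split_ifs with h
      · subst h; simp; linarith
      · simp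
    calc _ ≤ ∑ n ∈ range (b ^ l), (|W b y l n| + |W b x l n| + |if l = 0 then e else 0|) :=
          Finset.sum_le_sum fun n _ => (abs_add_le _ _).trans (by gcongr; exact abs_sub _ _)
      _ ≤ _ := by rw [Finset.sum_add_distrib, Finset.sum_add_distrib]; linarith

theorem G_bound {ι : Type*} [Fintype ι] [DecidableEq ι] (b : ι → ℕ) (hb : ∀ j, 0 < b j)
    (hc : Pairwise (Function.onFun Nat.Coprime b)) (w : ι → ℕ → ℕ → ℝ) (hw : ∀ j, Sys (b j) (w j))
    (L : ι → ℕ) (hL : L ≠ 0) (a : ι → ℕ) (T : ℕ) :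
    |∑ n ∈ range T, ∏ j, w j (L j) (n + a j)| ≤ ∏ j, (3 * b j : ℝ) := by
  have hm : ∀ j, 0 < b j ^ L j := fun j => pow_pos (hb j) _
  have hc' : Pairwise (Function.onFun Nat.Coprime fun j => b j ^ L j) := fun i j h =>
    Nat.Coprime.pow _ _ (hc h)
  have hp : ∀ j, Per (b j ^ L j) fun n => w j (L j) (n + a j) := fun j x x' h =>
    (hw j).per _ _ _ (h.add_right _)
  have hp' : ∀ j, Per (b j ^ L j) fun n => |w j (L j) (n + a j)| := fun j x x' h => by
    simp only [hp j x x' h]
  refine (eqd (m := ∏ j, b j ^ L j) (Finset.prod_pos fun j _ => hm j) (fun x x' h => ?_) ?_ T).trans ?_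
  · exact Finset.prod_congr rfl fun j _ => hp j _ _ (h.of_dvd (Finset.dvd_prod_of_mem (fun j => b j ^ L j) (mem_univ j)))
  · rw [crt _ hm hc' _ hp]
    obtain ⟨j, hj⟩ := Function.ne_iff.1 hL
    obtain ⟨l, hl⟩ := Nat.exists_eq_succ_of_ne_zero hj
    refine Finset.prod_eq_zero (mem_univ j) ?_
    rw [sum_shift ((hw j).per _), hl]
    exact full_zero ((hw j).zero l)
  · simp only [Finset.abs_prod]
    rw [crt _ hm hc' _ hp']
    refine Finset.prod_le_prod (fun j _ => by positivity) fun j _ => ?_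
    rw [sum_shift (f := fun n => |w j (L j) n|) fun x x' h => by simp only [(hw j).per _ x x' h]]
    exact (hw j).l1 _

theorem prod_diff {ι : Type*} (s : Finset ι) (u v : ι → ℝ) (hu : ∀ i, |u i| ≤ 1)
    (hv : ∀ i, |v i| ≤ 1) : |∏ i ∈ s, u i - ∏ i ∈ s, v i| ≤ ∑ i ∈ s, |u i - v i| := by
  classical
  induction s using Finset.induction_on with
  | empty => simp
  | insert a s ha ih =>
    rw [prod_insert ha, prod_insert ha, sum_insert ha]
    have h1 : |∏ i ∈ s, u i| ≤ 1 := by
      rw [Finset.abs_prod]; exact Finset.prod_le_one (fun _ _ => abs_nonneg _) fun i _ => hu i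
    have e : u a * ∏ i ∈ s, u i - v a * ∏ i ∈ s, v i =
        (u a - v a) * ∏ i ∈ s, u i + v a * (∏ i ∈ s, u i - ∏ i ∈ s, v i) := by ring
    rw [e]
    refine (abs_add_le _ _).trans ?_
    rw [abs_mul, abs_mul]
    have := mul_le_mul_of_nonneg_left h1 (abs_nonneg (u a - v a))
    have := mul_le_mul_of_nonneg_right (hv a) (abs_nonneg (∏ i ∈ s, u i - ∏ i ∈ s, v i))
    linarith

end Pool.Agent.H58.PD
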