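import Mathlib
import Pool.Agent.H58.PD2
import Pool.Agent.H58.DkDefs

set_option autoImplicit false

namespace Pool.Agent.H58.Dk

open Finset Polynomial

theorem geo {Q : ℝ} (hQ : 1 < Q) : HasSum (fun i : ℕ => (Q - 1) / Q ^ (i + 1)) 1 := by
  have h0 : 0 < Q := by linarith
  have := (hasSum_geometric_of_lt_one (r := Q⁻¹) (by positivity) (inv_lt_one_of_one_lt₀ hQ)).mul_left ((Q - 1) / Q)
  have h1 : Q - 1 ≠ 0 := by linarith
  have e1 : (fun i : ℕ => (Q - 1) / Q ^ (i + 1)) = fun i => (Q - 1) / Q * Q⁻¹ ^ i := by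
    ext i; rw [inv_pow, pow_succ]; field_simp
  have e2 : (Q - 1) / Q * (1 - Q⁻¹)⁻¹ = 1 := by field_simp
  rwa [e2, ← e1] at this

theorem ser {Q : ℕ} (hQ : 1 < Q) (d : ℕ → ℕ) (hd : ∀ i, d i < Q) :
    (0 ≤ ∑' i, (d i : ℝ) / (Q : ℝ) ^ (i + 1) ∧ ∑' i, (d i : ℝ) / (Q : ℝ) ^ (i + 1) ≤ 1) ∧
    ∑' i, (d i : ℝ) / (Q : ℝ) ^ (i + 1) = (d 0 + ∑' i, (d (i + 1) : ℝ) / (Q : ℝ) ^ (i + 1)) / Q := by
  have hQ' : (1 : ℝ) < Q := by exact_mod_cast hQ
  have hle : ∀ i, (d i : ℝ) / (Q : ℝ) ^ (i + 1) ≤ (Q - 1) / (Q : ℝ) ^ (i + 1) := fun i => by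
    have : (d i : ℝ) + 1 ≤ Q := by exact_mod_cast hd i
    gcongr; linarith
  have hs : Summable fun i => (d i : ℝ) / (Q : ℝ) ^ (i + 1) :=
    (geo hQ').summable.of_nonneg_of_le (fun i => by positivity) hle
  refine ⟨⟨tsum_nonneg fun i => by positivity, (hs.tsum_le_tsum hle (geo hQ').summable).trans (geo hQ').tsum_eq.le⟩, ?_⟩
  rw [hs.tsum_eq_zero_add, add_div, ← tsum_div_const]
  congr 1
  · simp
  · exact tsum_congr fun i => by rw [div_div, ← pow_succ]

variable {F : Type} [Field F] [Fintype F] (E : F ≃ Fin (Fintype.card F))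

noncomputable def val (d : ℕ → F) : ℝ := ∑' i, ((E (d i) : ℕ) : ℝ) / (Fintype.card F : ℝ) ^ (i + 1)

omit [Field F] in
theorem sum_E (G : ℕ → ℝ) : ∑ w : F, G (E w) = ∑ c ∈ range (Fintype.card F), G c := by
  rw [← Fin.sum_univ_eq_sum_range]; exact E.sum_comp fun x => G x

open Classical in
theorem digs {ι : Type} (m j : ℕ) : ∀ (I : Finset ι) (d : ι → ℕ → F),
    (∀ w : ℕ → F, (I.filter fun i => ∀ l < j, d i l = w l).card = m) →
    I.card = Fintype.card F ^ j * m ∧
      ∀ γ : ℝ, |∑ i ∈ I, ((if val E (d i) < γ then 1 else 0) - PD.cl γ)| ≤ m := by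
  have hq : 1 < Fintype.card F := Fintype.one_lt_card
  have hq' : (0 : ℝ) < Fintype.card F := by positivity
  induction j with
  | zero =>
    intro I d h
    have h1 : I.card = m := by simpa using h 0
    refine ⟨by simp [h1], fun γ => (abs_sum_le_sum_abs _ _).trans ?_⟩
    refine (sum_le_sum (g := fun _ => 1) fun i _ => ?_).trans (by simp [h1])
    obtain ⟨c0, c1⟩ := PD.cl_mem γ
    split_ifs <;> rw [abs_le] <;> constructor <;> linarith
  | succ j ih =>
    intro I d h
    have key := fun w0 : F => ih (I.filter fun i => d i 0 = w0) (fun i l => d i (l + 1)) fun w => by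
      rw [← h fun l => Nat.casesOn l w0 w, filter_filter]
      congr 1
      refine filter_congr fun i _ => ⟨fun h l hl => ?_, fun h => ⟨h 0 (by omega), fun l hl => h (l + 1) (by omega)⟩⟩
      cases l with
      | zero => exact h.1
      | succ l => exact h.2 l (by omega)
    constructor
    · rw [card_eq_sum_card_fiberwise (f := fun i => d i 0) (t := univ) (by simp)]
      simp only [fun w0 => (key w0).1, sum_const, card_univ, smul_eq_mul]
      ring
    intro γ
    rw [← sum_fiberwise I (fun i => d i 0)]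
    have e1 : ∀ w0 : F, ∑ i ∈ I with d i 0 = w0, ((if val E (d i) < γ then (1 : ℝ) else 0) - PD.cl γ) =
        ∑ i ∈ I with d i 0 = w0, ((if val E (fun l => d i (l + 1)) < Fintype.card F * γ - (E w0 : ℕ) then 1 else 0) -
          PD.cl (Fintype.card F * γ - (E w0 : ℕ))) +
          (Fintype.card F ^ j * m : ℕ) * (PD.cl (Fintype.card F * γ - (E w0 : ℕ)) - PD.cl γ) := by
      intro w0
      rw [← (key w0).1, ← nsmul_eq_mul (card _) (PD.cl _ - PD.cl γ), ← sum_const, ← sum_add_distrib]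
      refine sum_congr rfl fun i hi => ?_
      rw [sub_add_sub_cancel]
      congr 1
      refine if_congr ?_ rfl rfl
      rw [val, (ser hq _ fun l => (E (d i l)).2).2, (mem_filter.1 hi).2, div_lt_iff₀ hq', val]
      constructor <;> intro <;> linarith
    simp only [e1]
    rw [sum_add_distrib, ← mul_sum, sum_sub_distrib, sum_E E fun c => PD.cl (Fintype.card F * γ - c),
      PD.sum_cl' (by omega), sum_const, card_univ, nsmul_eq_mul, sub_self, mul_zero, add_zero]
    refine (abs_sum_le_sum_abs _ _).trans ?_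
    refine (sum_le_sum (g := fun w => if (E w : ℕ) = ⌈Fintype.card F * γ⌉₊ - 1 then (m : ℝ) else 0)
      fun w _ => ?_).trans ?_
    · split_ifs with hw
      · exact (key w).2 _
      refine (abs_eq_zero.2 (sum_eq_zero fun i _ => ?_)).le
      obtain ⟨v0, v1⟩ : 0 ≤ val E (fun l => d i (l + 1)) ∧ val E (fun l => d i (l + 1)) ≤ 1 :=
        (ser hq _ fun l => (E (d i (l + 1))).2).1
      rcases lt_or_gt_of_ne hw with hw | hw
      · have h1 : (E w : ℕ) + 1 < ⌈Fintype.card F * γ⌉₊ := by omega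
        have h2 := Nat.lt_ceil.1 h1
        push_cast at h2
        rw [if_pos (by linarith), PD.cl_one (by linarith), sub_self]
      · have h1 : ⌈Fintype.card F * γ⌉₊ ≤ (E w : ℕ) := by omega
        have h2 := Nat.ceil_le.1 h1
        rw [if_neg (by linarith), PD.cl_nonpos (by linarith), sub_self]
    · rw [sum_E E fun c => if c = ⌈Fintype.card F * γ⌉₊ - 1 then (m : ℝ) else 0, sum_ite_eq']
      split_ifs
      · exact le_rfl
      · positivity

end Pool.Agent.H58.Dk
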