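import Mathlib
import Pool.Agent.H58.Dk1

set_option autoImplicit false

namespace Pool.Agent.H58.Dk

open Finset Polynomial

variable {F : Type} [Field F] [Fintype F]

noncomputable def mkp (s : ℕ) (c : Fin s → F) : F[X] := ∑ i : Fin s, monomial (i : ℕ) (c i)

open Classical in
noncomputable def S (F : Type) [Field F] [Fintype F] (s : ℕ) : Finset F[X] := univ.image (mkp s)

omit [Fintype F] in
theorem coeff_mkp (s : ℕ) (c : Fin s → F) (n : ℕ) :
    (mkp s c).coeff n = if h : n < s then c ⟨n, h⟩ else 0 := by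
  rw [mkp, finsetSum_coeff]
  simp only [coeff_monomial]
  split_ifs with h
  · rw [sum_eq_single ⟨n, h⟩]
    · simp
    · intro b _ hb; rw [if_neg fun e => hb (Fin.ext e)]
    · simp
  · exact sum_eq_zero fun i _ => if_neg (by have := i.2; omega)

theorem mem_S {s : ℕ} {f : F[X]} : f ∈ S F s ↔ f.degree < s := by
  classical
  rw [S, mem_image, degree_lt_iff_coeff_zero]
  constructor
  · rintro ⟨c, _, rfl⟩ m hm; rw [coeff_mkp, dif_neg (by omega)]
  · intro h
    refine ⟨fun i => f.coeff i, mem_univ _, ext fun n => ?_⟩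
    rw [coeff_mkp]; split_ifs with hn
    · rfl
    · exact (h n (by omega)).symm

theorem card_S (s : ℕ) : (S F s).card = Fintype.card F ^ s := by
  classical
  rw [S, card_image_of_injective]
  · simp
  · intro c c' h; ext i
    have := congrArg (fun f => f.coeff i) h
    simpa [coeff_mkp] using this

omit [Fintype F] in
theorem emb_add (f g : F[X]) : emb (f + g) = emb f + emb g := eval₂_add _ _
omit [Fintype F] in
theorem emb_sub (f g : F[X]) : emb (f - g) = emb f - emb g := eval₂_sub _
omit [Fintype F] in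
theorem emb_mul (f g : F[X]) : emb (f * g) = emb f * emb g := eval₂_mul _ _

omit [Fintype F] in
theorem coeff_emb (s : ℕ) (c : Fin s → F) (Θ : LaurentSeries F) (n : ℤ) :
    (emb (mkp s c) * Θ).coeff n = ∑ i : Fin s, c i * Θ.coeff (n + i) := by
  rw [emb, mkp, eval₂_finsetSum, sum_mul, HahnSeries.coeff_sum]
  refine sum_congr rfl fun i _ => ?_
  rw [eval₂_monomial, HahnSeries.single_pow, HahnSeries.C_apply, HahnSeries.single_mul_single]
  have := HahnSeries.coeff_single_mul_add (r := c i * 1 ^ (i : ℕ)) (x := Θ) (a := n + i)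
    (b := 0 + (i : ℕ) • (-1 : ℤ))
  rw [show n + i + (0 + (i : ℕ) • (-1 : ℤ)) = n by simp] at this
  rw [this]; simp

def TBad (t : ℕ) (Θ : LaurentSeries F) : Prop :=
  ∀ N : F[X], N ≠ 0 → ∃ i : ℕ, i < N.natDegree + t ∧ (emb N * Θ).coeff ((i : ℤ) + 1) ≠ 0

theorem hankel {t : ℕ} {Θ : LaurentSeries F} (h : TBad t Θ) (s : ℕ) (w : ℕ → F) :
    ∃ f ∈ S F s, ∀ l < s - t, (emb f * Θ).coeff ((l : ℤ) + 1) = w l := by
  classical
  let M : Matrix (Fin (s - t)) (Fin s) F := fun l i => Θ.coeff ((l : ℤ) + 1 + i)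
  have hli : LinearIndependent F M.row := by
    rw [Fintype.linearIndependent_iff]
    intro g hg
    by_contra hne
    have hN : mkp (s - t) g ≠ 0 := fun e => hne fun i => by
      have := congrArg (fun f => f.coeff i) e
      simpa [coeff_mkp] using this
    obtain ⟨i, hi, hc⟩ := h _ hN
    have hd : (mkp (s - t) g).natDegree < s - t :=
      (natDegree_lt_iff_degree_lt hN).2 (mem_S.1 (mem_image_of_mem _ (mem_univ g)))
    apply hc
    rw [coeff_emb]
    have := congrFun hg ⟨i, by omega⟩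
    simp only [Finset.sum_apply, Pi.smul_apply, smul_eq_mul, Pi.zero_apply, Matrix.row, M] at this
    rw [← this]
    refine sum_congr rfl fun l _ => ?_
    congr 2; ring
  have hr := hli.rank_matrix
  have htop : LinearMap.range M.mulVecLin = ⊤ :=
    Submodule.eq_top_of_finrank_eq (by rw [Module.finrank_fintype_fun_eq_card]; exact hr)
  obtain ⟨c, hc⟩ := LinearMap.range_eq_top.1 htop fun l => w l
  refine ⟨mkp s c, mem_image_of_mem _ (mem_univ c), fun l hl => ?_⟩
  rw [coeff_emb]
  have := congrFun hc ⟨l, hl⟩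
  simp only [Matrix.mulVecLin_apply, Matrix.mulVec, dotProduct, M] at this
  rw [← this]
  exact sum_congr rfl fun i _ => mul_comm _ _

variable (E : F ≃ Fin (Fintype.card F))

theorem evL_eq (x : LaurentSeries F) : evL E x = val E fun l => x.coeff ((l : ℤ) + 1) := by
  refine tsum_congr fun i => ?_
  simp only [frac]
  rw [if_pos (by omega)]

open Classical in
theorem kron {t : ℕ} {Θ : LaurentSeries F} (h : TBad t Θ) (s : ℕ) (β : LaurentSeries F) (γ : ℝ) :
    |∑ f ∈ S F s, ((if evL E (β + emb f * Θ) < γ then 1 else 0) - PD.cl γ)| ≤ (Fintype.card F : ℝ) ^ t := by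
  have hq : 1 < Fintype.card F := Fintype.one_lt_card
  set m := ((S F s).filter fun f => ∀ l < s - t, (emb f * Θ).coeff ((l : ℤ) + 1) = 0).card with hm
  obtain ⟨h1, h2⟩ := digs E m (s - t) (S F s) (fun f l => (β + emb f * Θ).coeff ((l : ℤ) + 1)) fun w => by
    obtain ⟨f0, hf0, hw⟩ := hankel h s fun l => w l - β.coeff ((l : ℤ) + 1)
    rw [hm]
    refine card_nbij' (fun f => f - f0) (fun f => f + f0) ?_ ?_ (fun f _ => by simp) (fun f _ => by simp)
    · intro f hf
      simp only [coe_filter, Set.mem_ofPred_eq, mem_S] at hf hf0 ⊢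
      refine ⟨(degree_sub_le _ _).trans_lt (max_lt hf.1 hf0), fun l hl => ?_⟩
      rw [emb_sub, sub_mul, HahnSeries.coeff_sub, hw l hl, ← hf.2 l hl, HahnSeries.coeff_add]; ring
    · intro f hf
      simp only [coe_filter, Set.mem_ofPred_eq, mem_S] at hf hf0 ⊢
      refine ⟨(degree_add_le _ _).trans_lt (max_lt hf.1 hf0), fun l hl => ?_⟩
      rw [emb_add, add_mul, HahnSeries.coeff_add, HahnSeries.coeff_add, hw l hl, hf.2 l hl]; ring
  simp only [evL_eq]
  refine (h2 γ).trans ?_
  rw [card_S] at h1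
  have h3 : Fintype.card F ^ (s - t) * m ≤ Fintype.card F ^ (s - t) * Fintype.card F ^ t := by
    rw [← h1, ← pow_add]; exact Nat.pow_le_pow_right hq.le (by omega)
  exact_mod_cast Nat.le_of_mul_le_mul_left h3 (by positivity)

theorem bad_of {P : F[X]} {Θ : LaurentSeries F} (h : BadPq P Θ) :
    ∃ t : ℕ, ∀ k : ℕ, TBad t (emb P ^ k * Θ) := by
  obtain ⟨c, hc, h⟩ := h
  have hq : (1 : ℝ) < Fintype.card F := by exact_mod_cast Fintype.one_lt_card
  obtain ⟨t, ht⟩ := exists_pow_lt_of_lt_one hc (inv_lt_one_of_one_lt₀ hq)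
  refine ⟨t, fun k N hN => ?_⟩
  by_contra hne
  push Not at hne
  have h1 := h N hN k
  have e : emb (N * P ^ k) * Θ = emb N * (emb P ^ k * Θ) := by
    rw [emb_mul, mul_assoc]; congr 2; exact eval₂_pow _ _ _
  rw [e, labs] at h1
  split_ifs at h1 with h0
  · simp at h1; linarith
  have h2 := HahnSeries.coeff_order_eq_zero.not.2 h0
  set o := (frac (emb N * (emb P ^ k * Θ))).order
  simp only [frac] at h2
  split_ifs at h2 with h3
  · have h4 : (N.natDegree + t : ℤ) ≤ o := by
      by_contra h5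
      apply h2
      have := hne (o - 1).toNat (by omega)
      rwa [show (((o - 1).toNat : ℕ) : ℤ) + 1 = o by omega] at this
    have h5 : (Fintype.card F : ℝ) ^ (-o) ≤ (Fintype.card F : ℝ) ^ (-(N.natDegree + t : ℤ)) :=
      zpow_le_zpow_right₀ hq.le (by omega)
    have h6 : (Fintype.card F : ℝ) ^ N.natDegree * (Fintype.card F : ℝ) ^ (-(N.natDegree + t : ℤ)) =
        (Fintype.card F : ℝ)⁻¹ ^ t := by
      rw [neg_add, zpow_add₀ (by positivity), zpow_neg, zpow_neg, zpow_natCast, zpow_natCast, inv_pow]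
      field_simp
    have := mul_le_mul_of_nonneg_left h5 (show 0 ≤ (Fintype.card F : ℝ) ^ N.natDegree by positivity)
    linarith
  · exact h2 rfl

end Pool.Agent.H58.Dk
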