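import Mathlib
import Pool.Agent.H58.Dk2

set_option autoImplicit false

namespace Pool.Agent.H58.Dk

open Finset Polynomial

variable {F : Type} [Field F] [Fintype F] (E : F ≃ Fin (Fintype.card F)) (hE : (E 0 : ℕ) = 0)
include hE

theorem coeff_npoly (n i : ℕ) : (E ((npoly E n).coeff i) : ℕ) = n / Fintype.card F ^ i % Fintype.card F := by
  rw [npoly, finsetSum_coeff]
  simp only [coeff_monomial, sum_ite_eq', mem_range]
  split_ifs with h
  · simp
  · have h2 : n < Fintype.card F ^ i := lt_of_le_of_lt (by omega) (Nat.lt_pow_self Fintype.one_lt_card)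
    simp [Nat.div_eq_of_lt h2, hE]

theorem E_zero {x : F} (h : (E x : ℕ) = 0) : x = 0 := E.injective (Fin.ext (h.trans hE.symm))

theorem evP_eq (f : F[X]) {L : ℕ} (hL : f.natDegree < L) :
    evP E f = ∑ j ∈ range L, (E (f.coeff j) : ℕ) * Fintype.card F ^ j := by
  refine sum_subset (range_subset_range.2 hL) fun j _ hj => ?_
  rw [coeff_eq_zero_of_natDegree_lt (by simpa using hj), hE, zero_mul]

theorem evP_npoly (n : ℕ) : evP E (npoly E n) = n := by
  have h : ∀ L, ∑ j ∈ range L, n / Fintype.card F ^ j % Fintype.card F * Fintype.card F ^ j =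
      n % Fintype.card F ^ L := by
    intro L
    induction L with
    | zero => simp [Nat.mod_one]
    | succ L ih => rw [sum_range_succ, ih, Nat.mod_pow_succ, mul_comm]
  rw [evP_eq E hE _ (L := (npoly E n).natDegree + 1 + n) (by omega)]
  simp only [coeff_npoly E hE]
  rw [h, Nat.mod_eq_of_lt]
  exact lt_of_le_of_lt (by omega) (Nat.lt_pow_self Fintype.one_lt_card)

theorem npoly_mem {s n : ℕ} (h : n < Fintype.card F ^ s) : npoly E n ∈ S F s := by
  rw [mem_S, degree_lt_iff_coeff_zero]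
  intro m hm
  apply E_zero E hE
  rw [coeff_npoly E hE, Nat.div_eq_of_lt (h.trans_le (Nat.pow_le_pow_right Fintype.card_pos hm)), Nat.zero_mod]

theorem npoly_surj {s : ℕ} {f : F[X]} (hf : f ∈ S F s) : ∃ n < Fintype.card F ^ s, npoly E n = f := by
  obtain ⟨n, hn, e⟩ := surj_on_of_inj_on_of_card_le (s := range (Fintype.card F ^ s)) (t := S F s)
    (fun n _ => npoly E n) (fun n hn => npoly_mem E hE (mem_range.1 hn))
    (fun a b _ _ h => by rw [← evP_npoly E hE a, ← evP_npoly E hE b]; exact congrArg _ h)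
    (by rw [card_S, card_range]) f hf
  exact ⟨n, mem_range.1 hn, e.symm⟩

theorem sum_npoly (s : ℕ) (G : F[X] → ℝ) :
    ∑ n ∈ range (Fintype.card F ^ s), G (npoly E n) = ∑ f ∈ S F s, G f := by
  refine sum_nbij' (npoly E) (evP E) (fun n hn => npoly_mem E hE (mem_range.1 hn)) (fun f hf => ?_)
    (fun n _ => evP_npoly E hE n) (fun f hf => ?_) fun _ _ => rfl
  · obtain ⟨n, hn, rfl⟩ := npoly_surj E hE hf
    rwa [evP_npoly E hE, mem_range]
  · obtain ⟨n, hn, rfl⟩ := npoly_surj E hE hf
    rw [evP_npoly E hE]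

theorem sum_evP (s : ℕ) {g : F[X]} (hg : g ∈ S F s) (G : ℕ → ℝ) :
    ∑ f ∈ S F s, G (evP E (g + f)) = ∑ n ∈ range (Fintype.card F ^ s), G n := by
  have h1 := sum_npoly E hE s fun f => G (evP E f)
  simp only [evP_npoly E hE] at h1
  rw [h1]
  rw [mem_S] at hg
  refine sum_nbij' (fun f => g + f) (fun f => f - g) (fun f hf => ?_) (fun f hf => ?_)
    (fun _ _ => by simp) (fun _ _ => by simp) fun _ _ => rfl
  · rw [mem_S] at hf ⊢; exact (degree_add_le _ _).trans_lt (max_lt hg hf)
  · rw [mem_S] at hf ⊢; exact (degree_sub_le _ _).trans_lt (max_lt hf hg)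

theorem npoly_add (A s r : ℕ) (hr : r < Fintype.card F ^ s) :
    npoly E (A * Fintype.card F ^ s + r) = npoly E (A * Fintype.card F ^ s) + npoly E r := by
  have hq : 0 < Fintype.card F := Fintype.card_pos
  ext i
  rw [coeff_add]
  rcases lt_or_ge i s with h | h
  · obtain ⟨k, rfl⟩ := Nat.exists_eq_add_of_lt h
    have e : A * Fintype.card F ^ (i + k + 1) = Fintype.card F ^ i * (Fintype.card F * (A * Fintype.card F ^ k)) := by
      ring
    have h1 : (npoly E (A * Fintype.card F ^ (i + k + 1))).coeff i = 0 := by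
      apply E_zero E hE
      rw [coeff_npoly E hE, e, Nat.mul_div_cancel_left _ (by positivity), Nat.mul_mod_right]
    rw [h1, zero_add]
    refine E.injective (Fin.ext ?_)
    rw [coeff_npoly E hE, coeff_npoly E hE, e, Nat.mul_add_div (by positivity), Nat.mul_add_mod]
  · obtain ⟨k, rfl⟩ := Nat.exists_eq_add_of_le h
    have h1 : (npoly E r).coeff (s + k) = 0 := by
      have := npoly_mem E hE hr
      rw [mem_S, degree_lt_iff_coeff_zero] at this
      exact this _ h
    rw [h1, add_zero]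
    refine E.injective (Fin.ext ?_)
    rw [coeff_npoly E hE, coeff_npoly E hE, pow_add, ← Nat.div_div_eq_div_mul, ← Nat.div_div_eq_div_mul,
      mul_comm A, Nat.mul_add_div (by positivity), Nat.div_eq_of_lt hr, Nat.mul_div_cancel_left _ (by positivity),
      add_zero]

theorem evP_lt {s : ℕ} {f : F[X]} (hf : f ∈ S F s) : evP E f < Fintype.card F ^ s := by
  obtain ⟨n, hn, rfl⟩ := npoly_surj E hE hf
  rwa [evP_npoly E hE]

omit hE in
theorem mod_mem {P : F[X]} (hP : P ≠ 0) (f : F[X]) : f % P ∈ S F P.natDegree := by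
  rw [mem_S, ← degree_eq_natDegree hP]; exact degree_mod_lt f hP

theorem vdc_spec {P : F[X]} (hP : 0 < P.natDegree) (f : F[X]) :
    (0 ≤ vdc E P f ∧ vdc E P f ≤ 1) ∧
      vdc E P f = (evP E (f % P) + vdc E P (f / P)) / (Fintype.card F ^ P.natDegree : ℕ) := by
  have hP0 : P ≠ 0 := by rintro rfl; simp at hP
  have := ser (Q := Fintype.card F ^ P.natDegree) (Nat.one_lt_pow hP.ne' Fintype.one_lt_card)
    (fun i => evP E (dig P f i)) fun i => evP_lt E hE (mod_mem hP0 _)
  simpa [vdc, dig, Function.iterate_succ] using this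

omit hE [Fintype F] in
theorem divmod {P : F[X]} (hP : P ≠ 0) (h r : F[X]) (hr : r.degree < P.degree) :
    (r + P * h) % P = r ∧ (r + P * h) / P = h := by
  have h1 : (r + P * h) % P = r := by
    rw [add_mod, EuclideanDomain.mod_eq_zero.2 (dvd_mul_right P h), add_zero, (mod_eq_self_iff hP).2 hr]
  refine ⟨h1, mul_left_cancel₀ hP ?_⟩
  have := EuclideanDomain.div_add_mod (r + P * h) P
  rw [h1] at this
  linear_combination this

omit hE in
theorem sum_split {P : F[X]} (hP : P ≠ 0) (s : ℕ) (G : F[X] → ℝ) :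
    ∑ f ∈ S F (P.natDegree + s), G f = ∑ r ∈ S F P.natDegree, ∑ h ∈ S F s, G (r + P * h) := by
  rw [← sum_product' (S F P.natDegree) (S F s) fun r h => G (r + P * h)]
  symm
  have hd := degree_eq_natDegree hP
  have hm : ∀ x ∈ S F P.natDegree ×ˢ S F s, x.1 + P * x.2 ∈ S F (P.natDegree + s) := by
    intro x hx
    obtain ⟨h1, h2⟩ := mem_product.1 hx
    rw [mem_S] at h1 h2 ⊢
    refine (degree_add_le _ _).trans_lt (max_lt (h1.trans_le (by exact_mod_cast Nat.le_add_right _ _)) ?_)
    rw [degree_mul, hd, Nat.cast_add]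
    exact WithBot.add_lt_add_left (by simp) h2
  have hi : ∀ x ∈ S F P.natDegree ×ˢ S F s, ∀ y ∈ S F P.natDegree ×ˢ S F s,
      x.1 + P * x.2 = y.1 + P * y.2 → x = y := by
    intro x hx y hy e
    have a := divmod hP x.2 x.1 (hd ▸ mem_S.1 (mem_product.1 hx).1)
    have b := divmod hP y.2 y.1 (hd ▸ mem_S.1 (mem_product.1 hy).1)
    rw [e] at a
    exact Prod.ext (a.1.symm.trans b.1) (a.2.symm.trans b.2)
  have hc : (S F (P.natDegree + s)).card ≤ (S F P.natDegree ×ˢ S F s).card := by
    rw [card_product, card_S, card_S, card_S, pow_add]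
  generalize S F P.natDegree ×ˢ S F s = A at *
  generalize S F (P.natDegree + s) = B at *
  refine sum_bij (fun x _ => x.1 + P * x.2) hm (fun x hx y hy => hi x hx y hy) (fun f hf => ?_) fun _ _ => rfl
  obtain ⟨x, hx, e⟩ := surj_on_of_inj_on_of_card_le (s := A) (t := B) (fun x _ => x.1 + P * x.2) hm
    (fun x y hx hy => hi x hx y hy) hc f hf
  exact ⟨x, hx, e.symm⟩

end Pool.Agent.H58.Dk
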