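import Mathlib
import Pool.Agent.H58.Dk3

set_option autoImplicit false

namespace Pool.Agent.H58.Dk

open Finset Polynomial

theorem blocks (q : ℕ) (hq : 1 < q) (H : ℕ → ℝ) (B : ℝ) (hB : 0 ≤ B)
    (h : ∀ s A : ℕ, |∑ r ∈ range (q ^ s), H (A * q ^ s + r)| ≤ B * (s + 1)) (s : ℕ) :
    ∀ A, ∀ N < q ^ s, |∑ n ∈ range N, H (A * q ^ s + n)| ≤ q * B * s ^ 2 := by
  induction s with
  | zero => intro A N hN; obtain rfl : N = 0 := by simpa using hN
            simp
  | succ s ih =>
    intro A N hN
    have hp : 0 < q ^ s := by positivity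
    have h1 : ∀ d : ℕ, |∑ n ∈ range (d * q ^ s), H (A * q ^ (s + 1) + n)| ≤ d * (B * (s + 1)) := by
      intro d
      induction d with
      | zero => simp
      | succ d ihd =>
        rw [add_mul, one_mul, sum_range_add]
        refine (abs_add_le _ _).trans ?_
        have := h s (A * q + d)
        simp only [show ∀ r, (A * q + d) * q ^ s + r = A * q ^ (s + 1) + (d * q ^ s + r) from fun r => by ring] at this
        push_cast
        linarith
    have h2 := ih (A * q + N / q ^ s) (N % q ^ s) (Nat.mod_lt _ hp)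
    simp only [show ∀ r, (A * q + N / q ^ s) * q ^ s + r = A * q ^ (s + 1) + (N / q ^ s * q ^ s + r)
      from fun r => by ring] at h2
    have h3 : ((N / q ^ s : ℕ) : ℝ) ≤ q := by
      exact_mod_cast ((Nat.div_lt_iff_lt_mul hp).2 (by rwa [← pow_succ'])).le
    rw [← Nat.div_add_mod' N (q ^ s), sum_range_add]
    refine (abs_add_le _ _).trans ?_
    have h4 := h1 (N / q ^ s)
    have h5 : ((N / q ^ s : ℕ) : ℝ) * (B * (s + 1)) ≤ q * (B * (s + 1)) := by gcongr
    have h6 : 0 ≤ (q : ℝ) * B * s := by positivity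
    push_cast
    nlinarith

variable {F : Type} [Field F] [Fintype F] (E : F ≃ Fin (Fintype.card F)) (hE : (E 0 : ℕ) = 0)
include hE

open Classical in
theorem hyb {P : F[X]} (hP : 0 < P.natDegree) {a : ℝ} (h0 : 0 ≤ a) (h1 : a ≤ 1) (t s : ℕ) :
    ∀ Θ : LaurentSeries F, (∀ k : ℕ, TBad t (emb P ^ k * Θ)) → ∀ (β : LaurentSeries F) (g : F[X]) (b : ℝ),
      |∑ f ∈ S F s, ((if evL E (β + emb f * Θ) < a then 1 else 0) * (if vdc E P (g + f) < b then 1 else 0)
        - a * PD.cl b)| ≤ (Fintype.card F ^ P.natDegree : ℕ) * (Fintype.card F ^ t + 1 : ℝ) * (s + 1) := by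
  have hP0 : P ≠ 0 := by rintro rfl; simp at hP
  have hq : 1 < Fintype.card F := Fintype.one_lt_card
  set Q := Fintype.card F ^ P.natDegree with hQ
  have hQ0 : 0 < Q := by positivity
  have hQ' : (0 : ℝ) < Q := by positivity
  have ea : PD.cl a = a := by simp [PD.cl, min_eq_right h1, h0]
  induction s using Nat.strong_induction_on with
  | _ s ih =>
    intro Θ hΘ β g b
    rcases lt_or_ge s P.natDegree with hs | hs
    · refine (abs_sum_le_sum_abs _ _).trans ?_
      refine (sum_le_sum (g := fun _ => 1) fun i _ => ?_).trans ?_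
      · obtain ⟨c0, c1⟩ := PD.cl_mem b
        have : 0 ≤ a * PD.cl b := by positivity
        have : a * PD.cl b ≤ 1 := by nlinarith
        split_ifs <;> rw [abs_le] <;> constructor <;> linarith
      · rw [sum_const, card_S, nsmul_eq_mul, mul_one]
        have : ((Fintype.card F ^ s : ℕ) : ℝ) ≤ Q := by exact_mod_cast Nat.pow_le_pow_right hq.le hs.le
        have h2 : (0 : ℝ) ≤ (Fintype.card F : ℝ) ^ t := by positivity
        have h3 : (0 : ℝ) ≤ s := by positivity
        nlinarith [mul_nonneg hQ'.le h2, mul_nonneg hQ'.le h3, mul_nonneg (mul_nonneg hQ'.le h2) h3]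
    obtain ⟨s, rfl⟩ := Nat.exists_eq_add_of_le hs
    have hΘ' : ∀ k : ℕ, TBad t (emb P ^ k * (emb P * Θ)) := fun k => by
      have := hΘ (k + 1); rwa [pow_succ, mul_assoc] at this
    have hg := mod_mem hP0 g
    rw [sum_split hP0]
    have e1 : ∀ r ∈ S F P.natDegree, ∑ h ∈ S F s, ((if evL E (β + emb (r + P * h) * Θ) < a then (1 : ℝ) else 0) *
        (if vdc E P (g + (r + P * h)) < b then 1 else 0) - a * PD.cl b) =
        ∑ h ∈ S F s, ((if evL E ((β + emb r * Θ) + emb h * (emb P * Θ)) < a then (1 : ℝ) else 0) *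
        (if vdc E P (g / P + h) < Q * b - evP E (g % P + r) then 1 else 0) - a * PD.cl (Q * b - evP E (g % P + r)))
        + (S F s).card * a * (PD.cl (Q * b - evP E (g % P + r)) - PD.cl b) := by
      intro r hr
      rw [mul_assoc, ← nsmul_eq_mul (card _) (a * _), ← sum_const, ← sum_add_distrib]
      refine sum_congr rfl fun h _ => ?_
      have e2 : β + emb (r + P * h) * Θ = (β + emb r * Θ) + emb h * (emb P * Θ) := by
        rw [emb_add, emb_mul]; ring
      have e3 : g + (r + P * h) = (g % P + r) + P * (g / P + h) := by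
        have := EuclideanDomain.div_add_mod g P
        linear_combination -this
      have e4 := divmod hP0 (g / P + h) (g % P + r) (by
        rw [degree_eq_natDegree hP0]
        exact (degree_add_le _ _).trans_lt (max_lt (mem_S.1 hg) (mem_S.1 hr)))
      have e5 : vdc E P (g + (r + P * h)) < b ↔ vdc E P (g / P + h) < Q * b - evP E (g % P + r) := by
        rw [(vdc_spec E hE hP _).2, e3, e4.1, e4.2, div_lt_iff₀ hQ']
        constructor <;> intro <;> linarith
      rw [e2, if_congr e5 rfl rfl]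
      ring
    rw [sum_congr rfl e1, sum_add_distrib, ← mul_sum, sum_sub_distrib,
      sum_evP E hE _ hg fun c => PD.cl (Q * b - c), PD.sum_cl' hQ0, sum_const, card_S P.natDegree, nsmul_eq_mul,
      sub_self, mul_zero, add_zero]
    refine (abs_sum_le_sum_abs _ _).trans ?_
    refine (sum_le_sum (g := fun r => (Fintype.card F : ℝ) ^ t + if evP E (g % P + r) = ⌈Q * b⌉₊ - 1 then
      (Q : ℝ) * (Fintype.card F ^ t + 1 : ℝ) * (s + 1) else 0) fun r _ => ?_).trans ?_
    · have hL : (0 : ℝ) ≤ (Fintype.card F : ℝ) ^ t := by positivity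
      split_ifs with hw
      · have := ih s (by omega) _ hΘ' (β + emb r * Θ) (g / P) (Q * b - evP E (g % P + r))
        linarith
      rw [add_zero]
      rcases lt_or_gt_of_ne hw with hw | hw
      · have h2 : evP E (g % P + r) + 1 < ⌈Q * b⌉₊ := by omega
        have h3 := Nat.lt_ceil.1 h2
        push_cast at h3
        have := kron E (t := t) (Θ := emb P * Θ) (by simpa using hΘ 1) s (β + emb r * Θ) a
        refine le_of_eq_of_le (congrArg _ (sum_congr rfl fun h _ => ?_)) this
        rw [if_pos (c := vdc E P _ < _) (by linarith [(vdc_spec E hE hP (g / P + h)).1.2]),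
          PD.cl_one (by linarith), ea, mul_one, mul_one]
      · have h2 : ⌈Q * b⌉₊ ≤ evP E (g % P + r) := by omega
        have h3 := Nat.ceil_le.1 h2
        refine le_of_eq_of_le (abs_eq_zero.2 (sum_eq_zero fun h _ => ?_)) hL
        rw [if_neg (c := vdc E P _ < _) (by linarith [(vdc_spec E hE hP (g / P + h)).1.1]),
          PD.cl_nonpos (by linarith)]
        ring
    · rw [sum_evP E hE _ hg fun c => (Fintype.card F : ℝ) ^ t + if c = ⌈Q * b⌉₊ - 1 then
        (Q : ℝ) * (Fintype.card F ^ t + 1 : ℝ) * (s + 1) else 0, sum_add_distrib, sum_ite_eq', sum_const,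
        card_range, nsmul_eq_mul, ← hQ]
      have hL : (0 : ℝ) ≤ (Fintype.card F : ℝ) ^ t := by positivity
      have h2 : (1 : ℝ) ≤ P.natDegree := by exact_mod_cast hP
      have h3 : 0 ≤ (Q : ℝ) * (Fintype.card F ^ t + 1 : ℝ) * (s + 1) := by positivity
      have h4 : (Q : ℝ) * (Fintype.card F ^ t + 1 : ℝ) * 1 ≤ Q * (Fintype.card F ^ t + 1 : ℝ) * P.natDegree := by
        gcongr
      push_cast [Nat.cast_add]
      split_ifs <;> nlinarith

theorem main {P : F[X]} (hP : Irreducible P) {Θ : LaurentSeries F} (h : BadPq P Θ) :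
    ∃ C : ℝ, ∀ N : ℕ, 2 ≤ N → ∀ a ∈ Set.Icc (0 : ℝ) 1, ∀ b ∈ Set.Icc (0 : ℝ) 1,
      |(cnt E P Θ N a b : ℝ) / N - a * b| ≤ C * Real.log N ^ 2 / N := by
  classical
  obtain ⟨t, h⟩ := bad_of h
  have hq : 1 < Fintype.card F := Fintype.one_lt_card
  have hP' := hP.natDegree_pos
  set B : ℝ := (Fintype.card F ^ P.natDegree : ℕ) * (Fintype.card F ^ t + 1 : ℝ) with hB
  have hB0 : 0 ≤ B := by positivity
  refine ⟨Fintype.card F * B * 9, fun N hN a ha b hb => ?_⟩
  have hN' : (0 : ℝ) < N := by positivity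
  have eb : PD.cl b = b := by simp [PD.cl, min_eq_right hb.2, hb.1]
  have h1 := blocks _ hq (fun n => (if evL E (emb (npoly E n) * Θ) < a then 1 else 0) *
      (if vdc E P (npoly E n) < b then 1 else 0) - a * b) B hB0 (fun s A => by
    have := hyb E hE hP' ha.1 ha.2 t s Θ h (emb (npoly E (A * Fintype.card F ^ s)) * Θ)
      (npoly E (A * Fintype.card F ^ s)) b
    rw [← sum_npoly E hE] at this
    refine le_of_eq_of_le (congrArg _ (sum_congr rfl fun r hr => ?_)) this
    rw [npoly_add E hE A s r (mem_range.1 hr), emb_add, add_mul, eb]) (Nat.log 2 N + 1) 0 N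
    ((Nat.lt_pow_succ_log_self (by norm_num) N).trans_le (Nat.pow_le_pow_left hq _))
  simp only [zero_mul, zero_add] at h1
  have h2 : ∑ n ∈ range N, ((if evL E (emb (npoly E n) * Θ) < a then (1 : ℝ) else 0) *
      (if vdc E P (npoly E n) < b then 1 else 0) - a * b) = cnt E P Θ N a b - N * (a * b) := by
    rw [sum_sub_distrib, sum_const, card_range, nsmul_eq_mul, cnt, card_filter]
    push_cast
    congr 1
    refine sum_congr rfl fun n _ => ?_
    have h3 : 0 ≤ evL E (emb (npoly E n) * Θ) := tsum_nonneg fun i => by positivity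
    simp only [Set.mem_prod, Set.mem_Ico, h3, (vdc_spec E hE hP' _).1.1, true_and]
    by_cases h1 : evL E (emb (npoly E n) * Θ) < a <;> by_cases h2 : vdc E P (npoly E n) < b <;> simp [h1, h2]
  have hl2 := Real.log_two_gt_d9
  have h3 : ((Nat.log 2 N : ℕ) : ℝ) * Real.log 2 ≤ Real.log N := by
    rw [← Real.log_pow]
    exact Real.log_le_log (by positivity) (by exact_mod_cast Nat.pow_log_le_self 2 (by omega))
  have h4 : Real.log 2 ≤ Real.log N := Real.log_le_log (by norm_num) (by exact_mod_cast hN)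
  have h5 : ((Nat.log 2 N + 1 : ℕ) : ℝ) ≤ 3 * Real.log N := by
    push_cast
    have : (0 : ℝ) ≤ (Nat.log 2 N : ℕ) := Nat.cast_nonneg _
    nlinarith
  rw [h2] at h1
  have e : (cnt E P Θ N a b : ℝ) / N - a * b = (cnt E P Θ N a b - N * (a * b)) / N := by field_simp
  rw [e, abs_div, abs_of_pos hN']
  gcongr
  refine h1.trans ?_
  rw [mul_assoc _ 9, show 9 * Real.log N ^ 2 = (3 * Real.log N) ^ 2 by ring]
  gcongr

end Pool.Agent.H58.Dk
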