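import Mathlib

set_option autoImplicit false
set_option maxHeartbeats 400000

namespace Pool.Agent.H58.Epi

open MeasureTheory Filter Topology Complex

noncomputable section

abbrev Sm (f : ℝ → ℂ) : Prop := ContDiff ℝ (⊤ : ℕ∞) f

lemma tower (F : ℕ → ℝ → ℂ) (h : ∀ k t, HasDerivAt (F k) (F (k + 1) t) t) :
    Sm (F 0) ∧ ∀ n, iteratedDeriv n (F 0) = F n := by
  have e : ∀ n, iteratedDeriv n (F 0) = F n := fun n => by
    induction n with
    | zero => simp
    | succ n ih => rw [iteratedDeriv_succ, ih]; funext t; exact (h n t).deriv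
  exact ⟨contDiff_of_differentiable_iteratedDeriv fun m _ => by
    rw [e]; exact fun t => (h m t).differentiableAt, e⟩

lemma Sm.has {f : ℝ → ℂ} (hf : Sm f) (k : ℕ) (t : ℝ) :
    HasDerivAt (iteratedDeriv k f) (iteratedDeriv (k + 1) f t) t := by
  rw [iteratedDeriv_succ]
  exact (hf.differentiable_iteratedDeriv k (by exact_mod_cast ENat.natCast_lt_top k) t).hasDerivAt

lemma Sm.cont {f : ℝ → ℂ} (hf : Sm f) (k : ℕ) : Continuous (iteratedDeriv k f) :=
  continuous_iff_continuousAt.mpr fun t => (hf.has k t).continuousAt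

def X (s : ℝ) (t : ℝ) : ℂ := ((t - s : ℝ) : ℂ)

lemma X_has (s t : ℝ) : HasDerivAt (X s) 1 t := by
  have := ((hasDerivAt_id t).sub_const s).ofReal_comp
  rw [Complex.ofReal_one] at this
  exact this

lemma X_sm (s : ℝ) : Sm (X s) := Complex.ofRealCLM.contDiff.comp (contDiff_id.sub contDiff_const)

def J (f : ℝ → ℂ) (s : ℝ) (k : ℕ) (t : ℝ) : ℂ :=
  ∫ u in (0 : ℝ)..1, (u : ℂ) ^ k * iteratedDeriv (k + 1) f (s + u * (t - s))

lemma J_has {f : ℝ → ℂ} (hf : Sm f) (s : ℝ) (k : ℕ) (t : ℝ) :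
    HasDerivAt (J f s k) (J f s (k + 1) t) t := by
  have c1 := hf.cont (k + 1)
  have c2 := hf.cont (k + 1 + 1)
  obtain ⟨C, hC⟩ := (isCompact_Icc (a := (0 : ℝ)) (b := 1)).prod (isCompact_closedBall t 1)
    |>.exists_bound_of_continuousOn (f := fun q : ℝ × ℝ =>
      (q.1 : ℂ) ^ (k + 1) * iteratedDeriv (k + 1 + 1) f (s + q.1 * (q.2 - s)))
      (Continuous.continuousOn (by fun_prop))
  refine (intervalIntegral.hasDerivAt_integral_of_dominated_loc_of_deriv_le
    (F := fun x (u : ℝ) => (u : ℂ) ^ k * iteratedDeriv (k + 1) f (s + u * (x - s)))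
    (F' := fun x (u : ℝ) => (u : ℂ) ^ (k + 1) * iteratedDeriv (k + 1 + 1) f (s + u * (x - s)))
    (bound := fun _ => C) (Metric.closedBall_mem_nhds t one_pos)
    (Eventually.of_forall fun x => Continuous.aestronglyMeasurable (by fun_prop))
    (Continuous.intervalIntegrable (by fun_prop) _ _)
    (Continuous.aestronglyMeasurable (by fun_prop))
    (Eventually.of_forall fun u hu x hx => hC (u, x) ⟨?_, hx⟩) intervalIntegrable_const
    (Eventually.of_forall fun u _ x _ => ?_)).2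
  · rw [Set.uIoc_of_le zero_le_one] at hu; exact Set.Ioc_subset_Icc_self hu
  · have h1 : HasDerivAt (fun x : ℝ => s + u * (x - s)) u x := by
      simpa using (((hasDerivAt_id x).sub_const s).const_mul u).const_add s
    have := ((hf.has (k + 1) _).scomp x h1).const_mul ((u : ℂ) ^ k)
    refine this.congr_deriv ?_
    simp [pow_succ, mul_assoc]

lemma J_sm {f : ℝ → ℂ} (hf : Sm f) (s : ℝ) : Sm (J f s 0) := (tower _ (J_has hf s)).1

lemma J_eq {f : ℝ → ℂ} (hf : Sm f) (s : ℝ) : f = f s • (1 : ℝ → ℂ) + X s * J f s 0 := by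
  funext t
  have c1 := hf.cont 1
  have h : ∀ u ∈ Set.uIcc (0 : ℝ) 1, HasDerivAt (fun u : ℝ => f (s + u * (t - s)))
      (X s t * ((u : ℂ) ^ 0 * iteratedDeriv (0 + 1) f (s + u * (t - s)))) u := fun u _ => by
    have h1 : HasDerivAt (fun u : ℝ => s + u * (t - s)) (t - s) u := by
      simpa using ((hasDerivAt_id u).mul_const (t - s)).const_add s
    have := (hf.has 0 _).scomp u h1
    simpa [X, Function.comp_def] using this
  have := intervalIntegral.integral_eq_sub_of_hasDerivAt h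
    (Continuous.intervalIntegrable (by fun_prop) _ _)
  rw [intervalIntegral.integral_const_mul] at this
  simp only [Pi.add_apply, Pi.smul_apply, Pi.mul_apply, Pi.one_apply, smul_eq_mul, mul_one, J, this]
  simp

def p (f : ℝ → ℂ) (k : ℕ) : ℝ := sSup ((fun x : ℝ => ‖iteratedDeriv k f x‖) '' Set.Icc (0 : ℝ) 1)

lemma le_p {f : ℝ → ℂ} (hf : Sm f) (k : ℕ) {x : ℝ} (hx : x ∈ Set.Icc (0 : ℝ) 1) :
    ‖iteratedDeriv k f x‖ ≤ p f k :=
  le_csSup (isCompact_Icc.bddAbove_image (hf.cont k).norm.continuousOn) ⟨x, hx, rfl⟩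

lemma p_J {f : ℝ → ℂ} (hf : Sm f) {s : ℝ} (hs : s ∈ Set.Icc (0 : ℝ) 1) (k : ℕ) :
    p (J f s 0) k ≤ p f (k + 1) := by
  refine csSup_le ⟨_, 0, by simp, rfl⟩ ?_
  rintro _ ⟨t, ht, rfl⟩
  simp only [(tower _ (J_has hf s)).2 k, J]
  refine (intervalIntegral.norm_integral_le_of_norm_le_const (C := p f (k + 1)) fun u hu => ?_).trans
    (by simp)
  rw [Set.uIoc_of_le zero_le_one] at hu
  rw [norm_mul, norm_pow, Complex.norm_real, Real.norm_eq_abs, abs_of_pos hu.1]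
  refine (mul_le_of_le_one_left (norm_nonneg _) (pow_le_one₀ hu.1.le hu.2)).trans (le_p hf _ ?_)
  obtain ⟨h1, h2⟩ := hu
  obtain ⟨h3, h4⟩ := hs
  obtain ⟨h5, h6⟩ := ht
  constructor <;> nlinarith

lemma jet {g : ℝ → ℂ} (hg : Sm g) (s : ℝ) (c : ℂ) (n : ℕ) :
    iteratedDeriv (n + 1) (c • (1 : ℝ → ℂ) + X s * g) s = (n + 1) * iteratedDeriv n g s := by
  let F : ℕ → ℝ → ℂ := fun k => Nat.casesOn k (c • (1 : ℝ → ℂ) + X s * g)
    fun k t => X s t * iteratedDeriv (k + 1) g t + (k + 1) * iteratedDeriv k g t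
  have h : ∀ k t, HasDerivAt (F k) (F (k + 1) t) t := fun k t => by
    cases k with
    | zero =>
      have := ((X_has s t).mul (hg.has 0 t)).const_add c
      have e : F 0 = fun x => c + (X s * iteratedDeriv 0 g) x := by funext y; simp [F]
      rw [e]
      refine this.congr_deriv ?_
      simp [F]; ring
    | succ k =>
      have := ((X_has s t).mul (hg.has (k + 1) t)).add ((hg.has k t).const_mul ((k : ℂ) + 1))
      refine this.congr_deriv ?_
      simp only [F]; push_cast; ring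
  have := congrFun ((tower F h).2 (n + 1)) s
  simpa [F, X] using this

lemma borel (s : ℝ) (c : ℕ → ℝ) : ∃ f, Sm f ∧ ∀ n, c n ≤ ‖iteratedDeriv n f s‖ := by
  let l : ℕ → ℝ := fun n => 2 ^ n * |c n| + 1
  have l1 : ∀ n, 1 ≤ l n := fun n => le_add_of_nonneg_left (by positivity)
  have l0 : ∀ n, 0 < l n := fun n => one_pos.trans_le (l1 n)
  let b : ℕ → ℕ → ℝ := fun k n => (1 / 2) ^ n * (l n * l n ^ k / l n ^ n)
  have b0 : ∀ k n, 0 ≤ b k n := fun k n => by have := l0 n; positivity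
  have hb : ∀ k, Summable (b k) := fun k => by
    rw [← summable_nat_add_iff (k + 1)]
    refine Summable.of_nonneg_of_le (fun n => b0 _ _) (fun n => ?_)
      ((summable_nat_add_iff (k + 1)).mpr summable_geometric_two)
    refine mul_le_of_le_one_right (by positivity) ?_
    rw [div_le_one (pow_pos (l0 _) _), ← pow_succ']
    exact pow_le_pow_right₀ (l1 _) (by omega)
  let g : ℕ → ℕ → ℝ → ℂ := fun k n t => I ^ k * b k n * cexp (l n * I * X s t)
  have hn : ∀ k n t, ‖g k n t‖ ≤ b k n := fun k n t => by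
    simp only [g, norm_mul, norm_pow, Complex.norm_I, one_pow, one_mul, Complex.norm_real,
      Real.norm_eq_abs, abs_of_nonneg (b0 k n), Complex.norm_exp, X]
    simp
  have h : ∀ k t, HasDerivAt (fun t => ∑' n, g k n t) (∑' n, g (k + 1) n t) t := fun k t =>
    hasDerivAt_tsum (hb (k + 1)) (fun n y => by
      have := (((X_has s y).const_mul (l n * I)).cexp).const_mul (I ^ k * b k n)
      refine this.congr_deriv ?_
      simp only [g, b]; push_cast; ring) (hn (k + 1)) (y₀ := t)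
      (Summable.of_norm_bounded (hb k) fun n => hn k n t) t
  obtain ⟨h1, h2⟩ := tower (fun k t => ∑' n, g k n t) h
  refine ⟨_, h1, fun n => ?_⟩
  rw [h2]
  simp only [g, X, sub_self, Complex.ofReal_zero, mul_zero, Complex.exp_zero, mul_one, tsum_mul_left,
    ← Complex.ofReal_tsum, norm_mul, norm_pow, Complex.norm_I, one_pow, one_mul, Complex.norm_real]
  refine le_trans ?_ (((hb n).le_tsum n fun _ _ => b0 _ _).trans (le_abs_self _))
  simp only [b, mul_div_assoc, div_self (pow_pos (l0 n) n).ne', mul_one, l, mul_add, ← mul_assoc,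
    ← mul_pow]
  norm_num
  exact (le_abs_self _).trans (le_add_of_nonneg_right (by positivity))

variable {B : Type} [NormedRing B] [NormedAlgebra ℂ B] [CompleteSpace B] {φ : (ℝ → ℂ) → B}

structure Hom (φ : (ℝ → ℂ) → B) : Prop where
  add : ∀ f g, Sm f → Sm g → φ (f + g) = φ f + φ g
  mul : ∀ f g, Sm f → Sm g → φ (f * g) = φ f * φ g
  smul : ∀ (c : ℂ) f, Sm f → φ (c • f) = c • φ f
  eq : ∀ f g, Sm f → Sm g → Set.EqOn f g (Set.Icc (0 : ℝ) 1) → φ f = φ g
  sur : ∀ b, ∃ f, Sm f ∧ φ f = b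

lemma sm1 : Sm 1 := contDiff_const
lemma Sm.add' {f g : ℝ → ℂ} (hf : Sm f) (hg : Sm g) : Sm (f + g) := hf.add hg
lemma Sm.mul' {f g : ℝ → ℂ} (hf : Sm f) (hg : Sm g) : Sm (f * g) := hf.mul hg
lemma Sm.smul' {f : ℝ → ℂ} (hf : Sm f) (c : ℂ) : Sm (c • f) := hf.const_smul c
lemma Sm.pow' {f : ℝ → ℂ} (hf : Sm f) (n : ℕ) : Sm (f ^ n) := hf.pow n

omit [CompleteSpace B] in
lemma Hom.one (H : Hom φ) : φ 1 = 1 := by
  obtain ⟨f, hf, e⟩ := H.sur 1
  rw [← mul_one (φ 1), ← e, ← H.mul _ _ sm1 hf, one_mul]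

omit [CompleteSpace B] in
lemma Hom.aff (H : Hom φ) {g : ℝ → ℂ} (hg : Sm g) (s : ℝ) (c : ℂ) :
    φ (c • (1 : ℝ → ℂ) + X s * g) = c • 1 + φ (X s) * φ g := by
  rw [H.add _ _ (sm1.smul' c) ((X_sm s).mul' hg), H.smul _ _ sm1, H.one, H.mul _ _ (X_sm s) hg]

lemma Hom.key (H : Hom φ) (s : ℝ) : ∃ m u, Sm u ∧ u s ≠ 0 ∧ φ (X s ^ m * u) = 0 := by
  by_contra hn
  have h0 : ∀ m u, Sm u → φ (X s ^ m * u) = 0 → u s = 0 := fun m u hu h =>
    by_contra fun h' => hn ⟨m, u, hu, h', h⟩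
  have flat : ∀ n m u, Sm u → φ (X s ^ m * u) = 0 → iteratedDeriv n u s = 0 := by
    intro n
    induction n with
    | zero => simpa using h0
    | succ n ih =>
      intro m u hu h
      have e := J_eq hu s
      rw [e, jet (J_sm hu s), ih (m + 1) _ (J_sm hu s), mul_zero]
      have hz := h0 m u hu h
      rw [e, hz, zero_smul, zero_add, ← mul_assoc, ← pow_succ] at h
      exact h
  let T : ℂ × B →L[ℂ] B := (ContinuousLinearMap.toSpanSingleton ℂ (1 : B)).coprod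
    (ContinuousLinearMap.mul ℂ B (φ (X s)))
  have hT : ∀ q, T q = q.1 • 1 + φ (X s) * q.2 := fun q => by simp [T]
  obtain ⟨C, C0, hC⟩ := T.exists_preimage_norm_le fun y => by
    obtain ⟨f, hf, rfl⟩ := H.sur y
    exact ⟨(f s, φ (J f s 0)), by rw [hT, ← H.aff (J_sm hf s), ← J_eq hf s]⟩
  have dec : ∀ f, Sm f → ∃ c g, Sm g ∧ ‖c‖ ≤ C * ‖φ f‖ ∧ ‖φ g‖ ≤ C * ‖φ f‖ ∧
      ∀ n, iteratedDeriv n f s = iteratedDeriv n (c • (1 : ℝ → ℂ) + X s * g) s := fun f hf => by
    obtain ⟨⟨c, b⟩, h1, h2⟩ := hC (φ f)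
    obtain ⟨g, hg, rfl⟩ := H.sur b
    have sw := (sm1.smul' c).add' ((X_sm s).mul' hg)
    refine ⟨c, g, hg, (norm_fst_le _).trans h2, (norm_snd_le _).trans h2, fun n => ?_⟩
    have := flat n 0 (f + (-1 : ℂ) • (c • (1 : ℝ → ℂ) + X s * g)) (hf.add' (sw.smul' _)) (by
      rw [pow_zero, one_mul, H.add _ _ hf (sw.smul' _), H.smul _ _ sw, H.aff hg, ← h1, hT, neg_one_smul, add_neg_cancel])
    rw [neg_one_smul, ← sub_eq_add_neg, iteratedDeriv_sub
      (hf.of_le (by exact_mod_cast le_top)).contDiffAt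
      (sw.of_le (by exact_mod_cast le_top)).contDiffAt] at this
    exact sub_eq_zero.mp this
  have bd : ∀ n, ∃ D : ℝ, 0 ≤ D ∧ ∀ f, Sm f → ‖iteratedDeriv n f s‖ ≤ D * ‖φ f‖ := by
    intro n
    induction n with
    | zero =>
      refine ⟨C, C0.le, fun f hf => ?_⟩
      obtain ⟨c, g, -, h1, -, h3⟩ := dec f hf
      rw [h3]; simpa [X] using h1
    | succ n ih =>
      obtain ⟨D, D0, hD⟩ := ih
      refine ⟨(n + 1) * (D * C), by positivity, fun f hf => ?_⟩
      obtain ⟨c, g, hg, -, h2, h3⟩ := dec f hf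
      rw [h3, jet hg, norm_mul, mul_assoc, mul_assoc]
      refine mul_le_mul (le_of_eq ?_) ((hD g hg).trans (mul_le_mul_of_nonneg_left h2 D0))
        (norm_nonneg _) (by positivity)
      exact_mod_cast Complex.norm_natCast (n + 1)
  choose D D0 hD using bd
  obtain ⟨f, hf, h⟩ := borel s fun n => D n * n + 1
  obtain ⟨n, hn⟩ := exists_nat_ge ‖φ f‖
  nlinarith [h n, hD n f hf, mul_le_mul_of_nonneg_left hn (D0 n)]

def Cl (φ : (ℝ → ℂ) → B) (w : ℝ → ℂ) : Prop := ∃ n : ℕ, ∃ C : ℝ, 0 ≤ C ∧ ∀ f, Sm f →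
  ‖φ (w * f)‖ ≤ C * ∑ k ∈ Finset.range (n + 1), p f k

omit [CompleteSpace B] in
lemma Hom.step (H : Hom φ) {s : ℝ} (hs : s ∈ Set.Icc (0 : ℝ) 1) {w : ℝ → ℂ} (hw : Sm w)
    (h : Cl φ (w * X s)) : Cl φ w := by
  obtain ⟨n, C, C0, h⟩ := h
  refine ⟨n + 1, ‖φ w‖ + C, by positivity, fun f hf => ?_⟩
  have e : w * f = f s • w + w * X s * J f s 0 := by
    conv_lhs => rw [J_eq hf s]
    simp only [mul_add, mul_smul_comm, mul_one, mul_assoc]
  have p0 : ∀ k, 0 ≤ p f k := fun k => (norm_nonneg _).trans (le_p hf k hs)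
  have h1 := h _ (J_sm hf s)
  have h2 : ∑ k ∈ Finset.range (n + 1), p (J f s 0) k ≤ ∑ k ∈ Finset.range (n + 1), p f (k + 1) :=
    Finset.sum_le_sum fun k _ => p_J hf hs k
  have h3 : ‖f s‖ ≤ p f 0 := by simpa using le_p hf 0 hs
  have h4 : 0 ≤ ∑ k ∈ Finset.range (n + 1), p f (k + 1) := Finset.sum_nonneg fun k _ => p0 _
  rw [e, H.add _ _ (hw.smul' _) ((hw.mul' (X_sm s)).mul' (J_sm hf s)), H.smul _ _ hw,
    Finset.sum_range_succ' _ (n + 1)]
  refine (norm_add_le _ _).trans ?_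
  rw [norm_smul]
  nlinarith [mul_le_mul_of_nonneg_left h2 C0, mul_le_mul_of_nonneg_right h3 (norm_nonneg (φ w)),
    mul_nonneg C0 (p0 0), mul_nonneg h4 (norm_nonneg (φ w))]

omit [CompleteSpace B] in
lemma Hom.stepn (H : Hom φ) {s : ℝ} (hs : s ∈ Set.Icc (0 : ℝ) 1) (m : ℕ) :
    ∀ w, Sm w → Cl φ (w * X s ^ m) → Cl φ w := by
  induction m with
  | zero => intro w _ h; simpa using h
  | succ m ih =>
    intro w hw h
    rw [pow_succ, ← mul_assoc] at h
    exact ih w hw (H.step hs (hw.mul' ((X_sm s).pow' m)) h)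

lemma sm_prod (T : Finset ℝ) (m : ℝ → ℕ) : Sm (∏ s ∈ T, X s ^ m s) :=
  Finset.prod_induction _ Sm (fun _ _ => Sm.mul') sm1 fun s _ => (X_sm s).pow' _

omit [CompleteSpace B] in
lemma Hom.stepT (H : Hom φ) (m : ℝ → ℕ) (T : Finset ℝ) (hT : ∀ s ∈ T, s ∈ Set.Icc (0 : ℝ) 1) :
    ∀ w, Sm w → Cl φ (w * ∏ s ∈ T, X s ^ m s) → Cl φ w := by
  classical
  induction T using Finset.induction_on with
  | empty => intro w _ h; simpa using h
  | insert a T ha ih =>
    intro w hw h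
    rw [Finset.prod_insert ha, ← mul_assoc] at h
    exact H.stepn (hT a (by simp)) _ w hw (ih (fun s hs => hT s (by simp [hs])) _
      (hw.mul' ((X_sm a).pow' _)) h)

theorem Hom.main (H : Hom φ) : Cl φ 1 := by
  classical
  choose m u hu hu0 hk using H.key
  obtain ⟨T, hT, hc⟩ := (isCompact_Icc (a := (0 : ℝ)) (b := 1)).elim_nhds_subcover
    (fun s => {t | u s t ≠ 0}) fun s _ => (hu s).continuous.continuousAt.eventually_ne (hu0 s)
  refine H.stepT m T hT 1 sm1 ⟨0, 0, le_rfl, fun f hf => ?_⟩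
  have z0 : φ 0 = 0 := by simpa using H.smul 0 1 sm1
  let v : ℝ → ℝ → ℂ := fun s t => (starRingEnd ℂ) (u s t)
  have hv : ∀ s, Sm (v s) := fun s => Complex.conjCLE.contDiff.comp (hu s)
  let ψ : ℝ → ℝ := fun t => ∑ s ∈ T, ‖u s t‖ ^ 2 + (expNegInvGlue (-t) + expNegInvGlue (t - 1))
  have e1 : ∀ t, (∑ s ∈ T, u s * v s) t = ((∑ s ∈ T, ‖u s t‖ ^ 2 : ℝ) : ℂ) := fun t => by
    simp [v, Complex.mul_conj, Complex.normSq_eq_norm_sq]
  have ψ0 : ∀ t, 0 < ψ t := fun t => by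
    have a1 : 0 ≤ ∑ s ∈ T, ‖u s t‖ ^ 2 := Finset.sum_nonneg fun _ _ => by positivity
    have a2 := expNegInvGlue.nonneg (-t)
    have a3 := expNegInvGlue.nonneg (t - 1)
    by_cases ht : t ∈ Set.Icc (0 : ℝ) 1
    · obtain ⟨s, hs, h⟩ := Set.mem_iUnion₂.mp (hc ht)
      have : 0 < ∑ s ∈ T, ‖u s t‖ ^ 2 :=
        Finset.sum_pos' (fun _ _ => by positivity) ⟨s, hs, pow_pos (norm_pos_iff.mpr h) 2⟩
      simp only [ψ]; linarith
    · rw [Set.mem_Icc, not_and_or, not_le, not_le] at ht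
      rcases ht with h | h
      · have := expNegInvGlue.pos_of_pos (neg_pos.mpr h); simp only [ψ]; linarith
      · have := expNegInvGlue.pos_of_pos (sub_pos.mpr h); simp only [ψ]; linarith
  have sW : Sm (∑ s ∈ T, u s * v s) :=
    Finset.sum_induction _ Sm (fun _ _ => Sm.add') contDiff_const fun s _ => (hu s).mul' (hv s)
  have sψ : Sm fun t => ((ψ t : ℝ) : ℂ) := by
    have : (fun t => ((ψ t : ℝ) : ℂ)) = (∑ s ∈ T, u s * v s) +
        fun t => Complex.ofRealCLM (expNegInvGlue (-t) + expNegInvGlue (t - 1)) := by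
      funext t; rw [Pi.add_apply, e1]; simp [ψ]
    rw [this]
    exact sW.add' (Complex.ofRealCLM.contDiff.comp ((expNegInvGlue.contDiff.comp contDiff_neg).add
      (expNegInvGlue.contDiff.comp (contDiff_id.sub contDiff_const))))
  have si : Sm fun t => ((ψ t : ℝ) : ℂ)⁻¹ := sψ.inv fun t => by exact_mod_cast (ψ0 t).ne'
  have sP := sm_prod T m
  have kill : ∀ S : Finset ℝ, S ⊆ T → φ ((∏ s ∈ T, X s ^ m s) * ∑ s ∈ S, u s * v s) = 0 := by
    intro S
    induction S using Finset.induction_on with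
    | empty => intro _; simpa using z0
    | insert a S ha ih =>
      intro h
      have sS : Sm (∑ s ∈ S, u s * v s) :=
        Finset.sum_induction _ Sm (fun _ _ => Sm.add') contDiff_const fun s _ => (hu s).mul' (hv s)
      rw [Finset.sum_insert ha, mul_add, H.add _ _ (sP.mul' ((hu a).mul' (hv a))) (sP.mul' sS),
        ih fun x hx => h (by simp [hx]), add_zero,
        ← Finset.mul_prod_erase T _ (h (Finset.mem_insert_self a S)), mul_mul_mul_comm,
        H.mul _ _ (((X_sm a).pow' _).mul' (hu a)) ((sm_prod _ m).mul' (hv a)), hk, zero_mul]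
  rw [one_mul, H.eq _ ((∏ s ∈ T, X s ^ m s) * (∑ s ∈ T, u s * v s) *
      ((fun t => ((ψ t : ℝ) : ℂ)⁻¹) * f)) (sP.mul' hf) ((sP.mul' sW).mul' (si.mul' hf)) fun t ht => ?_,
    H.mul _ _ (sP.mul' sW) (si.mul' hf), kill T le_rfl]
  · simp
  · have e2 : ψ t = ∑ s ∈ T, ‖u s t‖ ^ 2 := by
      simp only [ψ]
      rw [expNegInvGlue.zero_of_nonpos (by linarith [ht.1]),
        expNegInvGlue.zero_of_nonpos (by linarith [ht.2])]
      simp
    have e3 : ((ψ t : ℝ) : ℂ) ≠ 0 := by exact_mod_cast (ψ0 t).ne'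
    rw [Pi.mul_apply, Pi.mul_apply, Pi.mul_apply, Pi.mul_apply, e1, ← e2]
    field_simp

end

end Pool.Agent.H58.Epi
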