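import Mathlib

set_option autoImplicit false

namespace Pool.Agent.H58.FRec
open Filter Topology Finset

theorem residual_of {X : Type} [NormedAddCommGroup X] [NormedSpace ℝ X] (T : X →L[ℝ] X)
    (hC : ∀ (z : X) (n : ℕ), ∑ k ∈ range n, ‖(T ^ k) z‖ ≤ 2 * n * ‖z‖)
    (hd : Dense {d : X | ∃ p, 0 < p ∧ (T ^ p) d = d}) :
    {x : X | ∀ U ∈ nhds x, ∃ δ : ℝ, 0 < δ ∧ ∃ N : ℕ, ∀ n : ℕ, N ≤ n →
      δ * (n : ℝ) ≤ ((Set.ncard {k : ℕ | k < n ∧ (T ^ k) x ∈ U} : ℕ) : ℝ)} ∈ residual X := by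
  classical
  have hG : ∀ m : ℕ, {x : X | ∃ d : X, ∃ p : ℕ, 0 < p ∧ (T ^ p) d = d ∧
      ‖x - d‖ < 1 / (m + 1) / (16 * p)} ∈ residual X := by
    intro m
    refine residual_of_dense_open ?_ (hd.mono ?_)
    · simp only [Set.ofPred_exists, Set.ofPred_and]
      refine isOpen_iUnion fun d => isOpen_iUnion fun p => ?_
      exact (isOpen_const).inter (isOpen_const.inter (isOpen_lt (by fun_prop) continuous_const))
    · rintro d ⟨p, hp, h⟩
      exact ⟨d, p, hp, h, by rw [sub_self, norm_zero]; positivity⟩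
  filter_upwards [countable_iInter_mem.2 hG] with x hx U hU
  obtain ⟨ε₀, hε₀, hb⟩ := Metric.nhds_basis_closedBall.mem_iff.1 hU
  obtain ⟨m, hm⟩ := exists_nat_one_div_lt hε₀
  obtain ⟨d, p, hp, hpd, hz⟩ := Set.mem_iInter.1 hx m
  obtain ⟨ε, hε⟩ : ∃ ε : ℝ, ε = 1 / (m + 1) := ⟨_, rfl⟩
  have hε0 : 0 < ε := by rw [hε]; positivity
  rw [← hε] at hz hm
  have hp' : (1 : ℝ) ≤ p := by exact_mod_cast hp
  have hper : ∀ i, (T ^ (p * i)) d = d := by
    intro i
    induction i with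
    | zero => simp
    | succ i ih => rw [Nat.mul_succ, pow_add, mul_apply_eq_comp, hpd, ih]
  rw [lt_div_iff₀ (by positivity)] at hz
  refine ⟨1 / (2 * p), by positivity, 4 * p, fun n hn => ?_⟩
  set S := (range (n / p)).image (p * ·) with hS
  have hcard : S.card = n / p := by
    rw [hS, card_image_of_injective _ (mul_right_injective₀ hp.ne'), card_range]
  have hSn : S ⊆ range n := by
    intro k hk
    obtain ⟨i, hi, rfl⟩ := mem_image.1 hk
    have h1 := Nat.mul_lt_mul_of_pos_left (mem_range.1 hi) hp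
    have h2 := Nat.mul_div_le n p
    exact mem_range.2 (by omega)
  have h1 := card_filter_add_card_filter_not (s := S) (fun k => (T ^ k) x ∈ U)
  have h2 : (S.filter fun k => ¬ (T ^ k) x ∈ U).card • (ε / 2) ≤
      ∑ k ∈ S.filter (fun k => ¬ (T ^ k) x ∈ U), ‖(T ^ k) (x - d)‖ := by
    refine card_nsmul_le_sum _ _ _ fun k hk => ?_
    obtain ⟨hk1, hk2⟩ := mem_filter.1 hk
    obtain ⟨i, -, rfl⟩ := mem_image.1 hk1
    by_contra hc
    refine hk2 (hb ?_)
    rw [mem_closedBall_iff_norm]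
    have e : (T ^ (p * i)) x - x = (T ^ (p * i)) (x - d) - (x - d) := by
      rw [map_sub, hper]; abel
    rw [e]
    have := norm_sub_le ((T ^ (p * i)) (x - d)) (x - d)
    have := norm_nonneg (x - d)
    nlinarith
  have h3 := (h2.trans (sum_le_sum_of_subset_of_nonneg ((filter_subset _ _).trans hSn)
    fun _ _ _ => norm_nonneg _)).trans (hC _ n)
  have h4 : ((S.filter fun k => (T ^ k) x ∈ U).card : ℝ) ≤
      (Set.ncard {k : ℕ | k < n ∧ (T ^ k) x ∈ U} : ℕ) := by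
    rw [← Set.ncard_coe_finset]
    refine Nat.cast_le.2 (Set.ncard_le_ncard ?_ ((Set.finite_lt_nat n).subset fun k hk => hk.1))
    intro k hk
    obtain ⟨hk1, hk2⟩ := mem_filter.1 (mem_coe.1 hk)
    exact ⟨mem_range.1 (hSn hk1), hk2⟩
  refine le_trans ?_ h4
  rw [nsmul_eq_mul] at h3
  have h5 : n < p * (n / p + 1) := Nat.lt_mul_div_succ n hp
  rw [← hcard, ← h1] at h5
  obtain ⟨g, hg⟩ : ∃ g, g = (S.filter fun k => (T ^ k) x ∈ U).card := ⟨_, rfl⟩
  obtain ⟨b, hb'⟩ : ∃ b, b = (S.filter fun k => ¬ (T ^ k) x ∈ U).card := ⟨_, rfl⟩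
  rw [← hg, ← hb'] at h5
  rw [← hb'] at h3
  rw [← hg]
  have h6 : (n : ℝ) < p * (g + b + 1) := by exact_mod_cast h5
  have h7 : (4 * p : ℝ) ≤ n := by exact_mod_cast hn
  have h8 : (4 * p * b : ℝ) ≤ n := by
    have a1 := mul_le_mul_of_nonneg_left h3 (show (0 : ℝ) ≤ 8 * p by positivity)
    have a2 := mul_le_mul_of_nonneg_left hz.le (show (0 : ℝ) ≤ n by positivity)
    have : (4 * p * b) * ε ≤ n * ε := by nlinarith
    exact le_of_mul_le_mul_right this hε0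
  rw [one_div, inv_mul_le_iff₀ (by positivity)]
  nlinarith

section op
variable {Ω : Type} (σ : Equiv.Perm Ω) (w : Ω → ℝ) (hw : ∀ a, 0 < w a)
  (hb : ∀ a, w (σ a) ≤ 4 * w a)

abbrev L (Ω : Type) : Type := lp (fun _ : Ω => ℝ) 1

lemma hasSum_norm (f : L Ω) : HasSum (fun a => |f a|) ‖f‖ := by
  simpa using lp.hasSum_norm (p := 1) (by simp) f

include hw hb in
lemma bd (f : L Ω) (a : Ω) : |w (σ a) / w (σ.symm (σ a)) * f (σ.symm (σ a))| ≤ 4 * |f a| := by
  have := hw a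
  have := hw (σ a)
  rw [σ.symm_apply_apply, abs_mul, abs_of_pos (by positivity)]
  exact mul_le_mul_of_nonneg_right ((div_le_iff₀ (hw a)).2 (hb a)) (abs_nonneg _)

noncomputable def T : L Ω →L[ℝ] L Ω :=
  LinearMap.mkContinuous
    { toFun := fun f => ⟨fun a => w a / w (σ.symm a) * f (σ.symm a), by
        refine memℓp_gen ?_
        rw [← σ.summable_iff]
        refine Summable.of_nonneg_of_le (fun a => by simp; positivity) (fun a => ?_)
          ((hasSum_norm f).summable.mul_left 4)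
        simpa [abs_div] using bd σ w hw hb f a⟩
      map_add' := fun f g => by ext a; simp [mul_add]
      map_smul' := fun c f => by ext a; simp; ring }
    4 (fun f => by
      refine hasSum_le (fun a => ?_) (σ.hasSum_iff.2 (hasSum_norm _)) ((hasSum_norm f).mul_left 4)
      exact bd σ w hw hb f a)

lemma T_pow (k : ℕ) (f : L Ω) (a : Ω) :
    (T σ w hw hb ^ k) f ((σ ^ k) a) = w ((σ ^ k) a) / w a * f a := by
  induction k with
  | zero => simp [(hw a).ne']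
  | succ k ih =>
    rw [pow_succ', pow_succ', Equiv.Perm.mul_apply]
    change w (σ ((σ ^ k) a)) / w (σ.symm (σ ((σ ^ k) a))) *
      (T σ w hw hb ^ k) f (σ.symm (σ ((σ ^ k) a))) = _
    rw [σ.symm_apply_apply, ih]
    have := hw ((σ ^ k) a)
    field_simp

lemma ces (hc : ∀ a n, ∑ k ∈ range n, w ((σ ^ k) a) ≤ 2 * n * w a) (f : L Ω) (n : ℕ) :
    ∑ k ∈ range n, ‖(T σ w hw hb ^ k) f‖ ≤ 2 * n * ‖f‖ := by
  refine hasSum_le (fun a => ?_) (hasSum_sum fun k _ =>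
    (σ ^ k).hasSum_iff.2 (hasSum_norm ((T σ w hw hb ^ k) f))) ((hasSum_norm f).mul_left _)
  simp only [Function.comp, T_pow]
  have e : ∀ k ∈ range n, |w ((σ ^ k) a) / w a * f a| = w ((σ ^ k) a) * (|f a| / w a) := by
    intro k _
    rw [abs_mul, abs_of_pos (div_pos (hw _) (hw _))]; ring
  rw [sum_congr rfl e, ← sum_mul]
  have := hw a
  refine (mul_le_mul_of_nonneg_right (hc a n) (by positivity)).trans (le_of_eq ?_)
  field_simp

lemma dense_per (hp : ∀ a, ∃ p, 0 < p ∧ (σ ^ p) a = a) :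
    Dense {d : L Ω | ∃ p, 0 < p ∧ (T σ w hw hb ^ p) d = d} := by
  classical
  intro f
  refine mem_closure_of_tendsto (lp.hasSum_single (by simp) f) (Eventually.of_forall fun s => ?_)
  refine sum_induction _ (fun d => d ∈ {d : L Ω | ∃ p, 0 < p ∧ (T σ w hw hb ^ p) d = d})
    ?_ ⟨1, one_pos, map_zero _⟩ fun a _ => ?_
  · have hper : ∀ (d : L Ω) p, (T σ w hw hb ^ p) d = d → ∀ i, (T σ w hw hb ^ (p * i)) d = d := by
      intro d p h i
      induction i with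
      | zero => simp
      | succ i ih => rw [Nat.mul_succ, pow_add, mul_apply_eq_comp, h, ih]
    rintro d e ⟨p, hp, h1⟩ ⟨q, hq, h2⟩
    refine ⟨p * q, by positivity, ?_⟩
    rw [map_add, hper d p h1, mul_comm, hper e q h2]
  · obtain ⟨p, hp0, h⟩ := hp a
    refine ⟨p, hp0, ?_⟩
    ext b
    obtain ⟨c, rfl⟩ := (σ ^ p).surjective b
    rw [T_pow]
    by_cases hc : c = a
    · subst hc; rw [h, div_self (hw c).ne', one_mul]
    · have : (σ ^ p) c ≠ a := fun h' => hc ((σ ^ p).injective (h'.trans h.symm))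
      rw [lp.single_apply_ne _ _ _ hc, lp.single_apply_ne _ _ _ this, mul_zero]

end op

noncomputable def V (j i : ℕ) : ℝ := 2 ^ j / √(4 ^ j - (i % 4 ^ j : ℕ))

lemma sqrt_four (j : ℕ) : √((4 : ℝ) ^ j) = 2 ^ j := by
  rw [show (4 : ℝ) ^ j = (2 ^ j) ^ 2 by rw [← pow_mul, mul_comm, pow_mul]; norm_num]
  exact Real.sqrt_sq (by positivity)

lemma den (j i : ℕ) : (1 : ℝ) ≤ 4 ^ j - (i % 4 ^ j : ℕ) := by
  have : i % 4 ^ j + 1 ≤ 4 ^ j := Nat.mod_lt _ (by positivity)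
  have : ((i % 4 ^ j : ℕ) : ℝ) + 1 ≤ 4 ^ j := by exact_mod_cast this
  linarith

lemma one_le_V (j i : ℕ) : 1 ≤ V j i := by
  rw [V, le_div_iff₀ (Real.sqrt_pos.2 (by linarith [den j i])), one_mul, ← sqrt_four]
  exact Real.sqrt_le_sqrt (by linarith [(Nat.cast_nonneg (i % 4 ^ j) : (0 : ℝ) ≤ _)])

lemma VA (j i n : ℕ) (h : i % 4 ^ j + n ≤ 4 ^ j) : ∑ k ∈ range n, V j (i + k) ≤
    2 * 2 ^ j * (√(4 ^ j - (i % 4 ^ j : ℕ)) - √(4 ^ j - (i % 4 ^ j : ℕ) - n)) := by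
  induction n with
  | zero => simp
  | succ n ih =>
    rw [sum_range_succ]
    have e : (i + n) % 4 ^ j = i % 4 ^ j + n := by
      rw [← Nat.mod_add_mod, Nat.mod_eq_of_lt (by omega)]
    have h1 := den j (i + n)
    have h2 : V j (i + n) ≤ 2 * 2 ^ j * (√(4 ^ j - (i % 4 ^ j : ℕ) - n) -
        √(4 ^ j - (i % 4 ^ j : ℕ) - (n + 1 : ℕ))) := by
      rw [V]
      rw [e] at h1 ⊢
      push_cast at h1 ⊢
      rw [← sub_sub, ← sub_sub] at *
      obtain ⟨t, ht⟩ : ∃ t : ℝ, t = 4 ^ j - ((i % 4 ^ j : ℕ) : ℝ) - n := ⟨_, rfl⟩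
      rw [← ht] at h1 ⊢
      have a1 := Real.sq_sqrt (show 0 ≤ t by linarith)
      have a2 := Real.sq_sqrt (show 0 ≤ t - 1 by linarith)
      rw [div_le_iff₀ (Real.sqrt_pos.2 (by linarith)), mul_assoc, mul_comm 2, mul_assoc]
      refine le_mul_of_one_le_right (by positivity) ?_
      nlinarith [sq_nonneg (√t - √(t - 1))]
    linarith [ih (by omega)]

lemma VB (j i n : ℕ) (h : i % 4 ^ j + n ≤ 4 ^ j) : ∑ k ∈ range n, V j (i + k) ≤ 2 * n * V j i := by
  refine (VA j i n h).trans ?_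
  have h1 := den j i
  have h2 : ((i % 4 ^ j : ℕ) : ℝ) + n ≤ 4 ^ j := by exact_mod_cast h
  rw [V]
  obtain ⟨t, ht⟩ : ∃ t : ℝ, t = 4 ^ j - ((i % 4 ^ j : ℕ) : ℝ) := ⟨_, rfl⟩
  rw [← ht] at h1 ⊢
  have a1 := Real.sq_sqrt (show 0 ≤ t by linarith)
  have a2 := Real.sq_sqrt (show 0 ≤ t - n by linarith)
  have a3 : √(t - n) ≤ √t := Real.sqrt_le_sqrt (by linarith [(Nat.cast_nonneg n : (0 : ℝ) ≤ _)])
  have a4 := Real.sqrt_nonneg (t - n)
  have a5 : (√t - √(t - n)) * √t ≤ n := by nlinarith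
  rw [← mul_div_assoc, le_div_iff₀ (Real.sqrt_pos.2 (by linarith))]
  have : (0 : ℝ) < 2 ^ j := by positivity
  nlinarith

lemma V_zero (j i : ℕ) (h : i % 4 ^ j = 0) : V j i = 1 := by
  rw [V, h, Nat.cast_zero, sub_zero, sqrt_four, div_self (by positivity)]

lemma VC (j n : ℕ) : ∀ i, ∑ k ∈ range n, V j (i + k) ≤ 2 * n * V j i := by
  induction n using Nat.strong_induction_on with
  | _ n ih =>
    intro i
    by_cases h : i % 4 ^ j + n ≤ 4 ^ j
    · exact VB j i n h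
    · have h0 : i % 4 ^ j < 4 ^ j := Nat.mod_lt _ (by positivity)
      obtain ⟨s, hs⟩ : ∃ s, i % 4 ^ j + s = 4 ^ j := ⟨4 ^ j - i % 4 ^ j, by omega⟩
      obtain ⟨m, rfl⟩ : ∃ m, n = s + m := ⟨n - s, by omega⟩
      have h1 := ih m (by omega) (i + s)
      rw [V_zero j (i + s) (by rw [← Nat.mod_add_mod, hs, Nat.mod_self])] at h1
      rw [sum_range_add]
      simp only [← add_assoc]
      have h2 := mul_le_mul_of_nonneg_left (one_le_V j i) (show (0 : ℝ) ≤ 2 * m by positivity)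
      push_cast
      linarith [VB j i s hs.le]

abbrev Om : Type := Σ j : ℕ, ZMod (4 ^ (j + 1))

def sh : Equiv.Perm Om := Equiv.sigmaCongrRight fun _ => Equiv.addRight 1

lemma sh_pow (k j : ℕ) (a : ZMod (4 ^ (j + 1))) : (sh ^ k) ⟨j, a⟩ = ⟨j, a + k⟩ := by
  induction k with
  | zero => simp
  | succ k ih =>
    rw [pow_succ', Equiv.Perm.mul_apply, ih]
    change (⟨j, a + k + 1⟩ : Om) = _
    rw [Nat.cast_succ, add_assoc]

noncomputable def W (a : Om) : ℝ := if a.2 = -1 then 1 else V a.1 a.2.val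

lemma W_le (a : Om) : W a ≤ V a.1 a.2.val := by
  unfold W; split_ifs; exacts [one_le_V _ _, le_rfl]

lemma W_pos (a : Om) : 0 < W a := by
  unfold W; split_ifs; exacts [one_pos, one_pos.trans_le (one_le_V _ _)]

lemma V_add (j k : ℕ) (a : ZMod (4 ^ (j + 1))) : V j (a + k).val = V j (a.val + k) := by
  have : (a + k).val % 4 ^ j = (a.val + k) % 4 ^ j := by
    rw [ZMod.val_add, ZMod.val_natCast, Nat.add_mod_mod,
      Nat.mod_mod_of_dvd _ (pow_dvd_pow 4 (Nat.le_succ j))]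
  rw [V, V, this]

lemma W_ces (a : Om) (n : ℕ) : ∑ k ∈ range n, W ((sh ^ k) a) ≤ 2 * n * W a := by
  obtain ⟨j, a⟩ := a
  have key : ∀ (a : ZMod (4 ^ (j + 1))) n,
      ∑ k ∈ range n, W ((sh ^ k) ⟨j, a⟩) ≤ 2 * n * V j a.val := fun a n =>
    (sum_le_sum fun k _ => by rw [sh_pow, ← V_add]; exact W_le _).trans (VC j n a.val)
  by_cases h : a = -1
  · subst h
    have e : W ⟨j, -1⟩ = 1 := if_pos rfl
    rcases n with _ | m
    · simp
    · have h1 := key 0 m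
      rw [V_zero _ _ (by simp)] at h1
      rw [sum_range_succ', pow_zero, Equiv.Perm.one_apply, e]
      have e2 : ∀ k ∈ range m, W ((sh ^ (k + 1)) ⟨j, -1⟩) = W ((sh ^ k) ⟨j, 0⟩) := by
        intro k _
        rw [sh_pow, sh_pow]; congr 2; push_cast; ring
      rw [sum_congr rfl e2, Nat.cast_succ]
      linarith
  · have e : W ⟨j, a⟩ = V j a.val := if_neg h
    rw [e]; exact key a n

lemma W_bd (a : Om) : W (sh a) ≤ 4 * W a := by
  have := W_ces a 2
  simp only [sum_range_succ, range_zero, sum_empty, pow_zero, pow_one, Equiv.Perm.one_apply] at this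
  push_cast at this
  linarith [W_pos a]

noncomputable def yv : L Om := ⟨fun a => if a.2 = -1 then (1 / 2) ^ a.1 else 0, by
  refine memℓp_gen ?_
  rw [← Function.Injective.summable_iff (g := fun j : ℕ => (⟨j, -1⟩ : Om))
    (fun a b h => congrArg Sigma.fst h)]
  · simpa [Function.comp_def] using summable_geometric_two
  · rintro ⟨j, a⟩ h
    have : a ≠ -1 := fun h' => h ⟨j, by rw [h']⟩
    simp [this]⟩

lemma far (k : ℕ) (hk : k ≠ 0) : 1 ≤ ‖(T sh W W_pos W_bd ^ k) yv - yv‖ := by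
  obtain ⟨j, h1, h2⟩ : ∃ j, 4 ^ j ∣ k ∧ ¬ 4 ^ (j + 1) ∣ k :=
    ⟨padicValNat 4 k, pow_padicValNat_dvd, by
      rw [padicValNat_def' (by norm_num) hk]
      exact (Nat.finiteMultiplicity_iff.2 ⟨by norm_num, by omega⟩).not_pow_dvd_of_multiplicity_lt
        (Nat.lt_succ_self _)⟩
  have h3 : (-1 + k : ZMod (4 ^ (j + 1))) ≠ -1 := by
    intro h
    exact h2 ((ZMod.natCast_eq_zero_iff _ _).1 (by linear_combination h))
  refine le_trans (le_of_eq ?_) (lp.norm_apply_le_norm one_ne_zero _ ((sh ^ k) ⟨j, -1⟩))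
  rw [lp.coeFn_sub, Pi.sub_apply, T_pow, sh_pow]
  have e1 : W ⟨j, -1⟩ = 1 := if_pos rfl
  have e2 : yv ⟨j, -1⟩ = (1 / 2) ^ j := if_pos rfl
  have e3 : yv ⟨j, -1 + k⟩ = 0 := if_neg h3
  have e4 : W ⟨j, -1 + k⟩ = 2 ^ j := by
    refine (if_neg h3).trans ?_
    change V j (-1 + (k : ZMod (4 ^ (j + 1)))).val = _
    obtain ⟨q, hq⟩ : ∃ q, 4 ^ j = q + 1 := 
      ⟨4 ^ j - 1, by have := Nat.one_le_pow j 4 (by norm_num); omega⟩
    have e5 : (-1 : ZMod (4 ^ (j + 1))) = ((3 * 4 ^ j + q : ℕ) : ZMod (4 ^ (j + 1))) := by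
      have : ((3 * 4 ^ j + q + 1 : ℕ) : ZMod (4 ^ (j + 1))) = 0 := by
        rw [show 3 * 4 ^ j + q + 1 = 4 ^ (j + 1) by rw [pow_succ]; omega, ZMod.natCast_self]
      rw [Nat.cast_succ] at this
      linear_combination -this
    have e6 : ((-1 : ZMod (4 ^ (j + 1))).val + k) % 4 ^ j = q := by
      obtain ⟨c, rfl⟩ := h1
      rw [e5, ZMod.val_natCast, Nat.add_mul_mod_self_left,
        Nat.mod_mod_of_dvd _ (pow_dvd_pow 4 (Nat.le_succ j)), add_comm, Nat.add_mul_mod_self_right,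
        Nat.mod_eq_of_lt (by omega)]
    have e7 : (4 : ℝ) ^ j = q + 1 := by exact_mod_cast hq
    rw [V_add, V, e6, e7]; simp
  rw [e1, e2, e3, e4]
  simp

end Pool.Agent.H58.FRec
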