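import Mathlib

set_option autoImplicit false

namespace Pool.Agent.H58.FhcGap
open Filter Topology ZeroAtInfty

abbrev X : Type := C₀(ℕ, ℝ)

lemma norm_le (f : X) (C : ℝ) (hC : 0 ≤ C) (h : ∀ n, |f n| ≤ C) : ‖f‖ ≤ C := by
  rw [← ZeroAtInftyContinuousMap.norm_toBCF_eq_norm]
  exact (BoundedContinuousFunction.norm_le hC).2 h

lemma abs_le_norm (f : X) (n : ℕ) : |f n| ≤ ‖f‖ := by
  rw [← ZeroAtInftyContinuousMap.norm_toBCF_eq_norm]
  exact f.toBCF.norm_coe_le_norm n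

lemma tends (f : X) : Tendsto f atTop (𝓝 0) := by
  have := f.zero_at_infty'
  rwa [cocompact_eq_atTop] at this

noncomputable def mk (g : ℕ → ℝ) (h : Tendsto g atTop (𝓝 0)) : X :=
  ⟨⟨g, continuous_of_discreteTopology⟩, by rwa [cocompact_eq_atTop]⟩

noncomputable def T : X →L[ℝ] X :=
  LinearMap.mkContinuous
    { toFun := fun f => mk (fun n => 2 * f (n + 1)) (by
        simpa using ((tends f).comp (tendsto_add_atTop_nat 1)).const_mul 2)
      map_add' := fun f g => by ext n; change 2 * (f (n + 1) + g (n + 1)) = 2 * f (n + 1) + 2 * g (n + 1); ring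
      map_smul' := fun c f => by ext n; change 2 * (c * f (n + 1)) = c * (2 * f (n + 1)); ring }
    2 (fun f => norm_le _ _ (by positivity) fun n => by
      change |2 * f (n + 1)| ≤ _
      rw [abs_mul, abs_two]
      linarith [abs_le_norm f (n + 1)])

lemma T_iter (k : ℕ) (f : X) (j : ℕ) : (T^[k] f) j = 2 ^ k * f (k + j) := by
  induction k generalizing j with
  | zero => simp
  | succ k ih =>
    rw [Function.iterate_succ_apply']
    change 2 * (T^[k] f) (j + 1) = _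
    rw [ih, pow_succ, show k + (j + 1) = k + 1 + j by ring]; ring

noncomputable def e : ℕ → ℕ × (ℕ →₀ ℚ) := (exists_surjective_nat (ℕ × (ℕ →₀ ℚ))).choose

lemma e_surj : Function.Surjective e := (exists_surjective_nat (ℕ × (ℕ →₀ ℚ))).choose_spec

noncomputable def p (l n : ℕ) : ℝ := ((e l).2 (n % 2 ^ (e l).1) : ℚ)

noncomputable def y (n : ℕ) : ℝ :=
  if |p (padicValNat 2 (Nat.log 2 n)) n| ≤ Nat.log 2 n then p (padicValNat 2 (Nat.log 2 n)) n else 0

lemma y_le (n : ℕ) : |y n| ≤ n := by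
  unfold y
  split_ifs with h
  · exact h.trans (by exact_mod_cast Nat.log_le_self 2 n)
  · simp

lemma y_block (l t n : ℕ) (h1 : 2 ^ (2 ^ l * (2 * t + 1)) ≤ n) (h2 : n < 2 ^ (2 ^ l * (2 * t + 1) + 1))
    (h3 : |p l n| ≤ (2 ^ l * (2 * t + 1) : ℕ)) : y n = p l n := by
  have e1 : Nat.log 2 n = 2 ^ l * (2 * t + 1) := Nat.log_eq_of_pow_le_of_lt_pow h1 h2
  have e2 : padicValNat 2 (2 ^ l * (2 * t + 1)) = l := by
    rw [padicValNat.mul (by positivity) (by positivity), padicValNat.prime_pow,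
      padicValNat.eq_zero_of_not_dvd (by omega), add_zero]
  unfold y
  rw [e1, e2, if_pos h3]

lemma small (B : ℝ) : Tendsto (fun j : ℕ => (5 * j + B) / 2 ^ j) atTop (𝓝 0) := by
  have h1 := tendsto_pow_const_div_const_pow_of_one_lt 1 (one_lt_two (α := ℝ))
  have h2 := tendsto_pow_const_div_const_pow_of_one_lt 0 (one_lt_two (α := ℝ))
  have := (h1.const_mul 5).add (h2.const_mul B)
  simp only [mul_zero, add_zero] at this
  refine this.congr fun j => by ring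

noncomputable def x : X := mk (fun n => y n / 2 ^ n) (by
  refine squeeze_zero_norm (fun n => ?_) (small 0)
  rw [Real.norm_eq_abs, abs_div, abs_of_pos (show (0 : ℝ) < 2 ^ n by positivity)]
  have := y_le n
  have := (Nat.cast_nonneg n : (0 : ℝ) ≤ n)
  gcongr; linarith)

lemma orbit (k j : ℕ) : (T^[k] x) j = y (k + j) / 2 ^ j := by
  rw [T_iter]
  change 2 ^ k * (y (k + j) / 2 ^ (k + j)) = _
  rw [pow_add]; field_simp

lemma fhc (U : Set X) (hU : IsOpen U) (hne : U.Nonempty) :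
    ∃ δ : ℝ, 0 < δ ∧ ∀ᶠ n : ℕ in atTop,
      δ * (n : ℝ) ≤ (({k : ℕ | k < n ∧ (⇑T)^[k] x ∈ U}.ncard : ℕ) : ℝ) := by
  obtain ⟨v, hv⟩ := hne
  obtain ⟨ε, hε, hb⟩ := Metric.nhds_basis_closedBall.mem_iff.1 (hU.mem_nhds hv)
  obtain ⟨L, hL⟩ := Metric.tendsto_atTop.1 (tends v) (ε / 2) (by positivity)
  have hq : ∀ j : ℕ, ∃ q : ℚ, |2 ^ j * v j - q| < ε := fun j => exists_rat_near _ hε
  choose q hq using hq
  set f : ℕ →₀ ℚ := Finsupp.onFinset (Finset.range L) (fun j => if j < L then q j else 0)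
    (fun j hj => by by_contra hc; simp at hc hj; omega) with hf
  have hfa : ∀ j, f j = if j < L then q j else 0 := fun j => rfl
  obtain ⟨B, hB⟩ : ∃ B : ℕ, ∀ j, |(f j : ℝ)| ≤ B := by
    obtain ⟨B, hB⟩ := exists_nat_ge (∑ j ∈ Finset.range L, |(q j : ℝ)|)
    refine ⟨B, fun j => ?_⟩
    rw [hfa]
    split_ifs with h
    · exact (Finset.single_le_sum (f := fun j => |(q j : ℝ)|) (fun _ _ => abs_nonneg _)
        (Finset.mem_range.2 h)).trans hB
    · simp
  obtain ⟨J, hJ⟩ := Metric.tendsto_atTop.1 (small B) (ε / 2) (by positivity)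
  obtain ⟨m, hm1, hm2⟩ : ∃ m, L ≤ 2 ^ m ∧ J ≤ 2 ^ m :=
    ⟨L + J, by have := @Nat.lt_two_pow_self (L + J); omega,
      by have := @Nat.lt_two_pow_self (L + J); omega⟩
  obtain ⟨l, hl⟩ := e_surj (m, f)
  have hp : ∀ n, p l n = f (n % 2 ^ m) := fun n => by simp [p, hl]
  have good : ∀ t s i : ℕ, 2 ^ l * (2 * t + 1) = s + 1 + m → B ≤ s + 1 + m → i < 2 ^ s →
      T^[2 ^ m * (2 ^ (s + 1) + i)] x ∈ U := by
    intro t s i hs hBs hi
    apply hb
    rw [mem_closedBall_iff_norm]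
    refine norm_le _ _ hε.le fun j => ?_
    change |(T^[2 ^ m * (2 ^ (s + 1) + i)] x) j - v j| ≤ ε
    rw [orbit]
    obtain ⟨P, hP⟩ : ∃ P, P = 2 ^ m * 2 ^ s := ⟨_, rfl⟩
    have hP0 : 2 ^ m ≤ P := by rw [hP]; exact Nat.le_mul_of_pos_right _ (by positivity)
    have hi' : 2 ^ m * i < P := by rw [hP]; exact Nat.mul_lt_mul_of_pos_left hi (by positivity)
    have e1 : 2 ^ m * (2 ^ (s + 1) + i) = 2 * P + 2 ^ m * i := by rw [hP]; ring
    have e2 : 2 ^ (s + 1 + m) = 2 * P := by rw [hP]; ring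
    have e3 : 2 ^ (s + 1 + m + 1) = 4 * P := by rw [hP]; ring
    have hy : j < P → y (2 ^ m * (2 ^ (s + 1) + i) + j) = f (j % 2 ^ m) := by
      intro hj
      rw [y_block l t _ (by rw [hs, e1, e2]; omega) (by rw [hs, e1, e3]; omega)
        (by rw [hp, hs]; exact (hB _).trans (by exact_mod_cast hBs)), hp, Nat.mul_add_mod]
    have h2 : (0 : ℝ) < 2 ^ j := by positivity
    by_cases hj : j < 2 ^ m
    · rw [hy (by omega), Nat.mod_eq_of_lt hj, hfa]
      split_ifs with h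
      · have e : (q j : ℝ) / 2 ^ j - v j = -(2 ^ j * v j - q j) / 2 ^ j := by field_simp; ring
        rw [e, abs_div, abs_neg, abs_of_pos h2, div_le_iff₀ h2]
        have : (1 : ℝ) ≤ 2 ^ j := one_le_pow₀ one_le_two
        nlinarith [hq j]
      · have := hL j (by omega)
        simp at this ⊢
        linarith
    · have a1 := hL j (by omega)
      have a2 := hJ j (by omega)
      rw [Real.dist_eq, sub_zero] at a1 a2
      have a3 : |y (2 ^ m * (2 ^ (s + 1) + i) + j)| ≤ 5 * j + B := by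
        have := (Nat.cast_nonneg j : (0 : ℝ) ≤ j)
        have := (Nat.cast_nonneg B : (0 : ℝ) ≤ B)
        by_cases hjP : j < P
        · rw [hy hjP]; linarith [hB (j % 2 ^ m)]
        · refine (y_le _).trans ?_
          have : 2 ^ m * (2 ^ (s + 1) + i) + j ≤ 5 * j + B := by rw [e1]; omega
          exact_mod_cast this
      have a4 : |y (2 ^ m * (2 ^ (s + 1) + i) + j) / 2 ^ j| ≤ (5 * j + B) / 2 ^ j := by
        rw [abs_div, abs_of_pos h2]; gcongr
      linarith [abs_sub (y (2 ^ m * (2 ^ (s + 1) + i) + j) / 2 ^ j) (v j), le_abs_self ((5 * j + B : ℝ) / 2 ^ j)]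
  obtain ⟨D, hD⟩ : ∃ D, D = 2 ^ l := ⟨_, rfl⟩
  have hD0 : 0 < D := by rw [hD]; positivity
  refine ⟨1 / 2 ^ (m + 1 + 3 * D), by positivity, ?_⟩
  filter_upwards [eventually_ge_atTop (2 ^ (3 * D + m + 1 + B))] with n hn
  obtain ⟨K, hK⟩ : ∃ K, K = Nat.log 2 n := ⟨_, rfl⟩
  have hn0 : n ≠ 0 := by have : 0 < 2 ^ (3 * D + m + 1 + B) := by positivity
                         omega
  have k1 : 3 * D + m + 1 + B ≤ K := by rw [hK]; exact Nat.le_log_of_pow_le one_lt_two hn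
  have k2 : 2 ^ K ≤ n := by rw [hK]; exact Nat.pow_log_le_self 2 hn0
  have k3 : n < 2 ^ (K + 1) := by rw [hK]; exact Nat.lt_pow_succ_log_self one_lt_two n
  obtain ⟨t, ht⟩ : ∃ t, K / (2 * D) = t + 1 :=
    ⟨K / (2 * D) - 1, by have := Nat.div_pos (show 2 * D ≤ K by omega) (by omega); omega⟩
  have d1 := Nat.div_add_mod K (2 * D)
  have d2 := Nat.mod_lt K (show 0 < 2 * D by omega)
  rw [ht] at d1
  obtain ⟨s, hs⟩ : ∃ s, D * (2 * t + 1) = s + 1 + m := ⟨D * (2 * t + 1) - 1 - m, by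
    have : 2 * D * (t + 1) = D * (2 * t + 1) + D := by ring
    omega⟩
  have d3 : 2 * D * (t + 1) = s + 1 + m + D := by rw [← hs]; ring
  have hsub : (fun i => 2 ^ m * (2 ^ (s + 1) + i)) '' (Finset.range (2 ^ s) : Set ℕ) ⊆
      {k : ℕ | k < n ∧ (⇑T)^[k] x ∈ U} := by
    rintro _ ⟨i, hi, rfl⟩
    have hi' : i < 2 ^ s := by simpa using hi
    refine ⟨?_, good t s i (hD ▸ hs) (by omega) hi'⟩
    have b1 : 2 ^ m * (2 ^ (s + 1) + i) < 2 ^ m * (2 ^ (s + 1) + 2 ^ (s + 1)) :=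
      Nat.mul_lt_mul_of_pos_left (by rw [pow_succ] at *; omega) (by positivity)
    have b2 : 2 ^ m * (2 ^ (s + 1) + 2 ^ (s + 1)) = 2 ^ (s + 1 + m + 1) := by ring
    have b3 : 2 ^ (s + 1 + m + 1) ≤ 2 ^ K := Nat.pow_le_pow_right two_pos (by omega)
    change 2 ^ m * (2 ^ (s + 1) + i) < n
    omega
  have hc := Set.ncard_le_ncard hsub ((Set.finite_lt_nat n).subset fun k hk => hk.1)
  rw [Set.ncard_image_of_injective _ (fun a b h => by
    simpa using h), Set.ncard_coe_finset, Finset.card_range] at hc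
  have b4 : n ≤ 2 ^ s * 2 ^ (m + 1 + 3 * D) := by
    rw [← pow_add]
    exact k3.le.trans (Nat.pow_le_pow_right two_pos (by omega))
  rw [one_div, inv_mul_le_iff₀ (by positivity)]
  have b5 : (n : ℝ) ≤ 2 ^ s * 2 ^ (m + 1 + 3 * D) := by exact_mod_cast b4
  have b6 : (2 : ℝ) ^ s ≤ ({k : ℕ | k < n ∧ (⇑T)^[k] x ∈ U}.ncard : ℕ) := by exact_mod_cast hc
  have b7 : (0 : ℝ) < 2 ^ (m + 1 + 3 * D) := by positivity
  nlinarith

lemma gap (A : Set ℕ) (hA : A ⊆ {k : ℕ | (⇑T)^[k] x ∈ {f : X | f 0 ≠ 0}}) :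
    ¬ ∃ d : ℝ, 0 < d ∧ Tendsto
      (fun n : ℕ => (({k : ℕ | k < n ∧ k ∈ A}.ncard : ℕ) : ℝ) / (n : ℝ)) atTop (𝓝 d) := by
  rintro ⟨d, hd, h⟩
  obtain ⟨l, hl⟩ := e_surj (0, 0)
  have hp : ∀ n, p l n = 0 := fun n => by simp [p, hl]
  have hk : Tendsto (fun t : ℕ => 2 ^ l * (2 * t + 1)) atTop atTop :=
    tendsto_atTop_mono (fun t => by
      have : 1 * (2 * t + 1) ≤ 2 ^ l * (2 * t + 1) := Nat.mul_le_mul_right _ Nat.one_le_two_pow
      simp only [id]; omega) tendsto_id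
  have h2 := tendsto_pow_atTop_atTop_of_one_lt (one_lt_two (α := ℕ))
  have a1 := (h.comp (h2.comp hk)).const_mul (1 / 2)
  have a2 := h.comp (h2.comp ((tendsto_add_atTop_nat 1).comp hk))
  have := tendsto_nhds_unique a1 (a2.congr fun t => ?_)
  · linarith
  · have e1 : {k : ℕ | k < 2 ^ (2 ^ l * (2 * t + 1) + 1) ∧ k ∈ A} =
        {k : ℕ | k < 2 ^ (2 ^ l * (2 * t + 1)) ∧ k ∈ A} := by
      ext k
      refine ⟨fun hk => ⟨?_, hk.2⟩, fun hk => ⟨by rw [pow_succ]; have := hk.1; omega, hk.2⟩⟩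
      by_contra hc
      have b := hA hk.2
      simp only [Set.mem_ofPred_eq, orbit, add_zero, pow_zero, div_one] at b
      exact b (by rw [y_block l t k (not_lt.1 hc) hk.1 (by rw [hp]; simp; positivity), hp])
    simp only [Function.comp, e1]
    push_cast
    rw [pow_succ]; field_simp

lemma U_open : IsOpen {f : X | f 0 ≠ 0} := by
  refine isOpen_ne_fun ?_ continuous_const
  refine (LipschitzWith.of_dist_le_mul (K := 1) fun f g => ?_).continuous
  rw [Real.dist_eq, dist_eq_norm, NNReal.coe_one, one_mul]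
  exact abs_le_norm (f - g) 0

lemma U_ne : {f : X | f 0 ≠ 0}.Nonempty :=
  ⟨mk _ (small 1), by change (5 * ((0 : ℕ) : ℝ) + 1) / 2 ^ 0 ≠ 0; norm_num⟩

end Pool.Agent.H58.FhcGap
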