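import Mathlib

namespace Pool.Agent.H58.FirstVar
open MeasureTheory Set Filter Topology Pointwise Asymptotics

variable {E : Type} [NormedAddCommGroup E] [NormedSpace ℝ E] [MeasureSpace E] [BorelSpace E]
  {ι : Type} [Fintype ι] [DecidableEq ι]

def P (n : ι → E →L[ℝ] ℝ) (h : ι → ℝ) : Set E := {x | ∀ i, n i x ≤ h i}

omit [MeasureSpace E] [BorelSpace E] [Fintype ι] [DecidableEq ι] in
lemma P_closed (n : ι → E →L[ℝ] ℝ) (h : ι → ℝ) : IsClosed (P n h) := by
  simp only [P, ofPred_forall]
  exact isClosed_iInter fun i => isClosed_le (n i).continuous continuous_const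

lemma squeeze {f g u : ℝ → ℝ} {D : ℝ} (hg : HasDerivAt g D 0) (hu : HasDerivAt u D 0)
    (e : g 0 = u 0) (h : ∀ t, 0 ≤ t → g t ≤ f t ∧ f t ≤ u t) : HasDerivWithinAt f D (Ici 0) 0 := by
  have h0 : f 0 = u 0 := le_antisymm (h 0 le_rfl).2 (e ▸ (h 0 le_rfl).1)
  have a := (hasDerivWithinAt_iff_isLittleO.1 (hg.hasDerivWithinAt (s := Ici 0))).abs_left
  have b := (hasDerivWithinAt_iff_isLittleO.1 (hu.hasDerivWithinAt (s := Ici 0))).abs_left
  refine hasDerivWithinAt_iff_isLittleO.2 (IsBigO.trans_isLittleO (IsBigO.of_bound 1 ?_) (a.add b))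
  filter_upwards [self_mem_nhdsWithin] with t ht
  obtain ⟨h1, h2⟩ := h t ht
  rw [one_mul, Real.norm_eq_abs, Real.norm_eq_abs, abs_of_nonneg (a := _ + _) (by positivity), h0, e]
  rw [abs_le]
  constructor
  · linarith [neg_abs_le (g t - u 0 - (t - 0) • D), abs_nonneg (u t - u 0 - (t - 0) • D)]
  · linarith [le_abs_self (u t - u 0 - (t - 0) • D), abs_nonneg (g t - u 0 - (t - 0) • D)]

theorem firstVar (n : ι → E →L[ℝ] ℝ) (h w : ι → ℝ) (fin : ∀ k, volume (P n k) ≠ ⊤)
    (hV : ∀ v : ι → ℝ, HasDerivAt (fun t : ℝ => (volume (P n (h + t • v))).toReal) (∑ i, w i * v i) 0)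
    {L : Set E} (hL : IsCompact L) (hne : L.Nonempty) :
    HasDerivWithinAt (fun t : ℝ => (volume (P n h + t • L)).toReal)
      (∑ i, w i * sSup (n i '' L)) (Ici 0) 0 := by
  set l : ι → ℝ := fun i => sSup (n i '' L)
  have hx : ∀ i, ∃ x ∈ L, n i x = l i ∧ ∀ y ∈ L, n i y ≤ l i := fun i => by
    obtain ⟨x, hx, e, m⟩ := hL.exists_sSup_image_eq_and_ge hne (n i).continuous.continuousOn
    exact ⟨x, hx, e.symm, fun y hy => (m y hy).trans e.ge⟩
  choose x xL xe xm using hx
  obtain ⟨C, hC⟩ : ∃ C, ∀ i j, -C ≤ n i (x j) := by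
    obtain ⟨C, hC⟩ := (finite_range fun p : ι × ι => n p.1 (x p.2)).bddBelow
    exact ⟨-C, fun i j => by simpa using hC ⟨(i, j), rfl⟩⟩
  let c : ι → ℝ := fun _ => -C
  let d : ι → ι → ℝ := fun i => Function.update c i (l i)
  let V : (ι → ℝ) → ℝ → ℝ := fun v t => (volume (P n (h + t • v))).toReal
  have up : ∀ t : ℝ, 0 ≤ t → P n h + t • L ⊆ P n (h + t • l) := by
    rintro t ht _ ⟨y, hy, _, ⟨z, hz, rfl⟩, rfl⟩ i
    have := mul_le_mul_of_nonneg_left (xm i z hz) ht
    have := hy i
    simp only [map_add, map_smul, smul_eq_mul, Pi.add_apply, Pi.smul_apply]; linarith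
  have lo : ∀ t : ℝ, 0 ≤ t → ∀ i, P n (h + t • d i) ⊆ P n h + t • L := by
    intro t ht i y hy
    refine ⟨y - t • x i, fun j => ?_, t • x i, smul_mem_smul_set (xL i), by simp⟩
    have := hy j
    have h2 := mul_le_mul_of_nonneg_left (hC j i) ht
    by_cases e : j = i
    · subst e; simp [d, xe] at this ⊢; linarith
    · simp [d, c, e] at this ⊢; linarith
  have sub : ∀ t : ℝ, 0 ≤ t → ∀ i, P n (h + t • c) ⊆ P n (h + t • d i) := by
    intro t ht i y hy j
    have := hy j
    have h2 := mul_le_mul_of_nonneg_left ((hC j j).trans (xe j).le) ht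
    by_cases e : j = i
    · subst e; simp [d, c] at this ⊢; linarith
    · simpa [d, c, e] using this
  rcases isEmpty_or_nonempty ι with hι | ⟨⟨i₀⟩⟩
  · refine squeeze (hV l) (hV l) rfl fun t ht => ⟨?_, ENNReal.toReal_mono (fin _) (measure_mono (up t ht))⟩
    refine ENNReal.toReal_mono (ne_top_of_le_ne_top (fin _) (measure_mono (up t ht))) (measure_mono ?_)
    obtain ⟨z, hz⟩ := hne
    exact fun y _ => ⟨y - t • z, fun j => hι.elim j, t • z, smul_mem_smul_set hz, by simp⟩
  have hg : HasDerivAt (fun t => V c t + ∑ i, (V (d i) t - V c t)) (∑ i, w i * l i) 0 := by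
    refine ((hV c).add (HasDerivAt.fun_sum fun i _ => (hV (d i)).sub (hV c))).congr_deriv ?_
    have : ∀ i, ∑ j, w j * d i j - ∑ j, w j * c j = w i * l i - w i * c i := fun i => by
      rw [← Finset.sum_sub_distrib, Finset.sum_eq_single i (fun j _ hj => by simp [d, hj]) (by simp)]
      simp [d]
    simp only [this, Finset.sum_sub_distrib]; ring
  refine squeeze hg (hV l) (by simp [V]) fun t ht =>
    ⟨?_, ENNReal.toReal_mono (fin _) (measure_mono (up t ht))⟩
  have mm := fun k => (P_closed n k).measurableSet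
  have e1 : ∀ i, V (d i) t - V c t = volume.real (P n (h + t • d i) \ P n (h + t • c)) := fun i => by
    rw [measureReal_sdiff (sub t ht i) (mm _) (fin _)]; rfl
  have dj : Pairwise (Function.onFun Disjoint fun i => P n (h + t • d i) \ P n (h + t • c)) := by
    intro i j hij
    refine disjoint_left.2 fun y h1 h2 => h1.2 fun k => ?_
    by_cases e : k = i
    · subst e; simpa [d, hij] using h2.1 k
    · simpa [d, e] using h1.1 k
  simp only [e1]
  rw [← measureReal_iUnion_fintype dj (fun i => (mm _).diff (mm _))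
    fun i => ne_top_of_le_ne_top (fin _) (measure_mono sdiff_subset)]
  have ft := ne_top_of_le_ne_top (fin _) (measure_mono (up t ht))
  have s2 : ⋃ i, P n (h + t • d i) \ P n (h + t • c) ⊆ P n h + t • L :=
    iUnion_subset fun i => sdiff_subset.trans (lo t ht i)
  change volume.real _ + _ ≤ volume.real _
  rw [← measureReal_union (disjoint_iUnion_right.2 fun i => disjoint_sdiff_right)
    (MeasurableSet.iUnion fun i => (mm _).diff (mm _)) (fin _)
    (ne_top_of_le_ne_top ft (measure_mono s2))]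
  exact measureReal_mono (union_subset ((sub t ht i₀).trans (lo t ht i₀)) s2) ft

end Pool.Agent.H58.FirstVar
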