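import Mathlib

set_option autoImplicit false

namespace Pool.Agent.H58.Fq

open MeasureTheory Filter Topology Complex

noncomputable section

def Ch (Γ : Type*) [AddCommGroup Γ] : Subgroup (Γ → Circle) where
  carrier := {χ | ∀ x y, χ (x + y) = χ x * χ y}
  mul_mem' := by
    intro a b ha hb x y
    simp only [Pi.mul_apply, ha x y, hb x y]
    exact mul_mul_mul_comm _ _ _ _
  one_mem' := by intro x y; simp
  inv_mem' := by
    intro a ha x y
    simp only [Pi.inv_apply, ha x y, mul_inv]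

def K (Γ : Type*) [AddCommGroup Γ] : Type _ := ↥(Ch Γ)

variable {Γ : Type*} [AddCommGroup Γ]

instance : CommGroup (K Γ) := inferInstanceAs (CommGroup ↥(Ch Γ))
instance : TopologicalSpace (K Γ) := inferInstanceAs (TopologicalSpace ↥(Ch Γ))
instance : IsTopologicalGroup (K Γ) := inferInstanceAs (IsTopologicalGroup ↥(Ch Γ))
instance : T2Space (K Γ) := inferInstanceAs (T2Space ↥(Ch Γ))
instance : CompactSpace (K Γ) := by
  have h : IsClosed ((Ch Γ : Set (Γ → Circle))) := by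
    have : ((Ch Γ : Set (Γ → Circle))) = ⋂ x, ⋂ y, {χ : Γ → Circle | χ (x + y) = χ x * χ y} := by
      ext χ; simp [Ch]
    rw [this]
    exact isClosed_iInter fun x => isClosed_iInter fun y => isClosed_eq (by fun_prop) (by fun_prop)
  exact isCompact_iff_compactSpace.mp h.isCompact
instance : MeasurableSpace (K Γ) := borel _
instance : BorelSpace (K Γ) := ⟨rfl⟩

def mu (Γ : Type*) [AddCommGroup Γ] : Measure (K Γ) := Measure.haarMeasure ⊤

instance : (mu Γ).IsHaarMeasure := by unfold mu; infer_instance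
instance : IsProbabilityMeasure (mu Γ) := ⟨by
  have := Measure.haarMeasure_self (G := K Γ) (K₀ := ⊤)
  simpa [mu] using this⟩

def ev (χ : K Γ) (x : Γ) : ℂ := ((show ↥(Ch Γ) from χ).1 x : ℂ)

lemma ev_add (χ : K Γ) (x y : Γ) : ev χ (x + y) = ev χ x * ev χ y := by
  unfold ev
  rw [(show ↥(Ch Γ) from χ).2 x y]; simp

@[simp] lemma norm_ev (χ : K Γ) (x : Γ) : ‖ev χ x‖ = 1 := by unfold ev; simp

lemma ev_ne (χ : K Γ) (x : Γ) : ev χ x ≠ 0 := by
  intro h; have := norm_ev χ x; rw [h] at this; simp at this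

@[simp] lemma ev_zero (χ : K Γ) : ev χ 0 = 1 := by
  have := ev_add χ 0 0
  rw [add_zero] at this
  exact (mul_right_eq_self₀.mp this.symm).resolve_right (ev_ne χ 0)

lemma ev_mul (χ ψ : K Γ) (x : Γ) : ev (χ * ψ) x = ev χ x * ev ψ x := by
  unfold ev; exact Circle.coe_mul _ _

lemma ev_neg (χ : K Γ) (x : Γ) : ev χ (-x) = (starRingEnd ℂ) (ev χ x) := by
  have h1 : ev χ (-x) * ev χ x = 1 := by rw [← ev_add]; simp
  have h2 : (starRingEnd ℂ) (ev χ x) * ev χ x = 1 := by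
    rw [mul_comm, Complex.mul_conj, Complex.normSq_eq_norm_sq]; simp
  exact mul_right_cancel₀ (ev_ne χ x) (h1.trans h2.symm)

@[fun_prop] lemma cont_ev (x : Γ) : Continuous fun χ : K Γ => ev χ x := by
  unfold ev
  exact continuous_subtype_val.comp ((continuous_apply x).comp continuous_subtype_val)

lemma K_ext {χ ψ : K Γ} (h : ∀ x, ev χ x = ev ψ x) : χ = ψ := by
  apply Subtype.ext; funext x; exact Circle.ext (h x)

lemma cont_K {X : Type*} [TopologicalSpace X] {f : X → K Γ}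
    (h : ∀ x, Continuous fun t => ev (f t) x) : Continuous f := by
  refine continuous_induced_rng.mpr (continuous_pi fun x => ?_)
  exact continuous_induced_rng.mpr (h x)

/-- the character `exp (i φ)`. -/
def ex (φ : Γ →+ ℝ) : K Γ :=
  (⟨fun x => Circle.exp (φ x), fun x y => by simp [Circle.exp_add]⟩ : ↥(Ch Γ))

lemma ev_ex (φ : Γ →+ ℝ) (x : Γ) : ev (ex φ) x = cexp (φ x * I) := by
  unfold ev ex; simp [Circle.coe_exp]

lemma ex_add (φ ψ : Γ →+ ℝ) : ex (φ + ψ) = ex φ * ex ψ := by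
  apply K_ext; intro x
  rw [ev_mul, ev_ex, ev_ex, ev_ex, ← Complex.exp_add]; simp [add_mul]

/-- restriction of characters along an additive map. -/
def res {Λ : Type*} [AddCommGroup Λ] (ι : Λ →+ Γ) : K Γ →* K Λ where
  toFun χ := (⟨fun x => (show ↥(Ch Γ) from χ).1 (ι x), fun x y => by
    simp only [map_add]; exact (show ↥(Ch Γ) from χ).2 _ _⟩ : ↥(Ch Λ))
  map_one' := rfl
  map_mul' _ _ := rfl

lemma ev_res {Λ : Type*} [AddCommGroup Λ] (ι : Λ →+ Γ) (χ : K Γ) (x : Λ) :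
    ev (res ι χ) x = ev χ (ι x) := rfl

lemma cont_res {Λ : Type*} [AddCommGroup Λ] (ι : Λ →+ Γ) : Continuous (res ι) :=
  cont_K fun x => by simp only [ev_res]; fun_prop

lemma integral_res {Λ : Type*} [AddCommGroup Λ] (ι : Λ →+ Γ) (π : Γ →+ Λ)
    (h : ∀ x, π (ι x) = x) {Φ : K Λ → ℝ} (hΦ : Continuous Φ) :
    ∫ χ, Φ (res ι χ) ∂(mu Γ) = ∫ χ, Φ χ ∂(mu Λ) := by
  have hs : Function.Surjective (res ι) := fun ψ =>
    ⟨res π ψ, K_ext fun x => by rw [ev_res, ev_res, h]⟩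
  have mp : MeasurePreserving (res ι) (mu Γ) (mu Λ) :=
    MonoidHom.measurePreserving (cont_res ι) hs (by simp)
  rw [← mp.map_eq, integral_map mp.measurable.aemeasurable hΦ.aestronglyMeasurable]

lemma integ {E : Type*} [NormedAddCommGroup E] [SecondCountableTopology E] {Φ : K Γ → E}
    (hΦ : Continuous Φ) : Integrable Φ (mu Γ) :=
  hΦ.integrable_of_hasCompactSupport (HasCompactSupport.of_compactSpace _)

lemma integral_shift {E : Type*} [NormedAddCommGroup E] [NormedSpace ℝ E] (Φ : K Γ → E)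
    (ψ : K Γ) : ∫ χ, Φ (χ * ψ) ∂(mu Γ) = ∫ χ, Φ χ ∂(mu Γ) :=
  integral_mul_right_eq_self Φ ψ

lemma integral_ev [Module ℚ Γ] {x : Γ} (hx : x ≠ 0) : ∫ χ, ev χ x ∂(mu Γ) = 0 := by
  obtain ⟨φ, hφ⟩ : ∃ φ : Γ →ₗ[ℚ] ℝ, φ x = Real.pi := by
    obtain ⟨g, hg⟩ := Module.Projective.exists_dual_eq_one ℚ hx
    exact ⟨(LinearMap.toSpanSingleton ℚ ℝ Real.pi).comp g, by simp [hg]⟩
  have h := integral_shift (fun χ : K Γ => ev χ x) (ex φ.toAddMonoidHom)
  simp only [ev_mul, ev_ex, LinearMap.toAddMonoidHom_coe, hφ, Complex.exp_pi_mul_I,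
    integral_mul_const] at h
  linear_combination (-1 / 2 : ℂ) * h

def L1 (a : Γ → ℂ) : Prop := Summable fun x => ‖a x‖
def nrm (a : Γ → ℂ) : ℝ := ∑' x, ‖a x‖
def hat (a : Γ → ℂ) (χ : K Γ) : ℂ := ∑' x, a x * ev χ x
def conv (a b : Γ → ℂ) (x : Γ) : ℂ := ∑' y, a y * b (x - y)
def st (a : Γ → ℂ) (x : Γ) : ℂ := (starRingEnd ℂ) (a (-x))

omit [AddCommGroup Γ] in
lemma nrm_nonneg (a : Γ → ℂ) : 0 ≤ nrm a := tsum_nonneg fun _ => norm_nonneg _

omit [AddCommGroup Γ] in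
lemma L1.le {a : Γ → ℂ} (ha : L1 a) (x : Γ) : ‖a x‖ ≤ nrm a :=
  ha.le_tsum x fun _ _ => norm_nonneg _

lemma L1.sev {a : Γ → ℂ} (ha : L1 a) (χ : K Γ) : Summable fun x => ‖a x * ev χ x‖ := by
  simpa [norm_mul, L1] using ha

lemma norm_hat_le {a : Γ → ℂ} (ha : L1 a) (χ : K Γ) : ‖hat a χ‖ ≤ nrm a := by
  refine (norm_tsum_le_tsum_norm (ha.sev χ)).trans (le_of_eq ?_)
  simp [nrm]

lemma cont_hat {a : Γ → ℂ} (ha : L1 a) : Continuous (hat a) :=
  continuous_tsum (fun x => by fun_prop) ha (fun x χ => by simp)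

def sh : Γ × Γ ≃ Γ × Γ where
  toFun p := (p.2, p.1 - p.2)
  invFun p := (p.1 + p.2, p.1)
  left_inv p := by simp
  right_inv p := by simp

lemma sum2 {a b : Γ → ℂ} (ha : L1 a) (hb : L1 b) :
    Summable fun p : Γ × Γ => ‖a p.2‖ * ‖b (p.1 - p.2)‖ :=
  (sh (Γ := Γ)).summable_iff.mpr
    (ha.mul_of_nonneg hb (fun _ => norm_nonneg _) (fun _ => norm_nonneg _))

lemma conv_le {a b : Γ → ℂ} (ha : L1 a) (hb : L1 b) (x : Γ) :
    ‖conv a b x‖ ≤ ∑' y, ‖a y‖ * ‖b (x - y)‖ := by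
  have := (sum2 ha hb).prod_factor x
  refine (norm_tsum_le_tsum_norm (by simpa [norm_mul] using this)).trans (le_of_eq ?_)
  simp

lemma L1.conv {a b : Γ → ℂ} (ha : L1 a) (hb : L1 b) : L1 (conv a b) :=
  Summable.of_nonneg_of_le (fun _ => norm_nonneg _) (conv_le ha hb) (sum2 ha hb).prod

lemma nrm_conv {a b : Γ → ℂ} (ha : L1 a) (hb : L1 b) : nrm (conv a b) ≤ nrm a * nrm b := by
  refine ((ha.conv hb).tsum_le_tsum (conv_le ha hb) (sum2 ha hb).prod).trans (le_of_eq ?_)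
  rw [← (sum2 ha hb).tsum_prod]
  have := (sh (Γ := Γ)).tsum_eq (fun p : Γ × Γ => ‖a p.1‖ * ‖b p.2‖)
  rw [nrm, nrm, ha.tsum_mul_tsum hb
    (ha.mul_of_nonneg hb (fun _ => norm_nonneg _) (fun _ => norm_nonneg _)), ← this]
  rfl

lemma hat_conv {a b : Γ → ℂ} (ha : L1 a) (hb : L1 b) (χ : K Γ) :
    hat (conv a b) χ = hat a χ * hat b χ := by
  have hs : Summable fun p : Γ × Γ => a p.2 * b (p.1 - p.2) * ev χ p.1 :=
    Summable.of_norm (by simpa [norm_mul] using sum2 ha hb)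
  rw [hat, hat, hat, tsum_mul_tsum_of_summable_norm (ha.sev χ) (hb.sev χ),
    ← (sh (Γ := Γ)).tsum_eq]
  simp only [conv, ← tsum_mul_right]
  rw [← hs.tsum_prod]
  refine tsum_congr fun p => ?_
  have : ev χ p.1 = ev χ p.2 * ev χ (p.1 - p.2) := by rw [← ev_add]; simp
  simp only [sh, Equiv.coe_fn_mk]
  rw [this]; ring

lemma L1.st {a : Γ → ℂ} (ha : L1 a) : L1 (st a) := by
  have := (Equiv.neg Γ).summable_iff.mpr ha
  simpa [L1, Fq.st, Function.comp_def] using this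

lemma nrm_st (a : Γ → ℂ) : nrm (st a) = nrm a := by
  have := (Equiv.neg Γ).tsum_eq (fun x => ‖a x‖)
  simpa [nrm, st] using this

lemma hat_st (a : Γ → ℂ) (χ : K Γ) : hat (st a) χ = (starRingEnd ℂ) (hat a χ) := by
  rw [hat, hat, Complex.conj_tsum, ← (Equiv.neg Γ).tsum_eq]
  refine tsum_congr fun x => ?_
  simp [st, ev_neg]

lemma integral_hat [Module ℚ Γ] {a : Γ → ℂ} (ha : L1 a) : ∫ χ, hat a χ ∂(mu Γ) = a 0 := by
  have key : HasSum (fun x => ∫ χ, a x * ev χ x ∂(mu Γ)) (∫ χ, hat a χ ∂(mu Γ)) := by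
    let F : Γ → C(K Γ, ℂ) := fun x => ⟨fun χ => a x * ev χ x, by fun_prop⟩
    have hF : Summable F := Summable.of_norm_bounded ha fun x =>
      (ContinuousMap.norm_le _ (norm_nonneg _)).mpr fun χ => by simp [F]
    let T : C(K Γ, ℂ) →L[ℂ] ℂ := (ContinuousMap.toLp 1 (mu Γ) ℂ).comp (ContinuousLinearMap.id _ _)
      |> fun S => (L1.integralCLM' ℂ).comp S
    have hT : ∀ g : C(K Γ, ℂ), T g = ∫ χ, g χ ∂(mu Γ) := by
      intro g
      simp only [T, ContinuousLinearMap.comp_apply, ContinuousLinearMap.id_apply]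
      rw [← L1.integral_eq' ℂ, L1.integral_eq_integral]
      exact integral_congr_ae (ContinuousMap.coeFn_toLp (mu Γ) g)
    have h1 := T.hasSum hF.hasSum
    simp only [hT] at h1
    have h2 : ∀ χ, hat a χ = (∑' b, F b) χ := fun χ =>
      ((ContinuousMap.evalCLM ℂ χ).hasSum hF.hasSum).tsum_eq
    simp only [h2]
    exact h1
  have h2 : HasSum (fun x => ∫ χ, a x * ev χ x ∂(mu Γ)) (∫ χ, a 0 * ev χ 0 ∂(mu Γ)) :=
    hasSum_single 0 fun x hx => by rw [integral_const_mul, integral_ev hx, mul_zero]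
  rw [key.unique h2]; simp

open Classical in
def pw (a : Γ → ℂ) : ℕ → Γ → ℂ
  | 0 => fun x => if x = 0 then 1 else 0
  | n + 1 => conv (conv a (st a)) (pw a n)

lemma pw_spec {a : Γ → ℂ} (ha : L1 a) (n : ℕ) :
    L1 (pw a n) ∧ nrm (pw a n) ≤ (nrm a ^ 2) ^ n ∧
      ∀ χ, hat (pw a n) χ = (((‖hat a χ‖ ^ 2) ^ n : ℝ) : ℂ) := by
  induction n with
  | zero =>
    refine ⟨summable_of_ne_finset_zero (s := {0}) fun x hx => by simp_all [pw], ?_, fun χ => ?_⟩
    · rw [nrm, tsum_eq_single 0 fun x hx => by simp [pw, hx]]; simp [pw]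
    · rw [hat, tsum_eq_single 0 fun x hx => by simp [pw, hx]]; simp [pw]
  | succ n ih =>
    obtain ⟨h1, h2, h3⟩ := ih
    refine ⟨(ha.conv ha.st).conv h1, ?_, fun χ => ?_⟩
    · have h4 := nrm_conv ha ha.st
      rw [nrm_st] at h4
      calc nrm (pw a (n + 1)) ≤ nrm (conv a (st a)) * nrm (pw a n) := nrm_conv (ha.conv ha.st) h1
        _ ≤ (nrm a * nrm a) * (nrm a ^ 2) ^ n :=
          mul_le_mul h4 h2 (nrm_nonneg _) (mul_self_nonneg _)
        _ = _ := by ring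
    · show hat (conv (conv a (st a)) (pw a n)) χ = _
      rw [hat_conv (ha.conv ha.st) h1, hat_conv ha ha.st, hat_st, h3, Complex.mul_conj,
        Complex.normSq_eq_norm_sq]
      push_cast; ring

lemma moment [Module ℚ Γ] {a : Γ → ℂ} (ha : L1 a) (n : ℕ) :
    ∫ χ, (‖hat a χ‖ ^ 2) ^ n ∂(mu Γ) = (pw a n 0).re := by
  obtain ⟨h1, -, h3⟩ := pw_spec ha n
  rw [← integral_hat h1]
  simp only [h3]
  rw [integral_complex_ofReal]; simp only [Complex.ofReal_re]

end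

end Pool.Agent.H58.Fq
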