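import Pool.Agent.H58.FqA

set_option autoImplicit false

namespace Pool.Agent.H58.Fq

open MeasureTheory Filter Topology Complex

noncomputable section

abbrev UF : Filter ℕ := (hyperfilter ℕ : Filter ℕ)
abbrev GG : Type := Germ UF ℚ

def rep (ξ : GG) : ℕ → ℚ := Quotient.out ξ
lemma rep_eq (ξ : GG) : ((rep ξ : ℕ → ℚ) : GG) = ξ := Quotient.out_eq ξ
lemma rep_coe (x : ℕ → ℚ) : rep (x : GG) =ᶠ[UF] x := Germ.coe_eq.mp (rep_eq _)

lemma ne_ev {x y : ℕ → ℚ} (h : (x : GG) ≠ y) : ∀ᶠ k in UF, x k ≠ y k :=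
  Ultrafilter.eventually_not.mpr fun h' => h (Germ.coe_eq.mpr h')

lemma exists_lim {E : Type*} [NormedAddCommGroup E] [ProperSpace E] {u : ℕ → E} {C : ℝ}
    (h : ∀ᶠ k in UF, ‖u k‖ ≤ C) : ∃ l, Tendsto u UF (𝓝 l) := by
  obtain ⟨l, -, hl⟩ := (isCompact_closedBall (0 : E) C).ultrafilter_le_nhds
    ((hyperfilter ℕ).map u) (by
      rw [Ultrafilter.coe_map, le_principal_iff, mem_map]
      filter_upwards [h] with k hk
      simpa using hk)
  exact ⟨l, hl⟩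

def Bd (a : ℕ → ℚ → ℂ) (C : ℝ) : Prop := ∀ k, L1 (a k) ∧ nrm (a k) ≤ C

def D (a : ℕ → ℚ → ℂ) (ξ : GG) : ℂ := limUnder UF fun k => a k (rep ξ k)

lemma Bd.nonneg {a : ℕ → ℚ → ℂ} {C : ℝ} (h : Bd a C) : 0 ≤ C := (nrm_nonneg _).trans (h 0).2

lemma D_rep {a : ℕ → ℚ → ℂ} {C : ℝ} (h : Bd a C) (ξ : GG) :
    Tendsto (fun k => a k (rep ξ k)) UF (𝓝 (D a ξ)) :=
  tendsto_nhds_limUnder (exists_lim (C := C) (Eventually.of_forall fun k =>
    ((h k).1.le _).trans (h k).2))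

lemma D_tendsto {a : ℕ → ℚ → ℂ} {C : ℝ} (h : Bd a C) (x : ℕ → ℚ) :
    Tendsto (fun k => a k (x k)) UF (𝓝 (D a x)) :=
  (D_rep h x).congr' (by filter_upwards [rep_coe x] with k hk; rw [hk])

lemma rep_inj (F : Finset GG) : ∀ᶠ k in UF, Set.InjOn (fun ξ => rep ξ k) F := by
  have : ∀ᶠ k in UF, ∀ ξ ∈ F, ∀ ζ ∈ F, ξ ≠ ζ → rep ξ k ≠ rep ζ k := by
    rw [eventually_all_finset]; intro ξ _
    rw [eventually_all_finset]; intro ζ _
    by_cases hh : ξ = ζ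
    · simp [hh]
    · filter_upwards [ne_ev (x := rep ξ) (y := rep ζ) (by rwa [rep_eq, rep_eq])] with k hk _
      exact hk
  filter_upwards [this] with k hk ξ hξ ζ hζ he
  by_contra hne
  exact hk ξ hξ ζ hζ hne he

lemma D_sum_le {a : ℕ → ℚ → ℂ} {C : ℝ} (h : Bd a C) (F : Finset GG) :
    ∑ ξ ∈ F, ‖D a ξ‖ ≤ C := by
  classical
  refine le_of_tendsto (tendsto_finsetSum F fun ξ _ => (D_rep h ξ).norm) ?_
  filter_upwards [rep_inj F] with k hk
  rw [← Finset.sum_image (f := fun q => ‖a k q‖) hk]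
  exact ((h k).1.sum_le_tsum _ fun _ _ => norm_nonneg _).trans (h k).2

lemma D_L1 {a : ℕ → ℚ → ℂ} {C : ℝ} (h : Bd a C) : L1 (D a) :=
  summable_of_sum_le (fun _ => norm_nonneg _) (D_sum_le h)

lemma D_nrm {a : ℕ → ℚ → ℂ} {C : ℝ} (h : Bd a C) : nrm (D a) ≤ C :=
  (D_L1 h).tsum_le_of_sum_le (D_sum_le h)

lemma big_cover {a : ℕ → ℚ → ℂ} {C : ℝ} (h : Bd a C) {δ : ℝ} (hδ : 0 < δ) :
    ∃ F : Finset GG, ∀ᶠ k in UF, ∀ q, δ < ‖a k q‖ → ∃ ξ ∈ F, rep ξ k = q := by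
  classical
  obtain ⟨n, hn⟩ := exists_nat_gt (C / δ)
  have hfin : ∀ k, ∃ y : Fin n → ℚ, ∀ q, δ < ‖a k q‖ → ∃ i, y i = q := by
    intro k
    have hf : {q | δ < ‖a k q‖}.Finite := by
      have := (h k).1.tendsto_cofinite_zero.eventually (gt_mem_nhds hδ)
      rw [eventually_cofinite] at this
      exact this.subset fun q hq => by simpa using le_of_lt hq
    have hc : hf.toFinset.card ≤ n := by
      have h1 : (hf.toFinset.card : ℝ) * δ ≤ C := by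
        calc (hf.toFinset.card : ℝ) * δ = ∑ _q ∈ hf.toFinset, δ := by simp
          _ ≤ ∑ q ∈ hf.toFinset, ‖a k q‖ :=
            Finset.sum_le_sum fun q hq => le_of_lt (by simpa using hq)
          _ ≤ C := ((h k).1.sum_le_tsum _ fun _ _ => norm_nonneg _).trans (h k).2
      have h2 : (hf.toFinset.card : ℝ) ≤ n := ((le_div_iff₀ hδ).mpr h1).trans hn.le
      exact_mod_cast h2
    refine ⟨fun i => if hi : (i : ℕ) < hf.toFinset.card then
      (hf.toFinset.equivFin.symm ⟨i, hi⟩ : ℚ) else 0, fun q hq => ?_⟩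
    let j := hf.toFinset.equivFin ⟨q, by simpa using hq⟩
    exact ⟨⟨j, lt_of_lt_of_le j.2 hc⟩, by simp [j]⟩
  choose y hy using hfin
  refine ⟨Finset.univ.image fun i => ((fun k => y k i : ℕ → ℚ) : GG), ?_⟩
  have : ∀ᶠ k in UF, ∀ i, rep ((fun k => y k i : ℕ → ℚ) : GG) k = y k i :=
    eventually_all.mpr fun i => rep_coe _
  filter_upwards [this] with k hk q hq
  obtain ⟨i, hi⟩ := hy k q hq
  exact ⟨_, Finset.mem_image_of_mem _ (Finset.mem_univ i), (hk i).trans hi⟩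

lemma Bd.conv {a b : ℕ → ℚ → ℂ} {C C' : ℝ} (ha : Bd a C) (hb : Bd b C') :
    Bd (fun k => conv (a k) (b k)) (C * C') := fun k =>
  ⟨(ha k).1.conv (hb k).1, (nrm_conv (ha k).1 (hb k).1).trans
    (mul_le_mul (ha k).2 (hb k).2 (nrm_nonneg _) ha.nonneg)⟩

lemma D_conv {a b : ℕ → ℚ → ℂ} {C C' : ℝ} (ha : Bd a C) (hb : Bd b C') :
    D (fun k => conv (a k) (b k)) = conv (D a) (D b) := by
  classical
  funext ξ
  have hs : Summable fun ζ => D a ζ * D b (ξ - ζ) :=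
    Summable.of_norm (by simpa [norm_mul] using (sum2 (D_L1 ha) (D_L1 hb)).prod_factor ξ)
  have key : ∀ δ > 0, ∃ F₀ : Finset GG, ∀ F, F₀ ⊆ F →
      ‖D (fun k => conv (a k) (b k)) ξ - ∑ ζ ∈ F, D a ζ * D b (ξ - ζ)‖ ≤ δ * C' := by
    intro δ hδ
    obtain ⟨F₀, hF₀⟩ := big_cover ha hδ
    refine ⟨F₀, fun F hF => ?_⟩
    have t1 := D_rep (ha.conv hb) ξ
    have t2 : Tendsto (fun k => ∑ ζ ∈ F, a k (rep ζ k) * b k (rep ξ k - rep ζ k)) UF
        (𝓝 (∑ ζ ∈ F, D a ζ * D b (ξ - ζ))) := by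
      refine tendsto_finsetSum F fun ζ _ => (D_rep ha ζ).mul ?_
      have := D_tendsto hb (rep ξ - rep ζ)
      rwa [Germ.coe_sub, rep_eq, rep_eq] at this
    refine le_of_tendsto (t1.sub t2).norm ?_
    filter_upwards [hF₀, rep_inj F] with k hk hi
    have hsk : Summable fun q => ‖a k q‖ * ‖b k (rep ξ k - q)‖ :=
      (sum2 (ha k).1 (hb k).1).prod_factor _
    have hsk' : Summable fun q => a k q * b k (rep ξ k - q) :=
      Summable.of_norm (by simpa [norm_mul] using hsk)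
    have hb' : Summable fun q => ‖b k (rep ξ k - q)‖ :=
      (Equiv.subLeft (rep ξ k)).summable_iff.mpr (hb k).1
    rw [← Finset.sum_image (f := fun q => a k q * b k (rep ξ k - q)) hi, Fq.conv,
      ← hsk'.sum_add_tsum_compl (s := F.image fun ζ => rep ζ k), add_sub_cancel_left]
    refine tsum_of_norm_bounded (g := fun q => δ * ‖b k (rep ξ k - q.1)‖)
      (a := ∑' q : ↑((↑(F.image fun ζ => rep ζ k) : Set ℚ)ᶜ), δ * ‖b k (rep ξ k - q.1)‖)
      ((hb'.mul_left δ).subtype _).hasSum (fun q => ?_) |>.trans ?_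
    · rw [norm_mul]
      refine mul_le_mul_of_nonneg_right (not_lt.mp fun hq => q.2 ?_) (norm_nonneg _)
      obtain ⟨ζ, hζ, he⟩ := hk _ hq
      exact Finset.mem_coe.mpr (Finset.mem_image.mpr ⟨ζ, hF hζ, he⟩)
    · refine (Summable.tsum_subtype_le (fun q => δ * ‖b k (rep ξ k - q)‖) _
        (fun q => by positivity) (hb'.mul_left δ)).trans ?_
      rw [tsum_mul_left]
      refine mul_le_mul_of_nonneg_left ?_ hδ.le
      have := (Equiv.subLeft (rep ξ k)).tsum_eq fun q => ‖b k q‖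
      exact (le_of_eq this).trans (hb k).2
  have key2 : ∀ δ > 0, ‖D (fun k => conv (a k) (b k)) ξ - conv (D a) (D b) ξ‖ ≤ δ * C' := by
    intro δ hδ
    obtain ⟨F₀, hF₀⟩ := key δ hδ
    exact le_of_tendsto (tendsto_const_nhds.sub hs.hasSum).norm
      (eventually_atTop.mpr ⟨F₀, hF₀⟩)
  rw [← sub_eq_zero, ← norm_le_zero_iff]
  have : Tendsto (fun δ : ℝ => δ * C') (𝓝[>] 0) (𝓝 (0 * C')) :=
    (tendsto_nhdsWithin_of_tendsto_nhds tendsto_id).mul_const _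
  rw [zero_mul] at this
  exact ge_of_tendsto this (eventually_nhdsWithin_of_forall key2)

lemma Bd.st {a : ℕ → ℚ → ℂ} {C : ℝ} (ha : Bd a C) : Bd (fun k => st (a k)) C := fun k =>
  ⟨(ha k).1.st, (nrm_st _).trans_le (ha k).2⟩

lemma D_st {a : ℕ → ℚ → ℂ} {C : ℝ} (ha : Bd a C) : D (fun k => st (a k)) = st (D a) := by
  funext ξ
  refine tendsto_nhds_unique (D_rep ha.st ξ) ?_
  have := D_tendsto ha (-rep ξ)
  rw [Germ.coe_neg, rep_eq] at this
  exact (Complex.continuous_conj.tendsto _).comp this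

lemma Bd.pw {a : ℕ → ℚ → ℂ} {C : ℝ} (ha : Bd a C) (n : ℕ) :
    Bd (fun k => pw (a k) n) ((C ^ 2) ^ n) := fun k =>
  ⟨(pw_spec (ha k).1 n).1, (pw_spec (ha k).1 n).2.1.trans (by
    have := nrm_nonneg (a k); have := (ha k).2; gcongr)⟩

lemma D_pw {a : ℕ → ℚ → ℂ} {C : ℝ} (ha : Bd a C) (n : ℕ) :
    D (fun k => pw (a k) n) = pw (D a) n := by
  induction n with
  | zero =>
    funext ξ
    refine tendsto_nhds_unique (D_rep (ha.pw 0) ξ) (tendsto_const_nhds.congr' ?_)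
    by_cases h : ξ = 0
    · subst h
      filter_upwards [rep_coe 0] with k hk
      have : rep 0 k = 0 := hk
      simp [pw, this]
    · filter_upwards [ne_ev (x := rep ξ) (y := 0) (by rwa [rep_eq])] with k hk
      have : rep ξ k ≠ 0 := hk
      simp [pw, this, h]
  | succ n ih =>
    show D (fun k => conv (conv (a k) (st (a k))) (pw (a k) n)) = conv (conv _ _) _
    rw [D_conv (ha.conv ha.st) (ha.pw n), D_conv ha ha.st, D_st ha, ih]

lemma poly_int {Γ : Type*} [AddCommGroup Γ] [Module ℚ Γ] {a : Γ → ℂ} (ha : L1 a)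
    (p : Polynomial ℝ) : ∫ χ, p.eval (‖hat a χ‖ ^ 2) ∂(mu Γ) =
      ∑ n ∈ Finset.range (p.natDegree + 1), p.coeff n * (pw a n 0).re := by
  have := cont_hat ha
  simp only [Polynomial.eval_eq_sum_range]
  rw [integral_finsetSum _ fun n _ => integ (by fun_prop)]
  exact Finset.sum_congr rfl fun n _ => by rw [integral_const_mul, moment ha]

lemma near_int {Γ : Type*} [AddCommGroup Γ] {a : Γ → ℂ} (ha : L1 a) {C δ : ℝ} (hC : nrm a ≤ C)
    {Ψ : ℝ → ℝ} (hΨ : Continuous Ψ) {p : Polynomial ℝ}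
    (hp : ∀ x ∈ Set.Icc 0 (C ^ 2), |p.eval x - Ψ x| < δ) :
    |∫ χ, p.eval (‖hat a χ‖ ^ 2) ∂(mu Γ) - ∫ χ, Ψ (‖hat a χ‖ ^ 2) ∂(mu Γ)| ≤ δ := by
  have := cont_hat ha
  rw [← integral_sub (integ (by fun_prop)) (integ (by fun_prop))]
  have h := norm_integral_le_of_norm_le_const (μ := mu Γ) (C := δ)
    (f := fun χ => p.eval (‖hat a χ‖ ^ 2) - Ψ (‖hat a χ‖ ^ 2))
    (Eventually.of_forall fun χ => (hp _ ⟨by positivity, by
      have := (norm_hat_le ha χ).trans hC; gcongr⟩).le)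
  simpa using h

lemma int_tendsto {a : ℕ → ℚ → ℂ} {C : ℝ} (ha : Bd a C) {Ψ : ℝ → ℝ} (hΨ : Continuous Ψ) :
    Tendsto (fun k => ∫ χ, Ψ (‖hat (a k) χ‖ ^ 2) ∂(mu ℚ)) UF
      (𝓝 (∫ χ, Ψ (‖hat (D a) χ‖ ^ 2) ∂(mu GG))) := by
  rw [Metric.tendsto_nhds]
  intro δ hδ
  obtain ⟨p, hp⟩ := exists_polynomial_near_of_continuousOn 0 (C ^ 2) Ψ hΨ.continuousOn (δ / 4)
    (by positivity)
  have t : Tendsto (fun k => ∫ χ, p.eval (‖hat (a k) χ‖ ^ 2) ∂(mu ℚ)) UF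
      (𝓝 (∫ χ, p.eval (‖hat (D a) χ‖ ^ 2) ∂(mu GG))) := by
    simp only [poly_int (ha _).1, poly_int (D_L1 ha)]
    refine tendsto_finsetSum _ fun n _ => Tendsto.const_mul _ ?_
    have := D_tendsto (ha.pw n) 0
    rw [D_pw ha] at this
    exact (Complex.continuous_re.tendsto _).comp this
  filter_upwards [Metric.tendsto_nhds.mp t (δ / 4) (by positivity)] with k hk
  have h1 := near_int (ha k).1 (ha k).2 hΨ hp
  have h2 := near_int (D_L1 ha) (D_nrm ha) hΨ hp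
  rw [Real.dist_eq] at *
  rw [abs_lt] at *
  rw [abs_le] at *
  constructor <;> linarith

/-- regularised logarithm. -/
def lg (ε x : ℝ) : ℝ := Real.log (|x| + ε ^ 2) / 2

lemma cont_lg {ε : ℝ} (hε : 0 < ε) : Continuous (lg ε) :=
  ((continuous_abs.add continuous_const).log fun x =>
    (show (0 : ℝ) < |x| + ε ^ 2 by positivity).ne').div_const _

def Q {Γ : Type*} [AddCommGroup Γ] (Φ : K Γ → ℂ) (ε : ℝ) : ℝ := ∫ χ, lg ε (‖Φ χ‖ ^ 2) ∂(mu Γ)

lemma Q_tendsto {a : ℕ → ℚ → ℂ} {C : ℝ} (ha : Bd a C) {ε : ℝ} (hε : 0 < ε) :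
    Tendsto (fun k => Q (hat (a k)) ε) UF (𝓝 (Q (hat (D a)) ε)) := int_tendsto ha (cont_lg hε)

end

end Pool.Agent.H58.Fq
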