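import Pool.Agent.H58.FqA

set_option autoImplicit false

namespace Pool.Agent.H58.Fq

open MeasureTheory Filter Topology Complex Metric Real

noncomputable section

def Lm (a x : ℝ) : ℝ := Real.log a + log⁺ (x / a)

@[fun_prop] lemma cont_Lm (a : ℝ) : Continuous (Lm a) := by unfold Lm; fun_prop

lemma Lm_eq {a x : ℝ} (ha : 0 < a) (hx : 0 ≤ x) : Lm a x = Real.log (max x a) := by
  rw [Lm, posLog_eq_log_max_one (by positivity), ← Real.log_mul ha.ne' (by positivity),
    mul_max_of_nonneg _ _ ha.le, max_comm]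
  congr 2 <;> field_simp

lemma Lm_ge (a x : ℝ) : Real.log a ≤ Lm a x := le_add_of_nonneg_right posLog_nonneg

lemma special {R v : ℂ} {a η : ℝ} (ha : 0 < a) (hv : ‖v‖ = a) (hη : 0 < η) :
    Lm a ‖R‖ ≤ circleAverage (fun w => Real.log (|‖R + v * w‖ ^ 2| + η ^ 2) / 2) 0 1 ∧
    circleAverage (fun w => Real.log (|‖R + v * w‖ ^ 2| + η ^ 2) / 2) 0 1 ≤ Lm a ‖R‖ + η / a := by
  set r := ‖R‖ with hr
  have hr0 : 0 ≤ r := norm_nonneg _
  set A := √((r + a) ^ 2 + η ^ 2) with hA
  set B := √((r - a) ^ 2 + η ^ 2) with hB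
  have hA2 : A ^ 2 = (r + a) ^ 2 + η ^ 2 := Real.sq_sqrt (by positivity)
  have hB2 : B ^ 2 = (r - a) ^ 2 + η ^ 2 := Real.sq_sqrt (by positivity)
  have hB0 : 0 < B := Real.sqrt_pos.mpr (by positivity)
  have hA1 : r + a ≤ A := Real.le_sqrt_of_sq_le (by nlinarith)
  have hA3 : A ≤ r + a + η := Real.sqrt_le_iff.mpr ⟨by positivity, by nlinarith⟩
  have hB1 : |r - a| ≤ B := Real.le_sqrt_of_sq_le (by rw [sq_abs]; nlinarith)
  have hB3 : B ≤ |r - a| + η := Real.sqrt_le_iff.mpr ⟨by positivity, by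
    have := abs_nonneg (r - a); have := sq_abs (r - a); nlinarith⟩
  set α := (A + B) / 2 with hα
  have hα0 : 0 < α := by positivity
  have hm1 : max r a ≤ α := by
    rcases abs_cases (r - a) with h | h <;> exact max_le (by linarith) (by linarith)
  have hm2 : α ≤ max r a + η := by
    have := le_max_left r a; have := le_max_right r a
    rcases abs_cases (r - a) with h | h <;> linarith
  set q : ℂ := (starRingEnd ℂ) R * v / α with hq
  have hqn : ‖q‖ = (A - B) / 2 := by
    rw [hq, norm_div, norm_mul, Complex.norm_conj, hv, Complex.norm_real, Real.norm_eq_abs,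
      abs_of_pos hα0, div_eq_iff hα0.ne', ← hr, hα]
    nlinarith
  have hαc : (α : ℂ) ≠ 0 := by exact_mod_cast hα0.ne'
  have e1 : circleAverage (fun w => Real.log (|‖R + v * w‖ ^ 2| + η ^ 2) / 2) 0 1 =
      circleAverage (fun w => Real.log ‖(α : ℂ) + q * w‖) 0 1 := by
    refine circleAverage_congr_sphere fun w hw => ?_
    have hw1 : ‖w‖ = 1 := by simpa using hw
    have : |‖R + v * w‖ ^ 2| + η ^ 2 = ‖(α : ℂ) + q * w‖ ^ 2 := by
      rw [abs_of_nonneg (by positivity), ← Complex.normSq_eq_norm_sq, ← Complex.normSq_eq_norm_sq,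
        Complex.normSq_add, Complex.normSq_add]
      have e2 : ((α : ℂ) * (starRingEnd ℂ) (q * w)) = R * (starRingEnd ℂ) (v * w) := by
        rw [hq]; simp only [map_mul, map_div₀, Complex.conj_conj, Complex.conj_ofReal]
        field_simp
      rw [e2]
      simp only [Complex.normSq_eq_norm_sq, norm_mul, hw1, hv, hqn, ← hr, Complex.norm_real,
        Real.norm_eq_abs, sq_abs]
      rw [hα]; nlinarith
    show Real.log _ / 2 = _
    rw [this, Real.log_pow]; push_cast; ring
  have e3 : circleAverage (fun w => Real.log ‖(α : ℂ) + q * w‖) 0 1 = Real.log α := by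
    rw [AnalyticOnNhd.circleAverage_log_norm_of_ne_zero (g := fun w => (α : ℂ) + q * w)
      (fun z _ => by fun_prop)]
    · simp [abs_of_pos hα0]
    · intro u hu h0
      have hu1 : ‖u‖ ≤ 1 := by simpa using hu
      have : (α : ℂ) = -(q * u) := by linear_combination h0
      have h2 := congrArg norm this
      rw [norm_neg, norm_mul, hqn, Complex.norm_real, Real.norm_eq_abs, abs_of_pos hα0] at h2
      have : 0 ≤ (A - B) / 2 := hqn ▸ norm_nonneg q
      nlinarith
  have hmx : 0 < max r a := lt_max_of_lt_right ha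
  rw [e1, e3, Lm_eq ha hr0]
  refine ⟨Real.log_le_log hmx hm1, ?_⟩
  have h1 : Real.log α - Real.log (max r a) ≤ α / max r a - 1 := by
    rw [← Real.log_div hα0.ne' hmx.ne']; exact Real.log_le_sub_one_of_pos (by positivity)
  have h2 : α / max r a - 1 ≤ η / a := by
    rw [div_sub_one hmx.ne']
    exact div_le_div₀ hη.le (by linarith) ha (le_max_right _ _)
  linarith

variable {Γ : Type*} [AddCommGroup Γ]

lemma fub {Ψ : ℝ → K Γ → ℝ} (h : Continuous Ψ.uncurry) (a b : ℝ) :
    ∫ χ, (∫ θ in a..b, Ψ θ χ) ∂(mu Γ) = ∫ θ in a..b, ∫ χ, Ψ θ χ ∂(mu Γ) := by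
  symm
  refine intervalIntegral_integral_swap ?_
  have h1 : IntegrableOn Ψ.uncurry (Set.uIcc a b ×ˢ Set.univ) (volume.prod (mu Γ)) :=
    h.continuousOn.integrableOn_compact' (isCompact_uIcc.prod isCompact_univ)
      (measurableSet_uIcc.prod MeasurableSet.univ)
  have h2 := h1.mono_set (Set.prod_mono Set.uIoc_subset_uIcc subset_rfl)
  rwa [IntegrableOn, ← Measure.prod_restrict, Measure.restrict_univ] at h2

lemma cont_avg {Ψ : ℝ → K Γ → ℝ} (h : Continuous Ψ.uncurry) (a b : ℝ) :
    Continuous fun χ => ∫ θ in a..b, Ψ θ χ :=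
  intervalIntegral.continuous_parametric_intervalIntegral_of_continuous'
    (f := fun χ θ => Ψ θ χ) (h.comp continuous_swap) a b

lemma cont_int {X : Type*} [TopologicalSpace X] [FirstCountableTopology X] [LocallyCompactSpace X]
    {Ψ : X → K Γ → ℝ} (h : Continuous Ψ.uncurry) : Continuous fun x => ∫ χ, Ψ x χ ∂(mu Γ) := by
  have := continuous_parametric_integral_of_continuous (μ := mu Γ) h isCompact_univ
  simpa using this

lemma affine_of_mvp {Λ : ℝ → ℝ} {s : ℝ} (hc : ContinuousOn Λ (Set.Ioi s))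
    (hm : ∀ x r, 0 < r → s < x - r → ∫ θ in (0 : ℝ)..2 * π, Λ (x + r * Real.cos θ) = 2 * π * Λ x) :
    ∃ α β : ℝ, ∀ x, s < x → Λ x = α + β * x := by
  have one : ∀ (Λ : ℝ → ℝ), ContinuousOn Λ (Set.Ioi s) →
      (∀ x r, 0 < r → s < x - r → ∫ θ in (0 : ℝ)..2 * π, Λ (x + r * Real.cos θ) = 2 * π * Λ x) →
      ∀ x₁ x₂ α β, s < x₁ → Λ x₁ = α + β * x₁ → Λ x₂ = α + β * x₂ →
      ∀ y ∈ Set.Icc x₁ x₂, Λ y ≤ α + β * y := by
    intro Λ hc hm x₁ x₂ α β h1 e1 e2 y hy
    have key : ∀ ε > 0, Λ y - (α + β * y) ≤ ε * (x₁ ^ 2 + x₂ ^ 2) := by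
      intro ε hε
      have hsub : Set.Icc x₁ x₂ ⊆ Set.Ioi s := fun t ht => lt_of_lt_of_le h1 ht.1
      obtain ⟨x, hx, hmax⟩ := isCompact_Icc.exists_isMaxOn ⟨y, hy⟩
        (f := fun t => Λ t - (α + β * t) + ε * t ^ 2) (((hc.mono hsub).sub (by fun_prop)).add
          (by fun_prop))
      have hy' : Λ y - (α + β * y) + ε * y ^ 2 ≤ Λ x - (α + β * x) + ε * x ^ 2 := hmax hy
      have hy2 : 0 ≤ ε * y ^ 2 := by positivity
      have := mul_nonneg hε.le (sq_nonneg x₁)
      have := mul_nonneg hε.le (sq_nonneg x₂)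
      rcases eq_or_lt_of_le hx.1 with h | h
      · subst h; nlinarith
      rcases eq_or_lt_of_le hx.2 with h' | h'
      · subst h'; nlinarith
      exfalso
      set r := min (x - x₁) (x₂ - x) with hr
      have hr0 : 0 < r := lt_min (by linarith) (by linarith)
      have hr1 : r ≤ x - x₁ := min_le_left _ _
      have hr2 : r ≤ x₂ - x := min_le_right _ _
      have hmem : ∀ θ, x + r * Real.cos θ ∈ Set.Icc x₁ x₂ := fun θ => by
        have := Real.neg_one_le_cos θ; have := Real.cos_le_one θ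
        constructor <;> nlinarith
      have hcont : Continuous fun θ => Λ (x + r * Real.cos θ) :=
        hc.comp_continuous (by fun_prop) fun θ => hsub (hmem θ)
      have hle : ∫ θ in (0 : ℝ)..2 * π, Λ (x + r * Real.cos θ) ≤ ∫ θ in (0 : ℝ)..2 * π,
          (Λ x + (β * r - 2 * ε * x * r) * Real.cos θ - ε * r ^ 2 * Real.cos θ ^ 2) := by
        refine intervalIntegral.integral_mono_on (by positivity) (hcont.intervalIntegrable _ _)
          ((by fun_prop : Continuous _).intervalIntegrable _ _) fun θ _ => ?_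
        have : Λ (x + r * Real.cos θ) - (α + β * (x + r * Real.cos θ)) +
          ε * (x + r * Real.cos θ) ^ 2 ≤ Λ x - (α + β * x) + ε * x ^ 2 := hmax (hmem θ)
        nlinarith
      rw [hm x r hr0 (by linarith), intervalIntegral.integral_sub
        ((by fun_prop : Continuous _).intervalIntegrable _ _)
        ((by fun_prop : Continuous _).intervalIntegrable _ _), intervalIntegral.integral_add
        ((by fun_prop : Continuous _).intervalIntegrable _ _)
        ((by fun_prop : Continuous _).intervalIntegrable _ _)] at hle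
      simp at hle
      have : 0 < ε * r ^ 2 * π := by positivity
      nlinarith
    have t : Tendsto (fun ε : ℝ => ε * (x₁ ^ 2 + x₂ ^ 2)) (𝓝[>] 0) (𝓝 (0 * (x₁ ^ 2 + x₂ ^ 2))) :=
      (tendsto_nhdsWithin_of_tendsto_nhds tendsto_id).mul_const _
    rw [zero_mul] at t
    have := ge_of_tendsto t (eventually_nhdsWithin_of_forall key)
    linarith
  have two : ∀ x₁ x₂ α β, s < x₁ → Λ x₁ = α + β * x₁ → Λ x₂ = α + β * x₂ →
      ∀ y ∈ Set.Icc x₁ x₂, Λ y = α + β * y := by
    intro x₁ x₂ α β h1 e1 e2 y hy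
    have a1 := one Λ hc hm x₁ x₂ α β h1 e1 e2 y hy
    have a2 := one (fun t => -Λ t) hc.neg (fun x r h h' => by
      rw [intervalIntegral.integral_neg, hm x r h h']; ring) x₁ x₂ (-α) (-β) h1
      (by rw [e1]; ring) (by rw [e2]; ring) y hy
    linarith
  refine ⟨Λ (s + 1) - (Λ (s + 2) - Λ (s + 1)) * (s + 1), Λ (s + 2) - Λ (s + 1), fun x hx => ?_⟩
  set x₁ := min x (s + 1)
  set x₂ := max x (s + 2)
  have h1 : s < x₁ := lt_min hx (by linarith)
  have h2 : x₁ ≤ s + 1 := min_le_right _ _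
  have h3 : s + 2 ≤ x₂ := le_max_right _ _
  have hne : x₂ - x₁ ≠ 0 := by linarith
  have H := two x₁ x₂ (Λ x₁ - (Λ x₂ - Λ x₁) / (x₂ - x₁) * x₁) ((Λ x₂ - Λ x₁) / (x₂ - x₁)) h1
    (by ring) (by field_simp; ring)
  rw [H x ⟨min_le_left _ _, le_max_left _ _⟩, H (s + 1) ⟨h2, by linarith⟩,
    H (s + 2) ⟨by linarith, h3⟩]
  ring

lemma hurwitz {f : ℂ → ℂ} {c : ℂ} {r δ : ℝ} (hr : 0 < r) (hf : DifferentiableOn ℂ f (closedBall c r))
    (h0 : ‖f c‖ < δ) (h1 : ∀ z ∈ sphere c r, δ ≤ ‖f z‖) : ∃ z ∈ closedBall c r, f z = 0 := by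
  by_contra hne
  push Not at hne
  have hδ : 0 < δ := (norm_nonneg _).trans_lt h0
  have hd : DiffContOnCl ℂ (fun z => (f z)⁻¹) (ball c r) :=
    DifferentiableOn.diffContOnCl (by rw [closure_ball c hr.ne']; exact hf.inv hne)
  have := Complex.norm_le_of_forall_mem_frontier_norm_le isBounded_ball hd (C := δ⁻¹)
    (fun z hz => by
      rw [frontier_ball c hr.ne'] at hz
      rw [norm_inv]; exact inv_anti₀ hδ (h1 z hz)) (subset_closure (mem_ball_self hr))
  rw [norm_inv] at this
  have h2 : 0 < ‖f c‖ := norm_pos_iff.mpr (hne c (mem_closedBall_self hr.le))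
  exact absurd ((inv_le_inv₀ h2 hδ).mp this) (not_le.mpr h0)

lemma half_preconn (s : ℝ) {C : Set ℂ} (hC : C.Countable) :
    IsPreconnected ({z : ℂ | s < z.re} \ C) := by
  let T : ℂ → ℂ := fun w => ((s + Real.exp w.re : ℝ) : ℂ) + w.im * I
  have hre : ∀ w, (T w).re = s + Real.exp w.re := fun w => by simp [T, Complex.exp_ofReal_re]
  have him : ∀ w, (T w).im = w.im := fun w => by simp [T]
  have hi : Function.Injective T := fun w w' h => by
    apply Complex.ext
    · have := congrArg Complex.re h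
      rw [hre, hre] at this
      exact Real.exp_injective (add_left_cancel this)
    · rw [← him, h, him]
  have h1 := ((hC.preimage hi).isPathConnected_compl_of_one_lt_rank
    (by simp)).isConnected.isPreconnected.image T (by fun_prop : Continuous T).continuousOn
  convert h1 using 1
  ext z
  constructor
  · rintro ⟨hz, hzC⟩
    have hz' : s < z.re := hz
    have : T (⟨Real.log (z.re - s), z.im⟩) = z := by
      apply Complex.ext
      · rw [hre, Real.exp_log (by linarith)]; ring
      · rw [him]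
    exact ⟨_, by simpa [this] using hzC, this⟩
  · rintro ⟨w, hw, rfl⟩
    exact ⟨by show s < _; rw [hre]; linarith [Real.exp_pos w.re], hw⟩

lemma submean {f : ℂ → ℂ} {c : ℂ} {r a : ℝ} (hr : 0 < r) (ha : 0 < a)
    (hf : AnalyticOnNhd ℂ f (closedBall c r)) :
    Lm a ‖f c‖ ≤ circleAverage (fun z => Lm a ‖f z‖) c r := by
  have hac : (a : ℂ) ≠ 0 := by exact_mod_cast ha.ne'
  have hg : AnalyticOnNhd ℂ (fun z => f z / a) (closedBall c |r|) := by
    rw [abs_of_pos hr]; exact fun z hz => (hf z hz).div_const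
  have hn : ∀ z, ‖f z / a‖ = ‖f z‖ / a := fun z => by simp [abs_of_pos ha]
  have hm := (hg.mono sphere_subset_closedBall).meromorphicOn
  have hi := hm.circleIntegrable_posLog_norm
  have e : circleAverage (fun z => Lm a ‖f z‖) c r =
      Real.log a + circleAverage (fun z => log⁺ ‖f z / a‖) c r := by
    simp only [Lm, ← hn]
    rw [circleAverage_fun_add (circleIntegrable_const _ _ _) hi, circleAverage_const]
  rw [e, Lm, ← hn, add_le_add_iff_left, posLog_apply]
  refine max_le (circleAverage_nonneg_of_nonneg fun _ _ => posLog_nonneg) ?_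
  by_cases h0 : f c / a = 0
  · rw [h0]; simpa using circleAverage_nonneg_of_nonneg (c := c) (R := r)
      (f := fun z => log⁺ ‖f z / a‖) fun _ _ => posLog_nonneg
  refine le_trans ?_ (circleAverage_mono hm.circleIntegrable_log_norm hi
    fun z _ => le_max_right _ _)
  rw [hg.circleAverage_log_norm hr.ne' h0, le_add_iff_nonneg_left]
  refine finsum_nonneg fun u => ?_
  by_cases hu : u ∈ closedBall c |r|
  · refine mul_nonneg (by exact_mod_cast MeromorphicOn.AnalyticOnNhd.divisor_nonneg hg u) ?_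
    by_cases hcu : c - u = 0
    · simp [hcu]
    · have h1 : 0 < ‖c - u‖ := norm_pos_iff.mpr hcu
      have h2 : ‖c - u‖ ≤ r := by
        rw [abs_of_pos hr, mem_closedBall, dist_comm, dist_eq_norm] at hu; exact hu
      exact Real.log_nonneg (by rw [← div_eq_mul_inv, le_div_iff₀ h1]; linarith)
  · simp [hu]

lemma strict_mean {f : ℂ → ℂ} {c : ℂ} {r a : ℝ} (hr : 0 < r) (ha : 0 < a)
    (hf : AnalyticOnNhd ℂ f (closedBall c r)) (hc : ‖f c‖ = a) (hd : deriv f c ≠ 0) :
    Lm a ‖f c‖ < circleAverage (fun z => Lm a ‖f z‖) c r := by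
  have hex : ∃ z ∈ sphere c r, a < ‖f z‖ := by
    by_contra hne
    push Not at hne
    have hdc : DiffContOnCl ℂ f (ball c r) :=
      DifferentiableOn.diffContOnCl (by rw [closure_ball c hr.ne']; exact hf.differentiableOn)
    have hle : ∀ z ∈ ball c r, ‖f z‖ ≤ a := fun z hz =>
      Complex.norm_le_of_forall_mem_frontier_norm_le isBounded_ball hdc
        (fun z hz => hne z (by rwa [frontier_ball c hr.ne'] at hz)) (subset_closure hz)
    have h1 := Complex.eventually_eq_of_isLocalMax_norm (f := f) (c := c)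
      ((hf c (mem_closedBall_self hr.le)).eventually_analyticAt.mono fun z hz => hz.differentiableAt)
      (by filter_upwards [ball_mem_nhds c hr] with z hz; simpa [hc] using hle z hz)
    exact hd (by rw [Filter.EventuallyEq.deriv_eq (f := fun _ => f c) h1]; simp)
  obtain ⟨z, hz, hza⟩ := hex
  have hcont : Continuous fun θ => Lm a ‖f (circleMap c r θ)‖ :=
    (cont_Lm a).comp (hf.continuousOn.comp_continuous (continuous_circleMap c r)
      fun θ => circleMap_mem_closedBall c hr.le θ).norm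
  have hz' : z ∈ circleMap c r '' Set.Ioc 0 (2 * π) := by
    rw [image_circleMap_Ioc, abs_of_pos hr]; exact hz
  obtain ⟨θ₀, hθ₀, rfl⟩ := hz'
  have hpos : 0 < ∫ θ in (0 : ℝ)..2 * π, (Lm a ‖f (circleMap c r θ)‖ - Real.log a) := by
    refine intervalIntegral.integral_pos (by positivity) (hcont.sub continuous_const).continuousOn
      (fun θ _ => sub_nonneg.mpr (Lm_ge _ _)) ⟨θ₀, Set.Ioc_subset_Icc_self hθ₀, ?_⟩
    rw [Lm_eq ha (norm_nonneg _), max_eq_left hza.le, sub_pos]
    exact Real.log_lt_log ha hza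
  rw [intervalIntegral.integral_sub (hcont.intervalIntegrable _ _) (by simp)] at hpos
  rw [hc, Lm_eq ha ha.le, max_self, circleAverage_def, smul_eq_mul, ← div_eq_inv_mul,
    lt_div_iff₀ (by positivity)]
  simp only [intervalIntegral.integral_const, smul_eq_mul] at hpos
  linarith

end

end Pool.Agent.H58.Fq
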