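import Pool.Agent.H58.FqC

set_option autoImplicit false

namespace Pool.Agent.H58.Fq

open MeasureTheory Filter Topology Complex Metric

noncomputable section

section dens
variable {Γ : Type*} [AddCommGroup Γ] [Module ℚ Γ]

lemma exists_agree (χ : K Γ) (F : Finset Γ) : ∃ φ : Γ →+ ℝ, ∀ x ∈ F, ev (ex φ) x = ev χ x := by
  have : IsAddTorsionFree Γ := IsAddTorsionFree.of_module_rat Γ
  let N : Submodule ℤ Γ := Submodule.span ℤ (F : Set Γ)
  have : Module.Finite ℤ N := Module.Finite.span_of_finite ℤ F.finite_toSet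
  let B := Module.Free.chooseBasis ℤ N
  let φ₀ : N →ₗ[ℤ] ℝ := B.constr ℤ fun i => arg (ev χ (B i))
  obtain ⟨φ, hφ⟩ := (Module.Baer.of_divisible ℝ).extension_property N.subtype
    N.injective_subtype φ₀
  have key : ∀ x : N, ev (ex φ.toAddMonoidHom) x = ev χ x := by
    intro x
    have hx : x ∈ Submodule.span ℤ (Set.range B) := by rw [B.span_eq]; trivial
    rw [← Submodule.mem_toAddSubgroup, Submodule.span_int_eq_addSubgroupClosure] at hx
    induction hx using AddSubgroup.closure_induction with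
    | mem y hy =>
      obtain ⟨i, rfl⟩ := hy
      have : φ (B i) = arg (ev χ (B i)) := by
        have := LinearMap.congr_fun hφ (B i)
        simpa [φ₀] using this
      rw [ev_ex, LinearMap.toAddMonoidHom_coe, this]
      have h := Complex.norm_mul_exp_arg_mul_I (ev χ (B i))
      simpa using h
    | zero => simp
    | add y z _ _ hy hz => rw [Submodule.coe_add, ev_add, ev_add, hy, hz]
    | neg y _ hy => rw [Submodule.coe_neg, ev_neg, ev_neg, hy]
  exact ⟨φ.toAddMonoidHom, fun x hx => key ⟨x, Submodule.subset_span hx⟩⟩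

lemma dense_ex (χ : K Γ) {W : Set (K Γ)} (hW : W ∈ 𝓝 χ) : ∃ φ : Γ →+ ℝ, W ∈ 𝓝 (ex φ) := by
  classical
  choose φ hφ using exists_agree χ
  have ht : Tendsto (fun F => ex (φ F)) atTop (𝓝 χ) := by
    refine tendsto_subtype_rng.mpr (tendsto_pi_nhds.mpr fun x => tendsto_const_nhds.congr' ?_)
    filter_upwards [eventually_ge_atTop ({x} : Finset Γ)] with F hF
    exact (Circle.ext (hφ F x (hF (Finset.mem_singleton_self x)))).symm
  exact (ht.eventually (eventually_mem_nhds_iff.mpr hW)).exists.imp' φ fun _ h => h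

end dens

section zon
variable {T : Type*} [Fintype T]

def V (a : T → ℝ) (u : T → ℂ) (c : T × Bool → ℝ) : ℂ :=
  ∑ l, a l * u l * (2 * c (l, true) + 2 * I * c (l, false))

def sec (S : ℝ) (u : T → ℂ) (τ : ℂ) (j : T × Bool) : ℝ :=
  if j.2 then (τ * (starRingEnd ℂ) (u j.1)).re / (2 * S) else (τ * (starRingEnd ℂ) (u j.1)).im / (2 * S)

lemma V_sec {a : T → ℝ} {u : T → ℂ} (hu : ∀ l, ‖u l‖ = 1) (hS : 0 < ∑ l, a l) (τ : ℂ) :
    V a u (sec (∑ l, a l) u τ) = τ := by
  have hS' : ((∑ l, a l : ℝ) : ℂ) ≠ 0 := by exact_mod_cast hS.ne'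
  have : ∀ l, (a l : ℂ) * u l * (2 * sec (∑ l, a l) u τ (l, true) +
      2 * I * sec (∑ l, a l) u τ (l, false)) = a l * (τ / (∑ l, a l : ℝ)) := by
    intro l
    have h1 := Complex.re_add_im (τ * (starRingEnd ℂ) (u l))
    have h2 : u l * (starRingEnd ℂ) (u l) = 1 := by
      rw [Complex.mul_conj, Complex.normSq_eq_norm_sq, hu]; simp
    simp only [sec, if_true, Bool.false_eq_true, if_false, Complex.ofReal_div, Complex.ofReal_mul,
      Complex.ofReal_ofNat]
    field_simp
    linear_combination (a l : ℂ) * (u l * h1 + τ * h2)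
  rw [V, Finset.sum_congr rfl fun l _ => this l, ← Finset.sum_mul, ← Complex.ofReal_sum]
  field_simp

omit [Fintype T] in
lemma sec_mem {S : ℝ} {u : T → ℂ} (hu : ∀ l, ‖u l‖ = 1) (hS : 0 < S) {τ : ℂ} (hτ : ‖τ‖ ≤ 2 * S)
    (j : T × Bool) : sec S u τ j ∈ Set.Icc (-1 : ℝ) 1 := by
  have h : ‖τ * (starRingEnd ℂ) (u j.1)‖ ≤ 2 * S := by simpa [hu] using hτ
  rw [Set.mem_Icc, ← abs_le, sec]
  split_ifs
  · rw [abs_div, abs_of_pos (by positivity : 0 < 2 * S), div_le_one (by positivity)]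
    exact (Complex.abs_re_le_norm _).trans h
  · rw [abs_div, abs_of_pos (by positivity : 0 < 2 * S), div_le_one (by positivity)]
    exact (Complex.abs_im_le_norm _).trans h

lemma adj {a : T → ℝ} {u : T → ℂ} (ha : ∀ l, 0 < a l) (hu : ∀ l, ‖u l‖ = 1) {τ : ℂ}
    (j : T × Bool) (hτ : ‖τ‖ + 4 * a j.1 < 2 * ∑ l, a l) {e : ℝ} (he : |e| = 1) :
    ∃ c : T × Bool → ℝ, (∀ i, c i ∈ Set.Icc (-1 : ℝ) 1) ∧ c j = e ∧ V a u c = τ := by
  classical
  obtain ⟨l₀, b₀⟩ := j
  let a' : T → ℝ := Function.update a l₀ 0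
  have hs : ∑ l, a' l = ∑ l, a l - a l₀ := by
    rw [Finset.sum_update_of_mem (Finset.mem_univ _), ← Finset.sum_erase_add _ _ (Finset.mem_univ l₀),
      Finset.sdiff_singleton_eq_erase]
    ring
  let w : ℂ := a l₀ * u l₀ * (2 * (if b₀ then e else 0 : ℝ) + 2 * I * (if b₀ then 0 else e : ℝ))
  have hw : ‖w‖ = 2 * a l₀ := by
    cases b₀ <;> simp [w, hu, he, abs_of_pos (ha l₀), mul_comm]
  have h0 := norm_nonneg τ
  have h1 := ha l₀
  simp only at hτ
  have hS : 0 < ∑ l, a' l := by rw [hs]; linarith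
  have hb : ‖τ - w‖ ≤ 2 * ∑ l, a' l := by
    have := norm_sub_le τ w
    rw [hs]; linarith
  refine ⟨fun i => if i.1 = l₀ then (if i.2 = b₀ then e else 0) else sec (∑ l, a' l) u (τ - w) i,
    fun i => ?_, by simp, ?_⟩
  · dsimp only
    split_ifs
    · exact abs_le.mp he.le
    · simp
    · exact sec_mem hu hS hb i
  · have := V_sec (a := a') hu hS (τ - w)
    rw [V, ← Finset.sum_erase_add _ _ (Finset.mem_univ l₀)] at this ⊢
    rw [Finset.sum_congr rfl (g := fun l => (a' l : ℂ) * u l *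
      (2 * sec (∑ l, a' l) u (τ - w) (l, true) + 2 * I * sec (∑ l, a' l) u (τ - w) (l, false)))
      fun l hl => by simp [a', Finset.ne_of_mem_erase hl]]
    have e0 : a' l₀ = 0 := by simp [a']
    rw [e0] at this
    cases b₀ <;> simp [w] at this ⊢ <;> linear_combination this

/-- inverse branches of the cosine. -/
def br (k : ℤ) (c : ℝ) : ℝ := k * Real.pi + Real.arccos ((-1) ^ k * c)

lemma abs_neg_one (k : ℤ) : |(-1 : ℝ) ^ k| = 1 := by rw [abs_zpow]; simp

lemma cos_br (k : ℤ) {c : ℝ} (hc : c ∈ Set.Icc (-1 : ℝ) 1) : Real.cos (br k c) = c := by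
  have h : |(-1 : ℝ) ^ k * c| ≤ 1 := by rw [abs_mul, abs_neg_one, one_mul]; exact abs_le.mpr hc
  have h2 : (-1 : ℝ) ^ k * (-1) ^ k = 1 := by rw [← mul_zpow]; simp
  rw [br, add_comm, Real.cos_add_int_mul_pi, Real.cos_arccos (abs_le.mp h).1 (abs_le.mp h).2,
    ← mul_assoc, h2, one_mul]

lemma br_succ (k : ℤ) : br (k + 1) ((-1) ^ (k + 1)) = br k ((-1) ^ (k + 1)) := by
  have h2 : (-1 : ℝ) ^ k * (-1) ^ k = 1 := by rw [← mul_zpow]; simp
  have h3 : (-1 : ℝ) ^ (k + 1) = -(-1) ^ k := by rw [zpow_add_one₀ (by norm_num)]; ring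
  simp only [br, h3, neg_mul, mul_neg, neg_neg, h2, Real.arccos_one, Real.arccos_neg_one]
  push_cast; ring

lemma br_floor (β : ℝ) : br ⌊β / Real.pi⌋ (Real.cos β) = β := by
  have hp := Real.pi_pos
  have h1 := Int.floor_le (β / Real.pi)
  have h2 := Int.lt_floor_add_one (β / Real.pi)
  rw [le_div_iff₀ hp] at h1
  rw [div_lt_iff₀ hp] at h2
  rw [br, ← Real.cos_sub_int_mul_pi, Real.arccos_cos (by linarith) (by linarith)]
  ring

lemma cont_br (k : ℤ) : Continuous (br k) :=
  continuous_const.add (Real.continuous_arccos.comp (by fun_prop))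

/-- A property that is constant along connected families in a fibre is constant on the fibre. -/
lemma fibre {a : T → ℝ} {u : T → ℂ} (ha : ∀ l, 0 < a l) (hu : ∀ l, ‖u l‖ = 1) {τ : ℂ}
    (hS : 0 < ∑ l, a l) (hτ0 : ‖τ‖ ≤ 2 * ∑ l, a l)
    (hτ : ∀ l, ‖τ‖ + 4 * a l < 2 * ∑ l, a l) {P : (T × Bool → ℝ) → Prop}
    (hP : ∀ γ : ℝ → T × Bool → ℝ, Continuous γ →
      (∀ t ∈ Set.Icc (0 : ℝ) 1, V a u (fun j => Real.cos (γ t j)) = τ) → (P (γ 0) ↔ P (γ 1)))
    {β : T × Bool → ℝ} (hβ : V a u (fun j => Real.cos (β j)) = τ) :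
    P β ↔ P (fun j => br 0 (sec (∑ l, a l) u τ j)) := by
  classical
  set c₀ := sec (∑ l, a l) u τ with hc₀
  have m₀ : ∀ i, c₀ i ∈ Set.Icc (-1 : ℝ) 1 := sec_mem hu hS hτ0
  have v₀ : V a u c₀ = τ := V_sec hu hS τ
  have cell : ∀ (k : T × Bool → ℤ) (c : T × Bool → ℝ), (∀ i, c i ∈ Set.Icc (-1 : ℝ) 1) →
      V a u c = τ → (P (fun j => br (k j) (c j)) ↔ P (fun j => br (k j) (c₀ j))) := by
    intro k c hc hv
    have := hP (fun t j => br (k j) ((1 - t) * c j + t * c₀ j))
      (continuous_pi fun j => (cont_br _).comp (by fun_prop)) (fun t ht => by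
        have e : (fun j => Real.cos (br (k j) ((1 - t) * c j + t * c₀ j))) =
            fun j => (1 - t) * c j + t * c₀ j := by
          funext j
          have := hc j; have := m₀ j
          exact cos_br _ ⟨by nlinarith [ht.1, ht.2, (hc j).1, (m₀ j).1],
            by nlinarith [ht.1, ht.2, (hc j).2, (m₀ j).2]⟩
        rw [e]
        calc V a u (fun j => (1 - t) * c j + t * c₀ j) = (1 - t) * V a u c + t * V a u c₀ := by
              simp only [V, Finset.mul_sum, ← Finset.sum_add_distrib]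
              exact Finset.sum_congr rfl fun l _ => by push_cast; ring
          _ = τ := by rw [hv, v₀]; ring)
    simpa using this
  have step : ∀ (k : T × Bool → ℤ) (j : T × Bool) (n : ℤ),
      P (fun i => br (Function.update k j (n + 1) i) (c₀ i)) ↔
        P (fun i => br (Function.update k j n i) (c₀ i)) := by
    intro k j n
    obtain ⟨c, hc, hj, hv⟩ := adj ha hu j (hτ j.1) (abs_neg_one (n + 1))
    rw [← cell _ c hc hv, ← cell _ c hc hv]
    have : (fun i => br (Function.update k j (n + 1) i) (c i)) =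
        fun i => br (Function.update k j n i) (c i) := by
      funext i
      by_cases h : i = j
      · subst h; simp only [Function.update_self, hj, br_succ]
      · simp [Function.update_of_ne h]
    rw [this]
  have step2 : ∀ (k : T × Bool → ℤ) (j : T × Bool) (n : ℤ),
      P (fun i => br (Function.update k j n i) (c₀ i)) ↔
        P (fun i => br (Function.update k j 0 i) (c₀ i)) := by
    intro k j n
    induction n using Int.induction_on with
    | zero => rfl
    | succ n ih => rw [step, ih]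
    | pred n ih => rw [← ih, ← step]; simp
  have all : ∀ (k : T × Bool → ℤ) (s : Finset (T × Bool)),
      P (fun i => br (if i ∈ s then k i else 0) (c₀ i)) ↔ P (fun i => br 0 (c₀ i)) := by
    intro k s
    induction s using Finset.induction_on with
    | empty => simp
    | insert j s hj ih =>
      rw [← ih]
      have := step2 (fun i => if i ∈ s then k i else 0) j (k j)
      convert this using 4 with i i
      · by_cases h : i = j
        · subst h; simp
        · simp [h]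
      · by_cases h : i = j
        · subst h; simp [hj]
        · simp [h]
  have h1 := cell (fun j => ⌊β j / Real.pi⌋) (fun j => Real.cos (β j))
    (fun j => ⟨Real.neg_one_le_cos _, Real.cos_le_one _⟩) hβ
  simp only [br_floor] at h1
  rw [h1, ← all (fun j => ⌊β j / Real.pi⌋) Finset.univ]
  simp

end zon

lemma type_const {X : Type*} [TopologicalSpace X] {Y : Set X} (hY : IsPreconnected Y)
    {g h : X → ℂ} (hg : ContinuousOn g Y) (hh : ContinuousOn h Y)
    (h1 : ∀ y ∈ Y, g y * h y = 0) (h2 : ∀ y ∈ Y, g y = 0 → h y ≠ 0) {x y : X} (hx : x ∈ Y)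
    (hy : y ∈ Y) : g x = 0 ↔ g y = 0 := by
  have key : ∀ x ∈ Y, ∀ y ∈ Y, g x = 0 → g y = 0 := by
    intro x hx y hy hgx
    by_contra hgy
    obtain ⟨t₁, ht₁, e₁⟩ := continuousOn_iff_isClosed.mp hg {0} isClosed_singleton
    obtain ⟨t₂, ht₂, e₂⟩ := continuousOn_iff_isClosed.mp hh {0} isClosed_singleton
    have m₁ : ∀ z ∈ Y, z ∈ t₁ ↔ g z = 0 := fun z hz => by
      have := Set.ext_iff.mp e₁ z; simpa [hz] using this.symm
    have m₂ : ∀ z ∈ Y, z ∈ t₂ ↔ h z = 0 := fun z hz => by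
      have := Set.ext_iff.mp e₂ z; simpa [hz] using this.symm
    obtain ⟨z, hz, hz1, hz2⟩ := isPreconnected_closed_iff.mp hY t₁ t₂ ht₁ ht₂
      (fun z hz => (mul_eq_zero.mp (h1 z hz)).imp (m₁ z hz).mpr (m₂ z hz).mpr)
      ⟨x, hx, (m₁ x hx).mpr hgx⟩
      ⟨y, hy, (m₂ y hy).mpr ((mul_eq_zero.mp (h1 y hy)).resolve_left hgy)⟩
    exact h2 z hz ((m₁ z hz).mp hz1) ((m₂ z hz).mp hz2)
  exact ⟨key x hx y hy, key y hy x hx⟩

end

end Pool.Agent.H58.Fq
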