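import Pool.Agent.H58.FqD

set_option autoImplicit false

namespace Pool.Agent.H58.Fq

open MeasureTheory Filter Topology Complex Metric

noncomputable section

abbrev LL : Type := ℕ →₀ ℚ
def bb (j : ℕ) : LL := Finsupp.single j 1
def co (j : ℕ) : LL →+ ℝ where
  toFun x := (x j : ℝ)
  map_zero' := by simp
  map_add' x y := by simp
def rho : ℝ := 99 / 100

lemma rho_pos : 0 < rho := by norm_num [rho]
lemma rho_lt : rho < 1 := by norm_num [rho]

lemma co_single (i j : ℕ) (q : ℚ) : co i (Finsupp.single j q) = if j = i then (q : ℝ) else 0 := by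
  simp only [co, AddMonoidHom.coe_mk, ZeroHom.coe_mk, Finsupp.single_apply]
  split_ifs <;> simp

lemma phi_single (φ : LL →+ ℝ) (q : ℚ) : φ (Finsupp.single 0 q) = q * φ (bb 0) := by
  have : Finsupp.single 0 q = q • bb 0 := by simp [bb]
  rw [this, map_rat_smul, Rat.smul_def]

variable {J : Type} [Fintype J] (c : J → ℂ) (p : J → ℚ) (A : ℝ)

def U0 (ζ : ℂ) : ℂ := ∑ j, c j * cexp (-(p j : ℂ) * ζ)
def Uc (z : ℂ) (χ : K LL) : ℂ := ∑ j, c j * cexp (-(p j : ℂ) * z) * ev χ (Finsupp.single 0 (p j))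
def Bk (χ : K LL) (l : ℕ) : ℂ := ev χ (bb (4 * l + 1)) *
  (ev χ (bb (4 * l + 2)) + ev χ (-bb (4 * l + 2)) +
    I * (ev χ (bb (4 * l + 3)) + ev χ (-bb (4 * l + 3))) + ev χ (bb (4 * l + 4)))
def Tl (χ : K LL) : ℂ := ∑' l, ((A * rho ^ l : ℝ) : ℂ) * Bk χ l
def Fh (z : ℂ) (χ : K LL) : ℂ := Uc c p z χ + Tl A χ

lemma diff_U0 : Differentiable ℂ (U0 c p) := by unfold U0; fun_prop

lemma Uc_ex (z : ℂ) (φ : LL →+ ℝ) : Uc c p z (ex φ) = U0 c p (z - φ (bb 0) * I) := by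
  refine Finset.sum_congr rfl fun j _ => ?_
  rw [ev_ex, phi_single, mul_assoc, ← Complex.exp_add]
  congr 2; push_cast; ring

lemma Uc_any (χ : K LL) : ∃ θ : ℝ, ∀ z, Uc c p z χ = U0 c p (z - θ * I) := by
  classical
  obtain ⟨φ, hφ⟩ := exists_agree χ (Finset.univ.image fun j => Finsupp.single 0 (p j))
  refine ⟨φ (bb 0), fun z => ?_⟩
  rw [← Uc_ex]
  exact Finset.sum_congr rfl fun j _ => by
    rw [hφ _ (Finset.mem_image_of_mem _ (Finset.mem_univ j))]

lemma cont_Uc : Continuous fun q : ℂ × K LL => Uc c p q.1 q.2 := by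
  unfold Uc
  exact continuous_finsetSum _ fun j _ => Continuous.mul (by fun_prop)
    ((cont_ev _).comp continuous_snd)

lemma norm_Bk (χ : K LL) (l : ℕ) : ‖Bk χ l‖ ≤ 5 := by
  rw [Bk, norm_mul, norm_ev, one_mul]
  refine (norm_add_le _ _).trans ?_
  have h1 := norm_add_le (ev χ (bb (4 * l + 2)) + ev χ (-bb (4 * l + 2)))
    (I * (ev χ (bb (4 * l + 3)) + ev χ (-bb (4 * l + 3))))
  have h2 := norm_add_le (ev χ (bb (4 * l + 2))) (ev χ (-bb (4 * l + 2)))
  have h3 := norm_add_le (ev χ (bb (4 * l + 3))) (ev χ (-bb (4 * l + 3)))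
  rw [norm_mul, Complex.norm_I, one_mul] at h1
  simp only [norm_ev] at *
  linarith

@[fun_prop] lemma cont_Bk (l : ℕ) : Continuous fun χ => Bk χ l := by unfold Bk; fun_prop

variable {A}

lemma term_le (hA : 0 < A) (χ : K LL) (n l : ℕ) :
    ‖((A * rho ^ n : ℝ) : ℂ) * Bk χ l‖ ≤ 5 * A * rho ^ n := by
  have := rho_pos
  rw [norm_mul, Complex.norm_real, Real.norm_eq_abs, abs_of_pos (by positivity)]
  nlinarith [norm_Bk χ l, (by positivity : 0 < A * rho ^ n)]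

lemma geo (B : ℝ) (L : ℕ) : HasSum (fun l => B * rho ^ (l + L)) (100 * B * rho ^ L) := by
  have := (hasSum_geometric_of_lt_one rho_pos.le rho_lt).mul_left (B * rho ^ L)
  have e1 : (fun l => B * rho ^ (l + L)) = fun i => B * rho ^ L * rho ^ i := by funext l; ring
  have e2 : (1 - rho)⁻¹ = 100 := by norm_num [rho]
  rw [e1, show 100 * B * rho ^ L = B * rho ^ L * (1 - rho)⁻¹ by rw [e2]; ring]
  exact this

lemma sum_Tl (hA : 0 < A) (χ : K LL) : Summable fun l => ((A * rho ^ l : ℝ) : ℂ) * Bk χ l :=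
  Summable.of_norm_bounded (geo (5 * A) 0).summable fun l => by simpa using term_le hA χ l l

lemma cont_tail (hA : 0 < A) (L : ℕ) :
    Continuous fun χ => ∑' l, ((A * rho ^ (l + L) : ℝ) : ℂ) * Bk χ (l + L) :=
  continuous_tsum (fun l => by fun_prop) (geo (5 * A) L).summable fun l χ => term_le hA χ _ _

lemma cont_Tl (hA : 0 < A) : Continuous (Tl A) := cont_tail hA 0

lemma cont_Fh (hA : 0 < A) : Continuous fun q : ℂ × K LL => Fh c p A q.1 q.2 :=
  (cont_Uc c p).add ((cont_Tl hA).comp continuous_snd)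

/-! connector blocks -/
def NN : ℕ := (exists_pow_lt_of_lt_one (show (0 : ℝ) < 1 / 10 by norm_num) rho_lt).choose
lemma rho_NN : rho ^ NN ≤ 1 / 10 :=
  (exists_pow_lt_of_lt_one (show (0 : ℝ) < 1 / 10 by norm_num) rho_lt).choose_spec.le

def ix (j : Fin NN × Bool) : ℕ := 4 * j.1 + (if j.2 then 2 else 3)
def am (A : ℝ) (l : Fin NN) : ℝ := A * rho ^ (l : ℕ)
def un (χ : K LL) (l : Fin NN) : ℂ := ev χ (bb (4 * l + 1))
def Rs (A : ℝ) (z : ℂ) (χ : K LL) : ℂ := Uc c p z χ +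
  ∑ l : Fin NN, am A l * (ev χ (bb (4 * l + 1)) * ev χ (bb (4 * l + 4))) +
  ∑' l, ((A * rho ^ (l + NN) : ℝ) : ℂ) * Bk χ (l + NN)

lemma ix_inj : Function.Injective ix := by
  rintro ⟨l, b⟩ ⟨l', b'⟩ h
  simp only [ix] at h
  cases b <;> cases b' <;> simp at h ⊢ <;> omega

lemma am_pos (hA : 0 < A) (l : Fin NN) : 0 < am A l := mul_pos hA (pow_pos rho_pos _)
lemma am_le (hA : 0 < A) (l : Fin NN) : am A l ≤ A :=
  mul_le_of_le_one_right hA.le (pow_le_one₀ rho_pos.le rho_lt.le)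

lemma sum_am : ∑ l, am A l = 100 * A * (1 - rho ^ NN) := by
  unfold am
  rw [Fin.sum_univ_eq_sum_range (fun l => A * rho ^ l), ← Finset.mul_sum,
    geom_sum_eq rho_lt.ne]
  have : rho - 1 = -1 / 100 := by norm_num [rho]
  rw [this]; ring

lemma cont_Rs (hA : 0 < A) : Continuous fun q : ℂ × K LL => Rs c p A q.1 q.2 :=
  ((cont_Uc c p).add (continuous_finsetSum _ fun l _ => continuous_const.mul
    (((cont_ev _).mul (cont_ev _)).comp continuous_snd))).add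
    ((cont_tail hA NN).comp continuous_snd)

lemma norm_Rs (hA : 0 < A) {z : ℂ} {χ : K LL} (h : ‖Uc c p z χ‖ ≤ 7 * A) :
    ‖Rs c p A z χ‖ + 4 * A < 2 * ∑ l, am A l := by
  have h1 : ‖∑ l : Fin NN, am A l * (ev χ (bb (4 * l + 1)) * ev χ (bb (4 * l + 4)))‖ ≤
      ∑ l, am A l := (norm_sum_le _ _).trans (Finset.sum_le_sum fun l _ => by
    simp [abs_of_pos (am_pos hA l)])
  have h2 := tsum_of_norm_bounded (geo (5 * A) NN) fun l => term_le hA χ (l + NN) (l + NN)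
  have h3 := norm_add₃_le (a := Uc c p z χ)
    (b := ∑ l : Fin NN, am A l * (ev χ (bb (4 * l + 1)) * ev χ (bb (4 * l + 4))))
    (c := ∑' l, ((A * rho ^ (l + NN) : ℝ) : ℂ) * Bk χ (l + NN))
  rw [sum_am] at *
  have := rho_NN
  unfold Rs
  nlinarith

lemma Fh_split (hA : 0 < A) (z : ℂ) (φ : LL →+ ℝ) : Fh c p A z (ex φ) =
    V (am A) (un (ex φ)) (fun j => Real.cos (φ (bb (ix j)))) + Rs c p A z (ex φ) := by
  have e : ∀ x, ev (ex φ) x + ev (ex φ) (-x) = 2 * (Real.cos (φ x) : ℂ) := fun x => by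
    rw [ev_ex, ev_ex, map_neg, Complex.ofReal_cos, Complex.two_cos]; push_cast; ring_nf
  rw [Fh, Tl, ← (sum_Tl hA _).sum_add_tsum_nat_add NN, Rs, V,
    ← Fin.sum_univ_eq_sum_range (fun l => ((A * rho ^ l : ℝ) : ℂ) * Bk (ex φ) l)]
  have : ∀ l : Fin NN, ((A * rho ^ (l : ℕ) : ℝ) : ℂ) * Bk (ex φ) l =
      am A l * un (ex φ) l * (2 * (Real.cos (φ (bb (ix (l, true)))) : ℂ) +
        2 * I * (Real.cos (φ (bb (ix (l, false)))) : ℂ)) +
      am A l * (ev (ex φ) (bb (4 * l + 1)) * ev (ex φ) (bb (4 * l + 4))) := fun l => by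
    rw [Bk, e, e]; simp only [am, un, ix, if_true, Bool.false_eq_true, if_false]; ring
  simp only [this, Finset.sum_add_distrib]
  ring

lemma Rs_congr (z : ℂ) {φ φ' : LL →+ ℝ} (h : ∀ i, i ∉ Set.range ix → φ (bb i) = φ' (bb i)) :
    Rs c p A z (ex φ) = Rs c p A z (ex φ') ∧ un (ex φ) = un (ex φ') := by
  have h1 : ∀ i, (i % 4 = 0 ∨ i % 4 = 1 ∨ 4 * NN ≤ i) → φ (bb i) = φ' (bb i) := by
    intro i hi
    refine h i ?_
    rintro ⟨⟨l, b⟩, rfl⟩
    have := l.2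
    cases b <;> simp [ix] at hi <;> omega
  refine ⟨?_, funext fun l => by rw [un, un, ev_ex, ev_ex, h1 _ (by omega)]⟩
  unfold Rs
  rw [Uc_ex, Uc_ex, h1 0 (by omega)]
  congr 1
  · congr 1
    refine Finset.sum_congr rfl fun l _ => ?_
    simp only [ev_ex]; rw [h1 _ (by omega), h1 (4 * l + 4) (by omega)]
  · refine tsum_congr fun l => ?_
    simp only [Bk, ev_ex, map_neg]
    rw [h1 _ (by omega), h1 (4 * (l + NN) + 2) (by omega), h1 (4 * (l + NN) + 3) (by omega),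
      h1 (4 * (l + NN) + 4) (by omega)]

/-! the special atom -/
def sp (A : ℝ) (χ : K LL) : ℂ := A * (ev χ (bb 1) * ev χ (bb 4))

lemma norm_sp (hA : 0 < A) (χ : K LL) : ‖sp A χ‖ = A := by simp [sp, abs_of_pos hA]

lemma ev_shift (χ : K LL) (t : ℝ) {i j : ℕ} (h : j ≠ i) (q : ℚ) :
    ev (χ * ex (t • co i)) (Finsupp.single j q) = ev χ (Finsupp.single j q) := by
  rw [ev_mul, ev_ex]; simp [co_single, h]

lemma ev_shift' (χ : K LL) (t : ℝ) {i j : ℕ} (h : j ≠ i) :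
    ev (χ * ex (t • co i)) (bb j) = ev χ (bb j) ∧ ev (χ * ex (t • co i)) (-bb j) = ev χ (-bb j) := by
  have := ev_shift χ t h 1
  exact ⟨this, by rw [ev_neg, ev_neg]; exact congrArg _ this⟩

lemma Tl_shift (hA : 0 < A) (χ : K LL) (t : ℝ) :
    Tl A (χ * ex (t • co 4)) = Tl A χ - sp A χ + sp A χ * cexp (t * I) := by
  rw [Tl, Tl, (sum_Tl hA _).tsum_eq_zero_add, (sum_Tl hA χ).tsum_eq_zero_add]
  have e1 : ∀ l, Bk (χ * ex (t • co 4)) (l + 1) = Bk χ (l + 1) := fun l => by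
    unfold Bk
    rw [(ev_shift' χ t (by omega)).1, (ev_shift' χ t (by omega)).1, (ev_shift' χ t (by omega)).2,
      (ev_shift' χ t (by omega)).1, (ev_shift' χ t (by omega)).2, (ev_shift' χ t (by omega)).1]
  have e2 : ev (χ * ex (t • co 4)) (bb 4) = ev χ (bb 4) * cexp (t * I) := by
    rw [ev_mul, ev_ex]; simp [bb, co_single]
  simp only [e1]
  unfold Bk sp
  rw [(ev_shift' χ t (by omega)).1, (ev_shift' χ t (by omega)).1, (ev_shift' χ t (by omega)).2,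
    (ev_shift' χ t (by omega)).1, (ev_shift' χ t (by omega)).2]
  simp only [mul_zero, zero_add, e2, pow_zero, mul_one]
  ring

def Rm (A : ℝ) (z : ℂ) (χ : K LL) : ℂ := Fh c p A z χ - sp A χ

lemma cont_Rm (hA : 0 < A) : Continuous fun q : ℂ × K LL => Rm c p A q.1 q.2 :=
  (cont_Fh c p hA).sub (Continuous.comp (g := sp A) (by unfold sp; fun_prop) continuous_snd)

lemma Fh_shift (hA : 0 < A) (z : ℂ) (χ : K LL) (t : ℝ) :
    Fh c p A z (χ * ex (t • co 4)) = Rm c p A z χ + sp A χ * cexp (t * I) := by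
  have : Uc c p z (χ * ex (t • co 4)) = Uc c p z χ :=
    Finset.sum_congr rfl fun j _ => by rw [ev_shift χ t (by omega)]
  rw [Rm, Fh, Fh, Tl_shift hA, this]; ring

lemma Rm_vert (x t : ℝ) (χ : K LL) :
    Rm c p A (x + t * I) χ = Rm c p A x (χ * ex ((-t) • co 0)) := by
  have e1 : ∀ l, Bk (χ * ex ((-t) • co 0)) l = Bk χ l := fun l => by
    unfold Bk
    rw [(ev_shift' χ _ (by omega)).1, (ev_shift' χ _ (by omega)).1, (ev_shift' χ _ (by omega)).2,
      (ev_shift' χ _ (by omega)).1, (ev_shift' χ _ (by omega)).2, (ev_shift' χ _ (by omega)).1]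
  have e2 : Uc c p x (χ * ex ((-t) • co 0)) = Uc c p (x + t * I) χ := by
    refine Finset.sum_congr rfl fun j _ => ?_
    rw [ev_mul, ev_ex]
    have : cexp (-(p j : ℂ) * (x + t * I)) = cexp (-(p j : ℂ) * x) *
        cexp ((((-t) • co 0) (Finsupp.single 0 (p j)) : ℝ) * I) := by
      rw [← Complex.exp_add]; congr 1; simp [co_single]; ring
    rw [this]; ring
  simp only [Rm, Fh, Tl, sp, e1, e2]
  rw [(ev_shift' χ _ (by omega)).1, (ev_shift' χ _ (by omega)).1]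

/-! modification of the connector coordinates -/
section md
variable {Γ : Type*} [AddCommGroup Γ] (ι : LL →+ Γ) (π : Γ →+ LL)

def md (φ : Γ →+ ℝ) (β : Fin NN × Bool → ℝ) : Γ →+ ℝ :=
  φ + ∑ j, (β j - φ (ι (bb (ix j)))) • (co (ix j)).comp π

lemma md_apply (φ : Γ →+ ℝ) (β : Fin NN × Bool → ℝ) (x : Γ) :
    md ι π φ β x = φ x + ∑ j, (β j - φ (ι (bb (ix j)))) * co (ix j) (π x) := by
  simp [md, AddMonoidHom.finsetSum_apply]

variable {ι π}

lemma md_in (h : ∀ x, π (ι x) = x) (φ : Γ →+ ℝ) (β : Fin NN × Bool → ℝ) (j : Fin NN × Bool) :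
    md ι π φ β (ι (bb (ix j))) = β j := by
  rw [md_apply, h, Finset.sum_eq_single j]
  · simp [bb, co_single]
  · intro i _ hi
    simp [bb, co_single, ix_inj.ne hi.symm]
  · simp

lemma md_out (h : ∀ x, π (ι x) = x) (φ : Γ →+ ℝ) (β : Fin NN × Bool → ℝ) (i : ℕ)
    (hi : i ∉ Set.range ix) : md ι π φ β (ι (bb i)) = φ (ι (bb i)) := by
  rw [md_apply, h, Finset.sum_eq_zero, add_zero]
  intro j _
  have : i ≠ ix j := fun e => hi ⟨j, e.symm⟩
  simp [bb, co_single, this]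

lemma md_self (φ : Γ →+ ℝ) : md ι π φ (fun j => φ (ι (bb (ix j)))) = φ := by simp [md]

lemma res_ex (φ : Γ →+ ℝ) : res ι (ex φ) = ex (φ.comp ι) :=
  K_ext fun x => by rw [ev_res, ev_ex, ev_ex]; rfl

lemma zero_notin : 0 ∉ Set.range ix := by
  rintro ⟨⟨l, b⟩, h⟩
  cases b <;> simp [ix] at h

lemma Fh_md (hA : 0 < A) (h : ∀ x, π (ι x) = x) (z : ℂ) (φ : Γ →+ ℝ) (β : Fin NN × Bool → ℝ) :
    Fh c p A z (ex ((md ι π φ β).comp ι)) =
      V (am A) (un (ex (φ.comp ι))) (fun j => Real.cos (β j)) + Rs c p A z (ex (φ.comp ι)) := by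
  obtain ⟨h1, h2⟩ := Rs_congr c p (A := A) z (φ := (md ι π φ β).comp ι) (φ' := φ.comp ι)
    fun i hi => md_out h φ β i hi
  rw [Fh_split c p hA, h1, h2]
  simp only [AddMonoidHom.comp_apply, md_in h]

end md

end

end Pool.Agent.H58.Fq
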