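import Pool.Agent.H58.FqE

set_option autoImplicit false
set_option maxHeartbeats 400000

namespace Pool.Agent.H58.Fq

open MeasureTheory Filter Topology Complex Metric

noncomputable section

variable {J : Type} [Fintype J] {c : J → ℂ} {p : J → ℚ} {A s : ℝ}
variable {Γ : Type*} [AddCommGroup Γ] {ι : LL →+ Γ} {π : Γ →+ LL}

structure Nice (G : ℂ → K Γ → ℂ) : Prop where
  cont : ContinuousOn (fun q : ℂ × K Γ => G q.1 q.2) {q | 0 < q.1.re}
  diff : ∀ χ, DifferentiableOn ℂ (fun z => G z χ) {z | 0 < z.re}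

def Good (c : J → ℂ) (p : J → ℚ) (A s : ℝ) (ι : LL →+ Γ) (z : ℂ) (φ : Γ →+ ℝ) : Prop :=
  s < z.re ∧ deriv (U0 c p) (z - φ (ι (bb 0)) * I) ≠ 0 ∧ Fh c p A z (ex (φ.comp ι)) = 0

lemma open_re (s : ℝ) : IsOpen {z : ℂ | s < z.re} := isOpen_lt continuous_const continuous_re

lemma deriv_Fh {χ : K LL} {θ : ℝ} (h : ∀ z, Uc c p z χ = U0 c p (z - θ * I)) (z : ℂ) :
    HasDerivAt (fun w => Fh c p A w χ) (deriv (U0 c p) (z - θ * I)) z := by
  simp only [Fh, h]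
  exact ((diff_U0 c p _).hasDerivAt.comp_sub_const z (θ * I)).add_const _

lemma not_both (hs : 0 < s) {G H : ℂ → K Γ → ℂ} (hG : Nice G) (hH : Nice H)
    (hGH : ∀ z : ℂ, 0 < z.re → ∀ χ, G z χ * H z χ = Fh c p A z (res ι χ))
    {z : ℂ} {φ : Γ →+ ℝ} (hg : Good c p A s ι z φ) (h1 : G z (ex φ) = 0) : H z (ex φ) ≠ 0 := by
  intro h2
  have hz : {z : ℂ | 0 < z.re} ∈ 𝓝 z := (open_re 0).mem_nhds (hs.trans hg.1)
  have d1 := ((hG.diff (ex φ)).differentiableAt hz).hasDerivAt.mul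
    ((hH.diff (ex φ)).differentiableAt hz).hasDerivAt
  rw [h1, h2, mul_zero, zero_mul, add_zero] at d1
  have d2 := deriv_Fh (c := c) (p := p) (A := A) (fun w => Uc_ex c p w (φ.comp ι)) z
  have d3 := d2.congr_of_eventuallyEq (f₁ := fun w => G w (ex φ) * H w (ex φ))
    (by filter_upwards [hz] with w hw; rw [hGH w hw, res_ex])
  exact hg.2.1 (d3.unique d1)

lemma cont_md {X : Type*} [TopologicalSpace X] {φ : X → Γ →+ ℝ} {β : X → Fin NN × Bool → ℝ}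
    (h1 : ∀ x, Continuous fun t => φ t x) (h2 : Continuous β) :
    Continuous fun t => ex (md ι π (φ t) (β t)) :=
  cont_K fun x => by simp only [ev_ex, md_apply]; fun_prop

def sct (c : J → ℂ) (p : J → ℚ) (A : ℝ) (ι : LL →+ Γ) (π : Γ →+ LL) (z : ℂ) (φ : Γ →+ ℝ) :
    Γ →+ ℝ := md ι π φ fun j => br 0 (sec (∑ l, am A l) (un (ex (φ.comp ι)))
      (-Rs c p A z (ex (φ.comp ι))) j)

lemma sum_am_pos (hA : 0 < A) : 0 < ∑ l, am A l := by
  rw [sum_am]; have := rho_NN; nlinarith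

lemma good_md (hA : 0 < A) (hπ : ∀ x, π (ι x) = x) {z : ℂ} {φ : Γ →+ ℝ} (hz : s < z.re)
    (hd : deriv (U0 c p) (z - φ (ι (bb 0)) * I) ≠ 0) {β : Fin NN × Bool → ℝ}
    (hβ : V (am A) (un (ex (φ.comp ι))) (fun j => Real.cos (β j)) = -Rs c p A z (ex (φ.comp ι))) :
    Good c p A s ι z (md ι π φ β) :=
  ⟨hz, by rwa [md_out hπ φ β 0 zero_notin], by rw [Fh_md c p hA hπ, hβ, neg_add_cancel]⟩

lemma V_sct (hA : 0 < A) (χ : K LL) {τ : ℂ} (hτ : ‖τ‖ ≤ 2 * ∑ l, am A l) :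
    V (am A) (un χ) (fun j => Real.cos (br 0 (sec (∑ l, am A l) (un χ) τ j))) = τ := by
  have hu : ∀ l, ‖un χ l‖ = 1 := fun l => norm_ev _ _
  simp only [cos_br 0 (sec_mem hu (sum_am_pos hA) hτ _)]
  exact V_sec hu (sum_am_pos hA) τ

lemma gen (hs : 0 < s) {G H : ℂ → K Γ → ℂ} (hG : Nice G) (hH : Nice H)
    (hGH : ∀ z : ℂ, 0 < z.re → ∀ χ, G z χ * H z χ = Fh c p A z (res ι χ))
    {X : Type} [TopologicalSpace X] {Y : Set X} (hY : IsPreconnected Y)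
    (z : X → ℂ) (φ : X → Γ →+ ℝ) (hz : Continuous z) (hφ : Continuous (fun t => ex (φ t)))
    (hg : ∀ t ∈ Y, Good c p A s ι (z t) (φ t)) (x : X) (hx : x ∈ Y) (y : X) (hy : y ∈ Y) :
    G (z x) (ex (φ x)) = 0 ↔ G (z y) (ex (φ y)) = 0 := by
  have hm : Set.MapsTo (fun t => (z t, ex (φ t))) Y {q : ℂ × K Γ | 0 < q.1.re} :=
    fun t ht => hs.trans (hg t ht).1
  have hc : ContinuousOn (fun t => (z t, ex (φ t))) Y := (hz.prodMk hφ).continuousOn
  have c1 := hG.cont.comp hc hm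
  have c2 := hH.cont.comp hc hm
  exact type_const hY (g := fun t => G (z t) (ex (φ t))) (h := fun t => H (z t) (ex (φ t))) c1 c2
    (fun t ht => by rw [hGH _ (hm ht), res_ex]; exact (hg t ht).2.2)
    (fun t ht => not_both hs hG hH hGH (hg t ht)) hx hy

lemma T1 (hs : 0 < s) (hA : 0 < A) (hπ : ∀ x, π (ι x) = x)
    (hU : ∀ z : ℂ, s < z.re → ∀ χ, ‖Uc c p z χ‖ ≤ 7 * A)
    {G H : ℂ → K Γ → ℂ} (hG : Nice G) (hH : Nice H)
    (hGH : ∀ z : ℂ, 0 < z.re → ∀ χ, G z χ * H z χ = Fh c p A z (res ι χ))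
    {z : ℂ} {φ : Γ →+ ℝ} (g : Good c p A s ι z φ) :
    G z (ex φ) = 0 ↔ G z (ex (sct c p A ι π z φ)) = 0 := by
  have hb := norm_Rs c p hA (hU z g.1 (ex (φ.comp ι)))
  have := fibre (a := am A) (u := un (ex (φ.comp ι))) (τ := -Rs c p A z (ex (φ.comp ι)))
    (am_pos hA) (fun l => norm_ev _ _) (sum_am_pos hA) (by rw [norm_neg]; linarith)
    (fun l => by rw [norm_neg]; linarith [am_le hA l])
    (P := fun β => G z (ex (md ι π φ β)) = 0)
    (fun γ hγ hv => gen hs hG hH hGH isPreconnected_Icc (fun _ => z) (fun t => md ι π φ (γ t))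
      continuous_const (cont_md (φ := fun _ => φ) (fun _ => continuous_const) hγ)
      (fun t ht => good_md hA hπ g.1 g.2.1 (hv t ht)) 0 (by simp) 1 (by simp))
    (β := fun j => φ (ι (bb (ix j)))) (by
      have := g.2.2
      rw [Fh_split c p hA] at this
      exact eq_neg_of_add_eq_zero_left this)
  rwa [md_self] at this

lemma cont_sec {X T : Type*} [TopologicalSpace X] (S : ℝ) {u : X → T → ℂ} {τ : X → ℂ}
    (hu : ∀ l, Continuous fun x => u x l) (hτ : Continuous τ) (j : T × Bool) :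
    Continuous fun x => sec S (u x) (τ x) j := by
  have := hu j.1
  unfold sec; split_ifs <;> fun_prop

lemma cont_sct (hA : 0 < A) {X : Type*} [TopologicalSpace X] {z : X → ℂ} {φ : X → Γ →+ ℝ}
    (hz : Continuous z) (hφ : ∀ x, Continuous fun t => φ t x) :
    Continuous fun t => ex (sct c p A ι π (z t) (φ t)) := by
  have hχ : Continuous fun t => ex ((φ t).comp ι) := cont_K fun x => by
    have := hφ (ι x)
    simp only [ev_ex, AddMonoidHom.comp_apply]; fun_prop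
  have hR := (cont_Rs c p hA).comp (hz.prodMk hχ)
  unfold sct
  refine cont_md hφ (continuous_pi fun j => (cont_br 0).comp ?_)
  exact cont_sec _ (fun l => (cont_ev _).comp hχ) hR.neg j

lemma same_type (hs : 0 < s) (hA : 0 < A) (hπ : ∀ x, π (ι x) = x)
    (hU : ∀ z : ℂ, s < z.re → ∀ χ, ‖Uc c p z χ‖ ≤ 7 * A)
    (hC : {ζ | deriv (U0 c p) ζ = 0}.Countable)
    {G H : ℂ → K Γ → ℂ} (hG : Nice G) (hH : Nice H)
    (hGH : ∀ z : ℂ, 0 < z.re → ∀ χ, G z χ * H z χ = Fh c p A z (res ι χ))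
    {z₁ z₂ : ℂ} {φ₁ φ₂ : Γ →+ ℝ} (g₁ : Good c p A s ι z₁ φ₁) (g₂ : Good c p A s ι z₂ φ₂) :
    G z₁ (ex φ₁) = 0 ↔ G z₂ (ex φ₂) = 0 := by
  rw [T1 hs hA hπ hU hG hH hGH g₁, T1 hs hA hπ hU hG hH hGH g₂]
  obtain ⟨φ, hφ, e0, e1⟩ : ∃ φ : ℝ → Γ →+ ℝ, (∀ x, Continuous fun t => φ t x) ∧ φ 0 = φ₁ ∧
      φ 1 = φ₂ := ⟨fun t => φ₁ + t • (φ₂ - φ₁), fun x => by
    simp only [AddMonoidHom.add_apply, AddMonoidHom.smul_apply]; fun_prop, by simp, by simp⟩
  obtain ⟨z, hz, ez⟩ : ∃ z : ℂ × ℝ → ℂ, Continuous z ∧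
      ∀ q, z q = q.1 + φ q.2 (ι (bb 0)) * I :=
    ⟨_, by have := hφ (ι (bb 0)); fun_prop, fun _ => rfl⟩
  have key := gen hs hG hH hGH
    ((half_preconn s hC).prod (isPreconnected_Icc (a := (0 : ℝ)) (b := 1))) z
    (fun q => sct c p A ι π (z q) (φ q.2)) hz
    (cont_sct hA (φ := fun q : ℂ × ℝ => φ q.2) hz fun x => (hφ x).comp continuous_snd)
    (fun q hq => by
      have h1 : s < (z q).re := by simpa [ez] using hq.1.1
      have hb := norm_Rs c p hA (hU _ h1 (ex ((φ q.2).comp ι)))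
      exact good_md hA hπ h1 (by simpa [ez] using hq.1.2)
        (V_sct hA _ (by rw [norm_neg]; linarith)))
    (z₁ - φ₁ (ι (bb 0)) * I, 0) ⟨⟨by simpa using g₁.1, g₁.2.1⟩, by simp⟩
    (z₂ - φ₂ (ι (bb 0)) * I, 1) ⟨⟨by simpa using g₂.1, g₂.2.1⟩, by simp⟩
  simpa only [ez, e0, e1, sub_add_cancel] using key

lemma nozero [Module ℚ Γ] (hs : 0 < s) (hA : 0 < A) (hπ : ∀ x, π (ι x) = x)
    (hC : {ζ | deriv (U0 c p) ζ = 0}.Countable)
    {G H : ℂ → K Γ → ℂ} (hG : Nice G)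
    (hGH : ∀ z : ℂ, 0 < z.re → ∀ χ, G z χ * H z χ = Fh c p A z (res ι χ))
    (h : ∀ z φ, Good c p A s ι z φ → G z (ex φ) ≠ 0) (z₀ : ℂ) (hz₀ : s < z₀.re) (χ₀ : K Γ) :
    G z₀ χ₀ ≠ 0 := by
  intro h0
  have hz : {z : ℂ | s < z.re} ∈ 𝓝 z₀ := (open_re s).mem_nhds hz₀
  have hz' : {z : ℂ | 0 < z.re} ∈ 𝓝 z₀ := (open_re 0).mem_nhds (hs.trans hz₀)
  obtain ⟨θ, hθ⟩ := Uc_any c p (res ι χ₀)
  have hne : ∀ᶠ w in 𝓝[≠] z₀, G w χ₀ ≠ 0 := by
    refine ((hG.diff χ₀).analyticAt hz').eventually_eq_zero_or_eventually_ne_zero.resolve_left ?_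
    intro he
    have h1 : (fun w => Fh c p A w (res ι χ₀)) =ᶠ[𝓝 z₀] fun _ => 0 := by
      filter_upwards [he, hz'] with w hw hw'
      rw [← hGH w hw', hw, zero_mul]
    have h2 : ∀ᶠ w in 𝓝 z₀, deriv (U0 c p) (w - θ * I) = 0 := by
      filter_upwards [h1.deriv] with w hw
      rw [(deriv_Fh hθ w).deriv] at hw
      simpa using hw
    have h3 : {w | deriv (U0 c p) (w - θ * I) = 0}.Countable :=
      hC.preimage (f := fun w => w - θ * I) (sub_left_injective)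
    obtain ⟨w, hw1, hw2⟩ := (h3.dense_compl ℝ).inter_nhds_nonempty h2
    exact hw1 hw2
  rw [eventually_nhdsWithin_iff] at hne
  obtain ⟨r, hr, hb⟩ := nhds_basis_closedBall.eventually_iff.mp (hne.and hz)
  have hpos : ∀ w ∈ closedBall z₀ r, 0 < w.re := fun w hw => hs.trans (hb hw).2
  obtain ⟨w₀, hw₀, hmin⟩ := (isCompact_sphere z₀ r).exists_isMinOn
    (NormedSpace.sphere_nonempty.mpr hr.le) (f := fun w => ‖G w χ₀‖)
    ((hG.diff χ₀).continuousOn.mono fun w hw => hpos w (sphere_subset_closedBall hw)).norm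
  have hδ : 0 < ‖G w₀ χ₀‖ := norm_pos_iff.mpr ((hb (sphere_subset_closedBall hw₀)).1 (by
    intro e; rw [e] at hw₀; simp at hw₀; linarith))
  set δ := ‖G w₀ χ₀‖
  have hW : ∀ᶠ χ in 𝓝 χ₀, ∀ w ∈ closedBall z₀ r, ‖G w χ - G w χ₀‖ < δ / 2 := by
    refine (isCompact_closedBall z₀ r).eventually_forall_of_forall_eventually fun w hw => ?_
    have hn : {q : ℂ × K Γ | 0 < q.1.re} ∈ 𝓝 (w, χ₀) :=
      (isOpen_lt continuous_const (by fun_prop)).mem_nhds (hpos w hw)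
    have c1 : ContinuousAt (fun q : K Γ × ℂ => G q.2 q.1) (χ₀, w) :=
      ContinuousAt.comp (g := fun q : ℂ × K Γ => G q.1 q.2) (f := Prod.swap)
        (hG.cont.continuousAt hn) continuous_swap.continuousAt
    have c2 : ContinuousAt (fun q : K Γ × ℂ => G q.2 χ₀) (χ₀, w) :=
      ContinuousAt.comp (g := fun q : ℂ × K Γ => G q.1 q.2) (f := fun q : K Γ × ℂ => (q.2, χ₀))
        (hG.cont.continuousAt hn) (by fun_prop)
    exact (c1.sub c2).norm.eventually_lt continuousAt_const (by simpa using hδ)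
  obtain ⟨φ, hφ⟩ := dense_ex χ₀ hW
  let ψ : ℝ → Γ →+ ℝ := fun t => φ + t • (co 4).comp π
  have hψ : Continuous fun t => ex (ψ t) := cont_K fun x => by
    simp only [ψ, ev_ex, AddMonoidHom.add_apply, AddMonoidHom.smul_apply]; fun_prop
  have hψι : ∀ t, ex ((ψ t).comp ι) = ex (φ.comp ι) * ex (t • co 4) := fun t => by
    rw [← ex_add]; congr 1; exact AddMonoidHom.ext fun x => by simp [ψ, hπ]
  have hev : ∀ᶠ t in 𝓝 (0 : ℝ), ∀ w ∈ closedBall z₀ r, ‖G w (ex (ψ t)) - G w χ₀‖ < δ / 2 :=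
    (hψ.continuousAt (x := 0)).eventually (p := fun χ => ∀ w ∈ closedBall z₀ r,
      ‖G w χ - G w χ₀‖ < δ / 2) (by
        have : ψ 0 = φ := by simp [ψ]
        simp only [this]; exact hφ)
  set v := sp A (ex (φ.comp ι))
  have hv : v ≠ 0 := by rw [← norm_pos_iff, norm_sp hA]; exact hA
  have hbad : (circleMap 0 1 ⁻¹' ((fun ζ => -(U0 c p ζ + Tl A (ex (φ.comp ι)) - v) / v) ''
      {ζ | deriv (U0 c p) ζ = 0})).Countable := (hC.image _).preimage_circleMap 0 one_ne_zero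
  obtain ⟨t, ht2, ht1⟩ := (hbad.dense_compl ℝ).inter_nhds_nonempty hev
  obtain ⟨w, hw, hw0⟩ := hurwitz hr (f := fun w => G w (ex (ψ t))) (δ := δ / 2)
    ((hG.diff _).mono hpos) (by simpa [h0] using ht1 z₀ (mem_closedBall_self hr.le))
    (fun w hw => by
      have h1 := ht1 w (sphere_subset_closedBall hw)
      have h2 : δ ≤ ‖G w χ₀‖ := hmin hw
      have h3 := norm_sub_norm_le (G w χ₀) (G w (ex (ψ t)))
      rw [norm_sub_rev] at h3
      linarith)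
  have hF : Fh c p A w (ex ((ψ t).comp ι)) = 0 := by
    rw [← res_ex, ← hGH w (hpos w hw), hw0, zero_mul]
  refine h w (ψ t) ⟨(hb hw).2, fun hd => ht2 ⟨_, hd, ?_⟩, hF⟩ hw0
  rw [Fh, Uc_ex, hψι, Tl_shift hA] at hF
  simp only [circleMap, Complex.ofReal_one, one_mul, zero_add]
  rw [div_eq_iff hv]
  simp only [AddMonoidHom.comp_apply] at hF
  linear_combination -hF

theorem dich [Module ℚ Γ] (hs : 0 < s) (hA : 0 < A) (hπ : ∀ x, π (ι x) = x)
    (hU : ∀ z : ℂ, s < z.re → ∀ χ, ‖Uc c p z χ‖ ≤ 7 * A)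
    (hC : {ζ | deriv (U0 c p) ζ = 0}.Countable)
    {G H : ℂ → K Γ → ℂ} (hG : Nice G) (hH : Nice H)
    (hGH : ∀ z : ℂ, 0 < z.re → ∀ χ, G z χ * H z χ = Fh c p A z (res ι χ)) :
    (∀ z : ℂ, s < z.re → ∀ χ, G z χ ≠ 0) ∨ (∀ z : ℂ, s < z.re → ∀ χ, H z χ ≠ 0) := by
  by_cases h : ∃ z φ, Good c p A s ι z φ ∧ G z (ex φ) = 0
  · obtain ⟨z, φ, g, h0⟩ := h
    exact Or.inr (nozero hs hA hπ hC hH (H := G) (fun z hz χ => by rw [mul_comm, hGH z hz])
      fun z' φ' g' => not_both hs hG hH hGH g' ((same_type hs hA hπ hU hC hG hH hGH g g').mp h0))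
  · push Not at h
    exact Or.inl (nozero hs hA hπ hC hG hGH h)

end

end Pool.Agent.H58.Fq
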