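import Pool.Agent.H58.FqB
import Pool.Agent.H58.FqF

set_option autoImplicit false
set_option maxHeartbeats 400000

namespace Pool.Agent.H58.Fq

open MeasureTheory Filter Topology Complex Metric Real

noncomputable section

variable {J : Type} [Fintype J] {c : J → ℂ} {p : J → ℚ} {A s : ℝ}

def Sf (c : J → ℂ) (p : J → ℚ) (A : ℝ) (x : ℝ) : ℝ := ∫ χ, Lm A ‖Rm c p A x χ‖ ∂(mu LL)

lemma cFh (hA : 0 < A) {X : Type*} [TopologicalSpace X] {z : X → ℂ} {χ : X → K LL}
    (hz : Continuous z) (hχ : Continuous χ) : Continuous fun t => Fh c p A (z t) (χ t) := by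
  have := (cont_Fh c p hA).comp (hz.prodMk hχ)
  simpa only [Function.comp_def] using this

lemma cRm (hA : 0 < A) {X : Type*} [TopologicalSpace X] {z : X → ℂ} {χ : X → K LL}
    (hz : Continuous z) (hχ : Continuous χ) : Continuous fun t => Lm A ‖Rm c p A (z t) (χ t)‖ := by
  have := (cont_Lm A).comp ((cont_Rm c p hA).comp (hz.prodMk hχ)).norm
  simpa only [Function.comp_def] using this

lemma cont_exs {Γ : Type*} [AddCommGroup Γ] (ψ : Γ →+ ℝ) : Continuous fun t : ℝ => ex (t • ψ) :=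
  cont_K fun x => by simp only [ev_ex, AddMonoidHom.smul_apply]; fun_prop

lemma Sf_ge (hA : 0 < A) (x : ℝ) : Real.log A ≤ Sf c p A x := by
  have h1 : Continuous fun χ => Lm A ‖Rm c p A x χ‖ := cRm hA continuous_const continuous_id
  have := integral_mono (μ := mu LL) (integrable_const (Real.log A))
    (integ h1) fun χ => Lm_ge _ _
  simpa [Sf] using this

lemma SQ (hA : 0 < A) (x : ℝ) {η : ℝ} (hη : 0 < η) :
    Sf c p A x ≤ Q (Fh c p A x) η ∧ Q (Fh c p A x) η ≤ Sf c p A x + η / A := by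
  have h1 : Continuous fun χ => Lm A ‖Rm c p A x χ‖ := cRm hA continuous_const continuous_id
  obtain ⟨Ψ, hΨ⟩ : ∃ Ψ : ℝ → K LL → ℝ,
      Ψ = fun θ χ => lg η (‖Fh c p A x (χ * ex (θ • co 4))‖ ^ 2) := ⟨_, rfl⟩
  have hc : Continuous Ψ.uncurry := by
    have : Continuous fun q : ℝ × K LL => q.2 * ex (q.1 • co 4) :=
      continuous_snd.mul ((cont_exs _).comp continuous_fst)
    rw [hΨ]
    exact (cont_lg hη).comp ((cFh hA continuous_const this).norm.pow 2)
  have e1 : ∀ θ, ∫ χ, Ψ θ χ ∂(mu LL) = Q (Fh c p A x) η := fun θ => by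
    rw [hΨ]; exact integral_shift (fun χ => lg η (‖Fh c p A x χ‖ ^ 2)) _
  have e2 : ∀ χ, ∫ θ in (0 : ℝ)..2 * π, Ψ θ χ = 2 * π * circleAverage
      (fun w => Real.log (|‖Rm c p A x χ + sp A χ * w‖ ^ 2| + η ^ 2) / 2) 0 1 := fun χ => by
    rw [circleAverage_def, smul_eq_mul, ← mul_assoc, mul_inv_cancel₀ (by positivity), one_mul, hΨ]
    simp only [Fh_shift c p hA, lg, circleMap, Complex.ofReal_one, one_mul, zero_add]
  have e3 := fub hc 0 (2 * π)
  simp only [e1, intervalIntegral.integral_const, smul_eq_mul, sub_zero] at e3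
  have i1 := integ (cont_avg hc 0 (2 * π))
  have i2 := integ h1
  have hp : 0 < 2 * π := by positivity
  constructor
  · have := integral_mono (i2.const_mul (2 * π)) i1 fun χ => by
      dsimp only; rw [e2]
      exact mul_le_mul_of_nonneg_left (special hA (norm_sp hA χ) hη).1 hp.le
    rw [integral_const_mul, e3] at this
    exact le_of_mul_le_mul_left this hp
  · have := integral_mono i1 ((i2.add (integrable_const (η / A))).const_mul (2 * π)) fun χ => by
      dsimp only; rw [e2]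
      exact mul_le_mul_of_nonneg_left (special hA (norm_sp hA χ) hη).2 hp.le
    rw [integral_const_mul, e3, integral_add' i2 (integrable_const _)] at this
    have := le_of_mul_le_mul_left this hp
    simpa [Sf] using this

lemma circle_eq (x r θ : ℝ) :
    circleMap x r θ = ((x + r * Real.cos θ : ℝ) : ℂ) + ((r * Real.sin θ : ℝ) : ℂ) * I := by
  rw [circleMap, Complex.exp_mul_I]; push_cast; ring

lemma kappa (hA : 0 < A) (hU : ∀ z : ℂ, s < z.re → ∀ χ, ‖Uc c p z χ‖ ≤ 7 * A)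
    (hC : {ζ | deriv (U0 c p) ζ = 0}.Countable) {t₀ : ℝ} (ht : s ≤ t₀) :
    ∃ x r : ℝ, 0 < r ∧ t₀ < x - r ∧ Sf c p A (x - r) + Sf c p A (x + r) - 2 * Sf c p A x ≠ 0 := by
  by_contra hne
  push Not at hne
  obtain ⟨ζ, hζ1, hζ2⟩ := (hC.dense_compl ℝ).inter_open_nonempty _ (open_re t₀)
    ⟨(t₀ + 1 : ℝ), by simp⟩
  set x := ζ.re with hx
  have hx0 : t₀ < x := hζ1
  set r := (x - t₀) / 2 with hr
  have hr0 : 0 < r := by rw [hr]; linarith
  set φ : LL →+ ℝ := (-ζ.im) • co 0 with hφ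
  have hφ0 : φ (bb 0) = -ζ.im := by simp [hφ, bb, co_single]
  have hb := norm_Rs c p hA (hU x (by simpa using ht.trans_lt hx0) (ex φ))
  set τ : ℂ := A + sp A (ex φ) - Rs c p A x (ex φ) with hτ
  have hτb : ‖τ‖ ≤ 2 * ∑ l, am A l := by
    have h1 := norm_sub_le (A + sp A (ex φ)) (Rs c p A x (ex φ))
    have h2 := norm_add_le (A : ℂ) (sp A (ex φ))
    rw [norm_sp hA, Complex.norm_real, Real.norm_eq_abs, abs_of_pos hA] at h2
    linarith
  set φ' := md (AddMonoidHom.id LL) (AddMonoidHom.id LL) φ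
    fun j => br 0 (sec (∑ l, am A l) (un (ex φ)) τ j) with hφ'
  have hout : ∀ i, i ∉ Set.range ix → φ' (bb i) = φ (bb i) := fun i hi =>
    md_out (ι := AddMonoidHom.id LL) (fun _ => rfl) φ _ i hi
  have hF : Fh c p A x (ex φ') = A + sp A (ex φ) := by
    have := Fh_md c p hA (ι := AddMonoidHom.id LL)
      (show ∀ y, AddMonoidHom.id LL (AddMonoidHom.id LL y) = y from fun _ => rfl) x φ
      fun j => br 0 (sec (∑ l, am A l) (un (ex φ)) τ j)
    simp only [AddMonoidHom.comp_id] at this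
    rw [hφ', this, V_sct hA _ hτb, hτ]; ring
  have hsp : sp A (ex φ') = sp A (ex φ) := by
    simp only [sp, ev_ex]
    rw [hout 1, hout 4] <;> (rintro ⟨⟨l, b⟩, h⟩; cases b <;> simp [ix] at h <;> omega)
  have hR0 : ‖Rm c p A x (ex φ')‖ = A := by
    rw [Rm, hF, hsp, add_sub_cancel_right, Complex.norm_real, Real.norm_eq_abs, abs_of_pos hA]
  have hder : ∀ χ, ∃ θ : ℝ, (∀ z, Uc c p z χ = U0 c p (z - θ * I)) := Uc_any c p
  have han : ∀ χ, AnalyticOnNhd ℂ (fun w => Rm c p A w χ) (closedBall x r) := fun χ w _ => by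
    obtain ⟨θ, hθ⟩ := hder χ
    exact Differentiable.analyticAt
      (fun w => ((deriv_Fh (A := A) hθ w).sub_const _).differentiableAt) w
  have hd0 : deriv (fun w => Rm c p A w (ex φ')) x ≠ 0 := by
    have := ((deriv_Fh (A := A) (fun w => Uc_ex c p w φ') x).sub_const (sp A (ex φ'))).deriv
    rw [show (fun w => Rm c p A w (ex φ')) = fun w => Fh c p A w (ex φ') - sp A (ex φ') from rfl,
      this, hout 0 zero_notin, hφ0]
    have : (x : ℂ) - ((-ζ.im : ℝ) : ℂ) * I = ζ := by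
      apply Complex.ext <;> simp [hx]
    rw [this]; exact hζ2
  obtain ⟨Ψ, hΨ⟩ : ∃ Ψ : ℝ → K LL → ℝ,
      Ψ = fun θ χ => Lm A ‖Rm c p A (circleMap x r θ) χ‖ := ⟨_, rfl⟩
  have hc : Continuous Ψ.uncurry := by
    rw [hΨ]
    exact cRm hA (z := fun q : ℝ × K LL => circleMap x r q.1)
      ((continuous_circleMap _ _).comp continuous_fst) continuous_snd
  have e1 : ∀ θ, ∫ χ, Ψ θ χ ∂(mu LL) = Sf c p A (x + r * Real.cos θ) := fun θ => by
    rw [hΨ]; simp only [circle_eq, Rm_vert]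
    exact integral_shift (fun χ => Lm A ‖Rm c p A ((x + r * Real.cos θ : ℝ) : ℂ) χ‖) _
  have e2 : ∀ χ, ∫ θ in (0 : ℝ)..2 * π, Ψ θ χ =
      2 * π * circleAverage (fun w => Lm A ‖Rm c p A w χ‖) x r := fun χ => by
    rw [circleAverage_def, smul_eq_mul, ← mul_assoc, mul_inv_cancel₀ (by positivity), one_mul, hΨ]
  have cS : Continuous (Sf c p A) := cont_int (Ψ := fun (y : ℝ) χ => Lm A ‖Rm c p A y χ‖)
    (cRm hA (z := fun q : ℝ × K LL => (q.1 : ℂ)) (by fun_prop) continuous_snd)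
  have e4 : ∫ θ in (0 : ℝ)..2 * π, Sf c p A (x + r * Real.cos θ) = 2 * π * Sf c p A x := by
    have s1 : ∫ θ in (0 : ℝ)..2 * π, Sf c p A (x + r * Real.cos θ) =
        ∫ θ in (0 : ℝ)..2 * π, Sf c p A (x - r * Real.cos θ) := by
      have := intervalIntegral.integral_comp_add_right (a := 0) (b := 2 * π)
        (fun θ => Sf c p A (x + r * Real.cos θ)) π
      simp only [Real.cos_add_pi, mul_neg, ← sub_eq_add_neg, zero_add] at this
      rw [this]
      have hper : Function.Periodic (fun θ => Sf c p A (x + r * Real.cos θ)) (2 * π) :=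
        fun θ => by simp
      have := hper.intervalIntegral_add_eq 0 π
      rw [zero_add, add_comm π] at this
      exact this
    have s2 : ∀ θ, Sf c p A (x + r * Real.cos θ) + Sf c p A (x - r * Real.cos θ) =
        2 * Sf c p A x := fun θ => by
      have := Real.neg_one_le_cos θ; have := Real.cos_le_one θ
      rcases lt_trichotomy (r * Real.cos θ) 0 with h | h | h
      · have := hne x (-(r * Real.cos θ)) (by linarith) (by nlinarith)
        rw [sub_neg_eq_add, ← sub_eq_add_neg] at this; linarith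
      · rw [h]; simp; ring
      · have := hne x (r * Real.cos θ) h (by nlinarith); linarith
    have s3 := intervalIntegral.integral_add (μ := volume) (a := 0) (b := 2 * π)
      ((by fun_prop : Continuous fun θ => Sf c p A (x + r * Real.cos θ)).intervalIntegrable _ _)
      ((by fun_prop : Continuous fun θ => Sf c p A (x - r * Real.cos θ)).intervalIntegrable _ _)
    simp only [s2, intervalIntegral.integral_const, smul_eq_mul, sub_zero] at s3
    linarith
  have e3 := fub hc 0 (2 * π)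
  simp only [e1, e4] at e3
  have h1 : Continuous fun χ => Lm A ‖Rm c p A x χ‖ := cRm hA continuous_const continuous_id
  have hp : 0 < 2 * π := by positivity
  obtain ⟨u, hu⟩ : ∃ u : K LL → ℝ, u = fun χ => ∫ θ in (0 : ℝ)..2 * π, Ψ θ χ := ⟨_, rfl⟩
  obtain ⟨v, hv⟩ : ∃ v : K LL → ℝ, v = fun χ => Lm A ‖Rm c p A x χ‖ := ⟨_, rfl⟩
  have cu : Continuous u := hu ▸ cont_avg hc _ _
  have cv : Continuous v := hv ▸ h1
  have hD : Continuous fun χ => u χ - 2 * π * v χ := by fun_prop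
  have n1 : ∀ χ, 0 ≤ u χ - 2 * π * v χ := fun χ => by
    simp only [hu, hv]
    rw [e2, ← mul_sub]
    have := submean hr0 hA (han χ)
    exact mul_nonneg hp.le (sub_nonneg.mpr this)
  have n2 : u (ex φ') - 2 * π * v (ex φ') ≠ 0 := by
    simp only [hu, hv]
    rw [e2, ← mul_sub]
    have := strict_mean hr0 hA (han (ex φ')) hR0 hd0
    exact (mul_pos hp (sub_pos.mpr this)).ne'
  have hpos := integral_pos_of_integrable_nonneg_nonzero (μ := mu LL) hD (integ hD) n1 n2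
  rw [integral_sub (integ cu) ((integ cv).const_mul _), integral_const_mul] at hpos
  have e5 : ∫ χ, u χ ∂(mu LL) = 2 * π * Sf c p A x := hu ▸ e3
  have e6 : ∫ χ, v χ ∂(mu LL) = Sf c p A x := by rw [hv]; rfl
  rw [e5, e6] at hpos
  simp at hpos

variable {Γ : Type*} [AddCommGroup Γ] {ι : LL →+ Γ} {π' : Γ →+ LL}

lemma Nice.cont_at {G : ℂ → K Γ → ℂ} (hG : Nice G) {X : Type*} [TopologicalSpace X] {z : X → ℂ}
    {χ : X → K Γ} (hz : Continuous z) (hχ : Continuous χ) (h : ∀ t, 0 < (z t).re) :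
    Continuous fun t => G (z t) (χ t) :=
  hG.cont.comp_continuous (f := fun t => (z t, χ t)) (hz.prodMk hχ) h

lemma affine (hs : 0 < s) {G : ℂ → K Γ → ℂ} (hG : Nice G)
    (hv : ∀ x t : ℝ, ∃ ψ, ∀ χ, G (x + t * I) χ = G x (χ * ψ))
    (hz : ∀ z : ℂ, s < z.re → ∀ χ, G z χ ≠ 0) :
    ∃ α β : ℝ, ∀ x : ℝ, s < x → ∫ χ, Real.log ‖G x χ‖ ∂(mu Γ) = α + β * x := by
  refine affine_of_mvp ?_ fun x r hr hx => ?_
  · rw [continuousOn_iff_continuous_domRestrict]
    have := isOpen_Ioi.locallyCompactSpace (s := Set.Ioi s)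
    refine cont_int (Ψ := fun (y : Set.Ioi s) χ => Real.log ‖G (y : ℝ) χ‖) ?_
    exact (hG.cont_at (z := fun q : Set.Ioi s × K Γ => ((q.1 : ℝ) : ℂ)) (by fun_prop)
      continuous_snd fun q => by simpa using hs.trans q.1.2).norm.log
      fun q => norm_ne_zero_iff.mpr (hz _ (show s < (q.1 : ℝ) from q.1.2) _)
  · have hb : ∀ w ∈ closedBall (x : ℂ) |r|, s < w.re := fun w hw => by
      rw [abs_of_pos hr, mem_closedBall, dist_eq_norm] at hw
      have := (abs_le.mp ((Complex.abs_re_le_norm _).trans hw)).1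
      simp at this; linarith
    have hm : ∀ θ, s < (circleMap x r θ).re := fun θ => hb _ (by
      rw [abs_of_pos hr]; exact circleMap_mem_closedBall _ hr.le θ)
    obtain ⟨Ψ, hΨ⟩ : ∃ Ψ : ℝ → K Γ → ℝ,
      Ψ = fun θ χ => Real.log ‖G (circleMap x r θ) χ‖ := ⟨_, rfl⟩
    have hc : Continuous Ψ.uncurry := by
      rw [hΨ]
      exact (hG.cont_at (z := fun q : ℝ × K Γ => circleMap x r q.1)
        ((continuous_circleMap _ _).comp continuous_fst) continuous_snd
        fun q => hs.trans (hm _)).norm.log fun q => norm_ne_zero_iff.mpr (hz _ (hm _) _)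
    have e1 : ∀ θ, ∫ χ, Ψ θ χ ∂(mu Γ) =
        ∫ χ, Real.log ‖G ((x + r * Real.cos θ : ℝ) : ℂ) χ‖ ∂(mu Γ) := fun θ => by
      obtain ⟨ψ, hψ⟩ := hv (x + r * Real.cos θ) (r * Real.sin θ)
      rw [hΨ]; simp only [circle_eq, hψ]
      exact integral_shift (fun χ => Real.log ‖G ((x + r * Real.cos θ : ℝ) : ℂ) χ‖) _
    have e2 : ∀ χ, ∫ θ in (0 : ℝ)..2 * π, Ψ θ χ = 2 * π * Real.log ‖G x χ‖ := fun χ => by
      rw [← AnalyticOnNhd.circleAverage_log_norm_of_ne_zero (R := r) (g := fun w => G w χ)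
        (fun w hw => (hG.diff χ).analyticAt ((open_re 0).mem_nhds (hs.trans (hb w hw))))
        (fun w hw => hz w (hb w hw) χ), circleAverage_def, smul_eq_mul, ← mul_assoc,
        mul_inv_cancel₀ (by positivity), one_mul, hΨ]
    have e3 := fub hc 0 (2 * π)
    simp only [e1, e2, integral_const_mul] at e3
    exact e3.symm

lemma lg_eq (ε : ℝ) (w : ℂ) : lg ε (‖w‖ ^ 2) = Real.log (‖w‖ ^ 2 + ε ^ 2) / 2 := by
  rw [lg, abs_of_nonneg (by positivity)]

section lim
variable (hA : 0 < A) (hπ : ∀ x, π' (ι x) = x) {x M : ℝ} {G H : K Γ → ℂ} (hG : Continuous G)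
  (hH : Continuous H) (hGH : ∀ χ, G χ * H χ = Fh c p A x (res ι χ)) (hM : 0 < M)
include hA hπ hG hH hGH hM

omit hG hH hM in
lemma Q_res {η : ℝ} (hη : 0 < η) : Q (fun χ => G χ * H χ) η = Q (Fh c p A x) η := by
  simp only [Q, hGH]
  exact integral_res ι π' hπ (Φ := fun χ => lg η (‖Fh c p A x χ‖ ^ 2)) ((cont_lg hη).comp
    ((cFh hA continuous_const continuous_id).norm.pow 2))

omit hA hπ hH hGH hM in
lemma iQ {η : ℝ} (hη : 0 < η) : Integrable (fun χ => lg η (‖G χ‖ ^ 2)) (mu Γ) :=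
  integ ((cont_lg hη).comp (hG.norm.pow 2))

lemma lim_d (bH : ∀ χ, ‖H χ‖ ≤ M) {ε ε' : ℝ} (h' : 0 < ε') (h : ε' ≤ ε) :
    0 ≤ Q G ε - Q G ε' ∧ Q G ε - Q G ε' ≤ M * ε / A := by
  have hε := h'.trans_le h
  have hGH' : Continuous fun χ => G χ * H χ := hG.mul hH
  constructor
  · refine sub_nonneg.mpr (integral_mono (iQ hG h') (iQ hG hε) fun χ => ?_)
    simp only [lg_eq]
    gcongr
  · have h1 := (SQ (c := c) (p := p) hA x (mul_pos hM hε)).2
    have h2 := (SQ (c := c) (p := p) hA x (mul_pos hM h')).1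
    rw [← Q_res hA hπ hGH (mul_pos hM hε)] at h1
    rw [← Q_res hA hπ hGH (mul_pos hM h')] at h2
    have : Q G ε + Q (fun χ => G χ * H χ) (M * ε') ≤ Q (fun χ => G χ * H χ) (M * ε) + Q G ε' := by
      unfold Q
      rw [← integral_add (iQ hG hε) (iQ hGH' (mul_pos hM h')),
        ← integral_add (iQ hGH' (mul_pos hM hε)) (iQ hG h')]
      refine integral_mono ((iQ hG hε).add (iQ hGH' (mul_pos hM h')))
        ((iQ hGH' (mul_pos hM hε)).add (iQ hG h')) fun χ => ?_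
      simp only [lg_eq, ← add_div]
      rw [← Real.log_mul (by positivity) (by positivity),
        ← Real.log_mul (by positivity) (by positivity)]
      gcongr ?_ / 2
      refine Real.log_le_log (by positivity) ?_
      have a1 : ‖G χ * H χ‖ ^ 2 ≤ M ^ 2 * ‖G χ‖ ^ 2 := by
        rw [norm_mul, mul_pow, mul_comm]; have := bH χ; gcongr
      have a2 : 0 ≤ ε ^ 2 - ε' ^ 2 := by nlinarith
      nlinarith [mul_le_mul_of_nonneg_left a1 a2]
    linarith

lemma lim_a (bG : ∀ χ, ‖G χ‖ ≤ M) (bH : ∀ χ, ‖H χ‖ ≤ M) {ε : ℝ} (hε : 0 < ε) (h : ε ≤ M) :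
    Sf c p A x ≤ Q G ε + Q H ε ∧ Q G ε + Q H ε ≤ Sf c p A x + 2 * M * ε / A := by
  have hGH' : Continuous fun χ => G χ * H χ := hG.mul hH
  have h1 := (SQ (c := c) (p := p) hA x (η := 2 * M * ε) (by positivity)).2
  have h2 := (SQ (c := c) (p := p) hA x (η := ε ^ 2) (by positivity)).1
  rw [← Q_res hA hπ hGH (by positivity)] at h1 h2
  have e : Q G ε + Q H ε = ∫ χ, Real.log ((‖G χ‖ ^ 2 + ε ^ 2) * (‖H χ‖ ^ 2 + ε ^ 2)) / 2 ∂(mu Γ) := by
    unfold Q
    rw [← integral_add (iQ hG hε) (iQ hH hε)]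
    refine integral_congr_ae (Eventually.of_forall fun χ => ?_)
    simp only [lg_eq]
    rw [Real.log_mul (by positivity) (by positivity)]; ring
  have i : Integrable (fun χ => Real.log ((‖G χ‖ ^ 2 + ε ^ 2) * (‖H χ‖ ^ 2 + ε ^ 2)) / 2) (mu Γ) :=
    integ (Continuous.div_const (Continuous.log (by fun_prop) fun χ => by positivity) _)
  rw [e]
  refine ⟨h2.trans (integral_mono (iQ hGH' (by positivity)) i fun χ => ?_),
    le_trans (integral_mono i (iQ hGH' (by positivity)) fun χ => ?_) h1⟩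
  · simp only [lg_eq]
    simp only [norm_mul, mul_pow]
    gcongr ?_ / 2
    refine Real.log_le_log (by positivity) ?_
    nlinarith [mul_nonneg (sq_nonneg ε) (sq_nonneg ‖G χ‖), mul_nonneg (sq_nonneg ε) (sq_nonneg ‖H χ‖)]
  · simp only [lg_eq]
    simp only [norm_mul, mul_pow]
    gcongr ?_ / 2
    refine Real.log_le_log (by positivity) ?_
    have a1 : ‖G χ‖ ^ 2 ≤ M ^ 2 := by have := bG χ; gcongr
    have a2 : ‖H χ‖ ^ 2 ≤ M ^ 2 := by have := bH χ; gcongr
    have a3 : ε ^ 2 ≤ M ^ 2 := by gcongr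
    nlinarith [mul_le_mul_of_nonneg_left a1 (sq_nonneg ε), mul_le_mul_of_nonneg_left a2 (sq_nonneg ε),
      mul_le_mul_of_nonneg_left a3 (sq_nonneg ε), mul_nonneg (sq_nonneg ε) (sq_nonneg M)]

lemma lim_b (bH : ∀ χ, ‖H χ‖ ≤ M) (hz : ∀ χ, G χ ≠ 0) {ε : ℝ} (hε : 0 < ε) :
    |Q G ε - ∫ χ, Real.log ‖G χ‖ ∂(mu Γ)| ≤ M * ε / A := by
  obtain ⟨χ₀, -, hmin⟩ := isCompact_univ.exists_isMinOn (s := (Set.univ : Set (K Γ))) ⟨1, trivial⟩
    hG.norm.continuousOn
  have hδ : 0 < ‖G χ₀‖ := norm_pos_iff.mpr (hz _)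
  have i : Integrable (fun χ => Real.log ‖G χ‖) (mu Γ) :=
    integ (hG.norm.log fun χ => norm_ne_zero_iff.mpr (hz χ))
  have el : ∀ χ, Real.log ‖G χ‖ = Real.log (‖G χ‖ ^ 2) / 2 := fun χ => by
    rw [Real.log_pow]; push_cast; ring
  have lo : ∫ χ, Real.log ‖G χ‖ ∂(mu Γ) ≤ Q G ε := integral_mono i (iQ hG hε) fun χ => by
    have := norm_pos_iff.mpr (hz χ)
    simp only [lg_eq, el]; gcongr; nlinarith
  rw [abs_of_nonneg (sub_nonneg.mpr lo)]
  have key : ∀ᶠ ε' in 𝓝[>] (0 : ℝ), Q G ε - ∫ χ, Real.log ‖G χ‖ ∂(mu Γ) ≤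
      M * ε / A + ε' ^ 2 / ‖G χ₀‖ ^ 2 := by
    filter_upwards [Ioc_mem_nhdsGT hε] with ε' h'
    have h1 := (lim_d hA hπ hG hH hGH hM bH h'.1 h'.2).2
    have h2 : Q G ε' ≤ ∫ χ, (Real.log ‖G χ‖ + ε' ^ 2 / ‖G χ₀‖ ^ 2) ∂(mu Γ) :=
      integral_mono (iQ hG h'.1) (i.add (integrable_const _)) fun χ => by
        have g0 := norm_pos_iff.mpr (hz χ)
        have g1 : ‖G χ₀‖ ≤ ‖G χ‖ := hmin (Set.mem_univ χ)
        have g2 := Real.log_le_sub_one_of_pos
          (show 0 < (‖G χ‖ ^ 2 + ε' ^ 2) / ‖G χ‖ ^ 2 by positivity)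
        rw [Real.log_div (by positivity) (by positivity), add_div, div_self (by positivity)] at g2
        have g3 : ε' ^ 2 / ‖G χ‖ ^ 2 ≤ ε' ^ 2 / ‖G χ₀‖ ^ 2 := by gcongr
        have g4 : 0 ≤ ε' ^ 2 / ‖G χ₀‖ ^ 2 := by positivity
        simp only [lg_eq, el]; linarith
    rw [integral_add i (integrable_const _)] at h2
    simp at h2
    linarith
  have t : Tendsto (fun ε' : ℝ => M * ε / A + ε' ^ 2 / ‖G χ₀‖ ^ 2) (𝓝[>] 0)
      (𝓝 (M * ε / A + 0 ^ 2 / ‖G χ₀‖ ^ 2)) :=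
    tendsto_nhdsWithin_of_tendsto_nhds (Continuous.tendsto (by fun_prop) 0)
  simpa using ge_of_tendsto t key

end lim

end

end Pool.Agent.H58.Fq
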