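import Pool.Agent.H58.FqG

set_option autoImplicit false
set_option maxHeartbeats 400000

namespace Pool.Agent.H58.Fq

open MeasureTheory Filter Topology Complex

noncomputable section

section At
variable {Γ T : Type*}

open Classical in
def At (p : T → Γ) (w : T → ℂ) (x : Γ) : ℂ := ∑' i, if p i = x then w i else 0

open Classical in
lemma At_sum (p : T → Γ) {w : T → ℂ} (hw : Summable fun i => ‖w i‖) :
    Summable fun q : T × Γ => ‖if p q.1 = q.2 then w q.1 else 0‖ := by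
  have h : ∀ i, HasSum (fun x => ‖if p i = x then w i else 0‖) ‖w i‖ := fun i => by
    have := hasSum_single (f := fun x => ‖if p i = x then w i else 0‖) (p i)
      fun x hx => by simp [hx.symm]
    simpa using this
  rw [summable_prod_of_nonneg fun _ => norm_nonneg _]
  exact ⟨fun i => (h i).summable, by simpa only [(h _).tsum_eq] using hw⟩

lemma At_L1 (p : T → Γ) {w : T → ℂ} (hw : Summable fun i => ‖w i‖) : L1 (At p w) := by
  have h := (At_sum p hw).prod_symm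
  exact Summable.of_nonneg_of_le (fun _ => norm_nonneg _)
    (fun x => norm_tsum_le_tsum_norm (h.prod_factor x)) h.prod

lemma hat_At [AddCommGroup Γ] (p : T → Γ) {w : T → ℂ} (hw : Summable fun i => ‖w i‖) (χ : K Γ) :
    hat (At p w) χ = ∑' i, w i * ev χ (p i) := by
  classical
  have h : Summable (Function.uncurry fun (i : T) (x : Γ) =>
      (if p i = x then w i else 0) * ev χ x) :=
    Summable.of_norm ((At_sum p hw).congr fun q => by
      simp only [Function.uncurry, norm_mul, norm_ev, mul_one])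
  simp only [hat, At, ← tsum_mul_right]
  have := h.tsum_comm
  convert this.trans (tsum_congr fun i => ?_)
  rw [tsum_eq_single (p i) fun x hx => by simp [hx.symm]]; simp

end At

section Lap
variable {Γ : Type*} [AddCommGroup Γ]

def Lap (a : Γ → ℂ) (s : Γ →+ ℝ) (z : ℂ) (χ : K Γ) : ℂ :=
  ∑' ξ, a ξ * cexp (-(s ξ : ℂ) * z) * ev χ ξ

variable {a : Γ → ℂ} {s : Γ →+ ℝ}

lemma Lap_term (hs : ∀ ξ, a ξ ≠ 0 → 0 ≤ s ξ) {z : ℂ} (hz : 0 < z.re) (χ : K Γ) (ξ : Γ) :
    ‖a ξ * cexp (-(s ξ : ℂ) * z) * ev χ ξ‖ ≤ ‖a ξ‖ := by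
  by_cases h : a ξ = 0
  · simp [h]
  · rw [norm_mul, norm_mul, norm_ev, mul_one, Complex.norm_exp]
    refine mul_le_of_le_one_right (norm_nonneg _) (Real.exp_le_one_iff.mpr ?_)
    have := hs ξ h
    simp only [neg_mul, neg_re, re_ofReal_mul]
    nlinarith

lemma Lap_nice (ha : L1 a) (hs : ∀ ξ, a ξ ≠ 0 → 0 ≤ s ξ) : Nice (Lap a s) :=
  ⟨continuousOn_tsum (fun ξ => (Continuous.mul (by fun_prop)
      ((cont_ev ξ).comp continuous_snd)).continuousOn) ha fun ξ q hq => Lap_term hs hq q.2 ξ,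
    fun χ => Complex.differentiableOn_tsum_of_summable_norm ha
      (fun ξ => Differentiable.differentiableOn (by fun_prop)) (open_re 0)
      fun ξ z hz => Lap_term hs hz χ ξ⟩

lemma Lap_le (ha : L1 a) (hs : ∀ ξ, a ξ ≠ 0 → 0 ≤ s ξ) {z : ℂ} (hz : 0 < z.re) (χ : K Γ) :
    ‖Lap a s z χ‖ ≤ nrm a := tsum_of_norm_bounded ha.hasSum (Lap_term hs hz χ)

lemma Lap_vert (x t : ℝ) (χ : K Γ) :
    Lap a s (x + t * I) χ = Lap a s x (χ * ex ((-t) • s)) := by
  refine tsum_congr fun ξ => ?_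
  rw [ev_mul, ev_ex]
  have : cexp (-(s ξ : ℂ) * (x + t * I)) = cexp (-(s ξ : ℂ) * x) *
      cexp ((((-t) • s) ξ : ℝ) * I) := by
    rw [← Complex.exp_add]; congr 1; simp; ring
  rw [this]; ring

end Lap

lemma Fh_vert {J : Type} [Fintype J] (c : J → ℂ) (p : J → ℚ) (A x t : ℝ) (χ : K LL) :
    Fh c p A (x + t * I) χ = Fh c p A x (χ * ex ((-t) • co 0)) := by
  have h := Rm_vert c p (A := A) x t χ
  have : sp A (χ * ex ((-t) • co 0)) = sp A χ := by
    unfold sp; rw [(ev_shift' χ _ (by omega)).1, (ev_shift' χ _ (by omega)).1]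
  simp only [Rm, this] at h
  linear_combination h

/-! standard part -/
def Cv (x : ℕ → ℚ) (r : ℝ) : Prop := Tendsto (fun k => (x k : ℝ)) UF (𝓝 r)

lemma exists_std : ∃ s : GG →+ ℝ, ∀ x r, Cv x r → s (x : GG) = r := by
  let W : Submodule ℚ (ℕ → ℚ) :=
    { carrier := {x | ∃ r, Cv x r}
      add_mem' := by
        rintro x y ⟨r, hr⟩ ⟨r', hr'⟩
        exact ⟨r + r', by simpa [Cv] using Tendsto.add hr hr'⟩
      zero_mem' := ⟨0, by simp [Cv]⟩
      smul_mem' := by
        rintro q x ⟨r, hr⟩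
        exact ⟨q * r, by simpa [Cv] using Tendsto.const_mul (q : ℝ) hr⟩ }
  have hl : ∀ x : W, Cv x.1 x.2.choose := fun x => x.2.choose_spec
  let f : W →ₗ[ℚ] ℝ :=
    { toFun := fun x => x.2.choose
      map_add' := fun x y => tendsto_nhds_unique (hl (x + y))
        (by simpa [Cv] using Tendsto.add (hl x) (hl y))
      map_smul' := fun q x => tendsto_nhds_unique (hl (q • x))
        (by simpa [Cv, Rat.smul_def] using Tendsto.const_mul (q : ℝ) (hl x)) }
  obtain ⟨S, hS⟩ := LinearMap.exists_extend f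
  have h1 : ∀ x r, Cv x r → S x = r := fun x r h => by
    have := LinearMap.congr_fun hS ⟨x, r, h⟩
    exact this.trans (tendsto_nhds_unique (hl ⟨x, r, h⟩) h)
  have h2 : ∀ x y : ℕ → ℚ, x =ᶠ[UF] y → S x = S y := fun x y h => by
    rw [← sub_eq_zero, ← map_sub]
    exact h1 _ _ (tendsto_const_nhds.congr' (by filter_upwards [h] with k hk; simp [hk]))
  refine ⟨AddMonoidHom.mk' (fun ξ => S (rep ξ)) fun ξ ζ => ?_, fun x r h => ?_⟩
  · rw [← map_add]
    refine h2 _ _ (Germ.coe_eq.mp ?_)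
    rw [Germ.coe_add, rep_eq, rep_eq, rep_eq]
  · exact (h2 _ _ (rep_coe x)).trans (h1 x r h)

def wt (σ : ℝ) (a : ℚ → ℂ) (q : ℚ) : ℂ := a q * cexp (-(q : ℂ) * σ)

def Sup (a : ℚ → ℂ) : Prop := ∀ q, q ≤ 0 → a q = 0

lemma norm_wt (σ : ℝ) (a : ℚ → ℂ) (q : ℚ) : ‖wt σ a q‖ = ‖a q‖ * Real.exp (-(q * σ)) := by
  rw [wt, norm_mul, Complex.norm_exp]; simp

lemma wt_le {σ : ℝ} (hσ : 0 ≤ σ) {a : ℚ → ℂ} (ha : Sup a) (q : ℚ) : ‖wt σ a q‖ ≤ ‖a q‖ := by
  rw [norm_wt]
  rcases le_or_gt q 0 with h | h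
  · simp [ha q h]
  · refine mul_le_of_le_one_right (norm_nonneg _) (Real.exp_le_one_iff.mpr ?_)
    have : (0 : ℝ) < q := by exact_mod_cast h
    nlinarith

lemma L1.wt {σ : ℝ} (hσ : 0 ≤ σ) {a : ℚ → ℂ} (ha : Sup a) (h : L1 a) :
    L1 (wt σ a) ∧ nrm (wt σ a) ≤ nrm a :=
  have h1 : L1 (Fq.wt σ a) := Summable.of_nonneg_of_le (fun _ => norm_nonneg _) (wt_le hσ ha) h
  ⟨h1, h1.tsum_le_tsum (wt_le hσ ha) h⟩

lemma Bd.wt {σ C : ℝ} (hσ : 0 ≤ σ) {a : ℕ → ℚ → ℂ} (ha : ∀ k, Sup (a k)) (h : Bd a C) :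
    Bd (fun k => wt σ (a k)) C := fun k =>
  ⟨((h k).1.wt hσ (ha k)).1, ((h k).1.wt hσ (ha k)).2.trans (h k).2⟩

lemma wt_conv (σ : ℝ) (a b : ℚ → ℂ) : wt σ (conv a b) = conv (wt σ a) (wt σ b) := by
  funext q
  simp only [wt, conv, ← tsum_mul_right]
  refine tsum_congr fun r => ?_
  have : cexp (-(q : ℂ) * σ) = cexp (-(r : ℂ) * σ) * cexp (-((q - r : ℚ) : ℂ) * σ) := by
    rw [← Complex.exp_add]; congr 1; push_cast; ring
  rw [this]; ring

open Classical in
def Gc (a : ℕ → ℚ → ℂ) (ξ : GG) : ℂ := if ∃ r, Cv (rep ξ) r then D a ξ else 0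

section Gc
variable {a : ℕ → ℚ → ℂ} {C : ℝ} {s : GG →+ ℝ}

lemma Gc_le (ξ : GG) : ‖Gc a ξ‖ ≤ ‖D a ξ‖ := by unfold Gc; split_ifs <;> simp

lemma Gc_L1 (h : Bd a C) : L1 (Gc a) ∧ nrm (Gc a) ≤ C :=
  have h1 : L1 (Gc a) := Summable.of_nonneg_of_le (fun _ => norm_nonneg _) Gc_le (D_L1 h)
  ⟨h1, (h1.tsum_le_tsum Gc_le (D_L1 h)).trans (D_nrm h)⟩

lemma Gc_pos (hs : ∀ x r, Cv x r → s (x : GG) = r) (ha : ∀ k, Sup (a k)) (h : Bd a C) (ξ : GG)
    (hξ : Gc a ξ ≠ 0) : 0 ≤ s ξ := by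
  unfold Gc at hξ
  split_ifs at hξ with h1
  · obtain ⟨r, hr⟩ := h1
    have := hs _ _ hr
    rw [rep_eq] at this
    rw [this]
    refine ge_of_tendsto hr ?_
    filter_upwards [(D_rep h ξ).eventually_ne hξ] with k hk
    have : 0 < rep ξ k := not_le.mp fun h' => hk (ha k _ h')
    exact_mod_cast this.le
  · exact absurd rfl hξ

lemma D_wt (hs : ∀ x r, Cv x r → s (x : GG) = r) (ha : ∀ k, Sup (a k)) (h : Bd a C) {σ : ℝ}
    (hσ : 0 < σ) (ξ : GG) : D (fun k => wt σ (a k)) ξ = Gc a ξ * cexp (-(s ξ : ℂ) * σ) := by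
  refine tendsto_nhds_unique (D_rep (h.wt hσ.le ha) ξ) ?_
  unfold Gc
  split_ifs with h1
  · obtain ⟨r, hr⟩ := h1
    have := hs _ _ hr
    rw [rep_eq] at this
    rw [this]
    refine (D_rep h ξ).mul ?_
    have h2 : Continuous fun y : ℝ => cexp (-(y : ℂ) * σ) := by fun_prop
    simpa [Function.comp_def] using (h2.tendsto r).comp hr
  · rw [zero_mul]
    have h2 : Tendsto (fun k => |(rep ξ k : ℝ)|) UF atTop := by
      refine tendsto_atTop.mpr fun B => ?_
      by_contra hn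
      refine h1 (exists_lim (C := B) ?_)
      filter_upwards [Ultrafilter.eventually_not.mpr hn] with k hk
      exact (not_le.mp hk).le
    have h3 : Tendsto (fun k => C * Real.exp (-(|(rep ξ k : ℝ)| * σ))) UF (𝓝 (C * 0)) :=
      (Real.tendsto_exp_neg_atTop_nhds_zero.comp (h2.atTop_mul_const hσ)).const_mul C
    rw [mul_zero] at h3
    refine squeeze_zero_norm (fun k => ?_) h3
    rw [norm_wt]
    rcases le_or_gt (rep ξ k) 0 with h' | h'
    · rw [ha k _ h', norm_zero, zero_mul]; have := h.nonneg; positivity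
    · have : (0 : ℝ) < rep ξ k := by exact_mod_cast h'
      rw [abs_of_pos this]
      exact mul_le_mul_of_nonneg_right (((h k).1.le _).trans (h k).2) (Real.exp_pos _).le

lemma hat_D_wt (hs : ∀ x r, Cv x r → s (x : GG) = r) (ha : ∀ k, Sup (a k)) (h : Bd a C) {σ : ℝ}
    (hσ : 0 < σ) : hat (D fun k => wt σ (a k)) = Lap (Gc a) s σ := by
  funext χ
  exact tsum_congr fun ξ => by rw [D_wt hs ha h hσ]

end Gc

/-! the embedding of the model group -/
def io (B : ℕ → ℕ → ℚ) : LL →ₗ[ℚ] (ℕ → ℚ) := Finsupp.linearCombination ℚ fun j k => B k j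
def ig (B : ℕ → ℕ → ℚ) : LL →+ GG := (Germ.coeAddHom UF).comp (io B).toAddMonoidHom

lemma ig_apply (B : ℕ → ℕ → ℚ) (x : LL) : ig B x = (io B x : GG) := rfl

lemma io_single (B : ℕ → ℕ → ℚ) (j : ℕ) (q : ℚ) (k : ℕ) :
    io B (Finsupp.single j q) k = q * B k j := by simp [io]

section io
variable {B : ℕ → ℕ → ℚ} (h0 : ∀ k j, 0 < B k j) (h1 : ∀ k j, B k (j + 1) ≤ B k j / (k + 1))
include h0 h1

lemma B_le (k : ℕ) {i j : ℕ} (h : i < j) : B k j ≤ B k i / (k + 1) := by
  induction j, h using Nat.le_induction with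
  | base => exact h1 k i
  | succ j _ ih =>
    refine ((h1 k j).trans (div_le_self (h0 k j).le ?_)).trans ih
    have : (0 : ℚ) ≤ k := Nat.cast_nonneg k
    linarith

lemma ratio (x : LL) (i : ℕ) (hx : ∀ j < i, x j = 0) :
    Tendsto (fun k => (io B x k : ℝ) / B k i) UF (𝓝 (x i)) := by
  have e : ∀ k, (io B x k : ℝ) / B k i = ∑ j ∈ x.support, x j * ((B k j : ℝ) / B k i) := fun k => by
    simp only [io, Finsupp.linearCombination_apply, Finsupp.sum, Finset.sum_apply, Pi.smul_apply,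
      smul_eq_mul, Finset.sum_div, Rat.cast_sum, Rat.cast_mul, mul_div_assoc]
  have e2 : (x i : ℝ) = ∑ j ∈ x.support, x j * (if j = i then (1 : ℝ) else 0) := by
    simp only [mul_ite, mul_one, mul_zero, Finset.sum_ite_eq', Finsupp.mem_support_iff]
    split_ifs with h
    · rfl
    · simpa using h
  simp only [e]
  rw [e2]
  refine tendsto_finsetSum _ fun j hj => Tendsto.const_mul _ ?_
  split_ifs with h
  · subst h
    refine tendsto_const_nhds.congr fun k => (div_self ?_).symm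
    exact_mod_cast (h0 k j).ne'
  · have hij : i < j := lt_of_le_of_ne (not_lt.mp fun h' => Finsupp.mem_support_iff.mp hj (hx j h'))
      (Ne.symm h)
    refine Tendsto.mono_left ?_ Nat.hyperfilter_le_atTop
    refine squeeze_zero (fun k => ?_) (fun k => ?_) tendsto_one_div_add_atTop_nhds_zero_nat
    · have := h0 k j; have := h0 k i; positivity
    · have a1 : (0 : ℝ) < B k i := by exact_mod_cast h0 k i
      have a2 : (B k j : ℝ) ≤ B k i / (k + 1) := by exact_mod_cast B_le h0 h1 k hij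
      rw [div_le_iff₀ a1]
      exact a2.trans (le_of_eq (by ring))

lemma ig_left : ∃ π' : GG →+ LL, ∀ x, π' (ig B x) = x := by
  have hinj : LinearMap.ker (ig B).toRatLinearMap = ⊥ := by
    rw [LinearMap.ker_eq_bot']
    intro x hx
    by_contra hne
    have hex : ∃ i, x i ≠ 0 := by
      by_contra hh
      push Not at hh
      exact hne (Finsupp.ext hh)
    classical
    have t := ratio h0 h1 x (Nat.find hex) fun j hj => not_not.mp (Nat.find_min hex hj)
    have z : io B x =ᶠ[UF] 0 := Germ.coe_eq.mp hx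
    have t' : Tendsto (fun k => (io B x k : ℝ) / B k (Nat.find hex)) UF (𝓝 0) :=
      tendsto_const_nhds.congr' (by filter_upwards [z] with k hk; simp [hk])
    exact Nat.find_spec hex (by exact_mod_cast tendsto_nhds_unique t t')
  obtain ⟨g, hg⟩ := LinearMap.exists_leftInverse_of_injective _ hinj
  exact ⟨g.toAddMonoidHom, fun x => LinearMap.congr_fun hg x⟩

lemma io_cv (h2 : ∀ k, B k 0 = 1) (x : LL) : Cv (io B x) (co 0 x) := by
  have := ratio h0 h1 x 0 fun j hj => absurd hj (Nat.not_lt_zero j)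
  simp only [h2, Rat.cast_one, div_one] at this
  exact this

end io

end

end Pool.Agent.H58.Fq
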