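import Pool.Agent.H58.FqH

set_option autoImplicit false
set_option maxHeartbeats 400000

namespace Pool.Agent.H58.Fq

open MeasureTheory Filter Topology Complex

noncomputable section

def cv : Fin 5 → ℂ := ![1, 1, I, I, 1]
def cf (q : ℕ × Fin 5) : ℂ := ((rho ^ q.1 : ℝ) : ℂ) * cv q.2
def pos {Γ : Type*} [AddCommGroup Γ] (E : ℕ → Γ) (q : ℕ × Fin 5) : Γ := E (4 * q.1) +
  ![E (4 * q.1 + 1), -E (4 * q.1 + 1), E (4 * q.1 + 2), -E (4 * q.1 + 2), E (4 * q.1 + 3)] q.2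
def EE (P : ℕ → ℕ) (j : ℕ) : ℚ := ∏ i ∈ Finset.range (j + 1), (1 / ((P (i / 4) : ℚ) + 2))
def ff (P : ℕ → ℕ) : ℚ → ℂ := At (pos (EE P)) cf
def cc (m : ℕ) (j : Fin m × Fin 5) : ℂ := cf (j.1, j.2)
def pp (P : ℕ → ℕ) (m : ℕ) (j : Fin m × Fin 5) : ℚ := pos (EE P) (j.1, j.2)

lemma norm_cf (q : ℕ × Fin 5) : ‖cf q‖ = rho ^ q.1 := by
  have : ‖cv q.2‖ = 1 := by
    generalize q.2 = i
    fin_cases i <;> simp [cv]
  rw [cf, norm_mul, this, mul_one, Complex.norm_real, Real.norm_eq_abs,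
    abs_of_pos (pow_pos rho_pos _)]

lemma sum_cf : Summable fun q => ‖cf q‖ := by
  simp only [norm_cf]
  rw [summable_prod_of_nonneg fun q => (pow_pos rho_pos _).le]
  refine ⟨fun l => Summable.of_finite, ?_⟩
  simpa using (geo 5 0).summable

lemma EE_pos (P : ℕ → ℕ) (j : ℕ) : 0 < EE P j := Finset.prod_pos fun i _ => by positivity

lemma EE_succ (P : ℕ → ℕ) (j : ℕ) : EE P (j + 1) = EE P j / (P ((j + 1) / 4) + 2) := by
  rw [EE, Finset.prod_range_succ, EE, mul_one_div]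

lemma EE_lt (P : ℕ → ℕ) (j : ℕ) : EE P (j + 1) < EE P j := by
  rw [EE_succ]
  refine div_lt_self (EE_pos P j) ?_
  have : (0 : ℚ) ≤ P ((j + 1) / 4) := Nat.cast_nonneg _
  linarith

lemma EE_le (P : ℕ → ℕ) (j : ℕ) : EE P j ≤ 1 / (P (j / 4) + 2) := by
  rw [EE, Finset.prod_range_succ]
  refine mul_le_of_le_one_left (by positivity) (Finset.prod_le_one (fun i _ => by positivity)
    fun i _ => ?_)
  have : (0 : ℚ) ≤ P (i / 4) := Nat.cast_nonneg _
  rw [div_le_one (by positivity)]; linarith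

lemma EE_congr {P P' : ℕ → ℕ} {m : ℕ} (h : ∀ i < m, P' i = P i) {j : ℕ} (hj : j < 4 * m) :
    EE P' j = EE P j :=
  Finset.prod_congr rfl fun i hi => by rw [h _ (by have := Finset.mem_range.mp hi; omega)]

lemma pos_pos (P : ℕ → ℕ) (q : ℕ × Fin 5) : 0 < pos (EE P) q := by
  obtain ⟨l, i⟩ := q
  have h0 := EE_pos P (4 * l)
  have h1 := EE_pos P (4 * l + 1)
  have h2 := EE_pos P (4 * l + 2)
  have h3 := EE_pos P (4 * l + 3)
  have h4 := EE_lt P (4 * l)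
  have h5 : EE P (4 * l + 2) < EE P (4 * l + 1) := EE_lt P (4 * l + 1)
  fin_cases i <;> simp [pos] <;> linarith

lemma pos_congr {Γ : Type*} [AddCommGroup Γ] {E E' : ℕ → Γ} {l l' : ℕ}
    (h : ∀ j < 4, E (4 * l + j) = E' (4 * l' + j)) (i : Fin 5) : pos E (l, i) = pos E' (l', i) := by
  have h0 := h 0 (by omega)
  simp only [add_zero] at h0
  simp only [pos, h0, h 1 (by omega), h 2 (by omega), h 3 (by omega)]

lemma pos_map {Γ Λ : Type*} [AddCommGroup Γ] [AddCommGroup Λ] (φ : Γ →+ Λ) (E : ℕ → Γ)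
    (q : ℕ × Fin 5) : φ (pos E q) = pos (fun j => φ (E j)) q := by
  obtain ⟨l, i⟩ := q
  fin_cases i <;> simp [pos]

lemma pos_EE {P P' : ℕ → ℕ} {m : ℕ} (h : ∀ i < m, P' i = P i) {l : ℕ} (hl : l < m) (i : Fin 5) :
    pos (EE P') (l, i) = pos (EE P) (l, i) := pos_congr (fun j hj => EE_congr h (by omega)) i

lemma pp_congr {P P' : ℕ → ℕ} {m : ℕ} (h : ∀ i < m, P' i = P i) : pp P' m = pp P m :=
  funext fun j => pos_EE h j.1.2 j.2

lemma ff_L1 (P : ℕ → ℕ) : L1 (ff P) := At_L1 _ sum_cf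

lemma ff_sup (P : ℕ → ℕ) : Sup (ff P) := fun q hq => by
  have : ∀ i, pos (EE P) i ≠ q := fun i => (hq.trans_lt (pos_pos P i)).ne'
  simp [ff, At, this]

def PL (P : ℕ → ℕ) (m : ℕ) (q : ℕ × Fin 5) : LL :=
  if q.1 < m then Finsupp.single 0 (pos (EE P) q) else pos (fun j => bb (j + 1)) (q.1 - m, q.2)

def wL (P : ℕ → ℕ) (m : ℕ) (x : ℝ) (q : ℕ × Fin 5) : ℂ := cf q * cexp (-(co 0 (PL P m q) : ℂ) * x)

lemma co_PL (P : ℕ → ℕ) (m l : ℕ) (i : Fin 5) : co 0 (PL P m (l + m, i)) = 0 := by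
  rw [PL, if_neg (by simp), pos_map]
  fin_cases i <;> simp [pos, bb, co_single]

lemma wL_le (P : ℕ → ℕ) (m : ℕ) {x : ℝ} (hx : 0 ≤ x) (q : ℕ × Fin 5) : ‖wL P m x q‖ ≤ ‖cf q‖ := by
  have : 0 ≤ co 0 (PL P m q) := by
    obtain ⟨l, i⟩ := q
    rcases lt_or_ge l m with h | h
    · rw [PL, if_pos h, co_single, if_pos rfl]; exact_mod_cast (pos_pos P _).le
    · obtain ⟨l, rfl⟩ := Nat.exists_eq_add_of_le' h
      rw [co_PL]
  rw [wL, norm_mul, Complex.norm_exp]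
  refine mul_le_of_le_one_right (norm_nonneg _) (Real.exp_le_one_iff.mpr ?_)
  simp only [neg_mul, neg_re, re_ofReal_mul, ofReal_re]
  nlinarith

lemma sum_wL (P : ℕ → ℕ) (m : ℕ) {x : ℝ} (hx : 0 ≤ x) : Summable fun q => ‖wL P m x q‖ :=
  Summable.of_nonneg_of_le (fun _ => norm_nonneg _) (wL_le P m hx) sum_cf

lemma model (P : ℕ → ℕ) (m : ℕ) {x : ℝ} (hx : 0 ≤ x) (χ : K LL) :
    ∑' q, wL P m x q * ev χ (PL P m q) = Fh (cc m) (pp P m) (rho ^ m) x χ := by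
  have hs : Summable fun q => wL P m x q * ev χ (PL P m q) :=
    Summable.of_norm (by simpa [norm_mul] using sum_wL P m hx)
  rw [hs.tsum_prod, ← hs.prod.sum_add_tsum_nat_add m, Fh]
  congr 1
  · rw [Uc, Fintype.sum_prod_type, ← Fin.sum_univ_eq_sum_range
      (fun l => ∑' i, wL P m x (l, i) * ev χ (PL P m (l, i)))]
    refine Finset.sum_congr rfl fun l _ => ?_
    rw [tsum_fintype]
    refine Finset.sum_congr rfl fun i _ => ?_
    simp only [wL, PL, l.2, if_true, co_single, cc, pp, Complex.ofReal_ratCast]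
  · refine tsum_congr fun l => ?_
    rw [tsum_fintype]
    simp only [wL, co_PL]
    simp only [PL, not_lt.mpr (Nat.le_add_left m l), if_false, Nat.add_sub_cancel, pos, ev_add,
      Fin.sum_univ_five, cf, cv, Bk]
    simp [pow_add]
    ring

def BB (m : ℕ) (P' : ℕ → ℕ → ℕ) (k : ℕ) : ℕ → ℚ
  | 0 => 1
  | j + 1 => EE (P' k) (4 * m + j)

def qq (g : ℚ → ℂ) (ε x : ℝ) : ℝ := Q (hat (wt x g)) ε

section limit
variable {m : ℕ} {P : ℕ → ℕ} {P' : ℕ → ℕ → ℕ}

lemma BB_pos (k j : ℕ) : 0 < BB m P' k j := by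
  cases j
  · exact one_pos
  · exact EE_pos _ _

lemma BB_le (h2 : ∀ k i, m ≤ i → k ≤ P' k i) (k j : ℕ) :
    BB m P' k (j + 1) ≤ BB m P' k j / (k + 1) := by
  cases j with
  | zero =>
    refine (EE_le _ _).trans ?_
    have : (k : ℚ) ≤ P' k (4 * m / 4) := by exact_mod_cast h2 k _ (by omega)
    exact one_div_le_one_div_of_le (by positivity) (show (k : ℚ) + 1 ≤ P' k (4 * m / 4) + 2 by linarith)
  | succ j =>
    show EE (P' k) (4 * m + j + 1) ≤ EE (P' k) (4 * m + j) / _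
    have : (k : ℚ) ≤ P' k ((4 * m + j + 1) / 4) := by exact_mod_cast h2 k _ (by omega)
    rw [EE_succ]
    exact div_le_div_of_nonneg_left (EE_pos _ _).le (by positivity) (by linarith)

lemma io_PL (h1 : ∀ k, ∀ i < m, P' k i = P i) (q : ℕ × Fin 5) (k : ℕ) :
    io (BB m P') (PL P m q) k = pos (EE (P' k)) q := by
  obtain ⟨l, i⟩ := q
  rcases lt_or_ge l m with h | h
  · rw [PL, if_pos h, io_single, pos_EE (h1 k) h]; simp [BB]
  · rw [PL, if_neg (not_lt.mpr h)]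
    have := pos_map ((Pi.evalAddMonoidHom (fun _ : ℕ => ℚ) k).comp (io (BB m P')).toAddMonoidHom)
      (fun j => bb (j + 1)) (l - m, i)
    refine this.trans (pos_congr (fun j hj => ?_) i)
    show io (BB m P') (bb (4 * (l - m) + j + 1)) k = _
    rw [bb, io_single, one_mul, BB]
    congr 1; omega

lemma D_ff (h1 : ∀ k, ∀ i < m, P' k i = P i) (h2 : ∀ k i, m ≤ i → k ≤ P' k i) {x : ℝ} (hx : 0 ≤ x)
    {C : ℝ} (hb : Bd (fun k => wt x (ff (P' k))) C) :
    D (fun k => wt x (ff (P' k))) = At (fun q => ig (BB m P') (PL P m q)) (wL P m x) := by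
  funext ξ
  refine tendsto_nhds_unique (D_rep hb ξ) ?_
  simp only [wt, ff, At, ← tsum_mul_right]
  refine tendsto_tsum_of_dominated_convergence sum_cf (fun q => ?_)
    (Eventually.of_forall fun k q => ?_)
  · split_ifs with h
    · have e : rep ξ =ᶠ[UF] io (BB m P') (PL P m q) := h ▸ rep_coe _
      have t := io_cv BB_pos (BB_le h2) (fun _ => rfl) (PL P m q)
      have h2 : Continuous fun y : ℝ => cf q * cexp (-(y : ℂ) * x) := by fun_prop
      refine ((h2.tendsto _).comp t).congr' ?_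
      filter_upwards [e] with k hk
      simp [hk, io_PL h1]
    · refine tendsto_const_nhds.congr' ?_
      filter_upwards [ne_ev (x := io (BB m P') (PL P m q)) (y := rep ξ) (by rwa [rep_eq])] with k hk
      rw [io_PL h1] at hk
      simp [hk]
  · split_ifs with h
    · rw [← h, norm_mul, Complex.norm_exp]
      refine mul_le_of_le_one_right (norm_nonneg _) (Real.exp_le_one_iff.mpr ?_)
      have : (0 : ℝ) < pos (EE (P' k)) q := by exact_mod_cast pos_pos _ _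
      simp only [neg_mul, neg_re, re_mul_ofReal, ratCast_re]
      nlinarith
    · simp

structure Lim (g : ℕ → ℚ → ℂ) (M : ℝ) (G : ℂ → K GG → ℂ) : Prop where
  nice : Nice G
  vert : ∀ x t : ℝ, ∃ ψ, ∀ χ, G (x + t * I) χ = G x (χ * ψ)
  bd : ∀ x : ℝ, 0 < x → ∀ χ, ‖G x χ‖ ≤ M
  lim : ∀ x ε : ℝ, 0 < x → 0 < ε → Tendsto (fun k => qq (g k) ε x) UF (𝓝 (Q (G x) ε))

lemma Lap_lim {s : GG →+ ℝ} (hs : ∀ x r, Cv x r → s (x : GG) = r) {g : ℕ → ℚ → ℂ} {M : ℝ}
    (sg : ∀ k, Sup (g k)) (bg : Bd g M) : Lim g M (Lap (Gc g) s) :=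
  ⟨Lap_nice (Gc_L1 bg).1 (Gc_pos hs sg bg), fun x t => ⟨_, Lap_vert x t⟩,
    fun x hx χ => (Lap_le (Gc_L1 bg).1 (Gc_pos hs sg bg) (by simpa using hx) χ).trans (Gc_L1 bg).2,
    fun x ε hx hε => by
      rw [← hat_D_wt hs sg bg hx]; exact Q_tendsto (bg.wt hx.le sg) hε⟩

theorem limit (h1 : ∀ k, ∀ i < m, P' k i = P i) (h2 : ∀ k i, m ≤ i → k ≤ P' k i)
    {g h : ℕ → ℚ → ℂ} {M : ℝ} (sg : ∀ k, Sup (g k)) (sh : ∀ k, Sup (h k)) (bg : Bd g M)
    (bh : Bd h M) (hf : ∀ k, ff (P' k) = conv (g k) (h k)) :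
    ∃ (ι : LL →+ GG) (π' : GG →+ LL) (G H : ℂ → K GG → ℂ), (∀ x, π' (ι x) = x) ∧
      Lim g M G ∧ Lim h M H ∧ ∀ z : ℂ, 0 < z.re → ∀ χ,
        G z χ * H z χ = Fh (cc m) (pp P m) (rho ^ m) z (res ι χ) := by
  obtain ⟨s, hs⟩ := exists_std
  obtain ⟨π', hπ⟩ := ig_left BB_pos (BB_le h2)
  refine ⟨ig (BB m P'), π', _, _, hπ, Lap_lim hs sg bg, Lap_lim hs sh bh, fun z hz χ => ?_⟩
  have real : ∀ χ, Lap (Gc g) s z.re χ * Lap (Gc h) s z.re χ =
      Fh (cc m) (pp P m) (rho ^ m) z.re (res (ig (BB m P')) χ) := fun χ => by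
    have b1 := bg.wt hz.le sg
    have b2 := bh.wt hz.le sh
    have e : (fun k => conv (wt z.re (g k)) (wt z.re (h k))) = fun k => wt z.re (ff (P' k)) := by
      funext k; rw [hf, wt_conv]
    rw [← hat_D_wt hs sg bg hz, ← hat_D_wt hs sh bh hz, ← hat_conv (D_L1 b1) (D_L1 b2),
      ← D_conv b1 b2, e, D_ff h1 h2 hz.le (e ▸ b1.conv b2), hat_At _ (sum_wL P m hz.le),
      ← model P m hz.le]
    rfl
  have e : ((-z.im) • s).comp (ig (BB m P')) = (-z.im) • co 0 := by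
    refine AddMonoidHom.ext fun x => ?_
    simp only [AddMonoidHom.comp_apply, AddMonoidHom.smul_apply, ig_apply]
    rw [hs _ _ (io_cv BB_pos (BB_le h2) (fun _ => rfl) x)]
  rw [← Complex.re_add_im z, Lap_vert, Lap_vert, real, Fh_vert, map_mul, res_ex, e]

end limit

/-! finite part: critical points and size -/
lemma tend_exp {a : ℝ} (ha : 0 < a) : Tendsto (fun x : ℝ => Real.exp (-(a * x))) atTop (𝓝 0) :=
  Real.tendsto_exp_neg_atTop_nhds_zero.comp (tendsto_id.const_mul_atTop ha)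

def W (P : ℕ → ℕ) (n : ℕ) (x : ℝ) : ℝ :=
  ∑ l ∈ Finset.range n, ∑ i, rho ^ l * Real.exp (-(pos (EE P) (l, i) * x))

lemma W_lim (P : ℕ → ℕ) (n : ℕ) : Tendsto (W P n) atTop (𝓝 0) := by
  have : Tendsto (W P n) atTop (𝓝 (∑ l ∈ Finset.range n, ∑ _i : Fin 5, rho ^ l * 0)) :=
    tendsto_finsetSum _ fun l _ => tendsto_finsetSum _ fun i _ =>
      (tend_exp (by exact_mod_cast pos_pos P _)).const_mul _
  simpa using this

lemma W_congr {P P' : ℕ → ℕ} {n : ℕ} (h : ∀ i < n, P' i = P i) : W P' n = W P n := by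
  funext x
  exact Finset.sum_congr rfl fun l hl => by simp only [pos_EE h (Finset.mem_range.mp hl)]

lemma Uc_le (P : ℕ → ℕ) (m : ℕ) (z : ℂ) (χ : K LL) : ‖Uc (cc m) (pp P m) z χ‖ ≤ W P m z.re := by
  refine (norm_sum_le _ _).trans (le_of_eq ?_)
  rw [W, Fintype.sum_prod_type, ← Fin.sum_univ_eq_sum_range
    (fun l => ∑ i, rho ^ l * Real.exp (-(pos (EE P) (l, i) * z.re)))]
  refine Finset.sum_congr rfl fun l _ => Finset.sum_congr rfl fun i _ => ?_
  rw [norm_mul, norm_mul, norm_ev, mul_one, cc, norm_cf, Complex.norm_exp]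
  simp [pp]

lemma hU_of {P : ℕ → ℕ} {n : ℕ} {t : ℝ} (ht : 0 < t) (h : ∀ x, t < x → W P n x ≤ rho ^ (n + 1))
    (z : ℂ) (hz : t < z.re) (χ : K LL) :
    ‖Uc (cc (n + 1)) (pp P (n + 1)) z χ‖ ≤ 7 * rho ^ (n + 1) := by
  refine (Uc_le _ _ _ _).trans ?_
  have h1 := h _ hz
  have h2 : ∑ i : Fin 5, rho ^ n * Real.exp (-(pos (EE P) (n, i) * z.re)) ≤ ∑ _i : Fin 5, rho ^ n :=
    Finset.sum_le_sum fun i _ => mul_le_of_le_one_right (pow_pos rho_pos _).le
      (Real.exp_le_one_iff.mpr (by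
        have : (0 : ℝ) < pos (EE P) (n, i) := by exact_mod_cast pos_pos _ _
        nlinarith))
  rw [W, Finset.sum_range_succ]
  simp only [Finset.sum_const, Finset.card_univ, Fintype.card_fin, nsmul_eq_mul] at h2
  have h3 : rho ^ (n + 1) = rho ^ n * (99 / 100) := by rw [pow_succ]; rfl
  have h4 := pow_pos rho_pos n
  unfold W at h1
  push_cast at h2
  linarith

lemma hC_of (P : ℕ → ℕ) (n : ℕ) :
    {ζ | deriv (U0 (cc (n + 1)) (pp P (n + 1))) ζ = 0}.Countable := by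
  have hd := diff_U0 (cc (n + 1)) (pp P (n + 1))
  have ha : AnalyticOnNhd ℂ (deriv (U0 (cc (n + 1)) (pp P (n + 1)))) Set.univ :=
    (hd.differentiableOn.analyticOnNhd isOpen_univ).deriv
  rcases ha.eqOn_zero_or_eventually_ne_zero_of_preconnected isPreconnected_univ with h | h
  · exfalso
    have hc := is_const_of_deriv_eq_zero hd fun ζ => h (Set.mem_univ ζ)
    have h0 : 0 < (U0 (cc (n + 1)) (pp P (n + 1)) 0).re := by
      simp only [U0, mul_zero, Complex.exp_zero, mul_one, Complex.re_sum, cc, cf,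
        Complex.re_ofReal_mul]
      refine Finset.sum_pos' (fun j _ => mul_nonneg (pow_pos rho_pos _).le ?_)
        ⟨(0, 0), Finset.mem_univ _, by simp [cv]⟩
      generalize j.2 = i
      fin_cases i <;> simp [cv]
    have h1 : ∀ x : ℝ, ‖U0 (cc (n + 1)) (pp P (n + 1)) 0‖ ≤ W P (n + 1) x := fun x => by
      have := Uc_le P (n + 1) x (ex 0)
      rw [Uc_ex, hc _ 0] at this
      simpa using this
    have h2 := ge_of_tendsto' (W_lim P (n + 1)) h1
    rw [norm_le_zero_iff.mp h2] at h0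
    simp at h0
  · have := isDiscrete_of_codiscreteWithin (s := {ζ | deriv (U0 (cc (n + 1)) (pp P (n + 1))) ζ = 0}) h
    rw [Set.inter_univ] at this
    exact (HereditarilyLindelofSpace.isLindelof _).countable_of_isDiscrete this

end

end Pool.Agent.H58.Fq
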