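import Pool.Agent.H58.FqI

set_option autoImplicit false
set_option maxHeartbeats 400000

namespace Pool.Agent.H58.Fq

open MeasureTheory Filter Topology Complex

noncomputable section

def Aff (u : ℝ → ℝ) (T : Finset ℝ) (η : ℝ) : Prop := ∃ α β : ℝ, ∀ y ∈ T, |u y - (α + β * y)| ≤ η

structure Fac (P : ℕ → ℕ) (M : ℝ) (g h : ℚ → ℂ) : Prop where
  sg : Sup g
  sh : Sup h
  lg : L1 g
  lh : L1 h
  ng : nrm g ≤ M
  nh : nrm h ≤ M
  eq : ff P = conv g h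

def SS (P : ℕ → ℕ) (m : ℕ) : ℝ → ℝ := Sf (cc m) (pp P m) (rho ^ m)

def Concl (S : ℝ → ℝ) (T : Finset ℝ) (ε ε' η η' : ℝ) (g h : ℚ → ℂ) : Prop :=
  (Aff (qq g ε) T η ∨ Aff (qq h ε) T η) ∧ (∀ y ∈ T, |qq g ε y + qq h ε y - S y| ≤ η) ∧
    (∀ y ∈ T, |qq g ε' y - qq g ε y| ≤ η') ∧ ∀ y ∈ T, |qq h ε' y - qq h ε y| ≤ η'

lemma Lim.cont {g : ℕ → ℚ → ℂ} {M : ℝ} {G : ℂ → K GG → ℂ} (l : Lim g M G) {y : ℝ} (hy : 0 < y) :
    Continuous (G y) := l.nice.cont_at continuous_const continuous_id fun _ => by simpa using hy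

section side
variable {J : Type} [Fintype J] {c : J → ℂ} {p : J → ℚ} {A t M ε ε' η : ℝ} {ι : LL →+ GG}
  {π' : GG →+ LL} {g h : ℕ → ℚ → ℂ} {G H : ℂ → K GG → ℂ} {T : Finset ℝ}
  (hA : 0 < A) (hπ : ∀ x, π' (ι x) = x) (lG : Lim g M G) (lH : Lim h M H)
  (hGH : ∀ z : ℂ, 0 < z.re → ∀ χ, G z χ * H z χ = Fh c p A z (res ι χ)) (hM : 0 < M)
  (ht : 0 < t) (hT : ∀ y ∈ T, t < y) (hε : 0 < ε)
include hA hπ lG lH hGH hM ht hT hε

lemma side_aff (hz : ∀ z : ℂ, t < z.re → ∀ χ, G z χ ≠ 0) (hη : M * ε / A < η) :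
    ∀ᶠ k in UF, Aff (qq (g k) ε) T η := by
  obtain ⟨α, β, hab⟩ := affine ht lG.nice lG.vert hz
  have : ∀ᶠ k in UF, ∀ y ∈ T, |qq (g k) ε y - (α + β * y)| ≤ η := by
    rw [eventually_all_finset]
    intro y hy
    have h0 := ht.trans (hT y hy)
    have := lim_b hA hπ (lG.cont h0) (lH.cont h0) (hGH y (by simpa using h0)) hM (lH.bd y h0)
      (hz y (by simpa using hT y hy)) hε
    rw [hab y (hT y hy)] at this
    exact ((lG.lim y ε h0 hε).sub_const _).abs.eventually_le_const (this.trans_lt hη)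
  exact this.mono fun k hk => ⟨α, β, hk⟩

lemma side_eps (h' : ε ≤ ε') (hη : M * ε' / A < η) :
    ∀ᶠ k in UF, ∀ y ∈ T, |qq (g k) ε' y - qq (g k) ε y| ≤ η := by
  rw [eventually_all_finset]
  intro y hy
  have h0 := ht.trans (hT y hy)
  have := lim_d hA hπ (lG.cont h0) (lH.cont h0) (hGH y (by simpa using h0)) hM (lH.bd y h0) hε h'
  exact ((lG.lim y ε' h0 (hε.trans_le h')).sub (lG.lim y ε h0 hε)).abs.eventually_le_const
    (by rw [abs_of_nonneg this.1]; exact this.2.trans_lt hη)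

lemma side_sum (h' : ε ≤ M) (hη : 2 * M * ε / A < η) :
    ∀ᶠ k in UF, ∀ y ∈ T, |qq (g k) ε y + qq (h k) ε y - Sf c p A y| ≤ η := by
  rw [eventually_all_finset]
  intro y hy
  have h0 := ht.trans (hT y hy)
  have := lim_a hA hπ (lG.cont h0) (lH.cont h0) (hGH y (by simpa using h0)) hM (lG.bd y h0)
    (lH.bd y h0) hε h'
  exact (((lG.lim y ε h0 hε).add (lH.lim y ε h0 hε)).sub_const _).abs.eventually_le_const
    (by rw [abs_of_nonneg (sub_nonneg.mpr this.1)]; linarith [this.2])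

end side

theorem stage (P : ℕ → ℕ) (n : ℕ) {t M ε ε' η η' : ℝ} (T : Finset ℝ) (ht : 0 < t)
    (hW : ∀ x, t < x → W P n x ≤ rho ^ (n + 1)) (hT : ∀ y ∈ T, t < y) (hε : 0 < ε) (he : ε ≤ ε')
    (hM : ε ≤ M) (hη : 2 * M * ε / rho ^ (n + 1) < η) (hη' : M * ε' / rho ^ (n + 1) < η') :
    ∃ P₀ : ℕ, ∀ P' : ℕ → ℕ, (∀ i < n + 1, P' i = P i) → (∀ i, n + 1 ≤ i → P₀ ≤ P' i) →
      ∀ g h, Fac P' M g h → Concl (SS P (n + 1)) T ε ε' η η' g h := by
  by_contra hn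
  push Not at hn
  choose P' h1 h2 g h hF hC using hn
  obtain ⟨ι, π', G, H, hπ, lG, lH, hGH⟩ := limit h1 h2 (fun k => (hF k).sg) (fun k => (hF k).sh)
    (fun k => ⟨(hF k).lg, (hF k).ng⟩) (fun k => ⟨(hF k).lh, (hF k).nh⟩) fun k => (hF k).eq
  have hA : 0 < rho ^ (n + 1) := pow_pos rho_pos _
  have hM0 := hε.trans_le hM
  have hHG : ∀ z : ℂ, 0 < z.re → ∀ χ, H z χ * G z χ = _ := fun z hz χ =>
    (mul_comm _ _).trans (hGH z hz χ)
  have hη1 : M * ε / rho ^ (n + 1) < η :=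
    lt_of_le_of_lt (div_le_div_of_nonneg_right (by nlinarith) hA.le) hη
  have e1 : ∀ᶠ k in UF, Aff (qq (g k) ε) T η ∨ Aff (qq (h k) ε) T η := by
    rcases dich ht hA hπ (hU_of ht hW) (hC_of P n) lG.nice lH.nice hGH with hz | hz
    · exact (side_aff hA hπ lG lH hGH hM0 ht hT hε hz hη1).mono fun _ => Or.inl
    · exact (side_aff hA hπ lH lG hHG hM0 ht hT hε hz hη1).mono fun _ => Or.inr
  obtain ⟨k, hk⟩ := (e1.and ((side_sum hA hπ lG lH hGH hM0 ht hT hε hM hη).and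
    ((side_eps hA hπ lG lH hGH hM0 ht hT hε he hη').and
      (side_eps hA hπ lH lG hHG hM0 ht hT hε he hη')))).exists
  exact hC k hk

/-! the real-variable endgame -/
def N3 (x r : ℝ) : Finset ℝ := {x - r, x, x + r}

lemma one_side {x r τ : ℕ → ℝ} {u : ℕ → ℝ → ℝ} {n₀ : ℕ} {C : ℝ} (hr : ∀ n, 0 < r n)
    (hτ : ∀ n, τ (n + 1) ≤ τ n) (hτ1 : ∀ n, τ n ≤ 1)
    (hs : ∀ n, 3 * τ n * (1 + x n / r n) ≤ (1 / 2) ^ n) (hx : Monotone x)
    (hx2 : ∀ n : ℕ, (n : ℝ) ^ 2 ≤ x n)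
    (hA : ∀ n, n₀ ≤ n → Aff (u (n + 1)) (N3 (x n) (r n) ∪ N3 (x (n + 1)) (r (n + 1))) (τ (n + 1)))
    (hC : ∀ n, n₀ ≤ n → ∀ y ∈ N3 (x n) (r n), |u n y - u (n + 1) y| ≤ τ n)
    (hL : ∀ n, n₀ ≤ n → -(n + 1 : ℝ) - C ≤ u (n + 1) (x (n + 1)))
    (hlim : Tendsto (fun n => u n (x n)) atTop atBot) : False := by
  choose! α β hab using hA
  have step : ∀ n, n₀ ≤ n → ∀ y, 0 ≤ y → y ≤ x (n + 1) →
      |α (n + 1) + β (n + 1) * y - (α n + β n * y)| ≤ (1 / 2) ^ (n + 1) := by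
    intro n hn y h0 h1
    have k : ∀ w ∈ N3 (x (n + 1)) (r (n + 1)),
        |α (n + 1) - α n + (β (n + 1) - β n) * w| ≤ 3 * τ (n + 1) := fun w hw => by
      have a1 := abs_le.mp (hab n hn w (Finset.mem_union_right _ hw))
      have a2 := abs_le.mp (hab (n + 1) (by omega) w (Finset.mem_union_left _ hw))
      have a3 := abs_le.mp (hC (n + 1) (by omega) w hw)
      have a4 := hτ (n + 1)
      rw [abs_le]; constructor <;> linarith
    have k1 := abs_le.mp (k (x (n + 1) - r (n + 1)) (by simp [N3]))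
    have k2 := k (x (n + 1)) (by simp [N3])
    have k3 := abs_le.mp (k (x (n + 1) + r (n + 1)) (by simp [N3]))
    have hR := hr (n + 1)
    have k4 : |β (n + 1) - β n| ≤ 3 * τ (n + 1) / r (n + 1) := by
      rw [le_div_iff₀ hR, ← abs_of_pos hR, ← abs_mul, abs_le]
      constructor <;> nlinarith
    have k5 : |(β (n + 1) - β n) * (y - x (n + 1))| ≤ 3 * τ (n + 1) / r (n + 1) * x (n + 1) := by
      rw [abs_mul]
      exact mul_le_mul k4 (abs_le.mpr ⟨by linarith, by linarith⟩) (abs_nonneg _)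
        ((abs_nonneg _).trans k4)
    have k6 := abs_add_le (α (n + 1) - α n + (β (n + 1) - β n) * x (n + 1))
      ((β (n + 1) - β n) * (y - x (n + 1)))
    refine le_trans (le_of_eq (congrArg _ (by ring))) (k6.trans (le_trans ?_ (hs (n + 1))))
    refine (add_le_add k2 k5).trans (le_of_eq (by ring))
  have tele : ∀ m, n₀ ≤ m → ∀ y, 0 ≤ y → y ≤ x (m + 1) → ∀ n, m ≤ n →
      |α n + β n * y - (α m + β m * y)| ≤ (1 / 2) ^ m - (1 / 2) ^ n := by
    intro m hm y h0 h1 n hn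
    induction n, hn using Nat.le_induction with
    | base => simp
    | succ n hn ih =>
      have := abs_le.mp (step n (by omega) y h0 (h1.trans (hx (by omega))))
      rw [abs_le] at *
      rw [pow_succ] at *
      constructor <;> linarith
  have tele' : ∀ m, n₀ ≤ m → ∀ y, 0 ≤ y → y ≤ x (m + 1) → ∀ n, m ≤ n →
      |α n + β n * y - (α m + β m * y)| ≤ 1 := fun m hm y h0 h1 n hn => by
    have a1 : ((1 : ℝ) / 2) ^ m ≤ 1 := pow_le_one₀ (by norm_num) (by norm_num)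
    have a2 : 0 < ((1 : ℝ) / 2) ^ n := by positivity
    linarith [tele m hm y h0 h1 n hn]
  have x0 : ∀ n, 0 ≤ x n := fun n => (sq_nonneg _).trans (hx2 n)
  have key : ∀ m, n₀ ≤ m → -|α n₀| - 4 ≤ u (m + 1) (x (m + 1)) := by
    intro m hm
    obtain ⟨n, hn⟩ := exists_nat_ge (max (m : ℝ) (max (|C| + 1) (2 * x (m + 1))))
    simp only [max_le_iff, Nat.cast_le] at hn
    obtain ⟨n1, n2, n3⟩ := hn
    have b1 := abs_le.mp (tele' n₀ le_rfl 0 le_rfl (x0 _) n (by omega))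
    have b2 := abs_le.mp (tele' m hm _ (x0 _) le_rfl n n1)
    have b3 := abs_le.mp (hab n (by omega) (x (n + 1)) (by simp [N3]))
    have b4 := abs_le.mp (hab m hm (x (m + 1)) (by simp [N3]))
    have b5 := hL n (by omega)
    have b6 := hx2 (n + 1)
    have b7 : x (m + 1) ≤ x (n + 1) := hx (by omega)
    have b8 := x0 (m + 1)
    have b9 := neg_abs_le (α n₀)
    have c1 := le_abs_self C
    have c2 := abs_nonneg (α n₀)
    have c3 := hτ1 (n + 1)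
    have c4 := hτ1 (m + 1)
    have c5 : (0 : ℝ) ≤ n := Nat.cast_nonneg n
    push_cast at b6
    have hX : 0 < x (n + 1) := lt_of_lt_of_le (by positivity) b6
    have d1 : -(2 * (n + 1 : ℝ)) ≤ α n + β n * x (n + 1) := by linarith
    have d2 : -|α n₀| - 1 ≤ α n := by linarith
    have d3 : x (m + 1) * (2 * (n + 1 : ℝ)) ≤ x (n + 1) := by nlinarith
    have d4 : (-|α n₀| - 2) * x (n + 1) ≤ (α n + β n * x (m + 1)) * x (n + 1) := by
      nlinarith [mul_le_mul_of_nonneg_left d1 b8, mul_le_mul_of_nonneg_left d2 (sub_nonneg.mpr b7),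
        mul_nonneg c2 b8]
    have d5 := le_of_mul_le_mul_right d4 hX
    linarith
  obtain ⟨m, hm⟩ := ((hlim.comp (tendsto_add_atTop_nat 1)).eventually_lt_atBot (-|α n₀| - 4)).and
    (eventually_ge_atTop n₀) |>.exists
  exact absurd (key m hm.2) (not_le.mpr hm.1)

lemma no_switch {x r x' r' x'' r'' τ τ' : ℝ} {u v v' S : ℝ → ℝ} (hτ : τ' ≤ τ)
    (h1 : Aff u (N3 x r ∪ N3 x' r') τ) (h2 : Aff v' (N3 x' r' ∪ N3 x'' r'') τ')
    (h3 : ∀ y ∈ N3 x r ∪ N3 x' r', |u y + v y - S y| ≤ τ)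
    (h4 : ∀ y ∈ N3 x' r' ∪ N3 x'' r'', |v y - v' y| ≤ τ)
    (h5 : 16 * τ < |S (x' - r') + S (x' + r') - 2 * S x'|) : False := by
  obtain ⟨α, β, h1⟩ := h1
  obtain ⟨α', β', h2⟩ := h2
  have k : ∀ w ∈ N3 x' r', |S w - (α + α' + (β + β') * w)| ≤ 4 * τ := fun w hw => by
    have a1 := abs_le.mp (h1 w (Finset.mem_union_right _ hw))
    have a2 := abs_le.mp (h2 w (Finset.mem_union_left _ hw))
    have a3 := abs_le.mp (h3 w (Finset.mem_union_right _ hw))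
    have a4 := abs_le.mp (h4 w (Finset.mem_union_left _ hw))
    rw [abs_le]; constructor <;> linarith
  have k1 := abs_le.mp (k (x' - r') (by simp [N3]))
  have k2 := abs_le.mp (k x' (by simp [N3]))
  have k3 := abs_le.mp (k (x' + r') (by simp [N3]))
  refine absurd h5 (not_lt.mpr (abs_le.mpr ⟨?_, ?_⟩)) <;> linarith

/-! upper bounds -/
lemma qq_le {g : ℚ → ℂ} (sg : Sup g) (hg : L1 g) {ε y : ℝ} (hε : 0 < ε) (hy : 0 ≤ y) :
    qq g ε y ≤ Real.log (nrm (wt y g) ^ 2 + ε ^ 2) / 2 := by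
  have h1 := (hg.wt hy sg).1
  have := integral_mono (μ := mu ℚ) (iQ (cont_hat h1) hε)
    (integrable_const (Real.log (nrm (wt y g) ^ 2 + ε ^ 2) / 2)) fun χ => by
      have := norm_hat_le h1 χ
      simp only [lg_eq]; gcongr
  simpa [qq, Q] using this

lemma nrm_lim {g : ℚ → ℂ} (sg : Sup g) (hg : L1 g) :
    Tendsto (fun y => nrm (wt y g)) atTop (𝓝 0) := by
  have := tendsto_tsum_of_dominated_convergence (𝓕 := atTop) (f := fun y q => ‖wt y g q‖)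
    (g := fun _ => 0) hg (fun q => ?_) ((eventually_ge_atTop 0).mono fun y hy q => by
      rw [norm_norm]; exact wt_le hy sg q)
  · simpa [nrm] using this
  · simp only [norm_wt]
    rcases le_or_gt q 0 with h | h
    · simp [sg q h]
    · simpa using (tend_exp (a := q) (by exact_mod_cast h)).const_mul ‖g q‖

lemma qq_lim {g : ℚ → ℂ} (sg : Sup g) (hg : L1 g) {x ε : ℕ → ℝ} (hε : ∀ n, 0 < ε n)
    (hε' : ∀ n : ℕ, ε n ≤ 1 / (n + 1)) (hx : ∀ n : ℕ, (n : ℝ) ^ 2 ≤ x n) :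
    Tendsto (fun n => qq g (ε n) (x n)) atTop atBot := by
  have t1 : Tendsto x atTop atTop := tendsto_atTop_mono hx
    ((tendsto_pow_atTop two_ne_zero).comp tendsto_natCast_atTop_atTop)
  have t2 : Tendsto ε atTop (𝓝 0) :=
    squeeze_zero (fun n => (hε n).le) hε' tendsto_one_div_add_atTop_nhds_zero_nat
  have t3 : Tendsto (fun n => nrm (wt (x n) g) ^ 2 + ε n ^ 2) atTop (𝓝[>] 0) := by
    refine tendsto_nhdsWithin_iff.mpr ⟨?_, Eventually.of_forall fun n => ?_⟩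
    · simpa using (((nrm_lim sg hg).comp t1).pow 2).add (t2.pow 2)
    · have := hε n
      show (0 : ℝ) < _
      positivity
  exact tendsto_atBot_mono (fun n => qq_le sg hg (hε n) ((sq_nonneg _).trans (hx n)))
    ((Real.tendsto_log_nhdsGT_zero.comp t3).atBot_div_const two_pos)

lemma qq_bd {g : ℚ → ℂ} (sg : Sup g) (hg : L1 g) {ε y : ℝ} (hε : 0 < ε) (h1 : ε ≤ 1) (hy : 0 ≤ y) :
    qq g ε y ≤ Real.log (nrm g ^ 2 + 1) / 2 := by
  refine (qq_le sg hg hε hy).trans ?_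
  have h2 := (hg.wt hy sg).2
  have h3 := nrm_nonneg (wt y g)
  gcongr
  nlinarith

lemma SS_ge (P : ℕ → ℕ) (m : ℕ) (y : ℝ) : -(m : ℝ) ≤ SS P m y := by
  refine le_trans ?_ (Sf_ge (pow_pos rho_pos m) y)
  rw [Real.log_pow]
  have := Real.one_sub_inv_le_log_of_pos rho_pos
  have h2 : (-1 : ℝ) ≤ 1 - rho⁻¹ := by norm_num [rho]
  nlinarith [(Nat.cast_nonneg m : (0 : ℝ) ≤ m)]

/-! the recursion -/
structure St where
  P : ℕ → ℕ
  t : ℝ
  x : ℝ
  r : ℝ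
  τ : ℝ
  ε : ℝ

structure Inv (n : ℕ) (s : St) : Prop where
  t0 : 0 < s.t
  dead : ∀ y, s.t < y → W s.P n y ≤ rho ^ (n + 1)
  r0 : 0 < s.r
  tx : s.t < s.x - s.r
  e0 : 0 < s.ε
  e1 : (n + 1) * s.ε / rho ^ (n + 1) < s.τ
  e2 : s.ε ≤ 1 / (n + 1)
  t1 : s.τ ≤ 1
  t2 : 3 * s.τ * (1 + s.x / s.r) ≤ (1 / 2) ^ n
  x2 : (n : ℝ) ^ 2 ≤ s.x

structure Rl (n : ℕ) (s s' : St) : Prop where
  p1 : ∀ i < n + 1, s'.P i = s.P i
  p2 : ∀ i, s.P i ≤ s'.P i
  x1 : s.x ≤ s'.x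
  t1 : s'.τ ≤ s.τ
  ka : 16 * s'.τ < |SS s.P (n + 1) (s'.x - s'.r) + SS s.P (n + 1) (s'.x + s'.r) -
    2 * SS s.P (n + 1) s'.x|
  co : ∀ P' : ℕ → ℕ, (∀ i < n + 1, P' i = s.P i) → (∀ i, n + 1 ≤ i → s'.P i ≤ P' i) →
    ∀ g h, Fac P' (n + 1) g h →
      Concl (SS s.P (n + 1)) (N3 s.x s.r ∪ N3 s'.x s'.r) s'.ε s.ε s'.τ s.τ g h

lemma inv0 : Inv 0 ⟨fun _ => 0, 1, 3, 1, 1 / 12, 1 / 100⟩ :=
  ⟨one_pos, fun y _ => by simp [W, rho_pos.le], one_pos, by norm_num, by norm_num,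
    by norm_num [rho], by norm_num, by norm_num, by norm_num, by norm_num⟩

lemma step (n : ℕ) (s : St) (h : Inv n s) : ∃ s', Inv (n + 1) s' ∧ Rl n s s' := by
  have hρ : ∀ k, 0 < rho ^ k := pow_pos rho_pos
  obtain ⟨t₁, ht₁⟩ := eventually_atTop.mp ((W_lim s.P (n + 1)).eventually_le_const (hρ (n + 2)))
  set t := max (max s.t t₁) (max s.x ((n + 1 : ℝ) ^ 2)) with htd
  have a1 : s.t ≤ t := by simp [htd]
  have a2 : t₁ ≤ t := by simp [htd]
  have a3 : s.x ≤ t := by simp [htd]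
  have a4 : (n + 1 : ℝ) ^ 2 ≤ t := by simp [htd]
  obtain ⟨x, r, hr, hx, hκ⟩ := kappa (hρ (n + 1)) (hU_of h.t0 h.dead) (hC_of s.P n) a1
  have hτ0 : 0 < s.τ := lt_trans (by have := h.e0; have := hρ (n + 1); positivity) h.e1
  have x0 : 0 < x := by linarith [h.t0]
  obtain ⟨τ, τ0, τ1, τ2, τ3⟩ : ∃ τ, 0 < τ ∧ τ ≤ s.τ ∧ 16 * τ < |SS s.P (n + 1) (x - r) +
      SS s.P (n + 1) (x + r) - 2 * SS s.P (n + 1) x| ∧ 3 * τ * (1 + x / r) ≤ (1 / 2) ^ (n + 1) := by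
    have k0 : 0 < |SS s.P (n + 1) (x - r) + SS s.P (n + 1) (x + r) - 2 * SS s.P (n + 1) x| :=
      abs_pos.mpr hκ
    generalize |SS s.P (n + 1) (x - r) + SS s.P (n + 1) (x + r) - 2 * SS s.P (n + 1) x| = κ at *
    refine ⟨min s.τ (min (κ / 17) ((1 / 2) ^ (n + 1) / (3 * (1 + x / r)))), by positivity,
      min_le_left _ _, ?_, ?_⟩
    · have : min s.τ (min (κ / 17) ((1 / 2) ^ (n + 1) / (3 * (1 + x / r)))) ≤ κ / 17 := by simp
      linarith
    · have : min s.τ (min (κ / 17) ((1 / 2) ^ (n + 1) / (3 * (1 + x / r)))) ≤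
        (1 / 2) ^ (n + 1) / (3 * (1 + x / r)) := by simp
      rw [le_div_iff₀ (by positivity)] at this
      linarith
  obtain ⟨ε, ε0, ε1, ε2, ε3⟩ : ∃ ε, 0 < ε ∧ ε ≤ s.ε ∧ ε ≤ 1 / (n + 2) ∧
      ε * (4 * (n + 2)) ≤ τ * rho ^ (n + 2) := by
    have := h.e0
    have := hρ (n + 2)
    refine ⟨min s.ε (min (1 / (n + 2)) (τ * rho ^ (n + 2) / (4 * (n + 2)))), by positivity,
      min_le_left _ _, by simp, ?_⟩
    rw [← le_div_iff₀ (by positivity)]; simp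
  have n0 : (0 : ℝ) ≤ n := Nat.cast_nonneg n
  have ρ1 : rho ^ (n + 2) ≤ rho ^ (n + 1) :=
    pow_le_pow_of_le_one rho_pos.le rho_lt.le (by omega)
  obtain ⟨P₀, hP⟩ := stage s.P n (M := n + 1) (ε := ε) (ε' := s.ε) (η := τ) (η' := s.τ)
    (N3 s.x s.r ∪ N3 x r) h.t0 h.dead (fun y hy => by
      have := h.tx; have := h.r0
      simp only [N3, Finset.mem_union, Finset.mem_insert, Finset.mem_singleton] at hy
      rcases hy with (rfl | rfl | rfl) | (rfl | rfl | rfl) <;> linarith) ε0 ε1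
    (by have : 1 / (n + 2 : ℝ) ≤ 1 := by rw [div_le_one (by positivity)]; linarith
        linarith)
    (by rw [div_lt_iff₀ (hρ _)]; nlinarith [mul_le_mul_of_nonneg_left ρ1 τ0.le]) h.e1
  have p1 : ∀ i < n + 1, (if i < n + 1 then s.P i else max (s.P i) P₀) = s.P i :=
    fun i hi => if_pos hi
  refine ⟨⟨fun i => if i < n + 1 then s.P i else max (s.P i) P₀, t, x, r, τ, ε⟩,
    ⟨h.t0.trans_le a1, fun y hy => ?_, hr, hx, ε0, ?_, ?_, τ1.trans h.t1, τ3, ?_⟩,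
    ⟨p1, fun i => ?_, ?_, τ1, τ2, fun P' h1 h2 => hP P' h1 fun i hi => ?_⟩⟩
  · rw [W_congr p1]; exact ht₁ y (a2.trans hy.le)
  · show ((n + 1 : ℕ) + 1) * ε / rho ^ (n + 2) < τ
    rw [div_lt_iff₀ (hρ _)]; push_cast; nlinarith
  · show ε ≤ 1 / ((n + 1 : ℕ) + 1)
    push_cast; rw [add_assoc, one_add_one_eq_two]; exact ε2
  · show ((n + 1 : ℕ) : ℝ) ^ 2 ≤ x
    push_cast; linarith
  · dsimp only; split_ifs <;> simp
  · show s.x ≤ x
    linarith
  · have := h2 i hi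
    simp only [not_lt.mpr hi, if_false] at this
    exact (le_max_right _ _).trans this

lemma seq : ∃ f : ℕ → St, ∀ n, Inv n (f n) ∧ Rl n (f n) (f (n + 1)) := by
  choose nx h1 h2 using step
  let F : ∀ n, {s // Inv n s} := fun n => Nat.rec ⟨_, inv0⟩ (fun n s => ⟨nx n s.1 s.2, h1 n s.1 s.2⟩) n
  exact ⟨fun n => (F n).1, fun n => ⟨(F n).2, h2 n (F n).1 (F n).2⟩⟩

theorem no_factor : ∃ a : ℚ → ℂ, Sup a ∧ L1 a ∧
    ∀ g h, Sup g → Sup h → L1 g → L1 h → a ≠ conv g h := by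
  obtain ⟨f, hf⟩ := seq
  let P : ℕ → ℕ := fun i => (f i).P i
  have p1 : ∀ i n, i ≤ n → P i = (f n).P i := fun i n hn => by
    induction n, hn using Nat.le_induction with
    | base => rfl
    | succ n hn ih => rw [(hf n).2.p1 i (by omega), ih]
  have p2 : ∀ i, Monotone fun n => (f n).P i := fun i =>
    monotone_nat_of_le_succ fun n => (hf n).2.p2 i
  refine ⟨ff P, ff_sup P, ff_L1 P, fun g h sg sh lg lh e => ?_⟩
  obtain ⟨n₀, hn₀⟩ := exists_nat_ge (max (nrm g) (nrm h))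
  rw [max_le_iff] at hn₀
  have hc : ∀ n, n₀ ≤ n → Concl (SS (f n).P (n + 1)) (N3 (f n).x (f n).r ∪
      N3 (f (n + 1)).x (f (n + 1)).r) (f (n + 1)).ε (f n).ε (f (n + 1)).τ (f n).τ g h := fun n hn => by
    have : (n₀ : ℝ) ≤ n := by exact_mod_cast hn
    exact (hf n).2.co P (fun i hi => p1 i n (by omega)) (fun i hi => p2 i hi) g h
      ⟨sg, sh, lg, lh, by linarith, by linarith, e⟩
  have e1 : ∀ n, (f n).ε ≤ 1 := fun n => (hf n).1.e2.trans (by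
    rw [div_le_one (by positivity)]; linarith [(Nat.cast_nonneg n : (0 : ℝ) ≤ n)])
  have x0 : ∀ n, 0 ≤ (f n).x := fun n => (sq_nonneg _).trans (hf n).1.x2
  have fin : ∀ a b : ℚ → ℂ, Sup a → Sup b → L1 a → L1 b →
      (∀ n, n₀ ≤ n → Aff (qq a (f (n + 1)).ε) (N3 (f n).x (f n).r ∪
        N3 (f (n + 1)).x (f (n + 1)).r) (f (n + 1)).τ) →
      (∀ n, n₀ ≤ n → ∀ y ∈ N3 (f n).x (f n).r ∪ N3 (f (n + 1)).x (f (n + 1)).r,
        |qq a (f n).ε y - qq a (f (n + 1)).ε y| ≤ (f n).τ) →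
      (∀ n, n₀ ≤ n → ∀ y ∈ N3 (f n).x (f n).r ∪ N3 (f (n + 1)).x (f (n + 1)).r,
        |qq a (f (n + 1)).ε y + qq b (f (n + 1)).ε y - SS (f n).P (n + 1) y| ≤ (f (n + 1)).τ) →
      False := fun a b sa sb la lb h1 h2 h3 => by
    refine one_side (x := fun n => (f n).x) (r := fun n => (f n).r) (τ := fun n => (f n).τ)
      (u := fun n => qq a (f n).ε) (n₀ := n₀) (C := 1 + Real.log (nrm b ^ 2 + 1) / 2)
      (fun n => (hf n).1.r0) (fun n => (hf n).2.t1) (fun n => (hf n).1.t1) (fun n => (hf n).1.t2)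
      (monotone_nat_of_le_succ fun n => (hf n).2.x1) (fun n => (hf n).1.x2) h1
      (fun n hn y hy => h2 n hn y (Finset.mem_union_left _ hy)) (fun n hn => ?_)
      (qq_lim sa la (fun n => (hf n).1.e0) (fun n => (hf n).1.e2) fun n => (hf n).1.x2)
    have b1 := abs_le.mp (h3 n hn (f (n + 1)).x (by simp [N3]))
    have b2 := qq_bd sb lb (hf (n + 1)).1.e0 (e1 _) (x0 (n + 1))
    have b3 := SS_ge (f n).P (n + 1) (f (n + 1)).x
    have b4 := (hf (n + 1)).1.t1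
    push_cast at b3
    linarith
  rcases (hc n₀ le_rfl).1 with h0 | h0
  · refine fin g h sg sh lg lh (fun n hn => ?_) (fun n hn => (hc n hn).2.2.1)
      fun n hn => (hc n hn).2.1
    induction n, hn using Nat.le_induction with
    | base => exact h0
    | succ n hn ih =>
      exact (hc (n + 1) (by omega)).1.resolve_right fun h' => no_switch (hf (n + 1)).2.t1 ih h'
        (hc n hn).2.1 (hc (n + 1) (by omega)).2.2.2 (hf n).2.ka
  · have sw : ∀ n, n₀ ≤ n → ∀ y ∈ N3 (f n).x (f n).r ∪ N3 (f (n + 1)).x (f (n + 1)).r,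
        |qq h (f (n + 1)).ε y + qq g (f (n + 1)).ε y - SS (f n).P (n + 1) y| ≤ (f (n + 1)).τ :=
      fun n hn y hy => by rw [add_comm]; exact (hc n hn).2.1 y hy
    refine fin h g sh sg lh lg (fun n hn => ?_) (fun n hn => (hc n hn).2.2.2) sw
    induction n, hn using Nat.le_induction with
    | base => exact h0
    | succ n hn ih =>
      exact (hc (n + 1) (by omega)).1.resolve_left fun h' => no_switch (hf (n + 1)).2.t1 ih h'
        (sw n hn) (hc (n + 1) (by omega)).2.2.1 (hf n).2.ka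

end

end Pool.Agent.H58.Fq
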