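import Mathlib

namespace Pool.Agent.H58.Funk
open MeasureTheory Set Filter Topology Pointwise Module Metric
open scoped RealInnerProductSpace

variable {E : Type} [NormedAddCommGroup E] [InnerProductSpace ℝ E] [FiniteDimensional ℝ E]
  [MeasurableSpace E] [BorelSpace E]

/-- Cramer-Wold -/
lemma cw (μ ν : Measure E) [IsFiniteMeasure μ] [IsFiniteMeasure ν]
    (h : ∀ v c, μ {y | c ≤ ⟪y, v⟫} = ν {y | c ≤ ⟪y, v⟫}) : μ = ν := by
  refine Measure.ext_of_charFun (funext fun v => ?_)
  have m : Measurable fun y : E => ⟪y, v⟫ := by fun_prop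
  have e : μ.map (fun y => ⟪y, v⟫) = ν.map fun y => ⟪y, v⟫ := Measure.ext_of_Ici _ _ fun c => by
    rw [Measure.map_apply m measurableSet_Ici, Measure.map_apply m measurableSet_Ici]; exact h v c
  have k : ∀ ρ : Measure E, charFun ρ v =
      ∫ s, Complex.exp (s * Complex.I) ∂ρ.map fun y => ⟪y, v⟫ := fun ρ => by
    rw [integral_map m.aemeasurable (by fun_prop), charFun_apply]
  rw [k, k, e]

theorem funk (μ : Measure E) [IsFiniteMeasure μ] {e : E} (he : e ≠ 0)
    (hz : ∀ w : E, w ≠ 0 → μ {y | ⟪y, w⟫ = 0} = 0)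
    (hb : ∀ w : E, w ≠ 0 → μ {y | 0 < ⟪y, w⟫} = μ {y | ⟪y, w⟫ < 0})
    {C : Set E} (hC : MeasurableSet C) (hs : ∀ t : ℝ, 0 < t → ∀ y, t • y ∈ C ↔ y ∈ C) :
    μ C = μ (-C) := by
  have mU : ∀ w : E, MeasurableSet {y : E | 0 < ⟪y, w⟫} := fun w => by measurability
  have mV : ∀ w : E, MeasurableSet {y : E | ⟪y, w⟫ < 0} := fun w => by measurability
  have sp : ∀ w : E, w ≠ 0 → ∀ A, MeasurableSet A →
      μ.real A = μ.real (A ∩ {y | 0 < ⟪y, w⟫}) + μ.real (A ∩ {y | ⟪y, w⟫ < 0}) := fun w hw A hA => by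
    rw [← measureReal_union (disjoint_left.2 fun y h1 h2 => lt_asymm (a := ⟪y, w⟫) h2.2 h1.2) (hA.inter (mV w)),
      ← inter_union_distrib_left]
    refine measureReal_congr (ae_eq_set.2 ⟨measure_mono_null (fun y h => ?_) (hz w hw),
      by rw [sdiff_eq_empty.2 inter_subset_left, measure_empty]⟩)
    by_contra h'
    exact h.2 ⟨h.1, (lt_or_gt_of_ne h').symm⟩
  let p : E → E := fun y => ⟪y, e⟫⁻¹ • y
  have mp : Measurable p := by fun_prop
  have key : (μ.restrict {y | 0 < ⟪y, e⟫}).map p = (μ.restrict {y | ⟪y, e⟫ < 0}).map p := by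
    refine cw _ _ fun v c => ?_
    have m : MeasurableSet {y : E | c ≤ ⟪y, v⟫} := by measurability
    rw [Measure.map_apply mp m, Measure.map_apply mp m, Measure.restrict_apply (mp m),
      Measure.restrict_apply (mp m)]
    have e1 : p ⁻¹' {y | c ≤ ⟪y, v⟫} ∩ {y | 0 < ⟪y, e⟫} = {y | 0 < ⟪y, e⟫} \ {y | ⟪y, v - c • e⟫ < 0} := by
      ext y
      simp only [mem_inter_iff, mem_preimage, mem_ofPred_eq, Set.mem_sdiff, p,
        real_inner_smul_left, inner_sub_right, real_inner_smul_right, not_lt]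
      refine and_comm.trans (and_congr_right fun h => ?_)
      rw [le_inv_mul_iff₀ h]; constructor <;> intro <;> linarith
    have e2 : p ⁻¹' {y | c ≤ ⟪y, v⟫} ∩ {y | ⟪y, e⟫ < 0} = {y | ⟪y, e⟫ < 0} \ {y | 0 < ⟪y, v - c • e⟫} := by
      ext y
      simp only [mem_inter_iff, mem_preimage, mem_ofPred_eq, Set.mem_sdiff, p,
        real_inner_smul_left, inner_sub_right, real_inner_smul_right, not_lt]
      refine and_comm.trans (and_congr_right fun h => ?_)
      rw [inv_mul_eq_div, le_div_iff_of_neg h]; constructor <;> intro <;> linarith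
    rw [e1, e2]
    by_cases hw : v - c • e = 0
    · simp [hw, hb e he]
    rw [← measureReal_eq_measureReal_iff]
    have a := measureReal_inter_add_sdiff (μ := μ) (s := {y | 0 < ⟪y, e⟫}) (mV (v - c • e))
    have b := measureReal_inter_add_sdiff (μ := μ) (s := {y | ⟪y, e⟫ < 0}) (mU (v - c • e))
    have h1 := congrArg ENNReal.toReal (hb _ hw)
    have h2 := congrArg ENNReal.toReal (hb _ he)
    simp only [← measureReal_def] at h1 h2
    have s1 := sp _ he _ (mU (v - c • e))
    have s2 := sp _ he _ (mV (v - c • e))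
    have s3 := sp _ hw _ (mU e)
    have s4 := sp _ hw _ (mV e)
    simp only [inter_comm] at *
    linarith
  have half : ∀ C, MeasurableSet C → (∀ t : ℝ, 0 < t → ∀ y, t • y ∈ C ↔ y ∈ C) →
      μ.real (C ∩ {y | 0 < ⟪y, e⟫}) = μ.real (-C ∩ {y | ⟪y, e⟫ < 0}) := fun C hC hs => by
    have := congrArg (fun ρ : Measure E => ρ.real C) key
    simp only [map_measureReal_apply mp hC, measureReal_restrict_apply (mp hC)] at this
    convert this using 2 <;> ext y <;> refine and_congr_left fun h => ?_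
    · exact (hs _ (inv_pos.2 h) y).symm
    · rw [Set.mem_neg, ← hs _ (neg_pos.2 (inv_lt_zero.2 h))]; simp [p]
  have a := half C hC hs
  have b := half (-C) hC.neg fun t ht y => by rw [Set.mem_neg, ← smul_neg, hs t ht, Set.mem_neg]
  rw [← measureReal_eq_measureReal_iff, sp e he C hC, sp e he _ hC.neg, a, b, neg_neg, add_comm]

omit [MeasurableSpace E] [BorelSpace E] in
lemma cover {L : Set E} (hc : Convex ℝ L) (hL : IsClosed L) (hi : (interior L).Nonempty) :
    ∃ π : E → E, LipschitzWith 1 π ∧ ∀ G : E → ℝ, Continuous G → Bornology.IsBounded {z | G z ≤ 1} →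
      ∀ y ∈ frontier L, G y < 1 → ∃ z, G z = 1 ∧ z ∉ L ∧ π z = y := by
  have ex : ∀ u : E, ∃ v ∈ L, ∀ w ∈ L, ⟪u - v, w - v⟫ ≤ 0 := fun u => by
    obtain ⟨v, hv, e⟩ := exists_norm_eq_iInf_of_complete_convex (hi.mono interior_subset)
      hL.isComplete hc u
    exact ⟨v, hv, (norm_eq_iInf_iff_real_inner_le_zero hc hv).1 e⟩
  have lip : ∀ u u' v v' : E, ⟪u - v, v' - v⟫ ≤ 0 → ⟪u' - v', v - v'⟫ ≤ 0 →
      ‖v - v'‖ ≤ ‖u - u'‖ := fun u u' v v' h1 h2 => by
    have h3 : ‖v - v'‖ * ‖v - v'‖ ≤ ⟪u - u', v - v'⟫ := by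
      rw [← real_inner_self_eq_norm_mul_norm]
      simp only [inner_sub_left, inner_sub_right, real_inner_comm] at *; linarith
    have := h3.trans (real_inner_le_norm _ _)
    by_contra h
    nlinarith [norm_nonneg (u - u')]
  choose π h1 h2 using ex
  refine ⟨π, .of_dist_le_mul fun u u' => by
    simpa [dist_eq_norm] using lip u u' _ _ (h2 u _ (h1 u')) (h2 u' _ (h1 u)), fun G hG hb y hy h => ?_⟩
  obtain ⟨f, hf⟩ := geometric_hahn_banach_open_point hc.interior isOpen_interior hy.2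
  obtain ⟨n, rfl⟩ := (InnerProductSpace.toDual ℝ E).surjective f
  simp only [InnerProductSpace.toDual_apply_apply] at hf
  have n0 : 0 < ‖n‖ := norm_pos_iff.2 (by rintro rfl; simpa using hf _ hi.some_mem)
  have hn : ∀ w ∈ L, ⟪n, w⟫ ≤ ⟪n, y⟫ := fun w hw =>
    closure_minimal (s := interior L) (t := {w | ⟪n, w⟫ ≤ ⟪n, y⟫}) (fun a ha => (hf a ha).le)
      (isClosed_le (by fun_prop) continuous_const)
      (hc.closure_interior_eq_closure_of_nonempty_interior hi ▸ subset_closure hw)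
  obtain ⟨R, hR⟩ := hb.exists_norm_le
  obtain ⟨s, hs, e⟩ : (1 : ℝ) ∈ (fun s : ℝ => G (y + s • n)) '' Icc 0 ((|R| + ‖y‖ + 1) / ‖n‖) := by
    refine intermediate_value_Icc (by positivity) (by fun_prop) ⟨by simpa using h.le, ?_⟩
    by_contra h'
    have := hR _ (not_le.1 h').le
    have h2 := norm_sub_le (y + ((|R| + ‖y‖ + 1) / ‖n‖) • n) y
    rw [add_sub_cancel_left, norm_smul, Real.norm_of_nonneg (by positivity),
      div_mul_cancel₀ _ n0.ne'] at h2
    linarith [le_abs_self R]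
  have s0 : 0 < s := hs.1.lt_of_ne (by rintro rfl; simp at e; linarith)
  have yL := hL.frontier_subset hy
  refine ⟨_, e, fun h => ?_, ?_⟩
  · have := hn _ h
    rw [inner_add_right, real_inner_smul_right, real_inner_self_eq_norm_mul_norm] at this
    nlinarith [mul_pos s0 (mul_pos n0 n0)]
  · have := lip (y + s • n) (y + s • n) _ _ (h2 _ _ yL) (by
      rw [add_sub_cancel_left, real_inner_smul_left, inner_sub_right]
      nlinarith [hn _ (h1 (y + s • n))])
    simpa [sub_eq_zero] using this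

end Pool.Agent.H58.Funk
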