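import Mathlib

/-! Lattice combinatorics for a rank three lattice whose Groebner fan has a chamber
with many facets. -/

set_option autoImplicit false

namespace H58GF

/-- data: number of facets `k`, weights `t`, bound `M` -/
structure Dat where
  k : ℕ
  t : ℕ → ℤ
  M : ℤ
  hk : 3 ≤ k
  t1 : ∀ m, 1 ≤ m → m ≤ k → 1 ≤ t m
  tM : ∀ m, 1 ≤ m → m ≤ k → t m + 1 ≤ M

variable (D : Dat)

def Ar (m : ℕ) (x y : ℤ) : ℤ := m * x - y
def Br (m : ℕ) (x y h : ℤ) : ℤ := D.M * (y - m * x) + x + D.t m * h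

def InU (c1 c2 c3 : ℝ) : Prop :=
  0 < c1 ∧ 0 < c2 ∧ ∀ m : ℕ, 1 ≤ m → m ≤ D.k → (D.t m : ℝ) * (c1 + m * c2) < c3

def Good (x y h : ℤ) : Prop :=
  ∀ c1 c2 c3 : ℝ, InU D c1 c2 c3 → 0 < c1 * x + c2 * y + c3 * h

def InP (x y h x' y' h' : ℤ) : Prop :=
  (∀ m : ℕ, 1 ≤ m → m ≤ D.k →
    (Ar m x' y' ≤ 0 ∨ Ar m x' y' ≤ Ar m x y) ∧
    (Br D m x' y' h' ≤ 0 ∨ Br D m x' y' h' ≤ Br D m x y h)) ∧ (-h' ≤ 0 ∨ -h' ≤ -h)

variable {D}

lemma M2 : 2 ≤ D.M := by
  have h1 := D.t1 1 le_rfl (by have := D.hk; omega)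
  have h2 := D.tM 1 le_rfl (by have := D.hk; omega)
  omega

lemma InU.c3 {c1 c2 c3 : ℝ} (h : InU D c1 c2 c3) {m : ℕ} (h1 : 1 ≤ m) (h2 : m ≤ D.k) :
    c1 + m * c2 < c3 := by
  have a := h.2.2 m h1 h2
  have b : (1 : ℝ) ≤ D.t m := by exact_mod_cast D.t1 m h1 h2
  have c : 0 < c1 + m * c2 := by have := h.1; have := h.2.1; positivity
  nlinarith

lemma InU.c3' {c1 c2 c3 : ℝ} (h : InU D c1 c2 c3) : c1 + c2 < c3 := by
  have := h.c3 (m := 1) le_rfl (by have := D.hk; omega)
  simpa using this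

lemma R1 {c1 c2 c3 : ℝ} (h : InU D c1 c2 c3) {j : ℕ} (h1 : 1 ≤ j) (h2 : j ≤ D.k)
    {x s H : ℤ} (hx : 0 ≤ x) (hs : 0 ≤ s) (hxs : 0 < x + s)
    (hc : c3 * H ≤ c1 * x + c2 * ((j * x + s : ℤ) : ℝ)) : D.t j * H < x + s := by
  have a := h.2.2 j h1 h2
  have b : (1 : ℝ) ≤ D.t j := by exact_mod_cast D.t1 j h1 h2
  have c1p := h.1
  have c2p := h.2.1
  have j1 : (1 : ℝ) ≤ j := by exact_mod_cast h1
  have a2 : (D.t j : ℝ) * c2 < c3 := by nlinarith [mul_pos (by linarith : (0:ℝ) < D.t j) c1p, mul_nonneg (by linarith : (0:ℝ) ≤ D.t j) (mul_nonneg (by linarith : (0:ℝ) ≤ j - 1) c2p.le)]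
  have c3p : 0 < c3 := by have := h.c3'; linarith
  have hx' : (0 : ℝ) ≤ x := by exact_mod_cast hx
  have hs' : (0 : ℝ) ≤ s := by exact_mod_cast hs
  have hxs' : (0 : ℝ) < x + s := by exact_mod_cast hxs
  push_cast at hc
  have key : (D.t j : ℝ) * (c1 * x + c2 * (j * x + s)) < (x + s) * c3 := by
    have e : (D.t j : ℝ) * (c1 * x + c2 * (j * x + s)) =
      x * (D.t j * (c1 + j * c2)) + s * (D.t j * c2) := by ring
    rw [e]
    rcases hx'.eq_or_lt with h0 | h0
    · rw [← h0] at hxs' ⊢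
      have : (0:ℝ) < s := by linarith
      nlinarith
    · nlinarith [mul_lt_mul_of_pos_left a h0, mul_le_mul_of_nonneg_left a2.le hs']
  have : (D.t j : ℝ) * H * c3 < (x + s) * c3 := by
    nlinarith [mul_le_mul_of_nonneg_left hc (by linarith : (0:ℝ) ≤ D.t j)]
  have := lt_of_mul_lt_mul_right this c3p.le
  exact_mod_cast this

lemma good_e3 : Good D 0 0 1 := by
  intro c1 c2 c3 h
  have := h.c3'; have := h.1; have := h.2.1
  simp; linarith

lemma good_e2 : Good D 0 1 0 := by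
  intro c1 c2 c3 h
  have := h.2.1
  simpa using this

lemma good_y0 : Good D 0 (-1) 1 := by
  intro c1 c2 c3 h
  have := h.c3'; have := h.1; have := h.2.1
  simp; linarith

lemma good_z {j : ℕ} (h1 : 1 ≤ j) (h2 : j ≤ D.k) : Good D (-D.t j) (-(j * D.t j)) 1 := by
  intro c1 c2 c3 h
  have := h.2.2 j h1 h2
  push_cast; linarith

lemma good_mu {j : ℕ} (h1 : 1 ≤ j) (h2 : j ≤ D.k) : Good D (-1) (-j) 1 := by
  intro c1 c2 c3 h
  have := h.c3 h1 h2
  push_cast; linarith

lemma good_nu (j : ℕ) : Good D 1 j 0 := by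
  intro c1 c2 c3 h
  have := h.1; have := h.2.1
  push_cast
  have : 0 ≤ c2 * j := by positivity
  linarith

lemma InP.self (x y h : ℤ) : InP D x y h x y h :=
  ⟨fun _ _ _ => ⟨Or.inr le_rfl, Or.inr le_rfl⟩, Or.inr le_rfl⟩

lemma caseA {x y h : ℤ} (ha : ∀ m : ℕ, 1 ≤ m → m ≤ D.k → 1 ≤ Ar m x y) :
    InP D x y h 0 (-1) 1 := by
  refine ⟨fun m h1 h2 => ⟨Or.inr ?_, Or.inl ?_⟩, Or.inl (by norm_num)⟩
  · have := ha m h1 h2
    simpa [Ar] using this
  · have := D.tM m h1 h2
    simp only [Br]; linarith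

/-- `z_j` is in `P_z` for points of the negative sectors with enough mass -/
lemma inP_z {j : ℕ} (h1 : 1 ≤ j) (h2 : j ≤ D.k) {X s h : ℤ} (hh : 1 ≤ h)
    (hX : D.t j + s ≤ X) (hs : 0 ≤ s) :
    InP D (-X) (-(j * X) + s) h (-D.t j) (-(j * D.t j)) 1 := by
  have tj := D.t1 j h1 h2
  have M2 := M2 (D := D)
  refine ⟨fun m m1 m2 => ⟨?_, ?_⟩, Or.inl (by norm_num)⟩
  · rcases lt_or_ge m j with hm | hm
    · right
      have : (m : ℤ) + 1 ≤ j := by exact_mod_cast hm
      simp only [Ar]; nlinarith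
    · left
      have : (j : ℤ) ≤ m := by exact_mod_cast hm
      simp only [Ar]; nlinarith
  · have tm := D.t1 m m1 m2
    have tM := D.tM m m1 m2
    rcases lt_trichotomy m j with hm | hm | hm
    · left
      have : (m : ℤ) + 1 ≤ j := by exact_mod_cast hm
      simp only [Br]
      have e : -(j * D.t j) - m * -D.t j = -((j - m) * D.t j) := by ring
      rw [e]
      have : 1 ≤ (j - m : ℤ) * D.t j := by nlinarith
      nlinarith
    · left; subst hm; simp only [Br]; nlinarith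
    · right
      have : (j : ℤ) + 1 ≤ m := by exact_mod_cast hm
      simp only [Br]
      have e1 : (X - D.t j) ≤ (m - j : ℤ) * (X - D.t j) := by nlinarith
      have e2 : (m - j : ℤ) * (X - D.t j) + s ≤ D.M * ((m - j : ℤ) * (X - D.t j) + s) := by
        nlinarith
      have e3 : 0 ≤ D.t m * (h - 1) := by nlinarith
      nlinarith

lemma caseB {x y h : ℤ} (ha : ∀ m : ℕ, 1 ≤ m → m ≤ D.k → Ar m x y ≤ -1)
    {c1 c2 c3 : ℝ} (hc : InU D c1 c2 c3) (hz : 0 ≤ c1 * x + c2 * y + c3 * h) :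
    ∃ x' y' h', Good D x' y' h' ∧ InP D x y h x' y' h' := by
  have M2 := M2 (D := D)
  have k1 : 1 ≤ D.k := by have := D.hk; omega
  have a1 := ha 1 le_rfl k1
  simp only [Ar, Nat.cast_one, one_mul] at a1
  rcases le_or_gt 1 h with hh | hh
  · by_cases hb : ∀ m : ℕ, 1 ≤ m → m ≤ D.k → 0 ≤ D.M * (y - m * x) + x
    · refine ⟨0, 0, 1, good_e3, fun m m1 m2 => ⟨Or.inl (by simp [Ar]), Or.inr ?_⟩,
        Or.inl (by norm_num)⟩
      have := hb m m1 m2
      have tm := D.t1 m m1 m2
      simp only [Br]; nlinarith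
    · push Not at hb
      obtain ⟨m, m1, m2, hm⟩ := hb
      have am := ha m m1 m2
      simp only [Ar] at am
      have x0 : x < 0 := by nlinarith
      have m1' : m = 1 := by
        by_contra hne
        have : (2 : ℤ) ≤ m := by exact_mod_cast (by omega : 2 ≤ m)
        have : -x ≤ y - m * x := by nlinarith
        nlinarith
      subst m1'
      simp only [Nat.cast_one, one_mul] at hm
      have tM := D.tM 1 le_rfl k1
      have t1 := D.t1 1 le_rfl k1
      refine ⟨_, _, _, good_z le_rfl k1, ?_⟩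
      refine ⟨fun m m1 m2 => ⟨Or.inl ?_, ?_⟩, Or.inl (by norm_num)⟩
      · have : (1 : ℤ) ≤ m := by exact_mod_cast m1
        simp only [Ar]; push_cast; nlinarith
      · rcases m1.eq_or_lt with h0 | h0
        · left; subst h0; simp only [Br]; push_cast; nlinarith
        · right
          have m2' : (2 : ℤ) ≤ m := by exact_mod_cast h0
          have tm := D.t1 m m1 m2
          simp only [Br]; push_cast
          have b1 : 0 ≤ -x - D.t 1 := by nlinarith
          have b2 : (-x - D.t 1) ≤ (m - 1 : ℤ) * (-x - D.t 1) := by nlinarith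
          have b3 : (m - 1 : ℤ) * (-x - D.t 1) + (y - x) ≤
            D.M * ((m - 1 : ℤ) * (-x - D.t 1) + (y - x)) := by nlinarith
          have e3 : 0 ≤ D.t m * (h - 1) := by nlinarith
          nlinarith
  · refine ⟨0, 1, 0, good_e2, fun m m1 m2 => ⟨Or.inl (by simp [Ar]), Or.inr ?_⟩,
      Or.inl (by norm_num)⟩
    have tm := D.t1 m m1 m2
    have tM := D.tM m m1 m2
    have m1' : (1 : ℤ) ≤ m := by exact_mod_cast m1
    have c1p := hc.1
    have c2p := hc.2.1
    have c3p : 0 < c3 := by have := hc.c3'; linarith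
    have hh' : (h : ℝ) ≤ 0 := by exact_mod_cast (by omega : h ≤ 0)
    simp only [Br]
    rcases le_or_gt x 0 with hx | hx
    · have hx' : (x : ℝ) ≤ 0 := by exact_mod_cast hx
      have y0 : 0 < y := by
        rcases hx.eq_or_lt with h0 | h0
        · omega
        · have h0' : (x : ℝ) < 0 := by exact_mod_cast h0
          have : 0 < c2 * y := by nlinarith [mul_neg_of_pos_of_neg c1p h0', mul_nonpos_of_nonneg_of_nonpos c3p.le hh']
          have : (0 : ℝ) < y := (mul_pos_iff_of_pos_left c2p).1 this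
          exact_mod_cast this
      have := R1 hc m1 m2 (x := 0) (s := y) (H := -h) le_rfl y0.le (by simpa using y0)
        (by push_cast; nlinarith [mul_nonpos_of_nonneg_of_nonpos c1p.le hx'])
      have b1 : 0 ≤ D.t m * (-h) := by nlinarith
      have b2 : y - 1 ≤ D.M * (y - 1) := by nlinarith
      have b3 : -x ≤ m * (-x) := by nlinarith
      have b4 : m * (-x) ≤ D.M * (m * (-x)) := by nlinarith
      nlinarith
    · have ak := ha D.k k1 le_rfl
      simp only [Ar] at ak
      have := R1 hc k1 le_rfl (x := x) (s := y - D.k * x) (H := -h) hx.le (by omega) (by omega)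
        (by push_cast; nlinarith)
      have tk := D.t1 D.k k1 le_rfl
      rcases m2.eq_or_lt with h0 | h0
      · subst h0
        have b2 : y - D.k * x - 1 ≤ D.M * (y - D.k * x - 1) := by nlinarith
        nlinarith
      · have : (m : ℤ) + 1 ≤ D.k := by exact_mod_cast h0
        have b0 : 0 ≤ -h := by omega
        have b1 : -h ≤ D.t D.k * (-h) := by nlinarith
        have b2 : x + (y - D.k * x) ≤ y - m * x := by nlinarith
        have b3 : -h ≤ y - m * x - 1 := by omega
        have b4 : D.t m * (-h) ≤ D.M * (-h) := by nlinarith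
        have b5 : D.M * (-h) ≤ D.M * (y - m * x - 1) := by nlinarith
        nlinarith

lemma sector {X Y : ℤ} (hX : 0 < X) (h1 : X ≤ Y) (h2 : Y ≤ D.k * X) :
    ∃ j : ℕ, ∃ b : ℤ, 1 ≤ j ∧ j ≤ D.k ∧ Y = j * X + b ∧ 0 ≤ b ∧ b < X ∧ (b = 0 ∨ j < D.k) := by
  have q1 : 1 ≤ Y / X := by rw [Int.le_ediv_iff_mul_le hX]; linarith
  have q2 : Y / X ≤ D.k := by
    apply Int.ediv_le_of_le_mul hX h2
  have e := Int.mul_ediv_add_emod Y X
  have r0 := Int.emod_nonneg Y hX.ne'
  have r1 := Int.emod_lt_of_pos Y hX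
  obtain ⟨j, hj⟩ := Int.eq_ofNat_of_zero_le (by omega : 0 ≤ Y / X)
  rw [hj] at q1 q2 e
  refine ⟨j, Y % X, by exact_mod_cast q1, by exact_mod_cast q2, by linarith, r0, r1, ?_⟩
  by_contra hc
  push Not at hc
  have : j = D.k := le_antisymm (by exact_mod_cast q2) hc.2
  rw [this] at e
  have : 0 < Y % X := lt_of_le_of_ne r0 (Ne.symm hc.1)
  nlinarith

lemma caseC {X Y h : ℤ} (hX : 0 < X) (h1 : X ≤ Y) (h2 : Y ≤ D.k * X) (hh : 1 ≤ h) :
    ∃ x' y' h', Good D x' y' h' ∧ InP D (-X) (-Y) h x' y' h' := by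
  have M2 := M2 (D := D)
  obtain ⟨j, b, j1, j2, e, b0, b1, hb⟩ := sector hX h1 h2
  rcases b0.eq_or_lt with h0 | h0
  · subst h0
    rcases le_or_gt (D.t j) X with ht | ht
    · refine ⟨_, _, _, good_z j1 j2, ?_⟩
      have := inP_z j1 j2 (X := X) (s := 0) hh (by simpa using ht) le_rfl
      simpa [e] using this
    · refine ⟨_, _, _, ?_, InP.self _ _ _⟩
      intro c1 c2 c3 hc
      have a := hc.2.2 j j1 j2
      have c1p := hc.1
      have c2p := hc.2.1
      have c3p : 0 < c3 := by have := hc.c3'; linarith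
      have ht' : (X : ℝ) ≤ D.t j := by exact_mod_cast ht.le
      have hh' : (1 : ℝ) ≤ h := by exact_mod_cast hh
      have p : 0 < c1 + j * c2 := by positivity
      rw [e]; push_cast
      nlinarith [mul_le_mul_of_nonneg_right ht' p.le]
  · have jk : j + 1 ≤ D.k := by omega
    rcases le_or_gt (D.t (j + 1)) b with ht | ht
    · refine ⟨_, _, _, good_z (by omega) jk, ?_⟩
      have := inP_z (j := j + 1) (by omega) jk (X := X) (s := X - b) hh (by linarith) (by linarith)
      convert this using 1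
      rw [e]; push_cast; ring
    · refine ⟨_, _, _, good_mu (j := j + 1) (by omega) jk, ?_⟩
      refine ⟨fun m m1 m2 => ⟨?_, ?_⟩, Or.inl (by norm_num)⟩
      · rcases le_or_gt m j with hm | hm
        · right
          have : (m : ℤ) ≤ j := by exact_mod_cast hm
          simp only [Ar, e]; push_cast; nlinarith
        · left
          have : (j : ℤ) + 1 ≤ m := by exact_mod_cast hm
          simp only [Ar]; push_cast; nlinarith
      · have tm := D.t1 m m1 m2
        have tM := D.tM m m1 m2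
        have tM' := D.tM (j + 1) (by omega) jk
        rcases le_or_gt m j with hm | hm
        · left
          have : (m : ℤ) ≤ j := by exact_mod_cast hm
          simp only [Br]; push_cast; nlinarith
        · right
          have : (j : ℤ) + 1 ≤ m := by exact_mod_cast hm
          simp only [Br, e]; push_cast
          have e3 : 0 ≤ D.t m * (h - 1) := by nlinarith
          have p1 : 0 ≤ (m - j - 1 : ℤ) * (X - 1) := by nlinarith
          have p2 : 0 ≤ D.M * ((m - j - 1 : ℤ) * (X - 1)) := by nlinarith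
          have p3 : (D.M - 1) * 1 ≤ (D.M - 1) * (X - b) := by nlinarith
          nlinarith

lemma caseD {X Y h : ℤ} (hX : 0 < X) (h1 : X ≤ Y) (h2 : Y ≤ D.k * X) (hh : h < 0)
    {c1 c2 c3 : ℝ} (hc : InU D c1 c2 c3) (hz : 0 ≤ c1 * X + c2 * Y + c3 * h) :
    ∃ x' y' h', Good D x' y' h' ∧ InP D X Y h x' y' h' := by
  have M2 := M2 (D := D)
  obtain ⟨j, b, j1, j2, e, b0, b1, -⟩ := sector hX h1 h2
  have r := R1 hc j1 j2 (x := X) (s := b) (H := -h) hX.le b0 (by omega)
    (by rw [← e]; push_cast; linarith)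
  have tj := D.t1 j j1 j2
  refine ⟨_, _, _, good_nu j, fun m m1 m2 => ⟨?_, ?_⟩, Or.inl (by norm_num)⟩
  · rcases le_or_gt m j with hm | hm
    · left
      have : (m : ℤ) ≤ j := by exact_mod_cast hm
      simp only [Ar]; nlinarith
    · right
      have : (j : ℤ) + 1 ≤ m := by exact_mod_cast hm
      simp only [Ar, e]; nlinarith
  · have tm := D.t1 m m1 m2
    have tM := D.tM m m1 m2
    rcases lt_trichotomy m j with hm | hm | hm
    · right
      have : (m : ℤ) + 1 ≤ j := by exact_mod_cast hm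
      simp only [Br, e]
      have q1 : -h ≤ D.t j * (-h) := by nlinarith
      have q2 : -h ≤ X - 1 + b := by omega
      have q3 : X - 1 ≤ (j - m : ℤ) * (X - 1) := by nlinarith
      have q4 : D.t m * (-h) ≤ D.M * (-h) := by nlinarith
      have q5 : D.M * (-h) ≤ D.M * ((j - m : ℤ) * (X - 1) + b) := by nlinarith
      nlinarith
    · right; subst hm; simp only [Br, e]; nlinarith
    · left
      have : (j : ℤ) + 1 ≤ m := by exact_mod_cast hm
      simp only [Br]; nlinarith

theorem lemA {x y h : ℤ} (hne : ¬ (x = 0 ∧ y = 0 ∧ h = 0))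
    {c1 c2 c3 : ℝ} (hc : InU D c1 c2 c3) (hz : 0 ≤ c1 * x + c2 * y + c3 * h) :
    ∃ x' y' h', Good D x' y' h' ∧ InP D x y h x' y' h' := by
  by_cases hA : ∀ m : ℕ, 1 ≤ m → m ≤ D.k → 1 ≤ Ar m x y
  · exact ⟨_, _, _, good_y0, caseA hA⟩
  by_cases hB : ∀ m : ℕ, 1 ≤ m → m ≤ D.k → Ar m x y ≤ -1
  · exact caseB hB hc hz
  push Not at hA hB
  obtain ⟨m, m1, m2, hm⟩ := hA
  obtain ⟨l, l1, l2, hl⟩ := hB
  simp only [Ar] at hm hl
  have m1' : (1 : ℤ) ≤ m := by exact_mod_cast m1
  have m2' : (m : ℤ) ≤ D.k := by exact_mod_cast m2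
  have l1' : (1 : ℤ) ≤ l := by exact_mod_cast l1
  have l2' : (l : ℤ) ≤ D.k := by exact_mod_cast l2
  have c1p := hc.1
  have c2p := hc.2.1
  have c3p : 0 < c3 := by have := hc.c3'; linarith
  rcases lt_trichotomy x 0 with hx | hx | hx
  · have h1 : -x ≤ -y := by nlinarith
    have h2 : -y ≤ D.k * -x := by nlinarith
    rcases le_or_gt 1 h with hh | hh
    · have := caseC (D := D) (X := -x) (Y := -y) (by omega) h1 h2 hh
      simpa using this
    · exfalso
      have : (x : ℝ) < 0 := by exact_mod_cast hx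
      have : (y : ℝ) < 0 := by exact_mod_cast (by omega : y < 0)
      have : (h : ℝ) ≤ 0 := by exact_mod_cast (by omega : h ≤ 0)
      nlinarith [mul_neg_of_pos_of_neg c1p ‹(x : ℝ) < 0›, mul_neg_of_pos_of_neg c2p ‹(y : ℝ) < 0›,
        mul_nonpos_of_nonneg_of_nonpos c3p.le ‹(h : ℝ) ≤ 0›]
  · subst hx
    have hy : y = 0 := by omega
    subst hy
    have h0 : h ≠ 0 := by simpa using hne
    have : 0 < h := by
      have : (0 : ℝ) ≤ c3 * h := by simpa using hz
      have : (0 : ℝ) ≤ h := (mul_nonneg_iff_of_pos_left c3p).1 this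
      have : 0 ≤ h := by exact_mod_cast this
      omega
    refine ⟨_, _, _, ?_, InP.self _ _ _⟩
    intro d1 d2 d3 hd
    have d3p : 0 < d3 := by have := hd.c3'; have := hd.1; have := hd.2.1; linarith
    have : (0 : ℝ) < h := by exact_mod_cast this
    simp; positivity
  · have h1 : x ≤ y := by nlinarith
    have h2 : y ≤ D.k * x := by nlinarith
    rcases le_or_gt 0 h with hh | hh
    · refine ⟨_, _, _, ?_, InP.self _ _ _⟩
      intro d1 d2 d3 hd
      have d1p := hd.1
      have d2p := hd.2.1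
      have d3p : 0 < d3 := by have := hd.c3'; linarith
      have : (0 : ℝ) < x := by exact_mod_cast hx
      have : (0 : ℝ) < y := by exact_mod_cast (by omega : 0 < y)
      have : (0 : ℝ) ≤ h := by exact_mod_cast hh
      positivity
    · exact caseD hx h1 h2 hh hc hz

end H58GF
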