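import Mathlib

/-! Initial ideals of lattice ideals; weighted monomial orders; facets. -/

set_option autoImplicit false

open MvPolynomial

namespace H58GF

universe u

variable {n : ℕ}

noncomputable def pos (u : Fin n → ℤ) : Fin n →₀ ℕ :=
  Finsupp.equivFunOnFinite.symm (fun i => (u i).toNat)

noncomputable def binom (u : Fin n → ℤ) : MvPolynomial (Fin n) ℚ :=
  monomial (pos u) (1 : ℚ) - monomial (pos (-u)) (1 : ℚ)

noncomputable def LI (L : Submodule ℤ (Fin n → ℤ)) : Ideal (MvPolynomial (Fin n) ℚ) :=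
  Ideal.span {p | ∃ u ∈ L, p = binom u}

def wt (w : Fin n → ℝ) (m : Fin n →₀ ℕ) : ℝ := ∑ i, w i * ((m i : ℕ) : ℝ)

def dot (w : Fin n → ℝ) (u : Fin n → ℤ) : ℝ := ∑ i, w i * (u i : ℝ)

open Classical in
noncomputable def inw (w : Fin n → ℝ) (f : MvPolynomial (Fin n) ℚ) : MvPolynomial (Fin n) ℚ :=
  ∑ m ∈ (support f).filter (fun m => ∀ m' ∈ support f, wt w m' ≤ wt w m), monomial m (coeff m f)

noncomputable def InW (I : Ideal (MvPolynomial (Fin n) ℚ)) (w : Fin n → ℝ) :
    Ideal (MvPolynomial (Fin n) ℚ) := Ideal.span {g | ∃ f ∈ I, g = inw w f}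

noncomputable def InO (I : Ideal (MvPolynomial (Fin n) ℚ)) (ord : MonomialOrder.{0, u} (Fin n)) :
    Ideal (MvPolynomial (Fin n) ℚ) :=
  Ideal.span {g | ∃ f ∈ I, f ≠ 0 ∧ g = monomial (ord.degree f) (1 : ℚ)}

noncomputable def M0 (G : Set (Fin n → ℤ)) : Ideal (MvPolynomial (Fin n) ℚ) :=
  Ideal.span ((fun s => monomial s (1 : ℚ)) '' (pos '' G))

@[simp] lemma pos_apply (u : Fin n → ℤ) (i : Fin n) : pos u i = (u i).toNat := rfl

lemma wt_pos_sub (w : Fin n → ℝ) (u : Fin n → ℤ) : wt w (pos u) - wt w (pos (-u)) = dot w u := by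
  simp only [wt, dot, ← Finset.sum_sub_distrib, pos_apply]
  refine Finset.sum_congr rfl fun i _ => ?_
  have := Int.toNat_sub_toNat_neg (u i)
  have h : (((u i).toNat : ℕ) : ℝ) - (((-u i).toNat : ℕ) : ℝ) = (u i : ℝ) := by exact_mod_cast this
  rw [← h]; simp only [Pi.neg_apply]; ring

lemma fiber {L : Submodule ℤ (Fin n → ℤ)} {f : MvPolynomial (Fin n) ℚ} (hf : f ∈ LI L)
    {m : Fin n →₀ ℕ} (hm : m ∈ f.support) :
    ∃ m' ∈ f.support, m' ≠ m ∧ (fun i => (m i : ℤ) - m' i) ∈ L := by
  classical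
  let π : (Fin n →₀ ℕ) →+ ((Fin n → ℤ) ⧸ L) :=
    { toFun := fun m => L.mkQ (fun i => (m i : ℤ))
      map_zero' := by
        have : (fun i => ((0 : Fin n →₀ ℕ) i : ℤ)) = 0 := by ext i; simp
        rw [this, map_zero]
      map_add' := fun a b => by
        rw [← map_add]; congr 1 }
  have hπ : ∀ a b, π a = π b ↔ (fun i => (a i : ℤ) - b i) ∈ L := by
    intro a b
    exact Submodule.Quotient.eq L
  let ψ : MvPolynomial (Fin n) ℚ →+* AddMonoidAlgebra ℚ ((Fin n → ℤ) ⧸ L) :=
    AddMonoidAlgebra.mapDomainRingHom ℚ π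
  have hψ : ∀ a c, ψ (monomial a c) = AddMonoidAlgebra.single (π a) c := by
    intro a c
    exact AddMonoidAlgebra.mapDomain_single
  have hker : LI L ≤ RingHom.ker ψ := by
    refine Ideal.span_le.2 ?_
    rintro p ⟨u, hu, rfl⟩
    simp only [SetLike.mem_coe, RingHom.mem_ker, binom, map_sub, hψ]
    have : π (pos u) = π (pos (-u)) := by
      rw [hπ]
      convert hu using 1
      ext i
      exact Int.toNat_sub_toNat_neg (u i)
    rw [this, sub_self]
  have h0 : ψ f = 0 := hker hf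
  by_contra hc
  push Not at hc
  rw [f.as_sum, map_sum] at h0
  simp only [hψ] at h0
  have h1 := congrArg (fun q => q.coeff (π m)) h0
  simp only [AddMonoidAlgebra.coeff_sum, AddMonoidAlgebra.coeff_single, Finsupp.finsetSum_apply,
    AddMonoidAlgebra.coeff_zero, Finsupp.zero_apply] at h1
  rw [Finset.sum_eq_single m] at h1
  · simp only [Finsupp.single_eq_same] at h1
    exact (mem_support_iff.1 hm) h1
  · intro b hb hne
    rw [Finsupp.single_apply, if_neg]
    intro he
    exact hc b hb hne ((hπ m b).1 he.symm)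
  · intro h; exact absurd hm h

lemma supp_binom {a b m : Fin n →₀ ℕ}
    (hm : m ∈ (monomial a (1 : ℚ) - monomial b (1 : ℚ) : MvPolynomial (Fin n) ℚ).support) :
    m = a ∨ m = b := by
  classical
  rw [mem_support_iff] at hm
  by_contra hc
  push Not at hc
  simp [coeff_monomial, Ne.symm hc.1, Ne.symm hc.2] at hm

lemma coeff_binom {a b : Fin n →₀ ℕ} (h : a ≠ b) :
    coeff a (monomial a (1 : ℚ) - monomial b (1 : ℚ) : MvPolynomial (Fin n) ℚ) = 1 := by
  classical
  simp [coeff_monomial, Ne.symm h]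

lemma inw_binom {w : Fin n → ℝ} {u : Fin n → ℤ} (h : 0 < dot w u) :
    inw w (binom u) = monomial (pos u) 1 := by
  classical
  have hlt : wt w (pos (-u)) < wt w (pos u) := by have := wt_pos_sub w u; linarith
  have hne : pos u ≠ pos (-u) := by intro e; rw [e] at hlt; exact lt_irrefl _ hlt
  have hc := coeff_binom hne
  have hs : pos u ∈ (binom u).support := by rw [mem_support_iff, binom, hc]; exact one_ne_zero
  unfold inw
  rw [Finset.sum_eq_single (pos u)]
  · rw [binom, hc]
  · intro b hb hne'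
    exfalso
    rw [Finset.mem_filter] at hb
    rcases supp_binom hb.1 with e | e
    · exact hne' e
    · have := hb.2 _ hs
      rw [e] at this
      linarith
  · intro h'
    exfalso
    apply h'
    rw [Finset.mem_filter]
    refine ⟨hs, fun m' hm' => ?_⟩
    rcases supp_binom hm' with e | e <;> rw [e]
    exact hlt.le

lemma binom_mem {L : Submodule ℤ (Fin n → ℤ)} {u : Fin n → ℤ} (hu : u ∈ L) : binom u ∈ LI L :=
  Ideal.subset_span ⟨u, hu, rfl⟩

lemma mono_mem_M0 {G : Set (Fin n → ℤ)} {m : Fin n →₀ ℕ} (c : ℚ) {g : Fin n → ℤ} (hg : g ∈ G)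
    (h : pos g ≤ m) : monomial m c ∈ M0 G := by
  classical
  rw [M0, mem_ideal_span_monomial_image]
  intro x hx
  have : x = m := by simpa using support_monomial_subset hx
  exact ⟨_, ⟨g, hg, rfl⟩, this ▸ h⟩

/-- the reduction property -/
def Red (L : Submodule ℤ (Fin n → ℤ)) (G : Set (Fin n → ℤ)) (w : Fin n → ℝ) : Prop :=
  (∀ g ∈ G, g ∈ L ∧ 0 < dot w g) ∧
  ∀ u ∈ L, u ≠ 0 → 0 ≤ dot w u → ∃ g ∈ G, ∀ i, g i ≤ 0 ∨ g i ≤ u i

lemma Red.mono {L : Submodule ℤ (Fin n → ℤ)} {G : Set (Fin n → ℤ)} {w : Fin n → ℝ}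
    (h : Red L G w) {f : MvPolynomial (Fin n) ℚ} (hf : f ∈ LI L) {m : Fin n →₀ ℕ}
    (hm : m ∈ f.support) (hmax : ∀ m' ∈ f.support, wt w m' ≤ wt w m) (c : ℚ) :
    monomial m c ∈ M0 G := by
  obtain ⟨m', hm', hne, hL⟩ := fiber hf hm
  obtain ⟨g, hg, hle⟩ := h.2 _ hL (by
    intro e
    apply hne
    ext i
    have := congrFun e i
    simp only [Pi.zero_apply] at this
    omega) (by
    have := hmax m' hm'
    simp only [wt, dot] at this ⊢
    push_cast
    simp only [mul_sub, Finset.sum_sub_distrib]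
    linarith)
  refine mono_mem_M0 c hg fun i => ?_
  have := hle i
  simp only [pos_apply]
  omega

lemma Red.inW {L : Submodule ℤ (Fin n → ℤ)} {G : Set (Fin n → ℤ)} {w : Fin n → ℝ}
    (h : Red L G w) : InW (LI L) w = M0 G := by
  classical
  apply le_antisymm
  · refine Ideal.span_le.2 ?_
    rintro _ ⟨f, hf, rfl⟩
    refine Ideal.sum_mem _ fun m hm => ?_
    rw [Finset.mem_filter] at hm
    exact h.mono hf hm.1 hm.2 _
  · refine Ideal.span_le.2 ?_
    rintro _ ⟨_, ⟨g, hg, rfl⟩, rfl⟩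
    exact Ideal.subset_span ⟨_, binom_mem (h.1 g hg).1, (inw_binom (h.1 g hg).2).symm⟩

lemma Red.inO {L : Submodule ℤ (Fin n → ℤ)} {G : Set (Fin n → ℤ)} {w : Fin n → ℝ}
    (h : Red L G w) (ord : MonomialOrder.{0, u} (Fin n))
    (ho : ∀ a b, wt w a < wt w b → ord.toSyn a < ord.toSyn b) : InO (LI L) ord = M0 G := by
  classical
  apply le_antisymm
  · refine Ideal.span_le.2 ?_
    rintro _ ⟨f, hf, hf0, rfl⟩
    refine h.mono hf (ord.degree_mem_support hf0) (fun m' hm' => ?_) _
    by_contra hc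
    exact absurd (ord.le_degree hm') (not_le.2 (ho _ _ (not_le.1 hc)))
  · refine Ideal.span_le.2 ?_
    rintro _ ⟨_, ⟨g, hg, rfl⟩, rfl⟩
    have hlt : wt w (pos (-g)) < wt w (pos g) := by
      have := wt_pos_sub w g; have := (h.1 g hg).2; linarith
    have hne : pos g ≠ pos (-g) := by intro e; rw [e] at hlt; exact lt_irrefl _ hlt
    have hs : pos g ∈ (binom g).support := by
      rw [mem_support_iff, binom, coeff_binom hne]; exact one_ne_zero
    have h0 : binom g ≠ 0 := by intro e; rw [e] at hs; simp at hs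
    refine Ideal.subset_span ⟨_, binom_mem (h.1 g hg).1, h0, ?_⟩
    rcases supp_binom (ord.degree_mem_support h0) with e | e
    · rw [binom, e]
    · exfalso
      have := ord.le_degree hs
      rw [binom, e] at this
      exact absurd this (not_le.2 (ho _ _ hlt))

lemma half {L : Submodule ℤ (Fin n → ℤ)} {G : Set (Fin n → ℤ)} {w : Fin n → ℝ}
    (h : InW (LI L) w = M0 G) {u : Fin n → ℤ} (hu : u ∈ L)
    (hs : ∀ g ∈ G, ∃ i, 0 < g i ∧ -u i < g i) : 0 ≤ dot w u := by
  classical
  by_contra hc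
  have h1 : 0 < dot w (-u) := by
    have : dot w (-u) = - dot w u := by simp [dot]
    rw [this]; linarith
  have h2 : monomial (pos (-u)) (1 : ℚ) ∈ M0 G := by
    rw [← h]
    exact Ideal.subset_span ⟨_, binom_mem (L.neg_mem hu), (inw_binom h1).symm⟩
  rw [M0, mem_ideal_span_monomial_image] at h2
  obtain ⟨_, ⟨g, hg, rfl⟩, hle⟩ := h2 (pos (-u)) (by simp [support_monomial])
  obtain ⟨i, h1, h2⟩ := hs g hg
  have := hle i
  simp only [pos_apply, Pi.neg_apply] at this
  omega

/-- carrier of the weighted order -/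
def WS (_w : Fin n → ℕ) : Type u := ULift.{u} (Fin n →₀ ℕ)

noncomputable instance (w : Fin n → ℕ) : AddCommMonoid (WS.{u} w) :=
  inferInstanceAs (AddCommMonoid (ULift.{u} (Fin n →₀ ℕ)))

def key (w : Fin n → ℕ) (a : WS.{u} w) : ℕ ×ₗ Lex (Fin n →₀ ℕ) :=
  toLex (∑ i, w i * (ULift.down a) i, toLex (ULift.down a))

lemma key_inj (w : Fin n → ℕ) : Function.Injective (key.{u} w) := by
  intro a b h
  have := congrArg (fun p => (ofLex p).2) h
  exact ULift.ext _ _ (toLex.injective this)

lemma key_add (w : Fin n → ℕ) (a b : WS.{u} w) : key w (a + b) = key w a + key w b := by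
  change toLex (∑ i, w i * (ULift.down a + ULift.down b) i, toLex (ULift.down a + ULift.down b)) = _
  simp only [Finsupp.add_apply, mul_add, Finset.sum_add_distrib]
  rfl

noncomputable instance (w : Fin n → ℕ) : LinearOrder (WS.{u} w) :=
  LinearOrder.lift' (key w) (key_inj w)

lemma le_def (w : Fin n → ℕ) (a b : WS.{u} w) : a ≤ b ↔ key w a ≤ key w b := Iff.rfl
lemma lt_def (w : Fin n → ℕ) (a b : WS.{u} w) : a < b ↔ key w a < key w b := Iff.rfl

noncomputable def wOrd (w : Fin n → ℕ) : MonomialOrder.{0, u} (Fin n) where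
  syn := WS.{u} w
  isOrderedAddMonoid_syn := ⟨fun a b h c => by
    rw [le_def] at h ⊢
    rw [key_add, key_add]
    exact add_le_add_left h _, fun a b h c => by
    rw [le_def] at h ⊢
    rw [key_add, key_add]
    exact add_le_add_right h _⟩
  toSyn :=
    { toFun := fun a => ULift.up a
      invFun := fun a => ULift.down a
      left_inv := fun _ => rfl
      right_inv := fun _ => rfl
      map_add' := fun _ _ => rfl }
  toSyn_monotone := fun a b h => by
    rw [le_def]
    change toLex (∑ i, w i * a i, toLex a) ≤ toLex (∑ i, w i * b i, toLex b)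
    rw [Prod.Lex.toLex_le_toLex]
    have h1 : ∑ i, w i * a i ≤ ∑ i, w i * b i :=
      Finset.sum_le_sum fun i _ => Nat.mul_le_mul_left _ (h i)
    rcases h1.eq_or_lt with e | e
    · exact Or.inr ⟨e, Finsupp.toLex_monotone h⟩
    · exact Or.inl e
  wellFoundedLT_syn := ⟨InvImage.wf (key w) wellFounded_lt⟩

lemma wOrd_lt (w : Fin n → ℕ) (a b : Fin n →₀ ℕ)
    (h : wt (fun i => (w i : ℝ)) a < wt (fun i => (w i : ℝ)) b) :
    (wOrd.{u} w).toSyn a < (wOrd.{u} w).toSyn b := by
  refine (lt_def w _ _).2 ?_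
  change toLex (∑ i, w i * a i, toLex a) < toLex (∑ i, w i * b i, toLex b)
  rw [Prod.Lex.toLex_lt_toLex]
  left
  simp only [wt] at h
  exact_mod_cast h

lemma facet_dim {ι : Type} [Fintype ι] (l : ι → (Fin n → ℝ) →ₗ[ℝ] ℝ) (C : Set (Fin n → ℝ))
    (hC : IsClosed C) (hU : ∀ w, (∀ i, 0 < l i w) → w ∈ C) (w0 : Fin n → ℝ) (h0 : ∀ i, 0 < l i w0)
    (j : ι) (wj : Fin n → ℝ) (hj : l j wj = 0) (hj' : ∀ i, i ≠ j → 0 < l i wj) :
    wj ∈ C ∧ Module.finrank ℝ (Submodule.span ℝ {w | w ∈ C ∧ l j w = 0}) + 1 =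
      Module.finrank ℝ (Submodule.span ℝ C) := by
  have cont : ∀ i, Continuous (l i) := fun i => (l i).continuous_of_finiteDimensional
  have A : ∀ w, (∀ i, 0 ≤ l i w) → w ∈ C := by
    intro w hw
    have ht : Filter.Tendsto (fun e : ℝ => w + e • w0) (nhdsWithin 0 (Set.Ioi 0)) (nhds w) := by
      have : Continuous (fun e : ℝ => w + e • w0) := by fun_prop
      have := this.tendsto 0
      simp only [zero_smul, add_zero] at this
      exact this.mono_left nhdsWithin_le_nhds
    refine hC.mem_of_tendsto ht ?_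
    filter_upwards [self_mem_nhdsWithin] with e he
    refine hU _ fun i => ?_
    rw [map_add, map_smul, smul_eq_mul]
    have := mul_pos (show (0 : ℝ) < e from he) (h0 i)
    have := hw i
    linarith
  have B : ∀ (p v : Fin n → ℝ) (s : Set ι), (∀ i ∈ s, 0 < l i p) →
      ∃ e : ℝ, 0 < e ∧ ∀ i ∈ s, 0 < l i (p + e • v) := by
    intro p v s hs
    have : ∀ᶠ e : ℝ in nhds 0, ∀ i, i ∈ s → 0 < l i (p + e • v) := by
      rw [Filter.eventually_all]
      intro i
      by_cases hi : i ∈ s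
      · have c : Continuous (fun e : ℝ => l i (p + e • v)) := (cont i).comp (by fun_prop)
        have := c.continuousAt (x := 0) |>.eventually (lt_mem_nhds (a := 0) (by simpa using hs i hi))
        filter_upwards [this] with e he _ using he
      · exact Filter.Eventually.of_forall fun e h => absurd h hi
    obtain ⟨e, he1, he2⟩ := ((this.filter_mono nhdsWithin_le_nhds).and
      (self_mem_nhdsWithin (s := Set.Ioi (0 : ℝ)))).exists
    exact ⟨e, he2, he1⟩
  have hwj : wj ∈ C := A wj fun i => by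
    by_cases h : i = j
    · rw [h, hj]
    · exact (hj' i h).le
  have S1 : Submodule.span ℝ C = ⊤ := by
    rw [eq_top_iff]
    intro v _
    obtain ⟨e, he, h⟩ := B w0 v Set.univ fun i _ => h0 i
    have a : w0 + e • v ∈ Submodule.span ℝ C := Submodule.subset_span (hU _ fun i => h i trivial)
    have b : w0 ∈ Submodule.span ℝ C := Submodule.subset_span (hU _ h0)
    have := Submodule.smul_mem _ e⁻¹ (Submodule.sub_mem _ a b)
    simpa [smul_smul, inv_mul_cancel₀ he.ne'] using this
  have S2 : Submodule.span ℝ {w | w ∈ C ∧ l j w = 0} = LinearMap.ker (l j) := by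
    apply le_antisymm
    · exact Submodule.span_le.2 fun w hw => hw.2
    · intro v hv
      obtain ⟨e, he, h⟩ := B wj v {i | i ≠ j} fun i hi => hj' i hi
      have z : l j (wj + e • v) = 0 := by
        rw [map_add, map_smul, hj, LinearMap.mem_ker.1 hv]; simp
      have a : wj + e • v ∈ Submodule.span ℝ {w | w ∈ C ∧ l j w = 0} :=
        Submodule.subset_span ⟨A _ fun i => by
          by_cases hi : i = j
          · rw [hi, z]
          · exact (h i hi).le, z⟩
      have b : wj ∈ Submodule.span ℝ {w | w ∈ C ∧ l j w = 0} := Submodule.subset_span ⟨hwj, hj⟩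
      have := Submodule.smul_mem _ e⁻¹ (Submodule.sub_mem _ a b)
      simpa [smul_smul, inv_mul_cancel₀ he.ne'] using this
  refine ⟨hwj, ?_⟩
  rw [S1, S2, finrank_top]
  have hne : l j ≠ 0 := by
    intro e
    have := h0 j
    rw [e] at this
    simp at this
  exact Module.Dual.finrank_ker_add_one_of_ne_zero hne

end H58GF
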