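import Pool.Agent.H58.GF1
import Pool.Agent.H58.GF2

/-! A rank three toric ideal with a Groebner chamber having many facets. -/

set_option autoImplicit false

open MvPolynomial

namespace H58GF

universe u

abbrev Ix (k : ℕ) := Option (Fin k ⊕ Fin k)
abbrev nn (k : ℕ) := Fintype.card (Ix k)
noncomputable def ee (k : ℕ) : Fin (nn k) ≃ Ix k := (Fintype.equivFin (Ix k)).symm

variable (D : Dat)

def Row : Ix D.k → ℤ → ℤ → ℤ → ℤ
  | none, _, _, h => -h
  | some (Sum.inl m), x, y, _ => Ar (m.val + 1) x y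
  | some (Sum.inr m), x, y, h => Br D (m.val + 1) x y h

noncomputable def Phi : (Fin 3 → ℤ) →ₗ[ℤ] (Fin (nn D.k) → ℤ) where
  toFun z i := Row D (ee D.k i) (z 0) (z 1) (z 2)
  map_add' a b := by
    ext i
    simp only [Pi.add_apply]
    rcases ee D.k i with _ | m | m <;> simp only [Row, Ar, Br] <;> ring
  map_smul' c a := by
    ext i
    simp only [Pi.smul_apply, smul_eq_mul, RingHom.id_apply]
    rcases ee D.k i with _ | m | m <;> simp only [Row, Ar, Br] <;> ring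

noncomputable def iS : Fin (nn D.k) := (ee D.k).symm none
noncomputable def iA (m : Fin D.k) : Fin (nn D.k) := (ee D.k).symm (some (Sum.inl m))
noncomputable def iB (m : Fin D.k) : Fin (nn D.k) := (ee D.k).symm (some (Sum.inr m))

variable {D}

lemma Phi_S (z : Fin 3 → ℤ) : Phi D z (iS D) = -z 2 := by simp [Phi, iS, Row]
lemma Phi_A (z : Fin 3 → ℤ) (m : Fin D.k) : Phi D z (iA D m) = Ar (m.val + 1) (z 0) (z 1) := by
  simp [Phi, iA, Row]
lemma Phi_B (z : Fin 3 → ℤ) (m : Fin D.k) :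
    Phi D z (iB D m) = Br D (m.val + 1) (z 0) (z 1) (z 2) := by simp [Phi, iB, Row]

def f0 : Fin D.k := ⟨0, by have := D.hk; omega⟩
def f1 : Fin D.k := ⟨1, by have := D.hk; omega⟩

lemma sat (v : Fin (nn D.k) → ℤ) (c : ℤ) (hc : c ≠ 0) (h : c • v ∈ LinearMap.range (Phi D)) :
    v ∈ LinearMap.range (Phi D) := by
  obtain ⟨z, hz⟩ := h
  have h1 := congrFun hz (iS D)
  have h2 := congrFun hz (iA D f0)
  have h3 := congrFun hz (iA D f1)
  rw [Phi_S] at h1
  rw [Phi_A] at h2 h3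
  simp only [Ar, f0, f1, Pi.smul_apply, smul_eq_mul] at h1 h2 h3
  push_cast at h2 h3
  let z' : Fin 3 → ℤ := ![v (iA D f1) - v (iA D f0), v (iA D f1) - 2 * v (iA D f0), -v (iS D)]
  have e : z = c • z' := by
    ext a
    fin_cases a <;> simp [z', f0, f1] <;> linarith
  refine ⟨z', ?_⟩
  rw [e, map_smul] at hz
  exact smul_right_injective _ hc hz

lemma pointed (z : Fin 3 → ℤ) (h : ∀ i, 0 ≤ Phi D z i) : z = 0 := by
  have h1 := h (iS D)
  have h2 := h (iA D f0)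
  have h3 := h (iA D f1)
  have h4 := h (iB D f0)
  have h5 := h (iB D f1)
  rw [Phi_S] at h1
  rw [Phi_A] at h2 h3
  rw [Phi_B] at h4 h5
  have k3 := D.hk
  have t1 := D.t1 1 le_rfl (by omega)
  have t2 := D.t1 2 (by omega) (by omega)
  have M2 := M2 (D := D)
  simp only [Ar, Br, f0, f1] at h2 h3 h4 h5
  push_cast at h2 h3 h4 h5
  norm_num at h4 h5
  have a1 : D.t 1 * z 2 ≤ 0 := by nlinarith
  have a2 : D.t 2 * z 2 ≤ 0 := by nlinarith
  have b1 : 0 ≤ z 0 := by nlinarith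
  have b2 : z 0 = 0 := by nlinarith
  have b3 : z 1 = 0 := by nlinarith
  have b4 : z 2 = 0 := by rw [b2, b3] at h4; nlinarith
  ext a
  fin_cases a <;> simp [b2, b3, b4]

lemma Phi_inj : Function.Injective (Phi D) := by
  rw [injective_iff_map_eq_zero]
  intro z hz
  exact pointed z fun i => by rw [hz]; rfl

noncomputable def lin {n : ℕ} (u : Fin n → ℤ) : (Fin n → ℝ) →ₗ[ℝ] ℝ where
  toFun w := dot w u
  map_add' a b := by simp [dot, add_mul, Finset.sum_add_distrib]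
  map_smul' c a := by simp [dot, Finset.mul_sum, mul_assoc]

lemma dot_Phi (w : Fin (nn D.k) → ℝ) (z : Fin 3 → ℤ) :
    dot w (Phi D z) = dot w (Phi D ![1, 0, 0]) * z 0 + dot w (Phi D ![0, 1, 0]) * z 1 +
      dot w (Phi D ![0, 0, 1]) * z 2 := by
  have e : z = z 0 • ![1, 0, 0] + z 1 • ![0, 1, 0] + z 2 • ![0, 0, 1] := by
    ext a; fin_cases a <;> simp
  conv_lhs => rw [e]
  simp only [map_add, map_smul, dot, Pi.add_apply, Pi.smul_apply, smul_eq_mul, Finset.sum_mul,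
    ← Finset.sum_add_distrib]
  refine Finset.sum_congr rfl fun i _ => ?_
  push_cast; ring

variable (D) in
def zz (j : Fin D.k) : Fin 3 → ℤ := ![-D.t (j.val + 1), -((j.val + 1 : ℕ) * D.t (j.val + 1)), 1]

variable (D) in
noncomputable def ll : Fin 2 ⊕ Fin D.k → (Fin (nn D.k) → ℝ) →ₗ[ℝ] ℝ
  | Sum.inl a => lin (Phi D (if a = 0 then ![1, 0, 0] else ![0, 1, 0]))
  | Sum.inr j => lin (Phi D (zz D j))

variable (D) in
def GG : Set (Fin (nn D.k) → ℤ) := {g | ∃ z : Fin 3 → ℤ, Good D (z 0) (z 1) (z 2) ∧ g = Phi D z}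

lemma inU_of {w : Fin (nn D.k) → ℝ} (h : ∀ i, 0 < ll D i w) :
    InU D (dot w (Phi D ![1, 0, 0])) (dot w (Phi D ![0, 1, 0])) (dot w (Phi D ![0, 0, 1])) := by
  refine ⟨by simpa [ll, lin] using h (Sum.inl 0), by simpa [ll, lin] using h (Sum.inl 1), ?_⟩
  intro m m1 m2
  have := h (Sum.inr ⟨m - 1, by omega⟩)
  change 0 < dot w (Phi D (zz D _)) at this
  rw [dot_Phi] at this
  simp only [zz, Nat.sub_add_cancel m1, Matrix.cons_val_zero, Matrix.cons_val_one,
    Matrix.cons_val_two, Matrix.tail_cons, Matrix.head_cons] at this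
  push_cast at this
  linarith

lemma red {w : Fin (nn D.k) → ℝ} (h : ∀ i, 0 < ll D i w) :
    Red (LinearMap.range (Phi D)) (GG D) w := by
  have hU := inU_of h
  constructor
  · rintro _ ⟨z, hz, rfl⟩
    exact ⟨⟨z, rfl⟩, by rw [dot_Phi]; exact hz _ _ _ hU⟩
  · rintro _ ⟨z, rfl⟩ hne hd
    rw [dot_Phi] at hd
    obtain ⟨x', y', h', hg, hP⟩ := lemA (x := z 0) (y := z 1) (h := z 2) (by
      rintro ⟨a, b, c⟩
      apply hne
      have : z = 0 := by ext i; fin_cases i <;> simp [a, b, c]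
      rw [this, map_zero]) hU hd
    refine ⟨Phi D ![x', y', h'], ⟨![x', y', h'], hg, rfl⟩, fun i => ?_⟩
    change Row D (ee D.k i) x' y' h' ≤ 0 ∨ Row D (ee D.k i) x' y' h' ≤ Row D (ee D.k i) _ _ _
    rcases ee D.k i with _ | m | m
    · exact hP.2
    · exact (hP.1 (m.val + 1) (by omega) m.2).1
    · exact (hP.1 (m.val + 1) (by omega) m.2).2

/-- convex position data -/
structure Cvx (D : Dat) where
  K : ℕ
  N : ℕ
  hK : D.k ^ 2 < K
  hN : ∀ m, 1 ≤ m → m ≤ D.k → D.t m * (K + m ^ 2) = N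

variable (E : Cvx D)

noncomputable def WW (j : Fin D.k) : Fin (nn D.k) → ℕ := fun i =>
  if i = iA D j then (((E.K : ℤ) + (j.val + 1) ^ 2) * D.M - 2 * (j.val + 1)).toNat
  else if i = iB D j then E.K + (j.val + 1) ^ 2 else 0

lemma alpha_pos (j : Fin D.k) : 0 < ((E.K : ℤ) + (j.val + 1) ^ 2) * D.M - 2 * (j.val + 1) := by
  have M2 := M2 (D := D)
  have : (0 : ℤ) < E.K := by have := E.hK; have : 0 < E.K := by omega
                             exact_mod_cast this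
  have : (0 : ℤ) ≤ j.val := by positivity
  nlinarith

lemma dot_WW (j : Fin D.k) (z : Fin 3 → ℤ) :
    dot (fun i => (WW E j i : ℝ)) (Phi D z) =
      (((E.K - (j.val + 1) ^ 2) * z 0 + 2 * (j.val + 1) * z 1 + E.N * z 2 : ℤ) : ℝ) := by
  have hne : iA D j ≠ iB D j := by simp [iA, iB]
  unfold dot
  rw [Finset.sum_eq_add (iA D j) (iB D j) hne]
  · simp only [WW, if_true, if_neg hne.symm, Phi_A, Phi_B]
    have h1 : ((((((E.K : ℤ) + (j.val + 1) ^ 2) * D.M - 2 * (j.val + 1)).toNat : ℕ) : ℤ)) = _ :=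
      Int.toNat_of_nonneg (alpha_pos E j).le
    have h2 := E.hN (j.val + 1) (by omega) j.2
    have : (((((E.K : ℤ) + (j.val + 1) ^ 2) * D.M - 2 * (j.val + 1)).toNat : ℕ) : ℤ) *
        Ar (j.val + 1) (z 0) (z 1) + ((E.K + (j.val + 1) ^ 2 : ℕ) : ℤ) *
        Br D (j.val + 1) (z 0) (z 1) (z 2) =
        (E.K - (j.val + 1) ^ 2) * z 0 + 2 * (j.val + 1) * z 1 + E.N * z 2 := by
      rw [h1, ← h2]; simp only [Ar, Br]; push_cast; ring
    exact_mod_cast this
  · intro c _ hc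
    simp [WW, hc.1, hc.2]
  · simp
  · simp

lemma ll_WW (j : Fin D.k) : ll D (Sum.inr j) (fun i => (WW E j i : ℝ)) = 0 ∧
    ∀ i, i ≠ Sum.inr j → 0 < ll D i (fun i => (WW E j i : ℝ)) := by
  have key : ∀ m : Fin D.k, ll D (Sum.inr m) (fun i => (WW E j i : ℝ)) =
      ((D.t (m.val + 1) * ((m.val : ℤ) - j.val) ^ 2 : ℤ) : ℝ) := by
    intro m
    change dot _ (Phi D (zz D m)) = _
    rw [dot_WW, ← E.hN (m.val + 1) (by omega) m.2]
    simp only [zz, Matrix.cons_val_zero, Matrix.cons_val_one,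
      Matrix.cons_val_two, Matrix.tail_cons, Matrix.head_cons]
    push_cast; ring
  refine ⟨by rw [key]; simp, ?_⟩
  rintro (a | m) hi
  · change 0 < dot _ (Phi D _)
    rw [dot_WW]
    have hK := E.hK
    have : (j.val + 1) ^ 2 ≤ D.k ^ 2 := Nat.pow_le_pow_left j.2 2
    have h3 : ((j.val : ℤ) + 1) ^ 2 < E.K := by exact_mod_cast lt_of_le_of_lt this hK
    split_ifs
    · refine Int.cast_pos.2 ?_
      simp; omega
    · norm_cast; simp
  · rw [key]
    have t1 := D.t1 (m.val + 1) (by omega) m.2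
    have : (m.val : ℤ) - j.val ≠ 0 := by
      intro e
      apply hi
      congr 1
      ext; omega
    have : 0 < D.t (m.val + 1) * ((m.val : ℤ) - j.val) ^ 2 := by positivity
    exact_mod_cast this

include E in
lemma standard (j : Fin D.k) (hj : 1 ≤ j.val) :
    ∀ g ∈ GG D, ∃ i, 0 < g i ∧ -(Phi D (zz D j)) i < g i := by
  rintro _ ⟨z, hz, rfl⟩
  have tj := D.t1 (j.val + 1) (by omega) j.2
  by_cases hA : 0 < Ar (j.val + 1) (z 0) (z 1)
  · refine ⟨iA D j, by rwa [Phi_A], ?_⟩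
    rw [Phi_A, Phi_A]
    have : Ar (j.val + 1) (zz D j 0) (zz D j 1) = 0 := by simp [Ar, zz]
    omega
  by_cases hB : 0 < Br D (j.val + 1) (z 0) (z 1) (z 2)
  · refine ⟨iB D j, by rwa [Phi_B], ?_⟩
    rw [Phi_B, Phi_B]
    have : Br D (j.val + 1) (zz D j 0) (zz D j 1) (zz D j 2) = 0 := by simp [Br, zz]
    omega
  have hK := E.hK
  have : (j.val + 1) ^ 2 ≤ D.k ^ 2 := Nat.pow_le_pow_left j.2 2
  have h3 : ((j.val : ℝ) + 1) ^ 2 < E.K := by exact_mod_cast lt_of_le_of_lt this hK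
  have hU : ∀ e : ℝ, 0 < e → InU D (E.K - (j.val + 1) ^ 2) (2 * (j.val + 1)) (E.N + e) := by
    intro e he
    refine ⟨by linarith, by positivity, fun m m1 m2 => ?_⟩
    have h1 : (D.t m : ℝ) * (E.K + m ^ 2) = E.N := by exact_mod_cast E.hN m m1 m2
    have h2 : (1 : ℝ) ≤ D.t m := by exact_mod_cast D.t1 m m1 m2
    nlinarith [mul_nonneg (by linarith : (0 : ℝ) ≤ D.t m) (sq_nonneg ((m : ℝ) - (j.val + 1)))]
  have ap := alpha_pos E j
  have h2 := E.hN (j.val + 1) (by omega) j.2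
  set s : ℤ := (E.K - (j.val + 1) ^ 2) * z 0 + 2 * (j.val + 1) * z 1 + E.N * z 2 with hs
  have es : s = (((E.K : ℤ) + (j.val + 1) ^ 2) * D.M - 2 * (j.val + 1)) * Ar (j.val + 1) (z 0) (z 1)
      + (E.K + (j.val + 1) ^ 2) * Br D (j.val + 1) (z 0) (z 1) (z 2) := by
    rw [hs, ← h2]; simp only [Ar, Br]; push_cast; ring
  have hpos : ∀ e : ℝ, 0 < e → 0 < (s : ℝ) + e * z 2 := by
    intro e he
    have := hz _ _ _ (hU e he)
    rw [hs]; push_cast; linarith
  have bp : (0 : ℤ) < E.K + (j.val + 1) ^ 2 := by positivity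
  have p1 := mul_nonpos_of_nonneg_of_nonpos ap.le (not_lt.1 hA)
  have p2 := mul_nonpos_of_nonneg_of_nonpos bp.le (not_lt.1 hB)
  have s0 : s ≤ 0 := by omega
  have z2 : 0 < z 2 := by
    have := hpos 1 one_pos
    have : 0 < s + z 2 := by exact_mod_cast (by simpa using this : (0 : ℝ) < s + z 2)
    omega
  have s1 : s = 0 := by
    by_contra hne
    have : (s : ℝ) ≤ -1 := by exact_mod_cast (by omega : s ≤ -1)
    have z2' : (0 : ℝ) < z 2 := by exact_mod_cast z2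
    have := hpos (1 / z 2) (by positivity)
    rw [one_div, inv_mul_cancel₀ z2'.ne'] at this
    linarith
  have a0 : Ar (j.val + 1) (z 0) (z 1) = 0 := by
    have : (((E.K : ℤ) + (j.val + 1) ^ 2) * D.M - 2 * (j.val + 1)) *
      Ar (j.val + 1) (z 0) (z 1) = 0 := by omega
    exact (mul_eq_zero.1 this).resolve_left ap.ne'
  have b0 : Br D (j.val + 1) (z 0) (z 1) (z 2) = 0 := by
    have : (E.K + (j.val + 1) ^ 2) * Br D (j.val + 1) (z 0) (z 1) (z 2) = 0 := by omega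
    exact (mul_eq_zero.1 this).resolve_left bp.ne'
  simp only [Ar, Br] at a0 b0
  have e1 : z 1 = (j.val + 1) * z 0 := by push_cast at a0; linarith
  have e0 : z 0 = -(D.t (j.val + 1) * z 2) := by rw [e1] at b0; push_cast at b0; linarith
  have jj : (1 : ℤ) ≤ j.val := by exact_mod_cast hj
  have q : 0 < D.t (j.val + 1) * z 2 := by positivity
  have r : 0 < Phi D z (iA D f0) := by
    rw [Phi_A]; simp only [Ar, f0]; rw [e1, e0]; push_cast; nlinarith
  refine ⟨iA D f0, r, lt_of_le_of_lt ?_ r⟩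
  rw [Phi_A]; simp [Ar, f0, zz]; nlinarith

theorem many (E : Cvx D) : ∃ ord : MonomialOrder.{0, u} (Fin (nn D.k)),
    ((D.k - 1 : ℕ) : ℕ∞) ≤ Set.encard {F : Set (Fin (nn D.k) → ℝ) | ∃ c : Fin (nn D.k) → ℝ,
      (∀ w ∈ closure {w | InW (LI (LinearMap.range (Phi D))) w =
          InO (LI (LinearMap.range (Phi D))) ord}, 0 ≤ ∑ i, c i * w i) ∧
      F = {w | w ∈ closure {w | InW (LI (LinearMap.range (Phi D))) w =
          InO (LI (LinearMap.range (Phi D))) ord} ∧ ∑ i, c i * w i = 0} ∧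
      Module.finrank ℝ (Submodule.span ℝ F) + 1 = Module.finrank ℝ (Submodule.span ℝ
        (closure {w | InW (LI (LinearMap.range (Phi D))) w =
          InO (LI (LinearMap.range (Phi D))) ord}))} := by
  let w0 : Fin (nn D.k) → ℕ := fun i => WW E f0 i + WW E f1 i
  have h0 : ∀ i, 0 < ll D i (fun i => (w0 i : ℝ)) := by
    intro i
    have e : (fun i => (w0 i : ℝ)) = (fun i => (WW E f0 i : ℝ)) + fun i => (WW E f1 i : ℝ) := by
      ext i; simp [w0]
    rw [e, map_add]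
    have a := ll_WW E f0
    have b := ll_WW E f1
    by_cases h1 : i = Sum.inr f0
    · rw [h1, a.1, zero_add]; exact b.2 _ (by simp [f0, f1])
    by_cases h2 : i = Sum.inr f1
    · rw [h2, b.1, add_zero]; exact a.2 _ (by simp [f0, f1])
    exact add_pos (a.2 _ h1) (b.2 _ h2)
  refine ⟨wOrd w0, ?_⟩
  rw [(red h0).inO _ (wOrd_lt w0)]
  set C := closure {w | InW (LI (LinearMap.range (Phi D))) w = M0 (GG D)} with hC
  have hU : ∀ w, (∀ i, 0 < ll D i w) → w ∈ C := fun w hw => subset_closure (red hw).inW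
  have fd := fun j : Fin D.k => facet_dim (ll D) C isClosed_closure hU _ h0 (Sum.inr j) _
    (ll_WW E j).1 (ll_WW E j).2
  let F : Fin D.k → Set (Fin (nn D.k) → ℝ) := fun j => {w | w ∈ C ∧ ll D (Sum.inr j) w = 0}
  have Finj : Function.Injective F := by
    intro a b hab
    have : (fun i => (WW E a i : ℝ)) ∈ F a := ⟨(fd a).1, (ll_WW E a).1⟩
    rw [hab] at this
    by_contra hne
    have h2 := (ll_WW E a).2 (Sum.inr b) (by simpa using Ne.symm hne)
    exact h2.ne' this.2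
  have card : ((Finset.univ.erase (f0 : Fin D.k) : Finset _) : Set (Fin D.k)).encard =
      ((D.k - 1 : ℕ) : ℕ∞) := by
    rw [Set.encard_coe_eq_coe_finsetCard]; simp
  rw [← card, ← Finj.encard_image]
  refine Set.encard_le_encard ?_
  rintro _ ⟨j, hj, rfl⟩
  have hj1 : 1 ≤ j.val := by
    have : j ≠ f0 := by simpa using hj
    by_contra h
    exact this (Fin.ext (by simp only [f0]; omega))
  have e : ∀ w : Fin (nn D.k) → ℝ, ∑ i, ((Phi D (zz D j) i : ℤ) : ℝ) * w i = ll D (Sum.inr j) w := by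
    intro w
    exact Finset.sum_congr rfl fun i _ => mul_comm _ _
  refine ⟨fun i => ((Phi D (zz D j) i : ℤ) : ℝ), ?_, ?_, (fd j).2⟩
  · intro w hw
    rw [e]
    refine closure_minimal (t := {w | 0 ≤ ll D (Sum.inr j) w}) ?_
      (isClosed_le continuous_const (ll D _).continuous_of_finiteDimensional) hw
    intro w hw
    exact half hw ⟨_, rfl⟩ (standard E j hj1)
  · simp only [e]; rfl

lemma exists_dat (k : ℕ) (hk : 3 ≤ k) : ∃ D : Dat, D.k = k ∧ Nonempty (Cvx D) := by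
  let N : ℕ := ∏ m ∈ Finset.range (k + 1), (k ^ 2 + 1 + m ^ 2)
  have Npos : 0 < N := Finset.prod_pos fun m _ => by positivity
  have hd : ∀ m, m ≤ k → (k ^ 2 + 1 + m ^ 2) ∣ N := fun m hm =>
    Finset.dvd_prod_of_mem _ (Finset.mem_range.2 (by omega))
  refine ⟨⟨k, fun m => ((N / (k ^ 2 + 1 + m ^ 2) : ℕ) : ℤ), N + 1, hk, fun m _ m2 => ?_,
    fun m _ _ => ?_⟩, rfl, ⟨⟨k ^ 2 + 1, N, Nat.lt_succ_self _, fun m _ m2 => ?_⟩⟩⟩
  · have := Nat.div_pos (Nat.le_of_dvd Npos (hd m m2)) (by positivity)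
    exact_mod_cast this
  · have := Nat.div_le_self N (k ^ 2 + 1 + m ^ 2)
    have : ((N / (k ^ 2 + 1 + m ^ 2) : ℕ) : ℤ) ≤ N := by exact_mod_cast this
    linarith
  · have := Nat.div_mul_cancel (hd m m2)
    change ((N / (k ^ 2 + 1 + m ^ 2) : ℕ) : ℤ) * (((k ^ 2 + 1 : ℕ) : ℤ) + m ^ 2) = N
    exact_mod_cast this

end H58GF
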