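import Pool.Agent.H58.HagDefs

set_option autoImplicit false

namespace Pool.Agent.H58.Hag

open MeasureTheory Set Pool.Agent.H58.HagDefs
open scoped Real

lemma cs_le {z : ℂ} (hz : |z.im| ≤ 1) {u : ℝ} (hu : 0 ≤ u) :
    ‖Complex.cos (z * u)‖ ≤ Real.exp u ∧ ‖Complex.sin (z * u)‖ ≤ Real.exp u := by
  have h1 : ‖Complex.exp (z * u * Complex.I)‖ ≤ Real.exp u := by
    rw [Complex.norm_exp]; apply Real.exp_le_exp.2; simp; nlinarith [abs_le.1 hz]
  have h2 : ‖Complex.exp (-(z * u) * Complex.I)‖ ≤ Real.exp u := by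
    rw [Complex.norm_exp]; apply Real.exp_le_exp.2; simp; nlinarith [abs_le.1 hz]
  constructor
  · rw [Complex.cos, norm_div, Complex.norm_ofNat]; linarith [norm_add_le
      (Complex.exp (z * u * Complex.I)) (Complex.exp (-(z * u) * Complex.I))]
  · rw [Complex.sin, norm_div, Complex.norm_ofNat, norm_mul, Complex.norm_I]; linarith [norm_sub_le
      (Complex.exp (-(z * u) * Complex.I)) (Complex.exp (z * u * Complex.I))]

def Bd (k : ℝ → ℝ) (U C : ℝ) : Prop :=
  ∀ u, U ≤ u → |k u| * Real.exp (3 / 2 * u) ≤ C * Real.exp (-2 * u)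

lemma u_le (u : ℝ) (hu : 0 ≤ u) : u * Real.exp u ≤ Real.exp (3 / 2 * u) := by
  have h := Real.add_one_le_exp (u / 4)
  have : Real.exp (3 / 2 * u) = Real.exp (u / 4) ^ 2 * Real.exp u := by
    rw [← Real.exp_nat_mul, ← Real.exp_add]; congr 1; push_cast; ring
  rw [this]
  have : u ≤ Real.exp (u / 4) ^ 2 := by nlinarith [sq_nonneg (u / 4 - 1)]
  gcongr

section
variable {k : ℝ → ℝ} {U C : ℝ} {z : ℂ}

lemma pt_le (hU : 0 ≤ U) (h : Bd k U C) (hz : |z.im| ≤ 1) {u : ℝ} (hu : u ∈ Ioi U) :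
    ‖Complex.cos (z * u) * (k u : ℝ)‖ ≤ C * Real.exp (-2 * u) ∧
    ‖-Complex.sin (z * u) * u * (k u : ℝ)‖ ≤ C * Real.exp (-2 * u) := by
  have hu0 : 0 ≤ u := hU.trans (le_of_lt hu)
  obtain ⟨h1, h2⟩ := cs_le hz hu0
  have h3 := h u (le_of_lt hu)
  have h4 := u_le u hu0
  have h5 : Real.exp u ≤ Real.exp (3 / 2 * u) := Real.exp_le_exp.2 (by linarith)
  simp only [norm_mul, norm_neg, Complex.norm_real, Real.norm_eq_abs, abs_of_nonneg hu0]
  constructor
  · nlinarith [abs_nonneg (k u)]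
  · refine le_trans ?_ h3
    rw [mul_comm]
    exact mul_le_mul_of_nonneg_left (by nlinarith) (abs_nonneg _)

lemma e_int (U C : ℝ) : IntegrableOn (fun u => C * Real.exp (-2 * u)) (Ioi U) :=
  (exp_neg_integrableOn_Ioi U two_pos).const_mul C

lemma T_int (hk : Continuous k) (hU : 0 ≤ U) (h : Bd k U C) (hz : |z.im| ≤ 1) :
    IntegrableOn (fun u : ℝ => Complex.cos (z * u) * (k u : ℝ)) (Ioi U) :=
  (e_int U C).mono' (Continuous.aestronglyMeasurable (by fun_prop))
    ((ae_restrict_mem measurableSet_Ioi).mono fun _ hu => (pt_le hU h hz hu).1)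

lemma T_bd (hU : 0 ≤ U) (hC : 0 ≤ C) (h : Bd k U C) (hz : |z.im| ≤ 1) :
    ‖∫ u in Ioi U, Complex.cos (z * u) * (k u : ℝ)‖ ≤ C / 2 := by
  refine (norm_integral_le_of_norm_le (e_int U C)
    ((ae_restrict_mem measurableSet_Ioi).mono fun _ hu => (pt_le hU h hz hu).1)).trans ?_
  rw [integral_const_mul, integral_exp_mul_Ioi (by norm_num)]
  have : Real.exp (-2 * U) ≤ 1 := Real.exp_le_one_iff.2 (by linarith)
  nlinarith

lemma T_diff (hk : Continuous k) (h : Bd k 0 C) (hz : |z.im| < 1) :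
    DifferentiableAt ℂ (fun z : ℂ => ∫ u in Ioi (0 : ℝ), Complex.cos (z * u) * (k u : ℝ)) z := by
  refine (hasDerivAt_integral_of_dominated_loc_of_deriv_le (s := {z : ℂ | |z.im| < 1})
    (μ := volume.restrict (Ioi 0)) (F := fun z (u : ℝ) => Complex.cos (z * u) * (k u : ℝ)) (F' := fun z (u : ℝ) => -Complex.sin (z * u) * u * (k u : ℝ))
    ((isOpen_lt (by fun_prop) continuous_const).mem_nhds hz)
    (.of_forall fun _ => Continuous.aestronglyMeasurable (by fun_prop)) (T_int hk le_rfl h hz.le)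
    (Continuous.aestronglyMeasurable (by fun_prop))
    ((ae_restrict_mem measurableSet_Ioi).mono fun _ hu w hw => (pt_le le_rfl h (le_of_lt hw) hu).2)
    (e_int 0 C) (.of_forall fun u w _ => ?_)).2.differentiableAt
  simpa using (((hasDerivAt_id w).mul_const (u : ℂ)).ccos).mul_const ((k u : ℝ) : ℂ)
end

noncomputable def ka (m : ℕ) (a u : ℝ) : ℝ :=
  (a * Real.exp (2 * u)) ^ m * Real.exp (-(a * Real.exp (2 * u))) * Real.exp (u / 2)

noncomputable def kk (a u : ℝ) : ℝ := 2 * ka 2 a u - 3 * ka 1 a u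

lemma ka_bd {m : ℕ} {a U C : ℝ} (hm : m ≤ 2) (ha : 1 ≤ a) (hU : 0 ≤ U)
    (h : ∀ y, a * Real.exp (2 * U) ≤ y → y ^ 4 * Real.exp (-y) ≤ C) : Bd (ka m a) U C := by
  intro u hu
  have h0 := h (a * Real.exp (2 * u)) (by gcongr)
  have h1 : 1 ≤ Real.exp (2 * u) := Real.one_le_exp (by linarith)
  have e1 : Real.exp (u / 2) * Real.exp (3 / 2 * u) = Real.exp (2 * u) := by
    rw [← Real.exp_add]; congr 1; ring
  have e2 : Real.exp (2 * u) * Real.exp (-2 * u) = 1 := by rw [← Real.exp_add]; simp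
  have h2 : Real.exp (2 * u) ≤ a * Real.exp (2 * u) := by nlinarith
  unfold ka
  generalize a * Real.exp (2 * u) = y at *
  have h3 : y ^ m ≤ y ^ 2 := pow_le_pow_right₀ (h1.trans h2) hm
  rw [abs_of_nonneg (by have := h1.trans h2; positivity), mul_assoc, e1]
  refine le_trans ?_ (mul_le_mul_of_nonneg_right h0 (Real.exp_pos _).le)
  calc _ ≤ y ^ 2 * Real.exp (-y) * y := by gcongr
    _ = y ^ 2 * Real.exp (-y) * y * (Real.exp (2 * u) * Real.exp (-2 * u)) := by rw [e2, mul_one]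
    _ ≤ y ^ 2 * Real.exp (-y) * y * (y * Real.exp (-2 * u)) := by have := h1.trans h2; gcongr
    _ = _ := by ring

lemma kk_bd {a U C : ℝ} (ha : 1 ≤ a) (hU : 0 ≤ U)
    (h : ∀ y, a * Real.exp (2 * U) ≤ y → y ^ 4 * Real.exp (-y) ≤ C) : Bd (kk a) U (5 * C) := by
  intro u hu
  have h1 := ka_bd (m := 1) (by norm_num) ha hU h u hu
  have h2 := ka_bd (m := 2) le_rfl ha hU h u hu
  have : |kk a u| ≤ 2 * |ka 2 a u| + 3 * |ka 1 a u| := by
    simpa [kk, abs_mul] using abs_sub (2 * ka 2 a u) (3 * ka 1 a u)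
  nlinarith [Real.exp_pos (3 / 2 * u)]

lemma b24 {a : ℝ} (ha : 1 ≤ a) (y : ℝ) (hy : a * Real.exp (2 * 0) ≤ y) :
    y ^ 4 * Real.exp (-y) ≤ 24 := by
  have := Real.pow_div_factorial_le_exp y (by simp at hy; linarith) 4
  rw [Real.exp_neg, ← div_eq_mul_inv, div_le_iff₀ (Real.exp_pos _)]
  norm_num [Nat.factorial] at this; linarith

lemma bR {R y : ℝ} (hR : 4 ≤ R) (hy : R ≤ y) : y ^ 4 * Real.exp (-y) ≤ R ^ 4 * Real.exp (-R) := by
  have h1 : y ≤ R * Real.exp ((y - R) / 4) := by nlinarith [Real.add_one_le_exp ((y - R) / 4)]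
  calc _ ≤ (R * Real.exp ((y - R) / 4)) ^ 4 * Real.exp (-y) := by gcongr; linarith
    _ = _ := by
      rw [mul_pow, mul_assoc, ← Real.exp_nat_mul, ← Real.exp_add]; congr 2; push_cast; ring

lemma ka_cont (m : ℕ) (a : ℝ) : Continuous (ka m a) := by unfold ka; fun_prop
lemma kk_cont (a : ℝ) : Continuous (kk a) := by unfold kk ka; fun_prop

lemma one_le_a {n : ℕ} (hn : 1 ≤ n) : 1 ≤ π * (n : ℝ) ^ 2 := by
  have : (1 : ℝ) ≤ n := by exact_mod_cast hn
  nlinarith [Real.pi_gt_three]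

lemma Phi_eq {n : ℕ} (hn : 1 ≤ n) {z : ℂ} (hz : |z.im| ≤ 1) :
    Phi n z = 4 * ∫ u in Ioi (0 : ℝ), Complex.cos (z * u) * (kk (π * n ^ 2) u : ℝ) := by
  have ha := one_le_a hn
  unfold Phi G
  generalize π * (n : ℝ) ^ 2 = a at *
  have i := fun m hm => T_int (ka_cont m a) le_rfl (ka_bd (m := m) hm ha le_rfl (b24 ha)) hz
  have e : ∀ u : ℝ, Complex.cos (z * u) * (kk a u : ℝ) = 2 * (Complex.cos (z * u) * (ka 2 a u : ℝ))
    - 3 * (Complex.cos (z * u) * (ka 1 a u : ℝ)) := fun u => by simp only [kk]; push_cast; ring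
  have e1 : ∀ (m : ℕ) (b : ℝ), 2 * b = 2 * m + 1 / 2 → ∀ u : ℝ,
      Complex.cos (z * u) * (ka m a u : ℝ) = a ^ m *
      (Complex.cos (2 * (z / 2) * u) * (Real.exp (2 * b * u - a * Real.exp (2 * u)) : ℝ)) := by
    intro m b hb u
    have : ka m a u = a ^ m * Real.exp (2 * b * u - a * Real.exp (2 * u)) := by
      rw [ka, mul_pow, ← Real.exp_nat_mul, mul_assoc, mul_assoc, ← Real.exp_add, ← Real.exp_add, hb]
      congr 2; ring
    rw [this, mul_div_cancel₀ _ two_ne_zero]; push_cast; ring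
  simp_rw [e]
  rw [integral_sub ((i 2 le_rfl).const_mul _) ((i 1 (by norm_num)).const_mul _), integral_const_mul,
    integral_const_mul]
  simp_rw [e1 2 (9 / 4) (by norm_num), e1 1 (5 / 4) (by norm_num), integral_const_mul]
  ring

lemma Xi_eq (N : ℕ) {z : ℂ} (hz : |z.im| ≤ 1) : Xi N z = ∑ n ∈ Finset.Icc 1 N,
    4 * ∫ u in Ioi (0 : ℝ), Complex.cos (z * u) * (kk (π * n ^ 2) u : ℝ) :=
  Finset.sum_congr rfl fun _ hn => Phi_eq (Finset.mem_Icc.1 hn).1 hz

lemma Xi_diff (N : ℕ) {z : ℂ} (hz : |z.im| < 1) : DifferentiableAt ℂ (Xi N) z := by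
  refine DifferentiableAt.congr_of_eventuallyEq (DifferentiableAt.fun_sum (u := Finset.Icc 1 N) fun n hn =>
    (T_diff (kk_cont _) (kk_bd (one_le_a (Finset.mem_Icc.1 hn).1) le_rfl
      (b24 (one_le_a (Finset.mem_Icc.1 hn).1))) hz).const_mul 4) ?_
  filter_upwards [(isOpen_lt (f := fun z : ℂ => |z.im|) (by fun_prop) continuous_const).mem_nhds hz]
    with w hw using Xi_eq N (le_of_lt hw)

lemma Xi_bd (N : ℕ) {z : ℂ} (hz : |z.im| ≤ 1) : ‖Xi N z‖ ≤ 240 * N := by
  rw [Xi_eq N hz]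
  refine (norm_sum_le _ _).trans ((Finset.sum_le_card_nsmul _ _ 240 fun n hn => ?_).trans
    (by simp [mul_comm]))
  have ha := one_le_a (Finset.mem_Icc.1 hn).1
  have := T_bd le_rfl (by norm_num) (kk_bd ha le_rfl (b24 ha)) hz
  rw [norm_mul, Complex.norm_ofNat]; linarith

lemma Xi_real (N : ℕ) (x : ℝ) : (Xi N x).im = 0 := by
  rw [Xi_eq N (by simp)]
  simp_rw [← Complex.ofReal_mul, ← Complex.ofReal_cos, ← Complex.ofReal_mul,
    integral_complex_ofReal]
  norm_cast

lemma psi_id (y : ℝ) (m : ℕ) :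
    ∑ j ∈ Finset.range (m + 2), (-1) ^ j * ((2 * j + 1) * j * (y ^ j / j.factorial)) =
    2 * y ^ 2 * ∑ i ∈ Finset.range m, (-y) ^ i / i.factorial -
      3 * y * ∑ i ∈ Finset.range (m + 1), (-y) ^ i / i.factorial := by
  induction m with
  | zero => norm_num [Finset.sum_range_succ]
  | succ m ih =>
    rw [Finset.sum_range_succ, ih, Finset.sum_range_succ _ (m + 1), Finset.sum_range_succ _ m,
      Nat.factorial_succ, Nat.factorial_succ, neg_pow y m, neg_pow y (m + 1)]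
    push_cast; field_simp; ring

lemma psi_err {y R : ℝ} {m : ℕ} (h0 : 0 ≤ y) (hy : y ≤ R) (hR : 1 ≤ R) (hm : 2 * R ≤ m + 1) :
    |(2 * y ^ 2 - 3 * y) * Real.exp (-y) - ∑ j ∈ Finset.range (m + 2),
      (-1) ^ j * ((2 * j + 1) * j * (y ^ j / j.factorial))| ≤ 10 * (R ^ (m + 2) / m.factorial) := by
  have h : ∀ n : ℕ, 2 * R ≤ n + 1 → |Real.exp (-y) - ∑ i ∈ Finset.range n, (-y) ^ i / i.factorial| ≤
      R ^ n / n.factorial * 2 := fun n hn => by
    have := Complex.exp_bound' (x := ((-y : ℝ) : ℂ)) (n := n) (by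
      rw [Complex.norm_real, norm_neg, Real.norm_of_nonneg h0, div_le_iff₀ (by positivity)]
      push_cast; linarith)
    rw [Complex.norm_real, norm_neg, Real.norm_of_nonneg h0] at this
    refine le_trans (le_of_eq ?_) (this.trans (by gcongr))
    rw [← Real.norm_eq_abs, ← Complex.norm_real]; push_cast; rfl
  have h1 := h m hm
  have h2 := (h (m + 1) (by push_cast; linarith)).trans (show _ ≤ R ^ (m + 1) / m.factorial * 2 by
    have := m.factorial_pos; gcongr; omega)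
  rw [psi_id]
  generalize ∑ i ∈ Finset.range m, (-y) ^ i / i.factorial = s at *
  generalize ∑ i ∈ Finset.range (m + 1), (-y) ^ i / i.factorial = t at *
  calc _ = |2 * y ^ 2 * (Real.exp (-y) - s) - 3 * y * (Real.exp (-y) - t)| := by congr 1; ring
    _ ≤ _ := abs_sub _ _
    _ ≤ 2 * R ^ 2 * (R ^ m / m.factorial * 2) + 3 * R * (R ^ (m + 1) / m.factorial * 2) := by
      rw [abs_mul, abs_mul (3 * y), abs_of_nonneg (a := 2 * y ^ 2) (by positivity),
        abs_of_nonneg (a := 3 * y) (by positivity)]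
      gcongr
    _ = _ := by ring

noncomputable def Fs (x : ℝ) (K : ℕ) (σ : ℂ) : ℂ :=
  ∑ j ∈ Finset.range K, (-1) ^ j * (((2 * j + 1) * j * (x ^ j / j.factorial) : ℝ) : ℂ) / (σ + j)

theorem Phi_approx {n m : ℕ} (hn : 1 ≤ n) {z s t : ℂ} (hz : |z.im| ≤ 1) (hz' : z.re ≠ 0) {R : ℝ}
    (hR : 4 ≤ R) (haR : π * n ^ 2 ≤ R) (hm : 2 * R ≤ m + 1)
    (hs : s = 1 / 4 + z * Complex.I / 2) (ht : t = 1 / 4 - z * Complex.I / 2) :
    ‖Phi n z - ((Complex.exp (s * Real.log (R / (π * n ^ 2))) * Fs R (m + 2) s -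
        Fs (π * n ^ 2) (m + 2) s) + (Complex.exp (t * Real.log (R / (π * n ^ 2))) * Fs R (m + 2) t -
        Fs (π * n ^ 2) (m + 2) t))‖ ≤
      10 * (R ^ 4 * Real.exp (-R)) + 40 * (R ^ (m + 3) / m.factorial) := by
  have ha := one_le_a hn
  rw [Phi_eq hn hz]
  generalize π * (n : ℝ) ^ 2 = a at *
  obtain ⟨U, hU⟩ : ∃ U, Real.log (R / a) = 2 * U := ⟨_, (mul_div_cancel₀ _ two_ne_zero).symm⟩
  have hU0 : 0 ≤ U := by
    have := Real.log_nonneg ((one_le_div (by linarith)).2 haR); linarith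
  have hU1 : a * Real.exp (2 * U) = R := by
    rw [← hU, Real.exp_log (by have : 0 < a := by linarith
                               have : 0 < R := by linarith
                               positivity)]; field_simp
  have b1 := kk_bd ha hU0 fun y hy => bR hR (hU1 ▸ hy)
  rw [hU, ← intervalIntegral.integral_interval_add_Ioi
    (T_int (kk_cont a) le_rfl (kk_bd ha le_rfl (b24 ha)) hz) (T_int (kk_cont a) hU0 b1 hz)]
  have t1 := T_bd hU0 (by positivity) b1 hz
  let p : ℝ → ℝ := fun u => (∑ j ∈ Finset.range (m + 2), (-1) ^ j * ((2 * j + 1) * j *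
    ((a * Real.exp (2 * u)) ^ j / j.factorial))) * Real.exp (u / 2)
  have hp : Continuous p := by fun_prop
  have t2 : ‖∫ u in (0 : ℝ)..U, Complex.cos (z * u) * (kk a u - p u : ℝ)‖ ≤
      Real.exp (3 / 2 * U) * (10 * (R ^ (m + 2) / m.factorial)) * |U - 0| := by
    refine intervalIntegral.norm_integral_le_of_norm_le_const fun u hu => ?_
    rw [uIoc_of_le hU0] at hu
    have := psi_err (y := a * Real.exp (2 * u)) (by positivity)
      (by rw [← hU1]; gcongr; exact hu.2) (by linarith) hm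
    have e : kk a u - p u = Real.exp (u / 2) * ((2 * (a * Real.exp (2 * u)) ^ 2 -
      3 * (a * Real.exp (2 * u))) * Real.exp (-(a * Real.exp (2 * u))) - ∑ j ∈ Finset.range (m + 2),
      (-1) ^ j * ((2 * j + 1) * j * ((a * Real.exp (2 * u)) ^ j / j.factorial))) := by
      simp only [kk, ka, p]; ring
    rw [norm_mul, Complex.norm_real, e, Real.norm_eq_abs, abs_mul, ← mul_assoc, Real.abs_exp]
    refine mul_le_mul ((mul_le_mul_of_nonneg_right (cs_le hz hu.1.le).1 (Real.exp_pos _).le).trans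
      ?_) this (abs_nonneg _) (Real.exp_pos _).le
    rw [← Real.exp_add]; exact Real.exp_le_exp.2 (by linarith [hu.2])
  have t3 : Real.exp (3 / 2 * U) * |U - 0| ≤ R := by
    rw [sub_zero, abs_of_nonneg hU0, ← hU1]
    have := u_le U hU0
    have e : Real.exp (3 / 2 * U) * Real.exp (3 / 2 * U) = Real.exp (2 * U) * Real.exp U := by
      rw [← Real.exp_add, ← Real.exp_add]; congr 1; ring
    have : Real.exp (3 / 2 * U) * U * Real.exp U ≤ Real.exp (2 * U) * Real.exp U := by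
      rw [← e, mul_assoc]; gcongr
    nlinarith [le_of_mul_le_mul_right this (Real.exp_pos _), Real.exp_pos (2 * U)]
  have n0 : ∀ j : ℕ, 2 * (s + j) ≠ 0 ∧ 2 * (t + j) ≠ 0 := fun j => by
    constructor <;> intro h <;> have := congrArg Complex.im h <;> simp [hs, ht] at this <;>
      exact hz' this
  have t4 : 4 * ∫ u in (0 : ℝ)..U, Complex.cos (z * u) * (p u : ℝ) =
      (Complex.exp (s * (2 * U : ℝ)) * Fs R (m + 2) s - Fs a (m + 2) s) +
      (Complex.exp (t * (2 * U : ℝ)) * Fs R (m + 2) t - Fs a (m + 2) t) := by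
    have e : ∀ u : ℝ, Complex.cos (z * u) * (p u : ℝ) = ∑ j ∈ Finset.range (m + 2),
        (-1) ^ j * (((2 * j + 1) * j * (a ^ j / j.factorial) : ℝ) : ℂ) / 2 *
        (Complex.exp (2 * (s + j) * u) + Complex.exp (2 * (t + j) * u)) := fun u => by
      simp only [p]
      push_cast
      rw [Finset.sum_mul, Finset.mul_sum]
      refine Finset.sum_congr rfl fun j _ => ?_
      rw [show 2 * (s + j) * u = j * (2 * u) + u / 2 + z * u * Complex.I by rw [hs]; ring,
        show 2 * (t + j) * u = j * (2 * u) + u / 2 + -(z * u) * Complex.I by rw [ht]; ring,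
        Complex.cos]
      simp only [Complex.exp_add, Complex.exp_nat_mul]; ring
    simp_rw [e]
    rw [intervalIntegral.integral_finsetSum fun j _ => Continuous.intervalIntegrable (by fun_prop) _ _]
    simp only [Fs, Finset.mul_sum, ← Finset.sum_sub_distrib, ← Finset.sum_add_distrib]
    refine Finset.sum_congr rfl fun j _ => ?_
    rw [intervalIntegral.integral_const_mul, intervalIntegral.integral_add
      (Continuous.intervalIntegrable (by fun_prop) _ _) (Continuous.intervalIntegrable (by fun_prop) _ _),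
      integral_exp_mul_complex (n0 j).1, integral_exp_mul_complex (n0 j).2, ← hU1,
      show 2 * (s + j) * U = s * (2 * U) + j * (2 * U) by ring,
      show 2 * (t + j) * U = t * (2 * U) + j * (2 * U) by ring]
    have := right_ne_zero_of_mul (n0 j).1
    have := right_ne_zero_of_mul (n0 j).2
    push_cast
    simp only [Complex.exp_add, Complex.exp_nat_mul, mul_zero, Complex.exp_zero, mul_pow]
    field_simp; ring
  have t5 : ∫ u in (0 : ℝ)..U, Complex.cos (z * u) * (kk a u - p u : ℝ) =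
      (∫ u in (0 : ℝ)..U, Complex.cos (z * u) * (kk a u : ℝ)) -
      ∫ u in (0 : ℝ)..U, Complex.cos (z * u) * (p u : ℝ) := by
    have := kk_cont a
    rw [← intervalIntegral.integral_sub (Continuous.intervalIntegrable (by fun_prop) _ _)
      (Continuous.intervalIntegrable (by fun_prop) _ _)]
    congr 1; ext u; push_cast; ring
  rw [← t4, ← mul_sub, add_sub_right_comm, ← t5, norm_mul, Complex.norm_ofNat]
  have t6 : Real.exp (3 / 2 * U) * (10 * (R ^ (m + 2) / m.factorial)) * |U - 0| ≤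
      10 * (R ^ (m + 3) / m.factorial) := by
    rw [mul_right_comm]
    refine (mul_le_mul_of_nonneg_right t3 (by positivity)).trans (le_of_eq (by ring))
  linarith [norm_add_le (∫ u in (0 : ℝ)..U, Complex.cos (z * u) * (kk a u - p u : ℝ))
    (∫ u in Ioi U, Complex.cos (z * u) * (kk a u : ℝ))]

end Pool.Agent.H58.Hag
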