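import Pool.Agent.H58.HagLoop

set_option autoImplicit false

namespace Pool.Agent.H58.Hag

open Complex

structure B where
  re : ℤ
  im : ℤ
  r : ℕ
deriving DecidableEq

def B.c (x : B) : ℂ := (x.re : ℂ) + x.im * I
def B.a (x : B) : ℕ := Nat.add x.re.natAbs x.im.natAbs
def B.ub (x : B) : ℕ := Nat.add x.a x.r
def mem (P : ℕ) (z : ℂ) (x : B) : Prop := ‖z * 2 ^ P - x.c‖ ≤ x.r

def B.add (x y : B) : B := ⟨Int.add x.re y.re, Int.add x.im y.im, Nat.add x.r y.r⟩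
def B.neg (x : B) : B := ⟨Int.neg x.re, Int.neg x.im, x.r⟩
def B.muln (x : B) (k : ℕ) : B := ⟨Int.mul x.re (Int.ofNat k), Int.mul x.im (Int.ofNat k), Nat.mul x.r k⟩
def B.divn (x : B) (k : ℕ) : B :=
  ⟨Int.ediv x.re (Int.ofNat k), Int.ediv x.im (Int.ofNat k), Nat.add (Nat.div x.r k) 3⟩
def B.mul (P : ℕ) (x y : B) : B :=
  ⟨Int.shiftRight (Int.sub (Int.mul x.re y.re) (Int.mul x.im y.im)) P,
   Int.shiftRight (Int.add (Int.mul x.re y.im) (Int.mul x.im y.re)) P,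
   Nat.add (Nat.shiftRight (Nat.add (Nat.mul x.a y.r) (Nat.mul y.ub x.r)) P) 3⟩

lemma norm_c (x : B) : ‖x.c‖ ≤ x.a := by
  have : (x.a : ℝ) = |(x.re : ℝ)| + |(x.im : ℝ)| := by
    simp [B.a, Nat.cast_natAbs]
  rw [this]
  refine (norm_add_le _ _).trans (le_of_eq ?_)
  simp

lemma mem.norm_le {P : ℕ} {z : ℂ} {x : B} (h : mem P z x) : ‖z‖ * 2 ^ P ≤ x.ub := by
  have h1 : ‖z * 2 ^ P‖ ≤ ‖z * 2 ^ P - x.c‖ + ‖x.c‖ := by
    simpa using norm_add_le (z * 2 ^ P - x.c) x.c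
  have h2 : (x.ub : ℝ) = x.a + x.r := by simp [B.ub]
  have := norm_c x
  rw [norm_mul, norm_pow, Complex.norm_ofNat] at h1
  unfold mem at h
  linarith

lemma mem.add {P : ℕ} {z w : ℂ} {x y : B} (h : mem P z x) (k : mem P w y) :
    mem P (z + w) (x.add y) := by
  unfold mem at *
  have : (z + w) * 2 ^ P - (x.add y).c = (z * 2 ^ P - x.c) + (w * 2 ^ P - y.c) := by
    simp [B.add, B.c]; ring
  rw [this]
  refine (norm_add_le _ _).trans ?_
  simp only [B.add, Nat.add_eq, Nat.cast_add]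
  linarith

lemma mem.neg {P : ℕ} {z : ℂ} {x : B} (h : mem P z x) : mem P (-z) x.neg := by
  unfold mem at *
  have : -z * 2 ^ P - x.neg.c = -(z * 2 ^ P - x.c) := by
    simp [B.neg, B.c, show ∀ a : ℤ, Int.neg a = -a from fun _ => rfl]; ring
  rw [this, norm_neg]; exact h

lemma mem.muln {P : ℕ} {z : ℂ} {x : B} (h : mem P z x) (k : ℕ) : mem P (z * k) (x.muln k) := by
  unfold mem at *
  have : z * k * 2 ^ P - (x.muln k).c = (z * 2 ^ P - x.c) * k := by
    simp [B.muln, B.c]; ring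
  rw [this, norm_mul]
  simp only [B.muln, Nat.mul_eq, Nat.cast_mul, Complex.norm_natCast]
  gcongr

lemma mem.up {P Q : ℕ} {z : ℂ} {x : B} (h : mem P z x) : mem (P + Q) z (x.muln (2 ^ Q)) := by
  have := h.muln (2 ^ Q)
  unfold mem at *
  rwa [pow_add, ← mul_assoc, mul_right_comm, show (2 : ℂ) ^ Q = ((2 ^ Q : ℕ) : ℂ) by simp]

lemma fl (a : ℤ) {k : ℕ} (hk : 0 < k) : |(a : ℝ) / k - (a / (k : ℤ) : ℤ)| ≤ 1 := by
  have h1 := Int.mul_ediv_add_emod a k
  have h2 := Int.emod_nonneg a (b := k) (by omega)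
  have h3 := Int.emod_lt_of_pos a (b := k) (by omega)
  have hk' : (0 : ℝ) < k := by exact_mod_cast hk
  have e : (a : ℝ) / k - (a / (k : ℤ) : ℤ) = ((a % k : ℤ) : ℝ) / k := by
    rw [eq_div_iff hk'.ne', sub_mul, div_mul_cancel₀ _ hk'.ne']
    have : (a : ℝ) = k * (a / (k : ℤ) : ℤ) + (a % k : ℤ) := by exact_mod_cast h1.symm
    linarith
  rw [e, abs_of_nonneg (by positivity), div_le_one hk']
  exact_mod_cast h3.le

lemma fln (a : ℕ) {k : ℕ} (hk : 0 < k) : (a : ℝ) / k ≤ (a / k : ℕ) + 1 := by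
  have := (abs_le.1 (fl a hk)).2
  have e : (((a : ℤ) / (k : ℤ) : ℤ) : ℝ) = (a / k : ℕ) := by norm_cast
  rw [e] at this
  push_cast at this
  linarith

lemma core_div {u : ℂ} {a b : ℤ} {r k : ℕ} (hk : 0 < k) (h : ‖u - (a + b * I)‖ ≤ r) :
    ‖u / k - (((a / (k : ℤ) : ℤ) : ℂ) + (b / (k : ℤ) : ℤ) * I)‖ ≤ ((r / k + 3 : ℕ) : ℝ) := by
  have hk' : (0 : ℝ) < k := by exact_mod_cast hk
  have e : u / k - (((a / (k : ℤ) : ℤ) : ℂ) + (b / (k : ℤ) : ℤ) * I) = (u - (a + b * I)) / k +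
      ((((a : ℝ) / k - (a / (k : ℤ) : ℤ) : ℝ) : ℂ) +
        (((b : ℝ) / k - (b / (k : ℤ) : ℤ) : ℝ) : ℂ) * I) := by
    push_cast; ring
  rw [e]
  refine (norm_add_le _ _).trans ?_
  have h1 : ‖(u - (a + b * I)) / k‖ ≤ r / k := by
    rw [norm_div, Complex.norm_natCast]; gcongr
  have h2 := norm_add_le ((((a : ℝ) / k - (a / (k : ℤ) : ℤ) : ℝ) : ℂ))
    ((((b : ℝ) / k - (b / (k : ℤ) : ℤ) : ℝ) : ℂ) * I)
  rw [norm_mul, Complex.norm_I, mul_one, Complex.norm_real, Complex.norm_real, Real.norm_eq_abs,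
    Real.norm_eq_abs] at h2
  have := fl a hk
  have := fl b hk
  have := fln r hk
  push_cast [Nat.cast_add] at *
  linarith

lemma mem.divn {P : ℕ} {z : ℂ} {x : B} (h : mem P z x) {k : ℕ} (hk : 0 < k) :
    mem P (z / k) (x.divn k) := by
  unfold mem at *
  rw [div_mul_eq_mul_div]
  exact core_div hk h

lemma mem.mul {P : ℕ} {z w : ℂ} {x y : B} (h : mem P z x) (k : mem P w y) :
    mem P (z * w) (x.mul P y) := by
  have hw := k.norm_le
  unfold mem at *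
  have key := core_div (u := (z * 2 ^ P) * (w * 2 ^ P)) (a := x.re * y.re - x.im * y.im)
    (b := x.re * y.im + x.im * y.re) (r := x.a * y.r + y.ub * x.r) (k := 2 ^ P) (by positivity) (by
      have : z * 2 ^ P * (w * 2 ^ P) - (((x.re * y.re - x.im * y.im : ℤ) : ℂ) +
          (x.re * y.im + x.im * y.re : ℤ) * I) =
          x.c * (w * 2 ^ P - y.c) + (w * 2 ^ P) * (z * 2 ^ P - x.c) := by
        simp only [B.c]; push_cast; linear_combination (x.im * y.im) * I_mul_I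
      rw [this]
      refine (norm_add_le _ _).trans ?_
      rw [norm_mul, norm_mul, norm_mul, norm_pow, Complex.norm_ofNat]
      push_cast
      have := norm_c x
      gcongr)
  have e : z * 2 ^ P * (w * 2 ^ P) / ((2 ^ P : ℕ) : ℂ) = z * w * 2 ^ P := by
    push_cast; field_simp
  rw [e] at key
  simpa only [B.mul, B.c, show ∀ (a : ℤ) (n : ℕ), Int.shiftRight a n = a >>> n from fun _ _ => rfl,
    Int.shiftRight_eq_div_pow, Nat.shiftRight_eq,
    Nat.shiftRight_eq_div_pow, Nat.add_eq, Nat.mul_eq, Int.mul_def, Int.add_def,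
    show ∀ a b : ℤ, Int.sub a b = a - b from fun _ _ => rfl] using key

lemma mem.widen {P : ℕ} {z w : ℂ} {x : B} (h : mem P z x) {k : ℕ} (hw : ‖w - z‖ * 2 ^ P ≤ k) :
    mem P w (x.add ⟨0, 0, k⟩) := by
  have : mem P (w - z) ⟨0, 0, k⟩ := by simpa [mem, B.c] using hw
  simpa using h.add this

noncomputable def tay (P : ℕ) (y : B) (n : ℕ) : ℕ → B → B → B :=
  Nat.rec (fun _ _ s => s) (fun _ ih k t s =>
    frc (s.add t).ub (ih (Nat.succ k) ((t.mul P y).divn (Nat.succ k)) (s.add t))) n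

noncomputable def sqs (P m : ℕ) : B → B :=
  Nat.rec (fun s => s) (fun _ ih s => frc (s.mul P s).r (ih (s.mul P s))) m

noncomputable def expb (P m n : ℕ) (x : B) : B :=
  sqs P m ((tay P (x.divn (2 ^ m)) n 0 ⟨2 ^ P, 0, 0⟩ ⟨0, 0, 0⟩).add ⟨0, 0, 1⟩)

lemma tay_mem {P : ℕ} {z : ℂ} {y : B} (h : mem P z y) (n : ℕ) : ∀ (k : ℕ) (t s : B),
    mem P (z ^ k / k.factorial) t → mem P (∑ i ∈ Finset.range k, z ^ i / i.factorial) s →
    mem P (∑ i ∈ Finset.range (k + n), z ^ i / i.factorial) (tay P y n k t s) := by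
  induction n with
  | zero => exact fun k t s _ hs => hs
  | succ n ih =>
    intro k t s ht hs
    have := ih (k + 1) ((t.mul P y).divn (k + 1)) (s.add t) (by
      have := (ht.mul h).divn (Nat.succ_pos k)
      rwa [show z ^ (k + 1) / ((k + 1).factorial : ℂ) = z ^ k / k.factorial * z / (k.succ : ℕ) by
        rw [Nat.factorial_succ]; push_cast; field_simp; ring]) (by
      rw [Finset.sum_range_succ]; exact hs.add ht)
    rw [show k + (n + 1) = k + 1 + n by ring]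
    change mem P _ (frc _ _)
    rw [frc_eq]; exact this

lemma sqs_mem {P : ℕ} (m : ℕ) : ∀ (z : ℂ) (s : B), mem P (exp z) s →
    mem P (exp (z * 2 ^ m)) (sqs P m s) := by
  induction m with
  | zero => exact fun z s h => by simpa [sqs] using h
  | succ m ih =>
    intro z s h
    have := ih (z + z) (s.mul P s) (by rw [exp_add]; exact h.mul h)
    rw [show z * 2 ^ (m + 1) = (z + z) * 2 ^ m by ring]
    change mem P _ (frc _ _)
    rw [frc_eq]; exact this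

lemma expb_mem {P m n s : ℕ} {z : ℂ} {x : B} (h : mem P z x) (hs : 1 ≤ s) (hn : P + 1 ≤ s * n)
    (hx : (x.divn (2 ^ m)).ub * 2 ^ s ≤ 2 ^ P) : mem P (exp z) (expb P m n x) := by
  have h1 := h.divn (k := 2 ^ m) (by positivity)
  obtain ⟨w, hw⟩ : ∃ w, w = z / ((2 ^ m : ℕ) : ℂ) := ⟨_, rfl⟩
  rw [← hw] at h1
  have h2 : ‖w‖ * 2 ^ s ≤ 1 := by
    have a := h1.norm_le
    have b : ((x.divn (2 ^ m)).ub : ℝ) * 2 ^ s ≤ 2 ^ P := by exact_mod_cast hx
    have : ‖w‖ * 2 ^ s * 2 ^ P ≤ 1 * 2 ^ P := by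
      nlinarith [mul_le_mul_of_nonneg_right a (show (0 : ℝ) ≤ 2 ^ s by positivity)]
    exact le_of_mul_le_mul_right this (by positivity)
  have h3 : ‖w‖ ≤ 1 / 2 := by
    have : (2 : ℝ) ^ 1 ≤ 2 ^ s := pow_le_pow_right₀ (by norm_num) hs
    nlinarith [norm_nonneg w]
  have h4 := tay_mem h1 n 0 ⟨2 ^ P, 0, 0⟩ ⟨0, 0, 0⟩ (by simp [mem, B.c]) (by simp [mem, B.c])
  have h5 := Complex.exp_bound' (x := w) (n := n) (by
    refine le_trans (div_le_self (norm_nonneg _) ?_) h3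
    exact_mod_cast Nat.succ_pos n)
  have h6 := sqs_mem m w _ (h4.widen (w := exp w) (k := 1) (by
    rw [zero_add]
    have a : (1 : ℝ) ≤ n.factorial := by exact_mod_cast n.factorial_pos
    have b : ‖w‖ ^ n / n.factorial ≤ ‖w‖ ^ n := div_le_self (by positivity) a
    have c : (‖w‖ * 2 ^ s) ^ n ≤ 1 := pow_le_one₀ (by positivity) h2
    have d : (2 : ℝ) ^ (P + 1) ≤ 2 ^ (s * n) := pow_le_pow_right₀ (by norm_num) hn
    rw [mul_pow, ← pow_mul] at c
    have e : ‖w‖ ^ n * 2 ^ (P + 1) ≤ 1 :=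
      (mul_le_mul_of_nonneg_left d (by positivity)).trans c
    calc _ ≤ (‖w‖ ^ n * 2) * 2 ^ P := by gcongr; linarith
      _ = ‖w‖ ^ n * 2 ^ (P + 1) := by ring
      _ ≤ _ := by simpa using e))
  rwa [hw, show z / ((2 ^ m : ℕ) : ℂ) * 2 ^ m = z by push_cast; field_simp] at h6

end Pool.Agent.H58.Hag
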