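import Mathlib

set_option autoImplicit false

namespace Pool.Agent.H58.HagDefs

open Real

/-- `G(z;a,b) = 4 ∫_0^∞ cos(2zu) exp(2bu - a e^{2u}) du`. -/
noncomputable def G (z : ℂ) (a b : ℝ) : ℂ :=
  4 * ∫ u in Set.Ioi (0 : ℝ),
    Complex.cos (2 * z * u) * (Real.exp (2 * b * u - a * Real.exp (2 * u)) : ℝ)

/-- `Φ_n(z) = πn² [2πn² G(z/2; πn², 9/4) - 3 G(z/2; πn², 5/4)]`. -/
noncomputable def Phi (n : ℕ) (z : ℂ) : ℂ :=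
  (π * n ^ 2 : ℝ) * (2 * (π * n ^ 2 : ℝ) * G (z / 2) (π * n ^ 2) (9 / 4) -
    3 * G (z / 2) (π * n ^ 2) (5 / 4))

/-- `Ξ_N = Φ_1 + … + Φ_N`. -/
noncomputable def Xi (N : ℕ) (z : ℂ) : ℂ := ∑ n ∈ Finset.Icc 1 N, Phi n z

end Pool.Agent.H58.HagDefs
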