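import Mathlib

set_option autoImplicit false

namespace Pool.Agent.H58.Hag

noncomputable def frc {α : Type} (x : ℕ) (y : α) : α := Bool.rec y y (Nat.ble x 0)

theorem frc_eq {α : Type} (x : ℕ) (y : α) : frc x y = y := by
  unfold frc; cases Nat.ble x 0 <;> rfl

noncomputable def upd (d : ℕ) (l : List (ℕ × ℕ)) : List (ℕ × ℕ) :=
  List.rec [] (fun p _ ih => Prod.rec (fun x u => Bool.rec ((x, Nat.div (Nat.mul u x) d) :: ih) ih
    (Nat.ble (Nat.div (Nat.mul u x) d) 0)) p) l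

noncomputable def lsum (l : List (ℕ × ℕ)) : ℕ :=
  List.rec 0 (fun p _ ih => Prod.rec (fun _ u => Nat.add u ih) p) l

noncomputable def qq (sh N0 N1 N2 j : ℕ) (l : List (ℕ × ℕ)) (p : ℕ) : ℕ :=
  Nat.div (Nat.mul (Nat.mul (Nat.add (Nat.mul 2 j) 1) j) (Nat.shiftRight (Nat.mul p (lsum l)) sh))
    (Nat.add N0 (Nat.mul j (Nat.add N1 (Nat.mul j N2))))

noncomputable def loop (b Pi Pp sh N0 N1 N2 fuel : ℕ) :
    ℕ → List (ℕ × ℕ) → ℕ → ℕ → ℕ → ℕ → ℕ → ℤ × ℤ :=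
  Nat.rec (fun _ _ _ a a' c c' => (Int.subNatNat a a', Int.subNatNat c c'))
    (fun _ ih j l p a a' c c' =>
      frc (Nat.add a (qq sh N0 N1 N2 j l p)) (frc (Nat.add c (Nat.mul j (qq sh N0 N1 N2 j l p)))
        (ih (Nat.succ j) (upd (Nat.mul b (Nat.succ j)) l) (Nat.shiftRight (Nat.mul p Pi) Pp) a'
          (Nat.add a (qq sh N0 N1 N2 j l p)) c' (Nat.add c (Nat.mul j (qq sh N0 N1 N2 j l p)))))) fuel

/-- the two alternating sums -/
noncomputable def ser (b Pi Pp sh Pu e K X Y : ℕ) (xs : List ℕ) : ℤ × ℤ :=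
  loop b Pi Pp sh (X * X + Y * Y) (2 * X * 2 ^ e) (2 ^ (2 * e)) K 0 (xs.map fun x => (x, 2 ^ Pu))
    (2 ^ Pp) 0 0 0 0

end Pool.Agent.H58.Hag
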