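import Pool.Agent.H58.HagBall

set_option autoImplicit false

namespace Pool.Agent.H58.Hag

open Finset

def U (b Pu x : ℕ) : ℕ → ℕ
  | 0 => 2 ^ Pu
  | j + 1 => U b Pu x j * x / (b * (j + 1))

def PP (Pi Pp : ℕ) : ℕ → ℕ
  | 0 => 2 ^ Pp
  | j + 1 => PP Pi Pp j * Pi / 2 ^ Pp

def qs (b Pi Pp sh Pu N0 N1 N2 : ℕ) (xs : List ℕ) (j : ℕ) : ℕ :=
  (2 * j + 1) * j * (PP Pi Pp j * (xs.map fun x => U b Pu x j).sum / 2 ^ sh) /
    (N0 + j * (N1 + j * N2))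

def Inv (b Pu : ℕ) (xs : List ℕ) (j : ℕ) (l : List (ℕ × ℕ)) : Prop :=
  ∀ g : ℕ → ℕ → ℕ, (∀ x, g x 0 = 0) →
    (l.map fun p => g p.1 p.2).sum = (xs.map fun x => g x (U b Pu x j)).sum

lemma upd_sum (d : ℕ) (g : ℕ → ℕ → ℕ) (hg : ∀ x, g x 0 = 0) (l : List (ℕ × ℕ)) :
    ((upd d l).map fun p => g p.1 p.2).sum = (l.map fun p => g p.1 (p.2 * p.1 / d)).sum := by
  induction l with
  | nil => rfl
  | cons p l ih =>
    obtain ⟨x, u⟩ := p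
    change (List.map _ (Bool.rec ((x, u * x / d) :: upd d l) (upd d l) (Nat.ble (u * x / d) 0))).sum = _
    cases h : Nat.ble (u * x / d) 0
    · simp [ih]
    · have : u * x / d = 0 := Nat.le_zero.1 (Nat.le_of_ble_eq_true h)
      simp [ih, this, hg]

lemma lsum_eq (l : List (ℕ × ℕ)) : lsum l = (l.map fun p => p.2).sum := by
  induction l with
  | nil => rfl
  | cons p l ih =>
    obtain ⟨x, u⟩ := p
    change u + lsum l = _
    simp [ih]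

lemma loop_spec (b Pi Pp sh Pu N0 N1 N2 : ℕ) (xs : List ℕ) (f : ℕ) :
    ∀ (j : ℕ) (l : List (ℕ × ℕ)) (a a' c c' : ℕ), Inv b Pu xs j l →
    loop b Pi Pp sh N0 N1 N2 f j l (PP Pi Pp j) a a' c c' =
      ((-1) ^ f * ((a - a' : ℤ) + ∑ i ∈ range f, (-1) ^ i * (qs b Pi Pp sh Pu N0 N1 N2 xs (j + i) : ℤ)),
       (-1) ^ f * ((c - c' : ℤ) + ∑ i ∈ range f, (-1) ^ i *
         (((j + i) * qs b Pi Pp sh Pu N0 N1 N2 xs (j + i) : ℕ) : ℤ))) := by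
  induction f with
  | zero =>
    intro j l a a' c c' _
    simp [loop, Int.subNatNat_eq_coe]
  | succ f ih =>
    intro j l a a' c c' h
    have hq : qq sh N0 N1 N2 j l (PP Pi Pp j) = qs b Pi Pp sh Pu N0 N1 N2 xs j := by
      unfold qq qs
      rw [lsum_eq, h (fun _ u => u) fun _ => rfl]
      simp only [Nat.shiftRight_eq, Nat.shiftRight_eq_div_pow]; rfl
    have := ih (j + 1) (upd (b * (j + 1)) l) a' (a + qs b Pi Pp sh Pu N0 N1 N2 xs j) c'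
      (c + j * qs b Pi Pp sh Pu N0 N1 N2 xs j) (fun g hg => by
        rw [upd_sum _ g hg, h (fun x u => g x (u * x / (b * (j + 1)))) (by simpa using hg)]; rfl)
    change frc _ (frc _ (loop b Pi Pp sh N0 N1 N2 f (j + 1) (upd (b * (j + 1)) l)
      (Nat.shiftRight (PP Pi Pp j * Pi) Pp) a' (a + qq sh N0 N1 N2 j l (PP Pi Pp j)) c'
      (c + j * qq sh N0 N1 N2 j l (PP Pi Pp j)))) = _
    rw [frc_eq, frc_eq, hq, Nat.shiftRight_eq, Nat.shiftRight_eq_div_pow]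
    refine this.trans ?_
    simp only [sum_range_succ', add_assoc j 1, add_comm 1, pow_succ,
      mul_neg, mul_one, neg_mul, sum_neg_distrib, add_zero, pow_zero, one_mul]
    push_cast
    congr 1 <;> ring

lemma U_err {b Pu x : ℕ} (hb : 0 < b) (j : ℕ) :
    |((x : ℝ) / b) ^ j / j.factorial * 2 ^ Pu - U b Pu x j| ≤
      ∑ i ∈ range j, ((x : ℝ) / b) ^ i / i.factorial := by
  induction j with
  | zero => simp [U]
  | succ j ih =>
    have hb' : (0 : ℝ) < b := by exact_mod_cast hb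
    have h1 := fl ((U b Pu x j * x : ℕ) : ℤ) (k := b * (j + 1)) (by positivity)
    rw [show ((((U b Pu x j * x : ℕ) : ℤ) / ((b * (j + 1) : ℕ) : ℤ) : ℤ) : ℝ) =
      (U b Pu x (j + 1) : ℝ) by norm_cast] at h1
    have e : ((x : ℝ) / b) ^ (j + 1) / (j + 1).factorial * 2 ^ Pu - U b Pu x (j + 1) =
        (((x : ℝ) / b) ^ j / j.factorial * 2 ^ Pu - U b Pu x j) * (x / b / (j + 1)) +
        ((((U b Pu x j * x : ℕ) : ℤ) : ℝ) / (b * (j + 1) : ℕ) - U b Pu x (j + 1)) := by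
      rw [Nat.factorial_succ, pow_succ]; push_cast; field_simp; ring
    rw [e, sum_range_succ']
    refine (abs_add_le _ _).trans (add_le_add ?_ (by simpa using h1))
    rw [abs_mul, abs_of_nonneg (a := (x : ℝ) / b / (j + 1)) (by positivity)]
    refine (mul_le_mul_of_nonneg_right ih (by positivity)).trans ?_
    rw [sum_mul]
    refine sum_le_sum fun i hi => ?_
    have : (i : ℝ) + 1 ≤ j + 1 := by exact_mod_cast (mem_range.1 hi).le.trans (Nat.le_refl _) |> Nat.succ_le_succ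
    rw [Nat.factorial_succ]
    push_cast
    calc _ ≤ ((x : ℝ) / b) ^ i / i.factorial * (x / b / (i + 1)) := by gcongr
      _ = _ := by rw [pow_succ]; field_simp

lemma PP_err {Pi Pp δ : ℕ} {ρ : ℝ} (h0 : 0 ≤ ρ) (h1 : ρ ≤ 1) (hP : Pi ≤ 2 ^ Pp)
    (hδ : ∀ p : ℕ, p ≤ 2 ^ Pp → |ρ * p - (p * Pi / 2 ^ Pp : ℕ)| ≤ δ) (j : ℕ) :
    PP Pi Pp j ≤ 2 ^ Pp ∧ |ρ ^ j * 2 ^ Pp - PP Pi Pp j| ≤ j * δ := by
  induction j with
  | zero => simp [PP]
  | succ j ih =>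
    refine ⟨Nat.div_le_of_le_mul (Nat.mul_le_mul ih.1 hP), ?_⟩
    have e : ρ ^ (j + 1) * 2 ^ Pp - PP Pi Pp (j + 1) = ρ * (ρ ^ j * 2 ^ Pp - PP Pi Pp j) +
      (ρ * PP Pi Pp j - (PP Pi Pp j * Pi / 2 ^ Pp : ℕ)) := by simp only [PP]; ring
    rw [e]
    refine (abs_add_le _ _).trans ?_
    rw [abs_mul, abs_of_nonneg h0]
    have := hδ _ ih.1
    have := mul_le_mul h1 ih.2 (abs_nonneg _) zero_le_one
    push_cast
    linarith

lemma W_err {b Pu : ℕ} (hb : 0 < b) (j : ℕ) (xs : List ℕ) :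
    0 ≤ (xs.map fun x : ℕ => ((x : ℝ) / b) ^ j / j.factorial).sum ∧
    (xs.map fun x : ℕ => ((x : ℝ) / b) ^ j / j.factorial).sum ≤
      (xs.map fun x : ℕ => Real.exp (x / b)).sum ∧
    |(xs.map fun x : ℕ => ((x : ℝ) / b) ^ j / j.factorial).sum * 2 ^ Pu -
      ((xs.map fun x => U b Pu x j).sum : ℕ)| ≤ (xs.map fun x : ℕ => Real.exp (x / b)).sum := by
  induction xs with
  | nil => simp
  | cons x xs ih =>
    simp only [List.map_cons, List.sum_cons]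
    have h1 := (U_err (Pu := Pu) (x := x) hb j).trans
      (Real.sum_le_exp_of_nonneg (by positivity) j)
    have h2 := Real.pow_div_factorial_le_exp ((x : ℝ) / b) (by positivity) j
    refine ⟨add_nonneg (by positivity) ih.1, add_le_add h2 ih.2.1, ?_⟩
    push_cast at *
    rw [add_mul, add_sub_add_comm]
    exact (abs_add_le _ _).trans (add_le_add h1 ih.2.2)

/-- coefficient -/
noncomputable def cf (b : ℕ) (ρ : ℝ) (xs : List ℕ) (j : ℕ) : ℝ :=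
  (2 * j + 1) * j * (ρ ^ j * (xs.map fun x : ℕ => ((x : ℝ) / b) ^ j / j.factorial).sum)

lemma q_err {b Pi Pp sh Pu e K X Y δ H Q : ℕ} {xs : List ℕ} {ρ : ℝ} (hb : 0 < b) (h0 : 0 ≤ ρ)
    (h1 : ρ ≤ 1) (hP : Pi ≤ 2 ^ Pp)
    (hδ : ∀ p : ℕ, p ≤ 2 ^ Pp → |ρ * p - (p * Pi / 2 ^ Pp : ℕ)| ≤ δ)
    (hH : (xs.map fun x : ℕ => Real.exp (x / b)).sum ≤ H) (hQ : Pp + Pu = sh + 2 * e + Q)
    (hE : (2 * K + 1) * K * ((K * δ * H * 2 ^ Pu + 2 ^ Pp * H) / 2 ^ sh + 2) ≤ Y * Y) (hY : 0 < Y)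
    {j : ℕ} (hj : j < K) :
    |cf b ρ xs j / (((X : ℝ) / 2 ^ e + j) ^ 2 + (Y / 2 ^ e) ^ 2) * 2 ^ Q -
      qs b Pi Pp sh Pu (X * X + Y * Y) (2 * X * 2 ^ e) (2 ^ (2 * e)) xs j| ≤ 2 := by
  obtain ⟨w0, w1, w2⟩ := W_err (Pu := Pu) hb j xs
  obtain ⟨p1, p2⟩ := PP_err h0 h1 hP hδ j
  unfold cf qs
  generalize (xs.map fun x : ℕ => ((x : ℝ) / b) ^ j / j.factorial).sum = w at *
  generalize (xs.map fun x => U b Pu x j).sum = W at *
  generalize PP Pi Pp j = p at *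
  generalize hD : X * X + Y * Y + j * (2 * X * 2 ^ e + j * 2 ^ (2 * e)) = D
  have hD1 : Y * Y ≤ D := by omega
  have hD0 : 0 < D := lt_of_lt_of_le (by positivity) hD1
  have hD' : (0 : ℝ) < D := by exact_mod_cast hD0
  have hD2 : ((X : ℝ) / 2 ^ e + j) ^ 2 + (Y / 2 ^ e) ^ 2 = D / 2 ^ (2 * e) := by
    rw [← hD]; push_cast; field_simp; ring
  have a1 : |ρ ^ j * w * 2 ^ (Pp + Pu) - (p * W : ℕ)| ≤ (K * δ * H * 2 ^ Pu + 2 ^ Pp * H : ℕ) := by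
    have e : ρ ^ j * w * 2 ^ (Pp + Pu) - (p * W : ℕ) =
      (ρ ^ j * 2 ^ Pp - p) * w * 2 ^ Pu + p * (w * 2 ^ Pu - W) := by push_cast; ring
    rw [e]
    refine (abs_add_le _ _).trans ?_
    rw [abs_mul, abs_mul, abs_mul, abs_of_nonneg w0, Nat.abs_cast, abs_of_pos (a := (2 : ℝ) ^ Pu) (by positivity)]
    have : (p : ℝ) ≤ 2 ^ Pp := by exact_mod_cast p1
    have : (j : ℝ) ≤ K := by exact_mod_cast hj.le
    have := w1.trans hH
    have := w2.trans hH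
    push_cast
    have : |ρ ^ j * 2 ^ Pp - p| ≤ K * δ := p2.trans (by gcongr)
    gcongr
  generalize K * δ * H * 2 ^ Pu + 2 ^ Pp * H = E at *
  have a2 := fl ((p * W : ℕ) : ℤ) (k := 2 ^ sh) (by positivity)
  rw [show ((((p * W : ℕ) : ℤ) / ((2 ^ sh : ℕ) : ℤ) : ℤ) : ℝ) = (p * W / 2 ^ sh : ℕ) by norm_cast,
    Int.cast_natCast] at a2
  have a3 := fln E (k := 2 ^ sh) (by positivity)
  generalize p * W / 2 ^ sh = V at *
  have a4 : |ρ ^ j * w * 2 ^ (2 * e + Q) - V| ≤ (E / 2 ^ sh + 2 : ℕ) := by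
    have e : ρ ^ j * w * 2 ^ (2 * e + Q) - V = (ρ ^ j * w * 2 ^ (Pp + Pu) - (p * W : ℕ)) /
        (2 ^ sh : ℕ) + ((p * W : ℕ) / (2 ^ sh : ℕ) - V) := by
      rw [hQ]; push_cast; field_simp; ring
    rw [e]
    refine (abs_add_le _ _).trans ?_
    rw [abs_div, Nat.abs_cast]
    have : |ρ ^ j * w * 2 ^ (Pp + Pu) - (p * W : ℕ)| / (2 ^ sh : ℕ) ≤ E / (2 ^ sh : ℕ) := by gcongr
    rw [Nat.cast_add, Nat.cast_ofNat]
    linarith
  have a5 := fl (((2 * j + 1) * j * V : ℕ) : ℤ) hD0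
  rw [show (((((2 * j + 1) * j * V : ℕ) : ℤ) / (D : ℤ) : ℤ) : ℝ) = ((2 * j + 1) * j * V / D : ℕ) by
    norm_cast, Int.cast_natCast] at a5
  have e' : (2 * j + 1) * j * (ρ ^ j * w) / (D / 2 ^ (2 * e)) * 2 ^ Q -
      ((2 * j + 1) * j * V / D : ℕ) = (2 * j + 1) * j * (ρ ^ j * w * 2 ^ (2 * e + Q) - V) / D +
        (((2 * j + 1) * j * V : ℕ) / D - ((2 * j + 1) * j * V / D : ℕ) : ℝ) := by
    push_cast; field_simp; ring
  rw [hD2, e']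
  refine (abs_add_le _ _).trans ?_
  have : |(2 * (j : ℝ) + 1) * j * (ρ ^ j * w * 2 ^ (2 * e + Q) - V) / D| ≤ 1 := by
    rw [abs_div, Nat.abs_cast, div_le_one hD', abs_mul, abs_of_nonneg (by positivity)]
    have b1 : (((2 * K + 1) * K * (E / 2 ^ sh + 2) : ℕ) : ℝ) ≤ D := by exact_mod_cast hE.trans hD1
    have : (j : ℝ) ≤ K := by exact_mod_cast hj.le
    rw [Nat.cast_mul] at b1
    refine le_trans ?_ b1
    push_cast [Nat.cast_add] at *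
    gcongr
  linarith

/-- ball of the series from the two sums -/
def fb (Q e K X : ℕ) (Y : ℤ) (T : ℤ × ℤ) : B :=
  (B.mul Q ⟨X * 2 ^ (Q - e), -Y * 2 ^ (Q - e), 0⟩ ⟨T.1, 0, 2 * K⟩).add ⟨T.2, 0, 2 * K * K⟩

lemma alt_err {K Q c : ℕ} {f : ℕ → ℝ} {g : ℕ → ℕ} (h : ∀ j < K, |f j * 2 ^ Q - g j| ≤ c) :
    mem Q ((∑ j ∈ range K, (-1) ^ j * f j : ℝ) : ℂ)
      ⟨∑ j ∈ range K, (-1) ^ j * (g j : ℤ), 0, c * K⟩ := by
  have e : ((∑ j ∈ range K, (-1) ^ j * f j : ℝ) : ℂ) * 2 ^ Q -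
      B.c ⟨∑ j ∈ range K, (-1) ^ j * (g j : ℤ), 0, c * K⟩ =
      ((∑ j ∈ range K, (-1) ^ j * (f j * 2 ^ Q - g j) : ℝ) : ℂ) := by
    simp only [B.c, mul_sub, sum_sub_distrib]; push_cast; simp [sum_mul, mul_assoc]
  unfold mem
  rw [e, Complex.norm_real, Real.norm_eq_abs]
  refine (abs_sum_le_sum_abs _ _).trans ((sum_le_card_nsmul _ _ (c : ℝ) fun j hj => ?_).trans ?_)
  · rw [abs_mul, abs_neg_one_pow, one_mul]; exact h j (mem_range.1 hj)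
  · simp [mul_comm]

theorem ser_mem {b Pi Pp sh Pu e K X δ H Q : ℕ} {Y : ℤ} {xs : List ℕ} {ρ : ℝ} (hb : 0 < b)
    (h0 : 0 ≤ ρ) (h1 : ρ ≤ 1) (hP : Pi ≤ 2 ^ Pp)
    (hδ : ∀ p : ℕ, p ≤ 2 ^ Pp → |ρ * p - (p * Pi / 2 ^ Pp : ℕ)| ≤ δ)
    (hH : (xs.map fun x : ℕ => Real.exp (x / b)).sum ≤ H) (hQ : Pp + Pu = sh + 2 * e + Q)
    (hE : (2 * K + 1) * K * ((K * δ * H * 2 ^ Pu + 2 ^ Pp * H) / 2 ^ sh + 2) ≤
      Y.natAbs * Y.natAbs) (hY : Y ≠ 0) (hK : Even K) (he : e ≤ Q) :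
    mem Q (∑ j ∈ range K, (-1) ^ j * (cf b ρ xs j : ℂ) / ((X + Y * Complex.I) / 2 ^ e + j))
      (fb Q e K X Y (ser b Pi Pp sh Pu e K X Y.natAbs xs)) := by
  have hs := loop_spec b Pi Pp sh Pu (X * X + Y.natAbs * Y.natAbs) (2 * X * 2 ^ e) (2 ^ (2 * e))
    xs K 0 (xs.map fun x => (x, 2 ^ Pu)) 0 0 0 0 (fun g _ => by simp [U, Function.comp_def])
  have hq := fun j hj => q_err (X := X) (j := j) hb h0 h1 hP hδ hH hQ hE (Int.natAbs_pos.2 hY) hj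
  have m0 := alt_err hq
  have m1 := alt_err (K := K) (Q := Q) (c := 2 * K) (f := fun j => j * (cf b ρ xs j /
      (((X : ℝ) / 2 ^ e + j) ^ 2 + (Y.natAbs / 2 ^ e) ^ 2))) (g := fun j => j * qs b Pi Pp sh Pu
      (X * X + Y.natAbs * Y.natAbs) (2 * X * 2 ^ e) (2 ^ (2 * e)) xs j) fun j hj => by
    have : (j : ℝ) ≤ K := by exact_mod_cast hj.le
    rw [Nat.cast_mul, mul_assoc, ← mul_sub, abs_mul, Nat.abs_cast, Nat.cast_mul, mul_comm]
    exact mul_le_mul (hq j hj) this (by positivity) (by positivity)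
  have m2 : mem Q ((X - Y * Complex.I) / 2 ^ e) ⟨X * 2 ^ (Q - e), -Y * 2 ^ (Q - e), 0⟩ := by
    obtain ⟨k, rfl⟩ := Nat.exists_eq_add_of_le he
    simp only [mem, B.c, Nat.add_sub_cancel_left, Nat.cast_zero, norm_le_zero_iff]
    push_cast; field_simp; ring
  have := (m2.mul m0).add m1
  simp only [hK.neg_one_pow, zero_add, one_mul, Nat.cast_zero, sub_zero, PP] at hs
  unfold fb ser
  rw [hs]
  refine (congrArg (fun z => mem Q z _) ?_).mp this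
  push_cast
  rw [mul_sum, ← sum_add_distrib]
  refine sum_congr rfl fun j _ => ?_
  have y2 : ((Y.natAbs : ℂ) / 2 ^ e) ^ 2 = (Y / 2 ^ e) ^ 2 := by
    rw [div_pow, div_pow]; congr 1
    have := congrArg (Int.cast : ℤ → ℂ) (Int.natAbs_sq Y)
    rwa [Int.cast_pow, Int.cast_pow, Int.cast_natCast] at this
  have n0 : ∀ Y : ℤ, Y ≠ 0 → ((X : ℂ) + Y * Complex.I) / 2 ^ e + j ≠ 0 := fun Y hY h => by
    have := congrArg Complex.im h
    rw [show (2 : ℂ) ^ e = ((2 ^ e : ℝ) : ℂ) by simp, Complex.add_im, Complex.div_ofReal_im] at this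
    simp [hY] at this
  have n1 := n0 Y hY
  have n2 : ((X : ℂ) - Y * Complex.I) / 2 ^ e + j ≠ 0 := by
    simpa [sub_eq_add_neg] using n0 (-Y) (neg_ne_zero.2 hY)
  have e2 : ((X : ℂ) / 2 ^ e + j) ^ 2 + (Y / 2 ^ e) ^ 2 =
      ((X + Y * Complex.I) / 2 ^ e + j) * ((X - Y * Complex.I) / 2 ^ e + j) := by
    linear_combination (Y / 2 ^ e) ^ 2 * Complex.I_mul_I
  rw [y2, e2]
  generalize ((X : ℂ) + Y * Complex.I) / 2 ^ e + j = s at *
  generalize ((X : ℂ) - Y * Complex.I) / 2 ^ e = t at *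
  field_simp

end Pool.Agent.H58.Hag
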