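import Pool.Agent.H58.HagSer
import Pool.Agent.H58.HagAn

set_option autoImplicit false

namespace Pool.Agent.H58.Hag

open Complex Metric Pool.Agent.H58.HagDefs
open scoped Real

theorem zero_near {f : ℂ → ℂ} {c : ℂ} {M δ : ℝ} (hd : DifferentiableOn ℂ f (ball c (1 / 2)))
    (hM : ∀ z ∈ ball c (1 / 2), ‖f z‖ ≤ M) (h0 : 0 < δ) (h1 : δ < 1 / 2)
    (h : 3 * ‖f c‖ + 32 * M * δ ^ 2 < ‖f (c + δ)‖) : ∃ w, ‖w - c‖ ≤ δ ∧ f w = 0 := by
  by_contra! hn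
  have hc : c ∈ ball c (1 / 2 : ℝ) := mem_ball_self (by norm_num)
  have a1 : ∀ z ∈ ball c (1 / 2), ‖dslope f c z‖ ≤ 2 * M / (1 / 2) := fun z hz =>
    norm_dslope_le_div_of_mapsTo_ball hd (fun w hw => mem_closedBall_iff_norm.2
      ((norm_sub_le _ _).trans (by linarith [hM w hw, hM c hc]))) hz
  have a2 : ∀ z, ‖z - c‖ = δ → ‖dslope f c z - dslope f c c‖ ≤ 16 * M * δ := fun z hz => by
    have := dist_le_div_mul_dist_of_mapsTo_ball (R₂ := 8 * M)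
      ((differentiableOn_dslope (ball_mem_nhds c (by norm_num))).2 hd)
      (fun w hw => mem_closedBall_iff_norm.2 ((norm_sub_le _ _).trans
        (by linarith [a1 w hw, a1 c hc]))) (z := z) (mem_ball_iff_norm.2 (hz ▸ h1))
    rw [dist_eq_norm, dist_eq_norm, hz] at this; linarith
  have a3 : ∀ z, ‖z - c‖ = δ → ‖f z - f c‖ = δ * ‖dslope f c z‖ := fun z hz => by
    rw [← sub_smul_dslope, norm_smul, hz]
  have e : ‖c + δ - c‖ = δ := by simp [h0.le]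
  have a4 : ∀ z, ‖z - c‖ = δ → ‖f (c + δ)‖ - 2 * ‖f c‖ - 32 * M * δ ^ 2 ≤ ‖f z‖ := fun z hz => by
    have b1 := norm_sub_norm_le (dslope f c (c + δ)) (dslope f c z)
    have b2 := norm_sub_le_norm_sub_add_norm_sub (dslope f c (c + δ)) (dslope f c c) (dslope f c z)
    rw [norm_sub_rev (dslope f c c)] at b2
    have b3 : ‖dslope f c (c + δ)‖ - ‖dslope f c z‖ ≤ 32 * M * δ := by
      linarith [a2 z hz, a2 _ e]
    have := mul_le_mul_of_nonneg_left b3 h0.le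
    nlinarith [a3 z hz, a3 _ e, norm_sub_le (f z) (f c), norm_sub_norm_le (f (c + δ)) (f c)]
  have a5 := norm_le_of_forall_mem_frontier_norm_le (f := fun z => (f z)⁻¹) (U := ball c δ)
    (C := (‖f (c + δ)‖ - 2 * ‖f c‖ - 32 * M * δ ^ 2)⁻¹) isBounded_ball
    (DifferentiableOn.diffContOnCl (by
      rw [closure_ball c h0.ne']
      exact (hd.mono (closedBall_subset_ball h1)).inv fun z hz => hn z (mem_closedBall_iff_norm.1 hz)))
    (fun z hz => by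
      rw [frontier_ball c h0.ne'] at hz
      rw [norm_inv]
      exact inv_anti₀ (by linarith [norm_nonneg (f c)]) (a4 z (mem_sphere_iff_norm.1 hz)))
    (z := c) (subset_closure (mem_ball_self h0))
  rw [norm_inv, inv_le_inv₀ (norm_pos_iff.2 (hn c (by simp [h0.le])))
    (by linarith [norm_nonneg (f c)])] at a5
  linarith

theorem pi_cert {P m n s p r : ℕ} (hs : 1 ≤ s) (hn : P + 1 ≤ s * n)
    (hx : (B.divn ⟨0, p, 0⟩ (2 ^ m)).ub * 2 ^ s ≤ 2 ^ P) (h1 : 3 * 2 ^ P ≤ p) (h2 : 2 * p ≤ 7 * 2 ^ P)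
    (h : 2 * ((expb P m n ⟨0, p, 0⟩).add ⟨2 ^ P, 0, 0⟩).ub ≤ r) : |π * 2 ^ P - p| ≤ r := by
  have a := (expb_mem (z := ((p / 2 ^ P : ℝ) : ℂ) * I) (x := ⟨0, p, 0⟩) (by
    simp only [mem, B.c]; push_cast; field_simp; simp) hs hn hx).add
    (show mem P 1 ⟨2 ^ P, 0, 0⟩ by simp [mem, B.c]) |>.norm_le
  have hp : (0 : ℝ) < 2 ^ P := by positivity
  have b1 : (3 : ℝ) ≤ p / 2 ^ P := by rw [le_div_iff₀ hp]; exact_mod_cast h1
  have b2 : (p : ℝ) / 2 ^ P ≤ 7 / 2 := by rw [div_le_div_iff₀ hp two_pos]; exact_mod_cast (mul_comm 2 p ▸ h2)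
  have e : |π * 2 ^ P - p| = |p / 2 ^ P - π| * 2 ^ P := by
    rw [abs_sub_comm, ← abs_of_pos hp, ← abs_mul, abs_of_pos hp]; congr 1; field_simp
  generalize (p : ℝ) / 2 ^ P = x at *
  have c1 : |x - π| ≤ 1 / 2 := abs_le.2 ⟨by linarith [Real.pi_lt_d2], by linarith [Real.pi_gt_three]⟩
  have c2 : ‖((x - π : ℝ) : ℂ) * I‖ = |x - π| := by rw [norm_mul, norm_real]; simp
  have c3 := norm_exp_sub_one_sub_id_le (x := ((x - π : ℝ) : ℂ) * I) (by rw [c2]; linarith)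
  have c4 : ‖exp (((x - π : ℝ) : ℂ) * I) - 1‖ = ‖exp (x * I) + 1‖ := by
    rw [← norm_neg]; push_cast; rw [sub_mul, exp_sub, exp_pi_mul_I]; congr 1; ring
  have c5 := norm_sub_norm_le (((x - π : ℝ) : ℂ) * I) (exp (((x - π : ℝ) : ℂ) * I) - 1)
  rw [c2, c4, norm_sub_rev] at c5
  rw [c2] at c3
  have c6 : |x - π| ≤ 2 * ‖exp (x * I) + 1‖ := by nlinarith [abs_nonneg (x - π)]
  have : (2 * ((expb P m n ⟨0, p, 0⟩).add ⟨2 ^ P, 0, 0⟩).ub : ℝ) ≤ r := by exact_mod_cast h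
  rw [e]; nlinarith

lemma resc {P Q p r : ℕ} (h : |π * 2 ^ P - p| ≤ r) (k d v : ℕ) (hQ : Q ≤ P) (hd : 0 < d)
    (hv : (k * p - v * d * 2 ^ (P - Q) : ℤ).natAbs + k * r ≤ 2 * d * 2 ^ (P - Q)) :
    |k * π / d * 2 ^ Q - v| ≤ 2 := by
  obtain ⟨s, rfl⟩ := Nat.exists_eq_add_of_le hQ
  rw [Nat.add_sub_cancel_left] at hv
  have h1 : |(k * p - v * d * 2 ^ s : ℝ)| + k * r ≤ 2 * d * 2 ^ s := by
    have : (((k * p - v * d * 2 ^ s : ℤ).natAbs + k * r : ℕ) : ℝ) ≤ (2 * d * 2 ^ s : ℕ) := by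
      exact_mod_cast hv
    rw [Nat.cast_add, Nat.cast_natAbs] at this
    exact_mod_cast this
  have e : k * π / d * 2 ^ Q - v =
      (k * (π * 2 ^ (Q + s) - p) + (k * p - v * d * 2 ^ s)) / (d * 2 ^ s) := by field_simp; ring
  rw [e, abs_div, abs_of_pos (a := (d : ℝ) * 2 ^ s) (by positivity), div_le_iff₀ (by positivity)]
  refine (abs_add_le _ _).trans ?_
  rw [abs_mul, Nat.abs_cast]
  nlinarith [mul_le_mul_of_nonneg_left h (Nat.cast_nonneg (α := ℝ) k)]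

structure Par where
  (R K e Q Pl m s n rl piL Pi Pp shA PuA shB HA HB XB : ℕ)
  (lam : List ℕ)

def Par.l (p : Par) (k : ℕ) : B := ⟨p.lam.getD (k - 1) 0, 0, p.rl⟩

noncomputable def okLog (p : Par) (k : ℕ) : Bool :=
  (B.divn ⟨(p.l k).re, 0, 0⟩ (2 ^ p.m)).ub * 2 ^ p.s ≤ 2 ^ p.Pl &&
  2 * ((((expb p.Pl p.m p.n ⟨(p.l k).re, 0, 0⟩).mul p.Pl ⟨p.piL, 0, 2⟩).muln (k ^ 2)).add
    ⟨-(p.R * 2 ^ p.Pl), 0, 0⟩).ub ≤ p.rl * p.R

lemma log_mem {p : Par} {k : ℕ} (hk : 1 ≤ k) (hs : 1 ≤ p.s) (hn : p.Pl + 1 ≤ p.s * p.n)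
    (hR : 0 < p.R) (hr : p.rl ≤ 2 ^ p.Pl) (hpi : |π * 2 ^ p.Pl - p.piL| ≤ 2) (h : okLog p k = true) :
    mem p.Pl (Real.log (p.R / (π * k ^ 2)) : ℝ) (p.l k) := by
  simp only [okLog, Bool.and_eq_true, decide_eq_true_eq] at h
  have hp : (0 : ℝ) < 2 ^ p.Pl := by positivity
  have a := ((((expb_mem (z := (((p.l k).re / 2 ^ p.Pl : ℝ) : ℂ)) (x := ⟨(p.l k).re, 0, 0⟩) (by
    simp only [mem, B.c]; push_cast; field_simp; simp) hs hn h.1).mul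
    (show mem p.Pl (π : ℝ) ⟨p.piL, 0, 2⟩ by
      simp only [mem, B.c]; rw [← Real.norm_eq_abs, ← norm_real] at hpi; simpa using hpi)).muln
    (k ^ 2)).add (show mem p.Pl (-p.R) ⟨-(p.R * 2 ^ p.Pl), 0, 0⟩ by simp [mem, B.c])).norm_le
  have b : (2 * ((((expb p.Pl p.m p.n ⟨(p.l k).re, 0, 0⟩).mul p.Pl ⟨p.piL, 0, 2⟩).muln (k ^ 2)).add
    ⟨-(p.R * 2 ^ p.Pl), 0, 0⟩).ub : ℝ) ≤ p.rl * p.R := by exact_mod_cast h.2
  have ha := one_le_a hk
  have hR' : (0 : ℝ) < p.R := by exact_mod_cast hR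
  have hr' : (p.rl : ℝ) ≤ 2 ^ p.Pl := by exact_mod_cast hr
  obtain ⟨x, hx⟩ : ∃ x, x = (p.l k).re / 2 ^ p.Pl - Real.log (p.R / (π * k ^ 2)) := ⟨_, rfl⟩
  have e1 : ‖cexp (((p.l k).re / 2 ^ p.Pl : ℝ) : ℂ) * (π : ℝ) * (k ^ 2 : ℕ) + -p.R‖ =
      |Real.exp x - 1| * p.R := by
    rw [hx, Real.exp_sub, Real.exp_log (by positivity), ← abs_of_pos hR', ← abs_mul, abs_of_pos hR',
      ← Real.norm_eq_abs, ← norm_real]
    have : (k : ℂ) ≠ 0 := by exact_mod_cast (by omega : k ≠ 0)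
    have : (p.R : ℂ) ≠ 0 := by exact_mod_cast hR.ne'
    have : (π : ℂ) ≠ 0 := by exact_mod_cast Real.pi_ne_zero
    congr 1; push_cast; field_simp; ring
  rw [e1] at a
  have c1 : 2 * |Real.exp x - 1| * 2 ^ p.Pl ≤ p.rl := le_of_mul_le_mul_right (by linarith) hR'
  have c2 : 2 * |Real.exp x - 1| ≤ 1 := le_of_mul_le_mul_right (by linarith) hp
  have c3 : |x| ≤ 2 * |Real.exp x - 1| := by
    have d1 := Real.add_one_le_exp x
    have d2 := Real.add_one_le_exp (-x)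
    have d3 : Real.exp x * Real.exp (-x) = 1 := by rw [← Real.exp_add]; simp
    have d4 := neg_abs_le (Real.exp x - 1)
    have d5 := le_abs_self (Real.exp x - 1)
    refine abs_le.2 ⟨?_, by linarith [abs_nonneg (Real.exp x - 1)]⟩
    by_contra! hc
    nlinarith [Real.exp_pos x, abs_nonneg (Real.exp x - 1)]
  have e2 : ((Real.log (p.R / (π * k ^ 2)) : ℝ) : ℂ) * 2 ^ p.Pl - (p.l k).c =
      ((-(x * 2 ^ p.Pl) : ℝ) : ℂ) := by
    rw [hx, sub_mul, div_mul_cancel₀ _ hp.ne']; simp [B.c, Par.l]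
  unfold mem
  rw [e2, norm_real, norm_neg, Real.norm_eq_abs, abs_mul, abs_of_pos hp]
  exact (mul_le_mul_of_nonneg_right c3 hp.le).trans c1

def sig (p : Par) (X : ℕ) (Y : ℤ) : B := ⟨X * 2 ^ (p.Pl - p.e), Y * 2 ^ (p.Pl - p.e), 0⟩

noncomputable def lamB (p : Par) (X : ℕ) (Y : ℤ) (L : List ℕ) : B :=
  L.foldr (fun k b => (expb p.Pl p.m p.n ((sig p X Y).mul p.Pl (p.l k))).add b) ⟨0, 0, 0⟩

def lamOK (p : Par) (X : ℕ) (Y : ℤ) (k : ℕ) : Bool :=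
  (((sig p X Y).mul p.Pl (p.l k)).divn (2 ^ p.m)).ub * 2 ^ p.s ≤ 2 ^ p.Pl

lemma lam_mem {p : Par} {X : ℕ} {Y : ℤ} (hs : 1 ≤ p.s) (hn : p.Pl + 1 ≤ p.s * p.n)
    (he : p.e ≤ p.Pl) (g : ℕ → ℝ) (L : List ℕ) (h : ∀ k ∈ L, mem p.Pl (g k) (p.l k))
    (h' : L.all (lamOK p X Y) = true) :
    mem p.Pl (L.map fun k => exp ((X + Y * I) / 2 ^ p.e * g k)).sum (lamB p X Y L) := by
  have m2 : mem p.Pl ((X + Y * I) / 2 ^ p.e) (sig p X Y) := by
    obtain ⟨k, hk⟩ := Nat.exists_eq_add_of_le he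
    simp only [mem, B.c, sig, hk, Nat.add_sub_cancel_left, Nat.cast_zero, norm_le_zero_iff]
    push_cast; field_simp; ring
  induction L with
  | nil => simp [mem, lamB, B.c]
  | cons k L ih =>
    simp only [List.all_cons, Bool.and_eq_true, List.mem_cons, forall_eq_or_imp] at h h'
    exact (expb_mem (m2.mul h.1) hs hn (of_decide_eq_true h'.1)).add (ih h.2 h'.2)

lemma H_le {b X H : ℕ} {xs : List ℕ} (hb : 0 < b) (h : ∀ x ∈ xs, x ≤ b * X)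
    (hH : xs.length * 11 ^ X ≤ H * 4 ^ X) : (xs.map fun x : ℕ => Real.exp (x / b)).sum ≤ H := by
  have : (xs.map fun x : ℕ => Real.exp (x / b)).sum ≤ xs.length • ((11 : ℝ) / 4) ^ X := by
    rw [← List.length_map (fun x : ℕ => Real.exp (x / b))]
    refine List.sum_le_card_nsmul _ _ fun y hy => ?_
    obtain ⟨x, hx, rfl⟩ := List.mem_map.1 hy
    calc _ ≤ Real.exp (X * 1) := Real.exp_le_exp.2 (by
          rw [div_le_iff₀ (by positivity), mul_one, mul_comm]; exact_mod_cast h x hx)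
      _ ≤ _ := by rw [Real.exp_nat_mul]; gcongr; linarith [Real.exp_one_lt_d9]
  refine this.trans ?_
  rw [nsmul_eq_mul, div_pow, ← mul_div_assoc, div_le_iff₀ (by positivity)]
  exact_mod_cast hH

def xs1 : List ℕ := (List.range' 1 20).map fun k => 16 * k ^ 2
def xs2 : List ℕ := (List.range' 21 7).map fun k => 16 * k ^ 2

/-- cheap side conditions -/
def Par.ok (p : Par) (P pi r Y : ℕ) : Prop :=
  1 ≤ p.s ∧ p.Pl + 1 ≤ p.s * p.n ∧ 2300 ≤ p.R ∧ p.rl ≤ 2 ^ p.Pl ∧ p.e ≤ p.Pl ∧ p.Pl ≤ p.Q ∧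
  p.Pl ≤ P ∧ p.Pp ≤ P ∧ p.K % 2 = 0 ∧ 2 * p.R + 1 ≤ p.K ∧ p.Pi ≤ 2 ^ p.Pp ∧
  (1 * pi - p.piL * 1 * 2 ^ (P - p.Pl) : ℤ).natAbs + 1 * r ≤ 2 * 1 * 2 ^ (P - p.Pl) ∧
  (5 * pi - p.Pi * 16 * 2 ^ (P - p.Pp) : ℤ).natAbs + 5 * r ≤ 2 * 16 * 2 ^ (P - p.Pp) ∧
  0 + p.PuA = p.shA + 2 * p.e + p.Q ∧ p.Pp + p.Pp = p.shB + 2 * p.e + p.Q ∧
  1 * 11 ^ p.R ≤ p.HA * 4 ^ p.R ∧ (2333 ≤ p.XB ∧ 20 * 11 ^ p.XB ≤ p.HB * 4 ^ p.XB) ∧
  (2 * p.K + 1) * p.K * ((p.K * 0 * p.HA * 2 ^ p.PuA + 2 ^ 0 * p.HA) / 2 ^ p.shA + 2) ≤ Y * Y ∧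
  (2 * p.K + 1) * p.K * ((p.K * 3 * p.HB * 2 ^ p.Pp + 2 ^ p.Pp * p.HB) / 2 ^ p.shB + 2) ≤ Y * Y ∧
  270 * p.R ^ 4 * 100 ^ p.R * 2 ^ p.Q ≤ 271 ^ p.R ∧
  1080 * p.R ^ 3 * (272 * p.R) ^ (p.K - 2) * 2 ^ p.Q ≤ (100 * (p.K - 2)) ^ (p.K - 2) ∧ 2 ≤ p.e

instance (p : Par) (P pi r Y : ℕ) : Decidable (p.ok P pi r Y) := by unfold Par.ok; infer_instance

noncomputable def Par.sA (p : Par) (X Y : ℕ) := ser 1 1 0 p.shA p.PuA p.e p.K X Y [p.R]
noncomputable def Par.sB (p : Par) (X Y : ℕ) (xs : List ℕ) :=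
  ser 5 p.Pi p.Pp p.shB p.Pp p.e p.K X Y xs

def sideB (p : Par) (X : ℕ) (Y : ℤ) (L : B) (a b c : ℤ × ℤ) : B :=
  ((L.muln (2 ^ (p.Q - p.Pl))).mul p.Q (fb p.Q p.e p.K X Y a)).add
    ((fb p.Q p.e p.K X Y b).add (fb p.Q p.e p.K X Y c)).neg

theorem side_mem {p : Par} {P pi r X Y0 : ℕ} {Y : ℤ} (hpi : |π * 2 ^ P - pi| ≤ r)
    (ok : p.ok P pi r Y0) (hY : Y0 ≤ Y.natAbs) (hY0 : Y ≠ 0)
    (hl : (List.range' 1 27).all (okLog p) = true)
    (hl' : (List.range' 1 27).all (lamOK p X Y) = true) :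
    mem p.Q (∑ n ∈ Finset.Icc 1 27, (exp ((X + Y * I) / 2 ^ p.e * Real.log (p.R / (π * (n : ℕ) ^ 2))) *
      Fs p.R p.K ((X + Y * I) / 2 ^ p.e) - Fs (π * (n : ℕ) ^ 2) p.K ((X + Y * I) / 2 ^ p.e)))
      (sideB p X Y (lamB p X Y (List.range' 1 27)) (p.sA X Y.natAbs) (p.sB X Y.natAbs xs1)
        (p.sB X Y.natAbs xs2)) := by
  obtain ⟨o1, o2, o3, o4, o5, o6, o7, o8, o9, -, o11, o12, o13, o14, o15, o16, o17, o18, o19, -⟩ := ok
  have yy := Nat.mul_le_mul hY hY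
  have H1 := H_le (b := 5) (xs := xs1) (by norm_num) (fun x hx => le_trans
    ((show ∀ x ∈ xs1, x ≤ 5 * 2333 by decide +kernel) x hx) (by omega)) o17.2
  have H2 := H_le (b := 5) (xs := xs2) (by norm_num) (fun x hx => le_trans
    ((show ∀ x ∈ xs2, x ≤ 5 * 2333 by decide +kernel) x hx) (by omega))
    (le_trans (Nat.mul_le_mul_right _ (by decide +kernel)) o17.2)
  have p1 := resc hpi 1 1 p.piL o7 one_pos o12
  have p2 := resc hpi 5 16 p.Pi o8 (by norm_num) o13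
  have m1 := (lam_mem o1 o2 o5 (fun k => Real.log (p.R / (π * k ^ 2))) _ (fun k hk => log_mem
    (List.mem_range'_1.1 hk).1 o1 o2 (by omega) o4 (by simpa using p1) (List.all_eq_true.1 hl k hk))
    hl').up (Q := p.Q - p.Pl)
  rw [Nat.add_sub_cancel' o6] at m1
  have hK := Nat.even_iff.2 o9
  have mA := ser_mem (ρ := 1) (X := X) (Pi := 1) (Pp := 0) (δ := 0) (xs := [p.R]) one_pos zero_le_one le_rfl
    le_rfl (by simp) (H_le (X := p.R) one_pos (by simp) o16) o14 (o18.trans yy) hY0 hK (o5.trans o6)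
  have r0 : 0 ≤ 5 * π / 16 := by positivity
  have r1 : 5 * π / 16 ≤ 1 := by linarith [Real.pi_lt_d2]
  have mB := fun xs hH => ser_mem (ρ := 5 * π / 16) (X := X) (δ := 3) (b := 5) (xs := xs)
    (by norm_num) r0 r1 o11 (fun q hq => by
      have a := fl ((q * p.Pi : ℕ) : ℤ) (k := 2 ^ p.Pp) (by positivity)
      rw [show ((((q * p.Pi : ℕ) : ℤ) / ((2 ^ p.Pp : ℕ) : ℤ) : ℤ) : ℝ) = (q * p.Pi / 2 ^ p.Pp : ℕ) by
        norm_cast] at a
      have e : 5 * π / 16 * q - (q * p.Pi / 2 ^ p.Pp : ℕ) = q / 2 ^ p.Pp * (5 * π / 16 * 2 ^ p.Pp - p.Pi)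
        + ((((q * p.Pi : ℕ) : ℤ) : ℝ) / (2 ^ p.Pp : ℕ) - (q * p.Pi / 2 ^ p.Pp : ℕ)) := by
        rw [Int.cast_natCast, Nat.cast_mul, Nat.cast_pow]; field_simp; ring
      have b : (q : ℝ) / 2 ^ p.Pp ≤ 1 := by rw [div_le_one (by positivity)]; exact_mod_cast hq
      rw [e]
      refine (abs_add_le _ _).trans ?_
      rw [abs_mul, abs_of_nonneg (by positivity)]
      have := mul_le_mul b p2 (abs_nonneg _) zero_le_one
      push_cast at *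
      linarith) hH o15 (o19.trans yy) hY0 hK (o5.trans o6)
  have := (m1.mul mA).add ((mB xs1 H1).add (mB xs2 H2)).neg
  refine (congrArg (fun z => mem p.Q z _) ?_).mp this
  rw [Finset.sum_sub_distrib, ← Finset.sum_mul, ← sub_eq_add_neg]
  congr 1
  · congr 1
    simp [Fs, cf]
  · simp only [Fs, ← Finset.sum_add_distrib]
    rw [Finset.sum_comm]
    refine Finset.sum_congr rfl fun j _ => ?_
    rw [← Finset.sum_div, ← Finset.mul_sum, ← add_div, ← mul_add, ← ofReal_add, ← ofReal_sum]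
    congr 3
    have e : ∀ k : ℕ, (5 * π / 16) ^ j * ((((16 * k ^ 2 : ℕ) : ℝ) / (5 : ℕ)) ^ j / j.factorial) =
        (π * k ^ 2) ^ j / j.factorial := fun k => by
      rw [← mul_div_assoc, ← mul_pow]; congr 2; push_cast; ring
    rw [cf, cf, ← mul_add, ← mul_add, ← List.sum_append, ← List.map_append, ← List.sum_map_mul_left,
      ← Finset.mul_sum, show xs1 ++ xs2 = (List.range' 1 27).map fun k => 16 * k ^ 2 by decide +kernel,
      List.map_map]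
    congr 1
    exact congrArg List.sum (List.map_congr_left fun k _ => e k)

theorem val_mem {p : Par} {P pi r X X' Y0 : ℕ} {Y : ℤ} (hpi : |π * 2 ^ P - pi| ≤ r)
    (ok : p.ok P pi r Y0) (hY : Y0 ≤ Y.natAbs) (hY0 : Y ≠ 0) (hX : X + X' = 2 ^ (p.e - 1))
    (hl : (List.range' 1 27).all (okLog p) = true)
    (h1 : (List.range' 1 27).all (lamOK p X Y) = true)
    (h2 : (List.range' 1 27).all (lamOK p X' (-Y)) = true) :
    mem p.Q (Xi 27 ((2 * Y + (X' - X) * I) / 2 ^ p.e))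
      (((sideB p X Y (lamB p X Y (List.range' 1 27)) (p.sA X Y.natAbs) (p.sB X Y.natAbs xs1)
        (p.sB X Y.natAbs xs2)).add (sideB p X' (-Y) (lamB p X' (-Y) (List.range' 1 27))
        (p.sA X' Y.natAbs) (p.sB X' Y.natAbs xs1) (p.sB X' Y.natAbs xs2))).add ⟨0, 0, 2⟩) := by
  have a := (side_mem hpi ok hY hY0 hl h1).add (side_mem hpi ok (by simpa using hY)
    (neg_ne_zero.2 hY0) hl h2)
  rw [Int.natAbs_neg] at a
  obtain ⟨-, -, o3, -, -, -, -, -, -, o10, -, -, -, -, -, -, -, -, -, o20, o21, o22⟩ := ok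
  refine a.widen ?_
  obtain ⟨m, hm⟩ : ∃ m, p.K = m + 2 := ⟨p.K - 2, by omega⟩
  obtain ⟨e, he⟩ : ∃ e, p.e = e + 1 := ⟨p.e - 1, by omega⟩
  rw [hm, Nat.add_sub_cancel] at o21
  rw [he, Nat.add_sub_cancel] at hX
  have hX' : (X : ℝ) + X' = 2 ^ e := by exact_mod_cast hX
  have hXc : (X : ℂ) + X' = 2 ^ e := by exact_mod_cast hX
  have hR : (2300 : ℝ) ≤ p.R := by exact_mod_cast o3
  have e2 : (2 : ℂ) ^ (e + 1) = ((2 ^ (e + 1) : ℝ) : ℂ) := by simp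
  rw [← Finset.sum_add_distrib, Xi, ← Finset.sum_sub_distrib, hm, he]
  refine (mul_le_mul_of_nonneg_right ((norm_sum_le _ _).trans (Finset.sum_le_card_nsmul _ _ _
    fun n hn => Phi_approx (Finset.mem_Icc.1 hn).1 ?_ ?_ (by linarith) ?_ ?_ ?_ ?_)) (by positivity)).trans ?_
  · rw [e2, div_ofReal_im, abs_div, abs_of_pos (a := (2 : ℝ) ^ (e + 1)) (by positivity),
      div_le_one (by positivity), pow_succ, ← hX']
    simp only [add_im, mul_im, sub_re, sub_im]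
    simp [abs_le]; constructor <;> nlinarith [Nat.cast_nonneg (α := ℝ) X, Nat.cast_nonneg (α := ℝ) X']
  · rw [e2, div_ofReal_re]; simp [hY0]
  · have : (n : ℝ) ≤ 27 := by exact_mod_cast (Finset.mem_Icc.1 hn).2
    nlinarith [Real.pi_lt_d2, Real.pi_pos, mul_self_le_mul_self (Nat.cast_nonneg (α := ℝ) n) this]
  · exact_mod_cast (by omega : 2 * p.R ≤ m + 1)
  · field_simp; linear_combination (4 : ℂ) * hXc - 4 * (X' - X) * I_mul_I
  · push_cast; field_simp; linear_combination (4 : ℂ) * hXc + 4 * (X' - X) * I_mul_I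
  have b1 : 270 * (p.R ^ 4 * Real.exp (-p.R)) * 2 ^ p.Q ≤ 1 := by
    have c1 : ((271 : ℝ) / 100) ^ p.R ≤ Real.exp p.R := by
      rw [← mul_one (p.R : ℝ), Real.exp_nat_mul]; gcongr; linarith [Real.exp_one_gt_d9]
    have c2 : (270 * p.R ^ 4 * 100 ^ p.R * 2 ^ p.Q : ℝ) ≤ 271 ^ p.R := by exact_mod_cast o20
    rw [div_pow, div_le_iff₀ (by positivity)] at c1
    rw [Real.exp_neg, ← div_eq_mul_inv, ← mul_div_assoc, div_mul_eq_mul_div, div_le_one (by positivity)]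
    exact le_of_mul_le_mul_right (a := (100 : ℝ) ^ p.R) (by linarith) (by positivity)
  have b2 : 1080 * ((p.R : ℝ) ^ (m + 3) / m.factorial) * 2 ^ p.Q ≤ 1 := by
    have c1 := Real.pow_div_factorial_le_exp (m : ℝ) (by positivity) m
    have c3 : Real.exp m ≤ ((272 : ℝ) / 100) ^ m := by
      rw [← mul_one (m : ℝ), Real.exp_nat_mul]; gcongr; linarith [Real.exp_one_lt_d9]
    have c2 : (1080 * p.R ^ 3 * (272 * p.R) ^ m * 2 ^ p.Q : ℝ) ≤ (100 * m) ^ m := by exact_mod_cast o21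
    have c4 := c1.trans c3
    rw [div_pow, div_le_div_iff₀ (by positivity) (by positivity)] at c4
    rw [← mul_div_assoc, div_mul_eq_mul_div, div_le_one (by positivity)]
    rw [mul_pow, mul_pow] at c2
    exact le_of_mul_le_mul_right (a := (272 : ℝ) ^ m) (by rw [pow_add]; linarith) (by positivity)
  simp only [Nat.card_Icc, nsmul_eq_mul]
  push_cast
  linarith

end Pool.Agent.H58.Hag
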