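import Mathlib

namespace Pool.Agent.H58.Harm
open Matrix

variable {m : ℕ}

/-- The `i`-th partial derivative. -/
noncomputable def pd (u : EuclideanSpace ℝ (Fin m) → ℝ) (i : Fin m)
    (y : EuclideanSpace ℝ (Fin m)) : ℝ := fderiv ℝ u y (EuclideanSpace.single i 1)

/-- Christoffel symbols of the metric with coefficient matrix `g`. -/
noncomputable def chris (g : EuclideanSpace ℝ (Fin m) → Matrix (Fin m) (Fin m) ℝ) (k i j : Fin m)
    (y : EuclideanSpace ℝ (Fin m)) : ℝ :=
  (∑ l, (g y)⁻¹ k l * (pd (g · j l) i y + pd (g · i l) j y - pd (g · i j) l y)) / 2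

/-- The trace `tr_g ∇du` of the Riemannian Hessian of a function `u`, in coordinates. -/
noncomputable def lapl (g : EuclideanSpace ℝ (Fin m) → Matrix (Fin m) (Fin m) ℝ)
    (u : EuclideanSpace ℝ (Fin m) → ℝ) (y : EuclideanSpace ℝ (Fin m)) : ℝ :=
  ∑ i, ∑ j, (g y)⁻¹ i j * (pd (pd u j) i y - ∑ k, chris g k i j y * pd u k y)

/-- The covering map of the flat torus `ℝ²/ℤ²`. -/
def proj (p : ℝ × ℝ) : UnitAddCircle × UnitAddCircle := (p.1, p.2)

variable {M : Type} [TopologicalSpace M] [ChartedSpace (EuclideanSpace ℝ (Fin m)) M]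

/-- `g x` is a `C¹` positive definite coefficient matrix on the target of the chart at `x`. -/
def IsMetric (g : M → EuclideanSpace ℝ (Fin m) → Matrix (Fin m) (Fin m) ℝ) : Prop :=
  ∀ x, (∀ i j, ContDiffOn ℝ 1 (g x · i j) (chartAt (EuclideanSpace ℝ (Fin m)) x).target) ∧
    ∀ y ∈ (chartAt (EuclideanSpace ℝ (Fin m)) x).target, (g x y).PosDef

/-- Near each point, in the chart at that point, `φ` has a `C²` lift to the plane whose two
components have vanishing Laplacian: the tension field of `φ` vanishes. -/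
def IsHarmonic (g : M → EuclideanSpace ℝ (Fin m) → Matrix (Fin m) (Fin m) ℝ)
    (φ : M → UnitAddCircle × UnitAddCircle) : Prop :=
  ∀ x, ∃ (W : Set (EuclideanSpace ℝ (Fin m))) (u v : EuclideanSpace ℝ (Fin m) → ℝ), IsOpen W ∧
    chartAt (EuclideanSpace ℝ (Fin m)) x x ∈ W ∧
    W ⊆ (chartAt (EuclideanSpace ℝ (Fin m)) x).target ∧ ContDiffOn ℝ 2 u W ∧ ContDiffOn ℝ 2 v W ∧
    ∀ y ∈ W, φ ((chartAt (EuclideanSpace ℝ (Fin m)) x).symm y) = proj (u y, v y) ∧
      lapl (g x) u y = 0 ∧ lapl (g x) v y = 0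

end Pool.Agent.H58.Harm
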