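import Mathlib

set_option autoImplicit false

namespace Pool.Agent.H58.Hx

open Finset

theorem princ {A : Type*} [CommRing A] [IsDomain A] [UniqueFactorizationMonoid A]
    (I : Ideal (Polynomial A)) (hI : I.IsPrime) (h0 : ∀ a, Polynomial.C a ∈ I → a = 0) :
    ∃ R ∈ I, ∀ S ∈ I, R ∣ S := by
  classical
  let := UniqueFactorizationMonoid.strongNormalizationMonoid (α := A)
  let := UniqueFactorizationMonoid.toNormalizedGCDMonoid A
  by_cases h : ∀ S ∈ I, S = 0
  · exact ⟨0, I.zero_mem, fun S hS => by simp [h S hS]⟩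
  push Not at h
  have hex : ∃ n, ∃ S ∈ I, S ≠ 0 ∧ S.natDegree = n := by
    obtain ⟨S, h1, h2⟩ := h; exact ⟨_, S, h1, h2, rfl⟩
  obtain ⟨S0, hS0, hS0', hd⟩ := Nat.find_spec hex
  have hmin : ∀ S ∈ I, S ≠ 0 → S0.natDegree ≤ S.natDegree := fun S h1 h2 =>
    hd ▸ Nat.find_min' hex ⟨S, h1, h2, rfl⟩
  set R := S0.primPart with hR
  have hRI : R ∈ I := by
    have := S0.eq_C_content_mul_primPart
    rw [this] at hS0
    exact (hI.mem_or_mem hS0).resolve_left fun h => hS0' (Polynomial.content_eq_zero_iff.1 (h0 _ h))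
  have hRd : R.natDegree = S0.natDegree := S0.natDegree_primPart
  have hR0 : R ≠ 0 := S0.primPart_ne_zero
  have key : ∀ n, ∀ S ∈ I, S.natDegree = n → ∃ c, c ≠ 0 ∧ R ∣ Polynomial.C c * S := by
    intro n
    induction n using Nat.strong_induction_on with
    | _ n ih =>
      intro S hS hn
      by_cases hS0 : S = 0
      · exact ⟨1, one_ne_zero, by simp [hS0]⟩
      have h1 : R.natDegree ≤ S.natDegree := hRd ▸ hmin S hS hS0
      have h2 : 0 < S.natDegree := by
        by_contra hc
        have := Polynomial.eq_C_of_natDegree_eq_zero (by omega : S.natDegree = 0)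
        rw [this] at hS
        exact hS0 (by rw [this, h0 _ hS, map_zero])
      have h3 := Polynomial.natDegree_cancelLeads_lt_of_natDegree_le_natDegree h1 h2
      obtain ⟨c, hc, hdv⟩ := ih _ (hn ▸ h3) (R.cancelLeads S)
        (I.sub_mem (I.mul_mem_left _ hS) (I.mul_mem_left _ hRI)) rfl
      refine ⟨c * R.leadingCoeff, mul_ne_zero hc (Polynomial.leadingCoeff_ne_zero.2 hR0), ?_⟩
      rw [Polynomial.cancelLeads, Nat.sub_eq_zero_of_le h1, pow_zero, mul_one, mul_sub] at hdv
      have := dvd_add hdv (Dvd.dvd.mul_left (Dvd.intro_left (Polynomial.C S.leadingCoeff *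
        Polynomial.X ^ (S.natDegree - R.natDegree)) rfl) (Polynomial.C c))
      rwa [sub_add_cancel, ← mul_assoc, ← map_mul] at this
  refine ⟨R, hRI, fun S hS => ?_⟩
  by_cases hS0 : S = 0
  · simp [hS0]
  obtain ⟨c, hc, hdv⟩ := key _ S hS rfl
  have hne : Polynomial.C c * S ≠ 0 := mul_ne_zero (by simpa using hc) hS0
  rw [← S0.isPrimitive_primPart.dvd_primPart_iff_dvd hne,
    (Polynomial.associated_primPart_mul hne).dvd_iff_dvd_right,
    (Polynomial.isUnit_primPart_C c).dvd_mul_left] at hdv
  exact hdv.trans S.primPart_dvd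

open MvPolynomial

theorem finrank_hom (σ Λ : Type*) [Fintype σ] [CommRing Λ] [Nontrivial Λ] (m : ℕ) :
    Module.finrank Λ (homogeneousSubmodule σ Λ m) = (Fintype.card σ + m - 1).choose m := by
  classical
  rw [homogeneousSubmodule_eq_finsupp_supported]
  have e : {d : σ →₀ ℕ | d.degree = m} = ↑(finsuppAntidiag (univ : Finset σ) m) := by
    ext d; simp [Finsupp.degree_eq_sum]
  rw [e, (AddMonoidAlgebra.supportedEquivFinsupp _).finrank_eq, Module.finrank_finsupp_self]
  simp [card_finsuppAntidiag_nat_eq_choose]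

theorem top_mul {σ Λ : Type*} [CommRing Λ] (G R : MvPolynomial σ Λ) :
    homogeneousComponent (G.totalDegree + R.totalDegree) (G * R) =
      homogeneousComponent G.totalDegree G * homogeneousComponent R.totalDegree R := by
  conv_lhs => rw [← G.sum_homogeneousComponent, ← R.sum_homogeneousComponent]
  rw [G.sum_homogeneousComponent, R.sum_homogeneousComponent]
  conv_lhs => arg 2; rw [← G.sum_homogeneousComponent, ← R.sum_homogeneousComponent]
  rw [sum_mul_sum, map_sum, Finset.sum_eq_single G.totalDegree, map_sum,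
    Finset.sum_eq_single R.totalDegree]
  · exact homogeneousComponent_eq_self
      ((homogeneousComponent_isHomogeneous _ _).mul (homogeneousComponent_isHomogeneous _ _))
  · intro j hj hne
    rw [homogeneousComponent_of_mem
      ((homogeneousComponent_isHomogeneous _ _).mul (homogeneousComponent_isHomogeneous _ _)), if_neg]
    omega
  · simp
  · intro i hi hne
    rw [map_sum]
    refine Finset.sum_eq_zero fun j hj => ?_
    rw [homogeneousComponent_of_mem
      ((homogeneousComponent_isHomogeneous _ _).mul (homogeneousComponent_isHomogeneous _ _)), if_neg]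
    simp only [mem_range] at hi hj
    omega
  · simp

theorem comp_zero {σ τ R S : Type*} [CommRing R] [CommRing S] [Algebra R S] {d : ℕ} (hd : 0 < d)
    {g : σ → MvPolynomial τ S} (hg : ∀ i, (g i).IsHomogeneous d) {a : MvPolynomial σ R}
    (h : aeval g a = 0) (j : ℕ) : aeval g (homogeneousComponent j a) = 0 := by
  by_cases hj : a.totalDegree < j
  · rw [homogeneousComponent_eq_zero _ _ hj, map_zero]
  rw [← a.sum_homogeneousComponent, map_sum] at h
  have := congrArg (homogeneousComponent (d * j)) h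
  rw [map_sum, map_zero, Finset.sum_eq_single j, homogeneousComponent_eq_self
    ((homogeneousComponent_isHomogeneous _ _).aeval g hg)] at this
  · exact this
  · intro i _ hi
    rw [homogeneousComponent_of_mem ((homogeneousComponent_isHomogeneous _ _).aeval g hg), if_neg]
    intro h'
    exact hi (Nat.eq_of_mul_eq_mul_left hd h').symm
  · intro h'; simp at h'; omega

theorem numeric {n d e : ℕ}
    (h : ∀ k, (k + e + n + 1).choose (n + 1) ≤ (k + n + 1).choose (n + 1) + (d * (k + e) + n).choose n) :
    e ≤ d ^ n := by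
  have h1 : ∀ k t, (k + n + 1).choose (n + 1) + t * (k + n).choose n ≤ (k + t + n + 1).choose (n + 1) := by
    intro k t
    induction t with
    | zero => simp
    | succ t ih =>
      rw [show k + (t + 1) + n + 1 = (k + t + n + 1) + 1 by ring, Nat.choose_succ_succ (k + t + n + 1)]
      have := Nat.choose_le_choose n (show k + n ≤ k + t + n + 1 by omega)
      simp only [Nat.succ_eq_add_one]
      nlinarith
  have h2 : ∀ k, e * k ^ n ≤ (d * k + (d * e + n)) ^ n := by
    intro k
    have a1 : e * (k + n).choose n ≤ (d * (k + e) + n).choose n := by have := h1 k e; have := h k; omega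
    have a2 := Nat.ascFactorial_eq_factorial_mul_choose k n
    have a3 := Nat.ascFactorial_eq_factorial_mul_choose (d * (k + e)) n
    have a4 := Nat.pow_succ_le_ascFactorial (k + 1) n
    have a5 := Nat.ascFactorial_le_pow_add (d * (k + e)) n
    have a6 : k ^ n ≤ (k + 1) ^ n := Nat.pow_le_pow_left (by omega) n
    calc e * k ^ n ≤ e * (n.factorial * (k + n).choose n) := by gcongr; omega
      _ = n.factorial * (e * (k + n).choose n) := by ring
      _ ≤ n.factorial * (d * (k + e) + n).choose n := by gcongr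
      _ ≤ _ := by rw [← a3]; convert a5 using 2; ring
  have h3 : Filter.Tendsto (fun k : ℕ => ((d : ℝ) + ((d * e + n : ℕ) : ℝ) / k) ^ n) Filter.atTop
      (nhds (((d : ℝ) + 0) ^ n)) :=
    (tendsto_const_nhds.add (tendsto_const_div_atTop_nhds_zero_nat _)).pow n
  have h4 : (e : ℝ) ≤ ((d : ℝ) + 0) ^ n := by
    refine ge_of_tendsto h3 ?_
    filter_upwards [Filter.eventually_gt_atTop 0] with k hk
    have hk' : (0 : ℝ) < k := by exact_mod_cast hk
    have : (d : ℝ) + ((d * e + n : ℕ) : ℝ) / k = ((d * k + (d * e + n) : ℕ) : ℝ) / k := by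
      push_cast; field_simp
    rw [this, div_pow, le_div_iff₀ (by positivity)]
    exact_mod_cast h2 k
  rw [add_zero] at h4
  exact_mod_cast h4

theorem count {Λ : Type*} [CommRing Λ] [IsDomain Λ] {n d e : ℕ}
    {g : Fin (n + 2) → MvPolynomial (Fin (n + 1)) Λ} (hg : ∀ i, (g i).IsHomogeneous d)
    (R : MvPolynomial (Fin (n + 2)) Λ)
    (h : ∀ k, ∀ S : MvPolynomial (Fin (n + 2)) Λ, S.IsHomogeneous (k + e) → aeval g S = 0 →
      ∃ G : MvPolynomial (Fin (n + 2)) Λ, G.IsHomogeneous k ∧ S = G * R) : e ≤ d ^ n := by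
  apply numeric
  intro k
  have fin : ∀ (σ : Type) [Finite σ] (m : ℕ), Module.Finite Λ (homogeneousSubmodule σ Λ m) :=
    fun σ _ m => Module.Finite.iff_fg.2 (homogeneousSubmodule_fg σ Λ m)
  let φ : homogeneousSubmodule (Fin (n + 2)) Λ (k + e) →ₗ[Λ]
      homogeneousSubmodule (Fin (n + 1)) Λ (d * (k + e)) :=
    (aeval g).toLinearMap.restrict fun S hS => IsHomogeneous.aeval hS g hg
  have h1 := Submodule.finrank_quotient_add_finrank (LinearMap.ker φ)
  rw [φ.quotKerEquivRange.finrank_eq] at h1
  have h2 := Submodule.finrank_le (LinearMap.range φ)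
  have h3 : Module.finrank Λ (LinearMap.ker φ) ≤
      Module.finrank Λ (homogeneousSubmodule (Fin (n + 2)) Λ k) := by
    let μ : homogeneousSubmodule (Fin (n + 2)) Λ k →ₗ[Λ] MvPolynomial (Fin (n + 2)) Λ :=
      (LinearMap.mulRight Λ R).domRestrict _
    have a1 : (LinearMap.ker φ).map (Submodule.subtype _) ≤ LinearMap.range μ := by
      rintro _ ⟨S, hS, rfl⟩
      obtain ⟨G, hG, e⟩ := h k S.1 S.2 (congrArg Subtype.val hS)
      exact ⟨⟨G, hG⟩, e.symm⟩
    rw [← Submodule.finrank_map_subtype_eq]
    exact (Submodule.finrank_mono a1).trans (LinearMap.finrank_range_le μ)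
  rw [finrank_hom] at h1 h2 h3
  simp only [Fintype.card_fin] at h1 h2 h3
  rw [Nat.choose_symm_of_eq_add (b := n + 1) (by omega)] at h1 h3
  rw [Nat.choose_symm_of_eq_add (b := n) (by omega)] at h2
  rw [show n + 2 + (k + e) - 1 = k + e + n + 1 by omega] at h1
  rw [show n + 2 + k - 1 = k + n + 1 by omega] at h3
  rw [show n + 1 + d * (k + e) - 1 = d * (k + e) + n by omega] at h2
  omega

theorem span_prod {σ Λ : Type*} [Fintype σ] [CommRing Λ] {e : ℕ} {R : MvPolynomial σ Λ}
    (hR : R.IsHomogeneous e) : ∃ A : (Fin e → σ) → Λ, R = ∑ I, C (A I) * ∏ a, X (I a) := by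
  classical
  have key : ∀ (e : ℕ) (α : σ →₀ ℕ), α.degree = e →
      ∃ I : Fin e → σ, (monomial α 1 : MvPolynomial σ Λ) = ∏ a, X (I a) := by
    intro e
    induction e with
    | zero =>
      intro α h
      rw [Finsupp.degree_eq_zero_iff] at h
      exact ⟨Fin.elim0, by simp [h]⟩
    | succ e ih =>
      intro α h
      obtain ⟨i, hi⟩ : ∃ i, α i ≠ 0 := by
        by_contra hc
        push Not at hc
        have : α = 0 := Finsupp.ext hc
        simp [this] at h
      have e1 : α = Finsupp.single i 1 + (α - Finsupp.single i 1) := by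
        rw [add_tsub_cancel_of_le]
        exact Finsupp.single_le_iff.2 (by omega)
      obtain ⟨I, hI⟩ := ih (α - Finsupp.single i 1) (by
        rw [e1, map_add, Finsupp.degree_single] at h; omega)
      refine ⟨Fin.cons i I, ?_⟩
      rw [Fin.prod_univ_succ, e1]
      simp only [Fin.cons_zero, Fin.cons_succ, ← hI]
      rw [X, monomial_mul, one_mul]
  have : R ∈ Submodule.span Λ (Set.range fun I : Fin e → σ => (∏ a, X (I a) : MvPolynomial σ Λ)) := by
    rw [R.as_sum]
    refine Submodule.sum_mem _ fun α hα => ?_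
    obtain ⟨I, hI⟩ := key e α (by
      by_contra h; exact (mem_support_iff.1 hα) (hR.coeff_eq_zero h))
    rw [← mul_one (coeff α R), ← smul_eq_mul, ← smul_monomial, hI]
    exact Submodule.smul_mem _ _ (Submodule.subset_span ⟨I, rfl⟩)
  obtain ⟨A, hA⟩ := (Submodule.mem_span_range_iff_exists_fun Λ).1 this
  exact ⟨A, by simp only [← hA, smul_eq_C_mul]⟩

variable {K : Type*} [Field K] {n : ℕ}

noncomputable def th (K : Type*) [Field K] (n : ℕ) :
    MvPolynomial (Fin (n + 2)) K →ₐ[K] MvPolynomial (Fin (n + 1)) (Polynomial K) :=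
  aeval (Fin.cons (-∑ i : Fin (n + 1), C (Polynomial.X ^ ((i : ℕ) + 1)) * X i) X)

noncomputable def lin (P : Fin (n + 2) → K) : Polynomial K :=
  ∑ i, Polynomial.C (P i) * Polynomial.X ^ (i : ℕ)

theorem lin_coeff (P : Fin (n + 2) → K) (i : Fin (n + 2)) : (lin P).coeff i = P i := by
  simp only [lin, Polynomial.finsetSum_coeff, Polynomial.coeff_C_mul_X_pow]
  rw [Finset.sum_eq_single i] <;> simp [Fin.ext_iff]
  intro b h1 h2
  exact absurd h2.symm h1

theorem lin_deg (P : Fin (n + 2) → K) : (lin P).natDegree ≤ n + 1 :=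
  Polynomial.natDegree_sum_le_of_forall_le _ _ fun i _ =>
    (Polynomial.natDegree_C_mul_X_pow_le _ _).trans (by omega)

theorem th_spec {Ω : Type*} [CommRing Ω] (π : Polynomial K →+* Ω) (P : Fin (n + 2) → K)
    (h : π (lin P) = 0) (g : MvPolynomial (Fin (n + 2)) K) :
    eval₂Hom π (fun j => π (Polynomial.C (P j.succ))) (th K n g) = π (Polynomial.C (eval P g)) := by
  have : (eval₂Hom π (fun j => π (Polynomial.C (P j.succ)))).comp (th K n).toRingHom =
      (π.comp Polynomial.C).comp (eval P) := by
    refine MvPolynomial.ringHom_ext (fun r => by simp [th]) fun i => ?_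
    refine Fin.cases ?_ (fun j => by simp [th]) i
    rw [lin, Fin.sum_univ_succ, map_add, add_eq_zero_iff_eq_neg] at h
    simp only [Fin.val_zero, pow_zero, mul_one] at h
    simp only [th, RingHom.comp_apply, AlgHom.toRingHom_eq_coe, RingHom.coe_coe, aeval_X,
      Fin.cons_zero, eval_X, h, map_neg, map_sum, map_mul, eval₂Hom_C, eval₂Hom_X', Fin.val_succ]
    congr 1
    exact Finset.sum_congr rfl fun j _ => mul_comm _ _
  exact RingHom.congr_fun this g

theorem th_inj [IsAlgClosed K] {g : MvPolynomial (Fin (n + 2)) K} (h : th K n g = 0) : g = 0 := by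
  have : g * X (Fin.last (n + 1)) = 0 := by
    apply MvPolynomial.funext
    intro P
    by_cases hP : P (Fin.last (n + 1)) = 0
    · simp [hP]
    obtain ⟨t, ht⟩ := IsAlgClosed.exists_root (lin P) (by
      have := Polynomial.le_degree_of_ne_zero (p := lin P) (n := n + 1)
        (by rw [← lin_coeff P] at hP; exact hP)
      intro h0
      rw [h0] at this
      exact absurd this (by exact_mod_cast (by omega)))
    have := th_spec (Polynomial.evalRingHom t) P ht g
    rw [h, map_zero] at this
    simp only [Polynomial.coe_evalRingHom, Polynomial.eval_C] at this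
    simp [← this]
  exact (mul_eq_zero.1 this).resolve_right (X_ne_zero _)

theorem relation [IsAlgClosed K] {d : ℕ} (hd : 0 < d) (f : Fin (n + 2) → MvPolynomial (Fin (n + 2)) K)
    (hf : ∀ i, (f i).IsHomogeneous d) (hi : ∀ a : MvPolynomial (Fin (n + 2)) K, aeval f a = 0 → a = 0) :
    ∃ e ≤ d ^ n, ∃ R : MvPolynomial (Fin (n + 2)) (Polynomial K), R ≠ 0 ∧ R.IsHomogeneous e ∧
      aeval (fun i => th K n (f i)) R = 0 := by
  set g := fun i => th K n (f i) with hg
  have hgh : ∀ i, (g i).IsHomogeneous d := fun i => by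
    have := (hf i).aeval (S := Polynomial K) (n := 1)
      (Fin.cons (-∑ i : Fin (n + 1), C (Polynomial.X ^ ((i : ℕ) + 1)) * X i) X) (fun j => by
        refine Fin.cases ?_ (fun j => isHomogeneous_X _ _) j
        exact (IsHomogeneous.sum _ _ _ fun i _ => isHomogeneous_C_mul_X _ _).neg)
    rwa [one_mul] at this
  let ε := (optionEquivLeft K (Fin (n + 2))).symm.trans (optionEquivRight K (Fin (n + 2)))
  let ψ : MvPolynomial (Fin (n + 2)) (Polynomial K) →ₐ[Polynomial K] _ := aeval g
  obtain ⟨R0, hR0, hR1⟩ := princ (RingHom.ker (ψ.toRingHom.comp ε.toRingEquiv.toRingHom))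
    (RingHom.ker_isPrime _) (fun a ha => by
      have : (ψ.toRingHom.comp ε.toRingEquiv.toRingHom).comp Polynomial.C =
          (th K n).toRingHom.comp (aeval f).toRingHom := by
        refine MvPolynomial.ringHom_ext (fun r => ?_) fun i => ?_
        · simp [ε, ψ, th, optionEquivRight_C]
        · simp [ε, ψ, hg, optionEquivRight_X_some]
      exact hi a (th_inj ((RingHom.congr_fun this a).symm.trans ha)))
  set R := ε R0 with hR
  have hR0' : ψ R = 0 := hR0
  have hdv : ∀ S, ψ S = 0 → R ∣ S := fun S hS => by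
    have := map_dvd ε (hR1 (ε.symm S) (by simpa [RingHom.mem_ker] using hS))
    rwa [AlgEquiv.apply_symm_apply] at this
  by_cases h0 : R = 0
  · have := count (e := d ^ n + 1) hgh 0 fun k S _ hS =>
      ⟨0, isHomogeneous_zero _ _ _, by simpa [h0] using hdv S hS⟩
    omega
  refine ⟨R.totalDegree, count hgh (homogeneousComponent R.totalDegree R) fun k S hS h => ?_,
    homogeneousComponent R.totalDegree R, fun h => ?_, homogeneousComponent_isHomogeneous _ _,
    comp_zero hd hgh hR0' _⟩
  · by_cases hS0 : S = 0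
    · exact ⟨0, isHomogeneous_zero _ _ _, by simp [hS0]⟩
    obtain ⟨G, hG⟩ := hdv S h
    rw [mul_comm] at hG
    have hG0 : G ≠ 0 := by rintro rfl; simp [hG] at hS0
    have e1 := hS.totalDegree hS0
    rw [hG, totalDegree_mul_of_isDomain hG0 h0] at e1
    have e2 : G.totalDegree = k := by omega
    refine ⟨homogeneousComponent k G, homogeneousComponent_isHomogeneous _ _, ?_⟩
    rw [← e2, ← top_mul, ← hG, e2, homogeneousComponent_eq_self hS]
  · obtain ⟨α, hα, e⟩ := Finset.exists_mem_eq_sup R.support (support_nonempty.2 h0)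
      fun s => s.sum fun _ e => e
    have := congrArg (coeff α) h
    rw [coeff_homogeneousComponent, if_pos (by rw [totalDegree, e]; rfl)] at this
    exact mem_support_iff.1 hα this

theorem relation' [IsAlgClosed K] {d : ℕ} (hd : 0 < d)
    (f : Fin (n + 2) → MvPolynomial (Fin (n + 2)) K) (hf : ∀ i, (f i).IsHomogeneous d)
    (hi : ∀ a : MvPolynomial (Fin (n + 2)) K, aeval f a = 0 → a = 0) :
    ∃ e ≤ d ^ n, ∃ A : (Fin e → Fin (n + 2)) → Polynomial K,
      (∀ P, lin P ∣ ∑ I, A I * Polynomial.C (∏ a, eval P (f (I a)))) ∧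
      ∃ g : MvPolynomial (Fin (n + 2)) K, g ≠ 0 ∧ g.IsHomogeneous (d * e) ∧
        ∀ P, eval P g ≠ 0 → ∑ I, A I * Polynomial.C (∏ a, eval P (f (I a))) ≠ 0 := by
  obtain ⟨e, he, R, h0, h1, h2⟩ := relation hd f hf hi
  obtain ⟨A, hA⟩ := span_prod h1
  refine ⟨e, he, A, fun P => ?_, ?_⟩
  · rw [← Ideal.mem_span_singleton, ← Ideal.Quotient.eq_zero_iff_mem]
    set π := Ideal.Quotient.mk (Ideal.span {lin P})
    have hπ : π (lin P) = 0 := Ideal.Quotient.eq_zero_iff_mem.2 (Ideal.mem_span_singleton_self _)
    have := congrArg (eval₂Hom π (fun j => π (Polynomial.C (P j.succ)))) h2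
    rw [hA] at this
    simp only [map_sum, map_mul, map_prod, aeval_C, aeval_X, th_spec π P hπ, map_zero,
      algebraMap_eq, eval₂Hom_C] at this ⊢
    exact this
  · obtain ⟨k, hk⟩ : ∃ k, (∑ I, C ((A I).coeff k) * ∏ a, X (I a) : MvPolynomial (Fin (n + 2)) K) ≠ 0 := by
      by_contra hc
      push Not at hc
      apply h0
      refine MvPolynomial.funext_set (fun _ => Set.range (Polynomial.C : K → Polynomial K))
        (fun _ => Set.infinite_range_of_injective Polynomial.C_injective) fun x hx => ?_
      choose Q hQ using fun i => hx i trivial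
      rw [hA]
      ext k
      have := congrArg (eval Q) (hc k)
      simp only [map_sum, map_mul, map_prod, eval_C, eval_X, map_zero, ← hQ] at this ⊢
      simp only [← map_prod, Polynomial.finsetSum_coeff, Polynomial.coeff_mul_C, Polynomial.coeff_zero]
      exact this
    refine ⟨aeval f (∑ I, C ((A I).coeff k) * ∏ a, X (I a)), fun h => hk (hi _ h), ?_, fun P hP h => hP ?_⟩
    · refine IsHomogeneous.aeval (IsHomogeneous.sum _ _ _ fun I _ => IsHomogeneous.C_mul ?_ _) f hf
      simpa using IsHomogeneous.prod univ (fun a => X (I a)) (fun _ => 1) fun a _ => isHomogeneous_X K _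
    · have := congrArg (Polynomial.coeff · k) h
      simp only [Polynomial.finsetSum_coeff, Polynomial.coeff_mul_C, Polynomial.coeff_zero] at this
      simpa using this

end Pool.Agent.H58.Hx
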