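import Mathlib

namespace Pool.Agent.H58.Hx

open MvPolynomial Filter

variable {Qb : Type} [Field Qb] [CharZero Qb] [Algebra.IsAlgebraic ℚ Qb]

/-- Absolute logarithmic Weil height of a tuple of homogeneous coordinates, computed in the
number field generated by the coordinates. -/
noncomputable def absH {ι : Type} [Finite ι] (x : ι → Qb) : ℝ :=
  haveI : FiniteDimensional ℚ (IntermediateField.adjoin ℚ (Set.range x)) :=
    IntermediateField.finiteDimensional_adjoin fun y _ => Algebra.IsIntegral.isIntegral y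
  haveI : NumberField (IntermediateField.adjoin ℚ (Set.range x)) := {}
  Height.logHeight (fun i => (⟨x i, IntermediateField.subset_adjoin ℚ _ ⟨i, rfl⟩⟩ :
      IntermediateField.adjoin ℚ (Set.range x))) /
    Module.finrank ℚ (IntermediateField.adjoin ℚ (Set.range x))

variable {N : ℕ}

/-- Tuples of polynomials in the homogeneous coordinates of projective `N`-space. -/
abbrev Tup (Qb : Type) [Field Qb] (N : ℕ) := Fin (N + 1) → MvPolynomial (Fin (N + 1)) Qb

/-- Value of the tuple `f` at the coordinate vector `x`. -/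
noncomputable def ev (f : Tup Qb N) (x : Fin (N + 1) → Qb) : Fin (N + 1) → Qb := fun i => eval x (f i)

/-- `f` is a dominant rational self-map of degree `d`. -/
def IsDominantOfDegree (d : ℕ) (f : Tup Qb N) : Prop :=
  (∀ i, (f i).IsHomogeneous d) ∧ (∀ g, (∀ i, g ∣ f i) → IsUnit g) ∧
    ∀ (m : ℕ) (g : MvPolynomial (Fin (N + 1)) Qb), g.IsHomogeneous m →
      (∀ x, ev f x ≠ 0 → eval (ev f x) g = 0) → g = 0

/-- `U` is the cone of nonzero coordinate vectors over a Zariski open set. -/
def IsZOpen (U : Set (Fin (N + 1) → Qb)) : Prop :=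
  ∃ S : Set (MvPolynomial (Fin (N + 1)) Qb), (∀ g ∈ S, ∃ m, g.IsHomogeneous m) ∧
    U = {x | x ≠ 0 ∧ ∃ g ∈ S, eval x g ≠ 0}

/-- The height expansion ratio. -/
noncomputable def mu (f : Tup Qb N) : EReal :=
  ⨆ (U : Set (Fin (N + 1) → Qb)) (_ : IsZOpen U ∧ U.Nonempty),
    liminf (fun x => ((absH (ev f x) / absH x : ℝ) : EReal))
      (comap absH atTop ⊓ principal {x | x ∈ U ∧ ev f x ≠ 0})

variable (Qb) in
/-- The infimum of the height expansion ratio over dominant maps of degree `d`. -/
noncomputable def muBar (N d : ℕ) : EReal :=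
  ⨅ (f : Tup Qb N) (_ : IsDominantOfDegree d f), mu f

end Pool.Agent.H58.Hx
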