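import Pool.Agent.H58.Hx1
import Pool.Agent.H58.HxDefs

set_option autoImplicit false

namespace Pool.Agent.H58.Hx

open NumberField Height Module Finset IntermediateField

theorem ht_emb {K ι : Type} [Finite ι] [Field K] [NumberField K] {y : ι → 𝓞 K} (h : y ≠ 0) :
    mulHeight (fun i => (y i : K)) * (Ideal.span (Set.range y)).absNorm =
      ∏ φ : K →+* ℂ, ⨆ i, ‖φ (y i)‖ := by
  classical
  have h' : (fun i => (y i : K)) ≠ 0 := fun c => h (funext fun i => by simpa using congrFun c i)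
  rw [NumberField.mulHeight_eq h', mul_assoc, mul_comm (finprod _),
    absNorm_mul_finprod_finitePlace_eq_one h, mul_one, ← prod_fiberwise univ InfinitePlace.mk]
  refine prod_congr rfl fun v _ => ?_
  rw [← InfinitePlace.card_filter_mk_eq, ← prod_const]
  refine prod_congr rfl fun φ hφ => ?_
  rw [← (mem_filter.mp hφ).2]; rfl

theorem ht_ext {K L ι : Type} [Finite ι] [Field K] [NumberField K] [Field L] [NumberField L]
    [Algebra K L] (x : ι → K) :
    mulHeight (fun i => algebraMap K L (x i)) = mulHeight x ^ finrank K L := by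
  classical
  by_cases hx : x = 0
  · subst hx
    simp only [Pi.zero_apply, map_zero, mulHeight_zero, one_pow]
    exact mulHeight_zero
  obtain ⟨b, hb⟩ := IsLocalization.exist_integer_multiples_of_finite (nonZeroDivisors (𝓞 K)) x
  choose y hy using hb
  have b0 : ((b : 𝓞 K) : K) ≠ 0 := by simpa using nonZeroDivisors.ne_zero b.2
  have hy' : ∀ i, (y i : K) = ((b : 𝓞 K) : K) * x i := fun i => by
    have := hy i; rwa [Algebra.smul_def] at this
  have y0 : y ≠ 0 := fun h => hx (funext fun i => by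
    have := hy' i
    rw [h] at this
    simpa [b0] using this.symm)
  have h1 := ht_emb y0
  have h2 := ht_emb (y := algebraMap (𝓞 K) (𝓞 L) ∘ y) fun c => y0 (funext fun i => by
    simpa using congrFun c i)
  have n0 : ((Ideal.span (Set.range y)).absNorm : ℝ) ≠ 0 := by
    obtain ⟨i, hi⟩ := Function.ne_iff.1 y0
    simp only [ne_eq, Nat.cast_eq_zero, Ideal.absNorm_eq_zero_iff, Ideal.span_eq_bot]
    exact fun h => hi (h _ ⟨i, rfl⟩)
  rw [Set.range_comp, ← Ideal.map_span, Ideal.absNorm_algebraMap,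
    ← prod_fiberwise univ fun ψ : L →+* ℂ => ψ.comp (algebraMap K L)] at h2
  rw [← mulHeight_smul_eq_mulHeight x b0,
    ← mulHeight_smul_eq_mulHeight _ ((map_ne_zero (algebraMap K L)).2 b0)]
  refine mul_right_cancel₀ (pow_ne_zero (finrank K L) n0) ?_
  rw [← mul_pow]
  convert h2 using 1
  · congr 2
    · ext i
      rw [Pi.smul_apply, smul_eq_mul, ← map_mul, ← hy']; rfl
    · rw [Nat.cast_pow, IsFractionRing.finrank_eq (𝓞 K) K (𝓞 L) L]
  rw [show ((b : 𝓞 K) : K) • x = fun i => (y i : K) from funext fun i => (hy' i).symm, h1, ← prod_pow]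
  refine prod_congr rfl fun φ _ => ?_
  let := φ.toAlgebra
  rw [← AlgHom.card K L ℂ, ← card_univ, ← prod_const]
  refine prod_bij (fun ψ _ => ψ.toRingHom) (fun ψ _ => ?_) (fun _ _ _ _ h => AlgHom.coe_ringHom_injective h)
    (fun ψ h => ⟨⟨ψ, RingHom.congr_fun (mem_filter.mp h).2⟩, mem_univ _, rfl⟩) fun ψ _ => ?_
  · exact mem_filter.mpr ⟨mem_univ _, ψ.comp_algebraMap⟩
  · exact iSup_congr fun i => congrArg _ (ψ.commutes _).symm

variable {Qb : Type} [Field Qb] [CharZero Qb] [Algebra.IsAlgebraic ℚ Qb]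

theorem absH_eq {ι : Type} [Finite ι] (L : IntermediateField ℚ Qb) [NumberField L] (x : ι → L) :
    absH (fun i => (x i : Qb)) = logHeight x / finrank ℚ L := by
  unfold absH
  set K := adjoin ℚ (Set.range fun i => (x i : Qb))
  have : FiniteDimensional ℚ K := finiteDimensional_adjoin fun y _ => Algebra.IsIntegral.isIntegral y
  have : NumberField K := {}
  have hle : K ≤ L := adjoin_le_iff.2 (by rintro _ ⟨i, rfl⟩; exact (x i).2)
  let := (inclusion hle).toAlgebra
  have h := ht_ext (L := L) (fun i => (⟨x i, subset_adjoin ℚ _ ⟨i, rfl⟩⟩ : K))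
  rw [logHeight, logHeight, show mulHeight x = _ from h, Real.log_pow, ← finrank_mul_finrank ℚ K L]
  have : (finrank ℚ K : ℝ) ≠ 0 := by simpa using finrank_pos.ne'
  have : (finrank K L : ℝ) ≠ 0 := by simpa using finrank_pos.ne'
  push_cast
  rw [mul_comm (finrank K L : ℝ), mul_div_mul_right _ _ this]

theorem exists_field (s : Set Qb) (hs : s.Finite) :
    ∃ L : IntermediateField ℚ Qb, NumberField L ∧ ∀ a ∈ s, a ∈ L := by
  have := hs.to_subtype
  have : FiniteDimensional ℚ (adjoin ℚ s) :=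
    finiteDimensional_adjoin fun y _ => Algebra.IsIntegral.isIntegral y
  exact ⟨adjoin ℚ s, {}, subset_adjoin ℚ s⟩

theorem absH_nonneg {ι : Type} [Finite ι] (x : ι → Qb) : 0 ≤ absH x := by
  unfold absH
  exact div_nonneg (@logHeight_nonneg _ _ (_) _ _ _) (Nat.cast_nonneg _)

theorem absH_lin {ι κ : Type} [Fintype ι] [Finite κ] (A : κ × ι → Qb) (x : ι → Qb) :
    absH (fun j => ∑ i, A (j, i) * x i) ≤ Real.log (Nat.card ι) + absH A + absH x := by
  obtain ⟨L, _, hL⟩ := exists_field (Set.range A ∪ Set.range x) (Set.toFinite _)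
  let A' : κ × ι → L := fun p => ⟨A p, hL _ (Or.inl ⟨p, rfl⟩)⟩
  let x' : ι → L := fun p => ⟨x p, hL _ (Or.inr ⟨p, rfl⟩)⟩
  have h1 : absH A = _ := absH_eq L A'
  have h2 : absH x = _ := absH_eq L x'
  have h3 := absH_eq L (fun j => ∑ i, A' (j, i) * x' i)
  have h4 := logHeight_linearMap_apply_le A' x'
  have : (0 : ℝ) < finrank ℚ L := by exact_mod_cast finrank_pos
  simp only [IntermediateField.coe_sum, MulMemClass.coe_mul, A', x'] at h3
  rw [h1, h2, h3, div_le_iff₀ this]
  rw [totalWeight_eq_finrank] at h4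
  field_simp
  rw [mul_comm] at h4
  exact h4

theorem absH_prod {ι : Type} [Finite ι] (e : ℕ) {x : ι → Qb} (hx : x ≠ 0) :
    absH (fun I : Fin e → ι => ∏ a, x (I a)) = e * absH x := by
  obtain ⟨L, _, hL⟩ := exists_field (Set.range x) (Set.toFinite _)
  let x' : ι → L := fun p => ⟨x p, hL _ ⟨p, rfl⟩⟩
  have h2 : absH x = _ := absH_eq L x'
  have h3 := absH_eq L (fun I : Fin e → ι => ∏ a, x' (I a))
  have h4 := logHeight_fun_prod_eq (x := fun _ : Fin e => x') fun _ h => hx (funext fun i =>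
    congrArg Subtype.val (congrFun h i))
  simp only [IntermediateField.coe_prod, x'] at h3
  rw [h2, h3, h4]
  simp [mul_div_assoc]

theorem absH_int {ι : Type} [Fintype ι] (x : ι → ℤ) (i0 : ι) (h : x i0 = 1) :
    absH (fun i => (x i : Qb)) = Real.log ((⨆ i, |x i| : ℤ) : ℝ) := by
  have : Nonempty ι := ⟨i0⟩
  have : NumberField (⊥ : IntermediateField ℚ Qb) := {}
  have a := absH_eq (⊥ : IntermediateField ℚ Qb) (fun i => algebraMap ℚ _ (x i : ℚ))
  have hg : Finset.univ.gcd x = 1 := by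
    have := Finset.gcd_dvd (s := univ) (f := x) (mem_univ i0)
    rw [h] at this
    rw [← Finset.normalize_gcd, normalize_eq_one]
    exact isUnit_of_dvd_one this
  rw [logHeight, ht_ext, Real.log_pow, mul_div_cancel_left₀ _ (by simp)] at a
  rw [← Rat.logHeight_eq_max_abs_of_gcd_eq_one hg]
  convert a using 2
  · simp
  · rfl

theorem sup_gauss {K : Type} [Field K] (v : AbsoluteValue K ℝ) (D : ℕ) (p : Polynomial K)
    (hp : p.natDegree ≤ D) : ⨆ i : Fin (D + 1), v (p.coeff i) = p.gaussNorm v 1 := by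
  apply le_antisymm
  · exact ciSup_le fun i => by simpa using p.le_gaussNorm v zero_le_one i
  · obtain ⟨i, hi⟩ := p.exists_eq_gaussNorm v 1
    rw [hi, one_pow, mul_one]
    by_cases h : i ≤ D
    · exact Finite.le_ciSup (fun i : Fin (D + 1) => v (p.coeff i)) ⟨i, by omega⟩
    · rw [Polynomial.coeff_eq_zero_of_natDegree_lt (by omega), map_zero]
      exact Real.iSup_nonneg fun _ => v.nonneg _

theorem arch (D : ℕ) (p q : Polynomial ℂ) (hp : p.natDegree ≤ D) (hq : q.natDegree ≤ D)
    (h : (p * q).natDegree ≤ D) (i j : ℕ) : ‖p.coeff i‖ * ‖q.coeff j‖ ≤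
      (2 ^ D * 2 ^ D * (D + 1)) * ⨆ k : Fin (D + 1), ‖(p * q).coeff k‖ := by
  have a : ∀ (r : Polynomial ℂ) (i : ℕ), r.natDegree ≤ D → ‖r.coeff i‖ ≤ 2 ^ D * r.mahlerMeasure := by
    intro r i hr
    refine (Polynomial.norm_coeff_le_choose_mul_mahlerMeasure i r).trans ?_
    have := r.mahlerMeasure_nonneg
    gcongr
    exact_mod_cast (Nat.choose_le_two_pow _ _).trans (Nat.pow_le_pow_right (by norm_num) hr)
  have b := Polynomial.mahlerMeasure_le_sum_norm_coeff (p * q)
  rw [Polynomial.mahlerMeasure_mul, Polynomial.sum_over_range' _ (by simp) (D + 1) (by omega),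
    ← Fin.sum_univ_eq_sum_range (fun k => ‖(p * q).coeff k‖)] at b
  have c : ∑ k : Fin (D + 1), ‖(p * q).coeff k‖ ≤ (D + 1) * ⨆ k : Fin (D + 1), ‖(p * q).coeff k‖ := by
    refine (Finset.sum_le_sum fun k _ => Finite.le_ciSup (fun k : Fin (D + 1) => ‖(p * q).coeff k‖) k).trans ?_
    simp
  have := p.mahlerMeasure_nonneg
  calc _ ≤ (2 ^ D * p.mahlerMeasure) * (2 ^ D * q.mahlerMeasure) :=
        mul_le_mul (a p i hp) (a q j hq) (norm_nonneg _) (by positivity)
    _ = 2 ^ D * 2 ^ D * (p.mahlerMeasure * q.mahlerMeasure) := by ring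
    _ ≤ 2 ^ D * 2 ^ D * ((D + 1) * ⨆ k : Fin (D + 1), ‖(p * q).coeff k‖) :=
        mul_le_mul_of_nonneg_left (b.trans c) (by positivity)
    _ = _ := by ring

theorem gelf {K : Type} [Field K] [NumberField K] (D : ℕ) (p q : Polynomial K) (h0 : p * q ≠ 0)
    (h : (p * q).natDegree ≤ D) : logHeight (fun i : Fin (D + 1) => p.coeff i) ≤
      finrank ℚ K * Real.log (2 ^ D * 2 ^ D * (D + 1)) +
        logHeight (fun i : Fin (D + 1) => (p * q).coeff i) := by
  have p0 := left_ne_zero_of_mul h0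
  have q0 := right_ne_zero_of_mul h0
  have hd := Polynomial.natDegree_mul p0 q0
  have nz : ∀ r : Polynomial K, r ≠ 0 → r.natDegree ≤ D → (fun i : Fin (D + 1) => r.coeff i) ≠ 0 :=
    fun r h1 h2 h3 => Polynomial.leadingCoeff_ne_zero.2 h1 (congrFun h3 ⟨r.natDegree, by omega⟩)
  have hp := nz p p0 (by omega)
  have hq := nz q q0 (by omega)
  have h1 := mulHeight_fun_mul_eq hp hq
  have hT : (fun a : Fin (D + 1) × Fin (D + 1) => p.coeff a.1 * q.coeff a.2) ≠ 0 := by
    obtain ⟨i, hi⟩ := Function.ne_iff.1 hp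
    obtain ⟨j, hj⟩ := Function.ne_iff.1 hq
    exact Function.ne_iff.2 ⟨(i, j), mul_ne_zero hi hj⟩
  set c : ℝ := 2 ^ D * 2 ^ D * (D + 1) with hc
  have hc0 : 0 < c := by positivity
  have h2 : mulHeight (fun a : Fin (D + 1) × Fin (D + 1) => p.coeff a.1 * q.coeff a.2) ≤
      c ^ finrank ℚ K * mulHeight (fun i : Fin (D + 1) => (p * q).coeff i) := by
    rw [NumberField.mulHeight_eq hT, NumberField.mulHeight_eq (nz _ h0 h), ← mul_assoc]
    have e : ∀ v : FinitePlace K, (⨆ a : Fin (D + 1) × Fin (D + 1), v (p.coeff a.1 * q.coeff a.2)) =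
        ⨆ i : Fin (D + 1), v ((p * q).coeff i) := by
      intro v
      have a1 := Real.iSup_fun_mul_eq_iSup_mul_iSup_of_nonneg v.1 (fun i : Fin (D + 1) => p.coeff i)
        (fun i : Fin (D + 1) => q.coeff i)
      rw [sup_gauss v.1 D p (by omega), sup_gauss v.1 D q (by omega),
        ← Polynomial.gaussNorm_mul (FinitePlace.add_le v) one_pos, ← sup_gauss v.1 D _ h] at a1
      exact a1
    simp only [e]
    refine mul_le_mul_of_nonneg_right ?_
      (finprod_nonneg fun v => Real.iSup_nonneg fun _ => apply_nonneg _ _)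
    rw [← InfinitePlace.sum_mult_eq, ← Finset.prod_pow_eq_pow_sum, ← Finset.prod_mul_distrib]
    refine Finset.prod_le_prod (fun v _ => pow_nonneg (Real.iSup_nonneg fun _ => apply_nonneg _ _) _)
      fun v _ => ?_
    rw [← mul_pow]
    refine pow_le_pow_left₀ (Real.iSup_nonneg fun _ => apply_nonneg _ _) (ciSup_le fun a => ?_) _
    have := arch D (p.map v.embedding) (q.map v.embedding) (Polynomial.natDegree_map_le.trans (by omega))
      (Polynomial.natDegree_map_le.trans (by omega))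
      (by rw [← Polynomial.map_mul]; exact Polynomial.natDegree_map_le.trans h) a.1 a.2
    simp only [← Polynomial.map_mul, Polynomial.coeff_map, InfinitePlace.norm_embedding_eq] at this
    rw [map_mul]
    exact this
  rw [h1] at h2
  have h3 := one_le_mulHeight (fun i : Fin (D + 1) => q.coeff i)
  have h4 := mulHeight_pos (fun i : Fin (D + 1) => p.coeff i)
  have h5 := Real.log_le_log h4 ((le_mul_of_one_le_right h4.le h3).trans h2)
  rwa [Real.log_mul (by positivity) (mulHeight_ne_zero _), Real.log_pow] at h5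

theorem absH_dvd (D : ℕ) (p G : Polynomial Qb) (h0 : G ≠ 0) (hd : p ∣ G) (h : G.natDegree ≤ D) :
    absH (fun i : Fin (D + 1) => p.coeff i) ≤ Real.log (2 ^ D * 2 ^ D * (D + 1)) +
      absH (fun i : Fin (D + 1) => G.coeff i) := by
  obtain ⟨q, rfl⟩ := hd
  obtain ⟨L, _, hL⟩ := exists_field ((p.coeffs : Set Qb) ∪ (q.coeffs : Set Qb)) (Set.toFinite _)
  have lift : ∀ r : Polynomial Qb, (∀ a ∈ r.coeffs, a ∈ L) →
      ∃ r' : Polynomial L, r'.map (algebraMap L Qb) = r := fun r hr => by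
    rw [← Polynomial.mem_lifts, Polynomial.lifts_iff_coeffs_subset_range]
    exact fun a ha => ⟨⟨a, hr a ha⟩, rfl⟩
  obtain ⟨p', rfl⟩ := lift p fun a ha => hL a (Or.inl ha)
  obtain ⟨q', rfl⟩ := lift q fun a ha => hL a (Or.inr ha)
  rw [← Polynomial.map_mul] at *
  have := gelf D p' q' (by rintro h; simp [h] at h0) (by rwa [Polynomial.natDegree_map] at h)
  simp only [Polynomial.coeff_map, IntermediateField.algebraMap_apply]
  rw [absH_eq, absH_eq]
  have : (0 : ℝ) < finrank ℚ L := by exact_mod_cast finrank_pos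
  rw [div_le_iff₀ this, add_mul, div_mul_cancel₀ _ this.ne']
  linarith

theorem absH_comp {ι κ : Type} [Finite ι] [Finite κ] (f : ι → κ) (x : κ → Qb) :
    absH (x ∘ f) ≤ absH x := by
  obtain ⟨L, _, hL⟩ := exists_field (Set.range x) (Set.toFinite _)
  let x' : κ → L := fun p => ⟨x p, hL _ ⟨p, rfl⟩⟩
  have h2 : absH x = _ := absH_eq L x'
  have h3 : absH (x ∘ f) = _ := absH_eq L (x' ∘ f)
  rw [h2, h3]
  gcongr
  exact logHeight_comp_le f x'

end Pool.Agent.H58.Hx
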