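import Pool.Agent.H58.Hx2

set_option autoImplicit false

namespace Pool.Agent.H58.Hx

open Finset MvPolynomial Filter

variable {Qb : Type} [Field Qb] [CharZero Qb] [Algebra.IsAlgebraic ℚ Qb] {n : ℕ}

theorem key [IsAlgClosed Qb] {d : ℕ} (hd : 0 < d) {f : Tup Qb (n + 1)} (hf : IsDominantOfDegree d f) :
    ∃ (m : ℕ) (g : MvPolynomial (Fin (n + 2)) Qb) (C : ℝ), g ≠ 0 ∧ g.IsHomogeneous m ∧
      ∀ P, eval P g ≠ 0 → ev f P ≠ 0 → absH P ≤ C + (d : ℝ) ^ n * absH (ev f P) := by
  classical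
  obtain ⟨e, he, A, h1, g, g0, g1, g2⟩ := relation' hd f hf.1 (fun a ha => by
    rw [← a.sum_homogeneousComponent]
    refine Finset.sum_eq_zero fun j _ => hf.2.2 j _ (homogeneousComponent_isHomogeneous _ _) fun x _ => ?_
    have := congrArg (eval x) (comp_zero hd hf.1 ha j)
    rwa [map_zero, ← coe_aeval_eq_eval, RingHom.coe_coe, ← AlgHom.comp_apply, comp_aeval] at this)
  set D := n + 1 + ∑ I, (A I).natDegree with hD
  refine ⟨_, g, Real.log (2 ^ D * 2 ^ D * (D + 1)) + (Real.log (Nat.card (Fin e → Fin (n + 2))) +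
    absH (fun p : Fin (D + 1) × (Fin e → Fin (n + 2)) => (A p.2).coeff p.1)), g0, g1,
    fun P hP hQ => ?_⟩
  have h2 := absH_dvd D _ _ (g2 P hP) (h1 P) (Polynomial.natDegree_sum_le_of_forall_le _ _ fun I _ =>
    (Polynomial.natDegree_mul_C_le _ _).trans (by
      have := Finset.single_le_sum (f := fun I => (A I).natDegree) (fun _ _ => Nat.zero_le _) (mem_univ I)
      omega))
  have h3 := absH_comp (Fin.castLE (by omega : n + 2 ≤ D + 1)) (fun i : Fin (D + 1) => (lin P).coeff i)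
  have e3 : (fun i : Fin (D + 1) => (lin P).coeff i) ∘ Fin.castLE (by omega : n + 2 ≤ D + 1) = P :=
    funext fun i => lin_coeff P i
  rw [e3] at h3
  have h4 := absH_lin (fun p : Fin (D + 1) × (Fin e → Fin (n + 2)) => (A p.2).coeff p.1)
    (fun I => ∏ a, ev f P (I a))
  rw [absH_prod e hQ] at h4
  simp only [Polynomial.finsetSum_coeff, Polynomial.coeff_mul_C] at h2
  have h5 : (e : ℝ) * absH (ev f P) ≤ (d : ℝ) ^ n * absH (ev f P) :=
    mul_le_mul_of_nonneg_right (by exact_mod_cast he) (absH_nonneg _)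
  unfold ev at h4 h5 ⊢
  linarith

omit [Algebra.IsAlgebraic ℚ Qb] in
theorem eval_scale {σ : Type} {g : MvPolynomial σ Qb} {m : ℕ} (hg : g.IsHomogeneous m) (c : Qb)
    (x : σ → Qb) : eval (c • x) g = c ^ m * eval x g := by
  rw [eval_eq, eval_eq, Finset.mul_sum]
  refine Finset.sum_congr rfl fun α hα => ?_
  simp only [Pi.smul_apply, smul_eq_mul, mul_pow, prod_mul_distrib, prod_pow_eq_pow_sum]
  rw [← hg.degree_eq_sum_deg_support hα]
  ring

omit [Algebra.IsAlgebraic ℚ Qb] in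
theorem zero_of_aff {g : MvPolynomial (Fin (n + 1)) Qb} {m : ℕ} (hg : g.IsHomogeneous m)
    (h : ∀ x : Fin (n + 1) → Qb, x 0 = 1 → eval x g = 0) : g = 0 := by
  have : g * X 0 = 0 := by
    apply MvPolynomial.funext
    intro x
    by_cases hx : x 0 = 0
    · simp [hx]
    have := eval_scale hg (x 0)⁻¹ x
    rw [h _ (by simp [hx])] at this
    simpa [hx] using this.symm
  exact (mul_eq_zero.1 this).resolve_right (X_ne_zero _)

theorem lower [IsAlgClosed Qb] {d : ℕ} (hd : 0 < d) {f : Tup Qb (n + 1)}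
    (hf : IsDominantOfDegree d f) : ((((d : ℝ) ^ n)⁻¹ : ℝ) : EReal) ≤ mu f := by
  obtain ⟨m, g, C, g0, g1, h⟩ := key hd hf
  refine le_iSup₂_of_le {x | x ≠ 0 ∧ ∃ g' ∈ ({g} : Set _), eval x g' ≠ 0}
    ⟨⟨{g}, by rintro _ rfl; exact ⟨m, g1⟩, rfl⟩, ?_⟩ ?_
  · by_contra hc
    refine g0 (zero_of_aff g1 fun x hx => ?_)
    by_contra h'
    exact hc ⟨x, fun h0 => by simp [h0] at hx, g, rfl, h'⟩
  · refine le_of_forall_lt_imp_le_of_dense fun b hb => ?_
    obtain ⟨r, hr1, hr2⟩ := EReal.lt_iff_exists_real_btwn.1 hb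
    have hr : r < ((d : ℝ) ^ n)⁻¹ := by exact_mod_cast hr2
    refine hr1.le.trans (le_liminf_of_le (by isBoundedDefault) ?_)
    have hE : (0 : ℝ) < (d : ℝ) ^ n := by positivity
    set E := (d : ℝ) ^ n
    have hδ : 0 < 1 - r * E := by
      have := mul_lt_mul_of_pos_right hr hE
      rw [inv_mul_cancel₀ hE.ne'] at this
      linarith
    rw [eventually_inf_principal]
    filter_upwards [preimage_mem_comap (Ici_mem_atTop (max 1 (C / (1 - r * E))))] with x hx hU
    obtain ⟨⟨-, _, rfl, hx1⟩, hx2⟩ := hU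
    have h1 := h x hx1 hx2
    have h2 : 1 ≤ absH x := (le_max_left _ _).trans hx
    have h3 : C / (1 - r * E) ≤ absH x := (le_max_right _ _).trans hx
    rw [div_le_iff₀ hδ] at h3
    rw [EReal.coe_le_coe_iff, le_div_iff₀ (by linarith)]
    refine le_of_mul_le_mul_left ?_ hE
    nlinarith

noncomputable def ex (Qb : Type) [Field Qb] (N d : ℕ) : Tup Qb N := fun i =>
  X 0 ^ (d - 1) * X i + if 2 ≤ (i : ℕ) then X ⟨i - 1, by omega⟩ ^ d else 0

def xs {R : Type} [CommRing R] (d : ℕ) (y : ℕ → R) : ℕ → R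
  | 0 => 1
  | i + 1 => y (i + 1) - if 1 ≤ i then xs d y i ^ d else 0

theorem xs_map {R S : Type} [CommRing R] [CommRing S] (φ : R →+* S) (d : ℕ) (y : ℕ → R) (i : ℕ) :
    φ (xs d y i) = xs d (fun k => φ (y k)) i := by
  induction i with
  | zero => simp [xs]
  | succ i ih => simp only [xs, map_sub, ← ih]; split_ifs <;> simp

def ext {R : Type} [Zero R] {N : ℕ} (y : Fin (N + 1) → R) (k : ℕ) : R :=
  if h : k < N + 1 then y ⟨k, h⟩ else 0

omit [CharZero Qb] [Algebra.IsAlgebraic ℚ Qb] in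
theorem ev_xs {N d : ℕ} (y : Fin (N + 1) → Qb) (hy : y 0 = 1) :
    ev (ex Qb N d) (fun i => xs d (ext y) i) = y := by
  funext ⟨i, hi⟩
  cases i with
  | zero => simpa [ev, ex, xs] using hy.symm
  | succ i =>
    simp only [ev, ex, xs, ext, map_add, map_mul, map_pow, eval_X, Fin.val_zero, one_pow, one_mul, hi,
      dif_pos, show 2 ≤ i + 1 ↔ 1 ≤ i by omega]
    split_ifs <;> simp

omit [CharZero Qb] [Algebra.IsAlgebraic ℚ Qb] in
theorem xs_ev {N d : ℕ} (x : Fin (N + 1) → Qb) (hx : x 0 = 1) :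
    (fun i : Fin (N + 1) => xs d (ext (ev (ex Qb N d) x)) i) = x := by
  funext ⟨i, hi⟩
  induction i with
  | zero => exact hx.symm
  | succ i ih =>
    have := ih (by omega)
    simp only at this
    simp only [xs, this, ext, hi, dif_pos, ev, ex, map_add, map_mul, map_pow, eval_X, hx, one_pow,
      one_mul, show 2 ≤ i + 1 ↔ 1 ≤ i by omega]
    split_ifs <;> simp

omit [Algebra.IsAlgebraic ℚ Qb] in
theorem ex_dom {N d : ℕ} (hN : 2 ≤ N) (hd : 2 ≤ d) : IsDominantOfDegree d (ex Qb N d) := by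
  refine ⟨fun i => IsHomogeneous.add ?_ ?_, fun g hg => ?_, fun m g hg h => zero_of_aff hg fun y hy => ?_⟩
  · convert (isHomogeneous_X_pow (0 : Fin (N + 1)) (d - 1)).mul (isHomogeneous_X Qb i) using 1
    omega
  · split_ifs
    · exact isHomogeneous_X_pow _ _
    · exact isHomogeneous_zero _ _ _
  · have h0 := hg 0
    simp only [ex, Fin.val_zero, ← pow_succ] at h0
    rw [if_neg (by omega), add_zero, dvd_prime_pow (X_prime)] at h0
    obtain ⟨k, -, hk⟩ := h0
    cases k with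
    | zero => exact associated_one_iff_isUnit.1 (by simpa using hk)
    | succ k =>
      have h2 := map_dvd (eval (Pi.single (⟨1, by omega⟩ : Fin (N + 1)) (1 : Qb)))
        (((dvd_pow_self _ (by omega)).trans hk.symm.dvd).trans (hg ⟨2, by omega⟩))
      simp [ex, Pi.single_apply, Fin.ext_iff, show d - 1 ≠ 0 by omega] at h2
  · have := h (fun i => xs d (ext y) i)
    rw [ev_xs y hy] at this
    exact this fun h0 => by simp [h0] at hy

theorem xs_big {d T : ℕ} (hd : 2 ≤ d) (hT : 2 ≤ T) (y : ℕ → ℤ) (N : ℕ)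
    (hy : ∀ k, 1 ≤ k → k ≤ N → 2 * (T : ℤ) ≤ y k ∧ y k ≤ 4 * T) (i : ℕ) (hi : i + 1 ≤ N) :
    2 * (T : ℤ) ^ d ^ i ≤ |xs d y (i + 1)| := by
  induction i with
  | zero => simpa [xs] using (hy 1 le_rfl hi).1.trans (le_abs_self _)
  | succ i ih =>
    have h1 := ih (by omega)
    have h2 := hy (i + 2) (by omega) hi
    rw [xs, if_pos (by omega), abs_sub_comm]
    have h3 := abs_sub_abs_le_abs_sub (xs d y (i + 1) ^ d) (y (i + 1 + 1))
    have hT' : (2 : ℤ) ≤ T := by exact_mod_cast hT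
    rw [abs_pow, abs_of_nonneg (a := y _) (by linarith)] at h3
    have h4 : (2 * (T : ℤ) ^ d ^ i) ^ d ≤ |xs d y (i + 1)| ^ d := by gcongr
    rw [mul_pow, ← pow_mul, ← pow_succ] at h4
    have h5 : (2 : ℤ) ^ 2 ≤ 2 ^ d := pow_le_pow_right₀ (by norm_num) hd
    have h6 : (T : ℤ) ^ 2 ≤ T ^ d ^ (i + 1) := pow_le_pow_right₀ (by linarith)
      (hd.trans (Nat.le_self_pow (by omega) d))
    nlinarith

theorem upper {d : ℕ} (hd : 2 ≤ d) :
    mu (ex Qb (n + 1) d) ≤ ((((d : ℝ) ^ n)⁻¹ : ℝ) : EReal) := by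
  classical
  refine iSup₂_le ?_
  rintro _ ⟨⟨S, hS, rfl⟩, x0, -, g, hg, hx0⟩
  obtain ⟨m, hm⟩ := hS g hg
  let G : MvPolynomial (Fin (n + 2)) Qb := aeval (fun i : Fin (n + 2) => xs d (ext X) i) g
  have hG : ∀ y, eval y G = eval (fun i : Fin (n + 2) => xs d (ext y) i) g := fun y => by
    rw [← coe_aeval_eq_eval, ← coe_aeval_eq_eval]
    simp only [G, RingHom.coe_coe]
    rw [← AlgHom.comp_apply, comp_aeval]
    congr 2
    funext i
    refine (xs_map (aeval y : MvPolynomial (Fin (n + 2)) Qb →ₐ[Qb] Qb).toRingHom d _ i).trans ?_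
    congr 1
    funext k
    unfold ext
    split_ifs <;> simp
  have G0 : G ≠ 0 := fun h => by
    have : g = 0 := zero_of_aff hm fun x hx => by rw [← xs_ev (d := d) x hx, ← hG, h, map_zero]
    simp [this] at hx0
  have hpt : ∀ T : ℕ, max 2 G.totalDegree ≤ T → ∃ x : Fin (n + 2) → Qb,
      ((x ≠ 0 ∧ ∃ g ∈ S, eval x g ≠ 0) ∧ ev (ex Qb (n + 1) d) x ≠ 0) ∧
      (d : ℝ) ^ n * Real.log T ≤ absH x ∧ absH (ev (ex Qb (n + 1) d) x) ≤ Real.log (4 * T) := by
    intro T hT
    have hT2 : 2 ≤ T := (le_max_left _ _).trans hT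
    obtain ⟨t, ht, ht'⟩ : ∃ t : Fin (n + 2) → Qb,
        (∀ i, t i ∈ (Icc (2 * (T : ℤ)) (4 * T)).image (Int.cast : ℤ → Qb)) ∧ eval t G ≠ 0 := by
      by_contra hc
      push Not at hc
      refine G0 (eq_zero_of_eval_zero_at_prod_finset G _ (fun i => ?_) hc)
      rw [card_image_of_injective _ Int.cast_injective, Int.card_Icc]
      have := degreeOf_le_totalDegree G i
      have := (le_max_right _ _).trans hT
      omega
    choose u hu hu' using fun i => mem_image.1 (ht i)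
    let y : Fin (n + 2) → ℤ := Function.update u 0 1
    have e0 : ∀ i, xs d (ext t) i = ((xs d (ext y) i : ℤ) : Qb) := by
      intro i
      induction i with
      | zero => simp [xs]
      | succ i ih =>
        simp only [xs, ih, ext]
        split_ifs <;> simp [y, Function.update_of_ne, Fin.ext_iff, hu']
    have e1 : ∀ i, xs d (ext fun i => ((y i : ℤ) : Qb)) i = ((xs d (ext y) i : ℤ) : Qb) := fun i => by
      refine Eq.trans ?_ (xs_map (Int.castRingHom Qb) d _ i).symm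
      congr 1
      funext k
      unfold ext
      split_ifs <;> simp
    have e2 := ev_xs (d := d) (fun i => ((y i : ℤ) : Qb)) (by simp [y])
    simp only [e1] at e2
    have hT' : (2 : ℤ) ≤ T := by exact_mod_cast hT2
    refine ⟨fun i => ((xs d (ext y) i : ℤ) : Qb), ⟨⟨fun h => by simpa [xs] using congrFun h 0, g, hg,
      by simpa only [hG, e0] using ht'⟩, ?_⟩, ?_, ?_⟩
    · rw [e2]; exact fun h => by simpa [y] using congrFun h 0
    · rw [absH_int (fun i : Fin (n + 2) => xs d (ext y) i) 0 rfl]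
      have h1 := xs_big hd hT2 (ext y) (n + 1) (fun k h1 h2 => by
        have := mem_Icc.1 (hu ⟨k, by omega⟩)
        rwa [ext, dif_pos (by omega), show y ⟨k, by omega⟩ = u ⟨k, by omega⟩ from
          Function.update_of_ne (by simp [Fin.ext_iff]; omega) _ _]) n le_rfl
      have h2 := Finite.le_ciSup (fun i : Fin (n + 2) => |xs d (ext y) i|) (Fin.last _)
      have h3 : (T : ℤ) ^ d ^ n ≤ ⨆ i : Fin (n + 2), |xs d (ext y) i| := by
        have : 0 ≤ (T : ℤ) ^ d ^ n := by positivity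
        simp only [Fin.val_last] at h2
        linarith
      have h4 : ((T : ℝ)) ^ d ^ n ≤ ((⨆ i : Fin (n + 2), |xs d (ext y) i| : ℤ) : ℝ) := by exact_mod_cast h3
      have := Real.log_le_log (by positivity) h4
      rwa [Real.log_pow, Nat.cast_pow] at this
    · rw [e2, absH_int y 0 (by simp [y])]
      have h1 : ⨆ i, |y i| ≤ 4 * T := ciSup_le fun i => by
        by_cases hi : i = 0
        · simp [y, hi]; linarith
        · have := mem_Icc.1 (hu i)
          simp only [y, Function.update_of_ne hi]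
          rw [abs_of_nonneg (by linarith)]; exact this.2
      have h2 : 1 ≤ ⨆ i, |y i| := (by simp [y] : (1 : ℤ) ≤ |y 0|).trans (Finite.le_ciSup (fun i => |y i|) 0)
      exact Real.log_le_log (by exact_mod_cast (by omega)) (by exact_mod_cast h1)
  refine le_of_forall_gt_imp_ge_of_dense fun b hb => ?_
  obtain ⟨r, hr1, hr2⟩ := EReal.lt_iff_exists_real_btwn.1 hb
  have hr : ((d : ℝ) ^ n)⁻¹ < r := by exact_mod_cast hr1
  refine (liminf_le_of_frequently_le ?_).trans hr2.le
  have hE : (1 : ℝ) ≤ (d : ℝ) ^ n := one_le_pow₀ (by exact_mod_cast (by omega))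
  set E := (d : ℝ) ^ n
  have hδ : 0 < r * E - 1 := by
    have := mul_lt_mul_of_pos_right hr (by linarith : 0 < E)
    rw [inv_mul_cancel₀ (by linarith)] at this
    linarith
  have hr0 : 0 < r := lt_trans (by positivity) hr
  rw [frequently_inf_principal, frequently_comap, frequently_atTop]
  intro B
  obtain ⟨T, hT1, hT2⟩ := ((eventually_ge_atTop (max 2 G.totalDegree)).and
    ((Real.tendsto_log_atTop.comp tendsto_natCast_atTop_atTop).eventually_ge_atTop
      (max (max B 1) (Real.log 4 / (r * E - 1))))).exists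
  obtain ⟨x, h1, h2, h3⟩ := hpt T hT1
  simp only [Function.comp, max_le_iff] at hT1 hT2
  have h4 : Real.log T ≤ absH x := le_trans (by nlinarith) h2
  refine ⟨absH x, by linarith, x, rfl, h1, ?_⟩
  rw [EReal.coe_le_coe_iff, div_le_iff₀ (by linarith)]
  rw [Real.log_mul (by norm_num) (by exact_mod_cast (by omega))] at h3
  have h5 := hT2.2
  rw [div_le_iff₀ hδ] at h5
  nlinarith

end Pool.Agent.H58.Hx
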