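import Mathlib

set_option autoImplicit false

namespace Pool.Agent.H58.IPlusT
open Filter Topology Finset Polynomial
open BoundedContinuousFunction hiding C

variable {𝕜 : Type} [RCLike 𝕜]

lemma antidiff (p : 𝕜[X]) : ∃ P : 𝕜[X], fwdDiff 1 P.eval = p.eval := by
  induction p using Polynomial.induction_on' with
  | add p q hp hq =>
    obtain ⟨P, hP⟩ := hp
    obtain ⟨Q, hQ⟩ := hq
    refine ⟨P + Q, funext fun t => ?_⟩
    have h1 := congrFun hP t
    have h2 := congrFun hQ t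
    simp only [fwdDiff, eval_add] at h1 h2 ⊢
    linear_combination h1 + h2
  | monomial n a =>
    refine ⟨C (a / (n + 1)) * (Polynomial.bernoulli (n + 1)).map (algebraMap ℚ 𝕜), funext fun t => ?_⟩
    have h := congrArg (aeval t) (Polynomial.bernoulli_comp_one_add_X (n + 1))
    have hn : (n + 1 : 𝕜) ≠ 0 := Nat.cast_add_one_ne_zero n
    simp only [aeval_comp, map_add, map_one, aeval_X, map_mul, map_natCast, map_pow,
      Nat.add_sub_cancel, nsmul_eq_mul, Nat.cast_succ] at h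
    simp only [fwdDiff, eval_mul, eval_C, eval_map_algebraMap, eval_monomial, add_comm t 1, h]
    field_simp; ring

lemma poly_le (p : 𝕜[X]) : ∃ C : ℝ, 0 ≤ C ∧ ∀ (x : 𝕜) (y : ℝ), 1 ≤ y → ‖x‖ ≤ y →
    ‖p.eval x‖ ≤ C * y ^ p.natDegree := by
  refine ⟨∑ i ∈ range (p.natDegree + 1), ‖p.coeff i‖, by positivity, fun x y hy hx => ?_⟩
  rw [eval_eq_sum_range, sum_mul]
  refine (norm_sum_le _ _).trans (sum_le_sum fun i hi => ?_)
  rw [norm_mul, norm_pow]
  exact mul_le_mul_of_nonneg_left ((pow_le_pow_left₀ (norm_nonneg _) hx _).trans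
    (pow_le_pow_right₀ hy (Nat.lt_succ_iff.1 (mem_range.1 hi)))) (norm_nonneg _)

lemma pow_le (m : ℕ) : ∃ C : ℝ, 0 ≤ C ∧ ∀ t : ℕ, ((t : ℝ) + 1) ^ m ≤ C * 2 ^ t := by
  obtain ⟨C, hC⟩ := (tendsto_pow_const_div_const_pow_of_one_lt m (one_lt_two (α := ℝ))).bddAbove_range
  have h : ∀ t : ℕ, (t : ℝ) ^ m / 2 ^ t ≤ C := fun t => hC ⟨t, rfl⟩
  refine ⟨2 * C, by linarith [h 1, show (0 : ℝ) ≤ ((1 : ℕ) : ℝ) ^ m / 2 ^ 1 by positivity],
    fun t => ?_⟩
  have := h (t + 1)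
  rw [div_le_iff₀ (by positivity), pow_succ] at this
  push_cast at this
  linarith

lemma poly_le' (p : 𝕜[X]) : ∃ C : ℝ, 0 ≤ C ∧ ∀ t : ℕ, ‖p.eval (t : 𝕜)‖ ≤ C * 2 ^ t := by
  obtain ⟨C, hC, h⟩ := poly_le p
  obtain ⟨D, hD, h'⟩ := pow_le p.natDegree
  refine ⟨C * D, by positivity, fun t => (h t (t + 1) (by simp) (by simp)).trans ?_⟩
  rw [mul_assoc]
  exact mul_le_mul_of_nonneg_left (h' t) hC

def Conv (a : ℕ → 𝕜 → 𝕜) (q : 𝕜 → 𝕜) : Prop := ∀ ε : ℝ, 0 < ε → ∃ N : ℕ, ∀ n, N ≤ n → ∀ t : ℕ,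
  ‖a n t‖ ≤ ε * 2 ^ t ∧ ‖a n (t + n) - q t‖ ≤ ε * 2 ^ t

lemma Conv.sub {a b : ℕ → 𝕜 → 𝕜} {q : 𝕜 → 𝕜} (h : Conv a q) (h' : Conv b q) : Conv (a - b) 0 := by
  intro ε hε
  obtain ⟨N, hN⟩ := h (ε / 2) (by positivity)
  obtain ⟨N', hN'⟩ := h' (ε / 2) (by positivity)
  refine ⟨N + N', fun n hn t => ?_⟩
  obtain ⟨h1, h2⟩ := hN n (by omega) t
  obtain ⟨h3, h4⟩ := hN' n (by omega) t
  simp only [Pi.sub_apply, Pi.zero_apply, sub_zero]
  refine ⟨(norm_sub_le _ _).trans (by linarith), ?_⟩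
  rw [← sub_sub_sub_cancel_right _ _ (q t)]
  exact (norm_sub_le _ _).trans (by linarith)

lemma Conv.diff {a : ℕ → 𝕜 → 𝕜} {q : 𝕜 → 𝕜} (h : Conv a q) :
    Conv (fun n => fwdDiff 1 (a n)) (fwdDiff 1 q) := by
  intro ε hε
  obtain ⟨N, hN⟩ := h (ε / 3) (by positivity)
  refine ⟨N, fun n hn t => ?_⟩
  obtain ⟨h1, h2⟩ := hN n hn t
  obtain ⟨h3, h4⟩ := hN n hn (t + 1)
  rw [pow_succ, Nat.cast_succ] at h3 h4
  simp only [fwdDiff]
  refine ⟨(norm_sub_le _ _).trans (by linarith), ?_⟩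
  rw [sub_sub_sub_comm, add_right_comm]
  exact (norm_sub_le _ _).trans (by linarith)

noncomputable def q : ℕ → 𝕜[X]
  | 0 => 1
  | k + 1 => (antidiff (q k)).choose

lemma q_succ (k : ℕ) : fwdDiff 1 (q (k + 1) : 𝕜[X]).eval = (q k).eval := (antidiff (q k)).choose_spec

noncomputable def z (k n : ℕ) : 𝕜[X] :=
  (q k).comp (X - C (n : 𝕜)) * (C (n + 1 : 𝕜)⁻¹ * (X + 1)) ^ ((q k : 𝕜[X]).natDegree + 1)

lemma z_eval (k n : ℕ) (t : 𝕜) : (z k n).eval t =
    (q k).eval (t - n) * ((t + 1) / (n + 1)) ^ ((q k : 𝕜[X]).natDegree + 1) := by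
  simp [z, eval_comp, div_eq_inv_mul]

lemma z_deg (k n : ℕ) : (z k n : 𝕜[X]).natDegree < 2 * (q k : 𝕜[X]).natDegree + 2 := by
  have h1 : ((q k).comp (X - C (n : 𝕜))).natDegree ≤ (q k : 𝕜[X]).natDegree :=
    natDegree_comp_le.trans (by rw [natDegree_X_sub_C, mul_one])
  have h2 : (C (n + 1 : 𝕜)⁻¹ * (X + 1)).natDegree ≤ 1 := by compute_degree
  have h3 := natDegree_pow_le_of_le ((q k : 𝕜[X]).natDegree + 1) h2
  have := natDegree_mul_le_of_le h1 h3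
  unfold z
  omega

lemma z_conv (k : ℕ) : Conv (fun n => (z k n : 𝕜[X]).eval) (q k).eval := by
  intro ε hε
  obtain ⟨C, hC, h⟩ := poly_le (q k : 𝕜[X])
  simp only [z_eval]
  generalize (q k : 𝕜[X]).natDegree = d at h ⊢
  obtain ⟨D, hD, h'⟩ := pow_le (2 * d + 1)
  obtain ⟨N, hN⟩ := exists_nat_ge (C * D * (d + 1) / ε)
  refine ⟨N, fun n hn t => ?_⟩
  have hn' : (N : ℝ) ≤ n := by exact_mod_cast hn
  have n0 : (0 : ℝ) ≤ n := n.cast_nonneg
  have t0 : (0 : ℝ) ≤ t := t.cast_nonneg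
  have d0 : (0 : ℝ) ≤ d := d.cast_nonneg
  have key : C * ((d + 1) * ((t : ℝ) + 1) ^ (2 * d + 1) / (n + 1)) ≤ ε * 2 ^ t := by
    rw [div_le_iff₀ hε] at hN
    rw [← mul_div_assoc, div_le_iff₀ (by positivity)]
    have a1 := mul_le_mul_of_nonneg_left (h' t) (show 0 ≤ C * (d + 1) by positivity)
    have a2 : C * D * (d + 1) ≤ (n + 1) * ε := by nlinarith
    have a3 := mul_le_mul_of_nonneg_right a2 (show (0 : ℝ) ≤ 2 ^ t by positivity)
    nlinarith
  constructor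
  · have a1 := h (t - n) ((t + 1) * (n + 1)) (by nlinarith)
      ((norm_sub_le _ _).trans (by simp; nlinarith))
    have a2 : ‖((t : 𝕜) + 1) / (n + 1)‖ = ((t : ℝ) + 1) / (n + 1) := by
      rw [← Nat.cast_succ, ← Nat.cast_succ, norm_div, RCLike.norm_natCast, RCLike.norm_natCast]
      push_cast; rfl
    rw [norm_mul, norm_pow, a2]
    refine (mul_le_mul_of_nonneg_right a1 (by positivity)).trans (le_trans ?_ key)
    rw [mul_assoc]
    refine mul_le_mul_of_nonneg_left ?_ hC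
    have e : (((t : ℝ) + 1) * (n + 1)) ^ d * (((t : ℝ) + 1) / (n + 1)) ^ (d + 1) =
        1 * ((t : ℝ) + 1) ^ (2 * d + 1) / (n + 1) := by
      rw [mul_pow, div_pow]; field_simp; ring
    rw [e]
    gcongr; linarith
  · have a1 := h t (t + 1) (by linarith) (by simp)
    have a2 : ((t : 𝕜) + n + 1) / (n + 1) = ((1 + t / (n + 1) : ℝ) : 𝕜) := by
      have : (n + 1 : 𝕜) ≠ 0 := Nat.cast_add_one_ne_zero n
      push_cast; field_simp; ring
    have s0 : (0 : ℝ) ≤ t / (n + 1) := by positivity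
    have s1 : (t : ℝ) / (n + 1) ≤ t := div_le_self t0 (by linarith)
    have a3 := abs_pow_sub_pow_le (a := 1 + (t : ℝ) / (n + 1)) (b := 1) (n := d + 1)
    rw [one_pow, add_sub_cancel_left, abs_one, abs_of_nonneg s0,
      abs_of_nonneg (show 0 ≤ 1 + (t : ℝ) / (n + 1) by positivity),
      max_eq_left (by linarith), Nat.add_sub_cancel] at a3
    have a4 : ∀ r : ℝ, ‖(r : 𝕜) ^ (d + 1) - 1‖ = |r ^ (d + 1) - 1| := fun r => by
      rw [← RCLike.norm_ofReal (K := 𝕜)]; push_cast; rfl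
    rw [add_sub_cancel_right, a2, ← mul_sub_one, norm_mul, a4]
    refine (mul_le_mul a1 a3 (abs_nonneg _) (by positivity)).trans (le_trans ?_ key)
    rw [mul_assoc]
    refine mul_le_mul_of_nonneg_left ?_ hC
    have e : (d + 1) * ((t : ℝ) + 1) ^ (2 * d + 1) / (n + 1) =
        ((t : ℝ) + 1) ^ d * ((t + 1) / (n + 1) * (d + 1 : ℕ) * (t + 1) ^ d) := by
      push_cast; field_simp; ring
    rw [e]
    gcongr _ * (?_ / _ * _ * ?_ ^ d) <;> linarith

noncomputable def W (n t : ℕ) : ℝ := 2 ^ (if t < n then t else t - n)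

lemma W_pos (n t : ℕ) : 0 < W n t := by unfold W; positivity

lemma W_succ (n t : ℕ) : W n (t + 1) ≤ 2 * W n t := by
  unfold W
  rw [← pow_succ']
  exact pow_le_pow_right₀ one_le_two (by split_ifs <;> omega)

lemma W_ge {n N : ℕ} (h : n ≤ N) (t : ℕ) : 2 ^ t ≤ 2 ^ N * W n t := by
  unfold W
  rw [← pow_add]
  exact pow_le_pow_right₀ one_le_two (by split_ifs <;> omega)

variable (𝕜) in
abbrev Y : Type := (ℕ × ℕ) →ᵇ 𝕜

def Rep (F : Y 𝕜) (a : ℕ → 𝕜 → 𝕜) : Prop := ∀ n t : ℕ, F (n, t) = a n t / (W n t : ℝ)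

lemma bd {f : 𝕜 → 𝕜} {n : ℕ} {A B : ℝ} (h1 : ∀ t : ℕ, ‖f t‖ ≤ A * 2 ^ t)
    (h2 : ∀ t : ℕ, ‖f (t + n)‖ ≤ B * 2 ^ t) (t : ℕ) : ‖f t / (W n t : ℝ)‖ ≤ max A B := by
  rw [norm_div, RCLike.norm_ofReal, abs_of_pos (W_pos _ _), div_le_iff₀ (W_pos _ _), W]
  split_ifs with h
  · exact (h1 t).trans (by gcongr; exact le_max_left _ _)
  · have := h2 (t - n)
    rw [← Nat.cast_add, Nat.sub_add_cancel (not_lt.1 h)] at this
    exact this.trans (by gcongr; exact le_max_right _ _)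

lemma exists_rep (a : ℕ → 𝕜[X]) (p : 𝕜[X]) (h : Conv (fun n => (a n).eval) p.eval) :
    ∃ F : Y 𝕜, Rep F fun n => (a n).eval := by
  obtain ⟨N, hN⟩ := h 1 one_pos
  obtain ⟨C, hC, h1⟩ := poly_le' p
  choose D hD h2 using fun n => poly_le' (a n)
  refine ⟨ofNormedAddCommGroupDiscrete (fun b => (a b.1).eval (b.2 : 𝕜) / (W b.1 b.2 : ℝ))
    (max 1 (1 + C) + (∑ n ∈ range N, D n) * 2 ^ N) fun ⟨n, t⟩ => ?_, fun _ _ => rfl⟩
  have s0 : 0 ≤ ∑ n ∈ range N, D n := sum_nonneg fun n _ => hD n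
  by_cases hn : N ≤ n
  · refine (bd (f := (a n).eval) (fun t => (hN n hn t).1) (fun t => ?_) t).trans
      (le_add_of_nonneg_right (by positivity))
    linarith [(hN n hn t).2, h1 t, norm_sub_norm_le ((a n).eval (t + n : 𝕜)) (p.eval (t : 𝕜))]
  · refine le_trans ?_ (le_add_of_nonneg_left (by positivity))
    rw [norm_div, RCLike.norm_ofReal, abs_of_pos (W_pos _ _), div_le_iff₀ (W_pos _ _), mul_assoc]
    exact (h2 n t).trans (mul_le_mul (single_le_sum (fun n _ => hD n) (mem_range.2 (not_le.1 hn)))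
      (W_ge (not_le.1 hn).le t) (by positivity) s0)

lemma exists_single (n : ℕ) (p : 𝕜[X]) :
    ∃ F : Y 𝕜, Rep F fun m => if m = n then p.eval else 0 := by
  obtain ⟨F, hF⟩ := exists_rep (fun m => if m = n then p else 0) 0 fun ε hε =>
    ⟨n + 1, fun m hm t => by simp [show m ≠ n by omega]; positivity⟩
  refine ⟨F, fun m t => ?_⟩
  rw [hF]
  by_cases h : m = n <;> simp [h]

lemma small_mem (K : Submodule 𝕜 (Y 𝕜)) (hK : IsClosed (K : Set (Y 𝕜)))
    (hs : ∀ (n : ℕ) (p : 𝕜[X]) (F : Y 𝕜), (Rep F fun m => if m = n then p.eval else 0) → F ∈ K)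
    {F : Y 𝕜} {a : ℕ → 𝕜 → 𝕜} (hF : Rep F a) (ha : ∀ n, ∃ p : 𝕜[X], a n = p.eval)
    (hc : Conv a 0) : F ∈ K := by
  choose p hp using ha
  choose G hG using fun n => exists_single n (p n)
  refine hK.closure_subset (Metric.mem_closure_iff.2 fun ε hε => ?_)
  obtain ⟨N, hN⟩ := hc (ε / 2) (by positivity)
  refine ⟨∑ n ∈ range N, G n, K.sum_mem fun n _ => hs n _ _ (hG n), lt_of_le_of_lt
    ((dist_le (by positivity)).2 fun ⟨n, t⟩ => ?_) (half_lt_self hε)⟩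
  have e : (∑ m ∈ range N, G m) (n, t) = if n < N then F (n, t) else 0 := by
    rw [BoundedContinuousFunction.sum_apply, sum_congr rfl fun m _ => hG m n t, hF, hp]
    simp [ite_apply, ite_div]
  rw [e]
  split_ifs with h
  · simp; positivity
  · rw [dist_zero_right, hF]
    exact (bd (f := a n) (fun t => (hN n (not_lt.1 h) t).1)
      (fun t => by simpa using (hN n (not_lt.1 h) t).2) t).trans (max_self _).le

lemma S_bd (F : Y 𝕜) (a : ℕ × ℕ) :
    ‖((W a.1 (a.2 + 1) / W a.1 a.2 : ℝ) : 𝕜) * F (a.1, a.2 + 1)‖ ≤ 2 * ‖F‖ := by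
  rw [norm_mul, RCLike.norm_ofReal, abs_of_pos (div_pos (W_pos _ _) (W_pos _ _))]
  exact mul_le_mul ((div_le_iff₀ (W_pos _ _)).2 (W_succ _ _)) (F.norm_coe_le_norm _)
    (norm_nonneg _) zero_le_two

variable (𝕜) in
noncomputable def S : Y 𝕜 →L[𝕜] Y 𝕜 :=
  LinearMap.mkContinuous
    { toFun := fun F => ofNormedAddCommGroupDiscrete
        (fun a => ((W a.1 (a.2 + 1) / W a.1 a.2 : ℝ) : 𝕜) * F (a.1, a.2 + 1)) (2 * ‖F‖) (S_bd F)
      map_add' := fun F G => by ext a; exact mul_add _ _ _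
      map_smul' := fun r F => by ext a; exact mul_left_comm _ _ _ }
    2 fun F => (BoundedContinuousFunction.norm_le (by positivity)).2 (S_bd F)

variable (𝕜) in
noncomputable def T : Y 𝕜 →L[𝕜] Y 𝕜 := S 𝕜 - 1

lemma S_apply (F : Y 𝕜) (n t : ℕ) :
    S 𝕜 F (n, t) = ((W n (t + 1) / W n t : ℝ) : 𝕜) * F (n, t + 1) := rfl

lemma W_ne (n t : ℕ) : ((W n t : ℝ) : 𝕜) ≠ 0 := by exact_mod_cast (W_pos n t).ne'

lemma S_iter (k : ℕ) (F : Y 𝕜) (n t : ℕ) :
    (S 𝕜)^[k] F (n, t) = ((W n (t + k) / W n t : ℝ) : 𝕜) * F (n, t + k) := by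
  induction k generalizing t with
  | zero => simp [(W_pos n t).ne']
  | succ k ih =>
    rw [Function.iterate_succ_apply', S_apply, ih, add_assoc, add_comm 1 k]
    have := W_ne (𝕜 := 𝕜) n (t + 1)
    push_cast; field_simp

lemma Rep.diff {F : Y 𝕜} {a : ℕ → 𝕜 → 𝕜} (h : Rep F a) :
    Rep ((T 𝕜) F) fun n => fwdDiff 1 (a n) := by
  intro n t
  change S 𝕜 F (n, t) - F (n, t) = _
  have := W_ne (𝕜 := 𝕜) n (t + 1)
  have := W_ne (𝕜 := 𝕜) n t
  rw [S_apply, h, h]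
  simp only [fwdDiff]
  push_cast; field_simp

lemma Rep.sub {F G : Y 𝕜} {a b : ℕ → 𝕜 → 𝕜} (h : Rep F a) (h' : Rep G b) : Rep (F - G) (a - b) := by
  intro n t
  change F (n, t) - G (n, t) = _
  rw [h, h', Pi.sub_apply, Pi.sub_apply, sub_div]

lemma Rep.unique {F G : Y 𝕜} {a : ℕ → 𝕜 → 𝕜} (h : Rep F a) (h' : Rep G a) : F = G := by
  ext ⟨n, t⟩; rw [h, h']

lemma Rep.nil {F : Y 𝕜} {a : ℕ → 𝕜 → 𝕜} (h : Rep F a) (d : ℕ) (hd : ∀ n, (fwdDiff 1)^[d] (a n) = 0) :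
    (T 𝕜)^[d] F = 0 := by
  induction d generalizing F a with
  | zero => ext ⟨n, t⟩; rw [Function.iterate_zero_apply, h, show a n = 0 from hd n]; simp
  | succ d ih => exact ih h.diff hd

lemma diff_poly (p : 𝕜[X]) : fwdDiff 1 p.eval = (p.comp (X + 1) - p).eval := by
  ext t; simp [fwdDiff, eval_comp]

lemma diff_ite (n : ℕ) (f : 𝕜 → 𝕜) : (fun m => fwdDiff 1 (if m = n then f else 0)) =
    fun m => if m = n then fwdDiff 1 f else 0 := by
  ext m t; split_ifs <;> simp [fwdDiff]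

variable (𝕜) in
noncomputable def Z (k : ℕ) : Y 𝕜 := (exists_rep (z k) (q k) (z_conv k)).choose

lemma Z_rep (k : ℕ) : Rep (Z 𝕜 k) fun n => (z k n).eval :=
  (exists_rep (z k) (q k) (z_conv k)).choose_spec

variable (𝕜) in
def G : Set (Y 𝕜) :=
  {F | ∃ (n : ℕ) (p : 𝕜[X]), Rep F fun m => if m = n then p.eval else 0} ∪ Set.range (Z 𝕜)

variable (𝕜) in
noncomputable def M : Submodule 𝕜 (Y 𝕜) := (Submodule.span 𝕜 (G 𝕜)).topologicalClosure

lemma G_sub {F : Y 𝕜} (h : F ∈ G 𝕜) : F ∈ M 𝕜 :=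
  Submodule.le_topologicalClosure _ (Submodule.subset_span h)

lemma TZ (K : Submodule 𝕜 (Y 𝕜)) (hK : IsClosed (K : Set (Y 𝕜)))
    (hs : ∀ (n : ℕ) (p : 𝕜[X]) (F : Y 𝕜), (Rep F fun m => if m = n then p.eval else 0) → F ∈ K)
    (k : ℕ) : (T 𝕜) (Z 𝕜 (k + 1)) - Z 𝕜 k ∈ K := by
  refine small_mem K hK hs ((Z_rep _).diff.sub (Z_rep k))
    (fun n => ⟨(z (k + 1) n).comp (X + 1) - z (k + 1) n - z k n, ?_⟩) ?_
  · ext t; simp [fwdDiff, eval_comp]
  · have := (z_conv (𝕜 := 𝕜) (k + 1)).diff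
    rw [q_succ] at this
    exact this.sub (z_conv k)

lemma T_mem : ∀ F ∈ M 𝕜, (T 𝕜) F ∈ M 𝕜 := by
  have hK : IsClosed (M 𝕜 : Set (Y 𝕜)) := Submodule.isClosed_topologicalClosure _
  have hs : ∀ (n : ℕ) (p : 𝕜[X]) (F : Y 𝕜), (Rep F fun m => if m = n then p.eval else 0) →
      F ∈ M 𝕜 := fun n p F h => G_sub (Or.inl ⟨n, p, h⟩)
  have : M 𝕜 ≤ (M 𝕜).comap (T 𝕜).toLinearMap := by
    refine Submodule.topologicalClosure_minimal _ (Submodule.span_le.2 ?_)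
      (hK.preimage (T 𝕜).continuous)
    rintro F (⟨n, p, h⟩ | ⟨k, rfl⟩)
    · have := h.diff
      rw [diff_ite, diff_poly] at this
      exact hs _ _ _ this
    · rcases k with _ | k
      · refine small_mem _ hK hs (Z_rep 0).diff (fun n => ⟨_, diff_poly _⟩) ?_
        have := (z_conv (𝕜 := 𝕜) 0).diff
        rwa [show fwdDiff 1 (q 0 : 𝕜[X]).eval = 0 by ext t; simp [fwdDiff, q]] at this
      · simpa using (M 𝕜).add_mem (TZ _ hK hs k) (G_sub (Or.inr ⟨k, rfl⟩))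
  exact fun F hF => this hF

lemma range_dense : ∀ F ∈ M 𝕜, F ∈ closure ((T 𝕜) '' (M 𝕜 : Set (Y 𝕜))) := by
  have hs : ∀ (n : ℕ) (p : 𝕜[X]) (F : Y 𝕜), (Rep F fun m => if m = n then p.eval else 0) →
      F ∈ ((M 𝕜).map (T 𝕜).toLinearMap).topologicalClosure := fun n p F h => by
    obtain ⟨P, hP⟩ := antidiff p
    obtain ⟨H, hH⟩ := exists_single n P
    have := hH.diff
    rw [diff_ite, hP] at this
    exact Submodule.le_topologicalClosure _ ⟨H, G_sub (Or.inl ⟨n, P, hH⟩), this.unique h⟩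
  have : M 𝕜 ≤ ((M 𝕜).map (T 𝕜).toLinearMap).topologicalClosure := by
    refine Submodule.topologicalClosure_minimal _ (Submodule.span_le.2 ?_)
      (Submodule.isClosed_topologicalClosure _)
    rintro F (⟨n, p, h⟩ | ⟨k, rfl⟩)
    · exact hs n p F h
    · have a : T 𝕜 (Z 𝕜 (k + 1)) ∈ ((M 𝕜).map (T 𝕜).toLinearMap).topologicalClosure :=
        Submodule.le_topologicalClosure _ ⟨_, G_sub (Or.inr ⟨k + 1, rfl⟩), rfl⟩
      have b := Submodule.sub_mem _ a (TZ _ (Submodule.isClosed_topologicalClosure _) hs k)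
      rwa [sub_sub_cancel] at b
  exact fun F hF => this hF

lemma nil : ∀ F ∈ Submodule.span 𝕜 (G 𝕜), ∃ d, ((T 𝕜) ^ (d + 1)) F = 0 := by
  intro F hF
  induction hF using Submodule.span_induction with
  | mem F h =>
    rcases h with ⟨n, p, h⟩ | ⟨k, rfl⟩
    · refine ⟨p.natDegree, ?_⟩
      rw [FunLike.coe_pow_eq_iterate]
      refine h.nil _ fun m => ?_
      split_ifs
      · exact p.fwdDiff_iter_degree_add_one_eq_zero
      · exact Function.iterate_fixed (by ext; simp [fwdDiff]) _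
    · refine ⟨2 * (q k : 𝕜[X]).natDegree + 1, ?_⟩
      rw [FunLike.coe_pow_eq_iterate]
      exact (Z_rep k).nil _ fun m => Polynomial.fwdDiff_iter_eq_zero_of_degree_lt (z_deg k m)
  | zero => exact ⟨0, map_zero _⟩
  | add F H _ _ h1 h2 =>
    obtain ⟨d, h1⟩ := h1
    obtain ⟨e, h2⟩ := h2
    refine ⟨d + e, ?_⟩
    rw [map_add, show d + e + 1 = e + (d + 1) by ring, pow_add, mul_apply_eq_comp, h1, map_zero,
      ← pow_add, show e + (d + 1) = d + (e + 1) by ring, pow_add, mul_apply_eq_comp, h2, map_zero,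
      add_zero]
  | smul c F _ h => obtain ⟨d, h⟩ := h; exact ⟨d, by rw [map_smul, h, smul_zero]⟩

lemma sep : TopologicalSpace.IsSeparable (M 𝕜 : Set (Y 𝕜)) := by
  refine TopologicalSpace.IsSeparable.closure (TopologicalSpace.IsSeparable.span
    (TopologicalSpace.IsSeparable.union ?_ (Set.countable_range _).isSeparable))
  choose H hH using fun b : ℕ × ℕ => exists_single b.1 (monomial b.2 (1 : 𝕜))
  refine ((Set.countable_range H).isSeparable.span (R := 𝕜)).mono ?_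
  rintro F ⟨n, p, h⟩
  induction p using Polynomial.induction_on' generalizing F with
  | add p r hp hr =>
    obtain ⟨P, hP⟩ := exists_single n p
    obtain ⟨R, hR⟩ := exists_single n r
    have : F = P + R := by
      ext ⟨m, t⟩
      change _ = P (m, t) + R (m, t)
      rw [h, hP, hR]
      by_cases e : m = n <;> simp [e, add_div]
    rw [this]
    exact Submodule.add_mem _ (hp hP) (hr hR)
  | monomial j c =>
    have : F = c • H (n, j) := by
      ext ⟨m, t⟩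
      change _ = c * H (n, j) (m, t)
      rw [h, hH]
      by_cases e : m = n <;> simp [e, mul_div_assoc]
    rw [this]
    exact Submodule.smul_mem _ _ (Submodule.subset_span ⟨_, rfl⟩)

lemma far (F : Y 𝕜) (hF : ‖F - Z 𝕜 0‖ < 1 / 2) (n : ℕ) : 1 / 2 < ‖(S 𝕜)^[n] F‖ := by
  have h1 := ((S 𝕜)^[n] F).norm_coe_le_norm (n, 0)
  have h2 := (F - Z 𝕜 0).norm_coe_le_norm (n, n)
  have e1 : W n n = 1 := by simp [W]
  have e2 : W n 0 = 1 := by simp [W]
  have e3 : Z 𝕜 0 (n, n) = 1 := by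
    rw [Z_rep]
    simp only
    rw [z_eval, e1, div_self (Nat.cast_add_one_ne_zero n)]; simp [q]
  rw [S_iter, zero_add, e1, e2] at h1
  change ‖F (n, n) - Z 𝕜 0 (n, n)‖ ≤ _ at h2
  rw [e3, norm_sub_rev] at h2
  have h3 := norm_sub_norm_le (1 : 𝕜) (F (n, n))
  simp only [div_one, RCLike.ofReal_one, one_mul, norm_one] at h1 h3
  linarith

end Pool.Agent.H58.IPlusT
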