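import Mathlib

set_option autoImplicit false

namespace Pool.Agent.H58.Ic

open Finset MeasureTheory Real

variable {ι : Type} [Fintype ι]

theorem int_val (h1 : 1 ≤ Fintype.card ι) (h7 : Fintype.card ι ≤ 7) :
    1 < ∫ x : EuclideanSpace ℝ ι, max (1 - ‖x‖ ^ 2) 0 := by
  have hd : Module.finrank ℝ (EuclideanSpace ℝ ι) = Fintype.card ι := by simp
  have : Nontrivial (EuclideanSpace ℝ ι) := Module.nontrivial_of_finrank_pos (R := ℝ) (by omega)
  rw [integral_fun_norm_addHaar volume fun y => max (1 - y ^ 2) 0]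
  obtain ⟨n, hn⟩ : ∃ n, Fintype.card ι = n + 1 := ⟨Fintype.card ι - 1, by omega⟩
  have e1 : ∫ y in Set.Ioi (0 : ℝ), y ^ n • max (1 - y ^ 2) 0 = 1 / (n + 1 : ℝ) - 1 / (n + 3) := by
    rw [setIntegral_eq_of_subset_of_forall_sdiff_eq_zero (f := fun y : ℝ => y ^ n • max (1 - y ^ 2) 0)
      measurableSet_Ioi (show Set.Ioc (0 : ℝ) 1 ⊆ Set.Ioi 0 from Set.Ioc_subset_Ioi_self)
      (fun y hy => by
        have : 1 < y := by by_contra h; exact hy.2 ⟨hy.1, not_lt.1 h⟩
        rw [max_eq_right (by nlinarith), smul_zero]),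
      setIntegral_congr_fun measurableSet_Ioc (g := fun y => y ^ n - y ^ (n + 2)) (fun y hy => by
        have := hy.1; have := hy.2
        simp only [smul_eq_mul]; rw [max_eq_left (by nlinarith)]; ring),
      ← intervalIntegral.integral_of_le zero_le_one,
      intervalIntegral.integral_sub (by simp) (by simp), integral_pow, integral_pow]
    push_cast; simp; ring
  have hp := Real.pi_gt_d2
  have hp2 : 9.85 < π ^ 2 := by nlinarith
  have hp3 : 30.9 < π ^ 3 := by nlinarith
  rw [hd, hn, Nat.add_sub_cancel, e1, Measure.real]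
  rw [hn] at hd h7
  obtain rfl | rfl | rfl | rfl | rfl | rfl | rfl : n = 0 ∨ n = 1 ∨ n = 2 ∨ n = 3 ∨ n = 4 ∨ n = 5 ∨ n = 6 := by omega
  · rw [InnerProductSpace.volume_ball_of_dim_odd (k := 0) hd, hd]; norm_num
  · rw [InnerProductSpace.volume_ball_of_dim_even (k := 1) hd, hd]
    simp [ENNReal.toReal_ofReal pi_pos.le]; linarith
  · rw [InnerProductSpace.volume_ball_of_dim_odd (k := 1) hd, hd, ENNReal.toReal_mul,
      ENNReal.toReal_ofReal (by positivity)]
    norm_num [Nat.doubleFactorial]; linarith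
  · rw [InnerProductSpace.volume_ball_of_dim_even (k := 2) hd, hd, ENNReal.toReal_mul,
      ENNReal.toReal_ofReal (by positivity)]
    norm_num [Nat.factorial]; linarith
  · rw [InnerProductSpace.volume_ball_of_dim_odd (k := 2) hd, hd, ENNReal.toReal_mul,
      ENNReal.toReal_ofReal (by positivity)]
    norm_num [Nat.doubleFactorial]; linarith
  · rw [InnerProductSpace.volume_ball_of_dim_even (k := 3) hd, hd, ENNReal.toReal_mul,
      ENNReal.toReal_ofReal (by positivity)]
    norm_num [Nat.factorial]; linarith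
  · rw [InnerProductSpace.volume_ball_of_dim_odd (k := 3) hd, hd, ENNReal.toReal_mul,
      ENNReal.toReal_ofReal (by positivity)]
    norm_num [Nat.doubleFactorial]; linarith

theorem fin_bl {J : Type} (s : Finset J) (p : J → ι → ℝ)
    (h : ∀ a ∈ s, ∀ b ∈ s, a ≠ b → 2 ≤ ∑ i, (p a i - p b i) ^ 2) : ∑ a ∈ s, (1 - ∑ i, p a i ^ 2) ≤ 1 := by
  classical
  rcases s.eq_empty_or_nonempty with rfl | hs
  · simp
  have hn : (0 : ℝ) < s.card := by exact_mod_cast hs.card_pos
  have h1 : ∑ a ∈ s, ∑ b ∈ s, (2 - if a = b then 2 else 0 : ℝ) ≤ ∑ a ∈ s, ∑ b ∈ s, ∑ i, (p a i - p b i) ^ 2 := by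
    refine sum_le_sum fun a ha => sum_le_sum fun b hb => ?_
    split_ifs with e
    · simp [e]
    · simpa using h a ha b hb e
  have h2 : ∑ a ∈ s, ∑ b ∈ s, ∑ i, (p a i - p b i) ^ 2 ≤ 2 * s.card * ∑ a ∈ s, ∑ i, p a i ^ 2 := by
    rw [sum_comm (s := s) (t := univ), mul_sum]
    simp only [sum_comm (s := s) (t := univ)]
    refine sum_le_sum fun i _ => ?_
    have : ∑ a ∈ s, ∑ b ∈ s, (p a i - p b i) ^ 2 = 2 * s.card * ∑ a ∈ s, p a i ^ 2 - 2 * (∑ a ∈ s, p a i) ^ 2 := by
      simp only [sub_sq, sum_add_distrib, sum_sub_distrib, sum_const, nsmul_eq_mul, ← mul_sum, ← sum_mul]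
      ring
    nlinarith [sq_nonneg (∑ a ∈ s, p a i)]
  have h3 : ∑ a ∈ s, ∑ b ∈ s, (2 - if a = b then 2 else 0 : ℝ) = s.card * (s.card * 2 - 2) := by
    rw [sum_congr rfl fun a ha => show ∑ b ∈ s, (2 - if a = b then 2 else 0 : ℝ) = s.card * 2 - 2 by
      simp [sum_sub_distrib, ha], sum_const, nsmul_eq_mul]
  rw [sum_sub_distrib, sum_const, nsmul_eq_mul]
  have : s.card * (s.card * 2 - 2) ≤ s.card * (2 * ∑ a ∈ s, ∑ i, p a i ^ 2) := by linarith
  have := le_of_mul_le_mul_left this hn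
  linarith

theorem blich (h1 : 1 ≤ Fintype.card ι) (h7 : Fintype.card ι ≤ 7) (D : ℕ) (hD : 0 < D) {T : Type} [Fintype T]
    (hT : D ^ Fintype.card ι ≤ Fintype.card T) (g : T → ι → ℝ)
    (h : ∀ t t' (z : ι → ℤ), (t ≠ t' ∨ z ≠ 0) → 2 ≤ ∑ i, (g t i - g t' i + D * z i) ^ 2) : False := by
  classical
  have hD' : (D : ℝ) ≠ 0 := by positivity
  let b := (Pi.basisFun ℝ ι).isUnitSMul (w := fun _ => (D : ℝ)) fun _ => IsUnit.mk0 _ hD'
  have hb : ∀ i, b i = (D : ℝ) • Pi.single i 1 := fun i => by simp [b, Module.Basis.isUnitSMul_apply]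
  let f : (ι → ℝ) → ENNReal := fun x => ENNReal.ofReal (1 - ∑ i, x i ^ 2)
  have hf : Measurable f := by unfold f; fun_prop
  have hI : 1 < ∫⁻ x, f x := by
    have e : ∫⁻ x, f x = ∫⁻ x : EuclideanSpace ℝ ι, ENNReal.ofReal (max (1 - ‖x‖ ^ 2) 0) := by
      rw [← (PiLp.volume_preserving_toLp ι).lintegral_comp (by fun_prop)]
      refine lintegral_congr fun x => ?_
      rw [EuclideanSpace.real_norm_sq_eq, ENNReal.ofReal_max, ENNReal.ofReal_zero, max_eq_left (zero_le)]
    have hi := int_val h1 h7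
    rw [e, ← ofReal_integral_eq_lintegral_ofReal (f := fun x : EuclideanSpace ℝ ι => max (1 - ‖x‖ ^ 2) 0) (by
      by_contra hn; rw [integral_undef hn] at hi; linarith) (ae_of_all _ fun x => le_max_right _ _)]
    exact ENNReal.one_lt_ofReal.2 hi
  have hF := ZSpan.isAddFundamentalDomain' b volume
  have hvol : volume (ZSpan.fundamentalDomain b) = (D : ENNReal) ^ Fintype.card ι := by
    have : Matrix.of b = (D : ℝ) • (1 : Matrix ι ι ℝ) := by
      ext i j; simp [hb, Matrix.one_apply, Pi.single_apply, eq_comm]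
    rw [ZSpan.volume_fundamentalDomain, this, Matrix.det_smul, Matrix.det_one, mul_one, abs_of_nonneg (by positivity),
      ENNReal.ofReal_pow (by positivity), ENNReal.ofReal_natCast]
  have hz : ∀ z ∈ Submodule.span ℤ (Set.range b), ∃ n : ι → ℤ, z = fun i => (D : ℝ) * n i := by
    intro z hz
    obtain ⟨c, rfl⟩ := (Submodule.mem_span_range_iff_exists_fun ℤ).1 hz
    exact ⟨c, by ext i; simp [hb, Pi.single_apply, mul_comm]⟩
  have : Countable (Submodule.span ℤ (Set.range b)).toAddSubgroup :=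
    inferInstanceAs (Countable (Submodule.span ℤ (Set.range b)))
  have key : ∀ x, ∑ t, ∑' z : (Submodule.span ℤ (Set.range b)).toAddSubgroup, f ((z +ᵥ x) + g t) ≤ 1 := by
    intro x
    rw [← tsum_fintype (L := SummationFilter.unconditional _), ← ENNReal.tsum_prod, ENNReal.tsum_eq_iSup_sum]
    refine iSup_le fun s => ?_
    let p : T × (Submodule.span ℤ (Set.range b)).toAddSubgroup → ι → ℝ := fun a => (a.2 +ᵥ x) + g a.1
    rw [← sum_filter_of_ne (p := fun a => 0 ≤ 1 - ∑ i, p a i ^ 2) (fun a _ ha => by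
      by_contra hn; exact ha (ENNReal.ofReal_of_nonpos (not_le.1 hn).le)),
      ← ENNReal.ofReal_sum_of_nonneg fun a ha => (mem_filter.1 ha).2]
    refine ENNReal.ofReal_le_one.2 (fin_bl _ p fun a _ a' _ hne => ?_)
    obtain ⟨n, hn⟩ := hz _ a.2.2
    obtain ⟨n', hn'⟩ := hz _ a'.2.2
    refine (h a.1 a'.1 (n - n') ?_).trans_eq (sum_congr rfl fun i _ => ?_)
    · by_contra hc
      push Not at hc
      refine hne (Prod.ext hc.1 (Subtype.ext ?_))
      rw [hn, hn', sub_eq_zero.1 hc.2]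
    · simp only [p, AddSubgroup.vadd_def, vadd_eq_add, Pi.add_apply, hn, hn', Pi.sub_apply]
      push_cast; ring
  have h2 : ∑ _t : T, ∫⁻ x, f x ≤ (D : ENNReal) ^ Fintype.card ι := by
    calc _ = ∑ t : T, ∫⁻ x in ZSpan.fundamentalDomain b,
          ∑' z : (Submodule.span ℤ (Set.range b)).toAddSubgroup, f ((z +ᵥ x) + g t) := by
          refine sum_congr rfl fun t _ => ?_
          rw [← lintegral_add_right_eq_self f (g t), hF.lintegral_eq_tsum'', lintegral_tsum fun z => by fun_prop]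
      _ = ∫⁻ x in ZSpan.fundamentalDomain b,
          ∑ t : T, ∑' z : (Submodule.span ℤ (Set.range b)).toAddSubgroup, f ((z +ᵥ x) + g t) :=
          (lintegral_finsetSum _ fun t _ => Measurable.tsum fun z => by fun_prop).symm
      _ ≤ ∫⁻ _x in ZSpan.fundamentalDomain b, 1 := lintegral_mono key
      _ = _ := by simp [hvol]
  rw [sum_const, card_univ, nsmul_eq_mul] at h2
  have h3 : ((D : ENNReal)) ^ Fintype.card ι ≤ Fintype.card T := by exact_mod_cast hT
  have h4 := ENNReal.mul_lt_mul_right (a := (D : ENNReal) ^ Fintype.card ι) (by positivity) (by simp) hI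
  rw [mul_one] at h4
  exact absurd (h4.trans_le ((mul_le_mul_left h3 _).trans h2)) (lt_irrefl _)

end Pool.Agent.H58.Ic
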