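import Mathlib
import Pool.Agent.H58.Ic1

set_option autoImplicit false

namespace Pool.Agent.H58.Ic

open Finset Matrix

theorem char_sum {κ : Type} [Fintype κ] [DecidableEq κ] (D : ℕ) [NeZero D] (v : κ → ZMod D) :
    ∑ c : κ → ZMod D, ZMod.stdAddChar (c ⬝ᵥ v) = if v = 0 then ((D : ℂ) ^ Fintype.card κ) else 0 := by
  have h1 : ∀ c : κ → ZMod D, ZMod.stdAddChar (c ⬝ᵥ v) = ∏ r, ZMod.stdAddChar (c r * v r) := fun c => by
    rw [dotProduct]
    induction (univ : Finset κ) using Finset.induction_on with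
    | empty => simp
    | insert a s ha ih => rw [sum_insert ha, prod_insert ha, AddChar.map_add_eq_mul, ih]
  simp only [h1]
  rw [← Fintype.piFinset_univ, ← prod_univ_sum (fun _ => univ) fun r x => ZMod.stdAddChar (x * v r)]
  simp only [AddChar.sum_mulShift _ (ZMod.isPrimitive_stdAddChar D)]
  split_ifs with h
  · simp [h]
  · obtain ⟨r, hr⟩ := Function.ne_iff.1 h
    exact prod_eq_zero (mem_univ r) (by simp [show v r ≠ 0 from hr])

theorem ker_card {κ ι : Type} [Fintype κ] [Fintype ι] [DecidableEq κ] [DecidableEq ι] (D : ℕ) [NeZero D]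
    (M : Matrix κ ι (ZMod D)) :
    Nat.card (LinearMap.range M.vecMulLinear) * Nat.card (LinearMap.ker M.mulVecLin) = D ^ Fintype.card ι := by
  classical
  have h1 : ∑ y : ι → ZMod D, (if M *ᵥ y = 0 then ((D : ℂ) ^ Fintype.card κ) else 0) =
      ∑ c : κ → ZMod D, (if c ᵥ* M = 0 then ((D : ℂ) ^ Fintype.card ι) else 0) := by
    simp only [← char_sum]
    rw [sum_comm]
    refine sum_congr rfl fun c _ => sum_congr rfl fun y _ => ?_
    rw [dotProduct_mulVec, dotProduct_comm]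
  rw [← sum_filter, ← sum_filter, sum_const, sum_const, nsmul_eq_mul, nsmul_eq_mul] at h1
  have h2 : Nat.card (LinearMap.ker M.mulVecLin) = (univ.filter fun y => M *ᵥ y = 0).card := by
    rw [← Fintype.card_subtype, ← Nat.card_eq_fintype_card]; rfl
  have h3 : Nat.card (LinearMap.ker M.vecMulLinear) = (univ.filter fun c => c ᵥ* M = 0).card := by
    rw [← Fintype.card_subtype, ← Nat.card_eq_fintype_card]; rfl
  rw [← h2, ← h3] at h1
  have h4 : Nat.card (LinearMap.ker M.mulVecLin) * D ^ Fintype.card κ =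
      Nat.card (LinearMap.ker M.vecMulLinear) * D ^ Fintype.card ι := by exact_mod_cast h1
  have h5 : Nat.card (LinearMap.ker M.vecMulLinear) * Nat.card (LinearMap.range M.vecMulLinear) =
      D ^ Fintype.card κ := by
    have := AddSubgroup.card_mul_index M.vecMulLinear.toAddMonoidHom.ker
    rw [AddSubgroup.index_ker] at this
    refine Eq.trans ?_ (this.trans (by simp))
    rfl
  have h6 : 0 < Nat.card (LinearMap.ker M.vecMulLinear) := Nat.card_pos
  refine Nat.eq_of_mul_eq_mul_left h6 ?_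
  rw [← mul_assoc, h5, ← h4, mul_comm]

theorem core {κ ι : Type} [Fintype κ] [Fintype ι] (h1 : 1 ≤ Fintype.card ι) (h7 : Fintype.card ι ≤ 7)
    (W : Matrix κ ι ℚ) (G : Matrix κ κ ℤ) (hG : W * Wᵀ = G.map (↑)) :
    ∃ (d : ι → ℚ) (v : κ → ℤ), d ⬝ᵥ d = 1 ∧ W *ᵥ d = fun r => (v r : ℚ) := by
  classical
  by_contra hne
  push Not at hne
  obtain ⟨D, hD, M, hM⟩ : ∃ D : ℕ, 0 < D ∧ ∃ M : Matrix κ ι ℤ, M.map (↑) = (D : ℚ) • W := by
    refine ⟨∏ x : κ × ι, (W x.1 x.2).den, prod_pos fun x _ => (W x.1 x.2).pos, ?_⟩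
    have : ∀ r i, ∃ m : ℤ, (m : ℚ) = (∏ x : κ × ι, (W x.1 x.2).den : ℕ) * W r i := fun r i => by
      obtain ⟨c, hc⟩ := dvd_prod_of_mem (fun x : κ × ι => (W x.1 x.2).den) (mem_univ (r, i))
      refine ⟨c * (W r i).num, ?_⟩
      rw [hc]; push_cast
      rw [← Rat.mul_den_eq_num]; ring
    choose M hM using this
    exact ⟨Matrix.of M, by ext r i; simp [hM]⟩
  have : NeZero D := ⟨hD.ne'⟩
  have hD' : (D : ℚ) ≠ 0 := by positivity
  let N : Matrix κ ι (ZMod D) := M.map (↑)
  have lift : ∀ {α : Type} (y : α → ZMod D), ∃ y' : α → ℤ, (fun i => (y' i : ZMod D)) = y := fun y =>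
    ⟨fun i => (y i).cast, by ext i; simp⟩
  have hc : ∀ u : LinearMap.range N.vecMulLinear, ∃ c : κ → ℤ, (fun r => (c r : ZMod D)) ᵥ* N = u := by
    rintro ⟨u, c, rfl⟩
    obtain ⟨c', rfl⟩ := lift c
    exact ⟨c', rfl⟩
  choose c hc using hc
  have hy : ∀ y : LinearMap.ker N.mulVecLin, ∃ y' : ι → ℤ, (fun i => (y' i : ZMod D)) = y := fun y => lift y.1
  choose y hy using hy
  have hMW : ∀ r i, W r i = M r i / D := fun r i => by
    have := congrFun (congrFun hM r) i
    simp only [map_apply, Matrix.smul_apply, smul_eq_mul] at this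
    rw [this]; field_simp
  have hint : ∀ z : ι → ℤ, N *ᵥ (fun i => (z i : ZMod D)) = 0 → ∃ v : κ → ℤ, W *ᵥ (fun i => (z i : ℚ)) = fun r => (v r : ℚ) := by
    intro z hz
    have : ∀ r, ∃ v : ℤ, ∑ i, M r i * z i = D * v := fun r => by
      refine (ZMod.intCast_zmod_eq_zero_iff_dvd _ D).1 ?_
      simpa [N, mulVec, dotProduct] using congrFun hz r
    choose v hv using this
    refine ⟨v, funext fun r => ?_⟩
    have h := congrArg (Int.cast : ℤ → ℚ) (hv r)
    push_cast at h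
    simp only [mulVec, dotProduct, hMW, div_mul_eq_mul_div, ← sum_div, h]
    field_simp
  let _ := Fintype.ofFinite (LinearMap.range N.vecMulLinear × LinearMap.ker N.mulVecLin)
  refine blich h1 h7 D hD (T := LinearMap.range N.vecMulLinear × LinearMap.ker N.mulVecLin)
    (by rw [← Nat.card_eq_fintype_card (α := _ × _), Nat.card_prod, ker_card])
    (fun t i => (((fun r => (c t.1 r : ℚ)) ᵥ* W) i + y t.2 i : ℚ)) fun t t' z hz => ?_
  set C : κ → ℤ := c t.1 - c t'.1 with hC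
  set Y : ι → ℤ := fun i => y t.2 i - y t'.2 i + D * z i with hY
  obtain ⟨v, hv⟩ := hint Y (by
    have e : (fun i => (Y i : ZMod D)) = t.2.1 - t'.2.1 := by
      rw [← hy, ← hy]; ext i; simp [hY]
    rw [e]; exact (t.2 - t'.2).2)
  set d : ι → ℚ := (fun r => (C r : ℚ)) ᵥ* W + fun i => (Y i : ℚ) with hd
  have hWd : W *ᵥ d = fun r => ((G *ᵥ C + v) r : ℚ) := by
    rw [hd, mulVec_add, hv, ← mulVec_transpose, mulVec_mulVec, hG]
    ext r; simp [mulVec, dotProduct]
  have hdd : d ⬝ᵥ d = ((C ⬝ᵥ (G *ᵥ C + v) + (C ⬝ᵥ v + Y ⬝ᵥ Y) : ℤ) : ℚ) := by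
    nth_rewrite 1 [hd]
    rw [add_dotProduct, ← dotProduct_mulVec, hWd, hd, dotProduct_add, dotProduct_comm _ (_ ᵥ* W),
      ← dotProduct_mulVec, hv]
    simp [dotProduct]
  have hd0 : d ≠ 0 := by
    intro h0
    have h2 : ∀ i, (C ᵥ* M) i + D * Y i = 0 := fun i => by
      have := congrFun h0 i
      simp only [hd, Pi.add_apply, vecMul, dotProduct, hMW, Pi.zero_apply, ← mul_div_assoc, ← sum_div] at this
      have h3 : (∑ r, (C r : ℚ) * M r i) + D * Y i = 0 := by field_simp at this; linarith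
      exact_mod_cast h3
    have h3 : t.1 = t'.1 := by
      refine Subtype.ext ?_
      rw [← hc, ← hc, ← sub_eq_zero, ← sub_vecMul]
      ext i
      have := congrArg (Int.cast : ℤ → ZMod D) (h2 i)
      simpa [vecMul, dotProduct, hC, N] using this
    have h4 : Y = 0 := funext fun i => by
      have := h2 i
      simpa [hC, h3, hD.ne'] using this
    have h5 : t.2 = t'.2 := by
      refine Subtype.ext ?_
      rw [← hy, ← hy]
      ext i
      have := congrArg (Int.cast : ℤ → ZMod D) (congrFun h4 i)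
      simpa [hY, sub_eq_zero] using this
    rcases hz with hz | hz
    · exact hz (Prod.ext h3 h5)
    · refine hz (funext fun i => ?_)
      have := congrFun h4 i
      simpa [hY, h5, hD.ne'] using this
  have hpos : 0 < d ⬝ᵥ d := lt_of_le_of_ne (sum_nonneg fun i _ => mul_self_nonneg _)
    fun h => hd0 (dotProduct_self_eq_zero.1 h.symm)
  have hne1 : d ⬝ᵥ d ≠ 1 := fun h => hne d _ h hWd
  have h2 : (2 : ℚ) ≤ d ⬝ᵥ d := by
    rw [hdd] at hpos hne1 ⊢
    generalize (C ⬝ᵥ (G *ᵥ C + v) + (C ⬝ᵥ v + Y ⬝ᵥ Y) : ℤ) = n at *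
    have a1 : 0 < n := by exact_mod_cast hpos
    have a2 : n ≠ 1 := by exact_mod_cast hne1
    exact_mod_cast (show 2 ≤ n by omega)
  have h3 : (2 : ℝ) ≤ ((d ⬝ᵥ d : ℚ) : ℝ) := by exact_mod_cast h2
  refine h3.trans_eq ?_
  rw [dotProduct, Rat.cast_sum]
  refine sum_congr rfl fun i _ => ?_
  simp only [hd, hC, hY, Pi.add_apply, vecMul, dotProduct, Pi.sub_apply]
  push_cast
  simp only [sub_mul, sum_sub_distrib]
  ring

end Pool.Agent.H58.Ic
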