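import Mathlib
import Pool.Agent.H58.Ic2

set_option autoImplicit false

namespace Pool.Agent.H58.Ic

open Finset Matrix

def Fr {R : Type} [CommRing R] (l : R) (k : ℕ) (v : Fin 8 → Fin 8 → R) : Prop :=
  ∀ i j : Fin 8, (i : ℕ) < k → (j : ℕ) < k → v i ⬝ᵥ v j = if i = j then l else 0

theorem start (l : ℕ) : ∃ b : Fin 8 → Fin 8 → ℚ, Fr (l : ℚ) 8 b := by
  obtain ⟨a, b, c, d, h⟩ := Nat.sum_four_squares l
  have h' : (l : ℚ) = a ^ 2 + b ^ 2 + c ^ 2 + d ^ 2 := by exact_mod_cast h.symm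
  refine ⟨![![a, b, c, d, 0, 0, 0, 0], ![-b, a, -d, c, 0, 0, 0, 0], ![-c, d, a, -b, 0, 0, 0, 0],
    ![-d, -c, b, a, 0, 0, 0, 0], ![0, 0, 0, 0, a, b, c, d], ![0, 0, 0, 0, -b, a, -d, c],
    ![0, 0, 0, 0, -c, d, a, -b], ![0, 0, 0, 0, -d, -c, b, a]], fun i j _ _ => ?_⟩
  rw [h']
  fin_cases i <;> fin_cases j <;> simp [dotProduct, Fin.sum_univ_succ] <;> ring

theorem witt (l : ℕ) (k : ℕ) (v : Fin 8 → Fin 8 → ℚ) (hv : Fr (l : ℚ) k v) (j : ℕ) (hj : j ≤ k) :
    ∃ b : Fin 8 → Fin 8 → ℚ, Fr (l : ℚ) 8 b ∧ ∀ i : Fin 8, (i : ℕ) < j → b i = v i := by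
  induction j with
  | zero => obtain ⟨b, hb⟩ := start l; exact ⟨b, hb, by simp⟩
  | succ j ih =>
    obtain ⟨b, hb, h⟩ := ih (by omega)
    by_cases h8 : j < 8
    swap
    · exact ⟨b, hb, fun i _ => h i (by omega)⟩
    let J : Fin 8 := ⟨j, h8⟩
    by_cases e : b J = v J
    · refine ⟨b, hb, fun i hi => ?_⟩
      rcases (Nat.lt_succ_iff.1 hi).lt_or_eq with hi | hi
      · exact h i hi
      · rwa [show i = J from Fin.ext hi]
    set u := b J - v J with hu
    have hu0 : u ⬝ᵥ u ≠ 0 := fun h0 => e (sub_eq_zero.1 (dotProduct_self_eq_zero.1 h0))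
    have h1 : b J ⬝ᵥ b J = l := by simpa using hb J J J.2 J.2
    have h2 : v J ⬝ᵥ v J = l := by simpa using hv J J hj hj
    refine ⟨fun i => b i - (2 * (b i ⬝ᵥ u) / (u ⬝ᵥ u)) • u, fun i i' _ _ => ?_, fun i hi => ?_⟩
    · rw [← hb i i' i.2 i'.2]
      clear_value u
      simp only [sub_dotProduct, dotProduct_sub, smul_dotProduct, dotProduct_smul, smul_eq_mul,
        dotProduct_comm u (b i')]
      field_simp
      ring
    · rcases (Nat.lt_succ_iff.1 hi).lt_or_eq with hi | hi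
      · have hne : i ≠ J := fun h => by simp [h, J] at hi
        have : b i ⬝ᵥ u = 0 := by
          rw [hu, dotProduct_sub, hb i J i.2 J.2, h i hi, hv i J (by omega) hj, sub_self]
        simp only [this, mul_zero, zero_div, zero_smul, sub_zero]
        exact h i hi
      · obtain rfl : i = J := Fin.ext hi
        have : 2 * (b J ⬝ᵥ u) = u ⬝ᵥ u := by
          simp only [hu, sub_dotProduct, dotProduct_sub, h1, h2, dotProduct_comm (v J) (b J)]; ring
        simp only [this, div_self hu0, one_smul]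
        rw [hu, sub_sub_cancel]

theorem step (l : ℕ) (hl : 0 < l) (k : Fin 8) (hk : 1 ≤ (k : ℕ)) (v : Fin 8 → Fin 8 → ℤ) (hv : Fr (l : ℤ) k v) :
    ∃ w, Fr (l : ℤ) (k + 1) (Function.update v k w) := by
  classical
  obtain ⟨b, hb, h⟩ := witt l k (fun i r => (v i r : ℚ)) (fun i j hi hj => by
    have := congrArg (Int.cast : ℤ → ℚ) (hv i j hi hj)
    simpa [dotProduct] using this) k le_rfl
  have hl' : (l : ℚ) ≠ 0 := by positivity
  have hrow : ∀ r s, ∑ i, b i r * b i s = if r = s then (l : ℚ) else 0 := by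
    have h1 : Matrix.of b * ((l : ℚ)⁻¹ • (Matrix.of b)ᵀ) = 1 := by
      ext i j
      have := hb i j i.2 j.2
      rw [Matrix.mul_smul, Matrix.smul_apply, mul_apply, one_apply]
      simp only [of_apply, transpose_apply, smul_eq_mul]
      rw [show ∑ x, b i x * b j x = _ from this]
      split_ifs <;> simp [hl']
    have h2 := mul_eq_one_comm.1 h1
    intro r s
    have h3 := congrFun (congrFun h2 r) s
    rw [Matrix.smul_mul, Matrix.smul_apply, mul_apply, one_apply, smul_eq_mul, inv_mul_eq_iff_eq_mul₀ hl'] at h3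
    simpa using h3
  have hc : Fintype.card {i : Fin 8 // ¬ (i : ℕ) < k} = 8 - k := by
    clear * -; revert k; decide
  obtain ⟨d, w, hd, hw⟩ := core (ι := {i : Fin 8 // ¬ (i : ℕ) < k}) (by omega) (by omega)
    (Matrix.of fun r i => b i.1 r)
    (Matrix.of fun r s => (if r = s then (l : ℤ) else 0) - ∑ i : {i : Fin 8 // (i : ℕ) < k}, v i r * v i s) (by
      ext r s
      have := Fintype.sum_subtype_add_sum_subtype (fun i : Fin 8 => (i : ℕ) < k) fun i => b i r * b i s
      rw [hrow, sum_congr rfl fun (i : {i : Fin 8 // (i : ℕ) < k}) _ => by rw [h i.1 i.2]] at this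
      simp only [mul_apply, of_apply, transpose_apply, map_apply]
      push_cast
      linear_combination this)
  have hw' : (fun r => (w r : ℚ)) = ∑ i : {i : Fin 8 // ¬ (i : ℕ) < k}, d i • b i.1 := by
    rw [← hw]; ext r; simp [mulVec, dotProduct, mul_comm]
  have h1 : ∀ i : Fin 8, (i : ℕ) < k → v i ⬝ᵥ w = 0 := fun i hi => by
    have : b i ⬝ᵥ (fun r => (w r : ℚ)) = 0 := by
      rw [hw', dotProduct_sum]
      refine sum_eq_zero fun j _ => ?_
      rw [dotProduct_smul, hb i j i.2 j.1.2, if_neg fun (e : i = j.1) => j.2 (e ▸ hi), smul_zero]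
    rw [h i hi] at this
    exact_mod_cast (show ((v i ⬝ᵥ w : ℤ) : ℚ) = 0 by simpa [dotProduct] using this)
  have h2 : w ⬝ᵥ w = l := by
    have : (fun r => (w r : ℚ)) ⬝ᵥ (fun r => (w r : ℚ)) = l := by
      rw [hw', sum_dotProduct, ← mul_one (l : ℚ), ← hd, dotProduct, mul_sum]
      refine sum_congr rfl fun i _ => ?_
      rw [dotProduct_sum, sum_eq_single i]
      · rw [smul_dotProduct, dotProduct_smul, hb _ _ i.1.2 i.1.2, if_pos rfl]; simp; ring
      · intro j _ hj
        rw [smul_dotProduct, dotProduct_smul, hb _ _ i.1.2 j.1.2, if_neg fun e => hj (Subtype.ext e.symm)]; simp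
      · simp
    exact_mod_cast (show ((w ⬝ᵥ w : ℤ) : ℚ) = l by simpa [dotProduct] using this)
  refine ⟨w, fun i j hi hj => ?_⟩
  by_cases e1 : i = k <;> by_cases e2 : j = k
  · simp [e1, e2, h2]
  · have := Fin.val_ne_of_ne e2
    rw [e1, Function.update_self, Function.update_of_ne e2, dotProduct_comm, h1 j (by omega), if_neg (Ne.symm e2)]
  · have := Fin.val_ne_of_ne e1
    rw [e2, Function.update_self, Function.update_of_ne e1, h1 i (by omega), if_neg e1]
  · have := Fin.val_ne_of_ne e1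
    have := Fin.val_ne_of_ne e2
    rw [Function.update_of_ne e1, Function.update_of_ne e2, hv i j (by omega) (by omega)]

theorem full (l : ℕ) (hl : 0 < l) (k : ℕ) (hk : 1 ≤ k) (v : Fin 8 → Fin 8 → ℤ) (hv : Fr (l : ℤ) k v) (n : ℕ)
    (hn : k ≤ n) (h8 : n ≤ 8) : ∃ v', Fr (l : ℤ) n v' ∧ ∀ i : Fin 8, (i : ℕ) < k → v' i = v i := by
  induction n, hn using Nat.le_induction with
  | base => exact ⟨v, hv, fun _ _ => rfl⟩
  | succ n hn ih =>
    obtain ⟨v', h1, h2⟩ := ih (by omega)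
    obtain ⟨w, hw⟩ := step l hl ⟨n, h8⟩ (hk.trans hn) v' h1
    exact ⟨_, hw, fun i hi => by rw [Function.update_of_ne (fun e => by simp [e] at hi; omega), h2 i hi]⟩

end Pool.Agent.H58.Ic
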