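import Pool.Agent.H58.KahlerDefs

namespace Pool.Agent.H58.Kah
open Matrix Filter Topology MeasureTheory Complex Set
open scoped ContDiff ComplexOrder

variable {n : ℕ}

noncomputable def lam (c y : ℝ) : ℝ := 1 / Real.sin y ^ 2 + c

/-- the product of strips. -/
def X (n : ℕ) : Set (Fin n → ℂ) := {z | ∀ j, (z j).im ∈ Ioo 0 Real.pi}

noncomputable def H (c : ℝ) : HM n := fun z => diagonal fun j => (lam c (z j).im : ℂ)

lemma X_open : IsOpen (X n) := by
  have : X n = ⋂ j, (fun z : Fin n → ℂ => (z j).im) ⁻¹' Ioo 0 Real.pi := by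
    ext z; simp [X]
  rw [this]
  exact isOpen_iInter_of_finite fun j => isOpen_Ioo.preimage (by fun_prop)

lemma sin_pos {z : Fin n → ℂ} (hz : z ∈ X n) (j : Fin n) : 0 < Real.sin (z j).im :=
  Real.sin_pos_of_pos_of_lt_pi (hz j).1 (hz j).2

lemma lam_pos {c y : ℝ} (hc : 0 ≤ c) (hy : 0 < Real.sin y) : 0 < lam c y := by
  unfold lam; positivity

lemma has_line {G : ℝ → ℝ} {G' : ℝ} {z : Fin n → ℂ} {j : Fin n} (hG : HasDerivAt G G' (z j).im)
    (v : Fin n → ℂ) : HasDerivAt (fun t : ℝ => G ((z + t • v) j).im) (G' * (v j).im) 0 := by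
  have h1 : HasDerivAt (fun t : ℝ => ((z + t • v) j).im) (v j).im 0 := by
    simpa using ((hasDerivAt_id' (0 : ℝ)).mul_const (v j).im).const_add (z j).im
  exact HasDerivAt.comp_of_eq (0 : ℝ) hG h1 (by simp)

lemma line_im {G : ℝ → ℝ} {G' : ℝ} {z : Fin n → ℂ} {j : Fin n} (hG : HasDerivAt G G' (z j).im)
    (a : ℂ) (v : Fin n → ℂ) :
    lineDeriv ℝ (fun w : Fin n → ℂ => a * (G (w j).im : ℂ)) z v = a * (G' * (v j).im : ℝ) :=
  ((has_line hG v).ofReal_comp.const_mul a).deriv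

lemma dz_im {G : ℝ → ℝ} {G' : ℝ} {z : Fin n → ℂ} {j : Fin n} (hG : HasDerivAt G G' (z j).im)
    (a : ℂ) (k : Fin n) : dz k (fun w : Fin n → ℂ => a * (G (w j).im : ℂ)) z =
      if j = k then -(I / 2 * a * G') else 0 := by
  rw [dz, line_im hG, line_im hG]
  split_ifs with h
  · subst h; simp; ring
  · simp [h]

lemma dz_congr {u u' : (Fin n → ℂ) → ℂ} {z : Fin n → ℂ} (h : u =ᶠ[𝓝 z] u') (k : Fin n) :
    dz k u z = dz k u' z := by
  rw [dz, dz, h.lineDeriv_eq, h.lineDeriv_eq]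

lemma dzb_congr {u u' : (Fin n → ℂ) → ℂ} {z : Fin n → ℂ} (h : u =ᶠ[𝓝 z] u') (k : Fin n) :
    dzb k u z = dzb k u' z := by
  rw [dzb, dzb, h.lineDeriv_eq, h.lineDeriv_eq]

lemma lam_has (c : ℝ) {y : ℝ} (hy : 0 < Real.sin y) :
    HasDerivAt (lam c) (-2 * Real.cos y / Real.sin y ^ 3) y := by
  have h := (((hasDerivAt_const y (1 : ℝ)).fun_div ((Real.hasDerivAt_sin y).fun_pow 2)
    (pow_ne_zero 2 hy.ne')).add_const c)
  refine h.congr_deriv ?_
  push_cast
  field_simp
  ring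

lemma det_H (c : ℝ) (z : Fin n → ℂ) : (H c z).det.re = ∏ j, lam c (z j).im := by
  rw [H, det_diagonal, ← Complex.ofReal_prod, ofReal_re]

lemma kahler {c : ℝ} (hc : 0 ≤ c) : IsKahler (X n) (H c) := by
  refine ⟨fun j k => ?_, fun z hz => ?_, fun z hz j k l => ?_⟩
  · by_cases h : j = k
    · subst h
      simp only [H, diagonal_apply_eq, lam]
      refine Complex.ofRealCLM.contDiff.comp_contDiffOn (f := fun z : Fin n → ℂ =>
        1 / Real.sin (z j).im ^ 2 + c) ?_
      have h1 : ContDiff ℝ ∞ fun z : Fin n → ℂ => (z j).im :=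
        Complex.imCLM.contDiff.comp (contDiff_apply ℝ ℂ j)
      exact (contDiffOn_const.div ((Real.contDiff_sin.comp h1).pow 2).contDiffOn
        fun z hz => pow_ne_zero 2 (sin_pos hz j).ne').add contDiffOn_const
    · simp only [H, diagonal_apply_ne _ h]
      exact contDiffOn_const
  · refine Matrix.PosDef.diagonal fun j => ?_
    exact_mod_cast lam_pos hc (sin_pos hz j)
  · have e : ∀ j k l : Fin n, dz l (H c · j k) z = if j = k ∧ j = l then
        -(I / 2 * (-2 * Real.cos (z j).im / Real.sin (z j).im ^ 3 : ℝ)) else 0 := by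
      intro j k l
      have := dz_im (lam_has c (sin_pos hz j)) (if j = k then 1 else 0) l
      have e2 : (H c · j k) = fun w : Fin n → ℂ => (if j = k then 1 else 0) *
          (lam c (w j).im : ℂ) := by
        funext w; simp [H, diagonal_apply]
      rw [e2, this]
      by_cases h2 : j = l
      · subst h2
        by_cases h1 : j = k <;> simp [h1]
      · simp [h2]
    rw [e, e]
    by_cases h1 : j = l
    · subst h1; rfl
    · simp [h1, Ne.symm h1]

noncomputable def G1 (c y : ℝ) : ℝ := -2 * Real.cos y / (Real.sin y * (1 + c * Real.sin y ^ 2))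
noncomputable def G2 (c y : ℝ) : ℝ := 2 * (Real.sin y ^ 2 * (1 + c * Real.sin y ^ 2) +
  (1 - Real.sin y ^ 2) * (1 + 3 * c * Real.sin y ^ 2)) /
    (Real.sin y * (1 + c * Real.sin y ^ 2)) ^ 2

lemma log_has {c : ℝ} (hc : 0 ≤ c) {y : ℝ} (hy : 0 < Real.sin y) :
    HasDerivAt (fun y => Real.log (lam c y)) (G1 c y) y := by
  refine ((lam_has c hy).log (lam_pos hc hy).ne').congr_deriv ?_
  have : 0 < 1 + c * Real.sin y ^ 2 := by positivity
  have h2 : 0 < 1 + Real.sin y ^ 2 * c := by positivity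
  simp only [G1, lam]
  field_simp

lemma G1_has {c : ℝ} (hc : 0 ≤ c) {y : ℝ} (hy : 0 < Real.sin y) :
    HasDerivAt (G1 c) (G2 c y) y := by
  have : 0 < 1 + c * Real.sin y ^ 2 := by positivity
  have h := ((Real.hasDerivAt_cos y).const_mul (-2)).fun_div ((Real.hasDerivAt_sin y).fun_mul
    ((((Real.hasDerivAt_sin y).fun_pow 2).const_mul c).const_add 1)) (by positivity)
  refine h.congr_deriv ?_
  rw [G2, ← Real.cos_sq']
  push_cast
  ring

lemma ric_H {c : ℝ} (hc : 0 ≤ c) {z : Fin n → ℂ} (hz : z ∈ X n) :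
    ric (H c) z = diagonal fun j => ((-(G2 c (z j).im / 2) : ℝ) : ℂ) := by
  ext j k
  have e1 : ∀ w ∈ X n, dzb k (fun w => (Real.log (H c w).det.re : ℂ)) w =
      I / 2 * (G1 c (w k).im : ℂ) := by
    intro w hw
    have e2 : (fun w => (Real.log (H c w).det.re : ℂ)) =ᶠ[𝓝 w]
        fun w => ((∑ j, Real.log (lam c (w j).im) : ℝ) : ℂ) := by
      filter_upwards [X_open.mem_nhds hw] with v hv
      rw [det_H, Real.log_prod fun j _ => (lam_pos hc (sin_pos hv j)).ne']
    have e3 : ∀ v : Fin n → ℂ, lineDeriv ℝ (fun w : Fin n → ℂ =>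
        ((∑ j, Real.log (lam c (w j).im) : ℝ) : ℂ)) w v =
          ((∑ j, G1 c (w j).im * (v j).im : ℝ) : ℂ) := fun v =>
      (HasDerivAt.fun_sum fun j _ => has_line (log_has hc (sin_pos hw j)) v).ofReal_comp.deriv
    rw [dzb_congr e2, dzb, e3, e3]
    simp [Pi.single_apply, apply_ite Complex.im]
    ring
  have e4 : dzb k (fun w => (Real.log (H c w).det.re : ℂ)) =ᶠ[𝓝 z]
      fun w => I / 2 * (G1 c (w k).im : ℂ) := by
    filter_upwards [X_open.mem_nhds hz] with v hv using e1 v hv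
  rw [ric, Matrix.of_apply, dz_congr e4, dz_im (G1_has hc (sin_pos hz k)), diagonal_apply]
  by_cases h : j = k
  · subst h
    simp only [if_true]
    push_cast
    linear_combination (G2 c (z j).im / 2 : ℂ) * I_mul_I
  · simp [h, Ne.symm h]

lemma ric0 {z : Fin n → ℂ} (hz : z ∈ X n) : ric (H 0) z = -H 0 z := by
  rw [ric_H le_rfl hz, H, diagonal_neg]
  congr 1
  funext j
  have := (sin_pos hz j).ne'
  rw [← ofReal_neg]
  congr 1
  simp only [G2, lam]
  field_simp
  ring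

lemma ric1 {z : Fin n → ℂ} (hz : z ∈ X n) : (ric (H 1) z + H 1 z).PosSemidef := by
  rw [ric_H zero_le_one hz, H, diagonal_add]
  refine Matrix.PosSemidef.diagonal fun j => ?_
  have h := sin_pos hz j
  have : 0 ≤ -(G2 1 (z j).im / 2) + lam 1 (z j).im := by
    simp only [G2, lam]
    generalize Real.sin (z j).im = s at *
    have e : -(2 * (s ^ 2 * (1 + 1 * s ^ 2) + (1 - s ^ 2) * (1 + 3 * 1 * s ^ 2)) /
        (s * (1 + 1 * s ^ 2)) ^ 2 / 2) + (1 / s ^ 2 + 1) =
          s ^ 2 * (5 + s ^ 2) / (1 + s ^ 2) ^ 2 := by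
      field_simp
      ring
    rw [e]
    positivity
  simp only [Pi.zero_apply]
  exact_mod_cast this

lemma quad_H (c : ℝ) (z v : Fin n → ℂ) :
    (v ⬝ᵥ H c z *ᵥ star v).re = ∑ j, lam c (z j).im * ((v j).re ^ 2 + (v j).im ^ 2) := by
  simp only [H, dotProduct, mulVec_diagonal, re_sum, Pi.star_apply]
  refine Finset.sum_congr rfl fun j _ => ?_
  simp
  ring

lemma move_le {c : ℝ} {γ : ℝ → Fin n → ℂ} (hγ : ContDiff ℝ 1 γ)
    (hX : ∀ s ∈ Icc (0 : ℝ) 1, γ s ∈ X n) {g g' : ℝ → ℝ}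
    (hg : ∀ s ∈ Icc (0 : ℝ) 1, HasDerivAt g (g' s) s) (hc : ContinuousOn g' (Icc 0 1))
    (hb : ∀ s ∈ Icc (0 : ℝ) 1, g' s ^ 2 ≤
      ∑ j, lam c (γ s j).im * ((deriv γ s j).re ^ 2 + (deriv γ s j).im ^ 2)) :
    |g 1 - g 0| ≤ len (H c) γ := by
  have h1 : Continuous (deriv γ) := hγ.continuous_deriv le_rfl
  have h2 : Continuous γ := hγ.continuous
  have hi : IntervalIntegrable g' volume 0 1 := (by rwa [uIcc_of_le zero_le_one] :
    ContinuousOn g' (uIcc 0 1)).intervalIntegrable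
  rw [← intervalIntegral.integral_eq_sub_of_hasDerivAt
    (fun x hx => hg x (by rwa [uIcc_of_le zero_le_one] at hx)) hi, len]
  simp only [quad_H]
  refine (intervalIntegral.abs_integral_le_integral_abs zero_le_one).trans
    (intervalIntegral.integral_mono_on zero_le_one hi.abs ?_ fun s hs => Real.abs_le_sqrt (hb s hs))
  refine ContinuousOn.intervalIntegrable ?_
  rw [uIcc_of_le zero_le_one]
  refine Real.continuous_sqrt.comp_continuousOn (continuousOn_finsetSum _ fun j _ => ?_)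
  refine ContinuousOn.mul ?_ (by fun_prop)
  unfold lam
  exact (continuousOn_const.div (by fun_prop)
    fun s hs => pow_ne_zero 2 (sin_pos (hX s hs) j).ne').add continuousOn_const

lemma complete {c : ℝ} (hc : 0 ≤ c) : IsComplete (X n) (H c) := by
  intro u hu
  have key : ∀ {p q : Fin n → ℂ} {ε : ℝ}, Near (X n) (H c) p q ε → ∀ j, p ∈ X n ∧ q ∈ X n ∧
      |(q j).re - (p j).re| < ε ∧ |(q j).im - (p j).im| < ε ∧
      |Real.log (Real.sin (q j).im) - Real.log (Real.sin (p j).im)| < ε := by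
    rintro p q ε ⟨γ, hγ, hX, rfl, rfl, hl⟩ j
    have h1 : Continuous (deriv γ) := hγ.continuous_deriv le_rfl
    have h2 : Continuous γ := hγ.continuous
    have hd : ∀ s, HasDerivAt (fun s => γ s j) (deriv γ s j) s := fun s =>
      hasDerivAt_pi.1 ((hγ.differentiable (by norm_num)) s).hasDerivAt j
    have hre : ∀ s, HasDerivAt (fun s => (γ s j).re) (deriv γ s j).re s := fun s =>
      Complex.reCLM.hasFDerivAt.comp_hasDerivAt s (hd s)
    have him : ∀ s, HasDerivAt (fun s => (γ s j).im) (deriv γ s j).im s := fun s =>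
      Complex.imCLM.hasFDerivAt.comp_hasDerivAt s (hd s)
    have hs : ∀ s ∈ Icc (0 : ℝ) 1, 1 / Real.sin (γ s j).im ^ 2 *
        ((deriv γ s j).re ^ 2 + (deriv γ s j).im ^ 2) ≤
        ∑ j, lam c (γ s j).im * ((deriv γ s j).re ^ 2 + (deriv γ s j).im ^ 2) := by
      intro s hs
      refine le_trans ?_ (Finset.single_le_sum (f := fun j => lam c (γ s j).im *
        ((deriv γ s j).re ^ 2 + (deriv γ s j).im ^ 2)) (fun i _ => mul_nonneg
          (lam_pos hc (sin_pos (hX s hs) i)).le (by positivity)) (Finset.mem_univ j))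
      exact mul_le_mul_of_nonneg_right (by unfold lam; linarith) (by positivity)
    have h3 : ∀ s ∈ Icc (0 : ℝ) 1, 1 ≤ 1 / Real.sin (γ s j).im ^ 2 := fun s hs =>
      one_le_one_div (pow_pos (sin_pos (hX s hs) j) 2) (Real.sin_sq_le_one _)
    refine ⟨hX 0 ⟨le_rfl, zero_le_one⟩, hX 1 ⟨zero_le_one, le_rfl⟩,
      (move_le hγ hX (fun s _ => hre s) (by fun_prop) fun s h => ?_).trans_lt hl,
      (move_le hγ hX (fun s _ => him s) (by fun_prop) fun s h => ?_).trans_lt hl,
      (move_le hγ hX (fun s h => (him s).sin.log (sin_pos (hX s h) j).ne') ?_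
        fun s h => ?_).trans_lt hl⟩
    · nlinarith [hs s h, h3 s h, sq_nonneg (deriv γ s j).re, sq_nonneg (deriv γ s j).im]
    · nlinarith [hs s h, h3 s h, sq_nonneg (deriv γ s j).re, sq_nonneg (deriv γ s j).im]
    · exact ContinuousOn.div (by fun_prop) (by fun_prop) fun s h => (sin_pos (hX s h) j).ne'
    · refine le_trans ?_ (hs s h)
      rw [div_pow, mul_pow, one_div_mul_eq_div]
      refine div_le_div_of_nonneg_right ?_ (sq_nonneg _)
      nlinarith [Real.cos_sq_le_one (γ s j).im, sq_nonneg (deriv γ s j).re,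
        sq_nonneg (deriv γ s j).im]
  obtain ⟨p, hp⟩ : ∃ p, Tendsto u atTop (𝓝 p) := by
    refine cauchySeq_tendsto_of_complete (Metric.cauchySeq_iff.2 fun ε hε => ?_)
    obtain ⟨N, hN⟩ := hu (ε / 2) (by positivity)
    refine ⟨N, fun k hk l hl => ?_⟩
    rw [dist_comm, dist_pi_lt_iff hε]
    intro j
    obtain ⟨-, -, h1, h2, -⟩ := key (hN k hk l hl) j
    rw [Complex.dist_eq]
    refine (Complex.norm_le_abs_re_add_abs_im _).trans_lt ?_
    simp only [sub_re, sub_im]
    linarith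
  refine ⟨p, fun j => ?_, hp⟩
  obtain ⟨N, hN⟩ := hu 1 one_pos
  have ht : Tendsto (fun k => (u k j).im) atTop (𝓝 (p j).im) :=
    (Complex.continuous_im.tendsto _).comp (((continuous_apply j).tendsto _).comp hp)
  have h1 : (p j).im ∈ Icc 0 Real.pi := isClosed_Icc.mem_of_tendsto ht
    (eventually_atTop.2 ⟨N, fun k hk => Ioo_subset_Icc_self ((key (hN N le_rfl k hk) j).2.1 j)⟩)
  have h2 : Real.exp (Real.log (Real.sin (u N j).im) - 1) ≤ Real.sin (p j).im := by
    refine ge_of_tendsto ((Real.continuous_sin.tendsto _).comp ht)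
      (eventually_atTop.2 ⟨N, fun k hk => ?_⟩)
    obtain ⟨-, hq, -, -, h⟩ := key (hN N le_rfl k hk) j
    show _ ≤ Real.sin (u k j).im
    rw [← Real.le_log_iff_exp_le (sin_pos hq j)]
    linarith [(abs_lt.1 h).1]
  have h3 := (Real.exp_pos _).trans_le h2
  refine ⟨h1.1.lt_of_ne fun h => ?_, h1.2.lt_of_ne fun h => ?_⟩
  · rw [← h] at h3; simp at h3
  · rw [h] at h3; simp at h3

end Pool.Agent.H58.Kah
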