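import Pool.Agent.H58.Kah1

namespace Pool.Agent.H58.Kah
open Matrix Filter Topology MeasureTheory Complex Set
open scoped ContDiff ComplexOrder

variable {n : ℕ}

noncomputable def P (c : ℝ) (j : Fin n) (z : Fin n → ℂ) : ℝ :=
  ∏ i ∈ Finset.univ.erase j, lam c (z i).im

noncomputable def En (c : ℝ) (f : (Fin n → ℂ) → ℝ) (z : Fin n → ℂ) : ℝ :=
  ∑ j, (fderiv ℝ f z (Pi.single j 1) ^ 2 + fderiv ℝ f z (Pi.single j I) ^ 2) * P c j z

lemma prod_eq (c : ℝ) (j : Fin n) (z : Fin n → ℂ) :
    ∏ i, lam c (z i).im = lam c (z j).im * P c j z :=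
  (Finset.mul_prod_erase _ (fun i => lam c (z i).im) (Finset.mem_univ j)).symm

lemma dz_real {f : (Fin n → ℂ) → ℝ} (hf : ContDiff ℝ ∞ f) (j : Fin n) (z : Fin n → ℂ) :
    dz j (fun w => (f w : ℂ)) z =
      (fderiv ℝ f z (Pi.single j 1) - I * fderiv ℝ f z (Pi.single j I)) / 2 := by
  have h : ∀ v, lineDeriv ℝ (fun w => (f w : ℂ)) z v = fderiv ℝ f z v := fun v =>
    (HasDerivAt.ofReal_comp
      ((hf.differentiable (by simp) z).hasFDerivAt.hasLineDerivAt v)).deriv
  rw [dz, h, h]

lemma grad_eq {c : ℝ} (hc : 0 ≤ c) {f : (Fin n → ℂ) → ℝ} (hf : ContDiff ℝ ∞ f) {z : Fin n → ℂ}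
    (hz : z ∈ X n) : gradSq (H c) f z * (H c z).det.re = En c f z := by
  have hi : (H c z)⁻¹ = diagonal fun j => (((lam c (z j).im)⁻¹ : ℝ) : ℂ) := by
    refine Matrix.inv_eq_left_inv ?_
    rw [H, diagonal_mul_diagonal, ← diagonal_one]
    congr 1
    funext j
    rw [← ofReal_mul, inv_mul_cancel₀ (lam_pos hc (sin_pos hz j)).ne', ofReal_one]
  rw [gradSq, hi, det_H, En]
  simp only [dotProduct, mulVec_diagonal, re_sum, Pi.star_apply, dz_real hf, Finset.mul_sum,
    Finset.sum_mul]
  refine Finset.sum_congr rfl fun j _ => ?_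
  have := (lam_pos hc (sin_pos hz j)).ne'
  rw [prod_eq c j]
  generalize fderiv ℝ f z (Pi.single j 1) = a
  generalize fderiv ℝ f z (Pi.single j I) = b
  generalize lam c (z j).im = l at *
  have e : star (((a : ℂ) - I * b) / 2) * (((l⁻¹ : ℝ) : ℂ) * ((a - I * b) / 2)) =
      ((l⁻¹ * (a ^ 2 + b ^ 2) / 4 : ℝ) : ℂ) := by
    simp only [star_div₀, star_sub, star_mul', star_def, conj_ofReal, conj_I, map_ofNat]
    push_cast
    linear_combination (-(l : ℂ)⁻¹ * b ^ 2 / 4) * I_mul_I
  rw [e, ofReal_re]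
  field_simp

lemma integ {K : Set (Fin n → ℂ)} (hK : IsCompact K) {F : (Fin n → ℂ) → ℝ}
    (hF : ContinuousOn F K) (h0 : ∀ z ∉ K, F z = 0) : Integrable F :=
  (integrableOn_iff_integrable_of_support_subset
    (fun z hz => by_contra fun h => hz (h0 z h))).1 (hF.integrableOn_compact hK)

lemma lam_cont (c : ℝ) (j : Fin n) : ContinuousOn (fun z : Fin n → ℂ => lam c (z j).im) (X n) := by
  unfold lam
  exact (continuousOn_const.div (by fun_prop)
    fun z hz => pow_ne_zero 2 (sin_pos hz j).ne').add continuousOn_const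

lemma P_cont (c : ℝ) (j : Fin n) : ContinuousOn (P c j) (X n) :=
  continuousOn_finsetProd _ fun i _ => lam_cont c i

lemma P_pos {c : ℝ} (hc : 0 ≤ c) (j : Fin n) {z : Fin n → ℂ} (hz : z ∈ X n) : 0 < P c j z :=
  Finset.prod_pos fun i _ => lam_pos hc (sin_pos hz i)

section
variable {f : (Fin n → ℂ) → ℝ} (hf : ContDiff ℝ ∞ f) (hK : HasCompactSupport f)
  (hX : tsupport f ⊆ X n)

lemma fd_zero {z : Fin n → ℂ} (hz : z ∉ tsupport f) : fderiv ℝ f z = 0 :=
  Function.notMem_support.1 fun h => hz (support_fderiv_subset ℝ h)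

include hf hK hX

lemma En_int (c : ℝ) : Integrable (En c f) := by
  have h1 : Continuous (fderiv ℝ f) := hf.continuous_fderiv (by simp)
  refine integ hK (continuousOn_finsetSum _ fun j _ => ContinuousOn.mul (by fun_prop)
    ((P_cont c j).mono hX)) fun z hz => ?_
  simp [En, fd_zero hz]

lemma mass_int (c : ℝ) : Integrable fun z => f z ^ 2 * ∏ i, lam c (z i).im := by
  have h1 := hf.continuous
  refine integ hK (ContinuousOn.mul (by fun_prop)
    (continuousOn_finsetProd _ fun i _ => (lam_cont c i).mono hX)) fun z hz => ?_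
  simp [image_eq_zero_of_notMem_tsupport hz]

omit hK in
lemma num_eq {c : ℝ} (hc : 0 ≤ c) :
    ∫ z in X n, gradSq (H c) f z * (H c z).det.re = ∫ z, En c f z := by
  rw [setIntegral_congr_fun X_open.measurableSet fun z hz => grad_eq hc hf hz]
  refine setIntegral_eq_integral_of_forall_compl_eq_zero fun z hz => ?_
  simp [En, fd_zero fun h => hz (hX h)]

omit hf hK in
lemma den_eq (c : ℝ) :
    ∫ z in X n, f z ^ 2 * (H c z).det.re = ∫ z, f z ^ 2 * ∏ i, lam c (z i).im := by
  simp only [det_H]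
  refine setIntegral_eq_integral_of_forall_compl_eq_zero fun z hz => ?_
  simp [image_eq_zero_of_notMem_tsupport fun h => hz (hX h)]

lemma den_pos {c : ℝ} (hc : 0 ≤ c) (h0 : f ≠ 0) : 0 < ∫ z, f z ^ 2 * ∏ i, lam c (z i).im := by
  have hnn : ∀ z, 0 ≤ f z ^ 2 * ∏ i, lam c (z i).im := fun z =>
    mul_nonneg (sq_nonneg _) (Finset.prod_nonneg fun i _ => by unfold lam; positivity)
  rw [integral_pos_iff_support_of_nonneg hnn (mass_int hf hK hX c)]
  obtain ⟨z, hz⟩ := Function.ne_iff.1 h0
  refine lt_of_lt_of_le (hf.continuous.isOpen_support.measure_pos volume ⟨z, hz⟩)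
    (measure_mono fun w hw => ?_)
  exact mul_ne_zero (pow_ne_zero 2 hw) (Finset.prod_pos fun i _ =>
    lam_pos hc (sin_pos (hX (subset_tsupport f hw)) i)).ne'

lemma div_zero' (c : ℝ) (j : Fin n) :
    Integrable (fun z => (2 * f z * fderiv ℝ f z (Pi.single j I) *
      (Real.cos (z j).im / (2 * Real.sin (z j).im)) +
        f z ^ 2 * -(1 / (2 * Real.sin (z j).im ^ 2))) * P c j z) ∧
    ∫ z, (2 * f z * fderiv ℝ f z (Pi.single j I) * (Real.cos (z j).im / (2 * Real.sin (z j).im)) +
        f z ^ 2 * -(1 / (2 * Real.sin (z j).im ^ 2))) * P c j z = 0 := by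
  have h1 : Continuous (fderiv ℝ f) := hf.continuous_fderiv (by simp)
  have h2 := hf.continuous
  have c1 : ContinuousOn (fun z : Fin n → ℂ => Real.cos (z j).im / (2 * Real.sin (z j).im))
      (tsupport f) := ContinuousOn.div (by fun_prop) (by fun_prop)
    fun z hz => mul_ne_zero two_ne_zero (sin_pos (hX hz) j).ne'
  have c2 : ContinuousOn (fun z : Fin n → ℂ => -(1 / (2 * Real.sin (z j).im ^ 2)))
      (tsupport f) := (ContinuousOn.div (by fun_prop) (by fun_prop)
    fun z hz => mul_ne_zero two_ne_zero (pow_ne_zero 2 (sin_pos (hX hz) j).ne')).neg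
  have i1 : Integrable (fun z => (2 * f z * fderiv ℝ f z (Pi.single j I) *
      (Real.cos (z j).im / (2 * Real.sin (z j).im)) +
        f z ^ 2 * -(1 / (2 * Real.sin (z j).im ^ 2))) * P c j z) :=
    integ hK (((ContinuousOn.mul (by fun_prop) c1).add (ContinuousOn.mul (by fun_prop) c2)).mul
      ((P_cont c j).mono hX)) fun z hz => by simp [image_eq_zero_of_notMem_tsupport hz]
  have i2 : Integrable (fun z => f z ^ 2 * (Real.cos (z j).im / (2 * Real.sin (z j).im)) *
      P c j z) := integ hK ((ContinuousOn.mul (by fun_prop) c1).mul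
      ((P_cont c j).mono hX)) fun z hz => by simp [image_eq_zero_of_notMem_tsupport hz]
  refine ⟨i1, ?_⟩
  have h := integral_bilinear_hasLineDerivAt_right_eq_neg_left_of_integrable
    (μ := (volume : Measure (Fin n → ℂ))) (B := ContinuousLinearMap.mul ℝ ℝ)
    (f := fun _ => (1 : ℝ)) (f' := fun _ => 0) (v := Pi.single j I)
    (g := fun z => f z ^ 2 * (Real.cos (z j).im / (2 * Real.sin (z j).im)) * P c j z)
    (g' := fun z => (2 * f z * fderiv ℝ f z (Pi.single j I) *
      (Real.cos (z j).im / (2 * Real.sin (z j).im)) +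
        f z ^ 2 * -(1 / (2 * Real.sin (z j).im ^ 2))) * P c j z)
    (by simp) (by simpa using i1) (by simpa using i2) (fun x _ => hasDerivAt_const _ _) ?_
  · simpa using h
  intro z _
  by_cases hz : z ∈ tsupport f
  · have hs := sin_pos (hX hz) j
    have d1 : HasDerivAt (fun t : ℝ => f (z + t • (Pi.single j I : Fin n → ℂ)))
        (fderiv ℝ f z (Pi.single j I)) 0 :=
      (hf.differentiable (by simp) z).hasFDerivAt.hasLineDerivAt _
    have d2 : HasDerivAt (fun y => Real.cos y / (2 * Real.sin y))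
        (-(1 / (2 * Real.sin (z j).im ^ 2))) (z j).im := by
      refine ((Real.hasDerivAt_cos _).fun_div ((Real.hasDerivAt_sin _).const_mul 2)
        (by positivity)).congr_deriv ?_
      field_simp
      linear_combination (-1 : ℝ) * Real.sin_sq_add_cos_sq (z j).im
    have e : ∀ t : ℝ, P c j (z + t • (Pi.single j I : Fin n → ℂ)) = P c j z := fun t =>
      Finset.prod_congr rfl fun i hi => by simp [Finset.ne_of_mem_erase hi]
    unfold HasLineDerivAt
    simp only [e]
    refine (((d1.fun_pow 2).fun_mul (has_line d2 (Pi.single j I))).mul_const _).congr_deriv ?_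
    simp
  · have e : (fun z => f z ^ 2 * (Real.cos (z j).im / (2 * Real.sin (z j).im)) * P c j z)
        =ᶠ[𝓝 z] fun _ => 0 := by
      filter_upwards [notMem_tsupport_iff_eventuallyEq.1 hz] with w hw
      simp [hw]
    have := ((hasFDerivAt_const (0 : ℝ) z).hasLineDerivAt (𝕜 := ℝ)
      (Pi.single j I)).congr_of_eventuallyEq e
    simpa [image_eq_zero_of_notMem_tsupport hz] using this

lemma lower {c : ℝ} (hc : 0 ≤ c) (hc1 : c ≤ 1) :
    n / 4 * ∫ z, f z ^ 2 * ∏ i, lam c (z i).im ≤ ∫ z, En c f z := by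
  have h := fun j => div_zero' hf hK hX c j
  have e := integral_finsetSum (s := Finset.univ) fun j _ => (h j).1
  rw [Finset.sum_eq_zero fun j _ => (h j).2] at e
  rw [← integral_const_mul, ← add_zero (∫ z, _), ← e, ← integral_add
    ((mass_int hf hK hX c).const_mul _) (integrable_finsetSum _ fun j _ => (h j).1)]
  refine integral_mono (((mass_int hf hK hX c).const_mul _).add
    (integrable_finsetSum _ fun j _ => (h j).1)) (En_int hf hK hX c) fun z => ?_
  by_cases hz : z ∈ tsupport f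
  · have e2 : (n : ℝ) / 4 * (f z ^ 2 * ∏ i, lam c (z i).im) =
        ∑ j, f z ^ 2 * lam c (z j).im / 4 * P c j z := by
      rw [Finset.sum_congr rfl fun j _ => (show f z ^ 2 * lam c (z j).im / 4 * P c j z =
        f z ^ 2 * (∏ i, lam c (z i).im) / 4 by rw [prod_eq c j]; ring)]
      simp
      ring
    beta_reduce
    rw [e2, ← Finset.sum_add_distrib]
    refine Finset.sum_le_sum fun j _ => ?_
    rw [← add_mul]
    refine mul_le_mul_of_nonneg_right ?_ (P_pos hc j (hX hz)).le
    have hs := sin_pos (hX hz) j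
    have e3 : (Real.cos (z j).im / (2 * Real.sin (z j).im)) ^ 2 =
        1 / Real.sin (z j).im ^ 2 / 4 - 1 / 4 := by
      field_simp
      linear_combination (4 : ℝ) * Real.sin_sq_add_cos_sq (z j).im
    have e4 : 1 / (2 * Real.sin (z j).im ^ 2) = 1 / Real.sin (z j).im ^ 2 / 2 := by field_simp
    rw [e4, lam]
    generalize Real.cos (z j).im / (2 * Real.sin (z j).im) = ψ at *
    generalize 1 / Real.sin (z j).im ^ 2 = q at *
    have e5 : q = 4 * ψ ^ 2 + 1 := by linarith
    subst e5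
    nlinarith [sq_nonneg (fderiv ℝ f z (Pi.single j I) - f z * ψ),
      sq_nonneg (fderiv ℝ f z (Pi.single j 1)), mul_nonneg (sq_nonneg (f z)) (sub_nonneg.2 hc1)]
  · simp [En, fd_zero hz, image_eq_zero_of_notMem_tsupport hz]

end

end Pool.Agent.H58.Kah
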