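import Pool.Agent.H58.Kah2

namespace Pool.Agent.H58.Kah
open Matrix Filter Topology MeasureTheory Complex Set
open scoped ContDiff ComplexOrder

noncomputable def η : ContDiffBump (5 / 2 : ℝ) := ⟨1 / 2, 3 / 2, by norm_num, by norm_num⟩

lemma η_zero {x : ℝ} (h : x ≤ 1 ∨ 4 ≤ x) : η x = 0 := by
  refine η.zero_of_le_dist ?_
  rw [Real.dist_eq, le_abs]
  simp only [η]
  rcases h with h | h
  · right; linarith
  · left; linarith

lemma η_one {x : ℝ} (h1 : 2 ≤ x) (h2 : x ≤ 3) : η x = 1 := by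
  refine η.one_of_mem_closedBall ?_
  rw [Metric.mem_closedBall, Real.dist_eq, abs_le]
  simp only [η]
  constructor <;> linarith

lemma η_cd : ContDiff ℝ ∞ η := η.contDiff
lemma η_has (x : ℝ) : HasDerivAt η (deriv η x) x := (η_cd.differentiable (by simp) x).hasDerivAt
lemma η'_cont : Continuous (deriv η) := η_cd.continuous_deriv (by simp)

noncomputable def g (T y : ℝ) : ℝ := √y * η (-Real.log y / T)

section
variable {T : ℝ} (hT : 1 ≤ T)
include hT

lemma g_zero {y : ℝ} (h : y ∉ Icc (Real.exp (-4 * T)) (Real.exp (-T))) : g T y = 0 := by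
  rcases le_or_gt y 0 with h0 | h0
  · simp [g, Real.sqrt_eq_zero_of_nonpos h0]
  rw [g, η_zero, mul_zero]
  rw [mem_Icc, not_and_or, not_le, not_le, ← Real.log_lt_iff_lt_exp h0,
    ← Real.lt_log_iff_exp_lt h0] at h
  rcases h with h | h
  · right; rw [le_div_iff₀ (by linarith)]; linarith
  · left; rw [div_le_iff₀ (by linarith)]; linarith

lemma g_ev {y : ℝ} (h : y ∉ Icc (Real.exp (-4 * T)) (Real.exp (-T))) : g T =ᶠ[𝓝 y] fun _ => 0 := by
  filter_upwards [isClosed_Icc.isOpen_compl.mem_nhds h] with x hx using g_zero hT hx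

lemma g_cd : ContDiff ℝ ∞ (g T) := by
  refine contDiff_iff_contDiffAt.2 fun y => ?_
  by_cases h : y ∈ Icc (Real.exp (-4 * T)) (Real.exp (-T))
  · have h0 : y ≠ 0 := ((Real.exp_pos _).trans_le h.1).ne'
    exact (Real.contDiffAt_sqrt h0).mul (η_cd.contDiffAt.comp y
      ((Real.contDiffAt_log.2 h0).neg.div_const T))
  · exact contDiffAt_const.congr_of_eventuallyEq (g_ev hT h)

lemma g'_zero {y : ℝ} (h : y ∉ Icc (Real.exp (-4 * T)) (Real.exp (-T))) : deriv (g T) y = 0 := by
  rw [(g_ev hT h).deriv_eq, deriv_const]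

lemma g'_sq {y : ℝ} (h : 0 < y) : deriv (g T) y ^ 2 =
    (η (-Real.log y / T) / 2 - deriv η (-Real.log y / T) / T) ^ 2 / y := by
  have h1 := (Real.hasDerivAt_sqrt h.ne').fun_mul
    ((η_has _).comp y ((Real.hasDerivAt_log h.ne').fun_neg.div_const T))
  have h2 : deriv (g T) y = _ := h1.deriv
  rw [h2]
  obtain ⟨s, hs, rfl⟩ : ∃ s, 0 < s ∧ y = s ^ 2 := ⟨√y, Real.sqrt_pos.2 h, (Real.sq_sqrt h.le).symm⟩
  have : T ≠ 0 := by linarith
  simp only [Real.sqrt_sq hs.le, Function.comp_apply]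
  field_simp
  ring

lemma mem01 {y : ℝ} (h : y ∈ Icc (Real.exp (-4 * T)) (Real.exp (-T))) : 0 < y ∧ y < 1 :=
  ⟨(Real.exp_pos _).trans_le h.1, h.2.trans_lt (Real.exp_lt_one_iff.2 (by linarith))⟩

omit hT in
lemma integ1 (a b : ℝ) {F : ℝ → ℝ} (hF : ContinuousOn F (Icc a b)) (h0 : ∀ z ∉ Icc a b, F z = 0) :
    Integrable F :=
  (integrableOn_iff_integrable_of_support_subset
    (fun z hz => by_contra fun h => hz (h0 z h))).1 (hF.integrableOn_compact isCompact_Icc)

lemma g2_int : Integrable fun y => g T y ^ 2 :=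
  integ1 (Real.exp (-4 * T)) (Real.exp (-T)) ((g_cd hT).continuous.pow 2).continuousOn
    fun y hy => by simp [g_zero hT hy]

lemma g'2_int : Integrable fun y => deriv (g T) y ^ 2 :=
  integ1 (Real.exp (-4 * T)) (Real.exp (-T)) (((g_cd hT).continuous_deriv (by simp)).pow 2).continuousOn
    fun y hy => by simp [g'_zero hT hy]

lemma sin_pos' {y : ℝ} (h : y ∈ Icc (Real.exp (-4 * T)) (Real.exp (-T))) : 0 < Real.sin y :=
  Real.sin_pos_of_pos_of_lt_pi (mem01 hT h).1 (by linarith [(mem01 hT h).2, Real.pi_gt_three])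

lemma gl_int : Integrable fun y => g T y ^ 2 * lam 0 y := by
  refine integ1 (Real.exp (-4 * T)) (Real.exp (-T)) (((g_cd hT).continuous.pow 2).continuousOn.mul ?_)
    fun y hy => by simp [g_zero hT hy]
  unfold lam
  exact (continuousOn_const.div (by fun_prop)
    fun y hy => pow_ne_zero 2 (sin_pos' hT hy).ne').add continuousOn_const

lemma gl_ge {y : ℝ} (h : y ∈ Icc (Real.exp (-4 * T)) (Real.exp (-T))) :
    η (-Real.log y / T) ^ 2 / y ≤ g T y ^ 2 * lam 0 y := by
  have h0 := (mem01 hT h).1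
  have h1 := sin_pos' hT h
  rw [g, mul_pow, Real.sq_sqrt h0.le, lam, add_zero, mul_one_div, div_le_div_iff₀ h0 (by positivity)]
  have h2 : Real.sin y ^ 2 ≤ y ^ 2 := pow_le_pow_left₀ h1.le (Real.sin_le h0.le) 2
  nlinarith [mul_le_mul_of_nonneg_left h2 (sq_nonneg (η (-Real.log y / T)))]

omit hT in
lemma ind_int (a b : ℝ) (hab : a ≤ b) :
    Integrable ((Icc (Real.exp a) (Real.exp b)).indicator fun y : ℝ => 1 / y) ∧
    ∫ y, (Icc (Real.exp a) (Real.exp b)).indicator (fun y : ℝ => 1 / y) y = b - a := by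
  have h := Real.exp_le_exp.2 hab
  refine ⟨(integrable_indicator_iff measurableSet_Icc).2
    (ContinuousOn.integrableOn_compact isCompact_Icc (continuousOn_const.div continuousOn_id
      fun y hy => ((Real.exp_pos _).trans_le hy.1).ne')), ?_⟩
  rw [integral_indicator measurableSet_Icc, integral_Icc_eq_integral_Ioc,
    ← intervalIntegral.integral_of_le h, integral_one_div_of_pos (Real.exp_pos _) (Real.exp_pos _),
    ← Real.exp_sub, Real.log_exp]

lemma B_ge : T ≤ ∫ y, g T y ^ 2 * lam 0 y := by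
  obtain ⟨h1, h2⟩ := ind_int (-3 * T) (-2 * T) (by linarith)
  refine le_trans (by rw [h2]; linarith) (integral_mono h1 (gl_int hT) fun y => ?_)
  by_cases h : y ∈ Icc (Real.exp (-3 * T)) (Real.exp (-2 * T))
  · have h' : y ∈ Icc (Real.exp (-4 * T)) (Real.exp (-T)) :=
      ⟨(Real.exp_le_exp.2 (by linarith)).trans h.1, h.2.trans (Real.exp_le_exp.2 (by linarith))⟩
    have h0 := (mem01 hT h').1
    have := gl_ge hT h'
    rw [mem_Icc, ← Real.le_log_iff_exp_le h0, ← Real.log_le_iff_le_exp h0] at h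
    rw [η_one (by rw [le_div_iff₀ (by linarith)]; linarith [h.2])
      (by rw [div_le_iff₀ (by linarith)]; linarith [h.1])] at this
    refine le_trans ?_ this
    rw [one_pow]
    exact indicator_apply_le' (fun _ => le_rfl) fun _ => by positivity
  · rw [indicator_of_notMem h]
    unfold lam
    positivity

lemma g2_le : ∫ y, g T y ^ 2 ≤ 1 := by
  have h : ∫ y : ℝ, (Icc (0 : ℝ) 1).indicator (fun _ => (1 : ℝ)) y = 1 := by
    rw [integral_indicator measurableSet_Icc]; simp
  refine le_trans (integral_mono (g2_int hT) ((integrable_indicator_iff measurableSet_Icc).2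
    (continuousOn_const.integrableOn_compact isCompact_Icc)) fun y => ?_) h.le
  by_cases hy : y ∈ Icc (Real.exp (-4 * T)) (Real.exp (-T))
  · obtain ⟨h0, h1⟩ := mem01 hT hy
    rw [indicator_of_mem (show y ∈ Icc (0 : ℝ) 1 from ⟨h0.le, h1.le⟩), g, mul_pow,
      Real.sq_sqrt h0.le]
    exact mul_le_one₀ h1.le (sq_nonneg _) (pow_le_one₀ η.nonneg η.le_one)
  · simp only [g_zero hT hy]
    rw [zero_pow two_ne_zero]
    exact indicator_nonneg (fun _ _ => zero_le_one) y

lemma g'2_le {C : ℝ} (hC : ∀ x, |deriv η x| ≤ C) :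
    ∫ y, deriv (g T) y ^ 2 ≤ (∫ y, g T y ^ 2 * lam 0 y) / 4 + 3 * (C + C ^ 2) := by
  obtain ⟨h1, h2⟩ := ind_int (-4 * T) (-T) (by linarith)
  have hC0 : 0 ≤ C := (abs_nonneg _).trans (hC 0)
  have hT0 : 0 < T := by linarith
  have e : (∫ y, g T y ^ 2 * lam 0 y) / 4 + 3 * (C + C ^ 2) = ∫ y, (g T y ^ 2 * lam 0 y / 4 +
      (C + C ^ 2) / T * (Icc (Real.exp (-4 * T)) (Real.exp (-T))).indicator
        (fun y : ℝ => 1 / y) y) := by
    rw [integral_add ((gl_int hT).div_const 4) (h1.const_mul _), integral_div, integral_const_mul,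
      h2]
    field_simp
    ring
  rw [e]
  refine integral_mono (g'2_int hT) (((gl_int hT).div_const 4).add (h1.const_mul _)) fun y => ?_
  by_cases hy : y ∈ Icc (Real.exp (-4 * T)) (Real.exp (-T))
  · have h0 := (mem01 hT hy).1
    have h3 := gl_ge hT hy
    beta_reduce
    rw [indicator_of_mem hy, g'_sq hT h0]
    have h4 := abs_le.1 (hC (-Real.log y / T))
    have h5 : 0 ≤ η (-Real.log y / T) := η.nonneg
    have h6 : η (-Real.log y / T) ≤ 1 := η.le_one
    generalize η (-Real.log y / T) = a at *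
    generalize deriv η (-Real.log y / T) = b at *
    have h7 : (a / 2 - b / T) ^ 2 ≤ a ^ 2 / 4 + (C + C ^ 2) / T := by
      have e2 : (a / 2 - b / T) ^ 2 = a ^ 2 / 4 + (-(a * b) + b ^ 2 / T) / T := by
        field_simp; ring
      rw [e2]
      have h8 : b ^ 2 / T ≤ C ^ 2 := (div_le_self (sq_nonneg _) hT).trans (sq_le_sq' h4.1 h4.2)
      have h9 : -(a * b) ≤ C := by nlinarith
      gcongr
    calc (a / 2 - b / T) ^ 2 / y ≤ (a ^ 2 / 4 + (C + C ^ 2) / T) / y := by gcongr
      _ = a ^ 2 / y / 4 + (C + C ^ 2) / T * (1 / y) := by ring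
      _ ≤ _ := by gcongr
  · beta_reduce
    rw [indicator_of_notMem hy]
    simp [g'_zero hT hy, g_zero hT hy]

end

end Pool.Agent.H58.Kah
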