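import Pool.Agent.H58.Kah3

namespace Pool.Agent.H58.Kah
open Matrix Filter Topology MeasureTheory Complex Set
open scoped ContDiff ComplexOrder

variable {n : ℕ}

lemma cplx {a b : ℝ → ℝ} (ha : Integrable a) (hb : Integrable b) :
    Integrable (fun z : ℂ => a z.re * b z.im) ∧
      ∫ z : ℂ, a z.re * b z.im = (∫ x, a x) * ∫ y, b y := by
  have h := Complex.volume_preserving_equiv_real_prod
  refine ⟨(h.integrable_comp_emb measurableEquivRealProd.measurableEmbedding
    (g := fun p : ℝ × ℝ => a p.1 * b p.2)).2 (ha.mul_prod hb), ?_⟩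
  rw [← integral_prod_mul]
  exact h.integral_comp' (fun p : ℝ × ℝ => a p.1 * b p.2)

noncomputable def tf (n : ℕ) (T : ℝ) (z : Fin n → ℂ) : ℝ := ∏ j, η (z j).re * g T (z j).im

lemma η2_int : Integrable fun x => η x ^ 2 :=
  integ1 1 4 (η_cd.continuous.pow 2).continuousOn fun y hy => by
    rw [mem_Icc, not_and_or, not_le, not_le] at hy
    simp [η_zero (hy.imp le_of_lt le_of_lt)]

lemma η'2_int : Integrable fun x => deriv η x ^ 2 := by
  have h : HasCompactSupport (deriv η) := η.hasCompactSupport.deriv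
  simp only [pow_two]
  exact (η'_cont.mul η'_cont).integrable_of_hasCompactSupport h.mul_right

lemma η2_pos : 0 < ∫ x, η x ^ 2 := by
  rw [integral_pos_iff_support_of_nonneg (fun x => sq_nonneg _) η2_int]
  exact (η_cd.continuous.pow 2).isOpen_support.measure_pos volume
    ⟨2, by simp [η_one (x := 2) le_rfl (by norm_num)]⟩

section
variable {T : ℝ} (hT : 1 ≤ T)
include hT

lemma tf_cd : ContDiff ℝ ∞ (tf n T) :=
  contDiff_prod fun j _ => (η_cd.comp (Complex.reCLM.contDiff.comp (contDiff_apply ℝ ℂ j))).mul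
    ((g_cd hT).comp (Complex.imCLM.contDiff.comp (contDiff_apply ℝ ℂ j)))

lemma tf_supp : HasCompactSupport (tf n T) ∧ tsupport (tf n T) ⊆ X n := by
  have hK : IsCompact (Set.pi univ fun _ : Fin n =>
      Icc (1 : ℝ) 4 ×ℂ Icc (Real.exp (-4 * T)) (Real.exp (-T))) :=
    isCompact_univ_pi fun _ => isCompact_Icc.reProdIm isCompact_Icc
  have hs : Function.support (tf n T) ⊆ Set.pi univ fun _ : Fin n =>
      Icc (1 : ℝ) 4 ×ℂ Icc (Real.exp (-4 * T)) (Real.exp (-T)) := by
    intro z hz j _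
    have h := Finset.prod_ne_zero_iff.1 hz j (Finset.mem_univ j)
    refine ⟨by_contra fun hy => left_ne_zero_of_mul h ?_,
      by_contra fun hy => right_ne_zero_of_mul h (g_zero hT hy)⟩
    rw [mem_preimage, mem_Icc, not_and_or, not_le, not_le] at hy
    exact η_zero (hy.imp le_of_lt le_of_lt)
  refine ⟨HasCompactSupport.of_support_subset_isCompact hK hs, fun z hz j => ?_⟩
  have := mem01 hT (closure_minimal hs hK.isClosed hz j trivial).2
  exact ⟨this.1, by linarith [this.2, Real.pi_gt_three]⟩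

lemma tf_fd (z : Fin n → ℂ) (j : Fin n) (a : ℂ) : fderiv ℝ (tf n T) z (Pi.single j a) =
    (deriv η (z j).re * a.re * g T (z j).im + η (z j).re * (deriv (g T) (z j).im * a.im)) *
      ∏ i ∈ Finset.univ.erase j, η (z i).re * g T (z i).im := by
  have d1 : HasDerivAt (fun t : ℝ => tf n T (z + t • (Pi.single j a : Fin n → ℂ)))
      (fderiv ℝ (tf n T) z (Pi.single j a)) 0 :=
    ((tf_cd hT).differentiable (by simp) z).hasFDerivAt.hasLineDerivAt _
  refine d1.unique ?_
  have e : ∀ t : ℝ, tf n T (z + t • (Pi.single j a : Fin n → ℂ)) =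
      η ((z j).re + t * a.re) * g T ((z j).im + t * a.im) *
        ∏ i ∈ Finset.univ.erase j, η (z i).re * g T (z i).im := fun t => by
    rw [tf, ← Finset.mul_prod_erase _ _ (Finset.mem_univ j)]
    congr 1
    · simp
    · exact Finset.prod_congr rfl fun i hi => by simp [Finset.ne_of_mem_erase hi]
  simp only [e]
  have h1 := HasDerivAt.comp_of_eq (0 : ℝ) (η_has (z j).re)
    (((hasDerivAt_id' (0 : ℝ)).mul_const a.re).const_add (z j).re) (by simp)
  have h2 := HasDerivAt.comp_of_eq (0 : ℝ)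
    (((g_cd hT).differentiable (by simp) (z j).im).hasDerivAt)
    (((hasDerivAt_id' (0 : ℝ)).mul_const a.im).const_add (z j).im) (by simp)
  exact ((h1.fun_mul h2).mul_const _).congr_deriv (by simp)

lemma tf_den : ∫ z, tf n T z ^ 2 * ∏ i, lam 0 (z i).im =
    ((∫ x, η x ^ 2) * ∫ y, g T y ^ 2 * lam 0 y) ^ n := by
  rw [← (cplx η2_int (gl_int hT)).2]
  have := integral_fintype_prod_volume_eq_pow (ι := Fin n)
    fun z : ℂ => η z.re ^ 2 * (g T z.im ^ 2 * lam 0 z.im)
  rw [Fintype.card_fin] at this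
  rw [← this]
  congr 1
  funext z
  rw [tf, ← Finset.prod_pow, ← Finset.prod_mul_distrib]
  exact Finset.prod_congr rfl fun i _ => by ring

lemma tf_num : ∫ z, En 0 (tf n T) z =
    n * (((∫ x, deriv η x ^ 2) * (∫ y, g T y ^ 2) + (∫ x, η x ^ 2) * ∫ y, deriv (g T) y ^ 2) *
      ((∫ x, η x ^ 2) * ∫ y, g T y ^ 2 * lam 0 y) ^ (n - 1)) := by
  obtain ⟨i1, e1⟩ := cplx η'2_int (g2_int hT)
  obtain ⟨i2, e2⟩ := cplx η2_int (g'2_int hT)
  obtain ⟨i3, e3⟩ := cplx η2_int (gl_int hT)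
  rw [← e1, ← e2, ← e3, ← integral_add i1 i2]
  set W : ℂ → ℝ := fun z => deriv η z.re ^ 2 * g T z.im ^ 2 + η z.re ^ 2 * deriv (g T) z.im ^ 2
  set U : ℂ → ℝ := fun z => η z.re ^ 2 * (g T z.im ^ 2 * lam 0 z.im)
  have e : ∀ z, En 0 (tf n T) z = ∑ j, ∏ i, (if i = j then W else U) (z i) := fun z => by
    refine Finset.sum_congr rfl fun j _ => ?_
    rw [tf_fd hT, tf_fd hT, ← Finset.mul_prod_erase _ _ (Finset.mem_univ j), if_pos rfl,
      Finset.prod_congr rfl fun i (hi : i ∈ Finset.univ.erase j) =>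
        (show (if i = j then W else U) (z i) = (η (z i).re * g T (z i).im) ^ 2 * lam 0 (z i).im by
          rw [if_neg (Finset.ne_of_mem_erase hi)]; simp only [U]; ring),
      Finset.prod_mul_distrib (g := fun i => lam 0 (z i).im), Finset.prod_pow, P]
    simp only [W, one_re, one_im, I_re, I_im]
    ring
  have hi : ∀ j i : Fin n, Integrable (if i = j then W else U) := fun j i => by
    split_ifs
    · exact i1.add i2
    · exact i3
  simp only [e]
  have hj : ∀ j : Fin n, Integrable fun z : Fin n → ℂ => ∏ i, (if i = j then W else U) (z i) :=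
    fun j => Integrable.fintype_prod (hi j)
  rw [integral_finsetSum _ fun j _ => hj j,
    Finset.sum_congr rfl fun j _ => (show ∫ z : Fin n → ℂ, ∏ i, (if i = j then W else U) (z i) =
      (∫ z, W z) * (∫ z, U z) ^ (n - 1) from ?_)]
  · simp
  rw [integral_fintype_prod_volume_eq_prod (fun i => if i = j then W else U),
    ← Finset.mul_prod_erase _ _ (Finset.mem_univ j), if_pos rfl,
    Finset.prod_congr rfl fun i (hi : i ∈ Finset.univ.erase j) =>
      (show ∫ z, (if i = j then W else U) z = ∫ z, U z by rw [if_neg (Finset.ne_of_mem_erase hi)])]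
  simp

lemma tf_ne : tf n T ≠ 0 := by
  intro h
  have h1 := tf_den (n := n) hT
  have h2 : 0 < ((∫ x, η x ^ 2) * ∫ y, g T y ^ 2 * lam 0 y) ^ n :=
    pow_pos (mul_pos η2_pos (by linarith [B_ge hT])) n
  rw [← h1, h] at h2
  simp at h2

end

lemma lam_ge {c : ℝ} (hc : 0 ≤ c) (hc1 : c ≤ 1) : (n : ℝ) / 4 ≤ lambda0 (X n) (H c) := by
  refine le_csInf ⟨_, tf n 1, tf_cd le_rfl, (tf_supp le_rfl).1, (tf_supp le_rfl).2, tf_ne le_rfl,
    rfl⟩ ?_
  rintro _ ⟨f, hf, hK, hX, h0, rfl⟩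
  rw [num_eq hf hX hc, den_eq hX, le_div_iff₀ (den_pos hf hK hX hc h0)]
  exact lower hf hK hX hc hc1

lemma lam_le (hn : 0 < n) : lambda0 (X n) (H 0) ≤ (n : ℝ) / 4 := by
  obtain ⟨C, hC⟩ := η'_cont.bounded_above_of_compact_support η.hasCompactSupport.deriv
  have hC0 : 0 ≤ C := (norm_nonneg _).trans (hC 0)
  have a0 := η2_pos
  have a1 : 0 ≤ ∫ x, deriv η x ^ 2 := integral_nonneg fun x => sq_nonneg _
  set K := (∫ x, deriv η x ^ 2) / (∫ x, η x ^ 2) + 3 * (C + C ^ 2) with hK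
  have hK0 : 0 ≤ K := by positivity
  refine le_of_forall_pos_le_add fun ε hε => ?_
  set T := max 1 (n * K / ε)
  have hT : 1 ≤ T := le_max_left _ _
  refine csInf_le_of_le ⟨n / 4, ?_⟩ ⟨tf n T, tf_cd hT, (tf_supp hT).1, (tf_supp hT).2, tf_ne hT,
    rfl⟩ ?_
  · rintro _ ⟨f, hf, hK, hX, h0, rfl⟩
    rw [num_eq hf hX le_rfl, den_eq hX, le_div_iff₀ (den_pos hf hK hX le_rfl h0)]
    exact lower hf hK hX le_rfl zero_le_one
  rw [num_eq (tf_cd hT) (tf_supp hT).2 le_rfl, den_eq (tf_supp hT).2, tf_num hT, tf_den hT]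
  have b1 := B_ge hT
  have b2 := g2_le hT
  have b3 := g'2_le hT hC
  have b4 : n * K ≤ T * ε := (div_le_iff₀ hε).1 (le_max_right _ _)
  generalize ∫ x, deriv η x ^ 2 = A1 at *
  generalize ∫ x, η x ^ 2 = A0 at *
  generalize ∫ y, g T y ^ 2 * lam 0 y = B at *
  generalize ∫ y, g T y ^ 2 = B0 at *
  generalize ∫ y, deriv (g T) y ^ 2 = B1 at *
  have hB : 0 < B := by linarith
  obtain ⟨m, rfl⟩ : ∃ m, n = m + 1 := ⟨n - 1, by omega⟩
  rw [Nat.add_sub_cancel, div_le_iff₀ (by positivity), pow_succ, ← mul_assoc, mul_comm _ (A0 * B),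
    ← mul_assoc]
  refine mul_le_mul_of_nonneg_right ?_ (by positivity)
  have e : A0 * K = A1 + A0 * (3 * (C + C ^ 2)) := by rw [hK]; field_simp
  have h1 : A1 * B0 + A0 * B1 ≤ A0 * B / 4 + A0 * K := by
    nlinarith [mul_le_mul_of_nonneg_left b2 a1, mul_le_mul_of_nonneg_left b3 a0.le]
  have h2 : ((m + 1 : ℕ) : ℝ) * K ≤ B * ε := b4.trans (by gcongr)
  have h3 := mul_le_mul_of_nonneg_left h1 (Nat.cast_nonneg (α := ℝ) (m + 1))
  nlinarith [mul_le_mul_of_nonneg_left h2 a0.le]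

lemma X_conn : IsConnected (X n) := by
  refine Convex.isConnected ?_ ⟨fun _ => I, fun j => by simp [Real.pi_gt_three.trans' ]⟩
  intro x hx y hy a b ha hb hab j
  simpa using convex_Ioo (0 : ℝ) Real.pi (hx j) (hy j) ha hb hab

end Pool.Agent.H58.Kah
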