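import Mathlib

/-! Kähler metrics on open subsets of `ℂⁿ`, in the coordinates `z j = x j + i y j`.
A matrix field `h` stands for the form `ω = (i/2) ∑ h j k dz j ∧ dz̄ k`, with Riemannian metric
`|v|² = ∑ h j k v j v̄ k` and volume `det h` times Lebesgue measure. -/

namespace Pool.Agent.H58.Kah
open Matrix Filter Topology MeasureTheory Complex
open scoped ContDiff ComplexOrder

/-- Fields of coefficient matrices on `ℂⁿ`. -/
abbrev HM (n : ℕ) := (Fin n → ℂ) → Matrix (Fin n) (Fin n) ℂ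

variable {n : ℕ}

/-- `∂/∂z j`. -/
noncomputable def dz (j : Fin n) (u : (Fin n → ℂ) → ℂ) (z : Fin n → ℂ) : ℂ :=
  (lineDeriv ℝ u z (Pi.single j 1) - I * lineDeriv ℝ u z (Pi.single j I)) / 2

/-- `∂/∂z̄ j`. -/
noncomputable def dzb (j : Fin n) (u : (Fin n → ℂ) → ℂ) (z : Fin n → ℂ) : ℂ :=
  (lineDeriv ℝ u z (Pi.single j 1) + I * lineDeriv ℝ u z (Pi.single j I)) / 2

/-- `h` is a smooth positive definite Hermitian metric on `X` with `dω = 0`. -/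
def IsKahler (X : Set (Fin n → ℂ)) (h : HM n) : Prop :=
  (∀ j k, ContDiffOn ℝ ∞ (h · j k) X) ∧ (∀ z ∈ X, (h z).PosDef) ∧
    ∀ z ∈ X, ∀ j k l, dz l (h · j k) z = dz j (h · l k) z

/-- The Ricci form `-i ∂∂̄ log det h = (i/2) ∑ ric j k dz j ∧ dz̄ k`. -/
noncomputable def ric (h : HM n) (z : Fin n → ℂ) : Matrix (Fin n) (Fin n) ℂ :=
  Matrix.of fun j k => -2 * dz j (dzb k fun w => (Real.log (h w).det.re : ℂ)) z

/-- The length of a path on `[0,1]`. -/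
noncomputable def len (h : HM n) (γ : ℝ → Fin n → ℂ) : ℝ :=
  ∫ s in (0 : ℝ)..1, √(deriv γ s ⬝ᵥ h (γ s) *ᵥ star (deriv γ s)).re

/-- The Riemannian distance in `X` from `p` to `q` is less than `ε`. -/
def Near (X : Set (Fin n → ℂ)) (h : HM n) (p q : Fin n → ℂ) (ε : ℝ) : Prop :=
  ∃ γ : ℝ → Fin n → ℂ, ContDiff ℝ 1 γ ∧ (∀ s ∈ Set.Icc (0 : ℝ) 1, γ s ∈ X) ∧ γ 0 = p ∧ γ 1 = q ∧
    len h γ < ε

/-- Every Cauchy sequence of `X` for the Riemannian distance converges in `X`. -/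
def IsComplete (X : Set (Fin n → ℂ)) (h : HM n) : Prop :=
  ∀ u : ℕ → Fin n → ℂ, (∀ ε > 0, ∃ N, ∀ i ≥ N, ∀ j ≥ N, Near X h (u i) (u j) ε) →
    ∃ p ∈ X, Tendsto u atTop (𝓝 p)

/-- The class `𝒦(X)`: complete Kähler metrics with `Ric(ω) + ω` semipositive. -/
def InK (X : Set (Fin n → ℂ)) (h : HM n) : Prop :=
  IsKahler X h ∧ IsComplete X h ∧ ∀ z ∈ X, (ric h z + h z).PosSemidef

/-- Complete Kähler-Einstein metrics with `Ric(ω) = -ω`. -/
def IsKE (X : Set (Fin n → ℂ)) (h : HM n) : Prop :=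
  IsKahler X h ∧ IsComplete X h ∧ ∀ z ∈ X, ric h z = -h z

/-- `|∇f|²` for a real function `f`. -/
noncomputable def gradSq (h : HM n) (f : (Fin n → ℂ) → ℝ) (z : Fin n → ℂ) : ℝ :=
  4 * (star (fun j => dz j (fun w => (f w : ℂ)) z) ⬝ᵥ (h z)⁻¹ *ᵥ
    fun j => dz j (fun w => (f w : ℂ)) z).re

/-- The bottom of the spectrum: the infimum of Rayleigh quotients over `C_c^∞(X)`. -/
noncomputable def lambda0 (X : Set (Fin n → ℂ)) (h : HM n) : ℝ :=
  sInf {r | ∃ f : (Fin n → ℂ) → ℝ, ContDiff ℝ ∞ f ∧ HasCompactSupport f ∧ tsupport f ⊆ X ∧ f ≠ 0 ∧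
    r = (∫ z in X, gradSq h f z * (h z).det.re) / ∫ z in X, f z ^ 2 * (h z).det.re}

end Pool.Agent.H58.Kah
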