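import Mathlib

set_option autoImplicit false

namespace Pool.Agent.H58.Kl

open MeasureTheory Set Metric
open scoped RealInnerProductSpace NNReal ENNReal Topology

abbrev E := EuclideanSpace ℝ (Fin 2)

theorem lipP {A B : Set E} (c : ℝ≥0) (R : E → E → Prop) (h1 : ∀ y ∈ A, ∃ x ∈ B, R x y)
    (h2 : ∀ x y x' y', R x y → R x' y' → dist y y' ≤ c * dist x x') : μH[1] A ≤ c * μH[1] B := by
  classical
  let P : E → E := fun x => if h : ∃ y, R x y then h.choose else 0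
  have hP : ∀ x y, R x y → R x (P x) := fun x y h => by
    simp only [P, dif_pos (⟨y, h⟩ : ∃ y, R x y)]; exact Exists.choose_spec (⟨y, h⟩ : ∃ y, R x y)
  have hL : LipschitzOnWith c P {x ∈ B | ∃ y, R x y} :=
    LipschitzOnWith.of_dist_le_mul fun x ⟨_, y, hy⟩ x' ⟨_, y', hy'⟩ => h2 _ _ _ _ (hP x y hy) (hP x' y' hy')
  have hs : A ⊆ P '' {x ∈ B | ∃ y, R x y} := fun y hy => by
    obtain ⟨x, hx, h⟩ := h1 y hy
    exact ⟨x, ⟨hx, y, h⟩, dist_le_zero.1 (by simpa using h2 _ _ _ _ (hP x y h) h)⟩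
  refine (measure_mono hs).trans ((hL.hausdorffMeasure_image_le zero_le_one).trans ?_)
  rw [ENNReal.rpow_one]
  gcongr
  exact sep_subset _ _

theorem nonexp {x y x' y' : E} (h : ⟪x - y, y' - y⟫ ≤ 0) (h' : ⟪x' - y', y - y'⟫ ≤ 0) : ‖y - y'‖ ≤ ‖x - x'‖ := by
  have h1 : ‖y - y'‖ ^ 2 ≤ ⟪x - x', y - y'⟫ := by
    rw [← real_inner_self_eq_norm_sq]
    simp only [inner_sub_left, inner_sub_right, real_inner_comm y y'] at *
    linarith
  have h2 := real_inner_le_norm (x - x') (y - y')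
  by_contra hc
  nlinarith [norm_nonneg (x - x')]

variable {K : Set E}

theorem supp (hc : Convex ℝ K) (hi : (interior K).Nonempty) {y : E} (hy : y ∉ interior K) :
    ∃ ν : E, ν ≠ 0 ∧ ∀ z ∈ K, ⟪ν, z - y⟫ ≤ 0 := by
  obtain ⟨f, hf⟩ := geometric_hahn_banach_open_point hc.interior isOpen_interior hy
  refine ⟨(InnerProductSpace.toDual ℝ E).symm f, fun h => ?_, fun z hz => ?_⟩
  · obtain ⟨z, hz⟩ := hi
    have : f = 0 := by simpa using h
    simpa [this] using hf z hz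
  · rw [InnerProductSpace.toDual_symm_apply, map_sub, sub_nonpos]
    have : z ∈ closure (interior K) := by
      rw [hc.closure_interior_eq_closure_of_nonempty_interior hi]; exact subset_closure hz
    exact le_on_closure (fun a ha => (hf a ha).le) f.continuous.continuousOn continuousOn_const this

theorem far (hK : IsCompact K) (x : E) {b : E} (hb : b ≠ 0) : ∃ s : ℝ, 0 ≤ s ∧ x + s • b ∉ K := by
  obtain ⟨R, hR⟩ := hK.isBounded.exists_norm_le
  have hb' := norm_pos_iff.2 hb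
  refine ⟨(|R| + ‖x‖ + 1) / ‖b‖, by positivity, fun h => ?_⟩
  have h1 := hR _ h
  have h2 := norm_sub_le (x + ((|R| + ‖x‖ + 1) / ‖b‖) • b) x
  rw [add_sub_cancel_left, norm_smul, Real.norm_of_nonneg (by positivity), div_mul_cancel₀ _ hb'.ne'] at h2
  linarith [le_abs_self R]

theorem exit (hK : IsCompact K) {x : E} (hx : x ∈ K) {b : E} (hb : b ≠ 0) :
    ∃ s : ℝ, 0 ≤ s ∧ x + s • b ∈ frontier K := by
  have hf : Continuous fun s : ℝ => x + |s| • b := by fun_prop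
  obtain ⟨s, hs0, hs⟩ := far hK x hb
  obtain ⟨t, ht⟩ := nonempty_frontier_iff.2 (show ((fun s : ℝ => x + |s| • b) ⁻¹' K).Nonempty ∧ _ ≠ univ from
    ⟨⟨0, by simpa using hx⟩, fun h => hs (by simpa [abs_of_nonneg hs0] using (h ▸ mem_univ s :)) ⟩)
  exact ⟨|t|, abs_nonneg t, hf.frontier_preimage_subset _ ht⟩

theorem fin_len (hK : IsCompact K) (hc : Convex ℝ K) (hi : (interior K).Nonempty) : μH[1] (frontier K) ≠ ∞ := by
  obtain ⟨R, hR0, hR⟩ := hK.isBounded.subset_closedBall_lt 0 0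
  have h1 := lipP (A := frontier K) (B := sphere (0 : E) R) 1
    (fun x y => y ∈ K ∧ ∀ z ∈ K, ⟪x - y, z - y⟫ ≤ 0) (fun y hy => by
      obtain ⟨ν, h0, hν⟩ := supp hc hi hy.2
      have hyK := hK.isClosed.frontier_subset hy
      obtain ⟨s, hs, h⟩ := exit (isCompact_closedBall (0 : E) R) (hR hyK) h0
      rw [frontier_closedBall _ hR0.ne'] at h
      refine ⟨_, h, hyK, fun z hz => ?_⟩
      rw [add_sub_cancel_left, inner_smul_left]
      exact mul_nonpos_of_nonneg_of_nonpos hs (hν z hz))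
    fun x y x' y' h h' => by simpa [dist_eq_norm] using nonexp (h.2 _ h'.1) (h'.2 _ h.1)
  refine ne_top_of_le_ne_top ?_ h1
  have e : sphere (0 : E) R = (Complex.orthonormalBasisOneI.repr ∘ circleMap 0 R) '' Ioc 0 (2 * Real.pi) := by
    rw [image_comp, image_circleMap_Ioc, abs_of_pos hR0, LinearIsometryEquiv.image_sphere, map_zero]
  have hl := (Complex.orthonormalBasisOneI.repr.lipschitz.comp (lipschitzWith_circleMap 0 R)).hausdorffMeasure_image_le
    zero_le_one (Ioc 0 (2 * Real.pi))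
  rw [e, ENNReal.coe_one, one_mul]
  refine ne_top_of_le_ne_top ?_ hl
  rw [hausdorffMeasure_real, Real.volume_Ioc, ENNReal.rpow_one]
  finiteness

theorem pos_len (hK : IsCompact K) {z a b u : E} (hb : b ≠ 0) (ha : ⟪u, a⟫ = 1) (hu : ⟪u, b⟫ = 0)
    (hz : z ∈ interior K) {S : Set E} (hS : ∀ s t : ℝ, 0 < s → 0 ≤ t → z + s • a + t • b ∈ S) :
    μH[1] (frontier K ∩ S) ≠ 0 := by
  have hf : Continuous fun s : ℝ => z + s • a := by fun_prop
  obtain ⟨ε, hε, h⟩ := Metric.mem_nhds_iff.1 (hf.continuousAt.preimage_mem_nhds (x := 0)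
    (by simpa using mem_interior_iff_mem_nhds.1 hz))
  have hs : Ioo ⟪u, z⟫ (⟪u, z⟫ + ε) ⊆ (innerSL ℝ u) '' (frontier K ∩ S) := fun r hr => by
    obtain ⟨t, ht, h'⟩ := exit hK (h (show r - ⟪u, z⟫ ∈ ball 0 ε by
      rw [mem_ball_zero_iff, Real.norm_of_nonneg (by linarith [hr.1])]; linarith [hr.2])) hb
    exact ⟨_, ⟨h', hS _ _ (by linarith [hr.1]) ht⟩, by simp [inner_add_right, inner_smul_right, ha, hu]⟩
  intro h0
  have := (measure_mono hs).trans ((innerSL ℝ u).lipschitz.hausdorffMeasure_image_le zero_le_one _)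
  rw [h0, mul_zero, hausdorffMeasure_real, Real.volume_Ioo] at this
  simp at this; linarith

def det (a b : E) : ℝ := a 0 * b 1 - a 1 * b 0

theorem dual {a b : E} (h : det a b ≠ 0) : ∃ u v : E, ⟪u, a⟫ = 1 ∧ ⟪u, b⟫ = 0 ∧ ⟪v, a⟫ = 0 ∧ ⟪v, b⟫ = 1 ∧
    ∀ z, z = ⟪u, z⟫ • a + ⟪v, z⟫ • b := by
  refine ⟨!₂[b 1 / det a b, -b 0 / det a b], !₂[-a 1 / det a b, a 0 / det a b], ?_, ?_, ?_, ?_, fun z => ?_⟩
  pick_goal 5
  · ext i
    fin_cases i <;> simp [PiLp.inner_apply] <;> field_simp <;> simp only [det] <;> ring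
  all_goals simp [PiLp.inner_apply]; field_simp; simp only [det]; ring

theorem rot {a : E} (h : a ≠ 0) : det a !₂[-a 1, a 0] ≠ 0 := by
  intro h0
  simp [det] at h0
  apply h
  ext i
  fin_cases i <;> simp <;> nlinarith

theorem first_zero {g : ℝ → ℝ} (hg : Continuous g) (h0 : 0 < g 0) (h1 : g 1 < 0) :
    ∃ s, 0 < s ∧ s < 1 ∧ g s = 0 ∧ ∀ r, 0 ≤ r → r < s → 0 < g r := by
  have hcl : IsCompact (Icc 0 1 ∩ g ⁻¹' {0}) := isCompact_Icc.inter_right (isClosed_singleton.preimage hg)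
  obtain ⟨s, ⟨hs, hs0⟩, hmin⟩ := hcl.exists_isLeast (by
    obtain ⟨s, hs, e⟩ := intermediate_value_Icc' zero_le_one hg.continuousOn ⟨h1.le, h0.le⟩
    exact ⟨s, hs, e⟩)
  have hs0' : g s = 0 := hs0
  refine ⟨s, hs.1.lt_of_ne fun e => by simp [← e] at hs0'; linarith,
    hs.2.lt_of_ne fun e => by simp [e] at hs0'; linarith, hs0', fun r hr hrs => ?_⟩
  by_contra hn
  obtain ⟨t, ht, e⟩ := intermediate_value_Icc' hr hg.continuousOn ⟨not_lt.1 hn, h0.le⟩
  have := hmin ⟨⟨ht.1, by linarith [ht.2, hs.2]⟩, e⟩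
  linarith [ht.2]

end Pool.Agent.H58.Kl
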