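import Mathlib
import Pool.Agent.H58.Kl1

set_option autoImplicit false

namespace Pool.Agent.H58.Kl

open MeasureTheory Set Metric
open scoped RealInnerProductSpace NNReal ENNReal Topology

variable {K : Set E}

theorem split (C T : Set E) (v : E) (hn : μH[1] (C ∩ {x | ⟪v, x⟫ = 0}) = 0) :
    μH[1] (C ∩ T) = μH[1] (C ∩ (T ∩ {x | 0 < ⟪v, x⟫})) + μH[1] (C ∩ (T ∩ {x | ⟪v, x⟫ < 0})) := by
  rw [← measure_inter_add_sdiff (C ∩ T) (t := {x | 0 < ⟪v, x⟫}) (measurableSet_lt (by fun_prop) (by fun_prop)),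
    inter_assoc]
  congr 1
  refine le_antisymm ?_ (measure_mono fun x hx => ⟨⟨hx.1, hx.2.1⟩, fun h => lt_asymm (show ⟪v, x⟫ < 0 from hx.2.2) (show 0 < ⟪v, x⟫ from h)⟩)
  refine (measure_mono (t := C ∩ (T ∩ {x | ⟪v, x⟫ < 0}) ∪ C ∩ {x | ⟪v, x⟫ = 0}) fun x hx => ?_).trans
    ((measure_union_le _ _).trans (by rw [hn, add_zero]))
  rcases (not_lt.1 (show ¬ 0 < ⟪v, x⟫ from hx.2)).lt_or_eq with h | h
  · exact Or.inl ⟨hx.1.1, hx.1.2, h⟩
  · exact Or.inr ⟨hx.1.1, h⟩

theorem zero_int (hK : IsCompact K) (hc : Convex ℝ K) (hi : (interior K).Nonempty)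
    (H : ∀ u : E, u ≠ 0 → μH[1] (frontier K ∩ {x | 0 < ⟪u, x⟫}) = μH[1] (frontier K ∩ {x | ⟪u, x⟫ < 0})) :
    (0 : E) ∈ interior K := by
  by_contra h0
  obtain ⟨ν, hν, h⟩ := supp hc hi h0
  obtain ⟨z, hz⟩ := hi
  have hd : det !₂[-(-ν) 1, (-ν) 0] (-ν) ≠ 0 := fun e => rot (neg_ne_zero.2 hν) (by
    simp only [det] at e ⊢; linarith)
  obtain ⟨u, v, h1, h2, -, -, -⟩ := dual hd
  have hp := real_inner_self_pos.2 hν
  have hz' : ⟪ν, z⟫ < 0 := by
    have hf : Continuous fun s : ℝ => z + s • ν := by fun_prop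
    obtain ⟨ε, hε, h'⟩ := Metric.mem_nhds_iff.1 (hf.continuousAt.preimage_mem_nhds (x := 0)
      (by simpa using mem_interior_iff_mem_nhds.1 hz))
    have := h _ (h' (show ε / 2 ∈ ball 0 ε by rw [mem_ball_zero_iff, Real.norm_of_nonneg (by linarith)]; linarith))
    simp only [sub_zero, inner_add_right, inner_smul_right] at this
    nlinarith
  refine pos_len hK (neg_ne_zero.2 hν) h1 h2 hz (S := {x | ⟪ν, x⟫ < 0}) (fun s t _ ht => ?_) ?_
  · have : ⟪ν, (!₂[-(-ν) 1, (-ν) 0] : E)⟫ = 0 := by simp [PiLp.inner_apply]; ring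
    simp only [mem_ofPred_eq, inner_add_right, inner_smul_right, this, inner_neg_right]
    nlinarith
  · rw [← H ν hν, eq_empty_of_forall_notMem (s := _ ∩ _) fun x hx =>
      absurd (h x (hK.isClosed.frontier_subset hx.1)) (by simpa using hx.2), measure_empty]

theorem symm0 (hK : IsCompact K) (hc : Convex ℝ K) (hi : (interior K).Nonempty)
    (H : ∀ u : E, u ≠ 0 → μH[1] (frontier K ∩ {x | 0 < ⟪u, x⟫}) = μH[1] (frontier K ∩ {x | ⟪u, x⟫ < 0}))
    (x0 : E) : gauge K (-x0) ≤ gauge K x0 := by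
  have h0 := zero_int hK hc hi H
  have hn := mem_interior_iff_mem_nhds.1 h0
  have pc := continuous_gauge hc hn
  have pf : ∀ x, gauge K x = 1 ↔ x ∈ frontier K := fun x => gauge_eq_one_iff_mem_frontier hc hn
  have pk : ∀ x, gauge K x ≤ 1 ↔ x ∈ K := fun x => by
    rw [gauge_le_one_iff_mem_closure hc hn, hK.isClosed.closure_eq]
  have pp : ∀ x, x ≠ 0 → 0 < gauge K x := fun x =>
    (gauge_pos (absorbent_nhds_zero hn) ((NormedSpace.isVonNBounded_iff ℝ).2 hK.isBounded)).2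
  have ps : ∀ (c : ℝ) x, 0 ≤ c → gauge K (c • x) = c * gauge K x := fun c x h => gauge_smul_of_nonneg h x
  generalize gauge K = p at *
  by_contra hlt
  have hx0 : x0 ≠ 0 := by rintro rfl; simp at hlt
  obtain ⟨t, ht1, ht⟩ : ∃ t, 1 < t ∧ t * p x0 < p (-x0) := by
    obtain ⟨t, h1, h2⟩ := exists_between ((one_lt_div (pp _ hx0)).2 (not_le.1 hlt))
    exact ⟨t, h1, (lt_div_iff₀ (pp _ hx0)).1 h2⟩
  let h : E → ℝ := fun x => p (-x) - t * p x
  have hh : Continuous h := by fun_prop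
  have hs : ∀ (c : ℝ) x, 0 ≤ c → h (c • x) = c * h x := fun c x hc => by
    simp only [h, ← smul_neg, ps _ _ hc]; ring
  have hneg : ∀ x, x ≠ 0 → 0 ≤ h x → h (-x) < 0 := fun x hx h1 => by
    have := pp x hx; have := pp (-x) (neg_ne_zero.2 hx)
    simp only [h, neg_neg] at h1 ⊢; nlinarith
  have dz : ∀ a b : E, det a b ≠ 0 → b ≠ 0 := fun a b h e => h (by simp [e, det])
  obtain ⟨w, hw, hw'⟩ : ∃ w, det x0 w ≠ 0 ∧ h w < 0 := by
    by_cases e : h !₂[-x0 1, x0 0] < 0
    · exact ⟨_, rot hx0, e⟩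
    · exact ⟨_, fun e' => rot hx0 (by simp only [det, PiLp.neg_apply] at e' ⊢; linarith),
        hneg _ (dz _ _ (rot hx0)) (not_lt.1 e)⟩
  have hx : 0 < h x0 := sub_pos.2 ht
  obtain ⟨s, s0, s1, hb, hb'⟩ := first_zero (g := fun s => h (x0 + s • (w - x0))) (by fun_prop)
    (by simpa using hx) (by simpa using hw')
  set b := x0 + s • (w - x0) with hbd
  have db : det x0 b ≠ 0 := by
    have : det x0 b = s * det x0 w := by simp [det, hbd]; ring
    rw [this]; positivity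
  obtain ⟨r, r0, r1, ha, ha'⟩ := first_zero (g := fun s => h (x0 + s • (-b - x0))) (by fun_prop)
    (by simpa using hx) (by simpa using hneg b (dz _ _ db) hb.ge)
  set a := x0 + r • (-b - x0) with had
  have da : det a b ≠ 0 := by
    have : det a b = (1 - r) * det x0 b := by clear_value b; simp [det, had]; ring
    rw [this]; exact mul_ne_zero (by linarith) db
  have cone : ∀ σ τ : ℝ, 0 < σ → 0 < τ → 0 < h (σ • a + τ • b) := by
    intro σ τ hσ hτ
    have h1 : 0 < σ * (1 - r) := mul_pos hσ (by linarith)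
    rcases le_or_gt (σ * r) τ with h2 | h2
    · have h3 : 0 < σ * (1 - r) + (τ - σ * r) := by linarith
      have e : σ • a + τ • b = (σ * (1 - r) + (τ - σ * r)) •
          (x0 + ((τ - σ * r) * s / (σ * (1 - r) + (τ - σ * r))) • (w - x0)) := by
        rw [smul_add (_ + _) x0, smul_smul, mul_div_cancel₀ _ h3.ne', had, hbd]; module
      rw [e, hs _ _ h3.le]
      refine mul_pos h3 (hb' _ (div_nonneg (mul_nonneg (by linarith) s0.le) h3.le) ?_)
      rw [div_lt_iff₀ h3]; nlinarith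
    · have h3 : 0 < σ * (1 - r) + (σ * r - τ) := by linarith
      have e : σ • a + τ • b = (σ * (1 - r) + (σ * r - τ)) •
          (x0 + ((σ * r - τ) / (σ * (1 - r) + (σ * r - τ))) • (-b - x0)) := by
        rw [smul_add (_ + _) x0, smul_smul, mul_div_cancel₀ _ h3.ne', had]; module
      rw [e, hs _ _ h3.le]
      refine mul_pos h3 (ha' _ (div_nonneg (by linarith) h3.le) ?_)
      rw [div_lt_iff₀ h3]; nlinarith
  have ha0 : h a = 0 := ha
  have hb0 : h b = 0 := hb
  clear_value a b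
  obtain ⟨u, v, ua, ub, va, vb, dec⟩ := dual da
  have := Measure.nullSingletonClass_hausdorff E one_pos
  have null : ∀ (u c : E), c ≠ 0 → (∀ x, ⟪u, x⟫ = 0 → ∃ τ : ℝ, x = τ • c) →
      μH[1] (frontier K ∩ {x | ⟪u, x⟫ = 0}) = 0 := fun u c hc' hu => by
    refine measure_mono_null (t := {(p c)⁻¹ • c, (p (-c))⁻¹ • -c}) (fun x hx => ?_) ((toFinite _).measure_zero _)
    obtain ⟨τ, rfl⟩ := hu x hx.2
    have h1 := (pf _).2 hx.1
    rcases le_total 0 τ with h2 | h2
    · rw [ps _ _ h2] at h1; exact Or.inl (by rw [eq_inv_of_mul_eq_one_left h1])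
    · rw [← neg_smul_neg, ps _ _ (neg_nonneg.2 h2)] at h1
      exact Or.inr (by rw [← eq_inv_of_mul_eq_one_left h1, neg_smul_neg]; rfl)
  have a0 : a ≠ 0 := by rintro rfl; simp at ua
  have b0 : b ≠ 0 := dz _ _ da
  have nu := null u b b0 fun x hx => ⟨_, by simpa [hx] using dec x⟩
  have nv := null v a a0 fun x hx => ⟨_, by simpa [hx] using dec x⟩
  have e1 := H u (by rintro rfl; simp at ua)
  have e2 := H v (by rintro rfl; simp at vb)
  rw [split _ _ v nv, split _ {x | ⟪u, x⟫ < 0} v nv] at e1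
  rw [split _ _ u nu, split _ {x | ⟪v, x⟫ < 0} u nu, inter_comm {x | 0 < ⟪v, x⟫}, inter_comm {x | 0 < ⟪v, x⟫},
    inter_comm {x | ⟪v, x⟫ < 0}, inter_comm {x | ⟪v, x⟫ < 0}] at e2
  have fin : ∀ T, μH[1] (frontier K ∩ T) ≠ ∞ := fun T =>
    ne_top_of_le_ne_top (fin_len hK hc hi) (measure_mono inter_subset_left)
  have pos := pos_len hK b0 ua ub (z := (1 / 2 * (p b)⁻¹) • b) (by
      by_contra hni
      have h1 : p ((1 / 2 * (p b)⁻¹) • b) = 1 / 2 := by
        rw [ps _ _ (by have := pp b b0; positivity), mul_assoc, inv_mul_cancel₀ (pp b b0).ne', mul_one]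
      have := (pf _).2 ⟨subset_closure ((pk _).1 (by linarith)), hni⟩
      linarith) (S := {x | 0 < ⟪u, x⟫} ∩ {x | 0 < ⟪v, x⟫}) fun σ τ hσ hτ => by
    have := pp b b0
    simp only [mem_inter_iff, mem_ofPred_eq, inner_add_right, inner_smul_right, ua, ub, va, vb]
    constructor
    · linarith
    · positivity
  have t0 : 0 < t := by linarith
  have cmp := lipP (A := frontier K ∩ ({x | ⟪u, x⟫ < 0} ∩ {x | ⟪v, x⟫ < 0}))
    (B := frontier K ∩ ({x | 0 < ⟪u, x⟫} ∩ {x | 0 < ⟪v, x⟫})) ⟨t⁻¹, by positivity⟩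
    (fun x y => y ∈ K ∧ ∀ z ∈ K, ⟪x - -t • y, -t • z - -t • y⟫ ≤ 0) (fun y hy => by
      obtain ⟨ν, h0, hν⟩ := supp hc hi hy.1.2
      have y1 : ⟪u, y⟫ < 0 := hy.2.1
      have y2 : ⟪v, y⟫ < 0 := hy.2.2
      have y3 := (pf _).2 hy.1
      let z : ℝ → E := fun s => -t • y + s • -ν
      have y4 : p (-t • y) < 1 := by
        have h1 := cone (-⟪u, y⟫) (-⟪v, y⟫) (by linarith) (by linarith)
        rw [neg_smul, neg_smul, ← neg_add, ← dec y] at h1
        simp only [h, neg_neg, y3] at h1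
        rw [neg_smul, ← smul_neg, ps _ _ t0.le]; linarith
      obtain ⟨S, S0, hS⟩ := far hK (-t • y) (neg_ne_zero.2 h0)
      obtain ⟨s, hs', e⟩ := intermediate_value_Icc' (f := fun s => min (1 - p (z s)) (min ⟪u, z s⟫ ⟪v, z s⟫)) S0
        (by fun_prop) (show (0 : ℝ) ∈ _ from ⟨(min_le_left _ _).trans (by
          have := (pk _).not.2 hS; simp only [z]; linarith), by
            simp only [z, zero_smul, add_zero, inner_smul_right, le_min_iff]
            exact ⟨by linarith, by nlinarith, by nlinarith⟩⟩)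
      have key : ∀ q ∈ K, ⟪z s - -t • y, -t • q - -t • y⟫ ≤ 0 := fun q hq => by
        rw [← smul_sub]
        simp only [z, add_sub_cancel_left, inner_smul_left, inner_smul_right, inner_neg_left, conj_trivial]
        nlinarith [mul_nonneg hs'.1 (neg_nonneg.2 (hν q hq))]
      have g1 : 0 ≤ 1 - p (z s) := e.ge.trans (min_le_left _ _)
      have g2 : 0 ≤ ⟪u, z s⟫ := e.ge.trans ((min_le_right _ _).trans (min_le_left _ _))
      have g3 : 0 ≤ ⟪v, z s⟫ := e.ge.trans ((min_le_right _ _).trans (min_le_right _ _))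
      have out : h (z s) ≠ 0 := fun h1 => by
        have h2 : (-t⁻¹) • z s ∈ K := (pk _).1 (by
          rw [neg_smul, ← smul_neg, ps _ _ (by positivity), inv_mul_le_iff₀ t0]
          simp only [h] at h1; nlinarith)
        have h3 := key _ h2
        rw [smul_smul, neg_mul_neg, mul_inv_cancel₀ t0.ne', one_smul] at h3
        have h4 : z s = -t • y := sub_eq_zero.1 (real_inner_self_nonpos.1 h3)
        have h5 := cone (-t * ⟪u, y⟫) (-t * ⟪v, y⟫) (by nlinarith) (by nlinarith)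
        rw [mul_smul, mul_smul, ← smul_add, ← dec y, ← h4] at h5
        exact h5.ne' h1
      have g4 : 0 < ⟪u, z s⟫ := g2.lt_of_ne fun h1 => out (by
        rw [dec (z s), ← h1, zero_smul, zero_add, hs _ _ g3, hb0, mul_zero])
      have g5 : 0 < ⟪v, z s⟫ := g3.lt_of_ne fun h1 => out (by
        rw [dec (z s), ← h1, zero_smul, add_zero, hs _ _ g2, ha0, mul_zero])
      refine ⟨z s, ⟨(pf _).1 ?_, g4, g5⟩, hK.isClosed.frontier_subset hy.1, key⟩
      by_contra h1
      exact (lt_min (g1.lt_of_ne fun h2 => h1 (by linarith)) (lt_min g4 g5)).ne' e)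
    fun x y x' y' h1 h2 => by
      have := nonexp (h1.2 _ h2.1) (h2.2 _ h1.1)
      rw [← smul_sub, norm_smul, norm_neg, Real.norm_of_nonneg t0.le] at this
      rw [dist_eq_norm, dist_eq_norm]
      exact (le_inv_mul_iff₀ t0).2 this
  have e3 := congrArg ENNReal.toReal e1
  have e4 := congrArg ENNReal.toReal e2
  have e5 := ENNReal.toReal_mono (ENNReal.mul_ne_top ENNReal.coe_ne_top (fin _)) cmp
  have e6 := ENNReal.toReal_pos pos (fin _)
  simp only [ENNReal.toReal_add (fin _) (fin _), ENNReal.toReal_mul, ENNReal.coe_toReal] at e3 e4 e5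
  change _ ≤ t⁻¹ * _ at e5
  have := inv_lt_one_of_one_lt₀ ht1
  nlinarith

end Pool.Agent.H58.Kl
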