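import Mathlib

set_option autoImplicit false

namespace Pool.Agent.H58.Kv

/-- The set `Bad_p`: `inf_{q ≥ 1} q |q|_p ‖q α‖ > 0`. -/
def BadP (p : ℕ) (α : ℝ) : Prop :=
  ∃ c : ℝ, 0 < c ∧ ∀ q : ℕ, 1 ≤ q →
    c ≤ (q : ℝ) * ((padicNorm p (q : ℚ) : ℚ) : ℝ) * |(q : ℝ) * α - round ((q : ℝ) * α)|

/-- The van der Corput sequence in base `p`; `n / p ^ i % p` is the `i`-th digit of `n`. -/
noncomputable def vdc (p n : ℕ) : ℝ := ∑' i : ℕ, ((n / p ^ i % p : ℕ) : ℝ) / (p : ℝ) ^ (i + 1)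

open Classical in
/-- The number of `n < N` with `({n α}, φ_p(n)) ∈ [0,a) × [0,b)`. -/
noncomputable def cnt (p : ℕ) (α : ℝ) (N : ℕ) (a b : ℝ) : ℕ :=
  ((Finset.range N).filter fun n : ℕ =>
    (Int.fract ((n : ℝ) * α), vdc p n) ∈ Set.Ico (0 : ℝ) a ×ˢ Set.Ico (0 : ℝ) b).card

/-- The star discrepancy `D_N` of the hybrid sequence. -/
noncomputable def disc (p : ℕ) (α : ℝ) (N : ℕ) : ℝ :=
  sSup {x | ∃ a ∈ Set.Icc (0 : ℝ) 1, ∃ b ∈ Set.Icc (0 : ℝ) 1, x = |(cnt p α N a b : ℝ) / N - a * b|}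

end Pool.Agent.H58.Kv
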