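import Mathlib
import Pool.Agent.H58.PD2
import Pool.Agent.H58.KvDefs

set_option autoImplicit false

namespace Pool.Agent.H58.Kv

open Finset

theorem fract_zmod (q : ℕ) [NeZero q] (γ : ℝ) (k : ℤ) :
    Int.fract (γ + (k : ℝ) / q) = Int.fract (γ + (((k : ZMod q).val : ℕ) : ℝ) / q) := by
  have hq : (q : ℝ) ≠ 0 := by exact_mod_cast NeZero.ne q
  have h1 : (((k : ZMod q).val : ℕ) : ℤ) = k % q := ZMod.val_intCast k
  have h2 : (((k : ZMod q).val : ℕ) : ℝ) = ((k % q : ℤ) : ℝ) := by exact_mod_cast h1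
  have h3 : (k : ℝ) = ((k % q : ℤ) : ℝ) + q * ((k / q : ℤ) : ℝ) := by
    exact_mod_cast (Int.emod_add_mul_ediv k q).symm
  rw [h2]
  have : γ + (k : ℝ) / q = γ + ((k % q : ℤ) : ℝ) / q + ((k / q : ℤ) : ℝ) := by
    conv_lhs => rw [h3]
    field_simp
    ring
  rw [this, Int.fract_add_intCast]

theorem sum_fract (q : ℕ) [NeZero q] (m : ℤ) (hm : IsCoprime m q) (γ : ℝ) (k : ℤ) :
    ∑ j ∈ range q, Int.fract (γ + ((k + j * m : ℤ) : ℝ) / q) =
      ∑ x : ZMod q, Int.fract (γ + (x.val : ℝ) / q) := by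
  simp only [fract_zmod q γ]
  rw [PD.sum_zmod]
  have hu : IsUnit (m : ZMod q) := by
    obtain ⟨u, v, huv⟩ := hm
    have : ((u * m + v * q : ℤ) : ZMod q) = 1 := by rw [huv]; simp
    push_cast at this
    simp only [CharP.cast_eq_zero, mul_zero, add_zero] at this
    exact IsUnit.of_mul_eq_one_right _ this
  obtain ⟨u, hu⟩ := hu
  refine Fintype.sum_equiv ((Units.mulRight u).trans (Equiv.addLeft (k : ZMod q))) _ _ fun x => ?_
  simp [hu]

theorem sum_floor (q : ℕ) [NeZero q] (m : ℤ) (hm : IsCoprime m q) (γ : ℝ) (k k' : ℤ) :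
    ∑ j ∈ range q, ((⌊γ + ((k + j * m : ℤ) : ℝ) / q⌋ : ℝ) - ⌊γ + ((k' + j * m : ℤ) : ℝ) / q⌋) = k - k' := by
  have hq : (q : ℝ) ≠ 0 := by exact_mod_cast NeZero.ne q
  have h1 := sum_fract q m hm γ k
  rw [← sum_fract q m hm γ k', ← sub_eq_zero, ← sum_sub_distrib] at h1
  have h2 : ∀ j ∈ range q, ((⌊γ + ((k + j * m : ℤ) : ℝ) / q⌋ : ℝ) - ⌊γ + ((k' + j * m : ℤ) : ℝ) / q⌋) =
      ((k : ℝ) - k') / q - (Int.fract (γ + ((k + j * m : ℤ) : ℝ) / q) -
        Int.fract (γ + ((k' + j * m : ℤ) : ℝ) / q)) := by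
    intro j _
    simp only [Int.fract]
    push_cast
    ring
  rw [sum_congr rfl h2, sum_sub_distrib, h1]
  simp
  field_simp

open Classical in
noncomputable def ind (a x : ℝ) : ℝ := if Int.fract x < a then 1 else 0

theorem ind_eq {a : ℝ} (h0 : 0 ≤ a) (h1 : a ≤ 1) (x : ℝ) : ind a x = (⌊x⌋ : ℝ) - ⌊x - a⌋ := by
  have e : x - a = (Int.fract x - a) + ⌊x⌋ := by rw [Int.fract]; ring
  have f0 := Int.fract_nonneg x
  have f1 := Int.fract_lt_one x
  rw [e, Int.floor_add_intCast, ind]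
  split_ifs with h
  · have : ⌊Int.fract x - a⌋ = -1 := by
      rw [Int.floor_eq_iff]; push_cast; constructor <;> linarith
    rw [this]; push_cast; ring
  · have : ⌊Int.fract x - a⌋ = 0 := by
      rw [Int.floor_eq_iff]; push_cast; constructor <;> linarith
    rw [this]; push_cast; ring

noncomputable def err (a θ β : ℝ) (M : ℕ) : ℝ := ∑ j ∈ range M, (ind a (β + j * θ) - a)

theorem block {a : ℝ} (h0 : 0 ≤ a) (h1 : a ≤ 1) (θ β : ℝ) (q : ℕ) [NeZero q] (m : ℤ)
    (hm : IsCoprime m q) (h : |θ - m / q| ≤ 1 / (q : ℝ) ^ 2) : |err a θ β q| ≤ 3 := by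
  have hq : (0 : ℝ) < q := by exact_mod_cast Nat.pos_of_ne_zero (NeZero.ne q)
  have hj : ∀ j ∈ range q, |(j : ℝ) * θ - j * m / q| ≤ 1 / q := by
    intro j hj
    have : (j : ℝ) ≤ q := by exact_mod_cast (mem_range.1 hj).le
    calc |(j : ℝ) * θ - j * m / q| = j * |θ - m / q| := by
          rw [← abs_of_nonneg (Nat.cast_nonneg (α := ℝ) j), ← abs_mul, abs_of_nonneg (Nat.cast_nonneg (α := ℝ) j)]
          congr 1; ring
      _ ≤ q * (1 / (q : ℝ) ^ 2) := by gcongr
      _ = 1 / q := by field_simp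
  have hc := Int.le_ceil ((q : ℝ) * a)
  have hc' := Int.ceil_lt_add_one ((q : ℝ) * a)
  have hf := Int.floor_le ((q : ℝ) * a)
  have hf' := Int.lt_floor_add_one ((q : ℝ) * a)
  have ha1 : a ≤ (⌈(q : ℝ) * a⌉ : ℝ) / q := by rw [le_div_iff₀ hq]; linarith
  have ha2 : (⌊(q : ℝ) * a⌋ : ℝ) / q ≤ a := by rw [div_le_iff₀ hq]; linarith
  have U := sum_floor q m hm β 1 (-1 - ⌈(q : ℝ) * a⌉)
  have L := sum_floor q m hm β (-1) (1 - ⌊(q : ℝ) * a⌋)
  have fl : ∀ x y : ℝ, x ≤ y → (⌊x⌋ : ℝ) ≤ ⌊y⌋ := fun x y h => by exact_mod_cast Int.floor_mono h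
  have U' : ∑ j ∈ range q, ind a (β + j * θ) ≤ _ := (sum_le_sum fun j hj' => by
    obtain ⟨l, u⟩ := abs_le.1 (hj j hj')
    rw [ind_eq h0 h1]
    refine sub_le_sub (fl _ _ ?_) (fl _ _ ?_)
    · push_cast; rw [add_div]; linarith
    · push_cast; rw [add_div, sub_div, neg_div]; linarith).trans U.le
  have L' : _ ≤ ∑ j ∈ range q, ind a (β + j * θ) := L.ge.trans (sum_le_sum fun j hj' => by
    obtain ⟨l, u⟩ := abs_le.1 (hj j hj')
    rw [ind_eq h0 h1]
    refine sub_le_sub (fl _ _ ?_) (fl _ _ ?_)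
    · push_cast; rw [add_div, neg_div]; linarith
    · push_cast; rw [add_div, sub_div]; linarith)
  rw [err, sum_sub_distrib, sum_const, card_range, nsmul_eq_mul, abs_le]
  push_cast at U' L'
  constructor <;> linarith

theorem err_add (a θ β : ℝ) (A B : ℕ) : err a θ β (A + B) = err a θ β A + err a θ (β + A * θ) B := by
  simp only [err, sum_range_add]
  congr 1
  refine sum_congr rfl fun j _ => ?_
  push_cast
  congr 2; ring

def Bad (c θ : ℝ) : Prop := ∀ q : ℕ, 1 ≤ q → ∀ m : ℤ, c ≤ q * |q * θ - m|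

theorem kron {a c θ : ℝ} (h0 : 0 ≤ a) (h1 : a ≤ 1) (hc : 0 < c) (hθ : Bad c θ) (K : ℕ) :
    ∀ M < 2 ^ K, ∀ β, |err a θ β M| ≤ 3 / c * K := by
  induction K with
  | zero => intro M hM β; obtain rfl : M = 0 := by omega
            simp [err]
  | succ K ih =>
    intro M hM β
    rcases Nat.eq_zero_or_pos M with rfl | hM0
    · simp only [err, range_zero, sum_empty, abs_zero]; positivity
    obtain ⟨r, hr, hd⟩ := Real.exists_rat_abs_sub_le_and_den_le θ hM0
    have hq0 : 0 < r.den := r.pos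
    have hq : (0 : ℝ) < r.den := by exact_mod_cast hq0
    have hd' : (r.den : ℝ) ≤ M := by exact_mod_cast hd
    have e : (r : ℝ) = (r.num : ℝ) / r.den := by exact_mod_cast (Rat.num_div_den r).symm
    rw [e] at hr
    have : NeZero r.den := ⟨hq0.ne'⟩
    have hb : ∀ β, |err a θ β r.den| ≤ 3 := fun β =>
      block h0 h1 θ β r.den r.num (Int.isCoprime_iff_gcd_eq_one.2 r.reduced) (hr.trans (by
        rw [sq]; gcongr; linarith))
    have ht : ∀ t : ℕ, ∀ β, |err a θ β (t * r.den)| ≤ 3 * t := by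
      intro t
      induction t with
      | zero => simp [err]
      | succ t iht =>
        intro β
        rw [add_mul, one_mul, err_add]
        refine (abs_add_le _ _).trans ?_
        have := iht β
        have := hb (β + (t * r.den : ℕ) * θ)
        push_cast at *
        linarith
    have hcq : c * M ≤ r.den := by
      have h2 := hθ r.den hq0 r.num
      have h3 : |(r.den : ℝ) * θ - r.num| = r.den * |θ - r.num / r.den| := by
        rw [← abs_of_pos hq, ← abs_mul, abs_of_pos hq]; congr 1; field_simp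
      have h4 : c ≤ r.den * (r.den * (1 / ((M + 1) * r.den))) := by
        refine h2.trans ?_; rw [h3]; gcongr
      have h5 : (r.den : ℝ) * (r.den * (1 / ((M + 1) * r.den))) = r.den / (M + 1) := by field_simp
      rw [h5, le_div_iff₀ (by positivity)] at h4
      nlinarith
    have hsplit : M = M / r.den * r.den + M % r.den := (Nat.div_add_mod' M r.den).symm
    have hlt : M % r.den < 2 ^ K := by
      have := Nat.mod_lt M hq0
      have : 1 ≤ M / r.den := (Nat.one_le_div_iff hq0).2 hd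
      have : r.den ≤ M / r.den * r.den := Nat.le_mul_of_pos_left _ this
      omega
    have hdiv : ((M / r.den : ℕ) : ℝ) ≤ 1 / c := by
      refine Nat.cast_div_le.trans ?_
      rw [div_le_div_iff₀ hq hc]; linarith
    rw [hsplit, err_add]
    refine (abs_add_le _ _).trans ?_
    have := ht (M / r.den) β
    have := ih _ hlt (β + (M / r.den * r.den : ℕ) * θ)
    have e2 : 3 / c * ((K + 1 : ℕ) : ℝ) = 3 / c * K + 3 * (1 / c) := by push_cast; ring
    rw [e2]
    linarith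

end Pool.Agent.H58.Kv
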