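import Mathlib
import Pool.Agent.H58.Kv1

set_option autoImplicit false

namespace Pool.Agent.H58.Kv

open Finset

theorem vdc_summable {p : ℕ} (hp : 2 ≤ p) (n : ℕ) :
    Summable fun i : ℕ => ((n / p ^ i % p : ℕ) : ℝ) / (p : ℝ) ^ (i + 1) := by
  refine summable_of_ne_finset_zero (s := range n) fun i hi => ?_
  have h1 : n ≤ i := by simpa using hi
  have h2 : n < p ^ i := lt_of_le_of_lt h1 (Nat.lt_pow_self hp)
  simp [Nat.div_eq_of_lt h2]

theorem vdc_rec {p : ℕ} (hp : 2 ≤ p) (n : ℕ) : vdc p n = ((n % p : ℕ) + vdc p (n / p)) / p := by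
  rw [vdc, (vdc_summable hp n).tsum_eq_zero_add, vdc, add_div, ← tsum_div_const]
  congr 1
  · simp
  · refine tsum_congr fun i => ?_
    rw [Nat.div_div_eq_div_mul, ← pow_succ', div_div, ← pow_succ]

theorem vdc_mem {p : ℕ} (hp : 2 ≤ p) (n : ℕ) : 0 ≤ vdc p n ∧ vdc p n < 1 := by
  induction n using Nat.strong_induction_on with
  | _ n ih =>
    rcases Nat.eq_zero_or_pos n with rfl | hn
    · simp [vdc]
    obtain ⟨h0, h1⟩ := ih (n / p) (Nat.div_lt_self hn hp)
    have hp' : (0 : ℝ) < p := by positivity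
    have h2 : ((n % p : ℕ) : ℝ) + 1 ≤ p := by exact_mod_cast Nat.mod_lt n (by omega : 0 < p)
    rw [vdc_rec hp]
    exact ⟨by positivity, by rw [div_lt_one hp']; linarith⟩

open Classical in
noncomputable def err2 (p : ℕ) (a θ β b : ℝ) (N : ℕ) : ℝ :=
  ∑ n ∈ range N, (ind a (β + n * θ) * (if vdc p n < b then 1 else 0) - a * b)

theorem sum_mul_range (p M : ℕ) (f : ℕ → ℝ) :
    ∑ n ∈ range (p * M), f n = ∑ d ∈ range p, ∑ m ∈ range M, f (p * m + d) := by
  rw [sum_comm]
  induction M with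
  | zero => simp
  | succ M ih => rw [mul_add, mul_one, sum_range_add, ih, sum_range_succ]

theorem hyb {p : ℕ} (hp : 2 ≤ p) {a c : ℝ} (h0 : 0 ≤ a) (h1 : a ≤ 1) (hc : 0 < c) (K : ℕ) :
    ∀ θ : ℝ, (∀ k : ℕ, Bad c (p ^ k * θ)) → ∀ N < 2 ^ K, ∀ β b, 0 ≤ b → b ≤ 1 →
      |err2 p a θ β b N| ≤ (p * (3 / c) + p) * K ^ 2 := by
  classical
  have hp' : (0 : ℝ) < p := by positivity
  induction K with
  | zero => intro θ _ N hN β b _ _; obtain rfl : N = 0 := by omega
            simp [err2]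
  | succ K ih =>
    intro θ hθ N hN β b hb0 hb1
    set M := N / p with hM
    have hMK : M < 2 ^ K := by
      have : N / p ≤ N / 2 := Nat.div_le_div_left hp (by norm_num)
      omega
    have hθ' : ∀ k : ℕ, Bad c (p ^ k * (p * θ)) := fun k => by
      have := hθ (k + 1); rwa [pow_succ, mul_assoc] at this
    have hterm : ∀ n : ℕ, |ind a (β + n * θ) * (if vdc p n < b then 1 else 0) - a * b| ≤ 1 := by
      intro n
      have : 0 ≤ a * b := by positivity
      have : a * b ≤ 1 := by nlinarith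
      rw [ind]; split_ifs <;> rw [abs_le] <;> constructor <;> linarith
    have hmain : ∑ n ∈ range (p * M), (ind a (β + n * θ) * (if vdc p n < b then 1 else 0) - a * b) =
        ∑ d ∈ range p, err2 p a (p * θ) (β + d * θ) (PD.cl (p * b - d)) M := by
      have e1 : PD.cl b = b := by simp [PD.cl, min_eq_right hb1, hb0]
      have e2 := PD.sum_cl' (by omega : 0 < p) b
      rw [e1] at e2
      simp only [err2, sum_sub_distrib]
      rw [sum_mul_range]
      congr 1
      · refine sum_congr rfl fun d hd => sum_congr rfl fun m _ => ?_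
        have hd' := mem_range.1 hd
        congr 1
        · push_cast; congr 1; ring
        · have e3 : (p * m + d) % p = d := by rw [Nat.mul_add_mod, Nat.mod_eq_of_lt hd']
          have e4 : (p * m + d) / p = m := by
            rw [Nat.mul_add_div (by omega), Nat.div_eq_of_lt hd', add_zero]
          obtain ⟨v0, v1⟩ := vdc_mem hp m
          rw [vdc_rec hp, e3, e4]
          refine if_congr ?_ rfl rfl
          rw [div_lt_iff₀ hp', PD.cl, lt_max_iff, lt_min_iff]
          constructor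
          · intro h; exact Or.inr ⟨v1, by linarith⟩
          · rintro (h | h)
            · linarith
            · linarith [h.2]
      · simp only [sum_const, card_range, nsmul_eq_mul]
        rw [← mul_sum, ← mul_sum, e2]; push_cast; ring
    have hL : 0 ≤ 3 / c * K := by positivity
    have hd : ∀ d ∈ range p, |err2 p a (p * θ) (β + d * θ) (PD.cl (p * b - d)) M| ≤
        3 / c * K + if d = ⌊(p : ℝ) * b⌋₊ then (p * (3 / c) + p) * K ^ 2 else 0 := by
      intro d _
      split_ifs with h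
      · have := ih (p * θ) hθ' M hMK (β + d * θ) _ (PD.cl_mem (p * b - d)).1 (PD.cl_mem (p * b - d)).2
        linarith
      rcases lt_or_gt_of_ne h with h | h
      · have h2 : (d : ℝ) + 1 ≤ ⌊(p : ℝ) * b⌋₊ := by exact_mod_cast h
        have h3 := Nat.floor_le (show 0 ≤ (p : ℝ) * b by positivity)
        rw [PD.cl_one (by linarith), add_zero]
        have := kron h0 h1 hc (by simpa using hθ 1) K M hMK (β + d * θ)
        simpa [err2, err, (vdc_mem hp _).2] using this
      · have h2 : (⌊(p : ℝ) * b⌋₊ : ℝ) + 1 ≤ d := by exact_mod_cast h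
        have h3 := Nat.lt_floor_add_one ((p : ℝ) * b)
        rw [PD.cl_nonpos (by linarith), add_zero]
        simpa [err2, (vdc_mem hp _).1.not_gt] using hL
    have hA := (abs_sum_le_sum_abs _ _).trans (sum_le_sum hd)
    rw [sum_add_distrib, sum_ite_eq', sum_const, card_range, nsmul_eq_mul] at hA
    have hA' : (if ⌊(p : ℝ) * b⌋₊ ∈ range p then (p * (3 / c) + p) * (K : ℝ) ^ 2 else 0) ≤
        (p * (3 / c) + p) * K ^ 2 := by
      split_ifs
      · exact le_rfl
      · positivity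
    have hsplit : N = p * M + N % p := (Nat.div_add_mod N p).symm
    have hr : ((N % p : ℕ) : ℝ) ≤ p := by exact_mod_cast (Nat.mod_lt N (by omega : 0 < p)).le
    rw [err2, hsplit, sum_range_add, hmain]
    refine (abs_add_le _ _).trans ?_
    have hB := (abs_sum_le_sum_abs _ _).trans (sum_le_sum fun x (_ : x ∈ range (N % p)) => hterm (p * M + x))
    rw [sum_const, card_range, nsmul_eq_mul, mul_one] at hB
    have hK : (0 : ℝ) ≤ K := Nat.cast_nonneg K
    have h3 : 0 ≤ p * (3 / c) := by positivity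
    push_cast at *
    nlinarith [mul_nonneg h3 hK, mul_nonneg hp'.le hK]

theorem bad_of {p : ℕ} (hp : p.Prime) {α : ℝ} (h : BadP p α) :
    ∃ c, 0 < c ∧ ∀ k : ℕ, Bad c (p ^ k * α) := by
  have : Fact p.Prime := ⟨hp⟩
  obtain ⟨c, hc, h⟩ := h
  refine ⟨c, hc, fun k q hq m => ?_⟩
  have hp' : (0 : ℝ) < p := by exact_mod_cast hp.pos
  refine (h (q * p ^ k) (Nat.mul_pos hq (pow_pos hp.pos k))).trans ?_
  have h1 : padicNorm p ((q * p ^ k : ℕ) : ℚ) ≤ ((p : ℚ) ^ k)⁻¹ := by
    push_cast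
    have hpw : padicNorm p ((p : ℚ) ^ k) = ((p : ℚ) ^ k)⁻¹ := by
      induction k with
      | zero => simp
      | succ k ih => rw [pow_succ, padicNorm.mul, ih, padicNorm.padicNorm_p hp.one_lt, mul_inv]
    rw [padicNorm.mul, hpw]
    exact mul_le_of_le_one_left (by positivity) (padicNorm.of_nat q)
  have h2 : ((padicNorm p ((q * p ^ k : ℕ) : ℚ) : ℚ) : ℝ) ≤ ((p : ℝ) ^ k)⁻¹ := by
    have := (Rat.cast_le (K := ℝ)).2 h1
    simpa using this
  have h3 := round_le (((q * p ^ k : ℕ) : ℝ) * α) m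
  calc _ ≤ ((q * p ^ k : ℕ) : ℝ) * ((p : ℝ) ^ k)⁻¹ * |((q * p ^ k : ℕ) : ℝ) * α - m| := by gcongr
    _ = _ := by push_cast; rw [mul_assoc (q : ℝ) _ α]; congr 1; field_simp

theorem main {p : ℕ} (hp : p.Prime) {α : ℝ} (h : BadP p α) :
    ∃ C : ℝ, ∀ N : ℕ, 2 ≤ N → ∀ a ∈ Set.Icc (0 : ℝ) 1, ∀ b ∈ Set.Icc (0 : ℝ) 1,
      |(cnt p α N a b : ℝ) / N - a * b| ≤ C * Real.log N ^ 2 / N := by
  classical
  obtain ⟨c, hc, h⟩ := bad_of hp h
  refine ⟨(p * (3 / c) + p) * 9, fun N hN a ha b hb => ?_⟩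
  have hN' : (0 : ℝ) < N := by positivity
  have h1 := hyb hp.two_le ha.1 ha.2 hc (Nat.log 2 N + 1) α h N (Nat.lt_pow_succ_log_self (by norm_num) N)
    0 b hb.1 hb.2
  have h2 : err2 p a α 0 b N = cnt p α N a b - N * (a * b) := by
    rw [err2, sum_sub_distrib, sum_const, card_range, nsmul_eq_mul, cnt, card_filter]
    push_cast
    congr 1
    refine sum_congr rfl fun n _ => ?_
    simp only [ind, zero_add, Set.mem_prod, Set.mem_Ico, Int.fract_nonneg, (vdc_mem hp.two_le n).1, true_and]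
    by_cases h1 : Int.fract (n * α) < a <;> by_cases h2 : vdc p n < b <;> simp [h1, h2]
  have hl2 := Real.log_two_gt_d9
  have h3 : ((Nat.log 2 N : ℕ) : ℝ) * Real.log 2 ≤ Real.log N := by
    rw [← Real.log_pow]
    exact Real.log_le_log (by positivity) (by exact_mod_cast Nat.pow_log_le_self 2 (by omega))
  have h4 : Real.log 2 ≤ Real.log N := Real.log_le_log (by norm_num) (by exact_mod_cast hN)
  have h5 : ((Nat.log 2 N + 1 : ℕ) : ℝ) ≤ 3 * Real.log N := by
    push_cast
    have : (0 : ℝ) ≤ (Nat.log 2 N : ℕ) := Nat.cast_nonneg _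
    nlinarith
  have e : (cnt p α N a b : ℝ) / N - a * b = err2 p a α 0 b N / N := by rw [h2]; field_simp
  rw [e, abs_div, abs_of_pos hN']
  gcongr
  refine h1.trans ?_
  rw [mul_assoc, show 9 * Real.log N ^ 2 = (3 * Real.log N) ^ 2 by ring]
  gcongr

end Pool.Agent.H58.Kv
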