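import Pool.Agent.H58.LgDefs

set_option autoImplicit false

namespace Pool.Agent.H58.Lg

open MeasureTheory Set Metric Filter
open scoped Real

noncomputable section

/-- truncated singular kernel. -/
def g (r : ℝ) : ℝ := (Iio (20 : ℝ)).indicator (fun r => r⁻¹) r

lemma g_meas : Measurable g := measurable_inv.indicator measurableSet_Iio

lemma g_nonneg {r : ℝ} (h : 0 ≤ r) : 0 ≤ g r := by
  unfold g indicator; split_ifs <;> positivity

lemma g_eq : EqOn (fun y : ℝ => y ^ (Module.finrank ℝ ℂ - 1) • g y)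
    ((Iio (20 : ℝ)).indicator fun _ => (1 : ℝ)) (Ioi 0) := fun y hy => by
  have : y ≠ 0 := ne_of_gt hy
  simp only [Complex.finrank_real_complex, g, indicator]
  split_ifs <;> simp [this]

lemma g_int : Integrable fun z : ℂ => g ‖z‖ := by
  rw [integrable_fun_norm_addHaar, integrableOn_congr_fun g_eq measurableSet_Ioi,
    IntegrableOn, integrable_indicator_iff measurableSet_Iio, IntegrableOn,
    Measure.restrict_restrict measurableSet_Iio, Iio_inter_Ioi]
  exact integrableOn_const (by simp)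

lemma g_val : ∫ z : ℂ, g ‖z‖ = 40 * π := by
  rw [integral_fun_norm_addHaar, setIntegral_congr_fun measurableSet_Ioi g_eq,
    setIntegral_indicator measurableSet_Iio, Ioi_inter_Iio]
  simp [Measure.real]
  ring

lemma g_set (Ω : Set ℂ) (x : ℂ) : IntegrableOn (fun y => g ‖x - y‖) Ω ∧
    ∫ y in Ω, g ‖x - y‖ ≤ 40 * π := by
  have h := g_int.comp_sub_left x
  refine ⟨h.integrableOn, (setIntegral_le_integral h
    (Eventually.of_forall fun y => g_nonneg (norm_nonneg _))).trans_eq ?_⟩
  rw [integral_sub_left_eq_self (fun z : ℂ => g ‖z‖), g_val]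

lemma lt20 {x y : ℂ} (hx : x ∈ ball (0 : ℂ) 10) (hy : y ∈ ball (0 : ℂ) 10) : ‖x - y‖ < 20 := by
  rw [mem_ball_zero_iff] at hx hy
  linarith [norm_sub_le x y]

lemma log_le {r : ℝ} (h0 : 0 ≤ r) (h : r < 20) : |Real.log (1 / r)| ≤ g r + 20 := by
  have e : g r = r⁻¹ := indicator_of_mem (mem_Iio.mpr h) _
  rcases h0.eq_or_lt with rfl | h0
  · simp [e]
  have h1 := Real.log_le_sub_one_of_pos h0
  have h2 := Real.log_le_sub_one_of_pos (inv_pos.mpr h0)
  have h3 := inv_pos.mpr h0
  rw [one_div, e, abs_le]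
  rw [Real.log_inv] at h2 ⊢
  constructor <;> linarith

lemma form_le {Ω : Set ℂ} (hm : MeasurableSet Ω) (hΩ : Ω ⊆ ball 0 10) {u : ℂ → ℝ}
    (hu : MemLp u 2 (volume.restrict Ω)) :
    |form Ω u| ≤ (40 * π + 20 * volume.real Ω) * ∫ x in Ω, u x ^ 2 := by
  have hfin : volume Ω ≠ ⊤ := ((measure_mono hΩ).trans_lt measure_ball_lt_top).ne
  have : IsFiniteMeasure (volume.restrict Ω) := isFiniteMeasure_restrict.mpr hfin
  set μ := (volume : Measure ℂ).restrict Ω with hμ
  have h2 : Integrable (fun x => u x ^ 2) μ := hu.integrable_sq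
  obtain ⟨H, hHd⟩ : ∃ H : ℂ × ℂ → ℝ, H = fun p => (g ‖p.1 - p.2‖ + 20) * u p.1 ^ 2 := ⟨_, rfl⟩
  have hk : ∀ x, Integrable (fun y => g ‖x - y‖ + 20) μ := fun x =>
    (g_set Ω x).1.add (integrable_const _)
  have hk2 : ∀ x, ∫ y, H (x, y) ∂μ ≤ (40 * π + 20 * volume.real Ω) * u x ^ 2 := fun x => by
    simp only [hHd]
    rw [integral_mul_const, integral_add (g_set Ω x).1 (integrable_const _)]
    refine mul_le_mul_of_nonneg_right ?_ (sq_nonneg _)
    have := (g_set Ω x).2
    simp only [integral_const, measureReal_restrict_apply_univ, smul_eq_mul]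
    linarith
  have H0 : ∀ p, 0 ≤ H p := fun p => by
    rw [hHd]
    exact mul_nonneg (by linarith [g_nonneg (norm_nonneg (p.1 - p.2))]) (sq_nonneg _)
  have hHm : AEStronglyMeasurable H (μ.prod μ) := by
    rw [hHd]
    exact (((g_meas.comp (measurable_fst.sub measurable_snd).norm).add_const 20).aestronglyMeasurable).mul
      h2.1.comp_fst
  have hH : Integrable H (μ.prod μ) := by
    refine (integrable_prod_iff hHm).mpr ⟨Eventually.of_forall fun x => by
      simp only [hHd]; exact (hk x).mul_const (u x ^ 2), ?_⟩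
    refine (h2.const_mul (40 * π + 20 * volume.real Ω)).mono' hHm.norm.integral_prod_right'
      (Eventually.of_forall fun x => ?_)
    simp only [Real.norm_eq_abs, abs_of_nonneg (H0 _)]
    rw [abs_of_nonneg (integral_nonneg fun y => H0 _)]
    exact hk2 x
  have hS : Integrable (fun p : ℂ × ℂ => (H p + H p.swap) / 2) (μ.prod μ) :=
    (hH.add hH.swap).div_const 2
  have h3 : ‖form Ω u‖ ≤ ∫ x, ∫ y, (H (x, y) + H (x, y).swap) / 2 ∂μ ∂μ := by
    refine norm_integral_le_of_norm_le hS.integral_prod_left ?_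
    filter_upwards [hS.prod_right_ae, ae_restrict_mem hm] with x hx hxΩ
    rw [← integral_mul_const]
    refine norm_integral_le_of_norm_le hx ?_
    filter_upwards [ae_restrict_mem hm] with y hyΩ
    have h4 := log_le (norm_nonneg _) (lt20 (hΩ hxΩ) (hΩ hyΩ))
    simp only [hHd, Prod.swap, norm_sub_rev y x, Real.norm_eq_abs, abs_mul]
    have h5 : |u y| * |u x| ≤ (u x ^ 2 + u y ^ 2) / 2 := by
      nlinarith [sq_nonneg (|u x| - |u y|), sq_abs (u x), sq_abs (u y)]
    have h6 := mul_le_mul h4 h5 (by positivity) ((abs_nonneg _).trans h4)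
    nlinarith
  have hW : Integrable (fun p : ℂ × ℂ => H p.swap) (μ.prod μ) := hH.swap
  rw [← integral_prod _ hS, integral_div, integral_add hH hW,
    integral_prod_swap,
    add_self_div_two, integral_prod _ hH] at h3
  have h7 : ∫ x, ∫ y, H (x, y) ∂μ ∂μ ≤ ∫ x, (40 * π + 20 * volume.real Ω) * u x ^ 2 ∂μ :=
    integral_mono hH.integral_prod_left (h2.const_mul _) hk2
  rw [integral_const_mul] at h7
  rw [Real.norm_eq_abs] at h3
  exact h3.trans h7

lemma lb {Ω : Set ℂ} (hm : MeasurableSet Ω) (hΩ : Ω ⊆ ball 0 10) :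
    ∀ q ∈ ({0} ∪ {q : ℝ | ∃ u : ℂ → ℝ, MemLp u 2 (volume.restrict Ω) ∧ 0 < ∫ x in Ω, u x ^ 2 ∧
      q = form Ω u / ∫ x in Ω, u x ^ 2} : Set ℝ), -(40 * π + 20 * volume.real Ω) ≤ q := by
  rintro q (rfl | ⟨u, hu, h0, rfl⟩)
  · have := Real.pi_pos
    exact neg_nonpos.mpr (by positivity)
  · rw [le_div_iff₀ h0]
    linarith [(abs_le.mp (form_le hm hΩ hu)).1]

lemma vol_ball : volume.real (ball (0 : ℂ) 10) = 100 * π := by
  simp [Measure.real]; norm_num

lemma tau_ball : tau (ball 0 10) ≤ -(60 * π) := by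
  have hπ := Real.pi_pos
  have : IsFiniteMeasure (volume.restrict (ball (0 : ℂ) 10)) :=
    isFiniteMeasure_restrict.mpr measure_ball_lt_top.ne
  have h1 : ∫ _ in ball (0 : ℂ) 10, (1 : ℝ) ^ 2 = 100 * π := by simp [vol_ball]
  refine le_trans (csInf_le ⟨_, lb measurableSet_ball Subset.rfl⟩ (Or.inr ⟨fun _ => 1,
    memLp_const _, by rw [h1]; positivity, rfl⟩)) ?_
  have hL : Measurable fun p : ℂ × ℂ => Real.log (1 / ‖p.1 - p.2‖) := by fun_prop
  have hb : ∀ x ∈ ball (0 : ℂ) 10, ∀ᵐ y ∂volume.restrict (ball (0 : ℂ) 10),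
      ‖Real.log (1 / ‖x - y‖)‖ ≤ g ‖x - y‖ + 20 := fun x hx => by
    filter_upwards [ae_restrict_mem measurableSet_ball] with y hy
    exact log_le (norm_nonneg _) (lt20 hx hy)
  have hk : ∀ x : ℂ, Integrable (fun y => g ‖x - y‖ + 20) (volume.restrict (ball (0 : ℂ) 10)) :=
    fun x => (g_set _ x).1.add (integrable_const _)
  have h2 : ∀ x ∈ ball (0 : ℂ) 10,
      ∫ y in ball (0 : ℂ) 10, Real.log (1 / ‖x - y‖) ≤ -(60 * π) := fun x hx => by
    have h3 : ∫ y in ball (0 : ℂ) 10, Real.log (1 / ‖x - y‖) ≤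
        ∫ y in ball (0 : ℂ) 10, (g ‖x - y‖ - 1) := by
      refine integral_mono_ae ((hk x).mono' (Measurable.aestronglyMeasurable (by fun_prop))
        (hb x hx))
        ((g_set _ x).1.sub (integrable_const _)) ?_
      filter_upwards [ae_restrict_mem measurableSet_ball,
        ae_restrict_of_ae ((countable_singleton x).ae_notMem volume)] with y hy hyx
      have h4 : 0 < ‖x - y‖ := norm_pos_iff.mpr (sub_ne_zero.mpr fun h => hyx h.symm)
      have e : g ‖x - y‖ = ‖x - y‖⁻¹ := indicator_of_mem (mem_Iio.mpr (lt20 hx hy)) _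
      rw [e, one_div]
      exact Real.log_le_sub_one_of_pos (inv_pos.mpr h4)
    rw [integral_sub (g_set _ x).1 (integrable_const _)] at h3
    have := (g_set (ball (0 : ℂ) 10) x).2
    simp only [integral_const, measureReal_restrict_apply_univ, vol_ball, smul_eq_mul] at h3
    linarith
  have h5 : IntegrableOn (fun x : ℂ => ∫ y in ball (0 : ℂ) 10, Real.log (1 / ‖x - y‖))
      (ball 0 10) := by
    refine (integrable_const (40 * π + 20 * (100 * π))).mono'
      (hL.stronglyMeasurable.integral_prod_right').aestronglyMeasurable ?_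
    filter_upwards [ae_restrict_mem measurableSet_ball] with x hx
    refine (norm_integral_le_of_norm_le (hk x) (hb x hx)).trans ?_
    rw [integral_add (g_set _ x).1 (integrable_const _)]
    have := (g_set (ball (0 : ℂ) 10) x).2
    simp only [integral_const, measureReal_restrict_apply_univ, vol_ball, smul_eq_mul]
    linarith
  have h6 := setIntegral_mono_on h5 (integrable_const (-(60 * π))) measurableSet_ball h2
  simp only [integral_const, measureReal_restrict_apply_univ, vol_ball, smul_eq_mul] at h6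
  rw [h1, div_le_iff₀ (by positivity)]
  simp only [form, mul_one]
  linarith

/-- thin annulus. -/
def An : Set ℂ := ball 0 10 \ closedBall 0 9.96

lemma An_open : IsOpen An := isOpen_ball.sdiff isClosed_closedBall

lemma tau_An : -(60 * π) < tau An := by
  have hπ := Real.pi_pos
  have h1 : volume.real An = 100 * π - 9.96 ^ 2 * π := by
    rw [An, measureReal_sdiff (closedBall_subset_ball (by norm_num)) measurableSet_closedBall
      measure_ball_lt_top.ne, vol_ball]
    congr 1
    simp [Measure.real]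
    rw [ENNReal.toReal_ofReal (by norm_num)]
  refine lt_of_lt_of_le ?_ (le_csInf ⟨0, Or.inl rfl⟩ (lb An_open.measurableSet sdiff_subset))
  rw [h1]; nlinarith

lemma An_conn : IsConnected An := by
  have : An = (fun p : ℝ × ℝ => (p.1 : ℂ) * Complex.exp (p.2 * Complex.I)) ''
      (Ioo 9.96 10 ×ˢ univ) := by
    ext z
    simp only [An, Set.mem_sdiff, mem_ball_zero_iff, mem_closedBall_zero_iff, not_le]
    constructor
    · exact fun h => ⟨(‖z‖, z.arg), ⟨⟨h.2, h.1⟩, trivial⟩, Complex.norm_mul_exp_arg_mul_I z⟩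
    · rintro ⟨⟨r, t⟩, ⟨⟨h1, h2⟩, -⟩, rfl⟩
      have h3 : 0 ≤ r := by simp only at h1; linarith
      simp only [norm_mul, Complex.norm_exp_ofReal_mul_I, mul_one, Complex.norm_real,
        Real.norm_eq_abs, abs_of_nonneg h3]
      exact ⟨h2, h1⟩
  rw [this]
  exact ((isConnected_Ioo (by norm_num)).prod isConnected_univ).image _ (by fun_prop)

lemma push {n : ℕ} (s : Finset (Fin n)) (z : Fin n → ℂ) (hz : ∀ i, z i ∈ closedBall (0 : ℂ) 10) :
    ∃ w : Fin n → ℂ, (∀ i, w i ∈ closedBall (0 : ℂ) 10) ∧ (∀ i ∈ s, w i ∈ sphere (0 : ℂ) 10) ∧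
      ‖∏ i, ∏ j ∈ Finset.Ioi i, (z i - z j)‖ ≤ ‖∏ i, ∏ j ∈ Finset.Ioi i, (w i - w j)‖ := by
  induction s using Finset.induction_on with
  | empty => exact ⟨z, hz, by simp, le_rfl⟩
  | insert a s ha ih =>
    obtain ⟨w, h1, h2, h3⟩ := ih
    have hd : ∀ b, Differentiable ℂ fun t => Function.update w a t b := fun b => by
      by_cases h : b = a
      · subst h; simp
      · simp [Function.update_of_ne h]
    have hf : Differentiable ℂ fun t => ∏ i, ∏ j ∈ Finset.Ioi i,
        (Function.update w a t i - Function.update w a t j) := by fun_prop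
    obtain ⟨t, ht, hmax⟩ := Complex.exists_mem_frontier_isMaxOn_norm
      (isBounded_ball (x := (0 : ℂ)) (r := 10)) ⟨0, by simp⟩ hf.diffContOnCl
    rw [frontier_ball _ (by norm_num)] at ht
    rw [closure_ball _ (by norm_num)] at hmax
    refine ⟨Function.update w a t, fun i => ?_, fun i hi => ?_, h3.trans ?_⟩
    · by_cases h : i = a
      · subst h; simpa using ht.le
      · rw [Function.update_of_ne h]; exact h1 i
    · by_cases h : i = a
      · subst h; simpa using ht
      · rw [Function.update_of_ne h]; exact h2 i ((Finset.mem_insert.mp hi).resolve_left h)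
    · have := hmax (h1 a)
      simpa only [mem_ofPred_eq, Function.comp, Function.update_eq_self] using this

lemma delta_eq (n : ℕ) : delta (closure An) n = delta (closure (ball 0 10)) n := by
  refine csSup_eq_csSup_of_forall_exists_le ?_ ?_
  · rintro _ ⟨z, hz, rfl⟩
    exact ⟨_, ⟨z, fun i => closure_mono sdiff_subset (hz i), rfl⟩, le_rfl⟩
  · rintro _ ⟨z, hz, rfl⟩
    rw [closure_ball _ (by norm_num)] at hz
    obtain ⟨w, h1, h2, h3⟩ := push Finset.univ z hz
    refine ⟨_, ⟨w, fun i => ?_, rfl⟩, Real.rpow_le_rpow (by positivity)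
      (by simpa only [norm_prod] using h3) ?_⟩
    · refine isClosed_closedBall.isOpen_compl.closure_inter ⟨?_, ?_⟩
      · rw [closure_ball _ (by norm_num)]; exact h1 i
      · have := mem_sphere_zero_iff_norm.mp (h2 i (Finset.mem_univ _))
        simp only [mem_compl_iff, mem_closedBall_zero_iff, this]; norm_num
    · rcases n with _ | n
      · simp
      · push_cast
        rw [add_sub_cancel_right]; positivity

end

end Pool.Agent.H58.Lg
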