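import Mathlib

set_option autoImplicit false

namespace Pool.Agent.H58.Lg

open MeasureTheory Filter

noncomputable section

/-- The quadratic form `⟨L_Ω u, u⟩` of the logarithmic potential operator. -/
def form (Ω : Set ℂ) (u : ℂ → ℝ) : ℝ :=
  ∫ x in Ω, (∫ y in Ω, Real.log (1 / ‖x - y‖) * u y) * u x

/-- The minimum of `0` and the bottom of the spectrum of `L_Ω` (Rayleigh quotient on `L²(Ω)`). -/
def tau (Ω : Set ℂ) : ℝ :=
  sInf ({0} ∪ {q : ℝ | ∃ u : ℂ → ℝ, MemLp u 2 (volume.restrict Ω) ∧ 0 < ∫ x in Ω, u x ^ 2 ∧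
    q = form Ω u / ∫ x in Ω, u x ^ 2})

/-- The `n`-th diameter. -/
def delta (E : Set ℂ) (n : ℕ) : ℝ :=
  sSup {d : ℝ | ∃ z : Fin n → ℂ, (∀ i, z i ∈ E) ∧
    d = (∏ i, ∏ j ∈ Finset.Ioi i, ‖z i - z j‖) ^ ((2 : ℝ) / ((n : ℝ) * ((n : ℝ) - 1)))}

/-- Transfinite diameter. -/
def tdiam (E : Set ℂ) : ℝ := limUnder atTop (delta E)

end

end Pool.Agent.H58.Lg
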