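import Pool.Agent.H58.NijDefs

namespace Pool.Agent.H58.Nij
open VectorField Filter Topology Set
open scoped ContDiff

variable {V W : Type} [NormedAddCommGroup V] [NormedSpace ℝ V] [NormedAddCommGroup W]
  [NormedSpace ℝ W]

/-- the torsion vanishes at the point `x`. -/
def TZ (L : V → V →L[ℝ] V) (x : V) : Prop := ∀ v w,
  fderiv ℝ L x (L x v) w - fderiv ℝ L x (L x w) v - L x (fderiv ℝ L x v w - fderiv ℝ L x w v) = 0

lemma nij_of_TZ {L : V → V →L[ℝ] V} (hL : ContDiff ℝ ∞ L) (h : ∀ x, TZ L x) : IsNijenhuis L := by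
  intro v w hv hw x
  have dL := (hL.differentiable (by simp) x).hasFDerivAt
  have dv := (hv.differentiable (by simp) x).hasFDerivAt
  have dw := (hw.differentiable (by simp) x).hasFDerivAt
  simp only [lieBracket, (dL.clm_apply dv).fderiv, (dL.clm_apply dw).fderiv]
  have := h x (v x) (w x)
  simp only [_root_.add_apply, ContinuousLinearMap.comp_apply,
    ContinuousLinearMap.flip_apply, map_add, map_sub] at this ⊢
  rw [← this]
  abel

lemma TZ.congr {L L' : V → V →L[ℝ] V} {x : V} (h : TZ L x) (e : L' =ᶠ[𝓝 x] L) : TZ L' x := by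
  intro v w
  rw [e.fderiv_eq, e.eq_of_nhds]
  exact h v w

lemma TZ_zero {L : V → V →L[ℝ] V} {x : V} (h : L x = 0) : TZ L x := by
  intro v w
  simp [h]

lemma TZ_const (A : V →L[ℝ] V) (x : V) : TZ (fun _ => A) x := by
  intro v w
  simp

lemma lift_key {u : W → V} {H : W → V →L[ℝ] W} {z : W} (hu : ContDiffAt ℝ 2 u z)
    (hH : DifferentiableAt ℝ H z) (hid : ∀ᶠ y in 𝓝 z, ∀ a, fderiv ℝ u y (H y a) = a) (v : W) (c : V) :
    fderiv ℝ u z (fderiv ℝ H z v c) = -fderiv ℝ (fderiv ℝ u) z v (H z c) := by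
  have d1 : HasFDerivAt (fderiv ℝ u) (fderiv ℝ (fderiv ℝ u) z) z :=
    ((hu.fderiv_right (m := 1) le_rfl).differentiableAt (by simp)).hasFDerivAt
  have d2 := d1.clm_apply (hH.hasFDerivAt.clm_apply (hasFDerivAt_const c z))
  have d3 : HasFDerivAt (fun y => fderiv ℝ u y (H y c)) (0 : W →L[ℝ] V) z :=
    (hasFDerivAt_const c z).congr_of_eventuallyEq (hid.mono fun y hy => hy c)
  have := congrArg (fun f : W →L[ℝ] V => f v) (d2.unique d3)
  simp only [_root_.add_apply, ContinuousLinearMap.comp_apply,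
    ContinuousLinearMap.flip_apply, _root_.zero_apply, map_zero, zero_add] at this
  exact eq_neg_of_add_eq_zero_left this

lemma comm_of_inj {u : W → V} {H : W → V →L[ℝ] W} {z : W} (hu : ContDiffAt ℝ 2 u z)
    (hH : DifferentiableAt ℝ H z) (hid : ∀ᶠ y in 𝓝 z, ∀ a, fderiv ℝ u y (H y a) = a)
    (hi : Function.Injective (fderiv ℝ u z)) (a b : V) :
    fderiv ℝ H z (H z a) b = fderiv ℝ H z (H z b) a := by
  apply hi
  rw [lift_key hu hH hid, lift_key hu hH hid, (hu.isSymmSndFDerivAt (by simp)).eq]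

lemma lift {u : W → V} {H : W → V →L[ℝ] W} {M : V → V →L[ℝ] V} {z : W} (hu : ContDiffAt ℝ 2 u z)
    (hH : DifferentiableAt ℝ H z) (hM : DifferentiableAt ℝ M (u z))
    (hid : ∀ᶠ y in 𝓝 z, ∀ a, fderiv ℝ u y (H y a) = a)
    (hc : ∀ a b, fderiv ℝ H z (H z a) b = fderiv ℝ H z (H z b) a) (hT : TZ M (u z)) :
    TZ (fun y => H y ∘L M (u y) ∘L fderiv ℝ u y) z := by
  intro v w
  have d1 : HasFDerivAt (fderiv ℝ u) (fderiv ℝ (fderiv ℝ u) z) z :=
    ((hu.fderiv_right (m := 1) le_rfl).differentiableAt (by simp)).hasFDerivAt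
  have d0 := (hu.differentiableAt (by simp)).hasFDerivAt
  have d2 := hH.hasFDerivAt.clm_comp ((hM.hasFDerivAt.comp z d0).clm_comp d1)
  have e : ∀ p q, fderiv ℝ (fun y => H y ∘L M (u y) ∘L fderiv ℝ u y) z p q =
      H z (M (u z) (fderiv ℝ (fderiv ℝ u) z p q) + fderiv ℝ M (u z) (fderiv ℝ u z p)
        (fderiv ℝ u z q)) + fderiv ℝ H z p (M (u z) (fderiv ℝ u z q)) := by
    intro p q
    erw [d2.fderiv]
    simp
  have k := lift_key hu hH hid
  have s := (hu.isSymmSndFDerivAt (by simp)).eq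
  have i := hid.self_of_nhds
  have t := congrArg (H z) (hT (fderiv ℝ u z v) (fderiv ℝ u z w))
  simp only [e, ContinuousLinearMap.comp_apply, map_add, map_sub, map_neg, map_zero, i, k] at t ⊢
  rw [hc (M (u z) (fderiv ℝ u z v)), s v w, s v (H z _), s w (H z _), ← t]
  abel

lemma TZ_prod {L : V → V →L[ℝ] V} {M : W → W →L[ℝ] W} {z : V × W}
    (hL : DifferentiableAt ℝ L z.1) (hM : DifferentiableAt ℝ M z.2) (h1 : TZ L z.1)
    (h2 : TZ M z.2) : TZ (fun y : V × W => (L y.1).prodMap (M y.2)) z := by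
  intro v w
  have d := (ContinuousLinearMap.prodMapL ℝ V V W W).hasFDerivAt.comp z
    ((hL.hasFDerivAt.comp z hasFDerivAt_fst).prodMk (hM.hasFDerivAt.comp z hasFDerivAt_snd))
  have e : ∀ p q, fderiv ℝ (fun y : V × W => (L y.1).prodMap (M y.2)) z p q =
      (fderiv ℝ L z.1 p.1 q.1, fderiv ℝ M z.2 p.2 q.2) := by
    intro p q
    erw [d.fderiv]
    rfl
  simp only [e]
  exact Prod.ext (h1 v.1 w.1) (h2 v.2 w.2)

/-- realisability of the operator `A`. -/
def Real' (A : V →L[ℝ] V) : Prop := ∃ L : V → V →L[ℝ] V, ContDiff ℝ ∞ L ∧ HasCompactSupport L ∧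
  (∀ x, TZ L x) ∧ ∃ x₀, ∀ᶠ x in 𝓝 x₀, ∃ P : V ≃L[ℝ] V, ∀ v, P (L x v) = A (P v)

lemma Real'.equiv {A : V →L[ℝ] V} {B : W →L[ℝ] W} (e : W ≃L[ℝ] V) (h : ∀ w, e (B w) = A (e w))
    (hA : Real' A) : Real' B := by
  obtain ⟨L, h1, h2, h3, x₀, h4⟩ := hA
  refine ⟨fun y => (e.symm : V →L[ℝ] W) ∘L L (e y) ∘L (e : W →L[ℝ] V), ?_, ?_, fun z => ?_,
    e.symm x₀, ?_⟩
  · exact contDiff_const.clm_comp ((h1.comp e.contDiff).clm_comp contDiff_const)
  · exact (h2.comp_homeomorph e.toHomeomorph).mono fun y hy h0 => hy (by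
      simp only [Function.comp_apply, ContinuousLinearEquiv.coe_toHomeomorph] at h0
      simp [h0])
  · have := lift (u := e) (H := fun _ => (e.symm : V →L[ℝ] W)) (M := L) (z := z)
      e.contDiff.contDiffAt (differentiableAt_const _) (h1.differentiable (by simp) _)
      (Eventually.of_forall fun y a => by simp [e.fderiv]) (by simp) (h3 _)
    simpa only [e.fderiv] using this
  · have : Tendsto e (𝓝 (e.symm x₀)) (𝓝 x₀) := by simpa using e.continuous.tendsto (e.symm x₀)
    filter_upwards [this.eventually h4] with y ⟨P, hP⟩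
    refine ⟨(e.trans P).trans e.symm, fun v => e.injective ?_⟩
    simp [hP, h]

lemma Real'.shift [FiniteDimensional ℝ V] {A : V →L[ℝ] V} (hA : Real' A) (c : ℝ) :
    Real' (A + c • ContinuousLinearMap.id ℝ V) := by
  obtain ⟨L, h1, h2, h3, x₀, h4⟩ := hA
  obtain ⟨R, hR0, hR⟩ := (h2.isCompact.insert x₀).isBounded.subset_ball_lt 0 (0 : V)
  let f : ContDiffBump (0 : V) := ⟨R, R + 1, hR0, by linarith⟩
  have hf : ∀ x ∈ Metric.ball (0 : V) R, ∀ᶠ y in 𝓝 x, f y = 1 := fun x hx => by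
    filter_upwards [Metric.isOpen_ball.mem_nhds hx] with y hy
    exact f.one_of_mem_closedBall (Metric.ball_subset_closedBall hy)
  refine ⟨fun y => L y + (c * f y) • ContinuousLinearMap.id ℝ V,
    h1.add ((contDiff_const.mul f.contDiff).smul contDiff_const),
    h2.add (f.hasCompactSupport.mono fun y hy h0 => hy (by simp [h0])), fun x => ?_, x₀, ?_⟩
  · by_cases hx : x ∈ tsupport L
    · refine TZ.congr (L := fun y => L y + c • ContinuousLinearMap.id ℝ V) (fun v w => ?_) ?_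
      · have := h3 x v w
        simp only [fderiv_add_const, _root_.add_apply, _root_.smul_apply,
          ContinuousLinearMap.id_apply, map_add, map_smul, smul_sub]
        rw [← this]
        abel
      · filter_upwards [hf x (hR (mem_insert_of_mem _ hx))] with y hy
        simp [hy]
    · refine TZ.congr (L := fun y => (c * f y) • ContinuousLinearMap.id ℝ V) (fun v w => ?_) ?_
      · have d := ((f.contDiff (n := 1)).differentiable (by simp) x).hasFDerivAt.const_mul c
        rw [(d.smul_const (ContinuousLinearMap.id ℝ V)).fderiv]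
        simp only [ContinuousLinearMap.smulRight_apply, _root_.smul_apply,
          ContinuousLinearMap.id_apply, map_smul, smul_sub, smul_smul, smul_eq_mul]
        abel
      · filter_upwards [notMem_tsupport_iff_eventuallyEq.1 hx] with y hy
        simp [hy]
  · filter_upwards [h4, hf x₀ (hR (mem_insert _ _))] with y ⟨P, hP⟩ hy
    exact ⟨P, fun v => by simp [hP, hy]⟩

end Pool.Agent.H58.Nij
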