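import Pool.Agent.H58.Nij1

namespace Pool.Agent.H58.Nij
open VectorField Filter Topology Set
open scoped ContDiff

lemma two_le : (2 : WithTop ℕ∞) ≤ ∞ := WithTop.coe_le_coe.2 (le_top : (2 : ℕ∞) ≤ ⊤)

noncomputable def ψ (R s : ℝ) : ℝ := (s - R) * expNegInvGlue (s - R)

lemma ψ_cd (R : ℝ) : ContDiff ℝ ∞ (ψ R) :=
  (contDiff_id.sub contDiff_const).mul (expNegInvGlue.contDiff.comp (contDiff_id.sub contDiff_const))

lemma ψ_zero {R s : ℝ} (h : s ≤ R) : ψ R s = 0 := by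
  rw [ψ, expNegInvGlue.zero_of_nonpos (by linarith), mul_zero]

lemma ψ_nonneg (R s : ℝ) : 0 ≤ ψ R s := by
  rcases le_total s R with h | h
  · rw [ψ_zero h]
  · exact mul_nonneg (by linarith) (expNegInvGlue.nonneg _)

lemma ψ'_zero {R s : ℝ} (h : s < R) : deriv (ψ R) s = 0 := by
  have : ψ R =ᶠ[𝓝 s] fun _ => 0 := (Iio_mem_nhds h : Iio R ∈ 𝓝 s) |> fun h' => by
    filter_upwards [h'] with x hx using ψ_zero (le_of_lt hx)
  rw [this.deriv_eq, deriv_const]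

lemma ψ'_pos {R s : ℝ} (h : R < s) : 0 < deriv (ψ R) s := by
  have h0 : 0 < s - R := by linarith
  have : ψ R =ᶠ[𝓝 s] fun s => (s - R) * Real.exp (-(s - R)⁻¹) := by
    filter_upwards [Ioi_mem_nhds h] with x hx
    rw [ψ, expNegInvGlue, if_neg (by simpa using hx)]
  have d := ((hasDerivAt_id' s).sub_const R).fun_mul
    (((hasDerivAt_id' s).sub_const R).fun_inv h0.ne').fun_neg.exp
  rw [this.deriv_eq, d.deriv, neg_div, neg_neg]
  positivity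

lemma ψ_ge {R s C : ℝ} (h : ψ R s ≤ C) : s ≤ R + 1 + 3 * |C| := by
  by_contra hc
  push Not at hc
  have h1 : 1 ≤ s - R := by linarith [abs_nonneg C]
  have h2 : 1 / 3 ≤ expNegInvGlue (s - R) := by
    rw [expNegInvGlue, if_neg (by linarith)]
    refine le_trans ?_ (Real.exp_le_exp.2 (neg_le_neg (inv_le_one_of_one_le₀ h1)))
    rw [Real.exp_neg, one_div]
    exact inv_anti₀ (Real.exp_pos 1) (by linarith [Real.exp_one_lt_d9])
  unfold ψ at h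
  nlinarith [le_abs_self C]

variable {V W Z : Type} [NormedAddCommGroup V] [NormedSpace ℝ V] [NormedAddCommGroup W]
  [NormedSpace ℝ W] [NormedAddCommGroup Z] [NormedSpace ℝ Z] [FiniteDimensional ℝ W]

noncomputable def q (y : W) : ℝ := ‖toEuclidean y‖ ^ 2

lemma q_cd : ContDiff ℝ ∞ (q : W → ℝ) := (contDiff_norm_sq ℝ).comp toEuclidean.contDiff

lemma q_euler (y : W) : fderiv ℝ q y y = 2 * q y := by
  have := ((hasStrictFDerivAt_norm_sq (toEuclidean y)).hasFDerivAt.comp y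
    (toEuclidean (E := W)).hasFDerivAt).fderiv
  erw [this]
  simp [q]

structure Split (V W Z : Type) [NormedAddCommGroup V] [NormedSpace ℝ V] [NormedAddCommGroup W]
    [NormedSpace ℝ W] [NormedAddCommGroup Z] [NormedSpace ℝ Z] where
  p1 : Z →L[ℝ] V
  p2 : Z →L[ℝ] W
  i1 : V →L[ℝ] Z
  i2 : W →L[ℝ] Z
  ℓ : V →L[ℝ] ℝ
  e : V
  R : ℝ
  h11 : ∀ v, p1 (i1 v) = v
  h21 : ∀ v, p2 (i1 v) = 0
  h12 : ∀ v, p1 (i2 v) = 0
  h22 : ∀ v, p2 (i2 v) = v
  hz : ∀ z, i1 (p1 z) + i2 (p2 z) = z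
  he : ℓ e = 1
  hR : 0 < R

namespace Split
variable (s : Split V W Z)

noncomputable def U (z : Z) : ℝ := s.ℓ (s.p1 z) ^ 2 + ψ s.R (q (s.p2 z))
noncomputable def u (z : Z) : V := s.p1 z + (s.U z - s.ℓ (s.p1 z)) • s.e
noncomputable def β (y : W) : ℝ := deriv (ψ s.R) (q y)
noncomputable def den (p : ℝ × W) : ℝ := 2 * p.1 ^ 2 + 2 * s.β p.2 ^ 2 * q p.2
noncomputable def Y (p : ℝ × W) : Z := (s.den p)⁻¹ • (p.1 • s.i1 s.e + s.β p.2 • s.i2 p.2)
noncomputable def pr : Z →L[ℝ] ℝ × W := (s.ℓ ∘L s.p1).prod s.p2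
noncomputable def H (z : Z) : V →L[ℝ] Z :=
  s.i1 ∘L (ContinuousLinearMap.id ℝ V - s.ℓ.smulRight s.e) + s.ℓ.smulRight (s.Y (s.pr z))

lemma U_cd : ContDiff ℝ ∞ s.U :=
  ((s.ℓ.contDiff.comp s.p1.contDiff).pow 2).add ((ψ_cd _).comp (q_cd.comp s.p2.contDiff))

lemma u_cd : ContDiff ℝ ∞ s.u :=
  s.p1.contDiff.add ((s.U_cd.sub (s.ℓ.contDiff.comp s.p1.contDiff)).smul contDiff_const)

lemma ℓu (z : Z) : s.ℓ (s.u z) = s.U z := by simp [u, s.he]

lemma du (z v : Z) : fderiv ℝ s.u z v = s.p1 v + (2 * s.ℓ (s.p1 z) * s.ℓ (s.p1 v) +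
    s.β (s.p2 z) * fderiv ℝ q (s.p2 z) (s.p2 v) - s.ℓ (s.p1 v)) • s.e := by
  have d1 := s.ℓ.hasFDerivAt.comp z s.p1.hasFDerivAt
  have d2 := ((ψ_cd s.R).differentiable (by simp) (q (s.p2 z))).hasDerivAt.comp_hasFDerivAt z
    ((q_cd.differentiable (by simp) (s.p2 z)).hasFDerivAt.comp z s.p2.hasFDerivAt)
  have d3 := s.p1.hasFDerivAt.add ((((d1.pow 2).add d2).sub d1).smul_const s.e)
  erw [d3.fderiv]
  simp [β]

lemma den_pos {z : Z} (h : 0 < s.U z) : 0 < s.den (s.pr z) := by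
  have h0 : 0 ≤ q (s.p2 z) := sq_nonneg _
  show 0 < 2 * s.ℓ (s.p1 z) ^ 2 + 2 * s.β (s.p2 z) ^ 2 * q (s.p2 z)
  rcases le_or_gt (q (s.p2 z)) s.R with h1 | h1
  · rw [U, ψ_zero h1, add_zero] at h
    positivity
  · have h2 : 0 < s.β (s.p2 z) := ψ'_pos h1
    have h3 := s.hR.trans h1
    positivity

lemma Y_cd {p : ℝ × W} (h : 0 < s.den p) : ContDiffAt ℝ ∞ s.Y p := by
  have hβ : ContDiff ℝ ∞ fun p : ℝ × W => s.β p.2 :=
    ((ψ_cd s.R).iterate_deriv 1).comp (q_cd.comp contDiff_snd)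
  have hd : ContDiff ℝ ∞ s.den := (contDiff_const.mul (contDiff_fst.pow 2)).add
    ((contDiff_const.mul (hβ.pow 2)).mul (q_cd.comp contDiff_snd))
  exact (hd.contDiffAt.inv h.ne').smul ((contDiff_fst.smul contDiff_const).add
    (hβ.smul (s.i2.contDiff.comp contDiff_snd))).contDiffAt

lemma H_cd {z : Z} (h : 0 < s.U z) : ContDiffAt ℝ ∞ s.H z :=
  contDiffAt_const.add ((ContinuousLinearMap.smulRightL ℝ V Z s.ℓ).contDiff.contDiffAt.comp z
    ((s.Y_cd (s.den_pos h)).comp z s.pr.contDiff.contDiffAt))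

lemma hid {z : Z} (h : 0 < s.U z) (a : V) : fderiv ℝ s.u z (s.H z a) = a := by
  have h1 := (s.den_pos h).ne'
  have e : (s.den (s.pr z))⁻¹ * (2 * s.ℓ (s.p1 z) ^ 2 + 2 * s.β (s.p2 z) ^ 2 * q (s.p2 z)) = 1 :=
    inv_mul_cancel₀ h1
  simp only [du, H, Y, pr, _root_.add_apply, ContinuousLinearMap.comp_apply, _root_.sub_apply,
    ContinuousLinearMap.id_apply, ContinuousLinearMap.smulRight_apply, map_add, map_sub, map_smul,
    s.h11, s.h12, s.h21, s.h22, s.he, ContinuousLinearMap.prod_apply, smul_zero, add_zero, zero_add,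
    sub_zero, q_euler, smul_eq_mul, mul_one, sub_self, map_zero] at e ⊢
  linear_combination (norm := module) (s.ℓ a * e) • s.e

lemma hev {z : Z} (h : 0 < s.U z) : ∀ᶠ y in 𝓝 z, 0 < s.U y :=
  s.U_cd.continuous.continuousAt.eventually (lt_mem_nhds h)

lemma hcomm {z : Z} (h : 0 < s.U z) (a b : V) :
    fderiv ℝ s.H z (s.H z a) b = fderiv ℝ s.H z (s.H z b) a := by
  have d := ((ContinuousLinearMap.smulRightL ℝ V Z s.ℓ).hasFDerivAt.comp z
    (((s.Y_cd (s.den_pos h)).differentiableAt (by simp)).hasFDerivAt.comp z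
      s.pr.hasFDerivAt)).const_add (s.i1 ∘L (ContinuousLinearMap.id ℝ V - s.ℓ.smulRight s.e))
  have e : ∀ a, s.pr (s.H z a) = s.ℓ a • s.pr (s.Y (s.pr z)) := fun a => by
    simp [H, pr, s.h11, s.h21, s.he]
  erw [d.fderiv]
  simp only [ContinuousLinearMap.comp_apply, e, map_smul, ContinuousLinearMap.smulRightL_apply_apply,
    _root_.smul_apply, ContinuousLinearMap.smulRight_apply, smul_smul, mul_comm]

noncomputable def lf (L : V → V →L[ℝ] V) (z : Z) : Z →L[ℝ] Z := s.H z ∘L L (s.u z) ∘L fderiv ℝ s.u z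

variable {L : V → V →L[ℝ] V}

lemma lf_ev {z : Z} (h : s.u z ∉ tsupport L) : s.lf L =ᶠ[𝓝 z] fun _ => 0 := by
  filter_upwards [s.u_cd.continuous.continuousAt.eventually
    (notMem_tsupport_iff_eventuallyEq.1 h)] with y hy
  simp [lf, hy]

lemma lf_cd (hL : ContDiff ℝ ∞ L) (hp : ∀ x ∈ tsupport L, 0 < s.ℓ x) : ContDiff ℝ ∞ (s.lf L) := by
  refine contDiff_iff_contDiffAt.2 fun z => ?_
  by_cases h : s.u z ∈ tsupport L
  · exact (s.H_cd (s.ℓu z ▸ hp _ h)).clm_comp ((hL.comp s.u_cd).contDiffAt.clm_comp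
      (s.u_cd.fderiv_right (m := ∞) le_rfl).contDiffAt)
  · exact contDiffAt_const.congr_of_eventuallyEq (s.lf_ev h)

lemma lf_TZ (hL : ContDiff ℝ ∞ L) (hp : ∀ x ∈ tsupport L, 0 < s.ℓ x) (hT : ∀ x, TZ L x) (z : Z) :
    TZ (s.lf L) z := by
  by_cases h : s.u z ∈ tsupport L
  · have h0 : 0 < s.U z := s.ℓu z ▸ hp _ h
    exact lift (s.u_cd.contDiffAt.of_le two_le) ((s.H_cd h0).differentiableAt (by simp))
      (hL.differentiable (by simp) _) ((s.hev h0).mono fun y hy => s.hid hy) (s.hcomm h0) (hT _)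
  · exact TZ_zero (s.lf_ev h).eq_of_nhds

/-- the compact set that contains the first projection of the support. -/
def B (ℓ : V →L[ℝ] ℝ) (e : V) (K : Set V) (C : ℝ) : Set V :=
  (fun p : V × ℝ => p.1 + (p.2 - ℓ p.1) • e) '' K ×ˢ Icc (-(C + 1)) (C + 1)

omit [FiniteDimensional ℝ W] in
lemma B_cpt (ℓ : V →L[ℝ] ℝ) (e : V) {K : Set V} (hK : IsCompact K) (C : ℝ) :
    IsCompact (B ℓ e K C) := (hK.prod isCompact_Icc).image (by fun_prop)

lemma mem_B {K : Set V} {C : ℝ} (hC : ∀ x ∈ K, s.ℓ x ≤ C) {z : Z} (h : s.u z ∈ K) :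
    s.p1 z ∈ B s.ℓ s.e K C := by
  have h1 := hC _ h
  rw [ℓu, U] at h1
  have h2 := ψ_nonneg s.R (q (s.p2 z))
  refine ⟨(s.u z, s.ℓ (s.p1 z)), ⟨h, ?_, ?_⟩, ?_⟩
  · show -(C + 1) ≤ s.ℓ (s.p1 z)
    nlinarith [sq_nonneg (s.ℓ (s.p1 z) + 1), sq_nonneg (s.ℓ (s.p1 z))]
  · show s.ℓ (s.p1 z) ≤ C + 1
    nlinarith [sq_nonneg (s.ℓ (s.p1 z) - 1), sq_nonneg (s.ℓ (s.p1 z))]
  · simp only [ℓu]
    rw [u]
    module

lemma lf_cs (hK : HasCompactSupport L) : HasCompactSupport (s.lf L) := by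
  obtain ⟨C, hC⟩ := hK.isCompact.bddAbove_image s.ℓ.continuous.continuousOn
  have hC' : ∀ x ∈ tsupport L, s.ℓ x ≤ C := fun x hx => hC (mem_image_of_mem _ hx)
  have h2 : IsCompact ((toEuclidean (E := W)).symm '' Metric.closedBall 0 (s.R + 2 + 3 * |C|)) :=
    (isCompact_closedBall _ _).image (by fun_prop)
  refine HasCompactSupport.intro (((B_cpt s.ℓ s.e hK.isCompact C).prod h2).image
    (f := fun p => s.i1 p.1 + s.i2 p.2) (by fun_prop)) fun z hz => ?_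
  refine (s.lf_ev fun h => hz ⟨(s.p1 z, s.p2 z), ⟨s.mem_B hC' h, toEuclidean (s.p2 z), ?_,
    by simp⟩, s.hz z⟩).eq_of_nhds
  have h1 := hC' _ h
  rw [ℓu, U] at h1
  have h3 := ψ_ge (R := s.R) (s := q (s.p2 z)) (C := C) (by nlinarith [sq_nonneg (s.ℓ (s.p1 z))])
  rw [mem_closedBall_zero_iff]
  unfold q at h3
  nlinarith [sq_nonneg (‖toEuclidean (s.p2 z)‖ - 1), norm_nonneg (toEuclidean (s.p2 z))]

lemma flat_H {z : Z} (h : q (s.p2 z) < s.R) (a : V) : s.p2 (s.H z a) = 0 := by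
  have : s.β (s.p2 z) = 0 := ψ'_zero h
  simp [H, Y, pr, s.h21, this]

lemma flat_du {z : Z} (h : q (s.p2 z) < s.R) {v : Z} (hv : s.p1 v = 0) : fderiv ℝ s.u z v = 0 := by
  have : s.β (s.p2 z) = 0 := ψ'_zero h
  simp [du, hv, this]

end Split
end Pool.Agent.H58.Nij
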