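import Pool.Agent.H58.Nij2

namespace Pool.Agent.H58.Nij
open VectorField Filter Topology Set
open scoped ContDiff

variable {V W : Type} [NormedAddCommGroup V] [NormedSpace ℝ V] [NormedAddCommGroup W]
  [NormedSpace ℝ W] [FiniteDimensional ℝ V] [FiniteDimensional ℝ W]

omit [FiniteDimensional ℝ V] in
lemma Real'.pos [Nontrivial V] {A : V →L[ℝ] V} (hA : Real' A) : ∃ (ℓ : V →L[ℝ] ℝ) (e : V)
    (L : V → V →L[ℝ] V) (x₀ : V) (C : ℝ), ℓ e = 1 ∧ ContDiff ℝ ∞ L ∧ HasCompactSupport L ∧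
    (∀ x, TZ L x) ∧ (∀ᶠ x in 𝓝 x₀, ∃ P : V ≃L[ℝ] V, ∀ v, P (L x v) = A (P v)) ∧
    ∀ x ∈ insert x₀ (tsupport L), 0 < ℓ x ∧ ℓ x ≤ C := by
  obtain ⟨L, h1, h2, h3, x₀, h4⟩ := hA
  obtain ⟨e, he⟩ := exists_ne (0 : V)
  obtain ⟨ℓ, hℓ⟩ := SeparatingDual.exists_eq_one (R := ℝ) he
  obtain ⟨C, hC⟩ := (h2.isCompact.insert x₀).exists_bound_of_continuousOn ℓ.continuous.continuousOn
  refine ⟨ℓ, e, fun y => L (y - (C + 1) • e), x₀ + (C + 1) • e, 2 * C + 1, hℓ,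
    h1.comp (contDiff_id.sub contDiff_const), h2.comp_homeomorph (Homeomorph.subRight _),
    fun x v w => ?_, ?_, fun x hx => ?_⟩
  · rw [fderiv_comp_sub]
    exact h3 _ v w
  · have : Tendsto (fun y => y - (C + 1) • e) (𝓝 (x₀ + (C + 1) • e)) (𝓝 x₀) := by
      simpa using (continuous_sub_right ((C + 1) • e)).tendsto (x₀ + (C + 1) • e)
    exact this.eventually h4
  · have : x - (C + 1) • e ∈ insert x₀ (tsupport L) := by
      rcases hx with rfl | hx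
      · simp
      · right
        exact (Set.ext_iff.mp (tsupport_comp_eq_preimage L (Homeomorph.subRight ((C + 1) • e)))
          x).mp hx
    have h := abs_le.1 (hC _ this)
    simp only [map_sub, map_smul, hℓ, smul_eq_mul, mul_one] at h
    constructor <;> linarith [h.1, h.2]

lemma Real'.prod [Nontrivial V] [Nontrivial W] {A : V →L[ℝ] V} {B : W →L[ℝ] W} (hA : Real' A)
    (hB : Real' B) : Real' (A.prodMap B) := by
  obtain ⟨ℓ₁, e₁, L₁, x₁, C₁, a0, a1, a2, a3, a4, a5⟩ := hA.pos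
  obtain ⟨ℓ₂, e₂, L₂, x₂, C₂, b0, b1, b2, b3, b4, b5⟩ := hB.pos
  obtain ⟨R₁, hR₁⟩ := (Split.B_cpt ℓ₁ e₁ (a2.isCompact.insert x₁) C₁).exists_bound_of_continuousOn
    (q_cd (W := V)).continuous.continuousOn
  obtain ⟨R₂, hR₂⟩ := (Split.B_cpt ℓ₂ e₂ (b2.isCompact.insert x₂) C₂).exists_bound_of_continuousOn
    (q_cd (W := W)).continuous.continuousOn
  let s : Split V W (V × W) := ⟨.fst ℝ V W, .snd ℝ V W, .inl ℝ V W, .inr ℝ V W, ℓ₁, e₁, |R₂| + 1,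
    fun _ => rfl, fun _ => rfl, fun _ => rfl, fun _ => rfl, fun _ => by simp, a0, by positivity⟩
  let t : Split W V (V × W) := ⟨.snd ℝ V W, .fst ℝ V W, .inr ℝ V W, .inl ℝ V W, ℓ₂, e₂, |R₁| + 1,
    fun _ => rfl, fun _ => rfl, fun _ => rfl, fun _ => rfl, fun _ => by simp, b0, by positivity⟩
  have p1 : ∀ x ∈ tsupport L₁, 0 < s.ℓ x := fun x hx => (a5 x (mem_insert_of_mem _ hx)).1
  have p2 : ∀ x ∈ tsupport L₂, 0 < t.ℓ x := fun x hx => (b5 x (mem_insert_of_mem _ hx)).1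
  let G : Set (V × W) := {z | 0 < s.U z ∧ 0 < t.U z ∧ q (s.p2 z) < s.R ∧ q (t.p2 z) < t.R}
  have hG : IsOpen G := (isOpen_lt continuous_const s.U_cd.continuous).inter
    ((isOpen_lt continuous_const t.U_cd.continuous).inter
      ((isOpen_lt (q_cd.continuous.comp s.p2.continuous) continuous_const).inter
        (isOpen_lt (q_cd.continuous.comp t.p2.continuous) continuous_const)))
  have f1 : ∀ x ∈ Split.B ℓ₁ e₁ (insert x₁ (tsupport L₁)) C₁, q x < |R₁| + 1 := fun x hx => by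
    linarith [le_abs_self R₁, (abs_le.1 (hR₁ x hx)).2]
  have f2 : ∀ x ∈ Split.B ℓ₂ e₂ (insert x₂ (tsupport L₂)) C₂, q x < |R₂| + 1 := fun x hx => by
    linarith [le_abs_self R₂, (abs_le.1 (hR₂ x hx)).2]
  have mG : ∀ z, s.u z ∈ insert x₁ (tsupport L₁) → t.u z ∈ insert x₂ (tsupport L₂) → z ∈ G :=
    fun z h1 h2 => ⟨s.ℓu z ▸ (a5 _ h1).1, t.ℓu z ▸ (b5 _ h2).1,
      f2 _ (t.mem_B (fun x hx => (b5 x hx).2) h2), f1 _ (s.mem_B (fun x hx => (a5 x hx).2) h1)⟩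
  let u : V × W → V × W := fun z => (s.u z, t.u z)
  let H : V × W → V × W →L[ℝ] V × W := fun z => s.H z ∘L .fst ℝ V W + t.H z ∘L .snd ℝ V W
  have hu : ContDiff ℝ ∞ u := s.u_cd.prodMk t.u_cd
  have du : ∀ z v, fderiv ℝ u z v = (fderiv ℝ s.u z v, fderiv ℝ t.u z v) := fun z v => by
    rw [DifferentiableAt.fderiv_prodMk (s.u_cd.differentiable (by simp) z)
      (t.u_cd.differentiable (by simp) z)]
    rfl
  have hid : ∀ z ∈ G, ∀ a, fderiv ℝ u z (H z a) = a := by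
    rintro z ⟨g1, g2, g3, g4⟩ a
    have e1 : fderiv ℝ s.u z (t.H z a.2) = 0 := s.flat_du g3 (t.flat_H g4 _)
    have e2 : fderiv ℝ t.u z (s.H z a.1) = 0 := t.flat_du g4 (s.flat_H g3 _)
    rw [du]
    simp [H, e1, e2, s.hid g1, t.hid g2]
  have hbij : ∀ z ∈ G, Function.Bijective (fderiv ℝ u z) := fun z hz =>
    have h : Function.Surjective (fderiv ℝ u z) := fun a => ⟨_, hid z hz a⟩
    ⟨(LinearMap.injective_iff_surjective (f := (fderiv ℝ u z).toLinearMap)).2 h, h⟩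
  have hL : (fun z => s.lf L₁ z + t.lf L₂ z) =
      fun z => H z ∘L (L₁ (u z).1).prodMap (L₂ (u z).2) ∘L fderiv ℝ u z := by
    funext z
    refine ContinuousLinearMap.ext fun v => ?_
    simp [H, Split.lf, du, u]
  refine ⟨fun z => s.lf L₁ z + t.lf L₂ z, (s.lf_cd a1 p1).add (t.lf_cd b1 p2),
    (s.lf_cs a2).add (t.lf_cs b2), fun z => ?_,
    (x₁ + (√(ℓ₁ x₁) - ℓ₁ x₁) • e₁, x₂ + (√(ℓ₂ x₂) - ℓ₂ x₂) • e₂), ?_⟩
  · by_cases h1 : s.u z ∈ tsupport L₁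
    · by_cases h2 : t.u z ∈ tsupport L₂
      · have hz := mG z (mem_insert_of_mem _ h1) (mem_insert_of_mem _ h2)
        have hH : DifferentiableAt ℝ H z := (((s.H_cd hz.1).clm_comp contDiffAt_const).add
          ((t.H_cd hz.2.1).clm_comp contDiffAt_const)).differentiableAt (by simp)
        have hev : ∀ᶠ y in 𝓝 z, ∀ a, fderiv ℝ u y (H y a) = a := by
          filter_upwards [hG.mem_nhds hz] with y hy using hid y hy
        have d1 := a1.differentiable (by simp) (u z).1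
        have d2 := b1.differentiable (by simp) (u z).2
        rw [hL]
        exact lift (M := fun y : V × W => (L₁ y.1).prodMap (L₂ y.2)) (hu.contDiffAt.of_le two_le) hH
          ((ContinuousLinearMap.prodMapL ℝ V V W W).differentiableAt.comp (u z)
            ((d1.comp (u z) differentiableAt_fst).prodMk (d2.comp (u z) differentiableAt_snd)))
          hev (comm_of_inj (hu.contDiffAt.of_le two_le) hH hev (hbij z hz).1)
          (TZ_prod d1 d2 (a3 _) (b3 _))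
      · refine (s.lf_TZ a1 p1 a3 z).congr ?_
        filter_upwards [t.lf_ev h2] with y hy
        simp [hy]
    · refine (t.lf_TZ b1 p2 b3 z).congr ?_
      filter_upwards [s.lf_ev h1] with y hy
      simp [hy]
  · set z₀ : V × W := (x₁ + (√(ℓ₁ x₁) - ℓ₁ x₁) • e₁, x₂ + (√(ℓ₂ x₂) - ℓ₂ x₂) • e₂) with hz₀
    have r : ∀ a C : ℝ, 0 < a ∧ a ≤ C → √a ∈ Icc (-(C + 1)) (C + 1) := fun a C h =>
      ⟨by linarith [Real.sqrt_nonneg a, h.1, h.2], by
        nlinarith [Real.sq_sqrt h.1.le, sq_nonneg (√a - 1), Real.sqrt_nonneg a, h.2]⟩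
    have m1 := f1 z₀.1 ⟨(x₁, √(ℓ₁ x₁)), ⟨mem_insert _ _, r _ _ (a5 _ (mem_insert _ _))⟩, rfl⟩
    have m2 := f2 z₀.2 ⟨(x₂, √(ℓ₂ x₂)), ⟨mem_insert _ _, r _ _ (b5 _ (mem_insert _ _))⟩, rfl⟩
    have u1 : s.u z₀ = x₁ := by
      have : ψ (|R₂| + 1) (q z₀.2) = 0 := ψ_zero m2.le
      show z₀.1 + (ℓ₁ z₀.1 ^ 2 + ψ (|R₂| + 1) (q z₀.2) - ℓ₁ z₀.1) • e₁ = x₁
      rw [this]
      simp only [hz₀, map_add, map_smul, a0, smul_eq_mul, mul_one, add_sub_cancel,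
        Real.sq_sqrt (a5 _ (mem_insert _ _)).1.le]
      module
    have u2 : t.u z₀ = x₂ := by
      have : ψ (|R₁| + 1) (q z₀.1) = 0 := ψ_zero m1.le
      show z₀.2 + (ℓ₂ z₀.2 ^ 2 + ψ (|R₁| + 1) (q z₀.1) - ℓ₂ z₀.2) • e₂ = x₂
      rw [this]
      simp only [hz₀, map_add, map_smul, b0, smul_eq_mul, mul_one, add_sub_cancel,
        Real.sq_sqrt (b5 _ (mem_insert _ _)).1.le]
      module
    have t1 : Tendsto s.u (𝓝 z₀) (𝓝 x₁) := u1 ▸ s.u_cd.continuous.tendsto z₀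
    have t2 : Tendsto t.u (𝓝 z₀) (𝓝 x₂) := u2 ▸ t.u_cd.continuous.tendsto z₀
    filter_upwards [hG.mem_nhds (mG z₀ (u1 ▸ mem_insert _ _) (u2 ▸ mem_insert _ _)),
      t1.eventually a4, t2.eventually b4] with z hz ⟨P₁, hP₁⟩ ⟨P₂, hP₂⟩
    refine ⟨(LinearEquiv.ofBijective (fderiv ℝ u z).toLinearMap
      (hbij z hz)).toContinuousLinearEquiv.trans (P₁.prodCongr P₂), fun v => ?_⟩
    rw [congrFun hL z]
    simp [hid z hz, u, hP₁, hP₂]

end Pool.Agent.H58.Nij
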