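import Pool.Agent.H58.Nij3

namespace Pool.Agent.H58.Nij
open VectorField Filter Topology Set Matrix
open scoped ContDiff

variable {n : ℕ}

noncomputable def ρ (x : Fin n → ℝ) : ℝ := 1 - ∑ i, x i ^ 2
noncomputable def dρ (x : Fin n → ℝ) : (Fin n → ℝ) →L[ℝ] ℝ :=
  ∑ i, (-2 * x i) • ContinuousLinearMap.proj i
noncomputable def cc (k : Fin n) : ℝ := n - k
noncomputable def S (x : Fin n → ℝ) : ℝ := ρ x ^ 2 + 2 * ∑ i, cc i * x i ^ 2
noncomputable def Ai (x : Fin n → ℝ) : (Fin n → ℝ) →L[ℝ] (Fin n → ℝ) :=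
  ContinuousLinearMap.id ℝ _ + (dρ x).smulRight fun k => cc k * x k / S x
noncomputable def φ (x : Fin n → ℝ) (k : Fin n) : ℝ := x k * Real.exp (cc k / ρ x)
noncomputable def Hn (x : Fin n → ℝ) : (Fin n → ℝ) →L[ℝ] (Fin n → ℝ) :=
  Ai x ∘L ContinuousLinearMap.pi fun k => Real.exp (-(cc k / ρ x)) • ContinuousLinearMap.proj k
noncomputable def Ln (N : Matrix (Fin n) (Fin n) ℝ) (x : Fin n → ℝ) :
    (Fin n → ℝ) →L[ℝ] (Fin n → ℝ) :=
  Ai x ∘L ContinuousLinearMap.pi fun i => ∑ j, (N i j * expNegInvGlue (ρ x) ^ (j - i - 1 : ℕ)) •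
    (expNegInvGlue (ρ x) • ContinuousLinearMap.proj j -
      ((ρ x)⁻¹ ^ 2 * expNegInvGlue (ρ x) * (cc j * x j)) • dρ x)

lemma cc_pos (k : Fin n) : 0 < cc k := sub_pos.2 (by exact_mod_cast k.2)

lemma S_pos (x : Fin n → ℝ) : 0 < S x := by
  have h : ∀ i, 0 ≤ cc i * x i ^ 2 := fun i => mul_nonneg (cc_pos i).le (sq_nonneg _)
  have h0 := Finset.sum_nonneg fun i (_ : i ∈ Finset.univ) => h i
  by_contra hc
  push Not at hc
  unfold S at hc
  have h1 : ρ x = 0 := by nlinarith [sq_nonneg (ρ x)]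
  have h2 : ∑ i, cc i * x i ^ 2 = 0 := by nlinarith [sq_nonneg (ρ x)]
  have h3 : ∀ i, x i ^ 2 = 0 := fun i => (mul_eq_zero.1
    ((Finset.sum_eq_zero_iff_of_nonneg fun i _ => h i).1 h2 i (Finset.mem_univ i))).resolve_left
      (cc_pos i).ne'
  simp [ρ, h3] at h1

lemma dρ_apply (x v : Fin n → ℝ) : dρ x v = ∑ i, -2 * x i * v i := by simp [dρ]

lemma ρ_cd : ContDiff ℝ ∞ (ρ : (Fin n → ℝ) → ℝ) := by unfold ρ; fun_prop

lemma ρ_has (x : Fin n → ℝ) : HasFDerivAt ρ (dρ x) x := by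
  have := (HasFDerivAt.fun_sum (u := Finset.univ)
    fun i _ => (hasFDerivAt_apply (𝕜 := ℝ) i x).pow 2).const_sub 1
  refine this.congr_fderiv (ContinuousLinearMap.ext fun v => ?_)
  simp [dρ_apply]

lemma Ai_cd : ContDiff ℝ ∞ (Ai : (Fin n → ℝ) → _) := by
  have h1 : ContDiff ℝ ∞ (S : (Fin n → ℝ) → ℝ) := by
    have := ρ_cd (n := n)
    unfold S; fun_prop
  refine contDiff_clm_apply_iff.2 fun v => contDiff_pi.2 fun k => ?_
  simp only [Ai, _root_.add_apply, ContinuousLinearMap.id_apply, dρ_apply,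
    ContinuousLinearMap.smulRight_apply, Pi.add_apply, Pi.smul_apply, smul_eq_mul]
  exact contDiff_const.add (ContDiff.mul (by fun_prop)
    (ContDiff.div (by fun_prop) h1 fun x => (S_pos x).ne'))

lemma Ln_cd (N : Matrix (Fin n) (Fin n) ℝ) : ContDiff ℝ ∞ (Ln N) := by
  have h1 : ContDiff ℝ ∞ fun x : Fin n → ℝ => expNegInvGlue (ρ x) :=
    expNegInvGlue.contDiff.comp ρ_cd
  have h2 : ContDiff ℝ ∞ fun x : Fin n → ℝ => (ρ x)⁻¹ ^ 2 * expNegInvGlue (ρ x) := by
    have := (expNegInvGlue.contDiff_polynomial_eval_inv_mul (n := ⊤)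
      (Polynomial.X ^ 2)).comp (ρ_cd (n := n))
    simpa only [Function.comp_def, Polynomial.eval_pow, Polynomial.eval_X] using this
  refine Ai_cd.clm_comp (contDiff_clm_apply_iff.2 fun v => contDiff_pi.2 fun k => ?_)
  simp only [ContinuousLinearMap.pi_apply, _root_.sum_apply, _root_.smul_apply, _root_.sub_apply,
    ContinuousLinearMap.proj_apply, dρ_apply, smul_eq_mul]
  exact ContDiff.sum fun j _ => (contDiff_const.mul (h1.pow _)).mul
    ((h1.mul contDiff_const).sub ((h2.mul (by fun_prop)).mul (by fun_prop)))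

lemma Ln_zero (N : Matrix (Fin n) (Fin n) ℝ) {x : Fin n → ℝ} (h : ρ x ≤ 0) : Ln N x = 0 := by
  refine ContinuousLinearMap.ext fun v => (congrArg (Ai x) (funext fun i => ?_)).trans (map_zero _)
  simp [expNegInvGlue.zero_of_nonpos h]

lemma φ_cd {x : Fin n → ℝ} (h : 0 < ρ x) : ContDiffAt ℝ ∞ φ x :=
  contDiffAt_pi.2 fun k => (contDiffAt_apply ℝ ℝ k x).mul
    (contDiffAt_const.div ρ_cd.contDiffAt h.ne').exp

lemma dφ {x : Fin n → ℝ} (h : 0 < ρ x) (v : Fin n → ℝ) (k : Fin n) : fderiv ℝ φ x v k =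
    Real.exp (cc k / ρ x) * (v k - (ρ x)⁻¹ ^ 2 * (cc k * x k) * dρ x v) := by
  have d := fun k => (hasFDerivAt_apply (𝕜 := ℝ) k x).mul
    (((hasDerivAt_inv h.ne').comp_hasFDerivAt x (ρ_has x)).const_mul (cc k)).exp
  have := (hasFDerivAt_pi.2 d).fderiv
  have e : φ = fun (x : Fin n → ℝ) k => x k * Real.exp (cc k * (ρ x)⁻¹) := by
    funext x k; rw [φ, div_eq_mul_inv]
  rw [e]
  erw [this]
  simp [div_eq_mul_inv]
  ring

lemma Hn_cd {x : Fin n → ℝ} (h : 0 < ρ x) : DifferentiableAt ℝ Hn x := by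
  refine (Ai_cd.differentiable (by simp) x).clm_comp ?_
  have : ContDiffOn ℝ ∞ (fun x : Fin n → ℝ => ContinuousLinearMap.pi fun k =>
      Real.exp (-(cc k / ρ x)) • (ContinuousLinearMap.proj k : (Fin n → ℝ) →L[ℝ] ℝ))
      {x | 0 < ρ x} := by
    refine contDiffOn_clm_apply.2 fun v => contDiffOn_pi.2 fun k => ?_
    simp only [ContinuousLinearMap.pi_apply, _root_.smul_apply, smul_eq_mul]
    exact (contDiffOn_const.div ρ_cd.contDiffOn fun x hx => ne_of_gt hx).neg.exp.mul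
      contDiffOn_const
  exact (this.contDiffAt ((isOpen_lt continuous_const ρ_cd.continuous).mem_nhds h)).differentiableAt
    (by simp)

lemma A_Ai {x : Fin n → ℝ} (h : 0 < ρ x) (a : Fin n → ℝ) (k : Fin n) :
    Ai x a k - (ρ x)⁻¹ ^ 2 * (cc k * x k) * dρ x (Ai x a) = a k := by
  have e : dρ x (fun k => cc k * x k / S x) = (ρ x ^ 2 - S x) / S x := by
    have e0 : ρ x ^ 2 - S x = ∑ i, -2 * (cc i * x i ^ 2) := by
      rw [S, ← Finset.mul_sum]; ring
    rw [dρ_apply, e0, Finset.sum_div]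
    exact Finset.sum_congr rfl fun i _ => by ring
  have := (S_pos x).ne'
  simp only [Ai, _root_.add_apply, ContinuousLinearMap.id_apply, map_add, map_smul, e,
    ContinuousLinearMap.smulRight_apply, Pi.add_apply, Pi.smul_apply, smul_eq_mul]
  field_simp
  ring

lemma φ_id {x : Fin n → ℝ} (h : 0 < ρ x) (a : Fin n → ℝ) : fderiv ℝ φ x (Hn x a) = a := by
  funext k
  rw [dφ h, Hn, ContinuousLinearMap.comp_apply, A_Ai h]
  simp [← mul_assoc, ← Real.exp_add]

lemma Ln_eq {N : Matrix (Fin n) (Fin n) ℝ} (hN : ∀ i j, j ≤ i → N i j = 0) {x : Fin n → ℝ}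
    (h : 0 < ρ x) : Ln N x = Hn x ∘L N.mulVecLin.toContinuousLinearMap ∘L fderiv ℝ φ x := by
  refine ContinuousLinearMap.ext fun v => ?_
  simp only [Ln, Hn, ContinuousLinearMap.comp_apply]
  refine congrArg (Ai x) (funext fun i => ?_)
  simp only [ContinuousLinearMap.pi_apply, _root_.sum_apply, _root_.smul_apply, _root_.sub_apply,
    ContinuousLinearMap.proj_apply, smul_eq_mul, ContinuousLinearMap.comp_apply,
    LinearMap.coe_toContinuousLinearMap', mulVecLin_apply, mulVec, dotProduct, dφ h, Finset.mul_sum]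
  refine Finset.sum_congr rfl fun j _ => ?_
  rcases le_or_gt j i with hj | hj
  · simp [hN i j hj]
  · have e : expNegInvGlue (ρ x) ^ (j - i - 1 : ℕ) * expNegInvGlue (ρ x) =
        Real.exp (-(cc i / ρ x)) * Real.exp (cc j / ρ x) := by
      rw [← pow_succ, expNegInvGlue, if_neg h.not_ge, ← Real.exp_nat_mul, ← Real.exp_add]
      congr 1
      have : ((j - i - 1 + 1 : ℕ) : ℝ) = j - i := by
        rw [← Nat.cast_sub hj.le]
        congr 1
        have : (i : ℕ) < j := hj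
        omega
      rw [this, cc, cc]
      ring
    linear_combination (N i j * (v j - (ρ x)⁻¹ ^ 2 * (cc j * x j) * dρ x v)) * e

lemma real_upper {N : Matrix (Fin n) (Fin n) ℝ} (hN : ∀ i j, j ≤ i → N i j = 0) :
    Real' N.mulVecLin.toContinuousLinearMap := by
  have hev : ∀ {x : Fin n → ℝ}, 0 < ρ x → ∀ᶠ y in 𝓝 x, 0 < ρ y := fun h =>
    ρ_cd.continuous.continuousAt.eventually (lt_mem_nhds h)
  have hbij : ∀ {z : Fin n → ℝ}, 0 < ρ z → Function.Bijective (fderiv ℝ φ z) := fun {z} hz =>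
    have h : Function.Surjective (fderiv ℝ φ z) := fun a => ⟨_, φ_id hz a⟩
    ⟨(LinearMap.injective_iff_surjective (f := (fderiv ℝ φ z).toLinearMap)).2 h, h⟩
  refine ⟨Ln N, Ln_cd N, HasCompactSupport.intro (isCompact_closedBall 0 1) fun x hx => ?_,
    fun x => ?_, 0, ?_⟩
  · refine Ln_zero N (not_lt.1 fun h => hx ?_)
    rw [mem_closedBall_zero_iff, pi_norm_le_iff_of_nonneg zero_le_one]
    intro i
    have := Finset.single_le_sum (f := fun i => x i ^ 2) (fun i _ => sq_nonneg _)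
      (Finset.mem_univ i)
    unfold ρ at h
    exact abs_le_one_iff_mul_self_le_one.2 (by nlinarith)
  · rcases le_or_gt (ρ x) 0 with h | h
    · exact TZ_zero (Ln_zero N h)
    · have h1 := (hev h).mono fun y hy => φ_id hy
      exact (lift (M := fun _ => N.mulVecLin.toContinuousLinearMap) ((φ_cd h).of_le two_le)
        (Hn_cd h) (differentiableAt_const _) h1
        (comm_of_inj ((φ_cd h).of_le two_le) (Hn_cd h) h1 (hbij h).1) (TZ_const _ _)).congr
        ((hev h).mono fun y hy => Ln_eq hN hy)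
  · filter_upwards [hev (x := 0) (by simp [ρ])] with z hz
    refine ⟨(LinearEquiv.ofBijective (fderiv ℝ φ z).toLinearMap
      (hbij hz)).toContinuousLinearEquiv, fun v => ?_⟩
    rw [Ln_eq hN hz]
    simp [φ_id hz]

end Pool.Agent.H58.Nij
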