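import Pool.Agent.H58.Nij4

namespace Pool.Agent.H58.Nij
open VectorField Filter Topology Set Matrix Module Submodule Polynomial
open scoped ContDiff

lemma nil_basis (n : ℕ) : ∀ (V : Type) [AddCommGroup V] [Module ℝ V] [FiniteDimensional ℝ V]
    (f : V →ₗ[ℝ] V), finrank ℝ V = n → IsNilpotent f →
    ∃ b : Basis (Fin n) ℝ V, ∀ j, f (b j) ∈ span ℝ (b '' {i | i < j}) := by
  induction n with
  | zero => exact fun V _ _ _ f h _ => ⟨finBasisOfFinrankEq ℝ V h, fun j => j.elim0⟩
  | succ n ih =>
    intro V _ _ _ f h hf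
    haveI : Nontrivial V := nontrivial_of_finrank_pos (R := ℝ) (by omega)
    have h1 : LinearMap.range f < ⊤ := lt_top_iff_ne_top.2 fun h1 => by
      have h2 := LinearMap.range_eq_top.1 h1
      exact hf.not_isUnit ((Module.End.isUnit_iff f).2
        ⟨LinearMap.injective_iff_surjective.2 h2, h2⟩)
    obtain ⟨ℓ, hℓ, h2⟩ := Submodule.exists_le_ker_of_lt_top _ h1
    have h3 : MapsTo f (LinearMap.ker ℓ) (LinearMap.ker ℓ) := fun x _ => h2 ⟨x, rfl⟩
    obtain ⟨b, hb⟩ := ih (LinearMap.ker ℓ) (f.restrict h3)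
      (by have := Module.Dual.finrank_ker_add_one_of_ne_zero hℓ; omega)
      (Module.End.isNilpotent.restrict h3 hf)
    obtain ⟨y, hy⟩ := LinearMap.range_eq_top.1 (Module.Dual.range_eq_top_of_ne_zero hℓ) 1
    refine ⟨Basis.mkFinSnoc b y (fun c x hx h => ?_) fun z => ⟨-ℓ z, by simp [hy]⟩, fun j => ?_⟩
    · have := congrArg ℓ h
      simpa [hy, LinearMap.mem_ker.1 hx] using this
    · have key : ∀ (s : Set (Fin n)) (t : Set (Fin (n + 1))), (∀ i ∈ s, i.castSucc ∈ t) →
          ∀ x ∈ span ℝ (b '' s), (x : V) ∈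
            span ℝ ((Fin.snoc (((↑) : LinearMap.ker ℓ → V) ∘ b) y : Fin (n + 1) → V) '' t) := by
        intro s t hst x hx
        have := Submodule.mem_map_of_mem (f := (LinearMap.ker ℓ).subtype) hx
        rw [Submodule.map_span] at this
        refine span_mono ?_ this
        rintro _ ⟨_, ⟨i, hi, rfl⟩, rfl⟩
        exact ⟨i.castSucc, hst i hi, by simp⟩
      rw [Basis.coe_mkFinSnoc]
      induction j using Fin.lastCases with
      | last =>
        refine key univ _ (fun i _ => Fin.castSucc_lt_last i) ⟨_, h2 ⟨_, rfl⟩⟩ ?_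
        rw [image_univ, b.span_eq]
        trivial
      | cast j =>
        rw [Fin.snoc_castSucc]
        exact key _ _ (fun i hi => Fin.castSucc_lt_castSucc_iff.2 hi) _ (hb j)

variable {V : Type} [NormedAddCommGroup V] [NormedSpace ℝ V] [FiniteDimensional ℝ V]

lemma real_nil {f : V →ₗ[ℝ] V} (hf : IsNilpotent f) : Real' f.toContinuousLinearMap := by
  obtain ⟨b, hb⟩ := nil_basis _ V f rfl hf
  refine (real_upper (N := LinearMap.toMatrix b b f) fun i j hij => ?_).equiv
    b.equivFun.toContinuousLinearEquiv fun w => ?_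
  · rw [LinearMap.toMatrix_apply]
    by_contra h
    exact absurd (b.repr_support_subset_of_mem_span _ (hb j) (Finsupp.mem_support_iff.2 h))
      hij.not_gt
  · exact (LinearMap.toMatrix_mulVec_repr b b f w).symm

lemma real_nil' {f : V →ₗ[ℝ] V} {c : ℝ} (hf : IsNilpotent (f - c • 1)) :
    Real' f.toContinuousLinearMap :=
  ((real_nil hf).shift c).equiv (.refl ℝ V) fun w => by simp

lemma real_all (n : ℕ) : ∀ (V : Type) [NormedAddCommGroup V] [NormedSpace ℝ V]
    [FiniteDimensional ℝ V] (f : V →ₗ[ℝ] V), finrank ℝ V = n → f.charpoly.Splits →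
    Real' f.toContinuousLinearMap := by
  induction n using Nat.strong_induction_on with
  | _ n ih =>
    intro V _ _ _ f hn hs
    rcases subsingleton_or_nontrivial V with h | h
    · exact real_nil ⟨1, Subsingleton.elim _ _⟩
    have hpos : 0 < finrank ℝ V := finrank_pos
    obtain ⟨c, hc⟩ := hs.exists_eval_eq_zero (by
      rw [degree_eq_natDegree f.charpoly_monic.ne_zero, f.charpoly_natDegree]
      exact_mod_cast hpos.ne')
    obtain ⟨v, hv⟩ := ((Module.End.hasEigenvalue_iff_isRoot_charpoly f c).2 hc).exists_hasEigenvector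
    set g : Module.End ℝ V := f - c • 1 with hg
    obtain ⟨k, hk⟩ := eventually_atTop.1 g.eventually_isCompl_ker_pow_range_pow
    have hc := hk (k + 1) (by omega)
    have hcm : f * g ^ (k + 1) = g ^ (k + 1) * f :=
      (((Commute.refl f).sub_right ((Commute.one_right f).smul_right c)).pow_right _).eq
    set p := LinearMap.ker (g ^ (k + 1))
    set r := LinearMap.range (g ^ (k + 1))
    have hp : MapsTo f p p := fun x hx => by
      have := LinearMap.congr_fun hcm x
      simp only [Module.End.mul_apply, LinearMap.mem_ker.1 hx, map_zero] at this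
      exact this.symm
    have hr : MapsTo f r r := by
      rintro _ ⟨x, rfl⟩
      exact ⟨f x, (LinearMap.congr_fun hcm x).symm⟩
    have hvp : v ∈ p := by
      rw [LinearMap.mem_ker, pow_succ, Module.End.mul_apply, hg]
      simp [hv.apply_eq_smul]
    haveI : Nontrivial p := ⟨⟨⟨v, hvp⟩, 0, fun h => hv.2 (congrArg Subtype.val h)⟩⟩
    have hgp : MapsTo g p p := fun x hx => p.sub_mem (hp hx) (p.smul_mem c hx)
    have r1 : Real' (f.restrict hp).toContinuousLinearMap := by
      refine real_nil' (c := c) ⟨k + 1, ?_⟩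
      have : f.restrict hp - c • 1 = g.restrict hgp := rfl
      rw [this, Module.End.pow_restrict]
      exact LinearMap.ext fun x => Subtype.ext x.2
    have he : ∀ w : p × r, p.prodEquivOfIsCompl r hc ((f.restrict hp).prodMap (f.restrict hr) w) =
        f (p.prodEquivOfIsCompl r hc w) := fun w => by simp
    rcases subsingleton_or_nontrivial r with h1 | h1
    · refine real_nil' (c := c) ⟨k + 1, LinearMap.ext fun x => ?_⟩
      exact congrArg Subtype.val (Subsingleton.elim (⟨_, x, rfl⟩ : r) 0)
    have hd := Submodule.finrank_add_eq_of_isCompl hc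
    have hp0 : 0 < finrank ℝ p := finrank_pos
    have hch : f.charpoly = (f.restrict hp).charpoly * (f.restrict hr).charpoly := by
      rw [← LinearMap.charpoly_prodMap,
        ← (p.prodEquivOfIsCompl r hc).charpoly_conj ((f.restrict hp).prodMap (f.restrict hr))]
      congr 1
      ext x
      obtain ⟨w, rfl⟩ := (p.prodEquivOfIsCompl r hc).surjective x
      rw [LinearEquiv.conj_apply_apply, LinearEquiv.symm_apply_apply, he]
    have r2 := ih (finrank ℝ r) (by omega) r (f.restrict hr) rfl
      (hs.of_dvd f.charpoly_monic.ne_zero ⟨_, hch.trans (mul_comm _ _)⟩)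
    refine (r1.prod r2).equiv (p.prodEquivOfIsCompl r hc).symm.toContinuousLinearEquiv fun x => ?_
    obtain ⟨w, rfl⟩ := (p.prodEquivOfIsCompl r hc).surjective x
    show (p.prodEquivOfIsCompl r hc).symm (f _) = (f.restrict hp).prodMap (f.restrict hr)
      ((p.prodEquivOfIsCompl r hc).symm _)
    rw [← he, LinearEquiv.symm_apply_apply, LinearEquiv.symm_apply_apply]

end Pool.Agent.H58.Nij
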