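import Mathlib

namespace Pool.Agent.H58.Nij
open VectorField
open scoped ContDiff

variable {V : Type} [NormedAddCommGroup V] [NormedSpace ℝ V]

/-- The Nijenhuis torsion `[Lv,Lw] - L([Lv,w] + [v,Lw]) + L²[v,w]` of the field of endomorphisms
`L` vanishes for every pair of smooth vector fields `v, w`. -/
def IsNijenhuis (L : V → V →L[ℝ] V) : Prop :=
  ∀ v w : V → V, ContDiff ℝ ∞ v → ContDiff ℝ ∞ w → ∀ x,
    lieBracket ℝ (fun y => L y (v y)) (fun y => L y (w y)) x
      - L x (lieBracket ℝ (fun y => L y (v y)) w x + lieBracket ℝ v (fun y => L y (w y)) x)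
      + L x (L x (lieBracket ℝ v w x)) = 0

end Pool.Agent.H58.Nij
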