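import Pool.Agent.H58.NmDefs

set_option autoImplicit false

namespace Pool.Agent.H58.Nm

open MeasureTheory Set

noncomputable section

/-- the region under the graph of `w` over the unit interval. -/
def horn (w : ℝ → ℝ) : Set (ℝ × ℝ) := {p | 0 < p.1 ∧ p.1 < 1 ∧ 0 < p.2 ∧ p.2 < w p.1}

lemma implicit {g : ℝ × ℝ → ℝ} (hg : LipschitzWith 2 g) {α β : ℝ} (h1 : α ^ 2 + β ^ 2 = 1)
    (hm : ∀ (q : ℝ × ℝ) (t : ℝ), 0 ≤ t → g q + t / 5 ≤ g (q.1 - β * t, q.2 + α * t)) :
    ∃ γ : ℝ → ℝ, LipschitzWith 10 γ ∧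
      ∀ q : ℝ × ℝ, g q < 0 ↔ -β * q.1 + α * q.2 < γ (α * q.1 + β * q.2) := by
  let G : ℝ → ℝ → ℝ := fun ξ η => g (α * ξ - β * η, β * ξ + α * η)
  have hG : ∀ ξ η η', η ≤ η' → G ξ η + (η' - η) / 5 ≤ G ξ η' := fun ξ η η' h => by
    have := hm (α * ξ - β * η, β * ξ + α * η) (η' - η) (by linarith)
    simp only [G]
    convert this using 3 <;> ring
  have hα : |α| ≤ 1 := by rw [← sq_le_one_iff_abs_le_one]; nlinarith [sq_nonneg β]
  have hβ : |β| ≤ 1 := by rw [← sq_le_one_iff_abs_le_one]; nlinarith [sq_nonneg α]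
  have hL : ∀ ξ ξ' η, G ξ η - G ξ' η ≤ 2 * |ξ - ξ'| := fun ξ ξ' η => by
    have h2 := hg.dist_le_mul (α * ξ - β * η, β * ξ + α * η) (α * ξ' - β * η, β * ξ' + α * η)
    rw [Real.dist_eq, Prod.dist_eq, Real.dist_eq, Real.dist_eq] at h2
    have h3 : max |α * ξ - β * η - (α * ξ' - β * η)| |β * ξ + α * η - (β * ξ' + α * η)| ≤
        |ξ - ξ'| := by
      rw [show α * ξ - β * η - (α * ξ' - β * η) = α * (ξ - ξ') by ring,
        show β * ξ + α * η - (β * ξ' + α * η) = β * (ξ - ξ') by ring, abs_mul, abs_mul]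
      exact max_le (mul_le_of_le_one_left (abs_nonneg _) hα)
        (mul_le_of_le_one_left (abs_nonneg _) hβ)
    have h4 := le_abs_self (G ξ η - G ξ' η)
    simp only [NNReal.coe_ofNat] at h2
    simp only [G] at h4 ⊢
    linarith
  have hz : ∀ ξ, ∃ η, G ξ η = 0 := fun ξ => by
    have hc : Continuous (G ξ) := hg.continuous.comp (by fun_prop)
    have hT : 0 ≤ 5 * |G ξ 0| := by positivity
    have h2 := hG ξ 0 (5 * |G ξ 0|) hT
    have h3 := hG ξ (-(5 * |G ξ 0|)) 0 (by linarith)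
    obtain ⟨η, -, hη⟩ := intermediate_value_Icc (a := -(5 * |G ξ 0|)) (b := 5 * |G ξ 0|)
      (by linarith) hc.continuousOn (show (0 : ℝ) ∈ Icc _ _ from
        ⟨by linarith [le_abs_self (G ξ 0)], by linarith [neg_abs_le (G ξ 0)]⟩)
    exact ⟨η, hη⟩
  choose γ hγ using hz
  have hle : ∀ ξ ξ', γ ξ' - γ ξ ≤ 10 * |ξ - ξ'| := fun ξ ξ' => by
    rcases le_total (γ ξ') (γ ξ) with h | h
    · linarith [abs_nonneg (ξ - ξ')]
    · have h2 := hG ξ _ _ h
      have h3 := hL ξ ξ' (γ ξ')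
      rw [hγ] at h2 h3
      linarith
  refine ⟨γ, LipschitzWith.of_dist_le_mul fun ξ ξ' => ?_, fun q => ?_⟩
  · rw [Real.dist_eq, Real.dist_eq, abs_le]
    have h2 := hle ξ ξ'
    have h3 := hle ξ' ξ
    rw [abs_sub_comm] at h3
    simp only [NNReal.coe_ofNat]
    constructor <;> linarith
  · have hq : g q = G (α * q.1 + β * q.2) (-β * q.1 + α * q.2) := by
      simp only [G]
      congr 1
      ext
      · simp only; linear_combination (-q.1) * h1
      · simp only; linear_combination (-q.2) * h1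
    rw [hq]
    constructor
    · intro h
      by_contra h2
      have h3 := hG (α * q.1 + β * q.2) _ _ (not_lt.mp h2)
      rw [hγ] at h3
      linarith [not_lt.mp h2]
    · intro h
      have h3 := hG (α * q.1 + β * q.2) _ _ h.le
      rw [hγ] at h3
      linarith

lemma isOpen_horn {w : ℝ → ℝ} (hw : Continuous w) : IsOpen (horn w) :=
  (isOpen_lt continuous_const continuous_fst).inter
    ((isOpen_lt continuous_fst continuous_const).inter
      ((isOpen_lt continuous_const continuous_snd).inter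
        (isOpen_lt continuous_snd (hw.comp continuous_fst))))

lemma horn_sub {w : ℝ → ℝ} (hw : LipschitzWith 1 w) : horn w ⊆ Icc 0 1 ×ˢ Icc 0 (w 0 + 1) := by
  rintro ⟨x, y⟩ ⟨h1, h2, h3, h4⟩
  have := hw.dist_le_mul x 0
  rw [Real.dist_eq, Real.dist_eq, sub_zero, abs_of_pos h1] at this
  simp only [NNReal.coe_one, one_mul] at this
  exact ⟨⟨h1.le, h2.le⟩, h3.le, by linarith [le_abs_self (w x - w 0)]⟩

lemma lip_horn {w : ℝ → ℝ} (hw : LipschitzWith 1 w) (h0 : ∀ x, 0 < w x) :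
    IsLipDomain (horn w) := by
  have hd : ∀ x y, |w x - w y| ≤ |x - y| := fun x y => by
    simpa [Real.dist_eq] using hw.dist_le_mul x y
  refine ⟨isOpen_horn hw.continuous, ?_, ?_, fun p _ => ?_⟩
  · have : horn w = (fun q : ℝ × ℝ => (q.1, w q.1 * q.2)) '' (Ioo 0 1 ×ˢ Ioo 0 1) := by
      ext ⟨x, y⟩
      constructor
      · rintro ⟨h1, h2, h3, h4⟩
        refine ⟨(x, y / w x), ⟨⟨h1, h2⟩, div_pos h3 (h0 x), (div_lt_one (h0 x)).mpr h4⟩, ?_⟩
        simp only [Prod.mk.injEq, true_and]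
        field_simp [(h0 x).ne']
      · rintro ⟨⟨a, s⟩, ⟨⟨h1, h2⟩, h3, h4⟩, h5⟩
        simp only [Prod.mk.injEq] at h5
        obtain ⟨rfl, rfl⟩ := h5
        exact ⟨h1, h2, mul_pos (h0 _) h3, mul_lt_of_lt_one_right (h0 _) h4⟩
    rw [this]
    have hc := hw.continuous
    exact ((isConnected_Ioo one_pos).prod (isConnected_Ioo one_pos)).image _
      (Continuous.continuousOn (by fun_prop))
  · exact (isCompact_Icc.prod isCompact_Icc).isBounded.subset (horn_sub hw)
  · have l1 : LipschitzWith 2 fun q : ℝ × ℝ => -q.1 :=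
      LipschitzWith.prod_fst.neg.weaken (by norm_num)
    have l2 : LipschitzWith 2 fun q : ℝ × ℝ => q.1 - 1 :=
      (LipschitzWith.prod_fst.sub (LipschitzWith.const 1)).weaken (by norm_num)
    have l3 : LipschitzWith 2 fun q : ℝ × ℝ => -q.2 :=
      LipschitzWith.prod_snd.neg.weaken (by norm_num)
    have l4 : LipschitzWith 2 fun q : ℝ × ℝ => q.2 - w q.1 :=
      (LipschitzWith.prod_snd.sub (hw.comp LipschitzWith.prod_fst)).weaken (by norm_num)
    have hr : 0 < min (1 / 2) (w p.1 / 4) := lt_min (by norm_num) (by linarith [h0 p.1])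
    have hq : ∀ q : ℝ × ℝ, dist q p < min (1 / 2) (w p.1 / 4) →
        |q.1 - p.1| < 1 / 2 ∧ |q.1 - p.1| < w p.1 / 4 ∧ |q.2 - p.2| < w p.1 / 4 := fun q h => by
      rw [Prod.dist_eq, Real.dist_eq, Real.dist_eq, max_lt_iff, lt_min_iff, lt_min_iff] at h
      exact ⟨h.1.1, h.1.2, h.2.2⟩
    have hw1 : ∀ x s : ℝ, 0 ≤ s → w (x - s) ≤ w x + s ∧ w (x + s) ≤ w x + s := fun x s hs => by
      have a1 := hd (x - s) x
      have a2 := hd (x + s) x
      rw [show x - s - x = -s by ring, abs_neg, abs_of_nonneg hs] at a1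
      rw [show x + s - x = s by ring, abs_of_nonneg hs] at a2
      exact ⟨by linarith [le_abs_self (w (x - s) - w x)], by linarith [le_abs_self (w (x + s) - w x)]⟩
    have key : ∀ (g₁ g₂ : ℝ × ℝ → ℝ) (α β : ℝ), LipschitzWith 2 g₁ → LipschitzWith 2 g₂ →
        α ^ 2 + β ^ 2 = 1 →
        (∀ (q : ℝ × ℝ) (t : ℝ), 0 ≤ t → g₁ q + t / 5 ≤ g₁ (q.1 - β * t, q.2 + α * t)) →
        (∀ (q : ℝ × ℝ) (t : ℝ), 0 ≤ t → g₂ q + t / 5 ≤ g₂ (q.1 - β * t, q.2 + α * t)) →
        (∀ q : ℝ × ℝ, dist q p < min (1 / 2) (w p.1 / 4) → (q ∈ horn w ↔ g₁ q < 0 ∧ g₂ q < 0)) →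
        ∃ (α β r : ℝ) (K : NNReal) (γ : ℝ → ℝ), α ^ 2 + β ^ 2 = 1 ∧ 0 < r ∧ LipschitzWith K γ ∧
          ∀ q : ℝ × ℝ, dist q p < r →
            (q ∈ horn w ↔ -β * q.1 + α * q.2 < γ (α * q.1 + β * q.2)) := by
      intro g₁ g₂ α β a1 a2 a3 a4 a5 a6
      obtain ⟨γ, hγ, hγ'⟩ := implicit (g := fun q => max (g₁ q) (g₂ q))
        ((a1.max a2).weaken (by simp)) a3 fun q t ht => by
          rw [← max_add_add_right]; exact max_le_max (a4 q t ht) (a5 q t ht)
      exact ⟨α, β, _, 10, γ, a3, hr, hγ, fun q h => by rw [a6 q h, ← hγ', max_lt_iff]⟩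
    rcases le_total p.1 (1 / 2) with hx | hx <;> rcases le_total p.2 (w p.1 / 2) with hy | hy
    · refine key _ _ (-4 / 5) (3 / 5) l1 l3 (by norm_num) (fun q t ht => by simp only; linarith)
        (fun q t ht => by simp only; linarith) fun q h => ?_
      obtain ⟨b1, b2, b3⟩ := hq q h
      have b4 := hd q.1 p.1
      rw [abs_lt] at b1 b3
      have b5 := neg_abs_le (w q.1 - w p.1)
      exact ⟨fun h => ⟨by linarith [h.1], by linarith [h.2.2.1]⟩,
        fun h => ⟨by linarith [h.1], by linarith, by linarith [h.2], by linarith⟩⟩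
    · refine key _ _ (4 / 5) (3 / 5) l1 l4 (by norm_num) (fun q t ht => by simp only; linarith)
        (fun q t ht => by
          have := (hw1 q.1 (3 / 5 * t) (by linarith)).1
          simp only; linarith) fun q h => ?_
      obtain ⟨b1, b2, b3⟩ := hq q h
      rw [abs_lt] at b1 b3
      exact ⟨fun h => ⟨by linarith [h.1], by linarith [h.2.2.2]⟩,
        fun h => ⟨by linarith [h.1], by linarith, by linarith [h0 p.1], by linarith [h.2]⟩⟩
    · refine key _ _ (-4 / 5) (-3 / 5) l2 l3 (by norm_num) (fun q t ht => by simp only; linarith)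
        (fun q t ht => by simp only; linarith) fun q h => ?_
      obtain ⟨b1, b2, b3⟩ := hq q h
      have b4 := hd q.1 p.1
      rw [abs_lt] at b1 b3
      have b5 := neg_abs_le (w q.1 - w p.1)
      exact ⟨fun h => ⟨by linarith [h.2.1], by linarith [h.2.2.1]⟩,
        fun h => ⟨by linarith, by linarith [h.1], by linarith [h.2], by linarith⟩⟩
    · refine key _ _ (4 / 5) (-3 / 5) l2 l4 (by norm_num) (fun q t ht => by simp only; linarith)
        (fun q t ht => by
          have := (hw1 q.1 (3 / 5 * t) (by linarith)).2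
          rw [show q.1 - -3 / 5 * t = q.1 + 3 / 5 * t by ring]
          simp only; linarith) fun q h => ?_
      obtain ⟨b1, b2, b3⟩ := hq q h
      rw [abs_lt] at b1 b3
      exact ⟨fun h => ⟨by linarith [h.2.1], by linarith [h.2.2.2]⟩,
        fun h => ⟨by linarith, by linarith [h.1], by linarith [h0 p.1], by linarith [h.2]⟩⟩

lemma intOn_horn {w : ℝ → ℝ} (hw : LipschitzWith 1 w) {F : ℝ × ℝ → ℝ} (hF : Continuous F) :
    IntegrableOn F (horn w) :=
  (hF.continuousOn.integrableOn_compact (isCompact_Icc.prod isCompact_Icc)).mono_set (horn_sub hw)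

lemma int_horn {w : ℝ → ℝ} (hw : LipschitzWith 1 w) (h0 : ∀ x, 0 < w x) {F : ℝ × ℝ → ℝ}
    (hF : Continuous F) :
    ∫ p in horn w, F p = ∫ x in (0 : ℝ)..1, ∫ s in (0 : ℝ)..1, F (x, w x * s) * w x := by
  have hm := (isOpen_horn hw.continuous).measurableSet
  rw [← integral_indicator hm, Measure.volume_eq_prod, integral_prod _ (by
    rw [← Measure.volume_eq_prod]; exact (integrable_indicator_iff hm).mpr (intOn_horn hw hF)),
    intervalIntegral.integral_of_le zero_le_one, integral_Ioc_eq_integral_Ioo,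
    ← integral_indicator measurableSet_Ioo]
  congr 1; funext x
  by_cases hx : x ∈ Ioo (0 : ℝ) 1
  · rw [indicator_of_mem hx, intervalIntegral.integral_mul_const,
      intervalIntegral.integral_comp_mul_left (fun y => F (x, y)) (h0 x).ne', smul_eq_mul,
      mul_zero, mul_one, intervalIntegral.integral_of_le (h0 x).le, integral_Ioc_eq_integral_Ioo,
      ← integral_indicator measurableSet_Ioo]
    field_simp [(h0 x).ne']
    congr 1; funext y
    by_cases hy : y ∈ Ioo 0 (w x)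
    · rw [indicator_of_mem hy, indicator_of_mem (show (x, y) ∈ horn w from
        ⟨hx.1, hx.2, hy.1, hy.2⟩)]
    · rw [indicator_of_notMem hy, indicator_of_notMem
        (fun h : (x, y) ∈ horn w => hy ⟨h.2.2.1, h.2.2.2⟩)]
  · rw [indicator_of_notMem hx]
    simp only [fun y => indicator_of_notMem
      (fun h : (x, y) ∈ horn w => hx ⟨h.1, h.2.1⟩) F, integral_zero]

end

end Pool.Agent.H58.Nm
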