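import Pool.Agent.H58.Nm1

set_option autoImplicit false

namespace Pool.Agent.H58.Nm

open MeasureTheory Set intervalIntegral

noncomputable section

lemma cs1 {h h' : ℝ → ℝ} (hd : ∀ t, HasDerivAt h (h' t) t) (hc : Continuous h') {s s' : ℝ}
    (hs : s ∈ Icc (0 : ℝ) 1) (hs' : s' ∈ Icc (0 : ℝ) 1) :
    (h s - h s') ^ 2 ≤ ∫ t in (0 : ℝ)..1, h' t ^ 2 := by
  have key : ∀ s s' : ℝ, s ∈ Icc (0 : ℝ) 1 → s' ∈ Icc (0 : ℝ) 1 → s' ≤ s →
      |h s - h s'| ≤ ∫ t in (0 : ℝ)..1, |h' t| := fun s s' hs hs' hle => by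
    rw [← integral_eq_sub_of_hasDerivAt (fun t _ => hd t) (hc.intervalIntegrable _ _)]
    exact (abs_integral_le_integral_abs hle).trans (integral_mono_interval hs'.1 hle hs.2
      (ae_of_all _ fun _ => abs_nonneg _) (hc.abs.intervalIntegrable _ _))
  have h1 : |h s - h s'| ≤ ∫ t in (0 : ℝ)..1, |h' t| := by
    rcases le_total s' s with hle | hle
    · exact key s s' hs hs' hle
    · rw [abs_sub_comm]; exact key s' s hs' hs hle
  set m := ∫ t in (0 : ℝ)..1, |h' t| with hm
  have h2 : ∫ t in (0 : ℝ)..1, (2 * m * |h' t| - m ^ 2) ≤ ∫ t in (0 : ℝ)..1, h' t ^ 2 :=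
    integral_mono_on zero_le_one (Continuous.intervalIntegrable (by fun_prop) _ _)
      (Continuous.intervalIntegrable (by fun_prop) _ _) fun t _ => by
        nlinarith [sq_nonneg (|h' t| - m), sq_abs (h' t)]
  rw [integral_sub (Continuous.intervalIntegrable (by fun_prop) _ _) intervalIntegrable_const,
    intervalIntegral.integral_const_mul, intervalIntegral.integral_const, ← hm] at h2
  simp only [sub_zero, smul_eq_mul, one_mul] at h2
  have h3 := sq_le_sq' (by linarith [abs_nonneg (h s - h s')]) h1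
  rw [sq_abs] at h3
  nlinarith

lemma hardy {f f' : ℝ → ℝ} (hd : ∀ t, HasDerivAt f (f' t) t) (hc : Continuous f') (h0 : f 0 = 0)
    {a : ℝ} (ha : 0 < a) : ∫ x in (0 : ℝ)..1, f x ^ 2 * Real.exp (-a * x) ≤
      4 / a ^ 2 * ∫ x in (0 : ℝ)..1, f' x ^ 2 * Real.exp (-a * x) := by
  have hf : Continuous f := continuous_iff_continuousAt.mpr fun t => (hd t).continuousAt
  have hG : ∀ t, HasDerivAt (fun x => f x ^ 2 * Real.exp (-a * x))
      (2 * f t * f' t * Real.exp (-a * t) + f t ^ 2 * (Real.exp (-a * t) * (-a))) t := fun t => by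
    have h1 : HasDerivAt (fun x => Real.exp (-a * x)) (Real.exp (-a * t) * (-a * 1)) t :=
      ((hasDerivAt_id t).const_mul (-a)).exp
    refine (((hd t).pow 2).mul h1).congr_deriv ?_
    simp
  have h1 := integral_eq_sub_of_hasDerivAt (a := 0) (b := 1) (fun t _ => hG t)
    (Continuous.intervalIntegrable (by fun_prop) _ _)
  have h2 : ∫ t in (0 : ℝ)..1, (2 * f t * f' t * Real.exp (-a * t) +
      f t ^ 2 * (Real.exp (-a * t) * (-a))) ≤ ∫ t in (0 : ℝ)..1,
      (2 / a * (f' t ^ 2 * Real.exp (-a * t)) - a / 2 * (f t ^ 2 * Real.exp (-a * t))) :=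
    integral_mono_on zero_le_one (Continuous.intervalIntegrable (by fun_prop) _ _)
      (Continuous.intervalIntegrable (by fun_prop) _ _) fun t _ => by
        have h3 : 0 ≤ 2 / a * (f' t - a / 2 * f t) ^ 2 * Real.exp (-a * t) := by positivity
        have h4 : 2 / a * (f' t - a / 2 * f t) ^ 2 * Real.exp (-a * t) =
            (2 / a * (f' t ^ 2 * Real.exp (-a * t)) - a / 2 * (f t ^ 2 * Real.exp (-a * t))) -
            (2 * f t * f' t * Real.exp (-a * t) + f t ^ 2 * (Real.exp (-a * t) * (-a))) := by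
          field_simp; ring
        linarith
  rw [h1, integral_sub (Continuous.intervalIntegrable (by fun_prop) _ _)
    (Continuous.intervalIntegrable (by fun_prop) _ _), intervalIntegral.integral_const_mul,
    intervalIntegral.integral_const_mul, h0] at h2
  have h5 : 0 ≤ f 1 ^ 2 * Real.exp (-a * 1) := by positivity
  have h6 : a / 2 * ∫ x in (0 : ℝ)..1, f x ^ 2 * Real.exp (-a * x) ≤
      a / 2 * (4 / a ^ 2 * ∫ x in (0 : ℝ)..1, f' x ^ 2 * Real.exp (-a * x)) := by
    rw [← mul_assoc, show a / 2 * (4 / a ^ 2) = 2 / a by field_simp; ring]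
    linarith
  exact le_of_mul_le_mul_left h6 (by positivity)

/-- the width of the horn. -/
def wd (a x : ℝ) : ℝ := Real.exp (-a * max x 0) / a

lemma wd_pos {a : ℝ} (ha : 0 < a) (x : ℝ) : 0 < wd a x := by unfold wd; positivity

lemma wd_lip {a : ℝ} (ha : 0 < a) : LipschitzWith 1 (wd a) := by
  have key : ∀ s t : ℝ, 0 ≤ s → s ≤ t →
      |Real.exp (-a * s) / a - Real.exp (-a * t) / a| ≤ t - s := fun s t hs hst => by
    have h1 : Real.exp (-a * t) = Real.exp (-a * s) * Real.exp (-(a * (t - s))) := by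
      rw [← Real.exp_add]; congr 1; ring
    have h2 := Real.add_one_le_exp (-(a * (t - s)))
    have h3 : Real.exp (-(a * (t - s))) ≤ 1 := Real.exp_le_one_iff.mpr (by nlinarith)
    have h4 : Real.exp (-a * s) ≤ 1 := Real.exp_le_one_iff.mpr (by nlinarith)
    have h5 := Real.exp_pos (-a * s)
    rw [← sub_div, abs_div, abs_of_pos ha, div_le_iff₀ ha, h1, abs_of_nonneg (by nlinarith)]
    nlinarith
  refine LipschitzWith.of_dist_le_mul fun x y => ?_
  have h := abs_max_sub_max_le_abs x y 0
  simp only [NNReal.coe_one, one_mul, Real.dist_eq, wd]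
  rcases le_total (max x 0) (max y 0) with hle | hle
  · refine (key _ _ (le_max_right _ _) hle).trans ?_
    rw [abs_sub_comm] at h; exact (le_abs_self _).trans h
  · rw [abs_sub_comm]
    exact (key _ _ (le_max_right _ _) hle).trans ((le_abs_self _).trans h)

lemma int_wd {a : ℝ} (ha : 0 < a) {F : ℝ × ℝ → ℝ} (hF : Continuous F) :
    ∫ p in horn (wd a), F p = ∫ x in (0 : ℝ)..1, ∫ s in (0 : ℝ)..1,
      F (x, Real.exp (-a * x) / a * s) * (Real.exp (-a * x) / a) := by
  rw [int_horn (wd_lip ha) (wd_pos ha) hF]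
  refine integral_congr fun x hx => ?_
  rw [uIcc_of_le zero_le_one] at hx
  simp only [wd, max_eq_left hx.1]

lemma poincare {a : ℝ} (ha : 0 < a) {v : ℝ × ℝ → ℝ} (hv : ContDiff ℝ 1 v)
    (hm : ∫ p in horn (wd a), v p = 0) :
    mass (horn (wd a)) v ≤ 18 / a ^ 2 * energy (horn (wd a)) v := by
  have hvc := hv.continuous
  have hD : Continuous (fderiv ℝ v) := hv.continuous_fderiv one_ne_zero
  have hdf : ∀ p, HasFDerivAt v (fderiv ℝ v p) p := fun p =>
    (hv.differentiable one_ne_zero p).hasFDerivAt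
  let w : ℝ → ℝ := fun x => Real.exp (-a * x) / a
  have hwc : Continuous w := by simp only [w]; fun_prop
  have hw0 : ∀ x, 0 < w x := fun x => by simp only [w]; positivity
  have hw1 : ∀ x, 0 ≤ x → a * w x ≤ 1 := fun x hx => by
    simp only [w]
    rw [mul_div_cancel₀ _ ha.ne']
    exact Real.exp_le_one_iff.mpr (by nlinarith)
  have hwd : ∀ x, HasDerivAt w (-(a * w x)) x := fun x => by
    refine (((hasDerivAt_id x).const_mul (-a)).exp.div_const a).congr_deriv ?_
    simp only [w, id]; field_simp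
  let vx : ℝ × ℝ → ℝ := fun p => fderiv ℝ v p (1, 0)
  let vy : ℝ × ℝ → ℝ := fun p => fderiv ℝ v p (0, 1)
  have hvx : Continuous vx := hD.clm_apply continuous_const
  have hvy : Continuous vy := hD.clm_apply continuous_const
  have hlin : ∀ p (α β : ℝ), fderiv ℝ v p (α, β) = α * vx p + β * vy p := fun p α β => by
    rw [show ((α, β) : ℝ × ℝ) = α • ((1, 0) : ℝ × ℝ) + β • ((0, 1) : ℝ × ℝ) by simp, map_add,
      map_smul, map_smul]; rfl
  have hUs : ∀ x s, HasDerivAt (fun s => v (x, w x * s)) (w x * vy (x, w x * s)) s := fun x s => by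
    have h1 : HasDerivAt (fun s : ℝ => ((x, w x * s) : ℝ × ℝ)) (0, w x * 1) s :=
      (hasDerivAt_const s x).prodMk ((hasDerivAt_id s).const_mul (w x))
    refine ((hdf _).comp_hasDerivAt s h1).congr_deriv ?_
    rw [hlin]; ring
  have hUx : ∀ s x, HasDerivAt (fun x => v (x, w x * s) - v (0, w 0 * s))
      (vx (x, w x * s) - a * w x * s * vy (x, w x * s)) x := fun s x => by
    have h1 : HasDerivAt (fun x : ℝ => ((x, w x * s) : ℝ × ℝ)) (1, -(a * w x) * s) x :=
      (hasDerivAt_id x).prodMk ((hwd x).mul_const s)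
    refine (((hdf _).comp_hasDerivAt x h1).sub_const _).congr_deriv ?_
    rw [hlin]; ring
  let e : ℝ → ℝ → ℝ := fun x s => (vx (x, w x * s) ^ 2 + vy (x, w x * s) ^ 2) * w x
  have hec : Continuous e.uncurry := by
    change Continuous fun p : ℝ × ℝ =>
      (vx (p.1, w p.1 * p.2) ^ 2 + vy (p.1, w p.1 * p.2) ^ 2) * w p.1
    fun_prop
  have hec' : Continuous (Function.uncurry fun s x => e x s) := hec.comp continuous_swap
  have hE : energy (horn (wd a)) v = ∫ x in (0 : ℝ)..1, ∫ s in (0 : ℝ)..1, e x s :=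
    int_wd ha (F := fun p => vx p ^ 2 + vy p ^ 2) (by fun_prop)
  have hc1 : Continuous fun x => ∫ s in (0 : ℝ)..1, e x s :=
    continuous_parametric_intervalIntegral_of_continuous' hec 0 1
  have hc2 : Continuous fun s => ∫ x in (0 : ℝ)..1, e x s :=
    continuous_parametric_intervalIntegral_of_continuous' hec' 0 1
  have step : ∀ s' ∈ Icc (0 : ℝ) 1, mass (horn (wd a)) v ≤
      2 / a ^ 2 * energy (horn (wd a)) v + 16 / a ^ 2 * ∫ x in (0 : ℝ)..1, e x s' := by
    intro s' hs'
    set c := v (0, w 0 * s') with hc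
    have i1 := intOn_horn (wd_lip ha) (F := fun p => v p ^ 2) (by fun_prop)
    have i2 := intOn_horn (wd_lip ha) (F := fun p => 2 * c * v p) (by fun_prop)
    have h1 : mass (horn (wd a)) v ≤ ∫ p in horn (wd a), (v p - c) ^ 2 := by
      have h2 : ∫ p in horn (wd a), (v p ^ 2 - 2 * c * v p) ≤ ∫ p in horn (wd a), (v p - c) ^ 2 :=
        integral_mono (i1.sub i2) (intOn_horn (wd_lip ha) (by fun_prop)) fun p => by
          simp only; nlinarith [sq_nonneg c]
      rw [MeasureTheory.integral_sub i1 i2, MeasureTheory.integral_const_mul, hm] at h2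
      simpa [mass] using h2
    rw [int_wd ha (by fun_prop)] at h1
    have hcc : Continuous (Function.uncurry fun x s : ℝ => (v (x, w x * s) - c) ^ 2 * w x) := by
      change Continuous fun p : ℝ × ℝ => (v (p.1, w p.1 * p.2) - c) ^ 2 * w p.1
      fun_prop
    have h3 : ∫ x in (0 : ℝ)..1, ∫ s in (0 : ℝ)..1, (v (x, w x * s) - c) ^ 2 * w x ≤
        ∫ x in (0 : ℝ)..1, (2 / a ^ 2 * (∫ s in (0 : ℝ)..1, e x s) +
          2 / a * ((v (x, w x * s') - c) ^ 2 * Real.exp (-a * x))) := by
      refine integral_mono_on zero_le_one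
        ((continuous_parametric_intervalIntegral_of_continuous' hcc 0 1).intervalIntegrable _ _)
        (Continuous.intervalIntegrable (by fun_prop) _ _) fun x hx => ?_
      have h4 : (∫ t in (0 : ℝ)..1, (w x * vy (x, w x * t)) ^ 2) * w x ≤
          1 / a ^ 2 * ∫ s in (0 : ℝ)..1, e x s := by
        rw [← intervalIntegral.integral_mul_const, ← intervalIntegral.integral_const_mul]
        refine integral_mono_on zero_le_one (Continuous.intervalIntegrable (by fun_prop) _ _)
          (Continuous.intervalIntegrable (by simp only [e]; fun_prop) _ _) fun t _ => ?_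
        have h5 : w x ^ 2 ≤ 1 / a ^ 2 := by
          rw [le_div_iff₀ (by positivity), ← mul_pow, mul_comm]
          exact pow_le_one₀ (mul_pos ha (hw0 x)).le (hw1 x hx.1)
        simp only [e]
        rw [← mul_assoc]
        refine mul_le_mul_of_nonneg_right ?_ (hw0 x).le
        rw [mul_pow]
        exact mul_le_mul h5 (by nlinarith [sq_nonneg (vx (x, w x * t))]) (sq_nonneg _)
          (by positivity)
      have h6 : ∫ s in (0 : ℝ)..1, (v (x, w x * s) - c) ^ 2 * w x ≤
          ∫ _ in (0 : ℝ)..1, (2 / a ^ 2 * (∫ s in (0 : ℝ)..1, e x s) +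
            2 / a * ((v (x, w x * s') - c) ^ 2 * Real.exp (-a * x))) := by
        refine integral_mono_on zero_le_one (Continuous.intervalIntegrable (by fun_prop) _ _)
          intervalIntegrable_const fun s hs => ?_
        have h7 := mul_le_mul_of_nonneg_right (cs1 (hUs x) (by fun_prop) hs hs') (hw0 x).le
        have h8 : 2 / a * ((v (x, w x * s') - c) ^ 2 * Real.exp (-a * x)) =
            2 * ((v (x, w x * s') - c) ^ 2 * w x) := by simp only [w]; ring
        have h9 : (v (x, w x * s) - c) ^ 2 ≤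
            2 * (v (x, w x * s) - v (x, w x * s')) ^ 2 + 2 * (v (x, w x * s') - c) ^ 2 := by
          nlinarith [sq_nonneg (v (x, w x * s) - 2 * v (x, w x * s') + c)]
        have h10 := mul_le_mul_of_nonneg_right h9 (hw0 x).le
        have h11 : 2 / a ^ 2 * (∫ s in (0 : ℝ)..1, e x s) =
            2 * (1 / a ^ 2 * ∫ s in (0 : ℝ)..1, e x s) := by ring
        rw [h8, h11]
        nlinarith
      simpa using h6
    rw [integral_add (Continuous.intervalIntegrable (by fun_prop) _ _)
      (Continuous.intervalIntegrable (by fun_prop) _ _), intervalIntegral.integral_const_mul,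
      intervalIntegral.integral_const_mul, ← hE] at h3
    have h12 := hardy (hUx s') (by fun_prop) (by simp) ha
    have h13 : ∫ x in (0 : ℝ)..1, (vx (x, w x * s') - a * w x * s' * vy (x, w x * s')) ^ 2 *
        Real.exp (-a * x) ≤ ∫ x in (0 : ℝ)..1, 2 * a * e x s' := by
      refine integral_mono_on zero_le_one (Continuous.intervalIntegrable (by fun_prop) _ _)
        (Continuous.intervalIntegrable (by simp only [e]; fun_prop) _ _) fun x hx => ?_
      have h14 : 2 * a * e x s' =
          2 * (vx (x, w x * s') ^ 2 + vy (x, w x * s') ^ 2) * Real.exp (-a * x) := by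
        simp only [e, w]; field_simp
      rw [h14]
      refine mul_le_mul_of_nonneg_right ?_ (Real.exp_pos _).le
      have h15 : 0 ≤ a * w x * s' := mul_nonneg (mul_pos ha (hw0 x)).le hs'.1
      have h16 : a * w x * s' ≤ 1 := mul_le_one₀ (hw1 x hx.1) hs'.1 hs'.2
      have h17 : (a * w x * s') ^ 2 ≤ 1 := pow_le_one₀ h15 h16
      nlinarith [sq_nonneg (vx (x, w x * s') + a * w x * s' * vy (x, w x * s')),
        mul_le_mul_of_nonneg_right h17 (sq_nonneg (vy (x, w x * s')))]
    rw [intervalIntegral.integral_const_mul] at h13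
    have h18 := mul_le_mul_of_nonneg_left (h12.trans (mul_le_mul_of_nonneg_left h13
      (by positivity))) (show 0 ≤ 2 / a by positivity)
    have h19 : 2 / a * (4 / a ^ 2 * (2 * a * ∫ x in (0 : ℝ)..1, e x s')) =
        16 / a ^ 2 * ∫ x in (0 : ℝ)..1, e x s' := by field_simp; ring
    rw [h19] at h18
    exact h1.trans (h3.trans (add_le_add le_rfl h18))
  have h20 := integral_mono_on (μ := volume) zero_le_one intervalIntegrable_const
    (Continuous.intervalIntegrable (by fun_prop) _ _) step
  rw [integral_add intervalIntegrable_const (Continuous.intervalIntegrable (by fun_prop) _ _),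
    intervalIntegral.integral_const_mul (16 / a ^ 2),
    ← intervalIntegral_intervalIntegral_swap ((hec.continuousOn.integrableOn_compact
      (isCompact_uIcc.prod isCompact_uIcc)).mono_set (prod_mono uIoc_subset_uIcc uIoc_subset_uIcc)),
    ← hE] at h20
  simp only [intervalIntegral.integral_const, sub_zero, smul_eq_mul, one_mul] at h20
  calc _ ≤ _ := h20
    _ = _ := by ring

end

end Pool.Agent.H58.Nm
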