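import Pool.Agent.H58.Nm2

set_option autoImplicit false

namespace Pool.Agent.H58.Nm

open MeasureTheory Set intervalIntegral

noncomputable section

/-- polynomial with coefficients `c`. -/
def pl {n : ℕ} (c : Fin n → ℝ) (x : ℝ) : ℝ := ∑ i, c i * x ^ (i : ℕ)

/-- its derivative. -/
def pl' {n : ℕ} (c : Fin n → ℝ) (x : ℝ) : ℝ := ∑ i, c i * ((i : ℕ) * x ^ ((i : ℕ) - 1))

lemma pl_deriv {n : ℕ} (c : Fin n → ℝ) (x : ℝ) : HasDerivAt (pl c) (pl' c x) x :=
  HasDerivAt.fun_sum fun i _ => (hasDerivAt_pow (i : ℕ) x).const_mul (c i)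

lemma pl_cont {n : ℕ} : Continuous (Function.uncurry (pl (n := n))) := by
  change Continuous fun p : (Fin n → ℝ) × ℝ => ∑ i, p.1 i * p.2 ^ (i : ℕ)
  fun_prop

lemma pl'_cont {n : ℕ} : Continuous (Function.uncurry (pl' (n := n))) := by
  change Continuous fun p : (Fin n → ℝ) × ℝ => ∑ i, p.1 i * ((i : ℕ) * p.2 ^ ((i : ℕ) - 1))
  fun_prop

lemma pl_c {n : ℕ} (c : Fin n → ℝ) : Continuous (pl c) := by unfold pl; fun_prop

lemma pl'_c {n : ℕ} (c : Fin n → ℝ) : Continuous (pl' c) := by unfold pl'; fun_prop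

lemma q_pos {n : ℕ} {c : Fin n → ℝ} (hc : c ≠ 0) : 0 < ∫ x in (0 : ℝ)..1, pl c x ^ 2 := by
  have hcont := pl_c c
  by_contra h
  have h0 : ∀ x ∈ Ioo (0 : ℝ) 1, pl c x = 0 := fun x hx => by
    by_contra hx0
    have := integral_lt_integral_of_continuousOn_of_le_of_exists_lt (f := fun _ => (0 : ℝ))
      (g := fun x => pl c x ^ 2) one_pos continuousOn_const (hcont.pow 2).continuousOn
      (fun _ _ => sq_nonneg _) ⟨x, ⟨hx.1.le, hx.2.le⟩, by positivity⟩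
    exact h (by simpa using this)
  let P : Polynomial ℝ := ∑ i : Fin n, Polynomial.monomial (i : ℕ) (c i)
  have hP : P = 0 := Polynomial.eq_zero_of_infinite_isRoot P
    ((Ioo_infinite (show (0 : ℝ) < 1 from one_pos)).mono fun x hx => by
      have := h0 x hx
      simpa [P, Polynomial.IsRoot, Polynomial.eval_finsetSum, pl] using this)
  refine hc (funext fun j => ?_)
  have := congrArg (fun Q => Polynomial.coeff Q j) hP
  simpa [P, Polynomial.coeff_monomial, Fin.val_inj] using this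

lemma exists_bound (k : ℕ) : ∃ Λ : ℝ, 0 ≤ Λ ∧ ∀ c : Fin (k + 1) → ℝ,
    ∫ x in (0 : ℝ)..1, pl' c x ^ 2 ≤ Λ * ∫ x in (0 : ℝ)..1, pl c x ^ 2 := by
  have c1 : Continuous fun c : Fin (k + 1) → ℝ => ∫ x in (0 : ℝ)..1, pl c x ^ 2 :=
    continuous_parametric_intervalIntegral_of_continuous' (f := fun c x => pl c x ^ 2)
      (pl_cont.pow 2) 0 1
  have c2 : Continuous fun c : Fin (k + 1) → ℝ => ∫ x in (0 : ℝ)..1, pl' c x ^ 2 :=
    continuous_parametric_intervalIntegral_of_continuous' (f := fun c x => pl' c x ^ 2)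
      (pl'_cont.pow 2) 0 1
  have hne : ∀ c ∈ Metric.sphere (0 : Fin (k + 1) → ℝ) 1, c ≠ 0 := fun c hc h => by
    simp [h] at hc
  obtain ⟨B, hB⟩ := (isCompact_sphere (0 : Fin (k + 1) → ℝ) 1).exists_bound_of_continuousOn
    (c2.continuousOn.div c1.continuousOn fun c hc => (q_pos (hne c hc)).ne')
  refine ⟨max B 0, le_max_right _ _, fun c => ?_⟩
  by_cases hc : c = 0
  · simp [hc, pl, pl']
  have hn : 0 < ‖c‖ := norm_pos_iff.mpr hc
  have hs : ‖c‖⁻¹ • c ∈ Metric.sphere (0 : Fin (k + 1) → ℝ) 1 := by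
    simp [norm_smul, hn.ne']
  have h1 := (le_abs_self _).trans (hB _ hs)
  have e1 : ∀ x, pl (‖c‖⁻¹ • c) x ^ 2 = ‖c‖⁻¹ ^ 2 * pl c x ^ 2 := fun x => by
    rw [← mul_pow]; simp [pl, Finset.mul_sum, mul_assoc]
  have e2 : ∀ x, pl' (‖c‖⁻¹ • c) x ^ 2 = ‖c‖⁻¹ ^ 2 * pl' c x ^ 2 := fun x => by
    rw [← mul_pow]; simp [pl', Finset.mul_sum, mul_assoc]
  simp only [Pi.div_apply, e1, e2, intervalIntegral.integral_const_mul] at h1
  rw [mul_div_mul_left _ _ (by positivity), div_le_iff₀ (q_pos hc)] at h1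
  exact h1.trans (mul_le_mul_of_nonneg_right (le_max_left _ _) (q_pos hc).le)

lemma trial {k : ℕ} {Λ : ℝ} (hΛ : ∀ c : Fin (k + 1) → ℝ,
      ∫ x in (0 : ℝ)..1, pl' c x ^ 2 ≤ Λ * ∫ x in (0 : ℝ)..1, pl c x ^ 2) (hΛ0 : 0 ≤ Λ)
    {w : ℝ → ℝ} (hw : LipschitzWith 1 w) (h0 : ∀ x, 0 < w x) {m M : ℝ} (hm : 0 < m)
    (hb : ∀ x ∈ Icc (0 : ℝ) 1, m ≤ w x ∧ w x ≤ M) :
    ∃ u : Fin (k + 1) → ℝ × ℝ → ℝ, (∀ i, ContDiff ℝ 1 (u i)) ∧
      ∀ c : Fin (k + 1) → ℝ, c ≠ 0 → 0 < mass (horn w) (fun p => ∑ i, c i * u i p) ∧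
        energy (horn w) (fun p => ∑ i, c i * u i p) ≤
          (M / m * Λ) * mass (horn w) (fun p => ∑ i, c i * u i p) := by
  refine ⟨fun i p => p.1 ^ (i : ℕ), fun i => by fun_prop, fun c hc => ?_⟩
  have hwc := hw.continuous
  have c1 := pl_c c
  have c2 := pl'_c c
  have hM : 0 ≤ M := ((h0 0).le.trans (hb 0 (by simp)).2)
  have hf : ∀ p : ℝ × ℝ, fderiv ℝ (fun p : ℝ × ℝ => pl c p.1) p =
      pl' c p.1 • ContinuousLinearMap.fst ℝ ℝ ℝ := fun p =>
    ((pl_deriv c p.1).comp_hasFDerivAt p hasFDerivAt_fst).fderiv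
  have h1 : m * ∫ x in (0 : ℝ)..1, pl c x ^ 2 ≤ mass (horn w) fun p => pl c p.1 := by
    rw [mass, int_horn hw h0 (by fun_prop), ← intervalIntegral.integral_const_mul]
    simp only [intervalIntegral.integral_const, sub_zero, smul_eq_mul, one_mul]
    exact integral_mono_on zero_le_one (Continuous.intervalIntegrable (by fun_prop) _ _)
      (Continuous.intervalIntegrable (by fun_prop) _ _) fun x hx => by
        nlinarith [(hb x hx).1, sq_nonneg (pl c x)]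
  have h2 : energy (horn w) (fun p => pl c p.1) ≤ M * ∫ x in (0 : ℝ)..1, pl' c x ^ 2 := by
    have : energy (horn w) (fun p => pl c p.1) = ∫ p in horn w, pl' c p.1 ^ 2 := by
      simp [energy, hf]
    rw [this, int_horn hw h0 (by fun_prop), ← intervalIntegral.integral_const_mul]
    simp only [intervalIntegral.integral_const, sub_zero, smul_eq_mul, one_mul]
    exact integral_mono_on zero_le_one (Continuous.intervalIntegrable (by fun_prop) _ _)
      (Continuous.intervalIntegrable (by fun_prop) _ _) fun x hx => by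
        nlinarith [(hb x hx).2, sq_nonneg (pl' c x)]
  have h3 := mul_pos hm (q_pos hc)
  refine ⟨h3.trans_le h1, ?_⟩
  calc energy (horn w) (fun p => pl c p.1) ≤ M * (Λ * ∫ x in (0 : ℝ)..1, pl c x ^ 2) :=
        h2.trans (mul_le_mul_of_nonneg_left (hΛ c) hM)
    _ = M / m * Λ * (m * ∫ x in (0 : ℝ)..1, pl c x ^ 2) := by field_simp
    _ ≤ _ := mul_le_mul_of_nonneg_left h1 (by positivity)

theorem main (k : ℕ) (hk : 1 ≤ k) {η : ℝ} (hη : 0 < η) :
    ∃ Ω₁ Ω₂ : Set (ℝ × ℝ), IsLipDomain Ω₁ ∧ IsLipDomain Ω₂ ∧ Ω₁ ⊆ Ω₂ ∧ Convex ℝ Ω₁ ∧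
      0 < mu Ω₂ k ∧ mu Ω₁ k / mu Ω₂ k < η := by
  obtain ⟨Λ, hΛ0, hΛ⟩ := exists_bound k
  set a := 18 * Λ / η + 1 with ha_def
  have ha1 : 1 ≤ a := by have : 0 ≤ 18 * Λ / η := by positivity
                         linarith
  have ha : 0 < a := by linarith
  have hδ := wd_pos ha 1
  have hmono : ∀ x ∈ Icc (0 : ℝ) 1, wd a 1 ≤ wd a x ∧ wd a x ≤ 1 / a := fun x hx => by
    simp only [wd, max_eq_left hx.1, max_eq_left (zero_le_one' ℝ)]
    exact ⟨div_le_div_of_nonneg_right (Real.exp_le_exp.mpr (by nlinarith [hx.2])) ha.le,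
      div_le_div_of_nonneg_right (Real.exp_le_one_iff.mpr (by nlinarith [hx.1])) ha.le⟩
  have hc : LipschitzWith 1 fun _ : ℝ => wd a 1 := (LipschitzWith.const _).weaken (by norm_num)
  have h1 : mu (horn fun _ => wd a 1) k ≤ Λ := by
    have := trial hΛ hΛ0 hc (fun _ => hδ) hδ (M := wd a 1) fun _ _ => ⟨le_rfl, le_rfl⟩
    rw [div_self hδ.ne', one_mul] at this
    refine csInf_le ⟨0, ?_⟩ this
    rintro l ⟨u, -, hu⟩
    obtain ⟨h2, h3⟩ := hu 1 one_ne_zero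
    have h4 : 0 ≤ energy (horn fun _ => wd a 1) fun p => ∑ i, (1 : Fin (k + 1) → ℝ) i * u i p :=
      integral_nonneg fun p => by positivity
    exact nonneg_of_mul_nonneg_left (h4.trans h3) h2
  have h2 : a ^ 2 / 18 ≤ mu (horn (wd a)) k := by
    refine le_csInf ⟨_, trial hΛ hΛ0 (wd_lip ha) (wd_pos ha) hδ hmono⟩ ?_
    rintro l ⟨u, hu, hl⟩
    have hi : ∀ i, IntegrableOn (u i) (horn (wd a)) := fun i =>
      intOn_horn (wd_lip ha) (hu i).continuous
    obtain ⟨c, hc0, hc⟩ : ∃ c : Fin (k + 1) → ℝ, c ≠ 0 ∧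
        ∑ i, c i * ∫ p in horn (wd a), u i p = 0 := by
      let L : (Fin (k + 1) → ℝ) →ₗ[ℝ] ℝ :=
        ∑ i, (∫ p in horn (wd a), u i p) • LinearMap.proj i
      obtain ⟨c, hc, hc0⟩ := Submodule.exists_mem_ne_zero_of_ne_bot
        (LinearMap.ker_ne_bot_of_finrank_lt (f := L) (by simp; omega))
      refine ⟨c, hc0, ?_⟩
      simpa [L, mul_comm] using hc
    obtain ⟨h3, h4⟩ := hl c hc0
    have h5 := poincare ha (v := fun p => ∑ i, c i * u i p) (by fun_prop) (by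
      rw [integral_finsetSum _ fun i _ => (hi i).const_mul _]
      simpa only [MeasureTheory.integral_const_mul] using hc)
    have h6 := h5.trans (mul_le_mul_of_nonneg_left h4 (by positivity))
    rw [← mul_assoc] at h6
    have h7 : 1 ≤ 18 / a ^ 2 * l := le_of_mul_le_mul_right (by rwa [one_mul]) h3
    rw [div_mul_eq_mul_div, le_div_iff₀ (by positivity)] at h7
    linarith
  have h3 : 0 < mu (horn (wd a)) k := lt_of_lt_of_le (by positivity) h2
  refine ⟨horn fun _ => wd a 1, horn (wd a), lip_horn hc fun _ => hδ,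
    lip_horn (wd_lip ha) (wd_pos ha), fun p hp => ⟨hp.1, hp.2.1, hp.2.2.1,
      hp.2.2.2.trans_le (hmono _ ⟨hp.1.le, hp.2.1.le⟩).1⟩, ?_, h3, ?_⟩
  · have : (horn fun _ => wd a 1) = Ioo 0 1 ×ˢ Ioo 0 (wd a 1) := by
      ext p; simp [horn, and_assoc]
    rw [this]; exact (convex_Ioo _ _).prod (convex_Ioo _ _)
  · rw [div_lt_iff₀ h3]
    have h4 : 18 * Λ < a * η := by rw [ha_def]; field_simp; linarith
    have h5 : η * (a ^ 2 / 18) ≤ η * mu (horn (wd a)) k := mul_le_mul_of_nonneg_left h2 hη.le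
    nlinarith [mul_le_mul_of_nonneg_left ha1 (mul_pos ha hη).le]

end

end Pool.Agent.H58.Nm
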