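import Mathlib

set_option autoImplicit false

namespace Pool.Agent.H58.Nm

open MeasureTheory

noncomputable section

/-- Bounded Lipschitz domain in the plane: open, connected (so nonempty), bounded, and near each
boundary point equal, in rotated coordinates, to the region below the graph of a Lipschitz
function. -/
def IsLipDomain (Ω : Set (ℝ × ℝ)) : Prop :=
  IsOpen Ω ∧ IsConnected Ω ∧ Bornology.IsBounded Ω ∧
    ∀ p ∈ frontier Ω, ∃ (α β r : ℝ) (K : NNReal) (γ : ℝ → ℝ), α ^ 2 + β ^ 2 = 1 ∧ 0 < r ∧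
      LipschitzWith K γ ∧
      ∀ q : ℝ × ℝ, dist q p < r → (q ∈ Ω ↔ -β * q.1 + α * q.2 < γ (α * q.1 + β * q.2))

/-- Dirichlet energy `∫_Ω |∇u|²`. -/
def energy (Ω : Set (ℝ × ℝ)) (u : ℝ × ℝ → ℝ) : ℝ :=
  ∫ p in Ω, ((fderiv ℝ u p (1, 0)) ^ 2 + (fderiv ℝ u p (0, 1)) ^ 2)

/-- Squared `L²(Ω)` norm. -/
def mass (Ω : Set (ℝ × ℝ)) (u : ℝ × ℝ → ℝ) : ℝ := ∫ p in Ω, (u p) ^ 2

/-- The Courant-Fischer min-max value `μ_k(Ω)`: the infimum, over all `(k+1)`-dimensional spaces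
of restrictions to `Ω` of `C¹` functions on the plane, of the maximal Rayleigh quotient. -/
def mu (Ω : Set (ℝ × ℝ)) (k : ℕ) : ℝ :=
  sInf {l : ℝ | ∃ u : Fin (k + 1) → ℝ × ℝ → ℝ, (∀ i, ContDiff ℝ 1 (u i)) ∧
    ∀ c : Fin (k + 1) → ℝ, c ≠ 0 → 0 < mass Ω (fun p => ∑ i, c i * u i p) ∧
      energy Ω (fun p => ∑ i, c i * u i p) ≤ l * mass Ω (fun p => ∑ i, c i * u i p)}

end

end Pool.Agent.H58.Nm
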