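import Mathlib

set_option autoImplicit false

namespace Pool.Agent.H58.NoExt
open Finset

abbrev KK : Type := ℕ → Bool

def sg (b : Bool) : ℝ := if b then -1 else 1

lemma sg_sq (b : Bool) : sg b * sg b = 1 := by cases b <;> simp [sg]

variable (𝕜 : Type) [RCLike 𝕜]

noncomputable def rad (i : ℕ) : C(KK, 𝕜) :=
  ⟨fun ω => (sg (ω i) : 𝕜), (continuous_of_discreteTopology (f := fun b => (sg b : 𝕜))).comp
    (continuous_apply i)⟩

lemma rad_apply (k : ℕ) (ω : KK) : rad 𝕜 k ω = (sg (ω k) : 𝕜) := rfl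

lemma sg_true : sg true = -1 := by simp [sg]
lemma sg_false : sg false = 1 := by simp [sg]

noncomputable def GG : Submodule 𝕜 C(KK, 𝕜) :=
  (Submodule.span 𝕜 (Set.range (rad 𝕜))).topologicalClosure

/-- the point with prescribed first coordinates -/
def pt (n : ℕ) (τ : Fin n → Bool) : KK := fun i => if h : i < n then τ ⟨i, h⟩ else false

noncomputable def uu (n : ℕ) (a : ℝ) (τ : Fin n → Bool) : C(KK, 𝕜) :=
  ⟨fun ω => (((∏ j : Fin n, (1 + Complex.I * (a * sg (τ j) * sg (ω j) : ℝ))).im : ℝ) : 𝕜), by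
    refine RCLike.continuous_ofReal.comp (Complex.continuous_im.comp
      (continuous_finsetProd _ fun j _ => ?_))
    exact (continuous_of_discreteTopology
      (f := fun b => (1 + Complex.I * (a * sg (τ j) * sg b : ℝ)))).comp (continuous_apply (j : ℕ))⟩

lemma uu_norm (n : ℕ) (a : ℝ) (ha : n * a ^ 2 ≤ 1) (τ : Fin n → Bool) : ‖uu 𝕜 n a τ‖ ≤ 2 := by
  refine (ContinuousMap.norm_le _ (by norm_num)).2 fun ω => ?_
  change ‖(((∏ j : Fin n, (1 + Complex.I * (a * sg (τ j) * sg (ω j) : ℝ))).im : ℝ) : 𝕜)‖ ≤ 2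
  rw [RCLike.norm_ofReal]
  refine (Complex.abs_im_le_norm _).trans ?_
  rw [norm_prod]
  have h1 : ∀ j : Fin n, ‖(1 + Complex.I * (a * sg (τ j) * sg (ω j) : ℝ))‖ ≤ Real.exp (a ^ 2 / 2) := by
    intro j
    refine le_of_sq_le_sq ?_ (Real.exp_pos _).le |>.trans le_rfl
    rw [← Real.exp_nat_mul, Complex.sq_norm, Complex.normSq_apply]
    have e : (a * sg (τ j) * sg (ω j)) * (a * sg (τ j) * sg (ω j)) = a ^ 2 := by
      linear_combination (a ^ 2 * sg (ω j) * sg (ω j)) * sg_sq (τ j) + a ^ 2 * sg_sq (ω j)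
    have := Real.add_one_le_exp (((2 : ℕ) : ℝ) * (a ^ 2 / 2))
    simp only [Complex.add_re, Complex.one_re, Complex.mul_re, Complex.I_re, Complex.ofReal_re,
      zero_mul, Complex.I_im, Complex.ofReal_im, mul_zero, sub_self, add_zero, mul_one,
      Complex.add_im, Complex.one_im, Complex.mul_im, one_mul, zero_add, e]
    push_cast at this ⊢
    linarith
  refine (prod_le_prod (fun j _ => norm_nonneg _) (fun j _ => h1 j)).trans ?_
  rw [prod_const, card_univ, Fintype.card_fin, ← Real.exp_nat_mul]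
  have h2 : Real.exp (n * (a ^ 2 / 2)) ≤ Real.exp (1 / 2) := Real.exp_le_exp.2 (by linarith)
  refine h2.trans (le_of_sq_le_sq ?_ (by norm_num) |>.trans le_rfl)
  rw [← Real.exp_nat_mul]
  have := Real.exp_one_lt_d9
  norm_num
  linarith

lemma uu_avg (n : ℕ) (a : ℝ) (i : Fin n) :
    ∑ τ : Fin n → Bool, (sg (τ i) : 𝕜) • uu 𝕜 n a τ = ((2 ^ n * a : ℝ) : 𝕜) • rad 𝕜 i := by
  ext ω
  rw [ContinuousMap.sum_apply]
  change ∑ τ : Fin n → Bool, (sg (τ i) : 𝕜) *
    (((∏ j : Fin n, (1 + Complex.I * (a * sg (τ j) * sg (ω j) : ℝ))).im : ℝ) : 𝕜) =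
    ((2 ^ n * a : ℝ) : 𝕜) * (sg (ω i) : 𝕜)
  simp only [← RCLike.ofReal_mul, ← RCLike.ofReal_sum]
  congr 1
  have h1 := Finset.prod_univ_sum (fun _ : Fin n => (univ : Finset Bool))
    (fun j b => (if j = i then (sg b : ℂ) else 1) * (1 + Complex.I * (a * sg b * sg (ω j) : ℝ)))
  rw [Fintype.piFinset_univ] at h1
  simp only [prod_mul_distrib, prod_ite_eq', mem_univ, if_true] at h1
  have h2 : ∀ j : Fin n, ∑ b : Bool, (if j = i then (sg b : ℂ) else 1) *
      (1 + Complex.I * (a * sg b * sg (ω j) : ℝ)) =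
      2 * (if j = i then Complex.I * (a * sg (ω i) : ℝ) else 1) := by
    intro j
    split_ifs with h
    · subst h
      rw [Fintype.sum_bool, sg_true, sg_false]; push_cast; ring
    · rw [Fintype.sum_bool, sg_true, sg_false]; push_cast; ring
  simp only [h2, prod_mul_distrib, prod_ite_eq', mem_univ, if_true, prod_const, card_univ,
    Fintype.card_fin] at h1
  have h3 := congrArg Complex.im h1
  rw [Complex.im_sum] at h3
  simp only [Complex.im_ofReal_mul] at h3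
  rw [← h3]
  have e : (2 : ℂ) ^ n = ((2 ^ n : ℝ) : ℂ) := by push_cast; rfl
  rw [e, Complex.im_ofReal_mul]
  simp only [Complex.mul_im, Complex.I_re, Complex.ofReal_im, mul_zero, Complex.I_im,
    Complex.ofReal_re, one_mul, zero_add]
  ring

theorem main (F : (n : ℕ) → (Fin n → Bool) → C(KK, 𝕜) →L[𝕜] 𝕜) (C : ℝ)
    (hF : ∀ n τ, ∀ g ∈ GG 𝕜, F n τ g = g (pt n τ)) (hC : ∀ n τ u, ‖F n τ u‖ ≤ C * ‖u‖)
    (hd : Dense {z : C(KK, 𝕜) | ∃ g ∈ GG 𝕜, ∃ y, (∀ n τ, F n τ y = 0) ∧ z = g + y}) : False := by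
  have hr : ∀ i, rad 𝕜 i ∈ GG 𝕜 := fun i =>
    Submodule.le_topologicalClosure _ (Submodule.subset_span ⟨i, rfl⟩)
  obtain ⟨m, hm⟩ := exists_nat_gt (2 * C)
  have hm0 : (0 : ℝ) < m := by
    have h1 := hC 0 (fun _ => true) (rad 𝕜 0)
    rw [hF _ _ _ (hr 0)] at h1
    have h2 : ‖rad 𝕜 0 (pt 0 fun _ => true)‖ = 1 := by simp [rad, pt, sg]
    by_contra hc
    have : C * ‖rad 𝕜 0‖ ≤ 0 := mul_nonpos_of_nonpos_of_nonneg (by linarith) (norm_nonneg _)
    linarith
  set n := m ^ 2 with hn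
  set c : Fin n → C(KK, 𝕜) →L[𝕜] 𝕜 := fun i =>
    F n (fun _ => false) - F n (fun j => decide (j = i)) with hc
  have hcr : ∀ (i : Fin n) (k : ℕ), c i (rad 𝕜 k) = if k = i then 2 else 0 := by
    intro i k
    have e : c i (rad 𝕜 k) = F n (fun _ => false) (rad 𝕜 k) -
      F n (fun j => decide (j = i)) (rad 𝕜 k) := rfl
    rw [e, hF _ _ _ (hr k), hF _ _ _ (hr k), rad_apply, rad_apply]
    simp only [pt]
    by_cases hk : k < n
    · by_cases h : k = i
      · subst h; simp [sg]; norm_num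
      · have : (⟨k, hk⟩ : Fin n) ≠ i := fun h' => h (congrArg Fin.val h')
        simp [hk, h, this]
    · have : k ≠ i := by have := i.2; omega
      simp [hk, this]
  have key : ∀ (τ : Fin n → Bool) (u : C(KK, 𝕜)),
      ∑ i, (sg (τ i) : 𝕜) * c i u = F n τ u - F n (fun j => !τ j) u := by
    intro τ
    set Λ : C(KK, 𝕜) →L[𝕜] 𝕜 := ∑ i, (sg (τ i) : 𝕜) • c i - (F n τ - F n (fun j => !τ j)) with hΛ
    have hΛa : ∀ u, Λ u = ∑ i, (sg (τ i) : 𝕜) * c i u - (F n τ u - F n (fun j => !τ j) u) := by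
      intro u; simp [hΛ]
    have h1 : GG 𝕜 ≤ Λ.ker := by
      refine Submodule.topologicalClosure_minimal _ ?_ Λ.isClosed_ker
      rw [Submodule.span_le]
      rintro _ ⟨k, rfl⟩
      change Λ (rad 𝕜 k) = 0
      rw [hΛa, hF _ _ _ (hr k), hF _ _ _ (hr k)]
      simp only [hcr, rad_apply, pt]
      by_cases hk : k < n
      · rw [sum_eq_single ⟨k, hk⟩]
        · simp only [hk, dite_true, if_true]
          cases τ ⟨k, hk⟩ <;> simp [sg] <;> norm_num
        · intro j _ hj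
          have : k ≠ j := fun h => hj (Fin.ext h.symm)
          simp [this]
        · simp
      · have : ∀ j : Fin n, k ≠ j := fun j => by have := j.2; omega
        simp [hk, this]
    have h2 : ∀ u, Λ u = 0 := by
      refine fun u => hd.induction (P := fun u => Λ u = 0) ?_
        (isClosed_eq Λ.continuous continuous_const) u
      rintro _ ⟨g, hg, y, hy, rfl⟩
      have a1 : Λ g = 0 := h1 hg
      rw [map_add, a1, hΛa]
      simp [hc, hy]
    intro u
    have := h2 u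
    rwa [hΛa, sub_eq_zero] at this
  have hna : (n : ℝ) * (1 / m) ^ 2 ≤ 1 := by rw [hn]; push_cast; field_simp; rfl
  have h1 : ∑ τ : Fin n → Bool, ∑ i, (sg (τ i) : 𝕜) * c i (uu 𝕜 n (1 / m) τ) =
      ((2 ^ n * (2 * m) : ℝ) : 𝕜) := by
    rw [sum_comm]
    have : ∀ i : Fin n, ∑ τ : Fin n → Bool, (sg (τ i) : 𝕜) * c i (uu 𝕜 n (1 / m) τ) =
        ((2 ^ n * (1 / m) * 2 : ℝ) : 𝕜) := by
      intro i
      have := congrArg (c i) (uu_avg 𝕜 n (1 / m) i)
      simp only [map_sum, map_smul, smul_eq_mul, hcr, if_true] at this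
      rw [this]; push_cast; ring
    simp only [this, sum_const, card_univ, Fintype.card_fin, nsmul_eq_mul]
    rw [← RCLike.ofReal_natCast, ← RCLike.ofReal_mul]
    congr 1
    rw [hn]; push_cast; field_simp
  have h2 : ‖∑ τ : Fin n → Bool, ∑ i, (sg (τ i) : 𝕜) * c i (uu 𝕜 n (1 / m) τ)‖ ≤ 2 ^ n * (4 * C) := by
    have hC0 : ∀ τ σ, ‖F n σ (uu 𝕜 n (1 / m) τ)‖ ≤ 2 * C := by
      intro τ σ
      have h0 : 0 ≤ C := by
        have h1 := hC 0 (fun _ => true) (rad 𝕜 0)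
        rw [hF _ _ _ (hr 0)] at h1
        have h2 : ‖rad 𝕜 0 (pt 0 fun _ => true)‖ = 1 := by simp [rad, pt, sg]
        by_contra hc
        have : C * ‖rad 𝕜 0‖ ≤ 0 := mul_nonpos_of_nonpos_of_nonneg (by linarith) (norm_nonneg _)
        linarith
      refine (hC _ _ _).trans ?_
      rw [mul_comm 2 C]
      exact mul_le_mul_of_nonneg_left (uu_norm 𝕜 n _ hna τ) h0
    refine (norm_sum_le _ _).trans ?_
    calc _ ≤ ∑ _τ : Fin n → Bool, 4 * C := sum_le_sum fun τ _ => by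
          rw [key]
          linarith [norm_sub_le (F n τ (uu 𝕜 n (1 / m) τ)) (F n (fun j => !τ j) (uu 𝕜 n (1 / m) τ)),
            hC0 τ τ, hC0 τ (fun j => !τ j)]
      _ = _ := by simp
  rw [h1, RCLike.norm_ofReal, abs_of_pos (by positivity)] at h2
  have h3 : (0 : ℝ) < 2 ^ n := by positivity
  nlinarith

end Pool.Agent.H58.NoExt
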