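import Mathlib

set_option autoImplicit false

namespace Pool.Agent.H58.NoFHC
open Filter Topology Finset BoundedContinuousFunction

def e : ℕ → ℕ
  | 0 => 0
  | m + 1 => 3 * e m + 2

lemma e_mono : StrictMono e := strictMono_nat_of_lt_succ fun m => by rw [e]; omega

noncomputable def Φ (k m : ℕ) : (ℕ → ℝ) →ₗ[ℝ] ℝ where
  toFun z := (∑ t ∈ range (2 ^ e m), (-1) ^ t * z (k + t * 2 ^ e m)) / (2 ^ e m * 2 ^ k)
  map_add' z w := by simp [mul_add, sum_add_distrib, add_div]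
  map_smul' c z := by simp [mul_sum, mul_div_assoc', mul_left_comm]

lemma Φ_apply (k m : ℕ) (z : ℕ → ℝ) : Φ k m z =
    (∑ t ∈ range (2 ^ e m), (-1) ^ t * z (k + t * 2 ^ e m)) / (2 ^ e m * 2 ^ k) := rfl

lemma Φ_zero (k : ℕ) (z : ℕ → ℝ) : 2 ^ k * Φ k 0 z = z k := by
  simp [Φ_apply, e]; field_simp

lemma Φ_congr {k m : ℕ} {z w : ℕ → ℝ} (h : ∀ j, j < k + 4 ^ e m → z j = w j) : Φ k m z = Φ k m w := by
  rw [Φ_apply, Φ_apply, sum_congr rfl fun t ht => ?_]
  rw [h]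
  have := Nat.mul_lt_mul_of_pos_right (mem_range.1 ht) (show 0 < 2 ^ e m by positivity)
  rw [← mul_pow] at this
  norm_num at this
  omega

lemma Φ_le {k m : ℕ} {z : ℕ → ℝ} {A : ℝ} (h : ∀ j, |z j| ≤ A) : |Φ k m z| ≤ A / 2 ^ k := by
  rw [Φ_apply, abs_div, abs_of_pos (show (0 : ℝ) < 2 ^ e m * 2 ^ k by positivity), ← div_div]
  gcongr
  rw [div_le_iff₀ (by positivity)]
  refine (abs_sum_le_sum_abs _ _).trans ((sum_le_card_nsmul _ _ A fun t _ => ?_).trans ?_)
  · simpa [abs_mul] using h _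
  · simp [mul_comm]

def Sm (z : ℕ → ℝ) (ε : ℝ) : Prop := ∀ k m, |Φ k m z| ≤ ε

lemma Sm.add {z w : ℕ → ℝ} {ε δ : ℝ} (h : Sm z ε) (h' : Sm w δ) : Sm (z + w) (ε + δ) := fun k m => by
  rw [map_add]; exact (abs_add_le _ _).trans (add_le_add (h k m) (h' k m))

lemma Sm.sub {z w : ℕ → ℝ} {ε δ : ℝ} (h : Sm z ε) (h' : Sm w δ) : Sm (z - w) (ε + δ) := fun k m => by
  rw [map_sub]; exact (abs_sub _ _).trans (add_le_add (h k m) (h' k m))

lemma Sm.mono {z : ℕ → ℝ} {ε δ : ℝ} (h : Sm z ε) (h' : ε ≤ δ) : Sm z δ := fun k m => (h k m).trans h'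

lemma Sm.of_le {z : ℕ → ℝ} {A : ℝ} (h : ∀ j, |z j| ≤ A) : Sm z A := fun _ _ =>
  (Φ_le h).trans (div_le_self ((abs_nonneg _).trans (h 0)) (one_le_pow₀ one_le_two))

noncomputable def cut (R : ℕ) (p : ℕ → ℝ) : ℕ → ℝ := fun j => if R ≤ j then p j else 0

lemma alt (R k P Q : ℕ) : ∑ t ∈ range Q, (-1 : ℝ) ^ t * (if R ≤ k + t * P then 1 else 0) = 0 ∨
    (∑ t ∈ range Q, (-1 : ℝ) ^ t * (if R ≤ k + t * P then 1 else 0) = (-1) ^ (Q + 1) ∧
      R ≤ k + Q * P) := by
  induction Q with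
  | zero => simp
  | succ Q ih =>
    rw [sum_range_succ]
    rcases ih with h | ⟨h, h'⟩
    · by_cases h' : R ≤ k + Q * P
      · right; rw [h, if_pos h']; exact ⟨by ring, by rw [add_mul]; omega⟩
      · left; rw [h, if_neg h']; ring
    · left; rw [h, if_pos h']; ring

lemma est {p : ℕ → ℝ} {A : ℝ} {l s R : ℕ} (hp : ∀ j i, p (j + i * 2 ^ l) = p j) (hA : ∀ j, |p j| ≤ A)
    (hR : 2 * 4 ^ s ≤ R) (H : ∀ m, R < 2 * 4 ^ e m → l ≤ e m) : Sm (cut R p) (A / 2 ^ s) := by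
  intro k m
  have hA0 : 0 ≤ A := (abs_nonneg _).trans (hA 0)
  by_cases h1 : k + 4 ^ e m ≤ R
  · have : Φ k m (cut R p) = Φ k m 0 := Φ_congr fun j hj => if_neg (by omega)
    rw [this, map_zero, abs_zero]; positivity
  by_cases h2 : R < 2 * 4 ^ e m
  · obtain ⟨d, hd⟩ := Nat.exists_eq_add_of_le (H m h2)
    have hs : s ≤ e m := ((Nat.pow_lt_pow_iff_right (by norm_num : 1 < 4)).1 (by omega)).le
    have e1 : ∀ t ∈ range (2 ^ e m), (-1) ^ t * cut R p (k + t * 2 ^ e m) =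
        p k * ((-1 : ℝ) ^ t * (if R ≤ k + t * 2 ^ e m then 1 else 0)) := by
      intro t _
      have : p (k + t * 2 ^ e m) = p k := by
        rw [hd, pow_add, mul_comm (2 ^ l), ← mul_assoc, hp]
      unfold cut
      split_ifs
      · rw [this]; ring
      · ring
    rw [Φ_apply, sum_congr rfl e1, ← mul_sum, abs_div, abs_mul,
      abs_of_pos (show (0 : ℝ) < 2 ^ e m * 2 ^ k by positivity)]
    have a1 : |∑ t ∈ range (2 ^ e m), (-1 : ℝ) ^ t * (if R ≤ k + t * 2 ^ e m then 1 else 0)| ≤ 1 := by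
      rcases alt R k (2 ^ e m) (2 ^ e m) with h | ⟨h, -⟩ <;> rw [h] <;> simp
    have a2 : (2 : ℝ) ^ s ≤ 2 ^ e m * 2 ^ k :=
      (pow_le_pow_right₀ one_le_two hs).trans (le_mul_of_one_le_right (by positivity)
        (one_le_pow₀ one_le_two))
    refine div_le_div₀ hA0 ?_ (by positivity) a2
    nlinarith [hA k, abs_nonneg (p k)]
  · have : s ≤ k := by have := Nat.lt_pow_self (n := s) (show 1 < 4 by norm_num); omega
    refine (Φ_le (A := A) fun j => ?_).trans ?_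
    · unfold cut; split_ifs; exacts [hA j, by simpa]
    · gcongr; exact one_le_two

lemma est' {p : ℕ → ℝ} {A : ℝ} {l s R : ℕ} (hp : ∀ j i, p (j + i * 2 ^ l) = p j)
    (hA : ∀ j, |p j| ≤ A) (hR : 2 * 4 ^ s ≤ R) (H : l ≤ s) : Sm (cut R p) (A / 2 ^ s) :=
  est hp hA hR fun m hm =>
    H.trans ((Nat.pow_lt_pow_iff_right (by norm_num : 1 < 4)).1 (by omega)).le

lemma fin_bd {z : ℕ → ℝ} {N : ℕ} (h : ∀ j, N ≤ j → z j = 0) (j : ℕ) :
    |z j| ≤ ∑ i ∈ range N, |z i| := by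
  by_cases hj : j < N
  · exact single_le_sum (f := fun i => |z i|) (fun _ _ => abs_nonneg _) (mem_range.2 hj)
  · rw [h j (by omega), abs_zero]; positivity

abbrev Y : Type := (ℕ × ℕ) →ᵇ ℝ

noncomputable def M : Submodule ℝ Y where
  carrier := {F | ∃ z : ℕ → ℝ, ∃ N, (∀ j, N ≤ j → z j = 0) ∧ ∀ k m, F (k, m) = Φ k m z}
  add_mem' := by
    rintro F G ⟨z, N, h1, h2⟩ ⟨w, N', h3, h4⟩
    exact ⟨z + w, N + N', fun j hj => by simp [h1 j (by omega), h3 j (by omega)],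
      fun k m => by simp [h2, h4]⟩
  zero_mem' := ⟨0, 0, fun _ _ => rfl, fun k m => by simp⟩
  smul_mem' := by
    rintro c F ⟨z, N, h1, h2⟩
    exact ⟨c • z, N, fun j hj => by simp [h1 j hj], fun k m => by simp [h2]⟩

def X : Type := M.topologicalClosure

noncomputable instance : NormedAddCommGroup X :=
  inferInstanceAs (NormedAddCommGroup M.topologicalClosure)

noncomputable instance : NormedSpace ℝ X := inferInstanceAs (NormedSpace ℝ M.topologicalClosure)

instance : CompleteSpace X := M.isClosed_topologicalClosure.completeSpace_coe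

noncomputable def c : X →ₗ[ℝ] (ℕ → ℝ) where
  toFun F j := 2 ^ j * F.1 (j, 0)
  map_add' F G := by ext j; exact mul_add _ _ _
  map_smul' a F := by ext j; exact mul_left_comm _ _ _

lemma c_apply (F : X) (j : ℕ) : c F j = 2 ^ j * F.1 (j, 0) := rfl

lemma rep (F : X) (k m : ℕ) : F.1 (k, m) = Φ k m (c F) := by
  have : closure (M : Set Y) ⊆ {G | G (k, m) = Φ k m (fun j => 2 ^ j * G (j, 0))} := by
    refine closure_minimal ?_ (isClosed_eq (continuous_eval_const _) ?_)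
    · rintro G ⟨z, N, -, h⟩
      simp only [Set.mem_ofPred_eq, h, Φ_zero]
    · simp only [Φ_apply]
      exact (continuous_finsetSum _ fun t _ => continuous_const.mul
        (continuous_const.mul (continuous_eval_const _))).div_const _
  exact this F.2

lemma norm_le {F : X} {ε : ℝ} (h : Sm (c F) ε) : ‖F‖ ≤ ε :=
  (BoundedContinuousFunction.norm_le ((abs_nonneg _).trans (h 0 0))).2 fun ⟨k, m⟩ => by
    change |F.1 (k, m)| ≤ ε
    rw [rep]; exact h k m

lemma dist_le' {F G : X} {ε : ℝ} (h : Sm (c F - c G) ε) : dist G F ≤ ε :=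
  (dist_eq_norm' G F).trans_le (norm_le (by rwa [map_sub]))

lemma sm_norm (F : X) : Sm (c F) ‖F‖ := fun k m => by
  rw [← rep]; exact F.1.norm_coe_le_norm _

lemma c_inj {F G : X} (h : c F = c G) : F = G := by
  refine Subtype.ext ?_
  ext ⟨k, m⟩; rw [rep, rep, h]

lemma exists_c {z : ℕ → ℝ} (h : ∀ ε : ℝ, 0 < ε → ∃ N, Sm (cut N z) ε) : ∃ F : X, c F = z := by
  have h0 : ∀ N j, N ≤ j → (z - cut N z) j = 0 := fun N j hj => by simp [cut, hj]
  have h1 : ∀ N, Sm (z - cut N z) _ := fun N => Sm.of_le (fin_bd (h0 N))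
  obtain ⟨N, hN⟩ := h 1 one_pos
  have h2 := (h1 N).add hN
  rw [sub_add_cancel] at h2
  refine ⟨⟨ofNormedAddCommGroupDiscrete (fun a => Φ a.1 a.2 z) _ fun a => h2 a.1 a.2, ?_⟩, ?_⟩
  · refine Metric.mem_closure_iff.2 fun ε hε => ?_
    obtain ⟨N, hN⟩ := h (ε / 2) (by positivity)
    refine ⟨ofNormedAddCommGroupDiscrete (fun a => Φ a.1 a.2 (z - cut N z)) _ fun a => h1 N a.1 a.2,
      ⟨_, N, h0 N, fun _ _ => rfl⟩, lt_of_le_of_lt ((dist_le (by positivity)).2 fun a => ?_)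
      (half_lt_self hε)⟩
    change |Φ a.1 a.2 z - Φ a.1 a.2 (z - cut N z)| ≤ _
    rw [← map_sub, sub_sub_cancel]
    exact hN _ _
  · ext j; exact Φ_zero j z

lemma approx0 (F : X) (ε : ℝ) (hε : 0 < ε) :
    ∃ z : ℕ → ℝ, ∃ N, (∀ j, N ≤ j → z j = 0) ∧ Sm (c F - z) ε := by
  obtain ⟨G, ⟨z, N, h1, h2⟩, h3⟩ := Metric.mem_closure_iff.1 F.2 ε hε
  refine ⟨z, N, h1, fun k m => ?_⟩
  rw [map_sub, ← rep, ← h2]
  exact (dist_coe_le_dist _).trans h3.le

noncomputable def TY : Y →L[ℝ] Y :=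
  LinearMap.mkContinuous
    { toFun := fun F => ofNormedAddCommGroupDiscrete (fun a => 2 * F (a.1 + 1, a.2)) (2 * ‖F‖)
        fun a => by rw [norm_mul, Real.norm_two]; linarith [F.norm_coe_le_norm (a.1 + 1, a.2)]
      map_add' := fun F G => by ext a; simp [mul_add]
      map_smul' := fun r F => by ext a; simp; ring }
    2 fun F => (BoundedContinuousFunction.norm_le (by positivity)).2 fun a => by
      change ‖2 * F (a.1 + 1, a.2)‖ ≤ _
      rw [norm_mul, Real.norm_two]; linarith [F.norm_coe_le_norm (a.1 + 1, a.2)]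

noncomputable def T : X →L[ℝ] X := TY.restrict fun F hF => map_mem_closure TY.continuous hF (by
  rintro G ⟨z, N, h1, h2⟩
  refine ⟨fun j => z (j + 1), N, fun j hj => h1 _ (by omega), fun k m => ?_⟩
  change 2 * G (k + 1, m) = _
  rw [h2, Φ_apply, Φ_apply, pow_succ]
  simp only [add_right_comm k 1]
  field_simp)

lemma c_T (F : X) (j : ℕ) : c (T F) j = c F (j + 1) := by
  change 2 ^ j * (2 * F.1 (j + 1, 0)) = 2 ^ (j + 1) * F.1 (j + 1, 0)
  ring

lemma c_pow (n : ℕ) (F : X) (j : ℕ) : c ((T ^ n) F) j = c F (n + j) := by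
  induction n generalizing j with
  | zero => simp
  | succ n ih => rw [pow_succ', mul_apply_eq_comp, c_T, ih]; ring_nf

lemma small (A ε : ℝ) (hε : 0 < ε) : ∃ s₀ : ℕ, ∀ s, s₀ ≤ s → (9 * s + A) / 2 ^ s ≤ ε := by
  have h1 := tendsto_pow_const_div_const_pow_of_one_lt 1 (one_lt_two (α := ℝ))
  have h2 := tendsto_pow_const_div_const_pow_of_one_lt 0 (one_lt_two (α := ℝ))
  have := (h1.const_mul 9).add (h2.const_mul A)
  simp only [mul_zero, add_zero] at this
  obtain ⟨s₀, h⟩ := eventually_atTop.1 (this.eventually (ge_mem_nhds hε))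
  exact ⟨s₀, fun s hs => le_trans (le_of_eq (by ring)) (h s hs)⟩

lemma small' (A ε : ℝ) (hε : 0 < ε) : ∃ s₀ : ℕ, ∀ s, s₀ ≤ s → A / 2 ^ s ≤ ε := by
  obtain ⟨s₀, h⟩ := small A ε hε
  refine ⟨s₀, fun s hs => le_trans ?_ (h s hs)⟩
  gcongr; linarith [(Nat.cast_nonneg s : (0 : ℝ) ≤ s)]

noncomputable def per (a : ℕ × (ℕ →₀ ℚ)) : ℕ → ℝ := fun j => (a.2 (j % 2 ^ a.1) : ℚ)

lemma per_per (a : ℕ × (ℕ →₀ ℚ)) (j i : ℕ) : per a (j + i * 2 ^ a.1) = per a j := by
  simp [per]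

lemma per_bd (a : ℕ × (ℕ →₀ ℚ)) : ∃ B : ℕ, ∀ j, |per a j| ≤ B := by
  obtain ⟨B, hB⟩ := exists_nat_ge (∑ i ∈ range (2 ^ a.1), |(a.2 i : ℝ)|)
  exact ⟨B, fun j => (single_le_sum (f := fun i => |(a.2 i : ℝ)|) (fun _ _ => abs_nonneg _)
    (mem_range.2 (Nat.mod_lt _ (by positivity)))).trans hB⟩

lemma approx (F : X) (ε : ℝ) (hε : 0 < ε) : ∃ a, Sm (c F - per a) ε := by
  obtain ⟨z, N, h1, h2⟩ := approx0 F (ε / 3) (by positivity)
  choose q hq using fun j => exists_rat_near (z j) (show 0 < ε / 3 by positivity)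
  set f : ℕ →₀ ℚ := Finsupp.onFinset (range N) (fun j => if j < N then q j else 0)
    (fun j hj => by by_contra hc; simp at hc hj; omega) with hf
  have hfa : ∀ j, f j = if j < N then q j else 0 := fun j => rfl
  have h3 : Sm (z - fun j => (f j : ℝ)) (ε / 3) := Sm.of_le fun j => by
    rw [Pi.sub_apply, hfa]
    split_ifs with h
    · exact (hq j).le
    · simp [h1 j (by omega)]; positivity
  have hb := fin_bd (z := fun j => (f j : ℝ)) (N := N) fun j hj => by simp [hfa, not_lt.2 hj]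
  obtain ⟨s, hs⟩ := small' (∑ i ∈ range N, |(f i : ℝ)|) (ε / 3) (by positivity)
  have k1 : s + N ≤ e (s + N) := e_mono.le_apply
  have k2 : ∀ m, 2 * 4 ^ e m ≤ 2 ^ e (m + 1) := fun m => by
    rw [show 2 * 4 ^ e m = 2 ^ (2 * e m + 1) by rw [pow_succ, pow_mul]; ring, e]
    exact Nat.pow_le_pow_right two_pos (by omega)
  have h4 := est (p := per (e (s + N + 1), f)) (l := e (s + N + 1)) (s := e (s + N))
    (R := 2 ^ e (s + N + 1)) (per_per _) (fun j => hb _) (k2 _) fun m hm => by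
      by_contra hc
      have a1 : m + 1 ≤ s + N + 1 := e_mono.lt_iff_lt.1 (not_le.1 hc)
      have := Nat.pow_le_pow_right two_pos (e_mono.monotone a1)
      have := k2 m
      omega
  refine ⟨(e (s + N + 1), f), ?_⟩
  have h5 := (h2.add h3).sub (h4.mono (hs _ (by omega)))
  have e1 : c F - z + (z - fun j => (f j : ℝ)) - cut (2 ^ e (s + N + 1)) (per (e (s + N + 1), f)) =
      c F - per (e (s + N + 1), f) := by
    ext j
    simp only [Pi.sub_apply, Pi.add_apply, cut]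
    split_ifs with h
    · have a1 : e (s + N) < e (s + N + 1) := e_mono (by omega)
      have a2 := @Nat.lt_two_pow_self (e (s + N + 1))
      rw [hfa, if_neg (by omega)]; simp
    · simp [per, Nat.mod_eq_of_lt (not_le.1 h)]
  rw [e1] at h5
  exact h5.mono (by linarith)

lemma exists_per (a : ℕ × (ℕ →₀ ℚ)) : ∃ F : X, c F = per a := exists_c fun ε hε => by
  obtain ⟨B, hB⟩ := per_bd a
  obtain ⟨s, hs⟩ := small' B ε hε
  exact ⟨_, (est' (per_per a) hB le_rfl (Nat.le_add_left _ s)).mono (hs _ (by omega))⟩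

lemma dense_per : Dense {x : X | ∃ n : ℕ, 0 < n ∧ (T ^ n) x = x} := by
  intro F
  refine Metric.mem_closure_iff.2 fun ε hε => ?_
  obtain ⟨a, ha⟩ := approx F (ε / 2) (by positivity)
  obtain ⟨G, hG⟩ := exists_per a
  refine ⟨G, ⟨2 ^ a.1, by positivity, c_inj ?_⟩, ?_⟩
  · ext j; rw [c_pow, hG, add_comm, ← per_per a j 1, one_mul]
  · rw [dist_comm]
    refine lt_of_le_of_lt (dist_le' ?_) (half_lt_self hε)
    rwa [hG]

lemma exists_fin {z : ℕ → ℝ} {N : ℕ} (h : ∀ j, N ≤ j → z j = 0) : ∃ F : X, c F = z :=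
  exists_c fun ε hε => ⟨N, Sm.of_le fun j => by
    unfold cut; split_ifs with h' <;> simp [h', h, hε.le]⟩

lemma mixing (U V : Set X) (hU : IsOpen U) (hV : IsOpen V) (hU' : U.Nonempty) (hV' : V.Nonempty) :
    ∃ N : ℕ, ∀ n : ℕ, N ≤ n → ((⇑(T ^ n)) ⁻¹' V ∩ U).Nonempty := by
  obtain ⟨u, hu⟩ := hU'
  obtain ⟨v, hv⟩ := hV'
  obtain ⟨ε, hε, hb⟩ := Metric.nhds_basis_closedBall.mem_iff.1 (hU.mem_nhds hu)
  obtain ⟨δ, hδ, hb'⟩ := Metric.nhds_basis_closedBall.mem_iff.1 (hV.mem_nhds hv)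
  obtain ⟨z, N, h1, h2⟩ := approx0 u (ε / 2) (by positivity)
  obtain ⟨w, N', h3, h4⟩ := approx0 v δ hδ
  obtain ⟨s, hs⟩ := small' (2 * ∑ i ∈ range N', |w i|) (ε / 2) (by positivity)
  refine ⟨N + 2 * 4 ^ s, fun n hn => ?_⟩
  have key : ∀ L, Sm (fun j => if n ≤ j ∧ j < n + L then w (j - n) else 0)
      (2 * (∑ i ∈ range L, |w i|) / 2 ^ s) := by
    intro L
    induction L with
    | zero => exact Sm.of_le fun j => by rw [if_neg (by omega)]; simp
    | succ L ih =>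
      have a : ∀ R, n ≤ R → Sm (cut R fun _ => w L) (|w L| / 2 ^ s) := fun R hR =>
        est' (l := 0) (fun _ _ => rfl) (fun _ => le_rfl) (by omega) (Nat.zero_le _)
      have b := ih.add ((a (n + L) (by omega)).sub (a (n + L + 1) (by omega)))
      refine Sm.mono (z := _) (fun k m => le_trans (le_of_eq ?_) (b k m))
        (le_of_eq (by rw [sum_range_succ]; ring))
      congr 2
      ext j
      simp only [Pi.add_apply, Pi.sub_apply, cut]
      split_ifs <;> first | omega | ring_nf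
      all_goals (congr 1; omega)
  obtain ⟨G, hG⟩ := exists_fin (z := z + fun j => if n ≤ j ∧ j < n + N' then w (j - n) else 0)
    (N := n + N') fun j hj => by
      rw [Pi.add_apply, h1 j (by omega), if_neg (by omega), add_zero]
  refine ⟨G, hb' ?_, hb ?_⟩
  · refine dist_le' ?_
    have : c ((T ^ n) G) = w := by
      ext j
      rw [c_pow, hG, Pi.add_apply, h1 _ (by omega), zero_add]
      split_ifs with h
      · rw [Nat.add_sub_cancel_left]
      · rw [h3 j (by omega)]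
    rwa [this]
  · refine dist_le' ?_
    rw [hG, ← sub_sub]
    exact (h2.sub ((key N').mono (hs s le_rfl))).mono (by linarith)

noncomputable def en : ℕ → ℕ × (ℕ →₀ ℚ) := (exists_surjective_nat (ℕ × (ℕ →₀ ℚ))).choose

lemma en_surj : Function.Surjective en := (exists_surjective_nat (ℕ × (ℕ →₀ ℚ))).choose_spec

open Classical in
noncomputable def pb (b : ℕ) : ℕ → ℝ :=
  if (en (padicValNat 2 b)).1 + 1 ≤ b ∧ ∀ j, |per (en (padicValNat 2 b)) j| ≤ b then
    per (en (padicValNat 2 b)) else 0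

lemma pb_bd (b j : ℕ) : |pb b j| ≤ b := by
  unfold pb; split_ifs with h
  · exact h.2 j
  · simp

lemma pb_per (b j i : ℕ) : pb (b + 1) (j + i * 2 ^ b) = pb (b + 1) j := by
  unfold pb; split_ifs with h
  · obtain ⟨d, hd⟩ := Nat.exists_eq_add_of_le (Nat.le_of_succ_le_succ h.1)
    rw [show i * 2 ^ b = i * 2 ^ d * 2 ^ (en (padicValNat 2 (b + 1))).1 by
      rw [mul_assoc, ← pow_add, add_comm d, ← hd], per_per]
  · rfl

noncomputable def y (n : ℕ) : ℝ := pb (Nat.log 4 n) n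

lemma tail (n b : ℕ) (h : 2 * n ≤ 4 ^ (b + 1)) :
    Sm (cut (4 ^ (b + 1) - n) fun j => y (n + j)) (8 * (b + 2) / 2 ^ (b + 1)) := by
  have key : ∀ B, b ≤ B → Sm (fun j => if 4 ^ (b + 1) ≤ n + j ∧ n + j < 4 ^ (B + 1) then y (n + j) else 0)
      (8 * (b + 2) / 2 ^ (b + 1) - 8 * (B + 2) / 2 ^ (B + 1)) := by
    intro B hB
    induction B, hB using Nat.le_induction with
    | base => exact Sm.of_le fun j => by rw [if_neg (by omega)]; simp
    | succ B hB ih =>
      have p1 : 4 ^ (b + 1) ≤ 4 ^ (B + 1) := Nat.pow_le_pow_right (by norm_num) (by omega)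
      have p2 : 4 ^ (B + 1) = 4 * 4 ^ B := by ring
      have p3 : 4 ^ (B + 1 + 1) = 16 * 4 ^ B := by ring
      have a : ∀ R, 4 ^ (B + 1) - n ≤ R →
          Sm (cut R fun j => pb (B + 1) (n + j)) ((B + 1 : ℕ) / 2 ^ B) := fun R hR =>
        est' (l := B) (fun j i => by rw [← add_assoc, pb_per]) (fun _ => pb_bd _ _) (by omega) le_rfl
      have b := ih.add ((a _ le_rfl).sub (a (4 ^ (B + 1 + 1) - n) (by omega)))
      refine Sm.mono (z := _) (fun k m => le_trans (le_of_eq ?_) (b k m))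
        (le_of_eq (by push_cast; field_simp; ring))
      congr 2
      ext j
      simp only [Pi.add_apply, Pi.sub_apply, cut]
      split_ifs <;> first | omega | ring_nf
      all_goals rw [y, Nat.log_eq_of_pow_le_of_lt_pow (m := B + 1) (by omega) (by omega)]
      all_goals ring_nf
  intro k m
  have h1 := Nat.lt_pow_self (n := b + (n + (k + 4 ^ e m)) + 1) (show 1 < 4 by norm_num)
  have h2 := key (b + (n + (k + 4 ^ e m))) (Nat.le_add_right _ _) k m
  refine le_trans (le_of_eq ?_) (h2.trans (sub_le_self _ (by positivity)))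
  congr 1
  refine Φ_congr fun j hj => ?_
  unfold cut
  generalize 4 ^ (b + (n + (k + 4 ^ e m)) + 1) = Q at h1 ⊢
  generalize 4 ^ (b + 1) = Q' at h ⊢
  split_ifs <;> first | omega | rfl

lemma exists_y : ∃ F : X, c F = y := exists_c fun ε hε => by
  obtain ⟨s, hs⟩ := small 8 ε hε
  refine ⟨4 ^ (s + 1), ?_⟩
  have := tail 0 s (Nat.zero_le _)
  simp only [zero_add, Nat.sub_zero] at this
  refine this.mono (le_trans ?_ (hs (s + 1) (by omega)))
  gcongr; push_cast; linarith [(Nat.cast_nonneg s : (0 : ℝ) ≤ s)]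

lemma fhc : ∃ x : X, ∀ U : Set X, IsOpen U → U.Nonempty →
    ∃ δ : ℝ, 0 < δ ∧ ∃ N₀ : ℕ, ∀ N : ℕ, N₀ ≤ N →
      δ * (N : ℝ) ≤ (Nat.card {n : ℕ // n < N ∧ (T ^ n) x ∈ U} : ℝ) := by
  obtain ⟨x, hx⟩ := exists_y
  refine ⟨x, fun U hU ⟨v, hv⟩ => ?_⟩
  obtain ⟨ε, hε, hb⟩ := Metric.nhds_basis_closedBall.mem_iff.1 (hU.mem_nhds hv)
  obtain ⟨a, ha⟩ := approx v (ε / 2) (by positivity)
  obtain ⟨B, hB⟩ := per_bd a
  obtain ⟨J, hJ⟩ := small 16 (ε / 2) (by positivity)
  obtain ⟨l, hl⟩ := en_surj a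
  have good : ∀ t b i : ℕ, 2 ^ l * (2 * t + 1) = b → B + J + a.1 + 1 ≤ b → 4 ^ b ≤ i * 2 ^ a.1 →
      i * 2 ^ a.1 < 2 * 4 ^ b → (T ^ (i * 2 ^ a.1)) x ∈ U := by
    intro t b i hs hBs hi hi'
    have e2 : padicValNat 2 b = l := by
      rw [← hs, padicValNat.mul (by positivity) (by positivity), padicValNat.prime_pow,
        padicValNat.eq_zero_of_not_dvd (by omega), add_zero]
    have e3 : pb b = per a := by
      unfold pb
      rw [e2, hl, if_pos ⟨by omega, fun j => (hB j).trans (by exact_mod_cast (by omega : B ≤ b))⟩]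
    have p2 : 4 ^ (b + 1) = 4 * 4 ^ b := by ring
    have a1 := tail (i * 2 ^ a.1) b (by omega)
    have a2 := est' (s := b) (R := 4 ^ (b + 1) - i * 2 ^ a.1) (per_per a) hB (by omega) (by omega)
    refine hb (dist_le' ?_)
    have e4 : c v - c ((T ^ (i * 2 ^ a.1)) x) = c v - per a -
        (cut (4 ^ (b + 1) - i * 2 ^ a.1) (fun j => y (i * 2 ^ a.1 + j)) -
          cut (4 ^ (b + 1) - i * 2 ^ a.1) (per a)) := by
      ext j
      simp only [Pi.sub_apply, c_pow, hx, cut]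
      split_ifs with h
      · ring
      · rw [y, Nat.log_eq_of_pow_le_of_lt_pow (m := b) (by omega) (by omega), e3, add_comm, per_per]
        ring
    rw [e4]
    refine (ha.sub (a1.sub a2)).mono ?_
    have a3 := hJ b (by omega)
    have a4 : (B : ℝ) ≤ b := by exact_mod_cast (by omega : B ≤ b)
    have a5 : 8 * ((b : ℝ) + 2) / 2 ^ (b + 1) + B / 2 ^ b ≤ (9 * b + 16) / 2 ^ b := by
      rw [pow_succ, mul_comm _ (2 : ℝ), ← div_div, ← add_div]
      exact div_le_div_of_nonneg_right (by linarith [(Nat.cast_nonneg b : (0 : ℝ) ≤ b)])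
        (by positivity)
    linarith
  obtain ⟨D, hD⟩ : ∃ D, D = 2 ^ l := ⟨_, rfl⟩
  have hD0 : 0 < D := by rw [hD]; positivity
  refine ⟨1 / (2 ^ a.1 * 4 ^ (3 * D + 1)), by positivity, 4 ^ (3 * D + (B + J + a.1 + 1)),
    fun n hn => ?_⟩
  obtain ⟨K, hK⟩ : ∃ K, K = Nat.log 4 n := ⟨_, rfl⟩
  have hn0 : n ≠ 0 := (lt_of_lt_of_le (by positivity) hn).ne'
  have k1 : 3 * D + (B + J + a.1 + 1) ≤ K := by rw [hK]; exact Nat.le_log_of_pow_le (by norm_num) hn
  have k2 : 4 ^ K ≤ n := by rw [hK]; exact Nat.pow_log_le_self 4 hn0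
  have k3 : n < 4 ^ (K + 1) := by rw [hK]; exact Nat.lt_pow_succ_log_self (by norm_num) n
  obtain ⟨t, ht⟩ : ∃ t, K / (2 * D) = t + 1 :=
    ⟨K / (2 * D) - 1, by have := Nat.div_pos (show 2 * D ≤ K by omega) (by omega); omega⟩
  have d1 := Nat.div_add_mod K (2 * D)
  have d2 := Nat.mod_lt K (show 0 < 2 * D by omega)
  rw [ht] at d1
  obtain ⟨b, hs⟩ : ∃ b, D * (2 * t + 1) = b := ⟨_, rfl⟩
  have d3 : 2 * D * (t + 1) = b + D := by rw [← hs]; ring
  obtain ⟨s, hs'⟩ : ∃ s, 2 * b = s + a.1 := ⟨2 * b - a.1, by omega⟩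
  have d4 : 4 ^ b = 2 ^ s * 2 ^ a.1 := by rw [← pow_add, ← hs', pow_mul]; norm_num
  have hsub : (fun i => (2 ^ s + i) * 2 ^ a.1) '' (Finset.range (2 ^ s) : Set ℕ) ⊆
      {k : ℕ | k < n ∧ (T ^ k) x ∈ U} := by
    rintro _ ⟨i, hi, rfl⟩
    have b1 : i * 2 ^ a.1 < 2 ^ s * 2 ^ a.1 :=
      Nat.mul_lt_mul_of_pos_right (by simpa using hi) (by positivity)
    have b3 : 4 ^ (b + 1) ≤ 4 ^ K := Nat.pow_le_pow_right (by norm_num) (by omega)
    rw [pow_succ] at b3
    refine ⟨?_, good t b _ (hD ▸ hs) (by omega) (by rw [add_mul]; omega) (by rw [add_mul]; omega)⟩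
    change (2 ^ s + i) * 2 ^ a.1 < n
    rw [add_mul]; omega
  have hc := Set.ncard_le_ncard hsub ((Set.finite_lt_nat n).subset fun k hk => hk.1)
  rw [Set.ncard_image_of_injective _ (fun a b h => by
    simpa using h), Set.ncard_coe_finset, Finset.card_range, ← Nat.card_coe_set_eq] at hc
  have b4 : n ≤ 2 ^ a.1 * 4 ^ (3 * D + 1) * 2 ^ s := by
    rw [mul_right_comm, mul_comm (2 ^ a.1), ← d4, ← pow_add]
    exact k3.le.trans (Nat.pow_le_pow_right (by norm_num) (by omega))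
  rw [one_div, inv_mul_le_iff₀ (by positivity)]
  have b5 : (n : ℝ) ≤ 2 ^ a.1 * 4 ^ (3 * D + 1) * 2 ^ s := by exact_mod_cast b4
  refine b5.trans (mul_le_mul_of_nonneg_left ?_ (by positivity))
  exact_mod_cast hc

noncomputable def cl (h : ℕ) : X →L[ℝ] ℝ :=
  ⟨(LinearMap.proj h).comp c,
    continuous_const.mul ((continuous_eval_const (h, 0)).comp continuous_subtype_val)⟩

lemma cl_apply (h : ℕ) (F : X) : cl h F = c F h := rfl

lemma vanish {E : Type} [NormedAddCommGroup E] [CompleteSpace E] {g : ℕ → E} (hg : Summable g)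
    {η : ℝ} (hη : 0 < η) : ∃ N, ∀ P, N ≤ P → 0 < P → ∀ (s : Finset ℕ) (φ : ℕ → ℕ), Set.InjOn φ s →
      (∀ i ∈ s, 0 < φ i) → ‖∑ i ∈ s, g (φ i * P)‖ ≤ η := by
  obtain ⟨A, hA⟩ := summable_iff_vanishing_norm.1 hg η hη
  refine ⟨A.sup id + 1, fun P hP hP0 s φ h1 h2 => ?_⟩
  rw [← sum_image (g := fun i => φ i * P) fun a ha b hb h => h1 ha hb (Nat.mul_right_cancel hP0 h)]
  refine (hA _ (disjoint_left.2 fun j hj hj' => ?_)).le
  obtain ⟨i, hi, rfl⟩ := mem_image.1 hj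
  have a1 : φ i * P ≤ A.sup id := le_sup (f := id) hj'
  have a2 : P ≤ φ i * P := Nat.le_mul_of_pos_left _ (h2 i hi)
  omega

lemma nocrit (X₀ : Set X) (S : X → X) (h1 : ∀ x ∈ X₀, S x ∈ X₀)
    (h2 : ∀ x ∈ X₀, Summable (fun n : ℕ => (T ^ n) x) ∧
      Summable (fun n : ℕ => S^[n] x) ∧ T (S x) = x) (x : X) (hx : x ∈ X₀) (h : ℕ) : c x h = 0 := by
  have hS : ∀ n, S^[n] x ∈ X₀ := fun n => by
    induction n with
    | zero => exact hx
    | succ n ih => rw [Function.iterate_succ_apply']; exact h1 _ ih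
  have hc : ∀ a n j, c (S^[n + a] x) (j + a) = c (S^[n] x) j := fun a n j => by
    induction a with
    | zero => rfl
    | succ a ih =>
      rw [← add_assoc, ← add_assoc, Function.iterate_succ_apply', ← c_T, (h2 _ (hS _)).2.2, ih]
  have s1 : Summable fun n => |cl h ((T ^ n) x)| := ((cl h).summable (h2 x hx).1).abs
  have s2 : Summable fun n => |cl h (S^[n] x)| := ((cl h).summable (h2 x hx).2.1).abs
  refine abs_nonpos_iff.1 (le_of_forall_pos_le_add fun ε hε => ?_)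
  obtain ⟨N1, hA1⟩ := vanish s1 (show 0 < ε / 4 by positivity)
  obtain ⟨N2, hA2⟩ := vanish s2 (show 0 < ε / 4 by positivity)
  obtain ⟨N3, hA3⟩ := vanish (E := X) (h2 x hx).2.1 (show 0 < ε / 8 / 2 ^ h by positivity)
  obtain ⟨m, hm⟩ : ∃ m, N1 + N2 + N3 + 2 ≤ 2 ^ e m :=
    ⟨_, (e_mono.le_apply.trans Nat.lt_two_pow_self.le)⟩
  obtain ⟨P, hP⟩ : ∃ P, P = 2 ^ e m := ⟨_, rfl⟩
  rw [← hP] at hm
  have row : ∀ u ∈ Ico 1 P, |c x h - (-1) ^ u * ∑ t ∈ range P, (-1) ^ t * c (S^[u * P] x) (h + t * P)|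
      ≤ ε / 2 := by
    intro u hu
    obtain ⟨r, hr⟩ : ∃ r, P = u + (r + 1) := ⟨P - u - 1, by have := (mem_Ico.1 hu).2; omega⟩
    have a1 := hA1 P (by omega) (by omega) (range r) (· + 1) (fun a _ b _ h => by simpa using h)
      fun _ _ => Nat.succ_pos _
    have a2 := hA2 P (by omega) (by omega) (range u) (u - ·) (fun a ha b hb h => by
      simp only [coe_range, Set.mem_Iio] at ha hb h; omega) fun i hi => by
        have := mem_range.1 hi; omega
    rw [Real.norm_of_nonneg (sum_nonneg fun _ _ => abs_nonneg _)] at a1 a2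
    have b0 : c (S^[u * P] x) (h + (u + 0) * P) = c x h := by
      have := hc (u * P) 0 h
      rwa [zero_add] at this
    have b1 : |∑ t ∈ range r, (-1) ^ (u + (t + 1)) * c (S^[u * P] x) (h + (u + (t + 1)) * P)| ≤ ε / 4 := by
      refine (abs_sum_le_sum_abs _ _).trans (le_trans (le_of_eq (sum_congr rfl fun t _ => ?_)) a1)
      have := hc (u * P) 0 ((t + 1) * P + h)
      rw [zero_add] at this
      rw [cl_apply, c_pow, abs_mul, abs_neg_one_pow, one_mul,
        show h + (u + (t + 1)) * P = (t + 1) * P + h + u * P by ring, this]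
      rfl
    have b2 : |∑ t ∈ range u, (-1) ^ t * c (S^[u * P] x) (h + t * P)| ≤ ε / 4 := by
      refine (abs_sum_le_sum_abs _ _).trans (le_trans (le_of_eq (sum_congr rfl fun t ht => ?_)) a2)
      have := hc (t * P) ((u - t) * P) h
      rw [← add_mul, Nat.sub_add_cancel (mem_range.1 ht).le] at this
      rw [cl_apply, abs_mul, abs_neg_one_pow, one_mul, this]
    have b3 : range P = range (u + (r + 1)) := by rw [← hr]
    rw [b3, sum_range_add, sum_range_succ', b0]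
    have b4 : ∀ p q : ℝ, c x h - (-1) ^ u * (p + (q + (-1) ^ (u + 0) * c x h)) =
        (-1) ^ (u + 1) * (p + q) := fun p q => by
      have : ((-1 : ℝ) ^ u) * (-1) ^ u = 1 := by rw [← mul_pow]; simp
      linear_combination (-c x h) * this
    rw [b4, abs_mul, abs_neg_one_pow, one_mul]
    exact (abs_add_le _ _).trans (by linarith)
  have z1 : ‖∑ u ∈ Ico 1 P, ((-1 : ℝ) ^ u) • S^[u * P] x‖ ≤ ε / 4 / 2 ^ h := by
    have a : ∀ s ⊆ Ico 1 P, ‖∑ u ∈ s, S^[u * P] x‖ ≤ ε / 8 / 2 ^ h := fun s hs =>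
      hA3 P (by omega) (by omega) s id (Set.injOn_id _) fun i hi => (mem_Ico.1 (hs hi)).1
    rw [← sum_filter_add_sum_filter_not _ Even,
      sum_congr rfl (g := fun u => S^[u * P] x) fun u hu => by
        rw [(mem_filter.1 hu).2.neg_one_pow, one_smul],
      sum_congr rfl (s₂ := (Ico 1 P).filter fun u => ¬ Even u) (g := fun u => -S^[u * P] x)
        fun u hu => by rw [(Nat.not_even_iff_odd.1 (mem_filter.1 hu).2).neg_one_pow, neg_one_smul],
      sum_neg_distrib, ← sub_eq_add_neg]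
    refine (norm_sub_le _ _).trans ((add_le_add (a _ (filter_subset _ _))
      (a _ (filter_subset _ _))).trans (le_of_eq (by ring)))
  have z2 := (sm_norm _ h m).trans z1
  simp only [map_sum, map_smul, smul_eq_mul, Φ_apply, ← mul_div_assoc, ← sum_div] at z2
  have hP' : (2 : ℝ) ^ e m = P := by rw [hP]; norm_cast
  rw [← hP, hP', abs_div, abs_of_pos (show (0 : ℝ) < P * 2 ^ h by rw [← hP']; positivity),
    mul_comm, ← div_div, div_le_iff₀ (by rw [← hP']; positivity), div_mul_eq_mul_div,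
    div_le_div_iff_of_pos_right (by positivity)] at z2
  have z3 := (abs_sum_le_sum_abs _ _).trans (sum_le_sum row)
  rw [sum_sub_distrib] at z3
  simp only [sum_const, Nat.card_Ico, nsmul_eq_mul] at z3
  have z4 : (2 : ℝ) ≤ P := by exact_mod_cast (by omega : 2 ≤ P)
  rw [Nat.cast_sub (by omega), Nat.cast_one] at z3
  have z5 := abs_sub_abs_le_abs_sub (((P : ℝ) - 1) * c x h)
    (∑ u ∈ Ico 1 P, (-1) ^ u * ∑ t ∈ range P, (-1) ^ t * c (S^[u * P] x) (h + t * P))
  rw [abs_mul, abs_of_pos (by linarith)] at z5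
  refine le_of_mul_le_mul_left (a := (P : ℝ) - 1) ?_ (by linarith)
  nlinarith

end Pool.Agent.H58.NoFHC
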