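import Pool.Agent.H90.FsA

/-! GNS for invariant kernels, the norm of the Fourier-Stieltjes algebra and closure under limits. -/

namespace Pool.Agent.H58.Ns

open Pool.Agent.H90.FS Filter Topology UniformSpace
open scoped ComplexConjugate

noncomputable section

variable {G : Type} [Group G]

def qf {X : Type} (K : X → X → ℂ) (v w : X →₀ ℂ) : ℂ :=
  v.sum fun x a => w.sum fun y b => conj a * b * K x y

structure PSD {X : Type} (K : X → X → ℂ) : Prop where
  herm : ∀ x y, conj (K x y) = K y x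
  pos : ∀ v, 0 ≤ (qf K v v).re

def V0 {X : Type} {K : X → X → ℂ} (_ : PSD K) : Type := X →₀ ℂ

section
variable {X : Type} {K : X → X → ℂ} (h : PSD K)

instance : AddCommGroup (V0 h) := inferInstanceAs (AddCommGroup (X →₀ ℂ))
instance : Module ℂ (V0 h) := inferInstanceAs (Module ℂ (X →₀ ℂ))

lemma qf_add_left (u v w : X →₀ ℂ) : qf K (u + v) w = qf K u w + qf K v w := by
  unfold qf
  rw [Finsupp.sum_add_index'] <;> simp [← Finsupp.sum_add, add_mul]

lemma qf_smul_left (c : ℂ) (v w : X →₀ ℂ) : qf K (c • v) w = conj c * qf K v w := by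
  unfold qf
  rw [Finsupp.sum_smul_index] <;> simp [Finsupp.mul_sum, ← mul_assoc]

@[reducible] def core : PreInnerProductSpace.Core ℂ (V0 h) where
  inner v w := qf K v w
  conj_inner_symm v w := by
    change conj (qf K w v) = qf K v w
    unfold qf
    rw [Finsupp.sum_comm]
    simp only [map_finsuppSum, map_mul, Complex.conj_conj, h.herm]
    refine Finsupp.sum_congr fun x _ => Finsupp.sum_congr fun y _ => by ring
  re_inner_nonneg v := h.pos v
  add_left u v w := qf_add_left u v w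
  smul_left v w c := qf_smul_left c v w

instance : SeminormedAddCommGroup (V0 h) :=
  @InnerProductSpace.Core.toSeminormedAddCommGroup ℂ (V0 h) _ _ _ (core h)

instance : InnerProductSpace ℂ (V0 h) := InnerProductSpace.ofCore (core h)

lemma inner_V0 (v w : V0 h) : inner ℂ v w = qf K v w := rfl

variable [MulAction G X]

lemma qf_map (hK : ∀ (g : G) x y, K (g • x) (g • y) = K x y) (g : G) (v w : X →₀ ℂ) :
    qf K (v.mapDomain (g • ·)) (w.mapDomain (g • ·)) = qf K v w := by
  unfold qf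
  rw [Finsupp.sum_mapDomain_index]
  · refine Finsupp.sum_congr fun x _ => ?_
    rw [Finsupp.sum_mapDomain_index]
    · simp [hK]
    · simp
    · intros; ring
  · simp
  · intros; simp [← Finsupp.sum_add, add_mul]

def actL (g : G) : V0 h →ₗ[ℂ] V0 h := Finsupp.lmapDomain ℂ ℂ (fun x : X => g • x)

def actC (hK : ∀ (g : G) x y, K (g • x) (g • y) = K x y) (g : G) : V0 h →L[ℂ] V0 h :=
  (actL h g).mkContinuous 1 fun v => by
    rw [one_mul, @norm_eq_sqrt_re_inner ℂ, @norm_eq_sqrt_re_inner ℂ _ _ _ _ v, inner_V0, inner_V0]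
    exact le_of_eq (by rw [← qf_map hK g v v]; rfl)

lemma actC_apply (hK : ∀ (g : G) x y, K (g • x) (g • y) = K x y) (g : G) (v : V0 h) :
    actC h hK g v = Finsupp.mapDomain (g • ·) v := rfl

include h in
theorem gns (hK : ∀ (g : G) x y, K (g • x) (g • y) = K x y) :
    ∃ (r : URep G) (ι : X → r.H), (∀ x y, inner ℂ (ι x) (ι y) = K x y) ∧
      ∀ g x, r.U g (ι x) = ι (g • x) := by
  let π : G →* (Completion (V0 h) →L[ℂ] Completion (V0 h)) :=
    { toFun := fun g => (actC h hK g).completion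
      map_one' := by
        ext v
        induction v using Completion.induction_on with
        | hp => exact isClosed_eq (by fun_prop) (by fun_prop)
        | ih v =>
          rw [ContinuousLinearMap.completion_apply_coe, actC_apply]
          simp only [one_smul]
          congr 1
          exact Finsupp.mapDomain_id
      map_mul' := fun g k => by
        ext v
        induction v using Completion.induction_on with
        | hp => exact isClosed_eq (by fun_prop) (by fun_prop)
        | ih v =>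
          simp only [ContinuousLinearMap.mul_apply, ContinuousLinearMap.completion_apply_coe,
            actC_apply]
          congr 1
          simp only [mul_smul]
          exact Finsupp.mapDomain_comp (f := fun x : X => k • x) (g := fun x : X => g • x) }
  refine ⟨mkRep (Completion (V0 h)) π (fun g v w => ?_),
    fun x => ((show V0 h from Finsupp.single x 1 : V0 h) : Completion (V0 h)), fun x y => ?_,
    fun g x => ?_⟩
  · induction v, w using Completion.induction_on₂ with
    | hp => exact isClosed_eq (by fun_prop) (by fun_prop)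
    | ih v w =>
      change inner ℂ ((actC h hK g).completion _) ((actC h hK g).completion _) = _
      rw [ContinuousLinearMap.completion_apply_coe, ContinuousLinearMap.completion_apply_coe,
        Completion.inner_coe, Completion.inner_coe, inner_V0, inner_V0]
      exact qf_map hK g v w
  · change inner ℂ (((show V0 h from Finsupp.single x 1 : V0 h) : Completion (V0 h)))
      (((show V0 h from Finsupp.single y 1 : V0 h) : Completion (V0 h))) = _
    rw [Completion.inner_coe, inner_V0]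
    simp [qf]
  · change (actC h hK g).completion _ = _
    rw [ContinuousLinearMap.completion_apply_coe, actC_apply]
    congr 1
    exact Finsupp.mapDomain_single

end

lemma psd_gram {X H : Type} [NormedAddCommGroup H] [InnerProductSpace ℂ H] (F : X → H) :
    PSD fun x y => inner ℂ (F x) (F y) := by
  refine ⟨fun x y => inner_conj_symm _ _, fun v => ?_⟩
  have : qf (fun x y => inner ℂ (F x) (F y)) v v
      = inner ℂ (v.sum fun x a => a • F x) (v.sum fun x a => a • F x) := by
    simp only [qf, Finsupp.sum, sum_inner, inner_sum, inner_smul_left, inner_smul_right]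
    rw [Finset.sum_comm]
    refine Finset.sum_congr rfl fun x _ => ?_
    rw [Finset.mul_sum]
    exact Finset.sum_congr rfl fun y _ => by ring
  rw [this]
  exact inner_self_nonneg (𝕜 := ℂ)

lemma psd_lim {X ι : Type} {l : Filter ι} [l.NeBot] {Kn : ι → X → X → ℂ} {K : X → X → ℂ}
    (h : ∀ n, PSD (Kn n)) (hl : ∀ x y, Tendsto (fun n => Kn n x y) l (𝓝 (K x y))) : PSD K := by
  refine ⟨fun x y => ?_, fun v => ?_⟩
  · refine tendsto_nhds_unique ((Complex.continuous_conj.tendsto _).comp (hl x y)) ?_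
    exact (hl y x).congr fun n => ((h n).herm x y).symm
  · have : Tendsto (fun n => qf (Kn n) v v) l (𝓝 (qf K v v)) := by
      unfold qf Finsupp.sum
      exact tendsto_finsetSum _ fun x _ => tendsto_finsetSum _ fun y _ => (hl x y).const_mul _
    exact ge_of_tendsto' ((Complex.continuous_re.tendsto _).comp this) fun n => (h n).pos v

/-- the regular representation -/
theorem exists_reg : ∃ (r : URep G) (e : G → r.H), Orthonormal ℂ e ∧ ∀ g x, r.U g (e x) = e (g * x) := by
  classical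
  have h : PSD fun x y : G => if x = y then (1 : ℂ) else 0 := by
    refine ⟨fun x y => by by_cases hxy : x = y <;> simp [hxy, eq_comm], fun v => ?_⟩
    simp only [qf, Finsupp.sum, mul_ite, mul_one, mul_zero, Finset.sum_ite_eq, Complex.re_sum]
    refine Finset.sum_nonneg fun x hx => ?_
    rw [if_pos hx, Complex.conj_mul']
    rw [← Complex.ofReal_pow, Complex.ofReal_re]; positivity
  obtain ⟨r, e, h1, h2⟩ := gns (G := G) h (fun g x y => by simp)
  exact ⟨r, e, orthonormal_iff_ite.2 h1, h2⟩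

/-- `f` is a coefficient function with vectors of square norm at most `C`. -/
def Nb (f : G → ℂ) (C : ℝ) : Prop :=
  ∃ (r : URep G) (ξ η : r.H), f = r.coef ξ η ∧ ‖ξ‖ ^ 2 ≤ C ∧ ‖η‖ ^ 2 ≤ C

lemma Nb.nonneg {f : G → ℂ} {C : ℝ} (h : Nb f C) : 0 ≤ C := by
  obtain ⟨r, ξ, η, -, h, -⟩ := h; exact (sq_nonneg _).trans h

lemma Nb.mono {f : G → ℂ} {C D : ℝ} (h : Nb f C) (hCD : C ≤ D) : Nb f D := by
  obtain ⟨r, ξ, η, h0, h1, h2⟩ := h; exact ⟨r, ξ, η, h0, h1.trans hCD, h2.trans hCD⟩

lemma Nb.mem {f : G → ℂ} {C : ℝ} (h : Nb f C) : f ∈ BG G := by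
  obtain ⟨r, ξ, η, h0, -, -⟩ := h; exact ⟨r, ξ, η, h0⟩

lemma nb_coef (r : URep G) (ξ η : r.H) : Nb (r.coef ξ η) (‖ξ‖ * ‖η‖) := by
  by_cases h1 : ξ = 0
  · refine ⟨r, 0, 0, ?_, by simp [h1], by simp [h1]⟩
    funext g; simp [URep.coef_apply, h1]
  by_cases h2 : η = 0
  · refine ⟨r, 0, 0, ?_, by simp [h2], by simp [h2]⟩
    funext g; simp [URep.coef_apply, h2]
  have p1 := norm_pos_iff.2 h1
  have p2 := norm_pos_iff.2 h2
  set t : ℝ := √(‖η‖ / ‖ξ‖) with ht
  have tp : 0 < t := Real.sqrt_pos.2 (by positivity)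
  have t2 : t ^ 2 = ‖η‖ / ‖ξ‖ := Real.sq_sqrt (by positivity)
  refine ⟨r, (t : ℂ) • ξ, ((t⁻¹ : ℝ) : ℂ) • η, ?_, le_of_eq ?_, le_of_eq ?_⟩
  · funext g
    have : (t : ℂ) ≠ 0 := by exact_mod_cast tp.ne'
    simp only [URep.coef_apply, map_smul, inner_smul_left, inner_smul_right, Complex.conj_ofReal]
    push_cast; field_simp
  · rw [norm_smul, mul_pow, Complex.norm_real, Real.norm_eq_abs, sq_abs, t2]; field_simp
  · rw [norm_smul, mul_pow, Complex.norm_real, Real.norm_eq_abs, sq_abs, inv_pow, t2]; field_simp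

lemma Nb.add {f h : G → ℂ} {C D : ℝ} (hf : Nb f C) (hh : Nb h D) : Nb (f + h) (C + D) := by
  obtain ⟨r, a, a', rfl, h1, h2⟩ := hf
  obtain ⟨s, b, b', rfl, h3, h4⟩ := hh
  refine ⟨_, _, _, (coef_dsum a a' b b').symm, ?_, ?_⟩
  · change ‖(WithLp.toLp 2 (a, b) : WithLp 2 (r.H × s.H))‖ ^ 2 ≤ _
    rw [WithLp.prod_norm_sq_eq_of_L2]; simpa using add_le_add h1 h3
  · change ‖(WithLp.toLp 2 (a', b') : WithLp 2 (r.H × s.H))‖ ^ 2 ≤ _
    rw [WithLp.prod_norm_sq_eq_of_L2]; simpa using add_le_add h2 h4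

lemma Nb.mul {f h : G → ℂ} {C D : ℝ} (hf : Nb f C) (hh : Nb h D) : Nb (f * h) (C * D) := by
  have := hf.nonneg
  obtain ⟨r, a, a', rfl, h1, h2⟩ := hf
  obtain ⟨s, b, b', rfl, h3, h4⟩ := hh
  refine ⟨_, _, _, (coef_tens a a' b b').symm, ?_, ?_⟩
  · rw [norm_tv, mul_pow]; gcongr
  · rw [norm_tv, mul_pow]; gcongr

lemma Nb.le {f : G → ℂ} {C : ℝ} (h : Nb f C) (g : G) : ‖f g‖ ≤ C := by
  obtain ⟨r, ξ, η, rfl, h1, h2⟩ := h
  rw [URep.coef_apply]
  refine (norm_inner_le_norm _ _).trans ?_
  rw [r.norm_U]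
  nlinarith [sq_nonneg (‖ξ‖ - ‖η‖)]

lemma Nb.smul {f : G → ℂ} {C : ℝ} (h : Nb f C) (c : ℂ) : Nb (c • f) (‖c‖ * C) := by
  obtain ⟨r, ξ, η, rfl, h1, h2⟩ := h
  have : c • r.coef ξ η = r.coef (c • ξ) η := by
    funext g; simp [URep.coef_apply, inner_smul_right]
  rw [this]
  refine (nb_coef r _ _).mono ?_
  rw [norm_smul, mul_assoc]
  gcongr
  nlinarith [sq_nonneg (‖ξ‖ - ‖η‖)]

lemma nb_one : Nb (1 : G → ℂ) 1 := by
  refine ⟨triv G, (1 : ℂ), (1 : ℂ), coef_triv.symm, ?_, ?_⟩ <;>
  · change ‖(1 : ℂ)‖ ^ 2 ≤ 1; simp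

lemma nb_zero : Nb (0 : G → ℂ) 0 := by simpa using (nb_one (G := G)).smul 0

lemma nb_sum {ι : Type} (s : Finset ι) {f : ι → G → ℂ} {C : ι → ℝ} (h : ∀ i ∈ s, Nb (f i) (C i)) :
    Nb (∑ i ∈ s, f i) (∑ i ∈ s, C i) := by
  classical
  induction s using Finset.induction_on with
  | empty => simpa using nb_zero
  | insert a s ha ih =>
    rw [Finset.sum_insert ha, Finset.sum_insert ha]
    exact (h a (by simp)).add (ih fun i hi => h i (by simp [hi]))

lemma exists_ulim {ι : Type} (U : Ultrafilter ι) (a : ι → ℂ) (C : ℝ) (h : ∀ n, ‖a n‖ ≤ C) :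
    ∃ z, Tendsto a U (𝓝 z) := by
  obtain ⟨z, -, hz⟩ := (isCompact_closedBall (0 : ℂ) C).ultrafilter_le_nhds (U.map a)
    (by simp only [Ultrafilter.coe_map, le_principal_iff, mem_map]
        exact Eventually.of_forall fun n => by simpa using h n)
  exact ⟨z, hz⟩

theorem nb_lim' {ι : Type} {l : Filter ι} [l.NeBot] {fn : ι → G → ℂ} {f : G → ℂ} {C D : ℝ}
    {Cn : ι → ℝ} (hD : ∀ n, Cn n ≤ D) (hC : Tendsto Cn l (𝓝 C))
    (h : ∀ n, Nb (fn n) (Cn n)) (hl : ∀ g, Tendsto (fun n => fn n g) l (𝓝 (f g))) : Nb f C := by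
  choose r ξ η h0 h1 h2 using h
  let U := Ultrafilter.of l
  let v : ∀ n, Bool → (r n).H := fun n b => if b then η n else ξ n
  have hv : ∀ n b, ‖v n b‖ ^ 2 ≤ Cn n := fun n b => by cases b <;> simp [v, h1, h2]
  let Kn : ι → G × Bool → G × Bool → ℂ := fun n x y =>
    inner ℂ ((r n).U x.1 (v n x.2)) ((r n).U y.1 (v n y.2))
  have hb : ∀ x y n, ‖Kn n x y‖ ≤ Cn n := fun x y n => by
    refine (norm_inner_le_norm _ _).trans ?_
    rw [(r n).norm_U, (r n).norm_U]
    nlinarith [sq_nonneg (‖v n x.2‖ - ‖v n y.2‖), hv n x.2, hv n y.2]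
  choose K hK using fun x y => exists_ulim U (fun n => Kn n x y) D
    (fun n => (hb x y n).trans (hD n))
  have hp : PSD K := psd_lim (l := (U : Filter ι)) (fun n => psd_gram _) hK
  let _ : MulAction G (G × Bool) :=
    { smul := fun g x => (g * x.1, x.2)
      one_smul := fun x => by change (1 * x.1, x.2) = x; simp
      mul_smul := fun g k x => by change (g * k * x.1, x.2) = (g * (k * x.1), x.2); rw [mul_assoc] }
  have sm : ∀ (g : G) (x : G × Bool), g • x = (g * x.1, x.2) := fun _ _ => rfl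
  obtain ⟨s, ι, e1, e2⟩ := gns (G := G) hp (fun g x y => by
    refine tendsto_nhds_unique (hK _ _) ((hK x y).congr fun n => ?_)
    simp only [Kn, sm, URep.U_mul_apply, URep.inner_U])
  have hn : ∀ b, ‖ι (1, b)‖ ^ 2 ≤ C := fun b => by
    have := e1 (1, b) (1, b)
    rw [inner_self_eq_norm_sq_to_K] at this
    have h3 : ‖K (1, b) (1, b)‖ ≤ C :=
      le_of_tendsto_of_tendsto' ((continuous_norm.tendsto _).comp (hK _ _))
        (hC.mono_left (Ultrafilter.of_le l)) fun n => hb _ _ n
    rw [← this] at h3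
    simpa using h3
  refine ⟨s, ι (1, false), ι (1, true), ?_, hn _, hn _⟩
  funext g
  rw [URep.coef_apply, e2, e1, sm]
  refine tendsto_nhds_unique ((hl g).mono_left (Ultrafilter.of_le l)) ((hK _ _).congr fun n => ?_)
  simp [Kn, v, h0, URep.coef_apply, URep.U_one]

theorem nb_lim {ι : Type} {l : Filter ι} [l.NeBot] {fn : ι → G → ℂ} {f : G → ℂ} {C : ℝ}
    (h : ∀ n, Nb (fn n) C) (hl : ∀ g, Tendsto (fun n => fn n g) l (𝓝 (f g))) : Nb f C :=
  nb_lim' (fun _ => le_rfl) tendsto_const_nhds h hl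

end

end Pool.Agent.H58.Ns
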