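import Pool.Agent.H58.NsA

/-! The Fourier-Stieltjes algebra as a commutative Banach algebra, and its characters. -/

namespace Pool.Agent.H58.Ns

open Pool.Agent.H90.FS Filter Topology WeakDual

noncomputable section

def BS (G : Type) [Group G] : Subalgebra ℂ (G → ℂ) where
  carrier := BG G
  mul_mem' := BG_mul
  add_mem' := BG_add
  algebraMap_mem' c := by rw [Algebra.algebraMap_eq_smul_one]; exact BG_smul c BG_one

def BA (G : Type) [Group G] : Type := BS G

variable {G : Type} [Group G]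

instance : CommRing (BA G) := inferInstanceAs (CommRing (BS G))
instance : Algebra ℂ (BA G) := inferInstanceAs (Algebra ℂ (BS G))

def fnA : BA G →ₐ[ℂ] (G → ℂ) := (BS G).val

def mkB (f : G → ℂ) (hf : f ∈ BG G) : BA G := (⟨f, hf⟩ : BS G)

@[simp] lemma fnA_mkB (f : G → ℂ) (hf : f ∈ BG G) : fnA (mkB f hf) = f := rfl

lemma fnA_mem (a : BA G) : fnA a ∈ BG G := (show BS G from a).2

lemma fnA_inj {a b : BA G} (h : fnA a = fnA b) : a = b := Subtype.ext h

def nm (a : BA G) : ℝ := sInf {C | Nb (fnA a) C}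

lemma nb_ex (a : BA G) : {C | Nb (fnA a) C}.Nonempty := by
  obtain ⟨r, ξ, η, h⟩ := fnA_mem a
  exact ⟨_, by rw [Set.mem_setOf_eq, h]; exact nb_coef r ξ η⟩

lemma nm_le {a : BA G} {C : ℝ} (h : Nb (fnA a) C) : nm a ≤ C :=
  csInf_le ⟨0, fun _ h => Nb.nonneg h⟩ h

lemma nb_nm (a : BA G) : Nb (fnA a) (nm a) := by
  have h : ∀ n : ℕ, Nb (fnA a) (nm a + 1 / ((n : ℝ) + 1)) := fun n => by
    obtain ⟨C, hC, h⟩ := exists_lt_of_csInf_lt (nb_ex a)
      (show nm a < nm a + 1 / ((n : ℝ) + 1) from lt_add_of_pos_right _ (by positivity))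
    exact Nb.mono hC h.le
  refine nb_lim' (l := atTop) (D := nm a + 1) (fun n => ?_) ?_ h fun g => tendsto_const_nhds
  · gcongr; exact (div_le_one (by positivity)).2 (by linarith [(Nat.cast_nonneg n : (0:ℝ) ≤ n)])
  · simpa using tendsto_one_div_add_atTop_nhds_zero_nat.const_add (nm a)

instance : NormedAddCommGroup (BA G) := AddGroupNorm.toNormedAddCommGroup
  { toFun := nm
    map_zero' := le_antisymm (nm_le (by rw [map_zero]; exact nb_zero)) (nb_nm _).nonneg
    add_le' := fun a b => nm_le (by rw [map_add]; exact (nb_nm a).add (nb_nm b))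
    neg' := fun a => by
      have : ∀ a : BA G, nm (-a) ≤ nm a := fun a => nm_le (by
        have := (nb_nm a).smul (-1)
        rw [map_neg]; simpa using this)
      exact le_antisymm (this a) (by simpa using this (-a))
    eq_zero_of_map_eq_zero' := fun a h => fnA_inj (by
      funext g
      have := (nb_nm a).le g
      rw [h] at this
      simpa using this) }

lemma norm_eq (a : BA G) : ‖a‖ = nm a := rfl

lemma nb_norm (a : BA G) : Nb (fnA a) ‖a‖ := nb_nm a

lemma norm_le_of_nb {a : BA G} {C : ℝ} (h : Nb (fnA a) C) : ‖a‖ ≤ C := nm_le h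

instance : NormedCommRing (BA G) :=
  { (inferInstance : NormedAddCommGroup (BA G)), (inferInstance : CommRing (BA G)) with
    norm_mul_le := fun a b => norm_le_of_nb (by rw [map_mul]; exact (nb_norm a).mul (nb_norm b)) }

instance : NormedAlgebra ℂ (BA G) where
  norm_smul_le c a := norm_le_of_nb (by rw [map_smul]; exact (nb_norm a).smul c)

lemma fn_le (a : BA G) (g : G) : ‖fnA a g‖ ≤ ‖a‖ := (nb_norm a).le g

lemma tendsto_fn {ι : Type} {l : Filter ι} {u : ι → BA G} {a : BA G} (h : Tendsto u l (𝓝 a))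
    (g : G) : Tendsto (fun n => fnA (u n) g) l (𝓝 (fnA a g)) := by
  rw [tendsto_iff_norm_sub_tendsto_zero] at h ⊢
  refine squeeze_zero (fun _ => norm_nonneg _) (fun n => ?_) h
  have := fn_le (u n - a) g
  simpa using this

instance : CompleteSpace (BA G) := by
  refine Metric.complete_of_cauchySeq_tendsto fun u hu => ?_
  have hp : ∀ g, CauchySeq fun n => fnA (u n) g := fun g => by
    rw [Metric.cauchySeq_iff] at hu ⊢
    intro ε hε
    obtain ⟨N, hN⟩ := hu ε hε
    refine ⟨N, fun m hm n hn => lt_of_le_of_lt ?_ (hN m hm n hn)⟩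
    rw [dist_eq_norm, dist_eq_norm]
    simpa using fn_le (u m - u n) g
  choose f hf using fun g => cauchySeq_tendsto_of_complete (hp g)
  have key : ∀ ε > 0, ∃ N, ∀ n ≥ N, Nb (fnA (u n) - f) ε := fun ε hε => by
    obtain ⟨N, hN⟩ := Metric.cauchySeq_iff.1 hu ε hε
    refine ⟨N, fun n hn => nb_lim (l := atTop) (fn := fun m : ℕ => fnA (u n - u (m + N)))
      (fun m => (nb_norm _).mono ?_) fun g => ?_⟩
    · rw [← dist_eq_norm]; exact (hN n hn _ (by omega)).le
    · simpa using ((hf g).comp (tendsto_add_atTop_nat N)).const_sub (fnA (u n) g)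
  obtain ⟨N, hN⟩ := key 1 one_pos
  have hm : f ∈ BG G := by
    have := BG_add (fnA_mem (u N)) (BG_smul (-1) (hN N le_rfl).mem)
    simpa using this
  refine ⟨mkB f hm, Metric.tendsto_atTop.2 fun ε hε => ?_⟩
  obtain ⟨N, hN⟩ := key (ε / 2) (by positivity)
  refine ⟨N, fun n hn => ?_⟩
  rw [dist_eq_norm]
  exact (norm_le_of_nb (by rw [map_sub]; exact hN n hn)).trans_lt (by linarith)

lemma chi_le (χ : characterSpace ℂ (BA G)) (a : BA G) : ‖χ a‖ ≤ ‖a‖ := by
  have h := spectrum.norm_le_norm_mul_of_mem (AlgHom.apply_mem_spectrum χ a)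
  have h1 : ‖(1 : BA G)‖ ≤ 1 := norm_le_of_nb (by rw [map_one]; exact nb_one)
  nlinarith [norm_nonneg a]

open Classical in
lemma nb_delta (x : G) : Nb (Pi.single x 1 : G → ℂ) 1 := by
  obtain ⟨r, e, he, h⟩ := exists_reg (G := G)
  refine ⟨r, e 1, e x, ?_, by simp [he.1], by simp [he.1]⟩
  funext g
  rw [URep.coef_apply, h, orthonormal_iff_ite.1 he, mul_one]
  by_cases hg : g = x
  · simp [hg]
  · simp [hg, Ne.symm hg]

open Classical in
def dl (x : G) : BA G := mkB _ (nb_delta x).mem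

/-- singular characters -/
def Sing (χ : characterSpace ℂ (BA G)) : Prop := ∀ x, χ (dl x) = 0

open Classical in
lemma mul_dl (a : BA G) (x : G) : a * dl x = fnA a x • dl x := fnA_inj (by
  funext g
  simp only [map_mul, map_smul, dl, fnA_mkB, Pi.mul_apply, Pi.smul_apply, smul_eq_mul]
  by_cases hg : g = x
  · simp [hg]
  · simp [hg])

lemma eval_or_sing (χ : characterSpace ℂ (BA G)) : Sing χ ∨ ∃ x, ∀ a, χ a = fnA a x := by
  by_cases h : Sing χ
  · exact Or.inl h
  simp only [Sing, not_forall] at h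
  obtain ⟨x, hx⟩ := h
  refine Or.inr ⟨x, fun a => mul_right_cancel₀ hx ?_⟩
  rw [← map_mul, mul_dl, map_smul, smul_eq_mul]

open Classical in
lemma nb_fin (a : G → ℂ) (F : Finset G) :
    Nb (fun g => if g ∈ F then a g else 0) (∑ g ∈ F, ‖a g‖) := by
  have := nb_sum F (fun x _ => (nb_delta x).smul (a x))
  simp only [mul_one] at this
  convert this using 1
  funext g
  simp [Finset.sum_apply, Pi.single_apply]

open Classical in
lemma nb_l1 {a : G → ℂ} {C : ℝ} (h : ∀ F : Finset G, ∑ g ∈ F, ‖a g‖ ≤ C) : Nb a C := by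
  refine nb_lim (l := atTop) (fun F : Finset G => (nb_fin a F).mono (h F)) fun g => ?_
  refine tendsto_const_nhds.congr' ?_
  filter_upwards [eventually_ge_atTop {g}] with F hF
  rw [if_pos (hF (by simp))]

open Classical in
lemma Sing.l1 {χ : characterSpace ℂ (BA G)} (hχ : Sing χ) {a : BA G}
    (ha : Summable fun g => ‖fnA a g‖) : χ a = 0 := by
  refine norm_le_zero_iff.1 (le_of_forall_pos_le_add fun ε hε => ?_)
  obtain ⟨F, hF⟩ := summable_iff_vanishing_norm.1 ha ε hε
  have e : χ (∑ x ∈ F, fnA a x • dl x) = 0 := by simp [map_sum, hχ _]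
  have : χ a = χ (a - ∑ x ∈ F, fnA a x • dl x) := by rw [map_sub, e, sub_zero]
  rw [this, zero_add]
  refine (chi_le _ _).trans (norm_le_of_nb (nb_l1 fun T => ?_))
  have h1 := (hF (T \ F) Finset.sdiff_disjoint).le
  rw [Real.norm_of_nonneg (Finset.sum_nonneg fun _ _ => norm_nonneg _)] at h1
  refine le_trans (le_of_eq ?_) h1
  rw [Finset.sdiff_eq_filter, Finset.sum_filter]
  refine Finset.sum_congr rfl fun g _ => ?_
  simp only [map_sub, map_sum, map_smul, dl, fnA_mkB, Pi.sub_apply, Finset.sum_apply,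
    Pi.smul_apply, Pi.single_apply, smul_eq_mul, mul_ite, mul_one, mul_zero, Finset.sum_ite_eq]
  by_cases hg : g ∈ F <;> simp [hg]

/-- natural spectrum -/
def Natural (f : G → ℂ) : Prop :=
  {z : ℂ | ¬ ∃ h ∈ BG G, ∀ g : G, (f g - z) * h g = 1} = closure (Set.range f)

theorem natural_of_sing (a : BA G)
    (h : ∀ χ : characterSpace ℂ (BA G), Sing χ → χ a ∈ closure (Set.range (fnA a))) :
    Natural (fnA a) := by
  have e : {z : ℂ | ¬ ∃ h ∈ BG G, ∀ g : G, (fnA a g - z) * h g = 1} = spectrum ℂ a := by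
    ext z
    rw [Set.mem_setOf_eq, spectrum.mem_iff, ← IsUnit.neg_iff, neg_sub, isUnit_iff_exists_inv]
    refine not_congr ⟨fun ⟨h, hh, h1⟩ => ⟨mkB h hh, fnA_inj ?_⟩, fun ⟨b, hb⟩ => ⟨fnA b, fnA_mem b,
      fun g => ?_⟩⟩
    · funext g; simpa using h1 g
    · simpa using congrFun (congrArg fnA hb) g
  unfold Natural
  rw [e]
  refine Set.Subset.antisymm (fun z hz => ?_) (closure_minimal ?_ (spectrum.isClosed a))
  · obtain ⟨χ, rfl⟩ := CharacterSpace.mem_spectrum_iff_exists.1 hz
    rcases eval_or_sing χ with h1 | ⟨x, hx⟩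
    · exact h χ h1
    · rw [hx]; exact subset_closure ⟨x, rfl⟩
  · rintro _ ⟨x, rfl⟩
    rw [← e]
    rintro ⟨h, -, h1⟩
    simpa using h1 x

end

end Pool.Agent.H58.Ns
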