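import Pool.Agent.H58.NsB

/-! Rigid part and mixing part along an idempotent ultrafilter; selection of the next frequency. -/

namespace Pool.Agent.H58.Ns

open Pool.Agent.H90.FS Filter Topology
open scoped ComplexConjugate

attribute [local instance] Ultrafilter.semigroup

noncomputable section

variable {G : Type} [Group G]

lemma exists_idem (M : Type) [Group M] [Infinite M] :
    ∃ p : Ultrafilter M, (p : Filter M) ≤ cofinite ∧ p * p = p := by
  have := exists_idempotent_in_compact_subsemigroup (M := Ultrafilter M)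
    Ultrafilter.continuous_mul_left {p | (p : Filter M) ≤ cofinite}
    ⟨hyperfilter M, hyperfilter_le_cofinite⟩ ?_ ?_
  · obtain ⟨p, h1, h2⟩ := this
    exact ⟨p, h1, h2⟩
  · refine IsClosed.isCompact ?_
    have : {p : Ultrafilter M | (p : Filter M) ≤ cofinite} = ⋂ s ∈ (cofinite : Filter M), {p | s ∈ p} := by
      ext p; simp only [Set.mem_ofPred_eq, Set.mem_iInter]; exact Iff.rfl
    rw [this]
    exact isClosed_biInter fun s _ => ultrafilter_isClosed_basic s
  · intro p _ q hq s hs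
    change ∀ᶠ m in ((p * q : Ultrafilter M) : Filter M), m ∈ s
    rw [Ultrafilter.eventually_mul]
    refine Eventually.of_forall fun m => hq ?_
    exact (mul_right_injective m).tendsto_cofinite hs

lemma iter_lim {M : Type} [Group M] {p : Ultrafilter M} (hp : p * p = p) {F L' : M → ℂ} {L : ℂ}
    (h : Tendsto F p (𝓝 L)) (h' : ∀ x, Tendsto (fun y => F (x * y)) p (𝓝 (L' x))) :
    Tendsto L' p (𝓝 L) := by
  rw [← hp] at h
  rw [(Metric.nhds_basis_closedBall).tendsto_right_iff] at h ⊢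
  intro ε hε
  have := h ε hε
  rw [Ultrafilter.eventually_mul] at this
  filter_upwards [this] with x hx
  exact Metric.isClosed_closedBall.mem_of_tendsto (h' x) hx

lemma dev_mul (r : URep G) (g k : G) (v : r.H) :
    ‖r.U (g * k) v - v‖ ≤ ‖r.U g v - v‖ + ‖r.U k v - v‖ := by
  have : r.U (g * k) v - v = (r.U g v - v) + r.U g (r.U k v - v) := by
    rw [r.U_mul_apply, map_sub]; abel
  rw [this]
  exact (norm_add_le _ _).trans (by rw [r.norm_U])

lemma dev_pow (r : URep G) (g : G) (v : r.H) (k : ℕ) :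
    ‖r.U (g ^ k) v - v‖ ≤ k * ‖r.U g v - v‖ := by
  induction k with
  | zero => simp [URep.U_one]
  | succ k ih =>
    rw [pow_succ]
    refine (dev_mul r _ _ v).trans ?_
    push_cast; linarith

lemma dev_inv (r : URep G) (g : G) (v : r.H) : ‖r.U g⁻¹ v - v‖ = ‖r.U g v - v‖ := by
  rw [← r.norm_U g, map_sub, ← r.U_mul_apply, mul_inv_cancel, r.U_one, norm_sub_rev]; rfl

section
variable (r : URep G) (A : Subgroup G) (p : Ultrafilter A) (Λ : Submonoid ℕ)

def WW : Submodule ℂ r.H where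
  carrier := {v | ∀ ε > 0, ∃ m ∈ Λ, ∀ k ∈ Λ, ∀ᶠ x : A in p, ‖r.U (x ^ (m * k)) v - v‖ ≤ ε}
  zero_mem' := fun ε hε => ⟨1, Λ.one_mem, fun k _ => Eventually.of_forall fun x => by simp [hε.le]⟩
  add_mem' := by
    intro a b ha hb ε hε
    obtain ⟨m, hm, h1⟩ := ha (ε / 2) (by positivity)
    obtain ⟨n, hn, h2⟩ := hb (ε / 2) (by positivity)
    refine ⟨m * n, Λ.mul_mem hm hn, fun k hk => ?_⟩
    filter_upwards [h1 (n * k) (Λ.mul_mem hn hk), h2 (m * k) (Λ.mul_mem hm hk)] with x e1 e2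
    rw [← mul_assoc] at e1
    rw [← mul_assoc, mul_comm n m] at e2
    rw [map_add, add_sub_add_comm]
    exact (norm_add_le _ _).trans (by linarith)
  smul_mem' := by
    intro c a ha ε hε
    obtain ⟨m, hm, h1⟩ := ha (ε / (‖c‖ + 1)) (by positivity)
    refine ⟨m, hm, fun k hk => ?_⟩
    filter_upwards [h1 k hk] with x e1
    rw [map_smul, ← smul_sub, norm_smul]
    rw [le_div_iff₀ (by positivity)] at e1
    nlinarith [norm_nonneg (r.U (x ^ (m * k)) a - a)]

lemma WW_closed : IsClosed (WW r A p Λ : Set r.H) := by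
  refine isClosed_of_closure_subset fun v hv ε hε => ?_
  obtain ⟨w, hw, h⟩ := Metric.mem_closure_iff.1 hv (ε / 3) (by positivity)
  obtain ⟨m, hm, h1⟩ := hw (ε / 3) (by positivity)
  refine ⟨m, hm, fun k hk => ?_⟩
  filter_upwards [h1 k hk] with x e1
  rw [dist_eq_norm] at h
  have : r.U (x ^ (m * k)) v - v
      = r.U (x ^ (m * k)) (v - w) + (r.U (x ^ (m * k)) w - w) - (v - w) := by
    rw [map_sub]; abel
  rw [this]
  refine (norm_sub_le _ _).trans ?_
  have := norm_add_le (r.U (x ^ (m * k)) (v - w)) (r.U (x ^ (m * k)) w - w)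
  rw [r.norm_U] at this
  linarith

instance : (WW r A p Λ).HasOrthogonalProjection :=
  haveI := (WW_closed r A p Λ).completeSpace_coe
  inferInstance

variable {r A p Λ}

lemma mem_WW {v : r.H} {m : ℕ} (hm : m ∈ Λ)
    (h : Tendsto (fun x : A => ‖r.U (x ^ m) v - v‖) p (𝓝 0)) : v ∈ WW r A p Λ := by
  intro ε hε
  refine ⟨m, hm, fun k _ => ?_⟩
  have := h.const_mul (k : ℝ)
  rw [mul_zero] at this
  filter_upwards [this.eventually (ge_mem_nhds hε)] with x hx
  rw [pow_mul]
  exact (dev_pow r _ v k).trans hx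

lemma mixing (hA : ∀ x ∈ A, ∀ y ∈ A, x * y = y * x) (hp : p * p = p) {a : r.H}
    (ha : a ∈ (WW r A p Λ)ᗮ) {l : ℤ} (hl : l.natAbs ∈ Λ) (v : r.H) :
    Tendsto (fun x : A => inner ℂ v (r.U (x ^ l) a)) p (𝓝 0) := by
  choose φ hφ using fun c : r.H => exists_ulim p (fun x : A => inner ℂ v (r.U (x ^ l) c))
    (‖v‖ * ‖c‖) fun x => (norm_inner_le_norm _ _).trans (by rw [r.norm_U])
  let φL : r.H →L[ℂ] ℂ := LinearMap.mkContinuous
    { toFun := φ
      map_add' := fun c d => tendsto_nhds_unique (hφ _) (by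
        simpa [inner_add_right] using (hφ c).add (hφ d))
      map_smul' := fun c d => tendsto_nhds_unique (hφ _) (by
        simpa [inner_smul_right] using (hφ d).const_mul c) } ‖v‖ fun c =>
      le_of_tendsto' ((continuous_norm.tendsto _).comp (hφ c)) fun x =>
        (norm_inner_le_norm _ _).trans (by rw [r.norm_U])
  set w := (InnerProductSpace.toDual ℂ r.H).symm φL with hw
  have hw' : ∀ c, inner ℂ w c = φ c := fun c => InnerProductSpace.toDual_symm_apply
  have h1 : Tendsto (fun x : A => inner ℂ w (r.U (x ^ l) w)) p (𝓝 (inner ℂ w w)) := by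
    rw [hw' w]
    refine iter_lim hp (hφ w) fun x => ?_
    rw [hw']
    refine (hφ _).congr fun y => ?_
    rw [← r.U_mul_apply, Subgroup.coe_mul, hA _ x.2 _ y.2,
      (show Commute (y : G) x from hA _ y.2 _ x.2).mul_zpow]
  have h2 : Tendsto (fun x : A => ‖r.U (x ^ l) w - w‖) p (𝓝 0) := by
    have h3 : Tendsto (fun x : A => ‖r.U (x ^ l) w - w‖ ^ 2) p (𝓝 0) := by
      have := ((Complex.continuous_re.tendsto _).comp h1).const_mul 2
      have := this.const_sub (2 * ‖w‖ ^ 2)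
      have e : 2 * ‖w‖ ^ 2 - 2 * (inner ℂ w w).re = 0 := by
        rw [show (inner ℂ w w).re = ‖w‖ ^ 2 from inner_self_eq_norm_sq (𝕜 := ℂ) w]; ring
      rw [e] at this
      refine this.congr fun x => ?_
      rw [norm_sub_rev, @norm_sub_sq ℂ, r.norm_U]
      simp only [Function.comp, RCLike.re_to_complex]; ring
    have := h3.sqrt
    simpa using this
  have h4 : w ∈ WW r A p Λ := by
    refine mem_WW hl (h2.congr fun x => ?_)
    rcases Int.natAbs_eq l with h | h
    · conv_lhs => rw [h, zpow_natCast]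
    · conv_lhs => rw [h, zpow_neg, zpow_natCast, dev_inv]
  have h5 : φ a = 0 := by rw [← hw']; exact ha w h4
  rw [← h5]; exact hφ a

end

theorem select (r : URep G) (ξ η : r.H) (A : Subgroup G) [Infinite A]
    (hA : ∀ x ∈ A, ∀ y ∈ A, x * y = y * x) (Λ : Submonoid ℕ)
    (hΛ : ∀ m ∈ Λ, {x : A | (x : G) ^ m = 1}.Finite) :
    ∃ a b : r.H, ∀ ε > 0, ∀ E : Finset G, ∀ K : ℕ, (∀ l, 0 < l → l < K → l ∈ Λ) →
      ∃ x ∈ A, ‖r.U x a - a‖ + ‖r.U x b - b‖ ≤ ε ∧ ∀ l : ℤ, l ≠ 0 → l.natAbs < K →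
        x ^ l ∉ E ∧ ∀ y ∈ E, y ∈ A → ‖(r.coef ξ η - r.coef a b) (y * x ^ l)‖ ≤ ε := by
  obtain ⟨p, hc, hp⟩ := exists_idem A
  obtain ⟨a, ha, a', ha', rfl⟩ := (WW r A p Λ).exists_add_mem_mem_orthogonal ξ
  obtain ⟨b, hb, b', hb', rfl⟩ := (WW r A p Λ).exists_add_mem_mem_orthogonal η
  refine ⟨a, b, fun ε hε E K hK => ?_⟩
  obtain ⟨m, hm, h1⟩ := ha (ε / 2) (by positivity)
  obtain ⟨n, hn, h2⟩ := hb (ε / 2) (by positivity)
  have hmn := Λ.mul_mem hm hn
  have fin : ∀ l : ℤ, l.natAbs ∈ Λ → ∀ e : G, {x : A | (x : G) ^ l = e}.Finite := by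
    intro l hl e
    by_cases hne : {x : A | (x : G) ^ l = e}.Nonempty
    · obtain ⟨x0, hx0⟩ := hne
      refine ((hΛ _ hl).image (fun z => x0 * z)).subset fun x hx => ⟨x0⁻¹ * x, ?_, by simp⟩
      have : ((x0 : G)⁻¹ * x) ^ l = 1 := by
        rw [(show Commute ((x0 : G)⁻¹) x from hA _ (A.inv_mem x0.2) _ x.2).mul_zpow, inv_zpow]
        rw [Set.mem_ofPred_eq] at hx hx0
        rw [hx, hx0, inv_mul_cancel]
      have h' : ((x0 : G)⁻¹ * x) ^ l.natAbs = 1 := pow_natAbs_eq_one.2 this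
      simpa using h'
    · rw [Set.not_nonempty_iff_eq_empty.1 hne]; exact Set.finite_empty
  have key : ∀ l ∈ (Finset.Ioo (-(K : ℤ)) K).erase 0, ∀ᶠ x : A in p,
      ((x : G) ^ (m * n)) ^ l ∉ E ∧ ∀ y ∈ E, y ∈ A →
        ‖(r.coef (a + a') (b + b') - r.coef a b) (y * ((x : G) ^ (m * n)) ^ l)‖ ≤ ε := by
    intro l hl
    simp only [Finset.mem_erase, Finset.mem_Ioo] at hl
    have hl' : ((m * n : ℕ) * l).natAbs ∈ Λ := by
      rw [Int.natAbs_mul, Int.natAbs_natCast]
      exact Λ.mul_mem hmn (hK _ (by omega) (by omega))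
    have e : ∀ x : A, ((x : G) ^ (m * n)) ^ l = (x : G) ^ (((m * n : ℕ) : ℤ) * l) := fun x => by
      rw [zpow_mul, zpow_natCast]
    simp only [e]
    refine Eventually.and (hc ?_) ((eventually_all_finset E).2 fun y _ => ?_)
    · refine (E.finite_toSet.biUnion fun e _ => fin _ hl' e).subset fun x hx => ?_
      simpa using hx
    by_cases hy : y ∈ A
    swap
    · exact Eventually.of_forall fun x h => (hy h).elim
    have t1 := mixing hA hp ha' hl' (r.U y⁻¹ (b + b'))
    have t2 := (Complex.continuous_conj.tendsto _).comp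
      (mixing hA hp hb' (l := -((m * n : ℕ) * l)) (by rwa [Int.natAbs_neg]) (r.U y a))
    have t3 := (t1.add t2).norm
    simp only [map_zero, add_zero, norm_zero] at t3
    filter_upwards [t3.eventually (ge_mem_nhds hε)] with x hx _
    refine le_trans (le_of_eq ?_) hx
    congr 1
    set z := (x : G) ^ (((m * n : ℕ) : ℤ) * l) with hz
    have hz' : z ∈ A := A.zpow_mem x.2 _
    simp only [Function.comp, Pi.sub_apply, URep.coef_apply, inner_conj_symm, zpow_neg, ← hz]
    rw [← r.inner_U_right z, ← r.U_mul_apply, ← hA _ hy _ hz', ← r.inner_U_right y,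
      ← r.U_mul_apply, map_add, inner_add_right, inner_add_left b b' (r.U (y * z) a)]
    ring
  obtain ⟨x, e1, e2, e3⟩ := ((h1 n hn).and ((h2 m hm).and
    ((eventually_all_finset _).2 key))).exists
  rw [mul_comm n m] at e2
  refine ⟨(x : G) ^ (m * n), A.pow_mem x.2 _, by linarith, fun l h0 hl => e3 l ?_⟩
  simp only [Finset.mem_erase, Finset.mem_Ioo]
  omega

end

end Pool.Agent.H58.Ns
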