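import Pool.Agent.H58.NsC

/-! Vectors in the regular representation and the localisation estimate. -/

namespace Pool.Agent.H58.Ns

open Pool.Agent.H90.FS Filter Topology
open scoped ComplexConjugate Pointwise

noncomputable section

variable {G : Type} [Group G]

lemma norm_sum_tv {l r : URep G} {e : G → l.H} (he : Orthonormal ℂ e) (F : Finset G)
    (α : G → r.H) : ‖∑ s ∈ F, tv (e s) (α s)‖ ^ 2 = ∑ s ∈ F, ‖α s‖ ^ 2 := by
  classical
  rw [← inner_self_eq_norm_sq (𝕜 := ℂ)]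
  simp only [sum_inner, inner_sum, inner_tv, orthonormal_iff_ite.1 he, ite_mul, one_mul, zero_mul,
    map_sum]
  refine Finset.sum_congr rfl fun s hs => ?_
  rw [Finset.sum_eq_single s (fun t _ h => by simp [h]) (fun h => (h hs).elim), if_pos rfl,
    inner_self_eq_norm_sq]

lemma norm_sum_tv_le {l r : URep G} {e : G → l.H} (he : Orthonormal ℂ e) (F : Finset G)
    (c : G → ℂ) (hc : ∑ s ∈ F, ‖c s‖ ^ 2 = 1) (α : G → r.H) {δ : ℝ} (hδ : 0 ≤ δ)
    (h : ∀ s ∈ F, ‖α s‖ ≤ δ) : ‖∑ s ∈ F, tv (e s) (c s • α s)‖ ≤ δ := by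
  refine (sq_le_sq₀ (norm_nonneg _) hδ).1 ?_
  rw [norm_sum_tv he, ← one_mul (δ ^ 2), ← hc, Finset.sum_mul]
  refine Finset.sum_le_sum fun s hs => ?_
  rw [norm_smul, mul_pow]
  gcongr
  exact h s hs

lemma local_est {l r : URep G} {e : G → l.H} (he : Orthonormal ℂ e)
    (hU : ∀ g x, l.U g (e x) = e (g * x)) (a b : r.H) {δ : ℝ} (hδ : 0 ≤ δ) {S : Set G}
    (hS : ∀ s ∈ S, ‖r.U s a - a‖ + ‖r.U s b - b‖ ≤ δ) {V : l.H}
    (hV : V ∈ Submodule.span ℂ (e '' S)) (h1 : ‖V‖ = 1) :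
    Nb (l.coef V V * (r.coef a b - fun _ => inner ℂ b a)) ((‖a‖ + ‖b‖) * δ) := by
  classical
  obtain ⟨c, hc, rfl⟩ := (Finsupp.mem_span_image_iff_linearCombination ℂ).1 hV
  rw [Finsupp.mem_supported] at hc
  have hn : ∑ s ∈ c.support, ‖c s‖ ^ 2 = 1 := by
    have := he.inner_finsupp_eq_sum_left c c
    rw [inner_self_eq_norm_sq_to_K, h1] at this
    simp only [Finsupp.sum, Complex.conj_mul'] at this
    have h2 : ((∑ s ∈ c.support, ‖c s‖ ^ 2 : ℝ) : ℂ) = ((1 : ℝ) : ℂ) := by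
      push_cast; rw [← this]; simp
    exact_mod_cast h2
  have n1 := norm_sum_tv_le he _ c hn (fun _ => b) (norm_nonneg b) fun _ _ => le_rfl
  have n2 := norm_sum_tv_le he _ c hn (fun s => a - r.U s a) hδ fun s hs => by
    rw [norm_sub_rev]; linarith [hS s (hc hs), norm_nonneg (r.U s b - b)]
  have n3 := norm_sum_tv_le he _ c hn (fun s => b - r.U s b) hδ fun s hs => by
    rw [norm_sub_rev]; linarith [hS s (hc hs), norm_nonneg (r.U s a - a)]
  have n4 := norm_sum_tv_le he _ c hn (fun s => r.U s a) (norm_nonneg a) fun s _ =>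
    (r.norm_U _ _).le
  have := (nb_coef (tens l r) (∑ s ∈ c.support, tv (e s) (c s • (a - r.U s a)))
    (∑ s ∈ c.support, tv (e s) (c s • b))).add
    (nb_coef (tens l r) (∑ s ∈ c.support, tv (e s) (c s • r.U s a))
      (∑ s ∈ c.support, tv (e s) (c s • (b - r.U s b))))
  have h2 := this.mono (D := (‖a‖ + ‖b‖) * δ) (by
    have := norm_nonneg a
    have := norm_nonneg b
    calc _ ≤ δ * ‖b‖ + ‖a‖ * δ := by gcongr
      _ = _ := by ring)
  convert h2 using 1
  funext g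
  simp only [Pi.mul_apply, Pi.sub_apply, Pi.add_apply, URep.coef_apply, map_sum, tens_U, hU,
    sum_inner, inner_sum, inner_tv, Finsupp.linearCombination_apply, Finsupp.sum, map_smul,
    inner_smul_left, inner_smul_right, orthonormal_iff_ite.1 he, Finset.sum_mul, Finset.mul_sum,
    ← Finset.sum_add_distrib]
  refine Finset.sum_congr rfl fun s _ => Finset.sum_congr rfl fun t _ => ?_
  split_ifs with h
  · rw [map_sub, ← r.U_mul_apply, ← h, inner_sub_right, inner_sub_left, r.inner_U]; ring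
  · ring

lemma inner_supp {l : URep G} {e : G → l.H} (he : Orthonormal ℂ e) {S S' : Set G}
    (hd : Disjoint S S') {V V' : l.H} (hV : V ∈ Submodule.span ℂ (e '' S))
    (hV' : V' ∈ Submodule.span ℂ (e '' S')) : inner ℂ V V' = 0 := by
  have : Submodule.span ℂ (e '' S) ⟂ Submodule.span ℂ (e '' S') := by
    rw [Submodule.isOrtho_span]
    rintro _ ⟨s, hs, rfl⟩ _ ⟨t, ht, rfl⟩
    exact he.2 (hd.ne_of_mem hs ht)
  exact this.inner_eq hV hV'

lemma supp_U {l : URep G} {e : G → l.H} (hU : ∀ g x, l.U g (e x) = e (g * x)) {S S' : Set G}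
    {g : G} (h : ∀ s ∈ S, g * s ∈ S') {V : l.H} (hV : V ∈ Submodule.span ℂ (e '' S)) :
    l.U g V ∈ Submodule.span ℂ (e '' S') := by
  induction hV using Submodule.span_induction with
  | mem x hx =>
    obtain ⟨s, hs, rfl⟩ := hx
    rw [hU]; exact Submodule.subset_span ⟨_, h s hs, rfl⟩
  | zero => simp
  | add x y _ _ hx hy => rw [map_add]; exact Submodule.add_mem _ hx hy
  | smul c x _ hx => rw [map_smul]; exact Submodule.smul_mem _ _ hx

lemma coef_step (l : URep G) (V : l.H) (x g : G) (hg : Commute g x) (M : ℕ) (u : ℕ → ℂ) :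
    l.coef (∑ j ∈ Finset.range M, u j • l.U (x ^ j) V) (∑ j ∈ Finset.range M, u j • l.U (x ^ j) V) g
      = ∑ j ∈ Finset.range M, ∑ k ∈ Finset.range M,
        conj (u k) * u j * l.coef V V (g * x ^ ((j : ℤ) - k)) := by
  simp only [URep.coef_apply, map_sum, map_smul, sum_inner, inner_sum, inner_smul_left,
    inner_smul_right, Finset.mul_sum]
  refine Finset.sum_congr rfl fun j _ => Finset.sum_congr rfl fun k _ => ?_
  have : g * x ^ ((j : ℤ) - k) = (x ^ k)⁻¹ * (g * x ^ j) := by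
    rw [zpow_sub, zpow_natCast, zpow_natCast, ← mul_assoc]
    exact (((hg.pow_right k).mul_left ((Commute.refl x).pow_pow j k)).inv_right).eq
  rw [this, l.U_mul_apply, l.inner_U_right (x ^ k)⁻¹, inv_inv, l.U_mul_apply]; ring

/-- the sets of frequencies -/
theorem exists_freq (r : URep G) (ξ η : r.H) (A : Subgroup G) [Infinite A] [DecidableEq G]
    (hA : ∀ x ∈ A, ∀ y ∈ A, x * y = y * x) (Λ : Submonoid ℕ)
    (hΛ : ∀ m ∈ Λ, {x : A | (x : G) ^ m = 1}.Finite) (M K : ℕ → ℕ) (hM : ∀ n, 2 ≤ M n)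
    (hMK : ∀ n, M n ≤ K n) (hK : ∀ n l, 0 < l → l < K n → l ∈ Λ) (Φ : Finset G → Finset G) :
    ∃ (a b : r.H) (x : ℕ → G) (T : ℕ → Finset G), T 0 = {1} ∧
      (∀ n, T (n + 1) = (Finset.range (M n) ×ˢ T n).image fun q => x n ^ q.1 * q.2) ∧
      (∀ n, x n ∈ A) ∧ (∀ n, ∀ t ∈ T n, t ∈ A) ∧ (∀ n, 1 ∈ T n) ∧ (∀ n, x n ∉ Φ (T n)) ∧
      (∀ n, ∀ j < M n, ‖r.U (x n ^ j) a - a‖ + ‖r.U (x n ^ j) b - b‖ ≤ (1 / 2) ^ n) ∧
      (∀ n (l : ℤ), l ≠ 0 → l.natAbs < K n → ∀ g ∈ T n / T n, g * x n ^ l ∉ T n / T n) ∧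
      (∀ n j, 0 < j → j < M n → ‖(r.coef ξ η - r.coef a b) (x n ^ j)‖ ≤ (1 / 2) ^ n) ∧
      ∃ C, ∀ n, ∑ g ∈ T n / T n, ‖(r.coef ξ η - r.coef a b) g‖ ≤ C := by
  obtain ⟨a, b, h⟩ := select r ξ η A hA Λ hΛ
  choose X hX using fun (n : ℕ) (T : Finset G) =>
    h ((1 / 2) ^ n / ((2 * M n + 1) * ((T / T).card + 1))) (by positivity)
      (T / T ∪ (T / T)⁻¹ * (T / T) ∪ Φ T) (K n) (hK n)
  let T : ℕ → Finset G := fun n => Nat.rec {1}
    (fun n T => (Finset.range (M n) ×ˢ T).image fun q => X n T ^ q.1 * q.2) n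
  have hT : ∀ n, T (n + 1) = (Finset.range (M n) ×ˢ T n).image fun q => X n (T n) ^ q.1 * q.2 :=
    fun n => rfl
  have hTA : ∀ n, ∀ t ∈ T n, t ∈ A := by
    intro n
    induction n with
    | zero => intro t ht; rw [Finset.mem_singleton.1 ht]; exact A.one_mem
    | succ n ih =>
      intro t ht
      rw [hT] at ht
      obtain ⟨q, hq, rfl⟩ := Finset.mem_image.1 ht
      exact A.mul_mem (A.pow_mem (hX n _).1 _) (ih _ (Finset.mem_product.1 hq).2)
  have hT1 : ∀ n, 1 ∈ T n := by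
    intro n
    induction n with
    | zero => exact Finset.mem_singleton_self _
    | succ n ih =>
      rw [hT]
      exact Finset.mem_image.2 ⟨(0, 1), by simpa [ih] using (by have := hM n; omega), by simp⟩
  have hD1 : ∀ n, (1 : G) ∈ T n / T n := fun n => Finset.mem_div.2 ⟨1, hT1 n, 1, hT1 n, by simp⟩
  have hDA : ∀ n, ∀ g ∈ T n / T n, g ∈ A := fun n g hg => by
    obtain ⟨s, hs, t, ht, rfl⟩ := Finset.mem_div.1 hg
    exact A.div_mem (hTA n s hs) (hTA n t ht)
  have eps : ∀ n, ∀ (j k : ℝ), j ≤ 2 * M n + 1 → 0 ≤ k → k ≤ (T n / T n).card + 1 →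
      j * k * ((1 / 2) ^ n / ((2 * M n + 1) * ((T n / T n).card + 1))) ≤ (1 / 2 : ℝ) ^ n := by
    intro n j k h1 h2 h3
    rw [← mul_div_assoc, div_le_iff₀ (by positivity), mul_comm]
    gcongr
  set f0 := r.coef ξ η - r.coef a b with hf0
  refine ⟨a, b, fun n => X n (T n), T, rfl, hT, fun n => (hX n _).1, hTA, hT1, fun n hn => ?_,
    fun n j hj => ?_, fun n l h0 hl g hg hg' => ?_, fun n j h0 hj => ?_, ‖f0 1‖ + 2, fun n => ?_⟩
  · refine ((hX n (T n)).2.2 1 one_ne_zero (by have := hM n; have := hMK n; simp; omega)).1 ?_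
    simp [hn]
  · have h1 := dev_pow r (X n (T n)) a j
    have h2 := dev_pow r (X n (T n)) b j
    have h3 := (hX n (T n)).2.1
    have h4 := eps n j 1 (by have : (j : ℝ) ≤ M n := by exact_mod_cast hj.le
                             linarith [(Nat.cast_nonneg (M n) : (0 : ℝ) ≤ _)]) zero_le_one (by simp)
    have h5 := mul_le_mul_of_nonneg_left h3 (Nat.cast_nonneg j : (0 : ℝ) ≤ j)
    linarith
  · refine ((hX n (T n)).2.2 l h0 hl).1 ?_
    refine Finset.mem_union_left _ (Finset.mem_union_right _ ?_)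
    exact Finset.mem_mul.2 ⟨g⁻¹, Finset.inv_mem_inv hg, _, hg', by simp⟩
  · have h1 := ((hX n (T n)).2.2 j (by omega) (by have := hMK n; simp; omega)).2 1
      (by simp [hD1]) A.one_mem
    rw [one_mul, zpow_natCast] at h1
    have h4 := eps n 1 1 (by linarith [(Nat.cast_nonneg (M n) : (0 : ℝ) ≤ _)]) zero_le_one (by simp)
    linarith
  · suffices H : ∑ g ∈ T n / T n, ‖f0 g‖ ≤ ‖f0 1‖ + 2 - 2 * (1 / 2) ^ n by
      have : (0 : ℝ) ≤ (1 / 2) ^ n := by positivity
      linarith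
    induction n with
    | zero => simp [show T 0 = {1} from rfl]
    | succ n ih =>
      set L := (Finset.Ioo (-(M n : ℤ)) (M n)).erase 0 with hL
      have sub : T (n + 1) / T (n + 1) ⊆ T n / T n ∪
          (L ×ˢ (T n / T n)).image fun q => q.2 * X n (T n) ^ q.1 := by
        intro g hg
        obtain ⟨s, hs, t, ht, rfl⟩ := Finset.mem_div.1 hg
        rw [hT] at hs ht
        obtain ⟨⟨j, s⟩, hq, rfl⟩ := Finset.mem_image.1 hs
        obtain ⟨⟨k, t⟩, hq', rfl⟩ := Finset.mem_image.1 ht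
        simp only [Finset.mem_product, Finset.mem_range] at hq hq'
        have hst : s / t ∈ T n / T n := Finset.div_mem_div hq.2 hq'.2
        have c1 : Commute (s / t) (X n (T n)) := hA _ (hDA n _ hst) _ (hX n _).1
        have e : X n (T n) ^ j * s / (X n (T n) ^ k * t) = s / t * X n (T n) ^ ((j : ℤ) - k) := by
          rw [zpow_sub, zpow_natCast, zpow_natCast, ← mul_assoc, (c1.pow_right j).eq]
          simp [div_eq_mul_inv, mul_assoc]
        simp only [e]
        by_cases hjk : j = k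
        · simp [hjk, hst]
        · refine Finset.mem_union_right _ (Finset.mem_image.2 ⟨((j : ℤ) - k, s / t), ?_, rfl⟩)
          simp only [Finset.mem_product, hL, Finset.mem_erase, Finset.mem_Ioo, hst, and_true]
          omega
      have h1 : ∑ g ∈ (L ×ˢ (T n / T n)).image fun q => q.2 * X n (T n) ^ q.1, ‖f0 g‖
          ≤ (1 / 2) ^ n := by
        refine (Finset.sum_le_card_nsmul _ _
          ((1 / 2 : ℝ) ^ n / ((2 * M n + 1) * ((T n / T n).card + 1))) fun g hg => ?_).trans ?_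
        · obtain ⟨⟨l, y⟩, hq, rfl⟩ := Finset.mem_image.1 hg
          simp only [Finset.mem_product, hL, Finset.mem_erase, Finset.mem_Ioo] at hq
          exact ((hX n (T n)).2.2 l hq.1.1 (by have := hMK n; omega)).2 y (by simp [hq.2])
            (hDA n y hq.2)
        · rw [nsmul_eq_mul]
          refine le_trans ?_ (eps n L.card (T n / T n).card ?_ (by positivity) (by linarith))
          · gcongr
            rw [← Nat.cast_mul, ← Finset.card_product]
            exact_mod_cast Finset.card_image_le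
          · have : L.card ≤ 2 * M n + 1 := Finset.card_erase_le.trans (by simp; omega)
            exact_mod_cast this
      have h2 := Finset.sum_le_sum_of_subset_of_nonneg (f := fun g => ‖f0 g‖) sub
        fun _ _ _ => norm_nonneg _
      have h3 := Finset.sum_union_inter (f := fun g => ‖f0 g‖) (s₁ := T n / T n)
        (s₂ := (L ×ˢ (T n / T n)).image fun q => q.2 * X n (T n) ^ q.1)
      have h4 : 0 ≤ ∑ g ∈ (T n / T n) ∩ (L ×ˢ (T n / T n)).image fun q => q.2 * X n (T n) ^ q.1,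
        ‖f0 g‖ := Finset.sum_nonneg fun _ _ => norm_nonneg _
      rw [pow_succ]
      linarith

end

end Pool.Agent.H58.Ns
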