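import Pool.Agent.H90.FsDefs

namespace Pool.Agent.H58.NsDefs

open Pool.Agent.H90.FS

/-- The spectrum of `f` in the Fourier-Stieltjes algebra. -/
def spec {G : Type} [Group G] (f : G → ℂ) : Set ℂ :=
  {z | ¬ ∃ h ∈ BG G, ∀ g : G, (f g - z) * h g = 1}

/-- The elements of the Fourier-Stieltjes algebra with natural spectrum. -/
def NS (G : Type) [Group G] : Set (G → ℂ) :=
  {f | f ∈ BG G ∧ spec f = closure (Set.range f)}

end Pool.Agent.H58.NsDefs
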