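import Pool.Agent.H58.NsD

/-! The localising elements `g N`. -/

namespace Pool.Agent.H58.Ns

open Pool.Agent.H90.FS Filter Topology WeakDual
open scoped ComplexConjugate Pointwise

noncomputable section

variable {G : Type} [Group G]

theorem blocks (F : BA G) (A : Subgroup G) [Infinite A]
    (hA : ∀ x ∈ A, ∀ y ∈ A, x * y = y * x) (Λ : Submonoid ℕ)
    (hΛ : ∀ m ∈ Λ, {x : A | (x : G) ^ m = 1}.Finite) (M K : ℕ → ℕ) (hM : ∀ n, 2 ≤ M n)
    (hMK : ∀ n, M n ≤ K n) (hK : ∀ n l, 0 < l → l < K n → l ∈ Λ) (Φ : Finset G → Finset G)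
    (u : ℕ → ℕ → ℂ) (hu : ∀ n, ∑ j ∈ Finset.range (M n), ‖u n j‖ ^ 2 = 1) :
    ∃ (x : ℕ → G) (T : ℕ → Finset G) (g : ℕ → BA G) (c : ℂ) (C : ℝ), 0 ≤ C ∧ (∀ n, x n ∈ A) ∧
      (∀ n, x n ∉ Φ (T n)) ∧ (∀ k n, k < n → x k ∈ T n) ∧ (∀ N, ‖g N‖ ≤ 1) ∧
      (∀ N χ, Sing χ → ‖χ (g N)‖ * ‖χ F - c‖ ≤ C * (1 / 2) ^ N) ∧
      (∀ i s, 0 < s → s < M i → ‖fnA F (x i ^ s) - c‖ ≤ C * (1 / 2) ^ i) ∧
      ∀ N i, N ≤ i → ∃ ψ : ℤ → ℂ, (∀ l, x i ^ l = 1 → ψ l = 1) ∧
        (∀ l, l ≠ 0 → l.natAbs < K i → ψ l = 0) ∧ ∀ s < M i, fnA (g N) (x i ^ s) =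
          ∑ j ∈ Finset.range (M i), ∑ k ∈ Finset.range (M i),
            conj (u i k) * u i j * ψ ((s : ℤ) + (j - k)) := by
  classical
  obtain ⟨r, ξ, η, hF⟩ := fnA_mem F
  obtain ⟨a, b, x, T, hT0, hT, hxA, hTA, hT1, hΦ, hdev, hav, hsm, C0, hC0⟩ :=
    exists_freq r ξ η A hA Λ hΛ M K hM hMK hK Φ
  obtain ⟨l, e, he, hU⟩ := exists_reg (G := G)
  have memT : ∀ n j t, j < M n → t ∈ T n → x n ^ j * t ∈ T (n + 1) := fun n j t hj ht => by
    rw [hT]; exact Finset.mem_image.2 ⟨(j, t), by simp [hj, ht], rfl⟩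
  have monoT : Monotone T := monotone_nat_of_le_succ fun n t ht => by
    simpa using memT n 0 t (by have := hM n; omega) ht
  have monoD : ∀ {n m}, n ≤ m → ∀ {g}, g ∈ T n / T n → g ∈ T m / T m := fun h _ hg =>
    Finset.div_subset_div (monoT h) (monoT h) hg
  have hD1 : ∀ n, (1 : G) ∈ T n / T n := fun n => Finset.mem_div.2 ⟨1, hT1 n, 1, hT1 n, by simp⟩
  have hDA : ∀ n, ∀ g ∈ T n / T n, g ∈ A := fun n g hg => by
    obtain ⟨s, hs, t, ht, rfl⟩ := Finset.mem_div.1 hg
    exact A.div_mem (hTA n s hs) (hTA n t ht)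
  let V : ℕ → ℕ → l.H := fun N n => Nat.rec (e 1)
    (fun n V => if n < N then V else ∑ j ∈ Finset.range (M n), u n j • l.U (x n ^ j) V) n
  have hV : ∀ N n, V N (n + 1) = if n < N then V N n else
      ∑ j ∈ Finset.range (M n), u n j • l.U (x n ^ j) (V N n) := fun N n => rfl
  let S : ℕ → ℕ → Set G := fun N n => {s | s ∈ T n ∧
    ‖r.U s a - a‖ + ‖r.U s b - b‖ ≤ 2 * (1 / 2) ^ N - 2 * (1 / 2) ^ (max n N)}
  have supp : ∀ N n, V N n ∈ Submodule.span ℂ (e '' S N n) := by
    intro N n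
    induction n with
    | zero => exact Submodule.subset_span ⟨1, ⟨hT1 0, by simp [URep.U_one]⟩, rfl⟩
    | succ n ih =>
      rw [hV]
      split_ifs with h
      · refine Submodule.span_mono (Set.image_mono (fun s hs => ?_ : S N n ⊆ S N (n + 1))) ih
        refine ⟨monoT (by omega) hs.1, ?_⟩
        have := hs.2
        rwa [max_eq_right (by omega)] at this ⊢
      · refine Submodule.sum_mem _ fun j hj => Submodule.smul_mem _ _ (supp_U hU ?_ ih)
        intro s hs
        rw [Finset.mem_range] at hj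
        refine ⟨memT n j s hj hs.1, ?_⟩
        have h1 := hs.2
        have h2 := hdev n j hj
        have h3 := dev_mul r (x n ^ j) s a
        have h4 := dev_mul r (x n ^ j) s b
        rw [max_eq_left (by omega)] at h1 ⊢
        rw [pow_succ]
        linarith
  let φ : ℕ → ℕ → G → ℂ := fun N n => l.coef (V N n) (V N n)
  have zero : ∀ N n g, g ∉ T n / T n → φ N n g = 0 := fun N n g hg => by
    refine inner_supp he (S' := {t | ∃ s ∈ T n, t = g * s}) ?_ (supp N n)
      (supp_U hU (fun s hs => by exact ⟨s, hs.1, rfl⟩) (supp N n))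
    rw [Set.disjoint_left]
    rintro _ h1 ⟨s, hs, rfl⟩
    exact hg (Finset.mem_div.2 ⟨_, h1.1, s, hs, by simp⟩)
  have step : ∀ N n g, g ∈ T n / T n → φ N (n + 1) g = φ N n g := fun N n g hg => by
    simp only [φ]
    rw [hV]
    split_ifs with h
    · rfl
    rw [coef_step l _ _ _ (hA _ (hDA n g hg) _ (hxA n))]
    have : ∀ j ∈ Finset.range (M n), ∑ k ∈ Finset.range (M n),
        conj (u n k) * u n j * l.coef (V N n) (V N n) (g * x n ^ ((j : ℤ) - k))
        = ((‖u n j‖ ^ 2 : ℝ) : ℂ) * l.coef (V N n) (V N n) g := fun j hj => by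
      rw [Finset.sum_eq_single j (fun k hk hkj => ?_) (fun h => (h hj).elim)]
      · simp [Complex.conj_mul']
      · rw [Finset.mem_range] at hj hk
        have := zero N n _ (hav n ((j : ℤ) - k) (by omega) (by have := hMK n; omega) g hg)
        simp only [φ] at this
        rw [this, mul_zero]
    rw [Finset.sum_congr rfl this, ← Finset.sum_mul, ← Complex.ofReal_sum, hu]; simp
  have stab : ∀ N n g, g ∈ T n / T n → ∀ m, n ≤ m → φ N m g = φ N n g := fun N n g hg m hm => by
    induction m, hm using Nat.le_induction with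
    | base => rfl
    | succ m hm ih => rw [step N m g (monoD hm hg), ih]
  have one : ∀ N n, φ N n 1 = 1 := fun N n => by
    rw [stab N 0 1 (hD1 0) n (Nat.zero_le _)]
    change inner ℂ (e 1) (l.U 1 (e 1)) = 1
    rw [hU, mul_one, orthonormal_iff_ite.1 he, if_pos rfl]
  have nV : ∀ N n, ‖V N n‖ = 1 := fun N n => by
    have := one N n
    simp only [φ, URep.coef_apply, URep.U_one] at this
    have h2 : inner ℂ (V N n) (V N n) = (1 : ℂ) := this
    have h3 : ‖V N n‖ ^ 2 = 1 := by rw [← inner_self_eq_norm_sq (𝕜 := ℂ), h2]; simp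
    nlinarith [norm_nonneg (V N n)]
  have lim : ∀ N g, ∃ z, Tendsto (fun n => φ N n g) atTop (𝓝 z) ∧
      (∀ n, g ∈ T n / T n → z = φ N n g) ∧ ((∀ n, g ∉ T n / T n) → z = 0) := fun N g => by
    by_cases h : ∃ n, g ∈ T n / T n
    · obtain ⟨n, hn⟩ := h
      refine ⟨φ N n g, tendsto_const_nhds.congr' ?_, fun m hm => ?_, fun h => (h n hn).elim⟩
      · filter_upwards [eventually_ge_atTop n] with m hm using (stab N n g hn m hm).symm
      · rw [← stab N n g hn (max n m) (le_max_left _ _), stab N m g hm _ (le_max_right _ _)]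
    · push Not at h
      exact ⟨0, by simp [zero N _ g (h _)], fun n hn => (h n hn).elim, fun _ => rfl⟩
  choose γ hγ hγ1 hγ2 using lim
  have nbγ : ∀ N, Nb (γ N) 1 := fun N =>
    nb_lim (fun n => by simpa [nV] using nb_coef l (V N n) (V N n)) (hγ N)
  set c := inner ℂ b a with hc
  have nb2 : ∀ N, Nb (γ N * (r.coef a b - fun _ => c)) ((‖a‖ + ‖b‖) * (2 * (1 / 2) ^ N)) := fun N =>
    nb_lim (l := atTop) (fun n => local_est he hU a b (by positivity) (S := S N n)
      (fun s hs => hs.2.trans (by simp)) (supp N n) (nV N n)) fun g => (hγ N g).mul_const _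
  set f0 := r.coef ξ η - r.coef a b with hf0
  have hsum : ∀ N, Summable fun g => ‖γ N g * f0 g‖ := fun N => by
    refine summable_of_sum_le (c := C0) (fun _ => norm_nonneg _) fun F => ?_
    obtain ⟨n, hn⟩ : ∃ n, ∀ g ∈ F, (∃ m, g ∈ T m / T m) → g ∈ T n / T n := by
      induction F using Finset.induction_on with
      | empty => exact ⟨0, by simp⟩
      | insert y F _ ih =>
        obtain ⟨n, hn⟩ := ih
        by_cases hy : ∃ m, y ∈ T m / T m
        · obtain ⟨m, hm⟩ := hy
          refine ⟨max n m, fun g hg hg' => ?_⟩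
          rcases Finset.mem_insert.1 hg with rfl | hg
          · exact monoD (le_max_right _ _) hm
          · exact monoD (le_max_left _ _) (hn g hg hg')
        · refine ⟨n, fun g hg hg' => ?_⟩
          rcases Finset.mem_insert.1 hg with rfl | hg
          · exact (hy hg').elim
          · exact hn g hg hg'
    refine le_trans ?_ (hC0 n)
    rw [← Finset.sum_filter_ne_zero]
    refine le_trans (Finset.sum_le_sum_of_subset_of_nonneg (t := T n / T n) (fun g hg => ?_)
      fun _ _ _ => norm_nonneg _) (Finset.sum_le_sum fun g _ => ?_)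
    · rw [Finset.mem_filter] at hg
      refine hn g hg.1 ?_
      by_contra h
      push Not at h
      exact hg.2 (by simp [hγ2 N g h])
    · rw [norm_mul]
      exact mul_le_of_le_one_left (norm_nonneg _) ((nbγ N).le g)
  refine ⟨x, T, fun N => mkB _ (nbγ N).mem, c, 2 * (‖a‖ + ‖b‖) + 1, by positivity, hxA, hΦ,
    fun k n h => monoT h (by simpa using memT k 1 1 (by have := hM k; omega) (hT1 k)),
    fun N => norm_le_of_nb (nbγ N), fun N χ hχ => ?_, fun i s h0 hs => ?_, fun N i hi => ?_⟩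
  · have m1 : r.coef a b ∈ BG G := ⟨r, a, b, rfl⟩
    have e1 : χ (mkB _ (nbγ N).mem * (F - mkB _ m1)) = 0 := hχ.l1 (by
      simpa [hF, hf0] using hsum N)
    have e2 : ‖χ (mkB _ (nbγ N).mem * (mkB _ m1 - algebraMap ℂ _ c))‖
        ≤ (‖a‖ + ‖b‖) * (2 * (1 / 2) ^ N) := (chi_le _ _).trans (norm_le_of_nb (by
      rw [map_mul, map_sub, AlgHom.commutes]; exact nb2 N))
    rw [map_mul, map_sub] at e1 e2
    rw [AlgHomClass.commutes] at e2
    rw [← norm_mul]
    have : χ (mkB _ (nbγ N).mem) * (χ F - c)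
        = χ (mkB _ (nbγ N).mem) * (χ (mkB _ m1) - algebraMap ℂ ℂ c) := by
      simp only [Algebra.algebraMap_self, RingHom.id_apply]; linear_combination e1
    rw [this]
    refine e2.trans ?_
    have : (0 : ℝ) ≤ (1 / 2) ^ N := by positivity
    nlinarith
  · have h1 := hsm i s h0 hs
    have h2 := hdev i s hs
    have h3 : ‖r.coef a b (x i ^ s) - c‖ ≤ ‖b‖ * (1 / 2) ^ i := by
      rw [URep.coef_apply, hc, ← inner_sub_right]
      refine (norm_inner_le_norm _ _).trans ?_
      gcongr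
      linarith [norm_nonneg (r.U (x i ^ s) b - b)]
    have h4 : fnA F (x i ^ s) - c = f0 (x i ^ s) + (r.coef a b (x i ^ s) - c) := by
      simp [hF, hf0]
    rw [h4]
    refine (norm_add_le _ _).trans ?_
    have : (0 : ℝ) ≤ (1 / 2) ^ i := by positivity
    nlinarith [norm_nonneg a, norm_nonneg b]
  · refine ⟨fun k => φ N i (x i ^ k), fun k hk => by simp only [hk, one], fun k h0 hk => ?_,
      fun s hs => ?_⟩
    · simpa using zero N i _ (hav i k h0 hk 1 (hD1 i))
    · have : x i ^ s ∈ T (i + 1) / T (i + 1) :=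
        Finset.mem_div.2 ⟨_, memT i s 1 hs (hT1 i), 1, hT1 _, by simp⟩
      rw [fnA_mkB, hγ1 N _ _ this]
      simp only [φ]
      rw [hV, if_neg (by omega), coef_step l _ _ _ ((Commute.refl _).pow_left s)]
      simp only [zpow_add, zpow_natCast]

end

end Pool.Agent.H58.Ns
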