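import Pool.Agent.H58.NsE

/-! The decomposition from the localising elements; groups with finite torsion layers. -/

namespace Pool.Agent.H58.Ns

open Pool.Agent.H90.FS Filter Topology WeakDual Complex
open scoped ComplexConjugate

noncomputable section

variable {G : Type} [Group G]

def Split (f : G → ℂ) : Prop :=
  ∃ f₁ ∈ BG G, ∃ f₂ ∈ BG G, Natural f₁ ∧ Natural f₂ ∧ f = f₁ + f₂

def evL (x : G) : BA G →L[ℂ] ℂ :=
  LinearMap.mkContinuous ((LinearMap.proj x).comp (fnA (G := G)).toLinearMap) 1 fun a => by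
    rw [one_mul]; exact fn_le a x

lemma evL_apply (x : G) (a : BA G) : evL x a = fnA a x := rfl

lemma hs_w : HasSum (fun N : ℕ => ((1 : ℝ) / 2) ^ (N + 1)) 1 := by
  have := hasSum_geometric_two.mul_left (1 / 2)
  simp only [← pow_succ'] at this
  simpa using this

theorem final (F d : BA G) (g : ℕ → BA G) (c : ℂ) (C : ℝ) (hC : 0 ≤ C)
    (hd : ∀ χ, Sing χ → ‖χ d‖ ≤ 1) (hg : ∀ N, ‖g N‖ ≤ 1)
    (hχ : ∀ N χ, Sing χ → ‖χ (g N)‖ * ‖χ F - c‖ ≤ C * (1 / 2) ^ N) (y : ℕ → G) (z : ℕ → ℂ)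
    (hy : ∀ i, ‖fnA F (y i) - c‖ ≤ C * (1 / 2) ^ i)
    (hz : ∀ N i, N ≤ i → fnA d (y i) * fnA (g N) (y i) = z i)
    (dense : ∀ w : ℂ, ‖w‖ ≤ 1 → ∀ ε > 0, ∃ᶠ i in atTop, ‖z i - w‖ < ε) : Split (fnA F) := by
  classical
  set R : ℝ := 8 * C + 2 * (‖F‖ + ‖c‖) + 1 with hR
  have R0 : 0 < R := by positivity
  set w : ℕ → ℂ := fun N => ((((1 : ℝ) / 2) ^ (N + 1) : ℝ) : ℂ) with hw
  have nw : ∀ N, ‖w N‖ = (1 / 2) ^ (N + 1) := fun N => by simp [hw]
  have sm : Summable fun N => w N • g N := by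
    refine Summable.of_norm_bounded hs_w.summable fun N => ?_
    rw [norm_smul, nw]
    exact mul_le_of_le_one_right (by positivity) (hg N)
  set s := ∑' N, w N • g N with hs
  have b1 : ∀ χ, Sing χ → ‖χ F - c‖ / 2 + R * ‖χ s‖ ≤ R := by
    intro χ h
    have e : χ s = ∑' N, w N * χ (g N) := by
      have := (sm.hasSum.mapL (CharacterSpace.toCLM χ)).tsum_eq
      simp only [CharacterSpace.coe_toCLM, map_smul, smul_eq_mul] at this
      exact this.symm
    have g1 : ∀ N, ‖χ (g N)‖ ≤ 1 := fun N => (chi_le χ _).trans (hg N)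
    set t := ‖χ F - c‖ with ht
    rcases (norm_nonneg (χ F - c)).eq_or_lt with h0 | h0
    · have : ‖χ s‖ ≤ 1 := by
        rw [e]
        refine tsum_of_norm_bounded hs_w fun N => ?_
        rw [norm_mul, nw]
        exact mul_le_of_le_one_right (by positivity) (g1 N)
      rw [ht, ← h0]; nlinarith
    rw [← ht] at h0
    have ex : ∃ N : ℕ, C * (1 / 2) ^ N ≤ t / 2 := by
      have := (tendsto_pow_atTop_nhds_zero_of_lt_one (r := (1 / 2 : ℝ)) (by norm_num)
        (by norm_num)).const_mul C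
      rw [mul_zero] at this
      exact (this.eventually (ge_mem_nhds (by positivity))).exists
    set N0 := Nat.find ex with hN0
    have h1 : ‖χ (g N0)‖ ≤ 1 / 2 := by
      have := (hχ N0 χ h).trans (Nat.find_spec ex)
      nlinarith
    have h2 : ‖χ s‖ ≤ 1 - (1 / 2) ^ (N0 + 2) := by
      rw [e]
      refine tsum_of_norm_bounded (hs_w.sub (hasSum_ite_eq N0 (((1 : ℝ) / 2) ^ (N0 + 2)))) fun N => ?_
      rw [norm_mul, nw]
      split_ifs with hN
      · rw [hN, pow_succ _ (N0 + 1)]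
        have : (0 : ℝ) < (1 / 2) ^ (N0 + 1) := by positivity
        nlinarith
      · rw [sub_zero]; exact mul_le_of_le_one_right (by positivity) (g1 N)
    have h3 : t / 2 ≤ R * (1 / 2) ^ (N0 + 2) := by
      rcases Nat.eq_zero_or_pos N0 with h4 | h4
      · have : t ≤ ‖F‖ + ‖c‖ := (norm_sub_le _ _).trans (by gcongr; exact chi_le χ F)
        rw [h4]; norm_num; linarith
      · obtain ⟨k, hk⟩ : ∃ k, N0 = k + 1 := ⟨N0 - 1, by omega⟩
        have := not_le.1 (Nat.find_min ex (show k < Nat.find ex by omega))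
        rw [hk, show k + 1 + 2 = k + 3 by ring, pow_add]
        have p : (0 : ℝ) < (1 / 2) ^ k := by positivity
        have : 8 * C ≤ R := by rw [hR]; have := norm_nonneg F; have := norm_nonneg c; linarith
        nlinarith
    nlinarith
  have b2 : Tendsto (fun i => fnA (d * s) (y i) - z i) atTop (𝓝 0) := by
    have zb : ∀ i, ‖z i‖ ≤ ‖d‖ := fun i => by
      rw [← hz 0 i (Nat.zero_le _), norm_mul]
      exact (mul_le_of_le_one_right (norm_nonneg _) ((fn_le _ _).trans (hg 0))).trans (fn_le _ _)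
    have := tendsto_tsum_of_dominated_convergence (𝓕 := atTop)
      (f := fun i N => w N * (fnA d (y i) * fnA (g N) (y i) - z i)) (g := fun _ => 0)
      (hs_w.summable.mul_right (2 * ‖d‖)) (fun N => ?_) (Eventually.of_forall fun i N => ?_)
    · simp only [tsum_zero] at this
      refine this.congr fun i => ?_
      have h1 := (sm.hasSum.mapL (evL (y i))).mul_left (fnA d (y i))
      have h2 : HasSum w ((1 : ℝ) : ℂ) := Complex.hasSum_ofReal.2 hs_w
      rw [Complex.ofReal_one] at h2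
      have h3 := h1.sub (h2.mul_right (z i))
      simp only [evL_apply, map_smul, smul_eq_mul, one_mul, Pi.smul_apply] at h3
      rw [map_mul, Pi.mul_apply, ← h3.tsum_eq]
      exact tsum_congr fun N => by ring
    · refine tendsto_const_nhds.congr' ?_
      filter_upwards [eventually_ge_atTop N] with i hi
      rw [hz N i hi]; simp
    · rw [norm_mul, nw]
      gcongr
      refine (norm_sub_le _ _).trans ?_
      rw [norm_mul]
      have := (mul_le_of_le_one_right (norm_nonneg (fnA d (y i))) ((fn_le _ (y i)).trans (hg N))).trans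
        (fn_le _ _)
      linarith [zb i]
  have b3 : Tendsto (fun i => fnA F (y i) - c) atTop (𝓝 0) := by
    refine squeeze_zero_norm hy ?_
    simpa using (tendsto_pow_atTop_nhds_zero_of_lt_one (r := (1 / 2 : ℝ)) (by norm_num)
      (by norm_num)).const_mul C
  have nat : ∀ σ : ℂ, ‖σ‖ = R → Natural (fnA ((1 / 2 : ℂ) • F + σ • (d * s))) := by
    intro σ hσ
    have σ0 : σ ≠ 0 := by rw [← norm_pos_iff, hσ]; exact R0
    refine natural_of_sing _ fun χ h => ?_
    set v := χ ((1 / 2 : ℂ) • F + σ • (d * s)) with hv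
    have hw1 : ‖(v - c / 2) / σ‖ ≤ 1 := by
      rw [norm_div, hσ, div_le_one R0]
      have : v - c / 2 = (χ F - c) / 2 + σ * (χ d * χ s) := by
        rw [hv]; simp only [map_add, map_smul, map_mul, smul_eq_mul]; ring
      rw [this]
      refine (norm_add_le _ _).trans (le_trans ?_ (b1 χ h))
      rw [norm_div, norm_mul, norm_mul, hσ]
      have := mul_le_of_le_one_left (norm_nonneg (χ s)) (hd χ h)
      simp only [Complex.norm_ofNat]
      gcongr
    refine Metric.mem_closure_iff.2 fun ε hε => ?_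
    have t1 := ((b3.div_const 2).add (b2.const_mul σ)).norm
    simp only [zero_div, mul_zero, add_zero, norm_zero] at t1
    obtain ⟨i, h1, h2⟩ := ((dense _ hw1 (ε / 2 / R) (by positivity)).and_eventually
      (t1.eventually (gt_mem_nhds (half_pos hε)))).exists
    refine ⟨_, ⟨y i, rfl⟩, ?_⟩
    rw [dist_comm, dist_eq_norm]
    have : fnA ((1 / 2 : ℂ) • F + σ • (d * s)) (y i) - v
        = ((fnA F (y i) - c) / 2 + σ * (fnA (d * s) (y i) - z i)) + σ * (z i - (v - c / 2) / σ) := by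
      simp only [map_add, map_smul, Pi.add_apply, Pi.smul_apply, smul_eq_mul]
      field_simp; ring
    rw [this]
    refine (norm_add_le _ _).trans_lt ?_
    rw [norm_mul σ (z i - _), hσ]
    rw [lt_div_iff₀ R0] at h1
    linarith
  refine ⟨_, fnA_mem _, _, fnA_mem _, nat R (by simp [R0.le]), nat (-R) (by simp [R0.le]), ?_⟩
  rw [← map_add]
  congr 1
  module

lemma exists_enum (ι : Type) [Countable ι] [Nonempty ι] :
    ∃ e : ℕ → ι, ∀ v, ∃ᶠ i in atTop, e i = v := by
  obtain ⟨e, he⟩ := exists_surjective_nat (ι × ℕ)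
  refine ⟨fun i => (e i).1, fun v => ?_⟩
  rw [← Nat.cofinite_eq_atTop, frequently_cofinite_iff_infinite]
  refine Set.Infinite.of_image (fun i => (e i).2) ?_
  refine Set.infinite_univ.mono fun n _ => ?_
  obtain ⟨i, hi⟩ := he (v, n)
  exact ⟨i, by simp [hi], by simp [hi]⟩

lemma dense_polar (w : ℂ) (hw : ‖w‖ ≤ 1) (ε : ℝ) (hε : 0 < ε) :
    ∃ ρ θ : ℚ, 0 < ρ ∧ ρ < 1 ∧ ‖(ρ : ℂ) * exp (θ * I) - w‖ < ε := by
  have c : Continuous fun θ : ℝ => exp (θ * I) := by fun_prop
  obtain ⟨δ, hδ, h⟩ := Metric.continuous_iff.1 c (arg w) (ε / 2) (by positivity)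
  obtain ⟨θ, hθ⟩ := exists_rat_near (arg w) hδ
  obtain ⟨ρ, h1, h2⟩ := exists_rat_btwn (show max 0 (‖w‖ - ε / 2) < min 1 (‖w‖ + ε / 2) by
    have := norm_nonneg w
    simp only [max_lt_iff, lt_min_iff]
    refine ⟨⟨one_pos, by linarith⟩, by linarith, by linarith⟩)
  simp only [max_lt_iff, lt_min_iff] at h1 h2
  refine ⟨ρ, θ, by exact_mod_cast h1.1, by exact_mod_cast h2.1, ?_⟩
  have h3 := h θ (by rw [Real.dist_eq, abs_sub_comm]; exact hθ)
  rw [dist_eq_norm] at h3
  have e : (ρ : ℂ) * exp (θ * I) - w = (((ρ : ℝ) - ‖w‖ : ℝ) : ℂ) * exp (((θ : ℝ) : ℂ) * I)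
      + ‖w‖ * (exp (((θ : ℝ) : ℂ) * I) - exp (arg w * I)) := by
    conv_lhs => rw [← norm_mul_exp_arg_mul_I w]
    push_cast; ring
  rw [e]
  refine (norm_add_le _ _).trans_lt ?_
  rw [norm_mul, norm_mul, norm_exp_ofReal_mul_I, Complex.norm_real, Complex.norm_real, mul_one,
    norm_norm, Real.norm_eq_abs]
  have : |(ρ : ℝ) - ‖w‖| < ε / 2 := abs_lt.2 ⟨by linarith [h1.2], by linarith [h2.2]⟩
  nlinarith [norm_nonneg (exp (((θ : ℝ) : ℂ) * I) - exp (arg w * I)), norm_nonneg w]

theorem caseI (F : BA G) (A : Subgroup G) [Infinite A] (hA : ∀ x ∈ A, ∀ y ∈ A, x * y = y * x)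
    (hΛ : ∀ m : ℕ, m ≠ 0 → {x : A | (x : G) ^ m = 1}.Finite) : Split (fnA F) := by
  have : Nonempty {ρ : ℚ // 0 < ρ ∧ ρ < 1} := ⟨⟨1 / 2, by norm_num⟩⟩
  obtain ⟨e, he⟩ := exists_enum ({ρ : ℚ // 0 < ρ ∧ ρ < 1} × ℚ)
  have hq : ∀ n, ∃ a M : ℕ, 0 < a ∧ a < M ∧ ((e n).1.1 : ℂ) = a / M := fun n => by
    obtain ⟨⟨ρ, h0, h1⟩, θ⟩ := e n
    refine ⟨ρ.num.natAbs, ρ.den, by have := Rat.num_pos.2 h0; omega, ?_, ?_⟩
    · have := Rat.num_lt_denom_iff.2 h1
      have := Rat.num_pos.2 h0
      omega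
    · rw [Rat.cast_def, Nat.cast_natAbs, abs_of_pos (Rat.num_pos.2 h0)]
  choose a M a0 aM ha using hq
  have M0 : ∀ n, (0 : ℝ) < M n := fun n => by have := aM n; exact_mod_cast (by omega : 0 < M n)
  set ω : ℕ → ℝ := fun n => -((e n).2 : ℝ) / (M n - a n : ℕ) with hω
  obtain ⟨x, T, g, c, C, hC, -, -, -, h1, h2, h3, h4⟩ := blocks F A hA (nonZeroDivisors ℕ)
    (fun m hm => hΛ m (nonZeroDivisors.ne_zero hm)) M (fun n => 2 * M n)
    (fun n => by have := aM n; have := a0 n; omega) (fun n => by omega)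
    (fun n l h _ => mem_nonZeroDivisors_of_ne_zero h.ne') (fun _ => ∅)
    (fun n j => exp ((j * ω n : ℝ) * I) / (√(M n) : ℝ)) (fun n => by
      simp only [norm_div, norm_exp_ofReal_mul_I, Complex.norm_real, Real.norm_eq_abs, div_pow,
        sq_abs, Real.sq_sqrt (M0 n).le, Finset.sum_const, Finset.card_range, nsmul_eq_mul]
      have := (M0 n).ne'
      field_simp)
  refine final F 1 g c C hC (fun χ _ => by simp) h1 h2 (fun i => x i ^ (M i - a i))
    (fun i => ((e i).1.1 : ℂ) * exp ((e i).2 * I))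
    (fun i => h3 i _ (by have := aM i; omega) (by have := aM i; have := a0 i; omega))
    (fun N i hi => ?_) fun w hw ε hε => ?_
  · obtain ⟨ψ, p1, p2, p3⟩ := h4 N i hi
    have := aM i
    have := a0 i
    rw [map_one, Pi.one_apply, one_mul, p3 _ (by omega)]
    have key : ∀ j ∈ Finset.range (M i), ∑ k ∈ Finset.range (M i),
        conj (exp ((k * ω i : ℝ) * I) / (√(M i) : ℝ)) * (exp ((j * ω i : ℝ) * I) / (√(M i) : ℝ)) *
          ψ (((M i - a i : ℕ) : ℤ) + (j - k))
        = if j < a i then exp ((e i).2 * I) / M i else 0 := by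
      intro j hj
      rw [Finset.mem_range] at hj
      split_ifs with h
      · rw [Finset.sum_eq_single (j + (M i - a i)) (fun k hk hkj => ?_) (fun h' => ?_)]
        · rw [p1 _ (by simp), mul_one, map_div₀, Complex.conj_ofReal, ← exp_conj, div_mul_div_comm,
            ← exp_add, ← Complex.ofReal_mul, Real.mul_self_sqrt (M0 i).le]
          congr 2
          have : ((M i - a i : ℕ) : ℂ) ≠ 0 := by exact_mod_cast (by omega : M i - a i ≠ 0)
          simp only [map_mul, Complex.conj_ofReal, conj_I, hω]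
          push_cast
          field_simp
          ring
        · rw [Finset.mem_range] at hk
          rw [p2 _ (by omega) (by omega), mul_zero]
        · exact (h' (Finset.mem_range.2 (by omega))).elim
      · refine Finset.sum_eq_zero fun k hk => ?_
        rw [Finset.mem_range] at hk
        rw [p2 _ (by omega) (by omega), mul_zero]
    rw [Finset.sum_congr rfl key, ← Finset.sum_filter, Finset.sum_const, ha]
    have : (Finset.range (M i)).filter (· < a i) = Finset.range (a i) := by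
      ext j; simp; omega
    rw [this, Finset.card_range, nsmul_eq_mul]; ring
  · obtain ⟨ρ, θ, r0, r1, h⟩ := dense_polar w hw ε hε
    exact (he (⟨ρ, r0, r1⟩, θ)).mono fun i hi => by simpa [hi] using h

end

end Pool.Agent.H58.Ns
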