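import Pool.Agent.H58.NsF

/-! Elementary abelian subgroups, and the main theorem. -/

namespace Pool.Agent.H58.Ns

open Pool.Agent.H90.FS Filter Topology WeakDual Complex
open scoped ComplexConjugate Real

noncomputable section

variable {G : Type} [Group G]

lemma ext_lin {k V : Type} [Field k] [AddCommGroup V] [Module k V] (x : ℕ → V)
    (h : ∀ n, x n ∉ Submodule.span k (x '' {j | j < n})) (τ : ℕ → k) :
    ∃ L : V →ₗ[k] k, ∀ n, L (x n) = τ n := by
  classical
  have li : LinearIndependent k x := by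
    rw [linearIndependent_iff']
    intro s g hs
    by_contra hne
    push Not at hne
    have ne : (s.filter fun i => g i ≠ 0).Nonempty := by
      obtain ⟨i, hi, h0⟩ := hne; exact ⟨i, by simp [hi, h0]⟩
    obtain ⟨n, hn, hmax⟩ := Finset.exists_max_image _ id ne
    rw [Finset.mem_filter] at hn
    apply h n
    rw [← Finset.add_sum_erase _ _ hn.1] at hs
    have : x n = (g n)⁻¹ • -(∑ i ∈ s.erase n, g i • x i) := by
      rw [← eq_neg_of_add_eq_zero_left hs, smul_smul, inv_mul_cancel₀ hn.2, one_smul]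
    rw [this]
    refine Submodule.smul_mem _ _ (Submodule.neg_mem _ (Submodule.sum_mem _ fun i hi => ?_))
    by_cases h0 : g i = 0
    · simp [h0]
    · rw [Finset.mem_erase] at hi
      refine Submodule.smul_mem _ _ (Submodule.subset_span ⟨i, ?_, rfl⟩)
      have := hmax i (by simp [hi.2, h0])
      exact lt_of_le_of_ne this hi.1
  obtain ⟨L, hL⟩ := ((Finsupp.linearCombination k τ).comp li.repr).exists_extend
  refine ⟨L, fun n => ?_⟩
  have := LinearMap.congr_fun hL ⟨x n, Submodule.subset_span ⟨n, rfl⟩⟩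
  simp only [LinearMap.comp_apply, Submodule.subtype_apply] at this
  rw [this, li.repr_eq_single n _ rfl]; simp

open Classical in
def ext0 (A : Subgroup G) (γ : A →* Circle) : G → ℂ := fun g => if h : g ∈ A then γ ⟨g, h⟩ else 0

lemma nb_ext0 (A : Subgroup G) (γ : A →* Circle) : Nb (ext0 A γ) 1 := by
  classical
  obtain ⟨l, e, he, -⟩ := exists_reg (G := G)
  let o : G → G := fun x => (QuotientGroup.mk x : G ⧸ A).out
  have ho : ∀ x, (o x)⁻¹ * x ∈ A := fun x => QuotientGroup.eq.1 (QuotientGroup.out_eq' _)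
  have hp : PSD fun x y : G => ext0 A γ (x⁻¹ * y) := by
    convert psd_gram fun x => ext0 A γ ((o x)⁻¹ * x) • e (o x) using 3 with x y
    rw [inner_smul_left, inner_smul_right, orthonormal_iff_ite.1 he]
    by_cases h : x⁻¹ * y ∈ A
    · have h1 : o x = o y := by simp only [o]; rw [QuotientGroup.eq.2 h]
      have h2 : (⟨(o y)⁻¹ * y, ho y⟩ : A) = ⟨(o x)⁻¹ * x, ho x⟩ * ⟨_, h⟩ :=
        Subtype.ext (by simp [h1, mul_assoc])
      simp only [ext0, dif_pos h, dif_pos (ho _), if_pos h1, h2, map_mul, Circle.coe_mul, mul_one]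
      rw [← mul_assoc, conj_mul']; simp
    · have h1 : o x ≠ o y := fun h1 => h (by
        have := A.mul_mem (A.inv_mem (ho x)) (ho y)
        simpa [h1, mul_assoc] using this)
      simp [ext0, h, h1]
  obtain ⟨r, ι, e1, e2⟩ := gns (G := G) hp (fun g x y => by simp [mul_assoc])
  have hn : ‖ι 1‖ ^ 2 ≤ 1 := by
    rw [← inner_self_eq_norm_sq (𝕜 := ℂ), e1]
    have : (⟨1, A.one_mem⟩ : A) = 1 := rfl
    simp [ext0, this]
  refine ⟨r, ι 1, ι 1, ?_, hn, hn⟩
  funext g
  rw [URep.coef_apply, e2, e1]; simp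

def eB (A : Subgroup G) (γ : A →* Circle) : BA G := mkB _ (nb_ext0 A γ).mem

lemma eB_mul (A : Subgroup G) (γ γ' : A →* Circle) :
    eB A γ * eB A γ' = eB A (γ * γ') := fnA_inj (by
  funext g
  by_cases h : g ∈ A <;> simp [eB, ext0, h])

lemma chi_real (A : Subgroup G) (γ : A →* Circle)
    (χ : characterSpace ℂ (BA G)) : (χ (eB A γ + eB A γ⁻¹)).im = 0 := by
  have n1 : ∀ γ, ‖χ (eB A γ)‖ ≤ 1 := fun γ => (chi_le _ _).trans (norm_le_of_nb (nb_ext0 A γ))
  have m : ∀ γ γ', χ (eB A γ) * χ (eB A γ') = χ (eB A (γ * γ')) := fun γ γ' => by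
    rw [← map_mul, eB_mul]
  by_cases h : χ (eB A 1) = 0
  · have : ∀ γ, χ (eB A γ) = 0 := fun γ => by rw [← mul_one γ, ← m, h, mul_zero]
    simp [this]
  have h1 : χ (eB A 1) = 1 := mul_left_cancel₀ h (by rw [m, mul_one, mul_one])
  have h2 := m γ γ⁻¹
  rw [mul_inv_cancel, h1] at h2
  have h3 : ‖χ (eB A γ)‖ = 1 := by
    have := congrArg norm h2
    rw [norm_mul, norm_one] at this
    nlinarith [n1 γ, n1 γ⁻¹, norm_nonneg (χ (eB A γ)), norm_nonneg (χ (eB A γ⁻¹))]
  rw [map_add, ← inv_eq_of_mul_eq_one_right h2, Complex.inv_eq_conj h3]; simp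

instance : NormedAlgebra ℚ (BA G) := NormedAlgebra.restrictScalars ℚ ℂ _

lemma exists_phase (A : Subgroup G) (y : ℕ → A) (ω : Circle)
    (hω : (ω : ℂ).re ≠ 1)
    (h : ∀ τ : ℕ → Fin 2, ∃ γ : A →* Circle, ∀ i, γ (y i) = ω ^ (τ i : ℕ)) (t : ℕ → ℝ) :
    ∃ d : BA G, (∀ χ : characterSpace ℂ (BA G), ‖χ d‖ = 1) ∧
      ∀ i, fnA d (y i) = exp (t i * I) := by
  set s : ℕ → ℝ := fun i => Int.fract (t i / (2 * π)) with hs
  choose γ hγ using fun m => h fun i => Real.digits (s i) 2 m
  set κ : ℝ := 2 * π / (2 - 2 * (ω : ℂ).re) with hκ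
  set u : ℕ → BA G := fun m => ((κ * (1 / 2) ^ (m + 1) : ℝ) : ℂ) • (2 - (eB A (γ m) + eB A (γ m)⁻¹))
    with hu
  have sm : Summable u := by
    refine Summable.of_norm_bounded ((hs_w.summable.mul_left |κ|).mul_right (‖(2 : BA G)‖ + 2))
      fun m => ?_
    rw [hu, norm_smul, Complex.norm_real, Real.norm_eq_abs, abs_mul,
      abs_of_pos (by positivity : (0 : ℝ) < (1 / 2) ^ (m + 1))]
    gcongr
    refine (norm_sub_le _ _).trans (add_le_add le_rfl ((norm_add_le _ _).trans ?_))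
    linarith [norm_le_of_nb (a := eB A (γ m)) (nb_ext0 A _),
      norm_le_of_nb (a := eB A (γ m)⁻¹) (nb_ext0 A _)]
  refine ⟨NormedSpace.exp (I • ∑' m, u m), fun χ => ?_, fun i => ?_⟩
  · rw [NormedSpace.map_exp χ (map_continuous χ), ← exp_eq_exp_ℂ, norm_exp, map_smul]
    have e := ((sm.hasSum.mapL (CharacterSpace.toCLM χ)).mapL imCLM).tsum_eq
    have : ∀ m, imCLM (CharacterSpace.toCLM χ (u m)) = 0 := fun m => by
      have := chi_real A (γ m) χ
      simp only [hu, CharacterSpace.coe_toCLM, map_smul, map_sub, map_ofNat, imCLM_apply,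
        smul_eq_mul, im_ofReal_mul, sub_im, this]
      simp
    rw [tsum_congr this, tsum_zero] at e
    simp only [imCLM_apply, CharacterSpace.coe_toCLM] at e
    simp [← e]
  · have := NormedSpace.map_exp ((Pi.evalRingHom (fun _ : G => ℂ) (y i)).comp
      (fnA (G := G)).toRingHom) (evL (y i : G)).continuous (I • ∑' m, u m)
    change fnA _ _ = NormedSpace.exp (fnA (I • ∑' m, u m) (y i)) at this
    rw [this, ← exp_eq_exp_ℂ, map_smul, Pi.smul_apply]
    have e := sm.hasSum.mapL (evL (y i : G))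
    have e2 := Complex.hasSum_ofReal.2 ((Real.hasSum_ofDigitsTerm_digits (s i) (b := 2) one_lt_two
      ⟨Int.fract_nonneg _, Int.fract_lt_one _⟩).mul_left (2 * π))
    have e3 : evL (y i : G) (∑' m, u m) = ((2 * π * s i : ℝ) : ℂ) := by
      refine e.unique ?_
      convert e2 using 2 with m
      have h2 : fnA (2 : BA G) (y i) = 2 := by rw [map_ofNat]; rfl
      have h3 : (2 - 2 * (ω : ℂ).re) ≠ 0 := fun h => hω (by linarith)
      have h4 : (ω : ℂ) + (ω : ℂ)⁻¹ = ((2 * (ω : ℂ).re : ℝ) : ℂ) := by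
        rw [Complex.inv_eq_conj (Circle.norm_coe ω), Complex.add_conj]
      simp only [evL_apply, hu, map_smul, map_sub, map_add, Pi.smul_apply, Pi.sub_apply,
        Pi.add_apply, h2, eB, fnA_mkB, ext0, SetLike.coe_mem, dif_pos, Subtype.coe_eta,
        MonoidHom.inv_apply, hγ, Real.ofDigitsTerm, smul_eq_mul]
      generalize Real.digits (s i) 2 m = δ
      fin_cases δ
      · simp; norm_num
      · simp only [pow_one, Circle.coe_inv, h4, hκ]
        norm_cast
        push_cast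
        field_simp
        rw [← mul_pow]; norm_num
    rw [evL_apply] at e3
    rw [e3, smul_eq_mul, exp_eq_exp_iff_exists_int]
    refine ⟨-⌊t i / (2 * π)⌋, ?_⟩
    have : (π : ℂ) ≠ 0 := by exact_mod_cast Real.pi_ne_zero
    simp only [hs, Int.fract]
    push_cast; field_simp; ring

lemma elem_aux (V k : Type) [AddCommGroup V] [Field k] [Finite k] [Module k V] :
    ∃ Ψ : Set V → Set V, (∀ S, S.Finite → (Ψ S).Finite) ∧ ∀ y : ℕ → V,
      (∀ n, ∃ S, y n ∉ Ψ S ∧ ∀ j < n, y j ∈ S) → ∀ τ : ℕ → k, ∃ L : V →+ k,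
        ∀ i, L (y i) = τ i := by
  refine ⟨fun S => Submodule.span k S, fun S hS => ?_, fun y hy τ => ?_⟩
  · have : Module.Finite k (Submodule.span k S) := Module.Finite.span_of_finite k hS
    have : Finite (Submodule.span k S) := Module.finite_of_finite k
    exact Set.toFinite _
  · obtain ⟨L, hL⟩ := ext_lin (k := k) y (fun n hn => by
        obtain ⟨S, h1, h2⟩ := hy n
        refine h1 (Submodule.span_mono ?_ hn)
        rintro _ ⟨j, hj, rfl⟩
        exact h2 j hj) τ
    exact ⟨L.toAddMonoidHom, hL⟩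

lemma elem_chars (M : Type) [CommGroup M] (p : ℕ) [Fact p.Prime] (h : ∀ x : M, x ^ p = 1) :
    ∃ Ψ : Set M → Set M, (∀ S, S.Finite → (Ψ S).Finite) ∧ ∀ y : ℕ → M,
      (∀ n, ∃ S, y n ∉ Ψ S ∧ ∀ j < n, y j ∈ S) → ∀ τ : ℕ → Fin 2, ∃ γ : M →* Circle,
        ∀ i, γ (y i) = ZMod.toCircle (1 : ZMod p) ^ (τ i : ℕ) := by
  obtain ⟨Ψ, h1, h2⟩ := @elem_aux (Additive M) (ZMod p) _ _ _ (AddCommGroup.zmodModule fun x => by
    rw [← ofMul_toMul x, ← ofMul_pow, h]; rfl)
  refine ⟨Ψ, h1, fun y hy τ => ?_⟩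
  obtain ⟨L, hL⟩ := h2 (fun i => Additive.ofMul (y i)) hy fun i => ((τ i : ℕ) : ZMod p)
  refine ⟨MonoidHom.mk' (fun a => ZMod.toCircle (L (Additive.ofMul a))) fun a b => by
    rw [ofMul_mul, map_add, AddChar.map_add_eq_mul], fun i => ?_⟩
  rw [MonoidHom.mk'_apply, hL, ← AddChar.map_nsmul_eq_pow, nsmul_one]

theorem caseII (F : BA G) (A : Subgroup G) [Infinite A] (hA : ∀ x ∈ A, ∀ y ∈ A, x * y = y * x)
    (p : ℕ) [hp : Fact p.Prime] (hAp : ∀ x ∈ A, x ^ p = 1) : Split (fnA F) := by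
  classical
  let _ : CommGroup A := { (inferInstance : Group A) with
    mul_comm := fun a b => Subtype.ext (hA _ a.2 _ b.2) }
  obtain ⟨Ψ, hΨ, hch⟩ := elem_chars A p fun x => Subtype.ext (hAp _ x.2)
  have p2 := hp.out.two_le
  have p0 : (0 : ℝ) < p := by exact_mod_cast hp.out.pos
  let Λ : Submonoid ℕ :=
    { carrier := {m | ¬ p ∣ m}
      one_mem' := hp.out.not_dvd_one
      mul_mem' := fun h1 h2 h => (hp.out.dvd_mul.1 h).elim h1 h2 }
  have fin : ∀ T : Finset G, (Subtype.val '' Ψ (Subtype.val ⁻¹' (T : Set G))).Finite := fun T =>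
    (hΨ _ (T.finite_toSet.preimage Subtype.val_injective.injOn)).image _
  obtain ⟨x, T, g, c, C, hC, xA, hΦ, xT, h1, h2, h3, h4⟩ := blocks F A hA Λ
    (fun m hm => (Set.finite_singleton 1).subset fun x hx => Subtype.ext (by
      have := (pow_gcd_eq_one (a := (x : G))).2 ⟨hAp _ x.2, hx⟩
      rwa [(hp.out.coprime_iff_not_dvd.2 hm : p.gcd m = 1), pow_one] at this))
    (fun _ => p) (fun _ => p) (fun _ => p2) (fun _ => le_rfl)
    (fun _ l h0 h => Nat.not_dvd_of_pos_of_lt h0 h) (fun T => (fin T).toFinset)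
    (fun _ _ => ((√(p : ℝ))⁻¹ : ℝ)) (fun n => by
      simp only [Complex.norm_real, Real.norm_eq_abs, sq_abs, inv_pow, Real.sq_sqrt p0.le,
        Finset.sum_const, Finset.card_range, nsmul_eq_mul]
      field_simp)
  have hω : ((ZMod.toCircle (1 : ZMod p) : Circle) : ℂ).re ≠ 1 := by
    intro h
    have h0 : (ZMod.toCircle (1 : ZMod p) : Circle) = ZMod.toCircle (0 : ZMod p) := by
      rw [AddChar.map_zero_eq_one]
      ext
      have := Circle.normSq_coe (ZMod.toCircle (1 : ZMod p))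
      rw [normSq_apply, h] at this
      exact Complex.ext (by simpa using h) (by simpa using this)
    exact one_ne_zero (ZMod.injective_toCircle h0)
  replace hch := hch (fun i => ⟨x i, xA i⟩) fun n => ⟨Subtype.val ⁻¹' (T n : Set G),
    fun hn => hΦ n ((Set.Finite.mem_toFinset _).2 ⟨_, hn, rfl⟩), fun j hj => xT j n hj⟩
  obtain ⟨e, he⟩ := exists_enum (ℚ × ℚ)
  obtain ⟨d1, a1, b1⟩ := exists_phase A _ _ hω hch
    fun i => ((e i).2 : ℝ) + Real.arccos (e i).1
  obtain ⟨d2, a2, b2⟩ := exists_phase A _ _ hω hch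
    fun i => ((e i).2 : ℝ) - Real.arccos (e i).1
  refine final F ((1 / 2 : ℂ) • (d1 + d2)) g c C hC (fun χ _ => ?_) h1 h2 x
    (fun i => Real.cos (Real.arccos (e i).1) * exp ((e i).2 * I))
    (fun i => by simpa using h3 i 1 one_pos p2) (fun N i hi => ?_) fun w hw ε hε => ?_
  · rw [map_smul, map_add, norm_smul]
    have := norm_add_le (χ d1) (χ d2)
    rw [a1, a2] at this
    norm_num; linarith
  · obtain ⟨ψ, p1, p3, p4⟩ := h4 N i hi
    have e1 := p4 1 p2
    rw [pow_one] at e1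
    have key : ∀ j ∈ Finset.range p, ∑ k ∈ Finset.range p,
        conj (((√(p : ℝ))⁻¹ : ℝ) : ℂ) * (((√(p : ℝ))⁻¹ : ℝ) : ℂ) * ψ (((1 : ℕ) : ℤ) + (j - k))
        = (p : ℂ)⁻¹ := by
      intro j hj
      rw [Finset.mem_range] at hj
      have v : conj (((√(p : ℝ))⁻¹ : ℝ) : ℂ) * (((√(p : ℝ))⁻¹ : ℝ) : ℂ) = (p : ℂ)⁻¹ := by
        rw [Complex.conj_ofReal, ← Complex.ofReal_mul, ← mul_inv, Real.mul_self_sqrt p0.le]; simp
      by_cases h : j + 1 = p
      · rw [Finset.sum_eq_single 0 (fun k hk hkj => ?_) (fun h' => (h' (by simp; omega)).elim)]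
        · rw [p1 _ (by
            rw [show ((1 : ℕ) : ℤ) + (j - (0 : ℕ)) = p by omega, zpow_natCast]
            exact hAp _ (xA i)), mul_one, v]
        · rw [Finset.mem_range] at hk
          rw [p3 _ (by omega) (by omega), mul_zero]
      · rw [Finset.sum_eq_single (j + 1) (fun k hk hkj => ?_) (fun h' => (h' (by simp; omega)).elim)]
        · rw [p1 _ (by simp), mul_one, v]
        · rw [Finset.mem_range] at hk
          rw [p3 _ (by omega) (by omega), mul_zero]
    rw [Finset.sum_congr rfl key, Finset.sum_const, Finset.card_range, nsmul_eq_mul,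
      mul_inv_cancel₀ (by exact_mod_cast p0.ne')] at e1
    rw [e1, mul_one, map_smul, map_add, Pi.smul_apply, Pi.add_apply, b1, b2, ofReal_cos, cos]
    push_cast
    simp only [add_mul, sub_mul, exp_add, sub_eq_add_neg, neg_mul, smul_eq_mul]
    ring
  · obtain ⟨ρ, θ, r0, r1, h⟩ := dense_polar w hw ε hε
    refine (he (ρ, θ)).mono fun i hi => ?_
    have r0' : (0 : ℝ) < ρ := by exact_mod_cast r0
    have r1' : (ρ : ℝ) < 1 := by exact_mod_cast r1
    simp only [hi]
    rw [Real.cos_arccos (by linarith) r1'.le]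
    simpa using h

theorem split_abelian (F : BA G) (A : Subgroup G) [Infinite A]
    (hA : ∀ x ∈ A, ∀ y ∈ A, x * y = y * x) : Split (fnA F) := by
  by_cases h : ∀ p : ℕ, p.Prime → {x : A | (x : G) ^ p = 1}.Finite
  · refine caseI F A hA fun m hm => ?_
    induction m using induction_on_primes with
    | zero => exact (hm rfl).elim
    | one => exact (Set.finite_singleton 1).subset fun x hx => Subtype.ext (by simpa using hx)
    | prime_mul p m hp ih =>
      have h1 := ih (by rintro rfl; simp at hm)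
      refine (h1.biUnion (t := fun z => {x : A | x ^ p = z}) fun z _ => ?_).subset fun x hx => ?_
      · by_cases hne : {x : A | x ^ p = z}.Nonempty
        · obtain ⟨x0, hx0⟩ := hne
          refine ((h p hp).image (fun z => x0 * z)).subset fun x hx => ⟨x0⁻¹ * x, ?_, by simp⟩
          rw [Set.mem_ofPred_eq] at hx hx0 ⊢
          rw [Subgroup.coe_mul, Subgroup.coe_inv,
            (show Commute ((x0 : G)⁻¹) x from hA _ (A.inv_mem x0.2) _ x.2).mul_pow, inv_pow,
            ← Subgroup.coe_pow, ← Subgroup.coe_pow, hx, hx0, inv_mul_cancel]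
        · rw [Set.not_nonempty_iff_eq_empty.1 hne]; exact Set.finite_empty
      · simp only [Set.mem_iUnion, Set.mem_ofPred_eq] at hx ⊢
        exact ⟨x ^ p, by rw [Subgroup.coe_pow, ← pow_mul, hx], rfl⟩
  · push Not at h
    obtain ⟨p, hp, hi⟩ := h
    have := Fact.mk hp
    let B : Subgroup G :=
      { carrier := {x | x ∈ A ∧ x ^ p = 1}
        one_mem' := ⟨A.one_mem, one_pow _⟩
        mul_mem' := fun {a b} ha hb => ⟨A.mul_mem ha.1 hb.1, by
          rw [(show Commute a b from hA _ ha.1 _ hb.1).mul_pow, ha.2, hb.2, one_mul]⟩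
        inv_mem' := fun {a} ha => ⟨A.inv_mem ha.1, by rw [inv_pow, ha.2, inv_one]⟩ }
    have : Infinite B := by
      have := hi.to_subtype
      exact Infinite.of_injective (fun x : {x : A | (x : G) ^ p = 1} => (⟨x.1, x.1.2, x.2⟩ : B))
        fun a b h => Subtype.ext (Subtype.ext (congrArg (fun z : B => (z : G)) h))
    exact caseII F B (fun x hx y hy => hA x hx.1 y hy.1) p fun x hx => hx.2

theorem split_finite [Finite G] (F : BA G) : Split (fnA F) := by
  classical
  have := Fintype.ofFinite G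
  have h : ∀ a : BA G, Natural (fnA a) := fun a => natural_of_sing a fun χ h => by
    have := h.l1 (a := 1) Summable.of_finite
    simp at this
  exact ⟨_, fnA_mem F, _, fnA_mem 0, h F, h 0, by simp⟩

end

end Pool.Agent.H58.Ns
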