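import Mathlib

set_option autoImplicit false

namespace Pool.Agent.H58.OpLip
open Filter Topology NormedSpace Complex

variable {A : Type*} [CStarAlgebra A]

lemma key_exp (U V P Q : A) (hU : U ∈ skewAdjoint A) (hV : V ∈ skewAdjoint A)
    (hP : Commute P U) (hQ : Commute Q V) : ‖P * (exp U - exp V) * Q‖ ≤ ‖P * (U - V) * Q‖ := by
  let +nondep : NormedAlgebra ℚ A := .restrictScalars ℚ ℂ A
  have hd : ∀ s : ℝ, HasDerivAt (fun s : ℝ => P * (exp (s • U) * exp ((1 - s) • V)) * Q)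
      (exp (s • U) * (P * (U - V) * Q) * exp ((1 - s) • V)) s := by
    intro s
    have h1 := hasDerivAt_exp_smul_const (𝕂 := ℝ) U s
    have h2 := (hasDerivAt_exp_smul_const' (𝕂 := ℝ) V (1 - s)).scomp s
      ((hasDerivAt_id s).const_sub 1)
    have h3 := ((h1.mul h2).const_mul P).mul_const Q
    refine HasDerivAt.congr_deriv h3 ?_
    have c1 : P * exp (s • U) = exp (s • U) * P := (hP.smul_right s).exp_right.eq
    have c2 : exp ((1 - s) • V) * Q = Q * exp ((1 - s) • V) := (hQ.smul_right (1 - s)).exp_right.eq.symm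
    simp only [Function.comp, neg_smul, one_smul]
    calc P * (exp (s • U) * U * exp ((1 - s) • V) + exp (s • U) * -(V * exp ((1 - s) • V))) * Q
        = (P * exp (s • U)) * (U - V) * (exp ((1 - s) • V) * Q) := by noncomm_ring
      _ = _ := by rw [c1, c2]; noncomm_ring
  have h := norm_image_sub_le_of_norm_deriv_le_segment_01'
    (f := fun s : ℝ => P * (exp (s • U) * exp ((1 - s) • V)) * Q) (C := ‖P * (U - V) * Q‖)
    (fun s _ => (hd s).hasDerivWithinAt) (fun s _ => by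
      rw [CStarRing.norm_mul_mem_unitary _ (exp_mem_unitary_of_mem_skewAdjoint
          (skewAdjoint.smul_mem (1 - s) hV)),
        CStarRing.norm_mem_unitary_mul _ (exp_mem_unitary_of_mem_skewAdjoint
          (skewAdjoint.smul_mem s hU))])
  simp only [one_smul, sub_self, zero_smul, NormedSpace.exp_zero, mul_one, sub_zero, one_mul] at h
  rwa [mul_sub, sub_mul]

lemma cfc_sin (X : A) (hX : IsSelfAdjoint X) :
    cfc Real.sin X = (2 * I)⁻¹ • (exp (I • X) - exp ((-I) • X)) := by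
  have hn := hX.isStarNormal
  have e : ∀ c : ℂ, exp (c • X) = cfc (fun z : ℂ => Complex.exp (c • z)) X := by
    intro c
    have h1 : IsStarNormal (c • X) := by infer_instance
    rw [cfc_comp_smul c Complex.exp X (by fun_prop) hn, CFC.complex_exp_eq_normedSpace_exp h1]
  rw [cfc_real_eq_complex _ hX, e, e, ← cfc_sub (fun z : ℂ => Complex.exp (I • z))
    (fun z : ℂ => Complex.exp ((-I) • z)) X (by fun_prop) (by fun_prop),
    ← cfc_smul (2 * I)⁻¹ (fun z : ℂ => Complex.exp (I • z) - Complex.exp ((-I) • z)) X (by fun_prop)]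
  refine cfc_congr fun z hz => ?_
  have := hX.mem_spectrum_eq_re hz
  simp only [smul_eq_mul]
  rw [Complex.ofReal_sin, ← this, Complex.sin]
  have e1 : I * z = z * I := mul_comm _ _
  have e2 : -I * z = -z * I := by ring
  rw [e1, e2]
  field_simp
  rw [I_sq]
  ring

lemma key_sin (X Y P Q : A) (hX : IsSelfAdjoint X) (hY : IsSelfAdjoint Y)
    (hP : Commute P X) (hQ : Commute Q Y) :
    ‖P * (cfc Real.sin X - cfc Real.sin Y) * Q‖ ≤ ‖P * (X - Y) * Q‖ := by
  have hI : star (-I) = -(-I) := by simp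
  have h1 := key_exp (I • X) (I • Y) P Q (hX.smul_mem_skewAdjoint conj_I)
    (hY.smul_mem_skewAdjoint conj_I) (hP.smul_right _) (hQ.smul_right _)
  have h2 := key_exp ((-I) • X) ((-I) • Y) P Q (hX.smul_mem_skewAdjoint hI)
    (hY.smul_mem_skewAdjoint hI) (hP.smul_right _) (hQ.smul_right _)
  rw [← smul_sub, mul_smul_comm, smul_mul_assoc, norm_smul] at h1 h2
  simp only [norm_neg, norm_I, one_mul] at h1 h2
  have e : P * (cfc Real.sin X - cfc Real.sin Y) * Q = (2 * I)⁻¹ •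
      (P * (exp (I • X) - exp (I • Y)) * Q - P * (exp ((-I) • X) - exp ((-I) • Y)) * Q) := by
    rw [cfc_sin X hX, cfc_sin Y hY, ← smul_sub, mul_smul_comm, smul_mul_assoc]
    congr 1
    noncomm_ring
  rw [e, norm_smul]
  have h3 := norm_sub_le (P * (exp (I • X) - exp (I • Y)) * Q)
    (P * (exp ((-I) • X) - exp ((-I) • Y)) * Q)
  simp only [norm_inv, norm_mul, norm_I, mul_one, Complex.norm_ofNat]
  linarith

noncomputable def hh (x : ℝ) : ℝ := x ^ 2 * Real.sin x⁻¹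

lemma hh_cont : Continuous hh := by
  rw [continuous_iff_continuousAt]
  intro x
  by_cases hx : x = 0
  · subst hx
    have h0 : hh 0 = 0 := by simp [hh]
    rw [ContinuousAt, h0]
    have h1 : Tendsto (fun x : ℝ => x ^ 2) (𝓝 0) (𝓝 0) := by
      simpa using (continuous_pow 2).tendsto (0 : ℝ)
    refine squeeze_zero_norm (fun x => ?_) h1
    rw [hh, norm_mul, Real.norm_of_nonneg (sq_nonneg x)]
    exact mul_le_of_le_one_right (sq_nonneg x) (Real.abs_sin_le_one _)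
  · unfold hh
    fun_prop (disch := assumption)

lemma shift_facts (a : A) (ha : IsSelfAdjoint a) (hs : spectrum ℝ a ⊆ Set.Icc 0 1) (ε : ℝ)
    (h0 : 0 < ε) (h1 : ε ≤ 1) : ∃ X : A, IsSelfAdjoint X ∧
      (a + algebraMap ℝ A ε) * X = 1 ∧ X * (a + algebraMap ℝ A ε) = 1 ∧
      ‖a + algebraMap ℝ A ε‖ ≤ 2 ∧ ‖cfc Real.sin X‖ ≤ 1 ∧
      cfc (fun x => hh (x + ε)) a =
        (a + algebraMap ℝ A ε) * cfc Real.sin X * (a + algebraMap ℝ A ε) := by
  have hne : ∀ x ∈ spectrum ℝ a, x + ε ≠ 0 := fun x hx => by linarith [(hs hx).1]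
  have hc : ContinuousOn (fun x : ℝ => (x + ε)⁻¹) (spectrum ℝ a) :=
    ContinuousOn.inv₀ (by fun_prop) hne
  have hc1 : ContinuousOn (fun x : ℝ => x + ε) (spectrum ℝ a) := by fun_prop
  have hP : cfc (fun x : ℝ => x + ε) a = a + algebraMap ℝ A ε := by
    rw [cfc_add_const ε (fun x => x) a (by fun_prop) ha, cfc_id' ℝ a ha]
  refine ⟨cfc (fun x : ℝ => (x + ε)⁻¹) a, cfc_predicate _ _, ?_, ?_, ?_, ?_, ?_⟩
  · rw [← hP, ← cfc_mul _ _ a hc1 hc, ← cfc_one ℝ a ha]
    exact cfc_congr fun x hx => mul_inv_cancel₀ (hne x hx)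
  · rw [← hP, ← cfc_mul _ _ a hc hc1, ← cfc_one ℝ a ha]
    exact cfc_congr fun x hx => inv_mul_cancel₀ (hne x hx)
  · rw [← hP]
    refine norm_cfc_le (by norm_num) fun x hx => ?_
    rw [Real.norm_eq_abs, abs_le]
    constructor <;> linarith [(hs hx).1, (hs hx).2]
  · exact norm_cfc_le (by norm_num) fun x _ => Real.abs_sin_le_one x
  · have hc2 : ContinuousOn (fun x : ℝ => Real.sin (x + ε)⁻¹) (spectrum ℝ a) :=
      Real.continuous_sin.comp_continuousOn hc
    have hc3 : ContinuousOn (fun x : ℝ => (x + ε) * Real.sin (x + ε)⁻¹) (spectrum ℝ a) := hc1.mul hc2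
    rw [← cfc_comp' Real.sin (fun x : ℝ => (x + ε)⁻¹) a Real.continuous_sin.continuousOn hc ha,
      ← hP, ← cfc_mul _ _ a hc1 hc2, ← cfc_mul _ _ a hc3 hc1]
    refine cfc_congr fun x _ => ?_
    simp only [hh]
    ring

lemma hh_shift (a b : A) (ha : IsSelfAdjoint a) (hb : IsSelfAdjoint b)
    (hsa : spectrum ℝ a ⊆ Set.Icc 0 1) (hsb : spectrum ℝ b ⊆ Set.Icc 0 1) (ε : ℝ)
    (h0 : 0 < ε) (h1 : ε ≤ 1) :
    ‖cfc (fun x => hh (x + ε)) a - cfc (fun x => hh (x + ε)) b‖ ≤ 5 * ‖a - b‖ := by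
  obtain ⟨X, a1, a2, a3, a4, a5, a6⟩ := shift_facts a ha hsa ε h0 h1
  obtain ⟨Y, b1, b2, b3, b4, b5, b6⟩ := shift_facts b hb hsb ε h0 h1
  rw [a6, b6]
  have e0 : a - b = (a + algebraMap ℝ A ε) - (b + algebraMap ℝ A ε) := by abel
  rw [e0]
  generalize a + algebraMap ℝ A ε = P at *
  generalize b + algebraMap ℝ A ε = Q at *
  have h2 := key_sin X Y P Q a1 b1 (a2.trans a3.symm) (b2.trans b3.symm)
  have e1 : P * (X - Y) * Q = -(P - Q) := by
    rw [mul_sub, sub_mul, a2, mul_assoc, b3]; noncomm_ring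
  rw [e1, norm_neg] at h2
  generalize cfc Real.sin X = S at *
  generalize cfc Real.sin Y = T at *
  have e2 : P * S * P - Q * T * Q = P * (S - T) * Q + P * S * (P - Q) + (P - Q) * T * Q := by
    noncomm_ring
  rw [e2]
  have h3 : ‖P * S * (P - Q)‖ ≤ 2 * 1 * ‖P - Q‖ :=
    (norm_mul_le _ _).trans (by gcongr; exact (norm_mul_le _ _).trans (by gcongr))
  have h4 : ‖(P - Q) * T * Q‖ ≤ ‖P - Q‖ * 1 * 2 :=
    (norm_mul_le _ _).trans (by gcongr; exact (norm_mul_le _ _).trans (by gcongr))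
  have h5 := norm_add₃_le (a := P * (S - T) * Q) (b := P * S * (P - Q)) (c := (P - Q) * T * Q)
  linarith

lemma hh_tendsto (a : A) (hs : spectrum ℝ a ⊆ Set.Icc 0 1) :
    Tendsto (fun ε : ℝ => cfc (fun x => hh (x + ε)) a) (𝓝[>] 0) (𝓝 (cfc hh a)) := by
  refine tendsto_cfc_fun ?_ (Eventually.of_forall fun ε =>
    (hh_cont.comp (by fun_prop)).continuousOn)
  have hu : UniformContinuousOn hh (Set.Icc 0 2) :=
    isCompact_Icc.uniformContinuousOn_of_continuous hh_cont.continuousOn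
  rw [Metric.uniformContinuousOn_iff] at hu
  rw [Metric.tendstoUniformlyOn_iff]
  intro η hη
  obtain ⟨δ, hδ, h⟩ := hu η hη
  filter_upwards [Ioo_mem_nhdsGT (lt_min hδ one_pos)] with ε hε x hx
  obtain ⟨c1, c2⟩ := hs hx
  have c3 := hε.2.trans_le (min_le_left _ _)
  have c4 := hε.2.trans_le (min_le_right _ _)
  refine h x ⟨c1, by linarith⟩ (x + ε) ⟨by linarith [hε.1], by linarith⟩ ?_
  rw [Real.dist_eq, abs_lt]
  constructor <;> linarith [hε.1]

lemma hh_lip (a b : A) (ha : IsSelfAdjoint a) (hb : IsSelfAdjoint b)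
    (hsa : spectrum ℝ a ⊆ Set.Icc 0 1) (hsb : spectrum ℝ b ⊆ Set.Icc 0 1) :
    ‖cfc hh a - cfc hh b‖ ≤ 5 * ‖a - b‖ := by
  refine le_of_tendsto ((hh_tendsto a hsa).sub (hh_tendsto b hsb)).norm ?_
  filter_upwards [Ioo_mem_nhdsGT (one_pos (α := ℝ))] with ε hε
  exact hh_shift a b ha hb hsa hsb ε hε.1 hε.2.le

noncomputable def ff (x : ℝ) : ℝ := x + 2 * (x * x) + hh x

lemma ff_cont : Continuous ff := by
  unfold ff
  exact (by fun_prop : Continuous fun x : ℝ => x + 2 * (x * x)).add hh_cont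

lemma ff_lip (a b : A) (ha : IsSelfAdjoint a) (hb : IsSelfAdjoint b)
    (hsa : spectrum ℝ a ⊆ Set.Icc 0 1) (hsb : spectrum ℝ b ⊆ Set.Icc 0 1) :
    ‖cfc ff a - cfc ff b‖ ≤ 10 * ‖a - b‖ := by
  have e : ∀ c : A, IsSelfAdjoint c → cfc ff c = c + (2 : ℝ) • (c * c) + cfc hh c := by
    intro c hc
    unfold ff
    rw [cfc_add c (fun x => x + 2 * (x * x)) hh (by fun_prop) hh_cont.continuousOn,
      cfc_add c (fun x => x) (fun x => 2 * (x * x)) (by fun_prop) (by fun_prop),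
      cfc_const_mul 2 (fun x : ℝ => x * x) c (by fun_prop),
      cfc_mul (fun x : ℝ => x) (fun x => x) c (by fun_prop) (by fun_prop), cfc_id' ℝ c hc]
  have n : ∀ c : A, IsSelfAdjoint c → spectrum ℝ c ⊆ Set.Icc 0 1 → ‖c‖ ≤ 1 := by
    intro c hc hs
    rw [← cfc_id' ℝ c hc]
    refine norm_cfc_le (by norm_num) fun x hx => ?_
    rw [Real.norm_eq_abs, abs_le]
    constructor <;> linarith [(hs hx).1, (hs hx).2]
  have h1 := hh_lip a b ha hb hsa hsb
  have na := n a ha hsa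
  have nb := n b hb hsb
  rw [e a ha, e b hb]
  have e2 : a + (2 : ℝ) • (a * a) + cfc hh a - (b + (2 : ℝ) • (b * b) + cfc hh b) =
      (a - b) + (2 : ℝ) • (a * (a - b) + (a - b) * b) + (cfc hh a - cfc hh b) := by
    have : a * (a - b) + (a - b) * b = a * a - b * b := by noncomm_ring
    rw [this, smul_sub]; abel
  rw [e2]
  have h3 : ‖a * (a - b)‖ ≤ 1 * ‖a - b‖ := (norm_mul_le _ _).trans (by gcongr)
  have h4 : ‖(a - b) * b‖ ≤ ‖a - b‖ * 1 := (norm_mul_le _ _).trans (by gcongr)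
  have h5 := norm_add₃_le (a := a - b) (b := (2 : ℝ) • (a * (a - b) + (a - b) * b))
    (c := cfc hh a - cfc hh b)
  have h6 := norm_add_le (a * (a - b)) ((a - b) * b)
  rw [norm_smul, Real.norm_ofNat] at h5
  linarith

lemma ff_deriv (x : ℝ) (hx : x ≠ 0) :
    HasDerivAt ff (1 + 4 * x + (2 * x * Real.sin x⁻¹ - Real.cos x⁻¹)) x := by
  have h1 := ((hasDerivAt_id x).add (((hasDerivAt_id x).mul (hasDerivAt_id x)).const_mul 2)).add
    ((hasDerivAt_pow 2 x).mul (hasDerivAt_inv hx).sin)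
  refine HasDerivAt.congr_deriv h1 ?_
  simp only [id]
  field_simp
  ring

lemma ff_deriv0 : HasDerivAt ff 1 0 := by
  have h1 := ((hasDerivAt_id (0 : ℝ)).add (((hasDerivAt_id 0).mul (hasDerivAt_id 0)).const_mul 2))
  have h2 : HasDerivAt hh 0 0 := by
    rw [hasDerivAt_iff_isLittleO_nhds_zero]
    simp only [zero_add, smul_zero, sub_zero, hh, ne_eq, OfNat.ofNat_ne_zero, not_false_eq_true,
      zero_pow, zero_mul]
    have h3 : (fun x : ℝ => x ^ 2) =o[𝓝 0] fun x => x := by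
      simpa using Asymptotics.isLittleO_pow_id (𝕜 := ℝ) one_lt_two
    refine Asymptotics.IsBigO.trans_isLittleO ?_ h3
    refine Asymptotics.IsBigO.of_bound 1 (Eventually.of_forall fun x => ?_)
    rw [norm_mul, one_mul]
    exact mul_le_of_le_one_right (norm_nonneg _) (Real.abs_sin_le_one _)
  have h3 := h1.add h2
  refine HasDerivAt.congr_deriv h3 ?_
  simp

lemma ff_mem (x : ℝ) (h0 : 0 ≤ x) (h1 : x ≤ 1 / 2) : ff x ∈ Set.uIcc (ff 0) (ff 1) := by
  have a1 := Real.sin_le_one x⁻¹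
  have a2 := Real.neg_one_le_sin x⁻¹
  have a3 := Real.neg_one_le_sin 1
  have e0 : ff 0 = 0 := by simp [ff, hh]
  have e1 : 2 ≤ ff 1 := by simp only [ff, hh, inv_one]; linarith
  rw [e0, Set.uIcc_of_le (by linarith)]
  simp only [ff, hh] at e1 ⊢
  constructor <;> nlinarith [sq_nonneg x]

lemma not_lip (C : ℝ) (h : ∀ x y : ℝ, 0 ≤ x → x ≤ 1 / 2 → 0 ≤ y → y ≤ 1 / 2 →
    |x - y| ≤ C * |ff x - ff y|) : False := by
  obtain ⟨n, hn⟩ := exists_nat_gt (|C| + 1)
  have hn1 : (1 : ℝ) ≤ n := by linarith [abs_nonneg C]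
  have hpi := Real.pi_gt_three
  set x : ℝ := ((n : ℝ) * (2 * Real.pi))⁻¹ with hx
  have hx0 : 0 < x := by positivity
  have hx1 : x * (6 * n) ≤ 1 := by
    rw [hx, inv_mul_le_iff₀ (by positivity)]
    nlinarith
  have hd := ff_deriv x hx0.ne'
  rw [hx, inv_inv, Real.cos_nat_mul_two_pi, ← hx] at hd
  have hs : Real.sin ((n : ℝ) * (2 * Real.pi)) = 0 := by
    have := Real.sin_nat_mul_pi (2 * n)
    rw [← this]; congr 1; push_cast; ring
  rw [hs] at hd
  have h1 := (hasDerivAt_iff_tendsto_slope.1 hd).abs.const_mul C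
  have h2 : (1 : ℝ) ≤ C * |1 + 4 * x + (2 * x * 0 - 1)| := by
    refine ge_of_tendsto h1 ?_
    have h3 : Set.Ioo (0 : ℝ) (1 / 2) ∈ 𝓝[≠] x :=
      mem_nhdsWithin_of_mem_nhds (Ioo_mem_nhds hx0 (by nlinarith))
    filter_upwards [h3, self_mem_nhdsWithin] with y hy hne
    have h4 := h y x hy.1.le hy.2.le hx0.le (by nlinarith)
    have h5 : 0 < |y - x| := abs_pos.2 (sub_ne_zero.2 hne)
    rw [slope_def_field, abs_div, ← mul_div_assoc, le_div_iff₀ h5, one_mul]
    exact h4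
  have e : 1 + 4 * x + (2 * x * 0 - 1) = 4 * x := by ring
  rw [e, abs_of_pos (by positivity)] at h2
  have h6 : C * (4 * x) ≤ n * (4 * x) := by gcongr; linarith [le_abs_self C]
  nlinarith

end Pool.Agent.H58.OpLip
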