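import Mathlib

set_option autoImplicit false

namespace Pool.Agent.H58.PD

open Finset

theorem pt (r : ℕ) (x y : ℝ) : (x + y) ^ (2 * r + 2) ≤ x ^ (2 * r + 2) +
    (2 * r + 2) * (x ^ (2 * r + 1) * y) + 2 ^ (2 * r + 2) * (x ^ (2 * r) * y ^ 2 + y ^ (2 * r + 2)) := by
  rw [add_comm x y, add_pow, Finset.sum_range_succ', Finset.sum_range_succ']
  have h1 : ∀ m ∈ range (2 * r + 1), y ^ (m + 1 + 1) * x ^ (2 * r + 2 - (m + 1 + 1)) *
      ((2 * r + 2).choose (m + 1 + 1) : ℝ) ≤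
      (x ^ (2 * r) * y ^ 2 + y ^ (2 * r + 2)) * ((2 * r + 2).choose (m + 1 + 1) : ℝ) := by
    intro m hm
    have hm' : m ≤ 2 * r := by simpa [Nat.lt_succ_iff] using hm
    gcongr
    refine (le_abs_self _).trans ?_
    have e1 : x ^ (2 * r) = |x| ^ (2 * r) := (Even.pow_abs (by simp) x).symm
    have e2 : y ^ (2 * r + 2) = |y| ^ (2 * r) * |y| ^ 2 := by
      rw [← pow_add, Even.pow_abs ⟨r + 1, by ring⟩]
    rw [abs_mul, abs_pow, abs_pow, e1, e2, ← sq_abs y, show 2 * r + 2 - (m + 1 + 1) = 2 * r - m by omega,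
      ← add_mul, show |y| ^ (m + 1 + 1) * |x| ^ (2 * r - m) = (|y| ^ m * |x| ^ (2 * r - m)) * |y| ^ 2 by ring]
    gcongr
    have e3 : ∀ t : ℝ, t ^ (2 * r) = t ^ m * t ^ (2 * r - m) := fun t => by
      rw [← pow_add]; congr 1; omega
    rcases le_total |x| |y| with h | h
    · have : |y| ^ m * |x| ^ (2 * r - m) ≤ |y| ^ (2 * r) := by rw [e3]; gcongr
      have : 0 ≤ |x| ^ (2 * r) := by positivity
      linarith
    · have : |y| ^ m * |x| ^ (2 * r - m) ≤ |x| ^ (2 * r) := by rw [e3]; gcongr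
      have : 0 ≤ |y| ^ (2 * r) := by positivity
      linarith
  have h2 := Finset.sum_le_sum h1
  rw [← Finset.mul_sum] at h2
  have h3 : ∑ m ∈ range (2 * r + 1), ((2 * r + 2).choose (m + 1 + 1) : ℝ) ≤ 2 ^ (2 * r + 2) := by
    have := Nat.sum_range_choose (2 * r + 2)
    rw [Finset.sum_range_succ', Finset.sum_range_succ'] at this
    have h4 : ∑ m ∈ range (2 * r + 1), (2 * r + 2).choose (m + 1 + 1) ≤ 2 ^ (2 * r + 2) := by omega
    exact_mod_cast h4
  have h5 : 0 ≤ x ^ (2 * r) * y ^ 2 + y ^ (2 * r + 2) := by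
    have := Even.pow_nonneg (show Even (2 * r) by simp) x
    have := Even.pow_nonneg (show Even (2 * r + 2) from ⟨r + 1, by ring⟩) y
    positivity
  have h6 := mul_le_mul_of_nonneg_left h3 h5
  simp only [zero_add, pow_one, Nat.choose_one_right, pow_zero, one_mul, tsub_zero,
    Nat.choose_zero_right, Nat.cast_one, mul_one, show 2 * r + 2 - 1 = 2 * r + 1 by omega]
  rw [Nat.cast_add, Nat.cast_mul, Nat.cast_ofNat]
  linarith

variable {Ω : Type*} [Fintype Ω]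

theorem step (r : ℕ) (X Y : Ω → ℝ) {c A B : ℝ} (hc : 0 ≤ c) (hA : 0 < A) (hB : 0 < B)
    (hX : ∑ ω, X ω ^ (2 * r + 2) ≤ c * A ^ (r + 1)) (hY : ∑ ω, Y ω ^ (2 * r + 2) ≤ c * B ^ (r + 1))
    (h0 : ∑ ω, X ω ^ (2 * r + 1) * Y ω = 0) :
    ∑ ω, (X ω + Y ω) ^ (2 * r + 2) ≤ c * (A + 3 * 2 ^ (2 * r + 2) * B) ^ (r + 1) := by
  set K : ℝ := 2 ^ (2 * r + 2) with hK
  have hK1 : 1 ≤ K := one_le_pow₀ (by norm_num)
  have h1 : ∀ ω, X ω ^ (2 * r) * Y ω ^ 2 ≤
      A ^ r * B * (X ω ^ (2 * r + 2) / A ^ (r + 1) + Y ω ^ (2 * r + 2) / B ^ (r + 1)) := by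
    intro ω
    set u := X ω ^ 2 / A with hu
    set v := Y ω ^ 2 / B with hv
    have hu0 : 0 ≤ u := by positivity
    have hv0 : 0 ≤ v := by positivity
    have e1 : X ω ^ (2 * r + 2) / A ^ (r + 1) = u ^ (r + 1) := by
      rw [hu, div_pow, ← pow_mul]; rfl
    have e2 : Y ω ^ (2 * r + 2) / B ^ (r + 1) = v ^ (r + 1) := by
      rw [hv, div_pow, ← pow_mul]; rfl
    have e3 : X ω ^ (2 * r) * Y ω ^ 2 = A ^ r * B * (u ^ r * v) := by
      rw [hu, hv, div_pow, ← pow_mul]; field_simp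
    rw [e1, e2, e3]
    gcongr
    rcases le_total u v with h | h
    · have : u ^ r * v ≤ v ^ (r + 1) := by rw [pow_succ]; gcongr
      have : 0 ≤ u ^ (r + 1) := by positivity
      linarith
    · have : u ^ r * v ≤ u ^ (r + 1) := by rw [pow_succ]; gcongr
      have : 0 ≤ v ^ (r + 1) := by positivity
      linarith
  have h2 : ∑ ω, X ω ^ (2 * r) * Y ω ^ 2 ≤ A ^ r * B * (2 * c) := by
    refine (Finset.sum_le_sum fun ω _ => h1 ω).trans ?_
    rw [← Finset.mul_sum, Finset.sum_add_distrib, ← Finset.sum_div, ← Finset.sum_div]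
    gcongr
    have a1 : (∑ ω, X ω ^ (2 * r + 2)) / A ^ (r + 1) ≤ c := by rw [div_le_iff₀ (by positivity)]; exact hX
    have a2 : (∑ ω, Y ω ^ (2 * r + 2)) / B ^ (r + 1) ≤ c := by rw [div_le_iff₀ (by positivity)]; exact hY
    linarith
  have h3 := Finset.sum_le_sum fun ω (_ : ω ∈ univ) => pt r (X ω) (Y ω)
  rw [Finset.sum_add_distrib, Finset.sum_add_distrib, ← Finset.mul_sum, ← Finset.mul_sum, h0,
    Finset.sum_add_distrib, ← hK] at h3
  set M := (A + 3 * K * B) ^ r with hM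
  have m1 : A ^ r ≤ M := by rw [hM]; gcongr; nlinarith [mul_pos (by linarith : 0 < K) hB]
  have m2 : B ^ r ≤ M := by rw [hM]; gcongr; nlinarith
  have h4 : A ^ (r + 1) + K * (A ^ r * B * 2 + B ^ (r + 1)) ≤ (A + 3 * K * B) ^ (r + 1) := by
    rw [pow_succ (A + 3 * K * B), ← hM, pow_succ A, pow_succ B]
    have k1 := mul_le_mul_of_nonneg_right m1 hA.le
    have k2 := mul_le_mul_of_nonneg_right m1 (by positivity : 0 ≤ K * B)
    have k3 := mul_le_mul_of_nonneg_right m2 (by positivity : 0 ≤ K * B)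
    nlinarith
  have h5 := mul_le_mul_of_nonneg_left h4 hc
  have h6 : K * (∑ ω, X ω ^ (2 * r) * Y ω ^ 2 + ∑ ω, Y ω ^ (2 * r + 2)) ≤
      K * (A ^ r * B * (2 * c) + c * B ^ (r + 1)) := by gcongr
  nlinarith

theorem mart (r : ℕ) (Y : ℕ → Ω → ℝ) (b : ℕ) (hb : 0 < b) (τ : ℕ → ℕ → Equiv.Perm Ω) {c B : ℝ}
    (hc : 0 ≤ c) (hB : 0 < B) (s : ℕ)
    (h1 : ∀ l < s, ∀ l' ≤ l, ∀ i ω, Y l' (τ l i ω) = Y l' ω)
    (h2 : ∀ l < s, ∀ ω, ∑ i ∈ range b, Y (l + 1) (τ l i ω) = 0)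
    (hY : ∀ l ≤ s, ∑ ω, Y l ω ^ (2 * r + 2) ≤ c * B ^ (r + 1)) :
    ∑ ω, (∑ l ∈ range (s + 1), Y l ω) ^ (2 * r + 2) ≤
      c * (3 * 2 ^ (2 * r + 2) * (s + 1) * B) ^ (r + 1) := by
  have hK1 : (1 : ℝ) ≤ 2 ^ (2 * r + 2) := one_le_pow₀ (by norm_num)
  induction s with
  | zero =>
    simp only [zero_add, range_one, sum_singleton, Nat.cast_zero, mul_one]
    refine (hY 0 le_rfl).trans ?_
    gcongr
    nlinarith
  | succ s ih =>
    have := ih (fun l hl => h1 l (by omega)) (fun l hl => h2 l (by omega)) (fun l hl => hY l (by omega))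
    have h3 := step r (fun ω => ∑ l ∈ range (s + 1), Y l ω) (Y (s + 1)) hc (by positivity) hB this
      (hY _ le_rfl) (by
        have e : ∀ i, ∑ ω, (∑ l ∈ range (s + 1), Y l ω) ^ (2 * r + 1) * Y (s + 1) ω =
            ∑ ω, (∑ l ∈ range (s + 1), Y l ω) ^ (2 * r + 1) * Y (s + 1) (τ s i ω) := by
          intro i
          rw [← Equiv.sum_comp (τ s i)]
          refine Finset.sum_congr rfl fun ω _ => ?_
          congr 2
          exact Finset.sum_congr rfl fun l hl => h1 s (by omega) l (by simpa [Nat.lt_succ_iff] using hl) i ω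
        have e2 : (b : ℝ) * ∑ ω, (∑ l ∈ range (s + 1), Y l ω) ^ (2 * r + 1) * Y (s + 1) ω = 0 := by
          calc _ = ∑ i ∈ range b, ∑ ω, (∑ l ∈ range (s + 1), Y l ω) ^ (2 * r + 1) * Y (s + 1) ω := by simp
            _ = ∑ i ∈ range b, ∑ ω, (∑ l ∈ range (s + 1), Y l ω) ^ (2 * r + 1) * Y (s + 1) (τ s i ω) :=
                Finset.sum_congr rfl fun i _ => e i
            _ = 0 := by
                rw [Finset.sum_comm]
                refine Finset.sum_eq_zero fun ω _ => ?_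
                rw [← Finset.mul_sum, h2 s (by omega), mul_zero]
        exact (mul_eq_zero.1 e2).resolve_left (by positivity))
    simp only [Finset.sum_range_succ _ (s + 1)]
    refine h3.trans (le_of_eq ?_)
    congr 2
    push_cast
    ring

theorem multi (r s : ℕ) {c B : ℝ} (hc : 0 ≤ c) (hB : 0 < B) : ∀ (D : ℕ) (G : (Fin D → ℕ) → Ω → ℝ)
    (b : Fin D → ℕ) (τ : Fin D → ℕ → ℕ → Equiv.Perm Ω), (∀ j, 0 < b j) →
    (∀ L j, ∀ l < s, L j ≤ l → ∀ i ω, G L (τ j l i ω) = G L ω) →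
    (∀ L j, ∀ l < s, L j = l + 1 → ∀ ω, ∑ i ∈ range (b j), G L (τ j l i ω) = 0) →
    (∀ L, ∑ ω, G L ω ^ (2 * r + 2) ≤ c * B ^ (r + 1)) →
    ∑ ω, (∑ L : Fin D → Fin (s + 1), G (fun j => L j) ω) ^ (2 * r + 2) ≤
      c * ((3 * 2 ^ (2 * r + 2) * (s + 1)) ^ D * B) ^ (r + 1) := by
  intro D
  induction D with
  | zero =>
    intro G b τ _ _ _ h
    simpa using h _
  | succ D ih =>
    intro G b τ hb h1 h2 h3
    have e : ∀ ω, ∑ L : Fin (D + 1) → Fin (s + 1), G (fun j => L j) ω =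
        ∑ l ∈ range (s + 1), ∑ L : Fin D → Fin (s + 1), G (Fin.cons l fun j => L j) ω := by
      intro ω
      rw [← Fin.sum_univ_eq_sum_range (fun l => ∑ L : Fin D → Fin (s + 1), G (Fin.cons l fun j => L j) ω),
        ← Fintype.sum_prod_type', ← Equiv.sum_comp (Fin.consEquiv fun _ => Fin (s + 1))]
      refine Finset.sum_congr rfl fun p _ => ?_
      congr 1
      funext j
      refine Fin.cases ?_ (fun j => ?_) j <;> simp [Fin.consEquiv]
    simp only [e]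
    refine (mart r (fun l ω => ∑ L : Fin D → Fin (s + 1), G (Fin.cons l fun j => L j) ω) (b 0) (hb 0)
      (τ 0) hc (B := (3 * 2 ^ (2 * r + 2) * (s + 1)) ^ D * B) (by positivity) s ?_ ?_ ?_).trans
      (le_of_eq (by congr 2; ring))
    · intro l hl l' hl' i ω
      exact Finset.sum_congr rfl fun L _ => h1 _ 0 l hl (by simpa using hl') i ω
    · intro l hl ω
      rw [Finset.sum_comm]
      exact Finset.sum_eq_zero fun L _ => h2 _ 0 l hl (by simp) ω
    · intro l _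
      exact ih (fun L => G (Fin.cons l L)) (fun j => b j.succ) (fun j => τ j.succ) (fun j => hb _)
        (fun L j l' hl' h => h1 _ j.succ l' hl' (by simpa using h))
        (fun L j l' hl' h => h2 _ j.succ l' hl' (by simpa using h)) (fun L => h3 _)

open MeasureTheory in
theorem avg {X : Type*} [MeasurableSpace X] (μ : Measure X) [IsProbabilityMeasure μ] [Nonempty Ω]
    (f : Ω → X → X → ℝ) (hf : ∀ a, Measurable (Function.uncurry (f a))) (h0 : ∀ a x y, 0 ≤ f a x y)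
    {M : ℝ} (hM : ∀ᵐ x ∂μ, ∀ᵐ y ∂μ, ∑ a, f a x y ≤ Fintype.card Ω * M) :
    ∃ a, ∫ x, ∫ y, f a x y ∂μ ∂μ ≤ M := by
  have hb : ∀ a, ∀ᵐ x ∂μ, ∀ᵐ y ∂μ, ‖f a x y‖ ≤ Fintype.card Ω * M := fun a => by
    filter_upwards [hM] with x hx
    filter_upwards [hx] with y hy
    rw [Real.norm_of_nonneg (h0 a x y)]
    exact (Finset.single_le_sum (f := fun a => f a x y) (fun a _ => h0 a x y) (mem_univ a)).trans hy
  have i1 : ∀ a, ∀ᵐ x ∂μ, Integrable (f a x) μ := fun a => by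
    filter_upwards [hb a] with x hx
    exact Integrable.of_bound ((hf a).comp measurable_prodMk_left).aestronglyMeasurable _ hx
  have i2 : ∀ a, Integrable (fun x => ∫ y, f a x y ∂μ) μ := fun a => by
    refine Integrable.of_bound ((hf a).stronglyMeasurable.integral_prod_right).aestronglyMeasurable
      (Fintype.card Ω * M) ?_
    filter_upwards [hb a] with x hx
    simpa using norm_integral_le_of_norm_le_const hx
  have key : ∑ a, ∫ x, ∫ y, f a x y ∂μ ∂μ ≤ ∑ _a : Ω, M := by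
    rw [← integral_finsetSum _ fun a _ => i2 a]
    have : ∫ x, ∑ a, ∫ y, f a x y ∂μ ∂μ ≤ ∫ _x, (Fintype.card Ω * M : ℝ) ∂μ := by
      refine integral_mono_ae (integrable_finsetSum _ fun a _ => i2 a) (integrable_const _) ?_
      filter_upwards [hM, ae_all_iff.2 i1] with x hx hi
      rw [← integral_finsetSum _ fun a _ => hi a]
      have : ∫ y, ∑ a, f a x y ∂μ ≤ ∫ _y, (Fintype.card Ω * M : ℝ) ∂μ :=
        integral_mono_ae (integrable_finsetSum _ fun a _ => hi a) (integrable_const _) hx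
      simpa using this
    simpa using this
  obtain ⟨a, -, ha⟩ := Finset.exists_le_of_sum_le Finset.univ_nonempty key
  exact ⟨a, ha⟩

end Pool.Agent.H58.PD
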