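import Pool.Agent.H58.PD2

set_option autoImplicit false

namespace Pool.Agent.H58.PD

open Finset

noncomputable def ind (x y z : ℝ) : ℝ :=
  (if z < y then 1 else 0) - (if z < x then 1 else 0) + if y < x then 1 else 0

noncomputable def vol (x y : ℝ) : ℝ := y - x + if y < x then 1 else 0

noncomputable def up (m : ℕ) (y : ℝ) : ℝ := (⌈(m : ℝ) * y⌉ : ℝ) / m

theorem up_spec {m : ℕ} (hm : 0 < m) {y : ℝ} (h1 : y < 1) :
    y ≤ up m y ∧ up m y ≤ y + 1 / m ∧ up m y ≤ 1 := by
  have hm' : (0 : ℝ) < m := by positivity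
  unfold up
  refine ⟨?_, ?_, ?_⟩
  · rw [le_div_iff₀ hm', mul_comm]; exact Int.le_ceil _
  · rw [div_le_iff₀ hm', add_mul, one_div_mul_cancel hm'.ne', mul_comm y]
    exact (Int.ceil_lt_add_one _).le
  · rw [div_le_one hm']
    have : ⌈(m : ℝ) * y⌉ ≤ (m : ℤ) := Int.ceil_le.2 (by push_cast; nlinarith)
    exact_mod_cast this

theorem up_mono (m : ℕ) {x y : ℝ} (h : x ≤ y) : up m x ≤ up m y := by
  unfold up
  gcongr

theorem E_ind {b : ℕ} (hb : 0 < b) (s : ℕ) (y : ℝ) (n : ℕ) :
    E b (up (b ^ s) y) s n = if (rev b s n : ℝ) / b ^ s < y then 1 else 0 := by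
  have hm' : (0 : ℝ) < b ^ s := by positivity
  unfold E up
  rw [Nat.cast_pow, mul_div_cancel₀ _ hm'.ne']
  split_ifs with h
  · rw [div_lt_iff₀ hm', mul_comm] at h
    have : (rev b s n : ℤ) + 1 ≤ ⌈(b : ℝ) ^ s * y⌉ := Int.lt_ceil.2 (by exact_mod_cast h)
    have h2 : (rev b s n : ℝ) + 1 ≤ ⌈(b : ℝ) ^ s * y⌉ := by exact_mod_cast this
    exact cl_one (by linarith)
  · rw [not_lt, le_div_iff₀ hm', mul_comm] at h
    have : ⌈(b : ℝ) ^ s * y⌉ ≤ (rev b s n : ℤ) := Int.ceil_le.2 (by exact_mod_cast h)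
    have h2 : (⌈(b : ℝ) ^ s * y⌉ : ℝ) ≤ rev b s n := by exact_mod_cast this
    exact cl_nonpos (by linarith)

theorem W0 (b : ℕ) {y : ℝ} (h0 : 0 ≤ y) (h1 : y ≤ 1) (n : ℕ) : W b y 0 n = y := by
  simp [W, E, rev, cl, h0, h1]

theorem sum_lt (N : ℕ) {y : ℝ} (h1 : y < 1) (F : ℕ → ℝ) :
    ∑ n ∈ range N, (if (n : ℝ) / N < y then 1 else 0) * F n = ∑ n ∈ range ⌈(N : ℝ) * y⌉₊, F n := by
  simp only [ite_mul, one_mul, zero_mul]
  rw [← Finset.sum_filter]
  congr 1
  ext n
  simp only [mem_filter, mem_range, Nat.lt_ceil]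
  constructor
  · rintro ⟨h, h'⟩
    have : (0 : ℝ) < N := by exact_mod_cast (by omega : 0 < N)
    rwa [div_lt_iff₀ this, mul_comm] at h'
  · intro h
    have hN : (0 : ℝ) ≤ N := by positivity
    have h2 : (n : ℝ) < N := by
      rcases hN.eq_or_lt with h0 | h0
      · rw [← h0, zero_mul] at h
        exact absurd h (by simp)
      · nlinarith
    have : (0 : ℝ) < N := lt_of_le_of_lt (by positivity) h2
    exact ⟨by exact_mod_cast h2, by rwa [div_lt_iff₀ this, mul_comm]⟩

theorem sum_ind (N : ℕ) {x y : ℝ} (hx : x < 1) (hy : y < 1) (F : ℕ → ℝ) :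
    ∑ n ∈ range N, ind x y (n / N) * F n = ∑ n ∈ range ⌈(N : ℝ) * y⌉₊, F n -
      ∑ n ∈ range ⌈(N : ℝ) * x⌉₊, F n + (if y < x then 1 else 0) * ∑ n ∈ range N, F n := by
  simp only [ind, add_mul, sub_mul, Finset.sum_add_distrib, Finset.sum_sub_distrib, sum_lt N hx,
    sum_lt N hy, Finset.mul_sum]

theorem vol_abs {x y : ℝ} (hx : 0 ≤ x ∧ x < 1) (hy : 0 ≤ y ∧ y < 1) : |vol x y| ≤ 1 := by
  unfold vol
  rw [abs_le]
  split_ifs <;> constructor <;> linarith [hx.1, hx.2, hy.1, hy.2]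

variable {D : ℕ}

noncomputable def pnt (b : Fin D → ℕ) (s N : ℕ) (a : ∀ j, ZMod (b j ^ s)) (n : ℕ) : Fin (D + 1) → ℝ :=
  Fin.cons ((n : ℝ) / N) fun j => (rev (b j) s (n + (a j).val) : ℝ) / b j ^ s

noncomputable def disc (b : Fin D → ℕ) (s N : ℕ) (a : ∀ j, ZMod (b j ^ s)) (x y : Fin (D + 1) → ℝ) : ℝ :=
  ∑ n ∈ range N, ∏ i, ind (x i) (y i) (pnt b s N a n i) - N * ∏ i, vol (x i) (y i)

theorem moment (r : ℕ) (b : Fin D → ℕ) (hb : ∀ j, 2 ≤ b j)
    (hc : Pairwise (Function.onFun Nat.Coprime b)) (s N : ℕ) [∀ j, NeZero (b j ^ s)] (hN : N ≤ 2 ^ s)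
    (x y : Fin (D + 1) → ℝ) (hx : ∀ i, 0 ≤ x i ∧ x i < 1) (hy : ∀ i, 0 ≤ y i ∧ y i < 1) :
    ∑ a : ∀ j, ZMod (b j ^ s), disc b s N a x y ^ (2 * r + 2) ≤
      Fintype.card (∀ j, ZMod (b j ^ s)) * ((3 * 2 ^ (2 * r + 2) * (s + 1)) ^ D *
        (3 * ∏ j, (3 * b j : ℝ) + 2 + 2 * D) ^ 2) ^ (r + 1) := by
  have hb0 : ∀ j, 0 < b j := fun j => by have := hb j; omega
  set w : Fin D → ℕ → ℕ → ℝ := fun j => WI (b j) (up (b j ^ s) (x j.succ)) (up (b j ^ s) (y j.succ))
    (if y j.succ < x j.succ then 1 else 0) with hw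
  have hsys : ∀ j, Sys (b j) (w j) := fun j => sys_WI (hb0 j) _ _ (by split_ifs <;> simp)
  set G : (Fin D → ℕ) → (∀ j, ZMod (b j ^ s)) → ℝ := fun L a =>
    ∑ n ∈ range N, ind (x 0) (y 0) (n / N) * ∏ j, w j (L j) (n + (a j).val) -
      if L = 0 then N * ∏ i, vol (x i) (y i) else 0 with hG
  have hd : ∀ a, disc b s N a x y = ∑ L : Fin D → Fin (s + 1), G (fun j => L j) a := by
    intro a
    simp only [hG, Finset.sum_sub_distrib]
    unfold disc
    congr 1
    · rw [Finset.sum_comm]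
      refine Finset.sum_congr rfl fun n _ => ?_
      rw [← Finset.mul_sum, Fin.prod_univ_succ,
        ← Fintype.prod_sum (fun j (l : Fin (s + 1)) => w j l (n + (a j).val))]
      simp only [pnt, Fin.cons_zero, Fin.cons_succ]
      congr 1
      refine Finset.prod_congr rfl fun j _ => ?_
      rw [Fin.sum_univ_eq_sum_range (fun l => w j l (n + (a j).val))]
      simp only [hw, WI, Finset.sum_add_distrib, Finset.sum_sub_distrib, sum_W, E_ind (hb0 j), ind]
      simp
    · rw [Finset.sum_eq_single (0 : Fin D → Fin (s + 1))]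
      · rw [if_pos]; rfl
      · intro L _ hL
        rw [if_neg]
        intro h
        exact hL (funext fun j => Fin.ext (congrFun h j))
      · simp
  simp only [hd]
  have hτ : ∀ (a : ∀ j, ZMod (b j ^ s)) (j : Fin D) (t n : ℕ) (L : Fin D → ℕ), L j ≤ s →
      ∏ j', w j' (L j') (n + ((a + Pi.single j (t : ZMod (b j ^ s)) : ∀ j, ZMod (b j ^ s)) j').val) =
        w j (L j) (n + (a j).val + t) * ∏ j' ∈ univ.erase j, w j' (L j') (n + (a j').val) := by
    intro a j t n L hL
    rw [← Finset.mul_prod_erase _ _ (mem_univ j)]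
    congr 1
    · refine (hsys j).per _ _ _ (Nat.ModEq.of_dvd (pow_dvd_pow _ hL) ?_)
      rw [add_assoc]
      refine Nat.ModEq.add_left _ ?_
      rw [← ZMod.natCast_eq_natCast_iff]
      simp
    · refine Finset.prod_congr rfl fun j' hj' => ?_
      simp [Pi.single_eq_of_ne (Finset.ne_of_mem_erase hj')]
  refine multi r s (by positivity) (by positivity) D G b
    (fun j l i => Equiv.addRight (Pi.single j ((i * b j ^ l : ℕ) : ZMod (b j ^ s)))) hb0 ?_ ?_ ?_
  · intro L j l hl hL i a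
    simp only [hG, Equiv.coe_addRight, hτ a j _ _ L (by omega)]
    congr 1
    refine Finset.sum_congr rfl fun n _ => ?_
    rw [← Finset.mul_prod_erase _ _ (mem_univ j)]
    congr 2
    refine (hsys j).per _ _ _ (Nat.ModEq.of_dvd (pow_dvd_pow _ hL) ?_)
    simp [Nat.ModEq]
  · intro L j l hl hL a
    have hL0 : L ≠ 0 := fun h => by simp [h] at hL
    simp only [hG, Equiv.coe_addRight, hτ a j _ _ L (by omega), hL0, if_false, sub_zero]
    rw [Finset.sum_comm]
    refine Finset.sum_eq_zero fun n _ => ?_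
    rw [← Finset.mul_sum, ← Finset.sum_mul, hL, (hsys j).zero]; simp
  · intro L
    have hP : (0 : ℝ) ≤ ∏ j, (3 * b j : ℝ) := by positivity
    have key : ∀ a, |G L a| ≤ 3 * ∏ j, (3 * b j : ℝ) + 2 + 2 * D := by
      intro a
      simp only [hG]
      rw [sum_ind N (hx 0).2 (hy 0).2]
      by_cases hL : L = 0
      · subst hL
        set u : Fin D → ℝ := fun j => up (b j ^ s) (y j.succ) - up (b j ^ s) (x j.succ) +
          (if y j.succ < x j.succ then 1 else 0) with hu
        have hup := fun j => up_spec (pow_pos (hb0 j) s) (hx j.succ).2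
        have hup' := fun j => up_spec (pow_pos (hb0 j) s) (hy j.succ).2
        have e : ∀ j n, w j 0 n = u j := fun j n => by
          simp only [hw, WI, hu, if_true]
          rw [W0 _ ((hx _).1.trans (hup j).1) (hup j).2.2, W0 _ ((hy _).1.trans (hup' j).1) (hup' j).2.2]
        have hu1 : ∀ j, |u j| ≤ 1 := fun j => by
          have := hup j; have := hup' j; have := hx j.succ; have := hy j.succ
          simp only [hu]
          rw [abs_le]
          split_ifs with h
          · have := up_mono (b j ^ s) h.le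
            constructor <;> linarith
          · constructor <;> linarith
        have hu2 : ∀ j, (N : ℝ) * |u j - vol (x j.succ) (y j.succ)| ≤ 2 := fun j => by
          have h1 := hup j; have h2 := hup' j
          have hm : (0 : ℝ) < ((b j ^ s : ℕ) : ℝ) := by have := hb0 j; positivity
          have h3 : (N : ℝ) * (1 / ((b j ^ s : ℕ) : ℝ)) ≤ 1 := by
            rw [mul_one_div, div_le_one hm]
            exact_mod_cast hN.trans (Nat.pow_le_pow_left (hb j) s)
          have h4 : |u j - vol (x j.succ) (y j.succ)| ≤ 1 / ((b j ^ s : ℕ) : ℝ) := by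
            simp only [hu, vol]
            rw [abs_le]; constructor <;> linarith
          have := mul_le_mul_of_nonneg_left h4 (by positivity : (0 : ℝ) ≤ N)
          linarith
        have h5 := prod_diff univ u (fun j => vol (x j.succ) (y j.succ)) hu1
          fun j => vol_abs (hx _) (hy _)
        have h6 : (N : ℝ) * |∏ j, u j - ∏ j : Fin D, vol (x j.succ) (y j.succ)| ≤ 2 * D := by
          refine (mul_le_mul_of_nonneg_left h5 (by positivity)).trans ?_
          rw [Finset.mul_sum]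
          refine (Finset.sum_le_sum fun j _ => hu2 j).trans ?_
          simp [mul_comm]
        have h7 : |∏ j, u j| ≤ 1 := by
          rw [Finset.abs_prod]; exact Finset.prod_le_one (fun _ _ => abs_nonneg _) fun i _ => hu1 i
        simp only [Pi.zero_apply, e, sum_const, card_range, nsmul_eq_mul, if_true]
        rw [Fin.prod_univ_succ (fun i => vol (x i) (y i))]
        set U := ∏ j, u j
        set Vv := ∏ j : Fin D, vol (x j.succ) (y j.succ)
        have hN0 : (0 : ℝ) ≤ N := by positivity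
        have c1 := Nat.le_ceil ((N : ℝ) * y 0)
        have c2 := Nat.ceil_lt_add_one (mul_nonneg hN0 (hy 0).1)
        have c3 := Nat.le_ceil ((N : ℝ) * x 0)
        have c4 := Nat.ceil_lt_add_one (mul_nonneg hN0 (hx 0).1)
        have e2 : (⌈(N : ℝ) * y 0⌉₊ : ℝ) * U - ⌈(N : ℝ) * x 0⌉₊ * U +
            (if y 0 < x 0 then 1 else 0) * (N * U) - N * (vol (x 0) (y 0) * Vv) =
            ((⌈(N : ℝ) * y 0⌉₊ - N * y 0) - (⌈(N : ℝ) * x 0⌉₊ - N * x 0)) * U +
              vol (x 0) (y 0) * (N * (U - Vv)) := by unfold vol; ring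
        rw [e2]
        refine (abs_add_le _ _).trans ?_
        rw [abs_mul, abs_mul, abs_mul, Nat.abs_cast]
        have c5 : |((⌈(N : ℝ) * y 0⌉₊ : ℝ) - N * y 0) - (⌈(N : ℝ) * x 0⌉₊ - N * x 0)| ≤ 2 := by
          rw [abs_le]; constructor <;> linarith
        have c6 := mul_le_mul c5 h7 (abs_nonneg _) (by norm_num)
        have c7 := mul_le_mul (vol_abs (hx 0) (hy 0)) h6 (by positivity) (by norm_num)
        linarith
      · have h1 := fun T => G_bound b hb0 hc w hsys L hL (fun j => (a j).val) T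
        have a1 := abs_le.1 (h1 ⌈(N : ℝ) * y 0⌉₊)
        have a2 := abs_le.1 (h1 ⌈(N : ℝ) * x 0⌉₊)
        have a3 := abs_le.1 (h1 N)
        have : (0 : ℝ) ≤ D := by positivity
        rw [if_neg hL, abs_le]
        split_ifs <;> constructor <;> linarith [a1.1, a1.2, a2.1, a2.2, a3.1, a3.2]
    calc _ ≤ ∑ _a : ∀ j, ZMod (b j ^ s), ((3 * ∏ j, (3 * b j : ℝ) + 2 + 2 * D) ^ 2) ^ (r + 1) := by
          refine Finset.sum_le_sum fun a _ => ?_
          rw [← pow_mul, ← Even.pow_abs ⟨r + 1, by ring⟩, show 2 * (r + 1) = 2 * r + 2 by ring]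
          gcongr
          exact key a
      _ = _ := by simp

end Pool.Agent.H58.PD
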