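import Mathlib

set_option autoImplicit false

namespace Pool.Agent.H58.PPC
open Filter Topology Finset
open scoped Classical

variable {X : Type*} [PseudoMetricSpace X]

/-- ordered pairs of distinct indices below `N` at distance less than `r` -/
noncomputable def prs (x : ℕ → X) (N : ℕ) (r : ℝ) : Finset (ℕ × ℕ) :=
  (range N ×ˢ range N).filter (fun p => p.1 ≠ p.2 ∧ dist (x p.1) (x p.2) < r)

def IsPPC (x : ℕ → X) : Prop :=
  ∀ s : ℝ, 0 < s → Tendsto (fun N : ℕ => ((prs x N (s / N)).card : ℝ) / N) atTop (𝓝 (2 * s))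

lemma mem_prs {x : ℕ → X} {N : ℕ} {r : ℝ} {p : ℕ × ℕ} :
    p ∈ prs x N r ↔ p.1 < N ∧ p.2 < N ∧ p.1 ≠ p.2 ∧ dist (x p.1) (x p.2) < r := by
  simp [prs, and_assoc]

lemma prs_mono (x : ℕ → X) {N M : ℕ} {r ρ : ℝ} (h : N ≤ M) (h' : r ≤ ρ) :
    ((prs x N r).card : ℝ) ≤ (prs x M ρ).card := by
  have : prs x N r ⊆ prs x M ρ := by
    intro p hp
    rw [mem_prs] at hp ⊢
    exact ⟨by omega, by omega, hp.2.2.1, by linarith [hp.2.2.2]⟩
  exact_mod_cast card_le_card this

lemma tendsto_sqrt_nat : Tendsto Nat.sqrt atTop atTop := by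
  refine tendsto_atTop.2 fun b => ?_
  filter_upwards [eventually_ge_atTop (b * b)] with n hn
  exact Nat.le_sqrt.2 hn

lemma ratio_sq : Tendsto (fun m : ℕ => (((m : ℝ) + 1) / m) ^ 2) atTop (𝓝 1) := by
  have h1 : Tendsto (fun m : ℕ => 1 + 1 / (m : ℝ)) atTop (𝓝 (1 + 0)) :=
    tendsto_const_nhds.add tendsto_one_div_atTop_nhds_zero_nat
  have h2 := h1.pow 2
  rw [add_zero, one_pow] at h2
  refine h2.congr' ?_
  filter_upwards [eventually_gt_atTop 0] with m hm
  have : (m : ℝ) ≠ 0 := by exact_mod_cast hm.ne'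
  field_simp

/-- interpolation from squares and rational `s` -/
lemma isPPC_of_sq (x : ℕ → X)
    (h : ∀ q : ℚ, 0 < q → Tendsto (fun m : ℕ => ((prs x (m ^ 2) (q / ((m ^ 2 : ℕ) : ℝ))).card : ℝ)
      / ((m ^ 2 : ℕ) : ℝ)) atTop (𝓝 (2 * q))) : IsPPC x := by
  intro s hs
  rw [tendsto_order]
  constructor
  · intro L hL
    obtain ⟨q, hq1, hq2⟩ := exists_rat_btwn (max_lt (show L / 2 < s by linarith) hs)
    have hq0 : (0 : ℝ) < q := lt_of_le_of_lt (le_max_right _ _) hq1
    have hqL : L / 2 < q := lt_of_le_of_lt (le_max_left _ _) hq1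
    have h1 := (h q (by exact_mod_cast hq0)).div ratio_sq one_ne_zero
    rw [div_one] at h1
    have h2 := (h1.comp tendsto_sqrt_nat).eventually (lt_mem_nhds (show L < 2 * q by linarith))
    have h3 := (ratio_sq.comp tendsto_sqrt_nat).eventually
      (gt_mem_nhds (show 1 < s / q by rw [lt_div_iff₀ hq0]; linarith))
    filter_upwards [h2, h3, eventually_gt_atTop 0] with N a1 a2 hN
    simp only [Function.comp, Pi.div_apply] at a1 a2
    set m := N.sqrt with hm
    have hm0 : 0 < m := Nat.sqrt_pos.2 hN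
    have b1 : m ^ 2 ≤ N := Nat.sqrt_le' N
    have b2 : N < (m + 1) ^ 2 := Nat.lt_succ_sqrt' N
    have c0 : (0 : ℝ) < m := by exact_mod_cast hm0
    have c1 : (m : ℝ) ^ 2 ≤ N := by exact_mod_cast b1
    have c2 : (N : ℝ) ≤ (m + 1) ^ 2 := by exact_mod_cast b2.le
    have cN : (0 : ℝ) < N := by exact_mod_cast hN
    have d1 : (q : ℝ) / ((m ^ 2 : ℕ) : ℝ) ≤ s / N := by
      push_cast
      rw [div_pow, div_lt_div_iff₀ (by positivity) hq0] at a2
      rw [div_le_div_iff₀ (by positivity) cN]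
      nlinarith
    have d2 := prs_mono x b1 d1
    refine a1.trans_le ?_
    push_cast at d2 ⊢
    rw [div_pow, div_div, mul_div_cancel₀ _ (by positivity : (m : ℝ) ^ 2 ≠ 0)]
    gcongr
  · intro L hL
    obtain ⟨q, hq1, hq2⟩ := exists_rat_btwn (show s < L / 2 by linarith)
    have hq0 : (0 : ℝ) < q := by linarith
    have h1 := ((h q (by exact_mod_cast hq0)).comp (tendsto_add_atTop_nat 1)).mul ratio_sq
    rw [mul_one] at h1
    have h2 := (h1.comp tendsto_sqrt_nat).eventually (gt_mem_nhds (show 2 * q < L by linarith))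
    have h3 := (ratio_sq.comp tendsto_sqrt_nat).eventually
      (gt_mem_nhds (show 1 < q / s by rw [lt_div_iff₀ hs]; linarith))
    filter_upwards [h2, h3, eventually_gt_atTop 0] with N a1 a2 hN
    simp only [Function.comp] at a1 a2
    set m := N.sqrt with hm
    have hm0 : 0 < m := Nat.sqrt_pos.2 hN
    have b1 : m ^ 2 ≤ N := Nat.sqrt_le' N
    have b2 : N < (m + 1) ^ 2 := Nat.lt_succ_sqrt' N
    have c0 : (0 : ℝ) < m := by exact_mod_cast hm0
    have c1 : (m : ℝ) ^ 2 ≤ N := by exact_mod_cast b1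
    have cN : (0 : ℝ) < N := by exact_mod_cast hN
    have d1 : s / N ≤ (q : ℝ) / (((m + 1) ^ 2 : ℕ) : ℝ) := by
      push_cast
      rw [div_pow, div_lt_div_iff₀ (by positivity) hs] at a2
      rw [div_le_div_iff₀ cN (by positivity)]
      nlinarith
    have d2 := prs_mono x b2.le d1
    refine lt_of_le_of_lt ?_ a1
    push_cast at d2 ⊢
    rw [div_pow, div_mul_div_comm, mul_comm (((m : ℝ) + 1) ^ 2),
      mul_div_mul_right _ _ (by positivity : ((m : ℝ) + 1) ^ 2 ≠ 0)]
    gcongr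

lemma pert_le (u v w : ℕ → X) (N K : ℕ) (r δ : ℝ)
    (hv : ∀ n, K ≤ n → dist (u n) (v n) ≤ δ) (hw : ∀ n, K ≤ n → dist (u n) (w n) ≤ δ) :
    ((prs u N r).card : ℝ) ≤ (prs v N (r + 2 * δ)).card +
      2 * (K * (K + 1 + √((prs w N (2 * r + 2 * δ)).card))) := by
  set B : ℝ := 1 + √((prs w N (2 * r + 2 * δ)).card) with hB
  have hT : ∀ z : X, (((range N).filter (fun l => dist z (u l) < r)).card : ℝ) ≤ K + B := by
    intro z
    set T := (range N).filter (fun l => K ≤ l ∧ dist z (u l) < r) with hT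
    have h1 : (range N).filter (fun l => dist z (u l) < r) ⊆ range K ∪ T := by
      intro l hl
      simp only [hT, mem_filter, mem_union, mem_range] at hl ⊢
      by_cases h : l < K
      · exact Or.inl h
      · exact Or.inr ⟨hl.1, by omega, hl.2⟩
    have h2 : T.offDiag ⊆ prs w N (2 * r + 2 * δ) := by
      intro p hp
      rw [mem_offDiag] at hp
      simp only [hT, mem_filter, mem_range] at hp
      obtain ⟨⟨a1, a2, a3⟩, ⟨b1, b2, b3⟩, c⟩ := hp
      refine mem_prs.2 ⟨a1, b1, c, ?_⟩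
      have e1 := dist_triangle4 (w p.1) (u p.1) (u p.2) (w p.2)
      have e2 := dist_triangle_left (u p.1) (u p.2) z
      have e3 := hw _ a2
      have e4 := hw _ b2
      rw [dist_comm] at e3
      linarith
    have h3 := card_le_card h2
    rw [offDiag_card] at h3
    have h4 : (T.card : ℝ) * T.card ≤ (prs w N (2 * r + 2 * δ)).card + T.card := by
      have : T.card * T.card ≤ (prs w N (2 * r + 2 * δ)).card + T.card := by omega
      exact_mod_cast this
    have h5 : (T.card : ℝ) ≤ B := by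
      rw [hB]
      by_contra hc
      push Not at hc
      have h6 := Real.sq_sqrt (Nat.cast_nonneg (α := ℝ) (prs w N (2 * r + 2 * δ)).card)
      have h7 := Real.sqrt_nonneg ((prs w N (2 * r + 2 * δ)).card : ℝ)
      nlinarith
    have h6 : (((range N).filter (fun l => dist z (u l) < r)).card : ℝ) ≤ K + T.card := by
      have := (card_le_card h1).trans (card_union_le _ _)
      rw [card_range] at this
      exact_mod_cast this
    linarith
  set Z := (range K ×ˢ range N).filter (fun p => dist (u p.1) (u p.2) < r) with hZ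
  have hZc : (Z.card : ℝ) ≤ K * (K + B) := by
    have : Z.card = ∑ k ∈ range K, ((range N).filter (fun l => dist (u k) (u l) < r)).card := by
      rw [hZ, card_filter, sum_product]
      simp only [card_filter]
    rw [this]
    push_cast
    calc _ ≤ ∑ k ∈ range K, (K + B) := sum_le_sum fun k _ => hT _
      _ = _ := by simp; ring
  have hsub : prs u N r ⊆ prs v N (r + 2 * δ) ∪ (Z ∪ Z.image Prod.swap) := by
    intro p hp
    obtain ⟨a1, a2, a3, a4⟩ := mem_prs.1 hp
    rw [mem_union, mem_union]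
    by_cases h1 : p.1 < K
    · exact Or.inr (Or.inl (by simp [hZ, h1, a2, a4]))
    by_cases h2 : p.2 < K
    · refine Or.inr (Or.inr (mem_image.2 ⟨p.swap, ?_, by simp⟩))
      rw [dist_comm] at a4
      simp [hZ, h2, a1, a4]
    refine Or.inl (mem_prs.2 ⟨a1, a2, a3, ?_⟩)
    have e1 := dist_triangle4 (v p.1) (u p.1) (u p.2) (v p.2)
    have e3 := hv p.1 (by omega)
    have e4 := hv p.2 (by omega)
    rw [dist_comm] at e3
    linarith
  have h1 : (prs u N r).card ≤ (prs v N (r + 2 * δ)).card + (Z.card + Z.card) :=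
    (card_le_card hsub).trans ((card_union_le _ _).trans (Nat.add_le_add_left
      ((card_union_le _ _).trans (Nat.add_le_add_left card_image_le _)) _))
  have h2 : ((prs u N r).card : ℝ) ≤ (prs v N (r + 2 * δ)).card + (Z.card + Z.card) := by
    exact_mod_cast h1
  have e : (K : ℝ) + 1 + √((prs w N (2 * r + 2 * δ)).card) = K + B := by rw [hB]; ring
  rw [e]
  linarith

lemma exists_K : ∃ K : ℕ → ℕ, Tendsto K atTop atTop ∧ (∀ N, N ≤ K N ^ 4) ∧
    Tendsto (fun N : ℕ => (K N : ℝ) ^ 2 / N) atTop (𝓝 0) := by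
  refine ⟨fun N => N.sqrt.sqrt + 1, (tendsto_add_atTop_nat 1).comp
    (tendsto_sqrt_nat.comp tendsto_sqrt_nat), fun N => ?_, ?_⟩
  · have b1 : N < (N.sqrt + 1) ^ 2 := Nat.lt_succ_sqrt' N
    have b2 : N.sqrt < (N.sqrt.sqrt + 1) ^ 2 := Nat.lt_succ_sqrt' _
    calc N ≤ (N.sqrt + 1) ^ 2 := b1.le
      _ ≤ ((N.sqrt.sqrt + 1) ^ 2) ^ 2 := Nat.pow_le_pow_left b2 2
      _ = _ := by ring
  · have h1 : Tendsto (fun N : ℕ => (4 : ℝ) / (N.sqrt : ℝ)) atTop (𝓝 0) :=
      (tendsto_const_div_atTop_nhds_zero_nat 4).comp tendsto_sqrt_nat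
    refine squeeze_zero' (Eventually.of_forall fun N => by positivity) ?_ h1
    filter_upwards [eventually_gt_atTop 0] with N hN
    have hm0 : 0 < N.sqrt := Nat.sqrt_pos.2 hN
    have hm1 : 0 < N.sqrt.sqrt := Nat.sqrt_pos.2 hm0
    have b1 : N.sqrt ^ 2 ≤ N := Nat.sqrt_le' N
    have b2 : N.sqrt.sqrt ^ 2 ≤ N.sqrt := Nat.sqrt_le' _
    have b3 : (N.sqrt.sqrt + 1) ^ 2 * N.sqrt ≤ 4 * N := by
      have : (N.sqrt.sqrt + 1) ^ 2 ≤ 4 * N.sqrt := by nlinarith
      nlinarith
    rw [div_le_div_iff₀ (by exact_mod_cast hN) (by exact_mod_cast hm0)]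
    exact_mod_cast b3

/-- small perturbations keep the Poissonian property -/
lemma IsPPC.pert {x y : ℕ → X} (hx : IsPPC x) (h : ∀ n, dist (x n) (y n) ≤ 1 / ((n : ℝ) + 1) ^ 5) :
    IsPPC y := by
  obtain ⟨K, hK1, hK2, hK3⟩ := exists_K
  have hδ : ∀ N n, K N ≤ n → dist (x n) (y n) ≤ 1 / ((K N : ℝ) + 1) ^ 5 := by
    intro N n hn
    refine (h n).trans ?_
    have : (K N : ℝ) ≤ n := by exact_mod_cast hn
    gcongr
  have hδ0 : ∀ N : ℕ, (0 : ℝ) ≤ 1 / ((K N : ℝ) + 1) ^ 5 := fun N => by positivity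
  have hδ1 : ∀ ε : ℝ, 0 < ε → ∀ᶠ N : ℕ in atTop, 2 * (1 / ((K N : ℝ) + 1) ^ 5) ≤ ε / N := by
    intro ε hε
    have h1 : Tendsto (fun N => (2 : ℝ) / (K N : ℝ)) atTop (𝓝 0) :=
      (tendsto_const_div_atTop_nhds_zero_nat 2).comp hK1
    filter_upwards [h1.eventually (gt_mem_nhds hε), hK1.eventually_gt_atTop 0,
      eventually_gt_atTop 0] with N a1 a2 a3
    have b1 : (0 : ℝ) < K N := by exact_mod_cast a2
    have b2 : (0 : ℝ) < N := by exact_mod_cast a3
    have b3 : (N : ℝ) ≤ (K N : ℝ) ^ 4 := by exact_mod_cast hK2 N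
    rw [div_lt_iff₀ b1] at a1
    rw [mul_one_div, div_le_div_iff₀ (by positivity) b2]
    have b4 : (K N : ℝ) ^ 5 ≤ ((K N : ℝ) + 1) ^ 5 := by gcongr; linarith
    calc 2 * (N : ℝ) ≤ (ε * K N) * (K N : ℝ) ^ 4 := by gcongr
      _ = ε * (K N : ℝ) ^ 5 := by ring
      _ ≤ _ := by gcongr
  have herr : ∀ t : ℝ, 0 < t → Tendsto (fun N : ℕ =>
      2 * ((K N : ℝ) * (K N + 1 + √((prs x N (t / N)).card))) / N) atTop (𝓝 0) := by
    intro t ht
    have h1 := (hK3.mul (hx t ht)).sqrt
    rw [zero_mul, Real.sqrt_zero] at h1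
    have h2 := ((hK3.const_mul 2).add h1).const_mul 2
    simp only [mul_zero, add_zero] at h2
    refine squeeze_zero' (Eventually.of_forall fun N => by positivity) ?_ h2
    filter_upwards [hK1.eventually_gt_atTop 0, eventually_gt_atTop 0] with N a2 a3
    have b1 : (1 : ℝ) ≤ K N := by exact_mod_cast a2
    have b2 : (0 : ℝ) < N := by exact_mod_cast a3
    have e : √((K N : ℝ) ^ 2 / N * (((prs x N (t / N)).card : ℝ) / N)) =
        K N * √((prs x N (t / N)).card) / N := by
      rw [div_mul_div_comm, Real.sqrt_div' _ (by positivity), Real.sqrt_mul_self b2.le,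
        Real.sqrt_mul (by positivity), Real.sqrt_sq (by positivity)]
    rw [e, ← mul_div_assoc, ← add_div, ← mul_div_assoc]
    gcongr
    nlinarith
  intro s hs
  rw [tendsto_order]
  constructor
  · intro L hL
    obtain ⟨q, hq1, hq2⟩ := exists_between (max_lt (show L / 2 < s by linarith) hs)
    have hq0 : (0 : ℝ) < q := lt_of_le_of_lt (le_max_right _ _) hq1
    have hqL : L / 2 < q := lt_of_le_of_lt (le_max_left _ _) hq1
    have h1 := (hx q hq0).sub (herr (2 * s) (by linarith))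
    rw [sub_zero] at h1
    filter_upwards [h1.eventually (lt_mem_nhds (show L < 2 * q by linarith)),
      hδ1 (s - q) (by linarith), eventually_gt_atTop 0] with N a1 a2 a3
    have b2 : (0 : ℝ) < N := by exact_mod_cast a3
    have c1 := pert_le x y x N (K N) (q / N) _ (hδ N) (fun n _ => by rw [dist_self]; exact hδ0 N)
    have c0 : (s - q) / N = s / N - q / N := sub_div _ _ _
    have c2 := prs_mono y (le_refl N) (show q / N + 2 * (1 / ((K N : ℝ) + 1) ^ 5) ≤ s / N by linarith)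
    have c4 : q / N ≤ s / N := by gcongr
    have c3 := prs_mono x (le_refl N)
      (show 2 * (q / N) + 2 * (1 / ((K N : ℝ) + 1) ^ 5) ≤ 2 * s / N by
        rw [mul_div_assoc]; linarith)
    refine a1.trans_le ?_
    rw [← sub_div]
    gcongr
    have c5 : 2 * ((K N : ℝ) * (K N + 1 + √((prs x N (2 * (q / N) + 2 * (1 / ((K N : ℝ) + 1) ^ 5))).card)))
        ≤ 2 * ((K N : ℝ) * (K N + 1 + √((prs x N (2 * s / N)).card))) := by gcongr
    linarith
  · intro L hL
    obtain ⟨q, hq1, hq2⟩ := exists_between (show s < L / 2 by linarith)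
    have hq0 : (0 : ℝ) < q := by linarith
    have h1 := (hx q hq0).add (herr (2 * q) (by linarith))
    rw [add_zero] at h1
    filter_upwards [h1.eventually (gt_mem_nhds (show 2 * q < L by linarith)),
      hδ1 (q - s) (by linarith), eventually_gt_atTop 0] with N a1 a2 a3
    have b2 : (0 : ℝ) < N := by exact_mod_cast a3
    have hδ' : ∀ n, K N ≤ n → dist (y n) (x n) ≤ 1 / ((K N : ℝ) + 1) ^ 5 := fun n hn => by
      rw [dist_comm]; exact hδ N n hn
    have c1 := pert_le y x x N (K N) (s / N) _ hδ' hδ'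
    have c0 : (q - s) / N = q / N - s / N := sub_div _ _ _
    have c2 := prs_mono x (le_refl N) (show s / N + 2 * (1 / ((K N : ℝ) + 1) ^ 5) ≤ q / N by linarith)
    have c4 : s / N ≤ q / N := by gcongr
    have c3 := prs_mono x (le_refl N)
      (show 2 * (s / N) + 2 * (1 / ((K N : ℝ) + 1) ^ 5) ≤ 2 * q / N by
        rw [mul_div_assoc]; linarith)
    refine lt_of_le_of_lt ?_ a1
    rw [← add_div]
    gcongr
    have c5 : 2 * ((K N : ℝ) * (K N + 1 + √((prs x N (2 * (s / N) + 2 * (1 / ((K N : ℝ) + 1) ^ 5))).card)))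
        ≤ 2 * ((K N : ℝ) * (K N + 1 + √((prs x N (2 * q / N)).card))) := by gcongr
    linarith

end Pool.Agent.H58.PPC
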