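import Mathlib
import Pool.Agent.H58.PPCBase

set_option autoImplicit false

namespace Pool.Agent.H58.PPC
open Filter Topology Finset MeasureTheory ProbabilityTheory
open scoped Classical

instance probUnit : IsProbabilityMeasure (volume : Measure UnitAddCircle) :=
  ⟨UnitAddCircle.measure_univ⟩

/-- indicator of the ball of radius `r` -/
noncomputable def ind (r : ℝ) (z : UnitAddCircle) : ℝ := if ‖z‖ < r then 1 else 0

lemma ind_meas (r : ℝ) : Measurable (ind r) :=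
  Measurable.ite (measurableSet_lt (by fun_prop) measurable_const) measurable_const measurable_const

lemma ind_nonneg (r : ℝ) (z : UnitAddCircle) : 0 ≤ ind r z := by unfold ind; split_ifs <;> norm_num
lemma ind_le (r : ℝ) (z : UnitAddCircle) : ind r z ≤ 1 := by unfold ind; split_ifs <;> norm_num
lemma ind_neg (r : ℝ) (z : UnitAddCircle) : ind r (-z) = ind r z := by simp [ind]

lemma ind_integral (r : ℝ) (h0 : 0 ≤ r) (h1 : r ≤ 1 / 2) : ∫ z, ind r z = 2 * r := by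
  have e : ind r = Set.indicator (Metric.ball 0 r) (fun _ => (1 : ℝ)) := by
    ext z; simp [ind, Set.indicator_apply]
  rw [e, integral_indicator measurableSet_ball]
  simp only [integral_const, MeasurableSet.univ, measureReal_restrict_apply, Set.univ_inter,
    smul_eq_mul, mul_one]
  rw [Measure.real, ← measure_congr AddCircle.closedBall_ae_eq_ball, AddCircle.volume_closedBall,
    min_eq_right (by linarith), ENNReal.toReal_ofReal (by linarith)]

section
variable {Ω : Type*} [MeasurableSpace Ω] {P : Measure Ω} [IsProbabilityMeasure P]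

lemma key_indep {E : Type*} [MeasurableSpace E] (Z : Ω → UnitAddCircle) (Y : Ω → E)
    (hZ : Measurable Z) (hY : Measurable Y) (hl : P.map Z = volume) (hi : IndepFun Z Y P)
    (φ : UnitAddCircle → ℝ) (hφ : Measurable φ) (hφb : ∀ z, |φ z| ≤ 1) (t : E → UnitAddCircle)
    (ht : Measurable t) (ψ : E → ℝ) (hψ : Measurable ψ) (hψb : ∀ y, |ψ y| ≤ 1) :
    ∫ ω, φ (Z ω + t (Y ω)) * ψ (Y ω) ∂P = (∫ z, φ z) * ∫ ω, ψ (Y ω) ∂P := by
  have hm := (indepFun_iff_map_prod_eq_prod_map_map hZ.aemeasurable hY.aemeasurable).1 hi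
  have hF : Measurable (fun p : UnitAddCircle × E => φ (p.1 + t p.2) * ψ p.2) := by fun_prop
  have : IsProbabilityMeasure (P.map Y) := Measure.isProbabilityMeasure_map hY.aemeasurable
  have h1 : ∫ ω, φ (Z ω + t (Y ω)) * ψ (Y ω) ∂P =
      ∫ p, φ (p.1 + t p.2) * ψ p.2 ∂(P.map (fun ω => (Z ω, Y ω))) := by
    rw [integral_map (by fun_prop) hF.aestronglyMeasurable]
  rw [h1, hm, hl, integral_prod_symm]
  · simp only [integral_mul_const, integral_add_right_eq_self]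
    rw [integral_const_mul, integral_map hY.aemeasurable hψ.aestronglyMeasurable]
  · refine Integrable.of_bound hF.aestronglyMeasurable 1 (ae_of_all _ fun p => ?_)
    rw [Real.norm_eq_abs, abs_mul]
    exact mul_le_one₀ (hφb _) (abs_nonneg _) (hψb _)

lemma key_three (X : ℕ → Ω → UnitAddCircle) (hm : ∀ i, Measurable (X i))
    (hl : ∀ i, P.map (X i) = volume) (hi : iIndepFun X P) (u b c d : ℕ) (h1 : u ≠ b) (h2 : u ≠ c)
    (h3 : u ≠ d) (φ : UnitAddCircle → ℝ) (hφ : Measurable φ) (hφb : ∀ z, |φ z| ≤ 1)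
    (ψ : UnitAddCircle → ℝ) (hψ : Measurable ψ) (hψb : ∀ z, |ψ z| ≤ 1) (c0 c1 : UnitAddCircle) :
    ∫ ω, φ (X u ω - X b ω + c0) * ψ (X c ω - X d ω + c1) ∂P =
      (∫ z, φ z) * ∫ ω, ψ (X c ω - X d ω + c1) ∂P := by
  have hd : Disjoint ({u} : Finset ℕ) {b, c, d} := by simp [h1, h2, h3]
  have hu : u ∈ ({u} : Finset ℕ) := by simp
  have hb : b ∈ ({b, c, d} : Finset ℕ) := by simp
  have hc : c ∈ ({b, c, d} : Finset ℕ) := by simp
  have hd' : d ∈ ({b, c, d} : Finset ℕ) := by simp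
  have m1 : Measurable (fun f : (({u} : Finset ℕ) → UnitAddCircle) => f ⟨u, hu⟩) :=
    measurable_pi_apply _
  have m2 : Measurable (fun f : (({b, c, d} : Finset ℕ) → UnitAddCircle) =>
      (f ⟨b, hb⟩, f ⟨c, hc⟩, f ⟨d, hd'⟩)) :=
    (measurable_pi_apply _).prodMk ((measurable_pi_apply _).prodMk (measurable_pi_apply _))
  have h4 := (hi.indepFun_finset {u} {b, c, d} hd hm).comp m1 m2
  have h5 : IndepFun (X u) (fun ω => (X b ω, X c ω, X d ω)) P := h4
  have := key_indep (X u) (fun ω => (X b ω, X c ω, X d ω)) (hm u) (by fun_prop) (hl u) h5 φ hφ hφb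
    (fun y => -y.1 + c0) (by fun_prop) (fun y => ψ (y.2.1 - y.2.2 + c1)) (by fun_prop)
    (fun y => hψb _)
  simp only at this
  rw [← this]
  congr 1
  ext ω
  congr 2
  abel

omit [IsProbabilityMeasure P] in
lemma ae_tendsto_zero (f : ℕ → Ω → ℝ) (hf : ∀ m, Measurable (f m))
    (hi : ∀ m, Integrable (fun ω => f m ω ^ 2) P) (b : ℕ → ℝ) (hb : Summable b)
    (h : ∀ m, ∫ ω, f m ω ^ 2 ∂P ≤ b m) : ∀ᵐ ω ∂P, Tendsto (fun m => f m ω) atTop (𝓝 0) := by
  have h0 : ∀ m, 0 ≤ b m := fun m => (integral_nonneg fun ω => sq_nonneg _).trans (h m)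
  have h1 : ∫⁻ ω, ∑' m, ENNReal.ofReal (f m ω ^ 2) ∂P ≠ ⊤ := by
    rw [lintegral_tsum (fun m => by fun_prop)]
    refine ne_top_of_le_ne_top (b := ∑' m, ENNReal.ofReal (b m)) ?_ ?_
    · rw [← ENNReal.ofReal_tsum_of_nonneg h0 hb]; exact ENNReal.ofReal_ne_top
    · refine ENNReal.tsum_le_tsum fun m => ?_
      rw [← ofReal_integral_eq_lintegral_ofReal (hi m) (ae_of_all _ fun ω => sq_nonneg _)]
      exact ENNReal.ofReal_le_ofReal (h m)
  filter_upwards [ae_lt_top (by fun_prop) h1] with ω hω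
  have h2 := ENNReal.tendsto_atTop_zero_of_tsum_ne_top hω.ne
  have h3 := (ENNReal.tendsto_toReal ENNReal.zero_ne_top).comp h2
  simp only [Function.comp_def, ENNReal.toReal_ofReal (sq_nonneg _), ENNReal.toReal_zero] at h3
  have h4 := h3.sqrt
  simp only [Real.sqrt_sq_eq_abs, Real.sqrt_zero] at h4
  exact (tendsto_zero_iff_abs_tendsto_zero _).2 h4

end

/-- pairs with different leaders -/
def dif (ℓ : ℕ → ℕ) (N : ℕ) : Finset (ℕ × ℕ) :=
  (range N ×ˢ range N).filter (fun p => ℓ p.1 ≠ ℓ p.2)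

lemma count_same (ℓ : ℕ → ℕ) (x : ℕ → UnitAddCircle) (N : ℕ) (r R : ℝ)
    (hs : ∀ k < N, ∀ l < N, k ≠ l → ℓ k = ℓ l → 2 * r ≤ ‖x k - x l‖) (g g' : ℕ)
    (hR : (((range N).filter (fun k => ℓ k = g)).card : ℝ) ≤ R ∨
      (((range N).filter (fun k => ℓ k = g')).card : ℝ) ≤ R) :
    ∑ p ∈ dif ℓ N, (if ℓ p.1 = g ∧ ℓ p.2 = g' then ind r (x p.1 - x p.2) else 0) ≤ R := by
  set T := (dif ℓ N).filter (fun p => (ℓ p.1 = g ∧ ℓ p.2 = g') ∧ ‖x p.1 - x p.2‖ < r) with hT
  have e : ∑ p ∈ dif ℓ N, (if ℓ p.1 = g ∧ ℓ p.2 = g' then ind r (x p.1 - x p.2) else 0) = T.card := by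
    rw [hT, card_filter]
    push_cast
    refine sum_congr rfl fun p _ => ?_
    unfold ind
    by_cases h1 : ℓ p.1 = g ∧ ℓ p.2 = g' <;> by_cases h2 : ‖x p.1 - x p.2‖ < r <;> simp [h1, h2]
  rw [e]
  have hm : ∀ p ∈ T, p.1 < N ∧ p.2 < N ∧ ℓ p.1 = g ∧ ℓ p.2 = g' ∧ ‖x p.1 - x p.2‖ < r := by
    intro p hp
    simp only [hT, dif, mem_filter, mem_product, mem_range] at hp
    exact ⟨hp.1.1.1, hp.1.1.2, hp.2.1.1, hp.2.1.2, hp.2.2⟩
  rcases hR with hR | hR
  · refine le_trans ?_ hR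
    have : T.card ≤ ((range N).filter (fun k => ℓ k = g)).card := by
      refine card_le_card_of_injOn Prod.fst (fun p hp => ?_) (fun p hp q hq hpq => ?_)
      · have := hm p hp
        simp [this.1, this.2.2.1]
      · obtain ⟨a1, a2, a3, a4, a5⟩ := hm p hp
        obtain ⟨b1, b2, b3, b4, b5⟩ := hm q hq
        refine Prod.ext hpq ?_
        by_contra hne
        have h1 := hs _ a2 _ b2 hne (a4.trans b4.symm)
        have h2 : x p.2 - x q.2 = (x q.1 - x q.2) - (x p.1 - x p.2) := by rw [hpq]; abel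
        have h3 := norm_sub_le (x q.1 - x q.2) (x p.1 - x p.2)
        rw [h2] at h1
        linarith
    exact_mod_cast this
  · refine le_trans ?_ hR
    have : T.card ≤ ((range N).filter (fun k => ℓ k = g')).card := by
      refine card_le_card_of_injOn Prod.snd (fun p hp => ?_) (fun p hp q hq hpq => ?_)
      · have := hm p hp
        simp [this.2.1, this.2.2.2.1]
      · obtain ⟨a1, a2, a3, a4, a5⟩ := hm p hp
        obtain ⟨b1, b2, b3, b4, b5⟩ := hm q hq
        refine Prod.ext ?_ hpq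
        by_contra hne
        have h1 := hs _ a1 _ b1 hne (a3.trans b3.symm)
        have h2 : x p.1 - x q.1 = (x p.1 - x p.2) - (x q.1 - x q.2) := by rw [hpq]; abel
        have h3 := norm_sub_le (x p.1 - x p.2) (x q.1 - x q.2)
        rw [h2] at h1
        linarith
    exact_mod_cast this

section
variable {Ω : Type*} [MeasurableSpace Ω] {P : Measure Ω} [IsProbabilityMeasure P]

lemma var_bound (X : ℕ → Ω → UnitAddCircle) (hm : ∀ i, Measurable (X i))
    (hl : ∀ i, P.map (X i) = volume) (hi : iIndepFun X P) (ℓ : ℕ → ℕ) (c : ℕ → UnitAddCircle)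
    (N : ℕ) (r R : ℝ) (h0 : 0 ≤ r) (h1 : r ≤ 1 / 2) (hR0 : 0 ≤ R)
    (hs : ∀ k < N, ∀ l < N, k ≠ l → ℓ k = ℓ l → 2 * r ≤ ‖c k - c l‖)
    (hR : ∀ g g', g ≠ g' → (((range N).filter (fun k => ℓ k = g)).card : ℝ) ≤ R ∨
      (((range N).filter (fun k => ℓ k = g')).card : ℝ) ≤ R) :
    ∫ ω, (∑ p ∈ dif ℓ N, (ind r (X (ℓ p.1) ω - X (ℓ p.2) ω + (c p.1 - c p.2)) - 2 * r)) ^ 2 ∂P
      ≤ (N : ℝ) ^ 2 * (2 * R * (2 * r)) := by
  set I : ℕ × ℕ → Ω → ℝ := fun p ω => ind r (X (ℓ p.1) ω - X (ℓ p.2) ω + (c p.1 - c p.2)) with hI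
  have hIm : ∀ p, Measurable (I p) := fun p => (ind_meas r).comp (by fun_prop)
  have hI0 : ∀ p ω, 0 ≤ I p ω := fun p ω => ind_nonneg _ _
  have hI1 : ∀ p ω, I p ω ≤ 1 := fun p ω => ind_le _ _
  have hφm : Measurable (fun z => ind r z - 2 * r) := (ind_meas r).sub measurable_const
  have hφb : ∀ z, |ind r z - 2 * r| ≤ 1 := fun z => by
    rw [abs_le]; constructor <;> linarith [ind_nonneg r z, ind_le r z]
  have hindb : ∀ z, |ind r z| ≤ 1 := fun z => by
    rw [abs_le]; constructor <;> linarith [ind_nonneg r z, ind_le r z]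
  have hφ0 : ∫ z, (ind r z - 2 * r) = 0 := by
    rw [integral_sub (Integrable.of_bound (ind_meas r).aestronglyMeasurable 1
      (ae_of_all _ fun z => hindb z)) (integrable_const _), ind_integral r h0 h1]
    simp
  have bdd : ∀ (f : Ω → ℝ) (C : ℝ), Measurable f → (∀ ω, |f ω| ≤ C) → Integrable f P :=
    fun f C a b => Integrable.of_bound a.aestronglyMeasurable C (ae_of_all _ b)
  have hIi : ∀ p, Integrable (I p) P := fun p => bdd _ 1 (hIm p) (fun ω => hindb _)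
  have hIIi : ∀ p q, Integrable (fun ω => I p ω * I q ω) P := fun p q =>
    bdd _ 1 ((hIm p).mul (hIm q)) (fun ω => by
      rw [abs_mul]; exact mul_le_one₀ (hindb _) (abs_nonneg _) (hindb _))
  have hFFi : ∀ p q, Integrable (fun ω => (I p ω - 2 * r) * (I q ω - 2 * r)) P := fun p q =>
    bdd _ 1 (((hIm p).sub measurable_const).mul ((hIm q).sub measurable_const)) (fun ω => by
      rw [abs_mul]; exact mul_le_one₀ (hφb _) (abs_nonneg _) (hφb _))
  have hne : ∀ p ∈ dif ℓ N, ℓ p.1 ≠ ℓ p.2 := fun p hp => (mem_filter.1 hp).2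
  have hE : ∀ p ∈ dif ℓ N, ∫ ω, I p ω ∂P = 2 * r := by
    intro p hp
    have := key_three X hm hl hi (ℓ p.1) (ℓ p.2) (ℓ p.2) (ℓ p.2) (hne p hp) (hne p hp) (hne p hp)
      (ind r) (ind_meas r) hindb (fun _ => 1) measurable_const (by simp) (c p.1 - c p.2) 0
    simpa [ind_integral r h0 h1] using this
  set W : ℕ × ℕ → ℕ × ℕ → Ω → ℝ := fun p q ω => I p ω *
    ((if ℓ q.1 = ℓ p.1 ∧ ℓ q.2 = ℓ p.2 then I q ω else 0) +
      (if ℓ q.1 = ℓ p.2 ∧ ℓ q.2 = ℓ p.1 then I q ω else 0)) with hW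
  have hWi : ∀ p q, Integrable (W p q) P := by
    intro p q
    simp only [hW, mul_add]
    refine Integrable.add ?_ ?_ <;> split_ifs <;> simp [hIIi]
  have hcov : ∀ p ∈ dif ℓ N, ∀ q ∈ dif ℓ N,
      ∫ ω, (I p ω - 2 * r) * (I q ω - 2 * r) ∂P ≤ ∫ ω, W p q ω ∂P := by
    intro p hp q hq
    have hW0 : ∀ ω, 0 ≤ W p q ω := fun ω => by
      simp only [hW]
      refine mul_nonneg (hI0 _ _) (add_nonneg ?_ ?_) <;> split_ifs <;> simp [hI0]
    by_cases hA : ℓ p.1 ≠ ℓ q.1 ∧ ℓ p.1 ≠ ℓ q.2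
    · have := key_three X hm hl hi (ℓ p.1) (ℓ p.2) (ℓ q.1) (ℓ q.2) (hne p hp) hA.1 hA.2
        _ hφm hφb _ hφm hφb (c p.1 - c p.2) (c q.1 - c q.2)
      rw [hφ0, zero_mul] at this
      exact this.le.trans (integral_nonneg hW0)
    by_cases hB : ℓ p.2 ≠ ℓ q.1 ∧ ℓ p.2 ≠ ℓ q.2
    · have := key_three X hm hl hi (ℓ p.2) (ℓ p.1) (ℓ q.1) (ℓ q.2) (hne p hp).symm hB.1 hB.2
        _ hφm hφb _ hφm hφb (c p.2 - c p.1) (c q.1 - c q.2)
      rw [hφ0, zero_mul] at this
      refine le_trans (le_of_eq ?_) (this.le.trans (integral_nonneg hW0))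
      congr 1
      ext ω
      simp only [hI]
      rw [← ind_neg r (X (ℓ p.2) ω - X (ℓ p.1) ω + (c p.2 - c p.1))]
      congr 3
      abel
    have hC : (ℓ q.1 = ℓ p.1 ∧ ℓ q.2 = ℓ p.2) ∨ (ℓ q.1 = ℓ p.2 ∧ ℓ q.2 = ℓ p.1) := by
      have := hne p hp
      have := hne q hq
      omega
    have e1 : ∫ ω, (I p ω - 2 * r) * (I q ω - 2 * r) ∂P = ∫ ω, I p ω * I q ω ∂P - 4 * r ^ 2 := by
      have : (fun ω => (I p ω - 2 * r) * (I q ω - 2 * r)) =
          fun ω => (I p ω * I q ω - 2 * r * I p ω) - (2 * r * I q ω - 4 * r ^ 2) := by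
        ext ω; ring
      have i1 : Integrable (fun ω => I p ω * I q ω - 2 * r * I p ω) P :=
        (hIIi p q).sub ((hIi p).const_mul _)
      have i2 : Integrable (fun ω => 2 * r * I q ω - 4 * r ^ 2) P :=
        ((hIi q).const_mul _).sub (integrable_const _)
      rw [this, integral_sub i1 i2,
        integral_sub (hIIi p q) ((hIi p).const_mul _),
        integral_sub ((hIi q).const_mul _) (integrable_const _), integral_const_mul,
        integral_const_mul, hE p hp, hE q hq]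
      simp
      ring
    have e2 : ∫ ω, I p ω * I q ω ∂P ≤ ∫ ω, W p q ω ∂P := by
      refine integral_mono (hIIi p q) (hWi p q) fun ω => ?_
      simp only [hW]
      refine mul_le_mul_of_nonneg_left ?_ (hI0 _ _)
      have := hI0 q ω
      rcases hC with hC | hC <;> rw [if_pos hC] <;> split_ifs <;> linarith
    nlinarith [sq_nonneg r]
  have hWs : ∀ p ∈ dif ℓ N, ∀ ω, ∑ q ∈ dif ℓ N, W p q ω ≤ 2 * R * I p ω := by
    intro p hp ω
    simp only [hW]
    rw [← mul_sum, sum_add_distrib, mul_comm (2 * R)]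
    refine mul_le_mul_of_nonneg_left ?_ (hI0 _ _)
    have hs' : ∀ k < N, ∀ l < N, k ≠ l → ℓ k = ℓ l →
        2 * r ≤ ‖(X (ℓ k) ω + c k) - (X (ℓ l) ω + c l)‖ := by
      intro k hk l hl' hkl he
      rw [he, add_sub_add_left_eq_sub]
      exact hs k hk l hl' hkl he
    have a1 := count_same ℓ (fun k => X (ℓ k) ω + c k) N r R hs' _ _ (hR _ _ (hne p hp))
    have a2 := count_same ℓ (fun k => X (ℓ k) ω + c k) N r R hs' _ _ (hR _ _ (hne p hp).symm)
    have e : ∀ q : ℕ × ℕ, I q ω = ind r ((X (ℓ q.1) ω + c q.1) - (X (ℓ q.2) ω + c q.2)) := by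
      intro q
      simp only [hI]
      congr 1
      abel
    simp only [e]
    linarith
  have hcard : ((dif ℓ N).card : ℝ) ≤ (N : ℝ) ^ 2 := by
    have : (dif ℓ N).card ≤ N ^ 2 := (card_filter_le _ _).trans (by simp [sq])
    exact_mod_cast this
  calc ∫ ω, (∑ p ∈ dif ℓ N, (I p ω - 2 * r)) ^ 2 ∂P
      = ∫ ω, ∑ p ∈ dif ℓ N, ∑ q ∈ dif ℓ N, (I p ω - 2 * r) * (I q ω - 2 * r) ∂P := by
        simp only [sq, sum_mul_sum]
    _ = ∑ p ∈ dif ℓ N, ∑ q ∈ dif ℓ N, ∫ ω, (I p ω - 2 * r) * (I q ω - 2 * r) ∂P := by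
        rw [integral_finsetSum _ (fun p _ => integrable_finsetSum _ (fun q _ => hFFi p q))]
        exact sum_congr rfl fun p _ => integral_finsetSum _ (fun q _ => hFFi p q)
    _ ≤ ∑ p ∈ dif ℓ N, ∑ q ∈ dif ℓ N, ∫ ω, W p q ω ∂P :=
        sum_le_sum fun p hp => sum_le_sum fun q hq => hcov p hp q hq
    _ = ∑ p ∈ dif ℓ N, ∫ ω, ∑ q ∈ dif ℓ N, W p q ω ∂P :=
        sum_congr rfl fun p _ => (integral_finsetSum _ (fun q _ => hWi p q)).symm
    _ ≤ ∑ p ∈ dif ℓ N, ∫ ω, 2 * R * I p ω ∂P :=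
        sum_le_sum fun p hp => integral_mono (integrable_finsetSum _ (fun q _ => hWi p q))
          ((hIi p).const_mul _) (hWs p hp)
    _ = ∑ p ∈ dif ℓ N, 2 * R * (2 * r) :=
        sum_congr rfl fun p hp => by rw [integral_const_mul, hE p hp]
    _ = (dif ℓ N).card * (2 * R * (2 * r)) := by simp
    _ ≤ _ := by gcongr

end

theorem exists_ppc (ℓ : ℕ → ℕ) (c : ℕ → UnitAddCircle) (R : ℕ → ℝ) (hR0 : ∀ N, 0 ≤ R N)
    (H1 : ∀ s : ℝ, 0 < s → ∀ᶠ N : ℕ in atTop, ∀ k < N, ∀ l < N, k ≠ l → ℓ k = ℓ l →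
      s / N ≤ ‖c k - c l‖)
    (H2 : Tendsto (fun N : ℕ => ((dif ℓ N).card : ℝ) / (N : ℝ) ^ 2) atTop (𝓝 1))
    (H3 : ∀ N g g', g ≠ g' → (((range N).filter (fun k => ℓ k = g)).card : ℝ) ≤ R N ∨
      (((range N).filter (fun k => ℓ k = g')).card : ℝ) ≤ R N)
    (H4 : Summable (fun m : ℕ => R (m ^ 2) / (m : ℝ) ^ 2)) :
    ∃ ω : ℕ → UnitAddCircle, IsPPC (fun n => ω (ℓ n) + c n) := by
  obtain ⟨Ω, mΩ, P, X, hm, hl, hi, hP⟩ := exists_iid ℕ (volume : Measure UnitAddCircle)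
  have hl' : ∀ i, P.map (X i) = volume := fun i => (hl i).map_eq
  have hsq : Tendsto (fun m : ℕ => m ^ 2) atTop atTop := tendsto_pow_atTop two_ne_zero
  have main : ∀ s : ℝ, 0 < s → ∀ᵐ ω ∂P, Tendsto (fun m : ℕ =>
      ((prs (fun n => X (ℓ n) ω + c n) (m ^ 2) (s / ((m ^ 2 : ℕ) : ℝ))).card : ℝ)
      / ((m ^ 2 : ℕ) : ℝ)) atTop (𝓝 (2 * s)) := by
    intro s hs
    have h1 : ∀ᶠ N : ℕ in atTop, s / N ≤ 1 / 2 :=
      (tendsto_const_div_atTop_nhds_zero_nat s).eventually (ge_mem_nhds (by norm_num))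
    obtain ⟨m0, hm0⟩ := eventually_atTop.1 (hsq.eventually
      ((H1 (2 * s) (by linarith)).and (h1.and (eventually_gt_atTop 0))))
    set Z : ℕ → Ω → ℝ := fun N ω => (∑ p ∈ dif ℓ N,
      (ind (s / N) (X (ℓ p.1) ω - X (ℓ p.2) ω + (c p.1 - c p.2)) - 2 * (s / N))) / N with hZ
    have hZm : ∀ N, Measurable (Z N) := fun N => by
      refine Measurable.div_const (Finset.measurable_sum _ fun p _ => ?_) _
      exact ((ind_meas _).comp (by fun_prop)).sub measurable_const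
    have hZi : ∀ N, Integrable (fun ω => Z N ω ^ 2) P := by
      intro N
      refine Integrable.of_bound ((hZm N).pow_const 2).aestronglyMeasurable
        ((((dif ℓ N).card * (1 + 2 * (s / N))) / N) ^ 2) (ae_of_all _ fun ω => ?_)
      rw [Real.norm_eq_abs, abs_pow]
      refine pow_le_pow_left₀ (abs_nonneg _) ?_ 2
      simp only [hZ]
      rw [abs_div, Nat.abs_cast]
      refine div_le_div_of_nonneg_right ?_ (Nat.cast_nonneg _)
      refine (abs_sum_le_sum_abs _ _).trans ?_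
      rw [← nsmul_eq_mul]
      refine sum_le_card_nsmul _ _ _ fun p _ => ?_
      have b0 : 0 ≤ s / N := by positivity
      rw [abs_le]
      constructor <;> linarith [ind_nonneg (s / N) (X (ℓ p.1) ω - X (ℓ p.2) ω + (c p.1 - c p.2)),
        ind_le (s / N) (X (ℓ p.1) ω - X (ℓ p.2) ω + (c p.1 - c p.2))]
    have h2 := ae_tendsto_zero (P := P) (fun m => Z ((m + m0) ^ 2)) (fun m => hZm _) (fun m => hZi _)
      (fun m => 4 * s * (R ((m + m0) ^ 2) / ((m + m0 : ℕ) : ℝ) ^ 2))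
      (((summable_nat_add_iff m0).2 H4).mul_left _) (by
        intro m
        obtain ⟨a1, a2, a3⟩ := hm0 (m + m0) (by omega)
        set N := (m + m0) ^ 2 with hN
        have hN0 : (0 : ℝ) < N := by exact_mod_cast a3
        have := var_bound X hm hl' hi ℓ c N (s / N) (R N) (by positivity) a2 (hR0 N)
          (fun k hk l hl hkl he => by rw [← mul_div_assoc]; exact a1 k hk l hl hkl he) (H3 N)
        simp only [hZ, div_pow]
        rw [integral_div, div_le_iff₀ (by positivity)]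
        refine this.trans (le_of_eq ?_)
        have e : (((m + m0 : ℕ) : ℝ)) ^ 2 = N := by rw [hN]; push_cast; ring
        rw [e]
        field_simp
        ring)
    filter_upwards [h2] with ω hω
    rw [tendsto_add_atTop_iff_nat (f := fun m => Z (m ^ 2) ω) m0] at hω
    have h3 := hω.add ((H2.comp hsq).const_mul (2 * s))
    rw [zero_add, mul_one] at h3
    refine h3.congr' ?_
    filter_upwards [eventually_ge_atTop m0] with m hm'
    obtain ⟨a1, a2, a3⟩ := hm0 m hm'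
    simp only [Function.comp]
    set N := m ^ 2 with hN
    have hN0 : (0 : ℝ) < N := by exact_mod_cast a3
    have e1 : prs (fun n => X (ℓ n) ω + c n) N (s / N) = (dif ℓ N).filter
        (fun p => ‖X (ℓ p.1) ω - X (ℓ p.2) ω + (c p.1 - c p.2)‖ < s / N) := by
      ext p
      have e : X (ℓ p.1) ω - X (ℓ p.2) ω + (c p.1 - c p.2) =
        (X (ℓ p.1) ω + c p.1) - (X (ℓ p.2) ω + c p.2) := by abel
      rw [mem_prs, mem_filter, dif, mem_filter, mem_product, mem_range, mem_range, e, dist_eq_norm]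
      constructor
      · rintro ⟨b1, b2, b3, b4⟩
        refine ⟨⟨⟨b1, b2⟩, fun he => ?_⟩, b4⟩
        have := a1 _ b1 _ b2 b3 he
        rw [he, add_sub_add_left_eq_sub] at b4
        have b5 : s / N ≤ 2 * s / N := by gcongr; linarith
        linarith
      · rintro ⟨⟨⟨b1, b2⟩, b3⟩, b4⟩
        exact ⟨b1, b2, fun he => b3 (by rw [he]), b4⟩
    rw [e1, card_filter]
    simp only [hZ, sum_sub_distrib, sum_const, nsmul_eq_mul, ind]
    push_cast
    field_simp
    ring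
  have : ∀ᵐ ω ∂P, ∀ q : ℚ, 0 < q → Tendsto (fun m : ℕ =>
      ((prs (fun n => X (ℓ n) ω + c n) (m ^ 2) (q / ((m ^ 2 : ℕ) : ℝ))).card : ℝ)
      / ((m ^ 2 : ℕ) : ℝ)) atTop (𝓝 (2 * q)) := by
    rw [ae_all_iff]
    intro q
    by_cases hq : 0 < q
    · filter_upwards [main q (by exact_mod_cast hq)] with ω hω _ using hω
    · exact ae_of_all _ fun ω h => absurd h hq
  obtain ⟨ω, hω⟩ := this.exists
  exact ⟨fun i => X i ω, isPPC_of_sq _ hω⟩

end Pool.Agent.H58.PPC
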