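import Mathlib
import Pool.Agent.H58.PPCRandom

set_option autoImplicit false

namespace Pool.Agent.H58.PPC
open Filter Topology Finset MeasureTheory
open scoped Classical

/-- block starting points -/
def PP : ℕ → ℕ
  | 0 => 1
  | j + 1 => (2 * PP j) ^ 4

lemma PP_pos (j : ℕ) : 0 < PP j := by
  induction j with
  | zero => simp [PP]
  | succ j ih => simp only [PP]; positivity

lemma PP_two (j : ℕ) : 2 * PP j ≤ PP (j + 1) := Nat.le_self_pow (by norm_num) _

lemma PP_mono : StrictMono PP := strictMono_nat_of_lt_succ fun j => by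
  have := PP_two j; have := PP_pos j; omega

lemma PP_lt {i j : ℕ} (h : i < j) : 2 * PP i ≤ PP j := (PP_two i).trans (PP_mono.monotone h)

noncomputable def ld (L : ℕ → ℕ) (n : ℕ) : ℕ :=
  if h : ∃ j, PP j ≤ n ∧ n < PP j + L j then PP h.choose else n

lemma ld_in {L : ℕ → ℕ} (hL : ∀ j, L j ≤ PP j) {j n : ℕ} (h1 : PP j ≤ n) (h2 : n < PP j + L j) :
    ld L n = PP j := by
  have h : ∃ j, PP j ≤ n ∧ n < PP j + L j := ⟨j, h1, h2⟩
  rw [ld, dif_pos h]
  obtain ⟨a1, a2⟩ := h.choose_spec
  rcases lt_trichotomy h.choose j with b | b | b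
  · have := PP_lt b; have := hL h.choose; omega
  · rw [b]
  · have := PP_lt b; have := hL j; omega

lemma ld_cases {L : ℕ → ℕ} (hL : ∀ j, L j ≤ PP j) (n : ℕ) :
    ld L n = n ∨ ∃ j, PP j ≤ n ∧ n < PP j + L j ∧ ld L n = PP j := by
  by_cases h : ∃ j, PP j ≤ n ∧ n < PP j + L j
  · obtain ⟨j, h1, h2⟩ := h
    exact Or.inr ⟨j, h1, h2, ld_in hL h1 h2⟩
  · exact Or.inl (by rw [ld, dif_neg h])

lemma ld_le {L : ℕ → ℕ} (hL : ∀ j, L j ≤ PP j) (n : ℕ) : ld L n ≤ n ∧ n ≤ 2 * ld L n := by
  rcases ld_cases hL n with h | ⟨j, h1, h2, h3⟩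
  · omega
  · have := hL j; omega

lemma ld_succ {L : ℕ → ℕ} (hL : ∀ j, L j ≤ PP j) (n : ℕ) (h : ld L (n + 1) ≠ n + 1) :
    ld L (n + 1) = ld L n := by
  rcases ld_cases hL (n + 1) with h' | ⟨j, h1, h2, h3⟩
  · exact absurd h' h
  · rw [h3, ld_in hL (j := j) (by omega) (by omega)]

lemma ld_off {L : ℕ → ℕ} (hL : ∀ j, L j ≤ PP j)
    (hL' : Tendsto (fun j => (L j : ℝ) / PP j) atTop (𝓝 0)) (ε : ℝ) (hε : 0 < ε) :
    ∀ᶠ N : ℕ in atTop, ∀ l < N, (l : ℝ) - ld L l + 1 ≤ ε * N := by
  obtain ⟨j0, hj0⟩ := eventually_atTop.1 (hL'.eventually (ge_mem_nhds (half_pos hε)))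
  have h1 : ∀ᶠ N : ℕ in atTop, ((PP j0 : ℝ) + 1) / (ε / 2) ≤ N :=
    tendsto_natCast_atTop_atTop.eventually_ge_atTop _
  filter_upwards [h1] with N hN l hl
  rw [div_le_iff₀ (half_pos hε)] at hN
  have hN0 : (0 : ℝ) ≤ ε / 2 * N := by positivity
  have hP : (0 : ℝ) ≤ PP j0 := Nat.cast_nonneg _
  rcases ld_cases hL l with h | ⟨j, a1, a2, a3⟩
  · rw [h]; nlinarith
  · rw [a3]
    have b1 : (l : ℝ) ≤ PP j + L j := by exact_mod_cast a2.le
    by_cases hj : j0 ≤ j
    · have b2 := hj0 j hj
      have b3 : (0 : ℝ) < PP j := by exact_mod_cast PP_pos j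
      rw [div_le_iff₀ b3] at b2
      have b4 : (PP j : ℝ) ≤ N := by exact_mod_cast (by omega : PP j ≤ N)
      have b5 : ε / 2 * PP j ≤ ε / 2 * N := by gcongr
      nlinarith
    · have b2 : (L j : ℝ) ≤ PP j0 := by
        exact_mod_cast (hL j).trans (PP_mono.monotone (by omega))
      nlinarith

lemma sqrt_two_bad (h : ℤ) (hh : h ≠ 0) : 1 / (4 * |(h : ℝ)|) ≤ ‖((h * √2 : ℝ) : UnitAddCircle)‖ := by
  rw [UnitAddCircle.norm_eq]
  set m := round ((h : ℝ) * √2) with hm
  have h1 : |h * √2 - m| ≤ 1 / 2 := abs_sub_round _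
  have h2 : (2 * h ^ 2 - m ^ 2 : ℤ) ≠ 0 := by
    intro h0
    have e : (2 : ℝ) * h ^ 2 = m ^ 2 := by exact_mod_cast (by linarith : 2 * h ^ 2 = m ^ 2)
    have hh' : (h : ℝ) ≠ 0 := by exact_mod_cast hh
    have e2 : √2 = |(m : ℝ) / h| := by
      rw [← Real.sqrt_sq_eq_abs, div_pow, ← e]; congr 1; field_simp
    apply irrational_sqrt_two
    exact ⟨|(m : ℚ) / h|, by push_cast; exact e2.symm⟩
  have h3 : (1 : ℝ) ≤ |2 * (h : ℝ) ^ 2 - m ^ 2| := by exact_mod_cast Int.one_le_abs h2
  have h4 : 2 * (h : ℝ) ^ 2 - m ^ 2 = (h * √2 - m) * (h * √2 + m) := by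
    have := Real.sq_sqrt (show (0 : ℝ) ≤ 2 by norm_num)
    linear_combination (-(h : ℝ) ^ 2) * this
  have h5 : (1 : ℝ) ≤ |(h : ℝ)| := by exact_mod_cast Int.one_le_abs hh
  have h6 : √2 ≤ 3 / 2 := Real.sqrt_le_iff.2 ⟨by norm_num, by norm_num⟩
  have h7 : |h * √2 + m| ≤ 4 * |(h : ℝ)| := by
    have e : (h : ℝ) * √2 + m = 2 * √2 * h - (h * √2 - m) := by ring
    rw [e]
    refine (abs_sub _ _).trans ?_
    rw [abs_mul, abs_of_nonneg (by positivity : (0 : ℝ) ≤ 2 * √2)]
    nlinarith
  rw [h4, abs_mul] at h3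
  rw [div_le_iff₀ (by positivity)]
  exact h3.trans (mul_le_mul_of_nonneg_left h7 (abs_nonneg _))

lemma exists_near (A : ℕ) (z : UnitAddCircle) (δ : ℝ) (hδ : 0 < δ) :
    ∃ b : ℕ, A < b ∧ dist z (((b : ℝ) * √2 : ℝ) : UnitAddCircle) ≤ δ := by
  have h1 : DenseRange (fun n : ℤ => n • ((√2 : ℝ) : UnitAddCircle)) :=
    AddCircle.denseRange_zsmul_coe_iff.2 (by simpa using irrational_sqrt_two)
  rw [denseRange_zsmul_iff_nsmul] at h1
  obtain ⟨n, hn⟩ := h1.exists_dist_lt (z - (((A + 1 : ℕ) : ℝ) * √2 : ℝ)) hδ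
  refine ⟨A + 1 + n, by omega, ?_⟩
  have e : ((((A + 1 + n : ℕ) : ℝ) * √2 : ℝ) : UnitAddCircle) =
      (((A + 1 : ℕ) : ℝ) * √2 : ℝ) + n • ((√2 : ℝ) : UnitAddCircle) := by
    rw [← AddCircle.coe_nsmul, ← AddCircle.coe_add]
    congr 1
    push_cast
    simp only [nsmul_eq_mul]
    ring
  rw [e]
  refine le_trans (le_of_eq ?_) hn.le
  rw [dist_eq_norm, dist_eq_norm]
  congr 1
  abel

theorem core (L : ℕ → ℕ) (hL : ∀ j, L j ≤ PP j)
    (hL' : Tendsto (fun j => (L j : ℝ) / PP j) atTop (𝓝 0)) :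
    ∃ a : ℕ → ℕ, StrictMono a ∧ (∀ n, 0 < a n) ∧ (∀ j t, t < L j → a (PP j + t) = a (PP j) + t) ∧
      IsPPC (fun n => (((a n : ℝ) * √2 : ℝ) : UnitAddCircle)) := by
  set ℓ := ld L with hℓ
  have hoff := ld_off hL hL'
  rw [← hℓ] at hoff
  have hle : ∀ n, (ℓ n : ℝ) ≤ n := fun n => by exact_mod_cast (ld_le hL n).1
  obtain ⟨ω, hω⟩ := exists_ppc ℓ (fun n => ((((n : ℝ) - ℓ n) * √2 : ℝ) : UnitAddCircle))
    (fun N => 1 + √√N) (fun N => by positivity) (by
      intro s hs
      filter_upwards [hoff (1 / (4 * s)) (by positivity)] with N hN k hk l hl hkl he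
      have hne : ((k : ℤ) - l) ≠ 0 := by omega
      have h1 := sqrt_two_bad _ hne
      rw [← AddCircle.coe_sub]
      have e : ((k : ℝ) - ℓ k) * √2 - ((l : ℝ) - ℓ l) * √2 = (((k : ℤ) - l : ℤ) : ℝ) * √2 := by
        rw [he]; push_cast; ring
      rw [e]
      refine le_trans ?_ h1
      have hN0 : (0 : ℝ) < N := by exact_mod_cast (by omega : 0 < N)
      have h2 : (0 : ℝ) < |(((k : ℤ) - l : ℤ) : ℝ)| := abs_pos.2 (by exact_mod_cast hne)
      have h3 : |(((k : ℤ) - l : ℤ) : ℝ)| ≤ 1 / (4 * s) * N := by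
        have a1 := hN k hk
        have a2 := hN l hl
        have a3 := hle k
        have a4 := hle l
        rw [he] at a1 a3
        push_cast
        rw [abs_le]
        constructor <;> linarith
      rw [div_le_div_iff₀ hN0 (by positivity)]
      calc s * (4 * |(((k : ℤ) - l : ℤ) : ℝ)|) ≤ s * (4 * (1 / (4 * s) * N)) := by gcongr
        _ = 1 * N := by field_simp) (by
      rw [Metric.tendsto_atTop']
      intro ε hε
      obtain ⟨N0, hN0⟩ := eventually_atTop.1 (hoff (ε / 2) (half_pos hε))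
      refine ⟨N0, fun N hN => ?_⟩
      have hNp : (0 : ℝ) < N := by exact_mod_cast (by omega : 0 < N)
      have h1 := hN0 N hN.le
      have h2 : ∀ g, (((range N).filter (fun k => ℓ k = g)).card : ℝ) ≤ ε / 2 * N := by
        intro g
        have a1 : (range N).filter (fun k => ℓ k = g) ⊆ Ico g (g + ⌊ε / 2 * N⌋₊) := by
          intro k hk
          rw [mem_filter, mem_range] at hk
          have b1 := h1 k hk.1
          have b2 := (ld_le hL k).1
          rw [← hℓ, hk.2] at b2
          rw [hk.2] at b1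
          have b3 : k - g + 1 ≤ ⌊ε / 2 * N⌋₊ := Nat.le_floor (by push_cast [b2]; exact b1)
          rw [mem_Ico]
          omega
        have a2 := card_le_card a1
        rw [Nat.card_Ico, Nat.add_sub_cancel_left] at a2
        exact le_trans (by exact_mod_cast a2) (Nat.floor_le (by positivity))
      have h3 : ((dif ℓ N).card : ℝ) +
          (((range N ×ˢ range N).filter (fun p => ¬ (ℓ p.1 ≠ ℓ p.2))).card : ℝ) = (N : ℝ) ^ 2 := by
        have := card_filter_add_card_filter_not (s := range N ×ˢ range N) (fun p => ℓ p.1 ≠ ℓ p.2)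
        rw [card_product, card_range, ← sq] at this
        exact_mod_cast this
      have h4 : (((range N ×ˢ range N).filter (fun p => ¬ (ℓ p.1 ≠ ℓ p.2))).card : ℝ)
          ≤ N * (ε / 2 * N) := by
        have : ((range N ×ˢ range N).filter (fun p => ¬ (ℓ p.1 ≠ ℓ p.2))).card =
            ∑ l ∈ range N, ((range N).filter (fun k => ℓ k = ℓ l)).card := by
          rw [card_filter, sum_product_right]
          simp only [card_filter, ne_eq, not_not]
        rw [this]
        push_cast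
        calc _ ≤ ∑ l ∈ range N, ε / 2 * N := sum_le_sum fun l _ => h2 _
          _ = _ := by simp
      have h5 : (0 : ℝ) ≤ ((range N ×ˢ range N).filter (fun p => ¬ (ℓ p.1 ≠ ℓ p.2))).card :=
        Nat.cast_nonneg _
      rw [Real.dist_eq, abs_lt, lt_sub_iff_add_lt, sub_lt_iff_lt_add, lt_div_iff₀ (by positivity),
        div_lt_iff₀ (by positivity)]
      have h6 : 0 < ε * (N : ℝ) ^ 2 := by positivity
      constructor <;> nlinarith) (by
      intro N
      have one : ∀ g, (¬ ∃ j, g = PP j) →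
          (((range N).filter (fun k => ℓ k = g)).card : ℝ) ≤ 1 + √√N := by
        intro g hg
        have a1 : (range N).filter (fun k => ℓ k = g) ⊆ {g} := by
          intro k hk
          rw [mem_filter] at hk
          rcases ld_cases hL k with h | ⟨j, _, _, h⟩
          · rw [mem_singleton, ← hk.2, hℓ, h]
          · exact absurd ⟨j, by rw [← hk.2, hℓ, h]⟩ hg
        have a2 : (((range N).filter (fun k => ℓ k = g)).card : ℝ) ≤ 1 := by
          exact_mod_cast (card_le_card a1).trans (by simp)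
        linarith [Real.sqrt_nonneg √N]
      have two : ∀ i j, i < j →
          (((range N).filter (fun k => ℓ k = PP i)).card : ℝ) ≤ 1 + √√N ∨
          (((range N).filter (fun k => ℓ k = PP j)).card : ℝ) ≤ 1 + √√N := by
        intro i j hij
        by_cases hj : PP j < N
        · left
          have a1 : (range N).filter (fun k => ℓ k = PP i) ⊆ range (2 * PP i + 1) := by
            intro k hk
            rw [mem_filter] at hk
            have := (ld_le hL k).2
            rw [← hℓ, hk.2] at this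
            rw [mem_range]; omega
          have a2 : (((range N).filter (fun k => ℓ k = PP i)).card : ℝ) ≤ 2 * PP i + 1 := by
            exact_mod_cast (card_le_card a1).trans (by simp)
          have a3 : (2 * PP i) ^ 4 ≤ N := by
            have : PP (i + 1) ≤ PP j := PP_mono.monotone hij
            simp only [PP] at this
            omega
          have a4 : (2 * PP i : ℝ) ≤ √√N := by
            apply Real.le_sqrt_of_sq_le
            apply Real.le_sqrt_of_sq_le
            rw [← pow_mul]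
            exact_mod_cast a3
          linarith
        · right
          have a1 : (range N).filter (fun k => ℓ k = PP j) = ∅ := by
            rw [filter_eq_empty_iff]
            intro k hk he
            have := (ld_le hL k).1
            rw [← hℓ, he] at this
            rw [mem_range] at hk
            omega
          rw [a1]
          simp only [card_empty, Nat.cast_zero]
          positivity
      intro g g' hne
      by_cases hg : ∃ j, g = PP j
      · by_cases hg' : ∃ j, g' = PP j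
        · obtain ⟨i, rfl⟩ := hg
          obtain ⟨j, rfl⟩ := hg'
          rcases lt_trichotomy i j with b | b | b
          · exact two i j b
          · exact absurd (by rw [b]) hne
          · exact (two j i b).symm
        · exact Or.inr (one g' hg')
      · exact Or.inl (one g hg)) (by
      have h1 : Summable (fun m : ℕ => 1 / (m : ℝ) ^ 2 + 1 / (m : ℝ) ^ (3 / 2 : ℝ)) :=
        (Real.summable_one_div_nat_pow.2 (by norm_num)).add
          (Real.summable_one_div_nat_rpow.2 (by norm_num))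
      refine h1.congr fun m => ?_
      rcases Nat.eq_zero_or_pos m with rfl | hm
      · simp
      have hm' : (0 : ℝ) < m := by exact_mod_cast hm
      push_cast
      rw [Real.sqrt_sq hm'.le, add_div]
      congr 1
      rw [Real.sqrt_eq_rpow, div_eq_div_iff (by positivity) (by positivity), ← Real.rpow_add hm',
        one_mul, ← Real.rpow_natCast]
      norm_num)
  choose nb hnb1 hnb2 using fun (A n : ℕ) =>
    exists_near A (ω n) (1 / (2 * (n : ℝ) + 1) ^ 5) (by positivity)
  let a : ℕ → ℕ := fun n => Nat.rec (nb 0 0)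
    (fun n an => if ℓ (n + 1) = n + 1 then nb an (n + 1) else an + 1) n
  have ha0 : a 0 = nb 0 0 := rfl
  have has : ∀ n, a (n + 1) = if ℓ (n + 1) = n + 1 then nb (a n) (n + 1) else a n + 1 := fun n => rfl
  have hmono : StrictMono a := strictMono_nat_of_lt_succ fun n => by
    rw [has]
    split_ifs
    · exact hnb1 _ _
    · omega
  have hkey : ∀ n : ℕ, a n + ℓ n = a (ℓ n) + n ∧
      dist (ω (ℓ n)) (((Nat.cast (a (ℓ n)) : ℝ) * √2 : ℝ) : UnitAddCircle) ≤ 1 / (2 * (ℓ n : ℝ) + 1) ^ 5 := by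
    intro n
    induction n with
    | zero =>
      have : ℓ 0 = 0 := by have := (ld_le hL 0).1; rw [← hℓ] at this; omega
      rw [this, ha0]
      exact ⟨rfl, hnb2 0 0⟩
    | succ n ih =>
      by_cases h : ℓ (n + 1) = n + 1
      · rw [h]
        refine ⟨rfl, ?_⟩
        rw [has, if_pos h]
        exact hnb2 _ _
      · have h' : ℓ (n + 1) = ℓ n := ld_succ hL n h
        rw [has, if_neg h, h']
        exact ⟨by omega, ih.2⟩
  refine ⟨a, hmono, fun n => ?_, fun j t ht => ?_, hω.pert fun n => ?_⟩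
  · exact (hnb1 0 0).trans_le (ha0 ▸ hmono.monotone (Nat.zero_le n))
  · have h1 := (hkey (PP j + t)).1
    have h2 : ℓ (PP j + t) = PP j := ld_in hL (by omega) (by omega)
    rw [h2] at h1
    omega
  · obtain ⟨h1, h2⟩ := hkey n
    have e : (((Nat.cast (a n) : ℝ) * √2 : ℝ) : UnitAddCircle) =
        (((Nat.cast (a (ℓ n)) : ℝ) * √2 : ℝ) : UnitAddCircle) + ((((n : ℝ) - ℓ n) * √2 : ℝ) : UnitAddCircle) := by
      rw [← AddCircle.coe_add]
      congr 1
      have : (Nat.cast (a n) : ℝ) + (ℓ n : ℝ) = (Nat.cast (a (ℓ n)) : ℝ) + (n : ℝ) := by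
        exact_mod_cast h1
      linear_combination √2 * this
    rw [e, dist_add_right]
    refine h2.trans ?_
    have : (n : ℝ) ≤ 2 * ℓ n := by exact_mod_cast (ld_le hL n).2
    gcongr

end Pool.Agent.H58.PPC
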