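import Mathlib
import Pool.Agent.H58.PPCCore

set_option autoImplicit false

namespace Pool.Agent.H58.PPC
open Filter Topology Finset MeasureTheory
open scoped Classical

/-- the bad event for block `j` with parameter `e` -/
def EV (e j : ℕ) : Set ℝ :=
  {α | ∃ q : ℕ, 1 ≤ q ∧ 48 * e ^ 2 * q ≤ PP j ∧ ∃ p : ℤ, |q * α - p| < 1 / (48 * e * PP j)}

lemma EV_open (e j : ℕ) : IsOpen (EV e j) := by
  have : EV e j = ⋃ q : ℕ, ⋃ _ : 1 ≤ q ∧ 48 * e ^ 2 * q ≤ PP j, ⋃ p : ℤ,
      {α : ℝ | |q * α - p| < 1 / (48 * e * PP j)} := by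
    ext α
    simp [EV, and_assoc]
  rw [this]
  exact isOpen_iUnion fun q => isOpen_iUnion fun _ => isOpen_iUnion fun p =>
    isOpen_lt (by fun_prop) continuous_const

lemma PP_tendsto : Tendsto (fun j => (PP j : ℝ)) atTop atTop :=
  tendsto_natCast_atTop_atTop.comp PP_mono.tendsto_atTop

lemma EV_null (e : ℕ) (he : 1 ≤ e) (J : ℕ) : volume {α : ℝ | ∀ j, J ≤ j → α ∉ EV e j} = 0 := by
  set S := {α : ℝ | ∀ j, J ≤ j → α ∉ EV e j} with hS
  have he' : (1 : ℝ) ≤ e := by exact_mod_cast he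
  rw [← Measure.restrict_eq_zero, ← ae_eq_bot, ← eventually_false_iff_eq_bot]
  filter_upwards [IsUnifLocDoublingMeasure.ae_tendsto_measure_inter_div volume S
    (96 * 48 * (e : ℝ) ^ 3)] with x hx
  have h1 : ∀ j, ∃ q : ℕ, 0 < q ∧ (0 < PP j / (48 * e ^ 2) → q ≤ PP j / (48 * e ^ 2) ∧
      |q * x - round (q * x)| ≤ 1 / ((PP j / (48 * e ^ 2) : ℕ) + 1)) := by
    intro j
    by_cases h : 0 < PP j / (48 * e ^ 2)
    · obtain ⟨q, a1, a2, a3⟩ := Real.exists_nat_abs_mul_sub_round_le x h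
      exact ⟨q, a1, fun _ => ⟨a2, a3⟩⟩
    · exact ⟨1, one_pos, fun h' => absurd h' h⟩
  choose q hq0 hq using h1
  have hq1 : ∀ j, (1 : ℝ) ≤ q j := fun j => by exact_mod_cast hq0 j
  have hP : ∀ j, (0 : ℝ) < PP j := fun j => by exact_mod_cast PP_pos j
  have hev : ∀ᶠ j in atTop, 0 < PP j / (48 * e ^ 2) := by
    filter_upwards [PP_mono.tendsto_atTop.eventually_ge_atTop (48 * e ^ 2)] with j hj
    exact Nat.div_pos hj (by positivity)
  have h2 := hx (l := atTop) (fun j => (round (q j * x) : ℝ) / q j)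
    (fun j => 1 / (96 * e * PP j * q j)) (by
      rw [tendsto_nhdsWithin_iff]
      refine ⟨?_, Eventually.of_forall fun j => ?_⟩
      · refine squeeze_zero (fun j => by have := hP j; have := hq1 j; positivity) (fun j => ?_)
          (PP_tendsto.inv_tendsto_atTop)
        have := hP j; have := hq1 j
        simp only [Pi.inv_apply, one_div]
        apply inv_anti₀ (hP j)
        have : 1 * PP j * 1 ≤ 96 * (e : ℝ) * PP j * q j := by gcongr; linarith
        linarith
      · have := hP j; have := hq1 j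
        simp only [Set.mem_Ioi]
        positivity) (by
      filter_upwards [hev] with j hj
      obtain ⟨a1, a2⟩ := hq j hj
      have b1 := hP j
      have b2 := hq1 j
      rw [Metric.mem_closedBall, Real.dist_eq]
      have e1 : x - (round (q j * x) : ℝ) / q j = (q j * x - round (q j * x)) / q j := by
        field_simp
      have b3 : (PP j : ℝ) ≤ 48 * e ^ 2 * ((PP j / (48 * e ^ 2) : ℕ) + 1) := by
        have := (Nat.lt_mul_div_succ (PP j) (show 0 < 48 * e ^ 2 by positivity)).le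
        exact_mod_cast this
      rw [e1, abs_div, Nat.abs_cast, div_le_iff₀ (by linarith)]
      refine a2.trans ?_
      have e2 : 96 * 48 * (e : ℝ) ^ 3 * (1 / (96 * e * PP j * q j)) * q j = 48 * e ^ 2 / PP j := by
        field_simp
      rw [e2, div_le_div_iff₀ (by positivity) b1]
      linarith)
  have h3 : ∀ᶠ j in atTop, volume (S ∩ Metric.closedBall ((round (q j * x) : ℝ) / q j)
      (1 / (96 * e * PP j * q j))) / volume (Metric.closedBall ((round (q j * x) : ℝ) / q j)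
      (1 / (96 * e * PP j * q j))) = 0 := by
    filter_upwards [hev, eventually_ge_atTop J] with j hj hJ
    have : S ∩ Metric.closedBall ((round (q j * x) : ℝ) / q j) (1 / (96 * e * PP j * q j)) = ∅ := by
      rw [Set.eq_empty_iff_forall_notMem]
      rintro y ⟨hy1, hy2⟩
      apply hy1 j hJ
      obtain ⟨a1, a2⟩ := hq j hj
      have b1 := hP j
      have b2 := hq1 j
      refine ⟨q j, hq0 j, ?_, round (q j * x), ?_⟩
      · exact (Nat.mul_le_mul_left _ a1).trans (Nat.mul_div_le _ _)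
      · rw [Metric.mem_closedBall, Real.dist_eq] at hy2
        have e1 : q j * y - (round (q j * x) : ℝ) = q j * (y - (round (q j * x) : ℝ) / q j) := by
          field_simp
        rw [e1, abs_mul, Nat.abs_cast]
        calc _ ≤ q j * (1 / (96 * (e : ℝ) * PP j * q j)) := by gcongr
          _ = 1 / (96 * e * PP j) := by field_simp
          _ < _ := by gcongr; norm_num
    rw [this, measure_empty, ENNReal.zero_div]
  have h4 := tendsto_nhds_unique (h2.congr' h3) tendsto_const_nhds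
  exact one_ne_zero h4

lemma diagonal (E : ℕ → ℕ → Set ℝ) (hm : ∀ e j, MeasurableSet (E e j))
    (h0 : ∀ e J, volume {α : ℝ | ∀ j, J ≤ j → α ∉ E e j} = 0) :
    ∃ ee : ℕ → ℕ, Tendsto ee atTop atTop ∧ ∀ᵐ α : ℝ, ∃ᶠ j in atTop, α ∈ E (ee j) j := by
  have h1 : ∀ e J : ℕ, ∃ J', J < J' ∧
      volume (Set.Icc (-(e : ℝ)) e ∩ {α | ∀ j, J ≤ j → j < J' → α ∉ E e j}) ≤ 2⁻¹ ^ e := by
    intro e J
    set A : ℕ → Set ℝ := fun J' => Set.Icc (-(e : ℝ)) e ∩ {α | ∀ j, J ≤ j → j < J' → α ∉ E e j}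
      with hA
    have a1 : ∀ J', NullMeasurableSet (A J') volume := by
      intro J'
      refine (measurableSet_Icc.inter ?_).nullMeasurableSet
      simp only [Set.ofPred_forall]
      exact MeasurableSet.iInter fun j => MeasurableSet.iInter fun _ => MeasurableSet.iInter fun _ =>
        (hm e j).compl
    have a2 : Antitone A := fun u v huv α hα => ⟨hα.1, fun j b1 b2 => hα.2 j b1 (by omega)⟩
    have a3 := tendsto_measure_iInter_atTop a1 a2 ⟨0, ne_top_of_le_ne_top (by simp)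
      (measure_mono Set.inter_subset_left)⟩
    have a4 : volume (⋂ n, A n) = 0 := by
      refine measure_mono_null (fun α hα => ?_) (h0 e J)
      rw [Set.mem_iInter] at hα
      exact fun j hj => (hα (j + 1)).2 j hj (by omega)
    rw [a4] at a3
    have a5 := a3.eventually (ge_mem_nhds (show (0 : ENNReal) < 2⁻¹ ^ e by
      exact ENNReal.pow_pos (by norm_num) e))
    obtain ⟨J', b1, b2⟩ := (a5.and (eventually_gt_atTop J)).exists
    exact ⟨J', b2, b1⟩
  choose nx hnx1 hnx2 using h1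
  obtain ⟨J, hJ⟩ : ∃ J : ℕ → ℕ, ∀ e, J (e + 1) = nx e (J e) :=
    ⟨fun e => Nat.rec 0 (fun e Je => nx e Je) e, fun e => rfl⟩
  have hJm : StrictMono J := strictMono_nat_of_lt_succ fun e => by rw [hJ]; exact hnx1 _ _
  have hfg : ∀ e j, J e ≤ j → e ≤ Nat.findGreatest (fun e => J e ≤ j) j := fun e j h =>
    Nat.le_findGreatest (hJm.le_apply.trans h) h
  have hfg' : ∀ e j, J e ≤ j → j < J (e + 1) → Nat.findGreatest (fun e => J e ≤ j) j = e := by
    intro e j a1 a2
    refine le_antisymm ?_ (hfg e j a1)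
    by_contra hc
    push Not at hc
    have b1 : J (Nat.findGreatest (fun e => J e ≤ j) j) ≤ j :=
      Nat.findGreatest_spec (P := fun e => J e ≤ j) (hJm.le_apply.trans a1) a1
    have b2 := hJm.monotone (show e + 1 ≤ _ from hc)
    omega
  refine ⟨fun j => Nat.findGreatest (fun e => J e ≤ j) j, ?_, ?_⟩
  · refine tendsto_atTop.2 fun e => ?_
    filter_upwards [eventually_ge_atTop (J e)] with j hj using hfg e j hj
  · have h2 : ∑' e : ℕ, volume (Set.Icc (-(e : ℝ)) e ∩
        {α | ∀ j, J e ≤ j → j < J (e + 1) → α ∉ E e j}) ≠ ⊤ := by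
      simp only [hJ]
      refine ne_top_of_le_ne_top ?_ (ENNReal.tsum_le_tsum fun e => hnx2 e (J e))
      rw [ENNReal.tsum_geometric]
      simp
    filter_upwards [ae_eventually_notMem h2] with α hα
    rw [frequently_atTop]
    intro b
    have h3 : ∀ᶠ e : ℕ in atTop, |α| ≤ e := tendsto_natCast_atTop_atTop.eventually_ge_atTop _
    obtain ⟨e, a1, a2, a3⟩ := (hα.and (h3.and (eventually_ge_atTop b))).exists
    have a4 : α ∈ Set.Icc (-(e : ℝ)) e := abs_le.1 a2
    simp only [Set.mem_inter_iff, a4, true_and, Set.mem_ofPred_eq, not_forall, not_not] at a1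
    obtain ⟨j, c1, c2, c3⟩ := a1
    refine ⟨j, a3.trans (hJm.le_apply.trans c1), ?_⟩
    rw [hfg' e j c1 c2]
    exact c3

lemma not_ppc (a : ℕ → ℕ) (ee : ℕ → ℕ) (hee : ∀ j, 1 ≤ ee j)
    (ha : ∀ j t, t < PP j / ee j → a (PP j + t) = a (PP j) + t) (α : ℝ)
    (h : ∃ᶠ j in atTop, α ∈ EV (ee j) j) :
    ¬ IsPPC (fun n => (((a n : ℝ) * α : ℝ) : UnitAddCircle)) := by
  intro hp
  have h1 := (hp 1 one_pos).eventually (gt_mem_nhds (show (2 : ℝ) * 1 < 3 by norm_num))
  have h2 : Tendsto (fun j => PP j + PP j / ee j) atTop atTop :=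
    tendsto_atTop_mono (fun j => Nat.le_add_right _ _) PP_mono.tendsto_atTop
  obtain ⟨j, ⟨q, hq1, hq2, p, hp'⟩, hj⟩ := (h.and_eventually (h2.eventually h1)).exists
  set e := ee j with he
  have he1 : 1 ≤ e := hee j
  set L := PP j / e with hL
  set N := PP j + L with hN
  have hP := PP_pos j
  have hLP : L ≤ PP j := Nat.div_le_self _ _
  have b1 : 48 * e * q ≤ L := by
    rw [hL, Nat.le_div_iff_mul_le he1]
    nlinarith
  have b2 : PP j < e * (L + 1) := Nat.lt_mul_div_succ _ he1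
  have b3 : 1 ≤ L := by nlinarith
  set T := 24 * e with hT
  have ha' : ∀ t, t < L → a (PP j + t) = a (PP j) + t := ha j
  clear_value T N L e
  have hsub : ((range (L - q * T) ×ˢ Icc 1 T).image
      (fun u : ℕ × ℕ => (PP j + u.1, PP j + (u.1 + q * u.2)))) ⊆
      prs (fun n => (((a n : ℝ) * α : ℝ) : UnitAddCircle)) N (1 / N) := by
    intro v hv
    obtain ⟨u, hu, rfl⟩ := mem_image.1 hv
    rw [mem_product, mem_range, mem_Icc] at hu
    obtain ⟨c1, c2, c3⟩ := hu
    have c4 : q * u.2 ≤ q * T := Nat.mul_le_mul_left _ c3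
    have c5 : 1 ≤ q * u.2 := Nat.mul_pos hq1 c2
    refine mem_prs.2 ⟨by simp only; omega, by simp only; omega, by simp only; omega, ?_⟩
    simp only
    rw [ha' u.1 (by omega), ha' (u.1 + q * u.2) (by omega), dist_comm, dist_eq_norm,
      ← AddCircle.coe_sub]
    have e1 : (((a (PP j) + (u.1 + q * u.2) : ℕ) : ℝ) * α - ((a (PP j) + u.1 : ℕ) : ℝ) * α : ℝ) =
        u.2 * (q * α - p) + ((u.2 * p : ℤ) : ℝ) := by push_cast; ring
    have e2 : ((((u.2 * p : ℤ) : ℝ)) : UnitAddCircle) = 0 := by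
      rw [AddCircle.coe_eq_zero_iff]
      exact ⟨u.2 * p, by simp⟩
    rw [e1, AddCircle.coe_add, e2, add_zero]
    have d0 : ‖((u.2 * (q * α - p) : ℝ) : UnitAddCircle)‖ ≤ |u.2 * (q * α - p)| := by
      rw [← Real.norm_eq_abs]; exact QuotientAddGroup.norm_mk_le_norm
    refine d0.trans_lt ?_
    rw [abs_mul, Nat.abs_cast]
    have d1 : (u.2 : ℝ) ≤ 24 * e := by rw [hT] at c3; exact_mod_cast c3
    have d2 : (0 : ℝ) < u.2 := by exact_mod_cast c2
    have d3 : (0 : ℝ) < e := by exact_mod_cast he1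
    have d4 : (0 : ℝ) < PP j := by exact_mod_cast hP
    have d5 : (N : ℝ) ≤ 2 * PP j := by exact_mod_cast (by omega : N ≤ 2 * PP j)
    have d6 : (0 : ℝ) < N := by exact_mod_cast (by omega : 0 < N)
    calc (u.2 : ℝ) * |q * α - p| < u.2 * (1 / (48 * e * PP j)) := by gcongr
      _ ≤ 24 * e * (1 / (48 * e * PP j)) := by gcongr
      _ = 1 / (2 * PP j) := by field_simp; norm_num
      _ ≤ 1 / N := by gcongr
  have hc := card_le_card hsub
  rw [card_image_of_injOn (by
    intro u _ v _ huv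
    simp only [Prod.mk.injEq] at huv
    obtain ⟨c1, c2⟩ := huv
    have c3 : u.1 = v.1 := by omega
    have c4 : q * u.2 = q * v.2 := by omega
    exact Prod.ext c3 (Nat.eq_of_mul_eq_mul_left hq1 c4)), card_product, card_range, Nat.card_Icc,
    Nat.add_sub_cancel] at hc
  have d6 : (0 : ℝ) < N := by exact_mod_cast (by omega : 0 < N)
  rw [div_lt_iff₀ d6] at hj
  have hj' : (prs (fun n => (((a n : ℝ) * α : ℝ) : UnitAddCircle)) N (1 / N)).card < 3 * N := by
    exact_mod_cast hj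
  have f1 : L ≤ 2 * (L - q * T) := by
    have : 2 * (q * T) ≤ L := by rw [hT]; nlinarith
    omega
  have f2 : PP j ≤ 2 * (e * L) := by nlinarith
  have f3 : 12 * (e * L) ≤ (L - q * T) * T := by rw [hT]; nlinarith
  omega

theorem exists_fail : ∃ a : ℕ → ℕ, StrictMono a ∧ (∀ n, 0 < a n) ∧
    (∀ᵐ α : ℝ, ¬ IsPPC (fun n => (((a n : ℝ) * α : ℝ) : UnitAddCircle))) ∧
    IsPPC (fun n => (((a n : ℝ) * √2 : ℝ) : UnitAddCircle)) := by
  obtain ⟨ee, h1, h2⟩ := diagonal (fun e j => EV (e + 1) j) (fun e j => (EV_open _ _).measurableSet)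
    (fun e J => EV_null (e + 1) (by omega) J)
  obtain ⟨a, a1, a2, a3, a4⟩ := core (fun j => PP j / (ee j + 1)) (fun j => Nat.div_le_self _ _) (by
    have b1 : Tendsto (fun j => 1 / ((ee j : ℝ) + 1)) atTop (𝓝 0) :=
      tendsto_one_div_add_atTop_nhds_zero_nat.comp h1
    refine squeeze_zero (fun j => by positivity) (fun j => ?_) b1
    have b2 : (0 : ℝ) < PP j := by exact_mod_cast PP_pos j
    have b3 : ((PP j / (ee j + 1) : ℕ) : ℝ) ≤ PP j / ((ee j + 1 : ℕ) : ℝ) := Nat.cast_div_le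
    rw [div_le_iff₀ b2, one_div_mul_eq_div]
    exact_mod_cast b3)
  refine ⟨a, a1, a2, ?_, a4⟩
  filter_upwards [h2] with α hα
  exact not_ppc a (fun j => ee j + 1) (fun j => by omega) a3 α hα

/-- additive energy of the first `N` terms -/
def energy (a : ℕ → ℕ) (N : ℕ) : ℕ :=
  ((range N ×ˢ range N ×ˢ range N ×ˢ range N).filter
    (fun u => a u.1 + a u.2.1 = a u.2.2.1 + a u.2.2.2)).card

theorem exists_energy (ψ : ℕ → ℝ) (hψ : Tendsto ψ atTop atTop) :
    ∃ a : ℕ → ℕ, StrictMono a ∧ (∀ n, 0 < a n) ∧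
    (∃ᶠ N : ℕ in atTop, 1 / 64 * ((N : ℝ) ^ 3 / ψ N) ≤ energy a N) ∧
    IsPPC (fun n => (((a n : ℝ) * √2 : ℝ) : UnitAddCircle)) := by
  have h2 : Tendsto (fun j => 2 * PP j) atTop atTop :=
    tendsto_atTop_mono (fun j => by omega) PP_mono.tendsto_atTop
  set ρ : ℕ → ℝ := fun j => ψ (2 * PP j) ^ (1 / 3 : ℝ) with hρ
  have hρ1 : Tendsto ρ atTop atTop := (tendsto_rpow_atTop (by norm_num)).comp (hψ.comp h2)
  set L : ℕ → ℕ := fun j => min (PP j) ⌈(PP j : ℝ) / ρ j⌉₊ with hL
  have hP : ∀ j, (0 : ℝ) < PP j := fun j => by exact_mod_cast PP_pos j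
  obtain ⟨a, a1, a2, a3, a4⟩ := core L (fun j => min_le_left _ _) (by
    have b1 := hρ1.inv_tendsto_atTop.add PP_tendsto.inv_tendsto_atTop
    rw [add_zero] at b1
    refine squeeze_zero' (Eventually.of_forall fun j => by positivity) ?_ b1
    filter_upwards [hρ1.eventually_gt_atTop 0] with j hj
    have b2 := hP j
    have b3 : (L j : ℝ) ≤ ⌈(PP j : ℝ) / ρ j⌉₊ := by exact_mod_cast min_le_right _ _
    have b4 := Nat.ceil_lt_add_one (show 0 ≤ (PP j : ℝ) / ρ j by positivity)
    simp only [Pi.inv_apply]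
    rw [div_le_iff₀ b2]
    have : ((ρ j)⁻¹ + (PP j : ℝ)⁻¹) * PP j = PP j / ρ j + 1 := by field_simp
    linarith)
  refine ⟨a, a1, a2, ?_, a4⟩
  refine h2.frequently (Eventually.frequently ?_)
  filter_upwards [(hψ.comp h2).eventually_ge_atTop 1] with j hj
  simp only [Function.comp] at hj
  have b1 : 1 ≤ ρ j := Real.one_le_rpow hj (by norm_num)
  have b2 : ρ j ^ 3 = ψ (2 * PP j) := by
    simp only [hρ]
    rw [← Real.rpow_natCast, ← Real.rpow_mul (by linarith)]
    norm_num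
  have b3 : (PP j : ℝ) / ρ j ≤ L j := by
    simp only [hL]
    push_cast
    exact le_min (div_le_self (hP j).le b1) (Nat.le_ceil _)
  have hLP : L j ≤ PP j := min_le_left _ _
  set M := (L j + 1) / 2 with hM
  have b4 : M ^ 3 ≤ energy a (2 * PP j) := by
    have : M ^ 3 = (range M ×ˢ range M ×ˢ range M).card := by simp; ring
    rw [this, energy]
    refine card_le_card_of_injOn (fun u : ℕ × ℕ × ℕ =>
      (PP j + (u.1 + u.2.1), PP j + u.2.2, PP j + u.1, PP j + (u.2.1 + u.2.2))) ?_ ?_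
    · intro u hu
      simp only [coe_product, coe_range, Set.mem_prod, Set.mem_Iio] at hu
      obtain ⟨c1, c2, c3⟩ := hu
      simp only [coe_filter, mem_product, mem_range, Set.mem_ofPred_eq]
      refine ⟨⟨by omega, by omega, by omega, by omega⟩, ?_⟩
      rw [a3 j _ (by omega), a3 j _ (by omega), a3 j _ (by omega), a3 j _ (by omega)]
      ring
    · intro u _ v _ huv
      simp only [Prod.mk.injEq] at huv
      obtain ⟨c1, c2, c3, c4⟩ := huv
      exact Prod.ext (by omega) (Prod.ext (by omega) (by omega))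
  have b5 : (L j : ℝ) ≤ 2 * M := by exact_mod_cast (by omega : L j ≤ 2 * M)
  have b6 : (M : ℝ) ^ 3 ≤ energy a (2 * PP j) := by exact_mod_cast b4
  refine le_trans ?_ b6
  have b7 : (PP j : ℝ) / ρ j / 2 ≤ M := by linarith
  have b8 := hP j
  calc 1 / 64 * (((2 * PP j : ℕ) : ℝ) ^ 3 / ψ (2 * PP j)) = ((PP j : ℝ) / ρ j / 2) ^ 3 := by
        rw [← b2]; push_cast; field_simp; norm_num
    _ ≤ _ := by gcongr

/-- translation to fractional parts -/
lemma prs_eq (y : ℕ → ℝ) (N : ℕ) (r : ℝ) :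
    prs (fun n => ((y n : ℝ) : UnitAddCircle)) N r = (range N ×ˢ range N).filter (fun p => p.1 ≠ p.2 ∧
      |(Int.fract (y p.1) - Int.fract (y p.2)) - round (Int.fract (y p.1) - Int.fract (y p.2))| < r) := by
  unfold prs
  refine filter_congr fun p _ => ?_
  rw [← UnitAddCircle.norm_eq, AddCircle.coe_sub, AddCircle.coe_fract, AddCircle.coe_fract,
    dist_eq_norm]

end Pool.Agent.H58.PPC
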