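import Pool.Agent.H58.NmDefs

set_option autoImplicit false

namespace Pool.Agent.H58.Nm

open MeasureTheory

noncomputable section

/-- Polar dual `{x : x · y < 1 for all y in the closure}`. -/
def polar (Ω : Set (ℝ × ℝ)) : Set (ℝ × ℝ) := {x | ∀ y ∈ closure Ω, x.1 * y.1 + x.2 * y.2 < 1}

/-- Area. -/
def area (D : Set (ℝ × ℝ)) : ℝ := (volume D).toReal

/-- Centroid. -/
def centroid (D : Set (ℝ × ℝ)) : ℝ × ℝ := ((∫ p in D, p.1) / area D, (∫ p in D, p.2) / area D)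

/-- Second moment of mass about the centroid. -/
def inertia (D : Set (ℝ × ℝ)) : ℝ :=
  ∫ p in D, ((p.1 - (centroid D).1) ^ 2 + (p.2 - (centroid D).2) ^ 2)

/-- Open Euclidean disc. -/
def disc (z : ℝ × ℝ) (R : ℝ) : Set (ℝ × ℝ) := {p | (p.1 - z.1) ^ 2 + (p.2 - z.2) ^ 2 < R ^ 2}

/-- The functional `F_3` in the plane: the sum of the first two nontrivial Neumann eigenvalues
times the area, times `V(Ω°)² / I(Ω°)`. -/
def F3 (Ω : Set (ℝ × ℝ)) : ℝ :=
  (mu Ω 1 + mu Ω 2) * area Ω * (area (polar Ω) ^ 2 / inertia (polar Ω))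

end

end Pool.Agent.H58.Nm
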