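import Pool.Agent.H58.Nm3
import Pool.Agent.H58.PdDefs

set_option autoImplicit false

namespace Pool.Agent.H58.Nm

open MeasureTheory Set intervalIntegral
open scoped Real

noncomputable section

lemma W0 {f : ℝ → ℝ} (hf : Continuous f) {a b ω : ℝ} (hab : a ≤ b) (hω : 0 < ω)
    (hπ : ω * (b - a) < π) (h0 : ∫ x in a..b, f x = 0) :
    ω ^ 2 * ∫ x in a..b, (∫ t in a..x, f t) ^ 2 ≤ ∫ x in a..b, f x ^ 2 := by
  set F : ℝ → ℝ := fun x => ∫ t in a..x, f t with hF
  have hFd : ∀ x, HasDerivAt F (f x) x := fun x => (hf.integral_hasStrictDerivAt a x).hasDerivAt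
  have hFc : Continuous F := continuous_iff_continuousAt.mpr fun x => (hFd x).continuousAt
  have hcos : ∀ x ∈ uIcc a b, Real.cos (ω * (x - (a + b) / 2)) ≠ 0 := fun x hx => by
    rw [uIcc_of_le hab] at hx
    exact (Real.cos_pos_of_mem_Ioo ⟨by nlinarith [hx.1], by nlinarith [hx.2]⟩).ne'
  let g : ℝ → ℝ := fun x => ω * Real.tan (ω * (x - (a + b) / 2))
  have hgd : ∀ x ∈ uIcc a b, HasDerivAt g (ω ^ 2 + g x ^ 2) x := fun x hx => by
    have h1 : HasDerivAt (fun x => ω * (x - (a + b) / 2)) (ω * 1) x :=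
      ((hasDerivAt_id x).sub_const _).const_mul ω
    refine (((Real.hasDerivAt_tan (hcos x hx)).comp x h1).const_mul ω).congr_deriv ?_
    simp only [g]
    rw [one_div, ← Real.inv_one_add_tan_sq (hcos x hx), inv_inv]
    ring
  have hgc : ContinuousOn g (uIcc a b) := fun x hx => (hgd x hx).continuousAt.continuousWithinAt
  have h1 := integral_eq_sub_of_hasDerivAt (f := fun x => g x * F x ^ 2)
    (f' := fun x => (ω ^ 2 + g x ^ 2) * F x ^ 2 + g x * (2 * F x * f x))
    (fun x hx => ((hgd x hx).mul ((hFd x).pow 2)).congr_deriv (by simp))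
    (ContinuousOn.intervalIntegrable (by fun_prop))
  have h2 : F b = 0 := h0
  have h3 : F a = 0 := by simp [hF]
  rw [h2, h3] at h1
  have h4 : ∫ x in a..b, ω ^ 2 * F x ^ 2 ≤ ∫ x in a..b,
      (f x ^ 2 + ((ω ^ 2 + g x ^ 2) * F x ^ 2 + g x * (2 * F x * f x))) :=
    integral_mono_on hab (Continuous.intervalIntegrable (by fun_prop) _ _)
      (ContinuousOn.intervalIntegrable (by fun_prop)) fun x _ => by
        nlinarith [sq_nonneg (f x + g x * F x)]
  rw [integral_add (Continuous.intervalIntegrable (by fun_prop) _ _)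
    (ContinuousOn.intervalIntegrable (by fun_prop)), h1, intervalIntegral.integral_const_mul] at h4
  simpa using h4

lemma WP {f g g' : ℝ → ℝ} (hf : Continuous f) (hg : ∀ x, HasDerivAt g (g' x) x)
    (hg' : Continuous g') {a b ω : ℝ} (hab : a ≤ b) (hω : 0 < ω)
    (hπ : ω * (b - a) < π) (h0 : ∫ x in a..b, f x = 0) :
    ∫ x in a..b, g x * f x ≤
      1 / 2 * (∫ x in a..b, f x ^ 2) + 1 / (2 * ω ^ 2) * ∫ x in a..b, g' x ^ 2 := by
  have hW := W0 hf hab hω hπ h0
  set F : ℝ → ℝ := fun x => ∫ t in a..x, f t with hF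
  have hFd : ∀ x, HasDerivAt F (f x) x := fun x => (hf.integral_hasStrictDerivAt a x).hasDerivAt
  have hFc : Continuous F := continuous_iff_continuousAt.mpr fun x => (hFd x).continuousAt
  have h2 : F b = 0 := h0
  have h3 : F a = 0 := by simp [hF]
  rw [integral_mul_deriv_eq_deriv_mul (fun x _ => hg x) (fun x _ => hFd x)
    (hg'.intervalIntegrable _ _) (hf.intervalIntegrable _ _), h2, h3, mul_zero, mul_zero,
    sub_zero, zero_sub, ← intervalIntegral.integral_neg]
  have h4 : ∫ x in a..b, -(g' x * F x) ≤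
      ∫ x in a..b, (1 / 2 * (ω ^ 2 * F x ^ 2) + 1 / (2 * ω ^ 2) * g' x ^ 2) :=
    integral_mono_on hab (Continuous.intervalIntegrable (by fun_prop) _ _)
      (Continuous.intervalIntegrable (by fun_prop) _ _) fun x _ => by
        have h5 : 0 ≤ 1 / (2 * ω ^ 2) * (g' x + ω ^ 2 * F x) ^ 2 := by positivity
        have h6 : 1 / (2 * ω ^ 2) * (g' x + ω ^ 2 * F x) ^ 2 =
            1 / 2 * (ω ^ 2 * F x ^ 2) + 1 / (2 * ω ^ 2) * g' x ^ 2 + g' x * F x := by
          field_simp; ring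
        linarith
  rw [integral_add (Continuous.intervalIntegrable (by fun_prop) _ _)
    (Continuous.intervalIntegrable (by fun_prop) _ _), intervalIntegral.integral_const_mul,
    intervalIntegral.integral_const_mul, intervalIntegral.integral_const_mul] at h4
  linarith

lemma swap2 {G : ℝ × ℝ → ℝ} (hG : Continuous G) (a b c d : ℝ) :
    ∫ x in a..b, ∫ y in c..d, G (x, y) = ∫ y in c..d, ∫ x in a..b, G (x, y) :=
  intervalIntegral_intervalIntegral_swap (F := fun x y => G (x, y))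
    ((hG.continuousOn.integrableOn_compact
      (isCompact_uIcc.prod isCompact_uIcc)).mono_set (prod_mono uIoc_subset_uIcc uIoc_subset_uIcc))

lemma cpar {G : ℝ × ℝ → ℝ} (hG : Continuous G) (a b : ℝ) :
    Continuous fun y => ∫ x in a..b, G (x, y) :=
  continuous_parametric_intervalIntegral_of_continuous' (f := fun y x => G (x, y))
    (hG.comp continuous_swap) a b

lemma rectP {v vx vy : ℝ × ℝ → ℝ} (hv : Continuous v) (hvx : Continuous vx) (hvy : Continuous vy)
    (hx : ∀ y x, HasDerivAt (fun x => v (x, y)) (vx (x, y)) x)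
    (hy : ∀ x y, HasDerivAt (fun y => v (x, y)) (vy (x, y)) y) {c d ω : ℝ} (hcd : c ≤ d)
    (hω : 0 < ω) (h1 : ω * (1 - -1) < π) (h2 : ω * (d - c) < π)
    (h0 : ∫ y in c..d, ∫ x in (-1 : ℝ)..1, v (x, y) = 0) :
    ω ^ 2 * ∫ y in c..d, ∫ x in (-1 : ℝ)..1, v (x, y) ^ 2 ≤
      ∫ y in c..d, ∫ x in (-1 : ℝ)..1, (vx (x, y) ^ 2 + vy (x, y) ^ 2) := by
  let m : ℝ → ℝ := fun y => (∫ x in (-1 : ℝ)..1, v (x, y)) / 2
  have hm : Continuous m := (cpar hv _ _).div_const 2
  have hmv : ∀ y, ∫ x in (-1 : ℝ)..1, v (x, y) = 2 * m y := fun y => by simp only [m]; ring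
  have hA : ∀ y, ∫ x in (-1 : ℝ)..1, v (x, y) ^ 2 ≤
      2 * m y ^ 2 + 1 / ω ^ 2 * ∫ x in (-1 : ℝ)..1, vx (x, y) ^ 2 := fun y => by
    have c1 : Continuous fun x => v (x, y) := by fun_prop
    have e0 : ∫ x in (-1 : ℝ)..1, (v (x, y) - m y) = 0 := by
      rw [integral_sub (c1.intervalIntegrable _ _) intervalIntegrable_const, hmv]; simp; ring
    have e1 := WP (f := fun x => v (x, y) - m y) (by fun_prop) (hx y) (by fun_prop)
      (by norm_num) hω h1 e0
    have e2 : ∫ x in (-1 : ℝ)..1, v (x, y) * (v (x, y) - m y) =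
        (∫ x in (-1 : ℝ)..1, v (x, y) ^ 2) - 2 * m y ^ 2 := by
      rw [integral_congr (g := fun x => v (x, y) ^ 2 - m y * v (x, y)) (fun x _ => by ring),
        integral_sub (Continuous.intervalIntegrable (by fun_prop) _ _)
          (Continuous.intervalIntegrable (by fun_prop) _ _), intervalIntegral.integral_const_mul,
        hmv]; ring
    have e3 : ∫ x in (-1 : ℝ)..1, (v (x, y) - m y) ^ 2 =
        (∫ x in (-1 : ℝ)..1, v (x, y) ^ 2) - 2 * m y ^ 2 := by
      rw [integral_congr (g := fun x => v (x, y) * (v (x, y) - m y) - m y * (v (x, y) - m y))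
        (fun x _ => by ring), integral_sub (Continuous.intervalIntegrable (by fun_prop) _ _)
          (Continuous.intervalIntegrable (by fun_prop) _ _), intervalIntegral.integral_const_mul,
        e0, e2]; ring
    rw [e2, e3] at e1
    have : 1 / ω ^ 2 = 2 * (1 / (2 * ω ^ 2)) := by field_simp
    rw [this]; linarith
  have e0 : ∫ y in c..d, m y = 0 := by
    simp only [m]; rw [intervalIntegral.integral_div, h0, zero_div]
  have hB : ∫ x in (-1 : ℝ)..1, ∫ y in c..d, v (x, y) * m y ≤ ∫ x in (-1 : ℝ)..1,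
      (1 / 2 * (∫ y in c..d, m y ^ 2) + 1 / (2 * ω ^ 2) * ∫ y in c..d, vy (x, y) ^ 2) :=
    integral_mono_on (by norm_num)
      ((cpar (G := fun p => v (p.2, p.1) * m p.1) (by fun_prop) c d).intervalIntegrable _ _)
      ((continuous_const.add ((cpar (G := fun p => vy (p.2, p.1) ^ 2) (by fun_prop) c d).const_mul
        _)).intervalIntegrable _ _)
      fun x _ => WP hm (hy x) (by fun_prop) hcd hω h2 e0
  rw [swap2 (G := fun p => v p * m p.2) (by fun_prop), integral_add intervalIntegrable_const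
    (((cpar (G := fun p => vy (p.2, p.1) ^ 2) (by fun_prop) c d).const_mul
      _).intervalIntegrable _ _), intervalIntegral.integral_const_mul (1 / (2 * ω ^ 2)),
    swap2 (G := fun p => vy p ^ 2) (by fun_prop), intervalIntegral.integral_const] at hB
  have e4 : ∫ y in c..d, ∫ x in (-1 : ℝ)..1, v (x, y) * m y = 2 * ∫ y in c..d, m y ^ 2 := by
    rw [← intervalIntegral.integral_const_mul]
    refine integral_congr fun y _ => ?_
    rw [intervalIntegral.integral_mul_const, hmv]; ring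
  simp only [e4, smul_eq_mul] at hB
  have c2 := cpar (G := fun p => vx p ^ 2) (by fun_prop) (-1) 1
  have c3 := cpar (G := fun p => vy p ^ 2) (by fun_prop) (-1) 1
  have hC := integral_mono_on (μ := volume) hcd
    ((cpar (G := fun p => v p ^ 2) (by fun_prop) (-1) 1).intervalIntegrable _ _)
    (Continuous.intervalIntegrable (by fun_prop) _ _) fun y _ => hA y
  rw [integral_add (Continuous.intervalIntegrable (by fun_prop) _ _)
    (Continuous.intervalIntegrable (by fun_prop) _ _), intervalIntegral.integral_const_mul,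
    intervalIntegral.integral_const_mul] at hC
  have e5 : ∫ y in c..d, ∫ x in (-1 : ℝ)..1, (vx (x, y) ^ 2 + vy (x, y) ^ 2) =
      (∫ y in c..d, ∫ x in (-1 : ℝ)..1, vx (x, y) ^ 2) +
        ∫ y in c..d, ∫ x in (-1 : ℝ)..1, vy (x, y) ^ 2 := by
    rw [← integral_add (c2.intervalIntegrable _ _) (c3.intervalIntegrable _ _)]
    exact integral_congr fun y _ => integral_add (Continuous.intervalIntegrable (by fun_prop) _ _)
      (Continuous.intervalIntegrable (by fun_prop) _ _)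
  rw [e5]
  have e6 : 1 / ω ^ 2 = 2 * (1 / (2 * ω ^ 2)) := by field_simp
  have e7 : ω ^ 2 * (1 / (2 * ω ^ 2)) = 1 / 2 := by field_simp
  rw [e6] at hC
  have hD := mul_le_mul_of_nonneg_left hC (sq_nonneg ω)
  have hE := mul_le_mul_of_nonneg_left hB (sq_nonneg ω)
  set k := 1 / (2 * ω ^ 2)
  set X := ∫ y in c..d, ∫ x in (-1 : ℝ)..1, vx (x, y) ^ 2
  set Y := ∫ y in c..d, ∫ x in (-1 : ℝ)..1, vy (x, y) ^ 2
  set M := ∫ y in c..d, m y ^ 2
  have e8 : ω ^ 2 * (2 * M + 2 * k * X) = 2 * (ω ^ 2 * M) + X := by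
    linear_combination (2 * X) * e7
  have e9 : ω ^ 2 * ((1 - -1) * (1 / 2 * M) + k * Y) = ω ^ 2 * M + Y / 2 := by
    linear_combination Y * e7
  rw [e8] at hD
  rw [e9] at hE
  linarith

/-- the rectangle. -/
def Rc : Set (ℝ × ℝ) := Ioo (-1) 1 ×ˢ Ioo (-10 / 3) (2 / 3)

lemma int_Rc {G : ℝ × ℝ → ℝ} (hG : Continuous G) :
    ∫ p in Rc, G p = ∫ y in (-10 / 3 : ℝ)..(2 / 3), ∫ x in (-1 : ℝ)..1, G (x, y) := by
  rw [← swap2 hG, Rc, Measure.volume_eq_prod, setIntegral_prod _ (by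
    rw [← Measure.volume_eq_prod]
    exact (hG.continuousOn.integrableOn_compact (isCompact_Icc.prod isCompact_Icc)).mono_set
      (prod_mono Ioo_subset_Icc_self Ioo_subset_Icc_self)),
    integral_of_le (by norm_num), integral_Ioc_eq_integral_Ioo]
  congr 1; funext x
  rw [integral_of_le (by norm_num), integral_Ioc_eq_integral_Ioo]

lemma restr {Ω : Set (ℝ × ℝ)} {l : ℝ}
    (h : ∃ u : Fin (2 + 1) → ℝ × ℝ → ℝ, (∀ i, ContDiff ℝ 1 (u i)) ∧
      ∀ c : Fin (2 + 1) → ℝ, c ≠ 0 → 0 < mass Ω (fun p => ∑ i, c i * u i p) ∧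
        energy Ω (fun p => ∑ i, c i * u i p) ≤ l * mass Ω (fun p => ∑ i, c i * u i p)) :
    ∃ u : Fin (1 + 1) → ℝ × ℝ → ℝ, (∀ i, ContDiff ℝ 1 (u i)) ∧
      ∀ c : Fin (1 + 1) → ℝ, c ≠ 0 → 0 < mass Ω (fun p => ∑ i, c i * u i p) ∧
        energy Ω (fun p => ∑ i, c i * u i p) ≤ l * mass Ω (fun p => ∑ i, c i * u i p) := by
  obtain ⟨u, hu, h⟩ := h
  refine ⟨fun i => u i.castSucc, fun i => hu _, fun c hc => ?_⟩
  have := h (Fin.snoc c 0) (fun h0 => hc (funext fun i => by simpa using congrFun h0 i.castSucc))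
  simpa only [Fin.sum_univ_castSucc (n := 2), Fin.snoc_castSucc, Fin.snoc_last, zero_mul,
    add_zero] using this

lemma bdd (Ω : Set (ℝ × ℝ)) (k : ℕ) : BddBelow {l : ℝ | ∃ u : Fin (k + 1) → ℝ × ℝ → ℝ,
    (∀ i, ContDiff ℝ 1 (u i)) ∧
    ∀ c : Fin (k + 1) → ℝ, c ≠ 0 → 0 < mass Ω (fun p => ∑ i, c i * u i p) ∧
      energy Ω (fun p => ∑ i, c i * u i p) ≤ l * mass Ω (fun p => ∑ i, c i * u i p)} := by
  refine ⟨0, ?_⟩
  rintro l ⟨u, -, hu⟩
  obtain ⟨h2, h3⟩ := hu 1 one_ne_zero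
  have h4 : 0 ≤ energy Ω fun p => ∑ i, (1 : Fin (k + 1) → ℝ) i * u i p :=
    integral_nonneg fun p => by positivity
  exact nonneg_of_mul_nonneg_left (h4.trans h3) h2

lemma pd {v : ℝ × ℝ → ℝ} (hv : ContDiff ℝ 1 v) :
    (∀ y x, HasDerivAt (fun x => v (x, y)) (fderiv ℝ v (x, y) (1, 0)) x) ∧
    (∀ x y, HasDerivAt (fun y => v (x, y)) (fderiv ℝ v (x, y) (0, 1)) y) :=
  ⟨fun y x => (hv.differentiable one_ne_zero (x, y)).hasFDerivAt.comp_hasDerivAt x
      ((hasDerivAt_id x).prodMk (hasDerivAt_const x y)),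
    fun x y => (hv.differentiable one_ne_zero (x, y)).hasFDerivAt.comp_hasDerivAt y
      ((hasDerivAt_const y x).prodMk (hasDerivAt_id y))⟩

end

end Pool.Agent.H58.Nm
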