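import Pool.Agent.H58.Pd1

set_option autoImplicit false

namespace Pool.Agent.H58.Nm

open MeasureTheory Set intervalIntegral
open scoped Real

noncomputable section

lemma ip {f : ℝ → ℝ} (a0 a1 a2 a3 a4 a5 a6 a7 a b : ℝ)
    (h : ∀ x, f x = a0 + a1 * x + a2 * x ^ 2 + a3 * x ^ 3 + a4 * x ^ 4 + a5 * x ^ 5 + a6 * x ^ 6 +
      a7 * x ^ 7) :
    ∫ x in a..b, f x = a0 * (b - a) + a1 * (b ^ 2 - a ^ 2) / 2 + a2 * (b ^ 3 - a ^ 3) / 3 +
      a3 * (b ^ 4 - a ^ 4) / 4 + a4 * (b ^ 5 - a ^ 5) / 5 + a5 * (b ^ 6 - a ^ 6) / 6 +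
      a6 * (b ^ 7 - a ^ 7) / 7 + a7 * (b ^ 8 - a ^ 8) / 8 := by
  have e : ∫ x in a..b, a1 * x = a1 * ((b ^ 2 - a ^ 2) / 2) := by
    rw [intervalIntegral.integral_const_mul, integral_id]
  rw [funext h]
  simp (disch := exact Continuous.intervalIntegrable (by fun_prop) _ _) only
    [intervalIntegral.integral_add, e,
    intervalIntegral.integral_const_mul, integral_pow, intervalIntegral.integral_const,
    smul_eq_mul]
  push_cast
  ring

lemma trig {f : ℝ → ℝ} (A B C D E F : ℝ)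
    (h : ∀ t, f t = A + B * Real.cos t + C * Real.sin t + D * Real.cos t ^ 2 +
      E * (Real.sin t * Real.cos t) + F * Real.sin t ^ 2) :
    ∫ t in (-π)..π, f t = 2 * π * A + π * (D + F) := by
  rw [funext h]
  simp (disch := exact Continuous.intervalIntegrable (by fun_prop) _ _) only
    [intervalIntegral.integral_add,
    intervalIntegral.integral_const_mul, integral_cos, integral_sin, integral_cos_sq,
    integral_sin_sq, integral_sin_mul_cos₁, intervalIntegral.integral_const, smul_eq_mul]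
  simp
  ring

lemma meas_disc (z : ℝ × ℝ) (R : ℝ) : MeasurableSet (disc z R) :=
  (isOpen_lt (by fun_prop) (by fun_prop)).measurableSet

lemma intOn_disc (z : ℝ × ℝ) {R : ℝ} (hR : 0 < R) {G : ℝ × ℝ → ℝ} (hG : Continuous G) :
    IntegrableOn G (disc z R) :=
  (hG.continuousOn.integrableOn_compact ((isCompact_Icc (a := z.1 - R) (b := z.1 + R)).prod
    (isCompact_Icc (a := z.2 - R) (b := z.2 + R)))).mono_set fun p hp => by
      have hp' : (p.1 - z.1) ^ 2 + (p.2 - z.2) ^ 2 < R ^ 2 := hp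
      have h1 := abs_lt_of_sq_lt_sq' (a := p.1 - z.1) (b := R) (by nlinarith) hR.le
      have h2 := abs_lt_of_sq_lt_sq' (a := p.2 - z.2) (b := R) (by nlinarith) hR.le
      exact ⟨⟨by linarith [h1.1], by linarith [h1.2]⟩, ⟨by linarith [h2.1], by linarith [h2.2]⟩⟩

lemma int_disc (z : ℝ × ℝ) {R : ℝ} (hR : 0 < R) {G : ℝ × ℝ → ℝ} (hG : Continuous G) :
    ∫ p in disc z R, G p =
      ∫ r in (0 : ℝ)..R, ∫ t in (-π)..π, r * G (z.1 + r * Real.cos t, z.2 + r * Real.sin t) := by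
  have hc : Continuous fun p : ℝ × ℝ =>
      p.1 * G (z.1 + p.1 * Real.cos p.2, z.2 + p.1 * Real.sin p.2) := by fun_prop
  rw [← MeasureTheory.integral_indicator (meas_disc z R), ← integral_add_left_eq_self _ z,
    ← integral_comp_polarCoord_symm, polarCoord_target,
    setIntegral_congr_fun (measurableSet_Ioi.prod measurableSet_Ioo)
      (g := (Iio R ×ˢ univ).indicator fun p : ℝ × ℝ =>
        p.1 * G (z.1 + p.1 * Real.cos p.2, z.2 + p.1 * Real.sin p.2)) ?_,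
    setIntegral_indicator (measurableSet_Iio.prod MeasurableSet.univ), prod_inter_prod,
    Ioi_inter_Iio, inter_univ, Measure.volume_eq_prod, setIntegral_prod _ (by
      rw [← Measure.volume_eq_prod]
      exact (hc.continuousOn.integrableOn_compact (isCompact_Icc.prod isCompact_Icc)).mono_set
        (prod_mono Ioo_subset_Icc_self Ioo_subset_Icc_self)),
    integral_of_le hR.le, integral_Ioc_eq_integral_Ioo]
  · congr 1; funext x
    rw [integral_of_le (by linarith [Real.pi_pos]), integral_Ioc_eq_integral_Ioo]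
  · rintro ⟨r, t⟩ ⟨hr, -⟩
    have hr' : 0 < r := hr
    have e : (z.1 + r * Real.cos t - z.1) ^ 2 + (z.2 + r * Real.sin t - z.2) ^ 2 = r ^ 2 := by
      linear_combination r ^ 2 * Real.cos_sq_add_sin_sq t
    have e' : z + polarCoord.symm (r, t) = (z.1 + r * Real.cos t, z.2 + r * Real.sin t) := rfl
    simp only [e', smul_eq_mul]
    by_cases h : r < R
    · rw [indicator_of_mem (show _ ∈ disc z R by
        simp only [disc, mem_ofPred_eq, e]; nlinarith), indicator_of_mem (by simpa using h)]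
    · rw [indicator_of_notMem (show _ ∉ disc z R by
        simp only [disc, mem_ofPred_eq, e]; nlinarith), indicator_of_notMem (by simpa using h),
        mul_zero]

lemma area_eq (D : Set (ℝ × ℝ)) : area D = ∫ _ in D, (1 : ℝ) := by simp [area, Measure.real]

lemma area_disc (z : ℝ × ℝ) {R : ℝ} (hR : 0 < R) : area (disc z R) = π * R ^ 2 := by
  rw [area_eq, int_disc z hR continuous_const,
    ip 0 (2 * π) 0 0 0 0 0 0 _ _ fun r => by rw [trig r 0 0 0 0 0 fun t => by ring]; ring]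
  ring

lemma ratio (D : Set (ℝ × ℝ)) : area D ^ 2 / inertia D ≤ 2 * π := by
  have hπ := Real.pi_pos
  set c := centroid D
  by_cases hi : IntegrableOn (fun p : ℝ × ℝ => (p.1 - c.1) ^ 2 + (p.2 - c.2) ^ 2) D
  swap
  · rw [inertia, integral_undef hi, div_zero]; positivity
  by_cases hV : area D = 0
  · rw [hV]; simp; positivity
  have hV0 : 0 < area D := lt_of_le_of_ne ENNReal.toReal_nonneg (Ne.symm hV)
  have hfin : volume D ≠ ⊤ := fun h => hV (by simp [area, h])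
  set ρ := Real.sqrt (area D / π)
  have hρ : 0 < ρ := Real.sqrt_pos.mpr (by positivity)
  have hρ2 : ρ ^ 2 = area D / π := Real.sq_sqrt (by positivity)
  have hcq : Continuous fun p : ℝ × ℝ => ρ ^ 2 - ((p.1 - c.1) ^ 2 + (p.2 - c.2) ^ 2) := by fun_prop
  have hφ := (integrable_indicator_iff (meas_disc c ρ)).mpr (intOn_disc c hρ hcq)
  have h1 : ∫ p in D, (ρ ^ 2 - ((p.1 - c.1) ^ 2 + (p.2 - c.2) ^ 2)) ≤ π * ρ ^ 4 / 2 := by
    refine (integral_mono ((integrableOn_const hfin).sub hi) hφ.integrableOn fun p => ?_).trans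
      ((setIntegral_le_integral hφ (Filter.Eventually.of_forall fun p => ?_)).trans_eq ?_)
    · by_cases h : p ∈ disc c ρ
      · rw [indicator_of_mem h]; exact le_rfl
      · rw [indicator_of_notMem h]
        simpa [disc] using h
    · by_cases h : p ∈ disc c ρ
      · rw [indicator_of_mem h]
        exact sub_nonneg.mpr (le_of_lt h)
      · rw [indicator_of_notMem h]; rfl
    · rw [MeasureTheory.integral_indicator (meas_disc c ρ), int_disc c hρ hcq,
        ip 0 (2 * π * ρ ^ 2) 0 (-2 * π) 0 0 0 0 _ _ fun r => by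
          rw [trig (r * ρ ^ 2) 0 0 (-r ^ 3) 0 (-r ^ 3) fun t => by simp only; ring]; ring]
      ring
  have hk : IntegrableOn (fun _ : ℝ × ℝ => ρ ^ 2) D := integrableOn_const hfin
  rw [MeasureTheory.integral_sub hk hi, setIntegral_const, smul_eq_mul] at h1
  have h2 : area D * ρ ^ 2 - inertia D ≤ π * ρ ^ 4 / 2 := h1
  have h3 : area D = π * ρ ^ 2 := by rw [hρ2]; field_simp
  refine div_le_of_le_mul₀ (integral_nonneg fun p => by positivity) (by positivity) ?_
  rw [h3] at h2 ⊢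
  nlinarith

lemma cub {g : ℝ → ℝ} (a0 a1 a2 a3 s x : ℝ)
    (h : ∀ t, g t = a0 + a1 * (t - s) + a2 * (t - s) ^ 2 + a3 * (t - s) ^ 3) :
    HasDerivAt g (a1 + 2 * a2 * (x - s) + 3 * a3 * (x - s) ^ 2) x := by
  rw [funext h]
  have h1 := (hasDerivAt_id' x).sub_const s
  exact ((((h1.const_mul a1).const_add a0).fun_add ((h1.fun_pow 2).const_mul a2)).fun_add
    ((h1.fun_pow 3).const_mul a3)).congr_deriv (by norm_num; ring)

lemma trial_disc (z : ℝ × ℝ) {R : ℝ} (hR : 0 < R) :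
    ∃ u : Fin (2 + 1) → ℝ × ℝ → ℝ, (∀ i, ContDiff ℝ 1 (u i)) ∧
      ∀ c : Fin (2 + 1) → ℝ, c ≠ 0 → 0 < mass (disc z R) (fun p => ∑ i, c i * u i p) ∧
        energy (disc z R) (fun p => ∑ i, c i * u i p) ≤
          (1008 / 297 / R ^ 2) * mass (disc z R) (fun p => ∑ i, c i * u i p) := by
  have hπ := Real.pi_pos
  obtain ⟨k, hk⟩ : ∃ k : ℝ, k = 1 / (3 * R ^ 2) := ⟨_, rfl⟩
  refine ⟨![fun _ => 1, fun p => (p.1 - z.1) * (1 - k * ((p.1 - z.1) ^ 2 + (p.2 - z.2) ^ 2)),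
    fun p => (p.2 - z.2) * (1 - k * ((p.1 - z.1) ^ 2 + (p.2 - z.2) ^ 2))], fun i => ?_,
    fun c hc => ?_⟩
  · fin_cases i <;> simp <;> fun_prop
  obtain ⟨v, hv⟩ : ∃ v : ℝ × ℝ → ℝ, v = fun p => c 0 + (c 1 * (p.1 - z.1) + c 2 * (p.2 - z.2)) *
      (1 - k * ((p.1 - z.1) ^ 2 + (p.2 - z.2) ^ 2)) := ⟨_, rfl⟩
  have e : (fun p : ℝ × ℝ => ∑ i, c i * (![fun _ => 1,
      fun p => (p.1 - z.1) * (1 - k * ((p.1 - z.1) ^ 2 + (p.2 - z.2) ^ 2)),
      fun p => (p.2 - z.2) * (1 - k * ((p.1 - z.1) ^ 2 + (p.2 - z.2) ^ 2))] :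
        Fin (2 + 1) → ℝ × ℝ → ℝ) i p) = v := by
    funext p; rw [hv]; simp [Fin.sum_univ_three]; ring
  rw [e]
  have hd : ContDiff ℝ 1 v := by rw [hv]; fun_prop
  have hx : ∀ x y, fderiv ℝ v (x, y) (1, 0) = c 1 * (1 - k * (y - z.2) ^ 2) +
      2 * (-k * c 2 * (y - z.2)) * (x - z.1) + 3 * (-k * c 1) * (x - z.1) ^ 2 := fun x y =>
    ((pd hd).1 y x).unique (cub (c 0 + c 2 * (y - z.2) * (1 - k * (y - z.2) ^ 2)) _ _ _ _ _
      fun t => by rw [hv]; ring)
  have hy : ∀ x y, fderiv ℝ v (x, y) (0, 1) = c 2 * (1 - k * (x - z.1) ^ 2) +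
      2 * (-k * c 1 * (x - z.1)) * (y - z.2) + 3 * (-k * c 2) * (y - z.2) ^ 2 := fun x y =>
    ((pd hd).2 x y).unique (cub (c 0 + c 1 * (x - z.1) * (1 - k * (x - z.1) ^ 2)) _ _ _ _ _
      fun t => by rw [hv]; ring)
  have hf := hd.continuous_fderiv one_ne_zero
  have hm : mass (disc z R) v = c 0 ^ 2 * π * R ^ 2 + (c 1 ^ 2 + c 2 ^ 2) * (11 * π * R ^ 4 / 72) := by
    have hc0 := hd.continuous
    rw [mass, int_disc z hR (G := fun p => v p ^ 2) (by fun_prop),
      ip 0 (2 * π * c 0 ^ 2) 0 (π * (c 1 ^ 2 + c 2 ^ 2)) 0 (-2 * k * π * (c 1 ^ 2 + c 2 ^ 2)) 0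
        (k ^ 2 * π * (c 1 ^ 2 + c 2 ^ 2)) _ _ fun r => by
        rw [trig (r * c 0 ^ 2) (2 * c 0 * c 1 * r ^ 2 * (1 - k * r ^ 2))
          (2 * c 0 * c 2 * r ^ 2 * (1 - k * r ^ 2)) (c 1 ^ 2 * r ^ 3 * (1 - k * r ^ 2) ^ 2)
          (2 * c 1 * c 2 * r ^ 3 * (1 - k * r ^ 2) ^ 2) (c 2 ^ 2 * r ^ 3 * (1 - k * r ^ 2) ^ 2)
          fun t => by
            have e1 : (r * Real.cos t) ^ 2 + (r * Real.sin t) ^ 2 = r ^ 2 := by
              linear_combination r ^ 2 * Real.cos_sq_add_sin_sq t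
            simp only [hv, add_sub_cancel_left, e1]; ring]
        ring, hk]
    field_simp; ring
  have he : energy (disc z R) v = (c 1 ^ 2 + c 2 ^ 2) * (14 * π * R ^ 2 / 27) := by
    rw [energy, int_disc z hR (by fun_prop),
      ip 0 (2 * π * (c 1 ^ 2 + c 2 ^ 2)) 0 (-8 * k * π * (c 1 ^ 2 + c 2 ^ 2)) 0
        (10 * k ^ 2 * π * (c 1 ^ 2 + c 2 ^ 2)) 0 0 _ _ fun r => by
        rw [trig (r * (1 - k * r ^ 2) ^ 2 * (c 1 ^ 2 + c 2 ^ 2)) 0 0
          (c 1 ^ 2 * r ^ 3 * (8 * k ^ 2 * r ^ 2 - 4 * k))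
          (2 * c 1 * c 2 * r ^ 3 * (8 * k ^ 2 * r ^ 2 - 4 * k))
          (c 2 ^ 2 * r ^ 3 * (8 * k ^ 2 * r ^ 2 - 4 * k))
          fun t => by
            have e1 := Real.cos_sq_add_sin_sq t
            simp only [hx, hy, add_sub_cancel_left]
            set a := Real.cos t
            set b := Real.sin t
            have e2 : c 1 * (1 - k * (r * b) ^ 2) + 2 * (-k * c 2 * (r * b)) * (r * a) +
                3 * (-k * c 1) * (r * a) ^ 2 =
                c 1 * (1 - k * r ^ 2) - 2 * k * r ^ 2 * a * (c 1 * a + c 2 * b) := by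
              linear_combination (-k * c 1 * r ^ 2) * e1
            have e3 : c 2 * (1 - k * (r * a) ^ 2) + 2 * (-k * c 1 * (r * a)) * (r * b) +
                3 * (-k * c 2) * (r * b) ^ 2 =
                c 2 * (1 - k * r ^ 2) - 2 * k * r ^ 2 * b * (c 1 * a + c 2 * b) := by
              linear_combination (-k * c 2 * r ^ 2) * e1
            rw [e2, e3]
            linear_combination (4 * k ^ 2 * r ^ 5 * (c 1 * a + c 2 * b) ^ 2) * e1]
        ring, hk]
    field_simp; ring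
  rw [hm, he]
  have h0 : 0 < c 0 ^ 2 + (c 1 ^ 2 + c 2 ^ 2) := by
    by_contra h
    refine hc (funext fun i => ?_)
    fin_cases i <;> simp <;> nlinarith [sq_nonneg (c 0), sq_nonneg (c 1), sq_nonneg (c 2)]
  constructor
  · rcases (sq_nonneg (c 0)).eq_or_lt with h | h
    · have : 0 < c 1 ^ 2 + c 2 ^ 2 := by linarith
      positivity
    · positivity
  · have : 1008 / 297 / R ^ 2 * (c 0 ^ 2 * π * R ^ 2 + (c 1 ^ 2 + c 2 ^ 2) * (11 * π * R ^ 4 / 72)) =
        1008 / 297 * (c 0 ^ 2 * π) + (c 1 ^ 2 + c 2 ^ 2) * (14 * π * R ^ 2 / 27) := by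
      field_simp; ring
    rw [this]
    exact le_add_of_nonneg_left (by positivity)

lemma F3_disc (z : ℝ × ℝ) {R : ℝ} (hR : 0 < R) : F3 (disc z R) ≤ 135 := by
  have hπ := Real.pi_pos
  have h1 : mu (disc z R) 2 ≤ 1008 / 297 / R ^ 2 := csInf_le (bdd _ _) (trial_disc z hR)
  have h2 : mu (disc z R) 1 ≤ 1008 / 297 / R ^ 2 := csInf_le (bdd _ _) (restr (trial_disc z hR))
  have h3 := ratio (polar (disc z R))
  have h4 : 0 ≤ area (polar (disc z R)) ^ 2 / inertia (polar (disc z R)) :=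
    div_nonneg (sq_nonneg _) (integral_nonneg fun p => by positivity)
  rw [F3, area_disc z hR]
  calc _ ≤ (1008 / 297 / R ^ 2 + 1008 / 297 / R ^ 2) * (π * R ^ 2) * (2 * π) :=
        mul_le_mul (mul_le_mul_of_nonneg_right (add_le_add h2 h1) (by positivity)) h3 h4
          (by positivity)
    _ = 4032 / 297 * π ^ 2 := by field_simp; ring
    _ ≤ 135 := by nlinarith [Real.pi_lt_d2]

end

end Pool.Agent.H58.Nm
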