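import Pool.Agent.H58.Pd2

set_option autoImplicit false

namespace Pool.Agent.H58.Nm

open MeasureTheory Set intervalIntegral
open scoped Real

noncomputable section

lemma trial_Rc :
    ∃ u : Fin (2 + 1) → ℝ × ℝ → ℝ, (∀ i, ContDiff ℝ 1 (u i)) ∧
      ∀ c : Fin (2 + 1) → ℝ, c ≠ 0 → 0 < mass Rc (fun p => ∑ i, c i * u i p) ∧
        energy Rc (fun p => ∑ i, c i * u i p) ≤ 3 * mass Rc (fun p => ∑ i, c i * u i p) := by
  refine ⟨![fun _ => 1, fun p => p.1, fun p => p.2 + 4 / 3], fun i => ?_, fun c hc => ?_⟩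
  · fin_cases i <;> simp <;> fun_prop
  obtain ⟨v, hv⟩ : ∃ v : ℝ × ℝ → ℝ, v = fun p => c 0 + c 1 * p.1 + c 2 * (p.2 + 4 / 3) :=
    ⟨_, rfl⟩
  have e : (fun p : ℝ × ℝ => ∑ i, c i * (![fun _ => 1, fun p => p.1, fun p => p.2 + 4 / 3] :
        Fin (2 + 1) → ℝ × ℝ → ℝ) i p) = v := by
    funext p; rw [hv]; simp [Fin.sum_univ_three]
  rw [e]
  have hd : ContDiff ℝ 1 v := by rw [hv]; fun_prop
  have hx : ∀ x y, fderiv ℝ v (x, y) (1, 0) = c 1 + 2 * 0 * (x - 0) + 3 * 0 * (x - 0) ^ 2 :=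
    fun x y => ((pd hd).1 y x).unique (cub (c 0 + c 2 * (y + 4 / 3)) _ _ _ _ _
      fun t => by rw [hv]; ring)
  have hy : ∀ x y, fderiv ℝ v (x, y) (0, 1) = c 2 + 2 * 0 * (y - 0) + 3 * 0 * (y - 0) ^ 2 :=
    fun x y => ((pd hd).2 x y).unique (cub (c 0 + c 1 * x + c 2 * (4 / 3)) _ _ _ _ _
      fun t => by rw [hv]; ring)
  have hf := hd.continuous_fderiv one_ne_zero
  have hc0 := hd.continuous
  have hm : mass Rc v = 8 * c 0 ^ 2 + 8 / 3 * c 1 ^ 2 + 32 / 3 * c 2 ^ 2 := by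
    rw [mass, int_Rc (G := fun p => v p ^ 2) (by fun_prop),
      ip (2 * (c 0 + c 2 * (4 / 3)) ^ 2 + 2 / 3 * c 1 ^ 2) (4 * (c 0 + c 2 * (4 / 3)) * c 2)
        (2 * c 2 ^ 2) 0 0 0 0 0 _ _ fun y => by
        rw [ip ((c 0 + c 2 * (y + 4 / 3)) ^ 2) (2 * (c 0 + c 2 * (y + 4 / 3)) * c 1) (c 1 ^ 2)
          0 0 0 0 0 _ _ fun x => by simp only [hv]; ring]
        ring]
    ring
  have he : energy Rc v = 8 * (c 1 ^ 2 + c 2 ^ 2) := by
    rw [energy, int_Rc (by fun_prop),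
      ip (2 * (c 1 ^ 2 + c 2 ^ 2)) 0 0 0 0 0 0 0 _ _ fun y => by
        rw [ip (c 1 ^ 2 + c 2 ^ 2) 0 0 0 0 0 0 0 _ _ fun x => by simp only [hx, hy]; ring]
        ring]
    ring
  rw [hm, he]
  have h0 : 0 < c 0 ^ 2 + (c 1 ^ 2 + c 2 ^ 2) := by
    by_contra h
    refine hc (funext fun i => ?_)
    fin_cases i <;> simp <;> nlinarith [sq_nonneg (c 0), sq_nonneg (c 1), sq_nonneg (c 2)]
  constructor <;> nlinarith [sq_nonneg (c 0), sq_nonneg (c 1), sq_nonneg (c 2)]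

lemma lin2 {n : ℕ} {u : Fin n → ℝ × ℝ → ℝ} (hu : ∀ i, Continuous (u i)) (c : Fin n → ℝ)
    (a b : ℝ) : ∫ y in a..b, ∫ x in (-1 : ℝ)..1, ∑ i, c i * u i (x, y) =
      ∑ i, c i * ∫ y in a..b, ∫ x in (-1 : ℝ)..1, u i (x, y) := by
  have h1 : ∀ y, ∫ x in (-1 : ℝ)..1, ∑ i, c i * u i (x, y) =
      ∑ i, c i * ∫ x in (-1 : ℝ)..1, u i (x, y) := fun y => by
    rw [intervalIntegral.integral_finsetSum fun i _ =>
      Continuous.intervalIntegrable (by have := hu i; fun_prop) _ _]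
    simp only [intervalIntegral.integral_const_mul]
  simp only [h1]
  rw [intervalIntegral.integral_finsetSum fun i _ =>
    ((cpar (hu i) _ _).const_mul _).intervalIntegrable _ _]
  simp only [intervalIntegral.integral_const_mul]

lemma mu1_Rc : (3.14 / 4) ^ 2 ≤ mu Rc 1 := by
  refine le_csInf ⟨_, restr trial_Rc⟩ ?_
  rintro l ⟨u, hu, hl⟩
  obtain ⟨c, hc0, hc⟩ : ∃ c : Fin (1 + 1) → ℝ, c ≠ 0 ∧
      ∑ i, c i * ∫ y in (-10 / 3 : ℝ)..(2 / 3), ∫ x in (-1 : ℝ)..1, u i (x, y) = 0 := by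
    let L : (Fin (1 + 1) → ℝ) →ₗ[ℝ] ℝ :=
      ∑ i, (∫ y in (-10 / 3 : ℝ)..(2 / 3), ∫ x in (-1 : ℝ)..1, u i (x, y)) • LinearMap.proj i
    obtain ⟨c, hc, hc0⟩ := Submodule.exists_mem_ne_zero_of_ne_bot
      (LinearMap.ker_ne_bot_of_finrank_lt (f := L) (by simp))
    refine ⟨c, hc0, ?_⟩
    simpa [L, mul_comm] using hc
  obtain ⟨h3, h4⟩ := hl c hc0
  rw [← lin2 fun i => (hu i).continuous] at hc
  set v : ℝ × ℝ → ℝ := fun p => ∑ i, c i * u i p
  have hd : ContDiff ℝ 1 v := by fun_prop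
  have hf := hd.continuous_fderiv one_ne_zero
  have hc0 := hd.continuous
  have h5 := rectP (vx := fun p => fderiv ℝ v p (1, 0)) (vy := fun p => fderiv ℝ v p (0, 1))
    hc0 (by fun_prop) (by fun_prop) (pd hd).1 (pd hd).2 (ω := 3.14 / 4) (by norm_num) (by norm_num)
    (by linarith [Real.pi_gt_d2]) (by linarith [Real.pi_gt_d2]) hc
  rw [mass, int_Rc (G := fun p => v p ^ 2) (by fun_prop)] at h3 h4
  rw [energy, int_Rc (by fun_prop)] at h4
  exact le_of_mul_le_mul_right (h5.trans h4) h3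

lemma mu2_Rc : (3.14 / 2) ^ 2 ≤ mu Rc 2 := by
  refine le_csInf ⟨_, trial_Rc⟩ ?_
  rintro l ⟨u, hu, hl⟩
  obtain ⟨c, hc0, hc, hc'⟩ : ∃ c : Fin (2 + 1) → ℝ, c ≠ 0 ∧
      ∑ i, c i * ∫ y in (-10 / 3 : ℝ)..(-4 / 3), ∫ x in (-1 : ℝ)..1, u i (x, y) = 0 ∧
      ∑ i, c i * ∫ y in (-4 / 3 : ℝ)..(2 / 3), ∫ x in (-1 : ℝ)..1, u i (x, y) = 0 := by
    let L : (Fin (2 + 1) → ℝ) →ₗ[ℝ] ℝ :=
      ∑ i, (∫ y in (-10 / 3 : ℝ)..(-4 / 3), ∫ x in (-1 : ℝ)..1, u i (x, y)) • LinearMap.proj i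
    let L' : (Fin (2 + 1) → ℝ) →ₗ[ℝ] ℝ :=
      ∑ i, (∫ y in (-4 / 3 : ℝ)..(2 / 3), ∫ x in (-1 : ℝ)..1, u i (x, y)) • LinearMap.proj i
    obtain ⟨c, hc, hc0⟩ := Submodule.exists_mem_ne_zero_of_ne_bot
      (LinearMap.ker_ne_bot_of_finrank_lt (f := L.prod L') (by simp))
    rw [LinearMap.ker_prod] at hc
    refine ⟨c, hc0, ?_, ?_⟩
    · simpa [L, mul_comm] using hc.1
    · simpa [L', mul_comm] using hc.2
  obtain ⟨h3, h4⟩ := hl c hc0
  rw [← lin2 fun i => (hu i).continuous] at hc hc'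
  set v : ℝ × ℝ → ℝ := fun p => ∑ i, c i * u i p
  have hd : ContDiff ℝ 1 v := by fun_prop
  have hf := hd.continuous_fderiv one_ne_zero
  have hc0 := hd.continuous
  have h5 := rectP (vx := fun p => fderiv ℝ v p (1, 0)) (vy := fun p => fderiv ℝ v p (0, 1))
    hc0 (by fun_prop) (by fun_prop) (pd hd).1 (pd hd).2 (ω := 3.14 / 2) (by norm_num) (by norm_num)
    (by linarith [Real.pi_gt_d2]) (by linarith [Real.pi_gt_d2]) hc
  have h6 := rectP (vx := fun p => fderiv ℝ v p (1, 0)) (vy := fun p => fderiv ℝ v p (0, 1))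
    hc0 (by fun_prop) (by fun_prop) (pd hd).1 (pd hd).2 (ω := 3.14 / 2) (by norm_num) (by norm_num)
    (by linarith [Real.pi_gt_d2]) (by linarith [Real.pi_gt_d2]) hc'
  have c1 := cpar (G := fun p => v p ^ 2) (by fun_prop) (-1) 1
  have c2 := cpar (G := fun p => fderiv ℝ v p (1, 0) ^ 2 + fderiv ℝ v p (0, 1) ^ 2)
    (by fun_prop) (-1) 1
  have h7 := add_le_add h5 h6
  rw [← mul_add, integral_add_adjacent_intervals (c1.intervalIntegrable _ _)
    (c1.intervalIntegrable _ _), integral_add_adjacent_intervals (c2.intervalIntegrable _ _)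
    (c2.intervalIntegrable _ _)] at h7
  rw [mass, int_Rc (G := fun p => v p ^ 2) (by fun_prop)] at h3 h4
  rw [energy, int_Rc (by fun_prop)] at h4
  exact le_of_mul_le_mul_right (h7.trans h4) h3

lemma polar_Rc : polar Rc = {p | p.1 ∈ Ioo (-1 : ℝ) 1 ∧
    p.2 ∈ Ioo (-3 / 10 * (1 - |p.1|)) (3 / 2 * (1 - |p.1|))} := by
  ext ⟨x, y⟩
  simp only [polar, Rc, closure_prod_eq, closure_Ioo (show (-1 : ℝ) ≠ 1 by norm_num),
    closure_Ioo (show (-10 / 3 : ℝ) ≠ 2 / 3 by norm_num), mem_ofPred_eq, mem_Ioo]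
  constructor
  · intro h
    have h1 := h (1, 2 / 3) ⟨by norm_num, by norm_num⟩
    have h2 := h (-1, 2 / 3) ⟨by norm_num, by norm_num⟩
    have h3 := h (1, -10 / 3) ⟨by norm_num, by norm_num⟩
    have h4 := h (-1, -10 / 3) ⟨by norm_num, by norm_num⟩
    simp only at h1 h2 h3 h4
    rcases abs_cases x with ⟨e, _⟩ | ⟨e, _⟩ <;> rw [e] <;>
      exact ⟨⟨by linarith, by linarith⟩, by linarith, by linarith⟩
  · rintro ⟨-, h3, h4⟩ ⟨s, t⟩ ⟨⟨s1, s2⟩, t1, t2⟩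
    simp only at s1 s2 t1 t2 ⊢
    have h5 : x * s ≤ |x| := by rcases abs_cases x with ⟨e, _⟩ | ⟨e, _⟩ <;> rw [e] <;> nlinarith
    rcases le_total 0 y with hy | hy <;> nlinarith

lemma int_kite {F : ℝ × ℝ → ℝ} (hF : Continuous F) :
    ∫ p in polar Rc, F p =
      ∫ x in (-1 : ℝ)..1, ∫ y in (-3 / 10 * (1 - |x|))..(3 / 2 * (1 - |x|)), F (x, y) := by
  have hm : MeasurableSet (polar Rc) := by
    rw [polar_Rc]
    refine IsOpen.measurableSet (IsOpen.and (IsOpen.and ?_ ?_) (IsOpen.and ?_ ?_)) <;>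
      exact isOpen_lt (by fun_prop) (by fun_prop)
  have hi : IntegrableOn F (polar Rc) :=
    (hF.continuousOn.integrableOn_compact ((isCompact_Icc (a := -1) (b := 1)).prod
      (isCompact_Icc (a := -1) (b := 2)))).mono_set fun p hp => by
        rw [polar_Rc] at hp
        obtain ⟨⟨h1, h2⟩, h3, h4⟩ := hp
        exact ⟨⟨h1.le, h2.le⟩, by linarith [abs_nonneg p.1], by linarith [abs_nonneg p.1]⟩
  rw [← MeasureTheory.integral_indicator hm, Measure.volume_eq_prod, integral_prod _ (by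
    rw [← Measure.volume_eq_prod]; exact (integrable_indicator_iff hm).mpr hi),
    intervalIntegral.integral_of_le (by norm_num), integral_Ioc_eq_integral_Ioo,
    ← MeasureTheory.integral_indicator measurableSet_Ioo, polar_Rc]
  congr 1; funext x
  by_cases hx : x ∈ Ioo (-1 : ℝ) 1
  · have h1 : |x| < 1 := abs_lt.mpr hx
    rw [indicator_of_mem hx, intervalIntegral.integral_of_le (by linarith),
      integral_Ioc_eq_integral_Ioo, ← MeasureTheory.integral_indicator measurableSet_Ioo]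
    congr 1; funext y
    by_cases hy : y ∈ Ioo (-3 / 10 * (1 - |x|)) (3 / 2 * (1 - |x|))
    · rw [indicator_of_mem hy, indicator_of_mem (by exact ⟨hx, hy⟩)]
    · rw [indicator_of_notMem hy, indicator_of_notMem (by exact fun h => hy h.2)]
  · rw [indicator_of_notMem hx]
    refine (MeasureTheory.integral_congr_ae (Filter.Eventually.of_forall fun y => ?_)).trans
      (MeasureTheory.integral_zero _ _)
    exact indicator_of_notMem (by exact fun h => hx h.1) _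

lemma iabs {f : ℝ → ℝ} (φ : ℝ × ℝ → ℝ) (hφ : Continuous φ) (h : ∀ x, f x = φ (x, |x|)) :
    ∫ x in (-1 : ℝ)..1, f x = (∫ x in (-1 : ℝ)..0, φ (x, -x)) + ∫ x in (0 : ℝ)..1, φ (x, x) := by
  rw [funext h, ← integral_add_adjacent_intervals (b := 0)
    (Continuous.intervalIntegrable (by fun_prop) _ _)
    (Continuous.intervalIntegrable (by fun_prop) _ _)]
  congr 1
  · exact integral_congr fun x hx => by
      rw [uIcc_of_le (by norm_num)] at hx
      simp only [abs_of_nonpos hx.2]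
  · exact integral_congr fun x hx => by
      rw [uIcc_of_le (by norm_num)] at hx
      simp only [abs_of_nonneg hx.1]

lemma area_kite : area (polar Rc) = 9 / 5 := by
  rw [area_eq, int_kite continuous_const, iabs (fun p => 9 / 5 * (1 - p.2)) (by fun_prop)
      fun x => by rw [ip 1 0 0 0 0 0 0 0 _ _ fun y => by ring]; ring,
    ip (9 / 5) (9 / 5) 0 0 0 0 0 0 _ _ fun y => by ring,
    ip (9 / 5) (-9 / 5) 0 0 0 0 0 0 _ _ fun y => by ring]
  norm_num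

lemma cent_kite : centroid (polar Rc) = (0, 2 / 5) := by
  rw [centroid, area_kite, int_kite continuous_fst, int_kite continuous_snd,
    iabs (fun p => 9 / 5 * p.1 * (1 - p.2)) (by fun_prop)
      fun x => by rw [ip x 0 0 0 0 0 0 0 _ _ fun y => by ring]; ring,
    iabs (fun p => 27 / 25 * (1 - p.2) ^ 2) (by fun_prop)
      fun x => by rw [ip 0 1 0 0 0 0 0 0 _ _ fun y => by ring]; ring,
    ip 0 (9 / 5) (9 / 5) 0 0 0 0 0 _ _ fun y => by ring,
    ip 0 (9 / 5) (-9 / 5) 0 0 0 0 0 _ _ fun y => by ring,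
    ip (27 / 25) (54 / 25) (27 / 25) 0 0 0 0 0 _ _ fun y => by ring,
    ip (27 / 25) (-54 / 25) (27 / 25) 0 0 0 0 0 _ _ fun y => by ring]
  norm_num

lemma inertia_kite : inertia (polar Rc) = 579 / 1000 := by
  rw [inertia, cent_kite, int_kite (by fun_prop),
    iabs (fun p => 9 / 5 * (p.1 ^ 2 + 4 / 25) * (1 - p.2) - 108 / 125 * (1 - p.2) ^ 2 +
      567 / 500 * (1 - p.2) ^ 3) (by fun_prop)
      fun x => by rw [ip (x ^ 2 + 4 / 25) (-4 / 5) 1 0 0 0 0 0 _ _ fun y => by ring]; ring,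
    ip (279 / 500) (981 / 500) (2169 / 500) (1467 / 500) 0 0 0 0 _ _ fun y => by ring,
    ip (279 / 500) (-981 / 500) (2169 / 500) (-1467 / 500) 0 0 0 0 _ _ fun y => by ring]
  norm_num

lemma area_Rc : area Rc = 8 := by
  rw [area_eq, int_Rc continuous_const]; norm_num

lemma F3_Rc : 137 ≤ F3 Rc := by
  rw [F3, area_Rc, area_kite, inertia_kite]
  linarith [mu1_Rc, mu2_Rc]

end

end Pool.Agent.H58.Nm
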