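import Pool.Agent.H58.TriHex

namespace Pool.Agent.H58.FirstVar
open MeasureTheory Set Filter Topology Pointwise

noncomputable def M : Fin 6 → E4 →L[ℝ] ℝ :=
  ![-EuclideanSpace.proj 0, -EuclideanSpace.proj 1, EuclideanSpace.proj 0 + EuclideanSpace.proj 1,
    -EuclideanSpace.proj 2, -EuclideanSpace.proj 3, EuclideanSpace.proj 2 + EuclideanSpace.proj 3]

lemma PM (k : Fin 6 → ℝ) :
    P M k = {x | (x 0, x 1) ∈ tri (k 0) (k 1) (k 2) ∧ (x 2, x 3) ∈ tri (k 3) (k 4) (k 5)} := by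
  ext x; simp [P, M, tri, Fin.forall_fin_succ, and_assoc]

lemma PN (k : Fin 6 → ℝ) :
    P (-M) k = {x | (x 0, x 1) ∈ itri (k 0) (k 1) (k 2) ∧ (x 2, x 3) ∈ itri (k 3) (k 4) (k 5)} := by
  ext x; simp [P, M, itri, Fin.forall_fin_succ, and_assoc]

lemma PB (k : Fin 6 ⊕ Fin 6 → ℝ) : P (Sum.elim M (-M)) k = {x |
    (x 0, x 1) ∈ tri (k (.inl 0)) (k (.inl 1)) (k (.inl 2)) ∩
      itri (k (.inr 0)) (k (.inr 1)) (k (.inr 2)) ∧
    (x 2, x 3) ∈ tri (k (.inl 3)) (k (.inl 4)) (k (.inl 5)) ∩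
      itri (k (.inr 3)) (k (.inr 4)) (k (.inr 5))} := by
  have : P (Sum.elim M (-M)) k = P M (k ∘ .inl) ∩ P (-M) (k ∘ .inr) := by
    ext x; simp [P]
  rw [this, PM, PN]; ext x; simp only [mem_inter_iff, mem_ofPred_eq, Function.comp]; tauto

def k0 : Fin 6 → ℝ := ![0, 0, 1, 0, 0, 1]

lemma ev {a : ℝ} (b : ℝ) (h : 0 < a) : ∀ᶠ t : ℝ in 𝓝 0, 0 < a + t * b :=
  continuousAt_const.eventually_lt (by fun_prop) (by simpa using h)

lemma lin (a b : ℝ) : HasDerivAt (fun t : ℝ => a + t * b) b 0 := by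
  simpa using ((hasDerivAt_id (0 : ℝ)).mul_const b).const_add a

lemma volM (k : Fin 6 → ℝ) :
    volume (P M k) = volume (tri (k 0) (k 1) (k 2)) * volume (tri (k 3) (k 4) (k 5)) := by
  rw [PM, vol_prod (tri_meas ..) (tri_meas ..)]

lemma volN (k : Fin 6 → ℝ) : volume (P (-M) k) = volume (P M k) := by
  rw [PN, vol_prod (itri_meas ..) (itri_meas ..), volM, itri_eq, itri_eq]

lemma finM (k : Fin 6 → ℝ) : volume (P M k) ≠ ⊤ := by
  rw [volM]; exact ENNReal.mul_ne_top (tri_fin _ _ _) (tri_fin _ _ _)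

lemma dM (v : Fin 6 → ℝ) : HasDerivAt (fun t : ℝ => (volume (P M (k0 + t • v))).toReal)
    (∑ i, (2 * τ ^ 2) * v i) 0 := by
  refine (((((lin 1 (v 0 + v 1 + v 2)).fun_pow 2).mul_const τ).fun_mul
    (((lin 1 (v 3 + v 4 + v 5)).fun_pow 2).mul_const τ)).congr_deriv
    (by simp [Fin.sum_univ_six]; ring)).congr_of_eventuallyEq ?_
  filter_upwards [ev (v 0 + v 1 + v 2) one_pos, ev (v 3 + v 4 + v 5) one_pos] with t h1 h2
  rw [volM, ENNReal.toReal_mul, ← Measure.real, ← Measure.real,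
    tri_vol (by simp [k0]; linarith), tri_vol (by simp [k0]; linarith)]
  simp [k0]; ring

lemma dH {s : ℝ} (hs : 0 < s) (a c f b d e : ℝ) : HasDerivAt (fun t : ℝ => volume.real
    (tri (s + t * a) (s + t * c) (s + t * f) ∩ itri (s + t * b) (s + t * d) (s + t * e)))
    (2 * s * τ * (a + c + f + b + d + e)) 0 := by
  refine (((((((lin (3 * s) (a + c + f)).fun_pow 2).fun_sub ((lin s (-b + c + f)).fun_pow 2)).fun_sub
    ((lin s (a - d + f)).fun_pow 2)).fun_sub ((lin s (a + c - e)).fun_pow 2)).mul_const τ).congr_deriv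
    (by simp; ring)).congr_of_eventuallyEq ?_
  filter_upwards [ev (-b + c + f) hs, ev (a - d + f) hs, ev (a + c - e) hs, ev (b + d - f) hs,
    ev (b + e - c) hs, ev (d + e - a) hs] with t h1 h2 h3 h4 h5 h6
  rw [hex_vol (by linarith) (by linarith) (by linarith) (by linarith) (by linarith) (by linarith)]
  ring

lemma dB (v : Fin 6 ⊕ Fin 6 → ℝ) :
    HasDerivAt (fun t : ℝ => (volume (P (Sum.elim M (-M)) ((fun _ => 1) + t • v))).toReal)
      (∑ i, 12 * τ ^ 2 * v i) 0 := by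
  have m := fun a c f b d e => (tri_meas a c f).inter (itri_meas b d e)
  have h0 : volume.real (tri 1 1 1 ∩ itri 1 1 1) = 6 * τ := by
    rw [hex_vol (by linarith) (by linarith) (by linarith) (by linarith) (by linarith) (by linarith)]
    ring
  refine (((dH one_pos (v (.inl 0)) (v (.inl 1)) (v (.inl 2)) (v (.inr 0)) (v (.inr 1))
    (v (.inr 2))).fun_mul (dH one_pos (v (.inl 3)) (v (.inl 4)) (v (.inl 5)) (v (.inr 3))
    (v (.inr 4)) (v (.inr 5)))).congr_deriv ?_).congr_of_eventuallyEq (.of_forall fun t => ?_)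
  swap
  · beta_reduce
    rw [PB, vol_prod (m ..) (m ..), ENNReal.toReal_mul]; rfl
  · simp only [zero_mul, add_zero, h0, Fintype.sum_sum_type, Fin.sum_univ_six]
    ring

lemma P_convex {ι : Type} (n : ι → E4 →L[ℝ] ℝ) (k : ι → ℝ) : Convex ℝ (P n k) := by
  simp only [P, ofPred_forall]
  exact convex_iInter fun i => convex_halfSpace_le (n i).isLinear _

lemma P_int {ι : Type} [Finite ι] (n : ι → E4 →L[ℝ] ℝ) (k : ι → ℝ) (x : E4) (h : ∀ i, n i x < k i) :
    (interior (P n k)).Nonempty :=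
  ⟨x, mem_interior_iff_mem_nhds.2 (Filter.mem_of_superset (eventually_all.2 fun i =>
    (n i).continuous.continuousAt.eventually_lt continuousAt_const (h i))
    fun _ hy i => (hy i).le)⟩

lemma cptM (k : Fin 6 → ℝ) : IsCompact (P M k) := by
  refine Metric.isCompact_of_isClosed_isBounded (P_closed _ _) ?_
  have hb : Bornology.IsBounded (Icc ![-k 0, -k 1, -k 3, -k 4]
    ![k 2 + k 1, k 2 + k 0, k 5 + k 4, k 5 + k 3]) := Metric.isBounded_Icc _ _
  refine ((PiLp.antilipschitzWith_ofLp 2 fun _ : Fin 4 => ℝ).isBounded_preimage hb).subset ?_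
  rw [PM]
  rintro x ⟨⟨a1, a2, a3⟩, b1, b2, b3⟩
  constructor <;> intro i <;> fin_cases i <;> simp at * <;> linarith

lemma negK : -P M k0 = P (-M) k0 := by ext x; simp [P]

lemma mx (x : ℝ) : max x 0 - max (-x) 0 = x := max_zero_sub_max_neg_zero_eq_self x

lemma inT {x y : ℝ} (h1 : x ≤ 1) (h2 : y ≤ 1) (h3 : x + y ≤ 1) :
    (max x 0, max y 0) ∈ tri 0 0 1 := by
  refine ⟨by simp, by simp, ?_⟩
  rcases le_total x 0 with a | a <;> rcases le_total y 0 with b | b <;> simp [*]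

lemma diffK : P M k0 + -P M k0 = P (Sum.elim M (-M)) fun _ => 1 := by
  ext x
  constructor
  · rintro ⟨y, hy, z, hz, rfl⟩
    rw [Set.mem_neg] at hz
    rw [PM] at hy hz
    rw [PB]
    simp [tri, itri, k0] at hy hz ⊢
    refine ⟨⟨⟨?_, ?_, ?_⟩, ?_, ?_, ?_⟩, ⟨?_, ?_, ?_⟩, ?_, ?_, ?_⟩ <;> linarith
  · rw [PB]
    rintro ⟨⟨⟨a1, a2, a3⟩, a4, a5, a6⟩, ⟨b1, b2, b3⟩, b4, b5, b6⟩
    refine ⟨!₂[max (x 0) 0, max (x 1) 0, max (x 2) 0, max (x 3) 0], ?_,
      -!₂[max (-x 0) 0, max (-x 1) 0, max (-x 2) 0, max (-x 3) 0], ?_, ?_⟩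
    · rw [PM]; exact ⟨inT a4 a5 a3, inT b4 b5 b3⟩
    · rw [Set.neg_mem_neg, PM]
      exact ⟨inT a1 a2 (by linarith), inT b1 b2 (by linarith)⟩
    · ext i; fin_cases i <;> exact (sub_eq_add_neg _ _).symm.trans (mx _)

lemma hullK : P M k0 = convexHull ℝ (({0, !₂[1, 0, 0, 0], !₂[0, 1, 0, 0]} +
    {0, !₂[0, 0, 1, 0], !₂[0, 0, 0, 1]} : Finset E4) : Set E4) := by
  classical
  refine subset_antisymm ?_ (convexHull_min ?_ (P_convex _ _))
  · rw [Finset.coe_add, convexHull_add, PM]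
    rintro x ⟨⟨a1, a2, a3⟩, b1, b2, b3⟩
    simp [k0] at a1 a2 a3 b1 b2 b3
    have t : ∀ (p q : E4) (a b : ℝ), 0 ≤ a → 0 ≤ b → a + b ≤ 1 →
        a • p + b • q ∈ convexHull ℝ (({0, p, q} : Finset E4) : Set E4) := fun p q a b ha hb h => by
      have := (convex_convexHull ℝ (({0, p, q} : Finset E4) : Set E4)).sum_mem
        (t := Finset.univ) (w := ![1 - a - b, a, b]) (z := ![0, p, q])
        (fun i _ => by fin_cases i <;> simp <;> linarith) (by simp [Fin.sum_univ_three]; ring)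
        fun i _ => subset_convexHull _ _ (by fin_cases i <;> simp)
      simpa [Fin.sum_univ_three] using this
    refine ⟨_, t _ _ _ _ a1 a2 a3, _, t _ _ _ _ b1 b2 b3, ?_⟩
    ext i; fin_cases i <;> simp
  · rw [Finset.coe_add, PM]
    rintro _ ⟨x, hx, y, hy, rfl⟩
    simp only [Finset.coe_insert, Finset.coe_singleton, mem_insert_iff, mem_singleton_iff] at hx hy
    rcases hx with rfl | rfl | rfl <;> rcases hy with rfl | rfl | rfl <;> simp [tri, k0]

end Pool.Agent.H58.FirstVar
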