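import Mathlib
import Pool.Agent.H58.Psp1

set_option autoImplicit false

namespace Pool.Agent.H58.Psp

open Finset

theorem psp {a b L : ℕ} (ha : 1 < a) (hb : 1 < b) (h1 : a * b ∣ 2 ^ L - 1) (h2 : a * b ≡ 1 [MOD L]) :
    Nat.FermatPsp (a * b) 2 := by
  have h3 : 1 < a * b := by nlinarith
  exact ⟨h1.trans (Nat.pow_sub_one_dvd_pow_sub_one _ ((Nat.modEq_iff_dvd' h3.le).1 h2.symm)),
    Nat.not_prime_mul ha.ne' hb.ne', h3⟩

def A (q a : ℕ) : ℕ := (2 ^ ((q + 1) * a) + 1) / (2 ^ a + 1)

theorem A_mul {q : ℕ} (hq : Even q) (a : ℕ) : (2 ^ a + 1) * A q a = 2 ^ ((q + 1) * a) + 1 := by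
  refine Nat.mul_div_cancel' ?_
  have := hq.add_one.nat_add_dvd_pow_add_pow (2 ^ a) 1
  rwa [one_pow, ← pow_mul, mul_comm] at this

theorem A_real {q : ℕ} (hq : Even q) (a : ℕ) :
    ((2 : ℝ) ^ a + 1) * A q a = 2 ^ (q * a) * 2 ^ a + 1 := by
  rw [← pow_add, show q * a + a = (q + 1) * a by ring]
  exact_mod_cast A_mul hq a

def Ok (K m k r d : ℕ) : Prop :=
  r ≡ 1 [MOD 2 ^ K] ∧ (2 : ℝ) ^ d * (1 - 1 / 2 ^ m) ^ k ≤ r ∧ (r : ℝ) * (1 - 1 / 2 ^ m) ^ k ≤ 2 ^ d

theorem eta (m : ℕ) : (0 : ℝ) ≤ 1 - 1 / 2 ^ m ∧ (1 : ℝ) - 1 / 2 ^ m ≤ 1 := by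
  have : (1 : ℝ) / 2 ^ m ≤ 1 := by rw [div_le_one (by positivity)]; exact one_le_pow₀ (by norm_num)
  have : (0 : ℝ) ≤ 1 / 2 ^ m := by positivity
  constructor <;> linarith

theorem Ok.mul {K m k r d k' r' d' : ℕ} (h : Ok K m k r d) (h' : Ok K m k' r' d') :
    Ok K m (k + k') (r * r') (d + d') := by
  have := (eta m).1
  refine ⟨by simpa using h.1.mul h'.1, ?_, ?_⟩
  · push_cast
    rw [pow_add, pow_add, mul_mul_mul_comm]
    exact mul_le_mul h.2.1 h'.2.1 (by positivity) (by positivity)
  · push_cast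
    rw [pow_add, pow_add, mul_mul_mul_comm]
    exact mul_le_mul h.2.2 h'.2.2 (by positivity) (by positivity)

theorem Ok.mono {K m k r d k' : ℕ} (h : Ok K m k r d) (hk : k ≤ k') : Ok K m k' r d := by
  have := pow_le_pow_of_le_one (eta m).1 (eta m).2 hk
  refine ⟨h.1, le_trans ?_ h.2.1, le_trans ?_ h.2.2⟩ <;> gcongr

theorem ok_one (K m : ℕ) : Ok K m 0 1 0 := ⟨rfl, by simp, by simp⟩

theorem ok_prod {K m : ℕ} (I : Finset ℕ) (f g : ℕ → ℕ) (h : ∀ i ∈ I, Ok K m 1 (f i) (g i)) :
    Ok K m I.card (∏ i ∈ I, f i) (∑ i ∈ I, g i) := by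
  induction I using Finset.induction_on with
  | empty => simpa using ok_one K m
  | insert a s ha ih =>
    rw [prod_insert ha, sum_insert ha, card_insert_of_notMem ha, add_comm s.card]
    exact (h a (mem_insert_self _ _)).mul (ih fun i hi => h i (mem_insert_of_mem hi))

theorem B_mod {K a : ℕ} (hK : K ≤ a) : 2 ^ a + 1 ≡ 1 [MOD 2 ^ K] := by
  simpa using ((Nat.modEq_zero_iff_dvd.2 (pow_dvd_pow 2 hK)).add_right 1)

theorem A_mod {q K a : ℕ} (hq : Even q) (hK : K ≤ a) : A q a ≡ 1 [MOD 2 ^ K] := by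
  have h1 := (B_mod hK).mul_right (A q a)
  rw [A_mul hq, one_mul] at h1
  exact h1.symm.trans (B_mod (by nlinarith))

theorem ok_B {K m a : ℕ} (hK : K ≤ a) (hm : m ≤ a) : Ok K m 1 (2 ^ a + 1) a := by
  have h1 : (1 : ℝ) / 2 ^ a ≤ 1 / 2 ^ m := by gcongr; norm_num
  have h2 : (2 : ℝ) ^ a * (1 / 2 ^ a) = 1 := by field_simp
  have h3 : (0 : ℝ) < 2 ^ a := by positivity
  have h4 : (0 : ℝ) < 1 / 2 ^ m := by positivity
  refine ⟨B_mod hK, ?_, ?_⟩ <;> push_cast <;> nlinarith

theorem A_le {q : ℕ} (hq : Even q) (a : ℕ) : (A q a : ℝ) ≤ 2 ^ (q * a) := by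
  have h := A_real hq a
  have h3 : (0 : ℝ) < 2 ^ a + 1 := by positivity
  have h5 : (1 : ℝ) ≤ 2 ^ (q * a) := one_le_pow₀ (by norm_num)
  exact le_of_mul_le_mul_left (by nlinarith) h3

theorem ok_A {q K m a : ℕ} (hq : Even q) (hK : K ≤ a) (hm : m ≤ a) : Ok K m 1 (A q a) (q * a) := by
  have h1 : (1 : ℝ) / 2 ^ a ≤ 1 / 2 ^ m := by gcongr; norm_num
  have h2 : (2 : ℝ) ^ a * (1 / 2 ^ a) = 1 := by field_simp
  have h3 : (0 : ℝ) < 2 ^ a + 1 := by positivity
  have h4 : (0 : ℝ) < 1 / 2 ^ a := by positivity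
  have h5 : (0 : ℝ) < 2 ^ (q * a) := by positivity
  refine ⟨A_mod hq hK, ?_, ?_⟩
  · refine le_of_mul_le_mul_left ?_ h3
    rw [A_real hq, pow_one]
    have : ((2 : ℝ) ^ a + 1) * (1 - 1 / 2 ^ m) ≤ 2 ^ a := by nlinarith
    nlinarith
  · have := A_le hq a
    have := (eta m).2
    have : (0 : ℝ) ≤ A q a := by positivity
    nlinarith

theorem tel (m K : ℕ) : (2 ^ m - 1) * ∏ i ∈ range K, (2 ^ (m * 2 ^ i) + 1) = 2 ^ (m * 2 ^ K) - 1 := by
  induction K with
  | zero => simp
  | succ K ih =>
    rw [prod_range_succ, ← mul_assoc, ih, pow_succ, ← mul_assoc, pow_mul _ _ 2, mul_comm]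
    simpa using (Nat.sq_sub_sq (2 ^ (m * 2 ^ K)) 1).symm

theorem bits {t K : ℕ} (h : t < 2 ^ K) : ∃ J ⊆ range K, ∑ i ∈ J, 2 ^ i = t := by
  refine ⟨t.bitIndices.toFinset, fun i hi => mem_range.2 ?_, Finset.sum_toFinset_bitIndices_two_pow t⟩
  exact (Nat.pow_lt_pow_iff_right (by norm_num)).1
    ((Nat.two_pow_le_of_mem_bitIndices (List.mem_toFinset.1 hi)).trans_lt h)

def chk (c hi : ℕ) : List (ℕ × ℕ × ℕ) → ℕ → Bool
  | [], lo => hi ≤ lo
  | x :: l, lo => x.1 * x.2.1 < 2 * lo && chk c hi l (c * (x.1 * x.2.1) / 1000)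

theorem chk_spec (c hi : ℕ) (l : List (ℕ × ℕ × ℕ)) : ∀ lo, chk c hi l lo = true → ∀ y, lo ≤ y → y < hi →
    ∃ x ∈ l, x.1 * x.2.1 < 2 * y ∧ 1000 * (y + 1) ≤ c * (x.1 * x.2.1) := by
  induction l with
  | nil => intro lo h y h1 h2; simp [chk] at h; omega
  | cons x l ih =>
    intro lo h y h1 h2
    simp only [chk, Bool.and_eq_true, decide_eq_true_eq] at h
    rcases lt_or_ge y (c * (x.1 * x.2.1) / 1000) with h3 | h3
    · exact ⟨x, List.mem_cons_self, by omega, by omega⟩
    · obtain ⟨z, hz, h4⟩ := ih _ h.2 y h3 h2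
      exact ⟨z, List.mem_cons_of_mem _ hz, h4⟩

def low : List (ℕ × ℕ × ℕ) := [
  (11, 31, 10),
  (3, 215, 28),
  (5, 221, 24),
  (23, 89, 11),
  (37, 109, 36),
  (73, 109, 36),
  (7, 2263, 45),
  (103, 307, 102),
  (3, 20915, 1012),
  (59, 2089, 58),
  (401, 601, 200),
  (337, 1429, 84),
  (23, 41339, 462),
  (11, 172451, 780),
  (13, 286657, 60),
  (13, 558397, 120),
  (1321, 10261, 60),
  (41, 653981, 420),
  (41, 1256321, 180),
  (7, 14561383, 180),
  (151, 1337791, 120),
  (41, 9723881, 360),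
  (73, 10529497, 180),
  (14449, 105589, 420),
  (109, 27700309, 72),
  (113, 53370353, 84),
  (61, 197200201, 60),
  (11, 2181091211, 120),
  (41, 1159152401, 120),
  (37, 2490135193, 180),
  (41, 4368271601, 360),
  (122921, 2907521, 420),
  (281, 2515417661, 420),
  (13, 107855392417, 180),
  (41, 67842590321, 180),
  (13, 424003341517, 180),
  (181, 60167201941, 360),
  (257, 84126669713, 240),
  (11, 3918338015531, 120),
  (181, 475926956821, 360),
  (152041, 1126602961, 420),
  (18837001, 18162001, 360),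
  (14449, 47293731829, 420),
  (433, 3156314040937, 360),
  (331, 8090180887651, 240),
  (61681, 86776195441, 240),
  (18837001, 554104261, 180),
  (13, 1593582886662157, 420),
  (109, 378877575447469, 180),
  (11, 7415866538028491, 120),
  (181, 898442548816501, 360),
  (13, 24660863992713157, 420),
  (29, 21964959755274509, 420),
  (19, 66019208655120679, 180),
  (31, 79371671578999891, 180),
  (14449, 340005047724469, 420),
  (73, 132786483028641937, 360),
  (1321, 14674086637133521, 420),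
  (1564921, 24742287604861, 420),
  (11, 7022697142707096971, 360),
  (4278255361, 36082179601, 240),
  (23311, 13198182241650211, 180),
  (13, 47176126380680300377, 180),
  (7, 173921136471835518103, 120),
  (421, 5766494751739638001, 420),
  (4278255361, 1120250383681, 240),
  (23311, 410846108976674371, 180),
  (7, 2723300621571011620963, 180),
  (18837001, 2020243955887261, 180),
  (61, 1240471008446134025821, 180),
  (5419, 27922289856665683039, 420),
  (337, 892597785400102780153, 420),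
  (122921, 4882663829811829181, 420),
  (73, 16286048691532490667097, 180),
  (14449, 164481465038964496669, 420),
  (7, 678506212251723692373043, 180),
  (113, 83076187091300676683537, 420),
  (1564921, 11994352525213482481, 420),
  (241, 154818424739152563029641, 120),
  (61, 1216212656013763113624061, 420),
  (54001, 2747579684331585396601, 360),
  (37, 8010572530991287340894833, 180),
  (181, 3252556118705985561172681, 180),
  (433, 2689011590990714219840977, 360),
  (151, 15398927674187261865120031, 180),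
  (11, 422283961899209259307910051, 240),
  (23311, 390837622040594238946051, 180),
  (241, 75583771947644464788164881, 240),
  (18837001, 1886950279921775406481, 180),
  (61, 1137398540094216638360495221, 240),
  (331, 413106240212808692537838631, 180),
  (7416361, 36188466160657531107241, 420),
  (1564921, 342342094338937351371721, 420),
  (631, 1697282764022002072570806151, 180),
  (37, 57875821741659947367908007793, 180),
  (181, 23580022533636364489860704821, 360),
  (31, 274287233815347388057838625391, 180),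
  (37, 458095652015889326974843481173, 180),
  (7, 4829209929355881120052209905983, 180),
  (11, 6096372396670972272150347655911, 180),
  (4278255361, 31127988740003903234641, 240),
  (127, 2089389748384924340944255831123, 420),
  (14449, 36354644994334886683775420929, 420),
  (61, 17199163949660771786784524875141, 240),
  (18837001, 104773857594693022610724421, 180),
  (631, 6236468751740619404658207252691, 180),
  (331, 23617578893348028124480569373111, 180),
  (17, 918152573741680991435274837797513, 360),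
  (257, 121337584380389264600802589538753, 240),
  (29247661, 2130989779115959687296807601, 180),
  (153063370478070000652274761, 803073601, 420),
  (73, 3351879104046467685065763343144057, 360),
  (421, 1135173211342109708107505098764721, 420),
  (61681, 15405810047227204554382801026241, 240),
  (41, 45968752707437022258829612184122361, 240),
  (41, 91412577517816483553800854596573201, 360),
  (673, 11120878304179835737620306801906337, 240),
  (41, 364873730889500575866772470719341301, 180),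
  (7, 4177424727968094998729299487593133023, 360)]

def cores : List (ℕ × ℕ × ℕ) := [
  (193, 214553332392223327260496888428269377, 0),
  (17, 4425761466005350567966862963569389809, 0),
  (17, 6727531315060515799804344069535363313, 0),
  (13, 12905525773618263645167497609975975621, 0),
  (5, 61525097935501882815433259974587108557, 0),
  (5, 88652459205127288121737008497645636813, 0),
  (13, 65526290985857760479147772419842526917, 0),
  (7, 239717126100234427329903902369815686583, 0),
  (5, 492169376232644988023932751255457025229, 0),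
  (17, 274650586183912261042494597640332833009, 0),
  (5, 1688770684617730441589449856580895427789, 0),
  (5, 3315062861966253410929907478351782137037, 0),
  (7, 4696943602839015714830757117531251764663, 0),
  (5, 12496931013610032822564364699665442327757, 0),
  (13, 8563213726161120678874866175370780495557, 0),
  (5, 43635871063873359476678848149083792395469, 0),
  (5, 81363734625990241339263619119414165425357, 0),
  (5, 151550194620007248393798876207191666511053, 0),
  (5, 296725487781975064569996192522020019555533, 0),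
  (5, 589284656305398072210589758732140976852173, 0),
  (5, 1152098282509690408554058967844448886115533, 0),
  (17, 676386562994371390233858894873157225738481, 0),
  (577, 38649469444198660930025247374911907892673, 0),
  (5, 8376248812534326054610909959555851376446669, 0),
  (13, 5728434081964598080392565672453257222442693, 0),
  (5, 28873866449384345431137593117513295018904781, 0),
  (5, 55842563610843561609111227510006560669355213, 0),
  (17, 31873326898612617904307854010702465378087153, 0),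
  (7, 152997833450243300718682639493751995071688119, 0),
  (5, 380484224804244813128050299734543413325384909, 0),
  (13, 288965929146512888482831192153912253460532933, 0),
  (7, 1027870776481027472643643890649120341948853687, 0),
  (19, 746940264137950473977239226441420356615916059, 0),
  (17, 1660343768930066550267508577871591432330735857, 0),
  (5, 11034202021218717251581992411667585727336860877, 0),
  (5, 21441668681973833647710264894577014554255740109, 0),
  (13, 15564899149902618042261872137912798433153928901, 0),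
  (7, 56510587379145686688538030485973053130100665783, 0),
  (97, 7640695125299874756873633915791562377689211809, 0),
  (7, 209162358337332216156654645152318853047621742007, 0)]

theorem low_range (x : ℕ) (h1 : 170 < x) (h2 : x < 2 ^ 124) : ∃ n, x < n ∧ n < 2 * x ∧ Nat.FermatPsp n 2 := by
  have h : ∀ x ∈ low, 1 < x.1 ∧ 1 < x.2.1 ∧ x.1 * x.2.1 ∣ 2 ^ x.2.2 - 1 ∧ x.1 * x.2.1 ≡ 1 [MOD x.2.2] := by
    decide +kernel
  obtain ⟨z, hz, h3, h4⟩ := chk_spec 1000 (2 ^ 124) low 171 (by decide +kernel) x h1 h2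
  obtain ⟨a, b, c, d⟩ := h z hz
  exact ⟨_, by omega, h3, psp a b c d⟩

theorem mid_range (x W : ℕ) (hW : W ≤ 2 ^ 17) (h1 : 2 ^ 124 ≤ x) (h2 : x < 2 ^ 124 * (2 ^ 36) ^ W) :
    ∃ n, x < n ∧ n < 2 * x ∧ Nat.FermatPsp n 2 := by
  have h : ∀ x ∈ cores, 1 < x.1 ∧ 1 < x.2.1 ∧ x.1 * x.2.1 ∣ (2 ^ 54 - 1) * ∏ i ∈ range 8, (2 ^ (18 * 2 ^ i) + 1) ∧
      x.1 * x.2.1 ≡ 1 [MOD 2 ^ 18] ∧ x.1 * x.2.1 ≡ 1 [MOD 27] := by decide +kernel
  have hx : x / 2 ^ 124 ≠ 0 := (Nat.div_pos h1 (by positivity)).ne'
  obtain ⟨t, ht1, ht2⟩ : ∃ t, 2 ^ 124 * (2 ^ 36) ^ t ≤ x ∧ x < 2 ^ 124 * (2 ^ 36) ^ (t + 1) := by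
    refine ⟨Nat.log (2 ^ 36) (x / 2 ^ 124), ?_, ?_⟩
    · rw [mul_comm]; exact (Nat.le_div_iff_mul_le (by positivity)).1 (Nat.pow_log_le_self _ hx)
    · rw [mul_comm]; exact (Nat.div_lt_iff_lt_mul (by positivity)).1 (Nat.lt_pow_succ_log_self (by norm_num) _)
  have ht : t < 2 ^ 17 := ((Nat.pow_lt_pow_iff_right (a := 2 ^ 36) (by norm_num)).1
    (Nat.lt_of_mul_lt_mul_left (ht1.trans_lt h2))).trans_le hW
  clear h2
  obtain ⟨J, hJ, rfl⟩ := bits ht
  have hp : 0 < (2 ^ 36) ^ ∑ i ∈ J, 2 ^ i := by positivity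
  obtain ⟨z, hz, h3, h4⟩ := chk_spec 999 (2 ^ 160) cores (2 ^ 124) (by decide +kernel) (x / (2 ^ 36) ^ ∑ i ∈ J, 2 ^ i)
    ((Nat.le_div_iff_mul_le hp).2 ht1) ((Nat.div_lt_iff_lt_mul hp).2 (by
      rwa [pow_succ (2 ^ 36), mul_comm _ (2 ^ 36), ← mul_assoc, ← pow_add] at ht2))
  obtain ⟨a, b, c, d, e⟩ := h z hz
  have hok := (ok_prod (K := 18) (m := 18) J (fun i => A 2 (18 * 2 ^ i)) (fun i => 2 * (18 * 2 ^ i)) fun i _ =>
    ok_A even_two (Nat.le_mul_of_pos_right _ (by positivity)) (Nat.le_mul_of_pos_right _ (by positivity))).mono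
    (show J.card ≤ 17 by simpa using card_le_card hJ)
  have hle : ((∏ i ∈ J, A 2 (18 * 2 ^ i) : ℕ) : ℝ) ≤ ∏ i ∈ J, 2 ^ (2 * (18 * 2 ^ i)) := by
    push_cast; exact prod_le_prod (fun i _ => by positivity) fun i _ => A_le even_two _
  have e1 : ∑ i ∈ J, 2 * (18 * 2 ^ i) = 36 * ∑ i ∈ J, 2 ^ i := by
    rw [mul_sum]; exact sum_congr rfl fun i _ => by ring
  rw [prod_pow_eq_pow_sum, e1, pow_mul] at hle
  have hge := hok.2.1
  rw [e1, pow_mul] at hge
  set P := ∏ i ∈ J, A 2 (18 * 2 ^ i) with hP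
  set T := (2 ^ 36) ^ ∑ i ∈ J, 2 ^ i with hT
  have hle' : P ≤ T := by rw [hT]; exact_mod_cast hle
  have hge' : 999 * T ≤ 1000 * P := by
    have h5 : (999 / 1000 : ℝ) ≤ (1 - 1 / 2 ^ 18) ^ 17 := by norm_num
    have h6 : (T : ℝ) = (2 ^ 36) ^ ∑ i ∈ J, 2 ^ i := by rw [hT, Nat.cast_pow, Nat.cast_pow, Nat.cast_ofNat]
    rw [← h6] at hge
    have h7 : (0 : ℝ) ≤ T := by positivity
    have : (999 * T : ℝ) ≤ 1000 * P := by nlinarith
    exact_mod_cast this
  have hx1 := Nat.div_mul_le_self x T
  have hx2 := Nat.lt_div_mul_add (a := x) hp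
  have hP0 : 0 < P := by omega
  refine ⟨z.1 * (z.2.1 * P), ?_, ?_, psp (L := 27 * 2 ^ 18) a (by nlinarith) ?_ ?_⟩
  · have h5 := Nat.mul_le_mul_right T h4
    have h6 := Nat.mul_le_mul_left (z.1 * z.2.1) hge'
    nlinarith
  · have h5 := Nat.mul_lt_mul_of_pos_right h3 hp
    have h6 := Nat.mul_le_mul_left (z.1 * z.2.1) hle'
    nlinarith
  · have h5 := tel 54 17
    rw [show 54 * 2 ^ 17 = 27 * 2 ^ 18 by norm_num] at h5
    rw [← h5, ← mul_assoc]
    have h6 : ∏ i ∈ range 17, (2 ^ (54 * 2 ^ i) + 1) =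
        (∏ i ∈ range 17, (2 ^ (18 * 2 ^ i) + 1)) * ∏ i ∈ range 17, A 2 (18 * 2 ^ i) := by
      rw [← prod_mul_distrib]
      exact prod_congr rfl fun i _ => by rw [A_mul even_two, ← mul_assoc, show (2 + 1) * 18 = 54 from rfl]
    rw [h6, ← mul_assoc]
    exact mul_dvd_mul (c.trans (mul_dvd_mul_left _ (prod_dvd_prod_of_subset _ _ _
      (range_subset_range.2 (by norm_num))))) (prod_dvd_prod_of_subset _ _ _ hJ)
  · rw [← mul_assoc]
    refine (Nat.modEq_and_modEq_iff_modEq_mul (by norm_num)).1 ⟨?_, by simpa using d.mul hok.1⟩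
    have h5 : ∀ i, A 2 (18 * 2 ^ i) ≡ 1 [MOD 27] := fun i => by
      have h6 : ∀ s, 2 ^ (18 * s) + 1 ≡ 2 [MOD 27] := fun s => by
        have := ((show 2 ^ 18 ≡ 1 [MOD 27] by decide).pow s).add_right 1
        rwa [← pow_mul, one_pow] at this
      have h7 := (h6 (2 ^ i)).mul_right (A 2 (18 * 2 ^ i))
      rw [A_mul even_two, show (2 + 1) * (18 * 2 ^ i) = 18 * (3 * 2 ^ i) by ring] at h7
      have := h7.symm.trans (h6 _)
      unfold Nat.ModEq at *
      omega
    have h8 : P ≡ 1 [MOD 27] := by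
      rw [hP]
      exact prod_induction _ (fun n => n ≡ 1 [MOD 27]) (fun a b ha hb => by simpa using ha.mul hb) rfl
        fun i _ => h5 i
    simpa using e.mul h8

end Pool.Agent.H58.Psp
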