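import Mathlib
import Pool.Agent.H58.Psp2

set_option autoImplicit false

namespace Pool.Agent.H58.Psp

open Finset

theorem lift (e s : ℕ) : ∃ h : ℕ, 1024 ^ (11 ^ e * s) = 1 + 11 ^ (e + 1) * (93 * s + 11 * h) := by
  induction e with
  | zero =>
    rw [pow_zero, one_mul]
    induction s with
    | zero => exact ⟨0, by simp⟩
    | succ s ih =>
      obtain ⟨h, ih⟩ := ih
      exact ⟨h + 93 * (93 * s + 11 * h), by rw [pow_succ, ih]; ring⟩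
  | succ e ih =>
    obtain ⟨h, ih⟩ := ih
    rw [pow_succ 11 e, mul_right_comm, pow_mul, ih, pow_succ 11 (e + 1), pow_succ 11 e]
    generalize hv : 93 * s + 11 * h = v
    generalize 11 ^ e = x
    refine ⟨h + (5 * x * v ^ 2 + 165 * x ^ 2 * v ^ 3 + 330 * 11 * x ^ 3 * v ^ 4 + 462 * 11 ^ 2 * x ^ 4 * v ^ 5 +
      462 * 11 ^ 3 * x ^ 5 * v ^ 6 + 330 * 11 ^ 4 * x ^ 6 * v ^ 7 + 165 * 11 ^ 5 * x ^ 7 * v ^ 8 +
      55 * 11 ^ 6 * x ^ 8 * v ^ 9 + 11 * 11 ^ 7 * x ^ 9 * v ^ 10 + 11 ^ 8 * x ^ 10 * v ^ 11), ?_⟩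
    rw [mul_add 11, ← add_assoc, hv]
    ring

def Dig (e x : ℕ) (a : ZMod 11) : Prop := ∃ U : ℕ, x = 1 + 11 ^ (e + 1) * U ∧ (U : ZMod 11) = a

theorem Dig.mul {e x y : ℕ} {a b : ZMod 11} (h : Dig e x a) (h' : Dig e y b) : Dig e (x * y) (a + b) := by
  obtain ⟨U, rfl, rfl⟩ := h
  obtain ⟨V, rfl, rfl⟩ := h'
  refine ⟨U + V + 11 * (11 ^ e * U * V), by ring, ?_⟩
  push_cast
  rw [show (11 : ZMod 11) = 0 from rfl, zero_mul, add_zero]

theorem dig_prod (e : ℕ) (I : Finset ℕ) (f : ℕ → ℕ) (g : ℕ → ZMod 11) (h : ∀ i, Dig e (f i) (g i)) :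
    Dig e (∏ i ∈ I, f i) (∑ i ∈ I, g i) := by
  induction I using Finset.induction_on with
  | empty => exact ⟨0, by simp, by simp⟩
  | insert a s ha ih => rw [prod_insert ha, sum_insert ha]; exact (h a).mul ih

theorem nz (e i : ℕ) : (2 : ZMod 11) ^ (11 ^ e * 2 ^ i) + 1 ≠ 0 := by
  have h : ∀ t < 110, t % 5 ≠ 0 → (2 : ZMod 11) ^ t + 1 ≠ 0 := by decide +kernel
  rw [← two_pow_mod]
  refine h _ (Nat.mod_lt _ (by norm_num)) ?_
  rw [Nat.mod_mod_of_dvd _ (by norm_num)]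
  intro h
  have h5 : Nat.Coprime 5 (11 ^ e * 2 ^ i) :=
    Nat.Coprime.mul_right (Nat.Coprime.pow_right _ (by norm_num)) (Nat.Coprime.pow_right _ (by norm_num))
  exact absurd (Nat.eq_one_of_self_dvd_coprime_aux h5 h) (by norm_num)
where Nat.eq_one_of_self_dvd_coprime_aux {a b : ℕ} (h : Nat.Coprime a b) (h' : b % a = 0) : a = 1 :=
  Nat.Coprime.eq_one_of_dvd h (Nat.dvd_of_mod_eq_zero h')

theorem dig_A (e i : ℕ) : Dig e (A 10 (11 ^ e * 2 ^ i)) (uz (2 ^ i)) := by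
  have : Fact (Nat.Prime 11) := ⟨by norm_num⟩
  obtain ⟨h, hl⟩ := lift e (2 ^ i)
  have hA := A_mul (q := 10) (by decide) (11 ^ e * 2 ^ i)
  have hn := nz e i
  have hy : (2 : ZMod 11) ^ (11 ^ e * 2 ^ i) = 2 ^ 2 ^ i := by rw [mul_comm, pow_mul, ZMod.pow_card_pow]
  rw [show (10 + 1) * (11 ^ e * 2 ^ i) = 10 * (11 ^ e * 2 ^ i) + 11 ^ e * 2 ^ i by ring, pow_add, pow_mul 2 10,
    show 2 ^ 10 = 1024 from rfl, hl] at hA
  have hc : ((2 ^ (11 ^ e * 2 ^ i) : ℕ) : ZMod 11) = 2 ^ 2 ^ i := by push_cast; exact hy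
  rw [hy] at hn
  generalize 2 ^ (11 ^ e * 2 ^ i) = y at hA hc
  obtain ⟨A', hA'⟩ : ∃ A', A 10 (11 ^ e * 2 ^ i) = 1 + A' := by
    refine Nat.exists_eq_add_of_le (Nat.pos_of_ne_zero fun h0 => ?_)
    rw [h0] at hA; omega
  rw [hA'] at hA ⊢
  have h1 : (y + 1) * A' = 11 ^ (e + 1) * (y * (93 * 2 ^ i + 11 * h)) := by nlinarith
  have h2 : Nat.Coprime (11 ^ (e + 1)) (y + 1) := by
    refine Nat.Coprime.pow_left _ ((Nat.Prime.coprime_iff_not_dvd (by norm_num)).2 fun h => hn ?_)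
    have := (ZMod.natCast_eq_zero_iff _ 11).2 h
    rwa [Nat.cast_add, hc, Nat.cast_one] at this
  obtain ⟨U, rfl⟩ := h2.dvd_of_dvd_mul_left ⟨_, h1⟩
  refine ⟨U, rfl, ?_⟩
  have h3 : (y + 1) * U = y * (93 * 2 ^ i + 11 * h) :=
    Nat.eq_of_mul_eq_mul_left (show 0 < 11 ^ (e + 1) by positivity) (by rw [← h1]; ring)
  have h4 := congrArg (Nat.cast : ℕ → ZMod 11) h3
  push_cast [hc] at h4
  rw [show (11 : ZMod 11) = 0 from rfl, show (93 : ZMod 11) = 5 from rfl] at h4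
  have h5 := ZMod.pow_card_sub_one_eq_one hn
  rw [uz]
  push_cast
  linear_combination (2 ^ 2 ^ i + 1) ^ 9 * h4 - U * h5

theorem base (j m D : ℕ) (hm : (m : ZMod 11) ≠ 0) (hD : D % 2 = 0) (e : ℕ) :
    ∃ r d, r ∣ ∏ k ∈ range 10, (2 ^ (11 ^ e * 2 ^ (j + 1 + k)) + 1) ∧ Ok (2 ^ j) (2 ^ (j + 1)) (10 * (e + 1)) r d ∧
      m * r ≡ 1 [MOD 11 ^ (e + 1)] ∧ d ≡ D [MOD 10 * 11 ^ e] ∧ d ≤ 11 ^ e * ∑ k ∈ range 10, 2 ^ (j + 1 + k) := by
  have hp : ∀ e k, 2 ^ (j + 1) ≤ 11 ^ e * 2 ^ (j + 1 + k) := fun e k =>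
    (Nat.pow_le_pow_right (by norm_num) (by omega)).trans (Nat.le_mul_of_pos_left _ (by positivity))
  have hj : 2 ^ j ≤ 2 ^ (j + 1) := Nat.pow_le_pow_right (by norm_num) (by omega)
  induction e with
  | zero =>
    obtain ⟨I, hI, h1, h2⟩ := lev0 j m hm D hD
    refine ⟨_, _, ?_, ?_, h1, h2, ?_⟩
    · simpa using prod_dvd_prod_of_subset _ _ _ hI
    · exact (ok_prod I _ _ fun k _ => ok_B (hj.trans (by simpa using hp 0 k)) (by simpa using hp 0 k)).mono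
        (by simpa using card_le_card hI)
    · simpa using sum_le_sum_of_subset hI
  | succ e ih =>
    obtain ⟨r, d, h1, h2, h3, h4, h5⟩ := ih
    have h6 : 1 ≤ m * r := Nat.pos_of_ne_zero fun h0 => by
      rw [h0] at h3
      have := Nat.le_of_dvd one_pos ((Nat.modEq_zero_iff_dvd.1 h3.symm))
      have := Nat.one_lt_pow (show e + 1 ≠ 0 by omega) (show 1 < 11 by norm_num)
      omega
    obtain ⟨a, ha⟩ := (Nat.modEq_iff_dvd' h6).1 h3.symm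
    obtain ⟨b, hb⟩ := h4.dvd
    obtain ⟨I, hI, h7, h8⟩ := lev1 j a b
    refine ⟨r * ∏ k ∈ I, A 10 (11 ^ e * 2 ^ (j + 1 + k)), d + ∑ k ∈ I, 10 * (11 ^ e * 2 ^ (j + 1 + k)),
      ?_, ?_, ?_, ?_, ?_⟩
    · refine (mul_dvd_mul h1 (prod_dvd_prod_of_subset _ _ _ hI)).trans (dvd_of_eq ?_)
      rw [← prod_mul_distrib]
      exact prod_congr rfl fun k _ => by rw [A_mul (by decide), pow_succ 11 e]; congr 2; ring
    · exact (h2.mul (ok_prod I _ _ fun k _ => ok_A (by decide) (hj.trans (hp e k)) (hp e k))).mono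
        (by have := card_le_card hI; simp at this; omega)
    · obtain ⟨U, hU, hU'⟩ := (show Dig e (m * r) a from ⟨a, by omega, rfl⟩).mul
        (dig_prod e I _ _ fun k => dig_A e (j + 1 + k))
      rw [h7] at hU'
      obtain ⟨V, rfl⟩ := (ZMod.natCast_eq_zero_iff _ 11).1 hU'
      rw [← mul_assoc, hU, ← mul_assoc, ← pow_succ]
      exact Nat.modEq_iff_dvd.2 ⟨-V, by push_cast; ring⟩
    · have h9 : ((b - ∑ k ∈ I, 2 ^ (j + 1 + k) : ℤ) : ZMod 11) = 0 := by push_cast; rw [h8, sub_self]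
      obtain ⟨V, hV⟩ := (ZMod.intCast_zmod_eq_zero_iff_dvd _ 11).1 h9
      refine Nat.modEq_iff_dvd.2 ⟨V, ?_⟩
      push_cast at hb hV ⊢
      rw [← mul_sum, ← mul_sum]
      linear_combination hb + 10 * 11 ^ e * hV
    · have := sum_le_sum_of_subset (f := fun k => 2 ^ (j + 1 + k)) hI
      rw [← mul_sum, ← mul_sum, pow_succ]
      nlinarith [Nat.mul_le_mul_left (11 ^ e) this]

end Pool.Agent.H58.Psp
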