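import Mathlib
import Pool.Agent.H58.Psp3

set_option autoImplicit false

namespace Pool.Agent.H58.Psp

open Finset

theorem big {K : ℕ} (hK : 16 ≤ K) : 96 * K ≤ 2 ^ K := by
  induction K, hK using Nat.le_induction with
  | base => norm_num
  | succ K hK ih => rw [pow_succ]; omega

theorem delta {K : ℕ} (hK : 16 ≤ K) : 1 - 1 / (8 * (2 : ℝ) ^ K) ≤ (1 - 1 / 2 ^ (2 * K)) ^ (12 * K) := by
  have h1 := one_add_mul_le_pow (show (-2 : ℝ) ≤ -(1 / 2 ^ (2 * K)) by linarith [(eta (2 * K)).1]) (12 * K)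
  rw [← sub_eq_add_neg] at h1
  refine le_trans ?_ h1
  have h2 : (96 * K : ℝ) ≤ 2 ^ K := by exact_mod_cast big hK
  have h3 : (12 * K : ℝ) * (1 / 2 ^ (2 * K)) ≤ 1 / (8 * 2 ^ K) := by
    rw [mul_one_div, div_le_div_iff₀ (by positivity) (by positivity), two_mul, pow_add]
    have : (0 : ℝ) < 2 ^ K := by positivity
    nlinarith
  push_cast
  linarith

theorem fill {j c E X dX : ℕ} (hj : 4 ≤ j) (hc : 2 ^ (j + 1) ≤ 11 ^ c) (hcj : c ≤ j)
    (h1 : 11 ^ c * 2 ^ (j + 11) ≤ E) (h2 : E < 10 * 11 ^ c * 2 ^ 2 ^ j)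
    (hX : X ∣ 2 ^ (11 ^ c * 2 ^ j) + 1) (hX2 : X ≡ 1 [MOD 2 ^ 2 ^ j]) (hX1 : 1 < X) (hX11 : (X : ZMod 11) ≠ 0)
    (hd : dX ≤ 10 * 2 ^ j) (hd2 : dX % 2 = 0) :
    ∃ Y d, dX + d = E ∧ Ok (2 ^ j) (2 * 2 ^ j) (12 * 2 ^ j) Y d ∧ Nat.FermatPsp (X * Y) 2 := by
  have hK : 16 ≤ 2 ^ j := (show 16 = 2 ^ 4 from rfl) ▸ Nat.pow_le_pow_right (by norm_num) hj
  have hjK : j + 11 ≤ 2 ^ j := by
    clear * - hj
    induction j, hj using Nat.le_induction with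
    | base => norm_num
    | succ K hK ih => rw [pow_succ]; omega
  have hodd : 11 ^ c % 2 = 1 := Nat.odd_iff.1 (Odd.pow (by decide))
  have e2 : 2 ^ (j + 1) = 2 * 2 ^ j := pow_succ' _ _
  obtain ⟨P, dP, hP1, hP2, hP3, hP4, hP5⟩ : ∃ P dP, P ∣ 2 ^ (11 ^ c * 2 ^ 0) + 1 ∧ Ok (2 ^ j) (2 ^ (j + 1)) 1 P dP ∧
      (P : ZMod 11) ≠ 0 ∧ dP ≤ 11 ^ c ∧ dP % 2 = E % 2 := by
    rcases Nat.mod_two_eq_zero_or_one E with h | h
    · exact ⟨1, 0, one_dvd _, (ok_one _ _).mono zero_le_one, by rw [Nat.cast_one]; decide, Nat.zero_le _, h.symm⟩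
    · refine ⟨2 ^ 11 ^ c + 1, 11 ^ c, by simp, ok_B (by omega) hc, ?_, le_rfl, by omega⟩
      simpa using nz c 0
  have hs : ∑ k ∈ range 10, 2 ^ (j + 1 + k) + 2 * 2 ^ j = 2 ^ (j + 11) := by
    simp only [sum_range_succ, range_zero, sum_empty]; ring
  have h11 : 11 ^ c ≤ 11 ^ c * 2 ^ j := Nat.le_mul_of_pos_right _ (by positivity)
  have h10 : 10 * 2 ^ j ≤ 11 ^ c * 2 ^ j := Nat.mul_le_mul_right _ (by omega)
  have : Fact (Nat.Prime 11) := ⟨by norm_num⟩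
  rw [← hs, mul_add, ← mul_assoc, mul_comm _ 2, mul_assoc] at h1
  obtain ⟨r, d, r1, r2, r3, r4, r5⟩ := base j (X * P) (E - dX - dP) (by push_cast; exact mul_ne_zero hX11 hP3)
    (by omega) c
  obtain ⟨t, ht⟩ := (Nat.modEq_iff_dvd' (show d ≤ E - dX - dP by omega)).1 r4
  have ht2 : t < 2 ^ 2 ^ j := Nat.lt_of_mul_lt_mul_left (a := 10 * 11 ^ c) (by omega)
  obtain ⟨J, hJ, rfl⟩ := bits ht2
  have hF := ok_prod (K := 2 ^ j) (m := 2 ^ (j + 1)) J (fun i => A 10 (11 ^ c * 2 ^ i)) (fun i => 10 * (11 ^ c * 2 ^ i))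
    fun i _ => ok_A (by decide) (le_trans (by omega) (Nat.le_mul_of_pos_right _ (by positivity)))
      (hc.trans (Nat.le_mul_of_pos_right _ (by positivity)))
  have hok := ((hP2.mul r2).mul hF).mono (k' := 12 * 2 ^ j) (by
    have := card_le_card hJ; rw [card_range] at this; omega)
  rw [e2, ← mul_sum, ← mul_sum, ← mul_assoc] at hok
  refine ⟨_, _, by omega, hok, psp (L := 11 ^ (c + 1) * 2 ^ 2 ^ j) hX1 ?_ ?_ ?_⟩
  · have h3 := (mul_le_mul_of_nonneg_left (delta hK) (by positivity)).trans hok.2.1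
    have h4 : (2 : ℝ) ^ 1 ≤ 2 ^ (dP + d + 10 * 11 ^ c * ∑ i ∈ J, 2 ^ i) :=
      pow_le_pow_right₀ (by norm_num) (by
        have : 0 < 11 ^ c * ∑ k ∈ range 10, 2 ^ (j + 1 + k) := by positivity
        omega)
    have h5 : 1 / (8 * (2 : ℝ) ^ 2 ^ j) ≤ 1 / 8 := by
      gcongr; exact le_mul_of_one_le_right (by norm_num) (one_le_pow₀ (by norm_num))
    have h6 := mul_le_mul h4 (show (7 / 8 : ℝ) ≤ 1 - 1 / (8 * (2 : ℝ) ^ 2 ^ j) by linarith) (by norm_num)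
      (by positivity)
    have : (1 : ℝ) < (P * r * ∏ i ∈ J, A 10 (11 ^ c * 2 ^ i) : ℕ) := lt_of_lt_of_le (by norm_num) (h6.trans h3)
    exact_mod_cast this
  · refine Dvd.dvd.trans ?_ (Dvd.intro_left _ (tel _ _))
    have h6 : ∏ i ∈ range (2 ^ j), (2 ^ (11 ^ (c + 1) * 2 ^ i) + 1) =
        (∏ i ∈ range (2 ^ j), (2 ^ (11 ^ c * 2 ^ i) + 1)) * ∏ i ∈ range (2 ^ j), A 10 (11 ^ c * 2 ^ i) := by
      rw [← prod_mul_distrib]
      exact prod_congr rfl fun i _ => by rw [A_mul (by decide), pow_succ 11 c]; congr 2; ring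
    rw [h6, ← mul_assoc]
    refine mul_dvd_mul ?_ (prod_dvd_prod_of_subset _ _ _ hJ)
    have h7 := prod_dvd_prod_of_subset (insert j (insert 0 (Ico (j + 1) (j + 11)))) (range (2 ^ j))
      (fun i => 2 ^ (11 ^ c * 2 ^ i) + 1) (by
        intro i hi
        simp only [mem_insert, mem_Ico, mem_range] at hi ⊢
        omega)
    rw [prod_insert (by simp; omega), prod_insert (by simp), prod_Ico_eq_prod_range,
      show j + 11 - (j + 1) = 10 by omega] at h7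
    exact (mul_dvd_mul hX (mul_dvd_mul hP1 r1)).trans h7
  · refine (Nat.modEq_and_modEq_iff_modEq_mul (Nat.Coprime.pow _ _ (by norm_num))).1
      ⟨?_, by simpa using hX2.mul hok.1⟩
    obtain ⟨U, hU, -⟩ := dig_prod c J _ _ fun i => dig_A c i
    have h8 : ∏ i ∈ J, A 10 (11 ^ c * 2 ^ i) ≡ 1 [MOD 11 ^ (c + 1)] := by
      rw [hU]; exact Nat.modEq_iff_dvd.2 ⟨-U, by push_cast; ring⟩
    simpa [mul_assoc] using r3.mul h8

theorem ineq {y z D D' Y Y' a : ℝ} (hy : 96 * 16 ≤ y) (hz : 2 ≤ z) (hAr : (y + 1) * a = z * y + 1)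
    (hA1 : z * (7 / 8) ≤ a) (g1 : 0 < D) (g2 : 0 < D') (g3 : 0 ≤ Y) (_g4 : 0 ≤ Y')
    (a1 : D * (1 - 1 / (8 * y)) ≤ Y) (a2 : Y * (1 - 1 / (8 * y)) ≤ D)
    (a3 : D' * (1 - 1 / (8 * y)) ≤ Y') (a4 : Y' * (1 - 1 / (8 * y)) ≤ D') (e : y * D = z * D') :
    a * Y' < z * D' ∧ y * D < (y + 1) * Y ∧ (y + 1) * Y < 2 * (a * Y') := by
  have g5 : 0 ≤ a := by linarith
  have g6 : 0 < y := by linarith
  have b0 : 1 - 1 / (8 * y) = (8 * y - 1) / (8 * y) := by field_simp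
  rw [b0, ← mul_div_assoc, div_le_iff₀ (by positivity)] at a1 a2 a3 a4
  have u1 : y * D < (y + 1) * Y := by
    refine lt_of_mul_lt_mul_right ?_ (show 0 ≤ 8 * y by positivity)
    have h1 := mul_le_mul_of_nonneg_left a1 (show 0 ≤ y + 1 by positivity)
    have h2 := mul_pos g1 (show 0 < 7 * y - 1 by linarith)
    linarith
  have u2 : (y + 1) * Y ≤ 4 / 3 * (y * D) := by
    have h1 := mul_nonneg g3 (show 0 ≤ y - 1 by linarith)
    have h2 := mul_nonneg g3 (show 0 ≤ y - 8 by linarith)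
    linarith
  have v2 : 3 / 4 * (z * D') ≤ a * Y' := by
    have h1 := mul_nonneg g2.le (show 0 ≤ y - 1 by linarith)
    have h2 : D' * 7 ≤ Y' * 8 := le_of_mul_le_mul_right (by linarith) g6
    have h3 := mul_le_mul hA1 h2 (by positivity) g5
    have h4 := mul_pos (show 0 < z by linarith) g2
    linarith
  have v1 : a * Y' < z * D' := by
    have h3 : a * (8 * y) < z * (8 * y - 1) :=
      lt_of_mul_lt_mul_left (a := y + 1) (by
        rw [← mul_assoc, hAr]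
        have h1 := mul_nonneg (show 0 ≤ z - 2 by linarith) (show 0 ≤ 7 * y - 1 by linarith)
        linarith) (by positivity)
    have h4 := mul_le_mul_of_nonneg_left a4 g5
    have h5 := mul_lt_mul_of_pos_right h3 g2
    exact lt_of_mul_lt_mul_right (a := 8 * y - 1) (by linarith) (by linarith)
  have := mul_pos g6 g1
  exact ⟨v1, u1, by linarith⟩

def Good (E : ℕ) : Prop := ∃ u v, Nat.FermatPsp u 2 ∧ Nat.FermatPsp v 2 ∧ v < 2 ^ E ∧ 2 ^ E < u ∧ u < 2 * v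

theorem good {j c E : ℕ} (hj : 4 ≤ j) (hc : 2 ^ (j + 1) ≤ 11 ^ c) (hcj : c ≤ j)
    (h1 : 11 ^ c * 2 ^ (j + 11) ≤ E) (h2 : E < 10 * 11 ^ c * 2 ^ 2 ^ j) : Good E := by
  have hK : 16 ≤ 2 ^ j := (show 16 = 2 ^ 4 from rfl) ▸ Nat.pow_le_pow_right (by norm_num) hj
  obtain ⟨c, rfl⟩ : ∃ c', c = c' + 1 := Nat.exists_eq_succ_of_ne_zero (by
    rintro rfl; rw [pow_succ] at hc; omega)
  have hdv : 2 ^ (11 * 2 ^ j) + 1 ∣ 2 ^ (11 ^ (c + 1) * 2 ^ j) + 1 := by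
    have := (show Odd (11 ^ c) from Odd.pow (by decide)).nat_add_dvd_pow_add_pow (2 ^ (11 * 2 ^ j)) 1
    rwa [one_pow, ← pow_mul, show 11 * 2 ^ j * 11 ^ c = 11 ^ (c + 1) * 2 ^ j by ring] at this
  have hA := A_mul (q := 10) (by decide) (2 ^ j)
  have hev : 2 ^ j % 2 = 0 := by
    obtain ⟨j, rfl⟩ := Nat.exists_eq_add_of_le' hj
    rw [pow_succ]; omega
  have hAr := A_real (q := 10) (by decide) (2 ^ j)
  have hy : (96 * 16 : ℝ) ≤ 2 ^ 2 ^ j := by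
    have := big hK
    exact_mod_cast (show 96 * 16 ≤ 2 ^ 2 ^ j by omega)
  have hz : (2 : ℝ) ^ 1 ≤ 2 ^ (10 * 2 ^ j) := pow_le_pow_right₀ (by norm_num) (by omega)
  have hA1 : (2 : ℝ) ^ (10 * 2 ^ j) * (7 / 8) ≤ A 10 (2 ^ j) :=
    le_of_mul_le_mul_left (by
      rw [hAr]
      have := mul_nonneg (show (0 : ℝ) ≤ 2 ^ (10 * 2 ^ j) by positivity) (show (0 : ℝ) ≤ 2 ^ 2 ^ j - 7 by linarith)
      linarith) (show (0 : ℝ) < 2 ^ 2 ^ j + 1 by positivity)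
  obtain ⟨Y, d, e1, o1, p1⟩ := fill hj hc hcj h1 h2 (Dvd.dvd.trans ⟨_, hA.symm⟩ hdv) (B_mod le_rfl)
    (by simp) (by simpa using nz 0 j) (dX := 2 ^ j) (by omega) hev
  obtain ⟨Y', d', e2, o2, p2⟩ := fill hj hc hcj h1 h2 (Dvd.dvd.trans (Dvd.intro_left _ hA) hdv) (A_mod (by decide) le_rfl)
    (by exact_mod_cast (show (1 : ℝ) < A 10 (2 ^ j) by linarith)) (by
      obtain ⟨U, hU, -⟩ := dig_A 0 j
      rw [pow_zero, one_mul] at hU
      rw [hU]; push_cast; rw [show (11 : ZMod 11) = 0 from rfl]; simp only [zero_mul, add_zero]; decide)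
    (dX := 10 * 2 ^ j) le_rfl (by omega)
  have hδ := delta hK
  have a1 := (mul_le_mul_of_nonneg_left hδ (by positivity)).trans o1.2.1
  have a2 := (mul_le_mul_of_nonneg_left hδ (by positivity)).trans o1.2.2
  have a3 := (mul_le_mul_of_nonneg_left hδ (by positivity)).trans o2.2.1
  have a4 := (mul_le_mul_of_nonneg_left hδ (by positivity)).trans o2.2.2
  have f1 : (2 : ℝ) ^ E = 2 ^ 2 ^ j * 2 ^ d := by rw [← pow_add, e1]
  have f2 : (2 : ℝ) ^ E = 2 ^ (10 * 2 ^ j) * 2 ^ d' := by rw [← pow_add, e2]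
  rw [pow_one] at hz
  obtain ⟨k1, k2, k3⟩ := ineq hy hz hAr hA1 (by positivity) (by positivity) (by positivity) (by positivity)
    a1 a2 a3 a4 (f1.symm.trans f2)
  refine ⟨_, _, p1, p2, ?_, ?_, ?_⟩
  · rw [← f2] at k1; exact_mod_cast k1
  · rw [← f1] at k2; exact_mod_cast k2
  · exact_mod_cast k3

theorem good_all (E : ℕ) (hE : 11 ^ 2 * 2 ^ 15 ≤ E) : Good E := by
  have key : ∀ j, 4 ≤ j → E < 10 * 11 ^ (j / 3 + 1) * 2 ^ 2 ^ j → Good E := by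
    intro j hj
    have hc : ∀ j, 2 ^ (j + 1) ≤ 11 ^ (j / 3 + 1) := fun j =>
      calc 2 ^ (j + 1) ≤ 2 ^ (3 * (j / 3 + 1)) := Nat.pow_le_pow_right (by norm_num) (by omega)
        _ = 8 ^ (j / 3 + 1) := pow_mul 2 3 _
        _ ≤ _ := Nat.pow_le_pow_left (by norm_num) _
    induction j, hj using Nat.le_induction with
    | base => exact fun h => good (j := 4) le_rfl (hc 4) (by norm_num) hE h
    | succ j hj ih =>
      intro h
      by_cases h' : E < 10 * 11 ^ (j / 3 + 1) * 2 ^ 2 ^ j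
      · exact ih h'
      refine good (j := j + 1) (by omega) (hc _) (by omega) (le_trans ?_ (not_lt.1 h')) h
      rcases hj.eq_or_lt with rfl | hj'
      · norm_num
      have h1 : j + 13 ≤ 2 ^ j := by
        clear * - hj'
        induction j, hj' using Nat.le_induction with
        | base => norm_num
        | succ K hK ih => rw [pow_succ]; omega
      have h2 : 11 ^ ((j + 1) / 3 + 1) ≤ 11 ^ (j / 3 + 1 + 1) := Nat.pow_le_pow_right (by norm_num) (by omega)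
      have h3 : 2 ^ (j + 1 + 11 + 1) ≤ 2 ^ 2 ^ j := Nat.pow_le_pow_right (by norm_num) h1
      rw [pow_succ 11 (j / 3 + 1)] at h2
      rw [pow_succ 2 (j + 1 + 11)] at h3
      calc _ ≤ 11 ^ (j / 3 + 1) * 11 * 2 ^ (j + 1 + 11) := Nat.mul_le_mul_right _ h2
        _ ≤ 10 * 11 ^ (j / 3 + 1) * (2 ^ (j + 1 + 11) * 2) := by
          generalize 11 ^ (j / 3 + 1) = a; generalize 2 ^ (j + 1 + 11) = b; nlinarith [Nat.zero_le (a * b)]
        _ ≤ _ := Nat.mul_le_mul_left _ h3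
  refine key E (by omega) ?_
  have h1 : E < 2 ^ E := Nat.lt_two_pow_self
  have h2 : 2 ^ E < 2 ^ 2 ^ E := Nat.lt_two_pow_self
  exact (h1.trans h2).trans_le (Nat.le_mul_of_pos_left _ (by positivity))

theorem main (x : ℕ) (hx : 170 < x) : ∃ n, x < n ∧ n < 2 * x ∧ Nat.FermatPsp n 2 := by
  by_cases h1 : x < 2 ^ 124
  · exact low_range x hx h1
  obtain ⟨W, hW⟩ : ∃ W : ℕ, W = 2 ^ 17 := ⟨_, rfl⟩
  by_cases h2 : x < 2 ^ 124 * (2 ^ 36) ^ W
  · exact mid_range x W hW.le (not_lt.1 h1) h2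
  have h3 := Nat.pow_log_le_self 2 (show x ≠ 0 by omega)
  have h4 := Nat.lt_pow_succ_log_self (show 1 < 2 by norm_num) x
  rw [← pow_mul, ← pow_add, not_lt] at h2
  have h5 := (Nat.pow_lt_pow_iff_right (show 1 < 2 by norm_num)).1 (h2.trans_lt h4)
  clear h2
  obtain ⟨u, v, hu, hv, h6, h7, h8⟩ := good_all (Nat.log 2 x + 1) (by omega)
  rw [Nat.succ_eq_add_one] at h4
  rcases lt_or_ge x v with h | h
  · exact ⟨v, h, by rw [pow_succ] at h6; omega, hv⟩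
  · exact ⟨u, by omega, by omega, hu⟩

end Pool.Agent.H58.Psp
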