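import Mathlib

namespace Pool.Agent.H58.QC
open Module Finset Submodule
open scoped Classical

variable {F V : Type} [Field F] [Fintype F] [AddCommGroup V] [Module F V] [Fintype V]

lemma card_sub (S : Submodule F V) : #{v | v ∈ S} = Fintype.card F ^ finrank F S := by
  rw [← Module.card_eq_pow_finrank, Fintype.card_subtype]

lemma zeros {β : V →ₗ[F] V →ₗ[F] F} (S : Submodule F V) {a : V} (ha : a ∈ S) (h0 : β a a ≠ 0) :
    Fintype.card F * #{v | v ∈ S ∧ β v v = 0} ≤ 2 * #{v | v ∈ S} := by
  have h1 : ∀ t : F, #{v | v ∈ S ∧ β v v = 0} = #{v ∈ {v | v ∈ S} | β (v + t • a) (v + t • a) = 0} :=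
    fun t => (card_nbij' (· + t • a) (· - t • a) (fun v hv => by
      simp only [coe_filter, mem_filter, mem_univ, true_and, Set.mem_ofPred_eq] at hv ⊢
      exact ⟨S.add_mem hv.1 (S.smul_mem _ ha), hv.2⟩) (fun v hv => by
      simp only [coe_filter, mem_filter, mem_univ, true_and, Set.mem_ofPred_eq, sub_add_cancel] at hv ⊢
      exact ⟨S.sub_mem hv.1 (S.smul_mem _ ha), hv.2⟩) (fun _ _ => add_sub_cancel_right _ _)
      (fun _ _ => sub_add_cancel _ _)).symm
  have h2 : ∀ v, #{t : F | β (v + t • a) (v + t • a) = 0} ≤ 2 := fun v => by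
    let p : Polynomial F := .C (β a a) * .X ^ 2 + .C (β v a + β a v) * .X + .C (β v v)
    have d : p.natDegree = 2 := Polynomial.natDegree_quadratic h0
    refine le_trans (card_le_card fun t ht => ?_) ((Multiset.toFinset_card_le p.roots).trans
      (d ▸ p.card_roots'))
    rw [Multiset.mem_toFinset, Polynomial.mem_roots (by rintro h; simp [h] at d)]
    simp [p] at ht ⊢
    linear_combination ht
  calc _ = ∑ t : F, #{v ∈ {v | v ∈ S} | β (v + t • a) (v + t • a) = 0} := by
        simp only [← h1]; simp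
    _ = ∑ v ∈ {v | v ∈ S}, #{t : F | β (v + t • a) (v + t • a) = 0} := by
      simp only [card_filter]; exact sum_comm
    _ ≤ _ := by rw [mul_comm]; exact sum_le_card_nsmul _ _ _ fun v _ => h2 v

def iso (β : V →ₗ[F] V →ₗ[F] F) {j : ℕ} (w : Fin j → V) : Prop := ∀ s t, β (w s) (w t) = 0

def U (β : V →ₗ[F] V →ₗ[F] F) {j : ℕ} (w : Fin j → V) : Submodule F (Dual F V) :=
  span F (Set.range fun s => β (w s))

def c (j r e : ℕ) : ℕ := (e + 1).choose 2 + (j - e) * (r - e)

variable {β : V →ₗ[F] V →ₗ[F] F} (hβ : ∀ x y, β x y = β y x)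

lemma comap_rk {j : ℕ} (w : Fin j → V) : finrank F ((U β w).comap β) + finrank F (LinearMap.range β)
    = finrank F V + finrank F (U β w) := by
  have h1 := LinearMap.finrank_range_add_finrank_ker (β.domRestrict ((U β w).comap β))
  have h2 := LinearMap.finrank_range_add_finrank_ker β
  have hU : U β w ≤ LinearMap.range β := span_le.2 (by rintro _ ⟨s, rfl⟩; exact ⟨_, rfl⟩)
  rw [LinearMap.range_domRestrict, map_comap_eq_self hU, LinearMap.ker_domRestrict,
    (comapSubtypeEquivOfLe (LinearMap.ker_le_comap β)).finrank_eq] at h1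
  rw [← h1, ← h2]; ring

include hβ

lemma two_rk {j : ℕ} {w : Fin j → V} (h : iso β w) :
    2 * finrank F (U β w) ≤ finrank F (LinearMap.range β) := by
  have h1 := comap_rk (β := β) w
  have h2 := Subspace.finrank_add_finrank_dualCoannihilator_eq (U β w)
  have : (U β w).comap β ≤ (U β w).dualCoannihilator := fun v hv => by
    rw [U, ← SetLike.mem_coe, coe_dualCoannihilator_span]
    rintro _ ⟨s, rfl⟩
    beta_reduce
    rw [hβ]
    have : U β w ≤ LinearMap.ker (Dual.eval F V (w s)) := span_le.2 (by rintro _ ⟨t, rfl⟩; exact h t s)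
    exact this hv
  have := finrank_mono this
  omega

lemma grow (h2 : (2 : F) ≠ 0) {j : ℕ} (w : Fin j → V) :
    Fintype.card F ^ (finrank F (U β w) + 1) *
      #{v | (∀ s, β (w s) v = 0) ∧ β v v = 0 ∧ β v ∉ U β w} ≤ 2 * Fintype.card V := by
  rcases eq_empty_or_nonempty ({v | (∀ s, β (w s) v = 0) ∧ β v v = 0 ∧ β v ∉ U β w} : Finset V)
    with h | ⟨v, hv⟩
  · simp [h]
  have mS : ∀ v, v ∈ (U β w).dualCoannihilator ↔ ∀ s, β (w s) v = 0 := fun v => by
    rw [U, ← SetLike.mem_coe, coe_dualCoannihilator_span]; simp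
  simp only [mem_filter, mem_univ, true_and] at hv
  obtain ⟨a, ha, h0⟩ : ∃ a ∈ (U β w).dualCoannihilator, β a a ≠ 0 := by
    by_contra hc
    push Not at hc
    refine hv.2.2 ?_
    rw [← Subspace.dualCoannihilator_dualAnnihilator_eq (W := U β w), mem_dualAnnihilator]
    intro z hz
    have := hc _ (add_mem ((mS v).2 hv.1) hz)
    simp only [map_add, LinearMap.add_apply, hv.2.1, hc z hz, hβ z v] at this
    exact (mul_eq_zero.1 (by linear_combination this)).resolve_left h2
  have h3 := zeros (β := β) _ ha h0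
  rw [card_sub] at h3
  rw [Module.card_eq_pow_finrank (K := F) (V := V),
    ← Subspace.finrank_add_finrank_dualCoannihilator_eq (U β w), pow_add, pow_add, pow_one,
    mul_assoc, mul_left_comm 2]
  refine Nat.mul_le_mul_left _ ((Nat.mul_le_mul_left _ (card_le_card fun x hx => ?_)).trans h3)
  simp only [mem_filter, mem_univ, true_and, mS] at hx ⊢
  exact ⟨hx.1, hx.2.1⟩

theorem pot (h2 : (2 : F) ≠ 0) (j : ℕ) : ∑ w : Fin j → V with iso β w,
    Fintype.card F ^ c j (finrank F (LinearMap.range β)) (finrank F (U β w)) ≤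
      (3 * Fintype.card V) ^ j := by
  set q := Fintype.card F
  set r := finrank F (LinearMap.range β)
  induction j with
  | zero =>
    have : ∀ w : Fin 0 → V, finrank F (U β w) = 0 := fun w =>
      Nat.le_zero.1 ((finrank_range_le_card _).trans (by simp))
    simp [c, this, iso]
  | succ j ih =>
    rw [pow_succ]
    refine le_trans ?_ (Nat.mul_le_mul_right _ ih)
    rw [sum_filter, sum_filter, ← (Fin.consEquiv fun _ => V).sum_comp, Fintype.sum_prod_type_right,
      sum_mul]
    refine sum_le_sum fun w _ => ?_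
    by_cases hw : iso β w
    swap
    · refine (sum_eq_zero fun v _ => if_neg fun h => hw fun s t => h s.succ t.succ).trans_le
        (Nat.zero_le _)
    set e := finrank F (U β w) with he
    have e1 : e ≤ j := (finrank_range_le_card _).trans (by simp)
    have e2 : 2 * e ≤ r := two_rk hβ hw
    have hU : ∀ v, U β (Fin.consEquiv (fun _ => V) (v, w)) = U β w ⊔ F ∙ β v := fun v => by
      rw [U, U, sup_comm, ← span_insert, Fin.range_fin_succ]; rfl
    have k1 : #{v | v ∈ (U β w).comap β} * q ^ c (j + 1) r e = q ^ c j r e * Fintype.card V := by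
      have := comap_rk (β := β) w
      rw [card_sub, Module.card_eq_pow_finrank (K := F) (V := V), ← pow_add, ← pow_add, c, c,
        show j + 1 - e = j - e + 1 by omega, add_mul]
      congr 1; omega
    have k2 : #{v | (∀ s, β (w s) v = 0) ∧ β v v = 0 ∧ β v ∉ U β w} * q ^ c (j + 1) r (e + 1) ≤
        q ^ c j r e * (2 * Fintype.card V) := by
      refine le_trans ?_ (Nat.mul_le_mul_left _ (grow hβ h2 w))
      rw [← mul_assoc, mul_comm, ← pow_add]
      refine Nat.mul_le_mul_right _ (Nat.pow_le_pow_right Fintype.card_pos ?_)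
      rw [c, c, Nat.choose_succ_succ' (e + 1), Nat.choose_one_right, Nat.add_sub_add_right,
        one_add_one_eq_two]
      have : (j - e) * (r - (e + 1)) ≤ (j - e) * (r - e) := Nat.mul_le_mul_left _ (by omega)
      omega
    rw [if_pos hw, show q ^ c j r e * (3 * Fintype.card V) =
      q ^ c j r e * Fintype.card V + q ^ c j r e * (2 * Fintype.card V) by ring, ← k1]
    refine le_trans ?_ (Nat.add_le_add_left k2 _)
    rw [card_filter, card_filter, sum_mul, sum_mul, ← sum_add_distrib]
    refine sum_le_sum fun v _ => ?_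
    split_ifs with h h1 h3 h3
    · rw [hU, sup_eq_left.2 ((span_singleton_le_iff_mem (β v) (U β w)).2 h1), ← he]; omega
    · rw [hU, sup_eq_left.2 ((span_singleton_le_iff_mem (β v) (U β w)).2 h1), ← he]; omega
    · rw [hU, finrank_sup_span_singleton (p := U β w) (v := β v) h1, ← he]; omega
    · exact absurd ⟨fun s => h s.succ 0, h 0 0, h1⟩ h3
    all_goals omega

end Pool.Agent.H58.QC
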