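import Pool.Agent.H58.QC1

namespace Pool.Agent.H58.QC
open Module Finset Submodule Matrix
open scoped Classical

variable {F : Type} [Field F] {n : ℕ}

def Cls (I : Finset (Fin n)) (B : Matrix (Fin n) (Fin n) F) : Prop :=
  B.IsSymm ∧ finrank F (LinearMap.range (toBilin' B)) = #I ∧
    ∀ v, ∃ x ∈ span F ((Pi.single · (1 : F)) '' I), toBilin' B x = toBilin' B v

lemma sym {B : Matrix (Fin n) (Fin n) F} (h : B.IsSymm) (x y) : toBilin' B x y = toBilin' B y x := by
  rw [toBilin'_apply', toBilin'_apply', dotProduct_mulVec, ← mulVec_transpose, h.eq, dotProduct_comm]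

lemma cls_ex {B : Matrix (Fin n) (Fin n) F} (h : B.IsSymm) : ∃ I, Cls I B := by
  have e : span F (Set.range fun a => toBilin' B (Pi.single a 1)) = LinearMap.range (toBilin' B) := by
    rw [LinearMap.range_eq_map, ← (Pi.basisFun F (Fin n)).span_eq, map_span, ← Set.range_comp]
    simp [Function.comp_def]
  obtain ⟨f, h1, h2, h3⟩ :=
    exists_fun_fin_finrank_span_eq F (Set.range fun a => toBilin' B (Pi.single a 1))
  choose g hg using h1
  have gi : Function.Injective g := fun i j hij => h3.injective (by rw [← hg, ← hg, hij])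
  refine ⟨univ.image g, h, by rw [card_image_of_injective _ gi, ← e]; simp, fun v => ?_⟩
  have : toBilin' B v ∈ (span F ((Pi.single · (1 : F)) '' (univ.image g : Finset _))).map
      (toBilin' B) := by
    refine (span_le.2 ?_ : span F (Set.range f) ≤ _) (by rw [h2, e]; exact ⟨v, rfl⟩)
    rintro _ ⟨i, rfl⟩
    exact ⟨_, subset_span ⟨g i, by simp, rfl⟩, hg i⟩
  exact this

lemma cls_inj {I : Finset (Fin n)} {B B' : Matrix (Fin n) (Fin n) F} (h : Cls I B) (h' : Cls I B')
    (e : ∀ a ∈ I, ∀ b, B a b = B' a b) : B = B' := by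
  have k : ∀ x ∈ span F ((Pi.single · (1 : F)) '' I), toBilin' B x = toBilin' B' x := fun x hx =>
    LinearMap.eqOn_span' (by
      rintro _ ⟨a, ha, rfl⟩
      exact (Pi.basisFun F (Fin n)).ext fun b => by simp [toBilin'_single, e a ha]) hx
  ext b c
  obtain ⟨x, hx, e1⟩ := h.2.2 (Pi.single b 1)
  obtain ⟨y, hy, e2⟩ := h'.2.2 (Pi.single c 1)
  rw [← toBilin'_single B, ← toBilin'_single B', ← e1, k x hx, sym h'.1, ← e2, ← k y hy, sym h.1,
    e1, sym h.1, k y hy, e2, sym h'.1]

variable [Fintype F]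

lemma cls_card (I : Finset (Fin n)) : #{B : Matrix (Fin n) (Fin n) F | Cls I B} ≤
    Fintype.card F ^ ((n + 1).choose 2 - (n - #I + 1).choose 2) := by
  have : #((univ : Finset (Fin n)).sym2 \ Iᶜ.sym2) = (n + 1).choose 2 - (n - #I + 1).choose 2 := by
    rw [card_sdiff_of_subset (sym2_mono (subset_univ _)), card_sym2, card_sym2, card_compl]; simp
  rw [← this, ← Fintype.card_coe ((univ : Finset (Fin n)).sym2 \ Iᶜ.sym2), ← Fintype.card_fun,
    ← card_univ]
  refine card_le_card_of_injOn (fun B s => B s.1.out.1 s.1.out.2) (fun _ _ => mem_univ _)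
    fun B hB B' hB' e => ?_
  simp only [coe_filter, mem_univ, true_and, Set.mem_ofPred_eq] at hB hB'
  refine cls_inj hB hB' fun a ha b => ?_
  have := congrFun e ⟨s(a, b), by simp [ha]⟩
  have o : s((s(a, b) : Sym2 _).out.1, (s(a, b) : Sym2 _).out.2) = s(a, b) := Quot.out_eq _
  rcases Sym2.eq_iff.1 o with ⟨h1, h2⟩ | ⟨h1, h2⟩ <;> simp only [h1, h2] at this
  · exact this
  · rw [← hB.1.apply, ← hB'.1.apply, this]

def Ineq (n d m : ℕ) : Prop := ∀ r e, 1 ≤ r → r ≤ n → 2 * e ≤ r → e ≤ d →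
  (n + 1).choose 2 - (n - r + 1).choose 2 ≤ m * c d r e

theorem fin_ex {d m : ℕ} (H : Ineq n d m) (h2 : (2 : F) ≠ 0)
    (hq : 2 ^ n * 3 ^ (d * m) + 1 < Fintype.card F) : ∃ M : Fin m → Fin d → Fin n → F,
    ∀ B : Matrix (Fin n) (Fin n) F, B.IsSymm → (∀ i, iso (toBilin' B) (M i)) → B = 0 := by
  by_contra hc
  push Not at hc
  set q := Fintype.card F
  set N := Fintype.card (Fin n → F)
  have N0 : 0 < N := Fintype.card_pos
  have up : ∀ I : Finset (Fin n), ∑ B : Matrix (Fin n) (Fin n) F with Cls I B ∧ B ≠ 0,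
      #{M : Fin m → Fin d → Fin n → F | ∀ i, iso (toBilin' B) (M i)} ≤ (3 * N) ^ (d * m) := fun I => by
    set R := (n + 1).choose 2 - (n - #I + 1).choose 2
    refine Nat.le_of_mul_le_mul_right ?_ (pow_pos (by omega : 0 < q) R)
    rw [sum_mul, mul_comm]
    refine (sum_le_card_nsmul _ _ ((3 * N) ^ (d * m)) fun B hB => ?_).trans (Nat.mul_le_mul_right _
      ((card_le_card (monotone_filter_right _ fun B _ h => h.1)).trans (cls_card I)))
    obtain ⟨hB, B0⟩ := (mem_filter.1 hB).2
    have p := pot (sym hB.1) h2 d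
    obtain ⟨w, hw, hm⟩ := exists_min_image {w : Fin d → Fin n → F | iso (toBilin' B) w}
      (fun w => c d #I (finrank F (U (toBilin' B) w))) ⟨0, by simp [iso]⟩
    rw [hB.2.1] at p
    have p2 := (card_nsmul_le_sum _ _ _ fun w hw => Nat.pow_le_pow_right (by omega) (hm w hw)).trans p
    have h1 : 1 ≤ #I := by
      rw [← hB.2.1, Submodule.one_le_finrank_iff, Ne, LinearMap.range_eq_bot]
      simpa using B0
    have hR := H #I _ h1 (by simpa using card_le_univ I) (hB.2.1 ▸ two_rk (sym hB.1) (mem_filter.1 hw).2)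
      ((finrank_range_le_card _).trans (by simp))
    rw [show ({M | ∀ i, iso (toBilin' B) (M i)} : Finset (Fin m → Fin d → Fin n → F)) =
      Fintype.piFinset fun _ => {w | iso (toBilin' B) w} by ext; simp, Fintype.card_piFinset,
      prod_const, card_univ, Fintype.card_fin, pow_mul]
    refine le_trans ?_ (Nat.pow_le_pow_left p2 m)
    rw [smul_eq_mul, mul_pow, ← pow_mul, mul_comm _ m]
    exact Nat.mul_le_mul_left _ (Nat.pow_le_pow_right (by omega) hR)
  have lo : ∀ M : Fin m → Fin d → Fin n → F, q - 1 ≤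
      #{B : Matrix (Fin n) (Fin n) F | (B.IsSymm ∧ B ≠ 0) ∧ ∀ i, iso (toBilin' B) (M i)} := fun M => by
    obtain ⟨B, h1, h3, h4⟩ := hc M
    rw [← Fintype.card_units, ← card_univ]
    refine card_le_card_of_injOn (fun u => (u : F) • B) (fun u _ => ?_) fun u _ v _ e =>
      Units.ext (smul_left_injective F h4 e)
    simp only [coe_filter, mem_univ, true_and, Set.mem_ofPred_eq]
    exact ⟨⟨h1.smul _, smul_ne_zero u.ne_zero h4⟩, fun i s t => by simp [h3 i s t]⟩
  have h1 := card_nsmul_le_sum univ _ _ fun M _ => lo M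
  have h3 : ∑ M : Fin m → Fin d → Fin n → F, #{B : Matrix (Fin n) (Fin n) F |
      (B.IsSymm ∧ B ≠ 0) ∧ ∀ i, iso (toBilin' B) (M i)} ≤ ∑ I : Finset (Fin n), (3 * N) ^ (d * m) := by
    refine le_trans ?_ (sum_le_sum fun I _ => up I)
    simp only [card_filter, sum_filter]
    rw [sum_comm, sum_comm (s := (univ : Finset (Finset (Fin n))))]
    refine sum_le_sum fun B _ => ?_
    by_cases hB : B.IsSymm ∧ B ≠ 0
    · obtain ⟨I, hI⟩ := cls_ex hB.1
      refine le_trans ?_ (single_le_sum (fun _ _ => Nat.zero_le _) (mem_univ I))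
      simp [hB, hI]
    · simp [hB]
  have h4 := h1.trans h3
  simp only [card_univ, Fintype.card_fun (β := Fin n → F), Fintype.card_fun (β := Fin d → _),
    Fintype.card_fin, sum_const, Fintype.card_finset, smul_eq_mul, mul_pow, ← pow_mul] at h4
  rw [← mul_assoc, mul_comm] at h4
  have := Nat.le_of_mul_le_mul_right h4 (pow_pos N0 _)
  omega

theorem real_ex {d m : ℕ} (H : Ineq n d m) : ∃ M : Fin m → Fin d → Fin n → ℝ,
    ∀ B : Matrix (Fin n) (Fin n) ℝ, B.IsSymm → (∀ i s t, M i s ⬝ᵥ B *ᵥ M i t = 0) → B = 0 := by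
  obtain ⟨p, hp, pp⟩ := Nat.exists_infinite_primes (2 ^ n * 3 ^ (d * m) + 3)
  have := Fact.mk pp
  obtain ⟨M, hM⟩ := fin_ex (F := ZMod p) H (fun h => by
    have := Nat.le_of_dvd two_pos ((ZMod.natCast_eq_zero_iff 2 p).1 h); omega) (by simp; omega)
  let A : Matrix (Fin n × Fin n ⊕ Fin m × Fin d × Fin d) (Fin n × Fin n) ℤ := of fun j ab =>
    j.elim (fun j => (if ab = j then 1 else 0) - if ab = j.swap then 1 else 0)
      fun j => (M j.1 j.2.1 ab.1).val * (M j.1 j.2.2 ab.2).val
  have key : ∀ (R : Type) [CommRing R] (B : Matrix (Fin n) (Fin n) R),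
      A.map (Int.castRingHom R) *ᵥ (fun ab => B ab.1 ab.2) = 0 ↔ B.IsSymm ∧ ∀ i s t,
        (fun a => ((M i s a).val : R)) ⬝ᵥ B *ᵥ (fun a => ((M i t a).val : R)) = 0 := fun R _ B => by
    simp only [funext_iff, Sum.forall, Prod.forall, mulVec, dotProduct, A, IsSymm.ext_iff]
    refine and_congr (forall₂_congr fun a b => ?_) (forall₃_congr fun i s t => ?_)
    · simp [sub_mul, sub_eq_zero, eq_comm]
    · simp [Fintype.sum_prod_type, mul_sum, mul_comm, mul_left_comm]
  obtain ⟨L, hL⟩ := LinearMap.exists_leftInverse_of_injective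
    (toLin' (A.map (Int.castRingHom (ZMod p)))) (LinearMap.ker_eq_bot'.2 fun x hx => by
      obtain ⟨h1, h2⟩ := (key (ZMod p) (of fun a b => x (a, b))).1 hx
      have := hM _ h1 fun i s t => by simpa [toBilin'_apply'] using h2 i s t
      ext ⟨a, b⟩; exact congrFun (congrFun this a) b)
  let L' := (LinearMap.toMatrix' L).map fun x => (x.val : ℤ)
  have d0 : (L' * A).det ≠ 0 := fun h => by
    have := congrArg (Int.castRingHom (ZMod p)) h
    rw [RingHom.map_det, RingHom.mapMatrix_apply, Matrix.map_mul,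
      show L'.map (Int.castRingHom (ZMod p)) = LinearMap.toMatrix' L by ext; simp [L'],
      ← LinearMap.toMatrix'_toLin' (A.map _), ← LinearMap.toMatrix'_comp, hL] at this
    simp at this
  refine ⟨fun i s a => (M i s a).val, fun B h1 h2 => ?_⟩
  have h3 := (key ℝ B).2 ⟨h1, h2⟩
  have := eq_zero_of_mulVec_eq_zero (M := (L' * A).map (Int.castRingHom ℝ))
    (v := fun ab => B ab.1 ab.2) (by
      rw [← RingHom.mapMatrix_apply, ← RingHom.map_det]; simpa using d0)
    (by rw [Matrix.map_mul, ← mulVec_mulVec, h3, mulVec_zero])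
  ext a b; exact congrFun this (a, b)

end Pool.Agent.H58.QC
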