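import Mathlib

set_option autoImplicit false
set_option linter.unusedSectionVars false

namespace Pool.Agent.H58.QH

open Finset

class HK (K : Type*) [NormedDivisionRing K] [StarRing K] [NormedAlgebra ℝ K] where
  re : K →ₗ[ℝ] ℝ
  add_star : ∀ x : K, x + star x = algebraMap ℝ K (2 * re x)
  star_mul_self : ∀ x : K, star x * x = algebraMap ℝ K (‖x‖ ^ 2)
  star_real : ∀ r : ℝ, star (algebraMap ℝ K r) = algebraMap ℝ K r
  I : K
  star_I : star I = -I
  norm_I : ‖I‖ = 1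
  fin : Module.Finite ℝ K

variable {K : Type*} [NormedDivisionRing K] [StarRing K] [NormedAlgebra ℝ K] [HK K]


theorem rho_inj : Function.Injective (algebraMap ℝ K) := (algebraMap ℝ K).injective

theorem re_rho (r : ℝ) : (HK.re (K := K)) (algebraMap ℝ K r) = r := by
  have := HK.add_star (K := K) (algebraMap ℝ K r)
  rw [HK.star_real, ← map_add] at this
  have := rho_inj this
  linarith

theorem re_star (x : K) : (HK.re (K := K)) (star x) = (HK.re (K := K)) x := by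
  have h1 := HK.add_star x
  have h2 := HK.add_star (star x)
  rw [star_star, add_comm, h1] at h2
  have := rho_inj h2
  linarith

theorem norm_rho (r : ℝ) : ‖algebraMap ℝ K r‖ = |r| := by simp

theorem nstar (x : K) : ‖star x‖ = ‖x‖ := by
  by_cases hx : x = 0
  · simp [hx]
  have h := congrArg norm (HK.star_mul_self x)
  rw [norm_mul, norm_rho, abs_of_nonneg (by positivity), sq] at h
  exact mul_right_cancel₀ (norm_ne_zero_iff.2 hx) h

theorem norm_add_sq' (x y : K) : ‖x + y‖ ^ 2 = ‖x‖ ^ 2 + ‖y‖ ^ 2 + 2 * (HK.re (K := K)) (star x * y) := by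
  apply rho_inj (K := K)
  rw [map_add, map_add, ← HK.star_mul_self, ← HK.star_mul_self, ← HK.star_mul_self,
    ← HK.add_star]
  simp only [star_add, star_mul, star_star]
  noncomm_ring

theorem re_rho_mul (r : ℝ) (x : K) : (HK.re (K := K)) (algebraMap ℝ K r * x) = r * (HK.re (K := K)) x := by
  rw [← Algebra.smul_def, map_smul, smul_eq_mul]

theorem re_mul_rho (r : ℝ) (x : K) : (HK.re (K := K)) (x * algebraMap ℝ K r) = r * (HK.re (K := K)) x := by
  rw [← Algebra.commutes, re_rho_mul]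

theorem norm_add_rho (x : K) (r : ℝ) : ‖x + algebraMap ℝ K r‖ ^ 2 = ‖x‖ ^ 2 + r ^ 2 + 2 * r * (HK.re (K := K)) x := by
  rw [norm_add_sq', norm_rho, sq_abs, re_mul_rho, re_star]; ring

theorem abs_re_le (x : K) : |(HK.re (K := K)) x| ≤ ‖x‖ := by
  have h1 := congrArg norm (HK.add_star x)
  rw [norm_rho, abs_mul] at h1
  have h2 := norm_add_le x (star x)
  rw [nstar] at h2
  have : |(2 : ℝ)| = 2 := abs_two
  rw [this] at h1
  linarith

abbrev V (K : Type*) (ι : Type*) := K × (ι → K)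

variable {ι κ : Type*} [Fintype ι] [Fintype κ]

def B (X Y : V K ι) : K := star X.1 * Y.1 - ∑ i, star (X.2 i) * Y.2 i
def N (X : V K ι) : ℝ := ‖X.1‖ ^ 2 - ∑ i, ‖X.2 i‖ ^ 2
def rm (X : V K ι) (a : K) : V K ι := (X.1 * a, fun i => X.2 i * a)

theorem B_self (X : V K ι) : B X X = algebraMap ℝ K (N X) := by
  simp only [B, N, HK.star_mul_self, map_sub, map_sum]

theorem B_add (X Y Z : V K ι) : B X (Y + Z) = B X Y + B X Z := by
  simp only [B, Prod.fst_add, Prod.snd_add, Pi.add_apply, mul_add, sum_add_distrib]; abel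

theorem B_sub (X Y Z : V K ι) : B X (Y - Z) = B X Y - B X Z := by
  simp only [B, Prod.fst_sub, Prod.snd_sub, Pi.sub_apply, mul_sub, sum_sub_distrib]; abel

theorem B_rm (X Y : V K ι) (a : K) : B X (rm Y a) = B X Y * a := by
  simp only [B, rm, sub_mul, sum_mul, mul_assoc]

theorem star_B (X Y : V K ι) : star (B X Y) = B Y X := by
  simp only [B, star_sub, star_sum, star_mul, star_star]

theorem add_B (X Y Z : V K ι) : B (X + Y) Z = B X Z + B Y Z := by
  rw [← star_B, B_add, star_add, star_B, star_B]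

theorem sub_B (X Y Z : V K ι) : B (X - Y) Z = B X Z - B Y Z := by
  rw [← star_B, B_sub, star_sub, star_B, star_B]

theorem rm_B (X Y : V K ι) (a : K) : B (rm X a) Y = star a * B X Y := by
  rw [← star_B, B_rm, star_mul, star_B]

theorem norm_B_comm (X Y : V K ι) : ‖B X Y‖ = ‖B Y X‖ := by rw [← star_B, nstar]

theorem B_comm_zero {X Y : V K ι} (h : B X Y = 0) : B Y X = 0 := by rw [← star_B, h, star_zero]

theorem N_eq (X : V K ι) : N X = (HK.re (K := K)) (B X X) := by rw [B_self, re_rho]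

theorem N_add (X Y : V K ι) : N (X + Y) = N X + N Y + 2 * (HK.re (K := K)) (B X Y) := by
  rw [N_eq, add_B, B_add, B_add, map_add, map_add, map_add, ← N_eq, ← N_eq, ← star_B X Y, re_star]
  ring

theorem N_sub (X Y : V K ι) : N (X - Y) = N X + N Y - 2 * (HK.re (K := K)) (B X Y) := by
  rw [N_eq, sub_B, B_sub, B_sub, map_sub, map_sub, map_sub, ← N_eq, ← N_eq, ← star_B X Y, re_star]
  ring

theorem N_rm (X : V K ι) (a : K) : N (rm X a) = N X * ‖a‖ ^ 2 := by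
  simp only [N, rm, norm_mul, mul_pow, sub_mul, sum_mul]

theorem rm_rm (X : V K ι) (a b : K) : rm (rm X a) b = rm X (a * b) := by
  simp only [rm, mul_assoc]

theorem rm_one (X : V K ι) : rm X 1 = X := by simp [rm]

theorem rm_add (X : V K ι) (a b : K) : rm X (a + b) = rm X a + rm X b := by
  ext <;> simp [rm, mul_add]

theorem add_rm (X Y : V K ι) (a : K) : rm (X + Y) a = rm X a + rm Y a := by
  ext <;> simp [rm, add_mul]

theorem sub_rm (X Y : V K ι) (a : K) : rm (X - Y) a = rm X a - rm Y a := by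
  ext <;> simp [rm, sub_mul]

theorem rm_sub (X : V K ι) (a b : K) : rm X (a - b) = rm X a - rm X b := by
  ext <;> simp [rm, mul_sub]

theorem orth_aux {Q U : V K ι} (h : B Q U = 0) :
    ‖Q.1‖ ^ 2 * ‖U.1‖ ^ 2 ≤ (∑ i, ‖Q.2 i‖ ^ 2) * ∑ i, ‖U.2 i‖ ^ 2 := by
  have h1 : star Q.1 * U.1 = ∑ i, star (Q.2 i) * U.2 i := sub_eq_zero.1 h
  have h2 : ‖Q.1‖ * ‖U.1‖ ≤ ∑ i, ‖Q.2 i‖ * ‖U.2 i‖ := by
    rw [← nstar Q.1, ← norm_mul, h1]
    refine (norm_sum_le _ _).trans (le_of_eq ?_)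
    simp only [norm_mul, nstar]
  calc _ = (‖Q.1‖ * ‖U.1‖) ^ 2 := by ring
    _ ≤ (∑ i, ‖Q.2 i‖ * ‖U.2 i‖) ^ 2 := by gcongr
    _ ≤ _ := Finset.sum_mul_sq_le_sq_mul_sq _ _ _

theorem fst_ne {Q : V K ι} (h : 0 < N Q) : Q.1 ≠ 0 := by
  intro h0
  have : 0 ≤ ∑ i, ‖Q.2 i‖ ^ 2 := by positivity
  simp only [N, h0, norm_zero] at h
  linarith

theorem orth_le {Q U : V K ι} (h0 : Q.1 ≠ 0) (hQ : 0 ≤ N Q) (h : B Q U = 0) : N U ≤ 0 := by
  have h1 := orth_aux h
  have ha : 0 < ‖Q.1‖ ^ 2 := by positivity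
  have hd : 0 ≤ ∑ i, ‖U.2 i‖ ^ 2 := by positivity
  unfold N at *
  by_contra hc
  push Not at hc
  nlinarith

theorem orth_eq {Q U : V K ι} (hQ : 0 < N Q) (h : B Q U = 0) (hU : 0 ≤ N U) : U = 0 := by
  have h1 := orth_aux h
  have hb : 0 ≤ ∑ i, ‖Q.2 i‖ ^ 2 := by positivity
  have hd : 0 ≤ ∑ i, ‖U.2 i‖ ^ 2 := by positivity
  have hc0 : 0 ≤ ‖U.1‖ ^ 2 := by positivity
  unfold N at *
  have hc : ‖U.1‖ ^ 2 = 0 := by
    by_contra hne
    have : 0 < ‖U.1‖ ^ 2 := lt_of_le_of_ne hc0 (Ne.symm hne)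
    nlinarith
  have hd0 : ∑ i, ‖U.2 i‖ ^ 2 = 0 := by linarith
  ext i
  · simpa using hc
  · have := (Finset.sum_eq_zero_iff_of_nonneg (fun i _ => by positivity)).1 hd0 i (mem_univ i)
    simpa using this

theorem cs {Q U W : V K ι} (h0 : Q.1 ≠ 0) (hQ : 0 ≤ N Q) (hU : B Q U = 0) (hW : B Q W = 0) :
    ‖B U W‖ ^ 2 ≤ N U * N W := by
  set a := B U W with ha
  have key : ∀ t : ℝ, (N U * ‖a‖ ^ 2) * (t * t) + (2 * ‖a‖ ^ 2) * t + N W ≤ 0 := by
    intro t
    have := orth_le (U := rm U (a * algebraMap ℝ K t) + W) h0 hQ (by rw [B_add, B_rm, hU, hW]; simp)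
    rw [N_add, N_rm, rm_B, ← ha, star_mul, HK.star_real, mul_assoc, HK.star_mul_self, ← map_mul,
      re_rho, norm_mul, norm_rho, mul_pow, sq_abs] at this
    nlinarith
  have := discrim_le_zero_of_nonpos key
  unfold discrim at this
  by_cases h : a = 0
  · rw [h, norm_zero]
    have := mul_nonneg_of_nonpos_of_nonpos (orth_le h0 hQ hU) (orth_le h0 hQ hW)
    simpa using this
  · have : 0 < ‖a‖ ^ 2 := by positivity
    nlinarith

noncomputable def q (X Y : V K ι) : ℝ := ‖B X Y‖ ^ 2 / (N X * N Y)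

theorem q_comm (X Y : V K ι) : q X Y = q Y X := by unfold q; rw [norm_B_comm, mul_comm]

theorem q_rm (X Y : V K ι) {a : K} (ha : a ≠ 0) : q X (rm Y a) = q X Y := by
  unfold q
  rw [B_rm, N_rm, norm_mul, mul_pow, ← mul_assoc, mul_div_mul_right _ _ (by positivity)]

theorem rm_q (X Y : V K ι) {a : K} (ha : a ≠ 0) : q (rm X a) Y = q X Y := by
  rw [q_comm, q_rm _ _ ha, q_comm]

theorem decomp {X : V K ι} (Y : V K ι) (hX : 0 < N X) :
    B X (Y - rm X (algebraMap ℝ K (N X)⁻¹ * B X Y)) = 0 ∧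
      N (Y - rm X (algebraMap ℝ K (N X)⁻¹ * B X Y)) = N Y - ‖B X Y‖ ^ 2 / N X := by
  constructor
  · rw [B_sub, B_rm, B_self, ← mul_assoc, ← map_mul, mul_inv_cancel₀ hX.ne', map_one, one_mul,
      sub_self]
  · rw [N_sub, N_rm, B_rm, ← star_B X Y, ← mul_assoc, ← Algebra.commutes, mul_assoc,
      HK.star_mul_self, ← map_mul, re_rho, norm_mul, norm_rho, mul_pow, sq_abs]
    field_simp
    ring

theorem one_le_q {X Y : V K ι} (hX : 0 < N X) (hY : 0 < N Y) : 1 ≤ q X Y := by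
  obtain ⟨h1, h2⟩ := decomp Y hX
  have := orth_le (fst_ne hX) hX.le h1
  rw [h2, sub_nonpos, le_div_iff₀ hX] at this
  unfold q
  rw [le_div_iff₀ (by positivity)]
  linarith

theorem eq_of_q {X Y : V K ι} (hX : 0 < N X) (hY : 0 < N Y) (h : q X Y ≤ 1) :
    ∃ a, Y = rm X a := by
  obtain ⟨h1, h2⟩ := decomp Y hX
  unfold q at h
  rw [div_le_iff₀ (by positivity)] at h
  have := orth_eq hX h1 (by rw [h2, sub_nonneg, div_le_iff₀ hX]; linarith)
  exact ⟨_, sub_eq_zero.1 this⟩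

theorem far {M P Q : V K ι} (hP : 0 < N P) (hQ : 0 < N Q) (hM : B Q M = 0) :
    ‖B M P‖ ^ 2 ≤ -N M * q P Q * N P := by
  obtain ⟨h1, h2⟩ := decomp P hQ
  have h3 := cs (fst_ne hQ) hQ.le hM h1
  rw [h2, B_sub, B_rm, B_comm_zero hM, zero_mul, sub_zero] at h3
  have h4 := orth_le (fst_ne hQ) hQ.le hM
  have : q P Q * N P = ‖B Q P‖ ^ 2 / N Q := by
    unfold q; rw [norm_B_comm]; field_simp
  rw [mul_assoc, this]
  nlinarith

theorem unit {X : V K ι} (hX : 0 < N X) : ∃ s : K, s ≠ 0 ∧ N (rm X s) = 1 := by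
  refine ⟨algebraMap ℝ K (√(N X))⁻¹, ?_, ?_⟩
  · have : 0 < √(N X) := Real.sqrt_pos.2 hX
    simpa using this.ne'
  · rw [N_rm, norm_rho, sq_abs, inv_pow, Real.sq_sqrt hX.le, mul_inv_cancel₀ hX.ne']

theorem normalize {X Y : V K ι} (hX : 0 < N X) (hY : 0 < N Y) {c : ℝ} (hc : 0 < c)
    (h : q X Y = c ^ 2) :
    ∃ s t : K, s ≠ 0 ∧ t ≠ 0 ∧ N (rm X s) = 1 ∧ N (rm Y t) = 1 ∧ B (rm X s) (rm Y t) = algebraMap ℝ K c := by
  obtain ⟨s, hs, hs1⟩ := unit hX
  obtain ⟨t, ht, ht1⟩ := unit hY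
  set b := B (rm X s) (rm Y t) with hb
  have hq : ‖b‖ ^ 2 = c ^ 2 := by
    rw [← h, ← rm_q X Y hs, ← q_rm _ Y ht]
    unfold q
    rw [hs1, ht1]; simp [hb]
  have hbc : ‖b‖ = c := by
    have := abs_eq_abs.2 (sq_eq_sq_iff_eq_or_eq_neg.1 hq)
    rwa [abs_of_nonneg (norm_nonneg _), abs_of_pos hc] at this
  have hu : ‖star b * algebraMap ℝ K c⁻¹‖ = 1 := by
    rw [norm_mul, nstar, norm_rho, hbc, abs_of_pos (by positivity), mul_inv_cancel₀ hc.ne']
  refine ⟨s, t * (star b * algebraMap ℝ K c⁻¹), hs, mul_ne_zero ht (by rw [← norm_ne_zero_iff, hu]; simp), hs1,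
    by rw [← rm_rm, N_rm, ht1, hu]; simp, ?_⟩
  rw [← rm_rm, B_rm, ← hb, ← mul_assoc]
  have := HK.star_mul_self (star b)
  rw [star_star, nstar, hbc] at this
  rw [this, ← map_mul]
  congr 1
  field_simp

end Pool.Agent.H58.QH
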