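import Pool.Agent.H58.QH1

set_option autoImplicit false
set_option linter.unusedSectionVars false

namespace Pool.Agent.H58.QH

open Finset

variable {K : Type*} [NormedDivisionRing K] [StarRing K] [NormedAlgebra ℝ K] [HK K]


variable {ι κ : Type*} [Fintype ι] [Fintype κ]

noncomputable def Phi (c a b m : ℝ) : ℝ := 1 - m - (2 * a + 2 * b - (2 + 2 * c) * m) / (2 - 2 * c)

theorem q_unit {X Y : V K ι} (hX : N X = 1) (hY : N Y = 1) : q X Y = ‖B X Y‖ ^ 2 := by
  unfold q; rw [hX, hY]; simp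

theorem phi_unit {X Y M Z : V K ι} {c : ℝ} (hc : 1 < c) (hX : N X = 1) (hY : N Y = 1)
    (hM : 0 < N M) (hZ : N Z = 1) (hB : B X Y = algebraMap ℝ K c) (h1 : q X M = (1 + c) / 2)
    (h2 : q Y M = (1 + c) / 2) :
    (∃ a b, Z = rm X a + rm Y b) ↔ Phi c (q X Z) (q Y Z) (q M Z) = 0 := by
  have hB' : B Y X = algebraMap ℝ K c := by rw [← star_B, hB, HK.star_real]
  set E := X + Y with hE
  set F := X - Y with hF
  have hNE : N E = 2 + 2 * c := by rw [hE, N_add, hX, hY, hB, re_rho]; ring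
  have hNF : N F = 2 - 2 * c := by rw [hF, N_sub, hX, hY, hB, re_rho]; ring
  have hEF : B E F = 0 := by
    rw [hE, hF, add_B, B_sub, B_sub, B_self, B_self, hX, hY, hB, hB']; simp
  have hEpos : 0 < N E := by rw [hNE]; linarith
  have hEM : q E M ≤ 1 := by
    unfold q at *
    rw [hX, one_mul, div_eq_iff hM.ne'] at h1
    rw [hY, one_mul, div_eq_iff hM.ne'] at h2
    rw [div_le_one (by positivity), hNE, hE, add_B]
    have := norm_add_le (B X M) (B Y M)
    have h3 : ‖B X M + B Y M‖ ^ 2 ≤ (‖B X M‖ + ‖B Y M‖) ^ 2 := by gcongr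
    nlinarith [sq_nonneg (‖B X M‖ - ‖B Y M‖)]
  obtain ⟨a0, ha0⟩ := eq_of_q hEpos hM hEM
  have ha0' : a0 ≠ 0 := by
    rintro rfl
    rw [ha0, N_rm] at hM
    simp at hM
  have hqM : q M Z = ‖B E Z‖ ^ 2 / (2 + 2 * c) := by
    rw [ha0, rm_q _ _ ha0']; unfold q; rw [hNE, hZ, mul_one]
  have hpar : ‖B E Z‖ ^ 2 + ‖B F Z‖ ^ 2 = 2 * q X Z + 2 * q Y Z := by
    rw [q_unit hX hZ, q_unit hY hZ, hE, hF, add_B, sub_B, sub_eq_add_neg, norm_add_sq', norm_add_sq',
      mul_neg, map_neg, norm_neg]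
    ring
  set a := algebraMap ℝ K (2 + 2 * c)⁻¹ * B E Z with ha
  set b := algebraMap ℝ K (2 - 2 * c)⁻¹ * B F Z with hb
  set U := Z - rm E a - rm F b with hU
  have hp : (2 + 2 * c) ≠ 0 := by linarith
  have hm : (2 - 2 * c) ≠ 0 := by linarith
  have hEU : B E U = 0 := by
    rw [hU, B_sub, B_sub, B_rm, B_rm, hEF, B_self, hNE, ha, ← mul_assoc, ← map_mul,
      mul_inv_cancel₀ hp]; simp
  have hFU : B F U = 0 := by
    rw [hU, B_sub, B_sub, B_rm, B_rm, B_comm_zero hEF, zero_mul, B_self, hNF, hb, ← mul_assoc, ← map_mul,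
      mul_inv_cancel₀ hm]; simp
  have hNU : N U = (HK.re (K := K)) (B Z U) := by
    rw [N_eq]
    conv_lhs => rw [show B U U = B (Z - rm E a - rm F b) U from rfl]
    rw [sub_B, sub_B, rm_B, rm_B, hEU, hFU]; simp
  have hNU2 : N U = Phi c (q X Z) (q Y Z) (q M Z) := by
    rw [hNU, hU, B_sub, B_sub, B_rm, B_rm, map_sub, map_sub, ← N_eq, hZ, ha, hb, ← star_B E Z,
      ← star_B F Z, ← mul_assoc, ← mul_assoc, ← Algebra.commutes, ← Algebra.commutes, mul_assoc,
      mul_assoc, HK.star_mul_self, HK.star_mul_self, ← map_mul, ← map_mul, re_rho, re_rho]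
    unfold Phi
    rw [hqM, ← hpar]
    field_simp
    ring
  rw [← hNU2]
  constructor
  · rintro ⟨s, t, hst⟩
    have hXU : B X U = 0 := by
      have h : B X U + B X U = 0 := by
        have : X + X = E + F := by rw [hE, hF]; abel
        rw [← add_B, this, add_B, hEU, hFU, add_zero]
      rw [← two_smul ℝ] at h
      simpa using h
    have hYU : B Y U = 0 := by
      rw [hE, add_B, hXU, zero_add] at hEU; exact hEU
    rw [hNU]
    conv_lhs => rw [show B Z U = B (rm X s + rm Y t) U by rw [← hst]]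
    rw [add_B, rm_B, rm_B, hXU, hYU]; simp
  · intro h
    have h0 := orth_eq hEpos hEU h.ge
    refine ⟨a + b, a - b, ?_⟩
    rw [hU, sub_sub, sub_eq_zero] at h0
    rw [h0, hE, hF, add_rm, sub_rm, rm_add, rm_sub]
    abel

theorem phi_eq {X Y M Z : V K ι} {c : ℝ} (hc : 1 < c) (hX : 0 < N X) (hY : 0 < N Y)
    (hM : 0 < N M) (hZ : 0 < N Z) (hB : q X Y = c ^ 2) (h1 : q X M = (1 + c) / 2)
    (h2 : q Y M = (1 + c) / 2) :
    (∃ a b, Z = rm X a + rm Y b) ↔ Phi c (q X Z) (q Y Z) (q M Z) = 0 := by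
  obtain ⟨s, t, hs, ht, hs1, ht1, hst⟩ := normalize hX hY (by linarith) hB
  obtain ⟨u, hu, hu1⟩ := unit hZ
  have := phi_unit (M := M) hc hs1 ht1 hM hu1 hst (by rw [rm_q _ _ hs, h1]) (by rw [rm_q _ _ ht, h2])
  rw [rm_q _ _ hs, rm_q _ _ ht, q_rm _ _ hu, q_rm _ _ hu, q_rm _ _ hu] at this
  rw [← this]
  constructor
  · rintro ⟨a, b, h⟩
    refine ⟨s⁻¹ * (a * u), t⁻¹ * (b * u), ?_⟩
    rw [h, add_rm, rm_rm, rm_rm, rm_rm, rm_rm, mul_inv_cancel_left₀ hs, mul_inv_cancel_left₀ ht]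
  · rintro ⟨a, b, h⟩
    refine ⟨s * a * u⁻¹, t * b * u⁻¹, ?_⟩
    have : Z = rm (rm Z u) u⁻¹ := by rw [rm_rm, mul_inv_cancel₀ hu, rm_one]
    rw [this, h, add_rm, rm_rm, rm_rm, rm_rm, rm_rm, mul_assoc, mul_assoc]

theorem exists_mid {X Y : V K ι} {c : ℝ} (hc : 1 < c) (hX : 0 < N X) (hY : 0 < N Y)
    (hB : q X Y = c ^ 2) :
    ∃ M : V K ι, 0 < N M ∧ q X M = (1 + c) / 2 ∧ q Y M = (1 + c) / 2 := by
  obtain ⟨s, t, hs, ht, hs1, ht1, hst⟩ := normalize hX hY (by linarith) hB
  have hst' : B (rm Y t) (rm X s) = algebraMap ℝ K c := by rw [← star_B, hst, HK.star_real]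
  have hN : N (rm X s + rm Y t) = 2 + 2 * c := by rw [N_add, hs1, ht1, hst, re_rho]; ring
  have hp : (2 + 2 * c) ≠ 0 := by linarith
  refine ⟨rm X s + rm Y t, by rw [hN]; linarith, ?_, ?_⟩
  · rw [← rm_q _ _ hs]; unfold q
    rw [hN, hs1, B_add, B_self, hs1, hst, ← map_add, norm_rho, sq_abs]
    field_simp
  · rw [← rm_q _ _ ht]; unfold q
    rw [hN, ht1, B_add, B_self, ht1, hst', ← map_add, norm_rho, sq_abs]
    field_simp
    ring

theorem q_self {X : V K ι} (hX : 0 < N X) : q X X = 1 := by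
  unfold q; rw [B_self, norm_rho, sq_abs]; field_simp

theorem span_step {G : V K ι → V K κ} (hG : ∀ X, 0 < N X → 0 < N (G X))
    (hq : ∀ X Y, 0 < N X → 0 < N Y → q (G X) (G Y) = q X Y) {X Y Z : V K ι} (hX : 0 < N X)
    (hY : 0 < N Y) (hZ : 0 < N Z) (h : ∃ a b, Z = rm X a + rm Y b) {M : V K κ}
    (h1 : B M (G X) = 0) (h2 : B M (G Y) = 0) : B M (G Z) = 0 := by
  by_cases hc : q X Y ≤ 1
  · obtain ⟨t, ht⟩ := eq_of_q hX hY hc
    obtain ⟨a, b, h⟩ := h
    rw [ht, rm_rm, ← rm_add] at h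
    have hne : a + t * b ≠ 0 := by
      intro h0
      rw [h, h0, N_rm] at hZ
      simp at hZ
    have : q (G X) (G Z) ≤ 1 := by rw [hq _ _ hX hZ, h, q_rm _ _ hne, q_self hX]
    obtain ⟨t', ht'⟩ := eq_of_q (hG _ hX) (hG _ hZ) this
    rw [ht', B_rm, h1, zero_mul]
  · push Not at hc
    have hc1 : 1 < √(q X Y) := by rw [Real.lt_sqrt (by norm_num)]; simpa using hc
    have hB : q X Y = √(q X Y) ^ 2 := (Real.sq_sqrt (by linarith)).symm
    obtain ⟨M0, hM0, e1, e2⟩ := exists_mid hc1 hX hY hB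
    have := (phi_eq hc1 hX hY hM0 hZ hB e1 e2).1 h
    rw [← hq _ _ hX hZ, ← hq _ _ hY hZ, ← hq _ _ hM0 hZ] at this
    obtain ⟨a, b, h'⟩ := (phi_eq hc1 (hG _ hX) (hG _ hY) (hG _ hM0) (hG _ hZ)
      (by rw [hq _ _ hX hY]; exact hB) (by rw [hq _ _ hX hM0, e1]) (by rw [hq _ _ hY hM0, e2])).2 this
    rw [h', B_add, B_rm, B_rm, h1, h2]; simp

open Classical in
noncomputable def P (K : Type*) [NormedDivisionRing K] [NormedAlgebra ℝ K] {ι : Type*} :
    Option ι → V K ι
  | none => (1, 0)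
  | some i => (1, Pi.single i (algebraMap ℝ K (1 / 2)))

theorem sum_single [DecidableEq ι] (i : ι) (a : K) :
    ∑ j, ‖(Pi.single i a : ι → K) j‖ ^ 2 = ‖a‖ ^ 2 := by
  rw [Finset.sum_eq_single i]
  · simp
  · intro j _ hj; simp [Pi.single_eq_of_ne hj]
  · simp

theorem P_pos (o : Option ι) : 0 < N (P K o) := by
  classical
  cases o with
  | none => simp [P, N]
  | some i =>
    simp only [P, N]
    rw [sum_single, norm_rho, norm_one]
    norm_num [abs_of_pos]

theorem span_all {G : V K ι → V K κ} (hG : ∀ X, 0 < N X → 0 < N (G X))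
    (hq : ∀ X Y, 0 < N X → 0 < N Y → q (G X) (G Y) = q X Y) {M : V K κ}
    (h : ∀ o, B M (G (P K o)) = 0) (X : V K ι) (hX : 0 < N X) : B M (G X) = 0 := by
  classical
  have hO := P_pos (K := K) (ι := ι) none
  have key : ∀ s : Finset ι, ∀ X : V K ι, 0 < N X → (∀ i, i ∉ s → X.2 i = 0) → B M (G X) = 0 := by
    intro s
    induction s using Finset.induction_on with
    | empty =>
      intro X hX hs
      refine span_step hG hq hO hO hX ⟨X.1, 0, ?_⟩ (h none) (h none)
      ext i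
      · simp [rm, P]
      · simp [rm, P, hs i (by simp)]
    | insert i s hi ih =>
      intro X hX hs
      have hx0 := fst_ne hX
      set y : ι → K := fun j => X.2 j * (X.1⁻¹ * algebraMap ℝ K (1 / 2)) with hy
      have hsum : ∑ j, ‖y j‖ ^ 2 < 1 / 4 := by
        have h1 := N_rm X (X.1⁻¹ * algebraMap ℝ K (1 / 2))
        have h2 : 0 < ‖X.1⁻¹ * algebraMap ℝ K (1 / 2)‖ ^ 2 := by
          have : X.1⁻¹ * algebraMap ℝ K (1 / 2) ≠ 0 := mul_ne_zero (inv_ne_zero hx0) (by simp)
          positivity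
        have h3 : 0 < N (rm X (X.1⁻¹ * algebraMap ℝ K (1 / 2))) := by rw [h1]; positivity
        simp only [N, rm] at h3
        rw [mul_inv_cancel_left₀ hx0, norm_rho] at h3
        norm_num [abs_of_pos] at h3
        simp only [hy]
        norm_num
        linarith
      have hA : 0 < N ((algebraMap ℝ K (1 / 2), Function.update y i 0) : V K ι) := by
        simp only [N]
        rw [norm_rho]
        have : ∑ j, ‖Function.update y i 0 j‖ ^ 2 ≤ ∑ j, ‖y j‖ ^ 2 := by
          refine Finset.sum_le_sum fun j _ => ?_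
          by_cases hj : j = i
          · subst hj; simp
          · rw [Function.update_of_ne hj]
        norm_num [abs_of_pos]
        linarith
      have hC : 0 < N ((algebraMap ℝ K (1 / 2), Pi.single i (y i)) : V K ι) := by
        simp only [N]
        rw [norm_rho, sum_single]
        have : ‖y i‖ ^ 2 ≤ ∑ j, ‖y j‖ ^ 2 :=
          Finset.single_le_sum (f := fun j => ‖y j‖ ^ 2) (fun j _ => by positivity) (mem_univ i)
        norm_num [abs_of_pos]
        linarith
      have hT : 0 < N ((1, y) : V K ι) := by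
        simp only [N, norm_one]; linarith
      have h2 : algebraMap ℝ K (1 / 2) * algebraMap ℝ K 2 = 1 := by rw [← map_mul]; norm_num
      have gA := ih _ hA (fun j hj => by
        by_cases hji : j = i
        · subst hji; simp
        · simp only [Function.update_of_ne hji, hy]
          rw [hs j (by simp [hj, hji]), zero_mul])
      have gC := span_step hG hq hO (P_pos (some i)) hC ⟨algebraMap ℝ K (1 / 2) - algebraMap ℝ K 2 * y i, algebraMap ℝ K 2 * y i, by
        ext j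
        · simp [rm, P]
        · by_cases hji : j = i
          · subst hji
            simp only [rm, P, Prod.snd_add, Pi.add_apply, Pi.single_eq_same, Pi.zero_apply,
              zero_mul, zero_add]
            rw [← mul_assoc, h2, one_mul]
          · simp [rm, P, Pi.single_eq_of_ne hji]⟩ (h none) (h (some i))
      have gT := span_step hG hq hA hC hT ⟨1, 1, by
        ext j
        · simp only [rm, Prod.fst_add, mul_one]
          rw [← map_add]; norm_num
        · by_cases hji : j = i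
          · subst hji; simp [rm]
          · simp [rm, Function.update_of_ne hji, Pi.single_eq_of_ne hji]⟩ gA gC
      refine span_step hG hq hO hT hX ⟨-X.1, algebraMap ℝ K 2 * X.1, ?_⟩ (h none) gT
      ext j
      · simp only [rm, P, Prod.fst_add, one_mul]
        rw [← Algebra.smul_def, two_smul]; abel
      · simp only [rm, P, Prod.snd_add, Pi.add_apply, Pi.zero_apply, zero_mul, zero_add, hy]
        rw [mul_assoc, mul_assoc, ← mul_assoc (algebraMap ℝ K (1 / 2)), h2, one_mul, inv_mul_cancel₀ hx0, mul_one]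
  exact key Finset.univ X hX (by simp)

end Pool.Agent.H58.QH
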