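import Pool.Agent.H58.QH2

set_option autoImplicit false
set_option linter.unusedSectionVars false

namespace Pool.Agent.H58.QH

open Finset

section

variable {K : Type*} [NormedDivisionRing K] [StarRing K] [NormedAlgebra ℝ K] [HK K]


variable {ι κ : Type*} [Fintype ι] [Fintype κ] [DecidableEq ι]

noncomputable def E (e : ι ↪ κ) (X : V K ι) : V K κ := (X.1, Function.extend e X.2 0)

theorem B_E (e : ι ↪ κ) (X Y : V K ι) : B (E e X) (E e Y) = B X Y := by
  classical
  simp only [B, E]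
  congr 1
  symm
  refine Fintype.sum_of_injective e e.injective _ _ (fun j hj => ?_) (fun i => ?_)
  · rw [Function.extend_apply' _ _ _ (by simpa using hj)]; simp
  · rw [e.injective.extend_apply, e.injective.extend_apply]

theorem N_E (e : ι ↪ κ) (X : V K ι) : N (E e X) = N X := by rw [N_eq, B_E, ← N_eq]

theorem q_E (e : ι ↪ κ) (X Y : V K ι) : q (E e X) (E e Y) = q X Y := by
  unfold q; rw [B_E, N_E, N_E]

theorem exists_orth (e : Option ι ↪ κ) (G : Option ι → V K κ) :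
    ∃ M : V K (Option ι), M ≠ 0 ∧ ∀ o, B (E e M) (G o) = 0 := by
  have := HK.fin (K := K)
  let L : V K (Option ι) →ₗ[ℝ] (Option ι → K) :=
    { toFun := fun M o => B (G o) (E e M)
      map_add' := fun M M' => by
        funext o
        have : E e (M + M') = E e M + E e M' := by
          ext j
          · rfl
          · by_cases hj : ∃ i, e i = j
            · obtain ⟨i, rfl⟩ := hj
              simp [E, e.injective.extend_apply]
            · simp [E, Function.extend_apply' _ _ _ hj]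
        simp only [this, B_add, Pi.add_apply]
      map_smul' := fun r M => by
        funext o
        have : E e (r • M) = rm (E e M) (algebraMap ℝ K r) := by
          ext j
          · simp [E, rm, Algebra.smul_def, Algebra.commutes]
          · by_cases hj : ∃ i, e i = j
            · obtain ⟨i, rfl⟩ := hj
              simp [E, rm, e.injective.extend_apply, Algebra.smul_def, Algebra.commutes]
            · simp [E, rm, Function.extend_apply' _ _ _ hj]
        simp only [this, B_rm, Pi.smul_apply, RingHom.id_apply]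
        rw [Algebra.smul_def, Algebra.commutes] }
  have hlt : Module.finrank ℝ (Option ι → K) < Module.finrank ℝ (V K (Option ι)) := by
    rw [Module.finrank_prod]
    have : 0 < Module.finrank ℝ K := Module.finrank_pos
    omega
  obtain ⟨M, hM, hM0⟩ := (Submodule.ne_bot_iff _).1 (LinearMap.ker_ne_bot_of_finrank_lt (f := L) hlt)
  exact ⟨M, hM0, fun o => B_comm_zero (congrFun hM o)⟩

noncomputable def einf (i0 : ι) : V K ι := (1, Pi.single i0 (-1))
noncomputable def oo (i0 : ι) : V K ι := (algebraMap ℝ K (1 / 2), Pi.single i0 (algebraMap ℝ K (1 / 2)))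

theorem B_single (a b : K) (i0 : ι) (X : V K ι) :
    B ((a, Pi.single i0 b) : V K ι) X = star a * X.1 - star b * X.2 i0 := by
  simp only [B]
  rw [Finset.sum_eq_single i0]
  · simp
  · intro j _ hj; simp [Pi.single_eq_of_ne hj]
  · simp

theorem N_einf (i0 : ι) : N (einf (K := K) i0) = 0 := by
  simp only [N, einf]; rw [sum_single]; simp

theorem N_oo (i0 : ι) : N (oo (K := K) i0) = 0 := by
  simp only [N, oo]; rw [sum_single]; simp

theorem B_einf_oo (i0 : ι) : B (einf (K := K) i0) (oo i0) = 1 := by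
  rw [einf, B_single]
  simp only [oo, Pi.single_eq_same, star_one, star_neg, one_mul, neg_mul, sub_neg_eq_add]
  rw [← map_add]; norm_num

theorem B_einf_einf (i0 : ι) : B (einf (K := K) i0) (einf i0) = 0 := by
  rw [B_self, N_einf, map_zero]

theorem einf_le {i0 : ι} {U : V K ι} (h : B (einf i0) U = 0) : N U ≤ 0 :=
  orth_le (by simp [einf]) (N_einf i0).ge h

theorem re_pos {i0 : ι} {X Y : V K ι} (hX : B (einf i0) X = 1) (hY : B (einf i0) Y = 1) :
    N X + N Y ≤ 2 * (HK.re (K := K)) (B X Y) := by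
  have := einf_le (i0 := i0) (U := X - Y) (by rw [B_sub, hX, hY, sub_self])
  rw [N_sub] at this
  linarith

theorem tri {i0 : ι} {O X Y : V K ι} (hO : B (einf i0) O = 1) (hX : B (einf i0) X = 1)
    (hY : B (einf i0) Y = 1) (nO : N O = 0) (nX : 0 ≤ N X) (nY : 0 ≤ N Y) :
    √‖B O Y‖ ≤ √‖B O X‖ + √‖B X Y‖ := by
  have hA : B (einf i0) (X - O) = 0 := by rw [B_sub, hX, hO, sub_self]
  have hC : B (einf i0) (Y - X) = 0 := by rw [B_sub, hX, hY, sub_self]
  have h1 := cs (by simp [einf]) (N_einf i0).ge hA hC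
  have hA' := einf_le hA
  have hC' := einf_le hC
  have e1 : B O Y = (B O X + algebraMap ℝ K (-N X)) + B X Y - B (X - O) (Y - X) := by
    rw [sub_B, B_sub, B_sub, B_self, map_neg]; abel
  set a := ‖B O X‖ with ha
  set b := ‖B X Y‖ with hb
  have r1 : (HK.re (K := K)) (B O X) ≤ a := (le_abs_self _).trans (abs_re_le _)
  have r2 : (HK.re (K := K)) (B X Y) ≤ b := (le_abs_self _).trans (abs_re_le _)
  have s1 : N (X - O) = N X - 2 * (HK.re (K := K)) (B O X) := by
    rw [N_sub, nO, ← star_B O X, re_star]; ring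
  have s2 : N (Y - X) = N Y + N X - 2 * (HK.re (K := K)) (B X Y) := by
    rw [N_sub, ← star_B X Y, re_star]
  have ha0 : 0 ≤ a := norm_nonneg _
  have hb0 : 0 ≤ b := norm_nonneg _
  have h2 : ‖B O X + algebraMap ℝ K (-N X)‖ ≤ a := by
    apply le_of_sq_le_sq _ ha0
    rw [norm_add_rho]
    nlinarith
  have h3 : ‖B (X - O) (Y - X)‖ ≤ 2 * (√a * √b) := by
    apply le_of_sq_le_sq _ (by positivity)
    rw [mul_pow, mul_pow, Real.sq_sqrt ha0, Real.sq_sqrt hb0]
    have : (-N (X - O)) * (-N (Y - X)) ≤ (2 * a) * (2 * b) :=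
      mul_le_mul (by linarith) (by linarith) (by linarith) (by linarith)
    nlinarith
  apply le_of_sq_le_sq _ (by positivity)
  rw [Real.sq_sqrt (norm_nonneg _), add_sq, Real.sq_sqrt ha0, Real.sq_sqrt hb0, e1]
  have := norm_sub_le (B O X + algebraMap ℝ K (-N X) + B X Y) (B (X - O) (Y - X))
  have := norm_add_le (B O X + algebraMap ℝ K (-N X)) (B X Y)
  linarith

def J (X : V K ι) (s : K) : V K (Option ι) := (X.1, fun o => o.elim s X.2)

theorem B_J (X Y : V K ι) (s t : K) : B (J X s) (J Y t) = B X Y - star s * t := by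
  simp only [B, J, Fintype.sum_option, Option.elim]; abel

noncomputable def F (i0 : ι) (X : V K ι) : V K (Option ι) :=
  J (X + rm (einf i0) (algebraMap ℝ K (‖B (oo i0) X‖ / 2))) (algebraMap ℝ K √‖B (oo i0) X‖)

theorem B_F {i0 : ι} {X Y : V K ι} (hX : B (einf i0) X = 1) (hY : B (einf i0) Y = 1) :
    B (F i0 X) (F i0 Y) = B X Y + algebraMap ℝ K ((√‖B (oo i0) X‖ - √‖B (oo i0) Y‖) ^ 2 / 2) := by
  have hX' : B X (einf i0) = 1 := by rw [← star_B, hX, star_one]
  unfold F
  rw [B_J, add_B, B_add, B_add, B_rm, rm_B, rm_B, B_rm, hX', hY, B_einf_einf, HK.star_real,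
    HK.star_real, sub_sq, Real.sq_sqrt (norm_nonneg _), Real.sq_sqrt (norm_nonneg _), ← map_mul]
  simp only [one_mul, mul_one, zero_mul, mul_zero, add_zero]
  rw [add_assoc, ← map_add, add_sub_assoc, ← map_sub]
  congr 2
  ring

theorem N_F {i0 : ι} {X : V K ι} (hX : B (einf i0) X = 1) : N (F i0 X) = N X := by
  rw [N_eq, B_F hX hX, N_eq]; simp

theorem q_F {i0 : ι} {X Y : V K ι} (hX : B (einf i0) X = 1) (hY : B (einf i0) Y = 1)
    (nX : 0 < N X) (nY : 0 < N Y) :
    q X Y ≤ q (F i0 X) (F i0 Y) ∧ q (F i0 X) (F i0 Y) ≤ 9 / 4 * q X Y := by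
  unfold q
  rw [N_F hX, N_F hY, B_F hX hY]
  have h1 := re_pos hX hY
  have t1 := tri (B_einf_oo i0) hX hY (N_oo i0) nX.le nY.le
  have t2 := tri (B_einf_oo i0) hY hX (N_oo i0) nY.le nX.le
  rw [norm_B_comm Y X] at t2
  set t := (√‖B (oo i0) X‖ - √‖B (oo i0) Y‖) ^ 2 / 2 with ht
  have ht0 : 0 ≤ t := by positivity
  have ht1 : t ≤ ‖B X Y‖ / 2 := by
    have : (√‖B (oo i0) X‖ - √‖B (oo i0) Y‖) ^ 2 ≤ √‖B X Y‖ ^ 2 :=
      sq_le_sq' (by linarith) (by linarith)
    rw [Real.sq_sqrt (norm_nonneg _)] at this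
    linarith
  constructor
  · apply div_le_div_of_nonneg_right _ (by positivity)
    rw [norm_add_rho]
    nlinarith
  · rw [← mul_div_assoc]
    apply div_le_div_of_nonneg_right _ (by positivity)
    have := norm_add_le (B X Y) (algebraMap ℝ K t)
    rw [norm_rho, abs_of_nonneg ht0] at this
    have h2 : ‖B X Y + algebraMap ℝ K t‖ ^ 2 ≤ (3 / 2 * ‖B X Y‖) ^ 2 := by gcongr; linarith
    linarith

noncomputable def pt (i0 : ι) (w : K) (z : ι → K) : V K ι := oo i0 + rm (einf i0) w + (0, z)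

theorem pt_einf (i0 : ι) (w : K) {z : ι → K} (hz : z i0 = 0) : B (einf i0) (pt i0 w z) = 1 := by
  rw [pt, B_add, B_add, B_rm, B_einf_oo, B_einf_einf, einf, B_single]; simp [hz]

theorem pt_oo (i0 : ι) (w : K) {z : ι → K} (hz : z i0 = 0) : B (oo i0) (pt i0 w z) = w := by
  have : B (oo (K := K) i0) (einf i0) = 1 := by rw [← star_B, B_einf_oo, star_one]
  rw [pt, B_add, B_add, B_rm, this, B_self, N_oo, oo, B_single]; simp [hz]

theorem pt_N (i0 : ι) (w : K) {z : ι → K} (hz : z i0 = 0) :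
    N (pt i0 w z) = 2 * (HK.re (K := K)) w - ∑ i, ‖z i‖ ^ 2 := by
  have : B (oo (K := K) i0) (einf i0) = 1 := by rw [← star_B, B_einf_oo, star_one]
  rw [pt, N_add, N_add, N_rm, N_oo, N_einf, B_rm, this, add_B, rm_B, oo, einf, B_single, B_single]
  simp [hz, N]
  ring

theorem no_far (i0 : ι) {M : V K (Option ι)} {C : ℝ}
    (h : ∀ X : V K ι, B (einf i0) X = 1 → 0 < N X → ‖B M (F i0 X)‖ ^ 2 ≤ C * N X) : M = 0 := by
  set M' : V K ι := (M.1, fun i => M.2 (some i)) with hM'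
  have hM : M = J M' (M.2 none) := by
    ext o
    · rfl
    · cases o <;> rfl
  set α := B M' (einf i0)
  set β := B M' (oo i0)
  set δ := star (M.2 none) with hδ
  have hform : ∀ w z, z i0 = 0 → B M (F i0 (pt i0 w z)) =
      β + α * w + B M' (0, z) + α * algebraMap ℝ K (‖w‖ / 2) - δ * algebraMap ℝ K √‖w‖ := by
    intro w z hz
    rw [hM, F, B_J, pt_oo i0 w hz, B_add, pt, B_add, B_add, B_rm, B_rm]
  have hlim : ∀ w z, z i0 = 0 → 2 * (HK.re (K := K)) w = ∑ i, ‖z i‖ ^ 2 →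
      β + α * w + B M' (0, z) + α * algebraMap ℝ K (‖w‖ / 2) - δ * algebraMap ℝ K √‖w‖ = 0 := by
    intro w z hz hw
    let f : ℝ → ℝ := fun t => ‖β + α * (w + algebraMap ℝ K t) + B M' (0, z) + α * algebraMap ℝ K (‖w + algebraMap ℝ K t‖ / 2) -
      δ * algebraMap ℝ K √‖w + algebraMap ℝ K t‖‖ ^ 2 - C * (2 * t)
    have hf : Continuous f := by
      have := continuous_algebraMap ℝ K
      fun_prop
    have h1 : f 0 ≤ 0 := by
      refine le_of_tendsto (x := nhdsWithin 0 (Set.Ioi 0))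
        (hf.continuousAt.tendsto.mono_left nhdsWithin_le_nhds) ?_
      filter_upwards [self_mem_nhdsWithin] with t ht
      have hN : N (pt i0 (w + algebraMap ℝ K t) z) = 2 * t := by
        rw [pt_N i0 _ hz, map_add, re_rho]; linarith
      have := h _ (pt_einf i0 (w + algebraMap ℝ K t) hz) (by rw [hN]; simpa using ht)
      rw [hform _ _ hz, hN] at this
      simp only [f]
      linarith
    simp only [f, map_zero, add_zero, mul_zero, sub_zero] at h1
    have := pow_eq_zero_iff (two_ne_zero) |>.1 (le_antisymm h1 (by positivity))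
    exact norm_eq_zero.1 this
  have hB0 : B M' ((0, 0) : V K ι) = 0 := by simp [B]
  have hβ : β = 0 := by simpa [hB0] using hlim 0 0 rfl (by simp)
  have hI : (HK.re (K := K)) (HK.I : K) = 0 := by
    have := re_star (HK.I : K)
    rw [HK.star_I, map_neg] at this
    linarith
  have h1 := hlim HK.I 0 rfl (by simp [hI])
  have h2 := hlim (-HK.I) 0 rfl (by simp [hI])
  rw [norm_neg] at h2
  rw [HK.norm_I, hβ, hB0, Real.sqrt_one, map_one] at h1 h2
  have hα : α = 0 := by
    have h3 : α * HK.I + α * HK.I = 0 := by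
      have := congrArg₂ (· - ·) h1 h2
      simp only [mul_neg, sub_zero] at this
      rw [← this]; abel
    rw [← two_smul ℝ] at h3
    have h4 : α * HK.I = 0 := by simpa using h3
    have h5 : (HK.I : K) ≠ 0 := by rw [← norm_ne_zero_iff, HK.norm_I]; simp
    exact (mul_eq_zero.1 h4).resolve_right h5
  have hδ0 : δ = 0 := by simpa [hα] using h1
  have hγ : ∀ j, j ≠ i0 → M.2 (some j) = 0 := by
    intro j hj
    have := hlim (algebraMap ℝ K (1 / 2)) (Pi.single j 1) (Pi.single_eq_of_ne hj.symm _)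
      (by rw [re_rho, sum_single]; simp)
    rw [hα, hβ, hδ0] at this
    have h3 : B M' (0, Pi.single j 1) = 0 := by simpa using this
    have h4 := B_comm_zero h3
    rw [B_single] at h4
    simpa [hM'] using h4
  have a1 := B_comm_zero hα
  have a2 := B_comm_zero hβ
  rw [einf, B_single] at a1
  rw [oo, B_single, HK.star_real, ← mul_sub] at a2
  have a3 : M'.1 = M'.2 i0 := sub_eq_zero.1 ((mul_eq_zero.1 a2).resolve_left (by simp))
  rw [← a3] at a1
  have a4 : M'.1 = 0 := by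
    simp only [star_one, one_mul, star_neg, neg_mul, sub_neg_eq_add] at a1
    rw [← two_smul ℝ] at a1
    simpa using a1
  ext o
  · exact a4
  · cases o with
    | none => simpa [hδ] using hδ0
    | some j =>
      by_cases hj : j = i0
      · rw [hj]; exact a3.symm.trans a4
      · exact hγ j hj

noncomputable def qq (x y : ι → K) : ℝ :=
  ‖(1 : K) - ∑ i, star (x i) * y i‖ ^ 2 / ((1 - ∑ i, ‖x i‖ ^ 2) * (1 - ∑ i, ‖y i‖ ^ 2))

omit [DecidableEq ι] in
theorem qq_eq (x y : ι → K) : qq x y = q ((1, x) : V K ι) (1, y) := by simp [qq, q, B, N]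

omit [DecidableEq ι] in
theorem ball_iff (x : ι → K) : ∑ i, ‖x i‖ ^ 2 < 1 ↔ 0 < N ((1, x) : V K ι) := by simp [N]

noncomputable def proj (X : V K ι) : ι → K := fun i => X.2 i * X.1⁻¹

omit [DecidableEq ι] in
theorem lift_proj {X : V K ι} (h : 0 < N X) : ((1, proj X) : V K ι) = rm X X.1⁻¹ := by
  ext i
  · simp [rm, fst_ne h]
  · rfl

omit [DecidableEq ι] in
theorem N_rm_pos {X : V K ι} (h : 0 < N X) {a : K} (ha : a ≠ 0) : 0 < N (rm X a) := by
  rw [N_rm]; positivity

theorem p_ne (i0 : ι) {X : V K ι} (h : 0 < N X) : B (einf i0) X ≠ 0 := fun h0 =>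
  absurd (einf_le h0) (not_le.2 h)

noncomputable def hat (i0 : ι) (X : V K ι) : V K ι := rm X (B (einf i0) X)⁻¹

theorem hat_p (i0 : ι) {X : V K ι} (h : 0 < N X) : B (einf i0) (hat i0 X) = 1 := by
  rw [hat, B_rm, mul_inv_cancel₀ (p_ne i0 h)]

theorem hat_pos (i0 : ι) {X : V K ι} (h : 0 < N X) : 0 < N (hat i0 X) :=
  N_rm_pos h (inv_ne_zero (p_ne i0 h))

theorem main (i0 : ι) (e : Option ι ↪ κ) : ∃ f : (ι → K) → (κ → K),
    (∀ x, ∑ i, ‖x i‖ ^ 2 < 1 → ∑ i, ‖f x i‖ ^ 2 < 1) ∧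
    (∀ x y, ∑ i, ‖x i‖ ^ 2 < 1 → ∑ i, ‖y i‖ ^ 2 < 1 →
      qq x y ≤ qq (f x) (f y) ∧ qq (f x) (f y) ≤ 9 / 4 * qq x y) ∧
    ∀ g : (ι → K) → (κ → K), (∀ x, ∑ i, ‖x i‖ ^ 2 < 1 → ∑ i, ‖g x i‖ ^ 2 < 1) →
      (∀ x y, ∑ i, ‖x i‖ ^ 2 < 1 → ∑ i, ‖y i‖ ^ 2 < 1 → qq (g x) (g y) = qq x y) →
      ∀ C : ℝ, ∃ x, ∑ i, ‖x i‖ ^ 2 < 1 ∧ ∀ y, ∑ i, ‖y i‖ ^ 2 < 1 → C < qq (f x) (g y) := by
  classical
  have hpos : ∀ X : V K ι, 0 < N X → 0 < N (E e (F i0 (hat i0 X))) := fun X hX => by
    rw [N_E, N_F (hat_p i0 hX)]; exact hat_pos i0 hX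
  refine ⟨fun x => proj (E e (F i0 (hat i0 (1, x)))), fun x hx => ?_, fun x y hx hy => ?_,
    fun g hg hq C => ?_⟩
  · have h := hpos _ ((ball_iff x).1 hx)
    rw [ball_iff, lift_proj h]
    exact N_rm_pos h (inv_ne_zero (fst_ne h))
  · rw [ball_iff] at hx hy
    have h1 := hpos _ hx
    have h2 := hpos _ hy
    rw [qq_eq, qq_eq, lift_proj h1, lift_proj h2, q_rm _ _ (inv_ne_zero (fst_ne h2)),
      rm_q _ _ (inv_ne_zero (fst_ne h1)), q_E]
    have := q_F (hat_p i0 hx) (hat_p i0 hy) (hat_pos i0 hx) (hat_pos i0 hy)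
    have e1 : q (hat i0 ((1, x) : V K ι)) (hat i0 (1, y)) = q ((1, x) : V K ι) (1, y) := by
      unfold hat
      rw [q_rm _ _ (inv_ne_zero (p_ne i0 hy)), rm_q _ _ (inv_ne_zero (p_ne i0 hx))]
    rwa [e1] at this
  · by_contra hcon
    push Not at hcon
    let G : V K ι → V K κ := fun X => (1, g (proj X))
    have hb : ∀ X : V K ι, 0 < N X → ∑ i, ‖proj X i‖ ^ 2 < 1 := fun X hX => by
      rw [ball_iff, lift_proj hX]; exact N_rm_pos hX (inv_ne_zero (fst_ne hX))
    have hG : ∀ X, 0 < N X → 0 < N (G X) := fun X hX => (ball_iff _).1 (hg _ (hb X hX))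
    have hGq : ∀ X Y, 0 < N X → 0 < N Y → q (G X) (G Y) = q X Y := fun X Y hX hY => by
      rw [← qq_eq, hq _ _ (hb X hX) (hb Y hY), qq_eq, lift_proj hX, lift_proj hY,
        q_rm _ _ (inv_ne_zero (fst_ne hY)), rm_q _ _ (inv_ne_zero (fst_ne hX))]
    obtain ⟨M, hM0, hM⟩ := exists_orth e (fun o => G (P K o))
    have hall := span_all hG hGq hM
    refine hM0 (no_far i0 (C := -N (E e M) * C) fun X hX nX => ?_)
    obtain ⟨y, hy, hC⟩ := hcon (proj X) (hb X nX)
    have hy' := (ball_iff y).1 hy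
    have e1 : hat i0 ((1, proj X) : V K ι) = X := by
      rw [lift_proj nX, hat, B_rm, hX, one_mul, rm_rm, inv_inv, inv_mul_cancel₀ (fst_ne nX), rm_one]
    have e2 : proj ((1, y) : V K ι) = y := by funext i; simp [proj]
    have h1 : 0 < N (E e (F i0 X)) := by rw [N_E, N_F hX]; exact nX
    rw [e1, qq_eq, lift_proj h1, rm_q _ _ (inv_ne_zero (fst_ne h1))] at hC
    have h2 := hall _ hy'
    have h3 := hG _ hy'
    simp only [G, e2] at h2 h3
    have h4 := far h1 h3 (B_comm_zero h2)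
    have h5 := orth_le (fst_ne h3) h3.le (B_comm_zero h2)
    rw [B_E, N_E e (F i0 X), N_F hX] at h4
    refine h4.trans ?_
    gcongr
    linarith

noncomputable def DD (x y : ι → K) : ℝ := Real.arsinh (Real.sqrt (qq x y - 1))

theorem arsinh_bounds {t : ℝ} (ht : 1 ≤ t) :
    Real.log √t ≤ Real.arsinh √(t - 1) ∧ Real.arsinh √(t - 1) ≤ Real.log (2 * √t) := by
  have h0 : 0 < √t := Real.sqrt_pos.2 (by linarith)
  have h1 : √(t - 1) ≤ √t := Real.sqrt_le_sqrt (by linarith)
  have h2 := Real.sqrt_nonneg (t - 1)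
  unfold Real.arsinh
  rw [Real.sq_sqrt (by linarith), show 1 + (t - 1) = t by ring]
  exact ⟨Real.log_le_log h0 (by linarith), Real.log_le_log (by linarith) (by linarith)⟩

theorem mainD (i0 : ι) (e : Option ι ↪ κ) : ∃ f : (ι → K) → (κ → K),
    (∀ x, ∑ i, ‖x i‖ ^ 2 < 1 → ∑ i, ‖f x i‖ ^ 2 < 1) ∧
    (∀ x y, ∑ i, ‖x i‖ ^ 2 < 1 → ∑ i, ‖y i‖ ^ 2 < 1 →
      DD x y ≤ DD (f x) (f y) ∧ DD (f x) (f y) ≤ DD x y + Real.log 3) ∧
    ∀ g : (ι → K) → (κ → K), (∀ x, ∑ i, ‖x i‖ ^ 2 < 1 → ∑ i, ‖g x i‖ ^ 2 < 1) →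
      (∀ x y, ∑ i, ‖x i‖ ^ 2 < 1 → ∑ i, ‖y i‖ ^ 2 < 1 → DD (g x) (g y) = DD x y) →
      ∀ R : ℝ, ∃ x, ∑ i, ‖x i‖ ^ 2 < 1 ∧ ∀ y, ∑ i, ‖y i‖ ^ 2 < 1 → R < DD (f x) (g y) := by
  classical
  obtain ⟨f, h1, h2, h3⟩ := main (K := K) i0 e
  have o1 : ∀ x y : ι → K, ∑ i, ‖x i‖ ^ 2 < 1 → ∑ i, ‖y i‖ ^ 2 < 1 → 1 ≤ qq x y :=
    fun x y hx hy => by rw [qq_eq]; exact one_le_q ((ball_iff x).1 hx) ((ball_iff y).1 hy)
  have o2 : ∀ x y : κ → K, ∑ i, ‖x i‖ ^ 2 < 1 → ∑ i, ‖y i‖ ^ 2 < 1 → 1 ≤ qq x y :=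
    fun x y hx hy => by rw [qq_eq]; exact one_le_q ((ball_iff x).1 hx) ((ball_iff y).1 hy)
  refine ⟨f, h1, fun x y hx hy => ?_, fun g hg hD R => ?_⟩
  · obtain ⟨a, b⟩ := h2 x y hx hy
    unfold DD
    refine ⟨Real.arsinh_le_arsinh.2 (Real.sqrt_le_sqrt (by linarith)), ?_⟩
    have c1 := o1 x y hx hy
    have c2 := (arsinh_bounds c1).1
    have c3 := (arsinh_bounds (c1.trans a)).2
    have c4 : 0 < √(qq x y) := Real.sqrt_pos.2 (by linarith)
    have c5 : 2 * √(qq (f x) (f y)) ≤ √(qq x y) * 3 := by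
      apply le_of_sq_le_sq _ (by positivity)
      rw [mul_pow, mul_pow, Real.sq_sqrt (by linarith), Real.sq_sqrt (by linarith)]
      linarith
    have c6 : 0 < √(qq (f x) (f y)) := Real.sqrt_pos.2 (by linarith)
    have c7 := Real.log_le_log (by positivity) c5
    rw [Real.log_mul c4.ne' (by norm_num)] at c7
    linarith
  · obtain ⟨x, hx, h⟩ := h3 g hg (fun x y hx hy => by
      have := Real.arsinh_injective (hD x y hx hy)
      have a := o1 x y hx hy
      have b := o2 _ _ (hg x hx) (hg y hy)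
      rw [Real.sqrt_inj (by linarith) (by linarith)] at this
      linarith) (Real.exp R ^ 2)
    refine ⟨x, hx, fun y hy => ?_⟩
    have c1 := (arsinh_bounds (o2 _ _ (h1 x hx) (hg y hy))).1
    refine lt_of_lt_of_le ?_ c1
    have c2 : Real.exp R < √(qq (f x) (g y)) := (Real.lt_sqrt (Real.exp_pos R).le).2 (h y hy)
    have := Real.log_lt_log (Real.exp_pos R) c2
    rwa [Real.log_exp] at this

end

noncomputable instance : HK ℂ where
  re := Complex.reLm
  add_star x := by simp [Complex.add_conj]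
  star_mul_self x := by
    simp [Complex.conj_mul']
  star_real r := by simp
  I := Complex.I
  star_I := by simp
  norm_I := by simp
  fin := inferInstance

noncomputable instance : HK (Quaternion ℝ) where
  re := QuaternionAlgebra.reₗ _ _ _
  add_star x := by
    rw [Quaternion.self_add_star']
    rfl
  star_mul_self x := by
    rw [Quaternion.star_mul_self, Quaternion.normSq_eq_norm_mul_self, sq]; rfl
  star_real r := by
    ext <;> simp
  I := ⟨0, 1, 0, 0⟩
  star_I := by ext <;> simp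
  norm_I := by
    have key : ∀ a : Quaternion ℝ, Quaternion.normSq a = 1 → ‖a‖ = 1 := by
      intro a this
      rw [Quaternion.normSq_eq_norm_mul_self] at this
      nlinarith [norm_nonneg a]
    exact key _ (by simp [Quaternion.normSq_def'])
  fin := inferInstance

end Pool.Agent.H58.QH
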