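import Mathlib

namespace Pool.Agent.H58.QHD

variable (K : Type) [NormedDivisionRing K] [StarRing K]

/-- The open unit ball of `K^k`: the ball model of `K`-hyperbolic `k`-space. -/
def Ball (k : ℕ) : Set (Fin k → K) := {x | ∑ i, ‖x i‖ ^ 2 < 1}

/-- The distance of the ball model, sectional curvatures in `[-4,-1]`. -/
noncomputable def D (k : ℕ) (x y : Fin k → K) : ℝ :=
  Real.arsinh (Real.sqrt (‖(1 : K) - ∑ i, star (x i) * y i‖ ^ 2 /
    ((1 - ∑ i, ‖x i‖ ^ 2) * (1 - ∑ i, ‖y i‖ ^ 2)) - 1))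

/-- `f` is a quasi-isometric embedding. -/
def IsQIE (n m : ℕ) (f : (Fin n → K) → (Fin m → K)) : Prop :=
  Set.MapsTo f (Ball K n) (Ball K m) ∧ ∃ L : ℝ, 1 ≤ L ∧ ∃ C : ℝ, 0 ≤ C ∧
    ∀ x ∈ Ball K n, ∀ y ∈ Ball K n,
      D K n x y / L - C ≤ D K m (f x) (f y) ∧ D K m (f x) (f y) ≤ L * D K n x y + C

/-- `g` is an isometric embedding. -/
def IsIso (n m : ℕ) (g : (Fin n → K) → (Fin m → K)) : Prop :=
  Set.MapsTo g (Ball K n) (Ball K m) ∧
    ∀ x ∈ Ball K n, ∀ y ∈ Ball K n, D K m (g x) (g y) = D K n x y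

/-- There is a quasi-isometric embedding whose image lies in no bounded neighbourhood of the
image of an isometric embedding. -/
def HasExotic (n m : ℕ) : Prop :=
  ∃ f, IsQIE K n m f ∧ ∀ g, IsIso K n m g → ∀ R : ℝ,
    ∃ x ∈ Ball K n, ∀ y ∈ Ball K n, R < D K m (f x) (g y)

end Pool.Agent.H58.QHD
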