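import Mathlib

set_option autoImplicit false

namespace Pool.Agent.H58.RayGraph
open Filter Topology Finset
open scoped Classical

/-- Schur test for an adjacency operator -/
lemma schur {V : Type} (N : V → Finset V) (hN : ∀ v w, w ∈ N v → v ∈ N w) (h : V → ℝ)
    (h0 : ∀ v, 0 < h v) (c : ℝ) (hc0 : 0 ≤ c) (hc : ∀ v, ∑ w ∈ N v, h w ≤ c * h v) :
    ∃ H : lp (fun _ : V => ℂ) 2 →L[ℂ] lp (fun _ : V => ℂ) 2,
      (∀ f v, H f v = ∑ w ∈ N v, f w) ∧ ‖H‖ ≤ c := by
  have key : ∀ (f : lp (fun _ : V => ℂ) 2) (s : Finset V),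
      ∑ v ∈ s, ‖∑ w ∈ N v, f w‖ ^ (2 : ENNReal).toReal ≤ (c * ‖f‖) ^ (2 : ENNReal).toReal := by
    intro f s
    have e2 : (2 : ENNReal).toReal = ((2 : ℕ) : ℝ) := by simp
    have hf := lp.sum_rpow_le_norm_rpow (p := 2) (by simp) f (s.biUnion N)
    simp only [e2, Real.rpow_natCast] at hf ⊢
    have a1 : ∀ v, ‖∑ w ∈ N v, f w‖ ^ 2 ≤ ∑ w ∈ N v, c * h v * (‖f w‖ ^ 2 / h w) := by
      intro v
      have b1 : ‖∑ w ∈ N v, f w‖ ^ 2 ≤ (∑ w ∈ N v, ‖f w‖) ^ 2 := by
        gcongr; exact norm_sum_le _ _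
      have b2 := sq_sum_div_le_sum_sq_div (N v) (fun w => ‖f w‖) (g := h) (fun w _ => h0 w)
      have b3 : 0 ≤ ∑ w ∈ N v, ‖f w‖ ^ 2 / h w := sum_nonneg fun w _ => by have := h0 w; positivity
      rw [← mul_sum]
      rcases (N v).eq_empty_or_nonempty with he | he
      · simp [he]
      · have b4 : 0 < ∑ w ∈ N v, h w := sum_pos (fun w _ => h0 w) he
        rw [div_le_iff₀ b4] at b2
        calc _ ≤ (∑ w ∈ N v, ‖f w‖ ^ 2 / h w) * ∑ w ∈ N v, h w := b1.trans b2
          _ ≤ (∑ w ∈ N v, ‖f w‖ ^ 2 / h w) * (c * h v) := by gcongr; exact hc v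
          _ = _ := by ring
    calc ∑ v ∈ s, ‖∑ w ∈ N v, f w‖ ^ 2 ≤ ∑ v ∈ s, ∑ w ∈ N v, c * h v * (‖f w‖ ^ 2 / h w) :=
          sum_le_sum fun v _ => a1 v
      _ = ∑ w ∈ s.biUnion N, ∑ v ∈ s.filter (fun v => w ∈ N v), c * h v * (‖f w‖ ^ 2 / h w) := by
          refine sum_comm' fun v w => ?_
          simp only [mem_filter, mem_biUnion]
          exact ⟨fun ⟨a, b⟩ => ⟨⟨a, b⟩, v, a, b⟩, fun ⟨a, _⟩ => a⟩
      _ ≤ ∑ w ∈ s.biUnion N, c ^ 2 * ‖f w‖ ^ 2 := by
          refine sum_le_sum fun w _ => ?_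
          rw [← sum_mul, ← mul_sum]
          have b1 : ∑ v ∈ s.filter (fun v => w ∈ N v), h v ≤ c * h w :=
            (sum_le_sum_of_subset_of_nonneg (fun v hv => hN _ _ (mem_filter.1 hv).2)
              (fun v _ _ => (h0 v).le)).trans (hc w)
          have b2 := h0 w
          calc _ ≤ c * (c * h w) * (‖f w‖ ^ 2 / h w) := by gcongr
            _ = _ := by field_simp
      _ ≤ (c * ‖f‖) ^ 2 := by rw [← mul_sum, mul_pow]; gcongr
  let L : lp (fun _ : V => ℂ) 2 →ₗ[ℂ] lp (fun _ : V => ℂ) 2 :=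
    { toFun := fun f => ⟨fun v => ∑ w ∈ N v, f w, memℓp_gen' (key f)⟩
      map_add' := fun f g => by ext v; simp [sum_add_distrib]
      map_smul' := fun a f => by ext v; simp [mul_sum] }
  have hb : ∀ f, ‖L f‖ ≤ c * ‖f‖ := fun f =>
    lp.norm_le_of_forall_sum_le (by simp) (by positivity) (key f)
  exact ⟨L.mkContinuous c hb, fun f v => rfl, L.mkContinuous_norm_le hc0 hb⟩

/-- three fixed-point-free involutions with distinct values -/
structure Tri (T : Type) where
  s : Fin 3 → T → T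
  inv : ∀ i t, s i (s i t) = t
  ne : ∀ i t, s i t ≠ t
  inj : ∀ t i j, s i t = s j t → i = j

variable {T : Type}

noncomputable def Tri.nbr (S : Tri T) : T × ℕ → Finset (T × ℕ)
  | (t, 0) => insert (t, 1) (univ.image fun i => (S.s i t, 0))
  | (t, k + 1) => {(t, k), (t, k + 2)}

lemma Tri.symm (S : Tri T) (v w : T × ℕ) (h : w ∈ S.nbr v) : v ∈ S.nbr w := by
  obtain ⟨t, k⟩ := v
  cases k with
  | zero =>
    simp only [Tri.nbr, mem_insert, mem_image, mem_univ, true_and] at h
    rcases h with rfl | ⟨i, rfl⟩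
    · simp [Tri.nbr]
    · simp only [Tri.nbr, mem_insert, mem_image, mem_univ, true_and]
      exact Or.inr ⟨i, by rw [S.inv]⟩
  | succ k =>
    simp only [Tri.nbr, mem_insert, mem_singleton] at h
    rcases h with rfl | rfl
    · cases k <;> simp [Tri.nbr]
    · simp [Tri.nbr]

lemma Tri.irr (S : Tri T) (v : T × ℕ) : v ∉ S.nbr v := by
  obtain ⟨t, k⟩ := v
  cases k with
  | zero => simpa [Tri.nbr] using fun i => S.ne i t
  | succ k => simp [Tri.nbr]

def Tri.G (S : Tri T) : SimpleGraph (T × ℕ) where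
  Adj v w := w ∈ S.nbr v
  symm := ⟨fun v w h => S.symm v w h⟩
  loopless := ⟨S.irr⟩

noncomputable instance (S : Tri T) : S.G.LocallyFinite := fun v =>
  Fintype.ofFinset (S.nbr v) (fun _ => Iff.rfl)

lemma Tri.nf (S : Tri T) (v : T × ℕ) : S.G.neighborFinset v = S.nbr v := by
  ext w; rw [SimpleGraph.mem_neighborFinset]; rfl

lemma Tri.sum0 (S : Tri T) {M : Type} [AddCommMonoid M] (f : T × ℕ → M) (t : T) :
    ∑ w ∈ S.nbr (t, 0), f w = f (t, 1) + ∑ i, f (S.s i t, 0) := by
  rw [Tri.nbr, sum_insert (by simp), sum_image]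
  intro i _ j _ h
  exact S.inj t i j (congrArg Prod.fst h)

lemma Tri.sum1 (S : Tri T) {M : Type} [AddCommMonoid M] (f : T × ℕ → M) (t : T) (k : ℕ) :
    ∑ w ∈ S.nbr (t, k + 1), f w = f (t, k) + f (t, k + 2) := by
  rw [Tri.nbr, sum_pair (by simp)]

lemma Tri.deg (S : Tri T) (v : T × ℕ) : S.G.degree v ≤ 4 := by
  rw [← SimpleGraph.card_neighborFinset_eq_degree, S.nf, card_eq_sum_ones]
  obtain ⟨t, k⟩ := v
  cases k with
  | zero => rw [S.sum0]; simp
  | succ k => rw [S.sum1]; simp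

lemma Tri.amen (S : Tri T) [Countable T] [Nonempty T] [inst : DecidableEq (T × ℕ)] : ∃ F : ℕ → Finset (T × ℕ), Monotone F ∧
    (∀ v, ∃ k, v ∈ F k) ∧ Tendsto (fun k => ((((F k).biUnion S.nbr) \ F k).card : ℝ) / (F k).card)
      atTop (𝓝 0) := by
  obtain ⟨e, he⟩ := exists_surjective_nat T
  refine ⟨fun k => (range (k + 1)).image e ×ˢ range (k + 1), fun a b hab => ?_, fun v => ?_, ?_⟩
  · exact product_subset_product (image_subset_image (range_subset_range.2 (by omega)))
      (range_subset_range.2 (by omega))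
  · obtain ⟨n, hn⟩ := he v.1
    exact ⟨max n v.2, mem_product.2 ⟨mem_image.2 ⟨n, mem_range.2 (by omega), hn⟩,
      mem_range.2 (by omega)⟩⟩
  · have h1 : Tendsto (fun k : ℕ => 4 * (1 / ((k : ℝ) + 1))) atTop (𝓝 (4 * 0)) :=
      tendsto_one_div_add_atTop_nhds_zero_nat.const_mul 4
    rw [mul_zero] at h1
    refine squeeze_zero (fun k => by positivity) (fun k => ?_) h1
    set B := (range (k + 1)).image e with hB
    have hB0 : (0 : ℝ) < B.card := by
      exact_mod_cast card_pos.2 ⟨e 0, mem_image.2 ⟨0, by simp, rfl⟩⟩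
    have a1 : (B ×ˢ range (k + 1)).biUnion S.nbr \ (B ×ˢ range (k + 1)) ⊆
        B.image (fun t => (t, k + 1)) ∪ (B ×ˢ (univ : Finset (Fin 3))).image
          (fun p => (S.s p.2 p.1, 0)) := by
      intro w hw
      rw [Finset.mem_sdiff] at hw
      simp only [Finset.mem_biUnion, mem_product, mem_range, not_and, not_lt] at hw
      obtain ⟨⟨⟨t, j⟩, ⟨b1, b2⟩, b3⟩, b4⟩ := hw
      rw [mem_union]
      cases j with
      | zero =>
        simp only [Tri.nbr, mem_insert, mem_image, mem_univ, true_and] at b3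
        rcases b3 with rfl | ⟨i, rfl⟩
        · have := b4 b1
          exact Or.inl (mem_image.2 ⟨t, b1, by simp only [Prod.mk.injEq, true_and]; omega⟩)
        · exact Or.inr (mem_image.2 ⟨(t, i), by simp [b1], rfl⟩)
      | succ j =>
        simp only [Tri.nbr, mem_insert, mem_singleton] at b3
        rcases b3 with rfl | rfl
        · have := b4 b1
          omega
        · have := b4 b1
          exact Or.inl (mem_image.2 ⟨t, b1, by simp only [Prod.mk.injEq, true_and]; omega⟩)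
    have a2 := (card_le_card a1).trans ((card_union_le _ _).trans
      (Nat.add_le_add card_image_le card_image_le))
    rw [card_product, card_univ, Fintype.card_fin] at a2
    have a3 : (((B ×ˢ range (k + 1)).biUnion S.nbr \ (B ×ˢ range (k + 1))).card : ℝ)
        ≤ B.card + B.card * 3 := by exact_mod_cast a2
    rw [card_product, card_range, div_le_iff₀ (by positivity)]
    refine a3.trans (le_of_eq ?_)
    push_cast
    field_simp
    ring

lemma cover {T' : Type} (S : Tri T) (S' : Tri T') (φ : T → T')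
    (h : ∀ i t, φ (S.s i t) = S'.s i (φ t)) (v : T × ℕ) :
    Set.BijOn (Prod.map φ id) (S.G.neighborSet v) (S'.G.neighborSet (Prod.map φ id v)) := by
  have e : (S.nbr v).image (Prod.map φ id) = S'.nbr (Prod.map φ id v) := by
    obtain ⟨t, k⟩ := v
    cases k with
    | zero => simp [Tri.nbr, image_image, Function.comp_def, h]
    | succ k => simp [Tri.nbr]
  have c : (S.nbr v).card = (S'.nbr (Prod.map φ id v)).card := by
    obtain ⟨t, k⟩ := v
    rw [card_eq_sum_ones, card_eq_sum_ones]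
    cases k with
    | zero => simp only [Prod.map, id]; rw [S.sum0, S'.sum0]
    | succ k => simp only [Prod.map, id]; rw [S.sum1, S'.sum1]
  have e1 : S.G.neighborSet v = ↑(S.nbr v) := rfl
  have e2 : S'.G.neighborSet (Prod.map φ id v) = ↑(S'.nbr (Prod.map φ id v)) := rfl
  rw [e1, e2, ← e, coe_image]
  exact (card_image_iff.1 (by rw [e, c])).bijOn_image

/-- reduced words -/
abbrev W : Type := {l : List (Fin 3) // l.IsChain (· ≠ ·)}

def mv (i : Fin 3) : List (Fin 3) → List (Fin 3)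
  | [] => [i]
  | a :: l => if a = i then l else i :: a :: l

lemma mv_chain (i : Fin 3) (l : List (Fin 3)) (h : l.IsChain (· ≠ ·)) : (mv i l).IsChain (· ≠ ·) := by
  cases l with
  | nil => simp [mv]
  | cons a l =>
    simp only [mv]
    split_ifs with ha
    · exact h.tail
    · exact List.isChain_cons_cons.2 ⟨Ne.symm ha, h⟩

def tree : Tri W where
  s i t := ⟨mv i t.1, mv_chain i t.1 t.2⟩
  inv := by
    rintro i ⟨l, h⟩
    apply Subtype.ext
    cases l with
    | nil => simp [mv]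
    | cons a l =>
      by_cases ha : a = i
      · subst ha
        cases l with
        | nil => simp [mv]
        | cons b l =>
          have := (List.isChain_cons_cons.1 h).1
          simp [mv, Ne.symm this]
      · simp [mv, ha]
  ne := by
    rintro i ⟨l, h⟩ he
    have := congrArg (fun t : W => t.1.length) he
    cases l with
    | nil => simp [mv] at this
    | cons a l =>
      simp only [mv] at this
      split_ifs at this <;> simp at this
  inj := by
    rintro ⟨l, h⟩ i j he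
    have h1 : mv i l = mv j l := congrArg Subtype.val he
    cases l with
    | nil => simpa [mv] using h1
    | cons a l =>
      have h2 := congrArg List.length h1
      simp only [mv] at h1 h2
      split_ifs at h1 h2 with c1 c2 c2
      · rw [← c1, c2]
      · simp at h2; omega
      · simp at h2; omega
      · simpa using h1

abbrev K : Type := ZMod 2 × ZMod 2

def gg : Fin 3 → K := ![(1, 0), (0, 1), (1, 1)]

def four : Tri K where
  s i x := gg i + x
  inv := by decide
  ne := by decide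
  inj := by decide

def ph (t : W) : K := (t.1.map gg).sum

lemma ph_mv (i : Fin 3) (t : W) : ph (tree.s i t) = four.s i (ph t) := by
  obtain ⟨l, h⟩ := t
  cases l with
  | nil => simp [ph, tree, four, mv]
  | cons a l =>
    by_cases ha : a = i
    · subst ha
      have : ∀ (a : Fin 3) (x : K), x = gg a + (gg a + x) := by decide
      simpa [ph, tree, four, mv] using this a _
    · simp [ph, tree, four, mv, ha]

lemma ph_surj : Function.Surjective ph := by
  have : ∀ x : K, x = 0 ∨ ∃ i, x = gg i := by decide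
  intro x
  rcases this x with rfl | ⟨i, rfl⟩
  · exact ⟨⟨[], by simp⟩, rfl⟩
  · exact ⟨⟨[i], by simp⟩, by simp [ph]⟩

lemma tree_conn : tree.G.Connected := by
  have h1 : ∀ (l : List (Fin 3)) (h : l.IsChain (· ≠ ·)),
      tree.G.Reachable (⟨[], by simp⟩, 0) (⟨l, h⟩, 0) := by
    intro l
    induction l with
    | nil => exact fun _ => SimpleGraph.Reachable.refl _
    | cons a l ih =>
      intro h
      refine (ih h.tail).trans (SimpleGraph.Adj.reachable (SimpleGraph.Adj.symm ?_))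
      change _ ∈ tree.nbr _
      simp only [Tri.nbr, mem_insert, mem_image, mem_univ, true_and]
      exact Or.inr ⟨a, by simp [tree, mv]⟩
  have h2 : ∀ (t : W) (k : ℕ), tree.G.Reachable (⟨[], by simp⟩, 0) (t, k) := by
    intro t k
    induction k with
    | zero => exact h1 t.1 t.2
    | succ k ih =>
      refine ih.trans (SimpleGraph.Adj.reachable (SimpleGraph.Adj.symm ?_))
      change _ ∈ tree.nbr _
      simp [Tri.nbr]
  have : Nonempty (W × ℕ) := ⟨(⟨[], by simp⟩, 0)⟩
  exact ⟨fun u v => (h2 u.1 u.2).symm.trans (h2 v.1 v.2)⟩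

lemma op1 : ∃ H : lp (fun _ : W × ℕ => ℂ) 2 →L[ℂ] lp (fun _ : W × ℕ => ℂ) 2,
    (∀ f v, H f v = ∑ w ∈ tree.nbr v, f w) ∧ (10 / 3 : ℂ) ∉ spectrum ℂ H := by
  obtain ⟨H, h1, h2⟩ := schur tree.nbr tree.symm
    (fun v => (2 / 3 : ℝ) ^ v.1.1.length * (9 / 25) ^ v.2) (fun v => by positivity) (16 / 5)
    (by norm_num) (by
      rintro ⟨⟨l, h⟩, k⟩
      cases k with
      | zero =>
        rw [tree.sum0]
        cases l with
        | nil => simp [tree, mv]; norm_num
        | cons a l =>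
          have : (0 : ℝ) < (2 / 3 : ℝ) ^ l.length := by positivity
          fin_cases a <;> simp [tree, mv, Fin.sum_univ_three, pow_succ] <;> linarith
      | succ k =>
        rw [tree.sum1]
        have : (0 : ℝ) < (2 / 3 : ℝ) ^ l.length * (9 / 25) ^ k := by positivity
        simp only [pow_succ]
        linarith)
  refine ⟨H, h1, fun h => h (spectrum.mem_resolventSet_of_norm_lt_mul ?_)⟩
  have h3 : ‖(1 : lp (fun _ : W × ℕ => ℂ) 2 →L[ℂ] lp (fun _ : W × ℕ => ℂ) 2)‖ ≤ 1 :=
    ContinuousLinearMap.norm_id_le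
  have h4 : ‖(10 / 3 : ℂ)‖ = 10 / 3 := by simp
  rw [h4]
  calc _ ≤ (16 / 5 : ℝ) * 1 := by gcongr
    _ < _ := by norm_num

lemma op2 : ∃ H : lp (fun _ : K × ℕ => ℂ) 2 →L[ℂ] lp (fun _ : K × ℕ => ℂ) 2,
    (∀ f v, H f v = ∑ w ∈ four.nbr v, f w) ∧ (10 / 3 : ℂ) ∈ spectrum ℂ H := by
  obtain ⟨H, h1, -⟩ := schur four.nbr four.symm (fun _ => 1) (fun _ => one_pos) 4 (by norm_num) (by
    rintro ⟨t, k⟩
    cases k with
    | zero => rw [four.sum0]; simp; norm_num
    | succ k => rw [four.sum1]; norm_num)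
  refine ⟨H, h1, ?_⟩
  have hm : Memℓp (fun v : K × ℕ => (1 / 3 : ℂ) ^ v.2) 2 := by
    apply memℓp_gen
    have e2 : (2 : ENNReal).toReal = ((2 : ℕ) : ℝ) := by simp
    simp only [e2, Real.rpow_natCast, norm_pow]
    have a1 : Summable (fun _ : K => (1 : ℝ)) := Summable.of_finite
    have a2 : Summable (fun k : ℕ => (1 / 9 : ℝ) ^ k) :=
      summable_geometric_of_lt_one (by norm_num) (by norm_num)
    refine (a1.mul_of_nonneg a2 (fun _ => zero_le_one) (fun _ => by positivity)).congr fun v => ?_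
    rw [one_mul, ← pow_mul, mul_comm, pow_mul]
    norm_num
  set f : lp (fun _ : K × ℕ => ℂ) 2 := ⟨_, hm⟩ with hf
  have hfv : ∀ v, f v = (1 / 3 : ℂ) ^ v.2 := fun v => rfl
  have hH : H f = (10 / 3 : ℂ) • f := by
    ext ⟨t, k⟩
    rw [h1, lp.coeFn_smul, Pi.smul_apply, smul_eq_mul]
    cases k with
    | zero => rw [four.sum0]; simp [hfv]; norm_num
    | succ k => rw [four.sum1]; simp only [hfv, pow_succ]; ring
  rw [spectrum.mem_iff]
  rintro ⟨u, hu⟩
  have a1 : u.val f = 0 := by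
    rw [hu, sub_apply, hH, Algebra.algebraMap_eq_smul_one]
    simp
  have a2 : f = 0 := by
    have := congrArg (fun A : lp (fun _ : K × ℕ => ℂ) 2 →L[ℂ] lp (fun _ : K × ℕ => ℂ) 2 => A f)
      u.inv_mul
    simp only [mul_apply_eq_comp, a1, map_zero, one_apply_eq_self] at this
    exact this.symm
  have := hfv (0, 0)
  rw [a2] at this
  simp at this

lemma mem_iff {V : Type} (f : V → ℂ) : Memℓp f 2 ↔ Summable (fun v => ‖f v‖ ^ 2) := by
  rw [memℓp_gen_iff (by simp)]
  have e2 : (2 : ENNReal).toReal = ((2 : ℕ) : ℝ) := by simp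
  simp only [e2, Real.rpow_natCast]

lemma spec_iff {V : Type} (N : V → Finset V) (H : lp (fun _ : V => ℂ) 2 →L[ℂ] lp (fun _ : V => ℂ) 2)
    (hH : ∀ f v, H f v = ∑ w ∈ N v, f w) (z : ℂ) : z ∉ spectrum ℂ H ↔
    ∀ g : V → ℂ, Summable (fun v => ‖g v‖ ^ 2) →
      ∃! f : V → ℂ, Summable (fun v => ‖f v‖ ^ 2) ∧ ∀ v, z * f v - ∑ w ∈ N v, f w = g v := by
  rw [spectrum.notMem_iff, ContinuousLinearMap.isUnit_iff_bijective]
  have e : ∀ (f : lp (fun _ : V => ℂ) 2) v,
      (algebraMap ℂ (lp (fun _ : V => ℂ) 2 →L[ℂ] lp (fun _ : V => ℂ) 2) z - H) f v =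
      z * f v - ∑ w ∈ N v, f w := by
    intro f v
    rw [sub_apply, Algebra.algebraMap_eq_smul_one, lp.coeFn_sub, Pi.sub_apply, hH]
    simp
  rw [Function.bijective_iff_existsUnique]
  constructor
  · intro h g hg
    obtain ⟨f, h1, h2⟩ := h ⟨g, (mem_iff g).2 hg⟩
    refine ⟨f, ⟨(mem_iff _).1 f.2, fun v => by rw [← e, h1]⟩, ?_⟩
    rintro f' ⟨a1, a2⟩
    have := h2 ⟨f', (mem_iff f').2 a1⟩ (by ext v; rw [e]; exact a2 v)
    rw [← this]
  · intro h g
    obtain ⟨f, ⟨h1, h2⟩, h3⟩ := h g ((mem_iff _).1 g.2)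
    refine ⟨⟨f, (mem_iff f).2 h1⟩, by ext v; rw [e]; exact h2 v, fun f' hf' => ?_⟩
    exact Subtype.ext (h3 f' ⟨(mem_iff _).1 f'.2, fun v => by rw [← e, hf']⟩)

end Pool.Agent.H58.RayGraph
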