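import Mathlib

/-! Degrees of measures with respect to a compact set with unique sums. -/

namespace Pool.Agent.H58.Rd

open MeasureTheory Measure Filter Set
open scoped Pointwise ENNReal

noncomputable section

lemma rect {X Y : Type} [MeasurableSpace X] [MeasurableSpace Y] (α : Measure X) (β : Measure Y)
    [SFinite α] [SFinite β] {P : X → Y → Prop} (hP : MeasurableSet {z : X × Y | P z.1 z.2})
    (H : ∀ x' y', P x' y' → ∀ᵐ x ∂α, ∀ᵐ y ∂β, ¬(P x y ∧ P x y' ∧ P x' y)) :
    (α.prod β) {z | P z.1 z.2} = 0 := by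
  have m1 : ∀ x', MeasurableSet {z : X × Y | P z.1 z.2 ∧ P x' z.2} := fun x' =>
    hP.inter (hP.preimage (f := fun z : X × Y => (x', z.2)) (by fun_prop))
  have s1 : ∀ x', ∀ᵐ x ∂α, ∀ᵐ y ∂β, ¬(P x y ∧ P x' y) := by
    intro x'
    have mQ : MeasurableSet {x | β {y | P x y ∧ P x' y} = 0} :=
      measurable_measure_prodMk_left (m1 x') (measurableSet_singleton 0)
    have h1 : ∀ᵐ y' ∂β, ∀ᵐ x ∂α, (P x y' ∧ P x' y') → β {y | P x y ∧ P x' y} = 0 := by
      refine Eventually.of_forall fun y' => ?_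
      by_cases h : P x' y'
      · filter_upwards [H x' y' h] with x hx h2
        rw [ae_iff] at hx
        refine measure_mono_null (fun y hy => ?_) hx
        exact not_not.2 ⟨hy.1, h2.1, hy.2⟩
      · exact Eventually.of_forall fun x h2 => (h h2.2).elim
    rw [← ae_ae_comm (p := fun x y' => (P x y' ∧ P x' y') → β {y | P x y ∧ P x' y} = 0)
      ((m1 x').imp (measurable_fst mQ))] at h1
    filter_upwards [h1] with x hx
    by_cases h : β {y | P x y ∧ P x' y} = 0
    · rw [ae_iff]; simpa using h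
    · exact hx.mono fun y hy h2 => h (hy h2)
  have mR : MeasurableSet {y | α {x | P x y} = 0} :=
    measurable_measure_prodMk_right hP (measurableSet_singleton 0)
  have s2 : ∀ᵐ x' ∂α, ∀ᵐ y ∂β, P x' y → α {x | P x y} = 0 := by
    refine Eventually.of_forall fun x' => ?_
    have := s1 x'
    rw [ae_ae_comm (p := fun x y => ¬(P x y ∧ P x' y)) (m1 x').compl] at this
    filter_upwards [this] with y hy h
    rw [ae_iff] at hy
    exact measure_mono_null (fun x hx => not_not.2 ⟨hx, h⟩) hy
  rw [ae_ae_comm (p := fun x y => P x y → α {x | P x y} = 0) (hP.imp (measurable_snd mR))] at s2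
  rw [prod_apply_symm hP, lintegral_eq_zero_iff (measurable_measure_prodMk_right hP)]
  filter_upwards [s2] with y hy
  by_contra h
  refine h ?_
  have : ∀ᵐ x ∂α, ¬ P x y := hy.mono fun x hx h2 => h (hx h2)
  rw [ae_iff] at this
  simpa using this

lemma exhaust {X ι : Type} [MeasurableSpace X] [Nonempty ι] (α : Measure X) [IsFiniteMeasure α]
    (F : ι → Set X) (hF : ∀ i, MeasurableSet (F i)) :
    ∃ z : ℕ → ι, ∀ i, α (F i \ ⋃ m, F (z m)) = 0 := by
  set s := ⨆ z : ℕ → ι, α (⋃ m, F (z m)) with hs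
  obtain ⟨u, -, hu, hu'⟩ := exists_seq_tendsto_sSup
    (S := range fun z : ℕ → ι => α (⋃ m, F (z m))) (range_nonempty _) (OrderTop.bddAbove _)
  choose w hw using hu'
  let z : ℕ → ι := fun m => w (Nat.unpair m).1 (Nat.unpair m).2
  have h1 : s ≤ α (⋃ m, F (z m)) := by
    refine le_of_tendsto' hu fun n => ?_
    rw [← hw n]
    refine measure_mono (iUnion_subset fun m => ?_)
    exact subset_iUnion_of_subset (Nat.pair n m) (by simp [z])
  refine ⟨z, fun i => ?_⟩
  have h2 : α (⋃ m, F (Nat.casesOn m i z)) ≤ s := le_iSup (fun z : ℕ → ι => α (⋃ m, F (z m))) _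
  have h3 : (⋃ m, F (z m)) ∪ F i ⊆ ⋃ m, F (Nat.casesOn m i z) :=
    union_subset (iUnion_subset fun m => subset_iUnion_of_subset (m + 1) le_rfl)
      (subset_iUnion_of_subset 0 le_rfl)
  have h4 := measure_add_sdiff (μ := α) (MeasurableSet.iUnion fun m => hF (z m)).nullMeasurableSet (F i)
  have h5 : α (⋃ m, F (z m)) + α (F i \ ⋃ m, F (z m)) ≤ α (⋃ m, F (z m)) + 0 := by
    rw [h4, add_zero]; exact (measure_mono h3).trans (h2.trans h1)
  exact nonpos_iff_eq_zero.1 ((ENNReal.add_le_add_iff_left (measure_ne_top _ _)).1 h5)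

variable {K : Type} [AddCommGroup K]

/-- sums of at most `h` elements of `E` are unique -/
def Bh (E : Set K) (h : ℕ) : Prop :=
  ∀ u v : Multiset K, (∀ x ∈ u, x ∈ E) → (∀ x ∈ v, x ∈ E) → u.card ≤ h → v.card = u.card →
    u.sum = v.sum → u = v

/-- translate of the `j`-fold sumset -/
def tr (E : Set K) (j : ℕ) (z : K) : Set K := {x | x - z ∈ j • E}

lemma mem_nsmul_iff (E : Set K) (j : ℕ) (x : K) :
    x ∈ j • E ↔ ∃ u : Multiset K, (∀ e ∈ u, e ∈ E) ∧ u.card = j ∧ u.sum = x := by
  induction j generalizing x with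
  | zero =>
    rw [zero_nsmul, Set.mem_zero]
    constructor
    · rintro rfl; exact ⟨0, by simp⟩
    · rintro ⟨u, -, h, rfl⟩; rw [Multiset.card_eq_zero.1 h]; rfl
  | succ j ih =>
    rw [succ_nsmul, Set.mem_add]
    constructor
    · rintro ⟨y, hy, e, he, rfl⟩
      obtain ⟨u, h1, h2, rfl⟩ := (ih y).1 hy
      refine ⟨e ::ₘ u, fun a ha => ?_, by simp [h2], by simp [add_comm]⟩
      rcases Multiset.mem_cons.1 ha with rfl | ha
      exacts [he, h1 a ha]
    · rintro ⟨u, h1, h2, rfl⟩
      obtain ⟨e, he⟩ := Multiset.card_pos_iff_exists_mem.1 (by omega : 0 < u.card)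
      obtain ⟨v, rfl⟩ := Multiset.exists_cons_of_mem he
      exact ⟨v.sum, (ih _).2 ⟨v, fun a ha => h1 a (by simp [ha]), by simpa using h2, rfl⟩, e,
        h1 e he, by simp [add_comm]⟩

lemma split_sum {E : Set K} (Φ : Finset K) [DecidableEq K] (u : Multiset K) (hu : ∀ e ∈ u, e ∈ E)
    (c : K) : ∃ w : Multiset Φ, c + u.sum ∈
      tr E (u.filter (· ∉ Φ)).card (c + (w.map Subtype.val).sum) := by
  refine ⟨(u.filter (· ∈ Φ)).pmap Subtype.mk fun a ha => (Multiset.mem_filter.1 ha).2, ?_⟩
  rw [Multiset.map_pmap, Multiset.pmap_eq_map, Multiset.map_id', tr, mem_ofPred_eq, mem_nsmul_iff]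
  refine ⟨_, fun e he => hu e (Multiset.mem_filter.1 he).1, rfl, ?_⟩
  have := congrArg Multiset.sum (Multiset.filter_add_not (· ∈ Φ) u)
  rw [Multiset.sum_add] at this
  rw [← this]; abel

variable [TopologicalSpace K] [IsTopologicalAddGroup K] [T2Space K] [SecondCountableTopology K]
  [MeasurableSpace K] [BorelSpace K]

lemma meas_tr {E : Set K} (hE : IsCompact E) (j : ℕ) (z : K) : MeasurableSet (tr E j z) := by
  have : IsCompact (j • E) := by
    induction j with
    | zero => rw [zero_nsmul]; exact isCompact_singleton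
    | succ j ih => rw [succ_nsmul]; exact ih.add hE
  exact this.measurableSet.preimage (f := fun x => x - z) (by fun_prop)

def Deg (E : Set K) (α : Measure K) (d : ℕ) : Prop := ∀ j < d, ∀ z, α (tr E j z) = 0

lemma Deg.conv {E : Set K} (hE : IsCompact E) {n : ℕ} (hB : Bh E (2 * n)) {α β : Measure K}
    [SFinite α] [SFinite β] {a b c : ℕ} (ha : Deg E α a) (hb : Deg E β b) (h1 : c ≤ a + b)
    (h2 : c ≤ n + 1) : Deg E ((α.prod β).map fun z => z.1 + z.2) c := by
  classical
  intro j hj z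
  rw [map_apply (by fun_prop) (meas_tr hE j z)]
  refine rect α β (P := fun x y => x + y ∈ tr E j z)
    ((meas_tr hE j z).preimage (f := fun z : K × K => z.1 + z.2) (by fun_prop)) fun x' y' h0 => ?_
  obtain ⟨f', f1, f2, f3⟩ := (mem_nsmul_iff _ _ _).1 h0
  have n1 : ∀ᵐ x ∂α, ∀ i < a, ∀ w : Multiset f'.toFinset,
      x ∉ tr E i (z - y' + (w.map Subtype.val).sum) := by
    simp only [ae_all_iff]
    exact fun i hi w => measure_eq_zero_iff_ae_notMem.1 (ha i hi _)
  have n2 : ∀ᵐ y ∂β, ∀ i < b, ∀ w : Multiset f'.toFinset,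
      y ∉ tr E i (z - x' + (w.map Subtype.val).sum) := by
    simp only [ae_all_iff]
    exact fun i hi w => measure_eq_zero_iff_ae_notMem.1 (hb i hi _)
  filter_upwards [n1] with x hx
  filter_upwards [n2] with y hy
  rintro ⟨p1, p2, p3⟩
  obtain ⟨f, g1, g2, g3⟩ := (mem_nsmul_iff _ _ _).1 p1
  obtain ⟨u, u1, u2, u3⟩ := (mem_nsmul_iff _ _ _).1 p2
  obtain ⟨v, v1, v2, v3⟩ := (mem_nsmul_iff _ _ _).1 p3
  have e : u + v = f + f' := hB _ _
    (fun x hx => (Multiset.mem_add.1 hx).elim (u1 x) (v1 x))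
    (fun x hx => (Multiset.mem_add.1 hx).elim (g1 x) (f1 x)) (by simp; omega) (by simp; omega)
    (by simp only [Multiset.sum_add, u3, v3, g3, f3]; abel)
  have c1 := congrArg (fun s => (s.filter (· ∉ f'.toFinset)).card) e
  have c2 : f'.filter (· ∉ f'.toFinset) = 0 := Multiset.filter_eq_nil.2 fun a ha => by simp [ha]
  simp only [Multiset.filter_add, Multiset.card_add, c2, Multiset.card_zero] at c1
  have c3 := Multiset.card_le_card (Multiset.filter_le (· ∉ f'.toFinset) f)
  obtain ⟨w1, hw1⟩ := split_sum f'.toFinset u u1 (z - y')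
  obtain ⟨w2, hw2⟩ := split_sum f'.toFinset v v1 (z - x')
  rw [show z - y' + u.sum = x by rw [u3]; abel] at hw1
  rw [show z - x' + v.sum = y by rw [v3]; abel] at hw2
  by_cases h : (u.filter (· ∉ f'.toFinset)).card < a
  · exact hx _ h _ hw1
  · exact hy _ (by omega) _ hw2

lemma Deg.pi {E : Set K} (hE : IsCompact E) {n : ℕ} (hB : Bh E (2 * n)) (m : ℕ)
    (α : Fin m → Measure K) [∀ i, IsFiniteMeasure (α i)] (d : Fin m → ℕ)
    (h : ∀ i, Deg E (α i) (d i)) {c : ℕ} (h1 : c ≤ ∑ i, d i) (h2 : c ≤ n + 1) :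
    Deg E ((Measure.pi α).map fun x => ∑ i, x i) c := by
  induction m generalizing c with
  | zero => intro j hj; simp at h1; omega
  | succ m ih =>
    have e := (measurePreserving_piFinSuccAbove α 0).map_eq
    have : (Measure.pi α).map (fun x => ∑ i, x i) = (((α 0).prod
        ((Measure.pi fun j => α (Fin.succAbove 0 j)).map fun x => ∑ i, x i)).map
          fun z => z.1 + z.2) := by
      conv_rhs => rw [← map_id (μ := α 0), map_prod_map _ _ measurable_id (by fun_prop), ← e]
      rw [map_map (by fun_prop) (by fun_prop), map_map (by fun_prop) (by fun_prop)]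
      congr 1
      funext x
      simp [Fin.sum_univ_succ, Fin.tail]
    rw [this]
    refine (h 0).conv hE hB (ih _ (fun j => d (Fin.succAbove 0 j)) (fun j => h _)
      (c := min (∑ j, d (Fin.succAbove 0 j)) (n + 1)) (min_le_left _ _) (min_le_right _ _)) ?_ h2
    rw [Fin.sum_univ_succ] at h1
    simp only [Fin.succAbove_zero]
    omega

lemma deg_haar {E : Set K} (hE : IsCompact E) {n : ℕ} (hB : Bh E (2 * n)) (m : Measure K)
    [IsProbabilityMeasure m] [m.IsAddLeftInvariant] [NullSingletonClass m] : Deg E m (n + 1) := by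
  have e : (m.prod m).map (fun z => z.1 + z.2) = m := by
    ext s hs
    rw [map_apply (by fun_prop) hs, prod_apply (hs.preimage (by fun_prop))]
    have : ∀ x : K, m (Prod.mk x ⁻¹' ((fun z : K × K => z.1 + z.2) ⁻¹' s)) = m s := fun x =>
      measure_preimage_add m x s
    simp [this]
  have d1 : Deg E m 1 := fun j hj z => by
    obtain rfl : j = 0 := by omega
    have : tr E 0 z = {z} := by ext x; simp [tr, sub_eq_zero]
    rw [this, measure_singleton]
  have : ∀ c, c ≤ n → Deg E m (c + 1) := fun c hc => by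
    induction c with
    | zero => exact d1
    | succ c ih => rw [← e]; exact (ih (by omega)).conv hE hB d1 le_rfl (by omega)
  exact this n le_rfl

end

end Pool.Agent.H58.Rd
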