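import Pool.Agent.H58.RdA
import Pool.Agent.H58.NsB

/-! Complex measures as functionals, uniqueness of transforms, and measures on sets with unique sums. -/

namespace Pool.Agent.H58.Rd

open MeasureTheory Measure Filter Set Complex Pool.Agent.H90.FS Pool.Agent.H58.Ns
open scoped Pointwise ENNReal ComplexConjugate BoundedContinuousFunction

noncomputable section

variable {K : Type} [AddCommGroup K] [TopologicalSpace K] [IsTopologicalAddGroup K]
  [CompactSpace K] [PolishSpace K] [MeasurableSpace K] [BorelSpace K]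

structure Good (Γ : Subgroup (AddChar K ℂ)) : Prop where
  cont : ∀ γ : Γ, Continuous γ.1
  norm : ∀ (γ : Γ) x, ‖γ.1 x‖ = 1
  sep : ∀ x y, x ≠ y → ∃ γ : Γ, γ.1 x ≠ γ.1 y
  boch : ∀ (r : URep Γ) (ξ : r.H), ∃ α : Measure K, IsFiniteMeasure α ∧
    ∀ γ : Γ, r.coef ξ ξ γ = ∫ x, γ.1 x ∂α

def BM (φ : K → ℂ) : Prop := Measurable φ ∧ ∃ C, ∀ x, ‖φ x‖ ≤ C

lemma BM.int {φ : K → ℂ} (h : BM φ) (α : Measure K) [IsFiniteMeasure α] : Integrable φ α := by
  obtain ⟨C, hC⟩ := h.2
  exact Integrable.of_bound h.1.aestronglyMeasurable C (Eventually.of_forall hC)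

lemma BM.ind {φ : K → ℂ} (h : BM φ) {A : Set K} (hA : MeasurableSet A) : BM (A.indicator φ) := by
  obtain ⟨C, hC⟩ := h.2
  exact ⟨h.1.indicator hA, C, fun x => (norm_indicator_le_norm_self _ _).trans (hC x)⟩

lemma bm_one : BM (fun _ : K => (1 : ℂ)) := ⟨measurable_const, 1, by simp⟩

variable {Γ : Subgroup (AddChar K ℂ)}

lemma Good.bm (hG : Good Γ) (γ : Γ) : BM γ.1 := ⟨(hG.cont γ).measurable, 1, fun x => (hG.norm γ x).le⟩

lemma Good.inv (hG : Good Γ) (γ : Γ) (x : K) : (γ⁻¹).1 x = conj (γ.1 x) := by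
  rw [Subgroup.coe_inv, AddChar.inv_apply', Complex.inv_eq_conj (hG.norm γ x)]

def IsCM (Λ : (K → ℂ) → ℂ) : Prop :=
  ∃ α β α' β' : Measure K, IsFiniteMeasure α ∧ IsFiniteMeasure β ∧ IsFiniteMeasure α' ∧
    IsFiniteMeasure β' ∧ ∀ φ, BM φ →
      Λ φ = ∫ x, φ x ∂α - ∫ x, φ x ∂β + I * (∫ x, φ x ∂α' - ∫ x, φ x ∂β')

lemma IsCM.sub {Λ Λ' : (K → ℂ) → ℂ} (h : IsCM Λ) (h' : IsCM Λ') : IsCM fun φ => Λ φ - Λ' φ := by
  obtain ⟨a, b, c, d, _, _, _, _, h⟩ := h
  obtain ⟨a', b', c', d', _, _, _, _, h'⟩ := h'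
  refine ⟨a + b', b + a', c + d', d + c', inferInstance, inferInstance, inferInstance,
    inferInstance, fun φ hφ => ?_⟩
  simp only [integral_add_measure (hφ.int _) (hφ.int _), h φ hφ, h' φ hφ]
  ring

lemma isCM_dens {Y : Type} [MeasurableSpace Y] (ρ : Measure Y) {T : Y → K} (hT : Measurable T)
    {k : Y → ℂ} (hk : Integrable k ρ) : IsCM fun φ => ∫ y, φ (T y) * k y ∂ρ := by
  have key : ∀ r : Y → ℝ, Integrable r ρ → ∃ α : Measure K, IsFiniteMeasure α ∧ ∀ φ, BM φ →
      ∫ x, φ x ∂α = ∫ y, φ (T y) * (max (r y) 0 : ℝ) ∂ρ := fun r hr => by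
    have := isFiniteMeasure_withDensity_ofReal hr.2
    refine ⟨(ρ.withDensity fun y => ENNReal.ofReal (r y)).map T, inferInstance, fun φ hφ => ?_⟩
    rw [integral_map hT.aemeasurable hφ.1.aestronglyMeasurable,
      integral_withDensity_eq_integral_toReal_smul₀ hr.aemeasurable.ennreal_ofReal (by simp)]
    simp only [ENNReal.toReal_ofReal', real_smul, mul_comm]
  have i1 : Integrable (fun y => (k y).re) ρ := hk.re
  have i2 : Integrable (fun y => -(k y).re) ρ := hk.re.neg
  have i3 : Integrable (fun y => (k y).im) ρ := hk.im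
  have i4 : Integrable (fun y => -(k y).im) ρ := hk.im.neg
  obtain ⟨a, _, ha⟩ := key _ i1
  obtain ⟨b, _, hb⟩ := key _ i2
  obtain ⟨c, _, hc⟩ := key _ i3
  obtain ⟨d, _, hd⟩ := key _ i4
  refine ⟨a, b, c, d, ‹_›, ‹_›, ‹_›, ‹_›, fun φ hφ => ?_⟩
  obtain ⟨C, hC⟩ := hφ.2
  have i : ∀ r : Y → ℝ, Integrable r ρ → Integrable (fun y => φ (T y) * (max (r y) 0 : ℝ)) ρ :=
    fun r hr => hr.pos_part.ofReal.bdd_mul (hφ.1.comp hT).aestronglyMeasurable
      (Eventually.of_forall fun y => hC _)
  rw [ha φ hφ, hb φ hφ, hc φ hφ, hd φ hφ, ← integral_sub (i _ i1) (i _ i2),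
    ← integral_sub (i _ i3) (i _ i4), ← integral_const_mul, ← integral_add
      (by exact (i _ i1).sub (i _ i2)) (by exact ((i _ i3).sub (i _ i4)).const_mul _)]
  refine integral_congr_ae (Eventually.of_forall fun y => ?_)
  simp only [← mul_sub, ← Complex.ofReal_sub, max_zero_sub_max_neg_zero_eq_self]
  conv_lhs => rw [← Complex.re_add_im (k y)]
  ring

lemma Good.ext (hG : Good Γ) {α β : Measure K} [IsFiniteMeasure α] [IsFiniteMeasure β]
    (h : ∀ γ : Γ, ∫ x, γ.1 x ∂α = ∫ x, γ.1 x ∂β) : α = β := by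
  let b : Γ →* (K →ᵇ ℂ) :=
    { toFun := fun γ => BoundedContinuousFunction.mkOfCompact ⟨γ.1, hG.cont γ⟩
      map_one' := by ext; rfl
      map_mul' := fun _ _ => by ext; rfl }
  have sp : Subalgebra.toSubmodule (Algebra.adjoin ℂ (range b)) = Submodule.span ℂ (range b) := by
    rw [Algebra.adjoin_eq_span, ← MonoidHom.coe_mrange, Submonoid.closure_eq]
  have mem : ∀ g, g ∈ Algebra.adjoin ℂ (range b) ↔ g ∈ Submodule.span ℂ (range b) := fun g => by
    rw [← sp]; rfl
  let A : StarSubalgebra ℂ (K →ᵇ ℂ) :=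
    { Algebra.adjoin ℂ (range b) with
      star_mem' := fun {g} hg => by
        change star g ∈ Algebra.adjoin ℂ (range b)
        replace hg := (mem g).1 hg
        rw [mem]
        induction hg using Submodule.span_induction with
        | mem x hx =>
          obtain ⟨γ, rfl⟩ := hx
          exact Submodule.subset_span ⟨γ⁻¹, by ext x; exact hG.inv γ x⟩
        | zero => simp
        | add x y _ _ hx hy => rw [star_add]; exact Submodule.add_mem _ hx hy
        | smul c x _ hx => rw [star_smul]; exact Submodule.smul_mem _ _ hx }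
  refine ext_of_forall_mem_subalgebra_integral_eq_of_polish (A := A) (fun x y hxy => ?_)
    fun g hg => ?_
  · obtain ⟨γ, hγ⟩ := hG.sep x y hxy
    exact ⟨_, ⟨_, ⟨b γ, Algebra.subset_adjoin ⟨γ, rfl⟩, rfl⟩, rfl⟩, hγ⟩
  · replace hg := (mem g).1 hg
    induction hg using Submodule.span_induction with
    | mem x hx => obtain ⟨γ, rfl⟩ := hx; exact h γ
    | zero => simp
    | add x y _ _ hx hy =>
      simp only [BoundedContinuousFunction.coe_add, Pi.add_apply]
      rw [integral_add (x.integrable _) (y.integrable _),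
        integral_add (x.integrable _) (y.integrable _), hx, hy]
    | smul c x _ hx =>
      simp only [BoundedContinuousFunction.coe_smul, Pi.smul_apply, integral_smul, hx]

lemma IsCM.uniq (hG : Good Γ) {Λ : (K → ℂ) → ℂ} (h : IsCM Λ) (h0 : ∀ γ : Γ, Λ γ.1 = 0)
    {φ : K → ℂ} (hφ : BM φ) : Λ φ = 0 := by
  obtain ⟨a, b, c, d, _, _, _, _, h⟩ := h
  have key : ∀ γ : Γ, ∫ x, γ.1 x ∂a = ∫ x, γ.1 x ∂b ∧ ∫ x, γ.1 x ∂c = ∫ x, γ.1 x ∂d := fun γ => by
    have h1 := h _ (hG.bm γ)
    have h2 := congrArg conj (h _ (hG.bm γ⁻¹))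
    rw [h0] at h1 h2
    simp only [map_zero, map_add, map_sub, map_mul, conj_I, ← integral_conj, hG.inv,
      conj_conj] at h2
    constructor
    · linear_combination (-1 / 2 : ℂ) * h1 - (1 / 2 : ℂ) * h2
    · linear_combination (I / 2 : ℂ) * h1 - (I / 2 : ℂ) * h2 +
        (∫ x, γ.1 x ∂c - ∫ x, γ.1 x ∂d) * I_mul_I
  rw [h φ hφ, hG.ext fun γ => (key γ).1, hG.ext fun γ => (key γ).2]; simp

lemma Good.rep (hG : Good Γ) {F : Γ → ℂ} {C : ℝ} (hF : Nb F C) :
    ∃ (l : Measure K) (h : K → ℂ), IsFiniteMeasure l ∧ Integrable h l ∧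
      (∀ γ : Γ, F γ = ∫ x, γ.1 x * h x ∂l) ∧ ∫ x, ‖h x‖ ∂l ≤ 2 * C := by
  obtain ⟨r, ξ, η, rfl, h1, h2⟩ := hF
  let t : Fin 4 → ℂ := ![1, -1, I, -I]
  have nt : ∀ i, ‖t i‖ = 1 := fun i => by fin_cases i <;> simp [t]
  choose α fα hα using fun i => hG.boch r (ξ + t i • η)
  have ac : ∀ i, α i ≪ ∑ j, α j := fun i =>
    (Finset.single_le_sum (f := α) (fun _ _ => bot_le) (Finset.mem_univ i)).absolutelyContinuous
  let ρ : Fin 4 → K → ℝ := fun i x => ((α i).rnDeriv (∑ j, α j) x).toReal
  have iρ : ∀ i, Integrable (ρ i) (∑ j, α j) := fun i => integrable_toReal_rnDeriv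
  have iρ' : ∀ i, Integrable (fun x => (ρ i x : ℂ)) (∑ j, α j) := fun i => (iρ i).ofReal
  refine ⟨∑ j, α j, fun x => ∑ i, t i / 4 * ρ i x, inferInstance,
    integrable_finsetSum _ fun i _ => (iρ' i).const_mul _, fun γ => ?_, ?_⟩
  · have e : ∀ i, ∫ x, γ.1 x * (t i / 4 * ρ i x) ∂(∑ j, α j)
        = t i / 4 * r.coef (ξ + t i • η) (ξ + t i • η) γ := fun i => by
      rw [hα, ← integral_rnDeriv_smul (ac i), ← integral_const_mul]
      refine integral_congr_ae (Eventually.of_forall fun x => ?_)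
      simp only [ρ, real_smul]; ring
    simp only [Finset.mul_sum]
    rw [integral_finsetSum _ fun i _ => ((iρ' i).const_mul _).bdd_mul
      (hG.bm γ).1.aestronglyMeasurable (Eventually.of_forall fun x => (hG.norm γ x).le)]
    rw [Finset.sum_congr rfl fun i _ => e i]
    simp only [Fin.sum_univ_four, t, URep.coef_apply, map_add, map_smul, inner_add_left,
      inner_add_right, inner_smul_left, inner_smul_right]
    simp
    linear_combination (1 / 2 * inner ℂ η (r.U γ ξ) - (1 / 2 : ℂ) * inner ℂ ξ (r.U γ η)) * I_mul_I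
  · have e : ∀ i, ∫ x, ρ i x ∂(∑ j, α j) = ‖ξ + t i • η‖ ^ 2 := fun i => by
      rw [integral_toReal_rnDeriv (ac i)]
      have := hα i 1
      rw [URep.coef_apply, r.U_one] at this
      have h3 := congrArg Complex.re this
      rw [show (inner ℂ (ξ + t i • η) ((1 : r.H →L[ℂ] r.H) (ξ + t i • η))).re = _ from
        inner_self_eq_norm_sq (𝕜 := ℂ) (ξ + t i • η)] at h3
      rw [h3]; simp
    calc _ ≤ ∫ x, ∑ i, ρ i x / 4 ∂(∑ j, α j) := by
          refine integral_mono_of_nonneg (Eventually.of_forall fun _ => norm_nonneg _)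
            (integrable_finsetSum _ fun i _ => (iρ i).div_const _) (Eventually.of_forall fun x => ?_)
          refine (norm_sum_le _ _).trans (le_of_eq (Finset.sum_congr rfl fun i _ => ?_))
          simp [nt, ρ]; ring
      _ = ∑ i, ‖ξ + t i • η‖ ^ 2 / 4 := by
          rw [integral_finsetSum _ fun i _ => (iρ i).div_const _]
          simp only [integral_div, e]
      _ ≤ _ := by
          have p1 := parallelogram_law_with_norm ℂ ξ η
          have p2 := parallelogram_law_with_norm ℂ ξ (I • η)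
          simp only [norm_smul, norm_I, one_mul] at p2
          simp only [Fin.sum_univ_four, t]
          simp only [Matrix.cons_val_zero, Matrix.cons_val_one, Matrix.cons_val, one_smul, neg_smul,
            ← sub_eq_add_neg]
          nlinarith

/-- approximable by finitely supported functions -/
def Appr {G : Type} [Group G] (F : G → ℂ) : Prop :=
  ∀ ε > 0, ∃ (a : G → ℂ) (T : Finset G), (∀ g ∉ T, a g = 0) ∧ Nb (F - a) ε

lemma Good.orth (hG : Good Γ) (m : Measure K) [IsProbabilityMeasure m] [m.IsAddLeftInvariant]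
    (γ : Γ) [Decidable (γ = 1)] : ∫ x, γ.1 x ∂m = if γ = 1 then 1 else 0 := by
  split_ifs with h
  · simp [h]
  · obtain ⟨y, hy⟩ : ∃ y, γ.1 y ≠ 1 := by
      by_contra h'
      push Not at h'
      exact h (Subtype.ext (by ext y; simpa using h' y))
    have := integral_add_left_eq_self (μ := m) γ.1 y
    simp only [AddChar.map_add_eq_mul, integral_const_mul] at this
    exact (mul_left_eq_self₀.1 this).resolve_left hy

lemma Good.kill (hG : Good Γ) (m : Measure K) [IsProbabilityMeasure m] [m.IsAddLeftInvariant]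
    {F : Γ → ℂ} (hF : Appr F) {Λ : (K → ℂ) → ℂ} (hΛ : IsCM Λ) (h : ∀ γ : Γ, Λ γ.1 = F γ)
    {A : Set K} (hA : MeasurableSet A) (h0 : m A = 0) (γ : Γ) : Λ (A.indicator γ.1) = 0 := by
  classical
  refine norm_le_zero_iff.1 (le_of_forall_pos_le_add fun ε hε => ?_)
  obtain ⟨a, T, ha, hN⟩ := hF (ε / 2) (by positivity)
  obtain ⟨l, k, _, hk, e1, e2⟩ := hG.rep hN
  have ik : Integrable (fun x => ∑ β ∈ T, a β * (β⁻¹).1 x) m :=
    integrable_finsetSum _ fun β _ => ((hG.bm β⁻¹).int m).const_mul _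
  have := ((hΛ.sub (isCM_dens l measurable_id hk)).sub (isCM_dens m measurable_id ik)).uniq hG
    (fun β => ?_) ((hG.bm γ).ind hA)
  · have z : ∫ y, A.indicator γ.1 (id y) * ∑ β ∈ T, a β * (β⁻¹).1 y ∂m = 0 := by
      refine integral_eq_zero_of_ae ?_
      filter_upwards [measure_eq_zero_iff_ae_notMem.1 h0] with y hy
      simp [hy]
    rw [z, sub_zero, sub_eq_zero] at this
    rw [this, zero_add]
    refine (norm_integral_le_of_norm_le hk.norm (Eventually.of_forall fun y => ?_)).trans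
      (by linarith)
    rw [norm_mul]
    exact mul_le_of_le_one_left (norm_nonneg _)
      ((norm_indicator_le_norm_self _ _).trans (hG.norm γ _).le)
  · have e3 : ∀ δ ∈ T, ∫ y, β.1 y * (a δ * (δ⁻¹).1 y) ∂m = if δ = β then a δ else 0 := by
      intro δ _
      have := hG.orth m (β * δ⁻¹)
      simp only [mul_inv_eq_one] at this
      have e4 : ∀ y, β.1 y * (a δ * (δ⁻¹).1 y) = a δ * (β * δ⁻¹).1 y := fun y => by
        simp only [Subgroup.coe_mul, AddChar.mul_apply]; ring
      simp only [e4, integral_const_mul, this, eq_comm (a := β)]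
      split_ifs <;> simp
    simp only [id, Finset.mul_sum]
    rw [h, ← e1, integral_finsetSum _ fun δ _ => (((hG.bm δ⁻¹).int m).const_mul _).bdd_mul
      (hG.bm β).1.aestronglyMeasurable (Eventually.of_forall fun x => (hG.norm β x).le),
      Finset.sum_congr rfl e3, Finset.sum_ite_eq']
    split_ifs with hb
    · simp
    · simp [ha β hb]

lemma char_sum {ι : Type} (γ : AddChar K ℂ) (s : Finset ι) (x : ι → K) :
    γ (∑ i ∈ s, x i) = ∏ i ∈ s, γ (x i) := by
  classical
  induction s using Finset.induction_on with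
  | empty => simp
  | insert a s ha ih => rw [Finset.sum_insert ha, Finset.prod_insert ha, AddChar.map_add_eq_mul, ih]

lemma sum_mem_tr (E : Set K) (j n : ℕ) (x z : Fin n → K) (h : ∀ i, x i ∈ tr E j (z i)) :
    ∑ i, x i ∈ tr E (n * j) (∑ i, z i) := by
  induction n with
  | zero => simp [tr]
  | succ n ih =>
    have := Set.add_mem_add (s := (n * j) • E) (t := j • E)
      (ih (fun i => x i.succ) (fun i => z i.succ) fun i => h _) (h 0)
    rw [← add_nsmul] at this
    rw [tr, mem_ofPred_eq, Fin.sum_univ_succ, Fin.sum_univ_succ, add_mul, one_mul]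
    convert this using 1; abel

lemma Good.step (hG : Good Γ) (m : Measure K) [IsProbabilityMeasure m] [m.IsAddLeftInvariant]
    [NullSingletonClass m] {E : Set K} (hE : IsCompact E) {n : ℕ} (hB : Bh E (2 * n))
    (l : Measure K) [IsFiniteMeasure l] {h : K → ℂ} (hh : Integrable h l)
    (hA : Appr fun γ : Γ => (∫ x, γ.1 x * h x ∂l) ^ n) {j : ℕ} (hj : j ≤ 1) (hd : Deg E l j) :
    ∃ S, MeasurableSet S ∧ (∀ z, l (tr E j z \ S) = 0) ∧ ∀ᵐ x ∂l, x ∈ S → h x = 0 := by
  classical
  obtain ⟨z, hz⟩ := exhaust l (tr E j) (meas_tr hE j)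
  set S := ⋃ k, tr E j (z k) with hS
  have mS : MeasurableSet S := MeasurableSet.iUnion fun k => meas_tr hE j _
  refine ⟨S, mS, hz, ?_⟩
  set A := ⋃ k : Fin n → ℕ, tr E (n * j) (∑ i, z (k i)) with hA'
  have mA : MeasurableSet A := MeasurableSet.iUnion fun k => meas_tr hE _ _
  have nj : n * j ≤ n := by nlinarith
  have A0 : m A = 0 := measure_iUnion_null fun k => deg_haar hE hB m _ (by omega) _
  have ih : Integrable (fun x : Fin n → K => ∏ i, h (x i)) (Measure.pi fun _ => l) :=
    Integrable.fintype_prod fun _ => hh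
  have d1 : Deg E (l.restrict Sᶜ) (j + 1) := fun i hi w => by
    rw [restrict_apply (meas_tr hE _ _)]
    rcases Nat.lt_succ_iff_lt_or_eq.1 hi with h1 | rfl
    · exact measure_mono_null inter_subset_left (hd i h1 w)
    · exact hz w
  have ae : ∀ᵐ x ∂(Measure.pi fun _ : Fin n => l), ∑ i, x i ∈ A → ∀ i, x i ∈ S := by
    suffices H : ∀ i, ∀ᵐ x ∂(Measure.pi fun _ : Fin n => l), x i ∈ Sᶜ → ∑ i, x i ∉ A by
      filter_upwards [ae_all_iff.2 H] with x hx h1 i
      by_contra h2
      exact hx i h2 h1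
    intro i
    let s : Fin n → Set K := fun k => if k = i then Sᶜ else univ
    have ms : ∀ k, MeasurableSet (s k) := fun k => by
      simp only [s]; split_ifs; exacts [mS.compl, .univ]
    have := Deg.pi hE hB n (fun k => l.restrict (s k)) (fun k => if k = i then j + 1 else j)
      (fun k => by simp only [s]; split_ifs; exacts [d1, by simpa using hd]) (c := n * j + 1)
      (by
        have : ∀ k : Fin n, (if k = i then j + 1 else j) = j + if k = i then 1 else 0 := fun k => by
          split_ifs <;> rfl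
        simp [this, Finset.sum_add_distrib]) (by omega)
    have h1 : ((Measure.pi fun k => l.restrict (s k)).map fun x => ∑ i, x i) A = 0 :=
      measure_iUnion_null fun k => this _ (by omega) _
    rw [← restrict_pi_pi, map_apply (by fun_prop) mA] at h1
    have h2 := (ae_restrict_iff' (MeasurableSet.univ_pi ms)).1 (measure_eq_zero_iff_ae_notMem.1 h1)
    filter_upwards [h2] with x hx h3
    refine hx fun k _ => ?_
    simp only [s]; split_ifs with hk
    · rw [hk]; exact h3
    · trivial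
  have key : ∀ γ : Γ, ∫ x, γ.1 x * S.indicator h x ∂l = 0 := fun γ => by
    have := hG.kill m hA (isCM_dens (Measure.pi fun _ : Fin n => l) (T := fun x => ∑ i, x i)
      (by fun_prop) ih) (fun β => by
        simp only [char_sum, ← Finset.prod_mul_distrib]
        rw [integral_fintype_prod_eq_pow (fun x => β.1 x * h x), Fintype.card_fin]) mA A0 γ
    refine eq_zero_of_pow_eq_zero (n := n) ?_
    rw [← this]
    conv_lhs => rw [← Fintype.card_fin n]
    rw [← integral_fintype_prod_eq_pow (fun x => γ.1 x * S.indicator h x)]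
    refine integral_congr_ae ?_
    filter_upwards [ae] with x hx
    by_cases h1 : ∀ i, x i ∈ S
    · choose k hk using fun i => mem_iUnion.1 (h1 i)
      rw [indicator_of_mem (mem_iUnion.2 ⟨k, sum_mem_tr E j n x _ hk⟩), char_sum,
        ← Finset.prod_mul_distrib]
      exact Finset.prod_congr rfl fun i _ => by rw [indicator_of_mem (h1 i)]
    · rw [indicator_of_notMem (fun h2 => h1 (hx h2)), zero_mul]
      push Not at h1
      obtain ⟨i, hi⟩ := h1
      exact Finset.prod_eq_zero (Finset.mem_univ i) (by rw [indicator_of_notMem hi, mul_zero])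
  have z0 := (hh.indicator mS).ae_eq_zero_of_forall_setIntegral_eq_zero fun B hB _ => by
    have := (isCM_dens l measurable_id (hh.indicator mS)).uniq hG key (bm_one.ind hB)
    rw [← this, ← integral_indicator hB]
    refine integral_congr_ae (Eventually.of_forall fun x => ?_)
    by_cases hx : x ∈ B <;> simp [hx]
  filter_upwards [z0] with x hx h1
  simpa [h1] using hx

theorem Good.vanish (hG : Good Γ) (m : Measure K) [IsProbabilityMeasure m] [m.IsAddLeftInvariant]
    [NullSingletonClass m] {E : Set K} (hE : IsCompact E) {n : ℕ} (hB : Bh E (2 * n))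
    (l : Measure K) [IsFiniteMeasure l] {h : K → ℂ} (hh : Integrable h l)
    (hA : Appr fun γ : Γ => (∫ x, γ.1 x * h x ∂l) ^ n) : ∀ᵐ x ∂l, x ∈ E → h x = 0 := by
  obtain ⟨S, mS, h1, h2⟩ := hG.step m hE hB l hh hA zero_le_one fun _ h => by omega
  have e : ∀ γ : Γ, ∫ x, γ.1 x * h x ∂l = ∫ x, γ.1 x * h x ∂(l.restrict Sᶜ) := fun γ => by
    rw [← integral_indicator mS.compl]
    refine integral_congr_ae ?_
    filter_upwards [h2] with x hx
    by_cases h3 : x ∈ S
    · simp [h3, hx h3]
    · simp [h3]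
  simp only [e] at hA
  obtain ⟨S', mS', h3, h4⟩ := hG.step m hE hB (l.restrict Sᶜ) hh.restrict hA le_rfl fun i hi w => by
    obtain rfl : i = 0 := by omega
    rw [restrict_apply (meas_tr hE _ _)]; exact h1 w
  have h5 := measure_eq_zero_iff_ae_notMem.1 (h3 0)
  rw [ae_restrict_iff' mS.compl] at h4 h5
  filter_upwards [h2, h4, h5] with x a1 a2 a3 hx
  by_cases hs : x ∈ S
  · exact a1 hs
  · refine a2 hs ?_
    by_contra h6
    exact a3 hs ⟨by simpa [tr] using hx, h6⟩

end

end Pool.Agent.H58.Rd
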