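import Pool.Agent.H58.RdB

/-! Products of finite abelian groups: the dual group and Bochner's theorem. -/

namespace Pool.Agent.H58.Rd

open MeasureTheory Measure Filter Set Complex Pool.Agent.H90.FS Pool.Agent.H58.Ns Topology
open scoped ENNReal NNReal ComplexConjugate BoundedContinuousFunction

noncomputable section

variable (G : ℕ → Type) [∀ s, AddCommGroup (G s)]

def Lev (n : ℕ) (ψ : AddChar (∀ s, G s) ℂ) : Prop := ∀ x, (∀ r < n, x r = 0) → ψ x = 1

variable {G} in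
lemma Lev.mono {n m : ℕ} {ψ : AddChar (∀ s, G s) ℂ} (h : Lev G n ψ) (hnm : n ≤ m) : Lev G m ψ :=
  fun x hx => h x fun r hr => hx r (hr.trans_le hnm)

def Dual : Subgroup (AddChar (∀ s, G s) ℂ) where
  carrier := {ψ | ∃ n, Lev G n ψ}
  one_mem' := ⟨0, fun _ _ => rfl⟩
  mul_mem' := by
    rintro a b ⟨n, hn⟩ ⟨m, hm⟩
    refine ⟨max n m, fun x hx => ?_⟩
    rw [AddChar.mul_apply, hn.mono (le_max_left _ _) x hx, hm.mono (le_max_right _ _) x hx, one_mul]
  inv_mem' := by
    rintro a ⟨n, hn⟩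
    exact ⟨n, fun x hx => by rw [AddChar.inv_apply', hn x hx, inv_one]⟩

def pr (n : ℕ) : (∀ s, G s) →+ (∀ r : Fin n, G r) := AddMonoidHom.mk' (fun x r => x r) fun _ _ => rfl

def inc (n : ℕ) : (∀ r : Fin n, G r) →+ (∀ s, G s) :=
  AddMonoidHom.mk' (fun a r => if h : r < n then a ⟨r, h⟩ else 0) fun a b => by
    funext r; by_cases h : r < n <;> simp [h]

lemma pr_inc (n : ℕ) (a : ∀ r : Fin n, G r) : pr G n (inc G n a) = a := by
  funext r; simp [pr, inc]

def lift (n : ℕ) (χ : AddChar (∀ r : Fin n, G r) ℂ) : Dual G :=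
  ⟨χ.compAddMonoidHom (pr G n), n, fun x hx => by
    have : pr G n x = 0 := funext fun r => hx r r.2
    simp [this]⟩

variable {G} in
lemma Lev.eq_lift {n : ℕ} {γ : Dual G} (h : Lev G n γ.1) :
    γ = lift G n (γ.1.compAddMonoidHom (inc G n)) := by
  ext x
  have := h (x - inc G n (pr G n x)) fun r hr => by simp [inc, pr, hr]
  rw [AddChar.map_sub_eq_div] at this
  exact eq_of_div_eq_one this

variable [∀ s, Fintype (G s)]

lemma fin_lev (n : ℕ) : {γ : Dual G | Lev G n γ.1}.Finite :=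
  (finite_range (lift G n)).subset fun _ h => ⟨_, (Lev.eq_lift h).symm⟩

lemma weights (r : URep (Dual G)) (ξ : r.H) (n : ℕ) :
    ∃ w : (∀ r : Fin n, G r) → ℝ≥0, ∀ χ, r.coef ξ ξ (lift G n χ) = ∑ a, (w a : ℝ) * χ a := by
  classical
  set N : ℝ := ((Fintype.card (∀ r : Fin n, G r) : ℕ) : ℝ) with hN
  have N0 : (N : ℂ) ≠ 0 := by rw [hN]; exact_mod_cast Fintype.card_ne_zero
  refine ⟨fun a => NNReal.mk
    (‖∑ χ : AddChar (∀ r : Fin n, G r) ℂ, conj (χ a) • r.U (lift G n χ) ξ‖ ^ 2 / N ^ 2)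
    (by positivity), fun χ0 => ?_⟩
  have e : ∀ a, ((‖∑ χ : AddChar (∀ r : Fin n, G r) ℂ, conj (χ a) • r.U (lift G n χ) ξ‖ ^ 2 : ℝ) : ℂ)
      = ∑ χ' : AddChar (∀ r : Fin n, G r) ℂ, ∑ χ : AddChar (∀ r : Fin n, G r) ℂ,
        conj (χ' a) * (χ a * r.coef ξ ξ (lift G n (χ⁻¹ * χ'))) := fun a => by
    rw [Complex.ofReal_pow, ← Complex.coe_algebraMap, ← inner_self_eq_norm_sq_to_K]
    simp only [sum_inner, inner_sum, inner_smul_left, inner_smul_right, conj_conj, Finset.mul_sum]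
    refine Finset.sum_congr rfl fun χ' _ => Finset.sum_congr rfl fun χ _ => ?_
    have : lift G n (χ⁻¹ * χ') = (lift G n χ)⁻¹ * lift G n χ' := by ext; simp [lift]
    rw [this, URep.coef_apply, r.U_mul_apply, r.inner_U_right (lift G n χ)⁻¹, inv_inv]
  simp only [NNReal.coe_mk, Complex.ofReal_div, e, div_mul_eq_mul_div, ← Finset.sum_div,
    Finset.sum_mul]
  rw [Finset.sum_comm]
  have e2 : ∀ χ' : AddChar (∀ r : Fin n, G r) ℂ, ∑ a, ∑ χ : AddChar (∀ r : Fin n, G r) ℂ,
      conj (χ' a) * (χ a * r.coef ξ ξ (lift G n (χ⁻¹ * χ'))) * χ0 a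
        = N * r.coef ξ ξ (lift G n χ0) := fun χ' => by
    rw [Finset.sum_comm, Finset.sum_eq_single (χ' * χ0⁻¹) (fun χ _ hχ => ?_) (by simp)]
    · have : (χ' * χ0⁻¹)⁻¹ * χ' = χ0 := by simp [mul_comm]
      rw [this, hN]
      rw [Finset.sum_congr rfl (g := fun _ => r.coef ξ ξ (lift G n χ0)) fun a _ => ?_]
      · simp
      · have h1 : χ' a ≠ 0 := by rw [← norm_ne_zero_iff, AddChar.norm_apply]; simp
        have h2 : χ0 a ≠ 0 := by rw [← norm_ne_zero_iff, AddChar.norm_apply]; simp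
        rw [← AddChar.inv_apply_eq_conj, AddChar.mul_apply, AddChar.inv_apply']
        field_simp
    · have h1 : χ'⁻¹ * χ * χ0 ≠ 1 := fun h => hχ (by
        rw [eq_mul_inv_iff_mul_eq, eq_comm, ← inv_mul_eq_one, ← mul_assoc, h])
      have h2 := AddChar.sum_eq_zero_iff_ne_zero.2 h1
      rw [← zero_mul (r.coef ξ ξ (lift G n (χ⁻¹ * χ'))), ← h2, Finset.sum_mul]
      refine Finset.sum_congr rfl fun a _ => ?_
      rw [← AddChar.inv_apply_eq_conj, AddChar.mul_apply, AddChar.mul_apply, AddChar.inv_apply']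
      ring
  simp only [e2, Finset.sum_const, Finset.card_univ, AddChar.card_eq, nsmul_eq_mul]
  rw [show ((Fintype.card (∀ r : Fin n, G r) : ℕ) : ℂ) = N by simp [hN]]
  push_cast
  field_simp

variable [∀ s, TopologicalSpace (G s)] [∀ s, DiscreteTopology (G s)] [∀ s, MeasurableSpace (G s)]
  [∀ s, DiscreteMeasurableSpace (G s)]

lemma cont_dual (γ : Dual G) : Continuous γ.1 := by
  obtain ⟨n, hn⟩ := γ.2
  rw [Lev.eq_lift hn]
  exact (continuous_of_discreteTopology (f := γ.1.compAddMonoidHom (inc G n))).comp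
    (continuous_pi fun r => continuous_apply _)

theorem good_dual : Good (Dual G) := by
  refine ⟨cont_dual G, fun γ x => ?_, fun x y h => ?_, fun r ξ => ?_⟩
  · obtain ⟨n, hn⟩ := γ.2
    rw [Lev.eq_lift hn]
    exact AddChar.norm_apply (γ.1.compAddMonoidHom (inc G n)) _
  · obtain ⟨s, hs⟩ := Function.ne_iff.1 h
    have : pr G (s + 1) (x - y) ≠ 0 := fun h => hs (sub_eq_zero.1 (congrFun h (Fin.last s)))
    obtain ⟨χ, hχ⟩ := AddChar.exists_apply_ne_zero.2 this
    refine ⟨lift G _ χ, fun h => hχ ?_⟩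
    have h' : χ (pr G _ x) = χ (pr G _ y) := h
    rw [map_sub, AddChar.map_sub_eq_div, h', div_self]
    rw [← norm_ne_zero_iff, AddChar.norm_apply]; simp
  · choose w hw using weights G r ξ
    let μ : ℕ → FiniteMeasure (∀ s, G s) := fun n =>
      ⟨∑ a, w n a • dirac (inc G n a), inferInstance⟩
    have hμ : ∀ n (γ : Dual G), Lev G n γ.1 →
        ∫ x, γ.1 x ∂(μ n : Measure (∀ s, G s)) = r.coef ξ ξ γ := fun n γ h => by
      change ∫ x, γ.1 x ∂(∑ a, w n a • dirac (inc G n a)) = _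
      rw [integral_finsetSum_measure (f := γ.1) fun a _ => by
        exact (BoundedContinuousFunction.mkOfCompact ⟨γ.1, cont_dual G γ⟩).integrable _]
      conv_rhs => rw [h.eq_lift, hw]
      simp [NNReal.smul_def]
    have hm : ∀ n, (μ n).mass ≤ ‖ξ‖₊ ^ 2 := fun n => by
      have := hμ n 1 fun _ _ => rfl
      rw [URep.coef_apply, r.U_one] at this
      have h3 := congrArg Complex.re this
      rw [show (inner ℂ ξ ((1 : r.H →L[ℂ] r.H) ξ)).re = _ from
        inner_self_eq_norm_sq (𝕜 := ℂ) ξ] at h3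
      simp only [OneMemClass.coe_one, AddChar.one_apply, integral_const, real_smul, mul_one,
        ofReal_re] at h3
      rw [← NNReal.coe_le_coe]
      exact le_of_eq h3
    obtain ⟨α, -, hα⟩ := (isCompact_setOfPred_finiteMeasure_le_of_compactSpace _ (‖ξ‖₊ ^ 2)).ultrafilter_le_nhds
      ((Ultrafilter.of atTop).map μ) (by
        simp only [Ultrafilter.coe_map, le_principal_iff, mem_map]
        exact Eventually.of_forall hm)
    refine ⟨α, inferInstance, fun γ => ?_⟩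
    have := (FiniteMeasure.tendsto_iff_forall_integral_rclike_tendsto ℂ).1 hα
      (BoundedContinuousFunction.mkOfCompact ⟨γ.1, cont_dual G γ⟩)
    refine tendsto_nhds_unique (tendsto_const_nhds.congr' ?_) this
    obtain ⟨n, hn⟩ := γ.2
    filter_upwards [Ultrafilter.of_le atTop (eventually_ge_atTop n)] with m hm
    exact (hμ m γ (hn.mono hm)).symm

end

end Pool.Agent.H58.Rd
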