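import Pool.Agent.H58.RdC
import Pool.Agent.H58.NsF

/-! General tools: translates, averaging, transforms of positive measures, Vandermonde systems. -/

namespace Pool.Agent.H58.Rd

open MeasureTheory Measure Filter Set Complex Pool.Agent.H90.FS Pool.Agent.H58.Ns Topology
open scoped ENNReal NNReal ComplexConjugate

noncomputable section

section
variable {Ω T : Type} [AddGroup Ω] [MeasurableSpace Ω] [MeasurableAdd Ω] [Fintype T]
  (P : Measure Ω) [IsProbabilityMeasure P] [P.IsAddLeftInvariant]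

lemma transl [Nonempty T] {A : Set Ω} (hA : MeasurableSet A) (τ : T → Ω)
    (h : ∀ ω t t', τ t + ω ∈ A → τ t' + ω ∈ A → t = t') :
    P.real A ≤ (Fintype.card T : ℝ)⁻¹ := by
  have := sum_measure_le_measure_univ (μ := P) (s := Finset.univ)
    (t := fun t => (fun ω => τ t + ω) ⁻¹' A)
    (fun t _ => (hA.preimage (measurable_const_add _)).nullMeasurableSet)
    (fun t _ t' _ ht => Disjoint.aedisjoint (Set.disjoint_left.2 fun ω h1 h2 => ht (h ω t t' h1 h2)))
  simp only [measure_preimage_add, Finset.sum_const, Finset.card_univ, nsmul_eq_mul,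
    measure_univ] at this
  have h2 := ENNReal.toReal_mono ENNReal.one_ne_top this
  rw [ENNReal.toReal_mul, ENNReal.toReal_natCast, ENNReal.toReal_one] at h2
  have : (0 : ℝ) < Fintype.card T := by exact_mod_cast Fintype.card_pos
  rw [inv_eq_one_div, le_div_iff₀ this, mul_comm]
  exact h2

lemma avg_zero [AddGroup T] {F : Ω → ℂ} (hF : Integrable F P) (τ : T → Ω)
    (h : ∀ ω, ∃ t0 c, c ≠ 1 ∧ ∀ t, F (τ (t0 + t) + ω) = c * F (τ t + ω)) : ∫ ω, F ω ∂P = 0 := by
  have h1 : ∀ ω, ∑ t, F (τ t + ω) = 0 := fun ω => by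
    obtain ⟨t0, c, hc, h⟩ := h ω
    have := Equiv.sum_comp (Equiv.addLeft t0) fun t => F (τ t + ω)
    simp only [Equiv.coe_addLeft, h, ← Finset.mul_sum] at this
    exact (mul_left_eq_self₀.1 this).resolve_left hc
  have h2 : ∑ t, ∫ ω, F (τ t + ω) ∂P = 0 := by
    rw [← integral_finsetSum _ fun t _ => hF.comp_add_left _]
    simp [h1]
  simpa [integral_add_left_eq_self] using h2

end

variable {K : Type} [AddCommGroup K] [TopologicalSpace K] [IsTopologicalAddGroup K]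
  [CompactSpace K] [PolishSpace K] [MeasurableSpace K] [BorelSpace K]
  {Γ : Subgroup (AddChar K ℂ)}

lemma Good.nb_meas (hG : Good Γ) {Y : Type} [MeasurableSpace Y] (ρ : Measure Y) [IsFiniteMeasure ρ]
    {T : Y → K} (hT : Measurable T) : Nb (fun γ : Γ => ∫ y, γ.1 (T y) ∂ρ) (ρ.real univ) := by
  have hm : ∀ γ : Γ, MemLp (fun y => γ.1 (T y)) 2 ρ := fun γ =>
    MemLp.of_bound ((hG.bm γ).1.comp hT).aestronglyMeasurable 1
      (Eventually.of_forall fun y => (hG.norm γ _).le)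
  have e : ∀ γ γ' : Γ, inner ℂ ((hm γ).toLp _) ((hm γ').toLp _)
      = ∫ y, (γ⁻¹ * γ').1 (T y) ∂ρ := fun γ γ' => by
    rw [L2.inner_def]
    refine integral_congr_ae ?_
    filter_upwards [(hm γ).coeFn_toLp, (hm γ').coeFn_toLp] with y h1 h2
    rw [h1, h2, Subgroup.coe_mul, AddChar.mul_apply, hG.inv, RCLike.inner_apply, mul_comm]
  have := psd_gram fun γ : Γ => (hm γ).toLp _
  simp only [e] at this
  obtain ⟨r, ι, h1, h2⟩ := gns (G := Γ) this fun g x y => by simp [mul_assoc]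
  have n1 : ‖ι 1‖ ^ 2 ≤ ρ.real univ := by
    rw [← inner_self_eq_norm_sq (𝕜 := ℂ), h1]; simp
  refine ⟨r, ι 1, ι 1, funext fun γ => ?_, n1, n1⟩
  rw [URep.coef_apply, h2, h1]; simp

lemma vdm_surj {F : Type} [Field F] {N D : ℕ} (hD : D ≤ N) {t : Fin N → F}
    (ht : Function.Injective t) (y : Fin D → F) :
    ∃ a : Fin N → F, ∀ j : Fin D, ∑ i, a i * t i ^ (j : ℕ) = y j := by
  have := Matrix.vecMul_surjective_iff_isUnit.2 ((Matrix.isUnit_iff_isUnit_det _).2
    (Matrix.det_vandermonde_ne_zero_iff.2 ht).isUnit)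
  obtain ⟨a, ha⟩ := this fun j => if h : (j : ℕ) < D then y ⟨j, h⟩ else 0
  refine ⟨a, fun j => ?_⟩
  have := congrFun ha (Fin.castLE hD j)
  simpa [Matrix.vecMul, dotProduct] using this

lemma vdm_inj {F X : Type} [Field F] {D : ℕ} (Φ : Finset X) (hD : Φ.card ≤ D) {t b : X → F}
    (ht : InjOn t Φ) (h : ∀ j < D, ∑ x ∈ Φ, b x * t x ^ j = 0) : ∀ x ∈ Φ, b x = 0 := by
  have := Matrix.eq_zero_of_forall_pow_sum_mul_pow_eq_zero
    (f := fun i => t (Φ.equivFin.symm i)) (v := fun i => b (Φ.equivFin.symm i))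
    (fun i j hij => Φ.equivFin.symm.injective (Subtype.ext (ht (by simp) (by simp) hij)))
    fun j => by
      rw [← h j (j.2.trans_le hD), ← Finset.sum_coe_sort Φ]
      exact Equiv.sum_comp Φ.equivFin.symm fun x : Φ => b x * t x ^ (j : ℕ)
  intro x hx
  simpa using congrFun this (Φ.equivFin ⟨x, hx⟩)

/-- the left regular representation -/
def reg (G : Type) [Group G] : URep G where
  H := lp (fun _ : G => ℂ) 2
  nag := inferInstance
  ips := inferInstance
  cs := inferInstance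
  π g ξ := ⟨fun y => ξ (g⁻¹ * y), by
    have := (memℓp_gen_iff (by norm_num)).1 ξ.2
    exact (memℓp_gen_iff (by norm_num)).2 ((Equiv.mulLeft g⁻¹).summable_iff.2 this)⟩
  π_one v := by ext y; simp
  π_mul g k v := by ext y; simp [mul_assoc]
  π_add g v w := by ext y; rfl
  π_smul g c v := by ext y; rfl
  π_inner g v w := by
    rw [lp.inner_eq_tsum, lp.inner_eq_tsum]
    exact (Equiv.mulLeft g⁻¹).tsum_eq fun y => inner ℂ (v y) (w y)

lemma appr_reg {G : Type} [Group G] (ξ η : lp (fun _ : G => ℂ) 2) :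
    Appr fun x => ∑' y, ξ (x⁻¹ * y) * conj (η y) := by
  classical
  have e : ∀ (ξ η : lp (fun _ : G => ℂ) 2) x, (reg G).coef ξ η x = ∑' y, ξ (x⁻¹ * y) * conj (η y) :=
    fun ξ η x => by
      change inner ℂ η ((reg G).π x ξ : lp (fun _ : G => ℂ) 2) = _
      rw [lp.inner_eq_tsum]; rfl
  have z : ∀ (ξ : lp (fun _ : G => ℂ) 2) (F : Finset G), ∀ y ∉ F,
      (∑ y ∈ F, lp.single (E := fun _ : G => ℂ) 2 y (ξ y)) y = 0 := fun ξ F y hy => by
    rw [lp.coeFn_sum]
    refine (Finset.sum_apply y F fun i => lp.single (E := fun _ : G => ℂ) 2 i (ξ i)).trans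
      (Finset.sum_eq_zero fun i hi => lp.single_apply_ne _ _ _ ?_)
    rintro rfl; exact hy hi
  intro ε hε
  have t1 := lp.hasSum_single (p := 2) (by norm_num) ξ
  have t2 := lp.hasSum_single (p := 2) (by norm_num) η
  have t3 : Tendsto (fun F : Finset G => ‖ξ - ∑ y ∈ F, lp.single 2 y (ξ y)‖ * ‖η‖ +
      ‖∑ y ∈ F, lp.single (E := fun _ : G => ℂ) 2 y (ξ y)‖ * ‖η - ∑ y ∈ F, lp.single 2 y (η y)‖)
      atTop (𝓝 (‖ξ - ξ‖ * ‖η‖ + ‖ξ‖ * ‖η - η‖)) :=
    ((Tendsto.const_sub _ t1).norm.mul_const _).add (Tendsto.mul (Tendsto.norm t1)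
      (Tendsto.const_sub _ t2).norm)
  obtain ⟨F, hF⟩ := (t3.eventually (gt_mem_nhds (show _ < ε by simpa using hε))).exists
  set ξ' := ∑ y ∈ F, lp.single (E := fun _ : G => ℂ) 2 y (ξ y) with h1
  set η' := ∑ y ∈ F, lp.single (E := fun _ : G => ℂ) 2 y (η y) with h2
  refine ⟨(reg G).coef ξ' η', Finset.image₂ (fun a b => a * b⁻¹) F F, fun g hg => ?_, ?_⟩
  · rw [e]
    refine (tsum_congr fun y => ?_).trans tsum_zero
    by_cases h3 : y ∈ F
    · have : g⁻¹ * y ∉ F := fun h => hg (Finset.mem_image₂.2 ⟨y, h3, _, h, by simp⟩)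
      rw [h1, z ξ F _ this, zero_mul]
    · rw [h2, z η F _ h3, map_zero, mul_zero]
  · have := ((nb_coef (reg G) (ξ - ξ' :) η).add (nb_coef (reg G) ξ' (η - η' :))).mono hF.le
    convert this using 1
    funext x
    simp only [Pi.sub_apply, ← e, Pi.add_apply, URep.coef_apply]
    erw [map_sub, inner_sub_right, inner_sub_left]
    ring

end

end Pool.Agent.H58.Rd
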