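import Pool.Agent.H58.NsDefs

namespace Pool.Agent.H58.RdDefs

open Pool.Agent.H90.FS Pool.Agent.H58.NsDefs Filter

noncomputable section

/-- The Fourier algebra `A(G)`: the coefficient functions `x ↦ ⟨λ(x) ξ, η⟩` of the left regular
representation `(λ(x) ξ)(y) = ξ(x⁻¹ y)` on `ℓ²(G)`. -/
def AG (G : Type) [Group G] : Set (G → ℂ) :=
  {f | ∃ ξ η : lp (fun _ : G => ℂ) 2, ∀ x, f x = ∑' y, ξ (x⁻¹ * y) * (starRingEnd ℂ) (η y)}

/-- `r(A(G))`: the elements of `B(G)` some power of which lies in `A(G)`. -/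
def rad (G : Type) [Group G] : Set (G → ℂ) := {f | f ∈ BG G ∧ ∃ n : ℕ, f ^ n ∈ AG G}

/-- The norm of `B(G)`, dual to the full group C*-norm (the group algebra is dense in `C*(G)`). -/
def bnorm {G : Type} [Group G] (f : G → ℂ) : ℝ :=
  sSup {t : ℝ | ∃ a : G →₀ ℂ, fullNorm a ≤ 1 ∧ t = ‖pair f a‖}

/-- The closure of `S` in the norm of `B(G)`. -/
def clos {G : Type} [Group G] (S : Set (G → ℂ)) : Set (G → ℂ) :=
  {f | f ∈ BG G ∧ ∀ ε : ℝ, 0 < ε → ∃ g ∈ S, bnorm (f - g) < ε}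

/-- The Zafran ideal `B₀(G) ∩ NS(G)`. -/
def zafran (G : Type) [Group G] : Set (G → ℂ) := {f | f ∈ NS G ∧ Tendsto f cofinite (nhds 0)}

end

end Pool.Agent.H58.RdDefs
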