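import Pool.Agent.H58.RdD

/-! The group and the random point. -/

namespace Pool.Agent.H58.Rd

open MeasureTheory Measure Filter Set Complex Pool.Agent.H90.FS Pool.Agent.H58.Ns Topology
open scoped ENNReal NNReal ComplexConjugate

noncomputable section

def cy : ℕ → List (ZMod 2) := (exists_enum (List (ZMod 2))).choose

lemma cy_freq (v : List (ZMod 2)) : ∃ᶠ s in atTop, cy s = v := (exists_enum _).choose_spec v

def dd (s : ℕ) : ℕ := 4 * (cy s).length + 1

def pp (s : ℕ) : ℕ :=
  (Nat.exists_infinite_primes (∏ r : Fin s, pp r ^ dd r + 2 ^ s + dd s)).choose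
termination_by s
decreasing_by all_goals exact Fin.is_lt _

lemma pp_spec (s : ℕ) : ∏ r : Fin s, pp r ^ dd r + 2 ^ s + dd s ≤ pp s ∧ (pp s).Prime := by
  rw [pp]; exact (Nat.exists_infinite_primes _).choose_spec

instance (s : ℕ) : Fact (pp s).Prime := ⟨(pp_spec s).2⟩

abbrev GG (s : ℕ) : Type := Fin (dd s) → ZMod (pp s)

abbrev KK : Type := ∀ s, GG s

abbrev Om : Type := (ℕ → ZMod 2) × ∀ s, ZMod (pp s) × GG s

instance : BorelSpace Om :=
  @Prod.borelSpace _ _ _ _ _ _ _ (inferInstance : BorelSpace (∀ s, ZMod (pp s) × GG s)) _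

def code (s : ℕ) : (∀ r : Fin s, GG r) ↪ ZMod (pp s) :=
  Classical.choice (Function.Embedding.nonempty_of_card_le (by
    have := (pp_spec s).1
    have := Nat.two_pow_pos s
    simp only [Fintype.card_pi, ZMod.card, Finset.prod_const, Finset.card_univ, Fintype.card_fin]
    omega))

def vv (s : ℕ) (t : ZMod (pp s)) : GG s := fun j => t ^ (j : ℕ)

def In (b : ℕ → ZMod 2) (s : ℕ) : Prop := ∀ i < (cy s).length, b i = (cy s).getD i 0

open Classical in
def LL (s : ℕ) (b : ℕ → ZMod 2) (x : ∀ r : Fin s, GG r) (u : ZMod (pp s) × GG s) : GG s :=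
  if In b s then u.1 • vv s (code s x) else u.2

def XX (ω : Om) (s : ℕ) : GG s := LL s ω.1 (fun r => XX ω r) (ω.2 s)
termination_by s
decreasing_by exact r.2

lemma LL_add (s : ℕ) (b : ℕ → ZMod 2) (x : ∀ r : Fin s, GG r) (u u' : ZMod (pp s) × GG s) :
    LL s b x (u + u') = LL s b x u + LL s b x u' := by
  unfold LL; split_ifs <;> simp [add_smul]

lemma meas_In (s : ℕ) : MeasurableSet {b | In b s} := by
  simp only [In, ofPred_forall]
  exact MeasurableSet.iInter fun i => MeasurableSet.iInter fun _ =>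
    measurableSet_eq_fun (by fun_prop) (by fun_prop)

lemma meas_XX : Measurable XX := by
  refine measurable_pi_lambda _ fun s => ?_
  induction s using Nat.strong_induction_on with
  | _ s ih =>
    have : (fun ω => XX ω s) = fun ω => LL s ω.1 (fun r => XX ω r) (ω.2 s) := by
      funext ω; rw [XX]
    rw [this]
    refine Measurable.ite (measurable_fst (meas_In s)) ?_ (by fun_prop)
    have h1 : Measurable fun ω : Om => ((ω.2 s).1, fun r : Fin s => XX ω r) :=
      Measurable.prodMk (by fun_prop) (measurable_pi_lambda _ fun r => ih r r.2)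
    exact (measurable_of_countable
      fun z : ZMod (pp s) × ∀ r : Fin s, GG r => z.1 • vv s (code s z.2)).comp h1

def sh (s : ℕ) (u : ZMod (pp s) × GG s) : Om := (0, Pi.single s u)

lemma sh_add (s : ℕ) (u u' : ZMod (pp s) × GG s) : sh s (u + u') = sh s u + sh s u' := by
  simp [sh, Pi.single_add]

lemma sh_fst (s : ℕ) (u : ZMod (pp s) × GG s) (ω : Om) : (sh s u + ω).1 = ω.1 := by simp [sh]

lemma XX_lt (s : ℕ) (u : ZMod (pp s) × GG s) (ω : Om) (r : ℕ) (h : r < s) :
    XX (sh s u + ω) r = XX ω r := by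
  induction r using Nat.strong_induction_on with
  | _ r ih =>
    rw [XX, XX, sh_fst]
    congr 1
    · exact funext fun i => ih i i.2 (i.2.trans h)
    · simp [sh, Pi.single_eq_of_ne h.ne]

lemma pr_sh (s : ℕ) (u : ZMod (pp s) × GG s) (ω : Om) :
    pr GG s (XX (sh s u + ω)) = pr GG s (XX ω) := funext fun r => XX_lt s u ω r r.2

lemma XX_eq (ω : Om) (s : ℕ) : XX ω s = LL s ω.1 (pr GG s (XX ω)) (ω.2 s) := by rw [XX]; rfl

lemma XX_sh (s : ℕ) (u : ZMod (pp s) × GG s) (ω : Om) :
    XX (sh s u + ω) s = LL s ω.1 (pr GG s (XX ω)) u + XX ω s := by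
  rw [XX_eq, XX_eq ω, pr_sh, sh_fst, ← LL_add]
  simp [sh]

def PP : Measure Om := addHaarMeasure ⊤

instance : IsProbabilityMeasure PP := ⟨addHaarMeasure_self (K₀ := ⊤)⟩

instance : PP.IsAddLeftInvariant := inferInstanceAs (IsAddLeftInvariant (addHaarMeasure ⊤))

def mm : Measure KK := addHaarMeasure ⊤

instance : IsProbabilityMeasure mm := ⟨addHaarMeasure_self (K₀ := ⊤)⟩

instance : mm.IsAddLeftInvariant := inferInstanceAs (IsAddLeftInvariant (addHaarMeasure ⊤))

lemma inv_pp (s : ℕ) : (Fintype.card (ZMod (pp s)) : ℝ)⁻¹ ≤ (1 / 2) ^ s := by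
  rw [ZMod.card, one_div, inv_pow]
  refine inv_anti₀ (by positivity) ?_
  have := (pp_spec s).1
  exact_mod_cast (by omega : 2 ^ s ≤ pp s)

def i0 (s : ℕ) : Fin (dd s) := ⟨0, by simp [dd]⟩

lemma tend_half : Tendsto (fun s : ℕ => ((1 : ℝ) / 2) ^ s) atTop (𝓝 0) :=
  tendsto_pow_atTop_nhds_zero_of_lt_one (by norm_num) (by norm_num)

instance : NullSingletonClass mm := ⟨fun x => by
  rw [← measureReal_eq_zero_iff]
  refine le_antisymm (ge_of_tendsto' tend_half fun s => le_trans ?_ (inv_pp s)) measureReal_nonneg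
  refine transl mm (measurableSet_singleton x) (fun t => Pi.single s fun _ => t)
    fun ω t t' h1 h2 => ?_
  have := congrFun (congrFun (add_right_cancel (h1.trans h2.symm)) s) (i0 s)
  simpa using this⟩

def EE (C : List (ZMod 2)) (m : ℕ) : Set KK :=
  {x | ∀ s, m ≤ s → cy s = C → ∃ a : ZMod (pp s), a ≠ 0 ∧ x s = a • vv s (code s (pr GG s x))}

lemma EE_compact (C : List (ZMod 2)) (m : ℕ) : IsCompact (EE C m) := by
  refine IsClosed.isCompact ?_
  simp only [EE, ofPred_forall]
  refine isClosed_iInter fun s => isClosed_iInter fun _ => isClosed_iInter fun _ => ?_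
  exact (isClosed_discrete {z : GG s × ∀ r : Fin s, GG r |
    ∃ a : ZMod (pp s), a ≠ 0 ∧ z.1 = a • vv s (code s z.2)}).preimage
    (f := fun x : KK => (x s, pr GG s x))
    ((continuous_apply s).prodMk (continuous_pi fun r => continuous_apply _))

lemma EE_Bh (C : List (ZMod 2)) (m : ℕ) : Bh (EE C m) (2 * C.length) := by
  classical
  intro u v hu hv h1 h2 h3
  set Φ := (u + v).toFinset with hΦ
  have c1 : Φ.card ≤ 4 * C.length := (Multiset.toFinset_card_le _).trans (by simp; omega)
  have ev : ∀ᶠ s in atTop, m ≤ s ∧ ∀ x ∈ Φ, ∀ y ∈ Φ, pr GG s x = pr GG s y → x = y := by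
    refine (eventually_ge_atTop m).and ?_
    simp only [eventually_all_finset]
    intro x _ y _
    by_cases h : x = y
    · simp [h]
    · obtain ⟨r, hr⟩ := Function.ne_iff.1 h
      filter_upwards [eventually_gt_atTop r] with s hs h
      exact (hr (congrFun h ⟨r, hs⟩)).elim
  obtain ⟨s, hs, hm, hi⟩ := ((cy_freq C).and_eventually ev).exists
  have hE : ∀ x ∈ Φ, x ∈ EE C m := fun x hx => by
    rcases Multiset.mem_add.1 (Multiset.mem_toFinset.1 hx) with h | h
    exacts [hu x h, hv x h]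
  choose! a ha using fun x hx => hE x hx s hm hs
  have hd : dd s = 4 * C.length + 1 := by rw [dd, hs]
  have key := vdm_inj (D := dd s) Φ (by omega) (t := fun x => code s (pr GG s x))
    (b := fun x => ((u.count x : ZMod (pp s)) - v.count x) * a x)
    (fun x hx y hy h => hi x hx y hy ((code s).injective h)) fun j hj => by
      rw [Finset.sum_multiset_count_of_subset u Φ (by simp [hΦ]),
        Finset.sum_multiset_count_of_subset v Φ (by simp [hΦ])] at h3
      have := congrFun (congrFun (sub_eq_zero.2 h3) s) ⟨j, hj⟩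
      rw [← Finset.sum_sub_distrib, Finset.sum_apply, Finset.sum_apply] at this
      refine (Finset.sum_congr rfl fun x hx => ?_).trans this
      simp only [Pi.sub_apply, Pi.smul_apply, (ha x hx).2, vv, smul_eq_mul]
      simp only [nsmul_eq_mul]
      ring
  ext x
  by_cases hx : x ∈ Φ
  · have := sub_eq_zero.1 ((mul_eq_zero.1 (key x hx)).resolve_right (ha x hx).1)
    have p1 := (pp_spec s).1
    have := Nat.two_pow_pos s
    have := Multiset.count_le_card x u
    have := Multiset.count_le_card x v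
    exact CharP.natCast_injOn_Iio (ZMod (pp s)) (pp s) (by simp only [mem_Iio]; omega)
      (by simp only [mem_Iio]; omega) ‹_›
  · simp only [hΦ, Multiset.mem_toFinset, Multiset.mem_add, not_or] at hx
    rw [Multiset.count_eq_zero.2 hx.1, Multiset.count_eq_zero.2 hx.2]

lemma ae_EE (n : ℕ) : ∀ᵐ ω ∂PP, ∃ C : List (ZMod 2), ∃ m, C.length = n ∧ XX ω ∈ EE C m := by
  have h1 : ∀ s, PP {ω | (ω.2 s).1 = 0} ≤ ENNReal.ofReal ((1 / 2) ^ s) := fun s => by
    rw [← ofReal_measureReal]
    refine ENNReal.ofReal_le_ofReal (le_trans ?_ (inv_pp s))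
    refine transl PP (measurableSet_eq_fun (by fun_prop) (by fun_prop)) (fun t => sh s (t, 0))
      fun ω t t' h1 h2 => ?_
    simpa [sh] using h1.trans h2.symm
  have h2 : ∑' s, PP {ω | (ω.2 s).1 = 0} ≠ ∞ := ne_top_of_le_ne_top
    (summable_geometric_two.tsum_ofReal_ne_top) (ENNReal.tsum_le_tsum h1)
  filter_upwards [ae_eventually_notMem h2] with ω hω
  obtain ⟨m, hm⟩ := eventually_atTop.1 hω
  refine ⟨(List.range n).map ω.1, m, by simp, fun s h3 h4 => ⟨(ω.2 s).1, hm s h3, ?_⟩⟩
  rw [XX_eq, LL, if_pos]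
  intro i hi
  rw [h4] at hi ⊢
  simp only [List.length_map, List.length_range] at hi
  simp [hi]

end

end Pool.Agent.H58.Rd
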