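import Pool.Agent.H58.RdE

/-! Powers of the transform are close to finitely supported functions. -/

namespace Pool.Agent.H58.Rd

open MeasureTheory Measure Filter Set Complex Pool.Agent.H90.FS Pool.Agent.H58.Ns Topology
open scoped ENNReal NNReal ComplexConjugate

noncomputable section

def ff (γ : Dual GG) : ℂ := ∫ ω, γ.1 (XX ω) ∂PP

lemma nb_ff : Nb ff 1 := ((good_dual GG).nb_meas PP meas_XX).mono (by simp)

def Agr (k n : ℕ) : Set (Fin (n + 1) → Om) :=
  {ω | ∀ (i : Fin n) (r : Fin k), (ω i.succ).1 r = (ω 0).1 r}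

def Col (n s : ℕ) (i j : Fin (n + 1)) : Set (Fin (n + 1) → Om) :=
  {ω | i ≠ j ∧ XX (ω i) s (i0 s) = XX (ω j) s (i0 s)}

def Bad (k n s : ℕ) : Set (Fin (n + 1) → Om) :=
  Agr k n ∪ ⋃ z : Fin (n + 1) × Fin (n + 1), Col n s z.1 z.2

lemma meas_Agr (k n : ℕ) : MeasurableSet (Agr k n) := by
  simp only [Agr, ofPred_forall]
  exact MeasurableSet.iInter fun i => MeasurableSet.iInter fun _ =>
    measurableSet_eq_fun (by fun_prop) (by fun_prop)

lemma meas_Col (n s : ℕ) (i j : Fin (n + 1)) : MeasurableSet (Col n s i j) := by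
  have := meas_XX
  exact (MeasurableSet.const _).inter (measurableSet_eq_fun (by fun_prop) (by fun_prop))

lemma meas_Bad (k n s : ℕ) : MeasurableSet (Bad k n s) :=
  (meas_Agr k n).union (MeasurableSet.iUnion fun _ => meas_Col _ _ _ _)

abbrev PN (n : ℕ) : Measure (Fin (n + 1) → Om) := Measure.pi fun _ => PP

instance (n : ℕ) : (PN n).IsAddLeftInvariant :=
  @pi.isAddLeftInvariant _ _ _ _ _ _ _ _ fun _ => inferInstanceAs PP.IsAddLeftInvariant

lemma P_Agr (k n : ℕ) : (PN n).real (Agr k n) ≤ ((1 / 2) ^ k) ^ n := by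
  refine (transl (PN n) (meas_Agr k n) (T := Fin n → Fin k → ZMod 2)
    (fun t => Fin.cons 0 fun i => (fun r => if h : r < k then t i ⟨r, h⟩ else 0, 0))
    fun ω t t' h1 h2 => ?_).trans (by simp)
  funext i r
  simpa using (h1 i r).trans (h2 i r).symm

lemma P_Col (n s : ℕ) (i j : Fin (n + 1)) : (PN n).real (Col n s i j) ≤ (1 / 2) ^ s := by
  refine (transl (PN n) (meas_Col n s i j) (T := ZMod (pp s))
    (fun t => Pi.single i (sh s (t, fun _ => t))) fun ω t t' h1 h2 => ?_).trans (inv_pp s)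
  have e : ∀ t b x, LL s b x (t, fun _ => t) (i0 s) = t := fun t b x => by
    unfold LL; split_ifs <;> simp [vv, i0]
  have h3 := h1.2
  have h4 := h2.2
  simp only [Pi.add_apply, Pi.single_eq_same, Pi.single_eq_of_ne h1.1.symm, zero_add, XX_sh,
    e] at h3 h4
  exact add_right_cancel (h3.trans h4.symm)

lemma P_Bad (k n s : ℕ) :
    (PN n).real (Bad k n s) ≤ ((1 / 2) ^ k) ^ n + (n + 1) ^ 2 * (1 / 2) ^ s := by
  refine (measureReal_union_le _ _).trans (add_le_add (P_Agr k n) ?_)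
  refine (measureReal_iUnion_fintype_le _).trans ((Finset.sum_le_sum fun z _ => P_Col n s _ _).trans ?_)
  simp [sq]

lemma surj {k n s0 s : ℕ} (hk : 4 * k ≤ n) (hs : s0 < s) {ω : Fin (n + 1) → Om}
    (hω : ω ∉ Bad k n s0) (y : GG s) : ∃ t : Fin (n + 1) → ZMod (pp s) × GG s,
      ∑ i, LL s (ω i).1 (pr GG s (XX (ω i))) (t i) = y := by
  simp only [Bad, mem_union, mem_iUnion, not_or, not_exists] at hω
  by_cases h : ∀ i, In (ω i).1 s
  · have h1 : (cy s).length < k := by
      by_contra h1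
      exact hω.1 fun i r => (h _ r (by omega)).trans (h _ r (by omega)).symm
    obtain ⟨a, ha⟩ := vdm_surj (N := n + 1) (D := dd s) (by rw [dd]; omega)
      (t := fun i => code s (pr GG s (XX (ω i)))) (fun i j hij => by
        by_contra h2
        exact hω.2 (i, j) ⟨h2, congrFun (congrFun ((code s).injective hij) ⟨s0, hs⟩) _⟩) y
    refine ⟨fun i => (a i, 0), funext fun j => ?_⟩
    simp only [LL, h, if_true, Finset.sum_apply, Pi.smul_apply, vv, smul_eq_mul, ha]
  · push Not at h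
    obtain ⟨i, hi⟩ := h
    refine ⟨Pi.single i (0, y), ?_⟩
    rw [Finset.sum_eq_single i (fun j _ hj => ?_) (by simp)]
    · simp [LL, hi]
    · simp [LL, hj]

lemma Lev.step {s : ℕ} {γ : AddChar KK ℂ} (h : Lev GG (s + 1) γ) {x x' : KK} {y : GG s}
    (h1 : ∀ r < s, x' r = x r) (h2 : x' s = y + x s) : γ x' = γ (Pi.single s y) * γ x := by
  have := h (x' - (Pi.single s y + x)) fun r hr => by
    rcases Nat.lt_succ_iff_lt_or_eq.1 hr with hr | rfl
    · simp [h1 r hr, Pi.single_eq_of_ne hr.ne]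
    · simp [h2]
  rw [← AddChar.map_add_eq_mul, ← one_mul (γ (_ + _)), ← this, ← AddChar.map_add_eq_mul,
    sub_add_cancel]

lemma good_zero {k n s0 : ℕ} (hk : 4 * k ≤ n) (γ : Dual GG) (hγ : ¬ Lev GG (s0 + 1) γ.1) :
    ∫ ω in (Bad k n s0)ᶜ, γ.1 (∑ i, XX (ω i)) ∂PN n = 0 := by
  classical
  have hX := meas_XX
  obtain ⟨s, h1, h2⟩ := Nat.exists_not_and_succ_of_not_zero_of_exists
    (p := fun s => Lev GG (s0 + 1 + s) γ.1) hγ
    (let ⟨m, hm⟩ := γ.2; ⟨m, hm.mono (by omega)⟩)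
  have hs : s0 < s0 + 1 + s := by omega
  rw [← add_assoc] at h2
  generalize s0 + 1 + s = s at h1 h2 hs
  obtain ⟨y, hy⟩ : ∃ y : GG s, γ.1 (Pi.single s y) ≠ 1 := by
    by_contra h
    push Not at h
    refine h1 fun x hx => ?_
    rw [h2.step (x := 0) (y := x s) hx (by simp), h]; simp
  rw [← integral_indicator (meas_Bad k n s0).compl]
  refine avg_zero (PN n) (T := Fin (n + 1) → ZMod (pp s) × GG s) ?_ (fun t i => sh s (t i))
    fun ω => ?_
  · refine Integrable.indicator ?_ (meas_Bad k n s0).compl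
    exact Integrable.of_bound (((good_dual GG).bm γ).1.comp (by fun_prop)).aestronglyMeasurable 1
      (Eventually.of_forall fun _ => ((good_dual GG).norm γ _).le)
  have inv : ∀ t : Fin (n + 1) → ZMod (pp s) × GG s,
      (fun i => sh s (t i)) + ω ∈ (Bad k n s0)ᶜ ↔ ω ∈ (Bad k n s0)ᶜ := fun t => by
    simp only [Bad, Agr, Col, mem_compl_iff, mem_union, mem_iUnion, mem_ofPred_eq, Pi.add_apply,
      sh_fst, XX_lt s _ _ s0 hs]
  by_cases h : ω ∈ (Bad k n s0)ᶜ
  · obtain ⟨t0, h0⟩ := surj hk hs h y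
    refine ⟨t0, _, hy, fun t => ?_⟩
    rw [indicator_of_mem ((inv _).2 h), indicator_of_mem ((inv _).2 h)]
    refine h2.step (fun r hr => ?_) ?_
    · simp only [Finset.sum_apply, Pi.add_apply, XX_lt s _ _ r hr]
    · simp only [Finset.sum_apply, Pi.add_apply, XX_sh, LL_add, Finset.sum_add_distrib, h0,
        add_assoc]
  · refine ⟨0, 0, zero_ne_one, fun t => ?_⟩
    rw [indicator_of_notMem (fun h' => h ((inv _).1 h')), zero_mul]

theorem key (δ : ℝ) (hδ : 0 < δ) : ∃ n, ∃ (a : Dual GG → ℂ) (T : Finset (Dual GG)),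
    (∀ γ ∉ T, a γ = 0) ∧ a ∈ BG _ ∧ Nb (ff ^ (n + 1) - a) (δ ^ (n + 1)) := by
  wlog h1 : δ ≤ 1 generalizing δ
  · obtain ⟨n, a, T, h2, h3, h4⟩ := this 1 one_pos le_rfl
    exact ⟨n, a, T, h2, h3, h4.mono (by gcongr; linarith)⟩
  have hX := meas_XX
  obtain ⟨k, hk⟩ := (tend_half.eventually (gt_mem_nhds (by positivity : 0 < δ ^ 2))).exists
  have h2 : (((1 : ℝ) / 2) ^ k) ^ (4 * k + 1) < δ ^ (4 * k + 1 + 1) := by
    refine (pow_lt_pow_left₀ hk (by positivity) (by omega)).trans_le ?_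
    rw [← pow_mul]
    exact pow_le_pow_of_le_one hδ.le h1 (by omega)
  have h5 : 4 * k ≤ 4 * k + 1 := by omega
  generalize 4 * k + 1 = n at h2 h5
  obtain ⟨s, hs⟩ := (((tend_half.const_mul (((n : ℝ) + 1) ^ 2)).const_add
    (((1 / 2) ^ k) ^ n)).eventually (gt_mem_nhds (show _ < δ ^ (n + 1) by simpa using h2))).exists
  have m : Measurable fun ω : Fin (n + 1) → Om => ∑ i, XX (ω i) := by fun_prop
  refine ⟨n, fun γ => ∫ ω in (Bad k n s)ᶜ, γ.1 (∑ i, XX (ω i)) ∂PN n,
    (fin_lev GG (s + 1)).toFinset, fun γ hγ => good_zero h5 γ (by simpa using hγ),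
    ((good_dual GG).nb_meas _ m).mem, ?_⟩
  have := ((good_dual GG).nb_meas ((PN n).restrict (Bad k n s)) m).mono
    (show _ ≤ δ ^ (n + 1) by
      rw [measureReal_restrict_apply_univ]; exact (P_Bad k n s).trans hs.le)
  convert this using 1
  funext γ
  rw [Pi.sub_apply, sub_eq_iff_eq_add, integral_add_compl (meas_Bad k n s)]
  · simp only [char_sum]
    rw [integral_fintype_prod_eq_pow fun ω => γ.1 (XX ω), Fintype.card_fin]; rfl
  · exact Integrable.of_bound (((good_dual GG).bm γ).1.comp m).aestronglyMeasurable 1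
      (Eventually.of_forall fun _ => ((good_dual GG).norm γ _).le)

theorem ff_c0 : Tendsto ff cofinite (𝓝 0) := by
  rw [NormedAddGroup.tendsto_nhds_zero]
  intro ε hε
  obtain ⟨n, a, T, h1, -, h2⟩ := key (ε / 2) (by positivity)
  filter_upwards [T.eventually_cofinite_notMem] with γ hγ
  have := h2.le γ
  rw [Pi.sub_apply, h1 γ hγ, sub_zero, Pi.pow_apply, norm_pow] at this
  have := le_of_pow_le_pow_left₀ n.succ_ne_zero (by positivity) this
  linarith

theorem ff_sing (χ : WeakDual.characterSpace ℂ (BA (Dual GG))) (hχ : Sing χ) :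
    χ (mkB ff nb_ff.mem) = 0 := by
  refine norm_le_zero_iff.1 (le_of_forall_pos_le_add fun ε hε => ?_)
  obtain ⟨n, a, T, h1, h3, h2⟩ := key ε hε
  have h4 : χ (mkB a h3) = 0 := hχ.l1 (summable_of_ne_finset_zero (s := T) fun γ hγ => by
    simp [h1 γ hγ])
  have := (chi_le χ (mkB ff nb_ff.mem ^ (n + 1) - mkB a h3)).trans (norm_le_of_nb (by
    rw [map_sub, map_pow]; exact h2))
  rw [map_sub, h4, sub_zero, map_pow, norm_pow] at this
  rw [zero_add]
  exact le_of_pow_le_pow_left₀ n.succ_ne_zero hε.le this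

theorem ff_nat : Natural ff := by
  refine natural_of_sing (mkB ff nb_ff.mem) fun χ hχ => ?_
  rw [ff_sing χ hχ]
  rcases finite_or_infinite (Dual GG) with h | h
  · have := hχ.l1 (a := 1) Summable.of_finite
    simp at this
  · exact mem_closure_of_tendsto ff_c0 (Eventually.of_forall fun γ => ⟨γ, rfl⟩)

end

end Pool.Agent.H58.Rd
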