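import Pool.Agent.H58.RdF
import Pool.Agent.H58.RdDefs

/-! The distance from the radical of the Fourier algebra. -/

namespace Pool.Agent.H58.Rd

open MeasureTheory Measure Filter Set Complex Pool.Agent.H90.FS Pool.Agent.H58.Ns Topology
  Pool.Agent.H58.RdDefs
open scoped ENNReal NNReal ComplexConjugate

noncomputable section

section
variable {K : Type} [AddCommGroup K] [TopologicalSpace K] [IsTopologicalAddGroup K]
  [CompactSpace K] [PolishSpace K] [MeasurableSpace K] [BorelSpace K]
  {Γ : Subgroup (AddChar K ℂ)}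

lemma Good.pair_int (hG : Good Γ) {Y : Type} [MeasurableSpace Y] (ρ : Measure Y) {T : Y → K}
    (hT : Measurable T) {k : Y → ℂ} (hk : Integrable k ρ) (a : Γ →₀ ℂ) :
    pair (fun γ : Γ => ∫ y, γ.1 (T y) * k y ∂ρ) a
      = ∫ y, pair (fun γ : Γ => γ.1 (T y)) a * k y ∂ρ := by
  simp only [pair, Finsupp.sum, Finset.sum_mul, mul_assoc]
  rw [integral_finsetSum]
  · simp only [integral_const_mul]
  · exact fun γ _ => (hk.bdd_mul ((hG.bm γ).1.comp hT).aestronglyMeasurable
      (Eventually.of_forall fun y => (hG.norm γ _).le)).const_mul _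

lemma Good.full_le (hG : Good Γ) (a : Γ →₀ ℂ) {c : ℝ}
    (h : ∀ x, ‖pair (fun γ : Γ => γ.1 x) a‖ ≤ c) : fullNorm a ≤ 2 * c := by
  have hc : 0 ≤ c := (norm_nonneg _).trans (h 0)
  refine fullNorm_le fun r => ContinuousLinearMap.opNorm_le_bound _ (by positivity) fun v => ?_
  obtain ⟨l, k, _, hk, e1, e2⟩ := hG.rep (nb_coef r v (r.op a v))
  have h1 := pair_coef r v (r.op a v) a
  rw [funext e1, hG.pair_int l measurable_id' hk] at h1
  have h2 : ‖r.op a v‖ * ‖r.op a v‖ ≤ c * ∫ x, ‖k x‖ ∂l := by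
    rw [← inner_self_eq_norm_mul_norm (𝕜 := ℂ), inner_self_re_eq_norm, ← h1, ← integral_const_mul]
    refine norm_integral_le_of_norm_le (hk.norm.const_mul _) (Eventually.of_forall fun x => ?_)
    rw [norm_mul]; gcongr; exact h x
  rcases (norm_nonneg (r.op a v)).eq_or_lt with h3 | h3
  · rw [← h3]; positivity
  · refine le_of_mul_le_mul_right (h2.trans ?_) h3
    nlinarith

end

lemma trig (N : ℕ) (φ : (∀ r : Fin N, GG r) → ℂ) :
    ∃ a : Dual GG →₀ ℂ, ∀ x, pair (fun γ : Dual GG => γ.1 x) a = φ (pr GG N x) := by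
  refine ⟨∑ χ, Finsupp.single (lift GG N χ) ((AddChar.complexBasis _).repr φ χ), fun x => ?_⟩
  conv_rhs => rw [← (AddChar.complexBasis _).sum_repr φ]
  simp [pair_eq, _root_.map_sum, Finset.sum_apply, lift]

lemma cyl_lim {E : Set KK} (hE : IsClosed E) (x : KK) :
    Tendsto (fun N => (pr GG N '' E).indicator (fun _ => (1 / 2 : ℂ)) (pr GG N x)) atTop
      (𝓝 (E.indicator (fun _ => (1 / 2 : ℂ)) x)) := by
  refine tendsto_const_nhds.congr' ?_
  by_cases hx : x ∈ E
  · exact Eventually.of_forall fun N => by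
      simp only [indicator_of_mem hx, indicator_of_mem (mem_image_of_mem (pr GG N) hx)]
  · obtain ⟨I, u, h1, h2⟩ := isOpen_pi_iff.1 hE.isOpen_compl x hx
    filter_upwards [eventually_gt_atTop (I.sup id)] with N hN
    rw [indicator_of_notMem hx, indicator_of_notMem]
    rintro ⟨y, hy, h3⟩
    refine h2 (fun r hr => ?_) hy
    rw [show y r = x r from congrFun h3 ⟨r, (Finset.le_sup (f := id) hr).trans_lt hN⟩]
    exact (h1 r hr).2

lemma cyl_int {E : Set KK} (hE : IsClosed E) {Y : Type} [MeasurableSpace Y] (ρ : Measure Y)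
    {T : Y → KK} (hT : Measurable T) {k : Y → ℂ} (hk : Integrable k ρ) :
    Tendsto (fun N => ∫ y, (pr GG N '' E).indicator (fun _ => (1 / 2 : ℂ)) (pr GG N (T y)) * k y ∂ρ)
      atTop (𝓝 (∫ y, E.indicator (fun _ => (1 / 2 : ℂ)) (T y) * k y ∂ρ)) := by
  refine tendsto_integral_of_dominated_convergence _ (fun N => ?_) hk.norm
    (fun N => Eventually.of_forall fun y => ?_)
    (Eventually.of_forall fun y => (cyl_lim hE _).mul_const _)
  · refine AEStronglyMeasurable.mul (Measurable.aestronglyMeasurable ?_) hk.1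
    exact (measurable_of_countable ((pr GG N '' E).indicator fun _ => (1 / 2 : ℂ))).comp
      (f := fun y => pr GG N (T y))
      (measurable_pi_lambda _ fun r => (measurable_pi_apply r.1).comp hT)
  · rw [norm_mul]
    exact mul_le_of_le_one_left (norm_nonneg _)
      ((norm_indicator_le_norm_self _ _).trans (by norm_num))

theorem far (g : Dual GG → ℂ) (hg : g ∈ rad _) : 1 / 4 ≤ bnorm (ff - g) := by
  obtain ⟨hg, n, ξ, η, hn⟩ := hg
  obtain ⟨r, a, b, e⟩ := (BS _).sub_mem nb_ff.mem hg
  have bd : ∀ c, fullNorm c ≤ 1 → ‖pair (ff - g) c‖ ≤ bnorm (ff - g) := fun c hc => by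
    refine le_csSup ⟨‖a‖ * ‖b‖, ?_⟩ ⟨c, hc, rfl⟩
    rintro _ ⟨c, hc, rfl⟩
    rw [e]
    exact (norm_pair_le r a b c).trans (mul_le_of_le_one_right (by positivity) hc)
  obtain ⟨l, h, _, hh, e1, -⟩ := (good_dual GG).rep (nb_norm (mkB g hg))
  have hA : Appr fun γ : Dual GG => (∫ x, γ.1 x * h x ∂l) ^ n := by
    convert appr_reg ξ η using 2 with γ
    rw [← e1, ← hn]; rfl
  set S := ⋃ C : List (ZMod 2), ⋃ m, ⋃ _ : C.length = n, EE C m with hS
  have mS : MeasurableSet S := .iUnion fun C => .iUnion fun m => .iUnion fun _ =>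
    (EE_compact C m).measurableSet
  have h0 : ∀ᵐ x ∂l, x ∈ S → h x = 0 := by
    simp only [hS, mem_iUnion, forall_exists_index, ae_all_iff]
    rintro C m rfl
    exact (good_dual GG).vanish mm (EE_compact C m) (EE_Bh C m) l hh hA
  have h1 : PP.map XX S = 1 := by
    rw [map_apply meas_XX mS, prob_compl_eq_zero_iff (meas_XX mS) |>.symm]
    refine (ae_EE n).mono fun ω hω => ?_
    simpa [hS] using hω
  obtain ⟨E, hE, cE, h2⟩ := mS.exists_lt_isClosed_of_ne_top (μ := PP.map XX) (measure_ne_top _ _)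
    (r := ENNReal.ofReal (1 / 2)) (by rw [h1]; exact ENNReal.ofReal_lt_one.2 (by norm_num))
  have t := ((cyl_int cE PP meas_XX (integrable_const 1)).sub (cyl_int cE l measurable_id' hh)).norm
  have z : ∫ y, E.indicator (fun _ => (1 / 2 : ℂ)) y * h y ∂l = 0 := by
    refine integral_eq_zero_of_ae ?_
    filter_upwards [h0] with y hy
    by_cases h3 : y ∈ E
    · simp [hy (hE h3)]
    · simp [h3]
  have z2 : ∫ y, E.indicator (fun _ => (1 / 2 : ℂ)) (XX y) * 1 ∂PP
      = (((PP.map XX).real E / 2 : ℝ) : ℂ) := by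
    simp only [mul_one]
    rw [← integral_map meas_XX.aemeasurable
      (measurable_const.indicator cE.measurableSet).aestronglyMeasurable,
      integral_indicator_const _ cE.measurableSet]
    simp; ring
  rw [z, z2, sub_zero, norm_real, Real.norm_of_nonneg (by positivity)] at t
  have h3 := (ENNReal.ofReal_lt_iff_lt_toReal (by norm_num) (measure_ne_top _ _)).1 h2
  refine le_trans (by rw [measureReal_def]; linarith) (le_of_tendsto' t fun N => ?_)
  obtain ⟨c, hc⟩ := trig N ((pr GG N '' E).indicator fun _ => (1 / 2 : ℂ))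
  refine le_trans (le_of_eq ?_) (bd c (((good_dual GG).full_le c (c := 1 / 2) fun x => ?_).trans
    (by norm_num)))
  · simp only [← hc]
    rw [← (good_dual GG).pair_int PP meas_XX (integrable_const 1),
      ← (good_dual GG).pair_int l measurable_id' hh]
    simp only [← e1, mul_one, pair, Pi.sub_apply, mul_sub, Finsupp.sum_sub]
    rfl
  · rw [hc]
    exact (norm_indicator_le_norm_self _ _).trans (by norm_num)

instance : Countable (Dual GG) := by
  rw [← countable_univ_iff]
  refine (countable_iUnion fun n => (fin_lev GG n).countable).mono fun γ _ => ?_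
  exact mem_iUnion.2 γ.2

end

end Pool.Agent.H58.Rd
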