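import Pool.Agent.H58.RdG

/-! The closure of the radical lies in the Zafran ideal. -/

namespace Pool.Agent.H58.Rd

open MeasureTheory Measure Filter Set Complex Pool.Agent.H90.FS Pool.Agent.H58.Ns Topology
  Pool.Agent.H58.RdDefs
open scoped ENNReal NNReal ComplexConjugate

noncomputable section

lemma le_bnorm {G : Type} [Group G] {F : G → ℂ} (hF : F ∈ BG G) (c : G →₀ ℂ) (hc : fullNorm c ≤ 1) :
    ‖pair F c‖ ≤ bnorm F := by
  obtain ⟨r, a, b, rfl⟩ := hF
  refine le_csSup ⟨‖a‖ * ‖b‖, ?_⟩ ⟨c, hc, rfl⟩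
  rintro _ ⟨c, hc, rfl⟩
  exact (norm_pair_le r a b c).trans (mul_le_of_le_one_right (by positivity) hc)

lemma nb_bnorm {F : Dual GG → ℂ} (hF : F ∈ BG _) : Nb F (2 * bnorm F) := by
  classical
  obtain ⟨l, h, _, hh, e1, -⟩ := (good_dual GG).rep (nb_norm (mkB F hF))
  replace e1 : F = fun γ : Dual GG => ∫ x, γ.1 x * h x ∂l := funext e1
  let w : ∀ N, (∀ r : Fin N, GG r) → ℂ := fun N a =>
    ∫ x, (if pr GG N x = a then 1 else 0) * h x ∂l
  have e2 : ∀ N (φ : (∀ r : Fin N, GG r) → ℂ), ∫ x, φ (pr GG N x) * h x ∂l = ∑ a, φ a * w N a :=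
    fun N φ => by
      simp only [w, ← integral_const_mul]
      rw [← integral_finsetSum]
      · simp
      · refine fun a _ => (hh.bdd_mul (c := 1) (Measurable.aestronglyMeasurable ?_)
          (Eventually.of_forall fun y => by split_ifs <;> simp)).const_mul _
        exact (measurable_of_countable fun z => if z = a then (1 : ℂ) else 0).comp
          (f := pr GG N) (measurable_pi_lambda _ fun r => measurable_pi_apply r.1)
  refine nb_lim (l := atTop) (fn := fun N => ∑ a, w N a • fun γ : Dual GG => γ.1 (inc GG N a))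
    (fun N => ?_) fun γ => ?_
  · have h1 : ∀ x, Nb (fun γ : Dual GG => γ.1 x) 1 := fun x => by
      simpa using (good_dual GG).nb_meas (dirac x) measurable_id'
    refine (nb_sum _ fun a _ => (h1 _).smul _).mono ?_
    choose u hu using fun a => exists_norm_eq_mul_self (w N a)
    obtain ⟨c, hc⟩ := trig N fun a => (1 / 2 : ℂ) * u a
    have h2 := le_bnorm hF c (((good_dual GG).full_le c (c := 1 / 2) fun x => by
      rw [hc]; simp [(hu _).1]).trans (by norm_num))
    conv_lhs at h2 => rw [e1, (good_dual GG).pair_int l measurable_id' hh]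
    simp only [hc] at h2
    rw [e2 N fun a => (1 / 2 : ℂ) * u a] at h2
    simp only [mul_assoc, ← (hu _).2, ← Finset.mul_sum, ← ofReal_sum, norm_mul, norm_real] at h2
    rw [Real.norm_of_nonneg (by positivity)] at h2
    norm_num at h2
    simp only [mul_one]
    linarith
  · obtain ⟨n, hn⟩ := γ.2
    refine tendsto_const_nhds.congr' ?_
    filter_upwards [eventually_ge_atTop n] with N hN
    have := e2 N fun a => γ.1 (inc GG N a)
    simp only [Finset.sum_apply, Pi.smul_apply, smul_eq_mul, mul_comm (w _ _), ← this, e1]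
    conv_lhs => rw [(hn.mono hN).eq_lift]
    rfl

theorem clos_sub : clos (rad (Dual GG)) ⊆ zafran _ := by
  rintro f ⟨hf, h⟩
  have key : ∀ ε > 0, ∃ g, ∃ _ : g ∈ BG _, ∃ n : ℕ, Appr (g ^ n) ∧ Nb (f - g) ε := fun ε hε => by
    obtain ⟨g, ⟨hg, n, ξ, η, hn⟩, h1⟩ := h (ε / 2) (by positivity)
    refine ⟨g, hg, n, by rw [funext hn]; exact appr_reg ξ η,
      (nb_bnorm ((BS _).sub_mem hf hg)).mono (by linarith)⟩
  have c0 : Tendsto f cofinite (𝓝 0) := by
    rw [NormedAddGroup.tendsto_nhds_zero]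
    intro ε hε
    obtain ⟨g, hg, n, h1, h2⟩ := key (ε / 2) (by positivity)
    obtain ⟨a, T, h3, h4⟩ := h1 ((ε / 2) ^ n / 2) (by positivity)
    filter_upwards [T.eventually_cofinite_notMem] with γ hγ
    have h5 := h4.le γ
    rw [Pi.sub_apply, h3 γ hγ, sub_zero, Pi.pow_apply, norm_pow] at h5
    have h6 := lt_of_pow_lt_pow_left₀ n (by positivity)
      (h5.trans_lt (half_lt_self (by positivity)))
    have h7 := h2.le γ
    have := norm_le_norm_add_norm_sub' (f γ) (g γ)
    simp only [Pi.sub_apply] at h7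
    linarith
  refine ⟨⟨hf, natural_of_sing (mkB f hf) fun χ hχ => ?_⟩, c0⟩
  have : χ (mkB f hf) = 0 := by
    refine norm_le_zero_iff.1 (le_of_forall_pos_le_add fun ε hε => ?_)
    obtain ⟨g, hg, n, h1, h2⟩ := key ε hε
    have h3 : χ (mkB g hg) = 0 := by
      refine eq_zero_of_pow_eq_zero (n := n) ?_
      refine norm_le_zero_iff.1 (le_of_forall_pos_le_add fun ε hε => ?_)
      obtain ⟨a, T, h3, h4⟩ := h1 ε hε
      have h5 := hχ.l1 (a := mkB g hg ^ n - mkB _ h4.mem) (summable_of_ne_finset_zero (s := T)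
        fun γ hγ => by simp [h3 γ hγ])
      rw [map_sub, sub_eq_zero, map_pow] at h5
      rw [h5, zero_add]
      exact (chi_le χ _).trans (norm_le_of_nb h4)
    have := (chi_le χ (mkB f hf - mkB g hg)).trans (norm_le_of_nb (by rw [map_sub]; exact h2))
    rwa [map_sub, h3, sub_zero, ← zero_add ε] at this
  rw [this]
  rcases finite_or_infinite (Dual GG) with h | h
  · have := hχ.l1 (a := 1) Summable.of_finite
    simp at this
  · exact mem_closure_of_tendsto c0 (Eventually.of_forall fun γ => ⟨γ, rfl⟩)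

end

end Pool.Agent.H58.Rd
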