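import Pool.Agent.H58.RiemDefs

namespace Pool.Agent.H58.Riem
open Matrix Filter Topology Set
open scoped ContDiff

variable {n : ℕ}

lemma speed_cont {G : Met n} (hG : ∀ i j, Continuous (G · i j)) {γ : ℝ → Fin n → ℝ}
    (hγ : ContDiff ℝ 1 γ) : Continuous fun s => √(deriv γ s ⬝ᵥ G (γ s) *ᵥ deriv γ s) := by
  have h1 : Continuous (deriv γ) := hγ.continuous_deriv le_rfl
  have h2 : Continuous γ := hγ.continuous
  refine Real.continuous_sqrt.comp ?_
  simp only [dotProduct, mulVec]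
  refine continuous_finsetSum _ fun i _ => ((continuous_apply i).comp h1).mul ?_
  exact continuous_finsetSum _ fun j _ => ((hG i j).comp h2).mul ((continuous_apply j).comp h1)

/-- a coordinate whose speed is dominated moves by at most `C * len`. -/
lemma coord_le {G : Met n} (hG : ∀ i j, Continuous (G · i j)) {γ : ℝ → Fin n → ℝ}
    (hγ : ContDiff ℝ 1 γ) (i : Fin n) {C : ℝ} (hC : 0 ≤ C)
    (h : ∀ s ∈ Icc (0 : ℝ) 1, ∀ v : Fin n → ℝ, v i ^ 2 ≤ C ^ 2 * (v ⬝ᵥ G (γ s) *ᵥ v))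
    {s : ℝ} (hs : s ∈ Icc (0 : ℝ) 1) : |γ s i - γ 0 i| ≤ C * len G γ := by
  have h1 : Continuous (deriv γ) := hγ.continuous_deriv le_rfl
  have hd : ∀ x, HasDerivAt (fun x => γ x i) (deriv γ x i) x := fun x =>
    (hasDerivAt_pi.1 ((hγ.differentiable (by norm_num)) x).hasDerivAt) i
  have hc : Continuous fun x => deriv γ x i := (continuous_apply i).comp h1
  have hsp := speed_cont hG hγ
  rw [← intervalIntegral.integral_eq_sub_of_hasDerivAt (fun x _ => hd x) (hc.intervalIntegrable _ _)]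
  have hb : ∀ x ∈ Icc (0 : ℝ) 1, |deriv γ x i| ≤ C * √(deriv γ x ⬝ᵥ G (γ x) *ᵥ deriv γ x) := by
    intro x hx
    rw [← Real.sqrt_sq hC, ← Real.sqrt_mul (sq_nonneg C)]
    exact Real.abs_le_sqrt (h x hx _)
  calc |∫ x in (0 : ℝ)..s, deriv γ x i| ≤ ∫ x in (0 : ℝ)..s, |deriv γ x i| :=
        intervalIntegral.abs_integral_le_integral_abs hs.1
    _ ≤ ∫ x in (0 : ℝ)..s, C * √(deriv γ x ⬝ᵥ G (γ x) *ᵥ deriv γ x) :=
        intervalIntegral.integral_mono_on hs.1 (hc.abs.intervalIntegrable _ _)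
          ((continuous_const.mul hsp).intervalIntegrable _ _)
          fun x hx => hb x ⟨hx.1, hx.2.trans hs.2⟩
    _ ≤ ∫ x in (0 : ℝ)..1, C * √(deriv γ x ⬝ᵥ G (γ x) *ᵥ deriv γ x) :=
        intervalIntegral.integral_mono_interval le_rfl hs.1 hs.2
          (Eventually.of_forall fun x => mul_nonneg hC (Real.sqrt_nonneg _))
          ((continuous_const.mul hsp).intervalIntegrable _ _)
    _ = C * len G γ := by rw [intervalIntegral.integral_const_mul]; rfl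

/-- completeness criterion: one coordinate is globally Lipschitz, and all are on slabs. -/
theorem complete_of {G : Met n} (hG : ∀ i j, Continuous (G · i j)) (i₀ : Fin n) {C : ℝ}
    (hC : 0 ≤ C) (h0 : ∀ y v : Fin n → ℝ, v i₀ ^ 2 ≤ C ^ 2 * (v ⬝ᵥ G y *ᵥ v))
    (h1 : ∀ R : ℝ, ∃ D, 0 < D ∧ ∀ y : Fin n → ℝ, |y i₀| ≤ R → ∀ (i : Fin n) (v : Fin n → ℝ),
      v i ^ 2 ≤ D ^ 2 * (v ⬝ᵥ G y *ᵥ v)) : IsCompleteMetric G := by
  intro u hu
  obtain ⟨N₀, hN₀⟩ := hu 1 one_pos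
  obtain ⟨D, hD, hDb⟩ := h1 (|u N₀ i₀| + 2 * C)
  have hb : ∀ k ≥ N₀, |u k i₀| ≤ |u N₀ i₀| + C := by
    intro k hk
    obtain ⟨γ, hγ, e0, e1, hl⟩ := hN₀ N₀ le_rfl k hk
    have := coord_le hG hγ i₀ hC (fun s _ v => h0 _ v) (s := 1) ⟨zero_le_one, le_rfl⟩
    rw [e0, e1] at this
    have h2 : C * len G γ ≤ C := by nlinarith
    have h3 := abs_sub_abs_le_abs_sub (u k i₀) (u N₀ i₀)
    linarith
  refine cauchySeq_tendsto_of_complete (Metric.cauchySeq_iff.2 fun ε hε => ?_)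
  obtain ⟨N, hN⟩ := hu (min 1 (ε / D)) (lt_min one_pos (div_pos hε hD))
  refine ⟨max N N₀, fun k hk l hl => ?_⟩
  obtain ⟨γ, hγ, e0, e1, hlen⟩ := hN k (le_of_max_le_left hk) l (le_of_max_le_left hl)
  rw [dist_comm, dist_pi_lt_iff hε]
  intro i
  have hR : ∀ s ∈ Icc (0 : ℝ) 1, |γ s i₀| ≤ |u N₀ i₀| + 2 * C := by
    intro s hs
    have := coord_le hG hγ i₀ hC (fun s _ v => h0 _ v) hs
    rw [e0] at this
    have h2 : C * len G γ ≤ C := by nlinarith [hlen.trans_le (min_le_left _ _)]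
    have h3 := abs_sub_abs_le_abs_sub (γ s i₀) (u k i₀)
    have h4 := hb k (le_of_max_le_right hk)
    linarith
  have := coord_le hG hγ i hD.le (fun s hs v => hDb _ (hR s hs) i v) (s := 1) ⟨zero_le_one, le_rfl⟩
  rw [e0, e1] at this
  rw [Real.dist_eq]
  have h5 : len G γ < ε / D := hlen.trans_le (min_le_right _ _)
  rw [lt_div_iff₀ hD] at h5
  linarith

end Pool.Agent.H58.Riem
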