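import Pool.Agent.H58.Riem1

/-! The metrics `a(r,t)² dr² + dt² + b(r,t)² dx²` on `ℝ³`. -/

namespace Pool.Agent.H58.Riem
open Matrix Filter Topology Set
open scoped ContDiff

structure Warp where
  (a ar at' arr art att b br bt brr brt btt : ℝ → ℝ → ℝ)
  a_r : ∀ r t, HasDerivAt (a · t) (ar r t) r
  a_t : ∀ r t, HasDerivAt (a r) (at' r t) t
  ar_r : ∀ r t, HasDerivAt (ar · t) (arr r t) r
  ar_t : ∀ r t, HasDerivAt (ar r) (art r t) t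
  at_r : ∀ r t, HasDerivAt (at' · t) (art r t) r
  at_t : ∀ r t, HasDerivAt (at' r) (att r t) t
  b_r : ∀ r t, HasDerivAt (b · t) (br r t) r
  b_t : ∀ r t, HasDerivAt (b r) (bt r t) t
  br_r : ∀ r t, HasDerivAt (br · t) (brr r t) r
  br_t : ∀ r t, HasDerivAt (br r) (brt r t) t
  bt_r : ∀ r t, HasDerivAt (bt · t) (brt r t) r
  bt_t : ∀ r t, HasDerivAt (bt r) (btt r t) t
  apos : ∀ r t, 0 < a r t
  bpos : ∀ r t, 0 < b r t

lemma pd3 (f : ℝ → ℝ → ℝ) (fr ft : ℝ) (y : Fin 3 → ℝ) (hr : HasDerivAt (f · (y 1)) fr (y 0))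
    (ht : HasDerivAt (f (y 0)) ft (y 1)) (i : Fin 3) :
    pd (fun y => f (y 0) (y 1)) i y = ![fr, ft, 0] i := by
  fin_cases i
  · simpa [pd, Function.update] using hr.deriv
  · simpa [pd, Function.update] using ht.deriv
  · simp [pd, Function.update]

lemma v30 {α : Type} (a b c : α) : ![a, b, c] 0 = a := rfl
lemma v31 {α : Type} (a b c : α) : ![a, b, c] 1 = b := rfl
lemma v32 {α : Type} (a b c : α) : ![a, b, c] 2 = c := rfl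

namespace Warp
variable (w : Warp)

def Gf (r t : ℝ) : Matrix (Fin 3) (Fin 3) ℝ := !![w.a r t ^ 2, 0, 0; 0, 1, 0; 0, 0, w.b r t ^ 2]

def G : Met 3 := fun y => w.Gf (y 0) (y 1)

lemma Ginv (y : Fin 3 → ℝ) : (w.G y)⁻¹ =
    !![1 / w.a (y 0) (y 1) ^ 2, 0, 0; 0, 1, 0; 0, 0, 1 / w.b (y 0) (y 1) ^ 2] := by
  have ha := (w.apos (y 0) (y 1)).ne'
  have hb := (w.bpos (y 0) (y 1)).ne'
  refine Matrix.inv_eq_left_inv ?_
  ext i j
  fin_cases i <;> fin_cases j <;> simp [G, Gf, Matrix.mul_apply, Fin.sum_univ_three, ha, hb]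

lemma dG (j l i : Fin 3) (y : Fin 3 → ℝ) : pd (w.G · j l) i y =
    ![!![2 * w.a (y 0) (y 1) * w.ar (y 0) (y 1), 0, 0; 0, 0, 0;
        0, 0, 2 * w.b (y 0) (y 1) * w.br (y 0) (y 1)] j l,
      !![2 * w.a (y 0) (y 1) * w.at' (y 0) (y 1), 0, 0; 0, 0, 0;
        0, 0, 2 * w.b (y 0) (y 1) * w.bt (y 0) (y 1)] j l, 0] i := by
  refine pd3 (fun r t => w.Gf r t j l) _ _ y ?_ ?_ i
  · fin_cases j <;> fin_cases l <;> simp [Gf, hasDerivAt_const]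
    · simpa using (w.a_r (y 0) (y 1)).fun_pow 2
    · simpa using (w.b_r (y 0) (y 1)).fun_pow 2
  · fin_cases j <;> fin_cases l <;> simp [Gf, hasDerivAt_const]
    · simpa using (w.a_t (y 0) (y 1)).fun_pow 2
    · simpa using (w.b_t (y 0) (y 1)).fun_pow 2

noncomputable def Γ (r t : ℝ) : Fin 3 → Matrix (Fin 3) (Fin 3) ℝ :=
  ![!![w.ar r t / w.a r t, w.at' r t / w.a r t, 0; w.at' r t / w.a r t, 0, 0;
      0, 0, -(w.b r t * w.br r t / w.a r t ^ 2)],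
    !![-(w.a r t * w.at' r t), 0, 0; 0, 0, 0; 0, 0, -(w.b r t * w.bt r t)],
    !![0, 0, w.br r t / w.b r t; 0, 0, w.bt r t / w.b r t;
      w.br r t / w.b r t, w.bt r t / w.b r t, 0]]

lemma chris_eq (k i j : Fin 3) : chris w.G k i j = fun y => w.Γ (y 0) (y 1) k i j := by
  funext y
  have ha := (w.apos (y 0) (y 1)).ne'
  have hb := (w.bpos (y 0) (y 1)).ne'
  simp only [chris, dG, Ginv, Fin.sum_univ_three]
  fin_cases k <;> fin_cases i <;> fin_cases j <;> simp [Γ] <;> field_simp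

noncomputable def Γr (r t : ℝ) : Fin 3 → Matrix (Fin 3) (Fin 3) ℝ :=
  ![!![(w.arr r t * w.a r t - w.ar r t * w.ar r t) / w.a r t ^ 2,
        (w.art r t * w.a r t - w.at' r t * w.ar r t) / w.a r t ^ 2, 0;
      (w.art r t * w.a r t - w.at' r t * w.ar r t) / w.a r t ^ 2, 0, 0;
      0, 0, -(((w.br r t * w.br r t + w.b r t * w.brr r t) * w.a r t ^ 2 -
        w.b r t * w.br r t * (2 * w.a r t * w.ar r t)) / (w.a r t ^ 2) ^ 2)],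
    !![-(w.ar r t * w.at' r t + w.a r t * w.art r t), 0, 0; 0, 0, 0;
      0, 0, -(w.br r t * w.bt r t + w.b r t * w.brt r t)],
    !![0, 0, (w.brr r t * w.b r t - w.br r t * w.br r t) / w.b r t ^ 2;
      0, 0, (w.brt r t * w.b r t - w.bt r t * w.br r t) / w.b r t ^ 2;
      (w.brr r t * w.b r t - w.br r t * w.br r t) / w.b r t ^ 2,
      (w.brt r t * w.b r t - w.bt r t * w.br r t) / w.b r t ^ 2, 0]]

noncomputable def Γt (r t : ℝ) : Fin 3 → Matrix (Fin 3) (Fin 3) ℝ :=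
  ![!![(w.art r t * w.a r t - w.ar r t * w.at' r t) / w.a r t ^ 2,
        (w.att r t * w.a r t - w.at' r t * w.at' r t) / w.a r t ^ 2, 0;
      (w.att r t * w.a r t - w.at' r t * w.at' r t) / w.a r t ^ 2, 0, 0;
      0, 0, -(((w.bt r t * w.br r t + w.b r t * w.brt r t) * w.a r t ^ 2 -
        w.b r t * w.br r t * (2 * w.a r t * w.at' r t)) / (w.a r t ^ 2) ^ 2)],
    !![-(w.at' r t * w.at' r t + w.a r t * w.att r t), 0, 0; 0, 0, 0;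
      0, 0, -(w.bt r t * w.bt r t + w.b r t * w.btt r t)],
    !![0, 0, (w.brt r t * w.b r t - w.br r t * w.bt r t) / w.b r t ^ 2;
      0, 0, (w.btt r t * w.b r t - w.bt r t * w.bt r t) / w.b r t ^ 2;
      (w.brt r t * w.b r t - w.br r t * w.bt r t) / w.b r t ^ 2,
      (w.btt r t * w.b r t - w.bt r t * w.bt r t) / w.b r t ^ 2, 0]]

lemma Γ_r (r t : ℝ) (k i j : Fin 3) : HasDerivAt (fun r => w.Γ r t k i j) (w.Γr r t k i j) r := by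
  have ha := (w.apos r t).ne'
  have hb := (w.bpos r t).ne'
  have h1 := (w.ar_r r t).fun_div (w.a_r r t) ha
  have h2 := (w.at_r r t).fun_div (w.a_r r t) ha
  have h3 := (((w.b_r r t).fun_mul (w.br_r r t)).fun_div ((w.a_r r t).fun_pow 2)
    (pow_ne_zero 2 ha)).fun_neg
  have h4 := ((w.a_r r t).fun_mul (w.at_r r t)).fun_neg
  have h5 := ((w.b_r r t).fun_mul (w.bt_r r t)).fun_neg
  have h6 := (w.br_r r t).fun_div (w.b_r r t) hb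
  have h7 := (w.bt_r r t).fun_div (w.b_r r t) hb
  fin_cases k <;> fin_cases i <;> fin_cases j <;>
    first
      | exact hasDerivAt_const _ _ | exact h1 | exact h2 | exact h4 | exact h5 | exact h6 | exact h7
      | exact h3.congr_deriv (by simp [Γr])

lemma Γ_t (r t : ℝ) (k i j : Fin 3) : HasDerivAt (fun t => w.Γ r t k i j) (w.Γt r t k i j) t := by
  have ha := (w.apos r t).ne'
  have hb := (w.bpos r t).ne'
  have h1 := (w.ar_t r t).fun_div (w.a_t r t) ha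
  have h2 := (w.at_t r t).fun_div (w.a_t r t) ha
  have h3 := (((w.b_t r t).fun_mul (w.br_t r t)).fun_div ((w.a_t r t).fun_pow 2)
    (pow_ne_zero 2 ha)).fun_neg
  have h4 := ((w.a_t r t).fun_mul (w.at_t r t)).fun_neg
  have h5 := ((w.b_t r t).fun_mul (w.bt_t r t)).fun_neg
  have h6 := (w.br_t r t).fun_div (w.b_t r t) hb
  have h7 := (w.bt_t r t).fun_div (w.b_t r t) hb
  fin_cases k <;> fin_cases i <;> fin_cases j <;>
    first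
      | exact hasDerivAt_const _ _ | exact h1 | exact h2 | exact h4 | exact h5 | exact h6 | exact h7
      | exact h3.congr_deriv (by simp [Γt])

/-- Hessian of `b` on the base surface. -/
noncomputable def Hrr (r t : ℝ) : ℝ :=
  w.brr r t - w.ar r t / w.a r t * w.br r t + w.a r t * w.at' r t * w.bt r t
noncomputable def Hrt (r t : ℝ) : ℝ := w.brt r t - w.at' r t / w.a r t * w.br r t

noncomputable def R (r t : ℝ) : Fin 3 → Fin 3 → Matrix (Fin 3) (Fin 3) ℝ :=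
  ![![!![0, 0, 0; 0, -(w.att r t / w.a r t), 0; 0, 0, -(w.b r t * w.Hrr r t / w.a r t ^ 2)],
      !![0, w.att r t / w.a r t, 0; 0, 0, 0; 0, 0, -(w.b r t * w.Hrt r t / w.a r t ^ 2)],
      !![0, 0, w.b r t * w.Hrr r t / w.a r t ^ 2; 0, 0, w.b r t * w.Hrt r t / w.a r t ^ 2;
        0, 0, 0]],
    ![!![0, 0, 0; w.a r t * w.att r t, 0, 0; 0, 0, -(w.b r t * w.Hrt r t)],
      !![-(w.a r t * w.att r t), 0, 0; 0, 0, 0; 0, 0, -(w.b r t * w.btt r t)],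
      !![0, 0, w.b r t * w.Hrt r t; 0, 0, w.b r t * w.btt r t; 0, 0, 0]],
    ![!![0, 0, 0; 0, 0, 0; w.Hrr r t / w.b r t, w.Hrt r t / w.b r t, 0],
      !![0, 0, 0; 0, 0, 0; w.Hrt r t / w.b r t, w.btt r t / w.b r t, 0],
      !![-(w.Hrr r t / w.b r t), -(w.Hrt r t / w.b r t), 0;
        -(w.Hrt r t / w.b r t), -(w.btt r t / w.b r t), 0; 0, 0, 0]]]

lemma g000 (r t : ℝ) : w.Γ r t 0 0 0 = w.ar r t / w.a r t := rfl
lemma g001 (r t : ℝ) : w.Γ r t 0 0 1 = w.at' r t / w.a r t := rfl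
lemma g002 (r t : ℝ) : w.Γ r t 0 0 2 = 0 := rfl
lemma g010 (r t : ℝ) : w.Γ r t 0 1 0 = w.at' r t / w.a r t := rfl
lemma g011 (r t : ℝ) : w.Γ r t 0 1 1 = 0 := rfl
lemma g012 (r t : ℝ) : w.Γ r t 0 1 2 = 0 := rfl
lemma g020 (r t : ℝ) : w.Γ r t 0 2 0 = 0 := rfl
lemma g021 (r t : ℝ) : w.Γ r t 0 2 1 = 0 := rfl
lemma g022 (r t : ℝ) : w.Γ r t 0 2 2 = -(w.b r t * w.br r t / w.a r t ^ 2) := rfl
lemma g100 (r t : ℝ) : w.Γ r t 1 0 0 = -(w.a r t * w.at' r t) := rfl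
lemma g101 (r t : ℝ) : w.Γ r t 1 0 1 = 0 := rfl
lemma g102 (r t : ℝ) : w.Γ r t 1 0 2 = 0 := rfl
lemma g110 (r t : ℝ) : w.Γ r t 1 1 0 = 0 := rfl
lemma g111 (r t : ℝ) : w.Γ r t 1 1 1 = 0 := rfl
lemma g112 (r t : ℝ) : w.Γ r t 1 1 2 = 0 := rfl
lemma g120 (r t : ℝ) : w.Γ r t 1 2 0 = 0 := rfl
lemma g121 (r t : ℝ) : w.Γ r t 1 2 1 = 0 := rfl
lemma g122 (r t : ℝ) : w.Γ r t 1 2 2 = -(w.b r t * w.bt r t) := rfl
lemma g200 (r t : ℝ) : w.Γ r t 2 0 0 = 0 := rfl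
lemma g201 (r t : ℝ) : w.Γ r t 2 0 1 = 0 := rfl
lemma g202 (r t : ℝ) : w.Γ r t 2 0 2 = w.br r t / w.b r t := rfl
lemma g210 (r t : ℝ) : w.Γ r t 2 1 0 = 0 := rfl
lemma g211 (r t : ℝ) : w.Γ r t 2 1 1 = 0 := rfl
lemma g212 (r t : ℝ) : w.Γ r t 2 1 2 = w.bt r t / w.b r t := rfl
lemma g220 (r t : ℝ) : w.Γ r t 2 2 0 = w.br r t / w.b r t := rfl
lemma g221 (r t : ℝ) : w.Γ r t 2 2 1 = w.bt r t / w.b r t := rfl
lemma g222 (r t : ℝ) : w.Γ r t 2 2 2 = 0 := rfl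
lemma gr000 (r t : ℝ) : w.Γr r t 0 0 0 = (w.arr r t * w.a r t - w.ar r t * w.ar r t) / w.a r t ^ 2 := rfl
lemma gr001 (r t : ℝ) : w.Γr r t 0 0 1 = (w.art r t * w.a r t - w.at' r t * w.ar r t) / w.a r t ^ 2 := rfl
lemma gr002 (r t : ℝ) : w.Γr r t 0 0 2 = 0 := rfl
lemma gr010 (r t : ℝ) : w.Γr r t 0 1 0 = (w.art r t * w.a r t - w.at' r t * w.ar r t) / w.a r t ^ 2 := rfl
lemma gr011 (r t : ℝ) : w.Γr r t 0 1 1 = 0 := rfl
lemma gr012 (r t : ℝ) : w.Γr r t 0 1 2 = 0 := rfl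
lemma gr020 (r t : ℝ) : w.Γr r t 0 2 0 = 0 := rfl
lemma gr021 (r t : ℝ) : w.Γr r t 0 2 1 = 0 := rfl
lemma gr022 (r t : ℝ) : w.Γr r t 0 2 2 = -(((w.br r t * w.br r t + w.b r t * w.brr r t) * w.a r t ^ 2 -
    w.b r t * w.br r t * (2 * w.a r t * w.ar r t)) / (w.a r t ^ 2) ^ 2) := rfl
lemma gr100 (r t : ℝ) : w.Γr r t 1 0 0 = -(w.ar r t * w.at' r t + w.a r t * w.art r t) := rfl
lemma gr101 (r t : ℝ) : w.Γr r t 1 0 1 = 0 := rfl
lemma gr102 (r t : ℝ) : w.Γr r t 1 0 2 = 0 := rfl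
lemma gr110 (r t : ℝ) : w.Γr r t 1 1 0 = 0 := rfl
lemma gr111 (r t : ℝ) : w.Γr r t 1 1 1 = 0 := rfl
lemma gr112 (r t : ℝ) : w.Γr r t 1 1 2 = 0 := rfl
lemma gr120 (r t : ℝ) : w.Γr r t 1 2 0 = 0 := rfl
lemma gr121 (r t : ℝ) : w.Γr r t 1 2 1 = 0 := rfl
lemma gr122 (r t : ℝ) : w.Γr r t 1 2 2 = -(w.br r t * w.bt r t + w.b r t * w.brt r t) := rfl
lemma gr200 (r t : ℝ) : w.Γr r t 2 0 0 = 0 := rfl
lemma gr201 (r t : ℝ) : w.Γr r t 2 0 1 = 0 := rfl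
lemma gr202 (r t : ℝ) : w.Γr r t 2 0 2 = (w.brr r t * w.b r t - w.br r t * w.br r t) / w.b r t ^ 2 := rfl
lemma gr210 (r t : ℝ) : w.Γr r t 2 1 0 = 0 := rfl
lemma gr211 (r t : ℝ) : w.Γr r t 2 1 1 = 0 := rfl
lemma gr212 (r t : ℝ) : w.Γr r t 2 1 2 = (w.brt r t * w.b r t - w.bt r t * w.br r t) / w.b r t ^ 2 := rfl
lemma gr220 (r t : ℝ) : w.Γr r t 2 2 0 = (w.brr r t * w.b r t - w.br r t * w.br r t) / w.b r t ^ 2 := rfl
lemma gr221 (r t : ℝ) : w.Γr r t 2 2 1 = (w.brt r t * w.b r t - w.bt r t * w.br r t) / w.b r t ^ 2 := rfl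
lemma gr222 (r t : ℝ) : w.Γr r t 2 2 2 = 0 := rfl
lemma gt000 (r t : ℝ) : w.Γt r t 0 0 0 = (w.art r t * w.a r t - w.ar r t * w.at' r t) / w.a r t ^ 2 := rfl
lemma gt001 (r t : ℝ) : w.Γt r t 0 0 1 = (w.att r t * w.a r t - w.at' r t * w.at' r t) / w.a r t ^ 2 := rfl
lemma gt002 (r t : ℝ) : w.Γt r t 0 0 2 = 0 := rfl
lemma gt010 (r t : ℝ) : w.Γt r t 0 1 0 = (w.att r t * w.a r t - w.at' r t * w.at' r t) / w.a r t ^ 2 := rfl
lemma gt011 (r t : ℝ) : w.Γt r t 0 1 1 = 0 := rfl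
lemma gt012 (r t : ℝ) : w.Γt r t 0 1 2 = 0 := rfl
lemma gt020 (r t : ℝ) : w.Γt r t 0 2 0 = 0 := rfl
lemma gt021 (r t : ℝ) : w.Γt r t 0 2 1 = 0 := rfl
lemma gt022 (r t : ℝ) : w.Γt r t 0 2 2 = -(((w.bt r t * w.br r t + w.b r t * w.brt r t) * w.a r t ^ 2 -
    w.b r t * w.br r t * (2 * w.a r t * w.at' r t)) / (w.a r t ^ 2) ^ 2) := rfl
lemma gt100 (r t : ℝ) : w.Γt r t 1 0 0 = -(w.at' r t * w.at' r t + w.a r t * w.att r t) := rfl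
lemma gt101 (r t : ℝ) : w.Γt r t 1 0 1 = 0 := rfl
lemma gt102 (r t : ℝ) : w.Γt r t 1 0 2 = 0 := rfl
lemma gt110 (r t : ℝ) : w.Γt r t 1 1 0 = 0 := rfl
lemma gt111 (r t : ℝ) : w.Γt r t 1 1 1 = 0 := rfl
lemma gt112 (r t : ℝ) : w.Γt r t 1 1 2 = 0 := rfl
lemma gt120 (r t : ℝ) : w.Γt r t 1 2 0 = 0 := rfl
lemma gt121 (r t : ℝ) : w.Γt r t 1 2 1 = 0 := rfl
lemma gt122 (r t : ℝ) : w.Γt r t 1 2 2 = -(w.bt r t * w.bt r t + w.b r t * w.btt r t) := rfl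
lemma gt200 (r t : ℝ) : w.Γt r t 2 0 0 = 0 := rfl
lemma gt201 (r t : ℝ) : w.Γt r t 2 0 1 = 0 := rfl
lemma gt202 (r t : ℝ) : w.Γt r t 2 0 2 = (w.brt r t * w.b r t - w.br r t * w.bt r t) / w.b r t ^ 2 := rfl
lemma gt210 (r t : ℝ) : w.Γt r t 2 1 0 = 0 := rfl
lemma gt211 (r t : ℝ) : w.Γt r t 2 1 1 = 0 := rfl
lemma gt212 (r t : ℝ) : w.Γt r t 2 1 2 = (w.btt r t * w.b r t - w.bt r t * w.bt r t) / w.b r t ^ 2 := rfl
lemma gt220 (r t : ℝ) : w.Γt r t 2 2 0 = (w.brt r t * w.b r t - w.br r t * w.bt r t) / w.b r t ^ 2 := rfl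
lemma gt221 (r t : ℝ) : w.Γt r t 2 2 1 = (w.btt r t * w.b r t - w.bt r t * w.bt r t) / w.b r t ^ 2 := rfl
lemma gt222 (r t : ℝ) : w.Γt r t 2 2 2 = 0 := rfl
lemma r0000 (r t : ℝ) : w.R r t 0 0 0 0 = 0 := rfl
lemma r0001 (r t : ℝ) : w.R r t 0 0 0 1 = 0 := rfl
lemma r0002 (r t : ℝ) : w.R r t 0 0 0 2 = 0 := rfl
lemma r0010 (r t : ℝ) : w.R r t 0 0 1 0 = 0 := rfl
lemma r0011 (r t : ℝ) : w.R r t 0 0 1 1 = -(w.att r t / w.a r t) := rfl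
lemma r0012 (r t : ℝ) : w.R r t 0 0 1 2 = 0 := rfl
lemma r0020 (r t : ℝ) : w.R r t 0 0 2 0 = 0 := rfl
lemma r0021 (r t : ℝ) : w.R r t 0 0 2 1 = 0 := rfl
lemma r0022 (r t : ℝ) : w.R r t 0 0 2 2 = -(w.b r t * w.Hrr r t / w.a r t ^ 2) := rfl
lemma r0100 (r t : ℝ) : w.R r t 0 1 0 0 = 0 := rfl
lemma r0101 (r t : ℝ) : w.R r t 0 1 0 1 = w.att r t / w.a r t := rfl
lemma r0102 (r t : ℝ) : w.R r t 0 1 0 2 = 0 := rfl
lemma r0110 (r t : ℝ) : w.R r t 0 1 1 0 = 0 := rfl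
lemma r0111 (r t : ℝ) : w.R r t 0 1 1 1 = 0 := rfl
lemma r0112 (r t : ℝ) : w.R r t 0 1 1 2 = 0 := rfl
lemma r0120 (r t : ℝ) : w.R r t 0 1 2 0 = 0 := rfl
lemma r0121 (r t : ℝ) : w.R r t 0 1 2 1 = 0 := rfl
lemma r0122 (r t : ℝ) : w.R r t 0 1 2 2 = -(w.b r t * w.Hrt r t / w.a r t ^ 2) := rfl
lemma r0200 (r t : ℝ) : w.R r t 0 2 0 0 = 0 := rfl
lemma r0201 (r t : ℝ) : w.R r t 0 2 0 1 = 0 := rfl
lemma r0202 (r t : ℝ) : w.R r t 0 2 0 2 = w.b r t * w.Hrr r t / w.a r t ^ 2 := rfl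
lemma r0210 (r t : ℝ) : w.R r t 0 2 1 0 = 0 := rfl
lemma r0211 (r t : ℝ) : w.R r t 0 2 1 1 = 0 := rfl
lemma r0212 (r t : ℝ) : w.R r t 0 2 1 2 = w.b r t * w.Hrt r t / w.a r t ^ 2 := rfl
lemma r0220 (r t : ℝ) : w.R r t 0 2 2 0 = 0 := rfl
lemma r0221 (r t : ℝ) : w.R r t 0 2 2 1 = 0 := rfl
lemma r0222 (r t : ℝ) : w.R r t 0 2 2 2 = 0 := rfl
lemma r1000 (r t : ℝ) : w.R r t 1 0 0 0 = 0 := rfl
lemma r1001 (r t : ℝ) : w.R r t 1 0 0 1 = 0 := rfl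
lemma r1002 (r t : ℝ) : w.R r t 1 0 0 2 = 0 := rfl
lemma r1010 (r t : ℝ) : w.R r t 1 0 1 0 = w.a r t * w.att r t := rfl
lemma r1011 (r t : ℝ) : w.R r t 1 0 1 1 = 0 := rfl
lemma r1012 (r t : ℝ) : w.R r t 1 0 1 2 = 0 := rfl
lemma r1020 (r t : ℝ) : w.R r t 1 0 2 0 = 0 := rfl
lemma r1021 (r t : ℝ) : w.R r t 1 0 2 1 = 0 := rfl
lemma r1022 (r t : ℝ) : w.R r t 1 0 2 2 = -(w.b r t * w.Hrt r t) := rfl
lemma r1100 (r t : ℝ) : w.R r t 1 1 0 0 = -(w.a r t * w.att r t) := rfl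
lemma r1101 (r t : ℝ) : w.R r t 1 1 0 1 = 0 := rfl
lemma r1102 (r t : ℝ) : w.R r t 1 1 0 2 = 0 := rfl
lemma r1110 (r t : ℝ) : w.R r t 1 1 1 0 = 0 := rfl
lemma r1111 (r t : ℝ) : w.R r t 1 1 1 1 = 0 := rfl
lemma r1112 (r t : ℝ) : w.R r t 1 1 1 2 = 0 := rfl
lemma r1120 (r t : ℝ) : w.R r t 1 1 2 0 = 0 := rfl
lemma r1121 (r t : ℝ) : w.R r t 1 1 2 1 = 0 := rfl
lemma r1122 (r t : ℝ) : w.R r t 1 1 2 2 = -(w.b r t * w.btt r t) := rfl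
lemma r1200 (r t : ℝ) : w.R r t 1 2 0 0 = 0 := rfl
lemma r1201 (r t : ℝ) : w.R r t 1 2 0 1 = 0 := rfl
lemma r1202 (r t : ℝ) : w.R r t 1 2 0 2 = w.b r t * w.Hrt r t := rfl
lemma r1210 (r t : ℝ) : w.R r t 1 2 1 0 = 0 := rfl
lemma r1211 (r t : ℝ) : w.R r t 1 2 1 1 = 0 := rfl
lemma r1212 (r t : ℝ) : w.R r t 1 2 1 2 = w.b r t * w.btt r t := rfl
lemma r1220 (r t : ℝ) : w.R r t 1 2 2 0 = 0 := rfl
lemma r1221 (r t : ℝ) : w.R r t 1 2 2 1 = 0 := rfl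
lemma r1222 (r t : ℝ) : w.R r t 1 2 2 2 = 0 := rfl
lemma r2000 (r t : ℝ) : w.R r t 2 0 0 0 = 0 := rfl
lemma r2001 (r t : ℝ) : w.R r t 2 0 0 1 = 0 := rfl
lemma r2002 (r t : ℝ) : w.R r t 2 0 0 2 = 0 := rfl
lemma r2010 (r t : ℝ) : w.R r t 2 0 1 0 = 0 := rfl
lemma r2011 (r t : ℝ) : w.R r t 2 0 1 1 = 0 := rfl
lemma r2012 (r t : ℝ) : w.R r t 2 0 1 2 = 0 := rfl
lemma r2020 (r t : ℝ) : w.R r t 2 0 2 0 = w.Hrr r t / w.b r t := rfl
lemma r2021 (r t : ℝ) : w.R r t 2 0 2 1 = w.Hrt r t / w.b r t := rfl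
lemma r2022 (r t : ℝ) : w.R r t 2 0 2 2 = 0 := rfl
lemma r2100 (r t : ℝ) : w.R r t 2 1 0 0 = 0 := rfl
lemma r2101 (r t : ℝ) : w.R r t 2 1 0 1 = 0 := rfl
lemma r2102 (r t : ℝ) : w.R r t 2 1 0 2 = 0 := rfl
lemma r2110 (r t : ℝ) : w.R r t 2 1 1 0 = 0 := rfl
lemma r2111 (r t : ℝ) : w.R r t 2 1 1 1 = 0 := rfl
lemma r2112 (r t : ℝ) : w.R r t 2 1 1 2 = 0 := rfl
lemma r2120 (r t : ℝ) : w.R r t 2 1 2 0 = w.Hrt r t / w.b r t := rfl
lemma r2121 (r t : ℝ) : w.R r t 2 1 2 1 = w.btt r t / w.b r t := rfl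
lemma r2122 (r t : ℝ) : w.R r t 2 1 2 2 = 0 := rfl
lemma r2200 (r t : ℝ) : w.R r t 2 2 0 0 = -(w.Hrr r t / w.b r t) := rfl
lemma r2201 (r t : ℝ) : w.R r t 2 2 0 1 = -(w.Hrt r t / w.b r t) := rfl
lemma r2202 (r t : ℝ) : w.R r t 2 2 0 2 = 0 := rfl
lemma r2210 (r t : ℝ) : w.R r t 2 2 1 0 = -(w.Hrt r t / w.b r t) := rfl
lemma r2211 (r t : ℝ) : w.R r t 2 2 1 1 = -(w.btt r t / w.b r t) := rfl
lemma r2212 (r t : ℝ) : w.R r t 2 2 1 2 = 0 := rfl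
lemma r2220 (r t : ℝ) : w.R r t 2 2 2 0 = 0 := rfl
lemma r2221 (r t : ℝ) : w.R r t 2 2 2 1 = 0 := rfl
lemma r2222 (r t : ℝ) : w.R r t 2 2 2 2 = 0 := rfl



lemma riem_aux (l i j k : Fin 3) (y : Fin 3 → ℝ) : riem w.G l i j k y =
    ![w.Γr (y 0) (y 1) l j k, w.Γt (y 0) (y 1) l j k, 0] i -
      ![w.Γr (y 0) (y 1) l i k, w.Γt (y 0) (y 1) l i k, 0] j +
      (w.Γ (y 0) (y 1) l i 0 * w.Γ (y 0) (y 1) 0 j k - w.Γ (y 0) (y 1) l j 0 * w.Γ (y 0) (y 1) 0 i k +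
      (w.Γ (y 0) (y 1) l i 1 * w.Γ (y 0) (y 1) 1 j k - w.Γ (y 0) (y 1) l j 1 * w.Γ (y 0) (y 1) 1 i k) +
      (w.Γ (y 0) (y 1) l i 2 * w.Γ (y 0) (y 1) 2 j k -
        w.Γ (y 0) (y 1) l j 2 * w.Γ (y 0) (y 1) 2 i k)) := by
  simp only [riem, chris_eq, Fin.sum_univ_three]
  rw [pd3 (fun r t => w.Γ r t l j k) _ _ y (w.Γ_r _ _ l j k) (w.Γ_t _ _ l j k),
    pd3 (fun r t => w.Γ r t l i k) _ _ y (w.Γ_r _ _ l i k) (w.Γ_t _ _ l i k)]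

lemma forall3 {P : Fin 3 → Prop} (h0 : P 0) (h1 : P 1) (h2 : P 2) (i : Fin 3) : P i := by
  fin_cases i <;> assumption

lemma riem_eq (l i j k : Fin 3) (y : Fin 3 → ℝ) :
    riem w.G l i j k y = w.R (y 0) (y 1) l i j k := by
  have ha := (w.apos (y 0) (y 1)).ne'
  have hb := (w.bpos (y 0) (y 1)).ne'
  rw [riem_aux]
  induction l using forall3 <;> induction i using forall3 <;> induction j using forall3 <;>
    induction k using forall3 <;> (simp only [r0000, r0001, r0002, r0010, r0011, r0012, r0020, r0021, r0022, r0100, r0101,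
      r0102, r0110, r0111, r0112, r0120, r0121, r0122, r0200, r0201, r0202, r0210, r0211,
      r0212, r0220, r0221, r0222, r1000, r1001, r1002, r1010, r1011, r1012, r1020, r1021,
      r1022, r1100, r1101, r1102, r1110, r1111, r1112, r1120, r1121, r1122, r1200, r1201,
      r1202, r1210, r1211, r1212, r1220, r1221, r1222, r2000, r2001, r2002, r2010, r2011,
      r2012, r2020, r2021, r2022, r2100, r2101, r2102, r2110, r2111, r2112, r2120, r2121,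
      r2122, r2200, r2201, r2202, r2210, r2211, r2212, r2220, r2221, r2222]) <;> (simp only [g000, g001, g002, g010, g011, g012, g020, g021, g022, g100, g101, g102, g110,
      g111, g112, g120, g121, g122, g200, g201, g202, g210, g211, g212, g220, g221, g222,
      gr000, gr001, gr002, gr010, gr011, gr012, gr020, gr021, gr022, gr100, gr101, gr102,
      gr110, gr111, gr112, gr120, gr121, gr122, gr200, gr201, gr202, gr210, gr211, gr212,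
      gr220, gr221, gr222, gt000, gt001, gt002, gt010, gt011, gt012, gt020, gt021, gt022,
      gt100, gt101, gt102, gt110, gt111, gt112, gt120, gt121, gt122, gt200, gt201, gt202,
      gt210, gt211, gt212, gt220, gt221, gt222, v30, v31, v32]) <;>
    first | ring1 | (simp only [Hrr, Hrt]; field_simp; ring1) | (field_simp; ring1)

lemma secNum_eq (y X Y : Fin 3 → ℝ) : secNum w.G y X Y =
    -(w.a (y 0) (y 1) * w.att (y 0) (y 1) * (X 0 * Y 1 - X 1 * Y 0) ^ 2) -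
      w.b (y 0) (y 1) * (w.Hrr (y 0) (y 1) * (X 0 * Y 2 - X 2 * Y 0) ^ 2 +
        2 * w.Hrt (y 0) (y 1) * (X 0 * Y 2 - X 2 * Y 0) * (X 1 * Y 2 - X 2 * Y 1) +
        w.btt (y 0) (y 1) * (X 1 * Y 2 - X 2 * Y 1) ^ 2) := by
  have ha := (w.apos (y 0) (y 1)).ne'
  have hb := (w.bpos (y 0) (y 1)).ne'
  simp only [secNum, riem_eq, Fin.sum_univ_three]
  (simp only [r0000, r0001, r0002, r0010, r0011, r0012, r0020, r0021, r0022, r0100, r0101,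
      r0102, r0110, r0111, r0112, r0120, r0121, r0122, r0200, r0201, r0202, r0210, r0211,
      r0212, r0220, r0221, r0222, r1000, r1001, r1002, r1010, r1011, r1012, r1020, r1021,
      r1022, r1100, r1101, r1102, r1110, r1111, r1112, r1120, r1121, r1122, r1200, r1201,
      r1202, r1210, r1211, r1212, r1220, r1221, r1222, r2000, r2001, r2002, r2010, r2011,
      r2012, r2020, r2021, r2022, r2100, r2101, r2102, r2110, r2111, r2112, r2120, r2121,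
      r2122, r2200, r2201, r2202, r2210, r2211, r2212, r2220, r2221, r2222])
  simp only [G, Gf, Matrix.of_apply, v30, v31, v32, mul_zero, zero_mul, add_zero, zero_add]
  field_simp
  ring

lemma secNum_nonpos (h1 : ∀ r t, 0 ≤ w.att r t) (h2 : ∀ r t, 0 < w.btt r t)
    (h3 : ∀ r t, w.Hrt r t ^ 2 ≤ w.Hrr r t * w.btt r t) (y X Y : Fin 3 → ℝ) :
    secNum w.G y X Y ≤ 0 := by
  rw [secNum_eq]
  have ha := w.apos (y 0) (y 1)
  have hb := w.bpos (y 0) (y 1)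
  have e1 := h1 (y 0) (y 1)
  have e2 := h2 (y 0) (y 1)
  have e3 := h3 (y 0) (y 1)
  generalize X 0 * Y 2 - X 2 * Y 0 = p at *
  generalize X 1 * Y 2 - X 2 * Y 1 = q at *
  have h4 : 0 ≤ w.Hrr (y 0) (y 1) * p ^ 2 + 2 * w.Hrt (y 0) (y 1) * p * q +
      w.btt (y 0) (y 1) * q ^ 2 := by
    by_contra hc
    push Not at hc
    nlinarith [sq_nonneg (w.Hrt (y 0) (y 1) * p + w.btt (y 0) (y 1) * q),
      mul_nonneg (sub_nonneg.2 e3) (sq_nonneg p), mul_pos e2 (neg_pos.2 hc)]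
  have h5 := mul_nonneg hb.le h4
  have h6 := mul_nonneg (mul_nonneg ha.le e1) (sq_nonneg (X 0 * Y 1 - X 1 * Y 0))
  linarith

end Warp
end Pool.Agent.H58.Riem
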