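import Pool.Agent.H58.Riem2

/-! The surface `t = 0` in the metric `a² dr² + dt² + b² dx²` with `a(r,0) = 1`. -/

namespace Pool.Agent.H58.Riem
open Matrix Filter Topology Set
open scoped ContDiff

lemma v20 {α : Type} (a b : α) : ![a, b] 0 = a := rfl
lemma v21 {α : Type} (a b : α) : ![a, b] 1 = b := rfl

lemma forall2 {P : Fin 2 → Prop} (h0 : P 0) (h1 : P 1) (i : Fin 2) : P i := by
  fin_cases i <;> assumption

lemma pd20 {f : ℝ → ℝ} {f' : ℝ} {y : Fin 2 → ℝ} (h : HasDerivAt f f' (y 0)) :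
    pd (fun y => f (y 0)) 0 y = f' := by
  simpa [pd, Function.update] using h.deriv

lemma pd21 (f : ℝ → ℝ) (y : Fin 2 → ℝ) : pd (fun y => f (y 0)) 1 y = 0 := by
  simp [pd, Function.update]

lemma pdc {n : ℕ} (c : ℝ) (i : Fin n) (y : Fin n → ℝ) : pd (fun _ => c) i y = 0 := by
  simp [pd]

/-- the embedding of the plane `t = 0`. -/
def emb (y : Fin 2 → ℝ) : Fin 3 → ℝ := ![y 0, 0, y 1]

lemma dmap_emb0 : dmap emb 0 = fun _ => ![1, 0, 0] := by
  funext y k
  induction k using Warp.forall3 <;> simp [dmap, emb, pd, Function.update]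

lemma dmap_emb1 : dmap emb 1 = fun _ => ![0, 0, 1] := by
  funext y k
  induction k using Warp.forall3 <;> simp [dmap, emb, pd, Function.update]

namespace Warp
variable (w : Warp)

lemma pull_eq (h1 : ∀ r, w.a r 0 = 1) :
    pull w.G emb = fun y => !![1, 0; 0, w.b (y 0) 0 ^ 2] := by
  funext y
  ext i j
  induction i using forall2 <;> induction j using forall2 <;>
    simp [pull, dmap_emb0, dmap_emb1, Fin.sum_univ_three, G, Gf, emb, h1]

lemma ginv (y : Fin 2 → ℝ) : (!![1, 0; 0, w.b (y 0) 0 ^ 2] : Matrix (Fin 2) (Fin 2) ℝ)⁻¹ =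
    !![1, 0; 0, 1 / w.b (y 0) 0 ^ 2] := by
  have hb := (w.bpos (y 0) 0).ne'
  refine Matrix.inv_eq_left_inv ?_
  ext i j
  fin_cases i <;> fin_cases j <;> simp [Matrix.mul_apply, Fin.sum_univ_two, hb]

lemma chris2 (k i j : Fin 2) (y : Fin 2 → ℝ) :
    chris (fun y : Fin 2 → ℝ => !![1, 0; 0, w.b (y 0) 0 ^ 2]) k i j y =
      ![!![0, 0; 0, -(w.b (y 0) 0 * w.br (y 0) 0)],
        !![0, w.br (y 0) 0 / w.b (y 0) 0; w.br (y 0) 0 / w.b (y 0) 0, 0]] k i j := by
  have hb := (w.bpos (y 0) 0).ne'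
  have h0 : pd (fun y : Fin 2 → ℝ => w.b (y 0) 0 ^ 2) 0 y = 2 * w.b (y 0) 0 * w.br (y 0) 0 :=
    pd20 (f := fun r => w.b r 0 ^ 2) (by simpa using (w.b_r (y 0) 0).fun_pow 2)
  have h1 : pd (fun y : Fin 2 → ℝ => w.b (y 0) 0 ^ 2) 1 y = 0 := pd21 (fun r => w.b r 0 ^ 2) y
  simp only [chris, ginv, Fin.sum_univ_two]
  induction k using forall2 <;> induction i using forall2 <;> induction j using forall2 <;>
    simp only [Matrix.of_apply, v20, v21, pdc, h0, h1] <;> field_simp <;> ring

/-- twice the mean curvature. -/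
noncomputable def T (r : ℝ) : ℝ := -w.at' r 0 - w.bt r 0 / w.b r 0

lemma emb0 (y : Fin 2 → ℝ) : emb y 0 = y 0 := rfl
lemma emb1 (y : Fin 2 → ℝ) : emb y 1 = 0 := rfl

lemma tension_eq (h1 : ∀ r, w.a r 0 = 1) (h2 : ∀ r, w.ar r 0 = 0) :
    tension (pull w.G emb) w.G emb = fun y => ![0, w.T (y 0), 0] := by
  funext y k
  have hb := (w.bpos (y 0) 0).ne'
  simp only [tension, pull_eq w h1, ginv, chris2, cov, chris_eq, Fin.sum_univ_two,
    Fin.sum_univ_three, dmap_emb0, dmap_emb1, pdc, emb0, emb1, Matrix.of_apply, v20, v21, v30, v31,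
    v32, mul_zero, zero_mul, add_zero, zero_add, mul_one, one_mul]
  induction k using forall3 <;> (simp only [g000, g001, g002, g010, g011, g012, g020, g021, g022, g100, g101, g102, g110,
      g111, g112, g120, g121, g122, g200, g201, g202, g210, g211, g212, g220, g221, g222,
      gr000, gr001, gr002, gr010, gr011, gr012, gr020, gr021, gr022, gr100, gr101, gr102,
      gr110, gr111, gr112, gr120, gr121, gr122, gr200, gr201, gr202, gr210, gr211, gr212,
      gr220, gr221, gr222, gt000, gt001, gt002, gt010, gt011, gt012, gt020, gt021, gt022,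
      gt100, gt101, gt102, gt110, gt111, gt112, gt120, gt121, gt122, gt200, gt201, gt202,
      gt210, gt211, gt212, gt220, gt221, gt222, v30, v31, v32]) <;> (try simp only [h1, h2, T]) <;> field_simp <;> ring

lemma cov0 (h1 : ∀ r, w.a r 0 = 1) {T1 : ℝ → ℝ} (hT : ∀ r, HasDerivAt w.T (T1 r) r) :
    cov w.G emb (fun y => ![0, w.T (y 0), 0]) 0 =
      fun y => ![w.at' (y 0) 0 * w.T (y 0), T1 (y 0), 0] := by
  funext y k
  simp only [cov, chris_eq, Fin.sum_univ_three, dmap_emb0, emb0, emb1, v30, v31,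
    v32, mul_zero, zero_mul, add_zero, zero_add, mul_one]
  induction k using forall3 <;> (simp only [g000, g001, g002, g010, g011, g012, g020, g021, g022, g100, g101, g102, g110,
      g111, g112, g120, g121, g122, g200, g201, g202, g210, g211, g212, g220, g221, g222,
      gr000, gr001, gr002, gr010, gr011, gr012, gr020, gr021, gr022, gr100, gr101, gr102,
      gr110, gr111, gr112, gr120, gr121, gr122, gr200, gr201, gr202, gr210, gr211, gr212,
      gr220, gr221, gr222, gt000, gt001, gt002, gt010, gt011, gt012, gt020, gt021, gt022,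
      gt100, gt101, gt102, gt110, gt111, gt112, gt120, gt121, gt122, gt200, gt201, gt202,
      gt210, gt211, gt212, gt220, gt221, gt222, v30, v31, v32]) <;> simp only [h1, pdc, pd20 (hT _)] <;> ring

lemma cov1 : cov w.G emb (fun y => ![0, w.T (y 0), 0]) 1 =
      fun y => ![0, 0, w.bt (y 0) 0 / w.b (y 0) 0 * w.T (y 0)] := by
  funext y k
  simp only [cov, chris_eq, Fin.sum_univ_three, dmap_emb1, emb0, emb1, v30, v31,
    v32, mul_zero, zero_mul, add_zero, zero_add, mul_one]
  induction k using forall3 <;> (simp only [g000, g001, g002, g010, g011, g012, g020, g021, g022, g100, g101, g102, g110,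
      g111, g112, g120, g121, g122, g200, g201, g202, g210, g211, g212, g220, g221, g222,
      gr000, gr001, gr002, gr010, gr011, gr012, gr020, gr021, gr022, gr100, gr101, gr102,
      gr110, gr111, gr112, gr120, gr121, gr122, gr200, gr201, gr202, gr210, gr211, gr212,
      gr220, gr221, gr222, gt000, gt001, gt002, gt010, gt011, gt012, gt020, gt021, gt022,
      gt100, gt101, gt102, gt110, gt111, gt112, gt120, gt121, gt122, gt200, gt201, gt202,
      gt210, gt211, gt212, gt220, gt221, gt222, v30, v31, v32]) <;> simp only [pdc, pd21] <;> ring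

lemma bitension_eq (h1 : ∀ r, w.a r 0 = 1) (h2 : ∀ r, w.ar r 0 = 0) {T1 T2 : ℝ → ℝ}
    (hT : ∀ r, HasDerivAt w.T (T1 r) r) (hT1 : ∀ r, HasDerivAt T1 (T2 r) r) (y : Fin 2 → ℝ) :
    bitension (pull w.G emb) w.G emb y =
      ![w.art (y 0) 0 * w.T (y 0) + 2 * w.at' (y 0) 0 * T1 (y 0)
          + w.br (y 0) 0 / w.b (y 0) 0 * (w.at' (y 0) 0 - w.bt (y 0) 0 / w.b (y 0) 0) * w.T (y 0)
          - w.T (y 0) * w.Hrt (y 0) 0 / w.b (y 0) 0,
        T2 (y 0) + w.br (y 0) 0 / w.b (y 0) 0 * T1 (y 0) - (w.at' (y 0) 0 ^ 2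
          + (w.bt (y 0) 0 / w.b (y 0) 0) ^ 2 + w.att (y 0) 0 + w.btt (y 0) 0 / w.b (y 0) 0)
            * w.T (y 0), 0] := by
  funext k
  have hb := (w.bpos (y 0) 0).ne'
  have e0 : pd (fun y : Fin 2 → ℝ => w.at' (y 0) 0 * w.T (y 0)) 0 y =
      w.art (y 0) 0 * w.T (y 0) + w.at' (y 0) 0 * T1 (y 0) :=
    pd20 (f := fun r => w.at' r 0 * w.T r) ((w.at_r (y 0) 0).fun_mul (hT _))
  have e1 : pd (fun y : Fin 2 → ℝ => w.bt (y 0) 0 / w.b (y 0) 0 * w.T (y 0)) 1 y = 0 :=
    pd21 (fun r => w.bt r 0 / w.b r 0 * w.T r) y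
  simp only [bitension, tension_eq w h1 h2, Fin.sum_univ_two, cov0 w h1 hT, cov1]
  simp only [pull_eq w h1, ginv, chris2, cov, chris_eq, riem_eq,
    Fin.sum_univ_three, dmap_emb0, dmap_emb1, emb0, emb1, Matrix.of_apply, v20, v21, v30, v31,
    v32, mul_zero, zero_mul, add_zero, zero_add, mul_one, one_mul]
  induction k using forall3 <;> (simp only [g000, g001, g002, g010, g011, g012, g020, g021, g022, g100, g101, g102, g110,
      g111, g112, g120, g121, g122, g200, g201, g202, g210, g211, g212, g220, g221, g222,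
      gr000, gr001, gr002, gr010, gr011, gr012, gr020, gr021, gr022, gr100, gr101, gr102,
      gr110, gr111, gr112, gr120, gr121, gr122, gr200, gr201, gr202, gr210, gr211, gr212,
      gr220, gr221, gr222, gt000, gt001, gt002, gt010, gt011, gt012, gt020, gt021, gt022,
      gt100, gt101, gt102, gt110, gt111, gt112, gt120, gt121, gt122, gt200, gt201, gt202,
      gt210, gt211, gt212, gt220, gt221, gt222, v30, v31, v32]) <;> (simp only [r0000, r0001, r0002, r0010, r0011, r0012, r0020, r0021, r0022, r0100, r0101,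
      r0102, r0110, r0111, r0112, r0120, r0121, r0122, r0200, r0201, r0202, r0210, r0211,
      r0212, r0220, r0221, r0222, r1000, r1001, r1002, r1010, r1011, r1012, r1020, r1021,
      r1022, r1100, r1101, r1102, r1110, r1111, r1112, r1120, r1121, r1122, r1200, r1201,
      r1202, r1210, r1211, r1212, r1220, r1221, r1222, r2000, r2001, r2002, r2010, r2011,
      r2012, r2020, r2021, r2022, r2100, r2101, r2102, r2110, r2111, r2112, r2120, r2121,
      r2122, r2200, r2201, r2202, r2210, r2211, r2212, r2220, r2221, r2222]) <;>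
    simp only [h1, h2, pdc, e0, e1, pd20 (hT1 _)] <;> field_simp <;> ring

end Warp
end Pool.Agent.H58.Riem
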