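import Mathlib

/-! Riemannian geometry on `ℝⁿ` in coordinates. -/

namespace Pool.Agent.H58.Riem
open Matrix Filter Topology
open scoped ContDiff

/-- A field of coefficient matrices on `ℝⁿ`. -/
abbrev Met (n : ℕ) := (Fin n → ℝ) → Matrix (Fin n) (Fin n) ℝ

variable {m n : ℕ}

/-- The `i`-th partial derivative. -/
noncomputable def pd (u : (Fin n → ℝ) → ℝ) (i : Fin n) (y : Fin n → ℝ) : ℝ :=
  deriv (fun s => u (Function.update y i s)) (y i)

/-- A smooth Riemannian metric on `ℝⁿ`. -/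
def IsMetric (G : Met n) : Prop := (∀ i j, ContDiff ℝ ∞ (G · i j)) ∧ ∀ y, (G y).PosDef

/-- Christoffel symbols: `∇_{∂ i} ∂ j = ∑ k, chris G k i j ∂ k`. -/
noncomputable def chris (G : Met n) (k i j : Fin n) (y : Fin n → ℝ) : ℝ :=
  (∑ l, (G y)⁻¹ k l * (pd (G · j l) i y + pd (G · i l) j y - pd (G · i j) l y)) / 2

/-- Curvature `R(X,Y) = [∇_X,∇_Y] - ∇_[X,Y]`: `R(∂ i, ∂ j) ∂ k = ∑ l, riem G l i j k ∂ l`. -/
noncomputable def riem (G : Met n) (l i j k : Fin n) (y : Fin n → ℝ) : ℝ :=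
  pd (chris G l j k) i y - pd (chris G l i k) j y +
    ∑ p, (chris G l i p y * chris G p j k y - chris G l j p y * chris G p i k y)

/-- `G(R(X,Y)Y, X)` at `y`: the numerator of the sectional curvature of the plane of `X, Y`. -/
noncomputable def secNum (G : Met n) (y X Y : Fin n → ℝ) : ℝ :=
  ∑ p, ∑ l, ∑ i, ∑ j, ∑ k, G y p l * riem G l i j k y * X i * Y j * Y k * X p

/-- The length of a path on `[0,1]`. -/
noncomputable def len (G : Met n) (γ : ℝ → Fin n → ℝ) : ℝ :=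
  ∫ s in (0 : ℝ)..1, √(deriv γ s ⬝ᵥ G (γ s) *ᵥ deriv γ s)

/-- The Riemannian distance from `p` to `q` is less than `ε`. -/
def Near (G : Met n) (p q : Fin n → ℝ) (ε : ℝ) : Prop :=
  ∃ γ : ℝ → Fin n → ℝ, ContDiff ℝ 1 γ ∧ γ 0 = p ∧ γ 1 = q ∧ len G γ < ε

/-- Every Cauchy sequence for the Riemannian distance converges. -/
def IsCompleteMetric (G : Met n) : Prop :=
  ∀ u : ℕ → Fin n → ℝ, (∀ ε > 0, ∃ N, ∀ i ≥ N, ∀ j ≥ N, Near G (u i) (u j) ε) →
    ∃ p, Tendsto u atTop (𝓝 p)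

/-- `dφ(∂ a)`. -/
noncomputable def dmap (φ : (Fin m → ℝ) → Fin n → ℝ) (a : Fin m) (y : Fin m → ℝ) (k : Fin n) : ℝ :=
  pd (φ · k) a y

/-- The induced tensor `φ^* G`. -/
noncomputable def pull (G : Met n) (φ : (Fin m → ℝ) → Fin n → ℝ) : Met m := fun y =>
  Matrix.of fun a b => ∑ i, ∑ j, G (φ y) i j * dmap φ a y i * dmap φ b y j

/-- The pull-back connection `∇^φ_{∂ a} V` on vector fields `V` along `φ`. -/
noncomputable def cov (G : Met n) (φ V : (Fin m → ℝ) → Fin n → ℝ) (a : Fin m) (y : Fin m → ℝ)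
    (k : Fin n) : ℝ :=
  pd (V · k) a y + ∑ i, ∑ j, chris G k i j (φ y) * dmap φ a y i * V y j

/-- The tension field `trace_g ∇dφ` of `φ : (ℝᵐ, g) → (ℝⁿ, G)`. -/
noncomputable def tension (g : Met m) (G : Met n) (φ : (Fin m → ℝ) → Fin n → ℝ) (y : Fin m → ℝ)
    (k : Fin n) : ℝ :=
  ∑ a, ∑ b, (g y)⁻¹ a b * (cov G φ (dmap φ b) a y k - ∑ c, chris g c a b y * dmap φ c y k)

/-- The bitension field
`trace_g (∇^φ ∇^φ - ∇^φ_{∇^M}) τ - trace_g R(dφ(·), τ) dφ(·)` of `φ : (ℝᵐ, g) → (ℝⁿ, G)`. -/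
noncomputable def bitension (g : Met m) (G : Met n) (φ : (Fin m → ℝ) → Fin n → ℝ)
    (y : Fin m → ℝ) (k : Fin n) : ℝ :=
  ∑ a, ∑ b, (g y)⁻¹ a b * (cov G φ (cov G φ (tension g G φ) b) a y k
    - ∑ c, chris g c a b y * cov G φ (tension g G φ) c y k
    - ∑ i, ∑ j, ∑ l, riem G k i j l (φ y) * dmap φ a y i * tension g G φ y j * dmap φ b y l)

end Pool.Agent.H58.Riem
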