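import Pool.Agent.H58.HarmDefs

namespace Pool.Agent.H58.Harm
open Matrix Metric Set Filter Topology
open scoped InnerProductSpace MatrixOrder

variable {m : ℕ}

lemma line {E : Type} [NormedAddCommGroup E] [NormedSpace ℝ E] {u : E → ℝ} {z : E}
    (hu : ContDiffAt ℝ 2 u z) (p : E) {s s1 : ℝ → ℝ} {s2 : ℝ} (h1 : ∀ t, HasDerivAt s (s1 t) t)
    (h2 : HasDerivAt s1 s2 0) (hm : IsLocalMax (fun t : ℝ => u (z + t • p) + s t) 0) :
    fderiv ℝ u z p + s1 0 = 0 ∧ fderiv ℝ (fderiv ℝ u) z p p + s2 ≤ 0 := by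
  have l : ∀ t : ℝ, HasDerivAt (fun t : ℝ => z + t • p) p t := fun t => by
    simpa using ((hasDerivAt_id t).smul_const p).const_add z
  have c : Tendsto (fun t : ℝ => z + t • p) (𝓝 0) (𝓝 z) := by simpa using (l 0).continuousAt.tendsto
  have e1 : ∀ᶠ t : ℝ in 𝓝 0, HasDerivAt (fun t : ℝ => u (z + t • p) + s t)
      (fderiv ℝ u (z + t • p) p + s1 t) t :=
    (c.eventually (hu.eventually (by simp))).mono fun t ht =>
      ((ht.differentiableAt (by simp)).hasFDerivAt.comp_hasDerivAt t (l t)).add (h1 t)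
  have e2 : HasDerivAt (fun t : ℝ => fderiv ℝ u (z + t • p) p + s1 t)
      (fderiv ℝ (fderiv ℝ u) z p p + s2) 0 := by
    have d : HasFDerivAt (fderiv ℝ u) (fderiv ℝ (fderiv ℝ u) z) (z + (0 : ℝ) • p) := by
      simpa using ((hu.fderiv_right (m := 1) (by norm_num)).differentiableAt (by simp)).hasFDerivAt
    simpa using ((d.comp_hasDerivAt 0 (l 0)).clm_apply (hasDerivAt_const 0 p)).fun_add h2
  have d1 := e1.self_of_nhds
  have d0 := hm.hasDerivAt_eq_zero d1
  refine ⟨by simpa using d0, not_lt.1 fun hp => ?_⟩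
  have e3 : deriv (fun t : ℝ => u (z + t • p) + s t) =ᶠ[𝓝 0]
      fun t => fderiv ℝ u (z + t • p) p + s1 t := e1.mono fun t ht => ht.deriv
  have e4 := e3.deriv_eq.trans e2.deriv
  have hn := isLocalMin_of_deriv_deriv_pos (e4 ▸ hp) (d1.deriv.trans d0) d1.continuousAt
  have e5 : (fun t : ℝ => u (z + t • p) + s t) =ᶠ[𝓝 0] fun _ => u (z + (0 : ℝ) • p) + s 0 :=
    (hm.and hn).mono fun t ht => le_antisymm ht.1 ht.2
  rw [e5.deriv.deriv_eq] at e4
  simp at e4
  linarith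

lemma psd {a q : Matrix (Fin m) (Fin m) ℝ} (ha : a.PosSemidef)
    (hq : ∀ p : Fin m → ℝ, ∑ i, ∑ j, p i * p j * q i j ≤ 0) : ∑ i, ∑ j, a i j * q i j ≤ 0 := by
  obtain ⟨B, rfl⟩ := CStarAlgebra.nonneg_iff_eq_star_mul_self.mp ha.nonneg
  simp only [mul_apply, Finset.sum_mul, star_apply, star_trivial]
  rw [Finset.sum_congr rfl fun i _ => Finset.sum_comm, Finset.sum_comm]
  exact Finset.sum_nonpos fun k _ => hq (B k)

lemma expand (p : EuclideanSpace ℝ (Fin m)) : p = ∑ i, p i • EuclideanSpace.single i 1 := by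
  ext i; simp [Pi.single_apply]

lemma atmax {u : EuclideanSpace ℝ (Fin m) → ℝ} {z c : EuclideanSpace ℝ (Fin m)}
    (hu : ContDiffAt ℝ 2 u z) {ε α : ℝ} {a : Matrix (Fin m) (Fin m) ℝ} (ha : a.PosSemidef)
    (b : Fin m → ℝ) (hm : IsLocalMax (fun y => u y + ε * Real.exp (-α * ‖y - c‖ ^ 2)) z) :
    ∑ i, ∑ j, a i j * pd (pd u j) i z + ∑ k, b k * pd u k z ≤
      2 * α * ε * Real.exp (-α * ‖z - c‖ ^ 2) * (∑ i, a i i + ∑ k, b k * (z - c) k -
        2 * α * ∑ i, ∑ j, a i j * ((z - c) i * (z - c) j)) := by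
  obtain ⟨e, he⟩ : ∃ e, e = Real.exp (-α * ‖z - c‖ ^ 2) := ⟨_, rfl⟩
  have key := fun p : EuclideanSpace ℝ (Fin m) => line hu p
    (s := fun t => ε * Real.exp (-α * (‖z - c‖ ^ 2 + 2 * (t * ⟪z - c, p⟫_ℝ) + t ^ 2 * ‖p‖ ^ 2)))
    (s1 := fun t => ε * (Real.exp (-α * (‖z - c‖ ^ 2 + 2 * (t * ⟪z - c, p⟫_ℝ) + t ^ 2 * ‖p‖ ^ 2)) *
      (-α * (2 * ⟪z - c, p⟫_ℝ + 2 * t * ‖p‖ ^ 2))))
    (s2 := ε * e * (4 * α ^ 2 * ⟪z - c, p⟫_ℝ ^ 2 - 2 * α * ‖p‖ ^ 2))
    (fun t => (((((((hasDerivAt_id t).mul_const _).const_mul 2).const_add _).add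
      ((hasDerivAt_pow 2 t).mul_const _)).const_mul _).exp.const_mul ε).congr_deriv (by simp))
    ((((((((((hasDerivAt_id 0).mul_const _).const_mul 2).const_add _).add
      ((hasDerivAt_pow 2 0).mul_const _)).const_mul _).exp).mul
      (((((hasDerivAt_id 0).const_mul 2).mul_const _).const_add _).const_mul _)).const_mul ε).congr_deriv
      (by simp [he]; ring))
    (by
      have h0 : IsLocalMax (fun y => u y + ε * Real.exp (-α * ‖y - c‖ ^ 2)) (z + (0 : ℝ) • p) := by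
        simpa using hm
      have := h0.comp_continuous (g := fun t : ℝ => z + t • p) (by fun_prop)
      simp only [Function.comp_def, add_sub_right_comm z _ c, norm_add_sq_real, inner_smul_right,
        norm_smul, mul_pow, Real.norm_eq_abs, sq_abs] at this
      exact this)
  have d2 : ∀ i j, pd (pd u j) i z = fderiv ℝ (fderiv ℝ u) z (EuclideanSpace.single i 1)
      (EuclideanSpace.single j 1) := fun i j => by
    unfold pd
    rw [fderiv_clm_apply ((hu.fderiv_right (m := 1) (by norm_num)).differentiableAt (by simp))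
      (differentiableAt_const _)]
    simp
  have k1 : ∀ k, pd u k z = 2 * α * ε * e * (z - c) k := fun k => by
    have := (key (EuclideanSpace.single k 1)).1
    simp [EuclideanSpace.inner_single_right, -neg_mul, ← he] at this
    simp [pd]
    linarith
  rw [← he]
  generalize z - c = h at key k1 ⊢
  have k2 := psd (q := fun i j => pd (pd u j) i z + ε * e * (4 * α ^ 2) * (h i * h j) -
      ε * e * (2 * α) * if i = j then 1 else 0) ha fun p => by
    refine le_trans (le_of_eq ?_) (key (WithLp.toLp 2 p)).2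
    have A : fderiv ℝ (fderiv ℝ u) z (WithLp.toLp 2 p) (WithLp.toLp 2 p) =
        ∑ i, ∑ j, p i * p j * pd (pd u j) i z := by
      rw [expand (WithLp.toLp 2 p), Finset.sum_comm]
      simp [d2, Finset.mul_sum, mul_left_comm, mul_assoc]
    have B : ⟪h, WithLp.toLp 2 p⟫_ℝ ^ 2 = ∑ i, ∑ j, p i * p j * (h i * h j) := by
      rw [sq, PiLp.inner_apply, Finset.sum_mul_sum]
      exact Finset.sum_congr rfl fun i _ => Finset.sum_congr rfl fun j _ => by simp; ring
    rw [A, B, EuclideanSpace.real_norm_sq_eq]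
    simp [mul_add, mul_sub, Finset.sum_add_distrib, Finset.mul_sum, mul_left_comm, sq, mul_assoc,
      add_sub_assoc]
    exact Finset.sum_congr rfl fun i _ => by ring
  simp only [mul_add, Finset.sum_add_distrib, mul_sub, Finset.sum_sub_distrib, k1,
    mul_left_comm (a _ _) (ε * e * _), mul_left_comm (b _) (2 * α * ε * e), ← Finset.mul_sum,
    mul_ite, mul_one, mul_zero, Finset.sum_ite_eq, Finset.mem_univ, if_true,
    ← Finset.sum_mul] at k2 ⊢
  linarith

theorem smp {u : EuclideanSpace ℝ (Fin m) → ℝ} {W : Set (EuclideanSpace ℝ (Fin m))} (hW : IsOpen W)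
    (hu : ContDiffOn ℝ 2 u W) {a : EuclideanSpace ℝ (Fin m) → Matrix (Fin m) (Fin m) ℝ}
    {b : EuclideanSpace ℝ (Fin m) → Fin m → ℝ} (ca : ∀ i j, ContinuousOn (a · i j) W)
    (cb : ∀ k, ContinuousOn (b · k) W) (ha : ∀ y ∈ W, (a y).PosDef)
    (hL : ∀ y ∈ W, ∑ i, ∑ j, a y i j * pd (pd u j) i y + ∑ k, b y k * pd u k y = 0)
    {y₀ : EuclideanSpace ℝ (Fin m)} (h0 : y₀ ∈ W) (hM : ∀ y ∈ W, u y ≤ u y₀) :
    ∀ᶠ y in 𝓝 y₀, u y = u y₀ := by
  obtain ⟨r3, hr3, hK⟩ := nhds_basis_closedBall.mem_iff.1 (hW.mem_nhds h0)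
  obtain ⟨r, rfl⟩ : ∃ r, r3 = 3 * r := ⟨r3 / 3, by ring⟩
  have r0 : 0 < r := by linarith
  refine eventually_of_mem (ball_mem_nhds y₀ r0) fun y₁ hy₁ => by_contra fun hne => ?_
  have cu := hu.continuousOn
  have cA : IsCompact (closedBall y₀ (3 * r) ∩ u ⁻¹' {u y₀}) :=
    (isCompact_closedBall _ _).of_isClosed_subset
      ((cu.mono hK).preimage_isClosed_of_isClosed isClosed_closedBall isClosed_singleton)
      inter_subset_left
  obtain ⟨x₀, ⟨-, hx⟩, hmin⟩ := cA.exists_isMinOn (f := fun x => ‖x - y₁‖)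
    ⟨y₀, mem_closedBall_self hr3.le, rfl⟩ (by fun_prop)
  have hx : u x₀ = u y₀ := hx
  have n1 : ‖y₀ - y₁‖ < r := by rwa [mem_ball', dist_eq_norm] at hy₁
  have n2 : ‖x₀ - y₁‖ < r := lt_of_le_of_lt (hmin ⟨mem_closedBall_self hr3.le, rfl⟩) n1
  obtain ⟨q, hq⟩ : ∃ q, q = (1 / 2 : ℝ) • (x₀ - y₁) := ⟨_, rfl⟩
  obtain ⟨c, hc⟩ : ∃ c, c = y₁ + q := ⟨_, rfl⟩
  have e1 : x₀ - c = q := by rw [hc, hq]; module
  have e2 : ‖x₀ - y₁‖ = 2 * ‖q‖ := by rw [hq, norm_smul]; simp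
  have q0 : 0 < ‖q‖ := by
    have : x₀ - y₁ ≠ 0 := fun h => hne (by rw [← hx, sub_eq_zero.1 h])
    linarith [norm_pos_iff.2 this]
  have mem : ∀ y, ‖y - y₁‖ ≤ 2 * r → y ∈ closedBall y₀ (3 * r) := fun y hy => by
    rw [mem_closedBall, dist_eq_norm]
    linarith [norm_sub_le_norm_sub_add_norm_sub y y₁ y₀, norm_sub_rev y₀ y₁]
  have hD : closedBall x₀ (‖q‖ / 2) ⊆ W := fun y hy => hK (mem y (by
    rw [mem_closedBall, dist_eq_norm] at hy
    linarith [norm_sub_le_norm_sub_add_norm_sub y x₀ y₁]))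
  have lt : ∀ y, ‖y - c‖ ≤ ‖q‖ → y ≠ x₀ → u y < u y₀ := fun y h1 h2 => by
    have p := parallelogram_law_with_norm ℝ (y - c) q
    have e3 : y - c + q = y - y₁ := by rw [hc]; abel
    have e4 : y - c - q = y - x₀ := by rw [← e1]; abel
    rw [e3, e4] at p
    have : ‖y - y₁‖ < 2 * ‖q‖ := by
      refine lt_of_pow_lt_pow_left₀ 2 (by linarith) ?_
      nlinarith [norm_pos_iff.2 (sub_ne_zero.2 h2), norm_nonneg (y - c)]
    have hy := mem y (by linarith)
    refine lt_of_le_of_ne (hM y (hK hy)) fun h => ?_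
    have := hmin (a := y) ⟨hy, h⟩
    simp only [mem_ofPred_eq] at this
    linarith
  have pos : ∀ y ∈ closedBall x₀ (‖q‖ / 2),
      0 < ∑ i, ∑ j, a y i j * ((y - c) i * (y - c) j) := fun y hy => by
    have : (y - c).ofLp ≠ 0 := fun h => by
      rw [WithLp.ofLp_eq_zero, sub_eq_zero] at h
      rw [h, mem_closedBall', dist_eq_norm, e1] at hy
      linarith
    refine ((ha y (hD hy)).dotProduct_mulVec_pos this).trans_eq ?_
    simp only [dotProduct, mulVec, Finset.mul_sum, star_trivial]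
    exact Finset.sum_congr rfl fun i _ => Finset.sum_congr rfl fun j _ => by ring
  have cd : ∀ k, ContinuousOn (fun y : EuclideanSpace ℝ (Fin m) => (y - c) k) W := fun k => by
    fun_prop
  obtain ⟨β, hβ⟩ := (isCompact_closedBall x₀ (‖q‖ / 2)).bddAbove_image
    (f := fun y => (∑ i, a y i i + ∑ k, b y k * (y - c) k) /
      ∑ i, ∑ j, a y i j * ((y - c) i * (y - c) j))
    (ContinuousOn.div (((continuousOn_finsetSum _ fun i _ => ca i i).add
      (continuousOn_finsetSum _ fun k _ => (cb k).mul (cd k))).mono hD)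
      ((continuousOn_finsetSum _ fun i _ => continuousOn_finsetSum _ fun j _ =>
        (ca i j).mul ((cd i).mul (cd j))).mono hD) fun y hy => (pos y hy).ne')
  obtain ⟨α, hα⟩ : ∃ α, α = |β| + 1 := ⟨_, rfl⟩
  have α0 : 0 < α := by rw [hα]; positivity
  obtain ⟨ε, ε0, hε⟩ : ∃ ε > 0, ∀ y ∈ sphere x₀ (‖q‖ / 2) ∩ closedBall c ‖q‖, ε ≤ u y₀ - u y :=
    ((isCompact_sphere _ _).inter_right isClosed_closedBall).exists_forall_le'
      (continuousOn_const.sub (cu.mono fun y hy => hD (sphere_subset_closedBall hy.1)))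
      fun y hy => sub_pos.2 (lt y (mem_closedBall_iff_norm.1 hy.2) fun h => by
        have := hy.1
        rw [h, mem_sphere, dist_self] at this
        linarith)
  obtain ⟨z, hz, hzm⟩ := (isCompact_closedBall x₀ (‖q‖ / 2)).exists_isMaxOn
    (f := fun y => u y + ε * Real.exp (-α * ‖y - c‖ ^ 2)) ⟨x₀, mem_closedBall_self (by linarith)⟩
    ((cu.mono hD).add (by fun_prop))
  have z1 := hzm (mem_closedBall_self (by linarith : 0 ≤ ‖q‖ / 2))
  simp only [mem_ofPred_eq, e1, hx] at z1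
  have z2 : z ∈ ball x₀ (‖q‖ / 2) := lt_of_le_of_ne hz fun h => by
    have E0 := Real.exp_pos (-α * ‖q‖ ^ 2)
    by_cases h1 : ‖z - c‖ ≤ ‖q‖
    · have := hε z ⟨h, mem_closedBall_iff_norm.2 h1⟩
      have : Real.exp (-α * ‖z - c‖ ^ 2) ≤ 1 :=
        Real.exp_le_one_iff.2 (by nlinarith [sq_nonneg ‖z - c‖])
      nlinarith
    · have : Real.exp (-α * ‖z - c‖ ^ 2) < Real.exp (-α * ‖q‖ ^ 2) := by
        refine Real.exp_lt_exp.2 (mul_lt_mul_of_neg_left ?_ (by linarith))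
        exact pow_lt_pow_left₀ (not_le.1 h1) q0.le two_ne_zero
      nlinarith [hM z (hD hz)]
  have := atmax (hu.contDiffAt (hW.mem_nhds (hD hz))) (ha z (hD hz)).posSemidef (b z)
    (hzm.isLocalMax (mem_of_superset (isOpen_ball.mem_nhds z2) ball_subset_closedBall))
  rw [hL z (hD hz)] at this
  have h1 := hβ (mem_image_of_mem _ hz)
  rw [div_le_iff₀ (pos z hz)] at h1
  have h4 := (mul_nonneg_iff_of_pos_left (by positivity)).1 this
  nlinarith [pos z hz, le_abs_self β, abs_nonneg β]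

end Pool.Agent.H58.Harm
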