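import Mathlib

set_option autoImplicit false

namespace Pool.Agent.H58.SP

open Relation

variable {V : Type*}

def Conn (G : SimpleGraph V) (S : Set V) : Prop :=
  S.Nonempty ∧ ∀ x ∈ S, ∀ y ∈ S, ReflTransGen (fun a b => G.Adj a b ∧ a ∈ S ∧ b ∈ S) x y

def HasK4 (G : SimpleGraph V) : Prop :=
  ∃ f : Fin 4 → Set V, (∀ i, Conn G (f i)) ∧ (∀ i j, i ≠ j → Disjoint (f i) (f j)) ∧
    (∀ i j, i ≠ j → ∃ x ∈ f i, ∃ y ∈ f j, G.Adj x y)

theorem rtg_mono {r p : V → V → Prop} {x y : V} (h : ReflTransGen r x y)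
    (hp : ∀ a b, r a b → p a b) : ReflTransGen p x y := by
  induction h with
  | refl => exact ReflTransGen.refl
  | tail _ h2 ih => exact ih.tail (hp _ _ h2)

theorem rtg_symm {G : SimpleGraph V} {p : V → Prop} {x y : V}
    (h : ReflTransGen (fun a b => G.Adj a b ∧ p a ∧ p b) x y) :
    ReflTransGen (fun a b => G.Adj a b ∧ p a ∧ p b) y x := by
  induction h with
  | refl => exact ReflTransGen.refl
  | tail _ h2 ih => exact ReflTransGen.head ⟨h2.1.symm, h2.2.2, h2.2.1⟩ ih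

theorem conn_of_root {G : SimpleGraph V} {S : Set V} {r : V} (hr : r ∈ S)
    (h : ∀ y ∈ S, ReflTransGen (fun a b => G.Adj a b ∧ a ∈ S ∧ b ∈ S) r y) : Conn G S :=
  ⟨⟨r, hr⟩, fun x hx y hy => (rtg_symm (h x hx)).trans (h y hy)⟩

theorem Conn.connected {G : SimpleGraph V} {S : Set V} (h : Conn G S) : (G.induce S).Connected := by
  obtain ⟨⟨r, hr⟩, h⟩ := h
  have : Nonempty S := ⟨⟨r, hr⟩⟩
  refine ⟨fun x y => ?_⟩
  have key : ∀ z, ReflTransGen (fun a b => G.Adj a b ∧ a ∈ S ∧ b ∈ S) x.1 z →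
      ∀ hz : z ∈ S, (G.induce S).Reachable x ⟨z, hz⟩ := by
    intro z hz
    induction hz with
    | refl => intro _; exact SimpleGraph.Reachable.refl _
    | tail _ h2 ih =>
      intro hz
      exact (ih h2.2.1).trans (SimpleGraph.Adj.reachable (by simpa using h2.1))
  exact key y.1 (h x.1 x.2 y.1 y.2) y.2

theorem Conn.union {G : SimpleGraph V} {S T : Set V} (hS : Conn G S) (hT : Conn G T) {x : V}
    (hx : x ∈ S) (hx' : x ∈ T) : Conn G (S ∪ T) := by
  refine conn_of_root (r := x) (Or.inl hx) ?_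
  rintro y (hy | hy)
  · exact rtg_mono (hS.2 x hx y hy) fun a b h => ⟨h.1, Or.inl h.2.1, Or.inl h.2.2⟩
  · exact rtg_mono (hT.2 x hx' y hy) fun a b h => ⟨h.1, Or.inr h.2.1, Or.inr h.2.2⟩

theorem Conn.insert {G : SimpleGraph V} {S : Set V} (hS : Conn G S) {x y : V}
    (hx : x ∈ S) (hxy : G.Adj x y) : Conn G (insert y S) := by
  refine conn_of_root (r := x) (Or.inr hx) ?_
  rintro z (rfl | hz)
  · exact ReflTransGen.single ⟨hxy, Or.inr hx, Or.inl rfl⟩
  · exact rtg_mono (hS.2 x hx z hz) fun a b h => ⟨h.1, Or.inr h.2.1, Or.inr h.2.2⟩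

def Cyc (G : SimpleGraph V) (f : ℕ → V) (m : ℕ) : Prop :=
  3 ≤ m ∧ (∀ i < m, ∀ j < m, f i = f j → i = j) ∧ (∀ i, i + 1 < m → G.Adj (f i) (f (i + 1))) ∧
    G.Adj (f (m - 1)) (f 0)

def Ind (G : SimpleGraph V) (f : ℕ → V) (m : ℕ) : Prop :=
  ∀ i j, i < j → j < m → G.Adj (f i) (f j) → j = i + 1 ∨ (i = 0 ∧ j = m - 1)

theorem cyc_sub {G : SimpleGraph V} {f : ℕ → V} {m i j : ℕ}
    (hinj : ∀ i < m, ∀ j < m, f i = f j → i = j) (hadj : ∀ i, i + 1 < m → G.Adj (f i) (f (i + 1)))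
    (hij : i + 2 ≤ j) (hj : j < m) (h : G.Adj (f j) (f i)) :
    Cyc G (fun a => f (i + a)) (j - i + 1) := by
  refine ⟨by omega, fun a ha b hb hab => ?_, fun a ha => ?_, ?_⟩
  · have := hinj (i + a) (by omega) (i + b) (by omega) hab
    omega
  · exact hadj (i + a) (by omega)
  · have e : i + (j - i + 1 - 1) = j := by omega
    simp only [e, Nat.add_zero]
    exact h

theorem cyc_exists [Fintype V] {G : SimpleGraph V} (W : Set V) {z u : V} (hz : z ∈ W) (hu : u ∈ W)
    (hzu : G.Adj z u)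
    (hW : ∀ v ∈ W, v ≠ z → ∃ a ∈ W, ∃ b ∈ W, a ≠ b ∧ G.Adj v a ∧ G.Adj v b) :
    ∃ f m, Cyc G f m ∧ Ind G f m ∧ ∀ i < m, f i ∈ W := by
  classical
  let P : ℕ → Prop := fun m => ∃ f : ℕ → V, f 0 = z ∧ (∀ i < m, ∀ j < m, f i = f j → i = j) ∧
    (∀ i, i + 1 < m → G.Adj (f i) (f (i + 1))) ∧ ∀ i < m, f i ∈ W
  have hP2 : P 2 := by
    refine ⟨fun i => if i = 0 then z else u, by simp, ?_, ?_, ?_⟩
    · intro i hi j hj h
      have hne := hzu.ne
      interval_cases i <;> interval_cases j <;> simp_all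
    · intro i hi
      have : i = 0 := by omega
      subst this
      simpa using hzu
    · intro i hi
      interval_cases i <;> simp [hz, hu]
  have hbd : ∀ m, P m → m ≤ Fintype.card V := by
    rintro m ⟨f, -, hinj, -, -⟩
    have : Function.Injective (fun i : Fin m => f i) := fun i j h =>
      Fin.ext (hinj i i.2 j j.2 h)
    simpa using Fintype.card_le_of_injective _ this
  obtain ⟨m, hm2, hPm, hmax⟩ : ∃ m, 2 ≤ m ∧ P m ∧ ¬ P (m + 1) := by
    by_contra hcon
    push Not at hcon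
    have : ∀ t, P (2 + t) := by
      intro t
      induction t with
      | zero => exact hP2
      | succ t ih => exact hcon (2 + t) (by omega) ih
    have := hbd _ (this (Fintype.card V))
    omega
  obtain ⟨f, hf0, hinj, hadj, hfW⟩ := hPm
  have hon : ∀ a ∈ W, G.Adj (f (m - 1)) a → ∃ i < m, f i = a := by
    intro a ha hva
    by_contra hcon
    push Not at hcon
    apply hmax
    refine ⟨fun i => if i < m then f i else a, by simp [show 0 < m by omega, hf0], ?_, ?_, ?_⟩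
    · intro i hi j hj h
      by_cases h1 : i < m <;> by_cases h2 : j < m
      · simp only [h1, h2, if_true] at h
        exact hinj i h1 j h2 h
      · simp only [h1, h2, if_true, if_false] at h
        exact absurd h (hcon i h1)
      · simp only [h1, h2, if_true, if_false] at h
        exact absurd h.symm (hcon j h2)
      · omega
    · intro i hi
      by_cases h2 : i + 1 < m
      · simp only [h2, show i < m by omega, if_true]
        exact hadj i h2
      · simp only [h2, show i < m by omega, if_true, if_false]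
        have : i = m - 1 := by omega
        rw [this]; exact hva
    · intro i hi
      by_cases h1 : i < m
      · simp only [h1, if_true]; exact hfW i h1
      · simp only [h1, if_false]; exact ha
  have hne : f (m - 1) ≠ z := by
    intro h
    have := hinj (m - 1) (by omega) 0 (by omega) (h.trans hf0.symm)
    omega
  obtain ⟨a, ha, b, hb, hab, hva, hvb⟩ := hW _ (hfW (m - 1) (by omega)) hne
  obtain ⟨i, hi, rfl⟩ := hon a ha hva
  obtain ⟨j, hj, rfl⟩ := hon b hb hvb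
  have hi1 : i ≠ m - 1 := fun h => hva.ne (by rw [h])
  have hj1 : j ≠ m - 1 := fun h => hvb.ne (by rw [h])
  have hij : i ≠ j := fun h => hab (by rw [h])
  have hex : ∃ m, ∃ g : ℕ → V, Cyc G g m ∧ ∀ i < m, g i ∈ W := by
    by_cases h : i + 2 ≤ m - 1
    · exact ⟨_, _, cyc_sub hinj hadj h (by omega) hva, fun a ha => hfW _ (by omega)⟩
    · exact ⟨_, _, cyc_sub (i := j) (j := m - 1) hinj hadj (by omega) (by omega) hvb,
        fun a ha => hfW _ (by omega)⟩
  obtain ⟨g, hg, hgW⟩ := Nat.find_spec hex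
  refine ⟨g, _, hg, ?_, hgW⟩
  intro p q hpq hq hadj'
  by_contra hcon
  have h1 : p + 2 ≤ q := by omega
  have := Nat.find_min' hex ⟨_, cyc_sub hg.2.1 hg.2.2.1 h1 hq hadj'.symm,
    fun a ha => hgW _ (by omega)⟩
  omega

theorem conn_seg {G : SimpleGraph V} {f : ℕ → V} {m p q : ℕ}
    (hadj : ∀ i, i + 1 < m → G.Adj (f i) (f (i + 1))) (hpq : p < q) (hq : q ≤ m) :
    Conn G (f '' Set.Ico p q) := by
  refine conn_of_root (r := f p) ⟨p, ⟨le_rfl, hpq⟩, rfl⟩ ?_
  rintro y ⟨i, ⟨h1, h2⟩, rfl⟩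
  induction i, h1 using Nat.le_induction with
  | base => exact ReflTransGen.refl
  | succ i hi ih =>
    exact (ih (by omega)).tail ⟨hadj i (by omega), ⟨i, ⟨hi, by omega⟩, rfl⟩,
      ⟨i + 1, ⟨by omega, h2⟩, rfl⟩⟩

theorem k4_of_sorted {G : SimpleGraph V} {f : ℕ → V} {m : ℕ} (hc : Cyc G f m) {H : Set V}
    (hH : Conn G H) (hd : ∀ i < m, f i ∉ H) {i j l : ℕ} (hij : i < j) (hjl : j < l) (hl : l < m)
    (hi : ∃ h ∈ H, G.Adj (f i) h) (hj : ∃ h ∈ H, G.Adj (f j) h) (hl' : ∃ h ∈ H, G.Adj (f l) h) :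
    HasK4 G := by
  obtain ⟨h3, hinj, hadj, hlast⟩ := hc
  obtain ⟨a, ha, hia⟩ := hi
  obtain ⟨b, hb, hjb⟩ := hj
  obtain ⟨c, hc, hlc⟩ := hl'
  have dH : ∀ p q, q ≤ m → Disjoint H (f '' Set.Ico p q) := by
    intro p q hq
    rw [Set.disjoint_right]
    rintro x ⟨t, ht, rfl⟩
    exact hd t (by have := ht.2; omega)
  have dS : ∀ p q p' q', q ≤ p' → q' ≤ m → p' ≤ q' →
      Disjoint (f '' Set.Ico p q) (f '' Set.Ico p' q') := by
    intro p q p' q' h1 h2 h3
    rw [Set.disjoint_right]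
    rintro x ⟨t, ht, rfl⟩ ⟨s, hs, hst⟩
    have := hinj s (by have := hs.2; omega) t (by have := ht.2; omega) hst
    have := hs.2; have := ht.1; omega
  have e12 : G.Adj (f (j - 1)) (f j) := by
    have := hadj (j - 1) (by omega)
    rwa [show j - 1 + 1 = j by omega] at this
  have e23 : G.Adj (f (l - 1)) (f l) := by
    have := hadj (l - 1) (by omega)
    rwa [show l - 1 + 1 = l by omega] at this
  have m1 : ∀ t, t < j → f t ∈ f '' Set.Ico 0 j := fun t ht => ⟨t, ⟨by omega, ht⟩, rfl⟩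
  have m2 : ∀ t, j ≤ t → t < l → f t ∈ f '' Set.Ico j l := fun t h1 h2 => ⟨t, ⟨h1, h2⟩, rfl⟩
  have m3 : ∀ t, l ≤ t → t < m → f t ∈ f '' Set.Ico l m := fun t h1 h2 => ⟨t, ⟨h1, h2⟩, rfl⟩
  refine ⟨![H, f '' Set.Ico 0 j, f '' Set.Ico j l, f '' Set.Ico l m], ?_, ?_, ?_⟩
  · intro t
    fin_cases t
    · exact hH
    · exact conn_seg hadj (by omega) (by omega)
    · exact conn_seg hadj hjl (by omega)
    · exact conn_seg hadj hl le_rfl
  · intro s t hst
    fin_cases s <;> fin_cases t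
    all_goals first
      | exact absurd rfl hst
      | exact dH _ _ (by omega)
      | exact (dH _ _ (by omega)).symm
      | exact dS _ _ _ _ (by omega) (by omega) (by omega)
      | exact (dS _ _ _ _ (by omega) (by omega) (by omega)).symm
  · intro s t hst
    fin_cases s <;> fin_cases t
    all_goals first
      | exact absurd rfl hst
      | exact ⟨a, ha, _, m1 i hij, hia.symm⟩
      | exact ⟨b, hb, _, m2 j le_rfl hjl, hjb.symm⟩
      | exact ⟨c, hc, _, m3 l le_rfl hl, hlc.symm⟩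
      | exact ⟨_, m1 i hij, a, ha, hia⟩
      | exact ⟨_, m2 j le_rfl hjl, b, hb, hjb⟩
      | exact ⟨_, m3 l le_rfl hl, c, hc, hlc⟩
      | exact ⟨_, m1 (j - 1) (by omega), _, m2 j le_rfl hjl, e12⟩
      | exact ⟨_, m2 j le_rfl hjl, _, m1 (j - 1) (by omega), e12.symm⟩
      | exact ⟨_, m2 (l - 1) (by omega) (by omega), _, m3 l le_rfl hl, e23⟩
      | exact ⟨_, m3 l le_rfl hl, _, m2 (l - 1) (by omega) (by omega), e23.symm⟩
      | exact ⟨_, m3 (m - 1) (by omega) (by omega), _, m1 0 (by omega), hlast⟩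
      | exact ⟨_, m1 0 (by omega), _, m3 (m - 1) (by omega) (by omega), hlast.symm⟩

theorem k4_of_three {G : SimpleGraph V} {f : ℕ → V} {m : ℕ} (hc : Cyc G f m) {H : Set V}
    (hH : Conn G H) (hd : ∀ i < m, f i ∉ H) {i j l : ℕ} (hij : i ≠ j) (hjl : j ≠ l) (hil : i ≠ l)
    (hi0 : i < m) (hj0 : j < m) (hl0 : l < m)
    (hi : ∃ h ∈ H, G.Adj (f i) h) (hj : ∃ h ∈ H, G.Adj (f j) h) (hl : ∃ h ∈ H, G.Adj (f l) h) :
    HasK4 G := by
  rcases lt_or_gt_of_ne hij with h1 | h1 <;> rcases lt_or_gt_of_ne hjl with h2 | h2 <;>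
    rcases lt_or_gt_of_ne hil with h3 | h3
  · exact k4_of_sorted hc hH hd h1 h2 hl0 hi hj hl
  · omega
  · exact k4_of_sorted hc hH hd h3 h2 hj0 hi hl hj
  · exact k4_of_sorted hc hH hd h3 h1 hj0 hl hi hj
  · exact k4_of_sorted hc hH hd h1 h3 hl0 hj hi hl
  · exact k4_of_sorted hc hH hd h2 h3 hi0 hj hl hi
  · omega
  · exact k4_of_sorted hc hH hd h2 h1 hi0 hl hj hi

def Three (G : SimpleGraph V) (v : V) : Prop :=
  ∃ a b c, a ≠ b ∧ b ≠ c ∧ a ≠ c ∧ G.Adj v a ∧ G.Adj v b ∧ G.Adj v c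

theorem nbr_off {G : SimpleGraph V} {f : ℕ → V} {m : ℕ} (hc : Cyc G f m) (hI : Ind G f m)
    {p : ℕ} (hp : p < m) (h3 : Three G (f p)) : ∃ u, G.Adj (f p) u ∧ ∀ i < m, f i ≠ u := by
  by_contra hcon
  push Not at hcon
  obtain ⟨a, b, c, hab, hbc, hac, ha, hb, hc'⟩ := h3
  have key : ∀ i < m, G.Adj (f p) (f i) →
      i = p + 1 ∨ p = i + 1 ∨ (p = 0 ∧ i = m - 1) ∨ (i = 0 ∧ p = m - 1) := by
    intro i hi h
    rcases lt_trichotomy p i with h1 | h1 | h1
    · have := hI p i h1 hi h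
      omega
    · exact absurd (by rw [h1]) h.ne
    · have := hI i p h1 hp h.symm
      omega
  obtain ⟨i, hi, rfl⟩ := hcon a ha
  obtain ⟨j, hj, rfl⟩ := hcon b hb
  obtain ⟨l, hl, rfl⟩ := hcon c hc'
  have h1 : i ≠ j := fun h => hab (by rw [h])
  have h2 : j ≠ l := fun h => hbc (by rw [h])
  have h3 : i ≠ l := fun h => hac (by rw [h])
  have := key i hi ha
  have := key j hj hb
  have := key l hl hc'
  have := hc.1
  omega

theorem dirac [Fintype V] {G : SimpleGraph V} (r : V)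
    (h3 : ∀ v, ReflTransGen G.Adj r v → Three G v) : HasK4 G := by
  classical
  by_contra hK
  set K : Set V := {v | ReflTransGen G.Adj r v} with hKdef
  have hKadj : ∀ a ∈ K, ∀ b, G.Adj a b → b ∈ K := fun a ha b hab => ReflTransGen.tail ha hab
  let good : Set (Set V) := {H | Conn G H ∧ H ⊆ K ∧ ∃ f m, Cyc G f m ∧ Ind G f m ∧
    (∀ i < m, f i ∈ K) ∧ ∀ i < m, f i ∉ H}
  have hne : good.Nonempty := by
    obtain ⟨a, -, -, -, -, -, ha, -, -⟩ := h3 r ReflTransGen.refl
    obtain ⟨f, m, hc, hI, hfK⟩ := cyc_exists (G := G) K (z := r) (u := a) ReflTransGen.refl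
      (ReflTransGen.single ha) ha (by
        intro v hv _
        obtain ⟨a, b, c, hab, -, -, ha, hb, -⟩ := h3 v hv
        exact ⟨a, hKadj v hv a ha, b, hKadj v hv b hb, hab, ha, hb⟩)
    have h0 : 0 < m := by have := hc.1; omega
    obtain ⟨u, hu, hu'⟩ := nbr_off hc hI h0 (h3 _ (hfK 0 h0))
    refine ⟨{u}, conn_of_root (r := u) rfl ?_, ?_, f, m, hc, hI, hfK, fun i hi => hu' i hi⟩
    · rintro y rfl; exact ReflTransGen.refl
    · rintro y rfl; exact hKadj _ (hfK 0 h0) _ hu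
  obtain ⟨H, ⟨hH, hHK, f, m, hc, hI, hfK, hfH⟩, hmax⟩ :=
    Set.exists_max_image good Set.ncard (Set.toFinite _) hne
  have hbig : ∀ H' ∈ good, H ⊆ H' → ∀ u ∈ H', u ∈ H := by
    intro H' hH' hsub u hu
    have := Set.eq_of_subset_of_ncard_le hsub (hmax H' hH') (Set.toFinite _)
    rw [this]; exact hu
  have hm3 := hc.1
  -- an edge leaving H
  obtain ⟨x, hx, y, hy, hxy⟩ : ∃ x ∈ H, ∃ y, y ∉ H ∧ G.Adj x y := by
    by_contra hcon
    push Not at hcon
    obtain ⟨h, hh⟩ := hH.1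
    have hsym : ∀ a b, ReflTransGen G.Adj a b → ReflTransGen G.Adj b a := by
      intro a b hab
      induction hab with
      | refl => exact ReflTransGen.refl
      | tail _ h2 ih => exact ReflTransGen.head h2.symm ih
    have hp : ReflTransGen G.Adj h (f 0) := (hsym _ _ (hHK hh)).trans (hfK 0 (by omega))
    have : ∀ z, ReflTransGen G.Adj h z → z ∈ H := by
      intro z hz
      induction hz with
      | refl => exact hh
      | tail _ h2 ih =>
        by_contra hn
        exact hcon _ ih _ hn h2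
    exact hfH 0 (by omega) (this _ hp)
  have hins : insert y H ⊆ K := by
    rintro z (rfl | hz)
    · exact hKadj x (hHK hx) _ hxy
    · exact hHK hz
  obtain ⟨iy, hiy, hiy'⟩ : ∃ i < m, f i = y := by
    by_contra hcon
    push Not at hcon
    refine hy (hbig (insert y H) ⟨hH.insert hx hxy, hins, f, m, hc, hI, hfK, ?_⟩
      (Set.subset_insert _ _) y (Or.inl rfl))
    rintro i hi (h | h)
    · exact hcon i hi h
    · exact hfH i hi h
  obtain ⟨p, hp, hpH⟩ : ∃ p < m, ¬ ∃ h ∈ H, G.Adj (f p) h := by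
    by_contra hcon
    push Not at hcon
    exact hK (k4_of_sorted hc hH hfH (i := 0) (j := 1) (l := 2) (by omega) (by omega) (by omega)
      (hcon 0 (by omega)) (hcon 1 (by omega)) (hcon 2 (by omega)))
  obtain ⟨u, hpu, huC⟩ := nbr_off hc hI hp (h3 _ (hfK p hp))
  have huH : u ∉ H := fun h => hpH ⟨u, h, hpu⟩
  let off : V → Prop := fun a => ∀ i < m, f i ≠ a
  let H' : Set V := {a | ReflTransGen (fun a b => G.Adj a b ∧ off a ∧ off b) u a}
  have huH' : u ∈ H' := ReflTransGen.refl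
  have hoff : ∀ a ∈ H', off a := by
    intro a ha
    induction ha with
    | refl => exact huC
    | tail _ h2 _ => exact h2.2.2
  have hstep : ∀ a ∈ H', ∀ b, G.Adj a b → off b → b ∈ H' := fun a ha b hab hb =>
    ReflTransGen.tail ha ⟨hab, hoff a ha, hb⟩
  have hH'c : Conn G H' := by
    refine conn_of_root huH' ?_
    intro a ha
    induction ha with
    | refl => exact ReflTransGen.refl
    | tail h1 h2 ih => exact (ih).tail ⟨h2.1, h1, ReflTransGen.tail h1 h2⟩
  have hH'K : H' ⊆ K := by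
    intro a ha
    induction ha with
    | refl => exact hKadj _ (hfK p hp) _ hpu
    | tail _ h2 ih => exact hKadj _ ih _ h2.1
  have hdisj : ∀ a ∈ H, a ∉ H' := by
    intro a ha ha'
    refine huH (hbig (H ∪ H') ⟨hH.union hH'c ha ha', Set.union_subset hHK hH'K, f, m, hc, hI, hfK,
      ?_⟩ Set.subset_union_left u (Or.inr huH'))
    rintro i hi (h | h)
    · exact hfH i hi h
    · exact hoff _ h i hi rfl
  have hfH' : ∀ i < m, f i ∉ H' := fun i hi h => hoff _ h i hi rfl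
  obtain ⟨g, m', hc', hI', hgW⟩ := cyc_exists (G := G) (insert (f p) H') (z := f p) (u := u)
    (Or.inl rfl) (Or.inr huH') hpu (by
      rintro v (rfl | hv) hne
      · exact absurd rfl hne
      have key : ∀ a b, a ≠ b → G.Adj v a → G.Adj v b →
          a ∈ insert (f p) H' ∨ b ∈ insert (f p) H' := by
        intro a b hab ha hb
        by_contra hcon
        push Not at hcon
        obtain ⟨h1, h2⟩ := hcon
        have ha' : ¬ off a := fun h => h1 (Or.inr (hstep v hv a ha h))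
        have hb' : ¬ off b := fun h => h2 (Or.inr (hstep v hv b hb h))
        simp only [off] at ha' hb'
        push Not at ha' hb'
        obtain ⟨i, hi, rfl⟩ := ha'
        obtain ⟨j, hj, rfl⟩ := hb'
        refine hK (k4_of_three hc hH'c hfH' (i := i) (j := j) (l := p) (fun h => hab (by rw [h]))
          (fun h => h2 (Or.inl (by rw [h]))) (fun h => h1 (Or.inl (by rw [h]))) hi hj hp
          ⟨v, hv, ha.symm⟩ ⟨v, hv, hb.symm⟩ ⟨u, huH', hpu⟩)
      obtain ⟨a, b, c, hab, hbc, hac, ha, hb, hc''⟩ := h3 v (hH'K hv)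
      rcases key a b hab ha hb with h1 | h1
      · rcases key b c hbc hb hc'' with h2 | h2
        · exact ⟨a, h1, b, h2, hab, ha, hb⟩
        · exact ⟨a, h1, c, h2, hac, ha, hc''⟩
      · rcases key a c hac ha hc'' with h2 | h2
        · exact ⟨a, h2, b, h1, hab, ha, hb⟩
        · exact ⟨b, h1, c, h2, hbc, hb, hc''⟩)
  refine hy (hbig (insert y H) ⟨hH.insert hx hxy, hins, g, m', hc', hI', ?_, ?_⟩
    (Set.subset_insert _ _) y (Or.inl rfl))
  · intro i hi
    rcases hgW i hi with h | h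
    · rw [h]; exact hfK p hp
    · exact hH'K h
  · rintro i hi (h | h)
    · rcases hgW i hi with h' | h'
      · exact hpH ⟨x, hx, by rw [← h', h]; exact hxy.symm⟩
      · exact hoff _ h' iy hiy (hiy'.trans h.symm)
    · rcases hgW i hi with h' | h'
      · exact hfH p hp (h' ▸ h)
      · exact hdisj _ h h'

theorem low_deg [Fintype V] {G : SimpleGraph V} (hK : ¬ HasK4 G) {r r' : V} (hr : G.Adj r r') :
    ∃ w, (∃ s, G.Adj w s ∧ ∀ u, G.Adj w u → u = s) ∨
      (∃ s t, s ≠ t ∧ G.Adj w s ∧ G.Adj w t ∧ ∀ u, G.Adj w u → u = s ∨ u = t) := by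
  by_contra hcon
  push Not at hcon
  refine hK (dirac r fun v hv => ?_)
  obtain ⟨a, ha⟩ : ∃ a, G.Adj v a := by
    rcases hv.cases_tail with h | ⟨c, -, hc⟩
    · exact ⟨r', h ▸ hr⟩
    · exact ⟨c, hc.symm⟩
  obtain ⟨b, hb, hba⟩ := (hcon v).1 a ha
  obtain ⟨c, hc, hca, hcb⟩ := (hcon v).2 a b hba.symm ha hb
  exact ⟨a, b, c, hba.symm, hcb.symm, hca.symm, ha, hb, hc⟩

end Pool.Agent.H58.SP
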