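import Pool.Agent.H58.SP1

set_option autoImplicit false

namespace Pool.Agent.H58.SP

open Relation Finset Polynomial

variable {V : Type*} [Fintype V] [DecidableEq V]

noncomputable def cf {α : Type*} [DecidableEq α] (a b : α) (y : ℂ) : ℂ := if a = b then y else 1

open Classical in
noncomputable def term (y : Sym2 V → ℂ) {n : ℕ} (σ : V → Fin n) : ℂ :=
  ∏ e : Sym2 V, if (e.map σ).IsDiag then y e else 1

noncomputable def Z (y : Sym2 V → ℂ) (n : ℕ) : ℂ := ∑ σ : V → Fin n, term y σ

theorem term_mul (y : Sym2 V → ℂ) {n : ℕ} (σ : V → Fin n) (a b : V) (c : ℂ) :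
    term (Function.update y s(a, b) (y s(a, b) * c)) σ = term y σ * cf (σ a) (σ b) c := by
  classical
  unfold term
  rw [← Finset.mul_prod_erase _ _ (Finset.mem_univ s(a, b)),
    ← Finset.mul_prod_erase Finset.univ (fun e : Sym2 V => if (e.map σ).IsDiag then y e else 1)
      (Finset.mem_univ s(a, b))]
  have : ∏ e ∈ Finset.univ.erase s(a, b), (if (e.map σ).IsDiag then
      Function.update y s(a, b) (y s(a, b) * c) e else 1) =
      ∏ e ∈ Finset.univ.erase s(a, b), (if (e.map σ).IsDiag then y e else 1) := by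
    refine Finset.prod_congr rfl fun e he => ?_
    rw [Function.update_of_ne (Finset.ne_of_mem_erase he)]
  rw [this]
  simp only [Function.update_self, Sym2.map_mk, Sym2.mk_isDiag_iff, cf]
  split_ifs <;> ring

theorem term_indep (y : Sym2 V → ℂ) {n : ℕ} (σ : V → Fin n) (w : V) (c : Fin n)
    (hy : ∀ u, y s(w, u) = 1) : term y (Function.update σ w c) = term y σ := by
  classical
  unfold term
  refine Finset.prod_congr rfl fun e _ => ?_
  induction e using Sym2.ind with
  | h a b =>
    by_cases ha : a = w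
    · subst ha; simp [hy]
    by_cases hb : b = w
    · subst hb
      rw [Sym2.eq_swap]; simp [hy]
    · simp [Function.update_of_ne ha, Function.update_of_ne hb]

theorem sum_update {n : ℕ} (F : (V → Fin n) → ℂ) (w : V) :
    (n : ℂ) * ∑ σ, F σ = ∑ σ : V → Fin n, ∑ c : Fin n, F (Function.update σ w c) := by
  rw [← Fintype.sum_prod_type']
  have hinv : Function.Involutive (fun p : (V → Fin n) × Fin n => (Function.update p.1 w p.2, p.1 w)) := by
    rintro ⟨σ, c⟩
    simp
  rw [← Fintype.sum_equiv hinv.toPerm (fun p => F p.1) (fun p => F (Function.update p.1 w p.2))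
    (by rintro ⟨σ, c⟩; simp)]
  rw [Fintype.sum_prod_type]
  simp [Finset.mul_sum]

theorem sum_cf1 {n : ℕ} (a : Fin n) (y : ℂ) : ∑ c : Fin n, cf c a y = n + (y - 1) := by
  have : ∀ c : Fin n, cf c a y = 1 + if c = a then y - 1 else 0 := by
    intro c; unfold cf; split_ifs <;> ring
  simp [this, Finset.sum_add_distrib]

theorem sum_cf2 {n : ℕ} (a b : Fin n) (y1 y2 : ℂ) : ∑ c : Fin n, cf c a y1 * cf c b y2 =
    n + (y1 - 1) + (y2 - 1) + (y1 - 1) * (y2 - 1) * (cf a b 2 - 1) := by
  have : ∀ c : Fin n, cf c a y1 * cf c b y2 = 1 + (if c = a then y1 - 1 else 0) +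
      (if c = b then y2 - 1 else 0) +
      (if c = a then (y1 - 1) * (y2 - 1) * (cf a b 2 - 1) else 0) := by
    intro c; unfold cf
    by_cases h1 : c = a <;> by_cases h2 : c = b
    · have : a = b := h1.symm.trans h2
      simp only [h1, this, if_true]; ring
    · have : a ≠ b := fun h => h2 (h1.trans h)
      subst h1
      simp only [this, if_true, if_false]; ring
    · simp only [h1, h2, if_true]
      subst h2
      simp only [h1, if_false]; ring
    · simp only [h1, h2, if_false]; ring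
  simp [this, Finset.sum_add_distrib]

theorem red1 (y : Sym2 V → ℂ) (n : ℕ) {w s : V} (hws : w ≠ s)
    (hy : ∀ u, u ≠ s → y s(w, u) = 1) :
    (n : ℂ) * Z y n = (n + (y s(w, s) - 1)) * Z (Function.update y s(w, s) 1) n := by
  set y' := Function.update y s(w, s) 1 with hy'
  have h1 : ∀ u, y' s(w, u) = 1 := by
    intro u
    by_cases hu : u = s
    · subst hu; simp [hy']
    · rw [hy', Function.update_of_ne (by simp [hu, hws]), hy u hu]
  have h2 : y = Function.update y' s(w, s) (y' s(w, s) * y s(w, s)) := by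
    simp [hy']
  unfold Z
  rw [sum_update _ w, Finset.mul_sum]
  refine Finset.sum_congr rfl fun σ _ => ?_
  rw [← sum_cf1 (σ s), Finset.sum_mul]
  refine Finset.sum_congr rfl fun c _ => ?_
  conv_lhs => rw [h2]
  rw [term_mul, term_indep _ _ _ _ h1, Function.update_self, Function.update_of_ne hws.symm]
  ring

noncomputable def up (y : Sym2 V → ℂ) (w s t : V) (c : ℂ) : Sym2 V → ℂ :=
  Function.update (Function.update (Function.update y s(w, s) 1) s(w, t) 1) s(s, t) (y s(s, t) * c)

theorem Z_up (y : Sym2 V → ℂ) (n : ℕ) {w s t : V} (hws : w ≠ s) (hwt : w ≠ t) (c : ℂ) :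
    Z (up y w s t c) n = ∑ σ : V → Fin n,
      term (Function.update (Function.update y s(w, s) 1) s(w, t) 1) σ * cf (σ s) (σ t) c := by
  unfold Z up
  refine Finset.sum_congr rfl fun σ _ => ?_
  rw [← term_mul]
  congr 3
  rw [Function.update_of_ne (by simp [hws.symm, hwt.symm]),
    Function.update_of_ne (by simp [hws.symm, hwt.symm])]

theorem Z_lin (y : Sym2 V → ℂ) (n : ℕ) {w s t : V} (hws : w ≠ s) (hwt : w ≠ t) (x : ℂ) :
    Z (up y w s t (1 + x)) n = Z (up y w s t 1) n + x * (Z (up y w s t 2) n - Z (up y w s t 1) n) := by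
  simp only [Z_up y n hws hwt]
  rw [← Finset.sum_sub_distrib, Finset.mul_sum, ← Finset.sum_add_distrib]
  refine Finset.sum_congr rfl fun σ _ => ?_
  unfold cf
  split_ifs <;> ring

theorem red2 (y : Sym2 V → ℂ) (n : ℕ) {w s t : V} (hws : w ≠ s) (hwt : w ≠ t) (hst : s ≠ t)
    (hy : ∀ u, u ≠ s → u ≠ t → y s(w, u) = 1) :
    (n : ℂ) * Z y n = (n + (y s(w, s) - 1) + (y s(w, t) - 1)) * Z (up y w s t 1) n +
      (y s(w, s) - 1) * (y s(w, t) - 1) * (Z (up y w s t 2) n - Z (up y w s t 1) n) := by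
  simp only [Z_up y n hws hwt]
  set y' := Function.update (Function.update y s(w, s) 1) s(w, t) 1 with hy'
  have hne : s(w, s) ≠ s(w, t) := by simp [hst, hwt]
  have h1 : ∀ u, y' s(w, u) = 1 := by
    intro u
    by_cases hu : u = t
    · subst hu; simp [hy']
    by_cases hu' : u = s
    · subst hu'; rw [hy', Function.update_of_ne hne]; simp
    · rw [hy', Function.update_of_ne (by simp [hu, hwt]),
        Function.update_of_ne (by simp [hu', hws]), hy u hu' hu]
  set y1 := Function.update y' s(w, s) (y' s(w, s) * y s(w, s)) with hy1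
  have h2 : y = Function.update y1 s(w, t) (y1 s(w, t) * y s(w, t)) := by
    funext e
    by_cases e1 : e = s(w, t)
    · subst e1
      rw [Function.update_self, hy1, Function.update_of_ne hne.symm, h1]; simp
    rw [Function.update_of_ne e1]
    by_cases e2 : e = s(w, s)
    · subst e2
      rw [hy1, Function.update_self, h1]; simp
    · rw [hy1, Function.update_of_ne e2, hy', Function.update_of_ne e1, Function.update_of_ne e2]
  unfold Z
  rw [sum_update _ w, ← Finset.sum_sub_distrib, Finset.mul_sum, Finset.mul_sum,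
    ← Finset.sum_add_distrib]
  refine Finset.sum_congr rfl fun σ _ => ?_
  have : ∀ c : Fin n, term y (Function.update σ w c) =
      term y' σ * (cf c (σ s) (y s(w, s)) * cf c (σ t) (y s(w, t))) := by
    intro c
    conv_lhs => rw [h2]
    rw [term_mul, hy1, term_mul, term_indep _ _ _ _ h1, Function.update_self,
      Function.update_of_ne hws.symm, Function.update_of_ne hwt.symm]
    ring
  simp only [this]
  rw [← Finset.mul_sum, sum_cf2]
  have : cf (σ s) (σ t) 1 = 1 := by unfold cf; split_ifs <;> rfl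
  rw [this]
  ring

noncomputable def Phi (R a b : ℝ) : ℝ :=
  32 * min a b / R + 32 * (Real.exp (32 * (a + b) / R) - 1) / R

theorem Phi_nonneg {R a b : ℝ} (hR : 0 < R) (ha : 0 ≤ a) (hb : 0 ≤ b) : 0 ≤ Phi R a b := by
  unfold Phi
  have h1 : 0 ≤ min a b := le_min ha hb
  have h2 : 1 ≤ Real.exp (32 * (a + b) / R) := Real.one_le_exp (by positivity)
  have h3 : 0 ≤ Real.exp (32 * (a + b) / R) - 1 := by linarith
  positivity

theorem Phi_comm (R a b : ℝ) : Phi R a b = Phi R b a := by
  unfold Phi; rw [min_comm, add_comm a b]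

theorem Phi_add {R a b a' b' : ℝ} (hR : 0 < R) (ha : 0 ≤ a) (hb : 0 ≤ b) (ha' : 0 ≤ a')
    (hb' : 0 ≤ b') : Phi R a b + Phi R a' b' ≤ Phi R (a + a') (b + b') := by
  unfold Phi
  have h1 : min a b + min a' b' ≤ min (a + a') (b + b') :=
    le_min (add_le_add (min_le_left _ _) (min_le_left _ _))
      (add_le_add (min_le_right _ _) (min_le_right _ _))
  have h2 : 1 ≤ Real.exp (32 * (a + b) / R) := Real.one_le_exp (by positivity)
  have h3 : 1 ≤ Real.exp (32 * (a' + b') / R) := Real.one_le_exp (by positivity)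
  have h4 : Real.exp (32 * (a + a' + (b + b')) / R) =
      Real.exp (32 * (a + b) / R) * Real.exp (32 * (a' + b') / R) := by
    rw [← Real.exp_add]; congr 1; ring
  rw [h4]
  set E := Real.exp (32 * (a + b) / R)
  set E' := Real.exp (32 * (a' + b') / R)
  have h5 : (E - 1) + (E' - 1) ≤ E * E' - 1 := by nlinarith [mul_nonneg (sub_nonneg.2 h2) (sub_nonneg.2 h3)]
  rw [← sub_nonneg]
  have : 32 * min (a + a') (b + b') / R + 32 * (E * E' - 1) / R -
      (32 * min a b / R + 32 * (E - 1) / R + (32 * min a' b' / R + 32 * (E' - 1) / R)) =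
      32 * ((min (a + a') (b + b') - (min a b + min a' b')) +
        ((E * E' - 1) - ((E - 1) + (E' - 1)))) / R := by ring
  rw [this]
  have h6 : 0 ≤ (min (a + a') (b + b') - (min a b + min a' b')) +
        ((E * E' - 1) - ((E - 1) + (E' - 1))) := by linarith
  positivity

theorem v_bound {R k a b : ℝ} {y : ℂ} (hR : 0 < R) (hk : 32 * Real.exp (64 * k / R) ≤ R)
    (ha : 0 ≤ a) (hak : a ≤ k) (hbk : b ≤ k) (hy : ‖y‖ ≤ Real.exp (Phi R a b)) :
    ‖y - 1‖ ≤ 4 * Real.exp (32 * a / R) ∧ 4 * Real.exp (32 * a / R) ≤ R / 8 := by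
  have h1 : Real.exp (32 * (a + b) / R) ≤ Real.exp (64 * k / R) := by
    apply Real.exp_le_exp.2
    apply div_le_div_of_nonneg_right _ hR.le
    linarith
  have h2 : 32 * (Real.exp (32 * (a + b) / R) - 1) / R ≤ 1 := by
    rw [div_le_one hR]; linarith
  have h3 : 32 * min a b / R ≤ 32 * a / R := by
    apply div_le_div_of_nonneg_right _ hR.le
    linarith [min_le_left a b]
  have h4 : Real.exp (Phi R a b) ≤ Real.exp (32 * a / R) * Real.exp 1 := by
    rw [← Real.exp_add]; apply Real.exp_le_exp.2; unfold Phi; linarith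
  have h5 : Real.exp 1 ≤ 3 := by have := Real.exp_one_lt_d9; linarith
  have h6 : 1 ≤ Real.exp (32 * a / R) := Real.one_le_exp (by positivity)
  have h7 : Real.exp (32 * a / R) ≤ Real.exp (64 * k / R) := by
    apply Real.exp_le_exp.2
    apply div_le_div_of_nonneg_right _ hR.le
    linarith
  refine ⟨?_, by linarith⟩
  have := norm_sub_le y 1
  rw [norm_one] at this
  nlinarith

theorem series_bound {q v1 v2 : ℂ} {a b : ℝ} (hR : 0 < ‖q‖) (ha : 1 ≤ a) (hb : 1 ≤ b)
    (h1 : ‖v1‖ ≤ 4 * Real.exp (32 * a / ‖q‖)) (h1' : 4 * Real.exp (32 * a / ‖q‖) ≤ ‖q‖ / 8)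
    (h2 : ‖v2‖ ≤ 4 * Real.exp (32 * b / ‖q‖)) (h2' : 4 * Real.exp (32 * b / ‖q‖) ≤ ‖q‖ / 8) :
    q + v1 + v2 ≠ 0 ∧ ‖1 + v1 * v2 / (q + v1 + v2)‖ ≤ Real.exp (Phi ‖q‖ a b) := by
  set R := ‖q‖ with hRdef
  have h3 : R / 2 ≤ ‖q + v1 + v2‖ := by
    have e : q = (q + v1 + v2) - v1 - v2 := by ring
    have := norm_sub_le (q + v1 + v2 - v1) v2
    have := norm_sub_le (q + v1 + v2) v1
    rw [← e] at *
    linarith
  have hpos : 0 < ‖q + v1 + v2‖ := by linarith
  refine ⟨norm_pos_iff.1 hpos, ?_⟩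
  have h4 : ‖v1 * v2 / (q + v1 + v2)‖ ≤ 32 * Real.exp (32 * (a + b) / R) / R := by
    rw [norm_div, norm_mul, div_le_iff₀ hpos]
    have e : Real.exp (32 * (a + b) / R) = Real.exp (32 * a / R) * Real.exp (32 * b / R) := by
      rw [← Real.exp_add]; congr 1; ring
    have h5 : ‖v1‖ * ‖v2‖ ≤ (4 * Real.exp (32 * a / R)) * (4 * Real.exp (32 * b / R)) :=
      mul_le_mul h1 h2 (norm_nonneg _) (by positivity)
    calc ‖v1‖ * ‖v2‖ ≤ 32 * Real.exp (32 * (a + b) / R) / R * (R / 2) := by
          rw [e]; field_simp; nlinarith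
      _ ≤ _ := by gcongr
  have h6 : 32 * Real.exp (32 * (a + b) / R) / R ≤ Phi R a b := by
    unfold Phi
    have : 1 ≤ min a b := le_min ha hb
    rw [← add_div]
    apply div_le_div_of_nonneg_right _ hR.le
    linarith
  calc _ ≤ ‖(1 : ℂ)‖ + ‖v1 * v2 / (q + v1 + v2)‖ := norm_add_le _ _
    _ ≤ Phi R a b + 1 := by rw [norm_one]; linarith
    _ ≤ _ := Real.add_one_le_exp _

end Pool.Agent.H58.SP
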