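import Pool.Agent.H58.SP2

set_option autoImplicit false

namespace Pool.Agent.H58.SP

open Relation Finset Polynomial

section
variable {V : Type*}

def del (G : SimpleGraph V) (w : V) : SimpleGraph V where
  Adj u v := G.Adj u v ∧ u ≠ w ∧ v ≠ w
  symm := ⟨fun _ _ h => ⟨h.1.symm, h.2.2, h.2.1⟩⟩
  loopless := ⟨fun _ h => h.1.ne rfl⟩

def sup (G : SimpleGraph V) (w s t : V) : SimpleGraph V where
  Adj u v := (G.Adj u v ∧ u ≠ w ∧ v ≠ w) ∨ (u ≠ v ∧ ((u = s ∧ v = t) ∨ (u = t ∧ v = s)))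
  symm := ⟨fun _ _ h => by
    rcases h with h | ⟨h, h' | h'⟩
    · exact Or.inl ⟨h.1.symm, h.2.2, h.2.1⟩
    · exact Or.inr ⟨h.symm, Or.inr ⟨h'.2, h'.1⟩⟩
    · exact Or.inr ⟨h.symm, Or.inl ⟨h'.2, h'.1⟩⟩⟩
  loopless := ⟨fun _ h => by
    rcases h with h | h
    · exact h.1.ne rfl
    · exact h.1 rfl⟩

theorem k4_del {G : SimpleGraph V} {w : V} (h : HasK4 (del G w)) : HasK4 G := by
  obtain ⟨f, h1, h2, h3⟩ := h
  refine ⟨f, fun i => ⟨(h1 i).1, fun x hx y hy =>
    rtg_mono ((h1 i).2 x hx y hy) fun a b h => ⟨h.1.1, h.2⟩⟩, h2, fun i j hij => ?_⟩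
  obtain ⟨x, hx, y, hy, hxy⟩ := h3 i j hij
  exact ⟨x, hx, y, hy, hxy.1⟩

theorem k4_sup {G : SimpleGraph V} {w s t : V} (hs : G.Adj w s) (ht : G.Adj w t)
    (h : HasK4 (sup G w s t)) : HasK4 G := by
  classical
  obtain ⟨f, h1, h2, h3⟩ := h
  have hiso : ∀ u, ¬ (sup G w s t).Adj w u := by
    rintro u (h | ⟨-, h | h⟩)
    · exact h.2.1 rfl
    · exact hs.ne h.1
    · exact ht.ne h.1
  have hw : ∀ i, w ∉ f i := by
    intro i hi
    obtain ⟨j, hj⟩ := exists_ne i
    obtain ⟨x, hx, y, -, hxy⟩ := h3 i j hj.symm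
    rcases ((h1 i).2 w hi x hx).cases_head with h | ⟨c, hc, -⟩
    · exact hiso y (h ▸ hxy)
    · exact hiso c hc.1
  let g : Fin 4 → Set V := fun i => {x | x ∈ f i ∨ (x = w ∧ s ∈ f i)}
  refine ⟨g, fun i => ?_, fun i j hij => ?_, fun i j hij => ?_⟩
  · obtain ⟨r, hr⟩ := (h1 i).1
    have key : ∀ y ∈ f i, ReflTransGen (fun a b => G.Adj a b ∧ a ∈ g i ∧ b ∈ g i) r y := by
      intro y hy
      have := (h1 i).2 r hr y hy
      clear hy
      induction this with
      | refl => exact ReflTransGen.refl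
      | tail _ h2 ih =>
        obtain ⟨h | ⟨-, ⟨rfl, rfl⟩ | ⟨rfl, rfl⟩⟩, ha, hb⟩ := h2
        · exact ih.tail ⟨h.1, Or.inl ha, Or.inl hb⟩
        · exact (ih.tail ⟨hs.symm, Or.inl ha, Or.inr ⟨rfl, ha⟩⟩).tail
            ⟨ht, Or.inr ⟨rfl, ha⟩, Or.inl hb⟩
        · exact (ih.tail ⟨ht.symm, Or.inl ha, Or.inr ⟨rfl, hb⟩⟩).tail
            ⟨hs, Or.inr ⟨rfl, hb⟩, Or.inl hb⟩
    refine conn_of_root (r := r) (Or.inl hr) ?_
    rintro y (hy | ⟨rfl, hy⟩)
    · exact key y hy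
    · exact (key s hy).tail ⟨hs.symm, Or.inl hy, Or.inr ⟨rfl, hy⟩⟩
  · rw [Set.disjoint_left]
    rintro x (hx | ⟨rfl, hx⟩) (hx' | ⟨hx', hx''⟩)
    · exact Set.disjoint_left.1 (h2 i j hij) hx hx'
    · exact hw i (hx' ▸ hx)
    · exact hw j hx'
    · exact Set.disjoint_left.1 (h2 i j hij) hx hx''
  · obtain ⟨x, hx, y, hy, h | ⟨-, ⟨rfl, rfl⟩ | ⟨rfl, rfl⟩⟩⟩ := h3 i j hij
    · exact ⟨x, Or.inl hx, y, Or.inl hy, h.1⟩
    · exact ⟨w, Or.inr ⟨rfl, hx⟩, y, Or.inl hy, ht⟩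
    · exact ⟨x, Or.inl hx, w, Or.inr ⟨rfl, hy⟩, ht.symm⟩

end

variable {V : Type*} [Fintype V] [DecidableEq V]

def Inv (G : SimpleGraph V) (y : Sym2 V → ℂ) (R k : ℝ) (a : V → V → ℝ) : Prop :=
  (∀ u v, 0 ≤ a u v) ∧ (∀ u, ∑ v, a u v ≤ k) ∧ (∀ u v, G.Adj u v → 1 ≤ a u v) ∧
    ∀ u v, ‖y s(u, v)‖ ≤ Real.exp (Phi R (a u v) (a v u))

theorem Inv.le {G : SimpleGraph V} {y : Sym2 V → ℂ} {R k : ℝ} {a : V → V → ℝ}
    (h : Inv G y R k a) (u v : V) : a u v ≤ k :=
  (Finset.single_le_sum (f := fun v => a u v) (fun v _ => h.1 u v) (Finset.mem_univ v)).trans (h.2.1 u)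

theorem poly_ext {P Q : ℂ[X]} (h : ∀ n : ℕ, 0 < n → P.eval (n : ℂ) = Q.eval (n : ℂ)) : P = Q := by
  apply Polynomial.eq_of_infinite_eval_eq
  refine Set.Infinite.mono (s := (fun n : ℕ => ((n + 1 : ℕ) : ℂ)) '' Set.univ) ?_ ?_
  · rintro x ⟨n, -, rfl⟩
    exact h (n + 1) (by omega)
  · refine Set.infinite_univ.image fun a _ b _ hab => ?_
    have := Nat.cast_injective hab
    omega

theorem supp_up {G : SimpleGraph V} {y : Sym2 V → ℂ} {w s t : V} (hst : s ≠ t)
    (hN : ∀ u, G.Adj w u → u = s ∨ u = t) (hy : ∀ u v, ¬ G.Adj u v → y s(u, v) = 1) (c : ℂ) :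
    ∀ u v, ¬ (sup G w s t).Adj u v → up y w s t c s(u, v) = 1 := by
  intro u v huv
  have h1 : s(u, v) ≠ s(s, t) := by
    intro h
    rcases Sym2.eq_iff.1 h with ⟨rfl, rfl⟩ | ⟨rfl, rfl⟩
    · exact huv (Or.inr ⟨hst, Or.inl ⟨rfl, rfl⟩⟩)
    · exact huv (Or.inr ⟨hst.symm, Or.inr ⟨rfl, rfl⟩⟩)
  unfold up
  rw [Function.update_of_ne h1]
  by_cases h2 : s(u, v) = s(w, t)
  · rw [h2]; simp
  rw [Function.update_of_ne h2]
  by_cases h3 : s(u, v) = s(w, s)
  · rw [h3]; simp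
  rw [Function.update_of_ne h3]
  apply hy
  intro hadj
  refine huv (Or.inl ⟨hadj, ?_, ?_⟩)
  · rintro rfl
    rcases hN v hadj with rfl | rfl
    · exact h3 rfl
    · exact h2 rfl
  · rintro rfl
    rcases hN u hadj.symm with rfl | rfl
    · exact h3 Sym2.eq_swap
    · exact h2 Sym2.eq_swap

theorem inv_up {G : SimpleGraph V} {y : Sym2 V → ℂ} {w s t : V} {R k : ℝ} {a : V → V → ℝ}
    (hR : 0 < R) (hst : s ≠ t) (hs : G.Adj w s) (ht : G.Adj w t)
    (hN : ∀ u, G.Adj w u → u = s ∨ u = t) (hy : ∀ u v, ¬ G.Adj u v → y s(u, v) = 1)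
    (h : Inv G y R k a) {c : ℂ} (hc : ‖c‖ ≤ Real.exp (Phi R (a s w) (a t w))) :
    Inv (sup G w s t) (up y w s t c) R k (fun u v => (if v = w then 0 else a u v) +
      (if (u = s ∧ v = t) ∨ (u = t ∧ v = s) then a u w else 0)) := by
  obtain ⟨h0, h1, h2, h3⟩ := h
  have hnn : ∀ u v, 0 ≤ (if v = w then 0 else a u v) +
      (if (u = s ∧ v = t) ∨ (u = t ∧ v = s) then a u w else 0) := by
    intro u v
    have := h0 u v; have := h0 u w
    split_ifs <;> linarith
  have hws := hs.ne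
  have hwt := ht.ne
  refine ⟨hnn, fun u => ?_, fun u v huv => ?_, fun u v => ?_⟩
  · rw [Finset.sum_add_distrib]
    have e1 : ∑ v, (if v = w then 0 else a u v) + a u w = ∑ v, a u v := by
      have : ∀ v, (if v = w then 0 else a u v) = a u v - if v = w then a u w else 0 := by
        intro v; split_ifs with hv
        · rw [hv]; ring
        · ring
      simp [this]
    have e2 : ∑ v, (if (u = s ∧ v = t) ∨ (u = t ∧ v = s) then a u w else 0) ≤ a u w := by
      by_cases hus : u = s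
      · subst hus; simp [hst]
      by_cases hut : u = t
      · subst hut; simp [hus]
      · simp [hus, hut, h0]
    have := h1 u
    linarith
  · rcases huv with h | ⟨-, h⟩
    · have := h2 u v h.1
      have := h0 u w
      simp only [h.2.2, if_false]
      split_ifs <;> linarith
    · simp only [h, if_true]
      have h5 : 1 ≤ a u w := by
        rcases h with ⟨rfl, -⟩ | ⟨rfl, -⟩
        · exact h2 _ _ hs.symm
        · exact h2 _ _ ht.symm
      have := h0 u v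
      split_ifs <;> linarith
  · by_cases hadj : (sup G w s t).Adj u v
    swap
    · rw [supp_up hst hN hy c u v hadj, norm_one]
      exact Real.one_le_exp (Phi_nonneg hR (hnn u v) (hnn v u))
    have main : ‖up y w s t c s(s, t)‖ ≤ Real.exp (Phi R (a s t + a s w) (a t s + a t w)) := by
      unfold up
      rw [Function.update_self, norm_mul]
      calc _ ≤ Real.exp (Phi R (a s t) (a t s)) * Real.exp (Phi R (a s w) (a t w)) :=
            mul_le_mul (h3 s t) hc (norm_nonneg _) (by positivity)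
        _ ≤ _ := by
            rw [← Real.exp_add]
            exact Real.exp_le_exp.2 (Phi_add hR (h0 _ _) (h0 _ _) (h0 _ _) (h0 _ _))
    by_cases hp : (u = s ∧ v = t) ∨ (u = t ∧ v = s)
    · rcases hp with ⟨rfl, rfl⟩ | ⟨rfl, rfl⟩
      · simpa [hws.symm, hwt.symm, hst, hst.symm] using main
      · rw [Sym2.eq_swap, Phi_comm]
        simpa [hws.symm, hwt.symm, hst, hst.symm] using main
    · have hp' : ¬ ((v = s ∧ u = t) ∨ (v = t ∧ u = s)) := by tauto
      rcases hadj with h | h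
      swap
      · exact absurd h.2 hp
      simp only [hp, hp', h.2.1, h.2.2, if_false, add_zero]
      unfold up
      rw [Function.update_of_ne (by simpa [Sym2.eq_iff] using not_or.1 hp),
        Function.update_of_ne (by simp [h.2.1, h.2.2]),
        Function.update_of_ne (by simp [h.2.1, h.2.2])]
      exact h3 u v

theorem main (q : ℂ) (k : ℝ) (hR : 0 < ‖q‖) (hk : 32 * Real.exp (64 * k / ‖q‖) ≤ ‖q‖) :
    ∀ (m : ℕ) (G : SimpleGraph V) (y : Sym2 V → ℂ), {v | ∃ u, G.Adj v u}.ncard ≤ m → ¬ HasK4 G →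
      (∀ u v, ¬ G.Adj u v → y s(u, v) = 1) →
      ∃ P : ℂ[X], (∀ n : ℕ, P.eval (n : ℂ) = (n : ℂ) ^ m * Z y n) ∧
        ((∃ a, Inv G y ‖q‖ k a) → P.eval q ≠ 0) := by
  have base : ∀ (m : ℕ) (G : SimpleGraph V) (y : Sym2 V → ℂ), (∀ u v, ¬ G.Adj u v) →
      (∀ u v, ¬ G.Adj u v → y s(u, v) = 1) →
      ∃ P : ℂ[X], (∀ n : ℕ, P.eval (n : ℂ) = (n : ℂ) ^ m * Z y n) ∧
        ((∃ a, Inv G y ‖q‖ k a) → P.eval q ≠ 0) := by
    intro m G y hG hy
    refine ⟨X ^ (m + Fintype.card V), fun n => ?_, fun _ => ?_⟩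
    · have : ∀ σ : V → Fin n, term y σ = 1 := by
        intro σ
        unfold term
        refine Finset.prod_eq_one fun e _ => ?_
        induction e using Sym2.ind with
        | h a b => simp [hy a b (hG a b)]
      simp [Z, this, pow_add]
    · simp [norm_pos_iff.1 hR]
  intro m
  induction m with
  | zero =>
    intro G y hm _ hy
    refine base 0 G y (fun u v huv => ?_) hy
    have := (Set.ncard_eq_zero (Set.toFinite _)).1 (Nat.le_zero.1 hm)
    exact (Set.eq_empty_iff_forall_notMem.1 this u) ⟨v, huv⟩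
  | succ m ih =>
    intro G y hm hK hy
    by_cases hE : ∀ u v, ¬ G.Adj u v
    · exact base _ G y hE hy
    push Not at hE
    obtain ⟨r, r', hr⟩ := hE
    have hcard : ∀ (G' : SimpleGraph V) (w : V), (∃ u, G.Adj w u) →
        (∀ v u, G'.Adj v u → v ≠ w ∧ ∃ u, G.Adj v u) → {v | ∃ u, G'.Adj v u}.ncard ≤ m := by
      intro G' w hw h
      have h1 : {v | ∃ u, G'.Adj v u} ⊂ {v | ∃ u, G.Adj v u} := by
        refine ⟨fun v ⟨u, hu⟩ => (h v u hu).2, fun hsub => ?_⟩
        obtain ⟨u, hu⟩ := hsub hw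
        exact (h w u hu).1 rfl
      have := Set.ncard_lt_ncard h1 (Set.toFinite _)
      omega
    obtain ⟨w, ⟨s, hs, hN⟩ | ⟨s, t, hst, hs, ht, hN⟩⟩ := low_deg hK hr
    · have hsupp : ∀ u v, ¬ (del G w).Adj u v → Function.update y s(w, s) 1 s(u, v) = 1 := by
        intro u v huv
        by_cases h3 : s(u, v) = s(w, s)
        · rw [h3]; simp
        rw [Function.update_of_ne h3]
        apply hy
        intro hadj
        refine huv ⟨hadj, ?_, ?_⟩
        · rintro rfl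
          exact h3 (by rw [hN v hadj])
        · rintro rfl
          exact h3 (by rw [hN u hadj.symm]; exact Sym2.eq_swap)
      obtain ⟨P, hP, hP'⟩ := ih (del G w) (Function.update y s(w, s) 1)
        (hcard _ w ⟨s, hs⟩ fun v u h => ⟨h.2.1, u, h.1⟩) (fun h => hK (k4_del h)) hsupp
      refine ⟨(X + C (y s(w, s) - 1)) * P, fun n => ?_, ?_⟩
      · have := red1 y n hs.ne fun u hu => hy w u fun h => hu (hN u h)
        simp only [eval_mul, eval_add, eval_X, eval_C, hP, pow_succ]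
        linear_combination (-(n : ℂ) ^ m) * this
      · rintro ⟨a, ha⟩
        simp only [eval_mul, eval_add, eval_X, eval_C]
        refine mul_ne_zero ?_ (hP' ⟨a, ha.1, ha.2.1, fun u v h => ha.2.2.1 u v h.1, fun u v => ?_⟩)
        · obtain ⟨h1, h2⟩ := v_bound hR hk (ha.1 w s) (ha.le w s) (ha.le s w) (ha.2.2.2 w s)
          intro h0
          have : q = -(y s(w, s) - 1) := by linear_combination h0
          have h3 : ‖q‖ = ‖y s(w, s) - 1‖ := by rw [this, norm_neg]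
          linarith
        · by_cases h3 : s(u, v) = s(w, s)
          · rw [h3, Function.update_self, norm_one]
            exact Real.one_le_exp (Phi_nonneg hR (ha.1 _ _) (ha.1 _ _))
          · rw [Function.update_of_ne h3]; exact ha.2.2.2 u v
    · have hc : {v | ∃ u, (sup G w s t).Adj v u}.ncard ≤ m := by
        refine hcard _ w ⟨s, hs⟩ ?_
        rintro v u (h | ⟨-, ⟨rfl, rfl⟩ | ⟨rfl, rfl⟩⟩)
        · exact ⟨h.2.1, u, h.1⟩
        · exact ⟨hs.ne.symm, w, hs.symm⟩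
        · exact ⟨ht.ne.symm, w, ht.symm⟩
      have hK' : ¬ HasK4 (sup G w s t) := fun h => hK (k4_sup hs ht h)
      set v1 := y s(w, s) - 1 with hv1
      set v2 := y s(w, t) - 1 with hv2
      obtain ⟨P1, hP1, -⟩ := ih _ _ hc hK' (supp_up hst hN hy 1)
      obtain ⟨P2, hP2, -⟩ := ih _ _ hc hK' (supp_up hst hN hy 2)
      obtain ⟨Px, hPx, hPx'⟩ := ih _ _ hc hK' (supp_up hst hN hy (1 + v1 * v2 / (q + v1 + v2)))
      have hx : Px = P1 + C (v1 * v2 / (q + v1 + v2)) * (P2 - P1) := by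
        apply poly_ext
        intro n _
        simp only [eval_add, eval_mul, eval_sub, eval_C, hP1, hP2, hPx, Z_lin y n hs.ne ht.ne]
        ring
      refine ⟨(X + C v1 + C v2) * P1 + C (v1 * v2) * (P2 - P1), fun n => ?_, ?_⟩
      · have := red2 y n hs.ne ht.ne hst fun u hu hu' => hy w u fun h => by
          rcases hN u h with h | h
          · exact hu h
          · exact hu' h
        simp only [eval_mul, eval_add, eval_sub, eval_X, eval_C, hP1, hP2, pow_succ]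
        linear_combination (-(n : ℂ) ^ m) * this
      · rintro ⟨a, ha⟩
        obtain ⟨h1, h1'⟩ := v_bound hR hk (ha.1 s w) (ha.le s w) (ha.le w s) (ha.2.2.2 s w)
        obtain ⟨h2, h2'⟩ := v_bound hR hk (ha.1 t w) (ha.le t w) (ha.le w t) (ha.2.2.2 t w)
        rw [Sym2.eq_swap] at h1 h2
        obtain ⟨h3, h4⟩ := series_bound hR (ha.2.2.1 _ _ hs.symm) (ha.2.2.1 _ _ ht.symm) h1 h1' h2 h2'
        have h5 := hPx' ⟨_, inv_up hR hst hs ht hN hy ha h4⟩
        rw [hx] at h5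
        intro h0
        apply h5
        simp only [eval_mul, eval_add, eval_sub, eval_X, eval_C] at h0 ⊢
        rw [← hv1, ← hv2] at h3
        field_simp
        linear_combination h0

end Pool.Agent.H58.SP
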