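import Mathlib

/-! One-dimensional convexity tools: local supports, and switching two convex functions
while keeping the sum of reciprocals. -/

set_option autoImplicit false

open Set Filter Topology

namespace H58SW

def Sub (F : ℝ → ℝ) (t0 p : ℝ) : Prop := ∀ t, F t0 + p * (t - t0) ≤ F t

lemma exists_sub {F : ℝ → ℝ} (h : ConvexOn ℝ univ F) (t0 : ℝ) : ∃ p, Sub F t0 p := by
  refine ⟨derivWithin F (Ioi t0) t0, fun t => ?_⟩
  rcases lt_trichotomy t t0 with ht | ht | ht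
  · have a := h.slope_le_leftDeriv_of_mem_interior (x := t) (y := t0) trivial (by simp) ht
    have b := h.leftDeriv_le_rightDeriv_of_mem_interior (x := t0) (by simp)
    have c := a.trans b
    rw [slope_def_field, div_le_iff₀ (by linarith)] at c
    linarith
  · subst ht; simp
  · have a := h.rightDeriv_le_slope_of_mem_interior (x := t0) (y := t) (by simp) trivial ht
    rw [slope_def_field, le_div_iff₀ (by linarith)] at a
    linarith

lemma convex_of_local {F : ℝ → ℝ} (hc : Continuous F)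
    (hs : ∀ t0, ∃ p, ∀ᶠ t in 𝓝 t0, F t0 + p * (t - t0) ≤ F t) : ConvexOn ℝ univ F := by
  refine LinearOrder.convexOn_of_lt convex_univ ?_
  intro x _ y _ hxy a b ha hb hab
  by_contra hcon
  push Not at hcon
  set k := (F y - F x) / (y - x) with hk
  have hk' : k * (y - x) = F y - F x := by rw [hk]; field_simp [sub_ne_zero.2 hxy.ne']
  let G : ℝ → ℝ := fun t => F t - (F x + k * (t - x))
  have Gc : Continuous G := by fun_prop
  have zI : a • x + b • y ∈ Icc x y := by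
    simp only [smul_eq_mul]
    have e1 : a * x + b * y = x + b * (y - x) := by rw [show a = 1 - b by linarith]; ring
    have e2 : a * x + b * y = y - a * (y - x) := by rw [show b = 1 - a by linarith]; ring
    have := mul_pos hb (sub_pos.2 hxy)
    have := mul_pos ha (sub_pos.2 hxy)
    constructor <;> linarith
  have Gz : 0 < G (a • x + b • y) := by
    simp only [G, smul_eq_mul] at hcon ⊢
    have : a * x + b * y - x = b * (y - x) := by rw [show a = 1 - b by linarith]; ring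
    rw [this]
    have : k * (b * (y - x)) = b * (F y - F x) := by rw [← hk']; ring
    rw [this]
    have e : a * F x = F x - b * F x := by rw [show a = 1 - b by linarith]; ring
    linarith
  obtain ⟨c, hcI, hmax⟩ := isCompact_Icc.exists_isMaxOn ⟨_, zI⟩ Gc.continuousOn
  have hS : IsCompact (Icc x y ∩ {t | G t = G c}) :=
    isCompact_Icc.inter_right (isClosed_eq Gc continuous_const)
  obtain ⟨z, ⟨hzI, hz⟩, hmin⟩ := hS.exists_isMinOn ⟨c, hcI, rfl⟩ continuousOn_id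
  have hz : G z = G c := hz
  have Gc0 : 0 < G c := lt_of_lt_of_le Gz (hmax zI)
  have zx : x < z := by
    refine lt_of_le_of_ne hzI.1 ?_
    rintro rfl
    simp [G] at hz Gc0
    linarith
  have zy : z < y := by
    refine lt_of_le_of_ne hzI.2 ?_
    rintro rfl
    have : G z = 0 := by simp only [G]; linarith
    linarith
  obtain ⟨p, hp⟩ := hs z
  obtain ⟨e, he, hp⟩ := Metric.eventually_nhds_iff.1 (hp.and (Ioo_mem_nhds zx zy))
  have h1 := hp (y := z - e / 2) (by rw [Real.dist_eq, abs_lt]; constructor <;> linarith)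
  have h2 := hp (y := z + e / 2) (by rw [Real.dist_eq, abs_lt]; constructor <;> linarith)
  have m1 : G (z - e / 2) ≤ G c := hmax (Ioo_subset_Icc_self h1.2)
  have m2 : G (z + e / 2) ≤ G c := hmax (Ioo_subset_Icc_self h2.2)
  have : G (z - e / 2) = G c := by
    have a1 := h1.1
    have a2 := h2.1
    simp only [G] at m1 m2 hz ⊢
    nlinarith
  have := hmin (a := z - e / 2) ⟨Ioo_subset_Icc_self h1.2, this⟩
  simp only [id, mem_ofPred_eq] at this
  linarith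

lemma alg {X Y W p p1 p2 : ℝ} (hX : 0 < X) (hY : 0 < Y) (hW : X < W) (hr : 0 < X + Y - W)
    (hp : 0 < p) (h1 : p1 ≤ p) (h2 : -p / 2 ≤ p1) (h3 : 4 * |p2| * Y < p * X) :
    (p1 ^ 2 * X ^ 3 + p2 ^ 2 * Y ^ 3 - p ^ 2 * W ^ 3) * (X + Y - W) <
      (-(p1 * X ^ 2) - p2 * Y ^ 2 + p * W ^ 2) ^ 2 := by
  set β := p * W ^ 2 - p1 * X ^ 2 with hβ
  have WX : X ^ 2 < W ^ 2 := by nlinarith
  have β0 : 0 < β := by
    have : p1 * X ^ 2 ≤ p * X ^ 2 := by nlinarith [sq_nonneg X]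
    nlinarith
  have a1 : p * X / 2 * β ≤ p ^ 2 * W ^ 3 - p1 ^ 2 * X ^ 3 := by
    have b1 : X * (W ^ 2 - X ^ 2) ≤ W ^ 3 - X ^ 3 := by nlinarith [sq_nonneg W]
    have b2 : 0 ≤ X * (W ^ 2 - X ^ 2) := by nlinarith
    have b3 : p / 2 * (p - p1) ≤ (p - p1) * (p + p1) := by nlinarith
    have b4 : 0 < X ^ 3 := by positivity
    have b5 := mul_le_mul_of_nonneg_right b3 b4.le
    have b6 := mul_le_mul_of_nonneg_left b1 (sq_nonneg p)
    have b7 := mul_nonneg (sq_nonneg p) b2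
    rw [hβ]; nlinarith
  have a2 : -(2 * p2 * Y * β) ≥ -(2 * |p2| * Y * β) := by
    have := le_abs_self p2
    have := mul_pos hY β0
    nlinarith
  have a3 : 2 * |p2| * Y * β < p * X / 2 * β := by nlinarith
  have e : -(p1 * X ^ 2) - p2 * Y ^ 2 + p * W ^ 2 = β - p2 * Y ^ 2 := by rw [hβ]; ring
  rw [e]
  have a4 : 0 ≤ (β - p2 * Y ^ 2 + p2 * Y * (X + Y - W)) ^ 2 := sq_nonneg _
  have a5 : 0 ≤ (p2 * Y) ^ 2 * (W - X) := by nlinarith [sq_nonneg (p2 * Y)]
  have a6 : p1 ^ 2 * X ^ 3 + p2 ^ 2 * Y ^ 3 - p ^ 2 * W ^ 3 <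
      p2 ^ 2 * Y ^ 3 - 2 * p2 * Y * β + (p2 * Y) ^ 2 * (W - X) := by linarith
  have a7 := mul_lt_mul_of_pos_right a6 hr
  nlinarith

noncomputable def Phi (h1 h2 B : ℝ → ℝ) (t : ℝ) : ℝ := ((h1 t)⁻¹ + (h2 t)⁻¹ - (B t)⁻¹)⁻¹

lemma phi_loc {h1 h2 : ℝ → ℝ} (c1 : Continuous h1) (c2 : Continuous h2)
    {β p t0 p1 p2 : ℝ} (s1 : Sub h1 t0 p1) (s2 : Sub h2 t0 p2) (u0 : 0 < h1 t0) (v0 : 0 < h2 t0)
    (w0 : 0 < β + p * t0) (hw : β + p * t0 < h1 t0)
    (hr : (β + p * t0)⁻¹ < (h1 t0)⁻¹ + (h2 t0)⁻¹)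
    (hp : 0 < p) (b1 : p1 ≤ p) (b2 : -p / 2 ≤ p1) (b3 : 4 * |p2| * h1 t0 < p * h2 t0) :
    ∃ q, ∀ᶠ t in 𝓝 t0, Phi h1 h2 (fun t => β + p * t) t0 + q * (t - t0) ≤
      Phi h1 h2 (fun t => β + p * t) t := by
  set u := h1 t0
  set v := h2 t0
  set w := β + p * t0 with hwd
  set y0 := u⁻¹ + v⁻¹ - w⁻¹ with hy0
  set y1 := -(p1 * u⁻¹ ^ 2) - p2 * v⁻¹ ^ 2 + p * w⁻¹ ^ 2 with hy1
  have y0p : 0 < y0 := by linarith
  have key := alg (X := u⁻¹) (Y := v⁻¹) (W := w⁻¹) (p := p) (p1 := p1) (p2 := p2)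
    (by positivity) (by positivity) (inv_strictAnti₀ w0 hw) y0p hp b1 b2 (by
      rw [← div_eq_mul_inv, ← div_eq_mul_inv, div_lt_div_iff₀ v0 u0]; exact b3)
  let q : ℝ → ℝ := fun t => p1 ^ 2 * u⁻¹ ^ 2 * (u + p1 * (t - t0))⁻¹ +
    p2 ^ 2 * v⁻¹ ^ 2 * (v + p2 * (t - t0))⁻¹ - p ^ 2 * w⁻¹ ^ 2 * (w + p * (t - t0))⁻¹
  have ca : ∀ c d : ℝ, 0 < c → ContinuousAt (fun t => (c + d * (t - t0))⁻¹) t0 := by
    intro c d hc
    exact ContinuousAt.inv₀ (by fun_prop) (by simpa using hc.ne')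
  have qc : ContinuousAt (fun t => q t * (y0 - y1 * (t - t0))) t0 :=
    (((continuousAt_const.mul (ca u p1 u0)).add (continuousAt_const.mul (ca v p2 v0))).sub
      (continuousAt_const.mul (ca w p w0))).mul (by fun_prop)
  have e1 : ∀ᶠ t in 𝓝 t0, q t * (y0 - y1 * (t - t0)) < y1 ^ 2 := by
    refine qc.eventually (gt_mem_nhds ?_)
    simp only [q, sub_self, mul_zero, add_zero, sub_zero]
    refine lt_of_eq_of_lt ?_ key
    rw [hy0]; ring
  have ev : ∀ c d : ℝ, 0 < c → ∀ᶠ t in 𝓝 t0, 0 < c + d * (t - t0) := by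
    intro c d hc
    have : ContinuousAt (fun t => c + d * (t - t0)) t0 := by fun_prop
    exact this.eventually (lt_mem_nhds (by simpa using hc))
  have e5 : ∀ᶠ t in 𝓝 t0, 0 < (h1 t)⁻¹ + (h2 t)⁻¹ - (β + p * t)⁻¹ := by
    have : ContinuousAt (fun t => (h1 t)⁻¹ + (h2 t)⁻¹ - (β + p * t)⁻¹) t0 :=
      ((c1.continuousAt.inv₀ u0.ne').add (c2.continuousAt.inv₀ v0.ne')).sub
        (ContinuousAt.inv₀ (by fun_prop) w0.ne')
    exact this.eventually (lt_mem_nhds y0p)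
  refine ⟨-y1 / y0 ^ 2, ?_⟩
  filter_upwards [e1, ev u p1 u0, ev v p2 v0, ev w p w0, ev y0 (-y1) y0p, e5] with t f1 f2 f3 f4 f6 f5
  simp only [Phi]
  have g1 : (h1 t)⁻¹ ≤ (u + p1 * (t - t0))⁻¹ := inv_anti₀ f2 (s1 t)
  have g2 : (h2 t)⁻¹ ≤ (v + p2 * (t - t0))⁻¹ := inv_anti₀ f3 (s2 t)
  have g3 : β + p * t = w + p * (t - t0) := by rw [hwd]; ring
  have id1 : ∀ c d s : ℝ, 0 < c → 0 < c + d * s →
      (c + d * s)⁻¹ = c⁻¹ - d * c⁻¹ ^ 2 * s + s ^ 2 * (d ^ 2 * c⁻¹ ^ 2 * (c + d * s)⁻¹) := by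
    intro c d s hc hcd
    field_simp
    ring
  have g4 : (u + p1 * (t - t0))⁻¹ + (v + p2 * (t - t0))⁻¹ - (w + p * (t - t0))⁻¹ =
      y0 + y1 * (t - t0) + (t - t0) ^ 2 * q t := by
    have i1 := id1 u p1 (t - t0) u0 f2
    have i2 := id1 v p2 (t - t0) v0 f3
    have i3 := id1 w p (t - t0) w0 f4
    simp only [q, hy0, hy1]
    linear_combination i1 + i2 - i3
  rw [g3] at f5 ⊢
  set Y := (h1 t)⁻¹ + (h2 t)⁻¹ - (w + p * (t - t0))⁻¹
  have g5 : Y ≤ y0 + y1 * (t - t0) + (t - t0) ^ 2 * q t := by rw [← g4]; simp only [Y]; linarith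
  have g6 : Y * (y0 - y1 * (t - t0)) ≤ y0 ^ 2 := by
    have a := mul_le_mul_of_nonneg_right g5 (by linarith : 0 ≤ y0 - y1 * (t - t0))
    have b := mul_le_mul_of_nonneg_left f1.le (sq_nonneg (t - t0))
    nlinarith
  rw [← hwd, ← hy0]
  have e : y0⁻¹ + -y1 / y0 ^ 2 * (t - t0) = (y0 - y1 * (t - t0)) / y0 ^ 2 := by
    field_simp; ring
  rw [e, div_le_iff₀ (by positivity), inv_mul_eq_div, le_div_iff₀ f5]
  linarith

/-- the data of a switch -/
structure SD where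
  h1 : ℝ → ℝ
  h2 : ℝ → ℝ
  v1 : ConvexOn ℝ univ h1
  v2 : ConvexOn ℝ univ h2
  p1 : ∀ t, 0 < h1 t
  p2 : ∀ t, 0 < h2 t
  r : ℝ
  α : ℝ
  β : ℝ
  p : ℝ
  a : ℝ
  m : ℝ
  b : ℝ
  hp : 0 < p
  ra : -r < a
  am : a < m
  mb : m < b
  br : b < r
  A0 : ∀ t, |t| ≤ r → 0 < α - p * t
  B0 : ∀ t, |t| ≤ r → 0 < β + p * t
  Ale : ∀ t, |t| ≤ r → α - p * t ≤ h1 t
  Ble : ∀ t, |t| ≤ r → β + p * t ≤ h1 t
  Aeq : h1 a = α - p * a
  Beq : h1 b = β + p * b
  Ar : ∀ t, |t| ≤ r → (α - p * t)⁻¹ < (h1 t)⁻¹ + (h2 t)⁻¹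
  Br : ∀ t, |t| ≤ r → (β + p * t)⁻¹ < (h1 t)⁻¹ + (h2 t)⁻¹
  Ele : ∀ᶠ t in 𝓝 m, (h1 t)⁻¹ + (h2 t)⁻¹ ≤ (α - p * t)⁻¹ + (β + p * t)⁻¹
  Eeq : (h1 m)⁻¹ + (h2 m)⁻¹ = (α - p * m)⁻¹ + (β + p * m)⁻¹
  s1 : ∀ t q, m ≤ t → t ≤ b → Sub h1 t q → -p / 2 ≤ q
  s1' : ∀ t q, a ≤ t → t ≤ m → Sub h1 t q → q ≤ p / 2
  s2 : ∀ t q, a ≤ t → t ≤ b → Sub h2 t q → 4 * |q| * h1 t < p * h2 t

lemma cont_of {F : ℝ → ℝ} (h : ConvexOn ℝ univ F) : Continuous F :=
  continuousOn_univ.1 (h.continuousOn isOpen_univ)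

lemma convex_neg {F : ℝ → ℝ} (h : ConvexOn ℝ univ F) : ConvexOn ℝ univ (fun t => F (-t)) := by
  refine ⟨convex_univ, fun x _ y _ a b ha hb hab => ?_⟩
  have := h.2 (mem_univ (-x)) (mem_univ (-y)) ha hb hab
  convert this using 2
  simp only [smul_eq_mul]; ring

lemma Sub.neg {F : ℝ → ℝ} {t q : ℝ} (h : Sub (fun t => F (-t)) t q) : Sub F (-t) (-q) := by
  intro s
  have := h (-s)
  simp only [neg_neg] at this
  linarith

def SD.mirror (S : SD) : SD where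
  h1 t := S.h1 (-t)
  h2 t := S.h2 (-t)
  v1 := convex_neg S.v1
  v2 := convex_neg S.v2
  p1 t := S.p1 _
  p2 t := S.p2 _
  r := S.r
  α := S.β
  β := S.α
  p := S.p
  a := -S.b
  m := -S.m
  b := -S.a
  hp := S.hp
  ra := by linarith [S.br]
  am := by linarith [S.mb]
  mb := by linarith [S.am]
  br := by linarith [S.ra]
  A0 t ht := by simpa [sub_eq_add_neg] using S.B0 (-t) (by rwa [abs_neg])
  B0 t ht := by simpa using S.A0 (-t) (by rwa [abs_neg])
  Ale t ht := by simpa [sub_eq_add_neg] using S.Ble (-t) (by rwa [abs_neg])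
  Ble t ht := by simpa using S.Ale (-t) (by rwa [abs_neg])
  Aeq := by simpa using S.Beq
  Beq := by simpa [sub_eq_add_neg] using S.Aeq
  Ar t ht := by simpa only [sub_eq_add_neg, mul_neg] using S.Br (-t) (by rwa [abs_neg])
  Br t ht := by simpa only [mul_neg, sub_neg_eq_add] using S.Ar (-t) (by rwa [abs_neg])
  Ele := by
    have : Tendsto (fun t : ℝ => -t) (𝓝 (-S.m)) (𝓝 S.m) := by
      simpa using (continuous_neg.tendsto (-S.m))
    filter_upwards [this.eventually S.Ele] with t ht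
    simp only [mul_neg, sub_neg_eq_add, ← sub_eq_add_neg] at ht
    linarith
  Eeq := by
    have := S.Eeq
    simp only [neg_neg, mul_neg, sub_neg_eq_add, ← sub_eq_add_neg]
    linarith
  s1 t q h1 h2 h := by
    have := S.s1' (-t) (-q) (by linarith) (by linarith) h.neg
    linarith
  s1' t q h1 h2 h := by
    have := S.s1 (-t) (-q) (by linarith) (by linarith) h.neg
    linarith
  s2 t q h1 h2 h := by
    have := S.s2 (-t) (-q) (by linarith) (by linarith) h.neg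
    rwa [abs_neg] at this

noncomputable def SD.F (S : SD) (t : ℝ) : ℝ :=
  if t ≤ S.a then S.h1 t else if t ≤ S.m then S.α - S.p * t else
    if t ≤ S.b then Phi S.h1 S.h2 (fun t => S.β + S.p * t) (max S.m (min t S.b)) else S.h2 t

namespace SD
variable (S : SD)

lemma abs_le {t : ℝ} (h1 : S.a ≤ t) (h2 : t ≤ S.b) : |t| ≤ S.r := by
  rw [_root_.abs_le]; constructor <;> linarith [S.ra, S.br]

lemma F1 {t : ℝ} (h : t ≤ S.a) : S.F t = S.h1 t := by simp [F, h]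

lemma phim : Phi S.h1 S.h2 (fun t => S.β + S.p * t) S.m = S.α - S.p * S.m := by
  simp only [Phi]; rw [S.Eeq]; simp

lemma phib : Phi S.h1 S.h2 (fun t => S.β + S.p * t) S.b = S.h2 S.b := by
  simp only [Phi]; rw [S.Beq, add_sub_cancel_left, inv_inv]

lemma F2 {t : ℝ} (h1 : S.a ≤ t) (h2 : t ≤ S.m) : S.F t = S.α - S.p * t := by
  rcases h1.eq_or_lt with h | h
  · rw [← h, S.F1 le_rfl, S.Aeq]
  · simp [F, not_le.2 h, h2]

lemma F3 {t : ℝ} (h1 : S.m ≤ t) (h2 : t ≤ S.b) :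
    S.F t = Phi S.h1 S.h2 (fun t => S.β + S.p * t) t := by
  rcases h1.eq_or_lt with h | h
  · rw [← h, S.F2 S.am.le le_rfl, S.phim]
  · simp [F, not_le.2 h, not_le.2 (S.am.trans h), h2, h1]

lemma F4 {t : ℝ} (h1 : S.b ≤ t) : S.F t = S.h2 t := by
  rcases h1.eq_or_lt with h | h
  · rw [← h, S.F3 S.mb.le le_rfl, S.phib]
  · simp [F, not_le.2 h, not_le.2 (S.mb.trans h), not_le.2 (S.am.trans (S.mb.trans h))]

lemma cont : Continuous S.F := by
  have c1 := cont_of S.v1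
  have c2 := cont_of S.v2
  have c3 : Continuous fun t => Phi S.h1 S.h2 (fun t => S.β + S.p * t) (max S.m (min t S.b)) := by
    have : ContinuousOn (Phi S.h1 S.h2 (fun t => S.β + S.p * t)) (Icc S.m S.b) := by
      intro t ht
      have ht' := S.abs_le (S.am.le.trans ht.1) ht.2
      refine ContinuousAt.continuousWithinAt (ContinuousAt.inv₀ ?_ (sub_pos.2 (S.Br t ht')).ne')
      exact ((c1.continuousAt.inv₀ (S.p1 t).ne').add (c2.continuousAt.inv₀ (S.p2 t).ne')).sub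
        (ContinuousAt.inv₀ (by fun_prop) (S.B0 t ht').ne')
    exact this.comp_continuous (by fun_prop) fun t =>
      ⟨le_max_left _ _, max_le S.mb.le (min_le_right _ _)⟩
  refine Continuous.if_le c1 (Continuous.if_le (by fun_prop) (Continuous.if_le c3 c2
    continuous_id continuous_const ?_) continuous_id continuous_const ?_) continuous_id
    continuous_const ?_
  · rintro t rfl
    simp [S.mb.le, S.phib]
  · rintro t rfl
    simp [S.mb.le, S.phim]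
  · rintro t rfl
    simp [S.am.le, S.Aeq]

lemma phi_ge {t : ℝ} (ht : |t| ≤ S.r) : S.h2 t ≤ Phi S.h1 S.h2 (fun t => S.β + S.p * t) t := by
  have a := inv_anti₀ (S.B0 t ht) (S.Ble t ht)
  have b := S.Br t ht
  simp only [Phi]
  rw [le_inv_comm₀ (S.p2 t) (by linarith)]
  linarith

lemma pos (t : ℝ) : 0 < S.F t := by
  rcases le_total t S.a with h | h
  · rw [S.F1 h]; exact S.p1 t
  rcases le_total t S.m with h' | h'
  · rw [S.F2 h h']; exact S.A0 t (S.abs_le h (h'.trans S.mb.le))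
  rcases le_total t S.b with h'' | h''
  · rw [S.F3 h' h'']; exact lt_of_lt_of_le (S.p2 t) (S.phi_ge (S.abs_le h h''))
  · rw [S.F4 h'']; exact S.p2 t

lemma convex : ConvexOn ℝ univ S.F := by
  refine convex_of_local S.cont fun t0 => ?_
  have er : ∀ t0, S.a ≤ t0 → t0 ≤ S.b → ∀ᶠ t in 𝓝 t0, |t| ≤ S.r := by
    intro t0 h1 h2
    filter_upwards [Ioo_mem_nhds (S.ra.trans_le h1) (h2.trans_lt S.br)] with t ht
    exact _root_.abs_le.2 ⟨ht.1.le, ht.2.le⟩
  rcases lt_or_ge t0 S.a with h | h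
  · obtain ⟨q, hq⟩ := exists_sub S.v1 t0
    refine ⟨q, ?_⟩
    filter_upwards [gt_mem_nhds h] with t ht
    rw [S.F1 h.le, S.F1 ht.le]; exact hq t
  rcases le_or_gt t0 S.m with h' | h'
  · refine ⟨-S.p, ?_⟩
    have : ∀ᶠ t in 𝓝 t0, t ≤ S.m ∨ (S.h1 t)⁻¹ + (S.h2 t)⁻¹ ≤
        (S.α - S.p * t)⁻¹ + (S.β + S.p * t)⁻¹ := by
      rcases h'.eq_or_lt with e | e
      · rw [e]; exact S.Ele.mono fun t ht => Or.inr ht
      · exact (gt_mem_nhds e).mono fun t ht => Or.inl (le_of_lt ht)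
    filter_upwards [this, er t0 h (h'.trans S.mb.le), gt_mem_nhds (h'.trans_lt S.mb)]
      with t h1 h2 h3
    rw [S.F2 h h']
    suffices S.α - S.p * t ≤ S.F t by linarith
    rcases le_total t S.a with g | g
    · rw [S.F1 g]; exact S.Ale t h2
    rcases le_or_gt t S.m with g' | g'
    · rw [S.F2 g g']
    · rw [S.F3 g'.le h3.le]
      have := h1.resolve_left (not_le.2 g')
      simp only [Phi]
      rw [le_inv_comm₀ (S.A0 t h2) (by linarith [S.Br t h2])]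
      linarith
  obtain ⟨q2, hq2⟩ := exists_sub S.v2 t0
  by_cases hc : S.b ≤ t0 ∨ S.h1 t0 = S.β + S.p * t0
  · refine ⟨q2, ?_⟩
    have e0 : S.F t0 = S.h2 t0 := by
      rcases le_total S.b t0 with g | g
      · exact S.F4 g
      rcases hc with hc | hc
      · exact S.F4 hc
      · rw [S.F3 h'.le g]; simp only [Phi]; rw [hc, add_sub_cancel_left, inv_inv]
    filter_upwards [lt_mem_nhds h'] with t ht
    rw [e0]
    refine (hq2 t).trans ?_
    rcases le_total t S.b with g | g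
    · rw [S.F3 ht.le g]; exact S.phi_ge (S.abs_le (S.am.le.trans ht.le) g)
    · rw [S.F4 g]
  · push Not at hc
    have ht0 := S.abs_le h hc.1.le
    obtain ⟨q1, hq1⟩ := exists_sub S.v1 t0
    have hw := lt_of_le_of_ne (S.Ble t0 ht0) (Ne.symm hc.2)
    have b1 : q1 ≤ S.p := by
      have := hq1 S.b
      rw [S.Beq] at this
      have : q1 * (S.b - t0) ≤ S.p * (S.b - t0) := by linarith
      exact le_of_mul_le_mul_right this (by linarith [hc.1])
    obtain ⟨q, hq⟩ := phi_loc (cont_of S.v1) (cont_of S.v2) hq1 hq2 (S.p1 t0) (S.p2 t0)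
      (S.B0 t0 ht0) hw (S.Br t0 ht0) S.hp b1 (S.s1 t0 q1 h'.le hc.1.le hq1)
      (S.s2 t0 q2 h hc.1.le hq2)
    refine ⟨q, ?_⟩
    filter_upwards [hq, Ioo_mem_nhds h' hc.1] with t h1 h2
    rw [S.F3 h'.le hc.1.le, S.F3 h2.1.le h2.2.le]
    exact h1

lemma sum (t : ℝ) : (S.F t)⁻¹ + (S.mirror.F (-t))⁻¹ = (S.h1 t)⁻¹ + (S.h2 t)⁻¹ := by
  rcases le_total t S.a with h | h
  · rw [S.F1 h, S.mirror.F4 (by simpa [mirror] using h)]; simp [mirror]
  rcases le_total t S.m with h' | h'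
  · rw [S.F2 h h', S.mirror.F3 (by simpa [mirror] using h') (by simpa [mirror] using h)]
    simp [mirror, Phi, sub_eq_add_neg]
  rcases le_total t S.b with h'' | h''
  · rw [S.F3 h' h'', S.mirror.F2 (by simpa [mirror] using h'') (by simpa [mirror] using h')]
    simp [mirror, Phi]
  · rw [S.F4 h'', S.mirror.F1 (by simpa [mirror] using h'')]; simp [mirror, add_comm]

end SD

end H58SW
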