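import Pool.Agent.H58.SW1

/-! Existence of a switch for functions close to a model. -/

set_option autoImplicit false

open Set Filter Topology

namespace H58SW

lemma gap0 {α β x : ℝ} (a1 : 102 / 100 ≤ α) (a2 : α ≤ 107 / 100) (b1 : 102 / 100 ≤ β)
    (b2 : β ≤ 107 / 100) (d : α - β ≤ 1 / 10000) (x1 : 3 / 100 ≤ x) (x2 : x ≤ 6 / 100) :
    α⁻¹ + β⁻¹ + 1 / 1000 ≤ (α - x)⁻¹ + (β + x)⁻¹ := by
  have p1 : 0 < α := by linarith
  have p2 : 0 < β := by linarith
  have p3 : 0 < α - x := by linarith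
  have p4 : 0 < β + x := by linarith
  have e : (α - x)⁻¹ + (β + x)⁻¹ - (α⁻¹ + β⁻¹) =
      x * (β * (β + x) - α * (α - x)) / ((α * (α - x)) * (β * (β + x))) := by
    field_simp; ring
  have n1 : 59 / 1000 ≤ β * (β + x) - α * (α - x) := by nlinarith
  have n2 : α * (α - x) ≤ 115 / 100 := by nlinarith
  have n3 : β * (β + x) ≤ 122 / 100 := by nlinarith
  have n4 : (α * (α - x)) * (β * (β + x)) ≤ 115 / 100 * (122 / 100) :=
    mul_le_mul n2 n3 (by positivity) (by norm_num)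
  have n5 : 3 / 100 * (59 / 1000) ≤ x * (β * (β + x) - α * (α - x)) :=
    mul_le_mul x1 n1 (by norm_num) (by linarith)
  have : 1 / 1000 ≤ x * (β * (β + x) - α * (α - x)) / ((α * (α - x)) * (β * (β + x))) := by
    rw [le_div_iff₀ (by positivity)]; linarith
  linarith

lemma inv_bd {y c d : ℝ} (hc : 0 < c) (h1 : c ≤ y) (h2 : y ≤ d) : d⁻¹ ≤ y⁻¹ ∧ y⁻¹ ≤ c⁻¹ :=
  ⟨inv_anti₀ (by linarith) h2, inv_anti₀ hc h1⟩

lemma amhm {A B : ℝ} (hA : 0 < A) (hB : 0 < B) : 4 / (A + B) ≤ A⁻¹ + B⁻¹ := by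
  rw [div_le_iff₀ (by positivity)]
  have : (A⁻¹ + B⁻¹) * (A + B) - 4 = (A - B) ^ 2 / (A * B) := by field_simp; ring
  have : 0 ≤ (A - B) ^ 2 / (A * B) := by positivity
  linarith

/-- closeness to the model -/
structure Near (h1 h2 : ℝ → ℝ) : Prop where
  v1 : ConvexOn ℝ univ h1
  v2 : ConvexOn ℝ univ h2
  p1 : ∀ t, 0 < h1 t
  p2 : ∀ t, 0 < h2 t
  l0 : ∀ t, |t| ≤ 2 / 5 → 11 / 10 - 1 / 100000 ≤ h1 t
  l1 : ∀ t, |t| ≤ 2 / 5 → 1 + t / 2 - 1 / 100000 ≤ h1 t
  l2 : ∀ t, |t| ≤ 2 / 5 → 1 - t / 2 - 1 / 100000 ≤ h1 t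
  u0 : ∀ t, |t| ≤ 1 / 5 → h1 t ≤ 11 / 10 + 1 / 100000
  u1 : ∀ t, |t| ≤ 2 / 5 → h1 t ≤ 12 / 10 + 1 / 100000
  l3 : ∀ t, |t| ≤ 2 / 5 → 1 - 1 / 100000 ≤ h2 t
  u3 : ∀ t, |t| ≤ 2 / 5 → h2 t ≤ 1 + 1 / 100000

lemma Near.neg {h1 h2 : ℝ → ℝ} (N : Near h1 h2) : Near (fun t => h1 (-t)) (fun t => h2 (-t)) where
  v1 := convex_neg N.v1
  v2 := convex_neg N.v2
  p1 t := N.p1 _
  p2 t := N.p2 _
  l0 t ht := N.l0 _ (by rwa [abs_neg])
  l1 t ht := by have := N.l2 (-t) (by rwa [abs_neg]); linarith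
  l2 t ht := by have := N.l1 (-t) (by rwa [abs_neg]); linarith
  u0 t ht := N.u0 _ (by rwa [abs_neg])
  u1 t ht := N.u1 _ (by rwa [abs_neg])
  l3 t ht := N.l3 _ (by rwa [abs_neg])
  u3 t ht := N.u3 _ (by rwa [abs_neg])

noncomputable def bet (h : ℝ → ℝ) (p : ℝ) : ℝ := sInf ((fun t => h t - p * t) '' Icc (-(2 / 5)) (2 / 5))

lemma bet_cont {h : ℝ → ℝ} (c : Continuous h) : Continuous (bet h) :=
  isCompact_Icc.continuous_sInf (f := fun p t => h t - p * t) (by fun_prop)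

lemma bet_spec {h1 h2 : ℝ → ℝ} (N : Near h1 h2) {p : ℝ} (q1 : 1 / 5 ≤ p) (q2 : p ≤ 7 / 20) :
    (∀ t, |t| ≤ 2 / 5 → bet h1 p + p * t ≤ h1 t) ∧
    (∃ b, 3 / 20 < b ∧ b ≤ 3 / 10 ∧ h1 b = bet h1 p + p * b) ∧
    11 / 10 - p / 5 - 1 / 100000 ≤ bet h1 p ∧ bet h1 p ≤ 11 / 10 - p / 5 + 1 / 100000 := by
  have c := cont_of N.v1
  obtain ⟨b, hb, e, hmin⟩ := isCompact_Icc.exists_sInf_image_eq_and_le
    (s := Icc (-(2 / 5) : ℝ) (2 / 5)) ⟨0, by norm_num, by norm_num⟩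
    (f := fun t => h1 t - p * t) (by fun_prop)
  have e : bet h1 p = h1 b - p * b := e
  have hb' : |b| ≤ 2 / 5 := abs_le.2 hb
  have up : bet h1 p ≤ 11 / 10 - p / 5 + 1 / 100000 := by
    have := hmin (1 / 5) ⟨by norm_num, by norm_num⟩
    have := N.u0 (1 / 5) (by norm_num [abs_le])
    linarith
  have a0 := N.l0 b hb'
  have a1 := N.l1 b hb'
  refine ⟨fun t ht => ?_, ⟨b, ?_, ?_, by linarith⟩, ?_, up⟩
  · have := hmin t (abs_le.1 ht)
    linarith
  · by_contra h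
    nlinarith [not_lt.1 h]
  · by_contra h
    nlinarith [not_le.1 h]
  · rcases le_total b (1 / 5) with h | h <;> nlinarith

theorem exists_SD {h1 h2 : ℝ → ℝ} (N : Near h1 h2) :
    ∃ S : SD, S.h1 = h1 ∧ S.h2 = h2 ∧ -(3 / 10) ≤ S.a ∧ S.b ≤ 3 / 10 := by
  have c1 := cont_of N.v1
  have c2 := cont_of N.v2
  let al := bet (fun t => h1 (-t))
  let be := bet h1
  have alc : Continuous al := bet_cont (by fun_prop)
  have bec : Continuous be := bet_cont c1
  let E : ℝ → ℝ → ℝ := fun p t => (h1 t)⁻¹ + (h2 t)⁻¹ - (max (al p - p * t) (1 / 2))⁻¹ -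
    (max (be p + p * t) (1 / 2))⁻¹
  have Ec : Continuous ↿E := by
    refine (((c1.comp continuous_snd).inv₀ fun x => (N.p1 _).ne').add
      ((c2.comp continuous_snd).inv₀ fun x => (N.p2 _).ne')).sub
      (Continuous.inv₀ (by fun_prop) fun x => ?_) |>.sub (Continuous.inv₀ (by fun_prop) fun x => ?_)
    all_goals exact (lt_of_lt_of_le (by norm_num) (le_max_right _ _)).ne'
  let e : ℝ → ℝ := fun p => sSup (E p '' Icc (-(3 / 20)) (3 / 20))
  have ec : Continuous e := isCompact_Icc.continuous_sSup Ec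
  have Eeq : ∀ p t, 1 / 5 ≤ p → p ≤ 7 / 20 → |t| ≤ 2 / 5 → E p t =
      (h1 t)⁻¹ + (h2 t)⁻¹ - (al p - p * t)⁻¹ - (be p + p * t)⁻¹ := by
    intro p t q1 q2 ht
    have a := (bet_spec N.neg q1 q2).2.2.1
    have b := (bet_spec N q1 q2).2.2.1
    rw [abs_le] at ht
    simp only [E]
    rw [max_eq_left (by simp only [al]; nlinarith), max_eq_left (by simp only [be]; nlinarith)]
  have espec : ∀ p, ∃ m ∈ Icc (-(3 / 20) : ℝ) (3 / 20), e p = E p m ∧
      ∀ t ∈ Icc (-(3 / 20) : ℝ) (3 / 20), E p t ≤ E p m := fun p =>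
    isCompact_Icc.exists_sSup_image_eq_and_ge ⟨0, by norm_num, by norm_num⟩
      (Ec.comp (Continuous.prodMk_right p)).continuousOn
  have z1 := inv_bd (by norm_num) (N.l0 0 (by norm_num)) (N.u0 0 (by norm_num))
  have z2 := inv_bd (by norm_num) (N.l3 0 (by norm_num)) (N.u3 0 (by norm_num))
  have e0 : 0 ≤ e (1 / 5) := by
    obtain ⟨m, -, h, hm⟩ := espec (1 / 5)
    have := hm 0 ⟨by norm_num, by norm_num⟩
    rw [h]
    refine le_trans ?_ this
    rw [Eeq _ _ le_rfl (by norm_num) (by norm_num)]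
    have a := (bet_spec N.neg (p := 1 / 5) le_rfl (by norm_num)).2.2
    have b := (bet_spec N (p := 1 / 5) le_rfl (by norm_num)).2.2
    have a' := inv_bd (by norm_num) a.1 a.2
    have b' := inv_bd (by norm_num) b.1 b.2
    simp only [mul_zero, sub_zero, add_zero, al, be]
    norm_num at z1 z2 a' b' ⊢
    linarith [z1.1, z2.1, a'.2, b'.2]
  have e1 : e (7 / 20) ≤ 0 := by
    obtain ⟨m, hm, h, -⟩ := espec (7 / 20)
    have hm' : |m| ≤ 1 / 5 := abs_le.2 ⟨by linarith [hm.1], by linarith [hm.2]⟩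
    have hm'' : |m| ≤ 2 / 5 := by linarith
    rw [h, Eeq _ _ (by norm_num) le_rfl hm'']
    have a := (bet_spec N.neg (p := 7 / 20) (by norm_num) le_rfl).2.2
    have b := (bet_spec N (p := 7 / 20) (by norm_num) le_rfl).2.2
    have y1 := inv_bd (by norm_num) (N.l0 m hm'') (N.u0 m hm')
    have y2 := inv_bd (by norm_num) (N.l3 m hm'') (N.u3 m hm'')
    have := amhm (A := al (7 / 20) - 7 / 20 * m) (B := be (7 / 20) + 7 / 20 * m)
      (by simp only [al]; linarith [hm.2, a.1]) (by simp only [be]; linarith [hm.1, b.1])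
    have h4 : 4 / (207 / 100) ≤ 4 / (al (7 / 20) - 7 / 20 * m + (be (7 / 20) + 7 / 20 * m)) :=
      div_le_div_of_nonneg_left (by norm_num) (by simp only [al, be]; linarith [a.1, b.1])
        (by simp only [al, be]; linarith [a.2, b.2])
    norm_num at y1 y2 h4 this ⊢
    linarith [y1.2, y2.2]
  obtain ⟨p, ⟨q1, q2⟩, hp⟩ := intermediate_value_Icc' (by norm_num : (1 / 5 : ℝ) ≤ 7 / 20)
    ec.continuousOn ⟨e1, e0⟩
  obtain ⟨m, hm, hm0, hmax⟩ := espec p
  rw [hp] at hm0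
  obtain ⟨A1, ⟨a, A2, A3, A4⟩, A5, A6⟩ := bet_spec N.neg q1 q2
  obtain ⟨B1, ⟨b, B2, B3, B4⟩, B5, B6⟩ := bet_spec N q1 q2
  have edge : ∀ t : ℝ, |t| = 3 / 20 → E p t < E p 0 := by
    intro t ht
    rw [Eeq _ _ q1 q2 (by linarith), Eeq _ _ q1 q2 (by norm_num)]
    have y1 := inv_bd (by norm_num) (N.l0 t (by linarith)) (N.u0 t (by linarith))
    have y2 := inv_bd (by norm_num) (N.l3 t (by linarith)) (N.u3 t (by linarith))
    have g : (al p)⁻¹ + (be p)⁻¹ + 1 / 1000 ≤ (al p - p * t)⁻¹ + (be p + p * t)⁻¹ := by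
      rcases (abs_eq (by norm_num)).1 ht with h | h
      · rw [h]
        exact gap0 (by simp only [al]; linarith) (by simp only [al]; linarith)
          (by simp only [be]; linarith) (by simp only [be]; linarith)
          (by simp only [al, be]; linarith) (by linarith) (by linarith)
      · rw [h]
        have := gap0 (α := be p) (β := al p) (x := p * (3 / 20)) (by simp only [be]; linarith)
          (by simp only [be]; linarith) (by simp only [al]; linarith) (by simp only [al]; linarith)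
          (by simp only [al, be]; linarith) (by linarith) (by linarith)
        simp only [mul_neg, sub_neg_eq_add, ← sub_eq_add_neg]
        linarith
    simp only [mul_zero, sub_zero, add_zero]
    norm_num at z1 z2 y1 y2
    linarith [z1.1, z2.1, y1.2, y2.2]
  have m0 := hmax 0 ⟨by norm_num, by norm_num⟩
  have m1 : -(3 / 20) < m := by
    refine lt_of_le_of_ne hm.1 ?_
    rintro rfl
    have := edge (-(3 / 20)) (by norm_num [abs_of_pos])
    linarith
  have m2 : m < 3 / 20 := by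
    refine lt_of_le_of_ne hm.2 ?_
    rintro rfl
    have := edge (3 / 20) (by norm_num [abs_of_pos])
    linarith
  have rr : ∀ (t y : ℝ), |t| ≤ 2 / 5 → 4 / 5 ≤ y → y⁻¹ < (h1 t)⁻¹ + (h2 t)⁻¹ := by
    intro t y ht hy
    have y1 := inv_bd (by norm_num) (N.l0 t ht) (N.u1 t ht)
    have y2 := inv_bd (by norm_num) (N.l3 t ht) (N.u3 t ht)
    have y3 := inv_anti₀ (by norm_num) hy
    norm_num at y1 y2 y3
    linarith [y1.1, y2.1]
  have Al : ∀ t, |t| ≤ 2 / 5 → 4 / 5 ≤ al p - p * t := by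
    intro t ht; rw [abs_le] at ht; simp only [al]; nlinarith
  have Bl : ∀ t, |t| ≤ 2 / 5 → 4 / 5 ≤ be p + p * t := by
    intro t ht; rw [abs_le] at ht; simp only [be]; nlinarith
  refine ⟨⟨h1, h2, N.v1, N.v2, N.p1, N.p2, 2 / 5, al p, be p, p, -a, m, b, by linarith, by linarith,
    by linarith, by linarith, by linarith, fun t ht => by linarith [Al t ht],
    fun t ht => by linarith [Bl t ht], fun t ht => ?_, B1, by simp only [al]; linarith, B4,
    fun t ht => rr t _ ht (Al t ht), fun t ht => rr t _ ht (Bl t ht), ?_, ?_, ?_, ?_, ?_⟩,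
    rfl, rfl, by simp only; linarith, B3⟩
  · have := A1 (-t) (by rwa [abs_neg])
    simp only [neg_neg] at this
    simp only [al]; linarith
  · filter_upwards [Ioo_mem_nhds m1 m2] with t ht
    have := hmax t (Ioo_subset_Icc_self ht)
    rw [← hm0, Eeq _ _ q1 q2 (abs_le.2 ⟨by linarith [ht.1], by linarith [ht.2]⟩)] at this
    linarith
  · rw [Eeq _ _ q1 q2 (abs_le.2 ⟨by linarith, by linarith⟩)] at hm0
    linarith
  · intro t q t1 t2 hq
    have a1 := hq (-(1 / 5))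
    have a2 := N.u0 (-(1 / 5)) (by norm_num [abs_le])
    have a3 := N.l0 t (abs_le.2 ⟨by linarith, by linarith⟩)
    by_contra h
    nlinarith [not_le.1 h]
  · intro t q t1 t2 hq
    have a1 := hq (1 / 5)
    have a2 := N.u0 (1 / 5) (by norm_num [abs_le])
    have a3 := N.l0 t (abs_le.2 ⟨by linarith, by linarith⟩)
    by_contra h
    nlinarith [not_le.1 h]
  · intro t q t1 t2 hq
    have ht : |t| ≤ 2 / 5 := abs_le.2 ⟨by linarith, by linarith⟩
    have a1 := hq (2 / 5)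
    have a2 := hq (-(2 / 5))
    have a3 := N.u3 (2 / 5) (by norm_num [abs_le])
    have a4 := N.u3 (-(2 / 5)) (by norm_num [abs_le])
    have a5 := N.l3 t ht
    have a6 := N.u1 t ht
    have a7 := N.p1 t
    have a8 : |q| ≤ 1 / 1000 := by
      rw [abs_le]; constructor
      · by_contra h
        nlinarith [not_le.1 h]
      · by_contra h
        nlinarith [not_le.1 h]
    have := abs_nonneg q
    nlinarith

theorem switch {h1 h2 : ℝ → ℝ} (N : Near h1 h2) : ∃ F R : ℝ → ℝ,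
    ConvexOn ℝ univ F ∧ ConvexOn ℝ univ R ∧ (∀ t, 0 < F t) ∧ (∀ t, 0 < R t) ∧
    (∀ t, (F t)⁻¹ + (R t)⁻¹ = (h1 t)⁻¹ + (h2 t)⁻¹) ∧
    (∀ t, t ≤ -(3 / 10) → F t = h1 t ∧ R t = h2 t) ∧
    (∀ t, 3 / 10 ≤ t → F t = h2 t ∧ R t = h1 t) := by
  obtain ⟨S, rfl, rfl, ha, hb⟩ := exists_SD N
  refine ⟨S.F, fun t => S.mirror.F (-t), S.convex, convex_neg S.mirror.convex, S.pos,
    fun t => S.mirror.pos _, S.sum, fun t ht => ⟨S.F1 (by linarith), ?_⟩,
    fun t ht => ⟨S.F4 (by linarith), ?_⟩⟩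
  · beta_reduce; rw [S.mirror.F4 (by simp only [SD.mirror]; linarith)]; simp [SD.mirror]
  · beta_reduce; rw [S.mirror.F1 (by simp only [SD.mirror]; linarith)]; simp [SD.mirror]

end H58SW
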