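import Pool.Agent.H58.SW2

/-! The planar gauge obtained by two switches. -/

set_option autoImplicit false

open Set Filter Topology

namespace H58SW

noncomputable def DD (F R : ℝ → ℝ) (z : ℝ × ℝ) : ℝ :=
  if 0 < z.1 then z.1 * F (z.2 / z.1) else -z.1 * R (z.2 / z.1)

def LS (f : ℝ × ℝ → ℝ) (z0 : ℝ × ℝ) : Prop :=
  ContinuousAt f z0 ∧ ∃ c1 c2 : ℝ, ∀ᶠ z in 𝓝 z0, f z0 + c1 * (z.1 - z0.1) + c2 * (z.2 - z0.2) ≤ f z

lemma LS.congr {f g : ℝ × ℝ → ℝ} {z0 : ℝ × ℝ} (h : LS f z0) (e : f =ᶠ[𝓝 z0] g) : LS g z0 := by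
  obtain ⟨hc, c1, c2, h⟩ := h
  refine ⟨hc.congr e, c1, c2, ?_⟩
  filter_upwards [h, e] with z h1 h2
  rw [← h2, ← e.eq_of_nhds]; exact h1

lemma LS.swap {f : ℝ × ℝ → ℝ} {z0 : ℝ × ℝ} (h : LS f z0.swap) : LS (fun z => f z.swap) z0 := by
  obtain ⟨hc, c1, c2, h⟩ := h
  refine ⟨hc.comp continuous_swap.continuousAt, c2, c1, ?_⟩
  filter_upwards [continuous_swap.continuousAt.eventually h] with z hz
  simp only [Prod.fst_swap, Prod.snd_swap] at hz
  linarith

lemma convex_of_LS {f : ℝ × ℝ → ℝ} (h : ∀ z, LS f z) : ConvexOn ℝ univ f := by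
  refine ⟨convex_univ, fun z _ w _ a b ha hb hab => ?_⟩
  have fc : Continuous f := continuous_iff_continuousAt.2 fun z => (h z).1
  have lc : Continuous fun t : ℝ => z + t • (w - z) := by fun_prop
  have := convex_of_local (F := fun t : ℝ => f (z + t • (w - z))) (fc.comp lc) (fun t0 => by
    obtain ⟨-, c1, c2, hc⟩ := h (z + t0 • (w - z))
    refine ⟨c1 * (w - z).1 + c2 * (w - z).2, ?_⟩
    filter_upwards [lc.continuousAt.eventually hc] with t ht
    simp only [Prod.fst_add, Prod.snd_add, Prod.smul_fst, Prod.smul_snd, smul_eq_mul] at ht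
    linarith)
  have := this.2 (mem_univ 0) (mem_univ 1) ha hb hab
  simp only [smul_eq_mul, mul_zero, mul_one, zero_add, zero_smul, add_zero, one_smul,
    add_sub_cancel] at this
  have e : a • z + b • w = z + b • (w - z) := by rw [show a = 1 - b by linarith]; module
  rw [e]; exact this

lemma DD_LS {F R : ℝ → ℝ} (hF : ConvexOn ℝ univ F) (hR : ConvexOn ℝ univ R) {z0 : ℝ × ℝ}
    (h : z0.1 ≠ 0) : LS (DD F R) z0 := by
  have cq : ContinuousAt (fun z : ℝ × ℝ => z.2 / z.1) z0 :=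
    continuousAt_snd.div continuousAt_fst h
  rcases lt_or_gt_of_ne h with h0 | h0
  · have ev : ∀ᶠ z : ℝ × ℝ in 𝓝 z0, z.1 < 0 := continuousAt_fst.eventually (gt_mem_nhds h0)
    refine LS.congr (f := fun z => -z.1 * R (z.2 / z.1)) ⟨continuousAt_fst.neg.mul
      ((cont_of hR).continuousAt.comp cq), ?_⟩
      (ev.mono fun z hz => by simp [DD, not_lt.2 hz.le])
    obtain ⟨q, hq⟩ := exists_sub hR (z0.2 / z0.1)
    refine ⟨-(R (z0.2 / z0.1) - q * (z0.2 / z0.1)), -q, ev.mono fun z hz => ?_⟩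
    have := mul_le_mul_of_nonneg_left (hq (z.2 / z.1)) (by linarith : 0 ≤ -z.1)
    have e1 : z.1 * (z.2 / z.1) = z.2 := mul_div_cancel₀ _ hz.ne
    have e2 : z0.1 * (z0.2 / z0.1) = z0.2 := mul_div_cancel₀ _ h
    beta_reduce
    linear_combination this + q * e1 - q * e2
  · have ev : ∀ᶠ z : ℝ × ℝ in 𝓝 z0, 0 < z.1 := continuousAt_fst.eventually (lt_mem_nhds h0)
    refine LS.congr (f := fun z => z.1 * F (z.2 / z.1)) ⟨continuousAt_fst.mul
      ((cont_of hF).continuousAt.comp cq), ?_⟩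
      (ev.mono fun z hz => by simp [DD, hz])
    obtain ⟨q, hq⟩ := exists_sub hF (z0.2 / z0.1)
    refine ⟨F (z0.2 / z0.1) - q * (z0.2 / z0.1), q, ev.mono fun z hz => ?_⟩
    have := mul_le_mul_of_nonneg_left (hq (z.2 / z.1)) hz.le
    have e1 : z.1 * (z.2 / z.1) = z.2 := mul_div_cancel₀ _ hz.ne'
    have e2 : z0.1 * (z0.2 / z0.1) = z0.2 := mul_div_cancel₀ _ h
    beta_reduce
    linear_combination this - q * e1 + q * e2

lemma DD_hom (F R : ℝ → ℝ) {s : ℝ} (hs : 0 < s) (z : ℝ × ℝ) : DD F R (s • z) = s * DD F R z := by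
  simp only [DD, Prod.smul_fst, Prod.smul_snd, smul_eq_mul, mul_div_mul_left _ _ hs.ne',
    mul_pos_iff_of_pos_left hs]
  split_ifs <;> ring

/-- good pieces -/
structure Pc (g D : ℝ × ℝ → ℝ) : Prop where
  ls : ∀ z : ℝ × ℝ, z.1 ≠ 0 → LS D z
  hom : ∀ s : ℝ, 0 < s → ∀ z, D (s • z) = s * D z
  pos : ∀ z : ℝ × ℝ, z.1 ≠ 0 → 0 < D z
  bd : ∃ C, ∀ z : ℝ × ℝ, |z.2| ≤ |z.1| → |D z| ≤ C * |z.1|
  sum : ∀ z : ℝ × ℝ, z.1 ≠ 0 → (D z)⁻¹ + (D (-z))⁻¹ = (g z)⁻¹ + (g (-z))⁻¹
  lo : ∀ z : ℝ × ℝ, z.1 ≠ 0 → z.2 / z.1 ≤ -(3 / 10) → D z = g z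
  hi : ∀ z : ℝ × ℝ, z.1 ≠ 0 → 3 / 10 ≤ z.2 / z.1 → D z = g (-z)

lemma exists_pc {g : ℝ × ℝ → ℝ} (hom : ∀ s : ℝ, 0 < s → ∀ z, g (s • z) = s * g z)
    (N : Near (fun t => g (1, t)) (fun t => g (-1, -t))) : ∃ D, Pc g D := by
  obtain ⟨F, R, hF, hR, F0, R0, hs, hlo, hhi⟩ := switch N
  have gp : ∀ z : ℝ × ℝ, 0 < z.1 → g z = z.1 * g (1, z.2 / z.1) ∧
      g (-z) = z.1 * g (-1, -(z.2 / z.1)) := by
    intro z hz
    constructor <;> rw [← hom _ hz] <;> congr 1 <;> ext <;> simp <;> field_simp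
  have gn : ∀ z : ℝ × ℝ, z.1 < 0 → g (-z) = -z.1 * g (1, z.2 / z.1) ∧
      g z = -z.1 * g (-1, -(z.2 / z.1)) := by
    intro z hz
    have := gp (-z) (by simpa using hz)
    simpa [neg_div_neg_eq] using this
  refine ⟨DD F R, fun z hz => DD_LS hF hR hz, fun s hs z => DD_hom F R hs z, fun z hz => ?_, ?_,
    fun z hz => ?_, fun z hz h => ?_, fun z hz h => ?_⟩
  · simp only [DD]
    split_ifs with h
    · exact mul_pos h (F0 _)
    · exact mul_pos (by rcases lt_or_gt_of_ne hz with h' | h' <;> linarith) (R0 _)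
  · obtain ⟨C1, h1⟩ := (isCompact_Icc (a := (-1 : ℝ)) (b := 1)).exists_bound_of_continuousOn
      (cont_of hF).continuousOn
    obtain ⟨C2, h2⟩ := (isCompact_Icc (a := (-1 : ℝ)) (b := 1)).exists_bound_of_continuousOn
      (cont_of hR).continuousOn
    refine ⟨max C1 C2, fun z hz => ?_⟩
    have hq : z.2 / z.1 ∈ Icc (-1 : ℝ) 1 := by
      rw [mem_Icc, ← abs_le, abs_div]
      exact div_le_one_of_le₀ hz (abs_nonneg _)
    simp only [DD]
    split_ifs
    · rw [abs_mul, mul_comm]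
      exact mul_le_mul_of_nonneg_right ((h1 _ hq).trans (le_max_left _ _)) (abs_nonneg _)
    · rw [abs_mul, mul_comm, abs_neg]
      exact mul_le_mul_of_nonneg_right ((h2 _ hq).trans (le_max_right _ _)) (abs_nonneg _)
  · have := hs (z.2 / z.1)
    rcases lt_or_gt_of_ne hz with h0 | h0
    · rw [(gn z h0).1, (gn z h0).2]
      simp only [DD, not_lt.2 h0.le, if_false, Prod.fst_neg, Prod.snd_neg, neg_pos, h0, if_true,
        neg_div_neg_eq, mul_inv]
      linear_combination (-z.1)⁻¹ * this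
    · rw [(gp z h0).1, (gp z h0).2]
      simp only [DD, h0, if_true, Prod.fst_neg, Prod.snd_neg, neg_pos, not_lt.2 h0.le, if_false,
        neg_div_neg_eq, mul_inv, neg_neg]
      linear_combination (z.1)⁻¹ * this
  · have := hlo _ h
    rcases lt_or_gt_of_ne hz with h0 | h0
    · rw [(gn z h0).2]; simp only [DD, not_lt.2 h0.le, if_false, this.2]
    · rw [(gp z h0).1]; simp only [DD, h0, if_true, this.1]
  · have := hhi _ h
    rcases lt_or_gt_of_ne hz with h0 | h0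
    · rw [(gn z h0).1]; simp only [DD, not_lt.2 h0.le, if_false, this.2]
    · rw [(gp z h0).2]; simp only [DD, h0, if_true, this.1]

theorem glue {g D1 D2 : ℝ × ℝ → ℝ} (g0 : g 0 = 0) (P1 : Pc g D1) (P2 : Pc (fun z => g z.swap) D2) :
    ∃ γ : ℝ × ℝ → ℝ, ConvexOn ℝ univ γ ∧ Continuous γ ∧ γ 0 = 0 ∧
      (∀ s : ℝ, 0 < s → ∀ z, γ (s • z) = s * γ z) ∧ (∀ z, z ≠ 0 → 0 < γ z) ∧
      (∀ z, (γ z)⁻¹ + (γ (-z))⁻¹ = (g z)⁻¹ + (g (-z))⁻¹) ∧
      γ (1, 1) = g (-1, -1) ∧ γ (1, -(2 / 5)) = g (1, -(2 / 5)) := by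
  let γ : ℝ × ℝ → ℝ := fun z => if |z.2| ≤ |z.1| then D1 z else D2 z.swap
  obtain ⟨C1, h1⟩ := P1.bd
  obtain ⟨C2, h2⟩ := P2.bd
  have D10 : D1 0 = 0 := by simpa using h1 0 (by simp)
  have γ0 : γ 0 = 0 := by simp [γ, D10]
  have nz : ∀ z : ℝ × ℝ, z ≠ 0 → |z.2| ≤ |z.1| → z.1 ≠ 0 := by
    intro z hz h h0
    apply hz
    rw [h0, abs_zero, abs_nonpos_iff] at h
    exact Prod.ext h0 h
  have nz' : ∀ z : ℝ × ℝ, ¬ |z.2| ≤ |z.1| → z.swap.1 ≠ 0 := by
    intro z h h0
    simp only [Prod.fst_swap] at h0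
    exact h (by rw [h0]; simp)
  have pos : ∀ z, z ≠ 0 → 0 < γ z := by
    intro z hz
    simp only [γ]
    split_ifs with h
    · exact P1.pos z (nz z hz h)
    · exact P2.pos _ (nz' z h)
  have ls : ∀ z, LS γ z := by
    intro z0
    by_cases hz : z0 = 0
    · subst hz
      refine ⟨?_, 0, 0, Eventually.of_forall fun z => ?_⟩
      · have : Tendsto (fun z : ℝ × ℝ => |C1| * |z.1| + |C2| * |z.2|) (𝓝 0) (𝓝 0) := by
          have : Continuous (fun z : ℝ × ℝ => |C1| * |z.1| + |C2| * |z.2|) := by fun_prop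
          simpa using this.tendsto 0
        rw [ContinuousAt, γ0]
        refine squeeze_zero_norm (fun z => ?_) this
        simp only [γ, Real.norm_eq_abs]
        have a1 := mul_le_mul_of_nonneg_right (le_abs_self C1) (abs_nonneg z.1)
        have a2 := mul_le_mul_of_nonneg_right (le_abs_self C2) (abs_nonneg z.2)
        have a3 : 0 ≤ |C1| * |z.1| := by positivity
        have a4 : 0 ≤ |C2| * |z.2| := by positivity
        split_ifs with h
        · linarith [h1 z h]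
        · have := h2 z.swap (not_le.1 h).le
          simp only [Prod.fst_swap] at this
          linarith
      · simp only [γ0, zero_mul, add_zero]
        by_cases h : z = 0
        · rw [h, γ0]
        · exact (pos z h).le
    rcases lt_trichotomy |z0.2| |z0.1| with h | h | h
    · refine (P1.ls z0 (nz z0 hz h.le)).congr ?_
      have : ∀ᶠ z : ℝ × ℝ in 𝓝 z0, |z.2| < |z.1| :=
        (isOpen_lt (by fun_prop) (by fun_prop)).mem_nhds h
      filter_upwards [this] with z hz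
      simp [γ, hz.le]
    · have n1 := nz z0 hz h.le
      have n2 : z0.2 ≠ 0 := by intro e; rw [e, abs_zero, eq_comm, abs_eq_zero] at h; exact n1 h
      refine (P1.ls z0 n1).congr ?_
      have c1 : ContinuousAt (fun z : ℝ × ℝ => z.2 / z.1) z0 :=
        continuousAt_snd.div continuousAt_fst n1
      have c2 : ContinuousAt (fun z : ℝ × ℝ => z.1 / z.2) z0 :=
        continuousAt_fst.div continuousAt_snd n2
      have e1 : ∀ᶠ z : ℝ × ℝ in 𝓝 z0, z.1 ≠ 0 := continuousAt_fst.eventually_ne n1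
      have e2 : ∀ᶠ z : ℝ × ℝ in 𝓝 z0, z.2 ≠ 0 := continuousAt_snd.eventually_ne n2
      rcases abs_eq_abs.1 h with e | e
      · filter_upwards [e1, e2, c1.eventually (lt_mem_nhds (a := 3 / 10) (by
            beta_reduce; rw [e, div_self n1]; norm_num)), c2.eventually (lt_mem_nhds (a := 3 / 10) (by
            beta_reduce; rw [e, div_self n1]; norm_num))] with z a1 a2 a3 a4
        simp only [γ]
        split_ifs
        · rfl
        · rw [P1.hi z a1 a3.le, P2.hi z.swap a2 a4.le]; rfl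
      · filter_upwards [e1, e2, c1.eventually (gt_mem_nhds (a := -(3 / 10)) (by
            beta_reduce; rw [e, neg_div, div_self n1]; norm_num)), c2.eventually (gt_mem_nhds (a := -(3 / 10)) (by
            beta_reduce; rw [e, div_neg, div_self n1]; norm_num))] with z a1 a2 a3 a4
        simp only [γ]
        split_ifs
        · rfl
        · rw [P1.lo z a1 a3.le, P2.lo z.swap a2 a4.le]; rfl
    · refine (P2.ls z0.swap (nz' z0 (not_le.2 h))).swap.congr ?_
      have : ∀ᶠ z : ℝ × ℝ in 𝓝 z0, |z.1| < |z.2| :=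
        (isOpen_lt (by fun_prop) (by fun_prop)).mem_nhds h
      filter_upwards [this] with z hz
      simp [γ, not_le.2 hz]
  refine ⟨γ, convex_of_LS ls, continuous_iff_continuousAt.2 fun z => (ls z).1, γ0,
    fun s hs z => ?_, pos, fun z => ?_, ?_, ?_⟩
  · simp only [γ, Prod.smul_fst, Prod.smul_snd, smul_eq_mul, abs_mul, abs_of_pos hs,
      mul_le_mul_iff_right₀ hs]
    split_ifs
    · exact P1.hom s hs z
    · exact P2.hom s hs z.swap
  · by_cases hz : z = 0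
    · simp [hz, γ0, g0]
    simp only [γ, Prod.fst_neg, Prod.snd_neg, abs_neg]
    split_ifs with h
    · exact P1.sum z (nz z hz h)
    · exact P2.sum z.swap (nz' z h)
  · simp only [γ, le_refl, if_true]
    rw [P1.hi _ (by norm_num) (by norm_num)]; rfl
  · simp only [γ]
    rw [if_pos (by norm_num [abs_of_pos]), P1.lo _ (by norm_num) (by norm_num)]

end H58SW
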