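import Pool.Agent.H58.SW3

/-! An open set of planar convex bodies not determined by their chords through the origin. -/

set_option autoImplicit false

open Set Filter Topology Metric TopologicalSpace
open scoped Pointwise

namespace H58SW

section gen
variable {E : Type} [NormedAddCommGroup E] [NormedSpace ℝ E]

def toNC (K : ConvexBody E) : NonemptyCompacts E := ⟨⟨K, K.isCompact⟩, K.nonempty⟩

lemma toNC_iso : Isometry (toNC : ConvexBody E → NonemptyCompacts E) :=
  Isometry.of_dist_eq fun K L => by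
    rw [NonemptyCompacts.dist_eq, ← ConvexBody.hausdorffDist_coe]; rfl

lemma complete [CompleteSpace E] : CompleteSpace (ConvexBody E) := by
  rw [completeSpace_iff_isComplete_range toNC_iso.isUniformInducing]
  apply IsClosed.isComplete
  refine isClosed_of_closure_subset fun K hK => ?_
  have hconv : Convex ℝ (K : Set E) := by
    intro x hx y hy a b ha hb hab
    rw [← K.isCompact.isClosed.closure_eq, Metric.mem_closure_iff]
    intro ε hε
    obtain ⟨_, ⟨L, rfl⟩, hL⟩ := Metric.mem_closure_iff.1 hK (ε / 2) (by positivity)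
    rw [NonemptyCompacts.dist_eq] at hL
    have hfin : hausdorffEDist (K : Set E) (toNC L : Set E) ≠ ⊤ :=
      hausdorffEDist_ne_top_of_nonempty_of_bounded K.nonempty (toNC L).nonempty
        K.isCompact.isBounded (toNC L).isCompact.isBounded
    obtain ⟨x', hx', dx⟩ := exists_dist_lt_of_hausdorffDist_lt hx hL hfin
    obtain ⟨y', hy', dy⟩ := exists_dist_lt_of_hausdorffDist_lt hy hL hfin
    obtain ⟨z, hz, dz⟩ := exists_dist_lt_of_hausdorffDist_lt'
      (show a • x' + b • y' ∈ (toNC L : Set E) from L.convex hx' hy' ha hb hab) hL hfin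
    refine ⟨z, hz, ?_⟩
    have h1 : dist (a • x + b • y) (a • x' + b • y') ≤ ε / 2 := by
      rw [dist_eq_norm] at dx dy ⊢
      have : a • x + b • y - (a • x' + b • y') = a • (x - x') + b • (y - y') := by module
      rw [this]
      refine (norm_add_le _ _).trans ?_
      rw [norm_smul, norm_smul, Real.norm_of_nonneg ha, Real.norm_of_nonneg hb]
      nlinarith [mul_le_mul_of_nonneg_left dx.le ha, mul_le_mul_of_nonneg_left dy.le hb]
    linarith [dist_triangle_right (a • x + b • y) z (a • x' + b • y')]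
  exact ⟨⟨K, hconv, K.isCompact, K.nonempty⟩, rfl⟩

lemma cancel {A : Set E} (hA : IsCompact A) (K : ConvexBody E) {r e : ℝ} (hr : 0 < r)
    (he : 0 ≤ e) (her : e ≤ r) (hB : closedBall 0 r ⊆ A) (h : ∀ a ∈ A, ∃ k ∈ (K : Set E), dist a k ≤ e) :
    ∀ a ∈ A, (1 - e / r) • a ∈ (K : Set E) := by
  intro a ha
  by_contra hz
  obtain ⟨f, u, hf, hu⟩ := geometric_hahn_banach_closed_point K.convex K.isClosed hz
  obtain ⟨a0, ha0, hmax⟩ := hA.exists_isMaxOn ⟨a, ha⟩ f.continuous.continuousOn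
  obtain ⟨k, hk, hd⟩ := h a0 ha0
  have l0 : 0 ≤ e / r := by positivity
  have l1 : e / r ≤ 1 := div_le_one_of_le₀ her hr.le
  have h1 : f (a0 - k) ≤ e / r * f a0 := by
    rcases he.eq_or_lt with h0 | h0
    · subst h0
      have : a0 = k := dist_le_zero.1 hd
      simp [this]
    · have : (r / e) • (a0 - k) ∈ A := hB (by
        rw [mem_closedBall, dist_zero_right, norm_smul, Real.norm_of_nonneg (by positivity),
          ← dist_eq_norm, div_mul_eq_mul_div, div_le_iff₀ h0]
        exact mul_le_mul_of_nonneg_left hd hr.le)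
      have h2 : f ((r / e) • (a0 - k)) ≤ f a0 := hmax this
      rw [map_smul, smul_eq_mul] at h2
      have h3 := mul_le_mul_of_nonneg_left h2 l0
      rwa [← mul_assoc, show e / r * (r / e) = 1 by field_simp, one_mul] at h3
  rw [map_sub] at h1
  rw [map_smul, smul_eq_mul] at hu
  have h4 : f a ≤ f a0 := hmax ha
  have := hf k hk
  nlinarith [mul_le_mul_of_nonneg_left h4 (sub_nonneg.2 l1)]

lemma near_pt {K L : ConvexBody E} {e : ℝ} (h : dist K L < e) :
    ∀ a ∈ (K : Set E), ∃ k ∈ (L : Set E), dist a k ≤ e := by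
  intro a ha
  rw [← ConvexBody.hausdorffDist_coe] at h
  obtain ⟨k, hk, hd⟩ := exists_dist_lt_of_hausdorffDist_lt ha h ConvexBody.hausdorffEDist_ne_top
  exact ⟨k, hk, hd.le⟩

lemma isOpen_int [ProperSpace E] : IsOpen {K : ConvexBody E | (0 : E) ∈ interior (K : Set E)} := by
  rw [Metric.isOpen_iff]
  intro K hK
  obtain ⟨r, hr, hB⟩ := nhds_basis_closedBall.mem_iff.1 (mem_interior_iff_mem_nhds.1 hK)
  refine ⟨r / 2, by positivity, fun L hL => ?_⟩
  have := cancel (isCompact_closedBall (0 : E) r) L hr (e := r / 2) (by positivity) (by linarith)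
    subset_rfl fun a ha => near_pt (by rwa [mem_ball, dist_comm] at hL) a (hB ha)
  refine mem_interior_iff_mem_nhds.2 (mem_of_superset (closedBall_mem_nhds 0 (half_pos hr)) ?_)
  intro z hz
  have h2 := this ((2 : ℝ) • z) (by
    rw [mem_closedBall, dist_zero_right] at hz ⊢
    rw [norm_smul]; norm_num; linarith)
  rwa [smul_smul, show (1 - r / 2 / r) * 2 = 1 by field_simp; ring, one_smul] at h2

lemma chord {γ : E → ℝ} (hom : ∀ s : ℝ, 0 < s → ∀ z, γ (s • z) = s * γ z) (h0 : γ 0 = 0)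
    (pos : ∀ z, z ≠ 0 → 0 < γ z) {u : E} (hu : u ≠ 0) (S : Submodule ℝ E) (huS : u ∈ S)
    (hS : ∀ w ∈ S, ∃ c : ℝ, c • u = w) :
    {z | γ z ≤ 1} ∩ (S : Set E) = segment ℝ (-(γ (-u))⁻¹ • u) ((γ u)⁻¹ • u) := by
  have a0 := pos u hu
  have b0 := pos (-u) (neg_ne_zero.2 hu)
  have key : ∀ c : ℝ, γ (c • u) ≤ 1 ↔ c ∈ Icc (-(γ (-u))⁻¹) (γ u)⁻¹ := by
    intro c
    have p1 := inv_pos.2 a0
    have p2 := inv_pos.2 b0
    rcases lt_trichotomy c 0 with h | h | h
    · rw [show c • u = (-c) • (-u) by simp, hom _ (by linarith), ← le_div_iff₀ b0, one_div, mem_Icc]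
      constructor
      · intro h; constructor <;> linarith
      · intro h; linarith [h.1]
    · subst h; simp [h0, a0.le, b0.le]
    · rw [hom _ h, ← le_div_iff₀ a0, one_div, mem_Icc]
      constructor
      · intro h; constructor <;> linarith
      · intro h; exact h.2
  have hle : -(γ (-u))⁻¹ ≤ (γ u)⁻¹ := by
    have p1 := inv_pos.2 a0
    have p2 := inv_pos.2 b0
    linarith
  have him : segment ℝ (-(γ (-u))⁻¹ • u) ((γ u)⁻¹ • u) =
      (fun c : ℝ => c • u) '' Icc (-(γ (-u))⁻¹) (γ u)⁻¹ := by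
    rw [← segment_eq_Icc hle]
    exact (image_segment ℝ (LinearMap.toSpanSingleton ℝ E u).toAffineMap _ _).symm
  rw [him]
  ext z
  constructor
  · rintro ⟨h1, h2⟩
    obtain ⟨c, rfl⟩ := hS z h2
    exact ⟨c, (key c).1 h1, rfl⟩
  · rintro ⟨c, hc, rfl⟩
    exact ⟨(key c).2 hc, S.smul_mem c huS⟩

end gen

abbrev E2 := EuclideanSpace ℝ (Fin 2)

def PP (x y s : ℝ) : Prop := -x ≤ s ∧ -y ≤ s ∧ 11 / 10 * x ≤ s ∧ 11 / 10 * y ≤ s ∧
  x + y / 2 ≤ s ∧ x - y / 2 ≤ s ∧ y + x / 2 ≤ s ∧ y - x / 2 ≤ s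

lemma coord (z : E2) (i : Fin 2) : |z i| ≤ ‖z‖ := by
  simpa using PiLp.norm_apply_le z i

lemma bdd_of {A : Set E2} {C : ℝ} (h : ∀ z ∈ A, |z 0| ≤ C ∧ |z 1| ≤ C) : Bornology.IsBounded A := by
  refine (isBounded_closedBall (x := (0 : E2)) (r := 2 * |C|)).subset fun z hz => ?_
  obtain ⟨h1, h2⟩ := h z hz
  rw [mem_closedBall, dist_zero_right, EuclideanSpace.norm_eq, Real.sqrt_le_left (by positivity)]
  simp only [Fin.sum_univ_two, Real.norm_eq_abs]
  have := abs_nonneg (z 0)
  have := abs_nonneg (z 1)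
  have := le_abs_self C
  nlinarith

noncomputable def K0 : ConvexBody E2 where
  carrier := {z | PP (z 0) (z 1) 1}
  convex' := by
    intro x hx y hy a b ha hb hab
    obtain ⟨x1, x2, x3, x4, x5, x6, x7, x8⟩ := hx
    obtain ⟨y1, y2, y3, y4, y5, y6, y7, y8⟩ := hy
    simp only [mem_ofPred_eq, PP, PiLp.add_apply, PiLp.smul_apply, smul_eq_mul]
    refine ⟨?_, ?_, ?_, ?_, ?_, ?_, ?_, ?_⟩ <;> nlinarith
  isCompact' := by
    refine isCompact_of_isClosed_isBounded ?_ (bdd_of (C := 1) ?_)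
    · simp only [PP, ofPred_and]
      refine IsClosed.inter ?_ (IsClosed.inter ?_ (IsClosed.inter ?_ (IsClosed.inter ?_
        (IsClosed.inter ?_ (IsClosed.inter ?_ (IsClosed.inter ?_ ?_)))))) <;>
      exact isClosed_le (by fun_prop) (by fun_prop)
    · rintro z ⟨x1, x2, x3, x4, -⟩
      constructor <;> rw [abs_le] <;> constructor <;> linarith
  nonempty' := ⟨0, by simp [PP]⟩

lemma ball_K0 : closedBall (0 : E2) (1 / 2) ⊆ K0 := by
  intro z hz
  rw [mem_closedBall, dist_zero_right] at hz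
  have h1 := abs_le.1 ((coord z 0).trans hz)
  have h2 := abs_le.1 ((coord z 1).trans hz)
  refine ⟨?_, ?_, ?_, ?_, ?_, ?_, ?_, ?_⟩ <;> linarith [h1.1, h1.2, h2.1, h2.2]

lemma near_of {g : ℝ × ℝ → ℝ} (cv : ConvexOn ℝ univ g)
    (lo : ∀ x y, PP x y ((1 + 1 / 500000) * g (x, y)))
    (up : ∀ x y s, 0 < s → PP x y ((1 - 1 / 500000) * s) → g (x, y) ≤ s) :
    Near (fun t => g (1, t)) (fun t => g (-1, -t)) := by
  refine ⟨⟨convex_univ, fun x _ y _ a b ha hb hab => ?_⟩,
    ⟨convex_univ, fun x _ y _ a b ha hb hab => ?_⟩, fun t => ?_, fun t => ?_, fun t ht => ?_,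
    fun t ht => ?_, fun t ht => ?_, fun t ht => ?_, fun t ht => ?_, fun t ht => ?_, fun t ht => ?_⟩
  · have := cv.2 (mem_univ (1, x)) (mem_univ (1, y)) ha hb hab
    convert this using 2
    simp [hab]
  · have := cv.2 (mem_univ (-1, -x)) (mem_univ (-1, -y)) ha hb hab
    convert this using 2
    ext
    · simp; linarith
    · simp; ring
  · have := (lo 1 t).2.2.1; linarith
  · have := (lo (-1) (-t)).1; linarith
  · have := (lo 1 t).2.2.1; linarith
  · have := (lo 1 t).2.2.2.2.1; rw [abs_le] at ht; linarith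
  · have := (lo 1 t).2.2.2.2.2.1; rw [abs_le] at ht; linarith
  · rw [abs_le] at ht
    refine up _ _ _ (by norm_num) ⟨?_, ?_, ?_, ?_, ?_, ?_, ?_, ?_⟩ <;> linarith
  · rw [abs_le] at ht
    refine up _ _ _ (by norm_num) ⟨?_, ?_, ?_, ?_, ?_, ?_, ?_, ?_⟩ <;> linarith
  · have := (lo (-1) (-t)).1; linarith
  · rw [abs_le] at ht
    refine up _ _ _ (by norm_num) ⟨?_, ?_, ?_, ?_, ?_, ?_, ?_, ?_⟩ <;> linarith

lemma PP.swap {x y s : ℝ} (h : PP x y s) : PP y x s := by
  obtain ⟨x1, x2, x3, x4, x5, x6, x7, x8⟩ := h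
  exact ⟨x2, x1, x4, x3, x7, x8, x5, x6⟩

theorem twin (K : ConvexBody E2) (hK0 : (0 : E2) ∈ interior (K : Set E2))
    (hK : dist K K0 < 1 / 1000000) : ∃ L : ConvexBody E2, (0 : E2) ∈ interior (L : Set E2) ∧
      (L : Set E2) ≠ K ∧ (L : Set E2) ≠ -(K : Set E2) ∧
      ∀ S : Submodule ℝ E2, Module.finrank ℝ S = 1 →
        MeasureTheory.Measure.hausdorffMeasure 1 ((L : Set E2) ∩ (S : Set E2)) =
        MeasureTheory.Measure.hausdorffMeasure 1 ((K : Set E2) ∩ (S : Set E2)) := by
  have nh : (K : Set E2) ∈ 𝓝 0 := mem_interior_iff_mem_nhds.1 hK0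
  have ab : Absorbent ℝ (K : Set E2) := absorbent_nhds_zero nh
  have H1 : ∀ z ∈ (K : Set E2), PP (z 0) (z 1) (1 + 1 / 500000) := by
    intro z hz
    obtain ⟨k, ⟨x1, x2, x3, x4, x5, x6, x7, x8⟩, hd⟩ := near_pt hK z hz
    rw [dist_eq_norm] at hd
    have h1 := abs_le.1 ((coord _ 0).trans hd)
    have h2 := abs_le.1 ((coord _ 1).trans hd)
    simp only [PiLp.sub_apply] at h1 h2
    refine ⟨?_, ?_, ?_, ?_, ?_, ?_, ?_, ?_⟩ <;> linarith [h1.1, h1.2, h2.1, h2.2]
  have H2 := cancel K0.isCompact K (r := 1 / 2) (e := 1 / 1000000) (by norm_num) (by norm_num)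
    (by norm_num) ball_K0 (near_pt (by rwa [dist_comm]))
  let T : ℝ × ℝ → E2 := fun p => !₂[p.1, p.2]
  have Tadd : ∀ p q, T (p + q) = T p + T q := by
    intro p q; ext i; fin_cases i <;> simp [T]
  have Tsmul : ∀ (s : ℝ) p, T (s • p) = s • T p := by
    intro s p; ext i; fin_cases i <;> simp [T]
  have Tz : ∀ z : E2, T (z 0, z 1) = z := by
    intro z; ext i; fin_cases i <;> simp [T]
  let g : ℝ × ℝ → ℝ := fun p => gauge (K : Set E2) (T p)
  have hom : ∀ s : ℝ, 0 ≤ s → ∀ z, g (s • z) = s * g z := by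
    intro s hs z
    simp only [g, Tsmul, gauge_smul_of_nonneg hs, smul_eq_mul]
  have g0 : g 0 = 0 := by simpa using hom 0 le_rfl 0
  have cv : ConvexOn ℝ univ g := ⟨convex_univ, fun x _ y _ a b ha hb _ => by
    have := gauge_add_le K.convex ab (T (a • x)) (T (b • y))
    rw [← Tadd] at this
    simp only [smul_eq_mul, ← hom a ha, ← hom b hb]
    exact this⟩
  have lo : ∀ x y, PP x y ((1 + 1 / 500000) * g (x, y)) := by
    intro x y
    have : ∀ s, g (x, y) < s → PP x y ((1 + 1 / 500000) * s) := by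
      intro s hs
      obtain ⟨b, b0, bs, k, hk, e⟩ := exists_lt_of_gauge_lt ab hs
      obtain ⟨x1, x2, x3, x4, x5, x6, x7, x8⟩ := H1 k hk
      have e0 : x = b * k 0 := by simpa [T] using (congrArg (fun z : E2 => z 0) e).symm
      have e1 : y = b * k 1 := by simpa [T] using (congrArg (fun z : E2 => z 1) e).symm
      rw [e0, e1]
      refine ⟨?_, ?_, ?_, ?_, ?_, ?_, ?_, ?_⟩ <;> nlinarith
    have aux : ∀ l : ℝ, (∀ s, g (x, y) < s → l ≤ (1 + 1 / 500000) * s) →
        l ≤ (1 + 1 / 500000) * g (x, y) := by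
      intro l hl
      rw [← div_le_iff₀' (by norm_num)]
      exact le_of_forall_gt_imp_ge_of_dense fun s hs => by
        rw [div_le_iff₀' (by norm_num)]; exact hl s hs
    exact ⟨aux _ fun s hs => (this s hs).1, aux _ fun s hs => (this s hs).2.1,
      aux _ fun s hs => (this s hs).2.2.1, aux _ fun s hs => (this s hs).2.2.2.1,
      aux _ fun s hs => (this s hs).2.2.2.2.1, aux _ fun s hs => (this s hs).2.2.2.2.2.1,
      aux _ fun s hs => (this s hs).2.2.2.2.2.2.1, aux _ fun s hs => (this s hs).2.2.2.2.2.2.2⟩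
  have up : ∀ x y s, 0 < s → PP x y ((1 - 1 / 500000) * s) → g (x, y) ≤ s := by
    intro x y s hs ⟨x1, x2, x3, x4, x5, x6, x7, x8⟩
    refine gauge_le_of_mem hs.le ?_
    have c0 : 0 < (1 - 1 / 500000) * s := by positivity
    set c := (1 - 1 / 500000) * s with hc
    have := H2 (T (x / c, y / c)) (by
      have f : ∀ l : ℝ, l ≤ c → l / c ≤ 1 := fun l hl => div_le_one_of_le₀ hl c0.le
      have a1 := f _ x1
      have a2 := f _ x2
      have a3 := f _ x3
      have a4 := f _ x4
      have a5 := f _ x5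
      have a6 := f _ x6
      have a7 := f _ x7
      have a8 := f _ x8
      change PP (x / c) (y / c) 1
      simp only [div_eq_mul_inv] at *
      refine ⟨?_, ?_, ?_, ?_, ?_, ?_, ?_, ?_⟩ <;> linarith)
    refine ⟨_, this, ?_⟩
    ext i
    fin_cases i <;> simp [T, hc] <;> field_simp <;> ring
  obtain ⟨D1, P1⟩ := exists_pc (fun s hs => hom s hs.le) (near_of cv lo up)
  obtain ⟨D2, P2⟩ := exists_pc (g := fun z => g z.swap) (fun s hs z => hom s hs.le z.swap)
    (near_of (g := fun z => g z.swap) ⟨convex_univ, fun x _ y _ a b ha hb hab =>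
      cv.2 (mem_univ x.swap) (mem_univ y.swap) ha hb hab⟩ (fun x y => (lo y x).swap)
      fun x y s hs h => up y x s hs h.swap)
  obtain ⟨γ, γcv, γc, γ0, γhom, γpos, γsum, γ1, γ2⟩ := glue g0 P1 P2
  have gpos : ∀ p, p ≠ 0 → 0 < g p := by
    rintro ⟨x, y⟩ hp
    obtain ⟨x1, x2, x3, x4, -⟩ := lo x y
    by_contra h
    apply hp
    have : g (x, y) = 0 := le_antisymm (not_lt.1 h) (gauge_nonneg _)
    rw [this] at x1 x2 x3 x4
    ext <;> simp <;> linarith
  let c : E2 → ℝ × ℝ := fun z => (z 0, z 1)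
  have cc : Continuous c := by fun_prop
  have cne : ∀ z, z ≠ 0 → c z ≠ 0 := by
    intro z hz h
    apply hz
    rw [← Tz z]
    change T (c z) = 0
    rw [h]; ext i; fin_cases i <;> simp [T]
  have KK : (K : Set E2) = {z | g (c z) ≤ 1} := by
    ext z
    simp only [mem_ofPred_eq, g, c, Tz]
    rw [gauge_le_one_iff_mem_closure K.convex nh, K.isClosed.closure_eq]
  let L : ConvexBody E2 :=
    { carrier := {z | γ (c z) ≤ 1}
      convex' := fun x hx y hy a b ha hb hab => by
        have := γcv.2 (mem_univ (c x)) (mem_univ (c y)) ha hb hab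
        have hx : γ (c x) ≤ 1 := hx
        have hy : γ (c y) ≤ 1 := hy
        change γ (a • c x + b • c y) ≤ 1
        simp only [smul_eq_mul] at this
        nlinarith
      isCompact' := by
        refine isCompact_of_isClosed_isBounded (isClosed_le (γc.comp cc) continuous_const)
          (bdd_of (C := 3) fun z hz => ?_)
        by_cases h0 : z = 0
        · simp [h0]
        have a1 := γpos _ (cne z h0)
        have a2 := inv_pos.2 (γpos _ (neg_ne_zero.2 (cne z h0)))
        have a3 : 1 ≤ (γ (c z))⁻¹ := (one_le_inv₀ a1).2 hz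
        have a4 := γsum (c z)
        have b1 := gpos _ (cne z h0)
        have b2 := gpos _ (neg_ne_zero.2 (cne z h0))
        have : g (c z) ≤ 2 ∨ g (-c z) ≤ 2 := by
          by_contra h
          push Not at h
          have := inv_strictAnti₀ (by norm_num) h.1
          have := inv_strictAnti₀ (by norm_num) h.2
          linarith
        rcases this with h | h
        · obtain ⟨x1, x2, x3, x4, -⟩ := lo (z 0) (z 1)
          have : g (z 0, z 1) ≤ 2 := h
          constructor <;> rw [abs_le] <;> constructor <;> linarith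
        · obtain ⟨x1, x2, x3, x4, -⟩ := lo (-z 0) (-z 1)
          have : g (-z 0, -z 1) ≤ 2 := h
          constructor <;> rw [abs_le] <;> constructor <;> linarith
      nonempty' := ⟨0, by change γ 0 ≤ 1; rw [γ0]; norm_num⟩ }
  have LL : (L : Set E2) = {z | γ (c z) ≤ 1} := rfl
  refine ⟨L, ?_, ?_, ?_, ?_⟩
  · rw [mem_interior_iff_mem_nhds]
    have : ∀ᶠ z in 𝓝 (0 : E2), γ (c z) < 1 :=
      (γc.comp cc).continuousAt.eventually (gt_mem_nhds (by change γ 0 < 1; rw [γ0]; norm_num))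
    exact this.mono fun z hz => le_of_lt hz
  · intro h
    have a1 : T (9 / 10, 9 / 10) ∈ (L : Set E2) := by
      change γ (9 / 10, 9 / 10) ≤ 1
      have := γhom (9 / 10) (by norm_num) (1, 1)
      simp only [Prod.smul_mk, smul_eq_mul, mul_one] at this
      rw [this, γ1]
      have := up (-1) (-1) (11 / 10) (by norm_num) (by norm_num [PP])
      linarith
    rw [h] at a1
    have := (H1 _ a1).2.2.2.2.1
    norm_num [T] at this
  · intro h
    have a1 : T (10 / 11, -(4 / 11)) ∈ (L : Set E2) := by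
      rw [h, Set.mem_neg, KK]
      change g (-(10 / 11), -(-(4 / 11))) ≤ 1
      exact up _ _ 1 one_pos (by norm_num [PP])
    change γ (10 / 11, -(4 / 11)) ≤ 1 at a1
    have := γhom (10 / 11) (by norm_num) (1, -(2 / 5))
    simp only [Prod.smul_mk, smul_eq_mul, mul_one] at this
    rw [γ2] at this
    have e : (10 / 11 : ℝ) * -(2 / 5) = -(4 / 11) := by norm_num
    rw [e] at this
    have := (lo 1 (-(2 / 5))).2.2.2.2.2.1
    linarith
  · intro S hS
    obtain ⟨v, hv, hw⟩ := finrank_eq_one_iff'.1 hS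
    have hu : (v : E2) ≠ 0 := fun h => hv (Subtype.ext h)
    have hS' : ∀ w ∈ S, ∃ c : ℝ, c • (v : E2) = w := fun w hw' => by
      obtain ⟨c, hc⟩ := hw ⟨w, hw'⟩
      exact ⟨c, congrArg Subtype.val hc⟩
    rw [LL, KK, chord (γ := fun z => γ (c z)) (fun s hs z => γhom s hs (c z)) γ0
      (fun z hz => γpos _ (cne z hz)) hu S v.2 hS',
      chord (γ := fun z => g (c z)) (fun s hs z => hom s hs.le (c z)) g0
      (fun z hz => gpos _ (cne z hz)) hu S v.2 hS',
      MeasureTheory.hausdorffMeasure_segment, MeasureTheory.hausdorffMeasure_segment,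
      edist_dist, edist_dist, dist_eq_norm, dist_eq_norm, ← sub_smul, ← sub_smul]
    have := γsum (c v)
    have e : -c v = c (-v) := rfl
    rw [e] at this
    congr 3
    linarith

end H58SW
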