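import Mathlib

set_option autoImplicit false

namespace Pool.Agent.H58.SemiIndep
open Filter Topology Finset Complex MeasureTheory

lemma tends {ι : Type} (s : Finset ι) (a : ι → ℂ) (σ : ι → ℝ) (hσ : ∀ i ∈ s, 0 < σ i) (c : ℂ) :
    Tendsto (fun R : ℝ => c + ∑ i ∈ s, a i * cexp (-R * σ i)) atTop (𝓝 c) := by
  have : ∀ i ∈ s, Tendsto (fun R : ℝ => a i * cexp (-R * σ i)) atTop (𝓝 0) := fun i hi => by
    have h := (Real.tendsto_exp_neg_atTop_nhds_zero.comp
      (tendsto_id.atTop_mul_const (hσ i hi))).ofReal.const_mul (a i)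
    simp only [ofReal_zero, mul_zero] at h
    exact h.congr fun R => by simp
  simpa using (tendsto_finsetSum s this).const_add c

lemma circ {ι : Type} [Fintype ι] (σ : ι → ℝ) (hσ : ∀ i, 0 < σ i) (c : ℂ) (hc : c ≠ 0) (R : ℝ) :
    ∃ δ : ℝ, 0 < δ ∧ ∀ a ∈ Metric.closedBall (0 : ι → ℂ) R, ∃ ρ ∈ Set.Ioo (1 : ℝ) 2,
      ∀ w ∈ Metric.sphere (0 : ℂ) ρ, δ ≤ ‖c + ∑ i, a i * cexp (w * σ i)‖ := by
  refine (isCompact_closedBall (0 : ι → ℂ) R).induction_on
    (p := fun A => ∃ δ : ℝ, 0 < δ ∧ ∀ a ∈ A, ∃ ρ ∈ Set.Ioo (1 : ℝ) 2,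
      ∀ w ∈ Metric.sphere (0 : ℂ) ρ, δ ≤ ‖c + ∑ i, a i * cexp (w * σ i)‖)
    ⟨1, one_pos, by simp⟩ (fun A B hAB ⟨δ, h1, h2⟩ => ⟨δ, h1, fun a ha => h2 a (hAB ha)⟩) ?_ ?_
  · rintro A B ⟨δ, h1, h2⟩ ⟨δ', h3, h4⟩
    refine ⟨min δ δ', lt_min h1 h3, ?_⟩
    rintro a (ha | ha)
    · obtain ⟨ρ, h5, h6⟩ := h2 a ha
      exact ⟨ρ, h5, fun w hw => (min_le_left _ _).trans (h6 w hw)⟩
    · obtain ⟨ρ, h5, h6⟩ := h4 a ha
      exact ⟨ρ, h5, fun w hw => (min_le_right _ _).trans (h6 w hw)⟩
  · intro a _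
    obtain ⟨r, hr⟩ := ((tends univ a σ (fun i _ => hσ i) c).eventually_ne hc).exists
    have h1 : AnalyticOnNhd ℂ (fun w : ℂ => c + ∑ i, a i * cexp (w * σ i)) Set.univ :=
      fun w _ => Differentiable.analyticAt (by fun_prop) w
    have h2 : {w : ℂ | c + ∑ i, a i * cexp (w * σ i) = 0}.Countable :=
      (HereditarilyLindelofSpace.isLindelof _).countable_of_isDiscrete
        (compl_mem_codiscrete_iff.1 (h1.preimage_zero_mem_codiscrete hr)).2
    obtain ⟨ρ, h3, h4⟩ := ((h2.image norm).dense_compl ℝ).inter_open_nonempty _ isOpen_Ioo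
      (Set.nonempty_Ioo.2 one_lt_two)
    obtain ⟨m, hm, h5⟩ := (isCompact_sphere (0 : ℂ) ρ).exists_forall_le'
      (f := fun w : ℂ => ‖c + ∑ i, a i * cexp (w * σ i)‖) (by fun_prop) (a := 0)
      fun w hw => norm_pos_iff.2 fun h => h4 ⟨w, h, by simpa using hw⟩
    refine ⟨_, mem_nhdsWithin_of_mem_nhds ((isCompact_sphere (0 : ℂ) ρ).eventually_forall_of_forall_eventually
      (x₀ := a) (P := fun a w => m / 2 ≤ ‖c + ∑ i, a i * cexp (w * σ i)‖) fun w hw => ?_),
      m / 2, by positivity, fun a' ha' => ⟨ρ, h3, ha'⟩⟩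
    have : Continuous fun z : (ι → ℂ) × ℂ => ‖c + ∑ i, z.1 i * cexp (z.2 * σ i)‖ := by fun_prop
    exact (this.tendsto _).eventually (le_mem_nhds (lt_of_lt_of_le (half_lt_self hm) (h5 w hw)))

lemma divide {n p : ℂ → ℂ} (hn : Differentiable ℂ n) (hp : Differentiable ℂ p) (h0 : p ≠ 0)
    (h : ∀ z, analyticOrderAt p z ≤ analyticOrderAt n z) :
    ∃ r : ℂ → ℂ, Differentiable ℂ r ∧ ∀ z, n z = p z * r z := by
  have loc : ∀ z₀, ∃ r : ℂ → ℂ, AnalyticAt ℂ r z₀ ∧ ∀ᶠ z in 𝓝 z₀, n z = p z * r z := by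
    intro z₀
    obtain ⟨m, hm⟩ := ENat.ne_top_iff_exists.1
      (mt (AnalyticOnNhd.analyticOrderAt_eq_top_iff_eq_zero z₀ hp.analyticAt).1 h0)
    obtain ⟨g, g1, g2, g3⟩ := (hp.analyticAt z₀).analyticOrderAt_eq_natCast.1 hm.symm
    obtain ⟨k, k1, k2⟩ := (natCast_le_analyticOrderAt (hn.analyticAt z₀)).1 (hm ▸ h z₀)
    refine ⟨fun z => k z / g z, k1.div g1 g2, ?_⟩
    filter_upwards [g3, k2, g1.continuousAt.eventually_ne g2] with z a1 a2 a3
    rw [a1, a2, smul_eq_mul, smul_eq_mul]; field_simp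
  choose r r1 r2 using loc
  refine ⟨fun z => r z z, fun z₀ => ?_, fun z => (r2 z).self_of_nhds⟩
  refine (r1 z₀).differentiableAt.congr_of_eventuallyEq ?_
  have h1 : ∀ᶠ z in 𝓝[≠] z₀, p z ≠ 0 :=
    (hp.analyticAt z₀).eventually_eq_zero_or_eventually_ne_zero.resolve_left fun h' =>
      h0 ((AnalyticOnNhd.analyticOrderAt_eq_top_iff_eq_zero z₀ hp.analyticAt).1
        (analyticOrderAt_eq_top.2 h'))
  filter_upwards [eventually_nhdsWithin_iff.1 h1, r2 z₀] with z a1 a2
  by_cases hz : z = z₀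
  · rw [hz]
  · exact mul_left_cancel₀ (a1 hz) ((r2 z).self_of_nhds.symm.trans a2)

noncomputable def G (f : ℝ → ℂ) (u : ℝ) (w : ℂ) : ℂ := ∫ s in (0 : ℝ)..u, cexp (-w * s) * f s

lemma G_diff {f : ℝ → ℂ} (hf : Continuous f) (u : ℝ) : Differentiable ℂ (G f u) := by
  intro w₀
  refine (intervalIntegral.hasDerivAt_integral_of_dominated_loc_of_deriv_le (μ := volume)
    (F := fun w s => cexp (-w * s) * f s) (F' := fun w s => cexp (-w * s) * -s * f s)
    (bound := fun s => Real.exp ((‖w₀‖ + 1) * |s|) * |s| * ‖f s‖)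
    (Metric.ball_mem_nhds w₀ one_pos) (Eventually.of_forall fun w => ?_) ?_ ?_
    (Eventually.of_forall fun s _ w hw => ?_) ?_
    (Eventually.of_forall fun s _ w _ => ?_)).2.differentiableAt
  · exact Continuous.aestronglyMeasurable (by fun_prop)
  · exact Continuous.intervalIntegrable (by fun_prop) _ _
  · exact Continuous.aestronglyMeasurable (by fun_prop)
  · rw [norm_mul, norm_mul, norm_neg, norm_real, Real.norm_eq_abs]
    gcongr
    refine (norm_exp_le_exp_norm _).trans (Real.exp_le_exp.2 ?_)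
    rw [norm_mul, norm_neg, norm_real, Real.norm_eq_abs]
    gcongr
    linarith [mem_ball_iff_norm.1 hw, norm_sub_norm_le w w₀]
  · exact Continuous.intervalIntegrable (by fun_prop) _ _
  · simpa using (((hasDerivAt_id w).neg.mul_const (s : ℂ)).cexp).mul_const (f s)

lemma G_shift {f g : ℝ → ℂ} (hf : Continuous f) {t u : ℝ} (hu : 0 ≤ u)
    (h : ∀ s, 0 ≤ s → g s = f (s + t)) (w : ℂ) :
    G g u w = cexp (w * t) * (G f (u + t) w - G f t w) := by
  have hi : ∀ a b, IntervalIntegrable (fun s : ℝ => cexp (-w * s) * f s) volume a b :=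
    fun a b => Continuous.intervalIntegrable (by fun_prop) _ _
  have h1 := intervalIntegral.integral_comp_add_right (a := 0) (b := u)
    (fun s : ℝ => cexp (-w * s) * f s) t
  rw [zero_add] at h1
  unfold G
  rw [intervalIntegral.integral_interval_sub_left (hi _ _) (hi _ _), ← h1,
    ← intervalIntegral.integral_const_mul]
  refine intervalIntegral.integral_congr fun s hs => ?_
  rw [Set.uIcc_of_le hu] at hs
  simp only [h s hs.1]
  rw [← mul_assoc, ← Complex.exp_add]; congr 2; push_cast; ring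

lemma G_le {f : ℝ → ℂ} {u M κ : ℝ} (hu : 0 ≤ u) (hM : ∀ s ∈ Set.Icc 0 u, ‖f s‖ ≤ M) (a w : ℂ)
    (h : ∀ s ∈ Set.Icc 0 u, a.re - w.re * s ≤ κ) : ‖cexp a * G f u w‖ ≤ Real.exp κ * M * u := by
  unfold G
  rw [← intervalIntegral.integral_const_mul]
  refine (intervalIntegral.norm_integral_le_of_norm_le_const fun s hs => ?_).trans
    (by rw [sub_zero, abs_of_nonneg hu])
  rw [Set.uIoc_of_le hu] at hs
  rw [← mul_assoc, ← Complex.exp_add, norm_mul, norm_exp]
  refine mul_le_mul (Real.exp_le_exp.2 ?_) (hM s ⟨hs.1.le, hs.2⟩) (norm_nonneg _) (by positivity)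
  simpa [sub_eq_add_neg] using h s ⟨hs.1.le, hs.2⟩

lemma G_tends {f : ℝ → ℂ} (hf : Continuous f) {u : ℝ} (hu : 0 ≤ u) :
    Tendsto (fun R : ℝ => cexp (-R * u) * G f u (-R)) atTop (𝓝 0) := by
  have := intervalIntegral.tendsto_integral_filter_of_dominated_convergence (μ := volume) (a := 0)
    (b := u) (l := atTop) (F := fun (R : ℝ) s => cexp (-R * u) * (cexp (-(-R) * s) * f s))
    (f := fun _ => 0) (fun s => ‖f s‖)
    (Eventually.of_forall fun R => Continuous.aestronglyMeasurable (by fun_prop))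
    ((eventually_ge_atTop 0).mono fun R hR => Eventually.of_forall fun s hs => ?_)
    (hf.norm.intervalIntegrable _ _) ?_
  · simpa only [intervalIntegral.integral_const_mul, intervalIntegral.integral_zero, G] using this
  · rw [Set.uIoc_of_le hu] at hs
    rw [← mul_assoc, ← Complex.exp_add, norm_mul, norm_exp]
    refine mul_le_of_le_one_left (norm_nonneg _) (Real.exp_le_one_iff.2 ?_)
    simp; nlinarith [hs.2]
  · filter_upwards [compl_mem_ae_iff.2 (measure_singleton u)] with s hs hs'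
    rw [Set.uIoc_of_le hu] at hs'
    have := tends {0} (fun _ : ℕ => f s) (fun _ => u - s)
      (fun _ _ => sub_pos.2 (lt_of_le_of_ne hs'.2 hs)) 0
    refine this.congr fun R => ?_
    rw [← mul_assoc, ← Complex.exp_add, sum_singleton, zero_add, mul_comm]; congr 2; push_cast; ring

section core
variable {X : Type} [NormedAddCommGroup X] (T : ℝ → X →+ X) (z : X)
  (hz : Dense ((fun t => T t z) '' Set.Ici 0))
include hz

lemma zero_of_bd (ψ : X →+ ℂ) (hψ : Continuous ψ) (C : ℝ) (h : ∀ t, 0 ≤ t → ‖ψ (T t z)‖ ≤ C) (x : X) :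
    ψ x = 0 := by
  have h1 : ∀ x, ‖ψ x‖ ≤ C := fun x => hz.induction (P := fun x => ‖ψ x‖ ≤ C)
    (by rintro _ ⟨t, ht, rfl⟩; exact h t ht) (isClosed_le hψ.norm continuous_const) x
  by_contra hc
  obtain ⟨n, hn⟩ := exists_nat_gt (C / ‖ψ x‖)
  have := h1 (n • x)
  rw [map_nsmul, nsmul_eq_mul, norm_mul, norm_natCast] at this
  rw [div_lt_iff₀ (norm_pos_iff.2 hc)] at hn
  linarith

lemma zero_of_eig (ψ : X →+ ℂ) (hψ : Continuous ψ) (w : ℂ)
    (h : ∀ t, 0 ≤ t → ψ (T t z) = cexp (w * t) * ψ z) (x : X) : ψ x = 0 := by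
  have e : ∀ t, 0 ≤ t → ‖ψ (T t z)‖ = Real.exp (w.re * t) * ‖ψ z‖ := fun t ht => by
    rw [h t ht, norm_mul, norm_exp]; simp
  rcases le_total w.re 0 with hw | hw
  · exact zero_of_bd T z hz ψ hψ ‖ψ z‖ (fun t ht => by
      rw [e t ht]
      exact mul_le_of_le_one_left (norm_nonneg _) (Real.exp_le_one_iff.2 (by nlinarith))) x
  · have := hz.induction (P := fun x => ‖ψ z‖ ≤ ‖ψ x‖) (by
      rintro _ ⟨t, ht, rfl⟩
      rw [e t ht]
      exact le_mul_of_one_le_left (norm_nonneg _) (Real.one_le_exp (mul_nonneg hw ht)))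
      (isClosed_le continuous_const hψ.norm) 0
    rw [map_zero, norm_zero] at this
    exact zero_of_bd T z hz ψ hψ 0 (fun t ht => by
      rw [e t ht]; exact mul_nonpos_of_nonneg_of_nonpos (by positivity) this) x

theorem core (hT : ∀ s t, 0 ≤ s → 0 ≤ t → ∀ x, T (s + t) x = T s (T t x))
    (φ : X →+ ℂ) (hφ : Continuous φ) (hc : ∀ x, Continuous fun s => φ (T s x))
    {ι : Type} (s : Finset ι) (c : ι → ℂ) (τ : ι → ℝ) (b : ℝ) (i₀ i₁ : ι) (h0 : i₀ ∈ s) (h1 : i₁ ∈ s)
    (t0 : τ i₀ = 0) (t1 : τ i₁ = b) (t2 : ∀ i ∈ s, i ≠ i₀ → 0 < τ i) (t3 : ∀ i ∈ s, i ≠ i₁ → τ i < b)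
    (c0 : c i₀ ≠ 0) (c1 : c i₁ ≠ 0) (M : ℝ) (hM : ∀ u ∈ Set.Icc 0 b, ∀ x, ‖φ (T u x)‖ ≤ M * ‖x‖)
    (hrel : ∀ x, ∑ i ∈ s, c i * φ (T (τ i) x) = 0) (x : X) : φ x = 0 := by
  classical
  have τ0 : ∀ i ∈ s, 0 ≤ τ i := fun i hi => by
    by_cases h : i = i₀
    · rw [h, t0]
    · exact (t2 i hi h).le
  have τb : ∀ i ∈ s, τ i ≤ b := fun i hi => by
    by_cases h : i = i₁
    · rw [h, t1]
    · exact (t3 i hi h).le
  obtain ⟨p, hp⟩ : ∃ p : ℂ → ℂ, p = fun w => ∑ i ∈ s, c i * cexp (w * τ i) := ⟨_, rfl⟩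
  obtain ⟨n, hn⟩ : ∃ n : X → ℂ → ℂ, n = fun x w =>
    ∑ i ∈ s, c i * (cexp (w * τ i) * G (fun u => φ (T u x)) (τ i) w) := ⟨_, rfl⟩
  have ce : ∀ w : ℂ, Continuous fun u : ℝ => cexp (-w * u) := fun w => by fun_prop
  have gd := fun x u => G_diff (hc x) u
  have pd : Differentiable ℂ p := by rw [hp]; fun_prop
  have nd : ∀ x, Differentiable ℂ (n x) := fun x => by rw [hn]; fun_prop
  have ident : ∀ x t, 0 ≤ t → ∀ w, n (T t x) w =
      cexp (w * t) * (n x w - p w * G (fun u => φ (T u x)) t w) := by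
    intro x t ht w
    have a1 : ∑ i ∈ s, c i * G (fun u => φ (T (τ i) (T u x))) t w = 0 := by
      unfold G
      simp only [← intervalIntegral.integral_const_mul]
      rw [← intervalIntegral.integral_finsetSum]
      · simp only [mul_left_comm (c _), ← mul_sum, hrel, mul_zero, intervalIntegral.integral_zero]
      · intro i hi
        have : Continuous fun u => φ (T (u + τ i) x) := (hc x).comp (continuous_add_const _)
        refine (Continuous.intervalIntegrable (u := fun u : ℝ => c i * (cexp (-w * u) *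
          φ (T (u + τ i) x))) (continuous_const.mul ((ce w).mul this)) 0 t).congr fun u hu => ?_
        rw [Set.uIoc_of_le ht] at hu
        simp only [add_comm u, hT _ _ (τ0 i hi) hu.1.le]
    rw [sum_congr rfl fun i hi => by
      rw [G_shift (hc x) (t := τ i) ht fun u hu => by rw [add_comm, hT _ _ (τ0 i hi) hu]]] at a1
    simp only [hn, hp]
    rw [sum_congr rfl fun i hi => by
      rw [G_shift (hc x) (t := t) (τ0 i hi) fun u hu => by rw [hT _ _ hu ht]]]
    simp only [mul_sub, sum_sub_distrib, add_comm t] at a1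
    simp only [mul_sub, sum_sub_distrib, sum_mul, mul_sum, ← sub_eq_zero.1 a1]
    congr 1 <;> exact sum_congr rfl fun i _ => by ring
  have nle : ∀ x (a w : ℂ) (κ : ℝ), (∀ t ∈ Set.Icc 0 b, a.re + w.re * t ≤ κ) →
      ‖cexp a * n x w‖ ≤ (∑ i ∈ s, ‖c i‖ * (Real.exp κ * M * τ i)) * ‖x‖ := by
    intro x a w κ h
    rw [hn, mul_sum, sum_mul]
    refine (norm_sum_le _ _).trans (sum_le_sum fun i hi => ?_)
    rw [mul_left_comm, ← mul_assoc (cexp a), ← Complex.exp_add, norm_mul, mul_assoc]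
    refine mul_le_mul_of_nonneg_left ((G_le (κ := κ) (τ0 i hi) (fun u hu => hM u
      ⟨hu.1, hu.2.trans (τb i hi)⟩ x) _ _ fun u hu => ?_).trans (le_of_eq (by ring))) (norm_nonneg _)
    have := h (τ i - u) ⟨sub_nonneg.2 hu.2, by linarith [τb i hi, hu.1]⟩
    simp; linarith
  have pl : ∀ w, p w = c i₀ + ∑ i ∈ s.erase i₀, c i * cexp (w * τ i) := fun w => by
    rw [hp]; simp only; rw [← add_sum_erase s _ h0, t0]; simp
  have pt : Tendsto (fun R : ℝ => p (-R)) atTop (𝓝 (c i₀)) := by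
    simp only [pl]
    exact tends _ c τ (fun i hi => t2 i (mem_of_mem_erase hi) (ne_of_mem_erase hi)) _
  obtain ⟨R₀, hR₀⟩ := (pt.eventually_ne c0).exists
  have p0 : p ≠ 0 := fun h => hR₀ (by rw [h]; rfl)
  have ord : ∀ w₀ (k : ℕ), k ≤ analyticOrderAt p w₀ → ∀ x, k ≤ analyticOrderAt (n x) w₀ := by
    intro w₀ k
    induction k with
    | zero => simp
    | succ k ih =>
      intro hk
      have ih' := ih (le_trans (by exact_mod_cast Nat.le_succ k) hk)
      let ψ : X →+ ℂ := AddMonoidHom.mk' (fun x => iteratedDeriv k (n x) w₀) fun x y => by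
        rw [← iteratedDeriv_add ((nd x).analyticAt w₀).contDiffAt ((nd y).analyticAt w₀).contDiffAt]
        congr 1
        ext w
        simp only [hn, Pi.add_apply, ← sum_add_distrib, ← mul_add, G, map_add]
        refine sum_congr rfl fun i _ => ?_
        rw [← intervalIntegral.integral_add (((ce w).fun_mul (hc x)).intervalIntegrable _ _)
          (((ce w).fun_mul (hc y)).intervalIntegrable _ _)]
        simp only [mul_add]
      have ψc : Continuous ψ := AddMonoidHomClass.continuous_of_bound ψ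
        (k.factorial * ∑ i ∈ s, ‖c i‖ * (Real.exp ((‖w₀‖ + 1) * b) * M * τ i)) fun x => by
          have := Complex.norm_iteratedDeriv_le_of_forall_mem_sphere_norm_le (c := w₀) k one_pos
            (nd x).diffContOnCl fun w hw => by
              have := nle x 0 w ((‖w₀‖ + 1) * b) fun t ht => by
                have a1 := norm_sub_norm_le w w₀
                rw [mem_sphere_iff_norm.1 hw] at a1
                have a2 := re_le_norm w
                have a3 := norm_nonneg w₀
                rw [zero_re, zero_add]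
                nlinarith [ht.1, ht.2]
              rwa [Complex.exp_zero, one_mul] at this
          rwa [one_pow, div_one, ← mul_assoc] at this
      have ψ0 := zero_of_eig T z hz ψ ψc w₀ fun t ht => by
        have e1 : AnalyticAt ℂ (fun w : ℂ => cexp (w * t) - cexp (w₀ * t)) w₀ := by fun_prop
        have e2 : AnalyticAt ℂ (fun w : ℂ => cexp (w * t) * G (fun u => φ (T u z)) t w) w₀ :=
          Differentiable.analyticAt (by fun_prop) _
        have e3 : n (T t z) - (fun w => cexp (w₀ * t) * n z w) =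
            (fun w : ℂ => cexp (w * t) - cexp (w₀ * t)) * n z -
              p * fun w : ℂ => cexp (w * t) * G (fun u => φ (T u z)) t w := by
          ext w; simp only [Pi.sub_apply, Pi.mul_apply, ident z t ht]; ring
        have e4 : ((k + 1 : ℕ) : ℕ∞) ≤
            analyticOrderAt (n (T t z) - (fun w => cexp (w₀ * t) * n z w)) w₀ := by
          rw [e3]
          refine le_trans (le_min ?_ ?_) le_analyticOrderAt_sub
          · rw [analyticOrderAt_mul e1 ((nd z).analyticAt _), Nat.cast_add_one, add_comm]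
            exact add_le_add (Order.one_le_iff_ne_zero.2 (e1.analyticOrderAt_ne_zero.2 (sub_self _)))
              (ih' z)
          · rw [analyticOrderAt_mul (pd.analyticAt _) e2]
            exact hk.trans le_self_add
        have e5 : AnalyticAt ℂ (fun w => cexp (w₀ * t) * n z w) w₀ :=
          analyticAt_const.mul ((nd z).analyticAt _)
        have e6 := (natCast_le_analyticOrderAt_iff_iteratedDeriv_eq_zero
          (((nd _).analyticAt _).sub e5)).1 e4 k (Nat.lt_succ_self k)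
        rw [iteratedDeriv_sub ((nd _).analyticAt _).contDiffAt e5.contDiffAt,
          iteratedDeriv_const_mul_field, sub_eq_zero] at e6
        exact e6
      intro x
      refine (natCast_le_analyticOrderAt_iff_iteratedDeriv_eq_zero ((nd x).analyticAt _)).2
        fun i hi => ?_
      rcases Nat.lt_succ_iff_lt_or_eq.1 hi with h | rfl
      · exact (natCast_le_analyticOrderAt_iff_iteratedDeriv_eq_zero ((nd x).analyticAt _)).1
          (ih' x) i h
      · exact ψ0 x
  have n0 : ∀ x w, n x w = 0 := by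
    intro x
    obtain ⟨r, r1, r2⟩ := divide (nd x) pd p0 fun w =>
      ENat.forall_natCast_le_iff_le.1 fun k hk => ord w k hk x
    have cs : ∀ i ∈ s, ‖c i‖ ≤ ∑ i ∈ s, ‖c i‖ := fun i hi =>
      single_le_sum (f := fun i => ‖c i‖) (fun _ _ => norm_nonneg _) hi
    have cs0 : 0 ≤ ∑ i ∈ s, ‖c i‖ := sum_nonneg fun _ _ => norm_nonneg _
    obtain ⟨δ, hδ, hL⟩ := circ (fun i : s.erase i₀ => τ i)
      (fun i => t2 i (mem_of_mem_erase i.2) (ne_of_mem_erase i.2)) _ c0 (∑ i ∈ s, ‖c i‖)
    obtain ⟨δ', hδ', hR⟩ := circ (fun i : s.erase i₁ => b - τ i)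
      (fun i => sub_pos.2 (t3 i (mem_of_mem_erase i.2) (ne_of_mem_erase i.2))) _ c1 (∑ i ∈ s, ‖c i‖)
    obtain ⟨K, hK⟩ : ∃ K, K = (∑ i ∈ s, ‖c i‖ * (Real.exp (2 * b) * M * τ i)) * ‖x‖ := ⟨_, rfl⟩
    have mm : ∀ (w₀ : ℂ) (ρ C : ℝ), 1 < ρ → (∀ w ∈ Metric.sphere w₀ ρ, ‖r w‖ ≤ C) → ‖r w₀‖ ≤ C :=
      fun w₀ ρ C h h' => Complex.norm_le_of_forall_mem_frontier_norm_le (U := Metric.ball w₀ ρ)
        Metric.isBounded_ball r1.diffContOnCl (by rwa [frontier_ball _ (by linarith)])
        (subset_closure (Metric.mem_ball_self (by linarith)))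
    have bd : ∀ w₀, ‖r w₀‖ ≤ max (K / δ) (K / δ') := by
      intro w₀
      rcases le_total w₀.re 0 with h | h
      · obtain ⟨ρ, a1, a2⟩ := hL (fun i => c i * cexp (w₀ * τ i)) (by
          rw [mem_closedBall_zero_iff, pi_norm_le_iff_of_nonneg cs0]
          intro i
          have hi := mem_of_mem_erase i.2
          rw [norm_mul, norm_exp]
          exact (mul_le_of_le_one_right (norm_nonneg _) (Real.exp_le_one_iff.2
            (by simp; nlinarith [τ0 i hi]))).trans (cs i hi))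
        refine (mm w₀ ρ _ a1.1 fun w hw => ?_).trans (le_max_left _ _)
        have a3 := a2 (w - w₀) (by simpa [dist_eq_norm] using hw)
        have a4 := nle x 0 w (2 * b) fun t ht => by
          have := re_le_norm (w - w₀)
          rw [mem_sphere_iff_norm.1 hw, sub_re] at this
          rw [zero_re, zero_add]
          nlinarith [ht.1, ht.2, a1.2]
        have a5 : p w = c i₀ + ∑ i : s.erase i₀, c i * cexp (w₀ * τ i) * cexp ((w - w₀) * τ i) := by
          rw [pl, ← sum_coe_sort]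
          congr 1
          exact sum_congr rfl fun i _ => by rw [mul_assoc, ← Complex.exp_add]; congr 2; ring
        rw [Complex.exp_zero, one_mul, ← hK, r2, norm_mul, a5] at a4
        rw [le_div_iff₀ hδ]
        nlinarith [norm_nonneg (r w)]
      · obtain ⟨ρ, a1, a2⟩ := hR (fun i => c i * cexp (-w₀ * (b - τ i : ℝ))) (by
          rw [mem_closedBall_zero_iff, pi_norm_le_iff_of_nonneg cs0]
          intro i
          have hi := mem_of_mem_erase i.2
          rw [norm_mul, norm_exp]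
          exact (mul_le_of_le_one_right (norm_nonneg _) (Real.exp_le_one_iff.2
            (by simp; nlinarith [τb i hi]))).trans (cs i hi))
        refine (mm w₀ ρ _ a1.1 fun w hw => ?_).trans (le_max_right _ _)
        have a3 := a2 (w₀ - w) (by simpa [dist_eq_norm, norm_sub_rev] using hw)
        have a4 := nle x (-w * b) w (2 * b) fun t ht => by
          have := re_le_norm (w₀ - w)
          rw [norm_sub_rev, mem_sphere_iff_norm.1 hw, sub_re] at this
          simp
          nlinarith [ht.1, ht.2, a1.2]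
        have a5 : cexp (-w * b) * p w = c i₁ + ∑ i : s.erase i₁,
            c i * cexp (-w₀ * (b - τ i : ℝ)) * cexp ((w₀ - w) * (b - τ i : ℝ)) := by
          rw [hp]; simp only
          rw [← add_sum_erase s _ h1, t1, mul_add, mul_sum, ← sum_coe_sort, mul_left_comm,
            ← Complex.exp_add]
          congr 1
          · simp
          · exact sum_congr rfl fun i _ => by
              rw [mul_assoc, mul_left_comm, ← Complex.exp_add, ← Complex.exp_add]
              congr 2; push_cast; ring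
        rw [← hK, r2, ← mul_assoc, norm_mul, a5] at a4
        rw [le_div_iff₀ hδ']
        nlinarith [norm_nonneg (r w)]
    have cst := r1.apply_eq_apply_of_bounded
      (isBounded_iff_forall_norm_le.2 ⟨_, by rintro _ ⟨w, rfl⟩; exact bd w⟩)
    have l1 : Tendsto (fun R : ℝ => n x (-R)) atTop (𝓝 0) := by
      rw [hn]
      simpa using tendsto_finsetSum s fun i hi => (G_tends (hc x) (τ0 i hi)).const_mul (c i)
    have l2 := pt.mul_const (r 0)
    have := tendsto_nhds_unique l1 (l2.congr fun R => by rw [r2, cst (-R) 0])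
    intro w
    rw [r2, cst w 0, (mul_eq_zero.1 this.symm).resolve_left c0, mul_zero]
  refine zero_of_bd T z hz φ hφ ‖φ (T 0 z)‖ (fun t ht => ?_) x
  rcases ht.eq_or_lt with rfl | ht'
  · rfl
  have hz' := (ce (-R₀)).fun_mul (hc z)
  have d1 := intervalIntegral.integral_hasDerivAt_right
    (f := fun u : ℝ => cexp (-(-R₀ : ℂ) * u) * φ (T u z)) (a := 0) (b := t)
    (hz'.intervalIntegrable _ _) (hz'.stronglyMeasurableAtFilter _ _) hz'.continuousAt
  have d2 : HasDerivAt (fun u => G (fun u => φ (T u z)) u (-R₀)) 0 t := by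
    refine (hasDerivAt_const t (0 : ℂ)).congr_of_eventuallyEq ?_
    filter_upwards [lt_mem_nhds ht'] with u hu
    have := ident z u hu.le (-R₀)
    simpa [n0, hR₀] using this
  have := d1.unique d2
  rw [(mul_eq_zero.1 this).resolve_left (Complex.exp_ne_zero _), norm_zero]
  exact norm_nonneg _

end core

end Pool.Agent.H58.SemiIndep
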