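import Mathlib

set_option autoImplicit false

namespace Pool.Agent.H58.Shadow
open Filter Topology Finset BoundedContinuousFunction

variable {𝕜 : Type} [RCLike 𝕜]

lemma hasSum_norm {Γ : Type} (f : lp (fun _ : Γ => 𝕜) 1) : HasSum (fun a => ‖f a‖) ‖f‖ := by
  simpa using lp.hasSum_norm (p := 1) (by simp) f

lemma hump {Γ : Type} (u : ℕ → lp (fun _ : Γ => 𝕜) 1) (C : ℝ) (h1 : ∀ i, 1 ≤ ‖u i‖)
    (h2 : ∀ (I : Finset ℕ) (c : ℕ → 𝕜), (∀ i, ‖c i‖ ≤ 1) → ‖∑ i ∈ I, c i • u i‖ ≤ C) : False := by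
  classical
  have h3 : ∀ δ, Tendsto (fun i => ‖u i δ‖) atTop (𝓝 0) := fun δ => by
    choose c hc hc' using fun i => RCLike.exists_norm_eq_mul_self (u i δ)
    refine (summable_of_sum_le (c := C) (fun _ => norm_nonneg _) fun I => ?_).tendsto_atTop_zero
    have := (lp.norm_apply_le_norm one_ne_zero _ δ).trans (h2 I c fun i => (hc i).le)
    rw [lp.coeFn_sum, Finset.sum_apply] at this
    simp only [lp.coeFn_smul, Pi.smul_apply, smul_eq_mul, ← hc', ← RCLike.ofReal_sum,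
      RCLike.norm_ofReal] at this
    exact (le_abs_self _).trans this
  have key : ∀ n : ℕ, ∃ I : Finset ℕ, (n : ℝ) / 2 ≤ ‖∑ i ∈ I, u i‖ := by
    intro n
    induction n with
    | zero => exact ⟨∅, by simp⟩
    | succ n ih =>
      obtain ⟨I, hI⟩ := ih
      obtain ⟨v, hv⟩ : ∃ v, v = ∑ i ∈ I, u i := ⟨_, rfl⟩
      obtain ⟨A, hA⟩ := ((hasSum_norm v).eventually
        (lt_mem_nhds (show ‖v‖ - 1 / 8 < ‖v‖ by linarith))).exists
      have h4 := tendsto_finsetSum A fun δ _ => h3 δ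
      rw [sum_const_zero] at h4
      obtain ⟨i, hi, hi'⟩ := ((h4.eventually (gt_mem_nhds (show (0 : ℝ) < 1 / 8 by norm_num))).and
        (eventually_gt_atTop (I.sup id))).exists
      have hiI : i ∉ I := fun h => absurd (le_sup (f := id) h) (not_le.2 hi')
      refine ⟨insert i I, ?_⟩
      rw [sum_insert hiI, ← hv]
      have g : HasSum (fun δ => if δ ∈ A then ‖u i δ‖ - ‖v δ‖ else 0) (∑ δ ∈ A, (‖u i δ‖ - ‖v δ‖)) := by
        have := hasSum_sum_of_ne_finset_zero (f := fun δ => if δ ∈ A then ‖u i δ‖ - ‖v δ‖ else 0)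
          (s := A) (L := SummationFilter.unconditional Γ) fun b hb => if_neg hb
        rwa [sum_congr rfl fun b hb => if_pos hb] at this
      have := hasSum_le (fun δ => ?_) (((hasSum_norm (u i)).sub (hasSum_norm v)).sub (g.mul_left 2))
        (hasSum_norm (u i + v))
      · rw [sum_sub_distrib] at this
        rw [← hv] at hI
        push_cast
        linarith [h1 i]
      · rw [lp.coeFn_add, Pi.add_apply]
        have a1 := norm_sub_norm_le (u i δ) (-v δ)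
        have a2 := norm_sub_norm_le (v δ) (-u i δ)
        rw [sub_neg_eq_add, norm_neg] at a1 a2
        rw [add_comm] at a2
        split_ifs <;> linarith
  obtain ⟨n, hn⟩ := exists_nat_gt (2 * C)
  obtain ⟨I, hI⟩ := key n
  have := h2 I (fun _ => 1) (by simp)
  simp only [one_smul] at this
  linarith

theorem exists_quot (𝕜 : Type) [RCLike 𝕜] : ∃ (E : Type) (_ : NormedAddCommGroup E)
    (_ : NormedSpace 𝕜 E) (_ : CompleteSpace E) (q : E →L[𝕜] (ℕ →ᵇ 𝕜)), (∀ a, ‖q a‖ ≤ ‖a‖) ∧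
    (∀ f, ∃ a, q a = f ∧ ‖a‖ ≤ ‖f‖) ∧ ∀ Φ : (ℕ →ᵇ 𝕜) →L[𝕜] E, ¬ ∀ f, q (Φ f) = f := by
  classical
  let Γ := {b : ℕ →ᵇ 𝕜 // ‖b‖ ≤ 1}
  have hb : ∀ (a : lp (fun _ : Γ => 𝕜) 1) (b : Γ), ‖a b • b.1‖ ≤ ‖a b‖ := fun a b => by
    rw [norm_smul]; exact mul_le_of_le_one_right (norm_nonneg _) b.2
  have hs : ∀ a : lp (fun _ : Γ => 𝕜) 1, Summable fun b : Γ => a b • b.1 := fun a =>
    Summable.of_norm_bounded (hasSum_norm a).summable (hb a)
  have hn : ∀ a : lp (fun _ : Γ => 𝕜) 1, ‖∑' b : Γ, a b • b.1‖ ≤ ‖a‖ := fun a =>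
    tsum_of_norm_bounded (hasSum_norm a) (hb a)
  refine ⟨lp (fun _ : Γ => 𝕜) 1, inferInstance, inferInstance, inferInstance,
    LinearMap.mkContinuous
      { toFun := fun a => ∑' b : Γ, a b • b.1
        map_add' := fun a a' => by
          rw [← (hs a).tsum_add (hs a')]; simp only [lp.coeFn_add, Pi.add_apply, add_smul]
        map_smul' := fun c a => by
          rw [RingHom.id_apply, ← (hs a).tsum_const_smul]
          simp only [lp.coeFn_smul, Pi.smul_apply, smul_assoc] } 1 fun a => by simpa using hn a,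
    hn, fun f => ?_, fun Φ hΦ => ?_⟩
  · have h1 : ‖((‖f‖ : 𝕜))⁻¹ • f‖ ≤ 1 := by
      rw [norm_smul, norm_inv, RCLike.norm_ofReal, abs_norm]; exact inv_mul_le_one
    refine ⟨lp.single 1 ⟨_, h1⟩ (‖f‖ : 𝕜), ?_, by rw [lp.norm_single one_pos]; simp⟩
    change ∑' b : Γ, _ = _
    rw [tsum_eq_single (⟨_, h1⟩ : Γ) fun b hb => by rw [lp.single_apply_ne _ _ _ hb, zero_smul],
      lp.single_apply_self]
    by_cases h : f = 0
    · simp [h]
    · exact smul_inv_smul₀ (by simpa using h) f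
  · let e : ℕ → ℕ →ᵇ 𝕜 := fun i => ofNormedAddCommGroupDiscrete (Pi.single i 1) 1 fun j => by
      by_cases h : j = i <;> simp [h]
    refine hump (fun i => Φ (e i)) ‖Φ‖ (fun i => ?_) fun I c hc => ?_
    · have h1 := (e i).norm_coe_le_norm i
      have h2 := hn (Φ (e i))
      have h3 : ∑' b : Γ, Φ (e i) b • b.1 = e i := hΦ (e i)
      rw [h3] at h2
      have h4 : e i i = 1 := Pi.single_eq_same (M := fun _ => 𝕜) i 1
      rw [h4, norm_one] at h1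
      exact h1.trans h2
    · simp only [← map_smul, ← map_sum]
      refine Φ.unit_le_opNorm _ ((norm_le zero_le_one).2 fun j => ?_)
      rw [BoundedContinuousFunction.sum_apply]
      change ‖∑ i ∈ I, c i * (Pi.single i 1 : ℕ → 𝕜) j‖ ≤ 1
      simp only [Pi.single_apply, mul_ite, mul_one, mul_zero, sum_ite_eq]
      split_ifs
      · exact hc j
      · simp

lemma solveW {V : Type} [NormedAddCommGroup V] [NormedSpace 𝕜 V] [CompleteSpace V] (d : ℤ)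
    (c : ℤ → V) (C : ℝ) (hc : ∀ k, ‖c k‖ ≤ C) :
    ∃ W : ℤ → V, (∀ k, W k = (2 : 𝕜)⁻¹ • W (k + d) + c k) ∧ ∀ k, ‖W k‖ ≤ 2 * C := by
  have hb : ∀ (k : ℤ) (j : ℕ), ‖(2 : 𝕜)⁻¹ ^ j • c (k + j * d)‖ ≤ (1 / 2) ^ j * C := fun k j => by
    rw [norm_smul, norm_pow, norm_inv, RCLike.norm_two, one_div]
    exact mul_le_mul_of_nonneg_left (hc _) (by positivity)
  have hg := hasSum_geometric_two.mul_right C
  refine ⟨fun k => ∑' j : ℕ, (2 : 𝕜)⁻¹ ^ j • c (k + j * d), fun k => ?_,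
    fun k => tsum_of_norm_bounded hg (hb k)⟩
  simp only
  rw [(Summable.of_norm_bounded hg.summable (hb k)).tsum_eq_zero_add, add_comm,
    ← (Summable.of_norm_bounded hg.summable (hb (k + d))).tsum_const_smul]
  congr 1
  · refine tsum_congr fun j => ?_
    rw [smul_smul, ← pow_succ']; congr 2; push_cast; ring
  · simp

lemma solveF {V : Type} [NormedAddCommGroup V] [NormedSpace 𝕜 V] [CompleteSpace V]
    (c : ℤ → V) (C : ℝ) (hc : ∀ k, ‖c k‖ ≤ C) :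
    ∃ W : ℤ → V, (∀ k, W k = (2 : 𝕜) • W (k + 1) + c k) ∧ ∀ k, ‖W k‖ ≤ 2 * C := by
  obtain ⟨W, h1, h2⟩ := solveW (𝕜 := 𝕜) (-1) (fun k => -((2 : 𝕜)⁻¹ • c (k - 1))) C fun k => by
    rw [norm_neg, norm_smul, norm_inv, RCLike.norm_two]
    linarith [hc (k - 1), norm_nonneg (c (k - 1))]
  refine ⟨W, fun k => ?_, h2⟩
  rw [h1 (k + 1)]
  simp [smul_smul]

section shift
variable {X : Type} [NormedAddCommGroup X] [NormedSpace 𝕜 X]

lemma sh_bd (A : ℤ → X →L[𝕜] X) (C : ℝ) (h : ∀ n, ‖A n‖ ≤ C) (d : ℤ) (x : ℤ →ᵇ X) (n : ℤ) :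
    ‖A n (x (n + d))‖ ≤ C * ‖x‖ :=
  (A n).le_of_opNorm_le_of_le (h n) (x.norm_coe_le_norm _)

noncomputable def sh (A : ℤ → X →L[𝕜] X) (C : ℝ) (h : ∀ n, ‖A n‖ ≤ C) (d : ℤ) :
    (ℤ →ᵇ X) →L[𝕜] (ℤ →ᵇ X) :=
  LinearMap.mkContinuous
    { toFun := fun x => ofNormedAddCommGroupDiscrete (fun n => A n (x (n + d))) _ (sh_bd A C h d x)
      map_add' := fun x y => by ext n; exact map_add (A n) _ _
      map_smul' := fun r x => by ext n; exact map_smul (A n) _ _ }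
    C fun x => (norm_le (mul_nonneg ((norm_nonneg _).trans (h 0)) (norm_nonneg _))).2
      (sh_bd A C h d x)

noncomputable def shE (S : ℤ → X ≃L[𝕜] X) (C : ℝ)
    (h : ∀ n, ‖(S n : X →L[𝕜] X)‖ ≤ C ∧ ‖((S n).symm : X →L[𝕜] X)‖ ≤ C) :
    (ℤ →ᵇ X) ≃L[𝕜] (ℤ →ᵇ X) :=
  ContinuousLinearEquiv.equivOfInverse (sh (fun n => S (n + 1)) C (fun _ => (h _).1) 1)
    (sh (fun n => (S n).symm) C (fun _ => (h _).2) (-1))
    (fun x => by
      ext n
      change (S n).symm (S (n + -1 + 1) (x (n + -1 + 1))) = _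
      simp)
    (fun x => by
      ext n
      change S (n + 1) ((S (n + 1)).symm (x (n + 1 + -1))) = _
      simp)

lemma shadow (S : ℤ → X ≃L[𝕜] X) (T : (ℤ →ᵇ X) ≃L[𝕜] (ℤ →ᵇ X))
    (hT : ∀ x n, T x n = S (n + 1) (x (n + 1))) (K : ℝ)
    (h : ∀ (w : ℤ → X) (c : ℝ), (∀ k, ‖w k‖ ≤ c) →
      ∃ u : ℤ → X, (∀ k, u k = S (k + 1) (u (k + 1)) + w k) ∧ ∀ k, ‖u k‖ ≤ K * c)
    (z : ℤ → ℤ →ᵇ X) (c : ℝ) (hz : ∀ n, ‖z n‖ ≤ c) :
    ∃ y : ℤ → ℤ →ᵇ X, (∀ n, y (n + 1) - T (y n) = z n) ∧ ∀ n, ‖y n‖ ≤ K * c := by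
  choose u hu hu' using fun d : ℤ => h (fun k => z (d - k - 1) k) c fun k =>
    ((z _).norm_coe_le_norm k).trans (hz _)
  refine ⟨fun n => ofNormedAddCommGroupDiscrete (fun k => u (n + k) k) _ fun k => hu' _ _,
    fun n => ?_, fun n => (norm_le ((norm_nonneg _).trans (hu' 0 0))).2 fun k => hu' _ _⟩
  ext k
  rw [BoundedContinuousFunction.sub_apply, hT]
  change u (n + 1 + k) k - S (k + 1) (u (n + (k + 1)) (k + 1)) = _
  rw [hu, show n + 1 + k = n + (k + 1) by ring, show n + (k + 1) - k - 1 = n by ring]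
  abel

lemma right_inv [CompleteSpace X] (T : X ≃L[𝕜] X) (M N : Submodule 𝕜 X) (h1 : IsClosed (M : Set X))
    (h2 : IsClosed (N : Set X)) (h3 : IsCompl M N) (hM : ∀ x ∈ M, (T : X →L[𝕜] X) x ∈ M)
    (hN : ∀ x ∈ N, (T.symm : X →L[𝕜] X) x ∈ N)
    (r1 : spectralRadius 𝕜 ((T : X →L[𝕜] X).restrict hM) < 1)
    (r2 : spectralRadius 𝕜 ((T.symm : X →L[𝕜] X).restrict hN) < 1) :
    ∃ R : X →L[𝕜] X, ∀ b, R b - T (R b) = b := by
  have h4 := Submodule.IsCompl.isTopCompl_of_isClosed h3 h1 h2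
  obtain ⟨A, hA⟩ := (spectrum.mem_resolventSet_of_spectralRadius_lt (k := (1 : 𝕜))
    (by simpa using r1)).exists_right_inv
  obtain ⟨A', hA'⟩ := (spectrum.mem_resolventSet_of_spectralRadius_lt (k := (1 : 𝕜))
    (by simpa using r2)).exists_right_inv
  rw [map_one] at hA hA'
  refine ⟨M.subtypeL ∘L A ∘L M.projectionOntoL N h4 -
    (T.symm : X →L[𝕜] X) ∘L N.subtypeL ∘L A' ∘L N.projectionOntoL M h4.symm, fun b => ?_⟩
  have a1 : (A (M.projectionOntoL N h4 b) : X) - T (A (M.projectionOntoL N h4 b)) =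
      M.projectionL N h4 b :=
    congrArg Subtype.val (DFunLike.congr_fun hA (M.projectionOntoL N h4 b))
  have a2 : (A' (N.projectionOntoL M h4.symm b) : X) - T.symm (A' (N.projectionOntoL M h4.symm b)) =
      N.projectionL M h4.symm b :=
    congrArg Subtype.val (DFunLike.congr_fun hA' (N.projectionOntoL M h4.symm b))
  have a3 := Submodule.projectionL_add_projectionL_eq_self h4 b
  change (A (M.projectionOntoL N h4 b) : X) - T.symm (A' (N.projectionOntoL M h4.symm b)) -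
    T ((A (M.projectionOntoL N h4 b) : X) - T.symm (A' (N.projectionOntoL M h4.symm b))) = b
  rw [map_sub, T.apply_symm_apply]
  refine Eq.trans ?_ a3
  rw [← a1, ← a2]; abel

end shift

section ex
variable {E F : Type} [NormedAddCommGroup E] [NormedSpace 𝕜 E] [NormedAddCommGroup F]
  [NormedSpace 𝕜 F] (q : E →L[𝕜] F)

noncomputable def D (a : 𝕜) (χ : 𝕜) : (E × F) →L[𝕜] (E × F) :=
  (a • ContinuousLinearMap.fst 𝕜 E F).prod
    (a⁻¹ • ContinuousLinearMap.snd 𝕜 E F + χ • q ∘L ContinuousLinearMap.fst 𝕜 E F)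

lemma D_apply (a χ : 𝕜) (x : E × F) : D q a χ x = (a • x.1, a⁻¹ • x.2 + χ • q x.1) := rfl

noncomputable def DE (a : 𝕜) (ha : a ≠ 0) (χ : 𝕜) : (E × F) ≃L[𝕜] (E × F) :=
  ContinuousLinearEquiv.equivOfInverse (D q a χ) (D q a⁻¹ (-χ))
    (fun x => by simp [D_apply, smul_smul, ha, mul_comm])
    (fun x => by simp [D_apply, smul_smul, ha, mul_comm])

noncomputable def S (k : ℤ) : (E × F) ≃L[𝕜] (E × F) :=
  if k ≤ 0 then DE q 2⁻¹ (by norm_num) 0 else if k = 1 then DE q 2 two_ne_zero 1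
  else DE q 2 two_ne_zero 0

lemma S_neg {k : ℤ} (h : k < 0) (x : E × F) : S q (k + 1) x = ((2 : 𝕜)⁻¹ • x.1, (2 : 𝕜) • x.2) := by
  rw [S, if_pos (by omega)]
  change D q _ _ x = _
  simp [D_apply]

lemma S_one (x : E × F) : S q (0 + 1) x = ((2 : 𝕜) • x.1, (2 : 𝕜)⁻¹ • x.2 + q x.1) := by
  rw [S, if_neg (by omega), if_pos (by omega)]
  change D q _ _ x = _
  simp [D_apply]

lemma S_pos {k : ℤ} (h : 0 < k) (x : E × F) : S q (k + 1) x = ((2 : 𝕜) • x.1, (2 : 𝕜)⁻¹ • x.2) := by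
  rw [S, if_neg (by omega), if_neg (by omega)]
  change D q _ _ x = _
  simp [D_apply]

lemma S_bd : ∃ C : ℝ, ∀ n, ‖(S q n : E × F →L[𝕜] E × F)‖ ≤ C ∧
    ‖((S q n).symm : E × F →L[𝕜] E × F)‖ ≤ C := by
  have : (Set.range (S q)).Finite :=
    (Set.toFinite {DE q 2⁻¹ (by norm_num) 0, DE q 2 two_ne_zero 1, DE q 2 two_ne_zero 0}).subset (by
      rintro _ ⟨n, rfl⟩
      unfold S; split_ifs <;> simp)
  obtain ⟨C, hC⟩ := (this.image fun s : (E × F) ≃L[𝕜] (E × F) =>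
    max ‖(s : E × F →L[𝕜] E × F)‖ ‖(s.symm : E × F →L[𝕜] E × F)‖).bddAbove
  exact ⟨C, fun n => max_le_iff.1 (hC ⟨_, ⟨n, rfl⟩, rfl⟩)⟩

lemma solve [CompleteSpace E] [CompleteSpace F] (hq : ∀ f, ∃ a, q a = f ∧ ‖a‖ ≤ ‖f‖)
    (w : ℤ → E × F) (c : ℝ) (hw : ∀ k, ‖w k‖ ≤ c) :
    ∃ u : ℤ → E × F, (∀ k, u k = S q (k + 1) (u (k + 1)) + w k) ∧ ∀ k, ‖u k‖ ≤ 20 * c := by
  have c0 : 0 ≤ c := (norm_nonneg _).trans (hw 0)
  have w1 : ∀ k, ‖(w k).1‖ ≤ c := fun k => (norm_fst_le _).trans (hw k)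
  have w2 : ∀ k, ‖(w k).2‖ ≤ c := fun k => (norm_snd_le _).trans (hw k)
  obtain ⟨Wa, a1, a2⟩ := solveW (𝕜 := 𝕜) 1 _ c w1
  obtain ⟨Fa, a3, a4⟩ := solveF (𝕜 := 𝕜) _ c w1
  obtain ⟨Wc, b1, b2⟩ := solveW (𝕜 := 𝕜) 1 _ c w2
  obtain ⟨Fc, b3, b4⟩ := solveF (𝕜 := 𝕜) _ c w2
  obtain ⟨e, he, he'⟩ := hq (Fc 0 - Wc 0)
  obtain ⟨h, hh⟩ : ∃ h, h = (2 : 𝕜) • (e - Fa 1) := ⟨_, rfl⟩
  have n1 : ‖h‖ ≤ 12 * c := by
    rw [hh, norm_smul, RCLike.norm_two]
    linarith [norm_sub_le e (Fa 1), norm_sub_le (Fc 0) (Wc 0), a4 1, b4 0, b2 0]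
  have n2 : ‖Fa 0 + h - Wa 0‖ ≤ 16 * c := by
    linarith [norm_sub_le (Fa 0 + h) (Wa 0), norm_add_le (Fa 0) h, a4 0, a2 0]
  have t0 : (2 : 𝕜) ≠ 0 := two_ne_zero
  refine ⟨fun k => (if 0 ≤ k then Fa k + (2 : 𝕜) ^ (-k) • h else Wa k + (2 : 𝕜) ^ k • (Fa 0 + h - Wa 0),
    if 0 < k then Wc k else Fc k), fun k => ?_, fun k => ?_⟩
  · rcases lt_trichotomy k 0 with hk | rfl | hk
    · rw [S_neg q hk]
      refine Prod.ext ?_ ?_
      · have : (if 0 ≤ k + 1 then Fa (k + 1) + (2 : 𝕜) ^ (-(k + 1)) • h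
            else Wa (k + 1) + (2 : 𝕜) ^ (k + 1) • (Fa 0 + h - Wa 0)) =
            Wa (k + 1) + (2 : 𝕜) ^ (k + 1) • (Fa 0 + h - Wa 0) := by
          split_ifs with h'
          · rw [show k + 1 = 0 by omega]; simp
          · rfl
        simp only [this, if_neg (not_le.2 hk), Prod.fst_add, smul_add, smul_smul]
        rw [a1 k, zpow_add_one₀ t0, mul_comm _ (2 : 𝕜), inv_mul_cancel_left₀ t0]; abel
      · simp only [if_neg (show ¬ 0 < k by omega), if_neg (show ¬ 0 < k + 1 by omega), Prod.snd_add]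
        exact b3 k
    · rw [S_one]
      refine Prod.ext ?_ ?_
      · simp only [if_pos (show (0 : ℤ) ≤ 0 + 1 by omega), le_refl, if_true, Prod.fst_add, smul_add,
          smul_smul]
        rw [a3 0]; simp; abel
      · have : Fa (0 + 1) + (2 : 𝕜) ^ (-(0 + 1 : ℤ)) • h = e := by simp [hh, smul_smul]
        simp only [if_pos (show (0 : ℤ) ≤ 0 + 1 by omega), if_pos (show (0 : ℤ) < 0 + 1 by omega),
          lt_irrefl, if_false, Prod.snd_add, this, he]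
        rw [b1 0]; abel
    · rw [S_pos q hk]
      refine Prod.ext ?_ ?_
      · simp only [if_pos hk.le, if_pos (show 0 ≤ k + 1 by omega), Prod.fst_add, smul_add, smul_smul]
        rw [a3 k, neg_add, zpow_add₀ t0, zpow_neg_one, mul_comm _ (2 : 𝕜)⁻¹, mul_inv_cancel_left₀ t0]
        abel
      · simp only [if_pos hk, if_pos (show 0 < k + 1 by omega), Prod.snd_add]
        exact b1 k
  · have z : ∀ (j : ℤ) (v : E), j ≤ 0 → ‖(2 : 𝕜) ^ j • v‖ ≤ ‖v‖ := fun j v hj => by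
      rw [norm_smul, norm_zpow, RCLike.norm_two]
      exact mul_le_of_le_one_left (norm_nonneg _) (zpow_le_one_of_nonpos₀ one_le_two hj)
    refine max_le ?_ ?_ <;> dsimp only
    · split_ifs with hk
      · linarith [norm_add_le (Fa k) ((2 : 𝕜) ^ (-k) • h), z (-k) h (by omega), a4 k]
      · linarith [norm_add_le (Wa k) ((2 : 𝕜) ^ k • (Fa 0 + h - Wa 0)),
          z k (Fa 0 + h - Wa 0) (by omega), a2 k]
    · split_ifs
      · linarith [b2 k]
      · linarith [b4 k]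

lemma doubling (f : ℕ → F) (C : ℝ) (h : ∀ n, f (n + 1) = (2 : 𝕜) • f n) (hC : ∀ n, ‖f n‖ ≤ C) :
    f 0 = 0 := by
  have h1 : ∀ n, ‖f n‖ = 2 ^ n * ‖f 0‖ := fun n => by
    induction n with
    | zero => simp
    | succ n ih => rw [h, norm_smul, RCLike.norm_two, ih]; ring
  by_contra hc
  obtain ⟨n, hn⟩ := pow_unbounded_of_one_lt (C / ‖f 0‖) (one_lt_two (α := ℝ))
  rw [div_lt_iff₀ (norm_pos_iff.2 hc), ← h1] at hn
  linarith [hC n]

lemma no_right (hq : ∀ Φ : F →L[𝕜] E, ¬ ∀ f, q (Φ f) = f) (T : (ℤ →ᵇ E × F) ≃L[𝕜] (ℤ →ᵇ E × F))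
    (hT : ∀ x n, T x n = S q (n + 1) (x (n + 1))) (R : (ℤ →ᵇ E × F) →L[𝕜] (ℤ →ᵇ E × F))
    (hR : ∀ b, R b - T (R b) = b) : False := by
  have hb : ∀ (f : F) (k : ℤ), ‖((0 : E), if k = 0 then f else 0)‖ ≤ 1 * ‖f‖ := fun f k => by
    split_ifs <;> simp
  let J : F →L[𝕜] (ℤ →ᵇ E × F) := LinearMap.mkContinuous
    { toFun := fun f => ofNormedAddCommGroupDiscrete _ _ (hb f)
      map_add' := fun f g => by
        refine BoundedContinuousFunction.ext fun k => ?_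
        change (_, _) = ((0 : E), if k = 0 then f else 0) + ((0 : E), if k = 0 then g else 0)
        split_ifs <;> simp
      map_smul' := fun r f => by
        refine BoundedContinuousFunction.ext fun k => ?_
        change (_, _) = r • ((0 : E), if k = 0 then f else 0)
        split_ifs <;> simp } 1 fun f => (norm_le (by positivity)).2 (hb f)
  refine hq (-(ContinuousLinearMap.fst 𝕜 E F ∘L evalCLM 𝕜 1 ∘L R ∘L J)) fun f => ?_
  have h1 : ∀ k, (R (J f) k).2 - (S q (k + 1) (R (J f) (k + 1))).2 = if k = 0 then f else 0 :=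
    fun k => by
      rw [← hT]; exact congrArg (fun b : ℤ →ᵇ E × F => (b k).2) (hR (J f))
  have h2 : ∀ k, ‖(R (J f) k).2‖ ≤ ‖R (J f)‖ := fun k =>
    (norm_snd_le _).trans ((R (J f)).norm_coe_le_norm k)
  have h3 := doubling (𝕜 := 𝕜) (fun n : ℕ => (R (J f) (n + 1)).2) _ (fun n => by
    have := h1 (n + 1)
    rw [S_pos q (by omega), if_neg (by omega), sub_eq_zero] at this
    simp only [this, Nat.cast_succ, smul_smul]; simp) fun n => h2 _
  have h4 := doubling (𝕜 := 𝕜) (fun n : ℕ => (R (J f) (-n)).2) _ (fun n => by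
    have := h1 (-(n + 1))
    rw [S_neg q (by omega), if_neg (by omega), sub_eq_zero] at this
    simp only [this, Nat.cast_succ]; simp) fun n => h2 _
  have h5 := h1 0
  rw [S_one, if_pos rfl] at h5
  simp only [Nat.cast_zero, neg_zero] at h3 h4
  rw [h3, h4] at h5
  change q (-(R (J f) 1).1) = f
  simpa using h5

end ex

end Pool.Agent.H58.Shadow
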