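import Pool.Agent.H58.StatDefs

namespace Pool.Agent.H58.Stat
open Set Filter MeasureTheory
open scoped ContDiff

variable {L : ℝ × ℝ → ℝ}

lemma dx_cd (h : ContDiff ℝ ∞ L) : ContDiff ℝ ∞ (dx L) :=
  (h.fderiv_right (m := ∞) (by simp)).clm_apply contDiff_const

lemma dy_cd (h : ContDiff ℝ ∞ L) : ContDiff ℝ ∞ (dy L) :=
  (h.fderiv_right (m := ∞) (by simp)).clm_apply contDiff_const

lemma dx_has (h : ContDiff ℝ ∞ L) (x y : ℝ) : HasDerivAt (fun s => L (s, y)) (dx L (x, y)) x :=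
  ((h.differentiable (by simp)) (x, y)).hasFDerivAt.comp_hasDerivAt x
    ((hasDerivAt_id x).prodMk (hasDerivAt_const x y))

lemma dy_has (h : ContDiff ℝ ∞ L) (x y : ℝ) : HasDerivAt (fun s => L (x, s)) (dy L (x, y)) y :=
  ((h.differentiable (by simp)) (x, y)).hasFDerivAt.comp_hasDerivAt y
    ((hasDerivAt_const y x).prodMk (hasDerivAt_id y))

lemma rect {F : ℝ × ℝ → ℝ} (hF : Continuous F) (b T : ℝ) :
    IntegrableOn F (Ioc 0 b ×ˢ Ioc 0 T) (volume.prod volume) :=
  (hF.continuousOn.integrableOn_compact (isCompact_Icc.prod isCompact_Icc)).mono_set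
    (prod_mono Ioc_subset_Icc_self Ioc_subset_Icc_self)

lemma ftc (h : ContDiff ℝ ∞ L) {b T : ℝ} (hb : 0 ≤ b) (hT : 0 ≤ T) :
    ∫ y in (0 : ℝ)..T, L (b, y) =
      (∫ y in (0 : ℝ)..T, L (0, y)) + ∫ x in (0 : ℝ)..b, ∫ y in (0 : ℝ)..T, dx L (x, y) := by
  have c := h.continuous
  have c1 := (dx_cd h).continuous
  have sw : ∫ x in (0 : ℝ)..b, ∫ y in (0 : ℝ)..T, dx L (x, y) =
      ∫ y in (0 : ℝ)..T, ∫ x in (0 : ℝ)..b, dx L (x, y) := by
    simp only [intervalIntegral.integral_of_le hT, intervalIntegral.integral_of_le hb]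
    refine integral_integral_swap ?_
    rw [Measure.prod_restrict]
    exact rect c1 b T
  rw [sw, ← intervalIntegral.integral_add (Continuous.intervalIntegrable (by fun_prop) _ _)
    (Continuous.intervalIntegrable (by fun_prop) _ _)]
  refine intervalIntegral.integral_congr fun y _ => ?_
  rw [intervalIntegral.integral_eq_sub_of_hasDerivAt (fun x _ => dx_has h x y)
    (Continuous.intervalIntegrable (by fun_prop) _ _)]
  ring

lemma lin (h : ContDiff ℝ ∞ L) {T : ℝ} (hT : 0 ≤ T) (per : ∀ x y, L (x, y + T) = L (x, y))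
    (hi : IntegrableOn (lap L) (univ ×ˢ Icc 0 T)) :
    ∃ C, ∀ b, 0 ≤ b → ∫ y in (0 : ℝ)..T, L (b, y) ≤ C * (1 + b) := by
  have c2 := (dx_cd (dx_cd h)).continuous
  have c3 := (dy_cd (dy_cd h)).continuous
  have c4 : Continuous (lap L) := c2.add c3
  have yy : ∀ x, ∫ y in (0 : ℝ)..T, dy (dy L) (x, y) = 0 := fun x => by
    rw [intervalIntegral.integral_eq_sub_of_hasDerivAt (fun y _ => dy_has (dy_cd h) x y)
      (Continuous.intervalIntegrable (by fun_prop) _ _), sub_eq_zero]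
    have a := (dy_has h x (0 + T)).comp_add_const 0 T
    simp only [per, zero_add] at a
    exact a.unique (dy_has h x 0)
  set M := ∫ p in univ ×ˢ Icc 0 T, |lap L p|
  have m1 : ∀ b, 0 ≤ b →
      ∫ y in (0 : ℝ)..T, dx L (b, y) ≤ |∫ y in (0 : ℝ)..T, dx L (0, y)| + M := fun b hb => by
    rw [ftc (dx_cd h) hb hT]
    refine add_le_add (le_abs_self _) ?_
    have e : ∀ x, ∫ y in (0 : ℝ)..T, dx (dx L) (x, y) = ∫ y in (0 : ℝ)..T, lap L (x, y) := fun x => by
      unfold lap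
      rw [intervalIntegral.integral_add (Continuous.intervalIntegrable (by fun_prop) _ _)
        (Continuous.intervalIntegrable (by fun_prop) _ _), yy, add_zero]
    simp only [e, intervalIntegral.integral_of_le hT, intervalIntegral.integral_of_le hb]
    rw [← setIntegral_prod _ (rect c4 b T)]
    refine (le_abs_self _).trans (abs_integral_le_integral_abs.trans ?_)
    exact setIntegral_mono_set hi.abs (Eventually.of_forall fun _ => abs_nonneg _)
      (Set.prod_mono (subset_univ _) Ioc_subset_Icc_self).eventuallyLE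
  have M0 : 0 ≤ M := integral_nonneg fun _ => abs_nonneg _
  refine ⟨|∫ y in (0 : ℝ)..T, L (0, y)| + (|∫ y in (0 : ℝ)..T, dx L (0, y)| + M), fun b hb => ?_⟩
  rw [ftc h hb hT]
  have c1 := (dx_cd h).continuous
  have := intervalIntegral.integral_mono_on (μ := volume) hb
    (Continuous.intervalIntegrable (u := fun x => ∫ y in (0 : ℝ)..T, dx L (x, y)) (by fun_prop) _ _)
    (continuous_const.intervalIntegrable _ _) fun x hx => m1 x hx.1
  simp only [intervalIntegral.integral_const, sub_zero, smul_eq_mul] at this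
  nlinarith [le_abs_self (∫ y in (0 : ℝ)..T, L (0, y)), abs_nonneg (∫ y in (0 : ℝ)..T, L (0, y)),
    abs_nonneg (∫ y in (0 : ℝ)..T, dx L (0, y))]

open Complex

noncomputable def XX (Φ : Fin 4 → ℂ → ℂ) (p : ℝ × ℝ) (j : Fin 4) : ℝ := (Φ j (p.1 + p.2 * I)).re

noncomputable def emb : ℝ × ℝ →L[ℝ] ℂ := equivRealProdCLM.symm

lemma emb_eq (p : ℝ × ℝ) : emb p = p.1 + p.2 * I := equivRealProdCLM_symm_apply p

variable {Φ : Fin 4 → ℂ → ℂ}

lemma XX_cd (h : ∀ j, Differentiable ℂ (Φ j)) : ContDiff ℝ ∞ (XX Φ) := by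
  refine contDiff_pi.2 fun j => ?_
  have := reCLM.contDiff.comp ((((h j).contDiff (n := ∞)).restrict_scalars ℝ).comp emb.contDiff)
  simp only [Function.comp_def, emb_eq, reCLM_apply] at this
  exact this

lemma XX_fd (h : ∀ j, Differentiable ℂ (Φ j)) (p v : ℝ × ℝ) (j : Fin 4) :
    fderiv ℝ (XX Φ) p v j = ((v.1 + v.2 * I) * deriv (Φ j) (p.1 + p.2 * I)).re := by
  have a : ∀ j, HasFDerivAt (fun p => XX Φ p j) (reCLM.comp (((ContinuousLinearMap.toSpanSingleton ℂ
      (deriv (Φ j) (emb p))).restrictScalars ℝ).comp emb)) p := fun j => by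
    have := reCLM.hasFDerivAt.comp p
      (((h j (emb p)).hasDerivAt.hasFDerivAt.restrictScalars ℝ).comp p emb.hasFDerivAt)
    simp only [Function.comp_def, emb_eq, reCLM_apply] at this ⊢
    exact this
  rw [(hasFDerivAt_pi.2 a).fderiv]
  simp [emb_eq]

lemma dx_XX (h : ∀ j, Differentiable ℂ (Φ j)) : dx (XX Φ) = XX fun j => deriv (Φ j) := by
  ext p j; simp [dx, XX_fd h, XX]

lemma dy_XX (h : ∀ j, Differentiable ℂ (Φ j)) :
    dy (XX Φ) = XX fun j z => I * deriv (Φ j) z := by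
  ext p j; simp [dy, XX_fd h, XX]

lemma lap_XX (h : ∀ j, Differentiable ℂ (Φ j)) (p : ℝ × ℝ) : lap (XX Φ) p = 0 := by
  have h1 : ∀ j, Differentiable ℂ (deriv (Φ j)) := fun j => (h j).deriv
  unfold lap
  rw [dx_XX h, dy_XX h, dx_XX h1, dy_XX fun j => (h1 j).const_mul I]
  ext j
  simp [XX, deriv_const_mul_field]

end Pool.Agent.H58.Stat
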