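import Pool.Agent.H58.StatA

namespace Pool.Agent.H58.Stat
open Set Filter MeasureTheory
open scoped ContDiff

noncomputable def B (p : ℝ × ℝ) : ℝ := 4 * Real.cosh p.1 * Real.sin p.2 -
  Real.sin (Real.exp p.1 * Real.sin p.2) * Real.sinh (Real.exp p.1 * Real.cos p.2)

noncomputable def lm (p : ℝ × ℝ) : ℝ := (4 * Real.cosh p.1 * Real.cos p.2) ^ 2 + B p ^ 2

lemma lm_ge (p : ℝ × ℝ) : 4 ≤ lm p := by
  obtain ⟨x, y⟩ := p
  have c1 := Real.one_le_cosh x
  unfold lm
  by_cases h : 1 / 2 ≤ Real.cosh x * |Real.cos y|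
  · have : (4 * Real.cosh x * Real.cos y) ^ 2 = 16 * (Real.cosh x * |Real.cos y|) ^ 2 := by
      rw [mul_pow (Real.cosh x), sq_abs]; ring
    nlinarith [sq_nonneg (B (x, y))]
  push Not at h
  have e1 : Real.exp x ≤ 2 * Real.cosh x := by
    rw [Real.cosh_eq]; linarith [Real.exp_pos (-x)]
  have a0 := abs_nonneg (Real.cos y)
  have s1 : |Real.exp x * Real.cos y| ≤ 1 := by
    rw [abs_mul, abs_of_pos (Real.exp_pos x)]; nlinarith
  have s2 : |Real.sinh (Real.exp x * Real.cos y)| ≤ 1.4 := by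
    rw [Real.abs_sinh]
    refine (Real.sinh_le_sinh.2 s1).trans ?_
    rw [Real.sinh_eq]
    linarith [Real.exp_one_lt_d9, Real.exp_pos (-1)]
  have s3 : |Real.sin (Real.exp x * Real.sin y) * Real.sinh (Real.exp x * Real.cos y)| ≤ 1.4 := by
    rw [abs_mul]
    nlinarith [Real.abs_sin_le_one (Real.exp x * Real.sin y),
      abs_nonneg (Real.sinh (Real.exp x * Real.cos y))]
  have s4 : 0.85 ≤ |Real.sin y| := by
    refine (pow_le_pow_iff_left₀ (by norm_num) (abs_nonneg _) two_ne_zero).1 ?_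
    have : |Real.cos y| ≤ 1 / 2 := by nlinarith
    rw [sq_abs, Real.sin_sq, ← sq_abs (Real.cos y)]
    nlinarith
  have s5 : 3.4 ≤ |4 * Real.cosh x * Real.sin y| := by
    rw [abs_mul, abs_of_pos (by linarith : 0 < 4 * Real.cosh x)]; nlinarith
  have s6 : 2 ≤ |B (x, y)| := by
    refine le_trans ?_ (abs_sub_abs_le_abs_sub _ _)
    simp only
    linarith
  rw [← sq_abs (B _)]
  nlinarith [sq_nonneg (4 * Real.cosh x * Real.cos y)]

lemma lm_pos (p : ℝ × ℝ) : 0 < lm p := by linarith [lm_ge p]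

lemma log_nn (p : ℝ × ℝ) : 0 ≤ Real.log (lm p) := Real.log_nonneg (by linarith [lm_ge p])

lemma log_ge {x y : ℝ} (hx : 0 ≤ x) (hy : 0 ≤ Real.cos y) :
    Real.exp x * Real.cos y * Real.sin (Real.exp x * Real.sin y) ^ 2 - (2 * x + 64) ≤
      Real.log (lm (x, y)) := by
  by_contra h
  push Not at h
  have l0 := log_nn (x, y)
  obtain ⟨s, hs⟩ : ∃ s, s = Real.exp x * Real.cos y := ⟨_, rfl⟩
  obtain ⟨u, hu⟩ : ∃ u, u = |Real.sin (Real.exp x * Real.sin y)| := ⟨_, rfl⟩
  rw [← sq_abs, ← hu, ← hs] at h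
  have s0 : 0 ≤ s := by rw [hs]; positivity
  have u0 : 0 ≤ u := by rw [hu]; positivity
  have u1 : u ≤ 1 := by rw [hu]; exact Real.abs_sin_le_one _
  have a1 : s * u ^ 2 ≤ s * u := mul_le_mul_of_nonneg_left (by nlinarith) s0
  have a2 : s * u ≤ s := by nlinarith
  obtain ⟨E, hE⟩ : ∃ E, E = Real.exp (s / 2) := ⟨_, rfl⟩
  have E2 : Real.exp s = E ^ 2 := by rw [hE, ← Real.exp_nat_mul]; congr 1; push_cast; ring
  have E3 : s ^ 2 / 8 ≤ E := by
    rw [hE]; nlinarith [Real.quadratic_le_exp_of_nonneg (by linarith : 0 ≤ s / 2)]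
  have E0 : 64 ≤ E := by nlinarith
  have E4 : E ^ 2 / 4 ≤ Real.sinh s := by
    rw [Real.sinh_eq, E2]
    have : Real.exp (-s) ≤ 1 := Real.exp_le_one_iff.2 (by linarith)
    nlinarith
  have E5 : 8 ≤ u * E := by
    have : s * 8 ≤ s * (u * E) := by nlinarith
    exact le_of_mul_le_mul_left this (by linarith)
  have E6 : 2 * E ≤ u * Real.sinh s := by nlinarith
  have E7 : 4 * Real.cosh x ≤ E := by
    have : Real.exp x * Real.exp 32 ≤ E := by
      rw [hE, ← Real.exp_add]; exact Real.exp_le_exp.2 (by linarith)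
    have c : Real.cosh x ≤ Real.exp x := by
      rw [Real.cosh_eq]; linarith [Real.exp_le_exp.2 (by linarith : -x ≤ x)]
    nlinarith [Real.add_one_le_exp 32, Real.exp_pos x]
  have E8 : E ≤ |B (x, y)| := by
    rw [B, abs_sub_comm]
    refine le_trans ?_ (abs_sub_abs_le_abs_sub _ _)
    simp only
    rw [abs_mul, ← hu, ← hs, abs_of_nonneg (Real.sinh_nonneg_iff.2 s0), abs_mul,
      abs_of_pos (by linarith [Real.one_le_cosh x] : 0 < 4 * Real.cosh x)]
    nlinarith [Real.abs_sin_le_one y, Real.one_le_cosh x]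
  have : s ≤ Real.log (lm (x, y)) := by
    rw [Real.le_log_iff_exp_le (lm_pos _), E2, lm, ← sq_abs (B _)]
    nlinarith [sq_nonneg (4 * Real.cosh x * Real.cos y)]
  linarith

lemma lm_cd : ContDiff ℝ ∞ fun p => Real.log (lm p) :=
  ContDiff.log (by unfold lm B; fun_prop) fun p => (lm_pos p).ne'

lemma not_int : ¬IntegrableOn (lap fun p => Real.log (lm p)) (univ ×ˢ Icc 0 (2 * Real.pi)) := by
  intro hi
  obtain ⟨C, hC⟩ := lin lm_cd Real.two_pi_pos.le (fun x y => by simp [lm, B]) hi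
  obtain ⟨x, hx⟩ : ∃ x, x = 4 * (|C| + 200) := ⟨_, rfl⟩
  have C0 := abs_nonneg C
  have x0 : 0 ≤ x := by linarith
  have c : Continuous fun y => Real.log (lm (x, y)) := lm_cd.continuous.comp (by fun_prop)
  have pi3 := Real.pi_gt_three
  have pi4 := Real.pi_le_four
  have a1 : ∫ y in (0 : ℝ)..Real.pi / 2, Real.log (lm (x, y)) ≤
      ∫ y in (0 : ℝ)..2 * Real.pi, Real.log (lm (x, y)) :=
    intervalIntegral.integral_mono_interval le_rfl (by linarith) (by linarith)
      (Eventually.of_forall fun y => log_nn _) (c.intervalIntegrable _ _)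
  have a2 := intervalIntegral.integral_mono_on (μ := volume) (a := 0) (b := Real.pi / 2)
    (by linarith) (Continuous.intervalIntegrable (by fun_prop) _ _) (c.intervalIntegrable _ _)
    fun y hy => log_ge x0 (Real.cos_nonneg_of_mem_Icc ⟨by linarith [hy.1], hy.2⟩)
  have a3 : ∀ y, HasDerivAt (fun y => Real.exp x * Real.sin y / 2 -
      Real.sin (2 * (Real.exp x * Real.sin y)) / 4 - (2 * x + 64) * y)
      (Real.exp x * Real.cos y * Real.sin (Real.exp x * Real.sin y) ^ 2 - (2 * x + 64)) y := by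
    intro y
    have d := (Real.hasDerivAt_sin y).const_mul (Real.exp x)
    refine (((d.div_const 2).sub (((d.const_mul 2).sin).div_const 4)).sub
      ((hasDerivAt_id y).const_mul (2 * x + 64))).congr_deriv ?_
    rw [Real.cos_two_mul, Real.cos_sq' (Real.exp x * Real.sin y)]
    ring
  rw [intervalIntegral.integral_eq_sub_of_hasDerivAt (fun y _ => a3 y)
    (Continuous.intervalIntegrable (by fun_prop) _ _)] at a2
  simp only [Real.sin_pi_div_two, Real.sin_zero, mul_zero, mul_one, zero_div, sub_zero] at a2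
  have := hC x x0
  nlinarith [Real.sin_le_one (2 * Real.exp x), Real.quadratic_le_exp_of_nonneg x0, le_abs_self C]

open Complex

noncomputable def k (τ : ℂ) : ℂ := dslope sin 0 (τ / 2) ^ 2 / 2

lemma k_diff : Differentiable ℂ k := by
  have : Differentiable ℂ (dslope sin 0) := differentiableOn_univ.1
    ((differentiableOn_dslope univ_mem).2 differentiable_sin.differentiableOn)
  unfold k; fun_prop

lemma k_eq (τ : ℂ) : τ ^ 2 * k τ = 1 - cos τ := by
  have a := sub_smul_dslope sin 0 (τ / 2)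
  have b := cos_two_mul (τ / 2)
  have c := sin_sq_add_cos_sq (τ / 2)
  rw [sin_zero, sub_zero, sub_zero, smul_eq_mul] at a
  rw [show 2 * (τ / 2) = τ by ring] at b
  unfold k
  linear_combination 2 * (τ / 2 * dslope sin 0 (τ / 2) + sin (τ / 2)) * a + b + 2 * c

lemma g_ex : ∃ g : ℂ → ℂ, (∀ τ, HasDerivAt g (τ * k τ) τ) ∧
    ∀ τ, (g ((starRingEnd ℂ) τ)).re = (g τ).re := by
  obtain ⟨g, hg⟩ := (differentiable_id.mul k_diff).isExactOn_univ
  have hg' : ∀ τ, HasDerivAt g (τ * k τ) τ := fun τ => hg τ trivial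
  refine ⟨g, hg', fun τ => ?_⟩
  have d : ∀ τ, HasDerivAt (g - (starRingEnd ℂ) ∘ g ∘ (starRingEnd ℂ)) 0 τ := fun τ => by
    have a := (hg' ((starRingEnd ℂ) τ)).conj_conj
    rw [conj_conj] at a
    refine ((hg' τ).sub a).congr_deriv ?_
    rcases eq_or_ne τ 0 with rfl | h
    · simp
    have b := congrArg (starRingEnd ℂ) (k_eq ((starRingEnd ℂ) τ))
    simp only [map_mul, map_pow, conj_conj, map_sub, map_one, cos_conj] at b ⊢
    refine mul_left_cancel₀ h ?_
    linear_combination k_eq τ - b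
  have := congrArg re (is_const_of_deriv_eq_zero (fun τ => (d τ).differentiableAt)
    (fun τ => (d τ).deriv) τ 0)
  simp at this
  linarith

lemma surf : ∃ Φ : Fin 4 → ℂ → ℂ, (∀ j, Differentiable ℂ (Φ j)) ∧
    (∀ z, -deriv (Φ 0) z ^ 2 + deriv (Φ 1) z ^ 2 + deriv (Φ 2) z ^ 2 + deriv (Φ 3) z ^ 2 = 0) ∧
    (∀ p : ℝ × ℝ, -(deriv (Φ 0) (p.1 + p.2 * I)).im ^ 2 + (deriv (Φ 1) (p.1 + p.2 * I)).im ^ 2 +
      (deriv (Φ 2) (p.1 + p.2 * I)).im ^ 2 + (deriv (Φ 3) (p.1 + p.2 * I)).im ^ 2 = lm p) ∧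
    (∀ p, XX Φ p 0 + XX Φ p 3 = 4 * p.1) ∧
    ∀ p q, XX Φ p = XX Φ q ↔ p.1 = q.1 ∧ ∃ n : ℤ, q.2 = p.2 + 2 * Real.pi * n := by
  obtain ⟨g, hg, gc⟩ := g_ex
  have kd := k_diff
  obtain ⟨H, hH⟩ := Differentiable.isExactOn_univ
    (f := fun w => -4 * (w ^ 2 - 1) * k (I * w) + w ^ 3 * k (I * w) ^ 2) (by fun_prop)
  obtain ⟨D, hD⟩ : ∃ D : ℂ → ℂ, D = fun z => (-4 * (exp z ^ 2 - 1) * k (I * exp z) +
    exp z ^ 3 * k (I * exp z) ^ 2) * exp z / 8 := ⟨_, rfl⟩
  have d0 : ∀ z, HasDerivAt (fun z => H (exp z) / 8) (D z) z := fun z => by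
    rw [hD]; exact ((hH _ trivial).comp z (hasDerivAt_exp z)).div_const 8
  have d1 : ∀ z, HasDerivAt (fun z => 4 * cosh z + g (I * exp z))
      (4 * sinh z + (1 - cos (I * exp z))) z := fun z => by
    refine (((hasDerivAt_cosh z).const_mul 4).add
      ((hg _).comp z ((hasDerivAt_exp z).const_mul I))).congr_deriv ?_
    rw [← k_eq]; ring
  have d2 : ∀ z, HasDerivAt (fun z => -4 * I * sinh z) (-4 * I * cosh z) z := fun z =>
    (hasDerivAt_sinh z).const_mul _
  have d3 : ∀ z, HasDerivAt (fun z => 4 * z - H (exp z) / 8) (4 - D z) z := fun z =>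
    (((hasDerivAt_id z).const_mul 4).sub (d0 z)).congr_deriv (by simp)
  have ex : ∀ p : ℝ × ℝ, I * exp (p.1 + p.2 * I) = ((-(Real.exp p.1 * Real.sin p.2) : ℝ) : ℂ) +
      (Real.exp p.1 * Real.cos p.2 : ℝ) * I := fun p => by
    rw [exp_add, exp_mul_I]; push_cast; linear_combination cexp p.1 * sin p.2 * I_mul_I
  refine ⟨![fun z => H (exp z) / 8, fun z => 4 * cosh z + g (I * exp z),
    fun z => -4 * I * sinh z, fun z => 4 * z - H (exp z) / 8], fun j => ?_, fun z => ?_,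
    fun p => ?_, fun p => ?_, fun p q => ⟨fun h => ?_, ?_⟩⟩
  · fin_cases j
    exacts [fun z => (d0 z).differentiableAt, fun z => (d1 z).differentiableAt,
      fun z => (d2 z).differentiableAt, fun z => (d3 z).differentiableAt]
  · simp only [Matrix.cons_val, (d0 z).deriv, (d1 z).deriv, (d2 z).deriv, (d3 z).deriv]
    have a := exp_ne_zero z
    rw [← k_eq, hD, Complex.sinh, Complex.cosh, exp_neg]
    simp only [mul_pow, I_sq]
    field_simp
    ring
  · simp only [Matrix.cons_val, (d0 _).deriv, (d1 _).deriv, (d2 _).deriv, (d3 _).deriv, ex,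
      cos_add_mul_I, sinh_add, cosh_add, cosh_mul_I, sinh_mul_I, ← ofReal_cos, ← ofReal_sin,
      ← ofReal_cosh, ← ofReal_sinh, lm, B]
    simp [-ofReal_cos, -ofReal_sin, -ofReal_cosh, -ofReal_sinh, -ofReal_exp]
    ring
  · simp [XX]
  · have h0 := congrFun h 0
    have h1 := congrFun h 1
    have h2 := congrFun h 2
    have h3 := congrFun h 3
    simp only [XX, Matrix.cons_val, sub_re, ex, sinh_add, cosh_add, cosh_mul_I, sinh_mul_I,
      ← ofReal_cos, ← ofReal_sin, ← ofReal_cosh, ← ofReal_sinh, add_re] at h0 h1 h2 h3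
    rw [h0] at h3
    have hx : p.1 = q.1 := by simpa using h3
    have c0 := Real.cosh_pos q.1
    rw [hx] at h1 h2
    have hs : Real.sin p.2 = Real.sin q.2 := by
      simpa [-ofReal_cos, -ofReal_sin, -ofReal_cosh, -ofReal_sinh, c0.ne'] using h2
    have hc : Real.cos q.2 = Real.cos p.2 := by
      have : Real.cos q.2 ^ 2 = Real.cos p.2 ^ 2 := by rw [Real.cos_sq', Real.cos_sq', hs]
      rcases sq_eq_sq_iff_eq_or_eq_neg.1 this with h | h
      · exact h
      rw [← gc, hs, h] at h1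
      simp only [map_add, map_mul, conj_ofReal, conj_I, mul_neg, ofReal_neg, neg_mul] at h1
      simp [-ofReal_cos, -ofReal_sin, -ofReal_cosh, -ofReal_sinh, -ofReal_exp] at h1
      have : Real.cos p.2 = 0 := by nlinarith
      rw [h, this, neg_zero]
    obtain ⟨n, hn⟩ := Real.Angle.angle_eq_iff_two_pi_dvd_sub.1 (Real.Angle.cos_sin_inj hc hs.symm)
    exact ⟨hx, n, by linarith⟩
  · rintro ⟨h1, n, h2⟩
    have e : (q.1 + q.2 * I : ℂ) = p.1 + p.2 * I + n * (2 * Real.pi * I) := by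
      rw [h1, h2]; push_cast; ring
    have e1 : exp (q.1 + q.2 * I) = exp (p.1 + p.2 * I) := by
      rw [e, exp_add _ (_ * _), exp_int_mul_two_pi_mul_I, mul_one]
    ext j
    fin_cases j <;> simp [XX, Complex.sinh, Complex.cosh, exp_neg, -neg_add_rev, e1, h1]

end Pool.Agent.H58.Stat
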