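import Mathlib

namespace Pool.Agent.H58.Stat

variable {E : Type} [NormedAddCommGroup E] [NormedSpace ℝ E]

/-- The Lorentz form on real 4-space; coordinate `0` is the time coordinate. -/
def lor (a b : Fin 4 → ℝ) : ℝ := -(a 0 * b 0) + a 1 * b 1 + a 2 * b 2 + a 3 * b 3

/-- Partial derivative in the first variable. -/
noncomputable def dx (f : ℝ × ℝ → E) (p : ℝ × ℝ) : E := fderiv ℝ f p (1, 0)

/-- Partial derivative in the second variable. -/
noncomputable def dy (f : ℝ × ℝ → E) (p : ℝ × ℝ) : E := fderiv ℝ f p (0, 1)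

/-- The flat Laplacian. -/
noncomputable def lap (f : ℝ × ℝ → E) (p : ℝ × ℝ) : E := dx (dx f) p + dy (dy f) p

/-- The conformal factor: the induced metric is `lam X * (dx^2 + dy^2)` for conformal `X`. -/
noncomputable def lam (X : ℝ × ℝ → Fin 4 → ℝ) (p : ℝ × ℝ) : ℝ := lor (dx X p) (dx X p)

/-- Gaussian curvature of the metric `lam X * (dx^2 + dy^2)`. -/
noncomputable def gaussK (X : ℝ × ℝ → Fin 4 → ℝ) (p : ℝ × ℝ) : ℝ :=
  -lap (fun q => Real.log (lam X q)) p / (2 * lam X p)

end Pool.Agent.H58.Stat
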