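import Mathlib

namespace Pool.Agent.H58.Stein
open MeasureTheory Set Filter Topology Pointwise Module Metric
open scoped RealInnerProductSpace

variable {E : Type} [NormedAddCommGroup E] [InnerProductSpace ℝ E] [FiniteDimensional ℝ E]
  [MeasurableSpace E] [BorelSpace E] (μ : Measure E) [μ.IsAddHaarMeasure]

open Classical in
/-- vertices maximising `⟪w, ·⟫` -/
noncomputable def am (V : Finset E) (w : E) : Finset E := V.filter fun v => ∀ v' ∈ V, ⟪w, v'⟫ ≤ ⟪w, v⟫

def pc (V s : Finset E) (t : ℝ) : Set E := convexHull ℝ s + {w | am V w = s ∧ ‖w‖ ≤ t}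

omit [FiniteDimensional ℝ E] [MeasurableSpace E] [BorelSpace E] in
lemma am_le {V : Finset E} {w p y : E} (hp : p ∈ convexHull ℝ (am V w : Set E))
    (hy : y ∈ convexHull ℝ (V : Set E)) : ⟪w, y⟫ ≤ ⟪w, p⟫ := by
  refine convexHull_min (t := {p | ⟪w, y⟫ ≤ ⟪w, p⟫}) (fun v hv => ?_)
    (convex_halfSpace_ge (innerSL ℝ w).isLinear _) hp
  refine convexHull_min (t := {y | ⟪w, y⟫ ≤ ⟪w, v⟫}) (fun v' hv' => ?_)
    (convex_halfSpace_le (innerSL ℝ w).isLinear _) hy
  simp only [am, Finset.coe_filter] at hv
  exact hv.2 v' hv'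

omit [FiniteDimensional ℝ E] [MeasurableSpace E] [BorelSpace E] in
lemma mem_am {V : Finset E} {w p : E} (hp : p ∈ convexHull ℝ (V : Set E))
    (h : ∀ v ∈ V, ⟪w, v⟫ ≤ ⟪w, p⟫) : p ∈ convexHull ℝ (am V w : Set E) := by
  classical
  obtain ⟨c, c0, c1, rfl⟩ := Finset.mem_convexHull'.1 hp
  have e : ∑ v ∈ V, c v * (⟪w, ∑ y ∈ V, c y • y⟫ - ⟪w, v⟫) = 0 := by
    simp only [mul_sub, Finset.sum_sub_distrib, ← Finset.sum_mul, c1, one_mul]
    simp [inner_sum, inner_smul_right]
  have z := (Finset.sum_eq_zero_iff_of_nonneg fun v hv =>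
    mul_nonneg (c0 v hv) (sub_nonneg.2 (h v hv))).1 e
  have k : ∀ v ∈ V, v ∉ am V w → c v = 0 := fun v hv hn => by
    refine (mul_eq_zero.1 (z v hv)).resolve_right fun h2 => hn ?_
    simp only [am, Finset.mem_filter]
    exact ⟨hv, fun v' hv' => by linarith [h v' hv']⟩
  have sub : am V w ⊆ V := Finset.filter_subset _ _
  refine Finset.mem_convexHull'.2 ⟨c, fun v hv => c0 v (sub hv), ?_, ?_⟩
  · rw [← c1]; exact Finset.sum_subset sub k
  · exact Finset.sum_subset sub fun v hv hn => by rw [k v hv hn, zero_smul]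

omit [FiniteDimensional ℝ E] [MeasurableSpace E] [BorelSpace E] in
lemma cover (V : Finset E) (t : ℝ) :
    convexHull ℝ (V : Set E) + closedBall 0 t = ⋃ s ∈ V.powerset, pc V s t := by
  ext x
  simp only [mem_iUnion, Finset.mem_powerset]
  constructor
  · rintro ⟨y, hy, b, hb, rfl⟩
    have cp := V.finite_toSet.isCompact_convexHull ℝ
    obtain ⟨p, hp, e⟩ := exists_norm_eq_iInf_of_complete_convex ⟨y, hy⟩ cp.isComplete
      (convex_convexHull ℝ _) (y + b)
    have h1 := (norm_eq_iInf_iff_real_inner_le_zero (convex_convexHull ℝ _) hp).1 e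
    refine ⟨am V (y + b - p), by classical exact Finset.filter_subset _ _, p,
      mem_am hp fun v hv => ?_, y + b - p, ⟨rfl, ?_⟩, by simp⟩
    · have := h1 v (subset_convexHull ℝ _ hv)
      rw [inner_sub_right] at this; linarith
    · rw [e]
      refine (ciInf_le ⟨0, forall_mem_range.2 fun _ => norm_nonneg _⟩ (⟨y, hy⟩ :
        convexHull ℝ (V : Set E))).trans ?_
      simpa using hb
  · rintro ⟨s, hs, p, hp, w, hw, rfl⟩
    exact ⟨p, convexHull_mono (by exact_mod_cast hs) hp, w, by simpa using hw.2, rfl⟩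

omit [FiniteDimensional ℝ E] [MeasurableSpace E] [BorelSpace E] in
lemma pc_disj (V : Finset E) (t : ℝ) : (V.powerset : Set (Finset E)).PairwiseDisjoint
    fun s => pc V s t := by
  classical
  intro s _ s' _ hne
  refine disjoint_left.2 ?_
  rintro _ ⟨p, hp, w, ⟨rfl, -⟩, rfl⟩ ⟨p', hp', w', ⟨rfl, -⟩, e⟩
  have sub : ∀ w, convexHull ℝ (am V w : Set E) ⊆ convexHull ℝ (V : Set E) := fun w =>
    convexHull_mono (Finset.coe_subset.2 (Finset.filter_subset _ _))
  have h1 := am_le hp (sub _ hp')
  have h2 := am_le hp' (sub _ hp)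
  have e2 : p' = p + w - w' := eq_sub_of_add_eq e
  have : ⟪w - w', w - w'⟫ ≤ 0 := by
    rw [e2] at h1 h2
    simp only [inner_sub_left, inner_sub_right, inner_add_right] at *
    linarith
  exact hne (by rw [sub_eq_zero.1 (real_inner_self_nonpos.1 this)])

omit [FiniteDimensional ℝ E] [MeasurableSpace E] [BorelSpace E] in
lemma am_smul (V : Finset E) (w : E) {t : ℝ} (ht : 0 < t) : am V (t • w) = am V w := by
  simp [am, inner_smul_left, ht]

lemma am_meas (V s : Finset E) : MeasurableSet {w | am V w = s} := by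
  classical
  have : {w | am V w = s} = ⋂ v ∈ V ∪ s, {w | v ∈ am V w ↔ v ∈ s} := by
    ext w
    simp only [mem_ofPred_eq, mem_iInter, Finset.ext_iff, Finset.mem_union]
    refine ⟨fun h v _ => h v, fun h v => ⟨fun hv => (h v (.inl (Finset.filter_subset _ _ hv))).1 hv,
      fun hv => (h v (.inr hv)).2 hv⟩⟩
  rw [this]
  refine Finset.measurableSet_biInter _ fun v _ => ?_
  have : MeasurableSet {w | v ∈ am V w} := by
    simp only [am, Finset.mem_filter, ofPred_and, ofPred_forall]
    exact (MeasurableSet.const _).inter (Finset.measurableSet_biInter _ fun v' _ =>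
      measurableSet_le (by fun_prop) (by fun_prop))
  exact MeasurableSet.iff this (MeasurableSet.const _)

omit [MeasurableSpace E] [BorelSpace E] in
lemma pc_eq (V s : Finset E) {v : E} (hv : v ∈ s) (t : ℝ) :
    pc V s t = {x | v + (vectorSpan ℝ (s : Set E)).starProjection (x - v) ∈ convexHull ℝ (s : Set E) ∧
      (vectorSpan ℝ (s : Set E))ᗮ.starProjection (x - v) ∈ {w | am V w = s ∧ ‖w‖ ≤ t}} := by
  classical
  set L := vectorSpan ℝ (s : Set E)
  ext x
  constructor
  · rintro ⟨p, hp, w, hw, rfl⟩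
    have h1 : p - v ∈ L := by
      rw [show L = _ from (direction_affineSpan ℝ (s : Set E)).symm]
      exact AffineSubspace.vsub_mem_direction (convexHull_subset_affineSpan _ hp)
        (subset_affineSpan ℝ _ hv)
    have h2 : w ∈ Lᗮ := by
      rw [Submodule.mem_orthogonal']
      intro u hu
      refine Submodule.span_induction (p := fun u _ => ⟪w, u⟫ = 0) ?_ (by simp)
        (fun a b _ _ ha hb => by rw [inner_add_right, ha, hb, add_zero])
        (fun a b _ hb => by rw [inner_smul_right, hb, mul_zero]) hu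
      rintro _ ⟨a, ha, b, hb, rfl⟩
      rw [← hw.1] at ha hb
      simp only [am, Finset.coe_filter] at ha hb
      simp only [vsub_eq_sub, inner_sub_right]
      linarith [ha.2 b hb.1, hb.2 a ha.1]
    have e : p + w - v = (p - v) + w := by abel
    simp only [mem_ofPred_eq, e, map_add, Submodule.starProjection_eq_self_iff.2 h1,
      Submodule.starProjection_eq_self_iff.2 h2, (L.starProjection_apply_eq_zero_iff).2 h2,
      (Lᗮ.starProjection_apply_eq_zero_iff).2 (L.le_orthogonal_orthogonal h1)]
    exact ⟨by simpa using hp, by simpa using hw⟩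
  · rintro ⟨h1, h2⟩
    exact ⟨_, h1, _, h2, by
      simp only [add_assoc, Submodule.starProjection_add_starProjection_orthogonal]; abel⟩

lemma pc_meas (V s : Finset E) (t : ℝ) : MeasurableSet (pc V s t) := by
  rcases s.eq_empty_or_nonempty with rfl | ⟨v, hv⟩
  · simp [pc]
  rw [pc_eq V s hv]
  exact ((s.finite_toSet.isCompact_convexHull ℝ).measurableSet.preimage (by fun_prop)).inter
    (((am_meas V s).inter (measurableSet_le measurable_norm measurable_const)).preimage (by fun_prop))

omit [MeasurableSpace E] [BorelSpace E] in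
lemma det_sc (L : Submodule ℝ E) (t : ℝ) : LinearMap.det
    (L.starProjection + t • Lᗮ.starProjection : E →L[ℝ] E).toLinearMap = t ^ finrank ℝ Lᗮ := by
  have : (L.starProjection + t • Lᗮ.starProjection : E →L[ℝ] E).toLinearMap =
      (L.prodEquivOfIsCompl _ L.isCompl_orthogonal).toLinearMap ∘ₗ
      (LinearMap.prodMap .id (t • .id)) ∘ₗ
      (L.prodEquivOfIsCompl _ L.isCompl_orthogonal).symm.toLinearMap := by
    ext x
    obtain ⟨⟨a, b⟩, rfl⟩ := (L.prodEquivOfIsCompl _ L.isCompl_orthogonal).surjective x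
    simp [Submodule.starProjection_eq_self_iff.2 a.2, Submodule.starProjection_eq_self_iff.2 b.2,
      (L.starProjection_apply_eq_zero_iff).2 b.2,
      (Lᗮ.starProjection_apply_eq_zero_iff).2 (L.le_orthogonal_orthogonal a.2),
      -LinearEquiv.coe_coe, LinearEquiv.coe_toLinearMap]
  rw [this, LinearMap.det_conj, LinearMap.det_prodMap]; simp

lemma pc_vol (V s : Finset E) {t : ℝ} (ht : 0 < t) : μ (pc V s t) =
    ENNReal.ofReal (t ^ finrank ℝ (vectorSpan ℝ (s : Set E))ᗮ) * μ (pc V s 1) := by
  rcases s.eq_empty_or_nonempty with rfl | ⟨v, hv⟩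
  · simp [pc]
  set L := vectorSpan ℝ (s : Set E)
  have : (v + ·) ⁻¹' pc V s t = (L.starProjection + t • Lᗮ.starProjection : E →L[ℝ] E).toLinearMap ''
      ((v + ·) ⁻¹' pc V s 1) := by
    have p1 : ∀ x, L.starProjection (L.starProjection x) = L.starProjection x := fun x =>
      Submodule.starProjection_eq_self_iff.2 (L.starProjection_apply_mem x)
    have p2 : ∀ x, Lᗮ.starProjection (Lᗮ.starProjection x) = Lᗮ.starProjection x := fun x =>
      Submodule.starProjection_eq_self_iff.2 (Lᗮ.starProjection_apply_mem x)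
    have p3 : ∀ x, L.starProjection (Lᗮ.starProjection x) = 0 := fun x =>
      (L.starProjection_apply_eq_zero_iff).2 (Lᗮ.starProjection_apply_mem x)
    have p4 : ∀ x, Lᗮ.starProjection (L.starProjection x) = 0 := fun x =>
      (Lᗮ.starProjection_apply_eq_zero_iff).2
        (L.le_orthogonal_orthogonal (L.starProjection_apply_mem x))
    ext x
    simp only [pc_eq V s hv, mem_preimage, mem_image, mem_ofPred_eq, add_sub_cancel_left,
      ContinuousLinearMap.coe_coe, _root_.add_apply, _root_.smul_apply]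
    constructor
    · rintro ⟨h1, h2, h3⟩
      refine ⟨L.starProjection x + t⁻¹ • Lᗮ.starProjection x, ⟨?_, ?_, ?_⟩, ?_⟩
      · simpa only [map_add, map_smul, p1, p3, smul_zero, add_zero, L] using h1
      · simpa only [map_add, map_smul, p2, p4, zero_add, am_smul V _ (inv_pos.2 ht), L] using h2
      · simp only [map_add, map_smul, p2, p4, zero_add, L, norm_smul, norm_inv, Real.norm_eq_abs,
          abs_of_pos ht]
        rwa [inv_mul_le_iff₀ ht, mul_one]
      · simp only [map_add, map_smul, p1, p2, p3, p4, zero_add, smul_zero, add_zero, smul_smul,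
          mul_inv_cancel₀ ht.ne', one_smul, Submodule.starProjection_add_starProjection_orthogonal]
    · rintro ⟨y, ⟨h1, h2, h3⟩, rfl⟩
      refine ⟨?_, ?_, ?_⟩
      · simpa only [map_add, map_smul, p1, p3, smul_zero, add_zero, L] using h1
      · simpa only [map_add, map_smul, p2, p4, zero_add, am_smul V _ ht, L] using h2
      · simp only [map_add, map_smul, p2, p4, zero_add, L, norm_smul, Real.norm_eq_abs,
          abs_of_pos ht]
        exact mul_le_of_le_one_right ht.le h3
  rw [← measure_preimage_add μ v, this, Measure.addHaar_image_linearMap, det_sc,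
    measure_preimage_add, abs_of_pos (by positivity)]

/-- Steiner formula for polytopes. -/
theorem steiner (V : Finset E) : ∃ c : ℕ → ℝ, ∀ t : ℝ, 0 < t →
    μ.real (convexHull ℝ (V : Set E) + closedBall 0 t) =
      ∑ m ∈ Finset.range (finrank ℝ E + 1), c m * t ^ m := by
  classical
  refine ⟨fun m => ∑ s ∈ V.powerset.filter fun s : Finset E =>
    finrank ℝ (vectorSpan ℝ (s : Set E))ᗮ = m, μ.real (pc V s 1), fun t ht => ?_⟩
  have fin : ∀ s ∈ V.powerset, μ (pc V s t) ≠ ⊤ := fun (s : Finset E) hs => ne_top_of_le_ne_top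
    ((V.finite_toSet.isCompact_convexHull ℝ).add (isCompact_closedBall 0 t)).measure_ne_top
    (measure_mono (by rw [cover]; exact subset_iUnion₂_of_subset s hs le_rfl))
  rw [cover, measureReal_biUnion_finset (pc_disj V t) (fun s _ => pc_meas V s t) fin,
    ← Finset.sum_fiberwise_of_maps_to (t := Finset.range (finrank ℝ E + 1))
      (g := fun s : Finset E => finrank ℝ (vectorSpan ℝ (s : Set E))ᗮ)
      fun s _ => Finset.mem_range.2 (Nat.lt_succ_of_le (Submodule.finrank_le _))]
  refine Finset.sum_congr rfl fun m _ => ?_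
  rw [Finset.sum_mul]
  refine Finset.sum_congr rfl fun s hs => ?_
  rw [Measure.real, pc_vol μ V s ht, (Finset.mem_filter.1 hs).2, ENNReal.toReal_mul,
    ENNReal.toReal_ofReal (by positivity), mul_comm]; rfl

end Pool.Agent.H58.Stein
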