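import Pool.Agent.H58.Stein1

namespace Pool.Agent.H58.Stein
open MeasureTheory Set Filter Topology Pointwise Module Metric Asymptotics
open scoped RealInnerProductSpace

variable {E : Type} [NormedAddCommGroup E] [InnerProductSpace ℝ E] [FiniteDimensional ℝ E]
  [MeasurableSpace E] [BorelSpace E] (μ : Measure E) [μ.IsAddHaarMeasure]

def star (ρ : E → ℝ) : Set E := {x | x ≠ 0 ∧ ‖x‖ < ρ (‖x‖⁻¹ • x)}

lemma star_vol (h4 : finrank ℝ E = 4) {ρ : E → ℝ} (hc : Continuous ρ)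
    (hp : ∀ u, ‖u‖ = 1 → 0 < ρ u) :
    μ.real (star ρ) = ∫ u : sphere (0 : E) 1, ρ u ^ 4 / 4 ∂μ.toSphere := by
  have m : MeasurableSet {z : sphere (0 : E) 1 × Ioi (0 : ℝ) | (z.2 : ℝ) < ρ z.1} :=
    measurableSet_lt (by fun_prop) (by fun_prop)
  have e : star ρ = (↑) '' (homeomorphUnitSphereProd E ⁻¹' {z | (z.2 : ℝ) < ρ z.1}) := by
    ext x; simp [star]; tauto
  rw [Measure.real, e, ← (MeasurableEmbedding.subtype_coe (measurableSet_singleton _).compl).comap_apply,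
    μ.measurePreserving_homeomorphUnitSphereProd.measure_preimage m.nullMeasurableSet,
    Measure.prod_apply m, integral_eq_lintegral_of_nonneg_ae (.of_forall fun u => by positivity)
      (Continuous.aestronglyMeasurable (by fun_prop))]
  congr 1
  refine lintegral_congr fun u => ?_
  have := Measure.volumeIoiPow_apply_Iio 3 ⟨ρ u, hp u (by simp)⟩
  rw [h4]; norm_num at this ⊢
  exact this

noncomputable def hs (Q : Set E) (u : E) : ℝ := sSup ((fun x => ⟪u, x⟫) '' Q)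
noncomputable def Λ (Q : Set E) : ℝ := ∫ u : sphere (0 : E) 1, hs Q u ∂μ.toSphere

omit [FiniteDimensional ℝ E] [MeasurableSpace E] [BorelSpace E] in
lemma hs_ex {Q : Set E} (hQ : IsCompact Q) (hne : Q.Nonempty) (u : E) :
    ∃ x ∈ Q, ⟪u, x⟫ = hs Q u ∧ ∀ y ∈ Q, ⟪u, y⟫ ≤ hs Q u := by
  obtain ⟨x, hx, e, m⟩ := hQ.exists_sSup_image_eq_and_ge hne (f := fun x => ⟪u, x⟫) (by fun_prop)
  exact ⟨x, hx, e.symm, fun y hy => (m y hy).trans e.ge⟩

omit [FiniteDimensional ℝ E] [MeasurableSpace E] [BorelSpace E] in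
lemma hs_cont {Q : Set E} (hQ : IsCompact Q) : Continuous (hs Q) :=
  hQ.continuous_sSup (f := fun u x => ⟪u, x⟫) continuous_inner

lemma pw {y d : ℝ} (h1 : |y| ≤ d) (h2 : d ≤ 1) : |(1 + y) ^ 4 / 4 - 1 / 4 - y| ≤ 3 * d ^ 2 := by
  have a := abs_le.1 (h1.trans h2)
  have b : y ^ 2 ≤ d ^ 2 := sq_le_sq' (abs_le.1 h1).1 (abs_le.1 h1).2
  rw [show (1 + y) ^ 4 / 4 - 1 / 4 - y = y ^ 2 * (3 / 2 + y + y ^ 2 / 4) by ring,
    abs_of_nonneg (mul_nonneg (sq_nonneg _) (by nlinarith))]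
  nlinarith [sq_nonneg y, mul_le_mul_of_nonneg_left (show 3 / 2 + y + y ^ 2 / 4 ≤ 3 by nlinarith)
    (sq_nonneg y)]

theorem ballVar (h4 : finrank ℝ E = 4) {Q : Set E} (hQ : IsCompact Q) (hne : Q.Nonempty) :
    ∃ A K : ℝ, ∀ᶠ t : ℝ in 𝓝[>] 0, |μ.real (closedBall 0 1 + t • Q) - A - t * Λ μ Q| ≤ K * t ^ 2 := by
  obtain ⟨C, hC1, hC⟩ : ∃ C, 1 ≤ C ∧ ∀ x ∈ Q, ‖x‖ ≤ C := by
    obtain ⟨C, hC⟩ := hQ.isBounded.exists_norm_le
    exact ⟨max C 1, le_max_right _ _, fun x hx => (hC x hx).trans (le_max_left _ _)⟩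
  have hb : ∀ u, ‖u‖ = 1 → |hs Q u| ≤ C := fun u hu => by
    obtain ⟨x, hx, e, -⟩ := hs_ex hQ hne u
    rw [← e]; exact (abs_real_inner_le_norm _ _).trans (by rw [hu, one_mul]; exact hC x hx)
  have hc := hs_cont hQ
  set σ := μ.toSphere.real univ
  have : Nontrivial E := nontrivial_of_finrank_pos (R := ℝ) (by omega)
  have key : ∀ t k : ℝ, 0 < t → t * C ≤ 1 / 4 → |k| ≤ C ^ 2 →
      |μ.real (star fun u => 1 + (t * hs Q u + k * t ^ 2)) - σ / 4 - t * Λ μ Q|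
        ≤ 13 * C ^ 2 * σ * t ^ 2 := by
    intro t k ht htC hk
    have hy : ∀ u, ‖u‖ = 1 → |t * hs Q u + k * t ^ 2| ≤ 2 * (t * C) := fun u hu => by
      refine (abs_add_le _ _).trans ?_
      rw [abs_mul, abs_mul, abs_of_pos ht, abs_of_pos (pow_pos ht 2)]
      have := mul_le_mul_of_nonneg_left (hb u hu) ht.le
      have := mul_le_mul_of_nonneg_right hk (pow_pos ht 2).le
      nlinarith [mul_pos ht (one_pos.trans_le hC1)]
    have i1 : ∀ f : sphere (0 : E) 1 → ℝ, Continuous f → Integrable f μ.toSphere := fun f hf =>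
      hf.integrable_of_hasCompactSupport (HasCompactSupport.of_compactSpace f)
    rw [star_vol μ h4 (by fun_prop) fun u hu => by linarith [(abs_le.1 (hy u hu)).1]]
    have e : ∫ u : sphere (0 : E) 1, (1 + (t * hs Q u + k * t ^ 2)) ^ 4 / 4 ∂μ.toSphere - σ / 4
        - t * Λ μ Q = ∫ u : sphere (0 : E) 1,
          ((1 + (t * hs Q u + k * t ^ 2)) ^ 4 / 4 - 1 / 4 - t * hs Q u) ∂μ.toSphere := by
      rw [integral_sub (i1 _ (by fun_prop)) (i1 _ (by fun_prop)),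
        integral_sub (i1 _ (by fun_prop)) (i1 _ (by fun_prop)), integral_const_mul, integral_const]
      simp [Λ, σ, div_eq_mul_inv]
    rw [e, show 13 * C ^ 2 * σ * t ^ 2 = (13 * C ^ 2 * t ^ 2) * σ by ring, ← Real.norm_eq_abs]
    refine norm_integral_le_of_norm_le_const (μ := μ.toSphere) (.of_forall fun u => ?_)
    have h1 := abs_le.1 (pw (hy u (by simp)) (by linarith))
    have h2 := abs_le.1 hk
    rw [Real.norm_eq_abs, abs_le]
    constructor <;> nlinarith [pow_pos ht 2]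
  refine ⟨σ / 4, 13 * C ^ 2 * σ, ?_⟩
  have ev : ∀ᶠ t : ℝ in 𝓝 0, t * C < 1 / 4 :=
    ContinuousAt.eventually_lt (by fun_prop) continuousAt_const (by simp)
  filter_upwards [self_mem_nhdsWithin, nhdsWithin_le_nhds ev] with t (ht : 0 < t) htC
  have fin : μ (closedBall 0 1 + t • Q) ≠ ⊤ :=
    ((isCompact_closedBall 0 1).add (hQ.smul t)).measure_ne_top
  have nu : ∀ x : E, x ≠ 0 → ‖‖x‖⁻¹ • x‖ = 1 ∧ ⟪‖x‖⁻¹ • x, x⟫ = ‖x‖ := fun x hx => by
    have := norm_pos_iff.2 hx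
    refine ⟨norm_smul_inv_norm hx, ?_⟩
    rw [real_inner_smul_left, real_inner_self_eq_norm_sq]; field_simp
  have lo : star (fun u => 1 + (t * hs Q u + -C ^ 2 * t ^ 2)) ⊆ closedBall 0 1 + t • Q := by
    rintro x ⟨hx, h⟩
    obtain ⟨q, hq, e, -⟩ := hs_ex hQ hne (‖x‖⁻¹ • x)
    refine ⟨x - t • q, ?_, t • q, smul_mem_smul_set hq, by simp⟩
    have hp := norm_pos_iff.2 hx
    have e2 : ⟪x, q⟫ = ‖x‖ * hs Q (‖x‖⁻¹ • x) := by
      rw [← e, real_inner_smul_left]; field_simp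
    have h5 := abs_le.1 (hb _ (nu x hx).1)
    have h6 : ‖q‖ ^ 2 ≤ C ^ 2 := pow_le_pow_left₀ (norm_nonneg _) (hC q hq) 2
    rw [mem_closedBall_zero_iff, ← pow_le_one_iff_of_nonneg (norm_nonneg _) two_ne_zero,
      norm_sub_sq_real, real_inner_smul_right, e2, norm_smul, Real.norm_eq_abs, abs_of_pos ht]
    beta_reduce at h
    generalize hs Q (‖x‖⁻¹ • x) = H at *
    have h7 : (t * ‖q‖) ^ 2 ≤ (t * C) ^ 2 := by
      rw [mul_pow, mul_pow]; exact mul_le_mul_of_nonneg_left h6 (sq_nonneg t)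
    have h8 : 0 < t * C := by positivity
    have h9 : t * H ≤ t * C := mul_le_mul_of_nonneg_left h5.2 ht.le
    have h10 : (‖x‖ - t * H) ^ 2 ≤ (1 - (t * C) ^ 2) ^ 2 := by
      apply sq_le_sq' <;> nlinarith
    have h11 : (t * C) ^ 2 * (t * C) ^ 2 ≤ (t * C) ^ 2 :=
      mul_le_of_le_one_right (sq_nonneg _) (by nlinarith)
    nlinarith [sq_nonneg (t * H)]
  have up : closedBall 0 1 + t • Q ⊆ star (fun u => 1 + (t * hs Q u + 1 * t ^ 2)) ∪ {0} := by
    rintro _ ⟨b, hb', _, ⟨q, hq, rfl⟩, rfl⟩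
    beta_reduce
    by_cases hx : b + t • q = 0
    · exact .inr hx
    refine .inl ⟨hx, ?_⟩
    obtain ⟨-, -, -, m⟩ := hs_ex hQ hne (‖b + t • q‖⁻¹ • (b + t • q))
    obtain ⟨n1, n2⟩ := nu _ hx
    have h1 := mul_le_mul_of_nonneg_left (m q hq) ht.le
    have h2 := real_inner_le_norm (‖b + t • q‖⁻¹ • (b + t • q)) b
    rw [mem_closedBall_zero_iff] at hb'
    beta_reduce
    generalize ‖b + t • q‖⁻¹ • (b + t • q) = u at *
    rw [inner_add_right, real_inner_smul_right] at n2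
    rw [n1] at h2
    nlinarith [pow_pos ht 2]
  have f2 : μ (star (fun u => 1 + (t * hs Q u + 1 * t ^ 2))) ≠ ⊤ := by
    refine ne_top_of_le_ne_top (isCompact_closedBall (0 : E) 2).measure_ne_top (measure_mono ?_)
    rintro x ⟨hx, h⟩
    have := mul_le_mul_of_nonneg_left (abs_le.1 (hb _ (nu x hx).1)).2 ht.le
    rw [mem_closedBall_zero_iff]
    beta_reduce at h
    have : t ≤ 1 / 4 := by nlinarith
    nlinarith
  have k1 := abs_le.1 (key t (-C ^ 2) ht htC.le (by simp))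
  have k2 := abs_le.1 (key t 1 ht htC.le (by rw [abs_one]; nlinarith))
  have m1 := measureReal_mono lo fin
  have m2 := (measureReal_mono up (measure_union_ne_top f2 (by simp))).trans
    (measureReal_union_le _ _)
  rw [show μ.real {0} = 0 by simp [Measure.real], add_zero] at m2
  rw [abs_le]; constructor <;> linarith [k1.1, k2.2]

end Pool.Agent.H58.Stein
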