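import Pool.Agent.H58.Stein2

namespace Pool.Agent.H58.Stein
open MeasureTheory Set Filter Topology Pointwise Module Metric Asymptotics
open scoped RealInnerProductSpace

variable {E : Type} [NormedAddCommGroup E] [InnerProductSpace ℝ E] [FiniteDimensional ℝ E]
  [MeasurableSpace E] [BorelSpace E] (μ : Measure E) [μ.IsAddHaarMeasure]

lemma lim0 {f k : ℝ → ℝ} (hf : ContinuousAt f 0) (hk : ContinuousAt k 0)
    (h : ∀ᶠ t in 𝓝[>] 0, f t ≤ k t) : f 0 ≤ k 0 :=
  le_of_tendsto_of_tendsto (hf.tendsto.mono_left nhdsWithin_le_nhds)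
    (hk.tendsto.mono_left nhdsWithin_le_nhds) h

def Poly (Q : Set E) (c : ℕ → ℝ) : Prop :=
  ∀ t : ℝ, 0 < t → μ.real (Q + closedBall 0 t) = ∑ m ∈ Finset.range 5, c m * t ^ m

lemma c3_eq (h4 : finrank ℝ E = 4) {Q : Set E} (hQ : IsCompact Q) (hne : Q.Nonempty) {c : ℕ → ℝ}
    (hc : Poly μ Q c) : c 3 = Λ μ Q := by
  obtain ⟨A, K, h⟩ := ballVar μ h4 hQ hne
  have h1 : ∀ᶠ t : ℝ in 𝓝[>] 0, |c 4 - A + t * (c 3 - Λ μ Q + t * (c 2 + c 1 * t + c 0 * t ^ 2))|
      ≤ K * t ^ 2 := by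
    filter_upwards [h, self_mem_nhdsWithin] with t h (ht : 0 < t)
    have e : closedBall 0 1 + t • Q = t • (Q + closedBall 0 t⁻¹) := by
      rw [smul_add, _root_.smul_closedBall _ _ (by positivity), add_comm]
      simp [abs_of_pos ht, ht.ne']
    have e2 : μ.real (t • (Q + closedBall 0 t⁻¹)) = t ^ 4 * μ.real (Q + closedBall 0 t⁻¹) := by
      rw [Measure.real, Measure.addHaar_smul_of_nonneg _ ht.le, h4, ENNReal.toReal_mul,
        ENNReal.toReal_ofReal (by positivity)]; rfl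
    rw [e, e2, hc _ (inv_pos.2 ht)] at h
    convert h using 2
    simp only [Finset.sum_range_succ, Finset.range_zero, Finset.sum_empty]
    field_simp; ring
  have a0 : c 4 - A = 0 := by
    have := lim0 (by fun_prop) (by fun_prop) h1
    simpa using this
  have h2 : ∀ᶠ t : ℝ in 𝓝[>] 0, |c 3 - Λ μ Q + t * (c 2 + c 1 * t + c 0 * t ^ 2)| ≤ K * t := by
    filter_upwards [h1, self_mem_nhdsWithin] with t h (ht : 0 < t)
    rw [a0, zero_add, abs_mul, abs_of_pos ht] at h
    exact le_of_mul_le_mul_left (by linarith) ht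
  have := lim0 (by fun_prop) (by fun_prop) h2
  simpa [sub_eq_zero] using this

lemma Λ_add {Q R : Set E} (hQ : IsCompact Q) (hne : Q.Nonempty) (hR : IsCompact R)
    (hne' : R.Nonempty) : Λ μ (Q + R) = Λ μ Q + Λ μ R := by
  have i1 : ∀ Q : Set E, IsCompact Q → Integrable (fun u : sphere (0 : E) 1 => hs Q u) μ.toSphere :=
    fun Q h => ((hs_cont h).comp continuous_subtype_val).integrable_of_hasCompactSupport
      (HasCompactSupport.of_compactSpace _)
  rw [Λ, Λ, Λ, ← integral_add (i1 _ hQ) (i1 _ hR)]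
  congr 1; ext u
  obtain ⟨x, hx, e1, m1⟩ := hs_ex hQ hne u
  obtain ⟨y, hy, e2, m2⟩ := hs_ex hR hne' u
  obtain ⟨_, ⟨a, ha, b, hb, rfl⟩, e3, m3⟩ := hs_ex (hQ.add hR) (hne.add hne') u
  have := m3 _ (add_mem_add hx hy)
  simp only [inner_add_right] at *
  linarith [m1 a ha, m2 b hb]

lemma c3_half (h4 : finrank ℝ E = 4) {Q : Set E} (hQ : IsCompact Q) (hne : Q.Nonempty)
    {c d : ℕ → ℝ} (hc : Poly μ Q c) (hd : Poly μ (Q + -Q) d) : c 3 = 1 / 2 * d 3 := by
  have : Poly μ (-Q) c := fun t ht => by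
    rw [← hc t ht, Measure.real, ← Measure.measure_neg, neg_add, neg_neg, neg_closedBall, neg_zero]
    rfl
  rw [c3_eq μ h4 (hQ.add hQ.neg) (hne.add hne.neg) hd, Λ_add μ hQ hne hQ.neg hne.neg,
    ← c3_eq μ h4 hQ hne hc, ← c3_eq μ h4 hQ.neg hne.neg this]; ring

def cyl (u : E) (A : Set E) (a b : ℝ) : Set E := A + (· • u) '' Icc a b

omit [FiniteDimensional ℝ E] [MeasurableSpace E] [BorelSpace E] in
lemma cyl_cpt (u : E) {A : Set E} (h : IsCompact A) (a b : ℝ) : IsCompact (cyl u A a b) :=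
  h.add (isCompact_Icc.image (by fun_prop))

lemma cyl_vol {u : E} (hu : ‖u‖ = 1) {A : Set E} (hA : ∀ x ∈ A, ⟪u, x⟫ = 0) (a : ℝ) {l : ℝ}
    (hl : 0 < l) : μ.real (cyl u A a (a + l)) = l * μ.real (cyl u A 0 1) := by
  set L := (ℝ ∙ u)ᗮ
  have hu' : u ∈ Lᗮ := Submodule.le_orthogonal_orthogonal _ (Submodule.mem_span_singleton_self u)
  have k : ∀ y ∈ A, ∀ s : ℝ, (L.starProjection + l • Lᗮ.starProjection : E →L[ℝ] E) (y + s • u)
      = y + (l * s) • u := fun y hy s => by
    have hy' : y ∈ L := Submodule.mem_orthogonal_singleton_iff_inner_right.2 (hA y hy)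
    simp only [_root_.add_apply, _root_.smul_apply, map_add, map_smul,
      Submodule.starProjection_eq_self_iff.2 hy', Submodule.starProjection_eq_self_iff.2 hu',
      (L.starProjection_apply_eq_zero_iff).2 hu',
      (Lᗮ.starProjection_apply_eq_zero_iff).2 (L.le_orthogonal_orthogonal hy')]
    module
  have : (a • u + ·) ⁻¹' cyl u A a (a + l) =
      (L.starProjection + l • Lᗮ.starProjection : E →L[ℝ] E).toLinearMap '' cyl u A 0 1 := by
    ext x
    constructor
    · rintro ⟨y, hy, _, ⟨s, hs, rfl⟩, e⟩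
      refine ⟨_, ⟨y, hy, _, ⟨(s - a) / l, ⟨div_nonneg (by linarith [hs.1]) hl.le,
        (div_le_one hl).2 (by linarith [hs.2])⟩, rfl⟩, rfl⟩, (k y hy _).trans ?_⟩
      rw [mul_div_cancel₀ _ hl.ne']
      linear_combination (norm := module) e
    · rintro ⟨_, ⟨y, hy, _, ⟨s, hs, rfl⟩, rfl⟩, rfl⟩
      refine ⟨y, hy, _, ⟨a + l * s, ⟨by nlinarith [hs.1], by nlinarith [hs.2]⟩, rfl⟩, ?_⟩
      erw [k y hy]; beta_reduce; module
  have h1 : finrank ℝ Lᗮ = 1 := by
    rw [Submodule.orthogonal_orthogonal, finrank_span_singleton (by rintro rfl; simp at hu)]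
  rw [Measure.real, ← measure_preimage_add μ (a • u), this, Measure.addHaar_image_linearMap, det_sc,
    h1, pow_one, abs_of_pos hl, ENNReal.toReal_mul, ENNReal.toReal_ofReal hl.le]; rfl

lemma thick {Q : Set E} (hQ : IsCompact Q) :
    Tendsto (fun t => μ.real (Q + closedBall 0 t)) (𝓝[>] 0) (𝓝 (μ.real Q)) := by
  refine (((ENNReal.tendsto_toReal hQ.measure_ne_top).comp
    (tendsto_measure_cthickening_of_isCompact hQ)).mono_left nhdsWithin_le_nhds).congr' ?_
  filter_upwards [self_mem_nhdsWithin] with t (ht : 0 < t)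
  rw [hQ.add_closedBall_zero ht.le]; rfl

lemma c0_eq {Q : Set E} (hQ : IsCompact Q) {c : ℕ → ℝ} (hc : Poly μ Q c) : μ.real Q = c 0 := by
  have : ContinuousAt (fun t : ℝ => ∑ m ∈ Finset.range 5, c m * t ^ m) 0 := by fun_prop
  have h := tendsto_nhds_unique (thick μ hQ) ((this.tendsto.mono_left nhdsWithin_le_nhds).congr'
    (by filter_upwards [self_mem_nhdsWithin] with t ht using (hc t ht).symm))
  simpa [Finset.sum_range_succ] using h

lemma c1_eq {u : E} (hu : ‖u‖ = 1) {Q : Set E} (hQ : IsCompact Q) (hA : ∀ x ∈ Q, ⟪u, x⟫ = 0)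
    {c : ℕ → ℝ} (hc : Poly μ Q c) : c 1 = 2 * μ.real (cyl u Q 0 1) := by
  have huu : ⟪u, u⟫ = 1 := by rw [real_inner_self_eq_norm_sq, hu, one_pow]
  have h0 : c 0 = 0 := by
    rw [← c0_eq μ hQ hc, Measure.real, measure_mono_null (t := ((ℝ ∙ u)ᗮ : Submodule ℝ E))
      (fun x hx => Submodule.mem_orthogonal_singleton_iff_inner_right.2 (hA x hx))
      (Measure.addHaar_submodule μ _ fun e => ?_), ENNReal.toReal_zero]
    have := Submodule.mem_orthogonal_singleton_iff_inner_right.1 (e ▸ Submodule.mem_top : u ∈ _)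
    linarith
  have p : ∀ t, 0 < t → μ.real (Q + closedBall 0 t) =
      t * (c 1 + c 2 * t + c 3 * t ^ 2 + c 4 * t ^ 3) := fun t ht => by
    rw [hc t ht]; simp [Finset.sum_range_succ, h0]; ring
  have cb := fun t : ℝ => hQ.add (isCompact_closedBall (0 : E) t)
  have ct : ContinuousAt (fun t : ℝ => c 1 + c 2 * t + c 3 * t ^ 2 + c 4 * t ^ 3) 0 := by fun_prop
  refine le_antisymm ?_ ?_
  · have := le_of_tendsto_of_tendsto (ct.tendsto.mono_left nhdsWithin_le_nhds)
      ((thick μ (cyl_cpt u hQ 0 1)).const_mul 2) ?_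
    · simpa using this
    filter_upwards [self_mem_nhdsWithin] with t (ht : 0 < t)
    refine le_of_mul_le_mul_left ?_ ht
    have cq : IsCompact ((Q + closedBall 0 t) ∩ {x | ⟪u, x⟫ = 0}) :=
      (cb t).inter_right (isClosed_eq (by fun_prop) continuous_const)
    have s1 : Q + closedBall 0 t ⊆ cyl u ((Q + closedBall 0 t) ∩ {x | ⟪u, x⟫ = 0}) (-t) (-t + 2 * t) := by
      rintro _ ⟨q, hq, b, hb, rfl⟩
      rw [mem_closedBall_zero_iff] at hb
      have h1 := abs_le.1 ((abs_real_inner_le_norm u b).trans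
        (show ‖u‖ * ‖b‖ ≤ t by rw [hu, one_mul]; exact hb))
      refine ⟨q + (b - ⟪u, b⟫ • u), ⟨⟨q, hq, _, ?_, rfl⟩, ?_⟩, _, ⟨⟪u, b⟫, ⟨h1.1, by linarith⟩, rfl⟩,
        by simp [add_assoc]⟩
      · rw [mem_closedBall_zero_iff]
        refine le_trans (le_of_sq_le_sq ?_ (norm_nonneg _)) hb
        rw [norm_sub_sq_real, real_inner_smul_right, norm_smul, hu, real_inner_comm u b]
        simp; nlinarith [sq_nonneg ⟪u, b⟫]
      · simp [inner_add_right, inner_sub_right, inner_smul_right, hA q hq, hu]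
    have s2 : cyl u ((Q + closedBall 0 t) ∩ {x | ⟪u, x⟫ = 0}) 0 1 ⊆ cyl u Q 0 1 + closedBall 0 t := by
      rw [cyl, cyl, add_right_comm]; exact add_subset_add_right inter_subset_left
    have m1 := measureReal_mono s1 (cyl_cpt u cq _ _).measure_ne_top (μ := μ)
    have m2 := measureReal_mono s2
      ((cyl_cpt u hQ _ _).add (isCompact_closedBall (0 : E) t)).measure_ne_top (μ := μ)
    rw [cyl_vol μ hu (fun x hx => hx.2) _ (by positivity), p t ht] at m1
    nlinarith
  · have := lim0 (f := fun _ => 2 * μ.real (cyl u Q 0 1)) continuousAt_const ct ?_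
    · simpa using this
    filter_upwards [self_mem_nhdsWithin] with t (ht : 0 < t)
    refine le_of_mul_le_mul_left ?_ ht
    have s1 : cyl u Q (-t) (-t + 2 * t) ⊆ Q + closedBall 0 t := by
      refine add_subset_add_left ?_
      rintro _ ⟨s, hs, rfl⟩
      rw [mem_closedBall_zero_iff, norm_smul, hu, mul_one]
      exact abs_le.2 ⟨hs.1, by linarith [hs.2]⟩
    have m1 := measureReal_mono s1 (cb t).measure_ne_top (μ := μ)
    rw [cyl_vol μ hu hA _ (by positivity), p t ht] at m1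
    linarith

end Pool.Agent.H58.Stein
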