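import Pool.Agent.H58.Stein3

namespace Pool.Agent.H58.Stein
open MeasureTheory Set Filter Topology Pointwise Module Metric Asymptotics
open scoped RealInnerProductSpace

variable {E : Type} [NormedAddCommGroup E] [InnerProductSpace ℝ E] [FiniteDimensional ℝ E]
  [MeasurableSpace E] [BorelSpace E] (μ : Measure E) [μ.IsAddHaarMeasure]

lemma cyl_add (u : E) {K : Set E} (hK : IsCompact K) (hc : Convex ℝ K) {a b : ℝ} (ha : 0 ≤ a)
    (hb : 0 ≤ b) :
    μ.real (cyl u K 0 (a + b)) = μ.real (cyl u K 0 a) + (μ.real (cyl u K 0 b) - μ.real K) := by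
  have s0 : K ⊆ cyl u K 0 b := fun x hx => ⟨x, hx, _, ⟨0, ⟨le_rfl, hb⟩, rfl⟩, by simp⟩
  have e : cyl u K 0 (a + b) = cyl u K 0 a ∪ (-(a • u) + ·) ⁻¹' (cyl u K 0 b \ K) := by
    ext x
    constructor
    · rintro ⟨k, hk, _, ⟨s, hs, rfl⟩, rfl⟩
      by_cases h : (k + s • u) ∈ cyl u K 0 a
      · exact .inl h
      have : a ≤ s := by
        by_contra h'
        exact h ⟨k, hk, _, ⟨s, ⟨hs.1, (not_le.1 h').le⟩, rfl⟩, rfl⟩
      refine .inr ⟨⟨k, hk, _, ⟨s - a, ⟨by linarith, by linarith [hs.2]⟩, rfl⟩, ?_⟩, fun h' =>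
        h ⟨_, h', _, ⟨a, ⟨ha, le_rfl⟩, rfl⟩, ?_⟩⟩ <;> beta_reduce <;> module
    · rintro (⟨k, hk, _, ⟨s, hs, rfl⟩, rfl⟩ | ⟨⟨k, hk, _, ⟨s, hs, rfl⟩, e⟩, -⟩)
      · exact ⟨k, hk, _, ⟨s, ⟨hs.1, by linarith [hs.2]⟩, rfl⟩, rfl⟩
      · refine ⟨k, hk, _, ⟨a + s, ⟨by linarith [hs.1], by linarith [hs.2]⟩, rfl⟩, ?_⟩
        beta_reduce at e ⊢
        linear_combination (norm := module) e
  have d : Disjoint (cyl u K 0 a) ((-(a • u) + ·) ⁻¹' (cyl u K 0 b \ K)) := by
    refine disjoint_left.2 ?_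
    rintro _ ⟨k, hk, _, ⟨s, hs, rfl⟩, rfl⟩ ⟨⟨k', hk', _, ⟨r, hr, rfl⟩, e⟩, h⟩
    beta_reduce at e h
    apply h
    rcases eq_or_lt_of_le (add_nonneg (sub_nonneg.2 hs.2) hr.1) with h0 | h0
    · have : s = a := by linarith [hs.2, hr.1]
      subst this; simpa using hk
    · have := hc hk hk' (div_nonneg hr.1 h0.le) (div_nonneg (sub_nonneg.2 hs.2) h0.le)
        (by field_simp; ring)
      convert this using 1
      rw [show k = k' + (a - s + r) • u by linear_combination (norm := module) -e]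
      match_scalars <;> field_simp <;> ring
  have m := ((cyl_cpt u hK 0 b).measurableSet.diff hK.measurableSet)
  have f : μ (cyl u K 0 b \ K) ≠ ⊤ :=
    ne_top_of_le_ne_top (cyl_cpt u hK 0 b).measure_ne_top (measure_mono sdiff_subset)
  rw [e, measureReal_union d (m.preimage (by fun_prop)) (cyl_cpt u hK 0 a).measure_ne_top
    (by rwa [measure_preimage_add]), ← measureReal_sdiff s0 hK.measurableSet
    (cyl_cpt u hK 0 b).measure_ne_top, Measure.real, Measure.real, measure_preimage_add]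
  rfl

noncomputable def pr (u : E) : E →L[ℝ] E := ContinuousLinearMap.id ℝ E - (innerSL ℝ u).smulRight u

omit [FiniteDimensional ℝ E] [MeasurableSpace E] [BorelSpace E] in
lemma pr_app (u x : E) : pr u x = x - ⟪u, x⟫ • u := rfl

omit [FiniteDimensional ℝ E] [MeasurableSpace E] [BorelSpace E] in
lemma pr_orth {u : E} (hu : ‖u‖ = 1) (K : Set E) : ∀ x ∈ pr u '' K, ⟪u, x⟫ = 0 := by
  rintro _ ⟨x, -, rfl⟩
  simp [pr_app, inner_sub_right, inner_smul_right, hu]

theorem bright {u : E} (hu : ‖u‖ = 1) {K : Set E} (hK : IsCompact K) (hc : Convex ℝ K) {t : ℝ}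
    (ht : 0 ≤ t) : μ.real (cyl u K 0 t) = μ.real K + t * μ.real (cyl u (pr u '' K) 0 1) := by
  obtain ⟨C, hC0, hC⟩ : ∃ C, 0 < C ∧ ∀ x ∈ K, |⟪u, x⟫| ≤ C := by
    obtain ⟨C, h0, hC⟩ := hK.isBounded.exists_pos_norm_le
    exact ⟨C, h0, fun x hx => (abs_real_inner_le_norm _ _).trans (by rw [hu, one_mul]; exact hC x hx)⟩
  have z : cyl u K 0 0 = K := by simp [cyl]
  rcases ht.eq_or_lt with rfl | ht
  · simp [z]
  have it : ∀ n : ℕ, μ.real (cyl u K 0 (n * t)) = μ.real K + n * (μ.real (cyl u K 0 t) - μ.real K) := by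
    intro n
    induction n with
    | zero => simp [z]
    | succ n ih => push_cast; rw [add_mul, one_mul, cyl_add μ u hK hc (by positivity) ht.le, ih]; ring
  have cq := hK.image (pr u).continuous
  set B := μ.real (cyl u (pr u '' K) 0 1)
  have h : ∀ᶠ n : ℕ in atTop, |μ.real (cyl u K 0 t) - μ.real K - t * B| ≤ (μ.real K + 2 * C * B) / n := by
    filter_upwards [(tendsto_natCast_atTop_atTop.atTop_mul_const ht).eventually_gt_atTop (2 * C),
      eventually_gt_atTop 0] with n hn h0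
    have s1 : cyl u K 0 (n * t) ⊆ cyl u (pr u '' K) (-C) (-C + (n * t + 2 * C)) := by
      rintro _ ⟨k, hk, _, ⟨s, hs, rfl⟩, rfl⟩
      have := abs_le.1 (hC k hk)
      refine ⟨_, ⟨k, hk, rfl⟩, _, ⟨s + ⟪u, k⟫, ⟨by linarith [hs.1], by linarith [hs.2]⟩, rfl⟩, ?_⟩
      simp only [pr_app]; module
    have s2 : cyl u (pr u '' K) C (C + (n * t - 2 * C)) ⊆ cyl u K 0 (n * t) := by
      rintro _ ⟨_, ⟨k, hk, rfl⟩, _, ⟨s, hs, rfl⟩, rfl⟩
      have := abs_le.1 (hC k hk)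
      refine ⟨_, hk, _, ⟨s - ⟪u, k⟫, ⟨by linarith [hs.1], by linarith [hs.2]⟩, rfl⟩, ?_⟩
      simp only [pr_app]; module
    have m1 := measureReal_mono s1 (cyl_cpt u cq _ _).measure_ne_top (μ := μ)
    have m2 := measureReal_mono s2 (cyl_cpt u hK _ _).measure_ne_top (μ := μ)
    rw [cyl_vol μ hu (pr_orth hu K) _ (by linarith), it] at m1 m2
    have : (0 : ℝ) < n := by exact_mod_cast h0
    have : 0 ≤ μ.real K := measureReal_nonneg
    have : 0 ≤ C * B := mul_nonneg hC0.le measureReal_nonneg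
    rw [le_div_iff₀ (by positivity), ← abs_of_pos ‹(0 : ℝ) < n›, ← abs_mul, abs_le]
    constructor <;> nlinarith
  have := ge_of_tendsto (tendsto_const_div_atTop_nhds_zero_nat _) h
  linarith [abs_nonpos_iff.1 this]

end Pool.Agent.H58.Stein
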