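import Pool.Agent.H58.StatDefs

namespace Pool.Agent.H58.Surf
open Pool.Agent.H58.Stat

variable {m : ℕ}

/-- First fundamental form `E du^2 + 2 F du dv + G dv^2` of a map of the plane to Euclidean space. -/
noncomputable def gE (X : ℝ × ℝ → Fin m → ℝ) (p : ℝ × ℝ) : ℝ := dx X p ⬝ᵥ dx X p

noncomputable def gF (X : ℝ × ℝ → Fin m → ℝ) (p : ℝ × ℝ) : ℝ := dx X p ⬝ᵥ dy X p

noncomputable def gG (X : ℝ × ℝ → Fin m → ℝ) (p : ℝ × ℝ) : ℝ := dy X p ⬝ᵥ dy X p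

/-- The area density. -/
noncomputable def gW (X : ℝ × ℝ → Fin m → ℝ) (p : ℝ × ℝ) : ℝ := √(gE X p * gG X p - gF X p ^ 2)

/-- The Laplacian `-div grad f` of the metric induced by `X`, in coordinates. -/
noncomputable def lb (X : ℝ × ℝ → Fin m → ℝ) (f : ℝ × ℝ → ℝ) (p : ℝ × ℝ) : ℝ :=
  -(dx (fun q => (gG X q * dx f q - gF X q * dy f q) / gW X q) p +
    dy (fun q => (gE X q * dy f q - gF X q * dx f q) / gW X q) p) / gW X p

end Pool.Agent.H58.Surf
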