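import Pool.Agent.H58.TautDefs

namespace Pool.Agent.H58.Taut
open scoped ContDiff RealInnerProductSpace
open Module Set

def IsQ (g : E 4 → ℝ) : Prop := ∃ T : E 4 →L[ℝ] E 4, ∀ x, g x = ⟪T x, x⟫

lemma IsQ.mono (i j : Fin 4) : IsQ fun x => x i * x j :=
  ⟨(EuclideanSpace.proj i).smulRight (EuclideanSpace.single j 1), fun x => by
    simp [inner_smul_left, EuclideanSpace.inner_single_left]⟩

lemma IsQ.add {f g : E 4 → ℝ} (hf : IsQ f) (hg : IsQ g) : IsQ fun x => f x + g x := by
  obtain ⟨S, hS⟩ := hf; obtain ⟨T, hT⟩ := hg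
  exact ⟨S + T, fun x => by simp [hS, hT, inner_add_left]⟩

lemma IsQ.smul {f : E 4 → ℝ} (c : ℝ) (hf : IsQ f) : IsQ fun x => c * f x := by
  obtain ⟨S, hS⟩ := hf
  exact ⟨c • S, fun x => by simp [hS, inner_smul_left]⟩

lemma IsQ.sub {f g : E 4 → ℝ} (hf : IsQ f) (hg : IsQ g) : IsQ fun x => f x - g x := by
  simpa [sub_eq_add_neg] using hf.add (hg.smul (-1))

lemma IsQ.sum {n : ℕ} {f : Fin n → E 4 → ℝ} (hf : ∀ i, IsQ (f i)) : IsQ fun x => ∑ i, f i x := by
  choose S hS using hf
  exact ⟨∑ i, S i, fun x => by simp [hS, sum_inner]⟩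

lemma IsQ.sym {f : E 4 → ℝ} (hf : IsQ f) : ∃ T : E 4 →L[ℝ] E 4,
    (T : E 4 →ₗ[ℝ] E 4).IsSymmetric ∧ ∀ x, f x = ⟪T x, x⟫ := by
  obtain ⟨S, hS⟩ := hf
  refine ⟨(1 / 2 : ℝ) • (S + S.adjoint), fun x y => ?_, fun x => ?_⟩
  · simp [inner_add_left, inner_add_right, inner_smul_left, inner_smul_right,
      ContinuousLinearMap.adjoint_inner_left, ContinuousLinearMap.adjoint_inner_right, add_comm]
  · simp [hS, inner_add_left, inner_smul_left, ContinuousLinearMap.adjoint_inner_left,
      real_inner_comm (S x) x]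
    ring

lemma qderiv (T : E 4 →L[ℝ] E 4) (x : E 4) : HasFDerivAt (fun x => ⟪T x, x⟫)
    ((fderivInnerCLM ℝ (T x, x)).comp (T.prod (.id ℝ _))) x :=
  T.hasFDerivAt.inner ℝ (hasFDerivAt_id x)

lemma IsQ.smooth {f : E 4 → ℝ} (hf : IsQ f) : ContDiff ℝ ∞ f := by
  obtain ⟨S, hS⟩ := hf
  rw [show f = _ from funext hS]
  exact S.contDiff.inner ℝ contDiff_id

lemma IsQ.fd {f : E 4 → ℝ} (hf : IsQ f) (x w : E 4) :
    fderiv ℝ f x w = (f (x + w) - f (x - w)) / 2 := by
  obtain ⟨S, hS⟩ := hf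
  rw [show f = _ from funext hS, (qderiv S x).fderiv]
  simp [inner_add_left, inner_add_right, inner_sub_left, inner_sub_right]
  ring

lemma IsQ.even {f : E 4 → ℝ} (hf : IsQ f) (x : E 4) : f (-x) = f x := by
  obtain ⟨S, hS⟩ := hf
  simp [hS]

lemma count (T : E 4 →ₗ[ℝ] E 4) (hT : T.IsSymmetric)
    (hf : {x : E 4 | ‖x‖ = 1 ∧ ∀ w, ⟪x, w⟫ = 0 → ⟪T x, w⟫ = 0}.Finite) :
    {x : E 4 | ‖x‖ = 1 ∧ ∀ w, ⟪x, w⟫ = 0 → ⟪T x, w⟫ = 0}.ncard = 8 := by
  have hn : finrank ℝ (E 4) = 4 := by simp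
  set b := hT.eigenvectorBasis hn
  set μ := hT.eigenvalues hn
  have hb : ∀ i, T (b i) = μ i • b i := fun i => hT.apply_eigenvectorBasis hn i
  have hO := orthonormal_iff_ite.1 b.orthonormal
  have hμ : Function.Injective μ := by
    intro i j hij
    by_contra hne
    have := (Icc_infinite Real.pi_pos).to_subtype
    refine absurd hf (Set.infinite_of_injective_forall_mem (f := fun t : Icc (0 : ℝ) Real.pi =>
      Real.cos t • b i + Real.sin t • b j) (fun t s h => ?_) fun t => ⟨?_, fun w hw => ?_⟩)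
    · have := congrArg (fun v => ⟪b i, v⟫) h
      simp only [inner_add_right, inner_smul_right, hO, if_pos, if_neg hne] at this
      exact Subtype.ext (Real.injOn_cos t.2 s.2 (by simpa using this))
    · rw [← sq_eq_sq₀ (norm_nonneg _) zero_le_one, ← real_inner_self_eq_norm_sq]
      simp only [inner_add_right, inner_smul_right, inner_add_left, inner_smul_left, hO, if_pos,
        if_neg hne, if_neg (Ne.symm hne)]
      simp; nlinarith [Real.sin_sq_add_cos_sq t]
    · have : T (Real.cos t • b i + Real.sin t • b j) =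
          μ i • (Real.cos t • b i + Real.sin t • b j) := by
        rw [map_add, map_smul, map_smul, hb, hb, ← hij]; module
      rw [this, inner_smul_left, hw, mul_zero]
  let g : Fin 4 × Bool → E 4 := fun z => if z.2 then b z.1 else -b z.1
  have hg : Function.Injective g := by
    rintro ⟨i, s⟩ ⟨j, t⟩ h
    have h1 := congrArg (fun v => ⟪b i, v⟫) h
    by_cases hij : i = j
    · subst hij
      cases s <;> cases t <;> simp [g] at h1 ⊢ <;> norm_num at h1
    · cases s <;> cases t <;> simp [g, hO, hij] at h1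
  have : {x : E 4 | ‖x‖ = 1 ∧ ∀ w, ⟪x, w⟫ = 0 → ⟪T x, w⟫ = 0} = range g := by
    ext x
    constructor
    · rintro ⟨h1, h2⟩
      have hxx : ⟪x, x⟫ = 1 := by rw [real_inner_self_eq_norm_sq, h1, one_pow]
      have h3 : ∀ i, (μ i - ⟪T x, x⟫) * ⟪x, b i⟫ = 0 := fun i => by
        have := h2 (b i - ⟪x, b i⟫ • x) (by simp [inner_sub_right, inner_smul_right, hxx, -inner_self_eq_norm_sq_to_K])
        rw [inner_sub_right, inner_smul_right, hT x (b i), hb, inner_smul_right] at this
        linear_combination this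
      obtain ⟨i, hi⟩ : ∃ i, ⟪x, b i⟫ ≠ 0 := by
        by_contra! h
        have := b.sum_inner_mul_inner x x
        simp [h, h1] at this
      have h4 : ∀ j, j ≠ i → ⟪b j, x⟫ = 0 := fun j hj => by
        rw [real_inner_comm]
        refine (mul_eq_zero.1 (h3 j)).resolve_left fun h => hj (hμ ?_)
        have := (mul_eq_zero.1 (h3 i)).resolve_right hi
        linarith
      have h5 : x = ⟪b i, x⟫ • b i := by
        conv_lhs => rw [← b.sum_repr' x]
        rw [Finset.sum_eq_single i (fun j _ hj => by rw [h4 j hj, zero_smul]) (by simp)]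
      have h6 : |⟪b i, x⟫| = 1 := by
        have := congrArg norm h5
        rw [norm_smul, b.orthonormal.1 i, h1, mul_one] at this
        exact this.symm
      rcases (abs_eq zero_le_one).1 h6 with h | h
      · exact ⟨(i, true), by rw [h5, h]; simp [g]⟩
      · exact ⟨(i, false), by rw [h5, h]; simp [g]⟩
    · rintro ⟨⟨i, s⟩, rfl⟩
      cases s
      · exact ⟨by simp [g], fun w hw => by
          simp only [g, Bool.false_eq_true, if_false, map_neg, hb, inner_neg_left,
            inner_smul_left, neg_eq_zero] at hw ⊢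
          rw [hw, mul_zero]⟩
      · exact ⟨by simp [g], fun w hw => by
          simp only [g, if_true, hb, inner_smul_left] at hw ⊢
          rw [hw, mul_zero]⟩
  rw [this, ncard_range_of_injective hg]; simp

lemma taut_of {n : ℕ} {G : E 4 → E (n + 1)} (hq : ∀ k, IsQ fun x => G x k)
    (hn : ∀ x, ‖G x‖ ^ 2 = (‖x‖ ^ 2) ^ 2)
    (hi : ∀ x y, ‖x‖ ^ 2 = ‖y‖ ^ 2 → G x = G y → y = x ∨ y = -x)
    (hs : ∀ v c, (∀ x, ‖x‖ = 1 → ⟪v, G x⟫ = c) → v = 0) : TautRP3 n G := by
  have sm : ContDiff ℝ ∞ G := contDiff_euclidean.2 fun k => (hq k).smooth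
  refine ⟨sm, fun x => ?_, fun x y hx hy => hi x y (by rw [hx, hy]), fun x w hx hw h => ?_,
    fun x hx => ?_, hs, fun p => ?_⟩
  · ext k; exact (hq k).even x
  · have : G (x + w) = G (x - w) := by
      ext k
      have h1 := (hq k).fd x w
      have h2 := ((EuclideanSpace.proj (𝕜 := ℝ) k).hasFDerivAt.comp x
        (sm.differentiable (by simp) x).hasFDerivAt).fderiv
      have h3 : fderiv ℝ (fun x => G x k) x w = 0 := by
        have := congrArg (· w) h2
        simpa [h, Function.comp_def] using this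
      linarith
    rcases hi _ _ (by rw [norm_add_sq_real, norm_sub_sq_real, hw]; ring) this with h | h
    · have : (2 : ℝ) • w = 0 := by linear_combination (norm := module) -h
      simpa using this
    · have : (2 : ℝ) • x = 0 := by linear_combination (norm := module) h
      simp at this; simp [this] at hx
  · rw [← sq_eq_sq₀ (norm_nonneg _) zero_le_one, hn, hx]; norm_num
  · obtain ⟨T, hT, hp⟩ := (IsQ.sum fun k => (hq k).smul (p k)).sym
    have e : (fun x => ‖p - G x‖ ^ 2) = fun x => ‖p‖ ^ 2 - 2 * ⟪T x, x⟫ + ⟪x, x⟫ ^ 2 := by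
      ext x
      rw [norm_sub_sq_real, hn, ← hp, real_inner_self_eq_norm_sq]
      simp [PiLp.inner_apply, mul_comm]
    have : crit (fun x => ‖p - G x‖ ^ 2) =
        {x : E 4 | ‖x‖ = 1 ∧ ∀ w, ⟪x, w⟫ = 0 → ⟪(T : E 4 →ₗ[ℝ] E 4) x, w⟫ = 0} := by
      ext x
      refine and_congr_right fun _ => forall₂_congr fun w hw => ?_
      have hd := (((qderiv T x).const_mul 2).const_sub (‖p‖ ^ 2)).add
        ((qderiv (.id ℝ _) x).pow 2)
      have h1 : ⟪T w, x⟫ = ⟪T x, w⟫ := by rw [real_inner_comm]; exact (hT x w).symm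
      rw [e]; erw [hd.fderiv]
      simp [hw, h1, real_inner_comm x w]
    rw [this]; exact count _ hT

end Pool.Agent.H58.Taut
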