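import Pool.Agent.H58.Taut1

namespace Pool.Agent.H58.Taut
open scoped ContDiff RealInnerProductSpace

def r12 (x : E 4) : ℝ := 2 * (x 1 * x 2 - x 0 * x 3)
def r13 (x : E 4) : ℝ := 2 * (x 1 * x 3 + x 0 * x 2)
def r21 (x : E 4) : ℝ := 2 * (x 1 * x 2 + x 0 * x 3)
def r22 (x : E 4) : ℝ := x 0 * x 0 - x 1 * x 1 + x 2 * x 2 - x 3 * x 3
def r23 (x : E 4) : ℝ := 2 * (x 2 * x 3 - x 0 * x 1)
def r31 (x : E 4) : ℝ := 2 * (x 1 * x 3 - x 0 * x 2)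
def r32 (x : E 4) : ℝ := 2 * (x 2 * x 3 + x 0 * x 1)
def r33 (x : E 4) : ℝ := x 0 * x 0 - x 1 * x 1 - x 2 * x 2 + x 3 * x 3

lemma q12 : IsQ r12 := ((IsQ.mono _ _).sub (.mono _ _)).smul 2
lemma q13 : IsQ r13 := ((IsQ.mono _ _).add (.mono _ _)).smul 2
lemma q21 : IsQ r21 := ((IsQ.mono _ _).add (.mono _ _)).smul 2
lemma q22 : IsQ r22 := (((IsQ.mono _ _).sub (.mono _ _)).add (.mono _ _)).sub (.mono _ _)
lemma q23 : IsQ r23 := ((IsQ.mono _ _).sub (.mono _ _)).smul 2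
lemma q31 : IsQ r31 := ((IsQ.mono _ _).sub (.mono _ _)).smul 2
lemma q32 : IsQ r32 := ((IsQ.mono _ _).add (.mono _ _)).smul 2
lemma q33 : IsQ r33 := (((IsQ.mono _ _).sub (.mono _ _)).sub (.mono _ _)).add (.mono _ _)

lemma nsq (x : E 4) : ‖x‖ ^ 2 = x 0 ^ 2 + x 1 ^ 2 + x 2 ^ 2 + x 3 ^ 2 := by
  simp [EuclideanSpace.norm_sq_eq, Fin.sum_univ_four]

lemma cols_inj {x y : E 4} (h : ‖x‖ ^ 2 = ‖y‖ ^ 2) (h1 : r12 x = r12 y) (h2 : r13 x = r13 y)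
    (h3 : r22 x = r22 y) (h4 : r23 x = r23 y) (h5 : r32 x = r32 y) (h6 : r33 x = r33 y) :
    y = x ∨ y = -x := by
  have e : ‖y - x‖ ^ 2 * ‖y + x‖ ^ 2 + 4 * (x 0 * y 1 - x 1 * y 0 - x 2 * y 3 + x 3 * y 2) ^ 2
      = (r12 x - r12 y) ^ 2 + (r13 x - r13 y) ^ 2 + (r22 x - r22 y) ^ 2 + (r23 x - r23 y) ^ 2
        + (r32 x - r32 y) ^ 2 + (r33 x - r33 y) ^ 2 - (‖x‖ ^ 2 - ‖y‖ ^ 2) ^ 2 := by
    simp only [nsq, r12, r13, r22, r23, r32, r33, PiLp.add_apply, PiLp.sub_apply]; ring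
  rw [h, h1, h2, h3, h4, h5, h6] at e
  have e2 : ‖y - x‖ ^ 2 * ‖y + x‖ ^ 2 = 0 := by
    nlinarith [sq_nonneg (x 0 * y 1 - x 1 * y 0 - x 2 * y 3 + x 3 * y 2),
      mul_nonneg (sq_nonneg ‖y - x‖) (sq_nonneg ‖y + x‖)]
  rcases mul_eq_zero.1 e2 with h | h
  · exact Or.inl (by simpa [sub_eq_zero] using h)
  · exact Or.inr (by simpa [add_eq_zero_iff_eq_neg] using h)

lemma pts {P : E 4 → Prop} (h : ∀ x, ‖x‖ = 1 → P x) (a b c d : ℝ)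
    (e : a ^ 2 + b ^ 2 + c ^ 2 + d ^ 2 = 1) : P !₂[a, b, c, d] :=
  h _ (by rw [← sq_eq_sq₀ (norm_nonneg _) zero_le_one, nsq]; simpa using e)

end Pool.Agent.H58.Taut
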