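import Mathlib

namespace Pool.Agent.H58.Taut
open scoped ContDiff RealInnerProductSpace

abbrev E (n : ℕ) := EuclideanSpace ℝ (Fin n)

/-- The critical points, on the unit sphere `S³ ⊂ ℝ⁴`, of the restriction of `g` to `S³`. -/
def crit (g : E 4 → ℝ) : Set (E 4) :=
  {x | ‖x‖ = 1 ∧ ∀ w, ⟪x, w⟫ = 0 → fderiv ℝ g x w = 0}

/-- `F` restricted to `S³` induces a smooth embedding `ℝP³ = S³/± → Sⁿ ⊂ ℝⁿ⁺¹` that is spherically
substantial and taut: each distance function `L_p` with finitely many critical points has exactly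
`8` of them on `S³`, i.e. `4` on `ℝP³`. -/
structure TautRP3 (n : ℕ) (F : E 4 → E (n + 1)) : Prop where
  smooth : ContDiff ℝ ∞ F
  even : ∀ x, F (-x) = F x
  inj : ∀ x y, ‖x‖ = 1 → ‖y‖ = 1 → F x = F y → y = x ∨ y = -x
  imm : ∀ x w, ‖x‖ = 1 → ⟪x, w⟫ = 0 → fderiv ℝ F x w = 0 → w = 0
  sph : ∀ x, ‖x‖ = 1 → ‖F x‖ = 1
  subst : ∀ v c, (∀ x, ‖x‖ = 1 → ⟪v, F x⟫ = c) → v = 0
  taut : ∀ p, (crit fun x => ‖p - F x‖ ^ 2).Finite → (crit fun x => ‖p - F x‖ ^ 2).ncard = 8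

end Pool.Agent.H58.Taut
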