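import Mathlib

set_option autoImplicit false

namespace Pool.Agent.H58.ThetaPow
open MeasureTheory Set Filter

/-- the approximating function -/
noncomputable def rho (m : ℕ) : ℝ :=
  if m < 256 ^ (Nat.log 256 m) + 4 ^ (Nat.log 256 m) then (m : ℝ) / 4 ^ (Nat.log 256 m) else 0

lemma rho_nonneg (m : ℕ) : 0 ≤ rho m := by
  unfold rho; split_ifs <;> positivity

lemma rho_le (m : ℕ) : rho m ≤ m := by
  unfold rho; split_ifs
  · exact div_le_self (Nat.cast_nonneg _) (one_le_pow₀ (by norm_num))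
  · exact Nat.cast_nonneg _

lemma sum_block (J : ℕ) : (J : ℝ) ≤ ∑ m ∈ Finset.range (256 ^ J), rho m / m := by
  induction J with
  | zero => simp
  | succ J ih =>
    have h4 : 4 ^ J ≤ 256 ^ J := Nat.pow_le_pow_left (by norm_num) J
    have h1 : 256 ^ J + 4 ^ J ≤ 256 ^ (J + 1) := by rw [pow_succ]; omega
    have h2 : ∑ m ∈ Finset.range (256 ^ J + 4 ^ J), rho m / m ≤ ∑ m ∈ Finset.range (256 ^ (J + 1)), rho m / m :=
      Finset.sum_le_sum_of_subset_of_nonneg (Finset.range_mono h1)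
        (fun m _ _ => div_nonneg (rho_nonneg m) (Nat.cast_nonneg m))
    rw [Finset.sum_range_add] at h2
    have h3 : ∀ x ∈ Finset.range (4 ^ J), rho (256 ^ J + x) / ((256 ^ J + x : ℕ) : ℝ) = 1 / 4 ^ J := by
      intro x hx
      have hx' := Finset.mem_range.mp hx
      have hl : Nat.log 256 (256 ^ J + x) = J :=
        Nat.log_eq_of_pow_le_of_lt_pow (by omega) (by omega)
      unfold rho
      rw [hl, if_pos (by omega)]
      have : ((256 ^ J + x : ℕ) : ℝ) ≠ 0 := by positivity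
      field_simp
    rw [Finset.sum_congr rfl h3] at h2
    simp only [Finset.sum_const, Finset.card_range, nsmul_eq_mul] at h2
    have : ((4 ^ J : ℕ) : ℝ) * (1 / 4 ^ J) = 1 := by push_cast; field_simp
    push_cast at *
    linarith

lemma tendsto_sum : Tendsto (fun M : ℕ => ∑ m ∈ Finset.Icc 1 M, rho m / m) atTop atTop := by
  have hmono : Monotone (fun M : ℕ => ∑ m ∈ Finset.Icc 1 M, rho m / m) := by
    intro a b hab
    exact Finset.sum_le_sum_of_subset_of_nonneg (Finset.Icc_subset_Icc_right hab)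
      (fun m _ _ => div_nonneg (rho_nonneg m) (Nat.cast_nonneg m))
  apply tendsto_atTop_atTop_of_monotone hmono
  intro b
  obtain ⟨J, hJ⟩ := exists_nat_ge b
  refine ⟨256 ^ J, hJ.trans ((sum_block J).trans ?_)⟩
  have : ∑ m ∈ Finset.range (256 ^ J), rho m / m ≤ ∑ m ∈ insert 0 (Finset.Icc 1 (256 ^ J)), rho m / m := by
    apply Finset.sum_le_sum_of_subset_of_nonneg _
      (fun m _ _ => div_nonneg (rho_nonneg m) (Nat.cast_nonneg m))
    intro m hm
    simp only [Finset.mem_range, Finset.mem_insert, Finset.mem_Icc] at hm ⊢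
    omega
  rw [Finset.sum_insert (by simp)] at this
  simpa using this

/-- the bad sets -/
def A (j : ℕ) : Set ℝ :=
  {θ | 1 / 4 ≤ θ ∧ θ ≤ 3 / 8 ∧ ∃ b : ℕ, |((256 : ℝ) ^ (j + 1)) ^ θ - b| ≤ 2 / 4 ^ (j + 1)}

lemma pow_lower (j : ℕ) {θ : ℝ} (h : 1 / 4 ≤ θ) : (4 : ℝ) ^ j ≤ ((256 : ℝ) ^ j) ^ θ := by
  have h1 : (256 : ℝ) ^ j = ((4 : ℝ) ^ j) ^ (4 : ℝ) := by
    rw [show (4 : ℝ) = ((4 : ℕ) : ℝ) by norm_num, Real.rpow_natCast, ← pow_mul, mul_comm, pow_mul]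
    norm_num
  rw [h1, ← Real.rpow_mul (by positivity)]
  calc (4 : ℝ) ^ j = ((4 : ℝ) ^ j) ^ (1 : ℝ) := by simp
    _ ≤ _ := Real.rpow_le_rpow_of_exponent_le (one_le_pow₀ (by norm_num)) (by linarith)

lemma pow_upper (j : ℕ) {θ : ℝ} (h : θ ≤ 3 / 8) : ((256 : ℝ) ^ j) ^ θ ≤ (8 : ℝ) ^ j := by
  have h1 : (256 : ℝ) ^ j = ((2 : ℝ) ^ j) ^ ((8 : ℕ) : ℝ) := by
    rw [Real.rpow_natCast, ← pow_mul, mul_comm, pow_mul]
    norm_num
  have h2 : (8 : ℝ) ^ j = ((2 : ℝ) ^ j) ^ ((3 : ℕ) : ℝ) := by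
    rw [Real.rpow_natCast, ← pow_mul, mul_comm, pow_mul]
    norm_num
  rw [h1, h2, ← Real.rpow_mul (by positivity)]
  exact Real.rpow_le_rpow_of_exponent_le (one_le_pow₀ (by norm_num)) (by push_cast; linarith)

lemma sep (j : ℕ) {x y : ℝ} (hx : 1 / 4 ≤ x) (hxy : x ≤ y) :
    (4 : ℝ) ^ (j + 1) * (y - x) ≤ ((256 : ℝ) ^ (j + 1)) ^ y - ((256 : ℝ) ^ (j + 1)) ^ x := by
  set N : ℝ := (256 : ℝ) ^ (j + 1) with hN
  have hN256 : (256 : ℝ) ≤ N := by
    rw [hN, pow_succ]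
    have : (1 : ℝ) ≤ 256 ^ j := one_le_pow₀ (by norm_num)
    linarith
  have hN0 : 0 < N := by linarith
  have hl : 1 ≤ Real.log N := by
    rw [Real.le_log_iff_exp_le hN0]
    have := Real.exp_one_lt_d9
    linarith
  have h1 : N ^ y = N ^ x * N ^ (y - x) := by rw [← Real.rpow_add hN0]; ring_nf
  have h2 : 1 + (y - x) ≤ N ^ (y - x) := by
    rw [Real.rpow_def_of_pos hN0]
    have := Real.add_one_le_exp (Real.log N * (y - x))
    nlinarith
  have h3 := pow_lower (j + 1) hx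
  rw [h1]
  have h4 : 0 ≤ y - x := by linarith
  nlinarith [mul_le_mul_of_nonneg_left h2 (Real.rpow_nonneg hN0.le x), mul_le_mul_of_nonneg_right h3 h4]

lemma volume_A (j : ℕ) : volume (A j) ≤ ENNReal.ofReal (16 * (1 / 2) ^ j) := by
  set S : ℕ → Set ℝ := fun b =>
    {θ | 1 / 4 ≤ θ ∧ |((256 : ℝ) ^ (j + 1)) ^ θ - b| ≤ 2 / 4 ^ (j + 1)} with hS
  have h4 : (1 : ℝ) ≤ 4 ^ (j + 1) := one_le_pow₀ (by norm_num)
  have h8 : (1 : ℝ) ≤ 8 ^ (j + 1) := one_le_pow₀ (by norm_num)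
  have hsub : A j ⊆ ⋃ b ∈ Finset.range (4 * 8 ^ (j + 1)), S b := by
    rintro θ ⟨h1, h2, b, hb⟩
    simp only [mem_iUnion, Finset.mem_range]
    refine ⟨b, ?_, h1, hb⟩
    have a1 := pow_upper (j + 1) h2
    have a2 : (2 : ℝ) / 4 ^ (j + 1) ≤ 2 := div_le_self (by norm_num) h4
    have a3 := (abs_le.mp hb).1
    have : (b : ℝ) < 4 * 8 ^ (j + 1) := by linarith
    exact_mod_cast this
  have hd : ∀ b, volume (S b) ≤ ENNReal.ofReal (4 / 16 ^ (j + 1)) := by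
    intro b
    refine (Real.volume_le_diam _).trans (Metric.ediam_le ?_)
    have key : ∀ x ∈ S b, ∀ y ∈ S b, x ≤ y → y - x ≤ 4 / 16 ^ (j + 1) := by
      rintro x ⟨hx, hx'⟩ y ⟨_, hy'⟩ hxy
      have a1 := sep j hx hxy
      have a2 := (abs_le.mp hx').1
      have a3 := (abs_le.mp hy').2
      have a4 : (4 : ℝ) ^ (j + 1) * (y - x) ≤ 4 / 4 ^ (j + 1) := by
        have : (4 : ℝ) / 4 ^ (j + 1) = 2 / 4 ^ (j + 1) + 2 / 4 ^ (j + 1) := by ring
        linarith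
      have e : (16 : ℝ) ^ (j + 1) = 4 ^ (j + 1) * 4 ^ (j + 1) := by rw [← mul_pow]; norm_num
      rw [e, le_div_iff₀ (by positivity)]
      rw [le_div_iff₀ (by positivity)] at a4
      linarith
    intro x hx y hy
    rw [edist_dist]
    apply ENNReal.ofReal_le_ofReal
    rw [Real.dist_eq]
    rcases le_total x y with h | h
    · rw [abs_sub_comm, abs_of_nonneg (by linarith)]; exact key x hx y hy h
    · rw [abs_of_nonneg (by linarith)]; exact key y hy x hx h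
  refine (measure_mono hsub).trans ((measure_biUnion_finset_le _ _).trans ?_)
  refine (Finset.sum_le_sum (fun b _ => hd b)).trans ?_
  rw [Finset.sum_const, Finset.card_range, nsmul_eq_mul, ← ENNReal.ofReal_natCast,
    ← ENNReal.ofReal_mul (Nat.cast_nonneg _)]
  apply ENNReal.ofReal_le_ofReal
  have e : (16 : ℝ) ^ (j + 1) = 8 ^ (j + 1) * 2 ^ (j + 1) := by rw [← mul_pow]; norm_num
  push_cast
  rw [e, one_div_pow]
  have h2 : (0 : ℝ) < 2 ^ j := by positivity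
  have : (4 : ℝ) * 8 ^ (j + 1) * (4 / (8 ^ (j + 1) * 2 ^ (j + 1))) = 8 * (1 / 2 ^ j) := by
    field_simp; ring
  rw [this]
  gcongr; norm_num

lemma ae_A : ∀ᵐ θ : ℝ, ∀ᶠ j in atTop, θ ∉ A j := by
  apply ae_eventually_notMem
  have hs : Summable (fun j : ℕ => (16 : ℝ) * (1 / 2) ^ j) := summable_geometric_two.mul_left 16
  refine ne_top_of_le_ne_top ?_ (ENNReal.tsum_le_tsum volume_A)
  rw [← ENNReal.ofReal_tsum_of_nonneg (fun j => by positivity) hs]
  exact ENNReal.ofReal_ne_top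

lemma ae_C : ∀ᵐ θ : ℝ, ∀ x : ℕ × ℕ, 2 ≤ x.1 → (x.1 : ℝ) ^ θ ≠ x.2 := by
  rw [ae_all_iff]
  rintro ⟨m, b⟩
  have : ∀ᵐ θ : ℝ, θ ≠ Real.log b / Real.log m := Measure.ae_ne volume _
  filter_upwards [this] with θ hθ hm h
  apply hθ
  have hm' : (2 : ℝ) ≤ m := by exact_mod_cast hm
  have hl : 0 < Real.log m := Real.log_pos (by linarith)
  rw [← h, Real.log_rpow (by linarith)]
  field_simp

lemma finite_sol {θ : ℝ} (h1 : 1 / 4 ≤ θ) (h2 : θ ≤ 3 / 8) (hA : ∀ᶠ j in atTop, θ ∉ A j)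
    (hC : ∀ x : ℕ × ℕ, 2 ≤ x.1 → (x.1 : ℝ) ^ θ ≠ x.2) :
    ∃ B : ℕ, ∀ a b : ℕ, 1 ≤ a → |(a : ℝ) ^ θ - b| ≤ rho a / a → a ≤ B ∧ b ≤ B := by
  obtain ⟨J, hJ⟩ := eventually_atTop.mp hA
  refine ⟨256 ^ (J + 1) + 1, fun a b ha hab => ?_⟩
  have ha' : (1 : ℝ) ≤ a := by exact_mod_cast ha
  have hlt : a < 256 ^ (J + 1) := by
    by_contra hge
    push Not at hge
    have hl : J + 1 ≤ Nat.log 256 a := Nat.le_log_of_pow_le (by norm_num) hge
    obtain ⟨j, hj⟩ : ∃ j, Nat.log 256 a = j + 1 := ⟨Nat.log 256 a - 1, by omega⟩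
    have hlow : 256 ^ (j + 1) ≤ a := by rw [← hj]; exact Nat.pow_log_le_self 256 (by omega)
    unfold rho at hab
    rw [hj] at hab
    split_ifs at hab with hin
    · apply hJ j (by omega)
      refine ⟨h1, h2, b, ?_⟩
      set N : ℝ := (256 : ℝ) ^ (j + 1) with hN
      have hN0 : 0 < N := by positivity
      have hlow' : N ≤ a := by rw [hN]; exact_mod_cast hlow
      have hin' : (a : ℝ) ≤ N + 4 ^ (j + 1) := by rw [hN]; exact_mod_cast hin.le
      have e : (a : ℝ) / 4 ^ (j + 1) / a = 1 / 4 ^ (j + 1) := by field_simp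
      rw [e] at hab
      have b1 : N ^ θ ≤ (a : ℝ) ^ θ := Real.rpow_le_rpow hN0.le hlow' (by linarith)
      have b2 : (a : ℝ) ^ θ ≤ N ^ θ * (a / N) := by
        have c1 : (a : ℝ) = N * (a / N) := by field_simp
        have c2 : 1 ≤ (a : ℝ) / N := by rw [le_div_iff₀ hN0]; linarith
        nth_rewrite 1 [c1]
        rw [Real.mul_rpow hN0.le (by linarith)]
        apply mul_le_mul_of_nonneg_left _ (Real.rpow_nonneg hN0.le _)
        calc ((a : ℝ) / N) ^ θ ≤ ((a : ℝ) / N) ^ (1 : ℝ) :=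
              Real.rpow_le_rpow_of_exponent_le c2 (by linarith)
          _ = _ := Real.rpow_one _
      have b3 : N ^ θ ≤ 8 ^ (j + 1) := pow_upper (j + 1) h2
      have b4 : N ^ θ * (a / N) - N ^ θ ≤ 1 / 4 ^ (j + 1) := by
        have c1 : N ^ θ * (a / N) - N ^ θ = N ^ θ * (a - N) / N := by field_simp
        rw [c1, div_le_div_iff₀ hN0 (by positivity), one_mul]
        have c2 : N ^ θ * (a - N) ≤ 8 ^ (j + 1) * 4 ^ (j + 1) :=
          mul_le_mul b3 (by linarith) (by linarith) (by positivity)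
        calc N ^ θ * (a - N) * 4 ^ (j + 1) ≤ 8 ^ (j + 1) * 4 ^ (j + 1) * 4 ^ (j + 1) := by gcongr
          _ = 128 ^ (j + 1) := by rw [← mul_pow, ← mul_pow]; norm_num
          _ ≤ N := by rw [hN]; gcongr; norm_num
      have b5 := abs_le.mp hab
      have : (2 : ℝ) / 4 ^ (j + 1) = 1 / 4 ^ (j + 1) + 1 / 4 ^ (j + 1) := by ring
      rw [abs_le]
      constructor <;> linarith [b5.1, b5.2]
    · have h256 : 256 ^ 1 ≤ 256 ^ (j + 1) := Nat.pow_le_pow_right (by norm_num) (by omega)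
      apply hC (a, b) (by simp only; omega)
      simp only [zero_div, abs_nonpos_iff] at hab
      simp only
      linarith
  refine ⟨by omega, ?_⟩
  have c1 : rho a / a ≤ 1 := by rw [div_le_one (by linarith)]; exact rho_le a
  have c2 : (a : ℝ) ^ θ ≤ a := by
    calc (a : ℝ) ^ θ ≤ (a : ℝ) ^ (1 : ℝ) := Real.rpow_le_rpow_of_exponent_le ha' (by linarith)
      _ = _ := Real.rpow_one _
  have c3 := (abs_le.mp hab).1
  have : (b : ℝ) ≤ a + 1 := by linarith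
  have : b ≤ a + 1 := by exact_mod_cast this
  omega

end Pool.Agent.H58.ThetaPow
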