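import Pool.Agent.H58.FirstVar

namespace Pool.Agent.H58.FirstVar
open MeasureTheory Set Filter Topology Pointwise

def tri (a c f : ℝ) : Set (ℝ × ℝ) := {p | -p.1 ≤ a ∧ -p.2 ≤ c ∧ p.1 + p.2 ≤ f}
def itri (b d e : ℝ) : Set (ℝ × ℝ) := {p | p.1 ≤ b ∧ p.2 ≤ d ∧ -(p.1 + p.2) ≤ e}
noncomputable def τ : ℝ := volume.real (tri 0 0 1)

lemma tri_meas (a c f : ℝ) : MeasurableSet (tri a c f) := by unfold tri; measurability
lemma itri_meas (a c f : ℝ) : MeasurableSet (itri a c f) := by unfold itri; measurability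

lemma tri_fin (a c f : ℝ) : volume (tri a c f) ≠ ⊤ :=
  ne_top_of_le_ne_top ((isCompact_Icc (a := (-a, -c)) (b := (f + c, f + a))).measure_ne_top)
    (measure_mono fun p ⟨h1, h2, h3⟩ => ⟨⟨by simp; linarith, by simp; linarith⟩,
      ⟨by simp; linarith, by simp; linarith⟩⟩)

lemma itri_eq (a c f : ℝ) : volume (itri a c f) = volume (tri a c f) := by
  rw [← Measure.measure_neg]; congr 1; ext p; simp [tri, itri, add_comm]

lemma tri_vol {a c f : ℝ} (h : 0 < a + c + f) : volume.real (tri a c f) = (a + c + f) ^ 2 * τ := by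
  have : tri a c f = (fun p => (a, c) + p) ⁻¹' ((a + c + f) • tri 0 0 1) := by
    ext p
    rw [mem_preimage, mem_smul_set_iff_inv_smul_mem₀ h.ne']
    simp only [tri, mem_ofPred_eq, Prod.smul_fst, Prod.smul_snd, Prod.fst_add, Prod.snd_add,
      smul_eq_mul, neg_nonpos, ← mul_add, inv_mul_le_iff₀ h, le_inv_mul_iff₀ h]
    constructor <;> rintro ⟨h1, h2, h3⟩ <;> refine ⟨?_, ?_, ?_⟩ <;> linarith
  rw [this, Measure.real, measure_preimage_add, Measure.addHaar_smul_of_nonneg _ h.le]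
  simp [τ, Measure.real, h.le]

lemma line (x y : ℝ) (q : ℝ × ℝ) (h : x ≠ 0 ∨ y ≠ 0) :
    volume {p : ℝ × ℝ | x * p.1 + y * p.2 = x * q.1 + y * q.2} = 0 := by
  let φ : ℝ × ℝ →ₗ[ℝ] ℝ := x • LinearMap.fst ℝ ℝ ℝ + y • LinearMap.snd ℝ ℝ ℝ
  have : {p : ℝ × ℝ | x * p.1 + y * p.2 = x * q.1 + y * q.2} =
      (fun p => -q + p) ⁻¹' (LinearMap.ker φ : Set (ℝ × ℝ)) := by
    ext p; simp [φ]; constructor <;> intro <;> linarith
  rw [this, measure_preimage_add]
  refine Measure.addHaar_submodule _ _ fun e => ?_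
  have h1 : φ (1, 0) = 0 := LinearMap.mem_ker.1 (e ▸ Submodule.mem_top)
  have h2 : φ (0, 1) = 0 := LinearMap.mem_ker.1 (e ▸ Submodule.mem_top)
  simp [φ] at h1 h2; tauto

lemma hex_vol {a c f b d e : ℝ} (h1 : 0 < -b + c + f) (h2 : 0 < a + -d + f) (h3 : 0 < a + c + -e)
    (h4 : 0 < b + d - f) (h5 : 0 < b + e - c) (h6 : 0 < d + e - a) :
    volume.real (tri a c f ∩ itri b d e) =
      ((a + c + f) ^ 2 - (-b + c + f) ^ 2 - (a + -d + f) ^ 2 - (a + c + -e) ^ 2) * τ := by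
  have e1 : tri a c f = (tri a c f ∩ itri b d e) ∪ (tri (-b) c f ∪ tri a (-d) f ∪ tri a c (-e)) := by
    ext p
    simp only [tri, itri, mem_union, mem_inter_iff, mem_ofPred_eq]
    constructor
    · rintro ⟨a1, a2, a3⟩
      by_cases b1 : p.1 ≤ b
      · by_cases b2 : p.2 ≤ d
        · by_cases b3 : -(p.1 + p.2) ≤ e
          · exact .inl ⟨⟨a1, a2, a3⟩, b1, b2, b3⟩
          · exact .inr (.inr ⟨a1, a2, by linarith⟩)
        · exact .inr (.inl (.inr ⟨a1, by linarith, a3⟩))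
      · exact .inr (.inl (.inl ⟨by linarith, a2, a3⟩))
    · rintro (⟨h, -⟩ | (⟨a1, a2, a3⟩ | ⟨a1, a2, a3⟩) | ⟨a1, a2, a3⟩)
      exacts [h, ⟨by linarith, a2, a3⟩, ⟨a1, by linarith, a3⟩, ⟨a1, a2, by linarith⟩]
  have d1 : AEDisjoint volume (tri a c f ∩ itri b d e)
      (tri (-b) c f ∪ tri a (-d) f ∪ tri a c (-e)) := by
    refine measure_mono_null ?_ (measure_union_null (measure_union_null
      (line 1 0 (b, 0) (by simp)) (line 0 1 (0, d) (by simp))) (line 1 1 (-e, 0) (by simp)))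
    rintro p ⟨⟨-, b1, b2, b3⟩, (⟨a1, -, -⟩ | ⟨-, a1, -⟩) | ⟨-, -, a1⟩⟩
    · exact .inl (.inl (by simp; linarith))
    · exact .inl (.inr (by simp; linarith))
    · exact .inr (by simp; linarith)
  have e2 := tri_vol (a := a) (c := c) (f := f) (by linarith)
  have m := tri_meas
  have fi := tri_fin
  rw [e1, measureReal_union₀ (((m ..).union (m ..)).union (m ..)).nullMeasurableSet d1
    (ne_top_of_le_ne_top (fi _ _ _) (measure_mono inter_subset_left))
    (measure_union_ne_top (measure_union_ne_top (fi _ _ _) (fi _ _ _)) (fi _ _ _)),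
    measureReal_union _ (m ..) (measure_union_ne_top (fi _ _ _) (fi _ _ _)) (fi _ _ _),
    measureReal_union _ (m ..) (fi _ _ _) (fi _ _ _), tri_vol h1, tri_vol h2, tri_vol h3] at e2
  · linarith
  · exact disjoint_left.2 fun p ⟨a1, a2, a3⟩ ⟨b1, b2, b3⟩ => by linarith
  · refine disjoint_left.2 ?_
    rintro p (⟨a1, a2, a3⟩ | ⟨a1, a2, a3⟩) ⟨b1, b2, b3⟩ <;> linarith

abbrev E4 := EuclideanSpace ℝ (Fin 4)

lemma vol_prod {A B : Set (ℝ × ℝ)} (hA : MeasurableSet A) (hB : MeasurableSet B) :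
    volume {x : E4 | (x 0, x 1) ∈ A ∧ (x 2, x 3) ∈ B} = volume A * volume B := by
  have h := ((((volume_preserving_finTwoArrow ℝ).prod (volume_preserving_finTwoArrow ℝ)).comp
    (volume_measurePreserving_sumPiEquivProdPi fun _ : Fin 2 ⊕ Fin 2 => ℝ)).comp
    (volume_measurePreserving_piCongrLeft (fun _ : Fin 4 => ℝ)
      (finSumFinEquiv (m := 2) (n := 2))).symm).comp (PiLp.volume_preserving_ofLp (Fin 4))
  rw [← Measure.prod_prod, ← h.measure_preimage (hA.prod hB).nullMeasurableSet]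
  rfl

end Pool.Agent.H58.FirstVar
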