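import Mathlib

namespace Pool.Agent.H58.TruncXi
open Complex Metric Set Filter Topology MeasureTheory

lemma dsl {f : ℂ → ℂ} {c : ℂ} {r M : ℝ} (hr : 0 < r) (hf : DifferentiableOn ℂ f (ball c r))
    (hM : ∀ z ∈ ball c r, ‖f z‖ ≤ M) :
    DifferentiableOn ℂ (dslope f c) (ball c r) ∧ ∀ z ∈ ball c r, ‖dslope f c z‖ ≤ 2 * M / r :=
  ⟨(differentiableOn_dslope (ball_mem_nhds c hr)).2 hf, fun z hz =>
    norm_dslope_le_div_of_mapsTo_ball hf (fun w hw => by
      rw [mem_closedBall, dist_eq_norm]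
      linarith [norm_sub_le (f w) (f c), hM w hw, hM c (mem_ball_self hr)]) hz⟩

lemma third {f : ℂ → ℂ} {c : ℂ} {r M h : ℝ} (hh : 0 < h) (hr : 16 * h ≤ r)
    (hf : DifferentiableOn ℂ f (ball c r)) (hM : ∀ z ∈ ball c r, ‖f z‖ ≤ M) :
    ‖f (c + 2 * h) - 3 * f (c + h) + 3 * f c - f (c - h)‖ ≤ 6 * h ^ 3 * (64 * M / r ^ 3) := by
  have r0 : 0 < r := by linarith
  obtain ⟨d1, b1⟩ := dsl r0 hf hM
  have s1 : ball (c + h) (r / 2) ⊆ ball c r := ball_subset_ball' (by
    simp [dist_eq_norm, abs_of_pos hh]; linarith)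
  obtain ⟨d2, b2⟩ := dsl (half_pos r0) (d1.mono s1) fun z hz => b1 z (s1 hz)
  have s2 : ball (c + 2 * h) (r / 4) ⊆ ball (c + h) (r / 2) := ball_subset_ball' (by
    rw [dist_eq_norm, show c + 2 * h - (c + h) = (h : ℂ) by ring]
    simp [abs_of_pos hh]; linarith)
  obtain ⟨-, b3⟩ := dsl (by linarith : 0 < r / 4) (d2.mono s2) fun z hz => b2 z (s2 hz)
  have hp : c - h ∈ ball (c + 2 * h) (r / 4) := by
    rw [mem_ball, dist_eq_norm, show c - h - (c + 2 * h) = ((-3 * h : ℝ) : ℂ) by push_cast; ring,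
      norm_real, Real.norm_eq_abs, abs_lt]
    constructor <;> linarith
  have b := b3 _ hp
  have e1 := sub_smul_dslope f c (c - h)
  have e2 := sub_smul_dslope f c (c + h)
  have e3 := sub_smul_dslope f c (c + 2 * h)
  have e4 := sub_smul_dslope (dslope f c) (c + h) (c - h)
  have e5 := sub_smul_dslope (dslope f c) (c + h) (c + 2 * h)
  have e6 := sub_smul_dslope (dslope (dslope f c) (c + h)) (c + 2 * h) (c - h)
  simp only [smul_eq_mul] at e1 e2 e3 e4 e5 e6
  have e : f (c + 2 * h) - 3 * f (c + h) + 3 * f c - f (c - h) =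
      ((6 * h ^ 3 : ℝ) : ℂ) * dslope (dslope (dslope f c) (c + h)) (c + 2 * h) (c - h) := by
    push_cast
    linear_combination e1 + 3 * e2 - e3 - h * e4 - 2 * h * e5 + 2 * h ^ 2 * e6
  rw [e, norm_mul, norm_real, Real.norm_eq_abs, abs_of_pos (by positivity)]
  gcongr
  refine b.trans (le_of_eq ?_)
  field_simp; ring

noncomputable def H (φ : ℝ → ℝ) (R : ℝ) (z : ℂ) : ℂ := ∫ t in (0 : ℝ)..R, (φ t : ℂ) * cos (z * t)

lemma ncos (z : ℂ) : ‖cos z‖ ≤ Real.exp |z.im| := by
  have h1 : ‖cexp (z * I)‖ ≤ Real.exp |z.im| := by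
    rw [norm_exp]; exact Real.exp_le_exp.2 (by simp [neg_le_abs])
  have h2 : ‖cexp (-z * I)‖ ≤ Real.exp |z.im| := by
    rw [norm_exp]; exact Real.exp_le_exp.2 (by simp [le_abs_self])
  rw [Complex.cos, norm_div, RCLike.norm_ofNat]
  linarith [norm_add_le (cexp (z * I)) (cexp (-z * I))]

lemma nsin (z : ℂ) : ‖sin z‖ ≤ Real.exp |z.im| := by
  rw [← cos_sub_pi_div_two]
  simpa using ncos (z - Real.pi / 2)

lemma H_diff {φ : ℝ → ℝ} (hφ : Continuous φ) (R : ℝ) : Differentiable ℂ (H φ R) := by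
  intro w₀
  refine (intervalIntegral.hasDerivAt_integral_of_dominated_loc_of_deriv_le (μ := volume)
    (F := fun w s => (φ s : ℂ) * cos (w * s)) (F' := fun w s => (φ s : ℂ) * (-sin (w * s) * s))
    (bound := fun s => ‖φ s‖ * (Real.exp ((‖w₀‖ + 1) * |s|) * |s|))
    (Metric.ball_mem_nhds w₀ one_pos) (Eventually.of_forall fun w => ?_) ?_ ?_
    (Eventually.of_forall fun s _ w hw => ?_) ?_
    (Eventually.of_forall fun s _ w _ => ?_)).2.differentiableAt
  · exact Continuous.aestronglyMeasurable (by fun_prop)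
  · exact Continuous.intervalIntegrable (by fun_prop) _ _
  · exact Continuous.aestronglyMeasurable (by fun_prop)
  · rw [norm_mul, norm_mul, norm_neg, norm_real, norm_real, Real.norm_eq_abs s]
    gcongr
    refine (nsin _).trans (Real.exp_le_exp.2 ((abs_im_le_norm _).trans ?_))
    rw [norm_mul, norm_real, Real.norm_eq_abs]
    gcongr
    linarith [mem_ball_iff_norm.1 hw, norm_sub_norm_le w w₀]
  · exact Continuous.intervalIntegrable (by fun_prop) _ _
  · simpa using (((hasDerivAt_id w).mul_const (s : ℂ)).ccos).const_mul (φ s : ℂ)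

lemma H_le {φ : ℝ → ℝ} {R B : ℝ} (hR : 0 ≤ R) (z : ℂ)
    (h : ∀ t ∈ Icc 0 R, |φ t| * Real.exp (|z.im| * t) ≤ B) : ‖H φ R z‖ ≤ B * R := by
  unfold H
  refine (intervalIntegral.norm_integral_le_of_norm_le_const fun t ht => ?_).trans
    (le_of_eq (by rw [sub_zero, abs_of_nonneg hR]))
  rw [uIoc_of_le hR] at ht
  refine le_trans ?_ (h t ⟨ht.1.le, ht.2⟩)
  rw [norm_mul, norm_real, Real.norm_eq_abs]
  gcongr
  refine (ncos _).trans (le_of_eq ?_)
  simp [abs_mul, abs_of_pos ht.1]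

lemma H_im {φ : ℝ → ℝ} (R y : ℝ) :
    H φ R (y * I) = ((∫ t in (0 : ℝ)..R, φ t * Real.cosh (y * t) : ℝ) : ℂ) := by
  unfold H
  rw [← intervalIntegral.integral_ofReal]
  refine intervalIntegral.integral_congr fun t _ => ?_
  rw [mul_right_comm, cos_mul_I]; push_cast; rfl

lemma H_ge {φ : ℝ → ℝ} (hφ : Continuous φ) (h0 : ∀ t, 0 ≤ t → 0 ≤ φ t) {R y a b B : ℝ}
    (ha : 0 ≤ a) (hab : a ≤ b) (hb : b ≤ R)
    (h : ∀ t ∈ Icc a b, B ≤ φ t * Real.cosh (y * t)) : B * (b - a) ≤ ‖H φ R (y * I)‖ := by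
  rw [H_im, norm_real, Real.norm_eq_abs]
  refine le_trans ?_ (le_abs_self _)
  have hc : Continuous fun t => φ t * Real.cosh (y * t) := by fun_prop
  calc B * (b - a) = ∫ _ in a..b, B := by simp [mul_comm]
    _ ≤ ∫ t in a..b, φ t * Real.cosh (y * t) :=
      intervalIntegral.integral_mono_on hab (by simp) (hc.intervalIntegrable _ _) h
    _ ≤ _ := by
      refine intervalIntegral.integral_mono_interval ha hab hb ?_ (hc.intervalIntegrable _ _)
      refine (ae_restrict_iff' measurableSet_Ioc).2 (Eventually.of_forall fun t ht => ?_)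
      exact mul_nonneg (h0 t ht.1.le) (Real.cosh_pos _).le


lemma core {g : ℂ → ℂ} {c ρ A R δ h : ℝ} (hρ : 0 < ρ) (hρ1 : ρ ≤ 1) (hδ : δ ≤ 1)
    (hh : h = ρ ^ 3 / 20000000) (hd : δ = h ^ 2 / 8192)
    (hg : DifferentiableOn ℂ g (ball (c : ℂ) ρ)) (h0 : ∀ w ∈ ball (c : ℂ) ρ, g w ≠ 0)
    (u1 : ∀ w ∈ ball (c : ℂ) ρ, Real.log ‖g w‖ / A - R * w.re ≤ δ)
    (u2 : ∀ η : ℝ, c ≤ η → η ≤ c + 1 → |Real.log ‖g η‖ / A - R * η + Real.pi| ≤ δ)
    (u3 : -Real.pi + h ^ 2 / 256 - δ ≤ Real.log ‖g (c - h : ℝ)‖ / A - R * (c - h)) : False := by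
  obtain ⟨F, hF, hre⟩ := InnerProductSpace.HarmonicOnNhd.exists_analyticOnNhd_ball_re_eq
    (f := fun w => Real.log ‖g w‖) (z := c) (R := ρ) fun w hw =>
      (hg.analyticAt (isOpen_ball.mem_nhds hw)).harmonicAt_log_norm (h0 w hw)
  have hre' : ∀ w ∈ ball (c : ℂ) ρ, (F w).re = Real.log ‖g w‖ := fun w hw => hre hw
  have r3 : ρ ^ 3 ≤ ρ := pow_le_of_le_one hρ.le hρ1 (by norm_num)
  have h0' : 0 < h := by rw [hh]; positivity
  have hρh : 32 * h ≤ ρ := by rw [hh]; nlinarith [pow_pos hρ 3]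
  set f : ℂ → ℂ := fun w => (F w - F c) / A - R * (w - c) with hf
  have fd : DifferentiableOn ℂ f (ball (c : ℂ) ρ) :=
    ((hF.differentiableOn.sub_const _).div_const _).sub (by fun_prop)
  have fre : ∀ w ∈ ball (c : ℂ) ρ, (f w).re =
      (Real.log ‖g w‖ / A - R * w.re) - (Real.log ‖g c‖ / A - R * c) := fun w hw => by
    simp only [hf, sub_re, div_ofReal_re, re_ofReal_mul, ofReal_re, hre' w hw,
      hre' c (mem_ball_self hρ)]
    ring
  have v0 := abs_le.1 (u2 c le_rfl (by linarith))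
  have v1 := abs_le.1 (u2 (c + h) (by linarith) (by linarith))
  have v2 := abs_le.1 (u2 (c + 2 * h) (by linarith) (by linarith))
  have mb : ∀ z ∈ ball (0 : ℂ) ρ, c + z ∈ ball (c : ℂ) ρ := fun z hz => by simpa using hz
  have fb : ∀ w ∈ ball (c : ℂ) (ρ / 2), ‖f w‖ ≤ 12 := fun w hw => by
    rw [mem_ball_iff_norm] at hw
    have := borelCaratheodory_zero (f := fun z => f (c + z)) (M := 6) (R := ρ) (z := w - c)
      (by norm_num) (fd.comp (by fun_prop) mb) (fun z hz => by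
        have := u1 _ (mb z hz)
        show (f (c + z)).re ≤ 6
        rw [fre _ (mb z hz)]
        linarith [Real.pi_le_four]) hρ (by rw [mem_ball_zero_iff]; linarith) (by simp [hf])
    rw [add_sub_cancel] at this
    refine this.trans ?_
    rw [div_le_iff₀ (by linarith)]
    linarith
  have t := third (c := c) h0' (by linarith : 16 * h ≤ ρ / 2)
    (fd.mono (ball_subset_ball (by linarith))) fb
  have mr : ∀ x : ℝ, |x - c| < ρ → (x : ℂ) ∈ ball (c : ℂ) ρ := fun x hx => by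
    rwa [mem_ball_iff_norm, ← ofReal_sub, norm_real]
  have w1 := fre _ (mr (c + h) (by rw [abs_lt]; constructor <;> linarith))
  have w2 := fre _ (mr (c + 2 * h) (by rw [abs_lt]; constructor <;> linarith))
  have w3 := fre _ (mr (c - h) (by rw [abs_lt]; constructor <;> linarith))
  have w0 := fre _ (mem_ball_self hρ)
  have t2 := (abs_le.1 ((abs_re_le_norm _).trans t)).1
  have e : 6 * h ^ 3 * (64 * 12 / (ρ / 2) ^ 3) = h ^ 2 * (36864 / 20000000) := by
    rw [hh]; field_simp; ring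
  rw [e] at t2
  simp only [ofReal_re] at w0 w1 w2 w3
  push_cast at w1 w2 w3 v1 v2 u3
  simp only [sub_re, add_re, mul_re, re_ofNat, im_ofNat, zero_mul, sub_zero, w0, w1, w2, w3] at t2
  nlinarith [pow_pos h0' 2]

lemma expneg {x : ℝ} (hx : 0 ≤ x) : Real.exp (-x) ≤ 1 - x + x ^ 2 := by
  rw [Real.exp_neg, inv_le_iff_one_le_mul₀ (Real.exp_pos _)]
  have h1 : 0 ≤ 1 - x + x ^ 2 := by nlinarith [sq_nonneg (x - 1)]
  nlinarith [mul_le_mul_of_nonneg_left (Real.add_one_le_exp x) h1, pow_nonneg hx 3]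

theorem main {φ : ℝ → ℝ} (hφ : Continuous φ) {C : ℝ}
    (lo : ∀ t, 0 ≤ t → Real.exp (-(Real.pi * Real.exp (4 * t))) ≤ φ t)
    (up : ∀ t, 0 ≤ t → φ t ≤ C * Real.exp (9 * t) * Real.exp (-(Real.pi * Real.exp (4 * t))))
    {ε : ℝ} (hε : 0 < ε) : ∀ᶠ R : ℝ in atTop, ∃ z, H φ R z = 0 ∧
      ‖z - 4 * Real.pi * Real.exp (4 * R) * I‖ < ε * Real.exp (4 * R) := by
  obtain ⟨ρ, hρ, hρ1, hρε⟩ : ∃ ρ, 0 < ρ ∧ ρ ≤ 1 ∧ ρ ≤ ε :=
    ⟨min 1 ε, lt_min one_pos hε, min_le_left _ _, min_le_right _ _⟩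
  obtain ⟨h, hh⟩ : ∃ h, h = ρ ^ 3 / 20000000 := ⟨_, rfl⟩
  obtain ⟨δ, hd⟩ : ∃ δ, δ = h ^ 2 / 8192 := ⟨_, rfl⟩
  have r3 : ρ ^ 3 ≤ ρ := pow_le_of_le_one hρ.le hρ1 (by norm_num)
  have h0 : 0 < h := by rw [hh]; positivity
  have h1 : h ≤ 1 := by rw [hh]; nlinarith [pow_pos hρ 3]
  have d0 : 0 < δ := by rw [hd]; positivity
  have d1 : δ ≤ 1 := by rw [hd]; nlinarith
  have p0 : ∀ t, 0 ≤ t → 0 ≤ φ t := fun t ht => (Real.exp_pos _).le.trans (lo t ht)
  have C0 : 0 < C := by
    have := (Real.exp_pos _).trans_le ((lo 0 le_rfl).trans (up 0 le_rfl))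
    exact pos_of_mul_pos_left (pos_of_mul_pos_left this (Real.exp_pos _).le) (Real.exp_pos _).le
  obtain ⟨D, hD⟩ : ∃ D, D = C + 2 * Real.exp 17 := ⟨_, rfl⟩
  have pi3 := Real.pi_gt_three
  have pi4 := Real.pi_le_four
  filter_upwards [eventually_ge_atTop 2, (Real.tendsto_exp_atTop.comp
    (tendsto_id.const_mul_atTop two_pos)).eventually_ge_atTop (6 * D / δ ^ 3)] with R hR hD2
  obtain ⟨A, hA⟩ : ∃ A, A = Real.exp (4 * R) := ⟨_, rfl⟩
  have A1 : 1 ≤ A := by rw [hA]; exact Real.one_le_exp (by linarith)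
  have A0 : 0 < A := by linarith
  have big : D * Real.exp (10 * R) ≤ Real.exp (δ * A) := by
    have a := Real.pow_div_factorial_le_exp (δ * A) (by positivity) 3
    refine le_trans ?_ a
    have e : A ^ 3 = Real.exp (2 * R) * Real.exp (10 * R) := by
      rw [hA, ← Real.exp_nat_mul, ← Real.exp_add]; congr 1; push_cast; ring
    simp only [Function.comp, id] at hD2
    rw [div_le_iff₀ (by positivity)] at hD2
    rw [mul_pow, e, le_div_iff₀ (by positivity)]
    simp only [Nat.factorial, Nat.succ_eq_add_one]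
    push_cast
    nlinarith [Real.exp_pos (10 * R)]
  have big1 : C * Real.exp (9 * R) * R ≤ Real.exp (δ * A) := by
    refine le_trans ?_ big
    rw [show 10 * R = 9 * R + R by ring, Real.exp_add, ← mul_assoc]
    gcongr
    · rw [hD]; positivity
    · rw [hD]; linarith [Real.exp_pos 17]
    · linarith [Real.add_one_le_exp R]
  have big2 : 2 * Real.exp 17 * A ≤ Real.exp (δ * A) := by
    refine le_trans ?_ big
    rw [hA]
    gcongr
    · rw [hD]; positivity
    · rw [hD]; linarith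
    · norm_num
  have low : ∀ η s : ℝ, 0 ≤ η → η ≤ 17 → 0 ≤ s → s ≤ 1 →
      Real.exp (A * (R * η - Real.pi * Real.exp (-(4 * s)) - η * s - δ)) ≤
        ‖H φ R (η * A * I)‖ := by
    intro η s η0 η1 s0 s1
    have iA : 1 / A ≤ 1 := by rw [div_le_one A0]; exact A1
    have iA0 : 0 < 1 / A := by positivity
    have := H_ge hφ p0 (R := R) (y := η * A) (a := R - s - 1 / A) (b := R - s)
      (B := Real.exp (A * (R * η - Real.pi * Real.exp (-(4 * s)) - η * s) - 17) / 2)
      (by linarith) (by linarith) (by linarith) fun t ht => by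
        have t0 : 0 ≤ t := by linarith [ht.1]
        have c1 : Real.exp (η * A * t) / 2 ≤ Real.cosh (η * A * t) := by
          rw [Real.cosh_eq]; linarith [Real.exp_pos (-(η * A * t))]
        refine le_trans ?_ (mul_le_mul (lo t t0) c1 (by positivity) (p0 t t0))
        rw [mul_div_assoc', ← Real.exp_add]
        gcongr
        have a1 : Real.exp (4 * t) ≤ A * Real.exp (-(4 * s)) := by
          rw [hA, ← Real.exp_add]; exact Real.exp_le_exp.2 (by linarith [ht.2])
        have a2 : η * A * (R - s - 1 / A) ≤ η * A * t :=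
          mul_le_mul_of_nonneg_left ht.1 (by positivity)
        have a3 : η * A * (R - s - 1 / A) = η * A * (R - s) - η := by field_simp
        nlinarith
    push_cast at this
    refine le_trans ?_ this
    rw [show R - s - (R - s - 1 / A) = 1 / A by ring, mul_sub A _ δ, Real.exp_sub, Real.exp_sub,
      div_div, div_mul_div_comm, mul_one, mul_comm A δ]
    gcongr
    linarith
  have lg : ∀ x y : ℝ, Real.exp (A * x) ≤ y → x ≤ Real.log y / A := fun x y hxy => by
    rw [le_div_iff₀ A0, mul_comm]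
    exact (Real.le_log_iff_exp_le ((Real.exp_pos _).trans_le hxy)).2 hxy
  have lg2 : ∀ x y : ℝ, 0 < y → y ≤ Real.exp (A * x) → Real.log y / A ≤ x := fun x y hy hxy => by
    rw [div_le_iff₀ A0, mul_comm]
    exact (Real.log_le_iff_le_exp hy).2 hxy
  have upp : ∀ (w : ℂ) (κ : ℝ), 0 ≤ w.re → (∀ t ∈ Icc 0 R,
      -(Real.pi * Real.exp (4 * t)) + w.re * A * t ≤ A * κ) →
      ‖H φ R (w * A * I)‖ ≤ Real.exp (A * (κ + δ)) := by
    intro w κ w0 hκ
    refine (H_le (B := C * Real.exp (9 * R) * Real.exp (A * κ)) (by linarith) _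
      fun t ht => ?_).trans ?_
    · rw [abs_of_nonneg (p0 t ht.1)]
      refine (mul_le_mul_of_nonneg_right (up t ht.1) (Real.exp_pos _).le).trans ?_
      rw [mul_assoc, ← Real.exp_add]
      gcongr
      · exact ht.2
      · refine le_trans (le_of_eq ?_) (hκ t ht)
        simp [abs_of_nonneg (mul_nonneg w0 A0.le)]
    · rw [mul_add, Real.exp_add, mul_right_comm, mul_comm (Real.exp _), mul_comm A δ]
      gcongr
  by_contra hcon
  push Not at hcon
  have nz : ∀ w ∈ ball ((4 * Real.pi : ℝ) : ℂ) ρ, H φ R (w * A * I) ≠ 0 := fun w hw h => by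
    have := hcon _ h
    rw [← hA, ← sub_mul, ← sub_mul, norm_mul, norm_mul, norm_I,
      mul_one, norm_real, Real.norm_eq_abs, abs_of_pos A0] at this
    rw [mem_ball_iff_norm] at hw
    push_cast at hw
    nlinarith
  refine core (g := fun w => H φ R (w * A * I)) (c := 4 * Real.pi) (A := A) (R := R) hρ hρ1 d1
    hh hd ((H_diff hφ R).comp (by fun_prop)).differentiableOn nz (fun w hw => ?_)
    (fun η e1 e2 => ?_) ?_
  · have w0 : 0 ≤ w.re := by
      have := (abs_re_le_norm _).trans_lt (mem_ball_iff_norm.1 hw)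
      simp only [sub_re, ofReal_re] at this
      linarith [(abs_lt.1 this).1]
    have := lg2 _ _ (norm_pos_iff.2 (nz w hw)) (upp w (R * w.re) w0 fun t ht => by
      have : w.re * A * t ≤ w.re * A * R := mul_le_mul_of_nonneg_left ht.2 (by positivity)
      nlinarith [Real.exp_pos (4 * t)])
    linarith
  · have a := low η 0 (by linarith) (by linarith) le_rfl zero_le_one
    have b := lg _ _ a
    have c := lg2 _ _ ((Real.exp_pos _).trans_le a) (upp η (R * η - Real.pi)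
      (by simp only [ofReal_re]; linarith) fun t ht => by
        simp only [ofReal_re]
        have a1 : A * (1 - 4 * (R - t)) ≤ Real.exp (4 * t) := by
          rw [show 4 * t = 4 * R + -(4 * (R - t)) by ring, Real.exp_add, ← hA]
          gcongr
          linarith [Real.add_one_le_exp (-(4 * (R - t)))]
        have a2 : 0 ≤ (η - 4 * Real.pi) * A * (R - t) :=
          mul_nonneg (mul_nonneg (by linarith) A0.le) (by linarith [ht.2])
        nlinarith)
    simp only [mul_zero, neg_zero, Real.exp_zero] at b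
    rw [abs_le]; constructor <;> linarith
  · have b := lg _ _ (low (4 * Real.pi - h) (h / 128) (by linarith) (by linarith) (by positivity)
      (by linarith))
    have c := expneg (x := 4 * (h / 128)) (by positivity)
    have := mul_le_mul_of_nonneg_left c Real.pi_pos.le
    nlinarith [pow_pos h0 2]


noncomputable def term (n : ℕ) (t : ℝ) : ℝ :=
  (2 * Real.pi ^ 2 * ((n : ℝ) + 1) ^ 4 * Real.exp (9 * t) -
    3 * Real.pi * ((n : ℝ) + 1) ^ 2 * Real.exp (5 * t)) *
      Real.exp (-Real.pi * ((n : ℝ) + 1) ^ 2 * Real.exp (4 * t))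

lemma term_ge (n : ℕ) {t : ℝ} (ht : 0 ≤ t) :
    Real.exp (-Real.pi * ((n : ℝ) + 1) ^ 2 * Real.exp (4 * t)) ≤ term n t := by
  refine le_mul_of_one_le_left (Real.exp_pos _).le ?_
  have pi3 := Real.pi_gt_three
  have a : 1 ≤ Real.exp (4 * t) := Real.one_le_exp (by linarith)
  have b : 1 ≤ Real.exp (5 * t) := Real.one_le_exp (by linarith)
  have c : 1 ≤ ((n : ℝ) + 1) ^ 2 := one_le_pow₀ (by simp)
  have d : (3 : ℝ) ≤ Real.pi * ((n : ℝ) + 1) ^ 2 * Real.exp (4 * t) := by
    nlinarith [mul_le_mul c a zero_le_one (by positivity)]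
  have e : (3 : ℝ) ≤ Real.pi * ((n : ℝ) + 1) ^ 2 * Real.exp (5 * t) := by
    nlinarith [mul_le_mul c b zero_le_one (by positivity)]
  rw [show 9 * t = 5 * t + 4 * t by ring, Real.exp_add]
  nlinarith

lemma term_le (n : ℕ) {t : ℝ} (ht : 0 ≤ t) : term n t ≤
    2 * Real.pi ^ 2 * (((n : ℝ) + 1) ^ 4 * Real.exp (-n)) *
      (Real.exp (9 * t) * Real.exp (-(Real.pi * Real.exp (4 * t)))) := by
  have pi3 := Real.pi_gt_three
  have a : 1 ≤ Real.exp (4 * t) := Real.one_le_exp (by linarith)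
  have b : Real.exp (-Real.pi * ((n : ℝ) + 1) ^ 2 * Real.exp (4 * t)) ≤
      Real.exp (-n) * Real.exp (-(Real.pi * Real.exp (4 * t))) := by
    rw [← Real.exp_add]
    refine Real.exp_le_exp.2 ?_
    have n0 : (0 : ℝ) ≤ n := n.cast_nonneg
    have : 1 ≤ Real.pi * Real.exp (4 * t) := by nlinarith
    nlinarith [mul_le_mul_of_nonneg_left this n0, mul_nonneg (sq_nonneg (n : ℝ)) (zero_le_one.trans this)]
  calc term n t ≤ (2 * Real.pi ^ 2 * ((n : ℝ) + 1) ^ 4 * Real.exp (9 * t)) *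
      Real.exp (-Real.pi * ((n : ℝ) + 1) ^ 2 * Real.exp (4 * t)) :=
        mul_le_mul_of_nonneg_right (sub_le_self _ (by positivity)) (Real.exp_pos _).le
    _ ≤ (2 * Real.pi ^ 2 * ((n : ℝ) + 1) ^ 4 * Real.exp (9 * t)) *
      (Real.exp (-n) * Real.exp (-(Real.pi * Real.exp (4 * t)))) := by gcongr
    _ = _ := by ring

lemma sm : Summable fun n : ℕ => 2 * Real.pi ^ 2 * (((n : ℝ) + 1) ^ 4 * Real.exp (-n)) := by
  refine Summable.mul_left _ ?_
  have := ((summable_nat_add_iff 1).2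
    (Real.summable_pow_mul_exp_neg_nat_mul 4 one_pos)).mul_left (Real.exp 1)
  refine this.congr fun n => ?_
  rw [mul_left_comm, ← Real.exp_add]; push_cast; congr 2; ring

lemma bd {t : ℝ} (ht : 0 ≤ t) : Real.exp (9 * t) * Real.exp (-(Real.pi * Real.exp (4 * t))) ≤ 6 := by
  have a := Real.pow_div_factorial_le_exp (Real.exp (4 * t)) (Real.exp_pos _).le 3
  have b : Real.exp (9 * t) ≤ Real.exp (4 * t) ^ 3 := by
    rw [← Real.exp_nat_mul]; exact Real.exp_le_exp.2 (by push_cast; linarith)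
  have c : Real.exp (Real.exp (4 * t)) ≤ Real.exp (Real.pi * Real.exp (4 * t)) :=
    Real.exp_le_exp.2 (by nlinarith [Real.pi_gt_three, Real.exp_pos (4 * t)])
  rw [Real.exp_neg, ← div_eq_mul_inv, div_le_iff₀ (Real.exp_pos _)]
  simp only [Nat.factorial, Nat.succ_eq_add_one] at a
  push_cast at a
  linarith

lemma term_nn (n : ℕ) {t : ℝ} (ht : 0 ≤ t) : 0 ≤ term n t :=
  (Real.exp_pos _).le.trans (term_ge n ht)

lemma term_sm {t : ℝ} (ht : 0 ≤ t) : Summable fun n => term n t :=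
  Summable.of_nonneg_of_le (fun n => term_nn n ht) (fun n => term_le n ht) (sm.mul_right _)

noncomputable def phi (t : ℝ) : ℝ := ∑' n, term n (max t 0)

lemma phi_cont : Continuous phi := by
  refine continuous_tsum (fun n => by unfold term; fun_prop) (sm.mul_right 6) fun n t => ?_
  rw [Real.norm_eq_abs, abs_of_nonneg (term_nn n (le_max_right _ _))]
  refine (term_le n (le_max_right _ _)).trans ?_
  gcongr
  exact bd (le_max_right _ _)

lemma phi_lo (t : ℝ) (ht : 0 ≤ t) : Real.exp (-(Real.pi * Real.exp (4 * t))) ≤ phi t := by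
  unfold phi
  rw [max_eq_left ht]
  refine le_trans ?_ ((term_sm ht).le_tsum 0 fun n _ => term_nn n ht)
  simpa using term_ge 0 ht

theorem phi_zero {ε : ℝ} (hε : 0 < ε) : ∀ᶠ R : ℝ in atTop, ∃ z, H phi R z = 0 ∧
      ‖z - 4 * Real.pi * Real.exp (4 * R) * I‖ < ε * Real.exp (4 * R) := by
  refine main (C := ∑' n : ℕ, 2 * Real.pi ^ 2 * (((n : ℝ) + 1) ^ 4 * Real.exp (-n)))
    phi_cont phi_lo (fun t ht => ?_) hε
  unfold phi
  rw [max_eq_left ht, mul_assoc, ← tsum_mul_right]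
  exact (term_sm ht).tsum_le_tsum (fun n => term_le n ht) (sm.mul_right _)

lemma phi_im {R : ℝ} (hR : 0 < R) (y : ℝ) : H phi R (y * I) ≠ 0 := by
  have p0 : ∀ t, 0 ≤ t → 0 ≤ phi t := fun t ht => (Real.exp_pos _).le.trans (phi_lo t ht)
  have := H_ge phi_cont p0 (R := R) (y := y) (a := 0) (b := R)
    (B := Real.exp (-(Real.pi * Real.exp (4 * R)))) le_rfl hR.le le_rfl fun t ht => by
      refine le_trans ?_ (le_mul_of_one_le_right (p0 t ht.1) (Real.one_le_cosh _))
      refine le_trans ?_ (phi_lo t ht.1)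
      gcongr
      exact ht.2
  rw [sub_zero] at this
  exact norm_pos_iff.1 (lt_of_lt_of_le (by positivity) this)

end Pool.Agent.H58.TruncXi
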