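import Pool.Agent.H58.SurfDefs

namespace Pool.Agent.H58.Surf
open Pool.Agent.H58.Stat Real
open scoped ContDiff

lemma fd_mul {f g : ℝ → ℝ} {f' g' : ℝ} {p : ℝ × ℝ} (hf : HasDerivAt f f' p.1)
    (hg : HasDerivAt g g' p.2) (v : ℝ × ℝ) :
    fderiv ℝ (fun q : ℝ × ℝ => f q.1 * g q.2) p v = f' * v.1 * g p.2 + f p.1 * (g' * v.2) := by
  have := ((hf.comp_hasFDerivAt p (hasFDerivAt_fst (𝕜 := ℝ))).mul
    (hg.comp_hasFDerivAt p (hasFDerivAt_snd (𝕜 := ℝ)))).fderiv
  simp only [Function.comp_def, Pi.mul_def] at this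
  rw [this]; simp; ring

lemma dx_mul {f g f' g' : ℝ → ℝ} (hf : ∀ y, HasDerivAt f (f' y) y) (hg : ∀ y, HasDerivAt g (g' y) y) :
    dx (fun q : ℝ × ℝ => f q.1 * g q.2) = fun q => f' q.1 * g q.2 := by
  ext p; simp [dx, fd_mul (hf p.1) (hg p.2)]

lemma dy_mul {f g f' g' : ℝ → ℝ} (hf : ∀ y, HasDerivAt f (f' y) y) (hg : ∀ y, HasDerivAt g (g' y) y) :
    dy (fun q : ℝ × ℝ => f q.1 * g q.2) = fun q => f q.1 * g' q.2 := by
  ext p; simp [dy, fd_mul (hf p.1) (hg p.2)]

noncomputable def δ (y : ℝ) : ℝ := √(8 - 3 * sin y ^ 2)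

lemma δ_arg (y : ℝ) : 0 < 8 - 3 * sin y ^ 2 := by nlinarith [sin_sq_le_one y]

lemma δ_pos (y : ℝ) : 0 < δ y := sqrt_pos.2 (δ_arg y)

lemma δ_sq (y : ℝ) : δ y ^ 2 = 8 - 3 * sin y ^ 2 := sq_sqrt (δ_arg y).le

lemma δ_der (y : ℝ) : HasDerivAt δ (-3 * sin y * cos y / δ y) y := by
  refine (((((hasDerivAt_sin y).pow 2).const_mul 3).const_sub 8).sqrt (δ_arg y).ne').congr_deriv ?_
  have := δ_pos y
  show _ / (2 * δ y) = _
  field_simp; norm_num; ring

lemma δ_cd : ContDiff ℝ ∞ δ := ContDiff.sqrt (by fun_prop) fun y => (δ_arg y).ne'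

noncomputable def a : Fin 9 → ℝ → ℝ := ![fun y => 20 * cos y, fun y => 20 * cos y,
  fun y => 20 * sin y, fun y => 20 * sin y, fun y => 4 * cos y * δ y, fun y => 4 * cos y * δ y,
  fun y => 5 * sin y * δ y, fun y => 5 * sin y * δ y, fun y => (4 - 9 * sin y ^ 2) / √3]

noncomputable def a1 : Fin 9 → ℝ → ℝ := ![fun y => -20 * sin y, fun y => -20 * sin y,
  fun y => 20 * cos y, fun y => 20 * cos y, fun y => -4 * sin y * (11 - 6 * sin y ^ 2) / δ y,
  fun y => -4 * sin y * (11 - 6 * sin y ^ 2) / δ y, fun y => 5 * cos y * (8 - 6 * sin y ^ 2) / δ y,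
  fun y => 5 * cos y * (8 - 6 * sin y ^ 2) / δ y, fun y => -18 * sin y * cos y / √3]

def k : Fin 9 → ℝ := ![2, 2, 1, 1, 5, 5, 4, 4, 0]

noncomputable def l : Fin 9 → ℝ := fun j => if j < 4 then 1 / 400 else 3 / 400

noncomputable def b : Fin 9 → ℝ → ℝ := fun j t =>
  if (j : ℕ) % 2 = 0 then cos (k j * t) else sin (k j * t)

noncomputable def b1 : Fin 9 → ℝ → ℝ := fun j t =>
  if (j : ℕ) % 2 = 0 then -k j * sin (k j * t) else k j * cos (k j * t)

lemma b_der (j : Fin 9) (t : ℝ) : HasDerivAt (b j) (b1 j t) t := by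
  unfold b b1
  split_ifs
  · exact ((hasDerivAt_id t).const_mul (k j)).cos.congr_deriv (by simp; ring)
  · exact ((hasDerivAt_id t).const_mul (k j)).sin.congr_deriv (by simp; ring)

lemma b1_der (j : Fin 9) (t : ℝ) : HasDerivAt (b1 j) (-k j ^ 2 * b j t) t := by
  unfold b b1
  split_ifs
  · exact (((hasDerivAt_id t).const_mul (k j)).sin.const_mul _).congr_deriv (by simp; ring)
  · exact (((hasDerivAt_id t).const_mul (k j)).cos.const_mul _).congr_deriv (by simp; ring)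

lemma a_der (j : Fin 9) (y : ℝ) : HasDerivAt (a j) (a1 j y) y := by
  have h0 := (δ_pos y).ne'
  have h1 := δ_sq y
  have h2 := cos_sq' y
  have c := hasDerivAt_cos y
  have s := hasDerivAt_sin y
  have e1 : HasDerivAt (fun y => 20 * cos y) (-20 * sin y) y := (c.const_mul _).congr_deriv (by ring)
  have e2 : HasDerivAt (fun y => 4 * cos y * δ y) (-4 * sin y * (11 - 6 * sin y ^ 2) / δ y) y :=
    ((c.const_mul 4).mul (δ_der y)).congr_deriv (by field_simp; rw [h1, h2]; ring)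
  have e3 : HasDerivAt (fun y => 5 * sin y * δ y) (5 * cos y * (8 - 6 * sin y ^ 2) / δ y) y :=
    ((s.const_mul 5).mul (δ_der y)).congr_deriv (by field_simp; rw [h1]; ring)
  have e4 : HasDerivAt (fun y => (4 - 9 * sin y ^ 2) / √3) (-18 * sin y * cos y / √3) y :=
    ((((s.pow 2).const_mul 9).const_sub 4).div_const _).congr_deriv (by simp; ring)
  fin_cases j
  exacts [e1, e1, s.const_mul _, s.const_mul _, e2, e2, e3, e3, e4]

lemma a1_der (j : Fin 9) (y : ℝ) : HasDerivAt (fun y => δ y * a1 j y)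
    ((k j ^ 2 - l j * (2400 * (2 - sin y ^ 2))) * a j y / δ y) y := by
  have h0 := fun y => (δ_pos y).ne'
  have h00 := h0 y
  have h1 := δ_sq y
  have h2 := cos_sq' y
  have c := hasDerivAt_cos y
  have s := hasDerivAt_sin y
  have e1 : HasDerivAt (fun y => δ y * (-20 * sin y))
      ((2 ^ 2 - 1 / 400 * (2400 * (2 - sin y ^ 2))) * (20 * cos y) / δ y) y :=
    ((δ_der y).mul (s.const_mul _)).congr_deriv (by field_simp; rw [h1]; ring)
  have e2 : HasDerivAt (fun y => δ y * (20 * cos y))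
      ((1 ^ 2 - 1 / 400 * (2400 * (2 - sin y ^ 2))) * (20 * sin y) / δ y) y :=
    ((δ_der y).mul (c.const_mul _)).congr_deriv (by field_simp; rw [h1, h2]; ring)
  have e3 : HasDerivAt (fun y => δ y * (-4 * sin y * (11 - 6 * sin y ^ 2) / δ y))
      ((5 ^ 2 - 3 / 400 * (2400 * (2 - sin y ^ 2))) * (4 * cos y * δ y) / δ y) y := by
    simp only [fun y u => mul_div_cancel₀ u (h0 y)]
    exact ((s.const_mul (-4)).mul (((s.pow 2).const_mul 6).const_sub 11)).congr_deriv
      (by field_simp; simp; ring)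
  have e4 : HasDerivAt (fun y => δ y * (5 * cos y * (8 - 6 * sin y ^ 2) / δ y))
      ((4 ^ 2 - 3 / 400 * (2400 * (2 - sin y ^ 2))) * (5 * sin y * δ y) / δ y) y := by
    simp only [fun y u => mul_div_cancel₀ u (h0 y)]
    exact ((c.const_mul 5).mul (((s.pow 2).const_mul 6).const_sub 8)).congr_deriv
      (by field_simp; simp; linear_combination (-4800 * sin y) * h2)
  have e5 : HasDerivAt (fun y => δ y * (-18 * sin y * cos y / √3))
      ((0 ^ 2 - 3 / 400 * (2400 * (2 - sin y ^ 2))) * ((4 - 9 * sin y ^ 2) / √3) / δ y) y :=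
    ((δ_der y).mul (((s.const_mul (-18)).mul c).div_const _)).congr_deriv
      (by simp only [Pi.mul_apply]; field_simp; rw [h1, h2]; ring)
  fin_cases j
  exacts [e1, e1, e2, e2, e3, e3, e4, e4, e5]

noncomputable def X (p : ℝ × ℝ) (j : Fin 9) : ℝ := a j p.1 * b j p.2

lemma X_cd (j : Fin 9) : ContDiff ℝ ∞ fun p => X p j := by
  have := δ_cd
  refine ContDiff.mul (ContDiff.comp (g := a j) ?_ contDiff_fst)
    (ContDiff.comp (g := b j) ?_ contDiff_snd)
  · fin_cases j <;> simp only [a] <;> simp <;> fun_prop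
  · unfold b; split_ifs <;> fun_prop

lemma X_dx (p : ℝ × ℝ) (j : Fin 9) : dx X p j = a1 j p.1 * b j p.2 := by
  have := congrFun (dx_mul (a_der j) (b_der j)) p
  rw [← this, dx, dx, fderiv_pi fun j => (X_cd j).differentiable (by simp) p]
  rfl

lemma X_dy (p : ℝ × ℝ) (j : Fin 9) : dy X p j = a j p.1 * b1 j p.2 := by
  have := congrFun (dy_mul (a_der j) (b_der j)) p
  rw [← this, dy, dy, fderiv_pi fun j => (X_cd j).differentiable (by simp) p]
  rfl

lemma s3 : (√3 : ℝ) ^ 2 = 3 := sq_sqrt (by norm_num)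

lemma X_F (p : ℝ × ℝ) : gF X p = 0 := by
  simp [gF, dotProduct, Fin.sum_univ_succ, X_dx, X_dy, a, a1, b, b1, k]
  ring

lemma X_G (p : ℝ × ℝ) : gG X p = 2400 * (2 - sin p.1 ^ 2) := by
  simp [gG, dotProduct, Fin.sum_univ_succ, X_dy, a, b1, k]
  ring_nf
  simp only [cos_sq', δ_sq]
  ring

lemma X_E (p : ℝ × ℝ) : gE X p = 2400 * (2 - sin p.1 ^ 2) / δ p.1 ^ 2 := by
  have h0 := (δ_pos p.1).ne'
  simp [gE, dotProduct, Fin.sum_univ_succ, X_dx, a1, b, k]
  field_simp
  simp only [cos_sq', δ_sq, s3]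
  ring

lemma X_X (p : ℝ × ℝ) : X p ⬝ᵥ X p = 1600 / 3 := by
  simp [dotProduct, Fin.sum_univ_succ, X, a, b, k]
  field_simp
  simp only [cos_sq', δ_sq, s3]
  ring

lemma G_pos (y : ℝ) : 0 < 2400 * (2 - sin y ^ 2) := by nlinarith [sin_sq_le_one y]

lemma X_W (p : ℝ × ℝ) : gW X p = 2400 * (2 - sin p.1 ^ 2) / δ p.1 := by
  rw [gW, X_E, X_F, X_G, sqrt_eq_iff_mul_self_eq_of_pos (div_pos (G_pos _) (δ_pos _))]
  ring

lemma X_lb (j : Fin 9) (p : ℝ × ℝ) : lb X (fun q => X q j) p = l j * X p j := by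
  have h0 := fun y => (δ_pos y).ne'
  have h1 : ∀ y, 2 - sin y ^ 2 ≠ 0 := fun y => ne_of_gt (by nlinarith [sin_sq_le_one y])
  have e1 : (fun q => (gG X q * dx (fun q => X q j) q - gF X q * dy (fun q => X q j) q) / gW X q) =
      fun q => (δ q.1 * a1 j q.1) * b j q.2 := by
    ext q
    have := h0 q.1
    have := h1 q.1
    simp only [X, dx_mul (a_der j) (b_der j), X_F, X_G, X_W]
    field_simp
    ring
  have e2 : (fun q => (gE X q * dy (fun q => X q j) q - gF X q * dx (fun q => X q j) q) / gW X q) =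
      fun q => (a j q.1 / δ q.1) * b1 j q.2 := by
    ext q
    have := h0 q.1
    have := h1 q.1
    simp only [X, dy_mul (a_der j) (b_der j), X_F, X_E, X_W]
    field_simp
    ring
  rw [lb, e1, e2, dx_mul (f := fun y => δ y * a1 j y) (a1_der j) (b_der j),
    dy_mul (f := fun y => a j y / δ y) (fun y => (a_der j y).div (δ_der y) (h0 y)) (b1_der j), X_W]
  have := h0 p.1
  have := h1 p.1
  simp only [X]
  field_simp
  ring

lemma X_full (w : Fin 9 → ℝ) (r : ℝ) (h : ∀ p, w ⬝ᵥ X p = r) : w = 0 := by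
  have h8 := δ_pos 0
  have h5 := δ_pos (π / 2)
  have h3 : 0 < √3 := by positivity
  have d1 : δ π = δ 0 := by simp [δ]
  have d2 : δ (-(π / 2)) = δ (π / 2) := by simp [δ]
  have A := fun t => h (0, t)
  have B := fun t => h (π, t)
  have C := fun t => h (π / 2, t)
  have D := fun t => h (-(π / 2), t)
  simp [dotProduct, Fin.sum_univ_succ, X, a, b, k, d1, d2] at A B C D
  have w8 : w 8 = 0 := by
    have : w 8 * (9 / √3) = 0 := by
      linear_combination (A 0 + B 0 - C 0 - D 0) / 2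
    simpa [h3.ne'] using this
  have r0 : r = 0 := by linear_combination -(A 0 + B 0) / 2 + 4 / √3 * w8
  simp only [w8, r0, zero_mul, add_zero] at A C
  have a0 := A 0
  have a1 := A π
  have a2 := A (π / 2)
  have a3 := A (π / 4)
  have c0 := C 0
  have c1 := C π
  have c2 := C (π / 2)
  have c3 := C (π / 8)
  rw [show 5 * π = π + (2 : ℕ) * (2 * π) by push_cast; ring, cos_add_nat_mul_two_pi,
    sin_add_nat_mul_two_pi] at a1
  rw [show 4 * π = (2 : ℕ) * (2 * π) by push_cast; ring, cos_nat_mul_two_pi,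
    show (2 : ℕ) * (2 * π) = (4 : ℕ) * π by push_cast; ring, sin_nat_mul_pi] at c1
  rw [show 5 * (π / 2) = π / 2 + 2 * π by ring, cos_add_two_pi, sin_add_two_pi,
    show 2 * (π / 2) = π by ring] at a2
  rw [show 2 * (π / 4) = π / 2 by ring] at a3
  rw [show 4 * (π / 2) = 2 * π by ring] at c2
  rw [show 4 * (π / 8) = π / 2 by ring] at c3
  simp at a0 a1 a2 c0 c1 c2
  have w0 : w 0 = 0 := by linarith
  have w2 : w 2 = 0 := by linarith
  have w4 : w 4 = 0 := by simpa [w0, h8.ne'] using a0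
  have w6 : w 6 = 0 := by simpa [w2, h5.ne'] using c0
  have w5 : w 5 = 0 := by simpa [w0, h8.ne'] using a2
  have w3 : w 3 = 0 := by simpa [w6] using c2
  have w1 : w 1 = 0 := by simpa [w0, w4, w5] using a3
  have w7 : w 7 = 0 := by simpa [w2, w3, w6, h5.ne'] using c3
  ext j
  fin_cases j
  exacts [w0, w1, w2, w3, w4, w5, w6, w7, w8]

end Pool.Agent.H58.Surf
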