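import Mathlib

/-! Exponential decay in half-planes: a Titchmarsh-type lemma, contour shifts, entire quotients. -/

namespace Pool.Agent.H58.Vt

open MeasureTheory Filter Set Complex Topology

noncomputable section

def Dec (F : ℂ → ℂ) (t : ℝ) : Prop :=
  ∀ R : ℝ, ∃ C : ℝ, 0 ≤ C ∧ ∀ z : ℂ, R ≤ z.re → ‖F z‖ ≤ C * Real.exp (-t * z.re)

variable {F G : ℂ → ℂ} {s t : ℝ}

lemma Dec.mul (hF : Dec F s) (hG : Dec G t) : Dec (F * G) (s + t) := fun R => by
  obtain ⟨C, h0, h⟩ := hF R
  obtain ⟨D, h1, h'⟩ := hG R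
  refine ⟨C * D, by positivity, fun z hz => ?_⟩
  rw [Pi.mul_apply, norm_mul, show -(s + t) * z.re = -s * z.re + -t * z.re by ring, Real.exp_add,
    mul_mul_mul_comm]
  exact mul_le_mul (h z hz) (h' z hz) (norm_nonneg _) (by positivity)

lemma Dec.add (hF : Dec F t) (hG : Dec G t) : Dec (F + G) t := fun R => by
  obtain ⟨C, h0, h⟩ := hF R
  obtain ⟨D, h1, h'⟩ := hG R
  refine ⟨C + D, by positivity, fun z hz => ?_⟩
  rw [add_mul]
  exact (norm_add_le _ _).trans (add_le_add (h z hz) (h' z hz))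

lemma Dec.neg (hF : Dec F t) : Dec (-F) t := fun R => by simpa using hF R

lemma Dec.sub (hF : Dec F t) (hG : Dec G t) : Dec (F - G) t := by
  rw [sub_eq_add_neg]; exact hF.add hG.neg

lemma Dec.mono (hF : Dec F t) (h : s ≤ t) : Dec F s := fun R => by
  obtain ⟨C, h0, h1⟩ := hF R
  refine ⟨C * Real.exp (-(t - s) * R), by positivity, fun z hz => (h1 z hz).trans ?_⟩
  rw [mul_assoc, ← Real.exp_add]
  gcongr
  nlinarith

lemma dec_one : Dec 1 0 := fun _ => ⟨1, zero_le_one, by simp⟩

lemma Dec.pow (hF : Dec F t) (n : ℕ) : Dec (F ^ n) (n * t) := by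
  induction n with
  | zero => simpa using dec_one
  | succ n ih => rw [pow_succ]; exact (ih.mul hF).mono (by push_cast; linarith)

lemma Dec.root {n : ℕ} (hn : n ≠ 0) (hF : Dec (F ^ n) (n * t)) : Dec F t := fun R => by
  obtain ⟨C, h0, h⟩ := hF R
  refine ⟨max C 1, by positivity, fun z hz => le_of_pow_le_pow_left₀ hn (by positivity) ?_⟩
  rw [← norm_pow, mul_pow, ← Real.exp_nat_mul]
  refine (h z hz).trans (mul_le_mul ((le_max_left _ _).trans
    (le_self_pow₀ (le_max_right _ _) hn)) (le_of_eq ?_) (by positivity) (by positivity))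
  congr 1; ring

lemma Dec.pow_sub (hF : Dec F 0) (hG : Dec G 0) (h : Dec (F - G) t) (n : ℕ) :
    Dec (F ^ n - G ^ n) t := by
  induction n with
  | zero => exact fun _ => ⟨0, le_rfl, by simp⟩
  | succ n ih =>
    have := ((hF.mul ih).mono (s := t) (by simp)).add ((h.mul (hG.pow n)).mono (s := t) (by simp))
    convert this using 1
    ring

lemma Dec.deriv (hd : Differentiable ℂ F) (hF : Dec F t) : Dec (deriv F) t := fun R => by
  obtain ⟨C, h0, h⟩ := hF (R - 1)
  refine ⟨C * Real.exp |t|, by positivity, fun z hz => ?_⟩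
  rw [← div_one (_ * _)]
  refine norm_deriv_le_of_forall_mem_sphere_norm_le one_pos hd.diffContOnCl fun w hw => ?_
  have h1 : |w.re - z.re| ≤ 1 := by
    rw [← sub_re]; exact (abs_re_le_norm _).trans (mem_sphere_iff_norm.1 hw).le
  refine (h w (by linarith [(abs_le.1 h1).1])).trans ?_
  rw [mul_assoc, ← Real.exp_add]
  gcongr
  have : -(t * (w.re - z.re)) ≤ |t| := by
    refine (neg_le_abs _).trans ?_
    rw [abs_mul]
    exact mul_le_of_le_one_right (abs_nonneg _) h1
  linarith

lemma titch_aux (j : ℕ) : ∀ (F G : ℂ → ℂ) (T : ℝ), Differentiable ℂ F → Differentiable ℂ G →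
    Dec F 0 → Dec G 0 → 0 ≤ T → Dec (F * G) T → Dec (F * deriv G) ((1 - 2 / (j + 2)) * T) := by
  induction j with
  | zero => exact fun F G T _ dG hF hG _ _ => (hF.mul (hG.deriv dG)).mono (by simp)
  | succ j ih =>
    intro F G T dF dG hF hG hT h
    have e0 : (0 : ℝ) < 2 / (j + 2) := by positivity
    have e1 : (2 : ℝ) / (j + 2) ≤ 1 := by rw [div_le_one (by positivity)]; simp
    have e2 : 2 / ((j : ℝ) + 2) - (2 / (j + 2)) ^ 2 / 2 ≤ 2 / (j + 1 + 2) := by
      rw [← sub_nonneg]; field_simp; ring_nf; positivity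
    have h1 := ih F G T dF dG hF hG hT h
    have h2 := ih G F T dG dF hG hF hT (by rwa [mul_comm])
    have h3 := ih (deriv F) G _ dF.deriv dG (hF.deriv dF) hG (mul_nonneg (sub_nonneg.2 e1) hT)
      (by rwa [mul_comm])
    generalize (2 : ℝ) / (j + 2) = e at *
    have h4 := ((h1.mul (h.deriv (dF.mul dG))).mono (s := T + (1 - e) * ((1 - e) * T))
      (by nlinarith [mul_nonneg (mul_nonneg e0.le hT) (sub_nonneg.2 e1)])).sub (h.mul h3)
    have e3 : deriv (F * G) = deriv F * G + F * deriv G := funext fun z =>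
      deriv_mul (dF z) (dG z)
    refine Dec.root two_ne_zero (Dec.mono (by convert h4 using 1; rw [e3]; ring) ?_)
    push_cast
    nlinarith

lemma titch (dF : Differentiable ℂ F) (dG : Differentiable ℂ G) (hF : Dec F 0) (hG : Dec G 0)
    {T : ℝ} (hT : 0 < T) (h : ∀ t < T, Dec (F * G) t) : ∀ t < T, Dec (F * deriv G) t := by
  intro t ht
  set t' := (max t 0 + T) / 2 with h1
  have h2 : max t 0 < T := max_lt ht hT
  have h3 := le_max_left t 0
  have h4 := le_max_right t 0
  obtain ⟨j, hj⟩ := exists_nat_gt (2 * t' / (t' - t))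
  rw [div_lt_iff₀ (by linarith)] at hj
  refine (titch_aux j F G t' dF dG hF hG (by linarith) (h _ (by linarith))).mono ?_
  have : 2 / ((j : ℝ) + 2) * t' ≤ t' - t := by
    rw [div_mul_eq_mul_div, div_le_iff₀ (by positivity)]; nlinarith
  linarith

lemma bound_sq (h1 : Dec F t) (h2 : Dec (fun z => z ^ 2 * F z) t) :
    ∃ C, 0 ≤ C ∧ ∀ x y : ℝ, 0 ≤ x → ‖F (x + y * I)‖ ≤ C * Real.exp (-t * x) * (1 + y ^ 2)⁻¹ := by
  obtain ⟨C, c0, hC⟩ := h1 0
  obtain ⟨D, d0, hD⟩ := h2 0
  refine ⟨C + D, by positivity, fun x y hx => ?_⟩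
  have a1 := hC (x + y * I) (by simpa using hx)
  have a2 := hD (x + y * I) (by simpa using hx)
  have a3 : y ^ 2 ≤ ‖(x : ℂ) + y * I‖ ^ 2 := by
    rw [Complex.sq_norm, normSq_add_mul_I]; nlinarith
  rw [norm_mul, norm_pow] at a2
  simp only [add_re, ofReal_re, mul_re, I_re, mul_zero, ofReal_im, I_im, mul_one, sub_self,
    add_zero] at a1 a2
  rw [← div_eq_mul_inv, le_div_iff₀ (by positivity)]
  nlinarith [norm_nonneg (F (x + y * I))]

lemma int_line (hd : Differentiable ℂ F) (h1 : Dec F t) (h2 : Dec (fun z => z ^ 2 * F z) t) :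
    Integrable fun y : ℝ => F (y * I) := by
  obtain ⟨C, c0, hC⟩ := bound_sq h1 h2
  refine (integrable_inv_one_add_sq.const_mul C).mono'
    (hd.continuous.comp (by fun_prop)).aestronglyMeasurable (Eventually.of_forall fun y => ?_)
  simpa using hC 0 y le_rfl

lemma shift (hd : Differentiable ℂ F) (ht : 0 < t) (h1 : Dec F t)
    (h2 : Dec (fun z => z ^ 2 * F z) t) : ∫ y : ℝ, F (y * I) = 0 := by
  obtain ⟨C, c0, hC⟩ := bound_sq h1 h2
  have t1 := intervalIntegral_tendsto_integral (int_line hd h1 h2) tendsto_neg_atTop_atBot tendsto_id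
  refine tendsto_nhds_unique t1 (squeeze_zero_norm' (a := fun T : ℝ =>
    2 * C * T⁻¹ + 2 * C * (T * Real.exp (-t * T))) ?_ ?_)
  · filter_upwards [eventually_gt_atTop 0] with T hT
    have := integral_boundary_rect_eq_zero_of_differentiableOn F ⟨0, -T⟩ ⟨T, T⟩ hd.differentiableOn
    simp only [ofReal_zero, zero_add, smul_eq_mul] at this
    have a : ∀ y : ℝ, y ^ 2 = T ^ 2 → ‖∫ x : ℝ in 0..T, F (x + y * I)‖ ≤ C * T⁻¹ := fun y hy => by
      refine (intervalIntegral.norm_integral_le_of_norm_le_const (C := C * (T ^ 2)⁻¹)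
        fun x hx => ?_).trans (le_of_eq ?_)
      · rw [uIoc_of_le hT.le] at hx
        refine (hC x y hx.1.le).trans ?_
        rw [hy]
        refine mul_le_mul (mul_le_of_le_one_right c0 ?_) (inv_anti₀ (by positivity) (by simp))
          (by positivity) c0
        rw [Real.exp_le_one_iff]; nlinarith [hx.1]
      · rw [sub_zero, abs_of_pos hT]; field_simp
    have b : ‖∫ y : ℝ in -T..T, F (T + y * I)‖ ≤ 2 * C * (T * Real.exp (-t * T)) := by
      refine (intervalIntegral.norm_integral_le_of_norm_le_const (C := C * Real.exp (-t * T))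
        fun y _ => (hC T y hT.le).trans (mul_le_of_le_one_right (by positivity) ?_)).trans
        (le_of_eq ?_)
      · exact inv_le_one_of_one_le₀ (by nlinarith)
      · rw [abs_of_pos (by linarith)]; ring
    have a1 := a (-T) (by ring)
    have a2 := a T rfl
    rw [sub_eq_zero] at this
    have e := congrArg norm this
    rw [norm_mul I, norm_I, one_mul] at e
    simp only [id]
    rw [← e]
    refine (norm_add_le _ _).trans ?_
    rw [norm_mul, norm_I, one_mul]
    have := norm_sub_le (∫ x : ℝ in 0..T, F (x + (-T : ℝ) * I)) (∫ x : ℝ in 0..T, F (x + T * I))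
    linarith
  · have := Real.tendsto_pow_mul_exp_neg_atTop_nhds_zero 1 |>.comp (tendsto_id.const_mul_atTop ht)
      |>.const_mul t⁻¹
    have h3 : Tendsto (fun T : ℝ => T * Real.exp (-t * T)) atTop (𝓝 0) := by
      rw [mul_zero] at this
      refine this.congr fun T => ?_
      simp only [Function.comp, id, pow_one, neg_mul]; field_simp
    simpa using (tendsto_inv_atTop_zero.const_mul (2 * C)).add (h3.const_mul (2 * C))

lemma liouville (hd : Differentiable ℂ F) (h1 : Dec F t) (h2 : Dec (fun z => F (-z)) (-s))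
    (h : s < t) : F = 0 := by
  obtain ⟨C, c0, hC⟩ := h1 0
  obtain ⟨D, d0, hD⟩ := h2 0
  have e : ∀ z : ℂ, ‖cexp (t * z) * F z‖ = Real.exp (t * z.re) * ‖F z‖ := fun z => by
    simp [norm_exp]
  have l : ∀ z : ℂ, z.re ≤ 0 → ‖cexp (t * z) * F z‖ ≤ D * Real.exp ((t - s) * z.re) := fun z hz => by
    have := hD (-z) (by simpa using hz)
    simp only [neg_neg] at this
    rw [e]
    refine (mul_le_mul_of_nonneg_left this (Real.exp_pos _).le).trans (le_of_eq ?_)
    rw [mul_left_comm, ← Real.exp_add]; simp; left; ring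
  have hb : Bornology.IsBounded (range fun z => cexp (t * z) * F z) := by
    refine isBounded_iff_forall_norm_le.2 ⟨C + D, ?_⟩
    rintro _ ⟨z, rfl⟩
    rcases le_total 0 z.re with hz | hz
    · simp only [e]
      refine (mul_le_mul_of_nonneg_left (hC z hz) (Real.exp_pos _).le).trans ?_
      rw [mul_left_comm, ← Real.exp_add]; simp [d0]
    · refine (l z hz).trans ((mul_le_of_le_one_right d0 ?_).trans (by linarith))
      rw [Real.exp_le_one_iff]; nlinarith
  funext z
  have : ‖cexp (t * z) * F z‖ ≤ 0 := by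
    have t1 : Tendsto (fun x : ℝ => D * Real.exp ((t - s) * x)) atBot (𝓝 0) := by
      simpa using (Real.tendsto_exp_atBot.comp
        (tendsto_id.const_mul_atBot (sub_pos.2 h))).const_mul D
    refine ge_of_tendsto t1 ?_
    filter_upwards [eventually_le_atBot 0] with x hx
    rw [Differentiable.apply_eq_apply_of_bounded (by fun_prop) hb z x]
    simpa using l x (by simpa using hx)
  exact (mul_eq_zero.1 (norm_le_zero_iff.1 this)).resolve_left (exp_ne_zero _)

lemma quot {B B' : ℂ → ℂ} (hB : Differentiable ℂ B) (hB' : Differentiable ℂ B') (h0 : B ≠ 0)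
    {n : ℕ} (hn : n ≠ 0) (h : B ^ (n + 1) = B' ^ n) :
    ∃ g : ℂ → ℂ, Differentiable ℂ g ∧ g * B = B' ∧ g ^ n = B := by
  have e : ∀ z, B z ≠ 0 → (B' z / B z) ^ n = B z := fun z hz => by
    have := congrFun h z
    simp only [Pi.pow_apply] at this
    rw [div_pow, ← this, pow_succ]; field_simp
  have e2 : ∀ z, B z ≠ 0 → limUnder (𝓝[≠] z) (B' / B) = B' z / B z := fun z hz =>
    (((hB' z).div (hB z) hz).continuousAt.tendsto.mono_left nhdsWithin_le_nhds).limUnder_eq
  have dg : Differentiable ℂ fun z => limUnder (𝓝[≠] z) (B' / B) := fun c => by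
    have h1 := ((hB.analyticAt c).eventually_eq_zero_or_eventually_ne_zero).resolve_left fun h' =>
      h0 ((hB.differentiableOn.analyticOnNhd isOpen_univ).eq_of_eventuallyEq analyticOnNhd_const h')
    have h2 := (hB.continuous.norm.tendsto c).eventually (gt_mem_nhds (lt_add_one _))
    rw [eventually_nhdsWithin_iff] at h1
    have h3 := differentiableOn_update_limUnder_of_bddAbove (f := B' / B) (h1.and h2)
      (fun z hz => ((hB' z).div (hB z) (hz.1.1 hz.2)).differentiableWithinAt) ⟨‖B c‖ + 1 + 1, by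
        rintro _ ⟨z, hz, rfl⟩
        refine le_of_pow_le_pow_left₀ hn (by positivity) ?_
        simp only [Function.comp, Pi.div_apply]
        rw [← norm_pow, e z (hz.1.1 hz.2)]
        refine le_trans ?_ (le_self_pow₀ (by linarith [norm_nonneg (B c)]) hn)
        linarith [hz.1.2]⟩
    refine (h3.differentiableAt (h1.and h2)).congr_of_eventuallyEq ?_
    filter_upwards [h1] with z hz
    by_cases h4 : z = c
    · simp [h4]
    · rw [Function.update_of_ne h4, e2 z (hz h4)]; rfl
  obtain ⟨c, hc⟩ := Function.ne_iff.1 h0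
  have ev := hB.continuous.continuousAt.eventually_ne hc
  refine ⟨_, dg, ((dg.mul hB).differentiableOn.analyticOnNhd isOpen_univ).eq_of_eventuallyEq
    (hB'.differentiableOn.analyticOnNhd isOpen_univ) (ev.mono fun z hz => ?_),
    ((dg.pow n).differentiableOn.analyticOnNhd isOpen_univ).eq_of_eventuallyEq
    (hB.differentiableOn.analyticOnNhd isOpen_univ) (ev.mono fun z hz => ?_)⟩
  · simp only [Pi.mul_apply, e2 z hz]; exact div_mul_cancel₀ _ hz
  · simp only [Pi.pow_apply, e2 z hz]; exact e z hz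

end

end Pool.Agent.H58.Vt
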