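import Pool.Agent.H58.VtA

/-! Laplace transforms of compactly supported complex measures and test functions. -/

namespace Pool.Agent.H58.Vt

open MeasureTheory Filter Set Complex Topology
open scoped Real ContDiff FourierTransform

noncomputable section

variable {Y : Type} [MeasurableSpace Y] {ρ : Measure Y} {T : Y → ℝ} {k : Y → ℂ} {a b : ℝ}

def Lp (ρ : Measure Y) (T : Y → ℝ) (k : Y → ℂ) (z : ℂ) : ℂ := ∫ y, cexp (-(z * T y)) * k y ∂ρ

structure Ok (ρ : Measure Y) (T : Y → ℝ) (k : Y → ℂ) (a b : ℝ) : Prop where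
  meas : Measurable T
  int : Integrable k ρ
  supp : ∀ᵐ y ∂ρ, k y ≠ 0 → T y ∈ Icc a b

lemma Ok.neg (h : Ok ρ T k a b) : Ok ρ (fun y => -T y) k (-b) (-a) :=
  ⟨h.meas.neg, h.int, h.supp.mono fun _ h1 h2 => ⟨neg_le_neg (h1 h2).2, neg_le_neg (h1 h2).1⟩⟩

lemma Lp_neg (z : ℂ) : Lp ρ T k (-z) = Lp ρ (fun y => -T y) k z := by simp [Lp]

lemma Ok.bd (h : Ok ρ T k a b) {φ : ℝ → ℂ} {C : ℝ} (hC : ∀ s ∈ Icc a b, ‖φ s‖ ≤ C) :
    ∀ᵐ y ∂ρ, ‖φ (T y) * k y‖ ≤ C * ‖k y‖ := h.supp.mono fun y hy => by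
  by_cases h0 : k y = 0
  · simp [h0]
  · rw [norm_mul]; gcongr; exact hC _ (hy h0)

lemma Ok.mul (h : Ok ρ T k a b) {φ : ℝ → ℂ} (hφ : Continuous φ) :
    Ok ρ T (fun y => φ (T y) * k y) a b := by
  obtain ⟨C, hC⟩ := isCompact_Icc.exists_bound_of_continuousOn (hφ.continuousOn (s := Icc a b))
  exact ⟨h.meas, (h.int.norm.const_mul C).mono'
    ((hφ.measurable.comp h.meas).aestronglyMeasurable.mul h.int.1) (h.bd hC),
    h.supp.mono fun y hy h0 => hy (right_ne_zero_of_mul h0)⟩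

lemma Ok.dec (h : Ok ρ T k a b) : Dec (Lp ρ T k) a := fun R => by
  refine ⟨Real.exp (|R| * (b - a)) * ∫ y, ‖k y‖ ∂ρ, by positivity, fun z hz => ?_⟩
  rw [mul_right_comm, ← integral_const_mul]
  refine norm_integral_le_of_norm_le (h.int.norm.const_mul _)
    (h.bd (φ := fun s => cexp (-(z * s))) fun s hs => ?_)
  rw [norm_exp, ← Real.exp_add]
  simp only [neg_re, mul_re, ofReal_re, ofReal_im, mul_zero, sub_zero, Real.exp_le_exp]
  nlinarith [hs.1, hs.2, neg_abs_le R, abs_nonneg R]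

lemma Ok.decn (h : Ok ρ T k a b) : Dec (fun z => Lp ρ T k (-z)) (-b) := by
  simp only [Lp_neg]; exact h.neg.dec

lemma Ok.hasDerivAt (h : Ok ρ T k a b) (z : ℂ) :
    HasDerivAt (Lp ρ T k) (Lp ρ T (fun y => -(T y : ℂ) * k y) z) z := by
  have m : ∀ φ : ℝ → ℂ, Continuous φ → Integrable (fun y => φ (T y) * k y) ρ :=
    fun φ hφ => (h.mul hφ).int
  refine (hasDerivAt_integral_of_dominated_loc_of_deriv_le (Metric.ball_mem_nhds z one_pos)
    (Eventually.of_forall fun w => (m (fun s => cexp (-(w * s))) (by fun_prop)).1)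
    (m (fun s => cexp (-(z * s))) (by fun_prop))
    (F' := fun w y => cexp (-(w * T y)) * (-(T y : ℂ) * k y))
    ((h.mul (φ := fun s => -(s : ℂ)) (by fun_prop)).mul (φ := fun s => cexp (-(z * s)))
      (by fun_prop)).int.1 (Eventually.of_forall fun y w hw => ?_)
    (m (fun s => Real.exp ((‖z‖ + 1) * |s|) * s) (by fun_prop)).norm
    (Eventually.of_forall fun y w _ => ?_)).2
  · simp only [norm_mul, norm_neg, norm_real, Real.norm_eq_abs, Real.abs_exp, mul_assoc]
    gcongr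
    refine (norm_exp_le_exp_norm _).trans ?_
    simp only [norm_neg, norm_mul, norm_real, Real.norm_eq_abs]
    gcongr
    exact (norm_le_of_mem_closedBall (Metric.ball_subset_closedBall hw))
  · have := (((hasDerivAt_id w).mul_const (T y : ℂ)).neg.cexp).mul_const (k y)
    exact this.congr_deriv (by simp; ring)

lemma Ok.diff (h : Ok ρ T k a b) : Differentiable ℂ (Lp ρ T k) := fun z =>
  (h.hasDerivAt z).differentiableAt

lemma Ok.prod {Y' : Type} [MeasurableSpace Y'] {ρ' : Measure Y'} {T' : Y' → ℝ} {k' : Y' → ℂ}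
    {a' b' : ℝ} [SFinite ρ] [SFinite ρ'] (h : Ok ρ T k a b) (h' : Ok ρ' T' k' a' b') :
    Ok (ρ.prod ρ') (fun p => T p.1 + T' p.2) (fun p => k p.1 * k' p.2) (a + a') (b + b') := by
  have := h.meas
  have := h'.meas
  refine ⟨by fun_prop, h.int.mul_prod h'.int, ?_⟩
  filter_upwards [Measure.quasiMeasurePreserving_fst.ae h.supp,
    Measure.quasiMeasurePreserving_snd.ae h'.supp] with p h1 h2 h3
  have h4 := h1 (left_ne_zero_of_mul h3)
  have h5 := h2 (right_ne_zero_of_mul h3)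
  exact ⟨add_le_add h4.1 h5.1, add_le_add h4.2 h5.2⟩

lemma Lp_prod {Y' : Type} [MeasurableSpace Y'] {ρ' : Measure Y'} {T' : Y' → ℝ} {k' : Y' → ℂ}
    [SFinite ρ] [SFinite ρ'] :
    Lp (ρ.prod ρ') (fun p => T p.1 + T' p.2) (fun p => k p.1 * k' p.2)
      = Lp ρ T k * Lp ρ' T' k' := by
  funext z
  rw [Pi.mul_apply, Lp, Lp, Lp, ← integral_prod_mul]
  congr 1; funext p
  push_cast
  rw [mul_add, neg_add, Complex.exp_add]; ring

structure Tf (χ : ℝ → ℝ) (a b : ℝ) : Prop where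
  sm : ContDiff ℝ ∞ χ
  supp : tsupport χ ⊆ Icc a b

variable {χ : ℝ → ℝ}

lemma Tf.deriv (h : Tf χ a b) : Tf (deriv χ) a b :=
  ⟨(contDiff_infty_iff_deriv.1 h.sm).2, (tsupport_deriv_subset).trans h.supp⟩

lemma Tf.ok (h : Tf χ a b) : Ok volume id (fun u => (χ u : ℂ)) a b :=
  ⟨measurable_id, (h.sm.continuous.integrable_of_hasCompactSupport
    (isCompact_Icc.of_isClosed_subset (isClosed_tsupport _) h.supp)).ofReal,
    Eventually.of_forall fun u hu => h.supp (subset_tsupport _ (by simpa using hu))⟩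

lemma Tf.parts (h : Tf χ a b) (z : ℂ) : Lp volume id (fun u => ((_root_.deriv χ u : ℝ) : ℂ)) z
    = z * Lp volume id (fun u => (χ u : ℂ)) z := by
  have i1 := (h.ok.mul (φ := fun s => cexp (-(z * s))) (by fun_prop)).int
  have i2 := (h.deriv.ok.mul (φ := fun s => cexp (-(z * s))) (by fun_prop)).int
  have := integral_eq_zero_of_hasDerivAt_of_integrable (fun u => ?_) (i2.sub (i1.const_mul z)) i1
  · rw [← sub_eq_zero, ← this, Lp, Lp, ← integral_const_mul, ← integral_sub i2 (i1.const_mul z)]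
    rfl
  · have h1 := ((h.sm.differentiable (by simp)) u).hasDerivAt.ofReal_comp
    have h2 := (((hasDerivAt_id u).ofReal_comp.const_mul z).neg.cexp).mul h1
    exact h2.congr_deriv (by simp; ring)

def Ph (χ : ℝ → ℝ) (z : ℂ) : ℂ := Lp volume id (fun u => (χ u : ℂ)) (-z)

lemma Tf.sq (h : Tf χ a b) (z : ℂ) : z ^ 2 * Ph χ z = Ph (_root_.deriv (_root_.deriv χ)) z := by
  rw [Ph, Ph, h.deriv.parts, h.parts]; ring

lemma Tf.dPh (h : Tf χ a b) : Differentiable ℂ (Ph χ) := h.ok.diff.comp differentiable_neg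

def pr (F : ℂ → ℂ) (χ : ℝ → ℝ) : ℂ := ∫ y : ℝ, F (y * I) * Ph χ (y * I)

variable {F G : ℂ → ℂ} {t : ℝ}

lemma Tf.dec2 (h : Tf χ a b) (hF : Dec F t) :
    Dec (F * Ph χ) (t + -b) ∧ Dec (fun z => z ^ 2 * (F * Ph χ) z) (t + -b) := by
  refine ⟨hF.mul h.ok.decn, ?_⟩
  convert hF.mul h.deriv.deriv.ok.decn using 1
  funext z
  rw [Pi.mul_apply, mul_left_comm, h.sq]; rfl

lemma Tf.int (h : Tf χ a b) (hd : Differentiable ℂ F) (hF : Dec F t) :
    Integrable fun y : ℝ => F (y * I) * Ph χ (y * I) :=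
  int_line (hd.mul h.dPh) (h.dec2 hF).1 (h.dec2 hF).2

lemma Tf.right (h : Tf χ a b) (hd : Differentiable ℂ F) (hF : Dec F t) (hb : b < t) :
    pr F χ = 0 :=
  shift (hd.mul h.dPh) (by linarith) (h.dec2 hF).1 (h.dec2 hF).2

lemma Tf.left (h : Tf χ a b) (hd : Differentiable ℂ F) (hF : Dec (fun z => F (-z)) (-t))
    (ha : t < a) : pr F χ = 0 := by
  have := shift ((hd.comp differentiable_neg).mul h.ok.diff) (by linarith : 0 < -t + a)
    (hF.mul h.ok.dec) (by
      convert hF.mul h.deriv.deriv.ok.dec using 1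
      funext z
      simp only [Pi.mul_apply, Function.comp, h.deriv.parts, h.parts]; ring)
  rw [← this, pr, ← integral_neg_eq_self]
  simp [Ph]

lemma Tf.inv (h : Tf χ a b) (s : ℝ) :
    ∫ y : ℝ, cexp (-(y * I * s)) * Ph χ (y * I) = 2 * π * χ s := by
  have e : ∀ w : ℝ, 𝓕 (fun u => (χ u : ℂ)) w = Ph χ ((-2 * π * w : ℝ) * I) := fun w => by
    rw [Real.fourier_real_eq_integral_exp_smul, Ph, Lp]
    congr 1; funext u
    simp only [smul_eq_mul, id]
    congr 2; push_cast; ring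
  have hp : -2 * π ≠ 0 := by have := Real.pi_pos; linarith
  have i := (h.int (differentiable_const 1) dec_one).comp_mul_left' hp
  have := congrFun (Continuous.fourierInv_fourier_eq (f := fun u => (χ u : ℂ))
    (continuous_ofReal.comp h.sm.continuous) h.ok.int (by rw [funext e]; simpa using i)) s
  have h2 := Measure.integral_comp_mul_left
    (fun y : ℝ => cexp (-(y * I * s)) * Ph χ (y * I)) (-2 * π)
  rw [← this, Real.fourierInv_eq']
  have h3 : ∀ v : ℝ, cexp ((2 * π * inner ℝ v s : ℝ) * I) • 𝓕 (fun u => (χ u : ℂ)) v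
      = cexp (-((-2 * π * v : ℝ) * I * s)) * Ph χ ((-2 * π * v : ℝ) * I) := fun v => by
    rw [e, smul_eq_mul]
    congr 2
    simp; ring
  simp only [h3, h2]
  rw [abs_of_neg (inv_lt_zero.2 (by linarith [Real.pi_pos])), real_smul]
  have : (π : ℂ) ≠ 0 := by exact_mod_cast Real.pi_ne_zero
  generalize ∫ y : ℝ, cexp (-(y * I * s)) * Ph χ (y * I) = J
  push_cast
  field_simp

lemma Tf.pr_Lp [SFinite ρ] (h : Tf χ a b) {c d : ℝ} (hk : Ok ρ T k c d) :
    pr (Lp ρ T k) χ = 2 * π * ∫ y, χ (T y) * k y ∂ρ := by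
  have i := h.int (differentiable_const 1) dec_one
  have := hk.meas
  have c1 := h.dPh.continuous
  simp only [pr, Lp, ← integral_mul_const]
  rw [integral_integral_swap, ← integral_const_mul]
  · congr 1; funext y
    rw [← mul_assoc, ← h.inv, ← integral_mul_const]
    congr 1; funext w; ring
  · refine (i.mul_prod hk.int).norm.mono' (AEStronglyMeasurable.mul (AEStronglyMeasurable.mul
      (Measurable.aestronglyMeasurable (by fun_prop)) hk.int.1.comp_snd)
      (i.1.comp_fst.congr (by simp))) (Eventually.of_forall fun p => ?_)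
    simp [Function.uncurry, norm_exp, mul_comm]

lemma Tf.zero [SFinite ρ] (h : Tf χ a b) {c d : ℝ} (hk : Ok ρ T k c d) (hd : Dec (Lp ρ T k) t)
    (hb : b < t) : ∫ y, χ (T y) * k y ∂ρ = 0 := by
  have := h.right hk.diff hd hb
  rw [h.pr_Lp hk] at this
  simpa using this

lemma ae_zero {l : Measure ℝ} [IsFiniteMeasure l] {h : ℝ → ℂ} (hh : Integrable h l) {c d : ℝ}
    (H : ∀ χ a b, Tf χ a b → c < a → b < d → ∫ s, χ s * h s ∂l = 0) :
    ∀ᵐ s ∂l, s ∈ Ioo c d → h s = 0 := by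
  refine isOpen_Ioo.ae_eq_zero_of_integral_contDiff_smul_eq_zero
    (hh.locallyIntegrable.locallyIntegrableOn _) fun g h1 h2 h3 => ?_
  rcases (tsupport g).eq_empty_or_nonempty with h4 | h4
  · simp [tsupport_eq_empty_iff.1 h4]
  · exact H g _ _ ⟨h1, fun x hx => ⟨csInf_le h2.bddBelow hx, le_csSup h2.bddAbove hx⟩⟩
      (h3 (h2.sInf_mem h4)).1 (h3 (h2.sSup_mem h4)).2

lemma uniq {l : Measure ℝ} [IsFiniteMeasure l] {h : ℝ → ℂ} (hh : Ok l id h a b)
    (hd : Dec (Lp l id h) t) : ∀ᵐ s ∂l, s < t → h s = 0 := by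
  filter_upwards [ae_zero hh.int (c := a - 1) fun χ _ _ h1 _ h2 => h1.zero hh hd h2, hh.supp]
    with s h1 h2 h3
  by_contra h4
  exact h4 (h1 ⟨by linarith [show a ≤ s from (h2 h4).1], h3⟩)

lemma moments {l : Measure ℝ} [IsFiniteMeasure l] {h : ℝ → ℂ} (hh : Ok l id h a b)
    (H : ∀ j : ℕ, ∫ s, (s : ℂ) ^ j * h s ∂l = 0) : ∀ᵐ s ∂l, h s = 0 := by
  refine ae_eq_zero_of_integral_contDiff_smul_eq_zero hh.int.locallyIntegrable fun g h1 _ => ?_
  refine norm_le_zero_iff.1 (le_of_forall_pos_le_add fun ε hε => ?_)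
  have h0 : 0 ≤ ∫ s, ‖h s‖ ∂l := by positivity
  obtain ⟨p, hp⟩ := exists_polynomial_near_of_continuousOn a b g h1.continuous.continuousOn
    (ε / (∫ s, ‖h s‖ ∂l + 1)) (by positivity)
  have e : ∫ s, ((p.eval s : ℝ) : ℂ) * h s ∂l = 0 := by
    simp only [Polynomial.eval_eq_sum_range, ofReal_sum, Finset.sum_mul, ofReal_mul, ofReal_pow,
      mul_assoc]
    rw [integral_finsetSum]
    · simp [integral_const_mul, H]
    · exact fun j _ => ((hh.mul (φ := fun s => (s : ℂ) ^ j) (by fun_prop)).int).const_mul _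
  have c := h1.continuous
  have i1 := (hh.mul (φ := fun s => ((p.eval s : ℝ) : ℂ)) (by fun_prop)).int
  have i2 := (hh.mul (φ := fun s => (g s : ℂ)) (by fun_prop)).int
  have := norm_integral_le_of_norm_le (hh.int.norm.const_mul _)
    (hh.bd (φ := fun s => ((p.eval s - g s : ℝ) : ℂ)) fun s hs => by
      rw [norm_real]; exact (hp s hs).le)
  simp only [ofReal_sub, sub_mul] at this
  rw [integral_sub i1 i2] at this
  simp only [id] at this
  rw [e, zero_sub, norm_neg, integral_const_mul] at this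
  refine le_trans this ?_
  rw [zero_add, div_mul_eq_mul_div, div_le_iff₀ (by positivity)]
  nlinarith

theorem gap {la lb lc : Measure ℝ} [IsFiniteMeasure la] [IsFiniteMeasure lb] [IsFiniteMeasure lc]
    {ha hb hc : ℝ → ℂ} {ε : ℝ} {n : ℕ} (hn : n ≠ 0) (hε : (n + 1) * ε < 1) (e0 : 0 ≤ ε)
    (oa : Ok la id ha 0 1) (ob : Ok lb id hb 0 ε) (oc : Ok lc id hc 0 ε)
    (h1 : Dec (Lp la id ha ^ n - Lp lb id hb) 1) (h2 : Dec (Lp la id ha ^ (n + 1) - Lp lc id hc) 1)
    (h0 : ¬ ∀ᵐ s ∂lb, hb s = 0) : ∀ᵐ s ∂la, s ∈ Ioo (2 * ε) (1 - ε) → ha s = 0 := by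
  have n1 : (1 : ℝ) ≤ n := by exact_mod_cast Nat.one_le_iff_ne_zero.2 hn
  have dA := oa.dec
  have dB := ob.dec
  have dC := oc.dec
  have pA : ∀ m : ℕ, Dec (Lp la id ha ^ m) 0 := fun m => by simpa using dA.pow m
  have B0 : Lp lb id hb ≠ 0 := fun h => h0 (by
    filter_upwards [uniq ob (t := ε + 1) (by rw [h]; exact fun _ => ⟨0, le_rfl, by simp⟩), ob.supp]
      with s h1 h2
    by_contra h3
    exact h3 (h1 (by linarith [show s ≤ ε from (h2 h3).2])))
  have e1 : Lp lb id hb ^ (n + 1) = Lp lc id hc ^ n := by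
    rw [← sub_eq_zero]
    refine liouville (s := (n + 1) * ε) ((ob.diff.pow _).sub (oc.diff.pow _)) ?_ ?_ hε
    · convert ((pA _).pow_sub dC h2 n).sub ((pA _).pow_sub dB h1 (n + 1)) using 1
      ring
    · exact ((ob.decn.pow (n + 1)).mono (by push_cast; linarith)).sub
        ((oc.decn.pow n).mono (by nlinarith))
  obtain ⟨g, dg, g1, g2⟩ := quot ob.diff oc.diff B0 hn e1
  have rg : Dec g 0 := Dec.root hn (by rw [g2]; simpa using dB)
  have lg : Dec (fun z => g (-z)) (-ε) := Dec.root hn (by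
    have : (fun z => g (-z)) ^ n = fun z => Lp lb id hb (-z) := by rw [← g2]; rfl
    rw [this]; exact ob.decn.mono (by nlinarith))
  have oj : ∀ j : ℕ, Ok lb id (fun s => (-(s : ℂ)) ^ j * hb s) 0 ε := fun j =>
    ob.mul (φ := fun s => (-(s : ℂ)) ^ j) (by fun_prop)
  have key : ∀ j : ℕ, ∀ t < 1,
      Dec ((Lp la id ha - g) * Lp lb id fun s => (-(s : ℂ)) ^ j * hb s) t := fun j => by
    induction j with
    | zero =>
      intro t ht
      refine Dec.mono ?_ ht.le
      convert h2.sub ((dA.mul h1).mono (s := 1) (by simp)) using 1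
      simp only [pow_zero, one_mul]
      rw [← g1]; ring
    | succ j ih =>
      convert titch (oa.diff.sub dg) (oj j).diff (dA.sub rg) (oj j).dec one_pos ih using 5
      funext z
      rw [((oj j).hasDerivAt z).deriv]
      simp only [pow_succ', mul_assoc, id]
  obtain ⟨t0, ht0, ht1⟩ : ∃ t0 ∈ Icc 0 ε, t0 ∈ (lb.restrict {s | hb s ≠ 0}).support := by
    have m : NullMeasurableSet {s | hb s ≠ 0} lb :=
      (ob.int.1.aemeasurable.nullMeasurable (measurableSet_singleton 0).compl)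
    obtain ⟨t0, h⟩ := Measure.nonempty_support (μ := lb.restrict {s | hb s ≠ 0})
      (by rw [Ne, Measure.restrict_eq_zero]; exact h0)
    exact ⟨t0, Measure.support_subset_of_isClosed isClosed_Icc
      ((ae_restrict_iff'₀ m).2 ob.supp) h, h⟩
  refine ae_zero oa.int fun ψ a b hψ h3 h4 => ?_
  have hχ : Tf (fun u => ψ (u - t0)) (a + t0) (b + t0) :=
    ⟨hψ.sm.comp (by fun_prop), closure_minimal (fun u hu => by
      have := hψ.supp (subset_tsupport _ hu)
      exact ⟨by linarith [this.1], by linarith [this.2]⟩) isClosed_Icc⟩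
  obtain ⟨C, hC⟩ := hψ.sm.continuous.bounded_above_of_compact_support
    (isCompact_Icc.of_isClosed_subset (isClosed_tsupport _) hψ.supp)
  have cψ := hψ.sm.continuous
  have cK : Continuous fun t : ℝ => ∫ s, (ψ (s + t - t0) : ℂ) * ha s ∂la :=
    continuous_of_dominated (bound := fun s => C * ‖ha s‖)
      (fun t => (oa.mul (φ := fun s => (ψ (s + t - t0) : ℂ)) (by fun_prop)).int.1)
      (fun t => Eventually.of_forall fun s => by
        rw [norm_mul, norm_real]; gcongr; exact hC _) (oa.int.norm.const_mul _)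
      (Eventually.of_forall fun s => by fun_prop)
  have z := moments (ob.mul cK) fun j => by
    have p1 := hχ.right ((oa.diff.sub dg).mul (oj j).diff) (key j ((b + t0 + 1) / 2)
      (by linarith [ht0.2])) (by linarith [ht0.2])
    have p2 := hχ.left (dg.mul (oj j).diff) (t := 2 * ε)
      ((lg.mul (oj j).decn).mono (by linarith)) (by linarith [ht0.1])
    have p3 := hχ.pr_Lp (oa.prod (oj j))
    rw [Lp_prod (k' := fun s : ℝ => (-(s : ℂ)) ^ j * hb s)] at p3
    have p4 := integral_add (hχ.int ((oa.diff.sub dg).mul (oj j).diff) ((dA.sub rg).mul (oj j).dec))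
      (hχ.int (dg.mul (oj j).diff) (rg.mul (oj j).dec))
    rw [show _ + _ = (0 : ℂ) by rw [← add_zero 0]; exact congrArg₂ _ p1 p2] at p4
    simp only [← add_mul, Pi.mul_apply, Pi.sub_apply, sub_add_cancel] at p4
    have p5 : ∫ y, (ψ (y.1 + y.2 - t0) : ℂ) * (ha y.1 * ((-(y.2 : ℂ)) ^ j * hb y.2)) ∂la.prod lb
        = 0 := by simpa using p3.symm.trans p4
    rw [integral_prod_symm _ (by
      exact ((oa.prod (oj j)).mul (φ := fun s => (ψ (s - t0) : ℂ)) (by fun_prop)).int)] at p5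
    simp only [← mul_assoc, integral_mul_const] at p5
    rw [← mul_zero ((-1 : ℂ) ^ j), ← p5, ← integral_const_mul]
    congr 1; funext t
    simp only [id]
    rw [neg_pow (t : ℂ)]
    have : ((-1 : ℂ) ^ j) * (-1) ^ j = 1 := by rw [← mul_pow]; simp
    linear_combination (-(t : ℂ) ^ j * (∫ s, (ψ (s + t - t0) : ℂ) * ha s ∂la) * hb t) * this
  by_contra h5
  have := (Measure.mem_support_iff_forall t0).1 ht1 _
    (cK.continuousAt.eventually_ne (x := t0) (y := 0) (by simpa using h5))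
  refine this.ne' (measure_eq_zero_iff_ae_notMem.2 ?_)
  refine (ae_restrict_iff'₀
    (ob.int.1.aemeasurable.nullMeasurable (measurableSet_singleton 0).compl)).2 ?_
  filter_upwards [z] with s h6 h7 h8
  exact mul_ne_zero h8 h7 h6

end

end Pool.Agent.H58.Vt
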