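import Mathlib

namespace Pool.Agent.H58.VtDefs

open MeasureTheory Set

noncomputable section

/-- `M(0,1)`: the complex Borel measures concentrated on `(0,1)`. -/
def MI : Set (ComplexMeasure ℝ) := {μ | μ.restrict (Ioo 0 1) = μ}

/-- Truncated convolution: `(μ * ν)(E) = (μ × ν){(s,t) : s + t ∈ E}` for `E ⊆ (0,1)`. -/
def mconv (μ ν : ComplexMeasure ℝ) : ComplexMeasure ℝ :=
  ((VectorMeasure.prod μ ν (ContinuousLinearMap.mul ℝ ℂ)).map fun p : ℝ × ℝ => p.1 + p.2).restrict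
    (Ioo 0 1)

/-- `mpow a n` is the `(n+1)`-fold convolution power of `a`. -/
def mpow (a : ComplexMeasure ℝ) : ℕ → ComplexMeasure ℝ
  | 0 => a
  | n + 1 => mconv (mpow a n) a

/-- The total variation norm. -/
def mnorm (μ : ComplexMeasure ℝ) : ℝ := (VectorMeasure.variation μ univ).toReal

/-- Convolution in the Volterra algebra. -/
def vconv (f g : ℝ → ℂ) (t : ℝ) : ℂ := ∫ s in (0 : ℝ)..t, f (t - s) * g s

/-- `vpow f n` is the `(n+1)`-fold convolution power of `f`. -/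
def vpow (f : ℝ → ℂ) : ℕ → ℝ → ℂ
  | 0 => f
  | n + 1 => vconv (vpow f n) f

/-- The norm of `L¹[0,1]`. -/
def vnorm (f : ℝ → ℂ) : ℝ := ∫ t in (0 : ℝ)..1, ‖f t‖

end

end Pool.Agent.H58.VtDefs
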