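import Pool.Agent.H58.VtB
import Pool.Agent.H58.VtDefs

/-! Complex measures on `(0,1)`: densities, convolution, and sequences with long plateaus. -/

namespace Pool.Agent.H58.Vt

open MeasureTheory Filter Set Complex Topology Pool.Agent.H58.VtDefs
open scoped ENNReal

noncomputable section

lemma transfer {X Y : Type} [MeasurableSpace X] [MeasurableSpace Y] {l : Measure X} {ρ : Measure Y}
    {T : Y → X} (hT : Measurable T) {h : X → ℂ} {k : Y → ℂ} (hh : Integrable h l)
    (hk : Integrable k ρ)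
    (H : ∀ E, MeasurableSet E → ∫ x in E, h x ∂l = ∫ y in T ⁻¹' E, k y ∂ρ) {φ : X → ℂ}
    (hφ : Measurable φ) {C : ℝ} (hC : ∀ x, ‖φ x‖ ≤ C) (c0 : 0 ≤ C) :
    ∫ x, φ x * h x ∂l = ∫ y, φ (T y) * k y ∂ρ := by
  have i1 : ∀ f : SimpleFunc X ℂ, Integrable (fun x => f x * h x) l := fun f =>
    let ⟨_, hC⟩ := f.exists_forall_norm_le
    hh.bdd_mul f.aestronglyMeasurable (Eventually.of_forall hC)
  have i2 : ∀ f : SimpleFunc X ℂ, Integrable (fun y => f (T y) * k y) ρ := fun f =>
    let ⟨_, hC⟩ := f.exists_forall_norm_le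
    hk.bdd_mul (f.measurable.comp hT).aestronglyMeasurable (Eventually.of_forall fun _ => hC _)
  have s : ∀ f : SimpleFunc X ℂ, ∫ x, f x * h x ∂l = ∫ y, f (T y) * k y ∂ρ := fun f => by
    induction f using SimpleFunc.induction with
    | @const c E hE =>
      have := congrArg (c * ·) (H E hE)
      simp only [← integral_const_mul] at this
      rw [← integral_indicator hE, ← integral_indicator (hT hE)] at this
      refine Eq.trans (congrArg _ (funext fun x => ?_)) (this.trans (congrArg _ (funext fun y => ?_)))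
      · by_cases hx : x ∈ E <;> simp [hx]
      · by_cases hx : T y ∈ E <;> simp [hx]
    | add _ h1 h2 =>
      simp only [SimpleFunc.coe_add, Pi.add_apply, add_mul]
      rw [integral_add (i1 _) (i1 _), integral_add (i2 _) (i2 _), h1, h2]
  have m := hφ.stronglyMeasurable
  refine tendsto_nhds_unique (tendsto_integral_of_dominated_convergence _
    (fun n => (i1 (m.approxBounded C n)).1) (hh.norm.const_mul C)
    (fun n => Eventually.of_forall fun x => ?_) (Eventually.of_forall fun x =>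
      (m.tendsto_approxBounded_of_norm_le (hC x)).mul_const _)) ?_
  · rw [norm_mul]; gcongr; exact m.norm_approxBounded_le c0 _ _
  simp only [s]
  refine tendsto_integral_of_dominated_convergence _
    (fun n => (i2 (m.approxBounded C n)).1) (hk.norm.const_mul C)
    (fun n => Eventually.of_forall fun x => ?_) (Eventually.of_forall fun x =>
      (m.tendsto_approxBounded_of_norm_le (hC _)).mul_const _)
  rw [norm_mul]; gcongr; exact m.norm_approxBounded_le c0 _ _

lemma Lp_eq {Y : Type} [MeasurableSpace Y] {l : Measure ℝ} {ρ : Measure Y} {T : Y → ℝ} {h : ℝ → ℂ}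
    {k : Y → ℂ} (hh : Ok l id h 0 1) (hk : Ok ρ T k 0 1)
    (H : ∀ E, MeasurableSet E → ∫ x in E, h x ∂l = ∫ y in T ⁻¹' E, k y ∂ρ) :
    Lp l id h = Lp ρ T k := by
  funext z
  obtain ⟨C, hC⟩ := (isCompact_Icc (a := (0 : ℝ)) (b := 1)).exists_bound_of_continuousOn
    (f := fun s : ℝ => cexp (-(z * s))) (by fun_prop)
  have := transfer hk.meas hh.int hk.int H (φ := (Icc 0 1).indicator fun s : ℝ => cexp (-(z * s)))
    (Measurable.indicator (by fun_prop) measurableSet_Icc) (C := max C 0) (fun x => by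
      by_cases hx : x ∈ Icc (0 : ℝ) 1
      · rw [indicator_of_mem hx]; exact (hC x hx).trans (le_max_left _ _)
      · simp [hx]) (le_max_right _ _)
  refine Eq.trans (integral_congr_ae (hh.supp.mono fun s hs => ?_))
    (this.trans (integral_congr_ae (hk.supp.mono fun s hs => ?_)))
  · by_cases h0 : h s = 0
    · simp [h0]
    · simp only [indicator_of_mem (show s ∈ _ from hs h0), id]
  · by_cases h0 : k s = 0
    · simp [h0]
    · simp only [indicator_of_mem (hs h0)]

structure Rp (μ : ComplexMeasure ℝ) (l : Measure ℝ) (h : ℝ → ℂ) : Prop where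
  fin : IsFiniteMeasure l
  int : Integrable h l
  eq : μ = l.withDensityᵥ h

lemma exists_rp2 (μ ν : ComplexMeasure ℝ) : ∃ l h k, Rp μ l h ∧ Rp ν l k := by
  have key : ∀ (μ : ComplexMeasure ℝ) (l : Measure ℝ), IsFiniteMeasure l →
      μ.re.totalVariation ≪ l → μ.im.totalVariation ≪ l → Rp μ l (μ.rnDeriv l) := by
    intro μ l _ h1 h2
    refine ⟨‹_›, μ.integrable_rnDeriv l, ?_⟩
    have e1 := μ.re.withDensityᵥ_rnDeriv_eq l
      ((SignedMeasure.absolutelyContinuous_ennreal_iff _ _).2 (by simpa using h1))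
    have e2 := μ.im.withDensityᵥ_rnDeriv_eq l
      ((SignedMeasure.absolutelyContinuous_ennreal_iff _ _).2 (by simpa using h2))
    ext E hE : 1
    rw [withDensityᵥ_apply (μ.integrable_rnDeriv l) hE]
    apply Complex.ext
    · rw [← RCLike.re_eq_complex_re, ← integral_re (μ.integrable_rnDeriv l).integrableOn]
      exact (congrArg (· E) e1).symm.trans
        (withDensityᵥ_apply (SignedMeasure.integrable_rnDeriv _ _) hE)
    · rw [← RCLike.im_eq_complex_im, ← integral_im (μ.integrable_rnDeriv l).integrableOn]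
      exact (congrArg (· E) e2).symm.trans
        (withDensityᵥ_apply (SignedMeasure.integrable_rnDeriv _ _) hE)
  refine ⟨μ.re.totalVariation + μ.im.totalVariation + (ν.re.totalVariation + ν.im.totalVariation),
    _, _, key μ _ inferInstance ?_ ?_, key ν _ inferInstance ?_ ?_⟩ <;>
  · intro s hs
    simp only [Measure.add_apply, add_eq_zero] at hs
    tauto

variable {μ ν : ComplexMeasure ℝ} {l l' : Measure ℝ} {h h' : ℝ → ℂ}

lemma exists_rp (μ : ComplexMeasure ℝ) : ∃ l h, Rp μ l h :=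
  let ⟨l, h, _, H, _⟩ := exists_rp2 μ μ; ⟨l, h, H⟩

lemma Rp.null (r : Rp μ l h) {S : Set ℝ} (hS : MeasurableSet S) :
    μ.variation S = 0 ↔ ∀ᵐ s ∂l, s ∈ S → h s = 0 := by
  rw [r.eq, Measure.variation_withDensityᵥ r.int, withDensity_apply _ hS,
    lintegral_eq_zero_iff' r.int.1.enorm.restrict, EventuallyEq, ae_restrict_iff' hS]
  simp

instance (μ : ComplexMeasure ℝ) : IsFiniteMeasure μ.variation := by
  obtain ⟨l, h, r⟩ := exists_rp μ
  rw [r.eq, Measure.variation_withDensityᵥ r.int]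
  exact isFiniteMeasure_withDensity r.int.2.ne

lemma mi_null (hμ : μ ∈ MI) : μ.variation (Ioo 0 1)ᶜ = 0 := by
  rw [← show μ.restrict _ = μ from hμ, VectorMeasure.variation_restrict measurableSet_Ioo,
    Measure.restrict_apply measurableSet_Ioo.compl]
  simp

lemma Rp.supp (r : Rp μ l h) (hμ : μ ∈ MI) : ∀ᵐ s ∂l, h s ≠ 0 → s ∈ Ioo 0 1 :=
  ((r.null measurableSet_Ioo.compl).1 (mi_null hμ)).mono fun _ h1 h2 => not_not.1 fun h3 => h2 (h1 h3)

lemma Rp.ok (r : Rp μ l h) (hμ : μ ∈ MI) : Ok l id h 0 1 :=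
  ⟨measurable_id, r.int, (r.supp hμ).mono fun _ h1 h2 => Ioo_subset_Icc_self (h1 h2)⟩

lemma mconv_mem (μ ν : ComplexMeasure ℝ) : mconv μ ν ∈ MI :=
  VectorMeasure.restrict_restrict _ measurableSet_Ioo measurableSet_Ioo |>.trans (by simp [mconv])

lemma prod_wd [SFinite l] [SFinite l'] (hh : Integrable h l) (hh' : Integrable h' l') :
    (l.withDensityᵥ h).prod (l'.withDensityᵥ h') (ContinuousLinearMap.mul ℝ ℂ)
      = (l.prod l').withDensityᵥ fun p => h p.1 * h' p.2 :=
  VectorMeasure.prod_eq_of_forall_apply_prod fun s t hs ht => by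
    rw [withDensityᵥ_apply (hh.mul_prod hh') (hs.prod ht), withDensityᵥ_apply hh hs,
      withDensityᵥ_apply hh' ht, setIntegral_prod_mul]
    rfl

lemma mconv_apply [SFinite l] [SFinite l'] (hh : Integrable h l) (hh' : Integrable h' l')
    {E : Set ℝ} (hE : MeasurableSet E) : mconv (l.withDensityᵥ h) (l'.withDensityᵥ h') E
      = ∫ p in (fun p : ℝ × ℝ => p.1 + p.2) ⁻¹' (E ∩ Ioo 0 1), h p.1 * h' p.2 ∂l.prod l' := by
  rw [mconv, prod_wd hh hh', VectorMeasure.restrict_apply _ measurableSet_Ioo hE,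
    VectorMeasure.map_apply _ measurable_add (hE.inter measurableSet_Ioo),
    withDensityᵥ_apply (hh.mul_prod hh') (measurable_add (hE.inter measurableSet_Ioo))]

lemma dec_conv (hμ : μ ∈ MI) (hν : ν ∈ MI) (r : Rp μ l h) (r' : Rp ν l' h') {m : Measure ℝ}
    {k : ℝ → ℂ} (r'' : Rp (mconv μ ν) m k) : Dec (Lp l id h * Lp l' id h' - Lp m id k) 1 := by
  have := r.fin
  have := r'.fin
  have o := (r.ok hμ).prod (r'.ok hν)
  have mS : MeasurableSet ((fun p : ℝ × ℝ => p.1 + p.2) ⁻¹' Ioo 0 1) :=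
    measurable_add measurableSet_Ioo
  have o1 : Ok (l.prod l') (fun p => p.1 + p.2) (((fun p : ℝ × ℝ => p.1 + p.2) ⁻¹' Ioo 0 1).indicator
      fun p => h p.1 * h' p.2) 0 1 := ⟨measurable_add, o.int.indicator mS,
    Eventually.of_forall fun p hp => Ioo_subset_Icc_self (mem_of_indicator_ne_zero hp :)⟩
  have o2 : Ok (l.prod l') (fun p => p.1 + p.2) (((fun p : ℝ × ℝ => p.1 + p.2) ⁻¹' Ioo 0 1)ᶜ.indicator
      fun p => h p.1 * h' p.2) 1 2 := by
    refine ⟨measurable_add, o.int.indicator mS.compl, ?_⟩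
    filter_upwards [Measure.quasiMeasurePreserving_fst.ae (r.supp hμ),
      Measure.quasiMeasurePreserving_snd.ae (r'.supp hν)] with p h1 h2 h3
    have h4 := mem_of_indicator_ne_zero h3
    rw [indicator_of_mem h4] at h3
    have h5 := h1 (left_ne_zero_of_mul h3)
    have h6 := h2 (right_ne_zero_of_mul h3)
    exact ⟨not_lt.1 fun h7 => h4 ⟨by linarith [h5.1, h6.1], h7⟩, by linarith [h5.2, h6.2]⟩
  rw [Lp_eq (r''.ok (mconv_mem _ _)) o1 fun E hE => by
    rw [← withDensityᵥ_apply r''.int hE, ← r''.eq, r.eq, r'.eq, mconv_apply r.int r'.int hE,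
      setIntegral_indicator mS]; rfl, ← Lp_prod]
  convert o2.dec using 1
  funext z
  rw [Pi.sub_apply, sub_eq_iff_eq_add, Lp, Lp, Lp, ← integral_add
    (o2.mul (φ := fun s => cexp (-(z * s))) (by fun_prop)).int
    (o1.mul (φ := fun s => cexp (-(z * s))) (by fun_prop)).int]
  congr 1; funext p
  rw [← mul_add, indicator_compl_add_self_apply]; rfl

lemma mpow_mem (hμ : μ ∈ MI) (n : ℕ) : mpow μ n ∈ MI := by
  cases n
  exacts [hμ, mconv_mem _ _]

lemma dec_pow (hμ : μ ∈ MI) (r : Rp μ l h) (n : ℕ) : ∀ {m k}, Rp (mpow μ n) m k →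
    Dec (Lp l id h ^ (n + 1) - Lp m id k) 1 := by
  induction n with
  | zero =>
    intro m k r'
    rw [Lp_eq (r'.ok hμ) (r.ok hμ) fun E hE => by
      rw [← withDensityᵥ_apply r'.int hE, ← r'.eq, preimage_id, ← withDensityᵥ_apply r.int hE,
        ← r.eq]; rfl]
    exact fun _ => ⟨0, le_rfl, by simp⟩
  | succ n ih =>
    intro m k r'
    obtain ⟨m', k', r''⟩ := exists_rp (mpow μ n)
    convert (((ih r'').mul (r.ok hμ).dec).mono (s := 1) (by simp)).add
      (dec_conv (mpow_mem hμ n) hμ r'' r r') using 1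
    ring

lemma mpow_add (hμ : μ ∈ MI) (i j : ℕ) :
    mpow μ (i + j + 1) = mconv (mpow μ i) (mpow μ j) := by
  obtain ⟨l, h, r⟩ := exists_rp μ
  obtain ⟨m, k, k', r1, r2⟩ := exists_rp2 (mpow μ (i + j + 1)) (mconv (mpow μ i) (mpow μ j))
  obtain ⟨li, hi, ri⟩ := exists_rp (mpow μ i)
  obtain ⟨lj, hj, rj⟩ := exists_rp (mpow μ j)
  have := r1.fin
  have o1 := r1.ok (mpow_mem hμ _)
  have o2 := r2.ok (mconv_mem _ _)
  have o : Ok m id (fun s => k s - k' s) 0 1 := ⟨measurable_id, r1.int.sub r2.int, by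
    filter_upwards [o1.supp, o2.supp] with s h1 h2 h3
    by_cases h4 : k s = 0
    · exact h2 fun h5 => h3 (by rw [h4, h5, sub_zero])
    · exact h1 h4⟩
  have d : Dec (Lp m id fun s => k s - k' s) 1 := by
    have p : Dec (Lp l id h ^ (i + 1)) 0 := by simpa using (r.ok hμ).dec.pow (i + 1)
    convert (((dec_conv (mpow_mem hμ i) (mpow_mem hμ j) ri rj r2).add
      (((dec_pow hμ r i ri).mul (rj.ok (mpow_mem hμ j)).dec).mono (s := 1) (by simp))).add
      ((p.mul (dec_pow hμ r j rj)).mono (s := 1) (by simp))).sub (dec_pow hμ r _ r1) using 1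
    have : (Lp m id fun s => k s - k' s) = Lp m id k - Lp m id k' := funext fun z => by
      simp only [Lp, mul_sub, Pi.sub_apply]
      exact integral_sub (o1.mul (φ := fun s => cexp (-(z * s))) (by fun_prop)).int
        (o2.mul (φ := fun s => cexp (-(z * s))) (by fun_prop)).int
    rw [this]; ring
  rw [r1.eq, r2.eq]
  refine WithDensityᵥEq.congr_ae ?_
  filter_upwards [uniq o d, r1.supp (mpow_mem hμ _), r2.supp (mconv_mem _ _)] with s h1 h2 h3
  by_cases h4 : s < 1
  · exact sub_eq_zero.1 (h1 h4)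
  · rw [not_not.1 fun h => h4 (h2 h).2, not_not.1 fun h => h4 (h3 h).2]

lemma doubling {r : ℝ} (h1 : mnorm (mconv μ μ) = mnorm μ ^ 2)
    (h2 : (mconv μ μ).variation (Ioi r) = 0) : μ.variation (Ioi (r / 2)) = 0 := by
  have e : (mconv μ μ).variation univ = (μ.variation.prod μ.variation) univ := by
    rw [← univ_prod_univ, Measure.prod_prod, ← sq]
    exact (ENNReal.toReal_eq_toReal_iff' (measure_ne_top _ _) (by finiteness)).1
      (by rw [ENNReal.toReal_pow]; exact h1)
  have le : (mconv μ μ).variation (Iic r) ≤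
      (μ.variation.prod μ.variation) (Ioi (r / 2) ×ˢ Ioi (r / 2))ᶜ := by
    refine (VectorMeasure.variation_restrict_le _).trans ((Measure.restrict_le_self _).trans
      ((VectorMeasure.variation_map_le _).trans ?_))
    rw [Measure.map_apply measurable_add measurableSet_Iic]
    refine (VectorMeasure.variation_prod_le _).trans ?_
    rw [Measure.smul_apply, smul_eq_mul]
    refine (mul_le_of_le_one_left' ?_).trans (measure_mono fun p hp h => ?_)
    · rw [← ofReal_norm, ENNReal.ofReal_le_one]; exact ContinuousLinearMap.opNorm_mul_le _ _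
    · have h3 : p.1 + p.2 ≤ r := hp
      linarith [show r / 2 < p.1 from h.1, show r / 2 < p.2 from h.2]
  rw [← measure_add_measure_compl (measurableSet_Ioi (a := r)), h2, zero_add, compl_Ioi,
    ← measure_add_measure_compl ((measurableSet_Ioi (a := r / 2)).prod
      (measurableSet_Ioi (a := r / 2)))] at e
  rw [e] at le
  have := (ENNReal.add_le_add_iff_right (measure_ne_top _ _)).1 (le.trans_eq (zero_add _).symm)
  simpa using this

lemma plateau (hμ : μ ∈ MI) (c : ℝ) (K : ℕ) : ∀ m, (∀ j ≤ K, ∀ i, i + 1 = (m + 1) * 2 ^ j →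
    mnorm (mpow μ i) = c ^ (i + 1)) → (mpow μ m).variation (Ioi ((1 / 2) ^ K)) = 0 := by
  induction K with
  | zero =>
    refine fun m _ => measure_mono_null ?_ (mi_null (mpow_mem hμ m))
    intro s hs h
    simp only [pow_zero, mem_Ioi] at hs; linarith [h.2]
  | succ K ih =>
    intro m H
    have := ih (m + m + 1) fun j hj i hi => H (j + 1) (by omega) i (by rw [hi]; ring)
    rw [mpow_add hμ] at this
    rw [pow_succ, mul_one_div]
    refine doubling ?_ this
    rw [← mpow_add hμ, H 1 (by omega) _ (by ring), H 0 (by omega) _ (by ring)]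
    ring

def cc (m : ℕ) : ℝ := ((Nat.log 3 (Nat.log 2 m) : ℝ) + 1)⁻¹

theorem main_M : ¬ ∃ a ∈ MI, ∀ n, mnorm (mpow a n) = cc (n + 1) ^ (n + 1) := by
  rintro ⟨a, ha, H⟩
  obtain ⟨l, h, r⟩ := exists_rp a
  have := r.fin
  have key : ∀ k : ℕ, ∀ᵐ s ∂l, s ∈ Ioo (2 * (1 / 2 : ℝ) ^ (3 ^ (k + 1) + 1))
      (1 - (1 / 2) ^ (3 ^ (k + 1) + 1)) → h s = 0 := fun k => by
    have n8 : 2 ^ 3 ≤ 2 ^ 3 ^ (k + 1) :=
      Nat.pow_le_pow_right two_pos (Nat.le_self_pow (by omega) 3)
    obtain ⟨n, hn⟩ : ∃ n, 2 ^ 3 ^ (k + 1) = n + 1 := ⟨2 ^ 3 ^ (k + 1) - 1, by omega⟩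
    have pl : ∀ m, m = n ∨ m = n + 1 →
        (mpow a m).variation (Ioi ((1 / 2) ^ (3 ^ (k + 1) + 1))) = 0 := fun m hm => by
      refine plateau ha ((k + 1 : ℕ) + 1 : ℝ)⁻¹ _ m fun j hj i hi => ?_
      rw [H, cc]
      congr 4
      have j1 : 2 ^ j ≤ (n + 1) * 2 := by
        rw [← hn, ← pow_succ]; exact Nat.pow_le_pow_right two_pos hj
      have j2 : 1 ≤ 2 ^ j := Nat.one_le_two_pow
      refine (Nat.log_eq_iff (Or.inl (by omega))).2 ⟨Nat.le_log_of_pow_le one_lt_two ?_,
        Nat.log_lt_of_lt_pow (by omega) ?_⟩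
      · rw [hn, hi]; exact le_trans (by omega) (Nat.le_mul_of_pos_right _ j2)
      · rw [pow_succ 3, pow_mul, hn, hi]
        have : (m + 1) * 2 ^ j ≤ (n + 2) * ((n + 1) * 2) := Nat.mul_le_mul (by omega) j1
        have h7 : 7 ≤ n := by omega
        nlinarith [Nat.mul_le_mul h7 h7, Nat.mul_le_mul_left (n + 1) (Nat.mul_le_mul h7 (le_refl n))]
    obtain ⟨lb, hb, rb⟩ := exists_rp (mpow a n)
    obtain ⟨lc, hc, rc⟩ := exists_rp (mpow a (n + 1))
    have := rb.fin
    have := rc.fin
    have ok : ∀ {m l h}, m = n ∨ m = n + 1 → Rp (mpow a m) l h →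
        Ok l id h 0 ((1 / 2) ^ (3 ^ (k + 1) + 1)) := fun hm r => ⟨measurable_id, r.int, by
      filter_upwards [(r.null measurableSet_Ioi).1 (pl _ hm), r.supp (mpow_mem ha _)]
        with s h1 h2 h3
      exact ⟨(h2 h3).1.le, not_lt.1 fun h4 => h3 (h1 h4)⟩⟩
    refine gap (n := n + 1) (by omega) ?_ (by positivity) (r.ok ha) (ok (.inl rfl) rb)
      (ok (.inr rfl) rc) (dec_pow ha r n rb) (dec_pow ha r _ rc) fun h0 => ?_
    · have : (2 : ℝ) ^ 3 ^ (k + 1) = n + 1 := by exact_mod_cast hn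
      have h7 : (7 : ℝ) ≤ n := by exact_mod_cast (by omega : 7 ≤ n)
      rw [one_div, inv_pow, pow_succ, this, mul_inv_lt_iff₀ (by positivity)]
      push_cast; linarith
    · have h1 := H n
      rw [mnorm, (rb.null .univ).2 (by simpa using h0)] at h1
      exact (pow_pos (by unfold cc; positivity) _).ne h1
  have h1 := H 0
  rw [mpow, mnorm, (r.null .univ).2 ?_] at h1
  · exact (pow_pos (by unfold cc; positivity) _).ne h1
  filter_upwards [ae_all_iff.2 key, r.supp ha] with s h2 h3 _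
  by_contra h4
  have t : Tendsto (fun k : ℕ => (1 / 2 : ℝ) ^ (3 ^ (k + 1) + 1)) atTop (𝓝 0) :=
    (tendsto_pow_atTop_nhds_zero_of_lt_one (by norm_num) (by norm_num)).comp
      (tendsto_atTop_mono (fun k => (Nat.lt_pow_self (by norm_num)).le.trans' (Nat.le_succ k)
        |>.trans (Nat.le_succ _)) tendsto_id)
  obtain ⟨k, h5, h6⟩ := ((t.eventually (gt_mem_nhds (half_pos (h3 h4).1))).and
    (t.eventually (gt_mem_nhds (sub_pos.2 (h3 h4).2)))).exists
  exact h4 (h2 k ⟨by linarith, by linarith⟩)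

lemma vconv_rep {f g : ℝ → ℂ} (hf : IntegrableOn f (Ioo 0 1)) (hg : IntegrableOn g (Ioo 0 1)) :
    IntegrableOn (vconv f g) (Ioo 0 1) ∧
    mconv (volume.withDensityᵥ ((Ioo 0 1).indicator f)) (volume.withDensityᵥ ((Ioo 0 1).indicator g))
      = volume.withDensityᵥ ((Ioo 0 1).indicator (vconv f g)) := by
  have i1 := hf.integrable_indicator measurableSet_Ioo
  have i2 := hg.integrable_indicator measurableSet_Ioo
  have mp := measurePreserving_sub_prod (volume : Measure ℝ) (volume : Measure ℝ)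
  have i3 := (mp.integrable_comp (i1.mul_prod i2).1).2 (i1.mul_prod i2)
  have e : ∀ t ∈ Ioo (0 : ℝ) 1, ∫ s, (Ioo 0 1).indicator f (t - s) * (Ioo 0 1).indicator g s
      = vconv f g t := fun t ht => by
    rw [vconv, intervalIntegral.integral_of_le ht.1.le, integral_Ioc_eq_integral_Ioo,
      ← integral_indicator measurableSet_Ioo]
    congr 1; funext s
    by_cases h : s ∈ Ioo 0 t
    · rw [indicator_of_mem h, indicator_of_mem (show t - s ∈ Ioo 0 1 from
        ⟨by linarith [h.2], by linarith [h.1, ht.2]⟩),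
        indicator_of_mem (show s ∈ Ioo 0 1 from ⟨h.1, h.2.trans ht.2⟩)]
    · rw [indicator_of_notMem h]
      by_contra h1
      exact h ⟨(mem_of_indicator_ne_zero (right_ne_zero_of_mul h1)).1,
        by linarith [(mem_of_indicator_ne_zero (left_ne_zero_of_mul h1)).1]⟩
  have i4 : IntegrableOn (vconv f g) (Ioo 0 1) :=
    i3.integral_prod_left.integrableOn.congr_fun e measurableSet_Ioo
  refine ⟨i4, ?_⟩
  ext E hE : 1
  have mE := hE.inter (measurableSet_Ioo (a := (0 : ℝ)) (b := 1))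
  rw [mconv_apply i1 i2 hE, withDensityᵥ_apply (i4.integrable_indicator measurableSet_Ioo) hE,
    setIntegral_indicator measurableSet_Ioo, ← setIntegral_congr_fun mE fun t ht => e t ht.2]
  conv_lhs => rw [← mp.map_eq]
  rw [setIntegral_map (measurable_add mE) (by rw [mp.map_eq]; exact (i1.mul_prod i2).1)
    mp.measurable.aemeasurable]
  have : (fun z : ℝ × ℝ => (z.1 - z.2, z.2)) ⁻¹' ((fun p : ℝ × ℝ => p.1 + p.2) ⁻¹' (E ∩ Ioo 0 1))
      = (E ∩ Ioo 0 1) ×ˢ univ := by ext z; simp
  rw [this, setIntegral_prod _ (by exact i3.integrableOn)]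
  simp

theorem main_L : ¬ ∃ f : ℝ → ℂ, IntegrableOn f (Icc 0 1) ∧
    ∀ n, vnorm (vpow f n) = cc (n + 1) ^ (n + 1) := by
  rintro ⟨f, hf, H⟩
  replace hf := hf.mono_set Ioo_subset_Icc_self
  have key : ∀ n, IntegrableOn (vpow f n) (Ioo 0 1) ∧
      mpow (volume.withDensityᵥ ((Ioo 0 1).indicator f)) n
        = volume.withDensityᵥ ((Ioo 0 1).indicator (vpow f n)) := fun n => by
    induction n with
    | zero => exact ⟨hf, rfl⟩
    | succ n ih => rw [mpow, ih.2]; exact vconv_rep ih.1 hf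
  refine main_M ⟨volume.withDensityᵥ ((Ioo 0 1).indicator f), ?_, fun n => ?_⟩
  · have i := hf.integrable_indicator measurableSet_Ioo
    ext E hE : 1
    rw [VectorMeasure.restrict_apply _ measurableSet_Ioo hE,
      withDensityᵥ_apply i (hE.inter measurableSet_Ioo), withDensityᵥ_apply i hE,
      setIntegral_indicator measurableSet_Ioo, setIntegral_indicator measurableSet_Ioo,
      inter_assoc, inter_self]
  · have i := (key n).1.integrable_indicator measurableSet_Ioo
    rw [← H, (key n).2, mnorm, Measure.variation_withDensityᵥ i, withDensity_apply _ .univ,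
      Measure.restrict_univ, ← integral_norm_eq_lintegral_enorm i.1, vnorm,
      intervalIntegral.integral_of_le zero_le_one, integral_Ioc_eq_integral_Ioo,
      ← integral_indicator measurableSet_Ioo]
    simp only [norm_indicator_eq_indicator_norm]

lemma cc_anti : Antitone cc := fun m n h =>
  inv_anti₀ (by positivity) (by
    have := Nat.log_mono_right (b := 3) (Nat.log_mono_right (b := 2) h)
    gcongr)

lemma cc_pos (n : ℕ) : 0 < cc n := by unfold cc; positivity

lemma cc_lim : Tendsto cc atTop (𝓝 0) := by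
  have t : ∀ b, 1 < b → Tendsto (Nat.log b) atTop atTop := fun b hb =>
    tendsto_atTop_atTop.2 fun k => ⟨b ^ k, fun a ha => Nat.le_log_of_pow_le hb ha⟩
  exact tendsto_inv_atTop_zero.comp (tendsto_atTop_add_const_right _ _
    (tendsto_natCast_atTop_atTop.comp ((t 3 (by norm_num)).comp (t 2 (by norm_num)))))

end

end Pool.Agent.H58.Vt
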