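import Mathlib

set_option autoImplicit false

namespace Pool.Agent.H58.WotOpen
open Filter Topology InnerProductSpace

section Baire
variable (X : Type) [NormedAddCommGroup X] [NormedSpace ℂ X]

/-- matrix coefficients of a contraction -/
noncomputable def FF (T : {T : X →L[ℂ] X // ‖T‖ ≤ 1}) (p : X × (X →L[ℂ] ℂ)) : ℂ := p.2 (T.1 p.1)

lemma range_compact (hr : Function.Surjective (NormedSpace.inclusionInDoubleDual ℂ X)) :
    IsCompact (Set.range (FF X)) := by
  set K : Set (X × (X →L[ℂ] ℂ) → ℂ) := {g | (∀ x y f, g (x + y, f) = g (x, f) + g (y, f)) ∧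
    (∀ (c : ℂ) x f, g (c • x, f) = c * g (x, f)) ∧ (∀ x f f', g (x, f + f') = g (x, f) + g (x, f')) ∧
    (∀ (c : ℂ) x f, g (x, c • f) = c * g (x, f)) ∧ ∀ x f, ‖g (x, f)‖ ≤ ‖x‖ * ‖f‖} with hK
  have h1 : Set.range (FF X) = K := by
    ext g
    constructor
    · rintro ⟨T, rfl⟩
      refine ⟨fun x y f => by simp [FF], fun c x f => by simp [FF], fun x f f' => by simp [FF],
        fun c x f => by simp [FF], fun x f => ?_⟩
      refine (f.le_opNorm _).trans ?_
      rw [mul_comm]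
      gcongr
      exact (T.1.le_opNorm x).trans (mul_le_of_le_one_left (norm_nonneg _) T.2)
    · rintro ⟨a1, a2, a3, a4, a5⟩
      have : ∀ x, ∃ y : X, ∀ f : X →L[ℂ] ℂ, f y = g (x, f) := by
        intro x
        obtain ⟨y, hy⟩ := hr (LinearMap.mkContinuous
          { toFun := fun f => g (x, f), map_add' := a3 x, map_smul' := fun c f => a4 c x f } ‖x‖ (a5 x))
        exact ⟨y, fun f => by simpa using congrArg (fun Φ => Φ f) hy⟩
      choose t ht using this
      have hb : ∀ x, ‖t x‖ ≤ 1 * ‖x‖ := fun x => by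
        rw [one_mul]
        exact NormedSpace.norm_le_dual_bound ℂ _ (norm_nonneg x) fun f => by rw [ht]; exact a5 x f
      let L : X →ₗ[ℂ] X :=
        { toFun := t
          map_add' := fun x y => (SeparatingDual.eq_iff_forall_dual_eq (R := ℂ)).2 fun f => by
            rw [map_add, ht, ht, ht, a1]
          map_smul' := fun c x => (SeparatingDual.eq_iff_forall_dual_eq (R := ℂ)).2 fun f => by
            rw [map_smul, ht, ht, a2]; rfl }
      refine ⟨⟨L.mkContinuous 1 hb, L.mkContinuous_norm_le zero_le_one hb⟩, ?_⟩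
      ext p
      exact ht p.1 p.2
  rw [h1]
  have h2 : IsClosed K := by
    simp only [hK, Set.ofPred_and, Set.ofPred_forall]
    refine IsClosed.inter ?_ (IsClosed.inter ?_ (IsClosed.inter ?_ (IsClosed.inter ?_ ?_)))
    · exact isClosed_iInter fun _ => isClosed_iInter fun _ => isClosed_iInter fun _ =>
        isClosed_eq (by fun_prop) (by fun_prop)
    · exact isClosed_iInter fun _ => isClosed_iInter fun _ => isClosed_iInter fun _ =>
        isClosed_eq (by fun_prop) (by fun_prop)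
    · exact isClosed_iInter fun _ => isClosed_iInter fun _ => isClosed_iInter fun _ =>
        isClosed_eq (by fun_prop) (by fun_prop)
    · exact isClosed_iInter fun _ => isClosed_iInter fun _ => isClosed_iInter fun _ =>
        isClosed_eq (by fun_prop) (by fun_prop)
    · exact isClosed_iInter fun _ => isClosed_iInter fun _ =>
        isClosed_le (by fun_prop) (by fun_prop)
  refine (isCompact_univ_pi fun p : X × (X →L[ℂ] ℂ) =>
    isCompact_closedBall (0 : ℂ) (‖p.1‖ * ‖p.2‖)).of_isClosed_subset h2 fun g hg p _ => ?_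
  rw [mem_closedBall_zero_iff]
  exact hg.2.2.2.2 p.1 p.2

lemma baire (hr : Function.Surjective (NormedSpace.inclusionInDoubleDual ℂ X)) :
    @BaireSpace {T : X →L[ℂ] X // ‖T‖ ≤ 1} (TopologicalSpace.induced (FF X) inferInstance) := by
  let : TopologicalSpace {T : X →L[ℂ] X // ‖T‖ ≤ 1} := TopologicalSpace.induced (FF X) inferInstance
  have hi : IsInducing (FF X) := ⟨rfl⟩
  have h1 : R1Space {T : X →L[ℂ] X // ‖T‖ ≤ 1} := hi.r1Space
  have h2 : CompactSpace {T : X →L[ℂ] X // ‖T‖ ≤ 1} :=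
    ⟨hi.isCompact_iff.2 (by rw [Set.image_univ]; exact range_compact X hr)⟩
  infer_instance

end Baire

section Split
variable {H : Type} [NormedAddCommGroup H] [InnerProductSpace ℂ H] [CompleteSpace H]
  {X : Type} [NormedAddCommGroup X] [NormedSpace ℂ X]

lemma hilbert_refl (Ψ : (H →L[ℂ] ℂ) →L[ℂ] ℂ) : ∃ z : H, ∀ g, Ψ g = g z := by
  let L : H →ₗ[ℂ] ℂ :=
    { toFun := fun y => (starRingEnd ℂ) (Ψ (toDual ℂ H y))
      map_add' := fun x y => by simp
      map_smul' := fun c x => by rw [LinearIsometryEquiv.map_smulₛₗ, map_smul]; simp }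
  have hb : ∀ y, ‖L y‖ ≤ ‖Ψ‖ * ‖y‖ := fun y => by
    have := Ψ.le_opNorm (toDual ℂ H y)
    simpa [L] using this
  refine ⟨(toDual ℂ H).symm (L.mkContinuous _ hb), fun g => ?_⟩
  obtain ⟨y, rfl⟩ := (toDual ℂ H).surjective g
  rw [toDual_apply_apply, ← inner_conj_symm, toDual_symm_apply]
  simp [L]

structure Sp (H X : Type) [NormedAddCommGroup H] [InnerProductSpace ℂ H]
    [NormedAddCommGroup X] [NormedSpace ℂ X] where
  u : X
  i2 : H →L[ℂ] X
  p1 : X →L[ℂ] ℂ
  p2 : X →L[ℂ] H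
  dec : ∀ x, x = p1 x • u + i2 (p2 x)
  nrm : ∀ x, ‖x‖ = ‖p1 x‖ + ‖p2 x‖
  h11 : p1 u = 1
  h21 : p2 u = 0
  h12 : ∀ h, p1 (i2 h) = 0
  h22 : ∀ h, p2 (i2 h) = h

lemma Sp.refl (s : Sp H X) : Function.Surjective (NormedSpace.inclusionInDoubleDual ℂ X) := by
  intro Φ
  obtain ⟨z, hz⟩ := hilbert_refl (Φ.comp ((ContinuousLinearMap.compL ℂ X H ℂ).flip s.p2))
  refine ⟨Φ s.p1 • s.u + s.i2 z, ?_⟩
  ext f
  have e : f = f s.u • s.p1 + (f.comp s.i2).comp s.p2 := by
    ext x
    conv_lhs => rw [s.dec x]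
    simp [mul_comm]
  have := hz (f.comp s.i2)
  simp only [ContinuousLinearMap.comp_apply, ContinuousLinearMap.flip_apply,
    ContinuousLinearMap.compL_apply] at this
  conv_rhs => rw [e, map_add, map_smul, this]
  simp [mul_comm]

lemma Sp.small (s : Sp H X) (e : H) (he : ‖e‖ = 1) (T : X →L[ℂ] X) (hT : ‖T‖ ≤ 1)
    (c1 : 1 - 1 / 200 < (s.p1 (T (s.i2 e))).re) (c2 : ‖s.p1 (T s.u)‖ < 1 / 10)
    (c3 : ‖inner ℂ e (s.p2 (T s.u))‖ < 1 / 10) : ‖T ^ 3‖ ≤ 1 / 2 := by
  have hT' : ∀ x, ‖T x‖ ≤ ‖x‖ := fun x =>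
    (T.le_opNorm x).trans (mul_le_of_le_one_left (norm_nonneg _) hT)
  have ni : ∀ h, ‖s.i2 h‖ = ‖h‖ := fun h => by rw [s.nrm, s.h12, s.h22]; simp
  have nu : ‖s.u‖ = 1 := by rw [s.nrm, s.h11, s.h21]; simp
  set φ := s.p1.comp (T.comp s.i2) with hφ
  set S := s.p2.comp (T.comp s.i2) with hS
  have k : ∀ h, ‖φ h‖ + ‖S h‖ ≤ ‖h‖ := fun h => by
    have := hT' (s.i2 h)
    rw [ni, s.nrm] at this
    exact this
  have c1' : 1 - 1 / 200 < (φ e).re := c1
  have hSn : ∀ h, ‖S h‖ ≤ 1 / 10 * ‖h‖ := by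
    refine fun h => S.le_of_opNorm_le (ContinuousLinearMap.opNorm_le_of_unit_norm (by norm_num) ?_) h
    intro h hh
    set w : H := (1 / 10 : ℂ) • h with hw
    have nw : ‖w‖ = 1 / 10 := by rw [hw, norm_smul, hh]; simp
    have a1 := k (e + w)
    have a2 := k (e - w)
    have a3 := parallelogram_law_with_norm ℂ e w
    rw [he, nw] at a3
    have a4 : ‖e + w‖ + ‖e - w‖ ≤ 2 + 1 / 100 := by
      nlinarith [sq_nonneg (‖e + w‖ - ‖e - w‖), norm_nonneg (e + w), norm_nonneg (e - w)]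
    have a5 : 2 * (φ e).re ≤ ‖φ (e + w)‖ + ‖φ (e - w)‖ := by
      have b1 := Complex.re_le_norm (φ (e + w))
      have b2 := Complex.re_le_norm (φ (e - w))
      rw [map_add, Complex.add_re] at b1
      rw [map_sub, Complex.sub_re] at b2
      rw [map_add, map_sub]
      linarith
    have a6 : 2 * (1 / 10 * ‖S h‖) ≤ ‖S (e + w)‖ + ‖S (e - w)‖ := by
      have b1 := norm_sub_le (S (e + w)) (S (e - w))
      have b2 : S (e + w) - S (e - w) = (1 / 5 : ℂ) • S h := by
        rw [map_add, map_sub, hw, map_smul]; module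
      rw [b2, norm_smul] at b1
      simp only [one_div, norm_inv, Complex.norm_ofNat] at b1
      linarith
    linarith
  have hφn : ‖φ‖ ≤ 1 := φ.opNorm_le_bound zero_le_one fun h => by linarith [k h, norm_nonneg (S h)]
  obtain ⟨y, hy⟩ := (toDual ℂ H).surjective φ
  have ny : ‖y‖ ≤ 1 := by rw [← (toDual ℂ H).norm_map, hy]; exact hφn
  have nye : ‖y - e‖ ≤ 1 / 10 := by
    have b1 := norm_sub_sq (𝕜 := ℂ) y e
    have b2 : RCLike.re (inner ℂ y e) = (φ e).re := by rw [← hy]; rfl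
    rw [b2, he] at b1
    nlinarith [norm_nonneg y, norm_nonneg (y - e)]
  set v := s.p2 (T s.u) with hv
  have nv : ‖v‖ ≤ 1 := by
    have := hT' s.u
    rw [nu, s.nrm] at this
    linarith [norm_nonneg (s.p1 (T s.u))]
  have hφv : ‖φ v‖ ≤ 2 / 10 := by
    have b1 : φ v = inner ℂ (y - e) v + inner ℂ e v := by
      rw [← hy, inner_sub_left]; simp
    rw [b1]
    have b2 := norm_inner_le_norm (𝕜 := ℂ) (y - e) v
    have b3 : ‖y - e‖ * ‖v‖ ≤ 1 / 10 * 1 := by gcongr
    linarith [norm_add_le (inner ℂ (y - e) v) (inner ℂ e v)]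
  have t2 : ‖T (T s.u)‖ ≤ 4 / 10 := by
    conv_lhs => rw [s.dec (T s.u)]
    rw [map_add, map_smul]
    refine (norm_add_le _ _).trans ?_
    rw [norm_smul, s.nrm (T (s.i2 _))]
    have b1 : ‖s.p1 (T s.u)‖ * ‖T s.u‖ ≤ 1 / 10 * 1 := by
      gcongr
      exact (hT' _).trans nu.le
    have b2 := hSn v
    change _ + (‖φ v‖ + ‖S v‖) ≤ _
    linarith
  have t3 : ∀ h, ‖T (T (T (s.i2 h)))‖ ≤ 1 / 2 * ‖h‖ := by
    intro h
    conv_lhs => rw [s.dec (T (s.i2 h))]
    rw [map_add, map_add, map_smul, map_smul]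
    refine (norm_add_le _ _).trans ?_
    rw [norm_smul]
    have b1 : ‖T (T (s.i2 (S h)))‖ ≤ 1 / 10 * ‖h‖ :=
      (hT' _).trans ((hT' _).trans ((ni _).le.trans (hSn h)))
    have b2 : ‖φ h‖ * ‖T (T s.u)‖ ≤ ‖h‖ * (4 / 10) := by
      gcongr
      linarith [k h, norm_nonneg (S h)]
    change ‖φ h‖ * _ + ‖T (T (s.i2 (S h)))‖ ≤ _
    linarith
  refine ContinuousLinearMap.opNorm_le_bound _ (by norm_num) fun x => ?_
  have e3 : (T ^ 3) x = T (T (T x)) := rfl
  rw [e3]
  conv_lhs => rw [s.dec x]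
  rw [map_add, map_add, map_add, map_smul, map_smul, map_smul]
  refine (norm_add_le _ _).trans ?_
  rw [norm_smul, s.nrm x]
  have b1 : ‖s.p1 x‖ * ‖T (T (T s.u))‖ ≤ ‖s.p1 x‖ * (1 / 2) := by
    gcongr
    linarith [hT' (T (T s.u))]
  linarith [t3 (s.p2 x)]

omit [CompleteSpace H] in
lemma stable (T : X →L[ℂ] X) (hT : ‖T‖ ≤ 1) (h3 : ‖T ^ 3‖ ≤ 1 / 2) (x : X) (f : X →L[ℂ] ℂ) :
    Tendsto (fun n : ℕ => f ((T ^ n) x)) atTop (𝓝 0) := by
  have h1 : ∀ n, ‖T ^ n‖ ≤ 1 := fun n => by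
    induction n with
    | zero => rw [pow_zero]; exact ContinuousLinearMap.norm_id_le
    | succ n ih => rw [pow_succ]; exact (norm_mul_le _ _).trans (mul_le_one₀ ih (norm_nonneg _) hT)
  have h2 : ∀ m r, ‖T ^ (r + 3 * m)‖ ≤ (1 / 2) ^ m := fun m r => by
    induction m with
    | zero => simpa using h1 r
    | succ m ih =>
      rw [mul_add, mul_one, ← add_assoc, pow_add, pow_succ (1 / 2 : ℝ)]
      exact (norm_mul_le _ _).trans (by gcongr)
  have h4 : Tendsto (fun n : ℕ => ‖f‖ * ((1 / 2 : ℝ) ^ (n / 3) * ‖x‖)) atTop (𝓝 (‖f‖ * (0 * ‖x‖))) :=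
    (((tendsto_pow_atTop_nhds_zero_of_lt_one (by norm_num) (by norm_num)).comp
      (Nat.tendsto_div_const_atTop (by norm_num))).mul_const _).const_mul _
  rw [zero_mul, mul_zero] at h4
  refine squeeze_zero_norm (fun n => ?_) h4
  refine (f.le_opNorm _).trans ?_
  gcongr
  refine ((T ^ n).le_opNorm x).trans ?_
  gcongr
  have := h2 (n / 3) (n % 3)
  rwa [Nat.mod_add_div] at this

theorem Sp.not_meagre (s : Sp H X) (e : H) (he : ‖e‖ = 1) :
    ¬ @IsMeagre {T : X →L[ℂ] X // ‖T‖ ≤ 1} (TopologicalSpace.induced (FF X) inferInstance)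
      {T | ∀ (x : X) (f : X →L[ℂ] ℂ), Tendsto (fun n : ℕ => f ((T.1 ^ n) x)) atTop (𝓝 0)} := by
  have hb := baire X s.refl
  let : TopologicalSpace {T : X →L[ℂ] X // ‖T‖ ≤ 1} := TopologicalSpace.induced (FF X) inferInstance
  have hc : Continuous (FF X) := continuous_induced_dom
  have hc' : ∀ p, Continuous (fun T => FF X T p) := fun p => (continuous_apply p).comp hc
  intro hm
  set U : Set {T : X →L[ℂ] X // ‖T‖ ≤ 1} := {T | 1 - 1 / 200 < (FF X T (s.i2 e, s.p1)).re} ∩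
    ({T | ‖FF X T (s.u, s.p1)‖ < 1 / 10} ∩
      {T | ‖FF X T (s.u, (innerSL ℂ e).comp s.p2)‖ < 1 / 10}) with hU
  have hUo : IsOpen U :=
    (isOpen_lt continuous_const (Complex.continuous_re.comp (hc' _))).inter
      ((isOpen_lt (hc' _).norm continuous_const).inter (isOpen_lt (hc' _).norm continuous_const))
  refine not_isMeagre_of_isOpen hUo ?_ (hm.mono ?_)
  · have nu : ‖s.u‖ = 1 := by rw [s.nrm, s.h11, s.h21]; simp
    refine ⟨⟨((innerSL ℂ e).comp s.p2).smulRight s.u, ?_⟩, ?_, ?_, ?_⟩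
    · refine ContinuousLinearMap.opNorm_le_bound _ zero_le_one fun x => ?_
      simp only [ContinuousLinearMap.smulRight_apply, ContinuousLinearMap.comp_apply,
        innerSL_apply_apply, norm_smul, nu, mul_one, one_mul]
      have := norm_inner_le_norm (𝕜 := ℂ) e (s.p2 x)
      rw [he, one_mul] at this
      rw [s.nrm x]
      linarith [norm_nonneg (s.p1 x)]
    · simp [FF, s.h22, s.h11, he]
    · simp [FF, s.h21]
    · simp [FF, s.h21]
  · rintro T ⟨c1, c2, c3⟩ x f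
    exact stable T.1 T.2 (s.small e he T.1 T.2 c1 c2 c3) x f

end Split

abbrev HH : Type := lp (fun _ : ℕ => ℂ) 2
abbrev XX : Type := WithLp 1 (ℂ × HH)

noncomputable def sp : Sp HH XX where
  u := WithLp.toLp 1 (1, 0)
  i2 := (WithLp.prodContinuousLinearEquiv 1 ℂ ℂ HH).symm.toContinuousLinearMap.comp
    (ContinuousLinearMap.inr ℂ ℂ HH)
  p1 := (ContinuousLinearMap.fst ℂ ℂ HH).comp
    (WithLp.prodContinuousLinearEquiv 1 ℂ ℂ HH).toContinuousLinearMap
  p2 := (ContinuousLinearMap.snd ℂ ℂ HH).comp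
    (WithLp.prodContinuousLinearEquiv 1 ℂ ℂ HH).toContinuousLinearMap
  dec := fun x => by
    apply (WithLp.prodContinuousLinearEquiv 1 ℂ ℂ HH).injective
    ext <;> simp
  nrm := fun x => WithLp.prod_norm_eq_of_L1 x
  h11 := rfl
  h21 := rfl
  h12 := fun _ => rfl
  h22 := fun _ => rfl

instance : TopologicalSpace.SeparableSpace HH := by
  let b : HilbertBasis ℕ ℂ HH := default
  rw [← TopologicalSpace.isSeparable_univ_iff]
  have h1 := ((Set.countable_range b).isSeparable.span (R := ℂ)).closure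
  have h2 : closure (Submodule.span ℂ (Set.range b) : Set HH) = Set.univ := by
    rw [← Submodule.topologicalClosure_coe, b.dense_span]; rfl
  rwa [h2] at h1

instance : SecondCountableTopology HH := UniformSpace.secondCountable_of_separable HH

lemma not_fd : ¬ FiniteDimensional ℂ XX := by
  intro h
  let b : HilbertBasis ℕ ℂ HH := default
  have h1 : FiniteDimensional ℂ HH :=
    Module.Finite.of_surjective sp.p2.toLinearMap fun y => ⟨sp.i2 y, sp.h22 y⟩
  exact Module.Finite.not_linearIndependent_of_infinite _ b.orthonormal.linearIndependent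

lemma exists_unit : ∃ e : HH, ‖e‖ = 1 :=
  ⟨(default : HilbertBasis ℕ ℂ HH) 0, (default : HilbertBasis ℕ ℂ HH).orthonormal.1 0⟩

end Pool.Agent.H58.WotOpen
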