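import Pool.Agent.H58.XRayDefs

namespace Pool.Agent.H58.XRay
open MeasureTheory Set Filter Topology Module Metric Matrix
open scoped RealInnerProductSpace

variable {n : ℕ}

def HasQ (𝒮 : Set (Submodule ℝ (E n))) : Prop := ∃ B : Matrix (Fin n) (Fin n) ℝ, B.IsSymm ∧ B ≠ 0 ∧
  ∀ S ∈ 𝒮, ∀ v ∈ Sᗮ, ∀ w ∈ Sᗮ, v.ofLp ⬝ᵥ B *ᵥ w.ofLp = 0

lemma marg (S : Submodule ℝ (E n)) {A : Set (E n)} (hA : NullMeasurableSet A volume) :
    (volume.restrict A).map Sᗮ.orthogonalProjectionOnto = volume.withDensity (xray S A) := by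
  ext C hC
  have h : MeasurePreserving (fun z : Sᗮ × S => (z.2 : E n) + z.1) (volume.prod volume) volume := by
    have := (S.measurePreserving_measurableEquivProd (0 : E n)).symm.comp
      Measure.measurePreserving_swap
    rw [InnerProductSpace.euclideanHausdorffMeasure_eq_volume] at this
    exact this.congr (by fun_prop) (.of_forall fun z => by simp)
  have mp : Measurable Sᗮ.orthogonalProjectionOnto := by fun_prop
  have m := (mp hC).inter (measurableSet_toMeasurable volume A)
  rw [Measure.map_apply mp hC, Measure.restrict_apply (mp hC), withDensity_apply _ hC,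
    ← measure_congr (ae_eq_set_inter (ae_eq_refl _) hA.toMeasurable_ae_eq),
    ← h.measure_preimage m.nullMeasurableSet, Measure.prod_apply (h.measurable m),
    ← lintegral_indicator hC]
  refine lintegral_congr_ae ?_
  filter_upwards [Measure.ae_ae_of_ae_prod (h.quasiMeasurePreserving.ae hA.toMeasurable_ae_eq)]
    with y hy
  have e : ∀ s : S, Sᗮ.orthogonalProjectionOnto ((s : E n) + y) = y := fun s => by
    rw [map_add, Submodule.orthogonalProjectionOnto_orthogonal_apply_eq_zero s.2]; simp
  by_cases hc : y ∈ C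
  · rw [indicator_of_mem hc]
    refine measure_congr (hy.mono fun s hs => ?_)
    rw [eq_iff_iff] at hs ⊢
    exact (and_iff_right (by simpa [e] using hc)).trans hs
  · rw [indicator_of_notMem hc]
    exact measure_mono_null (fun s hs => hc (e s ▸ hs.1)) measure_empty

theorem det_of {𝒮 : Finset (Submodule ℝ (E n))} (hn : 0 < n) (h : ¬HasQ (𝒮 : Set (Submodule ℝ (E n))))
    {A : Set (E n)} (hA : IsEllipsoid A) : DeterminedAE 𝒮 A := by
  intro A' (mA' : NullMeasurableSet A' volume) bA' hx
  change volume _ = 0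
  obtain ⟨T, rfl⟩ := hA
  have cT := T.continuous_of_finiteDimensional
  set A := T '' closedBall 0 1 with hA
  have cA : IsCompact A := (isCompact_closedBall _ _).image cT
  have i : ∀ {X : Set (E n)} {g : E n → ℝ}, Bornology.IsBounded X → Continuous g →
      IntegrableOn g X := fun hX hg =>
    (hg.continuousOn.integrableOn_compact hX.isCompact_closure).mono_set subset_closure
  have k : ∀ S ∈ 𝒮, ∀ g : Sᗮ → ℝ, Continuous g → ∫ x in A', g (Sᗮ.orthogonalProjectionOnto x) =
      ∫ x in A, g (Sᗮ.orthogonalProjectionOnto x) := fun S hS g hg => by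
    rw [← integral_map (by fun_prop) hg.aestronglyMeasurable, marg S mA',
      withDensity_congr_ae (μ := volume) (hx S hS), ← marg S cA.nullMeasurableSet,
      integral_map (by fun_prop) hg.aestronglyMeasurable]
  let B : Matrix (Fin n) (Fin n) ℝ := of fun a b =>
    (∫ x in A', (x - T 0) a * (x - T 0) b) - ∫ x in A, (x - T 0) a * (x - T 0) b
  have q : ∀ v w : E n, v.ofLp ⬝ᵥ B *ᵥ w.ofLp = (∫ x in A', ⟪v, x - T 0⟫ * ⟪w, x - T 0⟫) -
      ∫ x in A, ⟪v, x - T 0⟫ * ⟪w, x - T 0⟫ := fun v w => by
    have : ∀ X, Bornology.IsBounded X → ∫ x in X, ⟪v, x - T 0⟫ * ⟪w, x - T 0⟫ =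
        ∑ a, ∑ b, v a * ((∫ x in X, (x - T 0) a * (x - T 0) b) * w b) := fun X hX => by
      simp only [← integral_mul_const, ← integral_const_mul]
      rw [← Finset.sum_product', ← integral_finsetSum _ fun a _ => i hX (by fun_prop)]
      congr 1; ext x
      simp only [PiLp.inner_apply, Finset.sum_mul_sum, Finset.sum_product]
      exact Finset.sum_congr rfl fun a _ => Finset.sum_congr rfl fun b _ => by simp; ring
    rw [this _ bA', this _ cA.isBounded]
    simp [B, dotProduct, mulVec, Finset.mul_sum, sub_mul, mul_sub]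
  have B0 : B = 0 := by
    by_contra h0
    refine h ⟨B, IsSymm.ext fun a b => by simp [B, mul_comm], h0, fun S hS v hv w hw => ?_⟩
    have e : ∀ v ∈ Sᗮ, ∀ x, ⟪v, x - T 0⟫ = ⟪v, Sᗮ.orthogonalProjectionOnto x - T 0⟫ := fun v hv x => by
      rw [inner_sub_right, inner_sub_right, ← Submodule.inner_orthogonalProjectionOnto_eq_of_mem_left
        (⟨v, hv⟩ : Sᗮ)]; rfl
    have := k S hS (fun y => ⟪v, y - T 0⟫ * ⟪w, y - T 0⟫) (by fun_prop)
    simp only [← e v hv, ← e w hw] at this
    rw [q, this, sub_self]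
  obtain ⟨S, hS⟩ : 𝒮.Nonempty := by
    by_contra h0
    have : Nonempty (Fin n) := ⟨⟨0, hn⟩⟩
    exact h ⟨1, isSymm_one, one_ne_zero, fun S hS => (h0 ⟨S, hS⟩).elim⟩
  let f : E n → ℝ := fun x => 1 - ‖T.symm x‖ ^ 2
  have cf : Continuous f := by have := T.symm.continuous_of_finiteDimensional; fun_prop
  have e : ∫ x in A', f x = ∫ x in A, f x := by
    let u := fun j => LinearMap.adjoint T.symm.linear.toLinearMap (EuclideanSpace.single j 1)
    have : ∀ x, f x = 1 - ∑ j, ⟪u j, x - T 0⟫ * ⟪u j, x - T 0⟫ := fun x => by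
      have : T.symm.linear (x - T 0) = T.symm x := by
        simpa using T.symm.toAffineMap.linearMap_vsub x (T 0)
      simp only [f, u, LinearMap.adjoint_inner_left, LinearEquiv.coe_coe, this,
        EuclideanSpace.real_norm_sq_eq, EuclideanSpace.inner_single_left]
      simp [sq]
    have j : ∀ X, Bornology.IsBounded X → ∫ x in X, f x =
        (∫ x in X, (1 : ℝ)) - ∑ j, ∫ x in X, ⟪u j, x - T 0⟫ * ⟪u j, x - T 0⟫ := fun X hX => by
      simp only [this]
      rw [integral_sub (i hX (by fun_prop)) (i hX (by fun_prop)),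
        integral_finsetSum _ fun a _ => i hX (by fun_prop)]
    rw [j _ bA', j _ cA.isBounded, k S hS (fun _ => 1) continuous_const]
    congr 1
    exact Finset.sum_congr rfl fun j _ => sub_eq_zero.1 (by rw [← q, B0]; simp)
  have mem : ∀ x, x ∈ A ↔ 0 ≤ f x := fun x => by
    have : x ∈ A ↔ ‖T.symm x‖ ≤ 1 :=
      ⟨by rintro ⟨y, h, rfl⟩; simpa using h, fun h => ⟨_, by simpa using h, T.apply_symm_apply x⟩⟩
    simp [this, f]
  have mA := cA.nullMeasurableSet (μ := volume)
  have s : ∀ {g : E n → ℝ}, Continuous g → ∫ x in A', g x = ∫ x in A, g x →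
      ∫ x in A' \ A, g x = ∫ x in A \ A', g x := fun hg e => by
    have s1 := integral_inter_add_sdiff₀ mA (i bA' hg)
    have s2 := integral_inter_add_sdiff₀ mA' (i cA.isBounded hg)
    rw [inter_comm] at s2; linarith
  have z : volume (A' \ A) = 0 := by
    by_contra h0
    have := (setIntegral_pos_iff_support_of_nonneg_ae (f := fun x => -f x)
      ((ae_restrict_mem₀ (mA'.diff mA)).mono fun x hx => neg_nonneg.2 (not_le.1 (mt (mem x).2 hx.2)).le)
      (i (bA'.subset sdiff_subset) cf.neg)).2 ((pos_iff_ne_zero.2 h0).trans_le (measure_mono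
        fun x hx => ⟨(neg_pos.2 (not_le.1 (mt (mem x).2 hx.2))).ne', hx⟩))
    rw [integral_neg, s cf e] at this
    linarith [integral_nonneg_of_ae ((ae_restrict_mem₀ (mA.diff mA')).mono fun x hx => (mem x).1 hx.1)]
  have := s continuous_const (k S hS (fun _ => 1) continuous_const)
  simp only [integral_const, measureReal_restrict_apply_univ, smul_eq_mul, mul_one] at this
  rw [Measure.real, z, eq_comm, ENNReal.toReal_zero, measureReal_eq_zero_iff
    (ne_top_of_le_ne_top cA.measure_ne_top (measure_mono sdiff_subset))] at this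
  exact measure_union_null z this

end Pool.Agent.H58.XRay
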