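import Pool.Agent.H58.XRay1

namespace Pool.Agent.H58.XRay
open MeasureTheory Set Filter Topology Module Metric Matrix
open scoped RealInnerProductSpace

variable {n : ℕ}

lemma shear (S : Submodule ℝ (E n)) (T : E n →ₗ[ℝ] E n) (hT : ∀ x, T x - x ∈ S) (h0 : T.det ≠ 0)
    (A : Set (E n)) (y : Sᗮ) : xray S (T '' A) y = ENNReal.ofReal |T.det| * xray S A y := by
  have hS : S ≤ S.comap T := fun x hx => by simpa using S.add_mem (hT x) hx
  have d : (T.restrict hS).det = T.det := by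
    rw [LinearMap.det_eq_det_mul_det S T hS, show S.mapQ S T hS = .id from
      S.linearMap_qext (LinearMap.ext fun x => (Submodule.Quotient.eq S).2 (hT x))]
    simp
  have inj : Function.Injective T := (LinearMap.equivOfDetNeZero T h0).injective
  rw [xray, xray, vol, ← d, ← Measure.addHaar_image_linearMap,
    ← measure_preimage_add _ (⟨_, hT y⟩ : S) {s : S | _ ∈ T '' A}]
  congr 1
  ext s
  obtain ⟨s, rfl⟩ := (LinearMap.equivOfDetNeZero _ (d ▸ h0 : (T.restrict hS).det ≠ 0)).surjective s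
  have e : ∀ s : S, (T y - y + (T.restrict hS s : E n)) + y = T (s + y) := fun s => by
    rw [map_add, LinearMap.coe_restrict_apply]; abel
  exact (e s ▸ inj.mem_set_image (s := A)).trans
    ((LinearMap.equivOfDetNeZero _ (d ▸ h0 : (T.restrict hS).det ≠ 0)).injective.mem_set_image
      (s := {s : S | (s : E n) + y ∈ A})).symm

lemma xray_eq (S : Submodule ℝ (E n)) {L : E n →ₗ[ℝ] E n} (hL : L.IsSymmetric) (h0 : L.det ≠ 0)
    (h : ∀ v ∈ Sᗮ, ∀ w ∈ Sᗮ, ⟪L v, L w⟫ = ⟪v, w⟫) (y : Sᗮ) :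
    xray S (L '' closedBall 0 1) y = ENNReal.ofReal |L.det| * xray S (closedBall 0 1) y := by
  let J := (L ∘ₗ Sᗮ.subtype).isometryOfInner fun v w => h v v.2 w w.2
  let U := J.extend.toLinearIsometryEquiv rfl
  have u : U.toLinearEquiv.toLinearMap '' closedBall 0 1 = closedBall 0 1 :=
    (U.image_closedBall 0 1).trans (by simp)
  have d : |(L ∘ₗ U.toLinearEquiv.toLinearMap).det| = |L.det| := by
    have := Measure.addHaar_image_linearMap volume U.toLinearEquiv.toLinearMap (closedBall 0 1)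
    rw [u, eq_comm, ENNReal.mul_eq_right (measure_closedBall_pos _ _ one_pos).ne'
      measure_closedBall_lt_top.ne, ENNReal.ofReal_eq_one] at this
    rw [LinearMap.det_comp, abs_mul, this, mul_one]
  rw [← d, ← shear S _ (fun x => ?_) (by rwa [← abs_ne_zero, d, abs_ne_zero]), LinearMap.coe_comp,
    image_comp, u]
  · rw [← S.orthogonal_orthogonal, Submodule.mem_orthogonal]
    intro w hw
    have : L w = U w := (J.extend_apply ⟨w, hw⟩).symm
    rw [inner_sub_right, LinearMap.comp_apply, ← hL, this]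
    exact sub_eq_zero.2 (U.inner_map_map _ _)

lemma half {δ : Fin n → ℝ} (h : ∃ i, δ i < 0) :
    ∃ t, 0 < t ∧ (∀ i, 0 < 1 + t * δ i) ∧ ∏ i, (1 + t * δ i) = 1 / 2 := by
  obtain ⟨i, hi⟩ := h
  obtain ⟨j, -, hj⟩ := Finset.univ.exists_min_image δ ⟨i, by simp⟩
  have j0 : δ j < 0 := (hj i (by simp)).trans_lt hi
  obtain ⟨t, ht, e⟩ : (1 / 2 : ℝ) ∈ (fun t => ∏ i, (1 + t * δ i)) '' Icc 0 (-(δ j)⁻¹) :=
    intermediate_value_Icc' (by simp [j0.le]) (by fun_prop) ⟨by
      rw [Finset.prod_eq_zero (Finset.mem_univ j) (by simp [j0.ne])]; norm_num, by norm_num⟩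
  refine ⟨t, ht.1.lt_of_ne (by rintro rfl; norm_num at e), fun i => lt_of_le_of_ne ?_ fun h => ?_, e⟩
  · have := mul_le_mul_of_nonpos_right ht.2 j0.le
    rw [neg_mul, inv_mul_cancel₀ j0.ne] at this
    nlinarith [hj i (by simp), ht.1]
  · beta_reduce at e
    rw [Finset.prod_eq_zero (Finset.mem_univ i) h.symm] at e; norm_num at e

lemma nd1 {𝒮 : Finset (Submodule ℝ (E n))} {B : Matrix (Fin n) (Fin n) ℝ} (hB : B.IsSymm)
    (h : ∀ S ∈ 𝒮, ∀ v ∈ Sᗮ, ∀ w ∈ Sᗮ, v.ofLp ⬝ᵥ B *ᵥ w.ofLp = 0) {x y : E n}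
    (hx : 0 < x.ofLp ⬝ᵥ B *ᵥ x.ofLp) (hy : y.ofLp ⬝ᵥ B *ᵥ y.ofLp < 0) :
    ∃ A, IsEllipsoid A ∧ ¬Determined 𝒮 A := by
  have hH : B.IsHermitian := by simpa [IsHermitian] using hB.eq
  set b := hH.eigenvectorBasis
  set δ := hH.eigenvalues
  have q : ∀ v w : E n, v.ofLp ⬝ᵥ B *ᵥ w.ofLp = ∑ i, δ i * (b.repr v i * b.repr w i) := fun v w => by
    conv_lhs => rw [← b.sum_repr w]
    simp only [WithLp.ofLp_sum, WithLp.ofLp_smul, mulVec_sum, mulVec_smul, b,
      hH.mulVec_eigenvectorBasis, dotProduct_sum, dotProduct_smul, OrthonormalBasis.repr_apply_apply,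
      EuclideanSpace.inner_eq_star_dotProduct, star_trivial, smul_eq_mul]
    exact Finset.sum_congr rfl fun i _ => by ring
  have key : ∀ t, (∀ i, 0 < 1 + t * δ i) → ∏ i, (1 + t * δ i) = 1 / 2 → ∃ L : E n ≃ₗ[ℝ] E n,
      (∀ v i, b.repr (L v) i = √(1 + t * δ i) * b.repr v i) ∧ ∀ S ∈ 𝒮, xray S (L '' closedBall 0 1) =
        fun y => ENNReal.ofReal |√(1 / 2)| * xray S (closedBall 0 1) y := fun t h1 h2 => by
    let L := toLin b.toBasis b.toBasis (diagonal fun i => √(1 + t * δ i))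
    have r : ∀ v i, b.repr (L v) i = √(1 + t * δ i) * b.repr v i := fun v i =>
      (congrFun (repr_toLin b.toBasis b.toBasis _ v) i).trans (mulVec_diagonal _ _ _)
    have d : L.det = √(1 / 2) := by
      rw [LinearMap.det_toLin, det_diagonal, ← h2, Real.sqrt_prod _ fun i _ => (h1 i).le]
    have ip : ∀ v w, ⟪v, w⟫ = ∑ i, b.repr v i * b.repr w i := fun v w => by
      rw [← b.repr.inner_map_map, PiLp.inner_apply]; simp [mul_comm]
    have d0 : L.det ≠ 0 := by rw [d]; positivity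
    refine ⟨LinearMap.equivOfDetNeZero L d0, r, fun S hS => funext fun y => d ▸ xray_eq S
      (fun v w => by simp only [ip, r]; exact Finset.sum_congr rfl fun i _ => by ring) d0
      (fun v hv w hw => ?_) y⟩
    have := h S hS v hv w hw
    rw [q] at this
    rw [ip, ip, ← add_zero (∑ i, b.repr v i * _), ← mul_zero t, ← this, Finset.mul_sum,
      ← Finset.sum_add_distrib]
    refine Finset.sum_congr rfl fun i _ => ?_
    rw [r, r, mul_mul_mul_comm, Real.mul_self_sqrt (h1 i).le]; ring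
  obtain ⟨i, hi⟩ : ∃ i, -δ i < 0 := by
    by_contra hc
    push Not at hc
    exact hx.not_ge (q x x ▸ Finset.sum_nonpos fun i _ =>
      mul_nonpos_of_nonpos_of_nonneg (by linarith [hc i]) (mul_self_nonneg _))
  obtain ⟨t, t0, t1, t2⟩ := half (δ := δ) (by
    by_contra hc
    push Not at hc
    exact hy.not_ge (q y y ▸ Finset.sum_nonneg fun i _ => mul_nonneg (hc i) (mul_self_nonneg _)))
  obtain ⟨s, s0, s1, s2⟩ := half (δ := fun i => -δ i) ⟨i, hi⟩
  obtain ⟨L, l1, l2⟩ := key t t1 t2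
  obtain ⟨L', l1', l2'⟩ := key (-s) (by simpa using s1) (by simpa using s2)
  have cp : ∀ L : E n ≃ₗ[ℝ] E n, IsCompact (L '' closedBall 0 1) := fun L =>
    (isCompact_closedBall _ _).image L.toLinearMap.continuous_of_finiteDimensional
  refine ⟨_, ⟨L'.toAffineEquiv, rfl⟩, fun hd => ?_⟩
  have z := hd _ (cp L).nullMeasurableSet (cp L).isBounded fun S hS => (l2 S hS).trans (l2' S hS).symm
  have o : IsOpen (L '' ball 0 1 \ L' '' closedBall 0 1) :=
    (L.toContinuousLinearEquiv.isOpenMap _ isOpen_ball).sdiff (cp L').isClosed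
  refine (o.measure_pos volume ⟨b i, ⟨(√(1 + t * δ i))⁻¹ • b i, ?_, b.repr.injective ?_⟩, ?_⟩).ne'
    (measure_mono_null (fun x hx => .inl ⟨image_mono ball_subset_closedBall hx.1, hx.2⟩) z)
  · have : 1 < √(1 + t * δ i) := Real.lt_sqrt_of_sq_lt (by nlinarith)
    rw [mem_ball_zero_iff, norm_smul, b.norm_eq_one, mul_one, Real.norm_of_nonneg (by positivity)]
    exact inv_lt_one_of_one_lt₀ this
  · ext j
    rw [l1]
    by_cases e : j = i
    · subst e; simp [(Real.sqrt_pos.2 (t1 j)).ne']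
    · simp [e]
  · rintro ⟨x, hx, e⟩
    have h1 := l1' x i
    have h2 : |b.repr x i| ≤ 1 := (PiLp.norm_apply_le (b.repr x) i).trans (by simpa using hx)
    have h3 : √(1 + -s * δ i) < 1 := (Real.sqrt_lt' one_pos).2 (by nlinarith)
    rw [e] at h1
    simp only [OrthonormalBasis.repr_self, PiLp.single_apply, if_true] at h1
    nlinarith [Real.sqrt_nonneg (1 + -s * δ i), le_abs_self (b.repr x i)]

end Pool.Agent.H58.XRay
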