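import Pool.Agent.H58.XRay2
import Pool.Agent.H58.QC2

namespace Pool.Agent.H58.XRay
open Set Module Matrix Submodule
open scoped RealInnerProductSpace

variable {n : ℕ}

def pm (u z : E n) : Matrix (Fin n) (Fin n) ℝ := vecMulVec u.ofLp z.ofLp + vecMulVec z.ofLp u.ofLp

lemma pm_symm (u z : E n) : (pm u z).IsSymm := IsSymm.ext fun a b => by
  simp [pm, vecMulVec_apply]; ring

lemma pm_q (u z v w : E n) :
    v.ofLp ⬝ᵥ pm u z *ᵥ w.ofLp = ⟪u, v⟫ * ⟪z, w⟫ + ⟪z, v⟫ * ⟪u, w⟫ := by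
  simp [pm, add_mulVec, vecMulVec_mulVec, EuclideanSpace.inner_eq_star_dotProduct, dotProduct_comm]
  ring

theorem not_det (hn : 2 ≤ n) {𝒮 : Finset (Submodule ℝ (E n))} (h : HasQ (𝒮 : Set (Submodule ℝ (E n)))) :
    ∃ A, IsEllipsoid A ∧ ¬Determined 𝒮 A := by
  have key : ∀ {B : Matrix (Fin n) (Fin n) ℝ}, B.IsSymm →
      (∀ S ∈ 𝒮, ∀ v ∈ Sᗮ, ∀ w ∈ Sᗮ, v.ofLp ⬝ᵥ B *ᵥ w.ofLp = 0) → ∀ x : E n,
      0 < x.ofLp ⬝ᵥ B *ᵥ x.ofLp → ∃ A, IsEllipsoid A ∧ ¬Determined 𝒮 A := fun {B} hB h x hx => by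
    by_cases hy : ∃ y : E n, y.ofLp ⬝ᵥ B *ᵥ y.ofLp < 0
    · exact nd1 hB h hx hy.choose_spec
    push Not at hy
    let u : E n := WithLp.toLp 2 (B *ᵥ x.ofLp)
    have iu : ∀ v : E n, ⟪u, v⟫ = v.ofLp ⬝ᵥ B *ᵥ x.ofLp := fun v => by
      simp [u, EuclideanSpace.inner_eq_star_dotProduct]
    have u0 : u ≠ 0 := fun e => by rw [← iu, e] at hx; simp at hx
    have hu : ∀ S ∈ 𝒮, ∀ v ∈ Sᗮ, ⟪u, v⟫ = 0 := fun S hS v hv => by
      have e : x.ofLp ⬝ᵥ B *ᵥ v.ofLp = ⟪u, v⟫ := by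
        rw [iu, ← toBilin'_apply', ← toBilin'_apply', QC.sym hB]
      have := hy ((x.ofLp ⬝ᵥ B *ᵥ x.ofLp) • v - ⟪u, v⟫ • x)
      simp only [WithLp.ofLp_sub, WithLp.ofLp_smul, mulVec_sub, mulVec_smul, sub_dotProduct,
        dotProduct_sub, smul_dotProduct, dotProduct_smul, h S hS v hv v hv, e, ← iu v,
        smul_eq_mul] at this
      by_contra h0
      nlinarith [mul_pos hx (mul_self_pos.2 h0)]
    obtain ⟨z, hz, z0⟩ := (Submodule.ne_bot_iff (ℝ ∙ u)ᗮ).1 fun e => by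
      have := (ℝ ∙ u).finrank_add_finrank_orthogonal
      rw [e, finrank_span_singleton u0] at this
      simp at this; omega
    have h1 := mem_orthogonal_singleton_iff_inner_right.1 hz
    have p := mul_pos (real_inner_self_pos.2 u0) (real_inner_self_pos.2 z0)
    refine nd1 (pm_symm u z) (fun S hS v hv w hw => by simp [pm_q, hu S hS v hv, hu S hS w hw])
      (x := u + z) (y := u - z) ?_ ?_ <;>
      simp only [pm_q, inner_add_right, inner_sub_right, h1, real_inner_comm u z] <;> nlinarith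
  obtain ⟨B, hB, B0, h⟩ := h
  obtain ⟨x, hx⟩ : ∃ x : E n, x.ofLp ⬝ᵥ B *ᵥ x.ofLp ≠ 0 := by
    by_contra hc
    push Not at hc
    refine B0 (Matrix.ext fun a b => ?_)
    have := hc (.single a 1 + .single b 1)
    simp only [WithLp.ofLp_add, mulVec_add, add_dotProduct, dotProduct_add, hc] at this
    simp [hB.apply a b] at this ⊢
    linarith
  rcases hx.lt_or_gt with hx | hx
  · exact key hB.neg (fun S hS v hv w hw => by simp [neg_mulVec, h S hS v hv w hw]) x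
      (by simpa [neg_mulVec] using hx)
  · exact key hB h x hx

lemma lowA {m k : ℕ} (f : Fin m → Submodule ℝ (E n)) (hf : ∀ i, finrank ℝ (f i) = k)
    (h : m * (n - k + 1).choose 2 < (n + 1).choose 2) : HasQ (range f) := by
  have hd : ∀ i, finrank ℝ (f i)ᗮ = n - k := fun i => by
    have := (f i).finrank_add_finrank_orthogonal; simp [hf] at this; omega
  let b := fun i => finBasisOfFinrankEq ℝ (f i)ᗮ (hd i)
  let M : (Sym2 (Fin n) → ℝ) →ₗ[ℝ] Matrix (Fin n) (Fin n) ℝ :=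
    LinearMap.pi fun a => LinearMap.pi fun c => LinearMap.proj s(a, c)
  have sM : ∀ x, (M x).IsSymm := fun x => IsSymm.ext fun a c => congrArg x Sym2.eq_swap
  let Φ : (Sym2 (Fin n) → ℝ) →ₗ[ℝ] (Fin m × Sym2 (Fin (n - k)) → ℝ) := LinearMap.pi fun j =>
    LinearMap.applyₗ (b j.1 j.2.out.2).1.ofLp ∘ₗ LinearMap.applyₗ (b j.1 j.2.out.1).1.ofLp ∘ₗ
      toBilin'.toLinearMap ∘ₗ M
  obtain ⟨x, hx, x0⟩ := (Submodule.ne_bot_iff _).1 (Φ.ker_ne_bot_of_finrank_lt (by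
    simpa [Sym2.card] using h))
  refine ⟨M x, sM x, fun e => x0 (funext fun s => s.ind fun a c => congrFun (congrFun e a) c), ?_⟩
  rintro _ ⟨i, rfl⟩ v hv w hw
  have : (toBilin' (M x)).compl₁₂ ((WithLp.linearEquiv 2 ℝ _).toLinearMap ∘ₗ (f i)ᗮ.subtype)
      ((WithLp.linearEquiv 2 ℝ _).toLinearMap ∘ₗ (f i)ᗮ.subtype) = 0 :=
    (b i).ext fun s => (b i).ext fun t => by
      have := congrFun (LinearMap.mem_ker.1 hx) (i, s(s, t))
      have o : s((s(s, t) : Sym2 _).out.1, (s(s, t) : Sym2 _).out.2) = s(s, t) := Quot.out_eq _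
      rcases Sym2.eq_iff.1 o with ⟨h1, h2⟩ | ⟨h1, h2⟩ <;>
        simp only [Φ, LinearMap.pi_apply, h1, h2] at this
      · exact this
      · exact (QC.sym (sM x) _ _).trans this
  exact (toBilin'_apply' _ _ _).symm.trans (LinearMap.congr_fun₂ this ⟨v, hv⟩ ⟨w, hw⟩)

lemma lowB {𝒮 : Set (Submodule ℝ (E n))} {u z : E n} (u0 : u ≠ 0) (z0 : z ≠ 0)
    (h : ∀ S ∈ 𝒮, u ∈ S ∨ z ∈ S) : HasQ 𝒮 := by
  refine ⟨pm u z, pm_symm u z, fun e => ?_, fun S hS v hv w hw => ?_⟩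
  · have a := pm_q u z u u
    have b := pm_q u z u z
    have p := real_inner_self_pos.2 u0
    have := mul_pos p (real_inner_self_pos.2 z0)
    rw [e, zero_mulVec, dotProduct_zero] at a b
    rw [real_inner_comm u z] at b
    nlinarith [mul_self_nonneg ⟪u, z⟫]
  · rcases h S hS with h | h <;>
      simp [pm_q, inner_right_of_mem_orthogonal h hv, inner_right_of_mem_orthogonal h hw]

lemma lowC {k : ℕ} (hk : n + 1 < 3 * k) (f : Fin 3 → Submodule ℝ (E n))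
    (hf : ∀ i, finrank ℝ (f i) = k) : HasQ (range f) := by
  have ne : ∀ i, ∃ u ∈ f i, u ≠ 0 := fun i => (Submodule.ne_bot_iff _).1 fun e => by
    have := hf i
    rw [e, finrank_bot] at this; omega
  by_cases hd : ∃ i j, i ≠ j ∧ ∃ u, u ∈ f i ∧ u ∈ f j ∧ u ≠ 0
  · obtain ⟨i, j, hij, u, h1, h2, u0⟩ := hd
    obtain ⟨l, hl⟩ : ∃ l, ∀ a, a = i ∨ a = j ∨ a = l :=
      (by decide : ∀ i j : Fin 3, i ≠ j → ∃ l, ∀ a, a = i ∨ a = j ∨ a = l) i j hij
    obtain ⟨z, hz, z0⟩ := ne l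
    refine lowB u0 z0 ?_
    rintro _ ⟨a, rfl⟩
    rcases hl a with rfl | rfl | rfl <;> simp [*]
  push Not at hd
  let φ : (f 0 × f 1 × f 2) →ₗ[ℝ] E n := (f 0).subtype.coprod ((f 1).subtype.coprod (f 2).subtype)
  obtain ⟨g, hg⟩ := exists_linearIndependent_of_le_finrank (R := ℝ) (M := φ.ker) (n := 2) (by
    have := φ.finrank_range_add_finrank_ker
    have := φ.range.finrank_le
    simp [hf] at *; omega)
  have hg' := LinearIndependent.pair_iff.1 (show LinearIndependent ℝ ![g 0, g 1] by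
    convert hg; ext i : 1; fin_cases i <;> rfl)
  generalize g 0 = x, g 1 = y at hg'
  obtain ⟨⟨⟨a0, ha0⟩, ⟨a1, ha1⟩, ⟨a2, ha2⟩⟩, ea⟩ := x
  obtain ⟨⟨⟨b0, hb0⟩, ⟨b1, hb1⟩, ⟨b2, hb2⟩⟩, eb⟩ := y
  have ea' : a2 = -(a0 + a1) := by
    rw [eq_neg_iff_add_eq_zero, add_comm, add_assoc]; exact ea
  have eb' : b2 = -(b0 + b1) := by
    rw [eq_neg_iff_add_eq_zero, add_comm, add_assoc]; exact eb
  subst ea' eb'
  have li : ∀ s t : ℝ, s • a0 + t • b0 = 0 → s = 0 ∧ t = 0 := fun s t e => by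
    have e2 : s • -(a0 + a1) + t • -(b0 + b1) = -(s • a1 + t • b1) := by
      linear_combination (norm := module) -e
    have e1 := hd 1 2 (by decide) (s • a1 + t • b1) (add_mem (smul_mem _ _ ha1) (smul_mem _ _ hb1))
      (neg_mem_iff.1 (e2 ▸ add_mem (smul_mem _ _ ha2) (smul_mem _ _ hb2)))
    rw [e1, neg_zero] at e2
    exact hg' s t (Subtype.ext (Prod.ext (Subtype.ext e) (Prod.ext (Subtype.ext e1) (Subtype.ext e2))))
  have q : ∀ v w : E n, v.ofLp ⬝ᵥ (pm a0 b1 - pm a1 b0) *ᵥ w.ofLp =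
      ⟪(⟪b1, v⟫ • a0 + -⟪a1, v⟫ • b0) + (⟪a0, v⟫ • b1 + -⟪b0, v⟫ • a1), w⟫ := fun v w => by
    simp only [sub_mulVec, dotProduct_sub, pm_q, inner_add_left, real_inner_smul_left]; ring
  refine ⟨pm a0 b1 - pm a1 b0, (pm_symm _ _).sub (pm_symm _ _), fun e => ?_, ?_⟩
  · have h1 := q a1
    simp only [e, zero_mulVec, dotProduct_zero] at h1
    have h2 := inner_self_eq_zero.1 (h1 _).symm
    have h3 := hd 0 1 (by decide) _ (add_mem (smul_mem _ ⟪b1, a1⟫ ha0) (smul_mem _ (-⟪a1, a1⟫) hb0))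
      (eq_neg_of_add_eq_zero_left h2 ▸ neg_mem (add_mem (smul_mem _ _ hb1) (smul_mem _ _ ha1)))
    obtain rfl : a1 = 0 := inner_self_eq_zero.1 (neg_eq_zero.1 (li _ _ h3).2)
    exact one_ne_zero (li 1 0 (by simpa using hd 0 2 (by decide) a0 ha0 (by simpa using ha2))).1
  · rintro _ ⟨i, rfl⟩ v hv w hw
    have o := fun {x y} (hx : x ∈ f i) (hy : y ∈ (f i)ᗮ) => inner_right_of_mem_orthogonal hx hy
    rw [sub_mulVec, dotProduct_sub, pm_q, pm_q]
    fin_cases i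
    · simp [o ha0 hv, o ha0 hw, o hb0 hv, o hb0 hw]
    · simp [o ha1 hv, o ha1 hw, o hb1 hv, o hb1 hw]
    · have h1 := o ha2 hv
      have h2 := o ha2 hw
      have h3 := o hb2 hv
      have h4 := o hb2 hw
      simp only [inner_neg_left, inner_add_left, neg_eq_zero, add_eq_zero_iff_eq_neg] at h1 h2 h3 h4
      rw [h1, h2, h3, h4]; ring

lemma ch (x : ℕ) : 2 * (((x + 1).choose 2 : ℕ) : ℤ) = x * (x + 1) := by
  have := Nat.add_one_mul_choose_eq x 1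
  rw [Nat.choose_one_right] at this
  zify at this; linarith

lemma ineq {d m : ℕ} (dn : d ≤ n) (h : (m = 3 ∧ 2 * n ≤ 3 * d + 1 ∧ n < 2 * d) ∨
    (4 ≤ m ∧ (n + 1).choose 2 ≤ m * (d + 1).choose 2)) : QC.Ineq n d m := by
  intro r e r1 rn er ed
  obtain ⟨g, g1, g2, g3⟩ : ∃ g, e + g ≤ d ∧ 2 * (e + g) ≤ r ∧ (e + g = d ∨ r ≤ 2 * (e + g) + 1) :=
    ⟨min d (r / 2) - e, by omega⟩
  have c1 := ch n
  have c2 := ch (n - r)
  have c3 := ch e
  have c4 := ch d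
  rw [QC.c, tsub_le_iff_right]
  have rn0 := rn
  zify [rn, ed, (by omega : e ≤ r)] at c1 c2 c3 c4 g1 g2 g3 h dn er r1 ⊢
  generalize (((n + 1).choose 2 : ℕ) : ℤ) = X at *
  generalize (((n - r + 1).choose 2 : ℕ) : ℤ) = Y at *
  generalize (((e + 1).choose 2 : ℕ) : ℤ) = Z at *
  generalize (((d + 1).choose 2 : ℕ) : ℤ) = W at *
  have rn' : (r : ℤ) ≤ n := by exact_mod_cast rn0
  have e0 : (0 : ℤ) ≤ e := by positivity
  have g0 : (0 : ℤ) ≤ g := by positivity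
  have m0 : (0 : ℤ) ≤ m := by positivity
  generalize (n : ℤ) = n at *
  generalize (d : ℤ) = d at *
  generalize (m : ℤ) = m at *
  generalize (r : ℤ) = r at *
  generalize (e : ℤ) = e at *
  generalize (g : ℤ) = g at *
  obtain ⟨a, rfl⟩ : ∃ a, g = a - e := ⟨e + g, by ring⟩
  simp only [add_sub_cancel] at *
  have k : a * (a + 1) + 2 * (d - a) * (r - a) ≤ e * (e + 1) + 2 * (d - e) * (r - e) := by
    rcases g0.eq_or_lt with h | h
    · obtain rfl : a = e := by linarith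
      rfl
    · nlinarith [mul_nonneg g0 (show 0 ≤ 2 * r + 2 * d - 3 * a - 3 * e - 1 by linarith)]
  suffices r * (2 * n - r + 1) ≤ m * (a * (a + 1) + 2 * (d - a) * (r - a)) by
    nlinarith [mul_le_mul_of_nonneg_left k m0]
  have a0 : 0 ≤ a := by linarith
  have sq : ∀ x : ℤ, 0 ≤ x * (x + 1) := fun x => by
    rcases le_or_gt 0 x with h | h <;> nlinarith
  rcases h with ⟨rfl, h1, h2⟩ | ⟨h1, h2⟩
  · rcases (by omega : r = 2 * a ∨ r = 2 * a + 1) with rfl | rfl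
    · nlinarith [mul_nonneg a0 (show 0 ≤ 6 * d + 1 + a - 4 * n by omega)]
    · nlinarith [mul_nonneg (show 0 ≤ a + 1 by omega) (show 0 ≤ 3 * d + 1 - 2 * n by omega)]
  have h3 : n * (n + 1) ≤ m * (d * (d + 1)) := by nlinarith
  rcases g1.eq_or_lt with rfl | ad
  · nlinarith [sq (n - r)]
  rcases (by omega : r = 2 * a ∨ r = 2 * a + 1) with rfl | rfl
  · have : 2 * (2 * n - 2 * d + 1) ≤ m * (d + 1) :=
      le_of_mul_le_mul_left (by nlinarith [sq (n - 2 * d)]) (show 0 < d by omega)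
    nlinarith [mul_nonneg a0 (show 0 ≤ m * (2 * d - a + 1) - 2 * (2 * n - 2 * a + 1) by nlinarith)]
  · have p0 : n ≤ m * d := by nlinarith
    have p1 := sq (n - 2 * d + 1)
    rcases le_total ((m - 4) * a) (m * (2 * d - 1) - 4 * n + 2) with h | h
    · nlinarith [mul_nonneg a0 (sub_nonneg.2 h)]
    · nlinarith [mul_nonneg (show 0 ≤ d - 1 - a by omega) (show 0 ≤ (m - 4) * (d - 1 + a) -
        (m * (2 * d - 1) - 4 * n + 2) by nlinarith)]

theorem upper {k m : ℕ} (kn : k ≤ n) (H : QC.Ineq n (n - k) m) :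
    ∃ f : Fin m → Submodule ℝ (E n), (∀ i, finrank ℝ (f i) = k) ∧ ¬HasQ (range f) := by
  obtain ⟨M, hM⟩ := QC.real_ex H
  have : ∀ i, ∃ S : Submodule ℝ (E n), finrank ℝ S = k ∧ ∀ s, WithLp.toLp 2 (M i s) ∈ Sᗮ := fun i => by
    set W := span ℝ (range fun s => (WithLp.toLp 2 (M i s) : E n))
    obtain ⟨g, hg⟩ := exists_linearIndependent_of_le_finrank (R := ℝ) (M := Wᗮ) (n := k) (by
      have := W.finrank_add_finrank_orthogonal
      have : finrank ℝ W ≤ _ := finrank_range_le_card _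
      simp at *; omega)
    refine ⟨span ℝ (range (Wᗮ.subtype ∘ g)), by
      rw [finrank_span_eq_card (hg.map' _ (ker_subtype _))]; simp, fun s => ?_⟩
    refine orthogonal_le (span_le.2 ?_) (W.le_orthogonal_orthogonal (subset_span ⟨s, rfl⟩))
    rintro _ ⟨j, rfl⟩; exact (g j).2
  choose f h1 h2 using this
  exact ⟨f, h1, fun ⟨B, hB, B0, h⟩ => B0 (hM B hB fun i s t => h _ ⟨i, rfl⟩ _ (h2 i s) _ (h2 i t))⟩

end Pool.Agent.H58.XRay
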