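import Mathlib

namespace Pool.Agent.H58.XRay
open MeasureTheory

/-- Euclidean `n`-space. -/
abbrev E (n : ℕ) := EuclideanSpace ℝ (Fin n)

variable {V : Type} [NormedAddCommGroup V] [InnerProductSpace ℝ V] [FiniteDimensional ℝ V]
  [MeasurableSpace V] [BorelSpace V]

/-- Lebesgue measure of a finite-dimensional Euclidean space. -/
noncomputable def vol (V : Type) [NormedAddCommGroup V] [InnerProductSpace ℝ V]
  [FiniteDimensional ℝ V] [MeasurableSpace V] [BorelSpace V] : Measure V := volume

/-- The X-ray of `A` parallel to `S`: the volume of `A ∩ (S + x)`, for `x ∈ Sᗮ`. -/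
noncomputable def xray (S : Submodule ℝ V) (A : Set V) (x : Sᗮ) : ENNReal :=
  vol S {s : S | (s : V) + x ∈ A}

/-- Images of the closed unit ball under nonsingular affine maps. -/
def IsEllipsoid (A : Set V) : Prop :=
  ∃ T : V ≃ᵃ[ℝ] V, A = T '' Metric.closedBall 0 1

/-- `A` is determined among bounded Lebesgue measurable sets by its X-rays parallel to the members
of `𝒮` (equality of X-rays at every point). -/
def Determined (𝒮 : Finset (Submodule ℝ V)) (A : Set V) : Prop :=
  ∀ A', NullMeasurableSet A' (vol V) → Bornology.IsBounded A' →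
    (∀ S ∈ 𝒮, xray S A' = xray S A) → vol V (symmDiff A' A) = 0

/-- The X-rays of `A'` and `A` parallel to `S` agree almost everywhere. -/
def SameAE (S : Submodule ℝ V) (A' A : Set V) : Prop := xray S A' =ᵐ[vol Sᗮ] xray S A

/-- The same with equality of X-rays almost everywhere. -/
def DeterminedAE (𝒮 : Finset (Submodule ℝ V)) (A : Set V) : Prop :=
  ∀ A', NullMeasurableSet A' (vol V) → Bornology.IsBounded A' →
    (∀ S ∈ 𝒮, SameAE S A' A) → vol V (symmDiff A' A) = 0

/-- Some set of `m` subspaces of dimension `k` has property `D` for every ellipsoid. -/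
def Works (D : Finset (Submodule ℝ V) → Set V → Prop) (k m : ℕ) : Prop :=
  ∃ 𝒮 : Finset (Submodule ℝ V), 𝒮.card = m ∧ (∀ S ∈ 𝒮, Module.finrank ℝ S = k) ∧
    ∀ A, IsEllipsoid A → D 𝒮 A

end Pool.Agent.H58.XRay
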